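import Mathlib

set_option autoImplicit false

namespace Pool.Agent.H49.Arbor

open Polynomial IntermediateField

variable {K : Type} [Field K]

noncomputable def f (K : Type) [Field K] : K[X] := (X - 1) ^ 2 + 1

lemma iter (n : ℕ) : ((f K).comp)^[n] X = (X - 1) ^ (2 ^ n) + 1 := by
  induction n with
  | zero => simp
  | succ n ih =>
    rw [Function.iterate_succ_apply', ih]
    simp only [f, add_comp, pow_comp, sub_comp, X_comp, one_comp, add_sub_cancel_right]
    rw [← pow_mul, ← pow_succ]

lemma natDegree_f : (f K).natDegree = 2 := by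
  unfold f
  rw [← C_1]
  compute_degree!

lemma not_per [CharZero K] (m : ℕ) (hm : 1 ≤ m) : (fun x => eval x (f K))^[m] 0 ≠ 0 := by
  have : (fun x => eval x (f K))^[m] 0 = 2 := by
    induction m, hm using Nat.le_induction with
    | base => simp [f]; norm_num
    | succ m _ ih => rw [Function.iterate_succ_apply', ih]; simp [f]; norm_num
  rw [this]
  norm_num

lemma upper [CharZero K] (n : ℕ) :
    Module.finrank K (SplittingField ((X - 1) ^ (2 ^ n) + 1 : K[X])) ≤ 2 ^ n := by
  set p : K[X] := (X - 1) ^ (2 ^ n) + 1 with hp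
  have hdeg : p.natDegree = 2 ^ n := by
    rw [hp, ← C_1, natDegree_add_C, natDegree_pow, natDegree_X_sub_C, mul_one]
  have hp0 : p ≠ 0 := by
    intro h
    rw [h, natDegree_zero] at hdeg
    exact (pow_pos two_pos n).ne hdeg
  have : CharZero (SplittingField p) := charZero_of_injective_algebraMap (algebraMap K _).injective
  obtain ⟨r, hr⟩ := (SplittingField.splits p).exists_eval_eq_zero (by
    rw [degree_map]
    intro h
    rw [natDegree_eq_of_degree_eq_some h] at hdeg
    exact (pow_pos two_pos n).ne hdeg)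
  have key : ∀ s : SplittingField p, aeval s p = 0 → (s - 1) ^ (2 ^ n) = -1 := by
    intro s hs
    simp only [hp, map_add, map_pow, map_sub, aeval_X, map_one] at hs
    exact eq_neg_of_add_eq_zero_left hs
  rw [eval_map_algebraMap] at hr
  have h1 := key r hr
  have hprim : IsPrimitiveRoot (r - 1) (2 ^ (n + 1)) := by
    rw [← orderOf_eq_prime_pow (x := r - 1) (p := 2) (n := n)]
    · exact IsPrimitiveRoot.orderOf _
    · rw [h1]; norm_num
    · rw [pow_succ, pow_mul, h1]; norm_num
  have hint : IsIntegral K r := Algebra.IsIntegral.isIntegral r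
  have htop : (⊤ : IntermediateField K (SplittingField p)) ≤ K⟮r⟯ := by
    intro x _
    have hx : x ∈ Algebra.adjoin K (p.rootSet (SplittingField p)) := by
      rw [SplittingField.adjoin_rootSet]; trivial
    refine (Algebra.adjoin_le (S := K⟮r⟯.toSubalgebra) ?_) hx
    intro s hs
    have h2 := key s (mem_rootSet.1 hs).2
    obtain ⟨i, -, hi⟩ := hprim.eq_pow_of_pow_eq_one (ξ := s - 1)
      (by rw [pow_succ, pow_mul, h2]; norm_num)
    have : s = (r - 1) ^ i + 1 := by rw [hi]; ring
    rw [this]
    exact add_mem (pow_mem (sub_mem (mem_adjoin_simple_self K r) (one_mem _)) _) (one_mem _)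
  have h3 := finrank_le_of_le_right htop
  rw [finrank_top', adjoin.finrank hint] at h3
  refine h3.trans ?_
  rw [← hdeg]
  exact natDegree_le_of_dvd (minpoly.dvd K r hr) hp0

lemma sep (N : ℕ) (hN : 0 < N) (c : Fin N → K[X])
    (h : ∑ j, (c j).comp (X ^ N + 1) * X ^ (j : ℕ) = 0) (j : Fin N) : c j = 0 := by
  apply taylor_injective (1 : K)
  rw [map_zero]
  ext k
  have h1 := congrArg (fun q => coeff q (N * k + j)) h
  simp only [finsetSum_coeff, coeff_zero] at h1
  have e : ∀ i, (c i).comp (X ^ N + 1) = expand K N (taylor 1 (c i)) := by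
    intro i
    rw [expand_eq_comp_X_pow, taylor_apply, comp_assoc]
    simp
  rw [Finset.sum_eq_single j] at h1
  · rw [e, coeff_mul_X_pow', if_pos (by omega), coeff_expand hN, Nat.add_sub_cancel,
      if_pos (dvd_mul_right _ _), Nat.mul_div_cancel_left _ hN] at h1
    rw [h1, coeff_zero]
  · intro i _ hi
    rw [e, coeff_mul_X_pow']
    split_ifs with hle
    · rw [coeff_expand hN, if_neg]
      rintro ⟨u, hu⟩
      apply hi
      apply Fin.ext
      have h2 : (N * k + j) % N = (N * u + i) % N := by congr 1; omega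
      rw [Nat.mul_add_mod, Nat.mul_add_mod, Nat.mod_eq_of_lt j.2, Nat.mod_eq_of_lt i.2] at h2
      exact h2.symm
    · rfl
  · simp

lemma indep {Ω : Type} [Field Ω] [Algebra K Ω] (z w : Ω) (hz : IsIntegral K z)
    (hw : Transcendental K w) (A : Fin (minpoly K z).natDegree → K[X])
    (h : ∑ i : Fin (minpoly K z).natDegree, z ^ (i : ℕ) * aeval w (A i) = 0)
    (i : Fin (minpoly K z).natDegree) : A i = 0 := by
  have : FiniteDimensional K K⟮z⟯ := adjoin.finiteDimensional hz
  have hw' : Transcendental K⟮z⟯ w := hw.extendScalars _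
  set B : K⟮z⟯[X] := ∑ i : Fin (minpoly K z).natDegree,
    C (AdjoinSimple.gen K z ^ (i : ℕ)) * (A i).map (algebraMap K K⟮z⟯) with hB
  have hB0 : B = 0 := by
    by_contra hne
    apply hw'
    refine ⟨B, hne, ?_⟩
    rw [hB, map_sum, ← h]
    apply Finset.sum_congr rfl
    intro i _
    rw [map_mul, aeval_C, aeval_map_algebraMap, map_pow, AdjoinSimple.algebraMap_gen]
  ext k
  have h1 := congrArg (fun q => algebraMap K⟮z⟯ Ω (coeff q k)) hB0
  simp only [hB, finsetSum_coeff, coeff_C_mul, coeff_map, coeff_zero] at h1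
  simp only [map_zero, map_sum, map_mul, map_pow, AdjoinSimple.algebraMap_gen] at h1
  refine Fintype.linearIndependent_iff.1 (linearIndependent_pow (K := K) z)
    (fun i => (A i).coeff k) ?_ i
  rw [← h1]
  apply Finset.sum_congr rfl
  intro i _
  rw [Algebra.smul_def, mul_comm, ← IsScalarTower.algebraMap_apply]

lemma lower [CharZero K] (n : ℕ) (hirr : Irreducible (cyclotomic (2 ^ (n + 1)) K)) :
    2 ^ n * 2 ^ (n + 1) ≤ Module.finrank (RatFunc K) (SplittingField
      (Polynomial.map (algebraMap K (RatFunc K)) ((X - 1) ^ (2 ^ (n + 1)) + 1 : K[X])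
        - C (RatFunc.X : RatFunc K))) := by
  set N := 2 ^ (n + 1) with hN
  have hNpos : 0 < N := by positivity
  set p := Polynomial.map (algebraMap K (RatFunc K)) ((X - 1) ^ N + 1 : K[X])
        - C (RatFunc.X : RatFunc K) with hp
  let Ω := AlgebraicClosure (RatFunc K)
  have : CharZero Ω := charZero_of_injective_algebraMap (algebraMap K Ω).injective
  obtain ⟨z, hz⟩ := HasEnoughRootsOfUnity.exists_primitiveRoot Ω N
  obtain ⟨w, hw⟩ := IsAlgClosed.exists_pow_nat_eq
    (algebraMap (RatFunc K) Ω RatFunc.X - 1) hNpos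
  have ht : Transcendental K (algebraMap (RatFunc K) Ω RatFunc.X) :=
    (transcendental_algebraMap_iff (algebraMap (RatFunc K) Ω).injective).2 RatFunc.transcendental_X
  have htw : algebraMap (RatFunc K) Ω RatFunc.X = w ^ N + 1 := by rw [hw]; ring
  have hwt : Transcendental K w := by
    intro h
    apply ht
    rw [htw]
    exact (h.pow N).add isAlgebraic_one
  have hw0 : w ≠ 0 := by
    rintro rfl
    exact hwt isAlgebraic_zero
  have hmin : (minpoly K z).natDegree = 2 ^ n := by
    have : NeZero (N : K) := ⟨by exact_mod_cast hNpos.ne'⟩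
    rw [← hz.minpoly_eq_cyclotomic_of_irreducible hirr, natDegree_cyclotomic, hN,
      Nat.totient_prime_pow_succ Nat.prime_two]
    simp
  have hzint : IsIntegral K z :=
    ⟨X ^ N - C 1, monic_X_pow_sub_C 1 hNpos.ne', by simp [hz.pow_eq_one]⟩
  have hli : LinearIndependent (RatFunc K)
      (fun ij : Fin (minpoly K z).natDegree × Fin N => z ^ (ij.1 : ℕ) * w ^ (ij.2 : ℕ)) := by
    rw [← LinearIndependent.iff_fractionRing K[X] (RatFunc K), Fintype.linearIndependent_iff]
    intro c hc ij
    have hsm : ∀ (q : K[X]) (y : Ω), q • y = aeval w (q.comp (X ^ N + 1)) * y := by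
      intro q y
      rw [Algebra.smul_def, aeval_comp]
      congr 1
      simp only [map_add, map_pow, aeval_X, map_one]
      rw [← htw, aeval_algebraMap_apply, IsScalarTower.algebraMap_apply K[X] (RatFunc K) Ω,
        RatFunc.aeval_X_left_eq_algebraMap]
    have h1 := indep z w hzint hwt
      (fun i => ∑ j : Fin N, (c (i, j)).comp (X ^ N + 1) * X ^ (j : ℕ)) (by
        rw [← hc, Fintype.sum_prod_type]
        apply Finset.sum_congr rfl
        intro i _
        rw [map_sum, Finset.mul_sum]
        apply Finset.sum_congr rfl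
        intro j _
        rw [hsm, map_mul, map_pow, aeval_X]
        ring) ij.1
    exact sep N hNpos (fun j => c (ij.1, j)) h1 ij.2
  let φ : SplittingField p →ₐ[RatFunc K] Ω := IsAlgClosed.lift
  have hrange := IsSplittingField.adjoin_rootSet_eq_range (SplittingField p) p φ
  have hroot : ∀ y : Ω, y ^ N = w ^ N → y ∈ φ.range := by
    intro y hy
    have h1 : y + 1 ∈ φ.range := by
      rw [← hrange]
      apply Algebra.subset_adjoin
      rw [mem_rootSet]
      constructor
      · intro h0
        have := congrArg natDegree h0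
        rw [hp, natDegree_sub_C, natDegree_map, ← C_1, natDegree_add_C, natDegree_pow,
          natDegree_X_sub_C, natDegree_zero] at this
        omega
      · rw [hp, map_sub, aeval_C, aeval_map_algebraMap, htw]
        simp [hy]
    simpa using sub_mem h1 (one_mem _)
  have hwm : w ∈ φ.range := hroot w rfl
  have hzw : z * w ∈ φ.range := hroot _ (by rw [mul_pow, hz.pow_eq_one, one_mul])
  obtain ⟨w', hw'⟩ := hwm
  obtain ⟨u', hu'⟩ := hzw
  have hw'' : φ w' = w := hw'
  have hu'' : φ u' = z * w := hu'
  have hli' : LinearIndependent (RatFunc K)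
      (fun ij : Fin (minpoly K z).natDegree × Fin N =>
        (u' / w') ^ (ij.1 : ℕ) * w' ^ (ij.2 : ℕ)) := by
    apply LinearIndependent.of_comp φ.toLinearMap
    have e : (φ.toLinearMap ∘ fun ij : Fin (minpoly K z).natDegree × Fin N =>
        (u' / w') ^ (ij.1 : ℕ) * w' ^ (ij.2 : ℕ)) = fun ij => z ^ (ij.1 : ℕ) * w ^ (ij.2 : ℕ) := by
      funext ij
      simp [hw'', hu'', mul_div_cancel_right₀ _ hw0]
    rw [e]
    exact hli
  have := hli'.fintype_card_le_finrank
  rwa [Fintype.card_prod, Fintype.card_fin, Fintype.card_fin, hmin] at this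

theorem main [CharZero K] (hirr : ∀ n, Irreducible (cyclotomic (2 ^ (n + 1)) K)) (M : ℕ) :
    ∃ n : ℕ, 1 ≤ n ∧
      M * Module.finrank K (Polynomial.SplittingField (((f K).comp)^[n] Polynomial.X)) <
        Module.finrank (RatFunc K)
          (Polynomial.SplittingField
            (Polynomial.map (algebraMap K (RatFunc K)) (((f K).comp)^[n] Polynomial.X)
              - Polynomial.C (RatFunc.X : RatFunc K))) := by
  refine ⟨M + 1, by omega, ?_⟩
  rw [iter]
  have h1 := upper (K := K) (M + 1)
  have h2 := lower M (hirr M)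
  have h3 : M < 2 ^ M := Nat.lt_two_pow_self
  calc _ ≤ M * 2 ^ (M + 1) := Nat.mul_le_mul_left _ h1
    _ < 2 ^ M * 2 ^ (M + 1) := Nat.mul_lt_mul_of_pos_right h3 (by positivity)
    _ ≤ _ := h2

lemma pcf [CharZero K] {L : Type} [Field L] [Algebra K L] (z : L)
    (hz : aeval z (derivative (f K)) = 0) :
    (Set.range fun n : ℕ => (fun x => aeval x (f K))^[n] z).Finite := by
  have : CharZero L := charZero_of_injective_algebraMap (algebraMap K L).injective
  have h1 : z = 1 := by
    simp only [f, derivative_add, derivative_one, add_zero, derivative_pow,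
      derivative_X, sub_zero, mul_one, map_mul, aeval_C, map_pow, map_sub, aeval_X, map_one,
      mul_eq_zero] at hz
    rcases hz with h | h
    · simp at h
    · simpa [sub_eq_zero] using h
  subst h1
  refine (Set.finite_singleton 1).subset ?_
  rintro _ ⟨n, rfl⟩
  exact Function.iterate_fixed (by simp [f]) n

end Pool.Agent.H49.Arbor
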