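import Pool.Agent.H49.BigSpec
import Pool.Agent.Lead.Sel.Ker

/- Taylor bounds for the kernel and averaged Lagrange interpolation. -/

set_option autoImplicit false
open Set Polynomial

namespace Pool.Agent.H49.Big
open Pool.Agent.Lead.Sel

/-- the n-th derivative exists and is bounded on the half line -/
def Nice : ℕ → (ℝ → ℝ) → Prop
  | 0, f => ∃ C : ℝ, ∀ t, 0 ≤ t → |f t| ≤ C
  | n + 1, f => ∃ g : ℝ → ℝ, (∀ t, HasDerivAt f (g t) t) ∧ Nice n g

theorem Nice.add {n : ℕ} : ∀ {f g : ℝ → ℝ}, Nice n f → Nice n g → Nice n (fun t => f t + g t) := by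
  induction n with
  | zero =>
    rintro f g ⟨C, h⟩ ⟨D, k⟩
    exact ⟨C + D, fun t ht => (abs_add_le _ _).trans (add_le_add (h t ht) (k t ht))⟩
  | succ n ih =>
    rintro f g ⟨f', h1, h2⟩ ⟨g', k1, k2⟩
    exact ⟨_, fun t => (h1 t).add (k1 t), ih h2 k2⟩

theorem Nice.scale {n : ℕ} {c : ℝ} (hc : 0 ≤ c) :
    ∀ {f : ℝ → ℝ} (a : ℝ), Nice n f → Nice n (fun t => a * f (c * t)) := by
  induction n with
  | zero =>
    rintro f a ⟨C, h⟩
    refine ⟨|a| * C, fun t ht => ?_⟩
    rw [abs_mul]; gcongr; exact h _ (by positivity)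
  | succ n ih =>
    rintro f a ⟨f', h1, h2⟩
    refine ⟨_, fun t => ?_, ih (a * c) h2⟩
    exact (((h1 (c * t)).comp t ((hasDerivAt_id t).const_mul c)).const_mul a).congr_deriv (by ring)

theorem nice_GG (n : ℕ) : ∀ j i : ℕ, j ≤ i → Nice n (fun t => t ^ j * GG i t) := by
  induction n with
  | zero =>
    intro j i hji
    obtain ⟨⟨B, hB⟩, -⟩ := kk_bd i
    refine ⟨max B 1, fun t ht => ?_⟩
    rcases le_total 1 t with h | h
    · refine le_trans ?_ ((hB t h).trans (le_max_left _ _))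
      rw [abs_mul, abs_mul, abs_of_nonneg (pow_nonneg ht _), abs_of_nonneg (pow_nonneg ht _)]
      gcongr
    · refine le_trans ?_ (le_max_right _ _)
      rw [abs_mul, abs_of_nonneg (pow_nonneg ht _)]
      exact mul_le_one₀ (pow_le_one₀ ht h) (abs_nonneg _) (GG_le i t)
  | succ n ih =>
    intro j i hji
    refine ⟨_, fun t => ?_, ((ih (j - 1) i (by omega)).scale zero_le_one j).add
      ((ih (j + 1) (i + 1) (by omega)).scale zero_le_one (-1))⟩
    exact ((hasDerivAt_pow j t).mul (GG_d2 i t)).congr_deriv (by simp only [one_mul]; ring)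

theorem nice_KK (n m : ℕ) : Nice n (KK m) :=
  (nice_GG n m m le_rfl).scale (c := 2 * Real.pi) (by positivity) 2

theorem Nice.taylor {n : ℕ} : ∀ {f : ℝ → ℝ}, Nice n f → ∃ C : ℝ, 0 ≤ C ∧ ∀ a, 0 ≤ a →
    ∃ c : ℕ → ℝ, ∀ t, a ≤ t →
      |f t - ∑ k ∈ Finset.range n, c k * (t - a) ^ k| ≤ C * (t - a) ^ n := by
  induction n with
  | zero =>
    rintro f ⟨C, h⟩
    exact ⟨C, (abs_nonneg _).trans (h 0 le_rfl), fun a ha =>
      ⟨0, fun t ht => by simpa using h t (ha.trans ht)⟩⟩
  | succ n ih =>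
    rintro f ⟨g, h1, h2⟩
    obtain ⟨C, hC, h⟩ := ih h2
    refine ⟨C, hC, fun a ha => ?_⟩
    obtain ⟨c, hc⟩ := h a ha
    refine ⟨fun k => Nat.casesOn k (f a) fun k => c k / (k + 1), fun t ht => ?_⟩
    have key := norm_image_sub_le_of_norm_deriv_le_segment'
      (f := fun s => f s - ∑ k ∈ Finset.range n, c k / (k + 1) * (s - a) ^ (k + 1))
      (f' := fun s => g s - ∑ k ∈ Finset.range n, c k * (s - a) ^ k) (a := a) (b := t)
      (C := C * (t - a) ^ n) (fun s _ => ?_) (fun s hs => ?_) t ⟨ht, le_rfl⟩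
    · rw [Finset.sum_range_succ']
      simp only [sub_self, ne_eq, Nat.add_eq_zero_iff, one_ne_zero, and_false, not_false_eq_true,
        zero_pow, mul_zero, Finset.sum_const_zero, sub_zero, Real.norm_eq_abs] at key
      convert key using 1
      · congr 1; simp; ring
      · ring
    · refine ((h1 s).sub (HasDerivAt.fun_sum fun k _ => ?_)).hasDerivWithinAt
      refine ((((hasDerivAt_id s).sub_const a).pow (k + 1)).const_mul (c k / (k + 1))).congr_deriv ?_
      have : (k : ℝ) + 1 ≠ 0 := by positivity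
      simp; field_simp
    · refine (hc s hs.1).trans ?_
      have := hs.1
      have := hs.2
      gcongr

/-- polynomial approximation of the dilated kernel -/
theorem Nice.poly {n : ℕ} {f : ℝ → ℝ} (h : Nice n f) : ∃ C : ℝ, 0 ≤ C ∧ ∀ a D ξ : ℝ, 0 ≤ a → 0 ≤ ξ →
    ∃ P : ℝ[X], P.degree < n ∧ ∀ t, a ≤ t → t ≤ a + D → |f (t * ξ) - P.eval t| ≤ C * (D * ξ) ^ n := by
  obtain ⟨C, hC, h⟩ := h.taylor
  refine ⟨C, hC, fun a D ξ ha hξ => ?_⟩
  obtain ⟨c, hc⟩ := h (a * ξ) (by positivity)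
  refine ⟨∑ k ∈ Finset.range n, Polynomial.C (c k * ξ ^ k) * (X - Polynomial.C a) ^ k, ?_,
    fun t h1 h2 => ?_⟩
  · refine (degree_sum_le _ _).trans_lt ((Finset.sup_lt_iff (WithBot.bot_lt_coe n)).mpr fun k hk => ?_)
    refine lt_of_le_of_lt (b := (k : WithBot ℕ)) ?_ (WithBot.coe_lt_coe.mpr (Finset.mem_range.mp hk))
    rw [← smul_eq_C_mul]
    refine (degree_smul_le _ _).trans ?_
    rw [degree_pow, degree_X_sub_C]; simp
  · have := hc (t * ξ) (by gcongr)
    rw [← sub_mul] at this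
    simp only [eval_finsetSum, eval_mul, eval_C, eval_pow, eval_sub, eval_X]
    refine le_trans (le_of_eq ?_) (this.trans (by gcongr; linarith))
    congr 2
    refine Finset.sum_congr rfl fun k _ => ?_
    rw [mul_pow]; ring

/-- the Lagrange basis value -/
noncomputable def lag {n : ℕ} (v : Fin n → ℝ) (x : ℝ) (i : Fin n) : ℝ :=
  ∏ k ∈ Finset.univ.erase i, (v i - v k)⁻¹ * (x - v k)

theorem lag_exact {n : ℕ} {v : Fin n → ℝ} (hv : Function.Injective v) {P : ℝ[X]}
    (hP : P.degree < n) (x : ℝ) : P.eval x = ∑ i, lag v x i * P.eval (v i) := by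
  have h := Lagrange.eq_interpolate (s := Finset.univ) (v := v) hv.injOn (f := P) (by simpa using hP)
  conv_lhs => rw [h]
  simp only [Lagrange.interpolate_apply, eval_finsetSum, eval_mul, eval_C, Lagrange.basis,
    eval_prod, Lagrange.basisDivisor, eval_sub, eval_X, lag]
  exact Finset.sum_congr rfl fun i _ => mul_comm _ _

theorem lag_bound {n : ℕ} {v : Fin n → ℝ} {a D w x : ℝ} (hw : 0 < w) (hwD : w ≤ D)
    (hx : x ∈ Icc a (a + D)) (hv : ∀ i, v i ∈ Icc a (a + D))
    (hs : ∀ i k, i ≠ k → w ≤ |v i - v k|) (i : Fin n) : |lag v x i| ≤ (D / w) ^ n := by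
  have h1 : 1 ≤ D / w := (one_le_div hw).mpr hwD
  rw [lag, Finset.abs_prod]
  calc _ ≤ ∏ _k ∈ Finset.univ.erase i, D / w := by
        refine Finset.prod_le_prod (fun _ _ => abs_nonneg _) fun k hk => ?_
        have h2 := hs i k (Finset.ne_of_mem_erase hk).symm
        have h3 : |x - v k| ≤ D := abs_le.mpr
          ⟨by linarith [hx.1, (hv k).2], by linarith [hx.2, (hv k).1]⟩
        rw [abs_mul, abs_inv, mul_comm, ← div_eq_mul_inv]
        gcongr; linarith
    _ ≤ _ := by
        rw [Finset.prod_const]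
        exact pow_le_pow_right₀ h1 ((Finset.card_le_univ _).trans (by simp))

/-- averaged Lagrange rule -/
theorem loc_rule {n : ℕ} (N : Fin n → Finset ℕ) (hN : ∀ i, (N i).Nonempty) (u : ℕ → ℝ)
    {a D w x : ℝ} (hw : 0 < w) (hwD : w ≤ D) (hx : x ∈ Icc a (a + D))
    (hu : ∀ i, ∀ p ∈ N i, u p ∈ Icc a (a + D))
    (hs : ∀ i k, i ≠ k → ∀ p ∈ N i, ∀ q ∈ N k, w ≤ |u p - u q|) :
    ∃ l : ℕ → ℝ, (∀ p, |l p| ≤ ∑ i, if p ∈ N i then (D / w) ^ n / (N i).card else 0) ∧
      ∀ (φ : ℝ → ℝ) (E : ℝ) (P : ℝ[X]), P.degree < n →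
        (∀ t, a ≤ t → t ≤ a + D → |φ t - P.eval t| ≤ E) →
        |φ x - ∑ p ∈ Finset.univ.biUnion N, l p * φ (u p)| ≤ (1 + n * (D / w) ^ n) * E := by
  classical
  set T := Fintype.piFinset N with hT
  have hc : ∀ i, (0 : ℝ) < (N i).card := fun i => by exact_mod_cast (hN i).card_pos
  have hTc : (T.card : ℝ) = ∏ i, ((N i).card : ℝ) := by rw [hT, Fintype.card_piFinset]; simp
  have hT0 : (0 : ℝ) < T.card := by rw [hTc]; exact Finset.prod_pos fun i _ => hc i
  have hl : ∀ t ∈ T, ∀ i, |lag (fun k => u (t k)) x i| ≤ (D / w) ^ n := fun t ht i =>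
    lag_bound hw hwD hx (fun k => hu k _ (Fintype.mem_piFinset.mp ht k))
      (fun i k h => hs i k h _ (Fintype.mem_piFinset.mp ht i) _ (Fintype.mem_piFinset.mp ht k)) i
  have hΛ : 0 ≤ (D / w) ^ n := pow_nonneg (div_nonneg (hw.le.trans hwD) hw.le) _
  refine ⟨fun p => ∑ i, (∑ t ∈ T with t i = p, lag (fun k => u (t k)) x i) / T.card,
    fun p => ?_, fun φ E P hP hE => ?_⟩
  · refine (Finset.abs_sum_le_sum_abs _ _).trans (Finset.sum_le_sum fun i _ => ?_)
    rw [abs_div, abs_of_pos hT0, div_le_iff₀ hT0]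
    refine (Finset.abs_sum_le_sum_abs _ _).trans ?_
    refine (Finset.sum_le_card_nsmul _ _ _ fun t ht => hl t (Finset.mem_filter.mp ht).1 i).trans ?_
    have hcard : (T.filter fun t => t i = p).card =
        if p ∈ N i then ∏ b ∈ Finset.univ.erase i, (N b).card else 0 := by
      convert Fintype.card_filter_piFinset_eq N i p
    rw [hcard, hTc]
    split_ifs with h
    · rw [← Finset.mul_prod_erase _ _ (Finset.mem_univ i), nsmul_eq_mul]
      push_cast
      rw [← mul_assoc, div_mul_cancel₀ _ (hc i).ne', mul_comm]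
    · simp
  · have e1 : ∑ p ∈ Finset.univ.biUnion N,
        (∑ i, (∑ t ∈ T with t i = p, lag (fun k => u (t k)) x i) / T.card) * φ (u p) =
        (∑ t ∈ T, ∑ i, lag (fun k => u (t k)) x i * φ (u (t i))) / T.card := by
      simp only [Finset.sum_mul, div_mul_eq_mul_div]
      rw [Finset.sum_comm, Finset.sum_comm (s := T), Finset.sum_div]
      refine Finset.sum_congr rfl fun i _ => ?_
      rw [← Finset.sum_div]
      congr 1
      rw [← Finset.sum_fiberwise_of_maps_to (s := T) (t := Finset.univ.biUnion N) (g := fun t => t i)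
        fun t ht => Finset.mem_biUnion.mpr ⟨i, Finset.mem_univ _, Fintype.mem_piFinset.mp ht i⟩]
      refine Finset.sum_congr rfl fun p _ => Finset.sum_congr rfl fun t ht => ?_
      rw [(Finset.mem_filter.mp ht).2]
    have e2 : ∀ t ∈ T, |φ x - ∑ i, lag (fun k => u (t k)) x i * φ (u (t i))| ≤
        (1 + n * (D / w) ^ n) * E := by
      intro t ht
      have hm := Fintype.mem_piFinset.mp ht
      have hinj : Function.Injective fun k => u (t k) := by
        intro i k h
        by_contra hik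
        have := hs i k hik _ (hm i) _ (hm k)
        simp only at h
        rw [h, sub_self, abs_zero] at this
        linarith
      have h1 := hE x hx.1 hx.2
      have h2 : |∑ i, lag (fun k => u (t k)) x i * (φ (u (t i)) - P.eval (u (t i)))| ≤
          n * (D / w) ^ n * E := by
        refine (Finset.abs_sum_le_sum_abs _ _).trans ?_
        refine (Finset.sum_le_card_nsmul _ _ ((D / w) ^ n * E) fun i _ => ?_).trans (by simp [mul_assoc])
        rw [abs_mul]
        exact mul_le_mul (hl t ht i) (hE _ (hu i _ (hm i)).1 (hu i _ (hm i)).2) (abs_nonneg _) hΛ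
      rw [lag_exact hinj hP x] at h1
      simp only [mul_sub, Finset.sum_sub_distrib] at h2
      rw [abs_le] at h1 h2 ⊢
      constructor <;> linarith [h1.1, h1.2, h2.1, h2.2]
    rw [e1, show φ x = (∑ _t ∈ T, φ x) / T.card by simp; field_simp, ← sub_div,
      ← Finset.sum_sub_distrib, abs_div, abs_of_pos hT0, div_le_iff₀ hT0]
    refine (Finset.abs_sum_le_sum_abs _ _).trans ((Finset.sum_le_card_nsmul _ _ _ e2).trans ?_)
    rw [nsmul_eq_mul, mul_comm]

end Pool.Agent.H49.Big
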