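import Pool.Agent.H49.Big1

/- The dual representation lemma. -/

set_option autoImplicit false
open Set MeasureTheory Filter Topology

namespace Pool.Agent.H49.Big

theorem int_w2 : IntegrableOn (fun x : ℝ => 1 / (1 + x) ^ 2) (Ioi 0) ∧
    ∫ x in Ioi (0 : ℝ), 1 / (1 + x) ^ 2 = 1 := by
  have h1 : ∀ x ∈ Ici (0 : ℝ), HasDerivAt (fun x : ℝ => -(1 + x)⁻¹) (1 / (1 + x) ^ 2) x := by
    intro x hx
    have hx' : (1 + x) ≠ 0 := by have : (0 : ℝ) ≤ x := hx; positivity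
    exact (((hasDerivAt_id' x).const_add 1).inv hx').neg.congr_deriv (by field_simp)
  have h2 : Tendsto (fun x : ℝ => -(1 + x)⁻¹) atTop (𝓝 0) := by
    simpa using (tendsto_inv_atTop_zero.comp (tendsto_atTop_add_const_left _ (1 : ℝ) tendsto_id)).neg
  exact ⟨integrableOn_Ioi_deriv_of_nonneg' h1 (fun x _ => by positivity) h2,
    by simpa using integral_Ioi_of_hasDerivAt_of_nonneg' h1 (fun x _ => by positivity) h2⟩

theorem int_pair (q : ℕ) {h g : ℝ → ℝ} (hm : Measurable h) (gm : Measurable g) {B M : ℝ}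
    (hB : ∀ ξ, 0 < ξ → |h ξ| ≤ B * (1 + ξ) ^ q) (hM : ∀ ξ, 0 < ξ → |g ξ| ≤ M / (1 + ξ) ^ (q + 2)) :
    IntegrableOn (fun ξ => h ξ * g ξ) (Ioi 0) ∧ ∫ ξ in Ioi (0 : ℝ), |h ξ * g ξ| ≤ B * M := by
  have hb : ∀ᵐ ξ ∂(volume.restrict (Ioi (0 : ℝ))), ‖h ξ * g ξ‖ ≤ B * M * (1 / (1 + ξ) ^ 2) := by
    filter_upwards [ae_restrict_mem measurableSet_Ioi] with ξ hξ
    have hξ0 : (0 : ℝ) < ξ := hξ
    rw [Real.norm_eq_abs, abs_mul]
    calc |h ξ| * |g ξ| ≤ (B * (1 + ξ) ^ q) * (M / (1 + ξ) ^ (q + 2)) :=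
          mul_le_mul (hB ξ hξ0) (hM ξ hξ0) (abs_nonneg _) ((abs_nonneg _).trans (hB ξ hξ0))
      _ = _ := by field_simp; ring
  have hi : Integrable (fun ξ : ℝ => B * M * (1 / (1 + ξ) ^ 2)) (volume.restrict (Ioi 0)) :=
    int_w2.1.const_mul _
  have h1 := Integrable.mono' hi (hm.mul gm).aestronglyMeasurable hb
  refine ⟨h1, (integral_mono_ae h1.abs hi hb).trans ?_⟩
  rw [integral_const_mul, int_w2.2, mul_one]

section
variable {q : ℕ} {k : ℝ → ℝ → ℝ}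

/-- one step of the iteration -/
noncomputable def nxt (k : ℝ → ℝ → ℝ) (h : ℝ → ℝ) (ξ : ℝ) : ℝ := ∫ x in Ioi (0 : ℝ), h x * k x ξ

theorem nxt_prop (hk : Measurable fun z : ℝ × ℝ => k z.1 z.2)
    (hb : ∀ x ξ, 0 < x → 0 < ξ → |k x ξ| ≤ 1 / 2 * (1 + ξ) ^ q / (1 + x) ^ (q + 2))
    {h : ℝ → ℝ} (hm : Measurable h) {B : ℝ} (hB : ∀ ξ, 0 < ξ → |h ξ| ≤ B * (1 + ξ) ^ q) :
    Measurable (nxt k h) ∧ ∀ ξ, 0 < ξ → |nxt k h ξ| ≤ B / 2 * (1 + ξ) ^ q := by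
  constructor
  · exact (((hm.comp measurable_fst).mul hk).stronglyMeasurable.integral_prod_left'
      (μ := volume.restrict (Ioi 0))).measurable
  · intro ξ hξ
    have := (int_pair q hm (hk.comp (measurable_id.prodMk measurable_const)) hB
      fun x hx => hb x ξ hx hξ).2
    exact abs_integral_le_integral_abs.trans (this.trans (le_of_eq (by ring)))

theorem iter_prop (hk : Measurable fun z : ℝ × ℝ => k z.1 z.2)
    (hb : ∀ x ξ, 0 < x → 0 < ξ → |k x ξ| ≤ 1 / 2 * (1 + ξ) ^ q / (1 + x) ^ (q + 2))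
    {h : ℝ → ℝ} (hm : Measurable h) {B : ℝ} (hB : ∀ ξ, 0 < ξ → |h ξ| ≤ B * (1 + ξ) ^ q) (n : ℕ) :
    Measurable ((nxt k)^[n] h) ∧
      ∀ ξ, 0 < ξ → |((nxt k)^[n] h) ξ| ≤ B * (1 / 2) ^ n * (1 + ξ) ^ q := by
  induction n with
  | zero => simpa using ⟨hm, hB⟩
  | succ n ih =>
    rw [Function.iterate_succ_apply']
    obtain ⟨h1, h2⟩ := nxt_prop hk hb ih.1 ih.2
    exact ⟨h1, fun ξ hξ => (h2 ξ hξ).trans (le_of_eq (by ring))⟩

theorem step (hk : Measurable fun z : ℝ × ℝ => k z.1 z.2)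
    (hb : ∀ x ξ, 0 < x → 0 < ξ → |k x ξ| ≤ 1 / 2 * (1 + ξ) ^ q / (1 + x) ^ (q + 2))
    {h : ℝ → ℝ} (hm : Measurable h) {B : ℝ} (hB : ∀ ξ, 0 < ξ → |h ξ| ≤ B * (1 + ξ) ^ q)
    {f A : ℝ → ℝ} (fm : Measurable f) (Am : Measurable A) {M : ℝ}
    (hM : ∀ ξ, 0 < ξ → |f ξ| ≤ M / (1 + ξ) ^ (q + 2))
    (hA : ∀ ξ, 0 < ξ → |A ξ| ≤ M / (1 + ξ) ^ (q + 2))
    (hf : ∀ x, 0 < x → f x = A x + ∫ ξ in Ioi (0 : ℝ), k x ξ * f ξ) :
    ∫ ξ in Ioi (0 : ℝ), h ξ * f ξ =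
      (∫ ξ in Ioi (0 : ℝ), h ξ * A ξ) + ∫ ξ in Ioi (0 : ℝ), nxt k h ξ * f ξ := by
  have hprod : Integrable (Function.uncurry fun x ξ => h x * k x ξ * f ξ)
      ((volume.restrict (Ioi (0 : ℝ))).prod (volume.restrict (Ioi (0 : ℝ)))) := by
    have hb' := Integrable.mul_prod (int_w2.1.const_mul (B / 2)) (int_w2.1.const_mul M)
    refine Integrable.mono' hb' (((hm.comp measurable_fst).mul hk).mul
      (fm.comp measurable_snd)).aestronglyMeasurable ?_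
    rw [Measure.prod_restrict]
    filter_upwards [ae_restrict_mem (measurableSet_Ioi.prod measurableSet_Ioi)] with z hz
    have hx0 : (0 : ℝ) < z.1 := hz.1
    have hξ0 : (0 : ℝ) < z.2 := hz.2
    simp only [Function.uncurry]
    rw [Real.norm_eq_abs, abs_mul, abs_mul]
    have h0 := (abs_nonneg _).trans (hB _ hx0)
    calc |h z.1| * |k z.1 z.2| * |f z.2| ≤ (B * (1 + z.1) ^ q) *
          (1 / 2 * (1 + z.2) ^ q / (1 + z.1) ^ (q + 2)) * (M / (1 + z.2) ^ (q + 2)) :=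
          mul_le_mul (mul_le_mul (hB _ hx0) (hb _ _ hx0 hξ0) (abs_nonneg _) h0) (hM _ hξ0)
            (abs_nonneg _) (by positivity)
      _ = _ := by field_simp; ring
  have hswap := integral_integral_swap hprod
  have e2 : ∀ x, h x * ∫ ξ in Ioi (0 : ℝ), k x ξ * f ξ = ∫ ξ in Ioi (0 : ℝ), h x * k x ξ * f ξ := by
    intro x; rw [← integral_const_mul]; congr 1; funext ξ; ring
  have hnext : ∫ ξ in Ioi (0 : ℝ), nxt k h ξ * f ξ =
      ∫ x in Ioi (0 : ℝ), h x * ∫ ξ in Ioi (0 : ℝ), k x ξ * f ξ := by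
    have e1 : ∀ ξ, nxt k h ξ * f ξ = ∫ x in Ioi (0 : ℝ), h x * k x ξ * f ξ := by
      intro ξ; unfold nxt; rw [integral_mul_const]
    simp_rw [e1, e2]; exact hswap.symm
  have hi2 : IntegrableOn (fun x => h x * ∫ ξ in Ioi (0 : ℝ), k x ξ * f ξ) (Ioi 0) := by
    simp_rw [e2]; exact hprod.integral_prod_left
  rw [hnext, ← integral_add (int_pair q hm Am hB hA).1 hi2]
  refine setIntegral_congr_fun measurableSet_Ioi fun x hx => ?_
  rw [← mul_add, ← hf x hx]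

theorem dual (hk : Measurable fun z : ℝ × ℝ => k z.1 z.2)
    (hb : ∀ x ξ, 0 < x → 0 < ξ → |k x ξ| ≤ 1 / 2 * (1 + ξ) ^ q / (1 + x) ^ (q + 2))
    {h : ℝ → ℝ} (hm : Measurable h) {B : ℝ} (hB : ∀ ξ, 0 < ξ → |h ξ| ≤ B * (1 + ξ) ^ q) :
    ∃ H : ℝ → ℝ, Measurable H ∧ (∀ ξ, 0 < ξ → |H ξ| ≤ 2 * B * (1 + ξ) ^ q) ∧
      ∀ (f A : ℝ → ℝ) (M : ℝ), Measurable f → Measurable A →
        (∀ ξ, 0 < ξ → |f ξ| ≤ M / (1 + ξ) ^ (q + 2)) → (∀ ξ, 0 < ξ → |A ξ| ≤ M / (1 + ξ) ^ (q + 2)) →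
        (∀ x, 0 < x → f x = A x + ∫ ξ in Ioi (0 : ℝ), k x ξ * f ξ) →
        ∫ ξ in Ioi (0 : ℝ), h ξ * f ξ = ∫ ξ in Ioi (0 : ℝ), H ξ * A ξ := by
  have it := iter_prop hk hb hm hB
  set g : ℕ → ℝ → ℝ := fun n => (Ioi 0).indicator ((nxt k)^[n] h) with hg
  have gm : ∀ n, Measurable (g n) := fun n => (it n).1.indicator measurableSet_Ioi
  have hgeo : ∀ c : ℝ, HasSum (fun n : ℕ => B * (1 / 2) ^ n * c) (2 * B * c) := fun c => by
    have := (hasSum_geometric_two.mul_left B).mul_right c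
    rwa [mul_comm B 2] at this
  have gs : ∀ ξ, Summable fun n => g n ξ := by
    intro ξ
    by_cases hξ : ξ ∈ Ioi (0 : ℝ)
    · simp only [hg, indicator_of_mem hξ]
      exact Summable.of_norm_bounded (hgeo _).summable fun n => (it n).2 ξ hξ
    · simp only [hg, indicator_of_notMem hξ]; exact summable_zero
  refine ⟨fun ξ => ∑' n, g n ξ, ?_, fun ξ hξ => ?_, fun f A M fm Am hM hA hf => ?_⟩
  · refine measurable_of_tendsto_metrizable (f := fun N ξ => ∑ n ∈ Finset.range N, g n ξ)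
      (fun N => Finset.measurable_sum _ fun n _ => gm n) (tendsto_pi_nhds.mpr fun ξ => ?_)
    exact (gs ξ).hasSum.tendsto_sum_nat
  · refine tsum_of_norm_bounded (f := fun n => g n ξ) (hgeo _) fun n => ?_
    simp only [hg, indicator_of_mem (show ξ ∈ Ioi (0 : ℝ) from hξ)]
    exact (it n).2 ξ hξ
  · have h1 := hasSum_integral_of_summable_integral_norm (μ := volume.restrict (Ioi (0 : ℝ)))
      (F := fun n ξ => ((nxt k)^[n] h) ξ * A ξ) (fun n => (int_pair q (it n).1 Am (it n).2 hA).1)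
      (Summable.of_nonneg_of_le (fun n => integral_nonneg fun _ => norm_nonneg _)
        (fun n => (int_pair q (it n).1 Am (it n).2 hA).2) (hgeo M).summable)
    set I : ℕ → ℝ := fun n => ∫ ξ in Ioi (0 : ℝ), ((nxt k)^[n] h) ξ * f ξ with hI
    have h2 : ∀ n, ∫ ξ in Ioi (0 : ℝ), ((nxt k)^[n] h) ξ * A ξ = I n - I (n + 1) := by
      intro n
      have := step hk hb (it n).1 (it n).2 fm Am hM hA hf
      simp only [hI, Function.iterate_succ_apply']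
      linarith
    have h3 : Tendsto I atTop (𝓝 0) := squeeze_zero_norm (fun n =>
      abs_integral_le_integral_abs.trans (int_pair q (it n).1 fm (it n).2 hM).2)
      (hgeo M).summable.tendsto_atTop_zero
    have h4 := h1.tendsto_sum_nat
    simp_rw [h2, Finset.sum_range_sub'] at h4
    have h5 := tendsto_nhds_unique h4 (tendsto_const_nhds.sub h3)
    rw [sub_zero] at h5
    refine h5.symm.trans (setIntegral_congr_fun measurableSet_Ioi fun ξ hξ => ?_)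
    simp only [hg, indicator_of_mem hξ, tsum_mul_right]

end

end Pool.Agent.H49.Big
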