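import Pool.Agent.H49.SelSDefs

set_option autoImplicit false

namespace Pool.Agent.H49.SelS

/-- the Dirichlet series with sum `F` is the constant `1` -/
def IsOne (F : ℂ → ℂ) : Prop := ∀ s : ℂ, 1 < s.re → F s = 1

/-- a primitive member of the Selberg class -/
def Primitive (a : ℕ → ℂ) (F : ℂ → ℂ) : Prop :=
  InSelberg a F ∧ ¬ IsOne F ∧
    ∀ (a₁ a₂ : ℕ → ℂ) (F₁ F₂ : ℂ → ℂ), InSelberg a₁ F₁ → InSelberg a₂ F₂ →
      (∀ s : ℂ, 1 < s.re → F s = F₁ s * F₂ s) → IsOne F₁ ∨ IsOne F₂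

/-- the sum of `|a p|^2 / p` over the primes `p ≤ x` -/
noncomputable def primeSum (a : ℕ → ℂ) (x : ℝ) : ℝ :=
  ∑ p ∈ (Finset.Iic ⌊x⌋₊).filter Nat.Prime, ‖a p‖ ^ 2 / (p : ℝ)

end Pool.Agent.H49.SelS
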