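import Mathlib

set_option autoImplicit false

namespace Pool.Agent.H49.SelA

/-- `F` belongs to the enlarged extended Selberg class and has degree `d`. Identities between
meromorphic functions are required outside a closed discrete set. -/
def InClass (F : ℂ → ℂ) (d : ℝ) : Prop :=
  Meromorphic F ∧ (¬ ∀ᶠ s in Filter.codiscrete ℂ, F s = 0) ∧
  (∃ (a : ℕ → ℂ) (σ0 : ℝ), ∀ s : ℂ, σ0 < s.re → LSeriesSummable a s ∧ F s = LSeries a s) ∧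
  (∃ (P : Polynomial ℂ) (E : ℂ → ℂ), P ≠ 0 ∧ Differentiable ℂ E ∧
    (∀ᶠ s in Filter.codiscrete ℂ, E s = P.eval s * F s) ∧
    ∀ σ1 σ2 : ℝ, ∃ M C : ℝ, ∀ s : ℂ, σ1 ≤ s.re → s.re ≤ σ2 → ‖E s‖ ≤ C * (1 + |s.im|) ^ M) ∧
  ∃ (Q : ℝ) (ω : ℂ) (r r' : ℕ) (lam : Fin r → ℝ) (mu : Fin r → ℂ) (lam' : Fin r' → ℝ)
    (mu' : Fin r' → ℂ) (Φ : ℂ → ℂ),
    0 < Q ∧ ‖ω‖ = 1 ∧ (∀ j, 0 < lam j) ∧ (∀ j, 0 < lam' j) ∧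
    (∀ s : ℂ, Φ s = (Q : ℂ) ^ s * ((∏ j, Complex.Gamma ((lam j : ℂ) * s + mu j)) *
      ∏ j, (Complex.Gamma ((lam' j : ℂ) * s + mu' j))⁻¹) * F s) ∧
    (∀ᶠ s in Filter.codiscrete ℂ, Φ s = ω * starRingEnd ℂ (Φ (1 - starRingEnd ℂ s))) ∧
    d = 2 * ∑ j, lam j - 2 * ∑ j, lam' j

end Pool.Agent.H49.SelA
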