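import Pool.Agent.H49.SelExs
import Pool.Agent.H49.SelADefs

set_option autoImplicit false
open Complex MeasureTheory Set Filter Topology

namespace Pool.Agent.H49.Sel
open Pool.Agent.Lead.Sel

theorem left_line {Φ G : ℂ → ℂ} {Q lam mu K R : ℝ} (hQ : 0 < Q) (hlam : 1 ≤ lam) (hmu : 0 < mu)
    (hR : 0 ≤ R) (g2 : Ord2 univ G) (hK : ∀ s : ℂ, 1 ≤ s.re → ‖G s‖ ≤ K)
    (f1 : ∀ s, Φ (1 - s) = -Φ s)
    (f3 : ∀ s : ℂ, Complex.Gamma (lam * s + mu) ≠ 0 →
        (Q : ℂ) ^ s * Complex.Gamma (lam * s + mu) * G s = Φ s) :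
    ∃ (N : ℕ) (C : ℝ), 0 ≤ C ∧ ∀ s : ℂ, s.re = -R → ‖G s‖ ≤ C * (1 + |s.im|) ^ N := by
  obtain ⟨D, hD, g2⟩ := g2
  set x1 := -(lam * R) + mu with hx1
  set x2 := lam * (1 + R) + mu with hx2
  have h12 : x1 ≤ x2 := by nlinarith
  obtain ⟨c, C, hc, hC, h3⟩ := g3 x1 x2
  set N := ⌈x2 - x1 + 2⌉₊
  have hK0 : 0 ≤ K := (norm_nonneg _).trans (hK 1 (by simp))
  have hq1 := Real.rpow_pos_of_pos hQ (-R)
  have hq2 := Real.rpow_pos_of_pos hQ (1 + R)
  refine ⟨N, Real.exp (D * (2 + R) ^ 2) + Q ^ (1 + R) * C * K / (Q ^ (-R) * c) * lam ^ N,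
    by positivity, fun s hs => ?_⟩
  have ht := abs_nonneg s.im
  have h1N : 1 ≤ (1 + |s.im|) ^ N := one_le_pow₀ (by linarith)
  rw [add_mul]
  rcases le_total |s.im| 1 with h | h
  · have a1 := Complex.norm_le_abs_re_add_abs_im s
    rw [hs, abs_neg, abs_of_nonneg hR] at a1
    have a2 : ‖G s‖ ≤ Real.exp (D * (2 + R) ^ 2) := (g2 s (mem_univ _)).trans
      (Real.exp_le_exp.mpr (mul_le_mul_of_nonneg_left
        (pow_le_pow_left₀ (by positivity) (by linarith) 2) hD))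
    have a3 := le_mul_of_one_le_right (Real.exp_pos (D * (2 + R) ^ 2)).le h1N
    have a4 : 0 ≤ Q ^ (1 + R) * C * K / (Q ^ (-R) * c) * lam ^ N * (1 + |s.im|) ^ N := by positivity
    linarith
  have e1 : (lam : ℂ) * s + mu = x1 + (lam * s.im : ℝ) * I := by
    apply Complex.ext <;> simp [hx1, hs]
  have e2 : (lam : ℂ) * (1 - s) + mu = x2 + (-(lam * s.im) : ℝ) * I := by
    apply Complex.ext <;> simp [hx2, hs]
  have hy : 1 ≤ |lam * s.im| := by rw [abs_mul, abs_of_pos (by linarith : 0 < lam)]; nlinarith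
  have a1 := (h3 x1 _ le_rfl h12 hy).1
  have a2 := (h3 x2 (-(lam * s.im)) h12 le_rfl (by rwa [abs_neg])).2
  rw [abs_neg, ← e2] at a2
  rw [← e1] at a1
  set y := |lam * s.im| with hydef
  set E := Real.exp (-(Real.pi * y / 2))
  have hE : 0 < E := Real.exp_pos _
  have hy0 : 0 < y := by linarith
  have hp := Real.rpow_pos_of_pos hy0 (x1 - 3 / 2)
  have n1 : Complex.Gamma (lam * s + mu) ≠ 0 := norm_pos_iff.mp (lt_of_lt_of_le (by positivity) a1)
  have n2 : Complex.Gamma (lam * (1 - s) + mu) ≠ 0 := by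
    apply Complex.Gamma_ne_zero_of_re_pos
    rw [e2]; simp only [add_re, ofReal_re, mul_re, I_re, mul_zero, ofReal_im, I_im, mul_one, sub_self]
    nlinarith
  have a3 := f3 (1 - s) n2
  rw [f1, ← f3 s n1] at a3
  have a4 := congrArg norm a3
  simp only [norm_mul, norm_neg, norm_cpow_eq_rpow_re_of_pos hQ, sub_re, one_re, hs,
    sub_neg_eq_add] at a4
  have a5 := hK (1 - s) (by simp only [sub_re, one_re, hs]; linarith)
  have a6 : Q ^ (-R) * (c * y ^ (x1 - 3 / 2) * E) * ‖G s‖ ≤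
      Q ^ (1 + R) * (C * y ^ (x2 + 1 / 2) * E) * K := by
    calc _ ≤ Q ^ (-R) * ‖Complex.Gamma (lam * s + mu)‖ * ‖G s‖ := by gcongr
      _ = _ := a4.symm
      _ ≤ _ := by gcongr
  have a7 : y ^ (x2 + 1 / 2) ≤ y ^ (x1 - 3 / 2) * (lam ^ N * (1 + |s.im|) ^ N) := by
    rw [show x2 + 1 / 2 = (x1 - 3 / 2) + (x2 - x1 + 2) by ring, Real.rpow_add hy0, ← mul_pow]
    gcongr
    calc _ ≤ y ^ (N : ℝ) := Real.rpow_le_rpow_of_exponent_le hy (Nat.le_ceil _)
      _ = y ^ N := Real.rpow_natCast _ _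
      _ ≤ _ := by
        gcongr
        rw [hydef, abs_mul, abs_of_pos (by linarith : 0 < lam)]; gcongr; linarith
  have a8 : ‖G s‖ ≤ Q ^ (1 + R) * C * K / (Q ^ (-R) * c) * lam ^ N * (1 + |s.im|) ^ N := by
    rw [mul_assoc, div_mul_eq_mul_div, le_div_iff₀ (by positivity)]
    apply le_of_mul_le_mul_right _ (mul_pos hp hE)
    calc _ = Q ^ (-R) * (c * y ^ (x1 - 3 / 2) * E) * ‖G s‖ := by ring
      _ ≤ _ := a6
      _ ≤ Q ^ (1 + R) * (C * (y ^ (x1 - 3 / 2) * (lam ^ N * (1 + |s.im|) ^ N)) * E) * K := by gcongr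
      _ = _ := by ring
  have a9 : 0 ≤ Real.exp (D * (2 + R) ^ 2) * (1 + |s.im|) ^ N := by positivity
  linarith

theorem Gamma_ne_codiscrete (α β : ℂ) (h : 0 < β.re) :
    ∀ᶠ s in codiscrete ℂ, Complex.Gamma (α * s + β) ≠ 0 := by
  have h1 : Differentiable ℂ fun s : ℂ => (Complex.Gamma (α * s + β))⁻¹ :=
    differentiable_one_div_Gamma.comp (by fun_prop)
  have h2 := (h1.differentiableOn.analyticOnNhd isOpen_univ).preimage_zero_mem_codiscrete (x := 0)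
    (by simpa using Complex.Gamma_ne_zero_of_re_pos h)
  filter_upwards [h2] with s hs
  simpa using hs

theorem fe_codiscrete {Φ G : ℂ → ℂ} {Q lam mu : ℝ} (hlam : 0 < lam) (hmu : 0 < mu)
    (f1 : ∀ s, Φ (1 - s) = -Φ s) (f2 : ∀ s, Φ (starRingEnd ℂ s) = starRingEnd ℂ (Φ s))
    (f3 : ∀ s : ℂ, Complex.Gamma (lam * s + mu) ≠ 0 →
        (Q : ℂ) ^ s * Complex.Gamma (lam * s + mu) * G s = Φ s) :
    ∀ᶠ s in codiscrete ℂ, (Q : ℂ) ^ s * Complex.Gamma (lam * s + mu) * G s =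
      -starRingEnd ℂ ((Q : ℂ) ^ (1 - starRingEnd ℂ s) *
        Complex.Gamma (lam * (1 - starRingEnd ℂ s) + mu) * G (1 - starRingEnd ℂ s)) := by
  filter_upwards [Gamma_ne_codiscrete lam mu (by simpa using hmu),
    Gamma_ne_codiscrete (-lam) (lam + mu) (by simpa using add_pos hlam hmu)] with s h1 h2
  have h3 : Complex.Gamma (lam * (1 - starRingEnd ℂ s) + mu) ≠ 0 := by
    have : (lam : ℂ) * (1 - starRingEnd ℂ s) + mu = starRingEnd ℂ (-lam * s + (lam + mu)) := by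
      simp only [map_add, map_mul, map_neg, conj_ofReal]; ring
    rw [this, Gamma_conj]
    simpa using h2
  rw [f3 s h1, f3 _ h3, f1, f2]
  simp

theorem not_zero_codiscrete {F : ℂ → ℂ} (hF : Continuous F) {s0 : ℂ} (h : F s0 ≠ 0) :
    ¬ ∀ᶠ s in codiscrete ℂ, F s = 0 := by
  intro H
  have h1 := mem_codiscrete.mp H s0
  rw [disjoint_principal_right, compl_compl] at h1
  exact h (tendsto_nhds_unique_of_eventuallyEq (l := 𝓝[≠] s0)
    (hF.continuousAt.tendsto.mono_left nhdsWithin_le_nhds) tendsto_const_nhds h1)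

/-- every real degree at least eight occurs -/
theorem finA (hsel : SELA) (hker : KER0) (hmel : MEL) (d : ℝ) (hd : 8 ≤ d) :
    ∃ F : ℂ → ℂ, SelA.InClass F d := by
  obtain ⟨N, hN⟩ := exists_nat_ge d
  obtain ⟨κ, hκ, a, a0, a1, sa, hθ⟩ := hsel 0 (-1) N d hd (hker N)
  set mu := (N : ℝ) / 2 + 1 / 4 - d / 4 with hmu
  have hmu0 : 0 < mu := by linarith
  obtain ⟨Φ, G, Q, hQ, g1, g2, g3', f1, f2, f3⟩ := pack hmel 0 (-1) N d κ a 1
    (d / 2) mu rfl rfl (by linarith) hmu0 hκ a0 (by norm_num) (by norm_num) sa hθ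
  have g3 : ∀ s : ℂ, 1 ≤ s.re → G s = LSeries (fun n => (a n : ℂ)) s :=
    fun s hs => by rw [g3' s hs]; simp
  have hK : ∀ s : ℂ, 1 ≤ s.re → ‖G s‖ ≤ ∑' n : ℕ, |a n| * (n : ℝ) ^ (-(1 : ℝ)) :=
    fun s hs => by rw [g3 s hs]; exact (lseries_bdd sa hs).2
  refine ⟨G, fun s => (g1.analyticAt s).meromorphicAt, ?_,
    ⟨fun n => a n, 1, fun s hs => ⟨(lseries_bdd sa hs.le).1, g3 s hs.le⟩⟩,
    ⟨1, G, one_ne_zero, g1, Eventually.of_forall fun s => by simp, fun σ1 σ2 => ?_⟩,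
    Q, -1, 1, 0, fun _ => d / 2, fun _ => mu, Fin.elim0, Fin.elim0, _, hQ, by simp,
    fun _ => by linarith, fun j => j.elim0, fun s => rfl, ?_, by simp; ring⟩
  · have h1 : LSeries.abscissaOfAbsConv (fun n => (a n : ℂ)) < ⊤ :=
      (lseries_bdd (s := 1) sa (by simp)).1.abscissaOfAbsConv_le.trans_lt (EReal.coe_lt_top _)
    have h2 := (LSeries.tendsto_atTop h1).eventually_ne (b₂ := 0) (by simp [a1])
    obtain ⟨x, hx1, hx2⟩ := (h2.and (eventually_ge_atTop 1)).exists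
    exact not_zero_codiscrete g1.continuous (s0 := x) (by rwa [g3 x (by simpa using hx2)])
  · obtain ⟨M, C, hC, h⟩ := left_line (R := |σ1|) hQ (by linarith) hmu0 (abs_nonneg _) g2 hK f1 f3
    set K := ∑' n : ℕ, |a n| * (n : ℝ) ^ (-(1 : ℝ))
    have hK0 : 0 ≤ K := (norm_nonneg _).trans (hK 1 (by simp))
    obtain ⟨D, hD⟩ := g5 G (-|σ1|) (|σ2| + 1) M g1 g2.finite_order ⟨C + K, fun s hs => by
      have h1N : 1 ≤ (1 + |s.im|) ^ M := one_le_pow₀ (by linarith [abs_nonneg s.im])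
      rcases hs with hs | hs
      · exact (h s hs).trans (by gcongr; linarith)
      · have := hK s (by linarith [abs_nonneg σ2])
        nlinarith⟩
    refine ⟨M, D, fun s h1 h2 => ?_⟩
    rw [Real.rpow_natCast]
    exact hD s (by linarith [neg_abs_le σ1]) (by linarith [le_abs_self σ2])
  · filter_upwards [fe_codiscrete (by linarith : 0 < d / 2) hmu0 f1 f2 f3] with s hs
    simpa using hs

/-- the form for the hand-in -/
theorem finBac (hsel : SELA) (hker : KER0) (hmel : MEL) :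
    (∀ d : ℝ, 8 ≤ d → ∃ F : ℂ → ℂ, SelA.InClass F d) ∧
    ¬ ∀ d : ℝ, 0 ≤ d → (∀ k : ℤ, d ≠ (k : ℝ)) → ∀ F : ℂ → ℂ, ¬ SelA.InClass F d := by
  refine ⟨finA hsel hker hmel, fun H => ?_⟩
  obtain ⟨F, hF⟩ := finA hsel hker hmel (17 / 2) (by norm_num)
  refine H (17 / 2) (by norm_num) (fun k hk => ?_) F hF
  have : (17 : ℝ) = 2 * k := by linarith
  have : (17 : ℤ) = 2 * k := by exact_mod_cast this
  omega

end Pool.Agent.H49.Sel
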