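import Pool.Agent.H49.BigSpec
import Pool.Agent.H49.BigDefs
import Pool.Agent.H49.SelA
import Pool.Agent.H63.SelFac

set_option autoImplicit false
open Complex Set Filter Topology

namespace Pool.Agent.H49.Big
open Pool.Agent.Lead.Sel Pool.Agent.H49.SelS Pool.Agent.H63.Sel

theorem fin18646 (h : BIG) :
    ¬ (∀ a : ℕ → ℂ,
      a 1 = 1 →
      (∀ ε : ℝ, 0 < ε → ∃ C : ℝ, ∀ n : ℕ, 1 ≤ n → ‖a n‖ ≤ C * (n : ℝ) ^ ε) →
      (∃ b : ℕ → ℂ, (∀ n : ℕ, ¬ IsPrimePow n → b n = 0) ∧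
        (∃ θ : ℝ, θ < 1 / 2 ∧ ∃ C : ℝ, ∀ n : ℕ, ‖b n‖ ≤ C * (n : ℝ) ^ θ) ∧
        ∀ s : ℂ, 1 < s.re → LSeries a s = Complex.exp (LSeries b s)) →
      (∃ m : ℕ, ∃ G : ℂ → ℂ, Differentiable ℂ G ∧
        (∃ A B : ℝ, ∀ z : ℂ, ‖G z‖ ≤ A * Real.exp (‖z‖ ^ B)) ∧
        (∀ s : ℂ, 1 < s.re → G s = (s - 1) ^ m * LSeries a s) ∧
        ∃ Q : ℝ, 0 < Q ∧ ∃ k : ℕ, ∃ lam : Fin k → ℝ, ∃ μ : Fin k → ℂ,
          (∀ j, 0 < lam j) ∧ (∀ j, 0 ≤ (μ j).re) ∧
          ∃ ω : ℂ, ‖ω‖ = 1 ∧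
            ∀ s : ℂ, s ≠ 1 → s ≠ 0 →
              (∀ j, ∀ t : ℕ, (lam j : ℂ) * s + μ j ≠ -(t : ℂ)) →
              (∀ j, ∀ t : ℕ, (lam j : ℂ) * (1 - starRingEnd ℂ s) + μ j ≠ -(t : ℂ)) →
              (Q : ℂ) ^ s * (∏ j, Complex.Gamma ((lam j : ℂ) * s + μ j)) *
                  (G s / (s - 1) ^ m) =
                ω * starRingEnd ℂ
                  ((Q : ℂ) ^ (1 - starRingEnd ℂ s) *
                    (∏ j, Complex.Gamma ((lam j : ℂ) * (1 - starRingEnd ℂ s) + μ j)) *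
                    (G (1 - starRingEnd ℂ s) / ((1 - starRingEnd ℂ s) - 1) ^ m))) →
      ∃ nF : ℤ, ∃ C : ℝ, ∀ X : ℝ, 3 ≤ X →
        |(∑ p ∈ (Finset.range (⌊X⌋₊ + 1)).filter Nat.Prime, ‖a p‖ ^ 2 / (p : ℝ))
            - (nF : ℝ) * Real.log (Real.log X)| ≤ C) := by
  intro H
  obtain ⟨a, b, G, Q, lam, mu, -, a1, a2, b1, b2, -, hL, hG, hord, hGL, hQ, hlam, hmu, hfe, big⟩ := h
  obtain ⟨C, hC⟩ := b2 (1 / 4) (by norm_num)
  obtain ⟨nF, K, hK⟩ := H a a1 a2
    ⟨b, fun n hn => b1 n fun hp => hn hp.isPrimePow, ⟨1 / 4, by norm_num, C, fun n => by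
      rcases Nat.eq_zero_or_pos n with rfl | hn
      · simp [b1 0 Nat.not_prime_zero]
      · exact hC n hn⟩, fun s hs => (hL s hs).2.2⟩
    ⟨0, G, hG, ⟨hord.choose_spec.choose, hord.choose, hord.choose_spec.choose_spec⟩,
      fun s hs => by simpa using hGL s hs, Q, hQ, 1, fun _ => lam, fun _ => mu,
      fun _ => by linarith, fun _ => by simpa using hmu.le, -1, by simp,
      fun s _ _ h1 h2 => by simpa using hfe s (h1 0) (h2 0)⟩
  obtain ⟨N, hN, hb⟩ := big nF (K + 1)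
  have := (abs_le.1 (hK N (by exact_mod_cast hN))).2
  rw [Nat.floor_natCast, Nat.range_succ_eq_Iic] at this
  linarith

theorem mem_of_inSelberg {a : ℕ → ℂ} {F : ℂ → ℂ} (h : InSelberg a F) : ∃ D, Mem a D := by
  obtain ⟨h1, ⟨m, E, e1, e2, e3⟩, ⟨Q, k, lam, mu, ω, Φ, q1, q2, q3, q4, q5, q6⟩, h4, h5,
    b, θ, C, b1, b2, b3, b4⟩ := h
  have ne1 : ∀ s : ℂ, s.re ≠ 1 → s ≠ 1 := by rintro s hs rfl; simp at hs
  refine ⟨_, h5, h4, ⟨b, b2, θ, b1, C, b3, fun s hs => by rw [← (h1 s hs).2, (b4 s hs).2]⟩, m, E,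
    e1, e2, fun s hs => by rw [e3 s (ne1 s hs.ne'), (h1 s hs).2], Q, q1, k, lam, mu, ω, q2, q3, q4,
    rfl, fun s s0 s1 => ?_⟩
  set Ψ : ℂ → ℂ := fun s => (Q : ℂ) ^ s * (∏ j, Complex.Gamma ((lam j : ℂ) * s + mu j)) *
    (E s / (s - 1) ^ m) with hΨ
  have p1 : ∀ s : ℂ, s ≠ 1 → Φ s = Ψ s := fun s hs => by
    have := pow_ne_zero m (sub_ne_zero.mpr hs)
    simp only [hΨ]
    rw [q5, e3 s hs, mul_div_cancel_left₀ _ this]
  have p2 : ∀ s : ℂ, 0 < s.re → s.re < 1 → ContinuousAt Ψ s := fun s s0 s1 => by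
    refine (ContinuousAt.mul (continuousAt_const_cpow (ofReal_ne_zero.mpr q1.ne')) ?_).mul
      (e1.continuous.continuousAt.div (by fun_prop)
        (pow_ne_zero m (sub_ne_zero.mpr (ne1 s s1.ne))))
    refine tendsto_finsetProd _ fun j _ => ?_
    refine ContinuousAt.comp (f := fun s : ℂ => (lam j : ℂ) * s + mu j)
      (Complex.differentiableAt_Gamma _ fun n hn => ?_).continuousAt (by fun_prop)
    have := congrArg re hn
    have h2 : (0 : ℝ) ≤ n := Nat.cast_nonneg n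
    have h3 := mul_pos (q2 j) s0
    have h4 := q3 j
    simp at this; linarith
  have p3 : ContinuousAt (fun s => ω * starRingEnd ℂ (Ψ (1 - starRingEnd ℂ s))) s := by
    refine continuousAt_const.mul (continuous_conj.continuousAt.comp ?_)
    exact ContinuousAt.comp (f := fun s : ℂ => 1 - starRingEnd ℂ s)
      (p2 _ (by simpa using s1) (by simpa using s0))
      (continuousAt_const.sub continuous_conj.continuousAt)
  have h1 := mem_codiscrete.mp q6 s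
  rw [disjoint_principal_right, compl_compl] at h1
  have h2 : ∀ᶠ z in 𝓝 s, 0 < z.re ∧ z.re < 1 :=
    (continuous_re.continuousAt.eventually (lt_mem_nhds s0)).and
      (continuous_re.continuousAt.eventually (gt_mem_nhds s1))
  refine tendsto_nhds_unique_of_eventuallyEq (l := 𝓝[≠] s)
    ((p2 s s0 s1).tendsto.mono_left nhdsWithin_le_nhds)
    (p3.tendsto.mono_left nhdsWithin_le_nhds) ?_
  filter_upwards [h1, nhdsWithin_le_nhds h2] with z z1 z2
  rw [← p1 z (ne1 z z2.2.ne), ← p1 _ (ne1 _ (by simpa using z2.1.ne'))]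
  exact z1

theorem isOne_of_triv {a : ℕ → ℂ} {F : ℂ → ℂ} (h : InSelberg a F) (ht : Triv a) : IsOne F := by
  intro s hs
  rw [(h.1 s hs).2, LSeries, tsum_eq_single 1]
  · simp [h.2.2.2.2.1]
  · intro n hn
    rcases Nat.eq_zero_or_pos n with rfl | h
    · simp
    · rw [LSeries.term_of_ne_zero h.ne', ht n (by omega), zero_div]

/-- the mean square on the primes is at most a multiple of log log -/
def Small (a : ℕ → ℂ) : Prop :=
  ∃ K C : ℝ, ∀ᶠ x : ℝ in atTop, primeSum a x ≤ K * Real.log (Real.log x) + C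

theorem Small.add {a f g : ℕ → ℂ} (hf : Small f) (hg : Small g)
    (h : ∀ p : ℕ, p.Prime → a p = f p + g p) : Small a := by
  obtain ⟨K1, C1, h1⟩ := hf
  obtain ⟨K2, C2, h2⟩ := hg
  refine ⟨2 * K1 + 2 * K2, 2 * C1 + 2 * C2, ?_⟩
  filter_upwards [h1, h2] with x x1 x2
  have : primeSum a x ≤ 2 * primeSum f x + 2 * primeSum g x := by
    simp only [primeSum, Finset.mul_sum, ← Finset.sum_add_distrib]
    refine Finset.sum_le_sum fun p hp => ?_
    rw [h p (Finset.mem_filter.1 hp).2, ← mul_div_assoc, ← mul_div_assoc, ← add_div]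
    refine div_le_div_of_nonneg_right ?_ (Nat.cast_nonneg p)
    have h3 := norm_add_le (f p) (g p)
    have h4 := norm_nonneg (f p + g p)
    nlinarith [sq_nonneg (‖f p‖ - ‖g p‖), norm_nonneg (f p), norm_nonneg (g p)]
  linarith

theorem small_all (h0 : CG0) (h1 : CG1) (H : ∀ a F, Primitive a F → Small a) (N : ℕ) :
    ∀ (a : ℕ → ℂ) (F : ℂ → ℂ) (D : ℝ), InSelberg a F → Mem a D → D < N → ¬ IsOne F → Small a := by
  have ge1 : ∀ a F D, InSelberg a F → Mem a D → ¬ IsOne F → 1 ≤ D := by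
    rintro a F D hs ⟨a1, a2, a3, m, G, a4⟩ hn
    by_contra hcon
    exact hn (isOne_of_triv hs (h1 a D m G a1 a2 a3 a4 (not_le.1 hcon)))
  induction N with
  | zero => intro a F D hs ha hD hn; have := ge1 a F D hs ha hn; simp at hD; linarith
  | succ N ih =>
    intro a F D hs ha hD hn
    by_cases hp : Primitive a F
    · exact H a F hp
    have : ∃ (f g : ℕ → ℂ) (F1 F2 : ℂ → ℂ), InSelberg f F1 ∧ InSelberg g F2 ∧
        (∀ s : ℂ, 1 < s.re → F s = F1 s * F2 s) ∧ ¬ IsOne F1 ∧ ¬ IsOne F2 := by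
      by_contra hcon
      refine hp ⟨hs, hn, fun f g F1 F2 hf hg h => ?_⟩
      by_contra h2
      push Not at h2
      exact hcon ⟨f, g, F1, F2, hf, hg, h, h2⟩
    obtain ⟨f, g, F1, F2, sf, sg, h, nf, ng⟩ := this
    obtain ⟨Df, hf⟩ := mem_of_inSelberg sf
    obtain ⟨Dg, hg⟩ := mem_of_inSelberg sg
    have h' : ∀ s : ℂ, 1 < s.re → LSeries a s = LSeries f s * LSeries g s := fun s s1 => by
      rw [← (hs.1 s s1).2, ← (sf.1 s s1).2, ← (sg.1 s s1).2, h s s1]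
    have e := additive h0 ha hf hg h'
    have b1 := ge1 f F1 Df sf hf nf
    have b2 := ge1 g F2 Dg sg hg ng
    push_cast at hD
    exact (ih f F1 Df sf hf (by linarith) nf).add (ih g F2 Dg sg hg (by linarith) ng)
      fun p hp => coeff_prime ha.2.1 hf.2.1 hg.2.1 hf.1 hg.1 h' hp

theorem primeSum_mono (a : ℕ → ℂ) : Monotone (primeSum a) := fun x y hxy =>
  Finset.sum_le_sum_of_subset_of_nonneg
    (Finset.filter_subset_filter _ (Finset.Iic_subset_Iic.2 (Nat.floor_mono hxy)))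
    fun _ _ _ => by positivity

theorem exists_prim (h0 : CG0) (h1 : CG1) (h : BIG) : ∃ a F, Primitive a F ∧ ¬ Small a := by
  by_contra hcon
  push Not at hcon
  obtain ⟨a, b, G, Q, lam, mu, -, a1, a2, b1, b2, -, hL, hG, hord, hGL, hQ, hlam, hmu, hfe, big⟩ := h
  obtain ⟨C, hC⟩ := b2 (1 / 4) (by norm_num)
  have hs : InSelberg a G := by
    refine ⟨fun s hs => ⟨(hL s hs).1, hGL s hs⟩, ⟨0, G, hG, hord, fun s _ => by simp⟩,
      ⟨Q, 1, fun _ => lam, fun _ => mu, -1, _, hQ, fun _ => by linarith,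
        fun _ => by simpa using hmu.le, by simp, fun s => rfl, ?_⟩, a2, a1, b, 1 / 4, C,
      by norm_num, fun n hn => b1 n fun hp => hn hp.isPrimePow, hC,
      fun s hs => ⟨(hL s hs).2.1, by rw [hGL s hs, (hL s hs).2.2]⟩⟩
    filter_upwards [Sel.Gamma_ne_codiscrete lam mu (by simpa using hmu),
      Sel.Gamma_ne_codiscrete (-lam) (lam + mu) (by simp; linarith)] with s g1 g2
    have g3 : Complex.Gamma (lam * (1 - starRingEnd ℂ s) + mu) ≠ 0 := by
      have : (lam : ℂ) * (1 - starRingEnd ℂ s) + mu = starRingEnd ℂ (-lam * s + (lam + mu)) := by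
        simp only [map_add, map_mul, map_neg, conj_ofReal]; ring
      rw [this, Gamma_conj]
      simpa using g2
    simpa using hfe s (fun n hn => g1 (by rw [hn]; exact Complex.Gamma_neg_nat_eq_zero n))
      (fun n hn => g3 (by rw [hn]; exact Complex.Gamma_neg_nat_eq_zero n))
  have ns : ¬ Small a := by
    rintro ⟨K, C, hK⟩
    obtain ⟨x0, hx0⟩ := eventually_atTop.1 hK
    obtain ⟨N, hN, hb⟩ := big |K| (|C| + primeSum a x0 + 1)
    have hN' : (3 : ℝ) ≤ N := by exact_mod_cast hN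
    have l1 : 0 ≤ Real.log (Real.log N) := by
      refine Real.log_nonneg ((Real.le_log_iff_exp_le (by linarith)).2 ?_)
      linarith [Real.exp_one_lt_d9]
    have e : primeSum a N = ∑ p ∈ (Finset.Iic N).filter Nat.Prime, ‖a p‖ ^ 2 / (p : ℝ) := by
      rw [primeSum, Nat.floor_natCast]
    rw [← e] at hb
    have l2 := mul_le_mul_of_nonneg_right (le_abs_self K) l1
    have l3 := mul_nonneg (abs_nonneg K) l1
    have l4 : 0 ≤ primeSum a x0 := Finset.sum_nonneg fun _ _ => by positivity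
    rcases le_total x0 N with hx | hx
    · linarith [hx0 N hx, le_abs_self C]
    · linarith [primeSum_mono a hx, abs_nonneg C]
  obtain ⟨D, hD⟩ := mem_of_inSelberg hs
  obtain ⟨N, hN⟩ := exists_nat_gt D
  refine ns (small_all h0 h1 hcon N a G D hs hD hN fun h => ns ⟨0, 0, Eventually.of_forall fun x => ?_⟩)
  have e := additive h0 hD hD hD fun s s1 => by rw [← (hs.1 s s1).2, h s s1, one_mul]
  obtain ⟨-, -, a3, m, G', a4⟩ := hD
  have ht := h1 a D m G' a1 a2 a3 a4 (by linarith)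
  rw [zero_mul, zero_add]
  exact (Finset.sum_eq_zero fun p hp => by
    rw [ht p (Finset.mem_filter.1 hp).2.two_le]; simp).le

theorem fin8e9775 (h0 : CG0) (h1 : CG1) (h : BIG) :
    ∃ (a : ℕ → ℂ) (F : ℂ → ℂ), Primitive a F ∧
      ¬ ∃ C x₀ : ℝ, ∀ x : ℝ, x₀ ≤ x → |primeSum a x - Real.log (Real.log x)| ≤ C := by
  obtain ⟨a, F, hp, hn⟩ := exists_prim h0 h1 h
  refine ⟨a, F, hp, fun ⟨C, x0, hC⟩ => hn ⟨1, C, eventually_atTop.2 ⟨x0, fun x hx => ?_⟩⟩⟩
  linarith [(abs_le.1 (hC x hx)).2]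

end Pool.Agent.H49.Big
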