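import Pool.Agent.Lead.Sel.Spec

/- Interfaces for the member of the Selberg class with a large mean square on the primes. -/

set_option autoImplicit false
open Complex

namespace Pool.Agent.H49.Big
open Pool.Agent.Lead.Sel

/-- the primes of a cell -/
def cellP (L j : ℕ) : Finset ℕ := (Finset.Ioc (j ^ L) ((j + 1) ^ L)).filter Nat.Prime

/-- sharp lower bound for the number of primes in a cell -/
def LOW : Prop :=
  ∃ L0 : ℕ, ∀ L : ℕ, L0 ≤ L → ∃ c : ℝ, 0 < c ∧ ∃ J : ℕ, ∀ j : ℕ, J ≤ j →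
    c * (j : ℝ) ^ L / (j * Real.log j) ≤ ((cellP L j).card : ℝ)

/-- sharp upper bound for the number of primes in a short interval -/
def UP : Prop :=
  ∃ C : ℝ, 0 < C ∧ ∃ y0 : ℝ, ∀ y h : ℝ, y0 ≤ y → y ^ (15 / 16 : ℝ) ≤ h → h ≤ y →
    (((Finset.Ioc ⌊y⌋₊ ⌊y + h⌋₊).filter Nat.Prime).card : ℝ) ≤ C * h / Real.log y

/-- a member of the Selberg class whose mean square on the primes is not O(log log) -/
def BIG : Prop :=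
  ∃ (a b : ℕ → ℂ) (G : ℂ → ℂ) (Q lam mu : ℝ),
    a 0 = 0 ∧ a 1 = 1 ∧ Ram a ∧ (∀ n, ¬ n.Prime → b n = 0) ∧ Ram b ∧
    (∀ p : ℕ, p.Prime → a p = b p) ∧
    (∀ s : ℂ, 1 < s.re → LSeriesSummable a s ∧ LSeriesSummable b s ∧
      LSeries a s = Complex.exp (LSeries b s)) ∧
    Differentiable ℂ G ∧ (∃ ρ C : ℝ, ∀ s : ℂ, ‖G s‖ ≤ C * Real.exp (‖s‖ ^ ρ)) ∧
    (∀ s : ℂ, 1 < s.re → G s = LSeries a s) ∧
    0 < Q ∧ 1 < lam ∧ 0 < mu ∧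
    (∀ s : ℂ, (∀ n : ℕ, (lam : ℂ) * s + mu ≠ -(n : ℂ)) →
      (∀ n : ℕ, (lam : ℂ) * (1 - starRingEnd ℂ s) + mu ≠ -(n : ℂ)) →
      (Q : ℂ) ^ s * Complex.Gamma ((lam : ℂ) * s + mu) * G s =
        -starRingEnd ℂ ((Q : ℂ) ^ (1 - starRingEnd ℂ s) *
          Complex.Gamma ((lam : ℂ) * (1 - starRingEnd ℂ s) + mu) * G (1 - starRingEnd ℂ s))) ∧
    ∀ D C : ℝ, ∃ N : ℕ, 3 ≤ N ∧ D * Real.log (Real.log N) + C ≤
      ∑ p ∈ (Finset.Iic N).filter Nat.Prime, ‖a p‖ ^ 2 / (p : ℝ)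

end Pool.Agent.H49.Big
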