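import Mathlib

set_option autoImplicit false

namespace Pool.Agent.H49.CS

open Finset

/-- Subset sums of the first `k` terms. -/
def R (b : ℕ → ℕ) (k x : ℕ) : Prop := ∃ Q : Finset ℕ, Q ⊆ range k ∧ ∑ i ∈ Q, b i = x

/-- Sum of the first `k` terms. -/
def S (b : ℕ → ℕ) (k : ℕ) : ℕ := ∑ i ∈ range k, b i

lemma S_succ (b : ℕ → ℕ) (k : ℕ) : S b (k + 1) = S b k + b k := sum_range_succ _ _

lemma S_mono (b : ℕ → ℕ) {h k : ℕ} (hk : h ≤ k) : S b h ≤ S b k :=
  sum_le_sum_of_subset (range_subset_range.2 hk)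

lemma S_Ico (b : ℕ → ℕ) {h k : ℕ} (hk : h ≤ k) : S b h + ∑ i ∈ Ico h k, b i = S b k :=
  sum_range_add_sum_Ico _ hk

lemma R_sym {b : ℕ → ℕ} {k x y : ℕ} (h : R b k x) (hy : x + y = S b k) : R b k y := by
  obtain ⟨Q, hQ, rfl⟩ := h
  refine ⟨range k \ Q, sdiff_subset, ?_⟩
  have := sum_sdiff (f := b) hQ
  unfold S at hy
  omega

lemma R_add {b : ℕ → ℕ} {h N y : ℕ} (hy : R b h y) (hN : h ≤ N) {Q : Finset ℕ}
    (hQ : Q ⊆ Ico h N) : R b N (y + ∑ i ∈ Q, b i) := by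
  obtain ⟨P, hP, rfl⟩ := hy
  refine ⟨P ∪ Q, ?_, sum_union ?_⟩
  · intro i hi
    rcases mem_union.1 hi with hi | hi
    · have := mem_range.1 (hP hi); exact mem_range.2 (by omega)
    · exact mem_range.2 (mem_Ico.1 (hQ hi)).2
  · refine disjoint_left.2 fun i h1 h2 => ?_
    have := mem_range.1 (hP h1)
    have := (mem_Ico.1 (hQ h2)).1
    omega

lemma R_mono {b : ℕ → ℕ} {h N y : ℕ} (hy : R b h y) (hN : h ≤ N) : R b N y := by
  simpa using R_add hy hN (empty_subset _)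

lemma R_one {b : ℕ → ℕ} {h y : ℕ} (hy : R b h y) : R b (h + 1) (y + b h) := by
  simpa using R_add hy (Nat.le_succ h) (Q := {h}) (by simp)

lemma R_all {b : ℕ → ℕ} {h N y x : ℕ} (hy : R b h y) (hN : h ≤ N) (hx : x + S b h = y + S b N) :
    R b N x := by
  have h1 := R_add hy hN (Q := Ico h N) Subset.rfl
  have h2 := S_Ico b hN
  have : x = y + ∑ i ∈ Ico h N, b i := by omega
  rwa [this]

lemma R_of_lt {b : ℕ → ℕ} {k : ℕ} (hm : ∀ j, k ≤ j → b k ≤ b j) {Q : Finset ℕ}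
    (hx : ∑ i ∈ Q, b i < b k) : R b k (∑ i ∈ Q, b i) := by
  refine ⟨Q, fun i hi => mem_range.2 ?_, rfl⟩
  by_contra hc
  have h1 := hm i (by omega)
  have h2 := single_le_sum (f := b) (fun _ _ => Nat.zero_le _) hi
  omega

lemma desc (b : ℕ → ℕ) (T N u L : ℕ) (hu : T ≤ u) (hL : u + S b L < S b N + T) :
    ∃ i, L ≤ i ∧ i < N ∧ S b N + T ≤ u + S b (i + 1) ∧ u + S b i < S b N + T := by
  classical
  have hex : ∃ i, S b N + T ≤ u + S b i := ⟨N, by omega⟩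
  have h1 := Nat.find_spec hex
  have h2 : Nat.find hex ≤ N := Nat.find_min' hex (by omega)
  have h3 : L < Nat.find hex := by
    by_contra hc
    have := S_mono b (not_lt.1 hc)
    omega
  obtain ⟨i, hi⟩ : ∃ i, Nat.find hex = i + 1 := ⟨Nat.find hex - 1, by omega⟩
  have h4 := Nat.find_min hex (m := i) (by omega)
  rw [hi] at h1
  exact ⟨i, by omega, by omega, h1, by omega⟩

/-- Two close values that are not subset sums. -/
def Pr (b : ℕ → ℕ) (T h d : ℕ) : Prop := ∃ u e, d ≤ e ∧ e ≤ 2 * T ∧ T ≤ u ∧ u + e + T ≤ S b h ∧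
  ¬ R b h u ∧ ¬ R b h (u + e)

lemma step (b : ℕ → ℕ) (K T d : ℕ) (hm : ∀ i j, K ≤ i → i ≤ j → b i ≤ b j)
    (hu : ∀ M, ∃ i, K ≤ i ∧ M ≤ b i) (hc : ∀ x, T ≤ x → ∃ Q : Finset ℕ, ∑ i ∈ Q, b i = x)
    (hK : 4 * T < b K) (hs : ∀ k, K ≤ k → 2 * b k ≤ S b k)
    (hp : ∀ L, ∃ h, L ≤ h ∧ Pr b T h d) (L : ℕ) (hL : K ≤ L) :
    ∃ h, L ≤ h ∧ Pr b T h (d + 1) := by
  classical
  have sm : ∀ k x, K ≤ k → T ≤ x → ¬ R b k x → b k ≤ x := by
    intro k x hk hx hn
    by_contra hlt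
    obtain ⟨Q, rfl⟩ := hc x hx
    exact hn (R_of_lt (fun j hj => hm k j hk hj) (by omega))
  have big : ∀ k, K ≤ k → 4 * T < b k := fun k hk => hK.trans_le (hm K k le_rfl hk)
  obtain ⟨L1, hL1, hb1⟩ := hu (S b L + b K + T + 1)
  obtain ⟨L3, hL3, hb3⟩ := hu (S b L1 + 1)
  obtain ⟨N, hN, hP⟩ := hp L3
  have hSN : 2 * S b L1 < S b N := by
    have := hs N (by omega)
    have := hm L3 N hL3 hN
    omega
  obtain ⟨u, e, he1, he2, hu1, hu2, hn1, hn2⟩ : ∃ u e, d ≤ e ∧ e ≤ 2 * T ∧ T ≤ u ∧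
      2 * u + e ≤ S b N ∧ ¬ R b N u ∧ ¬ R b N (u + e) := by
    obtain ⟨u, e, he1, he2, hu1, hu2, hn1, hn2⟩ := hP
    by_cases h : 2 * u + e ≤ S b N
    · exact ⟨u, e, he1, he2, hu1, h, hn1, hn2⟩
    · exact ⟨S b N - u - e, e, he1, he2, by omega, by omega,
        fun h' => hn2 (R_sym h' (by omega)), fun h' => hn1 (R_sym h' (by omega))⟩
  obtain ⟨i0, hi1, hi2, hi3, hi4⟩ := desc b T N u L1 hu1 (by omega)
  have e0 := S_succ b i0
  obtain ⟨u1, hu1'⟩ : ∃ u1, u1 + S b N = u + S b (i0 + 1) :=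
    ⟨u + S b (i0 + 1) - S b N, by omega⟩
  have n1 : ¬ R b (i0 + 1) u1 := fun h => hn1 (R_all h hi2 (by omega))
  have n2 : ¬ R b (i0 + 1) (u1 + e) := fun h => hn2 (R_all h hi2 (by omega))
  have a1 : b (i0 + 1) ≤ u1 := sm _ _ (by omega) (by omega) n1
  have a2 : b i0 ≤ b (i0 + 1) := hm _ _ (by omega) (by omega)
  have a3 : b L1 ≤ b i0 := hm _ _ hL1 hi1
  have a4 := big i0 (by omega)
  have heT : e < T := by
    by_contra hcon
    have n3 : ¬ R b i0 (u1 + e - b i0) := fun h => n2 (by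
      have := R_one h
      rwa [show u1 + e - b i0 + b i0 = u1 + e by omega] at this)
    have := sm i0 _ (by omega) (by omega) n3
    omega
  have hex : ∃ i, K ≤ i ∧ u1 < b i + T := ⟨i0, by omega, by omega⟩
  obtain ⟨f1, f2⟩ := Nat.find_spec hex
  have f3 : Nat.find hex ≤ i0 := Nat.find_min' hex ⟨by omega, by omega⟩
  have f4 : Nat.find hex ≠ K := fun h => by rw [h] at f2; omega
  obtain ⟨i1, hi⟩ : ∃ i, Nat.find hex = i + 1 := ⟨Nat.find hex - 1, by omega⟩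
  have f5 := Nat.find_min hex (m := i1) (by omega)
  rw [hi] at f1 f2 f3 f4
  have f6 : b i1 + T ≤ u1 := by
    by_contra hcon
    exact f5 ⟨by omega, by omega⟩
  have m1 : ¬ R b (i1 + 1) u1 := fun h => n1 (R_mono h (by omega))
  have m2 : ¬ R b (i1 + 1) (u1 + e) := fun h => n2 (R_mono h (by omega))
  have g1 : b i1 ≤ u1 - b i1 := sm i1 _ (by omega) (by omega) (fun h => m1 (by
      have := R_one h
      rwa [show u1 - b i1 + b i1 = u1 by omega] at this))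
  have g2 := hs (i1 + 1) f1
  have e1 := S_succ b i1
  obtain ⟨i3, k1, k2, k3, k4⟩ := desc b T (i1 + 1) u1 L (by omega) (by omega)
  have e3 := S_succ b i3
  have k5 : i3 < i1 := by
    by_contra hcon
    have : i3 = i1 := by omega
    subst this
    omega
  obtain ⟨u2, hu2'⟩ : ∃ u2, u2 + S b (i1 + 1) = u1 + S b (i3 + 1) :=
    ⟨u1 + S b (i3 + 1) - S b (i1 + 1), by omega⟩
  have p1 : ¬ R b (i3 + 1) u2 := fun h => m1 (R_all h (by omega) (by omega))
  have b3 := big i3 (by omega)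
  obtain ⟨Q, hQ⟩ := hc u2 (by omega)
  obtain ⟨j, hjQ, hj⟩ : ∃ j ∈ Q, i3 + 1 ≤ j := by
    by_contra hcon
    push Not at hcon
    exact p1 ⟨Q, fun i hi => mem_range.2 (hcon i hi), hQ⟩
  have q1 := add_sum_erase Q b hjQ
  have q2 : b i3 ≤ b j := hm _ _ (by omega) (by omega)
  have q3 : R b i3 (∑ i ∈ Q.erase j, b i) :=
    R_of_lt (fun t ht => hm _ _ (by omega) ht) (by omega)
  have q4 : b i3 ≠ b j := fun h => p1 (by
    have := R_one q3
    rwa [show ∑ i ∈ Q.erase j, b i + b i3 = u2 by omega] at this)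
  have q5 : b i3 ≤ b i1 := hm _ _ (by omega) (by omega)
  have q6 : j < i1 + 1 := by
    by_contra hcon
    have := hm (i1 + 1) j f1 (by omega)
    omega
  have q7 := hs i3 (by omega)
  refine ⟨i3, k1, u2, e + (b j - b i3), by omega, by omega, by omega, by omega,
    fun h => p1 (R_mono h (by omega)), fun h => m2 ?_⟩
  have r1 := R_add h (N := i1 + 1) (by omega) (erase_subset j (Ico i3 (i1 + 1)))
  have r2 := add_sum_erase (Ico i3 (i1 + 1)) b (a := j) (mem_Ico.2 ⟨by omega, q6⟩)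
  have r3 := S_Ico b (show i3 ≤ i1 + 1 by omega)
  rwa [show u2 + (e + (b j - b i3)) + ∑ i ∈ (Ico i3 (i1 + 1)).erase j, b i = u1 + e by omega] at r1

/-- For infinitely many `k` the subset sums of the first `k` terms fill `[T, S k - T]`. -/
theorem interval (b : ℕ → ℕ) (K0 T : ℕ) (hm : ∀ i j, K0 ≤ i → i ≤ j → b i ≤ b j)
    (hu : ∀ M, ∃ i, K0 ≤ i ∧ M ≤ b i) (hc : ∀ x, T ≤ x → ∃ Q : Finset ℕ, ∑ i ∈ Q, b i = x)
    (K1 : ℕ) : ∃ k, K1 ≤ k ∧ ∀ x, T ≤ x → x + T ≤ S b k → R b k x := by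
  by_contra hcon
  push Not at hcon
  obtain ⟨i, hi, hb⟩ := hu (4 * T + 1)
  set K := max i K1 with hK
  have hm' : ∀ i j, K ≤ i → i ≤ j → b i ≤ b j := fun s t h1 h2 => hm s t (by omega) h2
  have hu' : ∀ M, ∃ i, K ≤ i ∧ M ≤ b i := fun M => by
    obtain ⟨t, h1, h2⟩ := hu M
    exact ⟨max t K, by omega, h2.trans (hm _ _ h1 (by omega))⟩
  have hb' : 4 * T < b K := by have := hm i K hi (by omega); omega
  have sm : ∀ k x, K ≤ k → T ≤ x → ¬ R b k x → b k ≤ x := by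
    intro k x hk hx hn
    by_contra hlt
    obtain ⟨Q, rfl⟩ := hc x hx
    exact hn (R_of_lt (fun j hj => hm' k j hk hj) (by omega))
  have hs : ∀ k, K ≤ k → 2 * b k ≤ S b k := by
    intro k hk
    obtain ⟨x, h1, h2, h3⟩ := hcon k (by omega)
    have := sm k x hk h1 h3
    have := sm k (S b k - x) hk (by omega) fun h => h3 (R_sym h (by omega))
    omega
  have all : ∀ d L, ∃ h, L ≤ h ∧ Pr b T h d := by
    intro d
    induction d with
    | zero =>
      intro L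
      obtain ⟨x, h1, h2, h3⟩ := hcon (max L K1) (by omega)
      exact ⟨max L K1, by omega, x, 0, le_rfl, by omega, h1, by omega, h3, h3⟩
    | succ d ih =>
      intro L
      obtain ⟨h, h1, h2⟩ := step b K T d hm' hu' hc hb' hs ih (max L K) (by omega)
      exact ⟨h, by omega, h2⟩
  obtain ⟨h, -, u, e, h1, h2, -⟩ := all (2 * T + 1) 0
  omega

lemma brown (b : ℕ → ℕ) (hb : ∀ i, b i ≤ S b i + 1) (k : ℕ) : ∀ x, x ≤ S b k → R b k x := by
  induction k with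
  | zero => intro x hx; exact ⟨∅, empty_subset _, by simp [S] at hx ⊢; omega⟩
  | succ k ih =>
    intro x hx
    have := S_succ b k
    have := hb k
    by_cases h : x ≤ S b k
    · exact R_mono (ih x h) (by omega)
    · have h1 := R_one (ih (x - b k) (by omega))
      rwa [show x - b k + b k = x by omega] at h1

end Pool.Agent.H49.CS
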