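import Mathlib

set_option autoImplicit false

namespace Pool.Agent.H49.CT

open Finset

lemma shift_card (c t : ℤ) (A : Finset ℤ) :
    ((Ico 0 c).filter fun x => (x + t) % c ∈ A).card ≤ A.card := by
  refine card_le_card_of_injOn (fun x => (x + t) % c) (fun x hx => (mem_filter.1 hx).2) ?_
  intro x hx y hy h
  have h1 := mem_Ico.1 (mem_filter.1 hx).1
  have h2 := mem_Ico.1 (mem_filter.1 hy).1
  have h3 : x % c = y % c := Int.ModEq.add_right_cancel' t h
  rwa [Int.emod_eq_of_lt h1.1 h1.2, Int.emod_eq_of_lt h2.1 h2.2] at h3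

lemma rot (c s : ℤ) (W G H B : Finset ℤ) (hH : H ⊆ G) (hc : H ⊆ Ico 0 c)
    (hG : ∀ x ∈ G, (x + s) % c ∈ W ∧ (x + -s) % c ∈ W)
    (h1 : ∀ x ∈ H, (x + (2 * s + 1)) % c ∈ W ∨ (x + -(2 * s + 1)) % c ∈ W)
    (hB : ∀ z ∈ W, (z + 1) % c ∈ W → z ∈ B) : H.card ≤ 2 * B.card + 2 * (W \ G).card := by
  have e1 := shift_card c (2 * s) B
  have e2 := shift_card c (-(2 * s + 1)) B
  have e3 := shift_card c s (W \ G)
  have e4 := shift_card c (-s) (W \ G)
  have hsub : H ⊆ (((Ico 0 c).filter fun x => (x + 2 * s) % c ∈ B) ∪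
      ((Ico 0 c).filter fun x => (x + -(2 * s + 1)) % c ∈ B)) ∪
      (((Ico 0 c).filter fun x => (x + s) % c ∈ W \ G) ∪
      ((Ico 0 c).filter fun x => (x + -s) % c ∈ W \ G)) := by
    intro x hx
    have hx1 := hc hx
    obtain ⟨g1, g2⟩ := hG x (hH hx)
    simp only [mem_union, mem_filter, mem_sdiff]
    by_cases a1 : (x + s) % c ∈ G
    · by_cases a2 : (x + -s) % c ∈ G
      · have b1 := (hG _ a1).1
        have b2 := (hG _ a2).2
        rw [Int.emod_add_emod] at b1 b2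
        rcases h1 x hx with h | h
        · refine Or.inl (Or.inl ⟨hx1, hB _ (by rwa [show x + 2 * s = x + s + s by ring]) ?_⟩)
          rwa [Int.emod_add_emod, add_assoc]
        · refine Or.inl (Or.inr ⟨hx1, hB _ h ?_⟩)
          rwa [Int.emod_add_emod, show x + -(2 * s + 1) + 1 = x + -s + -s by ring]
      · exact Or.inr (Or.inr ⟨hx1, g2, a2⟩)
    · exact Or.inr (Or.inl ⟨hx1, g1, a1⟩)
  have := (card_le_card hsub).trans (card_union_le _ _)
  have := card_union_le ((Ico 0 c).filter fun x => (x + 2 * s) % c ∈ B)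
    ((Ico 0 c).filter fun x => (x + -(2 * s + 1)) % c ∈ B)
  have := card_union_le ((Ico 0 c).filter fun x => (x + s) % c ∈ W \ G)
    ((Ico 0 c).filter fun x => (x + -s) % c ∈ W \ G)
  omega

open Classical in
/-- Missing points in `[0, c)`. -/
noncomputable def W (Q : ℤ → Prop) (c : ℤ) : Finset ℤ := (Ico 0 c).filter fun x => ¬ Q x

open Classical in
/-- Points missing twice. -/
noncomputable def G (Q : ℤ → Prop) (c : ℤ) : Finset ℤ :=
  (Ico 0 c).filter fun x => ¬ Q x ∧ ¬ Q (x + c)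

lemma mem_W {Q : ℤ → Prop} {c x : ℤ} : x ∈ W Q c ↔ (0 ≤ x ∧ x < c) ∧ ¬ Q x := by
  simp [W]

lemma mem_G {Q : ℤ → Prop} {c x : ℤ} : x ∈ G Q c ↔ (0 ≤ x ∧ x < c) ∧ ¬ Q x ∧ ¬ Q (x + c) := by
  simp [G]

lemma dec1 (Q0 Q1 : ℤ → Prop) (c c' : ℤ) (hc : c' ≤ 2 * c + 2) (c0 : ∀ y, Q0 y → Q1 y)
    (cc : ∀ y, Q0 y → Q1 (y + c)) :
    (W Q1 c').card + (W Q0 c \ G Q1 c).card ≤ 2 * (W Q0 c).card + 2 := by
  have hsub : W Q1 c' ⊆ (W Q1 c ∪ (W (fun x => Q1 (x + c)) c).image (· + c)) ∪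
      {2 * c, 2 * c + 1} := by
    intro x hx
    rw [mem_W] at hx
    simp only [mem_union, mem_image, mem_W, mem_insert, mem_singleton]
    by_cases h1 : x < c
    · exact Or.inl (Or.inl ⟨⟨hx.1.1, h1⟩, hx.2⟩)
    · by_cases h2 : x < 2 * c
      · exact Or.inl (Or.inr ⟨x - c, ⟨by omega, by simpa using hx.2⟩, by ring⟩)
      · omega
  have e1 := (card_le_card hsub).trans (card_union_le _ _)
  have e2 := card_union_le (W Q1 c) ((W (fun x => Q1 (x + c)) c).image (· + c))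
  have e3 : ((W (fun x => Q1 (x + c)) c).image (· + c)).card ≤ _ := card_image_le
  have e4 : ({2 * c, 2 * c + 1} : Finset ℤ).card ≤ 2 := card_le_two
  have e5 := card_union_add_card_inter (W Q1 c) (W (fun x => Q1 (x + c)) c)
  have e6 : (W Q1 c ∪ W (fun x => Q1 (x + c)) c).card ≤ (W Q0 c).card := card_le_card fun x hx => by
    simp only [mem_union, mem_W] at hx ⊢
    rcases hx with h | h
    · exact ⟨h.1, fun q => h.2 (c0 _ q)⟩
    · exact ⟨h.1, fun q => h.2 (cc _ q)⟩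
  have e7 : (W Q1 c ∩ W (fun x => Q1 (x + c)) c).card ≤ (G Q1 c).card := card_le_card fun x hx => by
    simp only [mem_inter, mem_W, mem_G] at hx ⊢
    exact ⟨hx.1.1, hx.1.2, hx.2.2⟩
  have e8 := card_sdiff_add_card_eq_card (show G Q1 c ⊆ W Q0 c from fun x hx => by
    rw [mem_G] at hx; exact mem_W.2 ⟨hx.1, fun q => hx.2.1 (c0 _ q)⟩)
  omega

lemma emod_hi {c y : ℤ} (h1 : c ≤ y) (h2 : y < 2 * c) : y % c = y - c := by
  rw [← Int.sub_emod_right y c]
  exact Int.emod_eq_of_lt (by omega) (by omega)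

lemma dec2 (Q0 Q1 Q2 : ℤ → Prop) (s t s' t' u L : ℤ) (B : ℕ) (hs : 0 < s) (ht : 0 < t)
    (hst : s < 2 * t) (hs' : s' = 2 * s + 1) (ht' : 2 * t ≤ t') (c0 : ∀ y, Q0 y → Q1 y)
    (cs : ∀ y, Q0 y → Q1 (y + s)) (ct : ∀ y, Q0 y → Q1 (y + t))
    (cc : ∀ y, Q0 y → Q1 (y + (s + t))) (ds : ∀ y, Q1 y → Q2 (y + s'))
    (dt : ∀ y, Q1 y → Q2 (y + t')) (H : ∀ y, u ≤ y → y < u + L → Q0 y ∨ Q0 (y + 1))
    (hu : u ≤ B) (hL : s + t ≤ u + L + B) :
    (W Q0 (s + t)).card ≤ 3 * (W Q0 (s + t) \ G Q1 (s + t)).card +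
      2 * (W Q1 (s' + t') \ G Q2 (s' + t')).card + 4 * B + 2 := by
  classical
  set c := s + t with hc
  set c' := s' + t' with hc'
  have md : ∀ y, 0 ≤ y → y < 2 * c → ¬ Q1 y → y % c ∈ W Q0 c := by
    intro y h1 h2 h3
    by_cases h : y < c
    · rw [Int.emod_eq_of_lt h1 h]; exact mem_W.2 ⟨⟨h1, h⟩, fun q => h3 (c0 _ q)⟩
    · rw [emod_hi (by omega) h2]
      exact mem_W.2 ⟨by omega, fun q => h3 (by simpa using cc _ q)⟩
  have key := rot c s (W Q0 c) (G Q1 c) ((G Q1 c).filter fun x => x ∈ G Q2 c' ∧ x + c ∈ G Q2 c')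
    (Ico 0 (B : ℤ) ∪ Ico (c - B - 1) c) (filter_subset _ _)
    (fun x hx => mem_Ico.2 (mem_G.1 (mem_filter.1 hx).1).1)
    (fun x hx => by
      obtain ⟨h1, h2, h3⟩ := mem_G.1 hx
      constructor
      · by_cases h : x + s < c
        · rw [Int.emod_eq_of_lt (by omega) h]
          exact mem_W.2 ⟨by omega, fun q => h3 (by rw [hc, ← add_assoc]; exact ct _ q)⟩
        · rw [emod_hi (by omega) (by omega)]
          exact mem_W.2 ⟨by omega, fun q => h2 (by
            have := ct _ q; rwa [show x + s - c + t = x by omega] at this)⟩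
      · by_cases h : 0 ≤ x + -s
        · rw [Int.emod_eq_of_lt h (by omega)]
          exact mem_W.2 ⟨by omega, fun q => h2 (by simpa using cs _ q)⟩
        · rw [← Int.add_emod_right, Int.emod_eq_of_lt (by omega) (by omega)]
          exact mem_W.2 ⟨by omega, fun q => h3 (by
            have := cs _ q; rwa [show x + -s + c + s = x + c by omega] at this)⟩)
    (fun x hx => by
      obtain ⟨h0, h4, h5⟩ := mem_filter.1 hx
      obtain ⟨h1, -, -⟩ := mem_G.1 h0
      by_cases h : x + (2 * s + 1) < 2 * c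
      · refine Or.inl (md _ (by omega) h fun q => (mem_G.1 h4).2.2 ?_)
        have := dt _ q; rwa [show x + (2 * s + 1) + t' = x + c' by omega] at this
      · right
        rw [← Int.add_emod_right]
        refine md _ (by omega) (by omega) fun q => (mem_G.1 h5).2.1 ?_
        have := ds _ q; rwa [show x + -(2 * s + 1) + c + s' = x + c by omega] at this)
    (fun z hz hz' => by
      obtain ⟨h1, h2⟩ := mem_W.1 hz
      simp only [mem_union, mem_Ico]
      by_contra hcon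
      rw [Int.emod_eq_of_lt (by omega) (by omega)] at hz'
      rcases H z (by omega) (by omega) with h | h
      · exact h2 h
      · exact (mem_W.1 hz').2 h)
  have e1 := card_union_le (Ico 0 (B : ℤ)) (Ico (c - B - 1) c)
  rw [Int.card_Ico, Int.card_Ico] at e1
  have e2 := card_sdiff_add_card_eq_card (show G Q1 c ⊆ W Q0 c from fun x hx => by
    rw [mem_G] at hx; exact mem_W.2 ⟨hx.1, fun q => hx.2.1 (c0 _ q)⟩)
  have hsub : G Q1 c ⊆ ((G Q1 c).filter fun x => x ∈ G Q2 c' ∧ x + c ∈ G Q2 c') ∪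
      ((W Q1 c' \ G Q2 c') ∪ (W Q1 c' \ G Q2 c').image (· - c)) := by
    intro x hx
    obtain ⟨h1, h2, h3⟩ := mem_G.1 hx
    simp only [mem_union, mem_filter, mem_sdiff, mem_image, mem_W]
    by_cases a1 : x ∈ G Q2 c'
    · by_cases a2 : x + c ∈ G Q2 c'
      · exact Or.inl ⟨hx, a1, a2⟩
      · exact Or.inr (Or.inr ⟨x + c, ⟨⟨by omega, h3⟩, a2⟩, by ring⟩)
    · exact Or.inr (Or.inl ⟨⟨by omega, h2⟩, a1⟩)
  have e3 := (card_le_card hsub).trans (card_union_le _ _)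
  have e4 := card_union_le (W Q1 c' \ G Q2 c') ((W Q1 c' \ G Q2 c').image (· - c))
  have e5 : ((W Q1 c' \ G Q2 c').image (· - c)).card ≤ _ := card_image_le
  omega

lemma pigeon (Q : ℤ → Prop) (c D : ℤ) (hD : 0 < D)
    (h : ∀ v, ∃ y, v ≤ y ∧ y < v + D ∧ ¬ Q y) : c ≤ D * ((W Q c).card + 1) := by
  choose f h1 h2 h3 using h
  have e : (Ico 0 (c / D)).card ≤ (W Q c).card := by
    refine card_le_card_of_injOn (fun i => f (i * D)) (fun i hi => ?_) fun i _ j _ hij => ?_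
    · obtain ⟨i1, i2⟩ := mem_Ico.1 (mem_coe.1 hi)
      have a1 := h1 (i * D)
      have a2 := h2 (i * D)
      have a3 : (i + 1) * D ≤ c / D * D := mul_le_mul_of_nonneg_right (by omega) hD.le
      have a4 := Int.ediv_mul_le c hD.ne'
      have a5 := mul_nonneg i1 hD.le
      exact mem_coe.2 (mem_W.2 ⟨⟨a5.trans a1, show f (i * D) < c by linarith⟩, h3 _⟩)
    · have a1 := h1 (i * D)
      have a2 := h2 (i * D)
      have a3 := h1 (j * D)
      have a4 := h2 (j * D)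
      dsimp only at hij
      have : i < j + 1 := lt_of_mul_lt_mul_right (by linarith) hD.le
      have : j < i + 1 := lt_of_mul_lt_mul_right (by linarith) hD.le
      omega
  rw [Int.card_Ico] at e
  have a1 := Int.lt_ediv_add_one_mul_self c hD
  have a2 : c / D ≤ (W Q c).card := by omega
  nlinarith

lemma frob (p q n R : ℕ) (hp : 0 < p) (h : Nat.Coprime p q) (h1 : p * q ≤ n) (h2 : n < p * R) :
    ∃ X Y : ℕ, X < p ∧ Y < R ∧ n = X * q + Y * p := by
  obtain ⟨X, hX, e⟩ := Nat.exists_mul_mod_eq_of_coprime n h.symm hp.ne'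
  have a1 : q * X ≤ n := by nlinarith
  obtain ⟨Y, hY⟩ := (Nat.modEq_iff_dvd' a1).1 e
  refine ⟨X, Y, hX, lt_of_mul_lt_mul_left (a := p) (by omega) (Nat.zero_le _), ?_⟩
  rw [mul_comm X, mul_comm Y]
  omega

end Pool.Agent.H49.CT
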