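import Mathlib
import Pool.Agent.H49.CT1

set_option autoImplicit false

namespace Pool.Agent.H49.CT

open Finset

/-- The terms. -/
noncomputable def fl (α : ℝ) (k : ℕ) : ℤ := ⌊2 ^ k * α⌋

lemma fl_le (α : ℝ) (k : ℕ) : (fl α k : ℝ) ≤ 2 ^ k * α := Int.floor_le _
lemma lt_fl (α : ℝ) (k : ℕ) : 2 ^ k * α < fl α k + 1 := Int.lt_floor_add_one _

lemma fl_succ (α : ℝ) (k : ℕ) : fl α (k + 1) = 2 * fl α k ∨ fl α (k + 1) = 2 * fl α k + 1 := by
  have h1 := fl_le α k
  have h2 := lt_fl α k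
  have h3 : 2 * fl α k ≤ fl α (k + 1) := Int.le_floor.2 (by push_cast; rw [pow_succ]; linarith)
  have h4 : fl α (k + 1) < 2 * fl α k + 2 := Int.floor_lt.2 (by push_cast; rw [pow_succ]; linarith)
  omega

/-- Normalisation. -/
structure Hy (α β : ℝ) : Prop where
  h1 : α + 2 ≤ β
  h2 : β + 2 ≤ 2 * α

lemma Hy.facts {α β : ℝ} (h : Hy α β) (k : ℕ) : 2 ^ k ≤ fl α k ∧
    fl α k + 2 ^ k + 1 ≤ fl β k ∧ fl β k < 2 * fl α k ∧ (0 : ℤ) < 2 ^ k := by
  have h1 := h.h1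
  have h2 := h.h2
  have a1 := fl_le α k
  have a2 := lt_fl α k
  have a3 := fl_le β k
  have p : (1 : ℝ) ≤ 2 ^ k := one_le_pow₀ (by norm_num)
  refine ⟨Int.le_floor.2 (by push_cast; nlinarith), Int.le_floor.2 (by push_cast; nlinarith),
    ?_, by positivity⟩
  have : (fl β k : ℝ) < 2 * fl α k := by nlinarith
  exact_mod_cast this

/-- Closure under adding the two terms of each level. -/
def Cl (α β : ℝ) (Q : ℕ → ℤ → Prop) : Prop := ∀ (k : ℕ) (y : ℤ) (x z : ℕ), x ≤ 1 → z ≤ 1 →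
  Q k y → Q (k + 1) (y + x * fl α k + z * fl β k)

section
variable {α β : ℝ} {Q : ℕ → ℤ → Prop}

lemma Cl.c0 (h : Cl α β Q) (k : ℕ) (y : ℤ) (q : Q k y) : Q (k + 1) y := by
  simpa using h k y 0 0 (by omega) (by omega) q
lemma Cl.ca (h : Cl α β Q) (k : ℕ) (y : ℤ) (q : Q k y) : Q (k + 1) (y + fl α k) := by
  simpa using h k y 1 0 (by omega) (by omega) q
lemma Cl.cb (h : Cl α β Q) (k : ℕ) (y : ℤ) (q : Q k y) : Q (k + 1) (y + fl β k) := by
  simpa using h k y 0 1 (by omega) (by omega) q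
lemma Cl.cc (h : Cl α β Q) (k : ℕ) (y : ℤ) (q : Q k y) : Q (k + 1) (y + (fl α k + fl β k)) := by
  simpa [add_assoc] using h k y 1 1 (by omega) (by omega) q

lemma Cl.or (h : Cl α β Q) : Cl α β fun k y => Q k y ∨ Q k (y + 1) := by
  rintro k y x z hx hz (q | q)
  · exact Or.inl (h k y x z hx hz q)
  · right
    have := h k _ x z hx hz q
    rwa [show y + 1 + x * fl α k + z * fl β k = y + x * fl α k + z * fl β k + 1 by ring] at this

/-- An interval inside a level. -/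
def Iv (Q : ℕ → ℤ → Prop) (k : ℕ) (v L : ℤ) : Prop := ∀ y, v ≤ y → y < v + L → Q k y

/-- A long interval exists. -/
def St (α : ℝ) (Q : ℕ → ℤ → Prop) : Prop := ∃ k v, Iv Q k v (fl α k)

lemma grow (hy : Hy α β) (h : Cl α β Q) {k : ℕ} {v L : ℤ} (hI : Iv Q k v L) (hL : fl α k ≤ L) :
    Iv Q (k + 1) v (L + fl α k + fl β k) := by
  intro y h1 h2
  obtain ⟨f1, f2, f3, f4⟩ := hy.facts k
  by_cases a1 : y < v + L
  · exact h.c0 _ _ (hI y h1 a1)
  by_cases a2 : y < v + L + fl α k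
  · simpa using h.ca _ _ (hI (y - fl α k) (by omega) (by omega))
  by_cases a3 : y < v + L + fl β k
  · simpa using h.cb _ _ (hI (y - fl β k) (by omega) (by omega))
  · simpa using h.cc _ _ (hI (y - (fl α k + fl β k)) (by omega) (by omega))

lemma St.all (hy : Hy α β) (h : Cl α β Q) (hs : St α Q) : ∃ (K0 : ℕ) (u : ℤ) (B : ℕ), u ≤ B ∧
    ∀ K, K0 ≤ K → ∃ L, fl α K ≤ L ∧ fl α K + fl β K ≤ u + L + (B + 2 * K : ℕ) ∧ Iv Q K u L := by
  obtain ⟨k, v, hI⟩ := hs
  refine ⟨k, v, v.natAbs + (fl β k).natAbs, by omega, fun K hK => ?_⟩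
  induction K, hK using Nat.le_induction with
  | base => exact ⟨_, le_rfl, by omega, hI⟩
  | succ K hK ih =>
    obtain ⟨L, h1, h2, h3⟩ := ih
    have := hy.facts K
    have := fl_succ α K
    have := fl_succ β K
    exact ⟨_, by omega, by omega, grow hy h h3 h1⟩

/-- A nonzero binary digit at level `k`. -/
def dig (α β : ℝ) (k : ℕ) : Prop :=
  fl α (k + 1) = 2 * fl α k + 1 ∨ fl β (k + 1) = 2 * fl β k + 1

open Classical in
/-- Number of levels with a nonzero digit. -/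
noncomputable def Z (α β : ℝ) : ℕ → ℕ
  | 0 => 0
  | k + 1 => Z α β k + if dig α β k then 1 else 0

lemma Z_pos {k : ℕ} (h : dig α β k) : Z α β (k + 1) = Z α β k + 1 := by simp [Z, h]
lemma Z_neg {k : ℕ} (h : ¬ dig α β k) : Z α β (k + 1) = Z α β k := by simp [Z, h]
lemma Z_succ (α β : ℝ) (k : ℕ) : Z α β k ≤ Z α β (k + 1) ∧ Z α β (k + 1) ≤ Z α β k + 1 := by
  by_cases h : dig α β k
  · rw [Z_pos h]; omega
  · rw [Z_neg h]; omega
lemma Z_mono (α β : ℝ) : Monotone (Z α β) := monotone_nat_of_le_succ fun k => (Z_succ α β k).1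
lemma Z_add (α β : ℝ) (k r : ℕ) : Z α β (k + r) ≤ Z α β k + r := by
  induction r with
  | zero => simp
  | succ r ih => have := (Z_succ α β (k + r)).2; rw [← add_assoc]; omega

lemma decay (hy : Hy α β) (h : Cl α β Q) (K0 : ℕ) (u : ℤ) (B : ℕ) (hu : u ≤ B)
    (H : ∀ K, K0 ≤ K → ∃ L, fl α K + fl β K ≤ u + L + (B + 2 * K : ℕ) ∧
      Iv (fun k y => Q k y ∨ Q k (y + 1)) K u L) : ∃ C : ℝ, 0 < C ∧ ∀ K, K0 < K →
    ((W (Q K) (fl α K + fl β K)).card + 1 : ℝ) ≤ C * (2 ^ K * (15 / 16) ^ Z α β K) := by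
  obtain ⟨n, hn⟩ : ∃ n : ℕ → ℕ, ∀ K, n K = (W (Q K) (fl α K + fl β K)).card := ⟨_, fun _ => rfl⟩
  obtain ⟨d, hd⟩ : ∃ d : ℕ → ℕ, ∀ K, d K = (W (Q K) (fl α K + fl β K) \
    G (Q (K + 1)) (fl α K + fl β K)).card := ⟨_, fun _ => rfl⟩
  have r1 : ∀ K, n (K + 1) + d K ≤ 2 * n K + 2 := fun K => by
    rw [hn, hn, hd]
    have := fl_succ α K
    have := fl_succ β K
    exact dec1 _ _ _ _ (by omega) (h.c0 K) (h.cc K)
  have r2 : ∀ K, K0 ≤ K → dig α β K → n K ≤ 3 * d K + 2 * d (K + 1) + 4 * (B + 2 * K) + 2 := by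
    intro K hK hg
    obtain ⟨L, h2, h3⟩ := H K hK
    have := hy.facts K
    have := fl_succ α K
    have := fl_succ β K
    rw [hn, hd, hd]
    rcases hg with hg | hg
    · exact dec2 _ _ _ _ _ _ _ u L _ (by omega) (by omega) (by omega) hg (by omega) (h.c0 K)
        (h.ca K) (h.cb K) (h.cc K) (h.ca _) (h.cb _) h3 (by omega) h2
    · rw [add_comm (fl α K), add_comm (fl α (K + 1))]
      exact dec2 _ _ _ _ _ _ _ u L _ (by omega) (by omega) (by omega) hg (by omega) (h.c0 K)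
        (h.cb K) (h.ca K) (fun y q => by rw [add_comm (fl β K)]; exact h.cc K y q) (h.cb _)
        (h.ca _) h3 (by omega) (by omega)
  obtain ⟨t, ht⟩ : ∃ t : ℕ → ℕ, ∀ K, t K = n K + 2 * B + 4 * K + 10 := ⟨_, fun _ => rfl⟩
  have s1 : ∀ K, (t (K + 1) : ℝ) ≤ 2 * t K := fun K => by
    have := r1 K
    have : t (K + 1) ≤ 2 * t K := by rw [ht, ht]; omega
    exact_mod_cast this
  have s2 : ∀ K, K0 ≤ K → dig α β K → 2 * (t (K + 2) : ℝ) ≤ 7 * t K := fun K hK hg => by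
    have := r1 K
    have : n (K + 2) + d (K + 1) ≤ 2 * n (K + 1) + 2 := r1 (K + 1)
    have := r2 K hK hg
    have : 2 * t (K + 2) ≤ 7 * t K := by rw [ht, ht]; omega
    exact_mod_cast this
  have an : ∀ i j : ℕ, i ≤ j → (15 / 16 : ℝ) ^ j ≤ (15 / 16) ^ i := fun i j hij =>
    pow_le_pow_of_le_one (by norm_num) (by norm_num) hij
  obtain ⟨C, hC0, hC⟩ : ∃ C : ℝ, 0 < C ∧ C * (15 / 16) ^ Z α β (K0 + 1) = 2 * t (K0 + 1) :=
    ⟨2 * t (K0 + 1) / (15 / 16) ^ Z α β (K0 + 1), by rw [ht]; positivity, by field_simp⟩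
  have p1 : ∀ K : ℕ, (1 : ℝ) ≤ 2 ^ K := fun K => one_le_pow₀ (by norm_num)
  have main : ∀ K, K0 ≤ K → (t (K + 1) : ℝ) ≤ C * (2 ^ (K + 1) * (15 / 16) ^ Z α β K) ∧
      (t (K + 2) : ℝ) ≤ C * (2 ^ (K + 2) * (15 / 16) ^ Z α β (K + 1)) := by
    intro K hK
    induction K, hK using Nat.le_induction with
    | base =>
      have a1 := an _ _ (Z_succ α β K0).1
      have a2 := s1 (K0 + 1)
      have a3 : (0 : ℝ) ≤ t (K0 + 1) := Nat.cast_nonneg _
      have a4 : (0 : ℝ) < (15 / 16) ^ Z α β (K0 + 1) := by positivity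
      constructor
      · have : (15 / 16 : ℝ) ^ Z α β (K0 + 1) ≤ 2 ^ (K0 + 1) * (15 / 16) ^ Z α β K0 :=
          a1.trans (le_mul_of_one_le_left (by positivity) (p1 _))
        nlinarith
      · have : (15 / 16 : ℝ) ^ Z α β (K0 + 1) ≤ 2 ^ (K0 + 2) * (15 / 16) ^ Z α β (K0 + 1) :=
          le_mul_of_one_le_left (by positivity) (p1 _)
        nlinarith
    | succ K hK ih =>
      refine ⟨ih.2, ?_⟩
      by_cases hg : dig α β (K + 1)
      · have a1 := s2 (K + 1) (by omega) hg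
        have a2 := an _ _ (Z_add α β K 2)
        have a3 : (0 : ℝ) < C * 2 ^ K := by positivity
        have a4 := mul_le_mul_of_nonneg_left a2 a3.le
        have a5 : (0 : ℝ) < C * 2 ^ K * (15 / 16) ^ Z α β K := by positivity
        have a6 := ih.1
        simp only [pow_add] at a4 a6 ⊢
        rw [show K + 1 + 1 = K + 2 by ring]
        nlinarith
      · have a1 := s1 (K + 2)
        have a6 := ih.2
        rw [Z_neg hg]
        simp only [pow_add] at a6 ⊢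
        rw [show K + 1 + 2 = K + 2 + 1 by ring]
        nlinarith
  refine ⟨2 * C, by positivity, fun K hK => ?_⟩
  obtain ⟨K, rfl⟩ : ∃ j, K = j + 1 := ⟨K - 1, by omega⟩
  have a1 := (main K (by omega)).1
  have a2 := an _ _ (Z_succ α β K).2
  have a3 : (0 : ℝ) < C * 2 ^ (K + 1) := by positivity
  have a4 := mul_le_mul_of_nonneg_left a2 a3.le
  have a5 : (0 : ℝ) < C * 2 ^ (K + 1) * (15 / 16) ^ Z α β K := by positivity
  have a6 : n (K + 1) + 1 ≤ t (K + 1) := by rw [ht]; omega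
  have a7 : (n (K + 1) + 1 : ℝ) ≤ t (K + 1) := by exact_mod_cast a6
  rw [← hn]
  rw [pow_succ (15 / 16 : ℝ)] at a4
  nlinarith

/-- Sum of the fractional parts. -/
noncomputable def hh (α β : ℝ) (k : ℕ) : ℝ := 2 ^ k * α - fl α k + (2 ^ k * β - fl β k)

/-- Accumulated error. -/
noncomputable def Ph (α β : ℝ) (J r : ℕ) : ℝ := ∑ i ∈ range r, hh α β (J + i)

lemma Ph_le (α β : ℝ) (J r : ℕ) : Ph α β J r + 2 * Z α β J ≤ 2 * Z α β (J + r) + 2 := by
  have key : Ph α β J r + 2 * Z α β J ≤ 2 * Z α β (J + r) + hh α β (J + r) := by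
    induction r with
    | zero =>
      have := fl_le α J
      have := fl_le β J
      simp only [Ph, hh, range_zero, sum_empty, add_zero]; linarith
    | succ r ih =>
      rw [Ph, sum_range_succ, ← Ph, ← add_assoc]
      have e1 := fl_succ α (J + r)
      have e2 := fl_succ β (J + r)
      by_cases hg : dig α β (J + r)
      · have a1 : (fl α (J + r + 1) : ℝ) ≤ 2 * fl α (J + r) + 1 := by exact_mod_cast (by omega)
        have a2 : (fl β (J + r + 1) : ℝ) ≤ 2 * fl β (J + r) + 1 := by exact_mod_cast (by omega)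
        rw [Z_pos hg]; unfold hh at ih ⊢; push_cast; rw [pow_succ]; linarith
      · rw [Z_neg hg]
        unfold dig at hg
        have a1 : (fl α (J + r + 1) : ℝ) = 2 * fl α (J + r) := by exact_mod_cast (by omega)
        have a2 : (fl β (J + r + 1) : ℝ) = 2 * fl β (J + r) := by exact_mod_cast (by omega)
        unfold hh at ih ⊢; rw [pow_succ]; linarith
  have := lt_fl α (J + r)
  have := lt_fl β (J + r)
  unfold hh at key
  linarith

lemma blk (h : Cl α β Q) (J r : ℕ) : ∀ X Y : ℕ, X < 2 ^ r → Y < 2 ^ r → ∃ F : ℤ,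
    (∀ y, Q J y → Q (J + r) (y + F)) ∧ 2 ^ J * (X * α + Y * β) - Ph α β J r ≤ F ∧
    (F : ℝ) ≤ 2 ^ J * (X * α + Y * β) ∧ ((∀ i < r, fl α (J + i) = 2 ^ i * fl α J ∧
      fl β (J + i) = 2 ^ i * fl β J) → F = X * fl α J + Y * fl β J) := by
  induction r with
  | zero =>
    intro X Y hX hY
    obtain rfl : X = 0 := by omega
    obtain rfl : Y = 0 := by omega
    exact ⟨0, by simp, by simp [Ph], by simp, by simp⟩
  | succ r ih =>
    intro X Y hX hY
    have sp : ∀ X : ℕ, X < 2 ^ (r + 1) → ∃ X' x : ℕ, X' < 2 ^ r ∧ x ≤ 1 ∧ X = X' + x * 2 ^ r := by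
      intro X hX
      rw [pow_succ] at hX
      by_cases c : X < 2 ^ r
      · exact ⟨X, 0, c, by omega, by omega⟩
      · exact ⟨X - 2 ^ r, 1, by omega, by omega, by omega⟩
    obtain ⟨X', x, h1, h2, rfl⟩ := sp X hX
    obtain ⟨Y', z, h3, h4, rfl⟩ := sp Y hY
    obtain ⟨F, f1, f2, f3, f4⟩ := ih X' Y' h1 h3
    have a1 := fl_le α (J + r)
    have a2 := fl_le β (J + r)
    have x0 : (0 : ℝ) ≤ x := Nat.cast_nonneg _
    have z0 : (0 : ℝ) ≤ z := Nat.cast_nonneg _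
    have x1 : (x : ℝ) ≤ 1 := by exact_mod_cast h2
    have z1 : (z : ℝ) ≤ 1 := by exact_mod_cast h4
    refine ⟨F + x * fl α (J + r) + z * fl β (J + r), fun y q => ?_, ?_, ?_, fun hz => ?_⟩
    · have := h _ _ x z h2 h4 (f1 y q)
      rwa [add_assoc y, add_assoc y] at this
    · rw [Ph, sum_range_succ, ← Ph, hh]
      rw [pow_add] at a1 a2 ⊢
      push_cast
      nlinarith [mul_nonneg (sub_nonneg.2 x1) (sub_nonneg.2 a1),
        mul_nonneg (sub_nonneg.2 z1) (sub_nonneg.2 a2)]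
    · rw [pow_add] at a1 a2
      push_cast
      nlinarith [mul_nonneg x0 (sub_nonneg.2 a1), mul_nonneg z0 (sub_nonneg.2 a2)]
    · rw [f4 fun i hi => hz i (by omega), (hz r (by omega)).1, (hz r (by omega)).2]
      push_cast; ring

end

end Pool.Agent.H49.CT
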