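import Mathlib
import Pool.Agent.H49.CT2

set_option autoImplicit false

namespace Pool.Agent.H49.CT

open Finset

/-- A good rational approximation of the ratio. -/
structure Gd (α β : ℝ) (p q : ℕ) : Prop where
  co : Nat.Coprime p q
  q1 : 1 ≤ q
  ap : |q * β - p * α| ≤ α / q

section
variable {α β : ℝ} {Q : ℕ → ℤ → Prop} {p q : ℕ}

lemma Gd.facts (hy : Hy α β) (g : Gd α β p q) : q ≤ p ∧ p ≤ 2 * q := by
  have h1 := hy.h1
  have h2 := hy.h2
  have q1 : (1 : ℝ) ≤ q := by exact_mod_cast g.q1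
  have a0 : 0 < α := by linarith
  have a1 : α / q ≤ α := div_le_self a0.le q1
  obtain ⟨a2, a3⟩ := abs_le.1 (g.ap.trans a1)
  have b1 : (q : ℝ) < p + 1 := lt_of_mul_lt_mul_right (a := α) (by nlinarith) a0.le
  have b2 : (p : ℝ) < 2 * q + 1 := lt_of_mul_lt_mul_right (a := α) (by nlinarith) a0.le
  have c1 : q < p + 1 := by exact_mod_cast b1
  have c2 : p < 2 * q + 1 := by exact_mod_cast b2
  omega

lemma Gd.lt (hy : Hy α β) (g : Gd α β p q) {r : ℕ} (hr : 2 * (q + 1) * β ≤ 2 ^ r) : p < 2 ^ r := by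
  have h1 := hy.h1
  have h2 := hy.h2
  have q0 : (0 : ℝ) ≤ q := Nat.cast_nonneg _
  have : (2 * q : ℝ) < 2 ^ r := by nlinarith
  have : 2 * q < 2 ^ r := by exact_mod_cast this
  have := (g.facts hy).2
  omega

lemma four (hy : Hy α β) (h : Cl α β Q) (g : Gd α β p q) (J r : ℕ)
    (hr : 2 * (q + 1) * β ≤ 2 ^ r) {v D : ℤ} (hI : Iv Q J v D)
    (hD : 3 * (2 ^ J * β / q) + Ph α β J r + 1 ≤ D) : St α Q := by
  have h1 := hy.h1
  have h2 := hy.h2
  have q1 : (1 : ℝ) ≤ q := by exact_mod_cast g.q1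
  have qp : (q : ℝ) ≤ p := by exact_mod_cast (g.facts hy).1
  have pJ : (1 : ℝ) ≤ 2 ^ J := one_le_pow₀ (by norm_num)
  have b0 : 0 < β := by linarith
  have p0 : (0 : ℝ) < p := by linarith
  obtain ⟨τ, hτ⟩ : ∃ τ, τ = 2 ^ J * β / q := ⟨_, rfl⟩
  obtain ⟨ω, hω⟩ : ∃ ω, ω = 2 ^ J * β / p := ⟨_, rfl⟩
  have w0 : 0 < ω := by rw [hω]; positivity
  have w1 : p * ω = 2 ^ J * β := by rw [hω]; field_simp
  have w2 : ω ≤ τ := by rw [hω, hτ]; gcongr
  rw [← hτ] at hD
  refine ⟨J + r, v + ⌈τ + 2 ^ J * q * β⌉, fun y y1 y2 => ?_⟩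
  have c1 := Int.le_ceil (τ + 2 ^ J * q * β)
  have c2 := Int.ceil_lt_add_one (τ + 2 ^ J * q * β)
  have y1' : (v : ℝ) + ⌈τ + 2 ^ J * q * β⌉ ≤ y := by exact_mod_cast y1
  have y2' : (y : ℝ) < v + ⌈τ + 2 ^ J * q * β⌉ + fl α (J + r) := by exact_mod_cast y2
  have c3 := fl_le α (J + r)
  rw [pow_add] at c3
  obtain ⟨z, hz⟩ : ∃ z : ℝ, z = y - v - τ := ⟨_, rfl⟩
  have z1 : 2 ^ J * q * β ≤ z := by linarith
  have z0 : 0 ≤ z / ω := div_nonneg (le_trans (by positivity) z1) w0.le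
  have z2 : z < 2 ^ J * 2 ^ r * β := by
    have e1 : q * β + 1 ≤ 2 * 2 ^ r := by nlinarith
    have e2 := mul_le_mul_of_nonneg_left e1 (show (0 : ℝ) ≤ 2 ^ J by positivity)
    have e3 := mul_le_mul_of_nonneg_left h1 (show (0 : ℝ) ≤ 2 ^ J * 2 ^ r by positivity)
    nlinarith
  obtain ⟨X, Y, hX, hY, hn⟩ := frob p q ⌊z / ω⌋₊ (2 ^ r) (by exact_mod_cast p0) g.co
    (Nat.le_floor (by rw [le_div_iff₀ w0]; push_cast; nlinarith))
    ((Nat.floor_lt z0).2 (by rw [div_lt_iff₀ w0]; push_cast; rw [mul_right_comm (p : ℝ), w1]; linarith))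
  obtain ⟨F, f1, f2, f3, -⟩ := blk h J r X Y (hX.trans (g.lt hy hr)) hY
  have n1 := Nat.floor_le z0
  have n2 := Nat.lt_floor_add_one (z / ω)
  rw [hn] at n1 n2
  rw [le_div_iff₀ w0] at n1
  rw [div_lt_iff₀ w0] at n2
  push_cast at n1 n2
  have hE : |2 ^ J * (X * α + Y * β) - (X * q + Y * p) * ω| ≤ τ := by
    have e : 2 ^ J * (X * α + Y * β) - (X * q + Y * p) * ω =
        -(2 ^ J * (X / p) * (q * β - p * α)) := by rw [hω]; field_simp; ring
    have x1 : (X / p : ℝ) ≤ 1 := (div_le_one p0).2 (by exact_mod_cast hX.le)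
    rw [e, abs_neg, abs_mul, abs_of_nonneg (by positivity), hτ, mul_div_assoc, mul_assoc]
    refine mul_le_mul_of_nonneg_left ?_ (by positivity)
    calc _ ≤ 1 * (α / q) := mul_le_mul x1 g.ap (abs_nonneg _) (by norm_num)
      _ ≤ β / q := by rw [one_mul]; gcongr; linarith
  obtain ⟨e1, e2⟩ := abs_le.1 hE
  have d1 : (v : ℝ) ≤ y - F := by linarith
  have d2 : (y - F : ℝ) < v + D := by linarith
  simpa using f1 _ (hI (y - F) (by exact_mod_cast d1) (by exact_mod_cast d2))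

lemma Ph_nonneg (α β : ℝ) (J r : ℕ) : 0 ≤ Ph α β J r := sum_nonneg fun i _ => by
  have := fl_le α (J + i)
  have := fl_le β (J + i)
  unfold hh; linarith

lemma ineqA (hy : Hy α β) (h : Cl α β Q) (hn : ¬ St α Q) (g : Gd α β p q) (J r : ℕ)
    (hr : 2 * (q + 1) * β ≤ 2 ^ r) (hJ : 2 ^ J ≤ q) {C : ℝ}
    (hd : ((W (Q J) (fl α J + fl β J)).card + 1 : ℝ) ≤ C * (2 ^ J * (15 / 16) ^ Z α β J))
    {z : ℕ} (hz : Z α β (J + r) ≤ Z α β J + z) :
    1 ≤ C * (3 * β + 2 * z + 4) * (15 / 16) ^ Z α β J := by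
  have h1 := hy.h1
  have h2 := hy.h2
  have b0 : 0 < β := by linarith
  have q1 : (1 : ℝ) ≤ q := by exact_mod_cast g.q1
  have hJ' : (2 : ℝ) ^ J ≤ q := by exact_mod_cast hJ
  have t1 : 2 ^ J * β / q ≤ β := by rw [div_le_iff₀ (by linarith)]; nlinarith
  have t0 : 0 ≤ 2 ^ J * β / q := by positivity
  have p0 := Ph_nonneg α β J r
  have p1 := Ph_le α β J r
  have hz' : (Z α β (J + r) : ℝ) ≤ Z α β J + z := by exact_mod_cast hz
  have c1 := Int.le_ceil (3 * (2 ^ J * β / q) + Ph α β J r + 1)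
  have c2 := Int.ceil_lt_add_one (3 * (2 ^ J * β / q) + Ph α β J r + 1)
  set D := ⌈3 * (2 ^ J * β / q) + Ph α β J r + 1⌉
  have D0 : (0 : ℝ) < D := by linarith
  have pg := pigeon (Q J) (fl α J + fl β J) D (by exact_mod_cast D0) fun v => by
    by_contra hc
    push Not at hc
    exact hn (four hy h g J r hr (v := v) hc c1)
  have f := hy.facts J
  have e1 : (2 : ℤ) ^ J ≤ D * ((W (Q J) (fl α J + fl β J)).card + 1) := by omega
  have e2 : (2 : ℝ) ^ J ≤ D * ((W (Q J) (fl α J + fl β J)).card + 1) := by exact_mod_cast e1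
  have e3 : (2 : ℝ) ^ J ≤ (3 * β + 2 * z + 4) * (C * (2 ^ J * (15 / 16) ^ Z α β J)) :=
    e2.trans (mul_le_mul (by linarith) hd (by positivity) (by positivity))
  refine le_of_mul_le_mul_left (a := 2 ^ J) ?_ (by positivity)
  linarith

lemma dirN (hy : Hy α β) (N : ℕ) (hN : 0 < N) :
    ∃ p q : ℕ, Gd α β p q ∧ q ≤ N ∧ |q * β - p * α| ≤ α / (N + 1) := by
  have h1 := hy.h1
  have h2 := hy.h2
  have a0 : 0 < α := by linarith
  obtain ⟨x, x1, x2⟩ := Real.exists_rat_abs_sub_le_and_den_le (β / α) hN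
  have d1 : (1 : ℝ) ≤ x.den := by exact_mod_cast x.pos
  have dN : (x.den : ℝ) ≤ N := by exact_mod_cast x2
  have x3 : (0 : ℝ) ≤ x := by
    have e1 : 1 ≤ β / α := (one_le_div a0).2 (by linarith)
    have e2 : 1 / (((N : ℝ) + 1) * x.den) ≤ 1 := (div_le_one (by positivity)).2 (by nlinarith)
    have := (abs_le.1 x1).2
    linarith
  have x4 : 0 ≤ x.num := Rat.num_nonneg.2 (by exact_mod_cast x3)
  have e : |x.den * β - (x.num.natAbs : ℕ) * α| ≤ α / (N + 1) := by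
    have e1 : ((x.num.natAbs : ℕ) : ℝ) = x.num := by
      rw [← Int.cast_natCast, Int.natAbs_of_nonneg x4]
    have e2 : x.den * β - x.num * α = x.den * α * (β / α - x) := by
      rw [Rat.cast_def]; field_simp
    rw [e1, e2, abs_mul, abs_of_nonneg (by positivity)]
    refine (mul_le_mul_of_nonneg_left x1 (by positivity)).trans (le_of_eq ?_)
    field_simp
  exact ⟨_, _, ⟨x.reduced, x.pos, e.trans (by gcongr; linarith)⟩, x2, e⟩

lemma large (hy : Hy α β) (hi : Irrational (β / α)) (M : ℕ) : ∃ p q : ℕ, Gd α β p q ∧ M < q := by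
  have a0 : 0 < α := by linarith [hy.h1, hy.h2]
  obtain ⟨ε, e1, e2⟩ := (((hi.eventually_forall_le_dist_cast_div_of_denom_le M).filter_mono
    (nhdsWithin_le_nhds (s := Set.Ioi 0))).and self_mem_nhdsWithin).exists
  obtain ⟨N, hN⟩ := exists_nat_one_div_lt (show 0 < ε from e2)
  obtain ⟨p, q, g, -, h3⟩ := dirN hy (N + 1) (by omega)
  refine ⟨p, q, g, ?_⟩
  by_contra hc
  have q1 : (1 : ℝ) ≤ q := by exact_mod_cast g.q1
  have e3 := e1 q (by omega) p
  have e4 : β / α - (p : ℤ) / q = (q * β - p * α) / (q * α) := by push_cast; field_simp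
  rw [Real.dist_eq, e4, abs_div, abs_of_pos (show 0 < q * α by positivity),
    le_div_iff₀ (by positivity)] at e3
  have e5 : α / ((N + 1 : ℕ) + 1) ≤ α * (1 / (N + 1)) := by
    rw [mul_one_div]; push_cast; gcongr; linarith
  have e6 : α * (1 / (N + 1)) < α * ε := mul_lt_mul_of_pos_left hN a0
  have e7 : 0 < α * ε := mul_pos a0 e2
  nlinarith

lemma boost (hy : Hy α β) (hi : Irrational (β / α)) (h : Cl α β Q) (hn : ¬ St α Q) :
    ∃ J0, ∀ J, J0 ≤ J → ∀ v D : ℤ, 2 ^ J ≤ 4 * D → ¬ Iv Q J v D := by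
  obtain ⟨p, q, g, hq⟩ := large hy hi ⌈24 * β⌉₊
  obtain ⟨r, hr⟩ := pow_unbounded_of_one_lt (2 * (q + 1) * β) (show (1 : ℝ) < 2 by norm_num)
  refine ⟨16 * r + 24, fun J hJ v D hD hI => hn (four hy h g J r hr.le hI ?_)⟩
  have q1 : 24 * β ≤ q := (Nat.le_ceil _).trans (by exact_mod_cast hq.le)
  have q0 : (1 : ℝ) ≤ q := by exact_mod_cast g.q1
  have e1 : 2 ^ J * β / q ≤ 2 ^ J / 24 := by
    rw [div_le_div_iff₀ (by linarith) (by norm_num), mul_assoc]
    exact mul_le_mul_of_nonneg_left (by linarith) (by positivity)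
  have e2 := Ph_le α β J r
  have e3 : (Z α β (J + r) : ℝ) ≤ Z α β J + r := by exact_mod_cast Z_add α β J r
  have e4 : 16 * r + 24 ≤ 2 ^ J := hJ.trans Nat.lt_two_pow_self.le
  have e5 : (16 * r + 24 : ℝ) ≤ 2 ^ J := by exact_mod_cast e4
  have e6 : (2 : ℝ) ^ J ≤ 4 * D := by exact_mod_cast hD
  linarith

lemma zrun {k r : ℕ} (hz : ∀ i < r, ¬ dig α β (k + i)) :
    ∀ i ≤ r, fl α (k + i) = 2 ^ i * fl α k ∧ fl β (k + i) = 2 ^ i * fl β k := by
  intro i hi
  induction i with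
  | zero => simp
  | succ i ih =>
    obtain ⟨h1, h2⟩ := ih (by omega)
    have h3 := hz i (by omega)
    have := fl_succ α (k + i)
    have := fl_succ β (k + i)
    unfold dig at h3
    rw [← add_assoc, pow_succ, mul_right_comm, mul_right_comm _ 2, ← h1, ← h2]
    omega

lemma exdig (hy : Hy α β) (hi : Irrational (β / α)) (k : ℕ) : ∃ i, dig α β (k + i) := by
  by_contra hc
  push Not at hc
  have key : ∀ γ : ℝ, (∀ i, fl γ (k + i) = 2 ^ i * fl γ k) → 2 ^ k * γ = fl γ k := by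
    intro γ hγ
    by_contra hne
    have h0 : 0 < 2 ^ k * γ - fl γ k := sub_pos.2 (lt_of_le_of_ne (fl_le γ k) (Ne.symm hne))
    obtain ⟨i, hi⟩ := pow_unbounded_of_one_lt (1 / (2 ^ k * γ - fl γ k))
      (show (1 : ℝ) < 2 by norm_num)
    have h1 := lt_fl γ (k + i)
    rw [hγ, pow_add] at h1
    rw [div_lt_iff₀ h0] at hi
    push_cast at h1
    nlinarith
  have h1 := key α fun i => (zrun (fun j _ => hc j) i le_rfl).1
  have h2 := key β fun i => (zrun (fun j _ => hc j) i le_rfl).2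
  refine hi ⟨fl β k / fl α k, ?_⟩
  push_cast
  rw [← h1, ← h2, mul_div_mul_left _ _ (by positivity)]

lemma event (hy : Hy α β) (hi : Irrational (β / α)) (h : Cl α β Q) (g : Gd α β p q) {k ρ : ℕ}
    {u L : ℤ} (H : Iv (fun k y => Q k y ∨ Q k (y + 1)) k u L) (hL : fl α k ≤ L)
    (hs : q * fl β k = p * fl α k) (hρ : 2 * (q + 1) * β ≤ 2 ^ ρ)
    (hz : ∀ i < ρ, ¬ dig α β (k + i)) : ∃ J, k ≤ J ∧ ∃ v D : ℤ, 2 ^ J ≤ 4 * D ∧ Iv Q J v D := by
  classical
  have ex := exdig hy hi k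
  have j1 := Nat.find_spec ex
  have j2 : ρ ≤ Nat.find ex := by
    by_contra hc
    exact hz _ (by omega) j1
  have j3 := zrun (r := Nat.find ex) fun i hi => Nat.find_min ex hi
  generalize Nat.find ex = j at j1 j2 j3
  obtain ⟨f1, f2, f3, f4⟩ := hy.facts k
  obtain ⟨g1, g2⟩ := g.facts hy
  have q1 := g.q1
  obtain ⟨m, hm⟩ : (q : ℤ) ∣ fl α k :=
    (Nat.isCoprime_iff_coprime.2 g.co.symm).dvd_of_dvd_mul_left ⟨_, hs.symm⟩
  have hb : fl β k = p * m := mul_left_cancel₀ (show (q : ℤ) ≠ 0 by omega) (by rw [hs, hm]; ring)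
  have q1' : (1 : ℤ) ≤ q := by omega
  have m0 : 0 < m := by
    by_contra hc
    nlinarith
  have m1 : m ≤ fl α k := by nlinarith
  have hr : 2 * (q + 1) * β ≤ 2 ^ (j + 1) :=
    hρ.trans (pow_le_pow_right₀ (by norm_num) (by omega))
  have mid : ∀ y y0, Q k y0 → u ≤ y0 → y0 ≤ u + m → m ∣ y - y0 → u + m + m * (p * q) ≤ y →
      y < u + m * (p * 2 ^ (j + 1)) → Q (k + (j + 1)) y := by
    rintro y y0 b1 b2 b3 ⟨w, hw⟩ b4 b5
    have w1 : (p * q : ℤ) ≤ w := le_of_mul_le_mul_left (by omega) m0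
    have w2 : w < p * 2 ^ (j + 1) := lt_of_mul_lt_mul_left (by omega) m0.le
    obtain ⟨n, rfl⟩ := Int.eq_ofNat_of_zero_le (le_trans (by positivity) w1)
    obtain ⟨X, Y, hX, hY, hn⟩ := frob p q n (2 ^ (j + 1)) (by omega) g.co (by exact_mod_cast w1)
      (by exact_mod_cast w2)
    obtain ⟨F, c1, -, -, c2⟩ := blk h k (j + 1) X Y (hX.trans (g.lt hy hr)) hY
    have := c1 _ b1
    rwa [c2 fun i hi => j3 i (by omega), hm, hb, show y0 + (X * (q * m) + Y * (p * m)) = y by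
      rw [hn] at hw; push_cast at hw; linarith] at this
  obtain ⟨j4, j5⟩ := j3 j le_rfl
  have pj : (0 : ℤ) < 2 ^ j := by positivity
  obtain ⟨s1, s2, d1, d2, d3, d4, d5, d6⟩ : ∃ s1 s2 : ℤ, m ∣ s1 ∧ m ∣ s2 - 1 ∧ s1 ≤ s2 ∧
      s2 - s1 ≤ 2 * (2 ^ j * fl α k) + 1 ∧
      (∀ y, Q (k + (j + 1)) y → Q (k + (j + 1) + 1) (y + s1)) ∧
      ∀ y, Q (k + (j + 1)) y → Q (k + (j + 1) + 1) (y + s2) := by
    have a1 : m ∣ 2 * (2 ^ j * fl α k) := ⟨2 * 2 ^ j * q, by rw [hm]; ring⟩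
    have a2 : m ∣ 2 * (2 ^ j * fl β k) := ⟨2 * 2 ^ j * p, by rw [hb]; ring⟩
    have a3 : 0 < 2 ^ j * fl α k := mul_pos pj (by omega)
    have a4 : 2 ^ j * fl α k ≤ 2 ^ j * fl β k := mul_le_mul_of_nonneg_left (by omega) pj.le
    have a5 : 2 ^ j * fl β k ≤ 2 * (2 ^ j * fl α k) := by nlinarith
    by_cases c : fl α (k + j + 1) = 2 * fl α (k + j) + 1
    · rw [j4] at c
      exact ⟨0, fl α (k + j + 1), dvd_zero _, by rw [c]; simpa using a1, by omega, by omega,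
        fun y q => by simpa using h.c0 _ _ q, h.ca _⟩
    · have c1 := (fl_succ α (k + j)).resolve_right c
      have c2 := j1.resolve_left c
      rw [j4] at c1
      rw [j5] at c2
      exact ⟨fl α (k + j + 1), fl β (k + j + 1), by rw [c1]; exact a1, by rw [c2]; simpa using a2,
        by omega, by omega, h.ca _, h.cb _⟩
  refine ⟨k + (j + 1) + 1, by omega, u + m + m * (p * q) + s2,
    m * (p * 2 ^ (j + 1)) - m - m * (p * q) - (s2 - s1), ?_, fun y y1 y2 => ?_⟩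
  · have a1 : (2 * (q + 1) * fl β k : ℝ) ≤ 2 ^ (j + 1) * 2 ^ k := by
      have := fl_le β k
      have := mul_le_mul_of_nonneg_right hr (show (0 : ℝ) ≤ 2 ^ k by positivity)
      have : (0 : ℝ) ≤ q + 1 := by positivity
      nlinarith
    have a2 : (2 * (q + 1) * fl β k : ℤ) ≤ 2 ^ (j + 1) * 2 ^ k := by exact_mod_cast a1
    have a3 : m * (p * 2 ^ (j + 1)) = 2 * (2 ^ j * fl β k) := by rw [hb]; ring
    have a4 : m * (p * q) = q * fl β k := by rw [hb]; ring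
    have a5 := mul_le_mul_of_nonneg_left f2 pj.le
    rw [a3, a4]
    simp only [pow_add, pow_one] at a2 ⊢
    nlinarith
  · have r1 := Int.emod_nonneg (y - 1 - u) m0.ne'
    have r2 := Int.emod_lt_of_pos (y - 1 - u) m0
    have r3 : m ∣ y - 1 - u - (y - 1 - u) % m := Int.dvd_self_sub_emod
    rcases H (u + (y - 1 - u) % m) (by omega) (by omega) with c | c
    · have := d6 _ (mid (y - s2) _ c (by omega) (by omega) (by
        have := dvd_sub r3 d2
        rwa [show y - 1 - u - (y - 1 - u) % m - (s2 - 1) = y - s2 - (u + (y - 1 - u) % m) by ring]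
          at this) (by omega) (by omega))
      simpa using this
    · have := d5 _ (mid (y - s1) _ c (by omega) (by omega) (by
        have := dvd_sub r3 d1
        rwa [show y - 1 - u - (y - 1 - u) % m - s1 = y - s1 - (u + (y - 1 - u) % m + 1) by ring]
          at this) (by omega) (by omega))
      simpa using this

end

end Pool.Agent.H49.CT
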