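import Mathlib
import Pool.Agent.H49.CT3

set_option autoImplicit false

namespace Pool.Agent.H49.CT

open Finset

section
variable {α β : ℝ} {Q : ℕ → ℤ → Prop} {p q : ℕ}

lemma Z_lt {s m t : ℕ} (h : dig α β m) (h1 : s ≤ m) (h2 : m < t) : Z α β s + 1 ≤ Z α β t := by
  have a1 := Z_mono α β h1
  have a2 := Z_mono α β (show m + 1 ≤ t by omega)
  rw [Z_pos h] at a2
  omega

lemma Z_unb (hy : Hy α β) (hi : Irrational (β / α)) (N : ℕ) : ∃ j, N ≤ Z α β j := by
  induction N with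
  | zero => exact ⟨0, Nat.zero_le _⟩
  | succ N ih =>
    obtain ⟨j, hj⟩ := ih
    obtain ⟨i, h⟩ := exdig hy hi j
    exact ⟨j + i + 1, by have := Z_lt (s := j) (t := j + i + 1) h (by omega) (by omega); omega⟩

lemma window (j w c : ℕ) (h : Z α β (j + w * (c + 1)) ≤ Z α β j + c) :
    ∃ i ≤ c, ∀ t < w, ¬ dig α β (j + w * i + t) := by
  by_contra hc
  push Not at hc
  have key : ∀ i ≤ c + 1, Z α β j + i ≤ Z α β (j + w * i) := by
    intro i hi
    induction i with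
    | zero => simp
    | succ i ih =>
      obtain ⟨t, h1, h2⟩ := hc i (by omega)
      have := ih (by omega)
      have := Z_lt (s := j + w * i) (t := j + w * (i + 1)) h2 (by omega) (by rw [mul_add]; omega)
      omega
  have := key (c + 1) le_rfl
  omega

lemma szero (hy : Hy α β) (g : Gd α β p q) {k ρ n : ℕ} (hn : k + ρ ≤ n)
    (ap : |q * β - p * α| ≤ α / 2 ^ n) (hρ : 2 * (q + 1) * β ≤ 2 ^ ρ)
    (hz : ∀ i < ρ, ¬ dig α β (k + i)) : q * fl β k = p * fl α k := by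
  have h1 := hy.h1
  have h2 := hy.h2
  obtain ⟨z1, z2⟩ := zrun hz ρ le_rfl
  have a1 := fl_le α (k + ρ)
  have a2 := lt_fl α (k + ρ)
  have a3 := fl_le β (k + ρ)
  have a4 := lt_fl β (k + ρ)
  have q0 : (0 : ℝ) ≤ q := Nat.cast_nonneg _
  have p0 : (0 : ℝ) ≤ p := Nat.cast_nonneg _
  have p2 : (p : ℝ) ≤ 2 * q := by exact_mod_cast (g.facts hy).2
  have e1 : |2 ^ (k + ρ) * (q * β - p * α)| ≤ α := by
    rw [abs_mul, abs_of_pos (by positivity)]
    calc _ ≤ 2 ^ n * (α / 2 ^ n) :=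
          mul_le_mul (pow_le_pow_right₀ (by norm_num) hn) ap (abs_nonneg _) (by positivity)
      _ = α := by field_simp
  obtain ⟨e2, e3⟩ := abs_le.1 e1
  have b1 := mul_le_mul_of_nonneg_left a1 p0
  have b2 := mul_le_mul_of_nonneg_left a2.le p0
  have b3 := mul_le_mul_of_nonneg_left a3 q0
  have b4 := mul_le_mul_of_nonneg_left a4.le q0
  have b5 : α + 2 * q < 2 ^ ρ := by nlinarith
  have c1 : (q * fl β (k + ρ) - p * fl α (k + ρ) : ℝ) < 2 ^ ρ := by nlinarith
  have c2 : -(2 : ℝ) ^ ρ < q * fl β (k + ρ) - p * fl α (k + ρ) := by nlinarith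
  have d1 : (q * fl β (k + ρ) - p * fl α (k + ρ) : ℤ) < 2 ^ ρ := by exact_mod_cast c1
  have d2 : -(2 : ℤ) ^ ρ < q * fl β (k + ρ) - p * fl α (k + ρ) := by exact_mod_cast c2
  rw [z1, z2] at d1 d2
  have pp : (0 : ℤ) < 2 ^ ρ := by positivity
  have d3 : q * fl β k - p * fl α k < 1 := lt_of_mul_lt_mul_left (by linarith) pp.le
  have d4 : -1 < q * fl β k - p * fl α k := lt_of_mul_lt_mul_left (by linarith) pp.le
  omega

theorem key (hy : Hy α β) (hi : Irrational (β / α)) (h : Cl α β Q)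
    (hs : St α fun k y => Q k y ∨ Q k (y + 1)) : St α Q := by
  by_contra hn
  have b0 : 0 < β := by linarith [hy.h1, hy.h2]
  obtain ⟨K0, u, B, hu, H⟩ := St.all hy h.or hs
  obtain ⟨C, hC, hd⟩ := decay hy h K0 u B hu fun K hK => by
    obtain ⟨L, -, h2⟩ := H K hK
    exact ⟨L, h2⟩
  obtain ⟨J0, hb⟩ := boost hy hi h hn
  obtain ⟨e, he⟩ := pow_unbounded_of_one_lt (2 * β) (show (1 : ℝ) < 2 by norm_num)
  have rr : ∀ q l : ℕ, q < 2 ^ l → 2 * (q + 1) * β ≤ 2 ^ (l + e) := fun q l hq => by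
    have : (q + 1 : ℝ) ≤ 2 ^ l := by exact_mod_cast hq
    rw [pow_add, mul_comm 2, mul_assoc]
    exact mul_le_mul this he.le (by positivity) (by positivity)
  have an : ∀ i j : ℕ, i ≤ j → (15 / 16 : ℝ) ^ j ≤ (15 / 16) ^ i := fun i j hij =>
    pow_le_pow_of_le_one (by norm_num) (by norm_num) hij
  by_cases hc : ∀ j0, ∃ j, j0 ≤ j ∧ Z α β (505 * j) ≤ Z α β j + 250
  · have c0 : 0 < C * (3 * β + 2 * (250 : ℕ) + 4) := by positivity
    obtain ⟨N, hN⟩ := exists_pow_lt_of_lt_one (one_div_pos.2 c0) (show (15 / 16 : ℝ) < 1 by norm_num)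
    obtain ⟨j1, hj1⟩ := Z_unb hy hi N
    obtain ⟨j, j2, j3⟩ := hc (j1 + e + K0 + J0 + 1)
    have n1 : 1 < 2 ^ (503 * j) := Nat.one_lt_two_pow (by omega)
    obtain ⟨p, q, g, q2, ap⟩ := dirN hy (2 ^ (503 * j) - 1) (by omega)
    by_cases hq : 2 ^ j ≤ q
    · have a1 := ineqA hy h hn g j (503 * j + e) (rr q _ (by omega)) hq (hd j (by omega))
        ((Z_mono α β (by omega)).trans j3)
      have a2 := an _ _ (hj1.trans (Z_mono α β (show j1 ≤ j by omega)))
      have a3 := a2.trans_lt hN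
      rw [lt_div_iff₀ c0] at a3
      linarith
    · obtain ⟨i, i1, i2⟩ := window (α := α) (β := β) j (2 * j) 250
        ((Z_mono α β (by omega)).trans j3)
      have i3 : 2 * j * i ≤ 2 * j * 250 := Nat.mul_le_mul_left _ i1
      have hρ := rr q j (by omega)
      have hz : ∀ t < j + e, ¬ dig α β (j + 2 * j * i + t) := fun t ht => i2 t (by omega)
      have ap' : |q * β - p * α| ≤ α / 2 ^ (503 * j) := by
        rwa [Nat.cast_sub n1.le, Nat.cast_one, sub_add_cancel, Nat.cast_pow, Nat.cast_ofNat] at ap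
      obtain ⟨L, l1, -, l2⟩ := H (j + 2 * j * i) (by omega)
      obtain ⟨J, J1, v, D, J2, J3⟩ := event hy hi h g l2 l1 (szero hy g (by omega) ap' hρ hz) hρ hz
      exact hb J (by omega) v D J2 J3
  · push Not at hc
    obtain ⟨j0, hc⟩ := hc
    have bd : ∀ J : ℕ, (J : ℝ) ^ 2 * (15 / 16) ^ Z α β J ≤ (505 * (j0 + 1)) ^ 2 := by
      intro J
      induction J using Nat.strong_induction_on with
      | _ J ih =>
        by_cases hJ : J < 505 * (j0 + 1)
        · have a1 : (J : ℝ) ≤ 505 * (j0 + 1) := by exact_mod_cast hJ.le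
          have a2 := an 0 _ (Nat.zero_le (Z α β J))
          calc _ ≤ (505 * (j0 + 1) : ℝ) ^ 2 * (15 / 16) ^ 0 := by gcongr
            _ = _ := by simp
        · have a1 := ih (J / 505) (by omega)
          have a2 := hc (J / 505) (by omega)
          have a3 := Z_mono α β (show 505 * (J / 505) ≤ J by omega)
          have a4 := an (Z α β (J / 505) + 251) (Z α β J) (by omega)
          have a5 : J ≤ 1010 * (J / 505) := by omega
          have a6 : (J : ℝ) ≤ 1010 * (J / 505 : ℕ) := by exact_mod_cast a5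
          have a7 : (1010 : ℝ) ^ 2 * (15 / 16) ^ 251 ≤ 1 := by norm_num
          calc _ ≤ (1010 * (J / 505 : ℕ) : ℝ) ^ 2 * (15 / 16) ^ (Z α β (J / 505) + 251) := by gcongr
            _ = (1010 ^ 2 * (15 / 16) ^ 251) *
                (((J / 505 : ℕ) : ℝ) ^ 2 * (15 / 16) ^ Z α β (J / 505)) := by
              rw [pow_add, mul_pow]; generalize (15 / 16 : ℝ) ^ 251 = s; ring
            _ ≤ 1 * (505 * (j0 + 1)) ^ 2 := mul_le_mul a7 a1 (by positivity) (by norm_num)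
            _ = _ := one_mul _
    obtain ⟨M, hM⟩ := exists_nat_gt (C * (3 * β + 2 * e + 8) * (505 * (j0 + 1)) ^ 2)
    obtain ⟨p, q, g, hq⟩ := large hy hi (2 ^ (M + K0 + 1))
    have q1 := g.q1
    have l1 : M + K0 + 1 ≤ Nat.log 2 q := Nat.le_log_of_pow_le (by norm_num) hq.le
    have l2 : 2 ^ Nat.log 2 q ≤ q := Nat.pow_log_le_self 2 (by omega)
    have l3 : q < 2 ^ (Nat.log 2 q + 1) := Nat.lt_pow_succ_log_self (by norm_num) q
    generalize Nat.log 2 q = J at l1 l2 l3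
    have a1 := ineqA hy h hn g J (J + 1 + e) (rr q _ l3) l2 (hd J (by omega)) (Z_add α β _ _)
    have a2 := bd J
    have J1 : (1 : ℝ) ≤ J := by exact_mod_cast (show 1 ≤ J by omega)
    have J2 : (M : ℝ) ≤ J := by exact_mod_cast (show M ≤ J by omega)
    have a3 : 3 * β + 2 * ((J + 1 + e : ℕ) : ℝ) + 4 ≤ (3 * β + 2 * e + 8) * J := by
      have : (0 : ℝ) ≤ e := Nat.cast_nonneg _
      push_cast; nlinarith
    have a4 : 1 ≤ C * ((3 * β + 2 * e + 8) * J) * (15 / 16) ^ Z α β J := a1.trans (by gcongr)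
    have a5 := mul_le_mul_of_nonneg_left a4 (show (0 : ℝ) ≤ J by linarith)
    have a6 := mul_le_mul_of_nonneg_left a2 (show 0 ≤ C * (3 * β + 2 * e + 8) by positivity)
    nlinarith

theorem full (hy : Hy α β) (hi : Irrational (β / α)) (h : Cl α β Q) (h0 : Q 0 0) :
    ∃ N : ℤ, ∀ y, N ≤ y → ∃ k, Q k y := by
  have step : ∀ n : ℕ, ∀ R : ℕ → ℤ → Prop, Cl α β R → (∃ v, ∀ y, v ≤ y → y < v + fl α 0 →
      ∃ i : ℕ, i ≤ n ∧ R 0 (y + i)) → St α R := by
    intro n
    induction n with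
    | zero =>
      rintro R - ⟨v, hv⟩
      refine ⟨0, v, fun y h1 h2 => ?_⟩
      obtain ⟨i, i1, i2⟩ := hv y h1 h2
      obtain rfl : i = 0 := by omega
      simpa using i2
    | succ n ih =>
      rintro R hR ⟨v, hv⟩
      refine key hy hi hR (ih _ hR.or ⟨v, fun y h1 h2 => ?_⟩)
      obtain ⟨i, i1, i2⟩ := hv y h1 h2
      rcases i with _ | i
      · exact ⟨0, by omega, Or.inl i2⟩
      · exact ⟨i, by omega, Or.inr (by rw [add_assoc]; exact_mod_cast i2)⟩
  have hs := step (fl α 0).natAbs Q h ⟨-fl α 0, fun y h1 h2 =>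
    ⟨y.natAbs, by omega, by rwa [show y + y.natAbs = 0 by omega]⟩⟩
  obtain ⟨K0, u, B, -, H⟩ := St.all hy h hs
  refine ⟨u, fun y hy' => ?_⟩
  obtain ⟨L, l1, -, l2⟩ := H (K0 + (y - u).natAbs) (by omega)
  have a1 := (hy.facts (K0 + (y - u).natAbs)).1
  have a2 : K0 + (y - u).natAbs < 2 ^ (K0 + (y - u).natAbs) := Nat.lt_two_pow_self
  have a3 : ((K0 + (y - u).natAbs : ℕ) : ℤ) < 2 ^ (K0 + (y - u).natAbs) := by exact_mod_cast a2
  exact ⟨_, l2 y hy' (by omega)⟩

end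

end Pool.Agent.H49.CT
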