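import Mathlib

set_option autoImplicit false

namespace Pool.Agent.H49.Collide

open Polynomial

/-- If `F` commutes with the translation by `1` in characteristic `p`, then for infinitely many
parameters `l` the point `t` is in the strict forward orbits of `t` and `t + 1` under `F + l`. -/
theorem infinite_of_commute {K : Type*} [Field K] [IsAlgClosed K] (p : ℕ) (hp : p.Prime)
    [CharP K p] (F : K[X]) (hF : 2 ≤ F.natDegree)
    (hc : ∀ x : K, F.eval (x + 1) = F.eval x + 1) (t : K) :
    Set.Infinite {l : K | ∃ m n : ℕ, 1 ≤ m ∧ 1 ≤ n ∧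
      (fun x => F.eval x + l)^[m] t = t ∧ (fun x => F.eval x + l)^[n] (t + 1) = t} := by
  intro hfin
  classical
  have hshift : ∀ (l : K) (r : ℕ) (x : K), (fun x => F.eval x + l)^[r] (x + 1) =
      (fun x => F.eval x + l)^[r] x + 1 := by
    intro l r
    induction r with
    | zero => intro x; rfl
    | succ r ih =>
      intro x
      rw [Function.iterate_succ_apply', Function.iterate_succ_apply', ih, hc]
      ring
  have hshiftk : ∀ (l : K) (r k : ℕ) (x : K), (fun x => F.eval x + l)^[r] (x + k) =
      (fun x => F.eval x + l)^[r] x + k := by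
    intro l r k
    induction k with
    | zero => intro x; simp
    | succ k ih =>
      intro x
      push_cast
      rw [← add_assoc, hshift, ih, add_assoc]
  have hmul : ∀ (l : K) (r : ℕ), (fun x => F.eval x + l)^[r] t = t + 1 →
      ∀ k : ℕ, (fun x => F.eval x + l)^[r * k] t = t + k := by
    intro l r h k
    induction k with
    | zero => simp
    | succ k ih =>
      rw [Nat.mul_succ, add_comm (r * k) r, Function.iterate_add_apply, ih, hshiftk, h]
      push_cast
      ring
  have hmem : ∀ (l : K) (r : ℕ), 1 ≤ r → (fun x => F.eval x + l)^[r] t = t + 1 →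
      l ∈ {l : K | ∃ m n : ℕ, 1 ≤ m ∧ 1 ≤ n ∧
      (fun x => F.eval x + l)^[m] t = t ∧ (fun x => F.eval x + l)^[n] (t + 1) = t} := by
    intro l r hr h
    have h2 := hp.two_le
    obtain ⟨q, rfl⟩ : ∃ q, p = q + 1 := ⟨p - 1, by omega⟩
    have hz : ((q + 1 : ℕ) : K) = 0 := CharP.cast_eq_zero K _
    refine ⟨r * (q + 1), r * q, Nat.mul_pos hr (by omega), Nat.mul_pos hr (by omega), ?_, ?_⟩
    · rw [hmul l r h, hz, add_zero]
    · rw [hshift, hmul l r h, add_assoc]
      push_cast at hz
      rw [hz, add_zero]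
  choose! m hm using fun l (hl : l ∈ {l : K | ∃ m n : ℕ, 1 ≤ m ∧ 1 ≤ n ∧
      (fun x => F.eval x + l)^[m] t = t ∧ (fun x => F.eval x + l)^[n] (t + 1) = t}) => hl
  set R := ∏ l ∈ hfin.toFinset, m l with hR
  have hRpos : 1 ≤ R := by
    refine Finset.prod_pos (s := hfin.toFinset) (f := m) ?_
    intro l hl
    obtain ⟨_, h, _⟩ := hm l (hfin.mem_toFinset.1 hl)
    exact h
  let P : ℕ → K[X] := fun r => (fun Q : K[X] => F.comp Q + X)^[r] (C t)
  have hPeval : ∀ (l : K) (r : ℕ), (P r).eval l = (fun x => F.eval x + l)^[r] t := by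
    intro l r
    induction r with
    | zero => simp [P]
    | succ r ih =>
      rw [Function.iterate_succ_apply', ← ih]
      simp only [P]
      rw [Function.iterate_succ_apply']
      simp [eval_comp]
  have hPdeg : ∀ r : ℕ, 1 ≤ (P (r + 1)).natDegree := by
    intro r
    induction r with
    | zero =>
      simp only [P]
      rw [Function.iterate_succ_apply']
      simp only [Function.iterate_zero, id, comp_C]
      rw [add_comm, natDegree_X_add_C]
    | succ r ih =>
      have e : P (r + 1 + 1) = F.comp (P (r + 1)) + X := by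
        simp only [P]
        rw [Function.iterate_succ_apply']
      have h1 : (X : K[X]).natDegree < (F.comp (P (r + 1))).natDegree := by
        rw [natDegree_comp, natDegree_X]
        nlinarith
      rw [e, natDegree_add_eq_left_of_natDegree_lt h1]
      rw [natDegree_X] at h1
      omega
  obtain ⟨r, hr⟩ : ∃ r, R = r + 1 := ⟨R - 1, by omega⟩
  have hdeg : (P R - C (t + 1)).degree ≠ 0 := by
    intro h
    have h1 : (P R - C (t + 1)).natDegree = 0 := natDegree_eq_of_degree_eq_some h
    rw [natDegree_sub_C, hr] at h1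
    have := hPdeg r
    omega
  obtain ⟨l, hl⟩ := IsAlgClosed.exists_root _ hdeg
  rw [IsRoot, eval_sub, eval_C, hPeval, sub_eq_zero] at hl
  have hlmem := hmem l R hRpos hl
  obtain ⟨_, _, _, hper, _⟩ := hm l hlmem
  obtain ⟨k, hk⟩ : m l ∣ R := Finset.dvd_prod_of_mem m (hfin.mem_toFinset.2 hlmem)
  have : (fun x => F.eval x + l)^[R] t = t := by
    rw [hk, Function.iterate_mul]
    exact Function.iterate_fixed hper k
  rw [this] at hl
  exact one_ne_zero (left_eq_add.1 hl)

lemma natDegree_f (p : ℕ) [hp : Fact p.Prime] :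
    ((X ^ p - X) ^ (p + 1) + X : (ZMod p)[X]).natDegree = (p + 1) * p := by
  have h2 := hp.out.two_le
  have h1 : (X ^ p - X : (ZMod p)[X]).natDegree = p := by
    rw [natDegree_sub_eq_left_of_natDegree_lt] <;> simp
    omega
  have h3 : ((X ^ p - X) ^ (p + 1) : (ZMod p)[X]).natDegree = (p + 1) * p := by
    rw [natDegree_pow, h1]
  rw [natDegree_add_eq_left_of_natDegree_lt, h3]
  rw [h3, natDegree_X]
  nlinarith

lemma aeval_shift (p : ℕ) [hp : Fact p.Prime] {K : Type*} [Field K] [Algebra (ZMod p) K] (x : K) :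
    aeval (x + 1) ((X ^ p - X) ^ (p + 1) + X : (ZMod p)[X]) =
      aeval x ((X ^ p - X) ^ (p + 1) + X : (ZMod p)[X]) + 1 := by
  have : CharP K p := charP_of_injective_algebraMap (algebraMap (ZMod p) K).injective p
  simp only [map_add, map_pow, map_sub, aeval_X]
  rw [add_pow_char, one_pow]
  ring

end Pool.Agent.H49.Collide
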