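import Mathlib

/-! Sets of integers closed under multiplication by all `d ≤ L^2` have positive density up to `L^(i+2)`. -/

set_option autoImplicit false
open Finset ArithmeticFunction

namespace Pool.Agent.H49.Cu

lemma logfac (N : ℕ) : Real.log (N.factorial : ℝ) = ∑ d ∈ Ioc 0 N, Λ d * ((N / d : ℕ) : ℝ) := by
  rw [← sum_Ioc_mul_zeta_eq_sum, vonMangoldt_mul_zeta]
  induction N with
  | zero => simp
  | succ N ih =>
    rw [Nat.factorial_succ, Nat.cast_mul, Real.log_mul (by positivity) (by positivity), ih,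
      Finset.sum_Ioc_succ_top (by omega)]
    simp [log_apply, add_comm]

lemma mlow (N : ℕ) (hN : 1 ≤ N) : Real.log N - 1 ≤ ∑ d ∈ Ioc 0 N, Λ d / d := by
  have hN' : (0:ℝ) < N := by exact_mod_cast hN
  have h1 : (N:ℝ) ^ N / N.factorial ≤ Real.exp N := Real.pow_div_factorial_le_exp _ hN'.le N
  have h2 := Real.log_le_log (by positivity) h1
  rw [Real.log_div (by positivity) (by positivity), Real.log_pow, Real.log_exp, logfac] at h2
  have h3 : ∑ d ∈ Ioc 0 N, Λ d * ((N / d : ℕ) : ℝ) ≤ N * ∑ d ∈ Ioc 0 N, Λ d / d := by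
    rw [mul_sum]
    refine sum_le_sum fun d _ => ?_
    have := @Nat.cast_div_le ℝ _ _ _ N d
    calc Λ d * ((N / d : ℕ) : ℝ) ≤ Λ d * (N / d) :=
          mul_le_mul_of_nonneg_left this vonMangoldt_nonneg
      _ = _ := by ring
  have : N * (Real.log N - 1) ≤ N * ∑ d ∈ Ioc 0 N, Λ d / d := by linarith
  exact le_of_mul_le_mul_left this hN'

lemma mup (N : ℕ) (hN : 1 ≤ N) : ∑ d ∈ Ioc 0 N, Λ d / d ≤ Real.log N + 6 := by
  have hN' : (0:ℝ) < N := by exact_mod_cast hN
  have h1 : (N.factorial : ℝ) ≤ (N:ℝ) ^ N := by exact_mod_cast Nat.factorial_le_pow N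
  have h2 := Real.log_le_log (by positivity) h1
  rw [Real.log_pow, logfac] at h2
  have h4 : ∑ d ∈ Ioc 0 N, Λ d ≤ 6 * N := by
    have := Chebyshev.psi_le_const_mul_self hN'.le
    rw [Chebyshev.psi, Nat.floor_natCast] at this
    have l4 : Real.log 4 ≤ 2 := by
      have : Real.log 4 = 2 * Real.log 2 := by
        rw [show (4:ℝ) = 2 ^ 2 by norm_num, Real.log_pow]; norm_num
      have := Real.log_two_lt_d9
      linarith
    nlinarith
  have h3 : N * ∑ d ∈ Ioc 0 N, Λ d / d ≤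
      ∑ d ∈ Ioc 0 N, Λ d * ((N / d : ℕ) : ℝ) + ∑ d ∈ Ioc 0 N, Λ d := by
    rw [mul_sum, ← sum_add_distrib]
    refine sum_le_sum fun d hd => ?_
    have hd0 : 0 < d := (mem_Ioc.1 hd).1
    have hd' : (0:ℝ) < d := by exact_mod_cast hd0
    have : (N:ℝ) / d ≤ ((N / d : ℕ) : ℝ) + 1 := by
      rw [div_le_iff₀ hd']
      have := Nat.lt_div_mul_add (a := N) hd0
      have : (N:ℝ) < ((N / d : ℕ) : ℝ) * d + d := by exact_mod_cast this
      linarith
    calc N * (Λ d / d) = Λ d * (N / d) := by ring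
      _ ≤ Λ d * (((N / d : ℕ) : ℝ) + 1) := mul_le_mul_of_nonneg_left this vonMangoldt_nonneg
      _ = _ := by ring
  have : N * ∑ d ∈ Ioc 0 N, Λ d / d ≤ N * (Real.log N + 6) := by linarith
  exact le_of_mul_le_mul_left this hN'

lemma mid (L : ℕ) (hL : 1 ≤ L) (h : 14 ≤ Real.log L) :
    Real.log L / 2 ≤ ∑ d ∈ Ioc L (L ^ 2), Λ d / d := by
  have h1 := mlow (L ^ 2) (Nat.one_le_pow _ _ hL)
  have h2 := mup L hL
  have h3 := Finset.sum_Ioc_consecutive (fun d : ℕ => Λ d / (d:ℝ)) (Nat.zero_le L)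
    (show L ≤ L ^ 2 by nlinarith)
  rw [Nat.cast_pow, Real.log_pow] at h1
  push_cast at h1
  linarith

open Classical in
/-- number of elements of `S` in `[1,x]` -/
noncomputable def cnt (S : Set ℕ) (x : ℕ) : ℕ := ((Icc 1 x).filter (· ∈ S)).card

lemma key (S : Set ℕ) (L x : ℕ) (hS : ∀ d, 1 ≤ d → d ≤ L ^ 2 → ∀ m ∈ S, d * m ∈ S) :
    ∑ d ∈ Ioc L (L ^ 2), Λ d * (cnt S (x / d) : ℝ) ≤ cnt S x * Real.log x := by
  classical
  calc ∑ d ∈ Ioc L (L ^ 2), Λ d * (cnt S (x / d) : ℝ)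
      ≤ ∑ d ∈ Ioc L (L ^ 2), ∑ m ∈ (Icc 1 x).filter (· ∈ S), if d ∣ m then Λ d else 0 := by
        refine sum_le_sum fun d hd => ?_
        rw [← sum_filter, sum_const, nsmul_eq_mul, mul_comm]
        refine mul_le_mul_of_nonneg_right ?_ vonMangoldt_nonneg
        have hd0 : 0 < d := by have := (mem_Ioc.1 hd).1; omega
        have : cnt S (x / d) ≤ (((Icc 1 x).filter (· ∈ S)).filter (d ∣ ·)).card := by
          unfold cnt
          refine card_le_card_of_injOn (fun m => d * m) ?_ ?_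
          · intro m hm
            simp only [coe_filter, mem_filter, mem_Icc, Set.mem_setOf_eq] at hm ⊢
            refine ⟨⟨⟨Nat.mul_pos hd0 hm.1.1, ?_⟩, hS d hd0 (mem_Ioc.1 hd).2 m hm.2⟩, dvd_mul_right _ _⟩
            have := (Nat.le_div_iff_mul_le hd0).1 hm.1.2
            rwa [mul_comm]
          · intro a _ b _ hab
            exact Nat.eq_of_mul_eq_mul_left hd0 hab
        exact_mod_cast this
    _ = ∑ m ∈ (Icc 1 x).filter (· ∈ S), ∑ d ∈ Ioc L (L ^ 2), if d ∣ m then Λ d else 0 := sum_comm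
    _ ≤ ∑ m ∈ (Icc 1 x).filter (· ∈ S), Real.log x := by
        refine sum_le_sum fun m hm => ?_
        have hm1 := mem_Icc.1 (mem_filter.1 hm).1
        rw [← sum_filter]
        calc ∑ d ∈ (Ioc L (L ^ 2)).filter (· ∣ m), Λ d ≤ ∑ d ∈ m.divisors, Λ d := by
              refine sum_le_sum_of_subset_of_nonneg ?_ fun _ _ _ => vonMangoldt_nonneg
              intro d hd
              exact Nat.mem_divisors.2 ⟨(mem_filter.1 hd).2, by omega⟩
          _ = Real.log m := vonMangoldt_sum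
          _ ≤ Real.log x := Real.log_le_log (by exact_mod_cast hm1.1) (by exact_mod_cast hm1.2)
    _ = _ := by rw [sum_const, nsmul_eq_mul]; unfold cnt; congr

lemma dens (i : ℕ) : ∃ c : ℝ, 0 < c ∧ ∀ (S : Set ℕ) (L : ℕ), 1 ≤ L → 14 ≤ Real.log L →
    (∀ d, 1 ≤ d → d ≤ L ^ 2 → d ∈ S) → (∀ d, 1 ≤ d → d ≤ L ^ 2 → ∀ m ∈ S, d * m ∈ S) →
    ∀ x : ℕ, 1 ≤ x → x ≤ L ^ (i + 2) → c * x ≤ cnt S x := by
  classical
  induction i with
  | zero =>
    refine ⟨1, one_pos, fun S L _ _ h1 _ x _ hx => ?_⟩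
    have : cnt S x = x := by
      unfold cnt
      rw [filter_true_of_mem]
      · simp
      · intro d hd
        exact h1 d (mem_Icc.1 hd).1 ((mem_Icc.1 hd).2.trans hx)
    simp [this]
  | succ i ih =>
    obtain ⟨c, hc, H⟩ := ih
    have hi : (0:ℝ) < 4 * (i + 3) := by positivity
    refine ⟨c / (4 * (i + 3)), by positivity, fun S L hL hl h1 h2 x hx hxL => ?_⟩
    have hx' : (0:ℝ) < x := by exact_mod_cast hx
    by_cases hs : x ≤ L ^ (i + 2)
    · refine le_trans ?_ (H S L hL hl h1 h2 x hx hs)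
      refine mul_le_mul_of_nonneg_right ?_ hx'.le
      rw [div_le_iff₀ hi]
      have : (0:ℝ) ≤ i := by positivity
      nlinarith
    push Not at hs
    have hL2 : L ^ 2 ≤ x := le_trans (Nat.pow_le_pow_right hL (by omega)) hs.le
    have k1 := key S L x h2
    have k2 : c * x / 2 * ∑ d ∈ Ioc L (L ^ 2), Λ d / d ≤
        ∑ d ∈ Ioc L (L ^ 2), Λ d * (cnt S (x / d) : ℝ) := by
      rw [mul_sum]
      refine sum_le_sum fun d hd => ?_
      obtain ⟨d1, d2⟩ := mem_Ioc.1 hd
      have hd0 : 0 < d := by omega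
      have hd' : (0:ℝ) < d := by exact_mod_cast hd0
      have q1 : 1 ≤ x / d := (Nat.le_div_iff_mul_le hd0).2 (by omega)
      have q2 : x / d ≤ L ^ (i + 2) := by
        apply Nat.div_le_of_le_mul
        calc x ≤ L ^ (i + 1 + 2) := hxL
          _ = L * L ^ (i + 2) := by ring
          _ ≤ d * L ^ (i + 2) := Nat.mul_le_mul_right _ d1.le
      have q3 := H S L hL hl h1 h2 _ q1 q2
      have q4 : (x:ℝ) / (2 * d) ≤ ((x / d : ℕ) : ℝ) := by
        rw [div_le_iff₀ (by positivity)]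
        have a := Nat.lt_div_mul_add (a := x) hd0
        have a' : (x:ℝ) < ((x / d : ℕ) : ℝ) * d + d := by exact_mod_cast a
        have b : (1:ℝ) ≤ ((x / d : ℕ) : ℝ) := by exact_mod_cast q1
        nlinarith
      calc c * x / 2 * (Λ d / d) = Λ d * (c * (x / (2 * d))) := by field_simp
        _ ≤ Λ d * (c * ((x / d : ℕ) : ℝ)) :=
            mul_le_mul_of_nonneg_left (mul_le_mul_of_nonneg_left q4 hc.le) vonMangoldt_nonneg
        _ ≤ _ := mul_le_mul_of_nonneg_left q3 vonMangoldt_nonneg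
    have k3 := mid L hL hl
    have k4 : Real.log x ≤ (i + 3) * Real.log L := by
      have : (x:ℝ) ≤ (L:ℝ) ^ (i + 3) := by exact_mod_cast hxL
      have := Real.log_le_log hx' this
      rw [Real.log_pow] at this
      push_cast at this
      exact this
    have k5 : c * x / 2 * (Real.log L / 2) ≤ cnt S x * ((i + 3) * Real.log L) :=
      calc _ ≤ c * x / 2 * ∑ d ∈ Ioc L (L ^ 2), Λ d / d :=
            mul_le_mul_of_nonneg_left k3 (by positivity)
        _ ≤ cnt S x * Real.log x := k2.trans k1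
        _ ≤ _ := mul_le_mul_of_nonneg_left k4 (by positivity)
    have hl0 : 0 < Real.log L := by linarith
    rw [div_mul_eq_mul_div, div_le_iff₀ hi]
    have : (c * x) * Real.log L ≤ (cnt S x * (4 * (i + 3))) * Real.log L := by nlinarith
    exact le_of_mul_le_mul_right this hl0

/-- no prime divides all `m^n - 1`, `2 ≤ m ≤ L^2` -/
lemma nodiv (i : ℕ) : ∃ C : ℕ, ∀ n L : ℕ, n.Prime → n ≡ 1 [MOD (C + 1).factorial] → 2 ≤ L →
    14 ≤ Real.log L → C * n ≤ L ^ (i + 2) →
    ∀ p : ℕ, p.Prime → ∃ m, 2 ≤ m ∧ m ≤ L ^ 2 ∧ ¬ p ∣ m ^ n - 1 := by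
  classical
  obtain ⟨c, hc, H⟩ := dens i
  obtain ⟨C, hC⟩ := exists_nat_gt (1 / c)
  have hC0 : (0:ℝ) < C := lt_trans (by positivity) hC
  have hC1 : 1 ≤ C := by exact_mod_cast hC0
  refine ⟨C, fun n L hn hmod hL hl hx p hp => ?_⟩
  by_contra hcon
  push Not at hcon
  haveI := Fact.mk hp
  have hroot : ∀ m : ℕ, 1 ≤ m → m ≤ L ^ 2 → (m : ZMod p) ^ n = 1 := by
    intro m m1 m2
    rcases eq_or_lt_of_le m1 with rfl | m1'
    · simp
    have := (ZMod.natCast_eq_zero_iff _ _).2 (hcon m m1' m2)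
    rw [Nat.cast_sub (Nat.one_le_pow _ _ m1)] at this
    push_cast at this
    exact sub_eq_zero.1 this
  have h2 := hroot 2 (by norm_num) (by nlinarith)
  push_cast at h2
  have h20 : (2 : ZMod p) ≠ 0 := by
    intro h; rw [h, zero_pow hn.ne_zero] at h2; exact zero_ne_one h2
  have ho : orderOf (2 : ZMod p) = n := by
    rcases (Nat.dvd_prime hn).1 (orderOf_dvd_of_pow_eq_one h2) with h | h
    · rw [orderOf_eq_one_iff] at h
      exact absurd (by linear_combination h : (1 : ZMod p) = 0) one_ne_zero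
    · exact h
  obtain ⟨j, hj⟩ : n ∣ p - 1 := ho ▸ ZMod.orderOf_dvd_card_sub_one h20
  have hp2 := hp.two_le
  have hn2 := hn.two_le
  have hj0 : 1 ≤ j := by
    rcases Nat.eq_zero_or_pos j with rfl | h
    · omega
    · exact h
  have hjC : C < j := by
    by_contra hh
    push Not at hh
    have d1 : j + 1 ∣ (C + 1).factorial := Nat.dvd_factorial (by omega) (by omega)
    have d2 : n ≡ 1 [MOD j + 1] := hmod.of_dvd d1
    have d3 : n * j + 1 ≡ 1 * j + 1 [MOD j + 1] := (d2.mul_right j).add_right 1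
    have d4 : j + 1 ∣ p := by
      have e : p = n * j + 1 := by omega
      rw [e, (Nat.modEq_zero_iff_dvd).symm]
      refine d3.trans ?_
      rw [one_mul]
      exact Nat.modEq_zero_iff_dvd.2 dvd_rfl
    rcases (Nat.dvd_prime hp).1 d4 with h | h
    · omega
    · have : n * j = j := by omega
      nlinarith
  have hlt : C * n < p := by
    have : C * n ≤ n * j := by nlinarith
    omega
  let S : Set ℕ := {m | (m : ZMod p) ^ n = 1}
  have d := H S L (by omega) hl hroot (fun d d1 d2 m hm => by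
    have hm' : (m : ZMod p) ^ n = 1 := hm
    show ((d * m : ℕ) : ZMod p) ^ n = 1
    rw [Nat.cast_mul, mul_pow, hroot d d1 d2, hm', one_mul]) (C * n) (by nlinarith) hx
  have u : cnt S (C * n) ≤ n := by
    unfold cnt
    refine le_trans (card_le_card_of_injOn (t := (Polynomial.nthRoots n (1 : ZMod p)).toFinset)
      (fun m => (m : ZMod p)) ?_ ?_)
      ((Multiset.toFinset_card_le _).trans (Polynomial.card_nthRoots n 1))
    · intro m hm
      simp only [coe_filter, Set.mem_setOf_eq] at hm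
      simp only [mem_coe, Multiset.mem_toFinset]
      exact (Polynomial.mem_nthRoots hn.pos).2 hm.2
    · intro a ha b hb hab
      simp only [coe_filter, mem_Icc, Set.mem_setOf_eq] at ha hb
      have := (ZMod.natCast_eq_natCast_iff' a b p).1 hab
      rwa [Nat.mod_eq_of_lt (by omega), Nat.mod_eq_of_lt (by omega)] at this
  have u' : (cnt S (C * n) : ℝ) ≤ n := by exact_mod_cast u
  have hn' : (0:ℝ) < n := by exact_mod_cast hn.pos
  rw [div_lt_iff₀ hc] at hC
  push_cast at d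
  nlinarith

end Pool.Agent.H49.Cu
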