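import Mathlib
import Pool.Prelude.Def_F_cef2bd1b

/-! Subdividing one cube of a tiling, and a Frobenius type bound. -/

set_option autoImplicit false
open Finset N0a8789b9

namespace Pool.Agent.H49.Cu

/-- the small cube with index `f` in the subdivision of `Q` into `m^n` cubes -/
noncomputable def sub {n : ℕ} (Q : Cube n) (m : ℕ) (f : Fin n → Fin m) : Cube n :=
  ⟨fun j => Q.lower j + (f j : ℕ) * (Q.side / m), Q.side / m⟩

lemma sub_le {n m : ℕ} (Q : Cube n) (hs : 0 < Q.side) (hm : 0 < m) (f : Fin n → Fin m) (j : Fin n) :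
    Q.lower j ≤ (sub Q m f).lower j ∧
      (sub Q m f).lower j + (sub Q m f).side ≤ Q.lower j + Q.side := by
  have hm' : (0:ℝ) < m := by exact_mod_cast hm
  have h0 : 0 < Q.side / m := by positivity
  have h1 : ((f j : ℕ) : ℝ) + 1 ≤ m := by exact_mod_cast (f j).2
  have h2 : (m:ℝ) * (Q.side / m) = Q.side := by field_simp
  have h3 : (0:ℝ) ≤ ((f j : ℕ) : ℝ) := by positivity
  simp only [sub]
  constructor <;> nlinarith

lemma sub_uniq {n m : ℕ} (Q : Cube n) (hs : 0 < Q.side) (hm : 0 < m) (x : Fin n → ℝ)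
    (hx : Q.Mem x) : ∃! f : Fin n → Fin m, (sub Q m f).Mem x := by
  have hm' : (0:ℝ) < m := by exact_mod_cast hm
  have h0 : 0 < Q.side / m := by positivity
  have h2 : (m:ℝ) * (Q.side / m) = Q.side := by field_simp
  have key : ∀ (j : Fin n) (a : ℕ), (Q.lower j + a * (Q.side / m) ≤ x j ∧
      x j < Q.lower j + a * (Q.side / m) + Q.side / m) ↔
      ⌊(x j - Q.lower j) / (Q.side / m)⌋₊ = a := by
    intro j a
    rw [Nat.floor_eq_iff (div_nonneg (by linarith [(hx j).1]) h0.le), le_div_iff₀ h0,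
      div_lt_iff₀ h0]
    constructor <;> rintro ⟨u, v⟩ <;> constructor <;> linarith
  have lt : ∀ j, ⌊(x j - Q.lower j) / (Q.side / m)⌋₊ < m := by
    intro j
    rw [Nat.floor_lt (div_nonneg (by linarith [(hx j).1]) h0.le), div_lt_iff₀ h0]
    linarith [(hx j).2]
  refine ⟨fun j => ⟨_, lt j⟩, fun j => (key j _).2 rfl, fun g hg => ?_⟩
  funext j
  exact Fin.ext ((key j _).1 (hg j)).symm

lemma adm_of {n : ℕ} {ι : Type} [Fintype ι] (T : ι → Cube n) (h1 : ∀ i, (T i).InsideUnit)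
    (h2 : ∀ x, InUnit x → ∃! i, (T i).Mem x) : Admissible n (Fintype.card ι) := by
  let e := (Fintype.equivFin ι).symm
  refine ⟨fun i => T (e i), fun i => h1 _, fun x hx => ?_⟩
  obtain ⟨i, hi, hu⟩ := h2 x hx
  refine ⟨e.symm i, by simpa using hi, fun k hk => ?_⟩
  rw [← hu _ hk]; simp

lemma adm_one (n : ℕ) : Admissible n 1 := by
  refine ⟨fun _ => ⟨fun _ => 0, 1⟩, fun _ => ⟨one_pos, fun _ => by simp⟩, fun x hx => ?_⟩
  exact ⟨0, fun j => by simpa using hx j, fun k _ => Subsingleton.elim _ _⟩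

lemma adm_add {n k m : ℕ} (hm : 0 < m) (h : Admissible n (k + 1)) :
    Admissible n (k + (m ^ n - 1) + 1) := by
  obtain ⟨T, h1, h2⟩ := h
  have hs := (h1 0).1
  have := adm_of (ι := Fin k ⊕ (Fin n → Fin m)) (Sum.elim (fun i => T i.succ) (sub (T 0) m)) ?_ ?_
  · have e : k + (m ^ n - 1) + 1 = Fintype.card (Fin k ⊕ (Fin n → Fin m)) := by
      have := Nat.one_le_pow n m hm
      simp; omega
    rwa [e]
  · rintro (i | f)
    · exact h1 _
    · have hm' : (0:ℝ) < m := by exact_mod_cast hm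
      refine ⟨by simp only [Sum.elim_inr, sub]; positivity, fun j => ?_⟩
      have a := sub_le (T 0) hs hm f j
      have b := (h1 0).2 j
      simp only [Sum.elim_inr]
      constructor <;> linarith [a.1, a.2, b.1, b.2]
  · intro x hx
    obtain ⟨i, hi, hu⟩ := h2 x hx
    have up : ∀ f, (sub (T 0) m f).Mem x → (T 0).Mem x := by
      intro f hf j
      have a := sub_le (T 0) hs hm f j
      have b := hf j
      constructor <;> linarith [a.1, a.2, b.1, b.2]
    induction i using Fin.cases with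
    | zero =>
      obtain ⟨f, hf, hfu⟩ := sub_uniq (m := m) (T 0) hs hm x hi
      refine ⟨Sum.inr f, hf, ?_⟩
      rintro (i | g) hg
      · exact absurd (hu _ hg) (Fin.succ_ne_zero i)
      · rw [hfu g hg]
    | succ i =>
      refine ⟨Sum.inl i, hi, ?_⟩
      rintro (i' | g) hg
      · rw [Fin.succ_injective _ (hu _ hg)]
      · exact absurd (hu _ (up g hg)).symm (Fin.succ_ne_zero i)

lemma adm_mul {n k m : ℕ} (hm : 0 < m) (t : ℕ) (h : Admissible n (k + 1)) :
    Admissible n (k + (m ^ n - 1) * t + 1) := by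
  induction t with
  | zero => simpa using h
  | succ t ih => 
    have := adm_add hm ih
    rwa [show k + (m ^ n - 1) * t + (m ^ n - 1) = k + (m ^ n - 1) * (t + 1) by ring] at this

lemma adm_sum {n : ℕ} (s : Finset ℕ) (hs : ∀ m ∈ s, 0 < m) (t : ℕ → ℕ) :
    Admissible n (∑ m ∈ s, (m ^ n - 1) * t m + 1) := by
  induction s using Finset.induction with
  | empty => simpa using adm_one n
  | insert a s ha ih =>
    rw [sum_insert ha, add_comm ((a ^ n - 1) * t a)]
    exact adm_mul (hs a (mem_insert_self _ _)) _ (ih fun m hm => hs m (mem_insert_of_mem hm))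

lemma frob {n K : ℕ} (hn : 0 < n)
    (h : ∀ p : ℕ, p.Prime → ∃ m, 2 ≤ m ∧ m ≤ K ∧ ¬ p ∣ m ^ n - 1) (k : ℕ)
    (hk : K * (K ^ n * 2 ^ n) ≤ k) : Admissible n (k + 1) := by
  set a : ℕ := 2 ^ n - 1 with ha
  have a0 : 0 < a := by
    have := Nat.one_lt_two_pow hn.ne'
    omega
  obtain ⟨g, hg⟩ := Finset.gcd_eq_sum_mul (Icc 2 K) (fun m => ((m ^ n - 1 : ℕ) : ℤ))
  have hu : IsUnit ((Icc 2 K).gcd (fun m => ((m ^ n - 1 : ℕ) : ℤ))) := by
    rw [Int.isUnit_iff_natAbs_eq]
    by_contra hne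
    obtain ⟨p, hp, hd⟩ := Nat.exists_prime_and_dvd hne
    obtain ⟨m, m1, m2, m3⟩ := h p hp
    apply m3
    have d1 : (p : ℤ) ∣ (Icc 2 K).gcd (fun m => ((m ^ n - 1 : ℕ) : ℤ)) := Int.natCast_dvd.2 hd
    exact Int.natCast_dvd_natCast.1 (d1.trans (Finset.gcd_dvd (mem_Icc.2 ⟨m1, m2⟩)))
  obtain ⟨v, hv⟩ := hu.exists_right_inv
  let t : ℕ → ℕ := fun m => ((g m * v * k) % a).toNat
  have a0' : (0:ℤ) < a := by exact_mod_cast a0
  have ht : ∀ m, (t m : ℤ) = (g m * v * k) % a := fun m =>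
    Int.toNat_of_nonneg (Int.emod_nonneg _ a0'.ne')
  have ht2 : ∀ m, t m ≤ 2 ^ n := by
    intro m
    have := Int.emod_lt_of_pos (g m * v * k) a0'
    rw [← ht] at this
    have : t m < a := by exact_mod_cast this
    omega
  set T := ∑ m ∈ Icc 2 K, (m ^ n - 1) * t m with hT
  have hTk : T ≤ k := by
    refine le_trans ?_ hk
    calc T ≤ ∑ m ∈ Icc 2 K, K ^ n * 2 ^ n := by
          refine sum_le_sum fun m hm => Nat.mul_le_mul ?_ (ht2 m)
          exact (Nat.sub_le _ _).trans (Nat.pow_le_pow_left (mem_Icc.1 hm).2 n)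
      _ ≤ _ := by
          rw [sum_const, smul_eq_mul, Nat.card_Icc]
          exact Nat.mul_le_mul_right _ (by omega)
  have hdv : (a:ℤ) ∣ (k:ℤ) - T := by
    have e : (k:ℤ) = ∑ m ∈ Icc 2 K, ((m ^ n - 1 : ℕ) : ℤ) * (g m * v * k) := by
      calc (k:ℤ) = (∑ m ∈ Icc 2 K, ((m ^ n - 1 : ℕ) : ℤ) * g m) * v * k := by rw [← hg, hv, one_mul]
        _ = _ := by rw [sum_mul, sum_mul]; exact sum_congr rfl fun m _ => by ring
    rw [hT, Nat.cast_sum]
    nth_rewrite 1 [e]
    rw [← sum_sub_distrib]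
    refine dvd_sum fun m _ => ?_
    rw [Nat.cast_mul, ← mul_sub, ht]
    exact Dvd.dvd.mul_left (Int.dvd_self_sub_of_emod_eq rfl) _
  have hdv' : a ∣ k - T := by
    rw [← Int.natCast_dvd_natCast, Nat.cast_sub hTk]; exact hdv
  obtain ⟨r, hr⟩ := hdv'
  have := adm_mul (n := n) (m := 2) two_pos r (adm_sum (Icc 2 K) (fun m hm => by
    have := (mem_Icc.1 hm).1; omega) t)
  rwa [← hT, ← ha, ← hr, Nat.add_sub_cancel' hTk] at this

end Pool.Agent.H49.Cu
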