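import Mathlib
import Pool.Agent.H49.Cu1

/-! Vinogradov's trick with a bilinear character sum bound. -/

set_option autoImplicit false
open Finset ArithmeticFunction

namespace Pool.Agent.H49.Cu

variable {q : ℕ} [Fact q.Prime]

lemma nrm (ψ : MulChar (ZMod q) ℂ) (x : ZMod q) : ‖ψ x‖ ≤ 1 :=
  DirichletCharacter.norm_le_one ψ x

lemma corr (ψ : MulChar (ZMod q) ℂ) (h : ψ ≠ 1) (b b' : ZMod q) (hb : b ≠ b') :
    ‖∑ a : ZMod q, ψ (a + b) * (starRingEnd ℂ) (ψ (a + b'))‖ ≤ 1 := by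
  have hc : b - b' ≠ 0 := sub_ne_zero.2 hb
  have e : ∑ a : ZMod q, ψ (a + b) * (starRingEnd ℂ) (ψ (a + b')) =
      (ψ (b - b') * ψ⁻¹ (b' - b)) * jacobiSum ψ ψ⁻¹ := by
    rw [jacobiSum, mul_sum]
    symm
    refine Fintype.sum_equiv ((Equiv.mulLeft₀ (b - b') hc).trans (Equiv.subRight b)) _ _ fun x => ?_
    simp only [Equiv.trans_apply, Equiv.mulLeft₀_apply, Equiv.subRight_apply]
    rw [show (b - b') * x - b + b = (b - b') * x by ring,
      show (b - b') * x - b + b' = (b' - b) * (1 - x) by ring, starRingEnd_apply,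
      MulChar.star_apply', map_mul, map_mul]
    ring
  rw [e, jacobiSum_nontrivial_inv h, norm_mul, norm_mul, norm_neg]
  have a1 := nrm ψ (b - b')
  have a2 := nrm ψ⁻¹ (b' - b)
  have a3 := nrm ψ (-1)
  exact mul_le_one₀ (mul_le_one₀ a1 (norm_nonneg _) a2) (norm_nonneg _) a3

lemma castinj {y : ℕ} (hy : y < q) {a b : ℕ} (ha : a ∈ Icc 1 y) (hb : b ∈ Icc 1 y)
    (h : (a : ZMod q) = b) : a = b := by
  have := (ZMod.natCast_eq_natCast_iff' a b q).1 h
  rw [mem_Icc] at ha hb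
  rwa [Nat.mod_eq_of_lt (by omega), Nat.mod_eq_of_lt (by omega)] at this

lemma bil (ψ : MulChar (ZMod q) ℂ) (h : ψ ≠ 1) (y : ℕ) (hy : y < q) :
    ‖∑ a ∈ Icc 1 y, ∑ b ∈ Icc 1 y, ψ ((a + b : ℕ) : ZMod q)‖ ^ 2 ≤ y * (y * (q + y)) := by
  classical
  let g : ZMod q → ℂ := fun z => ∑ b ∈ Icc 1 y, ψ (z + (b : ZMod q))
  have h1 : ‖∑ a ∈ Icc 1 y, ∑ b ∈ Icc 1 y, ψ ((a + b : ℕ) : ZMod q)‖ ≤
      ∑ a ∈ Icc 1 y, ‖g a‖ := by
    refine (norm_sum_le _ _).trans (le_of_eq (sum_congr rfl fun a _ => ?_))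
    simp [g]
  have h2 : (∑ a ∈ Icc 1 y, ‖g a‖) ^ 2 ≤ y * ∑ a ∈ Icc 1 y, ‖g a‖ ^ 2 := by
    have := @sq_sum_le_card_mul_sum_sq ℕ ℝ _ _ _ _ (Icc 1 y) (fun a => ‖g a‖)
    simpa using this
  have h3 : ∑ a ∈ Icc 1 y, ‖g a‖ ^ 2 ≤ ∑ z : ZMod q, ‖g z‖ ^ 2 := by
    rw [← sum_image (s := Icc 1 y) (g := fun a : ℕ => (a : ZMod q)) (f := fun z => ‖g z‖ ^ 2)
      (fun a ha b hb hab => castinj hy ha hb hab)]
    exact sum_le_sum_of_subset_of_nonneg (subset_univ _) fun _ _ _ => by positivity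
  have h4 : ∑ z : ZMod q, ‖g z‖ ^ 2 ≤ y * (q + y) := by
    have e : ((∑ z : ZMod q, ‖g z‖ ^ 2 : ℝ) : ℂ) = ∑ b ∈ Icc 1 y, ∑ b' ∈ Icc 1 y,
        ∑ z : ZMod q, ψ (z + (b : ZMod q)) * (starRingEnd ℂ) (ψ (z + (b' : ZMod q))) := by
      push_cast
      calc ∑ z : ZMod q, (‖g z‖ : ℂ) ^ 2 = ∑ z : ZMod q, ∑ b ∈ Icc 1 y, ∑ b' ∈ Icc 1 y,
            ψ (z + (b : ZMod q)) * (starRingEnd ℂ) (ψ (z + (b' : ZMod q))) := by
            refine sum_congr rfl fun z _ => ?_
            rw [← Complex.mul_conj', map_sum, sum_mul_sum]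
        _ = _ := by
            rw [sum_comm]
            exact sum_congr rfl fun b _ => sum_comm
    calc ∑ z : ZMod q, ‖g z‖ ^ 2 ≤ ‖((∑ z : ZMod q, ‖g z‖ ^ 2 : ℝ) : ℂ)‖ := by
          rw [Complex.norm_real]; exact le_abs_self _
      _ ≤ ∑ b ∈ Icc 1 y, ((q:ℝ) + y) := by
          rw [e]
          refine (norm_sum_le _ _).trans (sum_le_sum fun b hb => (norm_sum_le _ _).trans ?_)
          calc _ ≤ ∑ b' ∈ Icc 1 y, ((if b = b' then (q:ℝ) else 0) + 1) := by
                refine sum_le_sum fun b' hb' => ?_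
                split_ifs with hh
                · refine (norm_sum_le _ _).trans ?_
                  calc _ ≤ ∑ _z : ZMod q, (1:ℝ) := by
                        refine sum_le_sum fun z _ => ?_
                        rw [norm_mul, Complex.norm_conj]
                        exact mul_le_one₀ (nrm _ _) (norm_nonneg _) (nrm _ _)
                    _ ≤ _ := by simp
                · rw [zero_add]
                  exact corr ψ h _ _ fun hc => hh (castinj hy hb hb' hc)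
            _ = _ := by rw [sum_add_distrib, sum_ite_eq, if_pos hb]; simp
      _ = _ := by simp [mul_add]
  calc _ ≤ (∑ a ∈ Icc 1 y, ‖g a‖) ^ 2 := pow_le_pow_left₀ (norm_nonneg _) h1 2
    _ ≤ _ := h2.trans (mul_le_mul_of_nonneg_left (h3.trans h4) (by positivity))

lemma good (ψ : MulChar (ZMod q) ℂ) (K : ℕ) (hK : ∀ p : ℕ, p.Prime → p ≤ K → ψ p = 1) (m : ℕ)
    (h0 : m ≠ 0) (hm : ∀ p : ℕ, p.Prime → p ∣ m → p ≤ K) : ψ m = 1 := by
  induction m using induction_on_primes with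
  | zero => exact absurd rfl h0
  | one => simp
  | prime_mul p a hp ih =>
    rw [Nat.cast_mul, map_mul, hK p hp (hm p hp (dvd_mul_right _ _)), one_mul]
    exact ih (by rintro rfl; simp at h0) fun r hr hd => hm r hr (hd.mul_left _)

lemma cntdiv (a y p : ℕ) (hp : 0 < p) :
    ∑ b ∈ Icc 1 y, (if p ∣ a + b then (1:ℝ) else 0) ≤ y / p + 1 := by
  rw [← sum_filter, sum_const, nsmul_eq_mul, mul_one]
  have h1 : ((Icc 1 y).filter (fun b => p ∣ a + b)).card ≤ (Ioc (a / p) ((a + y) / p)).card := by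
    refine card_le_card_of_injOn (fun b => (a + b) / p) ?_ ?_
    · intro b hb
      simp only [coe_filter, mem_Icc, Set.mem_setOf_eq, coe_Ioc, Set.mem_Ioc] at hb ⊢
      refine ⟨?_, Nat.div_le_div_right (by omega)⟩
      rw [Nat.div_lt_iff_lt_mul hp, Nat.div_mul_cancel hb.2]
      omega
    · intro b hb b' hb' h
      simp only [coe_filter, Set.mem_setOf_eq] at hb hb' h
      have e1 := Nat.div_mul_cancel hb.2
      have e2 := Nat.div_mul_cancel hb'.2
      rw [h] at e1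
      omega
  rw [Nat.card_Ioc] at h1
  have h2 : (a + y) / p ≤ a / p + y / p + 1 := by
    rw [Nat.add_div hp]; split_ifs <;> omega
  have h3 : ((Icc 1 y).filter (fun b => p ∣ a + b)).card ≤ y / p + 1 :=
    h1.trans (Nat.sub_le_iff_le_add'.2 (by rw [← add_assoc]; exact h2))
  calc _ ≤ ((y / p + 1 : ℕ) : ℝ) := by exact_mod_cast h3
    _ ≤ _ := by push_cast; linarith [@Nat.cast_div_le ℝ _ _ _ y p]

lemma lowre (ψ : MulChar (ZMod q) ℂ) (K : ℕ) (hK : ∀ p : ℕ, p.Prime → p ≤ K → ψ p = 1) (y : ℕ) :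
    (y:ℝ) * (y - 2 * ∑ p ∈ (Ioc K (2 * y)).filter Nat.Prime, ((y:ℝ) / p + 1)) ≤
      ‖∑ a ∈ Icc 1 y, ∑ b ∈ Icc 1 y, ψ ((a + b : ℕ) : ZMod q)‖ := by
  refine le_trans ?_ (Complex.re_le_norm _)
  rw [Complex.re_sum]
  calc _ = ∑ _a ∈ Icc 1 y, ((y:ℝ) - 2 * ∑ p ∈ (Ioc K (2 * y)).filter Nat.Prime, ((y:ℝ) / p + 1)) := by
        rw [sum_const, nsmul_eq_mul, Nat.card_Icc, add_tsub_cancel_right]
    _ ≤ _ := by
      refine sum_le_sum fun a ha => ?_
      rw [Complex.re_sum]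
      calc _ ≤ ∑ b ∈ Icc 1 y, (1 - 2 * ∑ p ∈ (Ioc K (2 * y)).filter Nat.Prime,
            (if p ∣ a + b then (1:ℝ) else 0)) := by
            rw [sum_sub_distrib, ← mul_sum, sum_comm]
            have := sum_le_sum (s := (Ioc K (2 * y)).filter Nat.Prime)
              fun p hp => cntdiv a y p (mem_filter.1 hp).2.pos
            simp only [sum_const, Nat.card_Icc, nsmul_eq_mul, mul_one, add_tsub_cancel_right]
            linarith
        _ ≤ _ := by
            refine sum_le_sum fun b hb => ?_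
            rw [mem_Icc] at ha hb
            by_cases hh : ∀ p : ℕ, p.Prime → p ∣ a + b → p ≤ K
            · rw [good ψ K hK _ (by omega) hh]
              have : 0 ≤ ∑ p ∈ (Ioc K (2 * y)).filter Nat.Prime,
                (if p ∣ a + b then (1:ℝ) else 0) := sum_nonneg fun _ _ => by positivity
              simp only [Complex.one_re]
              linarith
            · push Not at hh
              obtain ⟨p, hp, hd, hl⟩ := hh
              have := single_le_sum (s := (Ioc K (2 * y)).filter Nat.Prime)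
                (f := fun p => if p ∣ a + b then (1:ℝ) else 0) (fun _ _ => by positivity)
                (mem_filter.2 ⟨mem_Ioc.2 ⟨hl, (Nat.le_of_dvd (by omega) hd).trans (by omega)⟩, hp⟩)
              simp only [if_pos hd] at this
              have h1 := (abs_le.1 ((Complex.abs_re_le_norm _).trans
                (nrm ψ ((a + b : ℕ) : ZMod q)))).1
              linarith

omit [Fact q.Prime] in
lemma mert2 (L M : ℕ) (hL : 2 ≤ L) (hM : 1 ≤ M) (I : ℕ) :
    ∑ p ∈ (Ioc (L ^ M) (L ^ (M + I))).filter Nat.Prime, (1:ℝ) / p ≤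
      ∑ i ∈ range I, (1:ℝ) / (M + i) + 7 * I / Real.log L := by
  have l0 : 0 < Real.log L := Real.log_pos (by exact_mod_cast hL)
  induction I with
  | zero => simp
  | succ I ih =>
    have m1 : L ^ M ≤ L ^ (M + I) := Nat.pow_le_pow_right (by omega) (by omega)
    have m2 : L ^ (M + I) ≤ L ^ (M + (I + 1)) := Nat.pow_le_pow_right (by omega) (by omega)
    rw [sum_filter] at ih ⊢
    rw [← Finset.sum_Ioc_consecutive _ m1 m2, sum_range_succ]
    have h1 := mlow (L ^ (M + (I + 1))) (Nat.one_le_pow _ _ (by omega))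
    have h1' := mup (L ^ (M + (I + 1))) (Nat.one_le_pow _ _ (by omega))
    have h2 := mlow (L ^ (M + I)) (Nat.one_le_pow _ _ (by omega))
    have h3 := Finset.sum_Ioc_consecutive (fun d : ℕ => Λ d / (d:ℝ)) (Nat.zero_le _) m2
    rw [Nat.cast_pow, Real.log_pow] at h1' h2
    push_cast at h1' h2
    have hM' : (1:ℝ) ≤ M := by exact_mod_cast hM
    have hI : (0:ℝ) ≤ I := by positivity
    have h4 : ((M + I) * Real.log L) * ∑ p ∈ Ioc (L ^ (M + I)) (L ^ (M + (I + 1))),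
        (if p.Prime then (1:ℝ) / p else 0) ≤
        ∑ d ∈ Ioc (L ^ (M + I)) (L ^ (M + (I + 1))), Λ d / (d:ℝ) := by
      rw [mul_sum]
      refine sum_le_sum fun p hp => ?_
      split_ifs with hh
      · rw [vonMangoldt_apply_prime hh, mul_one_div]
        refine div_le_div_of_nonneg_right ?_ (by positivity)
        have : (L:ℝ) ^ (M + I) ≤ p := by exact_mod_cast (mem_Ioc.1 hp).1.le
        have := Real.log_le_log (by positivity) this
        rw [Real.log_pow] at this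
        push_cast at this
        exact this
      · rw [mul_zero]; exact div_nonneg vonMangoldt_nonneg (by positivity)
    have h5 : ∑ p ∈ Ioc (L ^ (M + I)) (L ^ (M + (I + 1))), (if p.Prime then (1:ℝ) / p else 0) ≤
        1 / (M + I) + 7 / Real.log L := by
      have : ((M + I) * Real.log L) * (1 / (M + I) + 7 / Real.log L) = Real.log L + 7 * (M + I) := by
        field_simp
      refine le_of_mul_le_mul_left ?_ (show 0 < ((M:ℝ) + I) * Real.log L by positivity)
      rw [this]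
      nlinarith
    have : 7 * ((I + 1 : ℕ) : ℝ) / Real.log L = 7 * I / Real.log L + 7 / Real.log L := by
      push_cast; ring
    linarith

omit [Fact q.Prime] in
lemma cheb (L K z : ℕ) (hL : 2 ≤ L) (hK : L ≤ K) :
    (((Ioc K z).filter Nat.Prime).card : ℝ) ≤ 2 * z / Real.log L := by
  have l0 : 0 < Real.log L := Real.log_pos (by exact_mod_cast hL)
  rw [le_div_iff₀ l0]
  have h1 := Chebyshev.theta_le_log4_mul_x (x := z) (by positivity)
  rw [Chebyshev.theta, Nat.floor_natCast] at h1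
  have l4 : Real.log 4 ≤ 2 := by
    have : Real.log 4 = 2 * Real.log 2 := by
      rw [show (4:ℝ) = 2 ^ 2 by norm_num, Real.log_pow]; norm_num
    have := Real.log_two_lt_d9
    linarith
  calc _ = ∑ _p ∈ (Ioc K z).filter Nat.Prime, Real.log L := by simp
    _ ≤ ∑ p ∈ (Ioc K z).filter Nat.Prime, Real.log p := by
        refine sum_le_sum fun p hp => Real.log_le_log (by positivity) ?_
        exact_mod_cast hK.trans (mem_Ioc.1 (mem_filter.1 hp).1).1.le
    _ ≤ ∑ p ∈ (Ioc 0 z).filter Nat.Prime, Real.log p := by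
        refine sum_le_sum_of_subset_of_nonneg (filter_subset_filter _ (Ioc_subset_Ioc_left (by omega)))
          fun _ _ _ => Real.log_natCast_nonneg _
    _ ≤ _ := by nlinarith [show (0:ℝ) ≤ z by positivity]

/-- Vinogradov's trick -/
lemma vino (ψ : MulChar (ZMod q) ℂ) (h : ψ ≠ 1) (L M I y : ℕ) (δ : ℝ) (hδ : 0 < δ) (hL : 2 ≤ L)
    (hM : 1 ≤ M) (hS : ∑ i ∈ range I, (1:ℝ) / (M + i) + (7 * I + 4) / Real.log L ≤ 1 / 2 - δ)
    (hK : ∀ p : ℕ, p.Prime → p ≤ L ^ M → ψ p = 1) (hy : y < q) (hx : 2 * y ≤ L ^ (M + I)) :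
    δ ^ 2 * y ^ 2 ≤ q := by
  rcases Nat.eq_zero_or_pos y with rfl | y0
  · simp
  have y0' : (0:ℝ) < y := by exact_mod_cast y0
  have hy' : (y:ℝ) ≤ q := by exact_mod_cast hy.le
  have h1 := bil ψ h y hy
  have h2 := lowre ψ (L ^ M) hK y
  have h3 := mert2 L M hL hM I
  have h4 := cheb L (L ^ M) (2 * y) hL (Nat.le_self_pow (by omega) L)
  have h5 : ∑ p ∈ (Ioc (L ^ M) (2 * y)).filter Nat.Prime, (1:ℝ) / p ≤
      ∑ p ∈ (Ioc (L ^ M) (L ^ (M + I))).filter Nat.Prime, (1:ℝ) / p :=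
    sum_le_sum_of_subset_of_nonneg (filter_subset_filter _ (Ioc_subset_Ioc_right hx))
      fun _ _ _ => by positivity
  have h6 : ∑ p ∈ (Ioc (L ^ M) (2 * y)).filter Nat.Prime, ((y:ℝ) / p + 1) ≤ y * (1 / 2 - δ) := by
    rw [sum_add_distrib, sum_const, nsmul_eq_mul, mul_one]
    have e : ∑ p ∈ (Ioc (L ^ M) (2 * y)).filter Nat.Prime, (y:ℝ) / p =
        y * ∑ p ∈ (Ioc (L ^ M) (2 * y)).filter Nat.Prime, (1:ℝ) / p := by
      rw [mul_sum]; exact sum_congr rfl fun _ _ => by ring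
    have e2 : 2 * ((2 * y : ℕ) : ℝ) / Real.log L = y * (4 / Real.log L) := by push_cast; ring
    have e3 : (7 * (I:ℝ) + 4) / Real.log L = 7 * I / Real.log L + 4 / Real.log L := by ring
    rw [e]
    nlinarith
  have h7 : (y:ℝ) * (2 * δ * y) ≤
      ‖∑ a ∈ Icc 1 y, ∑ b ∈ Icc 1 y, ψ ((a + b : ℕ) : ZMod q)‖ :=
    le_trans (mul_le_mul_of_nonneg_left (by linarith) y0'.le) h2
  have h8 := (pow_le_pow_left₀ (by positivity) h7 2).trans h1
  have h9 : (y:ℝ) ^ 2 * (4 * (δ ^ 2 * y ^ 2)) ≤ (y:ℝ) ^ 2 * (2 * q) := by nlinarith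
  have := le_of_mul_le_mul_left h9 (by positivity)
  nlinarith [show (0:ℝ) ≤ q by positivity]

end Pool.Agent.H49.Cu
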