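import Mathlib

set_option autoImplicit false
open Finset

namespace Pool.Agent.H49.Cv

def chi (q m : ℕ) : ℤ := jacobiSym m q

lemma chi_eq (q : ℕ) [Fact q.Prime] (m : ℕ) : chi q m = quadraticChar (ZMod q) (m : ZMod q) := by
  rw [chi, ← jacobiSym.legendreSym.to_jacobiSym, legendreSym, Int.cast_natCast]

lemma chi_abs (q m : ℕ) : |chi q m| ≤ 1 := by
  rcases jacobiSym.trichotomy m q with h | h | h <;> simp [chi, h]

lemma blocks (F : ℕ → ℤ) (q t : ℕ) :
    ∑ m ∈ range (q * t), F m = ∑ i ∈ range t, ∑ a ∈ range q, F (q * i + a) := by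
  induction t with
  | zero => simp
  | succ t ih => rw [Nat.mul_succ, sum_range_add, ih, sum_range_succ]

lemma inner0 {q r : ℕ} (hq : q.Prime) (hr : r.Prime) (h2 : r ≠ 2) (hne : q ≠ r) (c : ℕ) :
    ∑ i ∈ range r, chi r (c + q * i) = 0 := by
  have := Fact.mk hr
  have q0 : (q : ZMod r) ≠ 0 := by
    rw [Ne, ZMod.natCast_eq_zero_iff, Nat.prime_dvd_prime_iff_eq hr hq]
    exact hne.symm
  rw [← quadraticChar_sum_zero (F := ZMod r) (by rwa [ZMod.ringChar_zmod_n])]
  refine sum_nbij' (fun i => ((c + q * i : ℕ) : ZMod r)) (fun z => ((z - c) * (q : ZMod r)⁻¹).val)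
    (fun _ _ => mem_univ _) (fun z _ => mem_range.2 (ZMod.val_lt _)) (fun i hi => ?_)
    (fun z _ => ?_) (fun i _ => chi_eq r _)
  · have : (((c + q * i : ℕ) : ZMod r) - c) * (q : ZMod r)⁻¹ = i := by push_cast; field_simp; ring
    rw [this, ZMod.val_cast_of_lt (mem_range.1 hi)]
  · push_cast
    rw [ZMod.natCast_zmod_val]
    field_simp; ring

lemma off {q r : ℕ} (hq : q.Prime) (hr : r.Prime) (h2 : r ≠ 2) (hne : q ≠ r) (N : ℕ) :
    ∑ m ∈ range N, chi q m * chi r m ≤ (q * r : ℕ) := by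
  have := Fact.mk hq
  have G : ∀ s, ∑ m ∈ range (q * r), chi q (s + m) * chi r (s + m) = 0 := by
    intro s
    rw [blocks (fun m => chi q (s + m) * chi r (s + m)), sum_comm]
    refine sum_eq_zero fun a _ => ?_
    have e : ∀ i, chi q (s + (q * i + a)) * chi r (s + (q * i + a)) =
        chi q (s + a) * chi r (s + a + q * i) := by
      intro i
      rw [chi_eq, chi_eq q, show s + (q * i + a) = s + a + q * i by ring]
      simp
    simp_rw [e]
    rw [← mul_sum, inner0 hq hr h2 hne, mul_zero]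
  have H : ∀ s t, ∑ m ∈ range (s + q * r * t), chi q m * chi r m =
      ∑ m ∈ range s, chi q m * chi r m := by
    intro s t
    induction t with
    | zero => simp
    | succ t ih => rw [Nat.mul_succ, ← add_assoc, sum_range_add, ih, G, add_zero]
  rw [← Nat.mod_add_div N (q * r), H]
  calc _ ≤ ∑ _m ∈ range (N % (q * r)), (1:ℤ) := by
        refine sum_le_sum fun m _ => (le_abs_self _).trans ?_
        rw [abs_mul]
        exact mul_le_one₀ (chi_abs _ _) (abs_nonneg _) (chi_abs _ _)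
    _ ≤ _ := by
        simp only [sum_const, card_range, nsmul_eq_mul, mul_one]
        exact_mod_cast (Nat.mod_lt N (Nat.mul_pos hq.pos hr.pos)).le

lemma moment (B S : Finset ℕ) (N Q : ℕ) (hB : ∀ q ∈ B, q.Prime ∧ q ≠ 2 ∧ q ≤ Q)
    (hS : S ⊆ range N) (h1 : ∀ m ∈ S, ∀ q ∈ B, chi q m = 1) :
    S.card * B.card ^ 2 ≤ B.card * (N + B.card * Q ^ 2) := by
  have : (S.card : ℤ) * B.card ^ 2 ≤ B.card * (N + B.card * Q ^ 2) := by
    calc (S.card : ℤ) * B.card ^ 2 = ∑ m ∈ S, (∑ q ∈ B, chi q m) ^ 2 := by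
          rw [sum_congr rfl fun m hm => by rw [sum_congr rfl (h1 m hm)]]
          simp
      _ ≤ ∑ m ∈ range N, (∑ q ∈ B, chi q m) ^ 2 :=
          sum_le_sum_of_subset_of_nonneg hS fun _ _ _ => sq_nonneg _
      _ = ∑ q ∈ B, ∑ r ∈ B, ∑ m ∈ range N, chi q m * chi r m := by
          simp_rw [sq, sum_mul_sum]
          rw [sum_comm]
          exact sum_congr rfl fun q _ => sum_comm
      _ ≤ ∑ q ∈ B, ((N:ℤ) + B.card * Q ^ 2) := by
          refine sum_le_sum fun q hq => ?_
          calc _ ≤ ∑ r ∈ B, ((if q = r then (N:ℤ) else 0) + Q ^ 2) := by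
                refine sum_le_sum fun r hr => ?_
                split_ifs with hh
                · calc _ ≤ ∑ _m ∈ range N, (1:ℤ) := by
                        refine sum_le_sum fun m _ => (le_abs_self _).trans ?_
                        rw [abs_mul]
                        exact mul_le_one₀ (chi_abs _ _) (abs_nonneg _) (chi_abs _ _)
                    _ ≤ _ := by simp
                · rw [zero_add]
                  refine (off (hB q hq).1 (hB r hr).1 (hB r hr).2.1 hh N).trans ?_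
                  rw [sq]
                  exact_mod_cast Nat.mul_le_mul (hB q hq).2.2 (hB r hr).2.2
            _ = _ := by rw [sum_add_distrib, sum_ite_eq, if_pos hq]; simp
      _ = _ := by simp [mul_add]
  exact_mod_cast this

lemma pil (x : ℕ) (hx : 6 ≤ x) : (x:ℝ) ≤ 4 * ((Nat.primesLE x).card * Real.log x) := by
  rw [Nat.primesLE_card_eq_primeCounting]
  have h1 := (Chebyshev.psi_ge x).trans (Chebyshev.psi_le_primeCounting_mul_log x)
  have hx' : (6:ℝ) ≤ x := by exact_mod_cast hx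
  have h2 := Real.log_le_sub_one_of_pos (x := ((x:ℝ) + 1) / 16) (by positivity)
  rw [Real.log_div (by positivity) (by norm_num), show (16:ℝ) = 2 ^ 4 by norm_num,
    Real.log_pow] at h2
  have h3 := Real.log_two_gt_d9
  have h4 := Real.log_two_lt_d9
  push_cast at h2
  nlinarith

lemma pil2 (b e : ℕ) (hb : 6 ≤ b) : b ^ e ≤ 4 * (e + 1) * (Nat.primesLE (b ^ (e + 1))).card := by
  have h1 := pil (b ^ (e + 1)) (hb.trans (Nat.le_self_pow (by omega) b))
  have b0 : (0:ℝ) < b := by exact_mod_cast (by omega : 0 < b)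
  have h2 : Real.log b ≤ b := (Real.log_le_sub_one_of_pos b0).trans (by linarith)
  rw [Nat.cast_pow, Real.log_pow, pow_succ] at h1
  push_cast at h1
  have : (b:ℝ) ^ e * b ≤ (4 * (e + 1) * (Nat.primesLE (b ^ (e + 1))).card) * b := by
    refine h1.trans ?_
    have := mul_le_mul_of_nonneg_left h2
      (show (0:ℝ) ≤ 4 * (e + 1) * (Nat.primesLE (b ^ (e + 1))).card by positivity)
    nlinarith
  exact_mod_cast le_of_mul_le_mul_right this b0

def Sm (K j : ℕ) : Finset ℕ := ((Nat.primesLE K).powersetCard j).image (fun T => ∏ p ∈ T, p)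

lemma Sm_mem {K j m : ℕ} (hm : m ∈ Sm K j) : m ≤ K ^ j ∧
    ∀ (q n : ℕ), (∀ p : ℕ, p.Prime → p ≤ K → (p : ZMod q) ^ n = 1) → (m : ZMod q) ^ n = 1 := by
  obtain ⟨T, hT, rfl⟩ := mem_image.1 hm
  obtain ⟨t1, t2⟩ := mem_powersetCard.1 hT
  refine ⟨t2 ▸ prod_le_pow_card _ _ _ fun p hp => (Nat.mem_primesLE.1 (t1 hp)).1, fun q n H => ?_⟩
  rw [Nat.cast_prod, ← prod_pow]
  exact prod_eq_one fun p hp => H p (Nat.mem_primesLE.1 (t1 hp)).2 (Nat.mem_primesLE.1 (t1 hp)).1

lemma Sm_card (k j : ℕ) (hk : 300 ≤ k) (hj : j ≤ k ^ 2) : k ^ (15 * j) ≤ (Sm (k ^ 19) j).card := by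
  rw [Sm, card_image_of_injOn, card_powersetCard]
  · set P := (Nat.primesLE (k ^ 19)).card
    have h1 : k ^ 18 ≤ 4 * (18 + 1) * P := pil2 k 18 (by omega)
    have h2 : 2 * k ^ 17 ≤ P := by
      have : 300 * k ^ 17 ≤ k ^ 18 := by rw [pow_succ' k 17]; exact Nat.mul_le_mul_right _ hk
      omega
    have h3 : j ≤ k ^ 17 := hj.trans (Nat.pow_le_pow_right (by omega) (by omega))
    have h4 : (k ^ 17) ^ j ≤ (P + 1 - j) ^ j := Nat.pow_le_pow_left (by omega) j
    have h5 := Nat.pow_sub_le_descFactorial P j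
    rw [Nat.descFactorial_eq_factorial_mul_choose] at h5
    have h6 : j.factorial ≤ (k ^ 2) ^ j := (Nat.factorial_le_pow j).trans (Nat.pow_le_pow_left hj j)
    have h7 : (k ^ 2) ^ j * k ^ (15 * j) ≤ (k ^ 2) ^ j * P.choose j := by
      calc _ = (k ^ 17) ^ j := by ring
        _ ≤ _ := (h4.trans h5).trans (Nat.mul_le_mul_right _ h6)
    exact Nat.le_of_mul_le_mul_left h7 (by positivity)
  · intro T hT U hU hTU
    have a := Nat.primeFactors_prod (s := T) fun p hp =>
      (Nat.mem_primesLE.1 ((mem_powersetCard.1 hT).1 hp)).2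
    have b := Nat.primeFactors_prod (s := U) fun p hp =>
      (Nat.mem_primesLE.1 ((mem_powersetCard.1 hU).1 hp)).2
    rw [← a, ← b]
    exact congrArg _ hTU

lemma core (k : ℕ) (hk : 300 ≤ k) : ∃ n : ℕ, k ^ k < n ∧
    ∀ q : ℕ, q.Prime → ∃ i ∈ Icc 2 (k ^ 19), ¬ q ∣ i ^ n - 1 := by
  classical
  by_contra hcon
  push Not at hcon
  choose! f hf1 hf2 using hcon
  set u := k ^ k with hu
  have u1 : 300 ≤ u := hk.trans (Nat.le_self_pow (by omega) k)
  have K2 : 2 ≤ k ^ 19 := le_trans (by omega) (Nat.le_self_pow (by omega) k)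
  have root : ∀ n, u < n → ∀ i, 2 ≤ i → i ≤ k ^ 19 → (i : ZMod (f n)) ^ n = 1 := by
    intro n hn i i1 i2
    have := (ZMod.natCast_eq_zero_iff _ _).2 (hf2 n hn i (mem_Icc.2 ⟨i1, i2⟩))
    rw [Nat.cast_sub (Nat.one_le_pow _ _ (by omega))] at this
    push_cast at this
    exact sub_eq_zero.1 this
  let A := (Nat.primesLE (u ^ 14)).filter (u < ·)
  have hA : ∀ n ∈ A, n.Prime ∧ u < n ∧ n ≤ u ^ 14 := fun n hn =>
    ⟨(Nat.mem_primesLE.1 (mem_filter.1 hn).1).2, (mem_filter.1 hn).2,
      (Nat.mem_primesLE.1 (mem_filter.1 hn).1).1⟩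
  have ord : ∀ n ∈ A, orderOf (2 : ZMod (f n)) = n := by
    intro n hn
    obtain ⟨a, b, _⟩ := hA n hn
    have := Fact.mk (hf1 n b)
    have h2 := root n b 2 le_rfl K2
    push_cast at h2
    rcases (Nat.dvd_prime a).1 (orderOf_dvd_of_pow_eq_one h2) with h | h
    · rw [orderOf_eq_one_iff] at h
      exact absurd (by linear_combination h : (1 : ZMod (f n)) = 0) one_ne_zero
    · exact h
  have inj : Set.InjOn f A := fun n hn m hm e => by rw [← ord n hn, ← ord m hm, e]
  have M := moment (A.image f) (Sm (k ^ 19) (3 * k)) (u ^ 57 + 1) (u ^ 19) ?_ ?_ ?_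
  · rw [card_image_of_injOn inj] at M
    have c1 := Sm_card k (3 * k) hk (by nlinarith)
    rw [show k ^ (15 * (3 * k)) = u ^ 45 by rw [hu]; ring] at c1
    have c2 : u ^ 13 ≤ 4 * (13 + 1) * (Nat.primesLE (u ^ 14)).card := pil2 u 13 (by omega)
    have c3 : (Nat.primesLE (u ^ 14)).card ≤ A.card + (u + 1) := by
      rw [← card_range (u + 1)]
      refine (card_le_card fun p hp => ?_).trans (card_union_le _ _)
      by_cases hh : u < p
      · exact mem_union_left _ (mem_filter.2 ⟨hp, hh⟩)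
      · exact mem_union_right _ (mem_range.2 (by omega))
    have c4 : 300 * u ^ 12 ≤ u ^ 13 := by rw [pow_succ' u 12]; exact Nat.mul_le_mul_right _ u1
    have c5 : u * u ≤ u ^ 12 := by rw [← sq]; exact Nat.pow_le_pow_right (by omega) (by omega)
    have c6 : 4 * u ^ 12 < A.card := by nlinarith
    have c7 : u ^ 45 * A.card ≤ u ^ 57 + 1 + A.card * (u ^ 19) ^ 2 := by
      refine Nat.le_of_mul_le_mul_left ?_ (show 0 < A.card from lt_of_le_of_lt (Nat.zero_le _) c6)
      refine le_trans ?_ M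
      calc _ = u ^ 45 * A.card ^ 2 := by ring
        _ ≤ _ := Nat.mul_le_mul_right _ c1
    have c8 : 2 * (u ^ 19) ^ 2 ≤ u ^ 45 := by
      calc _ ≤ u * u ^ 38 := by rw [← pow_mul]; exact Nat.mul_le_mul_right _ (by omega)
        _ = u ^ 39 := by ring
        _ ≤ _ := Nat.pow_le_pow_right (by omega) (by omega)
    have c9 : u ^ 57 = u ^ 45 * u ^ 12 := by ring
    have c10 : 1 ≤ u ^ 57 := Nat.one_le_pow _ _ (by omega)
    have c11 := Nat.mul_le_mul_left A.card c8
    have c12 := Nat.mul_lt_mul_of_pos_left c6 (show 0 < u ^ 45 by positivity)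
    nlinarith
  · intro q hq
    obtain ⟨n, hn, rfl⟩ := mem_image.1 hq
    obtain ⟨a, b, c⟩ := hA n hn
    have := Fact.mk (hf1 n b)
    refine ⟨hf1 n b, fun h2 => ?_, ?_⟩
    · have := root n b (f n) (hf1 n b).two_le (by omega)
      rw [ZMod.natCast_self, zero_pow a.ne_zero] at this
      exact zero_ne_one this
    · by_contra hh
      push Not at hh
      have c1 := Sm_card k k hk (by nlinarith)
      rw [show k ^ (15 * k) = u ^ 15 by rw [hu]; ring] at c1
      have e : (k ^ 19) ^ k = u ^ 19 := by rw [hu]; ring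
      have c2 : (Sm (k ^ 19) k).card ≤ n := by
        refine le_trans (card_le_card_of_injOn
          (t := (Polynomial.nthRoots n (1 : ZMod (f n))).toFinset) (fun m => (m : ZMod (f n))) ?_ ?_)
          ((Multiset.toFinset_card_le _).trans (Polynomial.card_nthRoots n 1))
        · intro m hm
          simp only [mem_coe, Multiset.mem_toFinset]
          exact (Polynomial.mem_nthRoots a.pos).2
            ((Sm_mem hm).2 _ _ fun p hp hl => root n b p hp.two_le hl)
        · intro x hx y hy hxy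
          have := (ZMod.natCast_eq_natCast_iff' x y (f n)).1 hxy
          have x1 := (Sm_mem hx).1
          have y1 := (Sm_mem hy).1
          rwa [Nat.mod_eq_of_lt (by omega), Nat.mod_eq_of_lt (by omega)] at this
      have : u ^ 14 < u ^ 15 := Nat.pow_lt_pow_right (by omega) (by omega)
      omega
  · intro m hm
    have := (Sm_mem hm).1
    rw [show (k ^ 19) ^ (3 * k) = u ^ 57 by rw [hu]; ring] at this
    exact mem_range.2 (by omega)
  · intro m hm q hq
    obtain ⟨n, hn, rfl⟩ := mem_image.1 hq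
    obtain ⟨a, b, c⟩ := hA n hn
    have := Fact.mk (hf1 n b)
    have r := (Sm_mem hm).2 _ _ fun p hp hl => root n b p hp.two_le hl
    obtain ⟨t, ht⟩ := a.odd_of_ne_two (by omega)
    have m0 : (m : ZMod (f n)) ≠ 0 := by
      intro h0; rw [h0, zero_pow a.ne_zero] at r; exact zero_ne_one r
    have e : (m : ZMod (f n)) = ((m : ZMod (f n)) ^ (t + 1)) ^ 2 := by
      rw [← pow_mul, show (t + 1) * 2 = n + 1 by omega, pow_succ, r, one_mul]
    rw [chi_eq, e]
    exact quadraticChar_sq_one' (pow_ne_zero _ m0)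

end Pool.Agent.H49.Cv
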