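import Mathlib

set_option autoImplicit false

namespace Pool.Agent.H49.E122

open Finset Filter Topology

/-- tail of the reciprocal divisor sum -/
noncomputable def tail (y n : ℕ) : ℝ := ∑ d ∈ n.divisors.filter (fun d => y < d), (1 : ℝ) / d

lemma tail_nonneg (y n : ℕ) : 0 ≤ tail y n := by
  unfold tail
  exact Finset.sum_nonneg (fun d _ => by positivity)

lemma sum_tail_le (y N : ℕ) : ∑ n ∈ Ioc 0 N, tail y n ≤ 2 * N / (y + 1) := by
  have h1 : ∀ n ∈ Ioc 0 N, tail y n =
      ∑ d ∈ Ioo y (N + 1), if d ∣ n then (1 : ℝ) / d else 0 := by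
    intro n hn
    rw [mem_Ioc] at hn
    unfold tail
    rw [← Finset.sum_filter]
    apply Finset.sum_congr _ (fun _ _ => rfl)
    ext d
    simp only [mem_filter, Nat.mem_divisors, mem_Ioo]
    constructor
    · rintro ⟨⟨h, _⟩, h2⟩
      exact ⟨⟨h2, by have := Nat.le_of_dvd hn.1 h; omega⟩, h⟩
    · rintro ⟨⟨h, _⟩, h2⟩
      exact ⟨⟨h2, by omega⟩, h⟩
  rw [Finset.sum_congr rfl h1, Finset.sum_comm]
  have h2 : ∀ d ∈ Ioo y (N + 1), (∑ n ∈ Ioc 0 N, if d ∣ n then (1 : ℝ) / d else 0) ≤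
      N * ((d : ℝ) ^ 2)⁻¹ := by
    intro d hd
    rw [mem_Ioo] at hd
    have hd0 : (0 : ℝ) < d := by exact_mod_cast (by omega : 0 < d)
    rw [← Finset.sum_filter, Finset.sum_const, Nat.Ioc_filter_dvd_card_eq_div, nsmul_eq_mul]
    have : ((N / d : ℕ) : ℝ) ≤ N / d := Nat.cast_div_le
    calc ((N / d : ℕ) : ℝ) * (1 / d) ≤ N / d * (1 / d) := by gcongr
      _ = N * ((d : ℝ) ^ 2)⁻¹ := by field_simp
  calc _ ≤ ∑ d ∈ Ioo y (N + 1), (N : ℝ) * ((d : ℝ) ^ 2)⁻¹ := Finset.sum_le_sum h2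
    _ = N * ∑ d ∈ Ioo y (N + 1), ((d : ℝ) ^ 2)⁻¹ := by rw [Finset.mul_sum]
    _ ≤ N * (2 / (y + 1)) := by
        gcongr
        exact sum_Ioo_inv_sq_le y (N + 1)
    _ = 2 * N / (y + 1) := by ring

lemma card_tail_gt (y N : ℕ) (T : ℝ) (hT : 0 < T) :
    (((Ioc 0 N).filter (fun n => T < tail y n)).card : ℝ) ≤ 2 * N / (y + 1) / T := by
  rw [le_div_iff₀ hT]
  calc (((Ioc 0 N).filter (fun n => T < tail y n)).card : ℝ) * T
      = ∑ n ∈ (Ioc 0 N).filter (fun n => T < tail y n), T := by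
        rw [Finset.sum_const, nsmul_eq_mul]
    _ ≤ ∑ n ∈ (Ioc 0 N).filter (fun n => T < tail y n), tail y n :=
        Finset.sum_le_sum (fun n hn => (mem_filter.1 hn).2.le)
    _ ≤ ∑ n ∈ Ioc 0 N, tail y n :=
        Finset.sum_le_sum_of_subset_of_nonneg (filter_subset _ _) (fun n _ _ => tail_nonneg y n)
    _ ≤ _ := sum_tail_le y N

/-- a finite set inside one residue class with small diameter is small -/
lemma card_class_le (S : Finset ℕ) (M : ℕ) (hM : 0 < M) (L : ℝ) (hL : 0 ≤ L)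
    (hmod : ∀ a ∈ S, ∀ b ∈ S, a % M = b % M)
    (hd : ∀ a ∈ S, ∀ b ∈ S, (a : ℝ) - b ≤ L) : (S.card : ℝ) ≤ L / M + 1 := by
  rcases S.eq_empty_or_nonempty with rfl | hne
  · simp only [card_empty, Nat.cast_zero]; positivity
  set m := S.min' hne with hm
  have hmS : m ∈ S := S.min'_mem hne
  have hsub : S ⊆ (range (⌊L / M⌋₊ + 1)).image (fun j => m + M * j) := by
    intro a ha
    have hma : m ≤ a := S.min'_le a ha
    have hdvd : M ∣ a - m := (Nat.modEq_iff_dvd' hma).1 (hmod m hmS a ha)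
    obtain ⟨j, hj⟩ := hdvd
    refine mem_image.2 ⟨j, ?_, by omega⟩
    rw [mem_range, Nat.lt_succ_iff]
    apply Nat.le_floor
    have hM' : (0 : ℝ) < M := by exact_mod_cast hM
    rw [le_div_iff₀ hM']
    have h1 := hd a ha m hmS
    have h2 : (a : ℝ) = m + M * j := by exact_mod_cast (by omega : a = m + M * j)
    nlinarith
  have h1 : S.card ≤ ⌊L / M⌋₊ + 1 := by
    calc S.card ≤ _ := card_le_card hsub
      _ ≤ (range (⌊L / M⌋₊ + 1)).card := card_image_le
      _ = _ := card_range _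
  have h2 : (⌊L / M⌋₊ : ℝ) ≤ L / M := Nat.floor_le (by positivity)
  have h3 : (S.card : ℝ) ≤ ⌊L / M⌋₊ + 1 := by exact_mod_cast h1
  linarith

/-- truncated slope -/
noncomputable def slope (c : ℕ → ℝ) (y n : ℕ) : ℝ :=
  1 + ∑ d ∈ (Ioc 0 y).filter (fun d => d ∣ n), c d / d

lemma slope_mod (c : ℕ → ℝ) (y a b : ℕ) (h : a % y.factorial = b % y.factorial) :
    slope c y a = slope c y b := by
  unfold slope
  congr 1
  apply Finset.sum_congr _ (fun _ _ => rfl)
  ext d
  simp only [mem_filter, mem_Ioc, and_congr_right_iff]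
  intro hd
  have hdv : d ∣ y.factorial := Nat.dvd_factorial hd.1 hd.2
  have : a ≡ b [MOD d] := Nat.ModEq.of_dvd hdv h
  exact this.dvd_iff (dvd_refl d)

lemma approx (c : ℕ → ℝ) (hc : ∀ d, |c d| ≤ 1) (y n : ℕ) (hn : 0 < n) :
    |1 + ∑ d ∈ n.divisors, c d / d - slope c y n| ≤ tail y n := by
  have hsplit := Finset.sum_filter_add_sum_filter_not n.divisors (fun d => y < d)
    (fun d => c d / d)
  have h2 : n.divisors.filter (fun d => ¬ y < d) = (Ioc 0 y).filter (fun d => d ∣ n) := by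
    ext d
    simp only [mem_filter, Nat.mem_divisors, mem_Ioc, not_lt]
    constructor
    · rintro ⟨⟨h, _⟩, h2⟩
      exact ⟨⟨Nat.pos_of_dvd_of_pos h hn, h2⟩, h⟩
    · rintro ⟨⟨_, h⟩, h2⟩
      exact ⟨⟨h2, by omega⟩, h⟩
  rw [h2] at hsplit
  unfold slope tail
  rw [← hsplit]
  have : 1 + (∑ d ∈ n.divisors.filter (fun d => y < d), c d / d +
      ∑ d ∈ (Ioc 0 y).filter (fun d => d ∣ n), c d / d) -
      (1 + ∑ d ∈ (Ioc 0 y).filter (fun d => d ∣ n), c d / d) =
      ∑ d ∈ n.divisors.filter (fun d => y < d), c d / d := by ring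
  rw [this]
  refine (Finset.abs_sum_le_sum_abs _ _).trans (Finset.sum_le_sum (fun d _ => ?_))
  rw [abs_div, Nat.abs_cast]
  gcongr
  exact hc d

theorem key (c : ℕ → ℝ) (hc : ∀ d, |c d| ≤ 1) (f : ℕ → ℝ)
    (hf : ∀ n, 0 < n → f n = n * ∑ d ∈ n.divisors, c d / d) (hf0 : ∀ n, 0 ≤ f n) (h0 : f 0 = 0)
    (k x : ℕ) (hk : 2 ≤ k) (hx : k * (k ^ 2).factorial ≤ x) :
    (Set.ncard {n : ℕ | (x : ℝ) < n + f n ∧ n + f n < x + x / k} : ℝ) ≤ 15 * (x / k) := by
  classical
  set y := k ^ 2 with hy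
  set M := y.factorial with hM
  have hMpos : 0 < M := Nat.factorial_pos _
  have hk' : (2 : ℝ) ≤ k := by exact_mod_cast hk
  have hkpos : (0 : ℝ) < k := by linarith
  have hxk : (M : ℝ) ≤ x / k := by
    rw [le_div_iff₀ hkpos]
    have : ((k * M : ℕ) : ℝ) ≤ x := by exact_mod_cast hx
    push_cast at this
    linarith
  have hx0 : (0 : ℝ) ≤ x := by positivity
  have hxk2 : (x : ℝ) / k ≤ x / 2 := by gcongr
  have hxk0 : (0 : ℝ) ≤ x / k := by positivity
  set T : Finset ℕ := (Ioc 0 (2 * x)).filter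
    (fun n => (x : ℝ) < n + f n ∧ n + f n < x + x / k) with hT
  have hset : {n : ℕ | (x : ℝ) < n + f n ∧ n + f n < x + x / k} = (T : Set ℕ) := by
    ext n
    simp only [hT, Set.mem_ofPred_eq, coe_filter, mem_Ioc]
    constructor
    · intro h
      refine ⟨⟨?_, ?_⟩, h⟩
      · rcases Nat.eq_zero_or_pos n with rfl | h'
        · exfalso
          have := h.1
          simp only [Nat.cast_zero, h0, add_zero] at this
          linarith
        · exact h'
      · have h1 := h.2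
        have h2 := hf0 n
        have : (n : ℝ) ≤ 2 * x := by linarith
        exact_mod_cast this
    · exact fun h => h.2
  rw [hset, Set.ncard_coe_finset]
  set B : Finset ℕ := (Ioc 0 (2 * x)).filter (fun n => (1 : ℝ) / k < tail y n) with hB
  set G : Finset ℕ := T.filter (fun n => tail y n ≤ (1 : ℝ) / k) with hG
  have hTsub : T ⊆ G ∪ B := by
    intro n hn
    by_cases h : tail y n ≤ (1 : ℝ) / k
    · exact mem_union_left _ (mem_filter.2 ⟨hn, h⟩)
    · exact mem_union_right _ (mem_filter.2 ⟨(mem_filter.1 hn).1, not_le.1 h⟩)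
  have hBcard : (B.card : ℝ) ≤ 4 * (x / k) := by
    refine (card_tail_gt y (2 * x) (1 / k) (by positivity)).trans ?_
    have hy' : (y : ℝ) = k ^ 2 := by rw [hy]; push_cast; ring
    rw [hy']
    push_cast
    calc 2 * (2 * (x : ℝ)) / ((k : ℝ) ^ 2 + 1) / (1 / (k : ℝ)) ≤
        2 * (2 * (x : ℝ)) / ((k : ℝ) ^ 2) / (1 / (k : ℝ)) := by
          gcongr
          linarith
      _ = 4 * ((x : ℝ) / k) := by field_simp; ring
  have hgood : ∀ n ∈ G, (1 : ℝ) / 2 ≤ slope c y n ∧
      x - 2 * (x / k) ≤ n * slope c y n ∧ n * slope c y n ≤ x + 3 * (x / k) := by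
    intro n hn
    obtain ⟨hnT, htl⟩ := mem_filter.1 hn
    obtain ⟨hnI, h1, h2⟩ := mem_filter.1 hnT
    rw [mem_Ioc] at hnI
    have hn0 : (0 : ℝ) < n := by exact_mod_cast hnI.1
    have hn2 : (n : ℝ) ≤ 2 * x := by exact_mod_cast hnI.2
    have ha := approx c hc y n hnI.1
    set g := ∑ d ∈ n.divisors, c d / d with hg
    have hfn := hf n hnI.1
    rw [← hg] at hfn
    have hg0 : 0 ≤ g := by
      have := hf0 n
      rw [hfn] at this
      exact nonneg_of_mul_nonneg_right (by linarith) hn0 |> fun h => by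
        by_contra hneg
        push Not at hneg
        nlinarith
    have ha' := abs_le.1 (ha.trans htl)
    have hk1 : (1 : ℝ) / k ≤ 1 / 2 := by gcongr
    have hnk : (n : ℝ) * (1 / k) ≤ 2 * (x / k) := by
      calc (n : ℝ) * (1 / k) ≤ 2 * x * (1 / k) := by gcongr
        _ = 2 * (x / k) := by ring
    rw [hfn] at h1 h2
    refine ⟨by linarith [ha'.2], ?_, ?_⟩
    · have : n * (1 + g - slope c y n) ≤ n * (1 / k) := by gcongr; exact ha'.2
      nlinarith
    · have : n * (-(1 / k)) ≤ n * (1 + g - slope c y n) := by gcongr; exact ha'.1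
      nlinarith
  have hGcard : (G.card : ℝ) ≤ 11 * (x / k) := by
    have hfib : G.card = ∑ a ∈ range M, (G.filter (fun n => n % M = a)).card := by
      apply Finset.card_eq_sum_card_fiberwise
      intro n _
      exact mem_coe.2 (mem_range.2 (Nat.mod_lt _ hMpos))
    have hcl : ∀ a ∈ range M, ((G.filter (fun n => n % M = a)).card : ℝ) ≤
        10 * (x / k) / M + 1 := by
      intro a _
      apply card_class_le _ M hMpos _ (by positivity)
      · intro u hu v hv
        rw [(mem_filter.1 hu).2, (mem_filter.1 hv).2]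
      · intro u hu v hv
        have huv : slope c y u = slope c y v := by
          apply slope_mod
          rw [← hM, (mem_filter.1 hu).2, (mem_filter.1 hv).2]
        obtain ⟨hs, _, hu2⟩ := hgood u (mem_filter.1 hu).1
        obtain ⟨_, hv1, _⟩ := hgood v (mem_filter.1 hv).1
        rw [← huv] at hv1
        by_contra hcon
        push Not at hcon
        nlinarith
    have hM' : (0 : ℝ) < M := by exact_mod_cast hMpos
    calc (G.card : ℝ) = ∑ a ∈ range M, ((G.filter (fun n => n % M = a)).card : ℝ) := by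
          rw [hfib]; push_cast; rfl
      _ ≤ ∑ a ∈ range M, (10 * ((x : ℝ) / k) / M + 1) := Finset.sum_le_sum hcl
      _ = 10 * (x / k) + M := by
          rw [Finset.sum_const, card_range, nsmul_eq_mul]; field_simp
      _ ≤ 11 * (x / k) := by linarith
  have : (T.card : ℝ) ≤ G.card + B.card := by
    have := (card_le_card hTsub).trans (card_union_le G B)
    exact_mod_cast this
  linarith

/-- the slowly growing parameter -/
def K (x : ℕ) : ℕ := Nat.findGreatest (fun k => k * (k ^ 2).factorial ≤ x) x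

lemma K_spec (x : ℕ) : K x * ((K x) ^ 2).factorial ≤ x :=
  Nat.findGreatest_spec (P := fun k => k * (k ^ 2).factorial ≤ x) (Nat.zero_le x) (by simp)

lemma K_tendsto : Tendsto K atTop atTop := by
  rw [tendsto_atTop_atTop]
  intro k
  refine ⟨k * (k ^ 2).factorial, fun x hx => ?_⟩
  apply Nat.le_findGreatest (P := fun k => k * (k ^ 2).factorial ≤ x) _ hx
  calc k = k * 1 := (mul_one k).symm
    _ ≤ k * (k ^ 2).factorial := Nat.mul_le_mul_left _ (Nat.factorial_pos _)
    _ ≤ x := hx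

lemma K_tendsto_real : Tendsto (fun x => (K x : ℝ)) atTop atTop :=
  tendsto_natCast_atTop_atTop.comp K_tendsto

lemma F_tendsto : Tendsto (fun x : ℕ => (x : ℝ) / K x) atTop atTop := by
  refine tendsto_atTop_mono' _ ?_ K_tendsto_real
  filter_upwards [K_tendsto.eventually_ge_atTop 1] with x hx
  have hk : (0 : ℝ) < K x := by exact_mod_cast hx
  rw [le_div_iff₀ hk]
  have h1 := K_spec x
  have h2 : (K x) ^ 2 ≤ ((K x) ^ 2).factorial := Nat.self_le_factorial _
  have h3 : K x * K x ≤ x := by nlinarith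
  exact_mod_cast h3

lemma sigma_eq (n : ℕ) (hn : 0 < n) :
    ((ArithmeticFunction.sigma 1 n : ℕ) : ℝ) = n * ∑ d ∈ n.divisors, (1 : ℝ) / d := by
  rw [ArithmeticFunction.sigma_one_apply, ← Nat.sum_div_divisors n (fun d => d), Finset.mul_sum]
  push_cast
  apply Finset.sum_congr rfl
  intro d hd
  have hdv := Nat.dvd_of_mem_divisors hd
  have hd0 : (d : ℝ) ≠ 0 := by exact_mod_cast (Nat.pos_of_dvd_of_pos hdv hn).ne'
  rw [Nat.cast_div hdv hd0]
  ring

lemma totient_eq (n : ℕ) (hn : 0 < n) :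
    (Nat.totient n : ℝ) =
      n * ∑ d ∈ n.divisors, ((ArithmeticFunction.moebius d : ℤ) : ℝ) / d := by
  have h := (ArithmeticFunction.sum_eq_iff_sum_mul_moebius_eq (R := ℝ)
    (f := fun n => (Nat.totient n : ℝ)) (g := fun n => (n : ℝ))).1
    (fun n _ => by exact_mod_cast Nat.sum_totient n) n hn
  rw [← h, Nat.sum_divisorsAntidiagonal
    (fun a b => ((ArithmeticFunction.moebius a : ℤ) : ℝ) * (b : ℝ)), Finset.mul_sum]
  apply Finset.sum_congr rfl
  intro d hd
  have hdv := Nat.dvd_of_mem_divisors hd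
  have hd0 : (d : ℝ) ≠ 0 := by exact_mod_cast (Nat.pos_of_dvd_of_pos hdv hn).ne'
  rw [Nat.cast_div hdv hd0]
  ring

lemma totient_lower (n : ℕ) (hn : 0 < n) :
    (n : ℝ) ≤ Nat.totient n * Real.exp (2 * tail 0 n) := by
  have h1 : (Nat.totient n : ℝ) = n * ∏ p ∈ n.primeFactors, (1 - (p : ℝ)⁻¹) := by
    have := Nat.totient_eq_mul_prod_factors n
    have h2 := congrArg (fun q : ℚ => (q : ℝ)) this
    push_cast at h2
    exact h2
  have h2 : ∑ p ∈ n.primeFactors, (1 : ℝ) / p ≤ tail 0 n := by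
    unfold tail
    apply Finset.sum_le_sum_of_subset_of_nonneg
    · intro p hp
      rw [mem_filter, Nat.mem_divisors]
      have := Nat.prime_of_mem_primeFactors hp
      exact ⟨⟨Nat.dvd_of_mem_primeFactors hp, hn.ne'⟩, this.pos⟩
    · intro d _ _; positivity
  have h3 : (1 : ℝ) ≤ (∏ p ∈ n.primeFactors, (1 - (p : ℝ)⁻¹)) *
      Real.exp (2 * ∑ p ∈ n.primeFactors, (1 : ℝ) / p) := by
    rw [Finset.mul_sum, Real.exp_sum, ← Finset.prod_mul_distrib]
    apply Finset.one_le_prod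
    intro p hp
    have hp2 : (2 : ℝ) ≤ p := by exact_mod_cast (Nat.prime_of_mem_primeFactors hp).two_le
    have ht : (p : ℝ)⁻¹ ≤ 1 / 2 := by rw [inv_eq_one_div]; gcongr
    have ht0 : (0 : ℝ) ≤ (p : ℝ)⁻¹ := by positivity
    have he := Real.add_one_le_exp (2 * ((1 : ℝ) / p))
    rw [one_div] at he ⊢
    nlinarith
  have hprod : 0 ≤ ∏ p ∈ n.primeFactors, (1 - (p : ℝ)⁻¹) := by
    apply Finset.prod_nonneg
    intro p hp
    have hp2 : (2 : ℝ) ≤ p := by exact_mod_cast (Nat.prime_of_mem_primeFactors hp).two_le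
    have ht : (p : ℝ)⁻¹ ≤ 1 / 2 := by rw [inv_eq_one_div]; gcongr
    linarith
  have hn' : (0 : ℝ) < n := by exact_mod_cast hn
  have h4 : Real.exp (2 * ∑ p ∈ n.primeFactors, (1 : ℝ) / p) ≤ Real.exp (2 * tail 0 n) := by
    apply Real.exp_le_exp.2; linarith
  rw [h1]
  calc (n : ℝ) = n * 1 := (mul_one _).symm
    _ ≤ n * ((∏ p ∈ n.primeFactors, (1 - (p : ℝ)⁻¹)) *
      Real.exp (2 * ∑ p ∈ n.primeFactors, (1 : ℝ) / p)) := by gcongr
    _ ≤ n * ((∏ p ∈ n.primeFactors, (1 - (p : ℝ)⁻¹)) * Real.exp (2 * tail 0 n)) := by gcongr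
    _ = _ := by ring

end Pool.Agent.H49.E122
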