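import Pool.Agent.Lead.Sel.Exo

/- The exotic construction with a free background and Lipschitz dependence on it. -/

set_option autoImplicit false
open Filter Topology ArithmeticFunction

namespace Pool.Agent.H49.Err
open Pool.Agent.Lead.Sel

abbrev AF := ArithmeticFunction ℝ

lemma wt_le {σ M : ℝ} {f : ℕ → ℝ} (h : Nle σ f M) (n : ℕ) : wt σ f n ≤ M :=
  (h.1.le_tsum n fun m _ => wt_nonneg σ f m).trans h.2

lemma summ_pt {σ : ℝ} {F : ℕ → ℕ → ℝ} {m : ℕ → ℝ} (hF : ∀ k, Nle σ (F k) (m k)) (h0 : ∀ k, F k 0 = 0)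
    (hm : Summable m) (n : ℕ) : Summable fun k => |F k n| := by
  rcases Nat.eq_zero_or_pos n with rfl | hn
  · simp [h0, summable_zero]
  · have hn' : (0 : ℝ) < n := by exact_mod_cast hn
    refine Summable.of_nonneg_of_le (fun k => abs_nonneg _) (fun k => ?_)
      (hm.mul_right ((n : ℝ) ^ σ))
    have := wt_le (hF k) n
    rw [wt, Real.rpow_neg hn'.le, ← div_eq_mul_inv, div_le_iff₀ (by positivity)] at this
    exact this

lemma nle_tsum {σ S : ℝ} {F : ℕ → ℕ → ℝ} {m : ℕ → ℝ} (hF : ∀ k, Nle σ (F k) (m k))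
    (h0 : ∀ k, F k 0 = 0) (hm : HasSum m S) : Nle σ (fun n => ∑' k, F k n) S := by
  have hs : Summable fun q : ℕ × ℕ => wt σ (F q.1) q.2 := by
    rw [summable_prod_of_nonneg fun q => wt_nonneg _ _ _]
    exact ⟨fun k => (hF k).1, Summable.of_nonneg_of_le
      (fun k => tsum_nonneg (wt_nonneg _ _)) (fun k => (hF k).2) hm.summable⟩
  have hle : ∀ n, wt σ (fun n => ∑' k, F k n) n ≤ ∑' k, wt σ (F k) n := fun n => by
    simp only [wt]
    rw [tsum_mul_right]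
    refine mul_le_mul_of_nonneg_right ?_ (by positivity)
    exact norm_tsum_le_tsum_norm (f := fun k => F k n) (summ_pt hF h0 hm.summable n)
  have h2 : Summable fun n => ∑' k, wt σ (F k) n := hs.prod_symm.prod
  have h3 := Summable.of_nonneg_of_le (wt_nonneg σ _) hle h2
  refine ⟨h3, (h3.tsum_le_tsum hle h2).trans ?_⟩
  rw [Summable.tsum_comm (f := fun k n => wt σ (F k) n) hs, ← hm.tsum_eq]
  exact hs.prod.tsum_le_tsum (fun k => (hF k).2) hm.summable

lemma nle_div {σ M c : ℝ} {f : ℕ → ℝ} (h : Nle σ f M) (hc : 0 < c) :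
    Nle σ (fun n => f n / c) (M / c) := by
  have e : wt σ (fun n => f n / c) = fun n => wt σ f n / c := by
    funext n; simp only [wt, abs_div, abs_of_pos hc]; ring
  rw [Nle, e, tsum_div_const]
  exact ⟨h.1.div_const c, div_le_div_of_nonneg_right h.2 hc.le⟩

/-- the nonlinear part of the exponential -/
noncomputable def NL (b : AF) : AF := ⟨fun n => ∑' k : ℕ, (b ^ (k + 2)) n / ((k + 2).factorial : ℝ),
  by simp⟩

lemma NL_apply (b : AF) (n : ℕ) : NL b n = ∑' k : ℕ, (b ^ (k + 2)) n / ((k + 2).factorial : ℝ) := rfl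

lemma summ_exp {σ M : ℝ} {b : AF} (h : Nle σ b M) (n : ℕ) :
    Summable fun k : ℕ => (b ^ k) n / (k.factorial : ℝ) :=
  (summ_pt (F := fun k n => (b ^ k) n / (k.factorial : ℝ))
    (fun k => nle_div (h.pow k) (by positivity)) (by simp)
    (Real.summable_pow_div_factorial M) n).of_abs

lemma aexp_eq {σ M : ℝ} {b : AF} (h : Nle σ b M) (n : ℕ) :
    aexp b n = (1 : AF) n + b n + NL b n := by
  rw [aexp, ← (summ_exp h n).sum_add_tsum_nat_add 2, NL_apply]
  simp [Finset.sum_range_succ]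

lemma NL_lip {σ M t : ℝ} {b b' : AF} (h : Nle σ b M) (h' : Nle σ b' M)
    (ht : Nle σ (b - b' : AF) t) (hM : M ≤ 1 / 2) : Nle σ (NL b - NL b' : AF) (2 * M * t) := by
  have M0 := h.nonneg
  have t0 := ht.nonneg
  have := nle_tsum (σ := σ)
    (F := fun k n => (b ^ (k + 2) - b' ^ (k + 2) : AF) n / ((k + 2).factorial : ℝ))
    (m := fun k => M * t * (1 / 2) ^ k) (fun k => by
      refine (nle_div (h.pow_sub h' ht (k + 1)) (by positivity)).mono ?_
      have h3 : ((k + 2 : ℕ) : ℝ) ≤ ((k + 2).factorial : ℝ) := by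
        exact_mod_cast Nat.self_le_factorial _
      have h4 : M ^ k ≤ (1 / 2) ^ k := pow_le_pow_left₀ M0 hM k
      rw [div_le_iff₀ (by positivity)]
      push_cast at h3 ⊢
      calc ((k : ℝ) + 1 + 1) * M ^ (k + 1) * t = M * t * M ^ k * (k + 2) := by ring
        _ ≤ _ := by gcongr) (by simp) (geo_half.mul_left (M * t))
  refine (this.of_le fun n => le_of_eq ?_).mono (le_of_eq (by ring))
  rw [af_sub_apply, NL_apply, NL_apply,
    ← ((summable_nat_add_iff 2).2 (summ_exp h n)).tsum_sub ((summable_nat_add_iff 2).2 (summ_exp h' n))]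
  simp only [af_sub_apply, sub_div]

lemma nle_zero (σ : ℝ) : Nle σ (0 : AF) 0 := by
  have : wt σ (0 : AF) = fun _ => 0 := by funext n; simp [wt]
  rw [Nle, this]; simp [summable_zero]

lemma NL_bound {σ M : ℝ} {b : AF} (h : Nle σ b M) (hM : M ≤ 1 / 2) : Nle σ (NL b) (2 * M * M) := by
  have h0 : NL 0 = 0 := by ext n; simp [NL_apply]
  have := NL_lip h ((nle_zero σ).mono h.nonneg) (by rwa [sub_zero]) hM
  rwa [h0, sub_zero] at this

noncomputable def cm (D : LinData) (h2 : ∀ i, ∀ p ∈ D.N i, 2 ≤ p) (β : X1) : AF :=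
  ⟨D.cmf β, D.cmf_not β (by rintro ⟨i, hi⟩; have := h2 i 0 hi; omega)⟩

lemma cm_sub (D : LinData) (hd : ∀ i j p, p ∈ D.N i → p ∈ D.N j → i = j)
    (h2 : ∀ i, ∀ p ∈ D.N i, 2 ≤ p) (β γ : X1) : cm D h2 β - cm D h2 γ = cm D h2 (β - γ) := by
  ext n
  rw [af_sub_apply]
  show D.cmf β n - D.cmf γ n = D.cmf (β - γ) n
  by_cases h : ∃ i, n ∈ D.N i
  · obtain ⟨i, hi⟩ := h
    rw [D.cmf_mem hd _ hi, D.cmf_mem hd _ hi, D.cmf_mem hd _ hi]
    simp only [lp.coeFn_sub, Pi.sub_apply]; ring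
  · rw [D.cmf_not _ h, D.cmf_not _ h, D.cmf_not _ h, sub_zero]

lemma cm_nle (D : LinData) {σ ε : ℝ} (hd : ∀ i j p, p ∈ D.N i → p ∈ D.N j → i = j)
    (h2 : ∀ i, ∀ p ∈ D.N i, 2 ≤ p) (hw : ∀ i, ∀ p ∈ D.N i, (p : ℝ) ^ (-σ) * D.ρ i ≤ ε) (β : X1) :
    Nle σ (cm D h2 β) (ε * ‖β‖) := by
  set β' : X1 := X1.mk (fun i => |β i|) (by simpa using X1.summable β) with hβ'
  have hs := D.cmf_hasSum hd β' (fun n => (n : ℝ) ^ (-σ)) ε (by
    intro i p hp
    rw [abs_of_nonneg (by positivity)]; exact hw i p hp)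
  have e : (fun n => D.cmf β' n * (n : ℝ) ^ (-σ)) = wt σ (cm D h2 β) := by
    funext n
    show _ = |D.cmf β n| * _
    by_cases h : ∃ i, n ∈ D.N i
    · obtain ⟨i, hi⟩ := h
      rw [D.cmf_mem hd _ hi, D.cmf_mem hd _ hi, abs_div, abs_mul, abs_of_pos (D.ρpos i),
        abs_of_pos (D.card_pos i)]
      simp [hβ']
    · rw [D.cmf_not _ h, D.cmf_not _ h]; simp
  rw [e] at hs
  refine ⟨hs.summable, ?_⟩
  rw [hs.tsum_eq, X1.norm_eq, mul_comm, ← tsum_mul_right]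
  have hb : ∀ i, |D.ρ i * ((∑ p ∈ D.N i, (p : ℝ) ^ (-σ)) / (D.N i).card)| ≤ ε := by
    intro i
    have hc := D.card_pos i
    have hρ := D.ρpos i
    rw [abs_of_nonneg (by positivity), ← mul_div_assoc, div_le_iff₀ hc, Finset.mul_sum]
    calc _ ≤ ∑ p ∈ D.N i, ε := Finset.sum_le_sum fun p hp => by
          rw [mul_comm]; exact hw i p hp
      _ = _ := by simp [mul_comm]
  refine (X1.summable_mul β' _ ε hb).tsum_le_tsum (fun i => ?_) ((X1.summable β).mul_right ε)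
  simp only [hβ', X1.mk_apply]
  exact mul_le_mul_of_nonneg_left (le_trans (le_abs_self _) (hb i)) (abs_nonneg _)

theorem core2 (D : LinData) (σ A ε r : ℝ) (hd : ∀ i j p, p ∈ D.N i → p ∈ D.N j → i = j)
    (h2 : ∀ i, ∀ p ∈ D.N i, 2 ≤ p) (hA : 0 ≤ A) (hε : 0 ≤ ε)
    (hu : ∀ n : ℕ, 1 ≤ n → 0 < D.u n ∧ 16 / (1 + D.u n) ^ 3 ≤ A * (n : ℝ) ^ (-σ))
    (hw : ∀ i, ∀ p ∈ D.N i, (p : ℝ) ^ (-σ) * D.ρ i ≤ ε)
    (hr1 : A * r ≤ 8) (hr2 : r ≤ ε) (hs : ε + 4 * (A * ε ^ 2) ≤ 1 / 6600) :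
    ∃ c : AF → AF, ∀ g : AF, Nle σ g r →
      Nle σ (g + c g : AF) 1 ∧ (∀ n, (¬ ∃ i, n ∈ D.N i) → c g n = 0) ∧
      (∀ i, ∀ p ∈ D.N i, |c g p| ≤ 32 * D.ρ i / (D.N i).card) ∧
      (∀ (f : ℝ → ℝ) (M : ℝ), D.Fix f M → HasSum (fun n => aexp (g + c g) n * f (D.u n)) 0) ∧
      ∀ (g' : AF) (t : ℝ), Nle σ g' r → Nle σ (g - g' : AF) t →
        Nle σ (NL (g + c g) - NL (g' + c g') : AF) (t / 100) := by
  have hR : ∀ n : ℕ, ∃ β : X1, 1 ≤ n → ‖β‖ ≤ 16 / (1 + D.u n) ^ 3 ∧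
      ∀ (f : ℝ → ℝ) (M : ℝ) (hf : D.Fix f M), D.ev hf β = f (D.u n) := by
    intro n
    by_cases hn : 1 ≤ n
    · obtain ⟨β, hβ⟩ := D.repr_pt (D.u n) (hu n hn).1
      exact ⟨β, fun _ => hβ⟩
    · exact ⟨0, fun h => absurd h hn⟩
  choose R hR using hR
  have hR' : ∀ n, 1 ≤ n → ‖R n‖ ≤ A * (n : ℝ) ^ (-σ) := fun n hn => (hR n hn).1.trans (hu n hn).2
  have hR1 : ‖R 1‖ ≤ 16 := by
    refine (hR 1 le_rfl).1.trans ?_
    have := (hu 1 le_rfl).1
    rw [div_le_iff₀ (by positivity)]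
    have : 1 ≤ (1 + D.u 1) ^ 3 := one_le_pow₀ (by linarith)
    linarith
  have hAe : 0 ≤ A * ε ^ 2 := by positivity
  set T : AF → X1 := fun h => ∑' n, h n • R n with hT
  have Tb : ∀ {h : AF} {M : ℝ}, Nle σ h M → ‖T h‖ ≤ A * M := fun h => (T_bound hA hR' h).2
  have Ts : ∀ {h h' : AF} {M M' : ℝ}, Nle σ h M → Nle σ h' M' → T h - T h' = T (h - h') := by
    intro h h' M M' a1 a2
    simp only [hT, af_sub_apply, sub_smul]
    exact ((T_bound hA hR' a1).1.tsum_sub (T_bound hA hR' a2).1).symm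
  set Ψ : AF → X1 → X1 := fun g β => -R 1 - T g - T (NL (g + cm D h2 β)) with hΨ
  have hb : ∀ {g : AF} {β : X1}, Nle σ g r → ‖β‖ ≤ 32 → Nle σ (g + cm D h2 β : AF) (33 * ε) :=
    fun hg hβ => (hg.add (cm_nle D hd h2 hw _)).mono (by nlinarith)
  have hM : 33 * ε ≤ 1 / 2 := by linarith
  have hnl : ∀ {g g' : AF} {β β' : X1} {t : ℝ}, Nle σ g r → Nle σ g' r → ‖β‖ ≤ 32 → ‖β'‖ ≤ 32 →
      Nle σ (g - g' : AF) t → Nle σ (NL (g + cm D h2 β) - NL (g' + cm D h2 β') : AF)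
        (2 * (33 * ε) * (t + ε * ‖β - β'‖)) := by
    intro g g' β β' t a1 a2 a3 a4 a5
    refine NL_lip (hb a1 a3) (hb a2 a4) ?_ hM
    rw [show g + cm D h2 β - (g' + cm D h2 β') = (g - g') + (cm D h2 β - cm D h2 β') by ring,
      cm_sub D hd]
    exact a5.add (cm_nle D hd h2 hw _)
  have hlip : ∀ {g g' : AF} {β β' : X1} {t : ℝ}, Nle σ g r → Nle σ g' r → ‖β‖ ≤ 32 → ‖β'‖ ≤ 32 →
      Nle σ (g - g' : AF) t → ‖Ψ g β - Ψ g' β'‖ ≤ 2 * A * t + 1 / 2 * ‖β - β'‖ := by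
    intro g g' β β' t a1 a2 a3 a4 a5
    have e : Ψ g β - Ψ g' β' = -(T (g - g') + T (NL (g + cm D h2 β) - NL (g' + cm D h2 β'))) := by
      rw [← Ts a1 a2, ← Ts (NL_bound (hb a1 a3) hM) (NL_bound (hb a2 a4) hM)]
      simp only [hΨ]; abel
    rw [e, norm_neg]
    have b1 := Tb a5
    have b2 := Tb (hnl a1 a2 a3 a4 a5)
    have b3 := norm_add_le (T (g - g')) (T (NL (g + cm D h2 β) - NL (g' + cm D h2 β')))
    have b4 := mul_le_mul_of_nonneg_left (by linarith : 66 * ε ≤ 1) (mul_nonneg hA a5.nonneg)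
    have b5 := mul_le_mul_of_nonneg_left (by linarith : 66 * (A * ε ^ 2) ≤ 1 / 2)
      (norm_nonneg (β - β'))
    nlinarith
  have hfix : ∀ g : AF, ∃ β : X1, Nle σ g r → ‖β‖ ≤ 32 ∧ Ψ g β = β := by
    intro g
    by_cases hg : Nle σ g r
    swap
    · exact ⟨0, fun h => absurd h hg⟩
    have hmaps : Set.MapsTo (Ψ g) (Metric.closedBall 0 32) (Metric.closedBall 0 32) := by
      intro β hβ
      rw [mem_closedBall_zero_iff] at hβ ⊢
      have b1 := Tb hg
      have b2 := Tb (NL_bound (hb hg hβ) hM)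
      have b3 := norm_sub_le (-R 1 - T g) (T (NL (g + cm D h2 β)))
      have b4 := norm_sub_le (-R 1) (T g)
      rw [norm_neg] at b4
      simp only [hΨ]
      nlinarith
    have hc : ContractingWith (1 / 2) (hmaps.restrict (Ψ g) _ _) := by
      refine ⟨by norm_num, LipschitzWith.of_dist_le_mul fun β γ => ?_⟩
      have := hlip hg hg (mem_closedBall_zero_iff.1 β.2) (mem_closedBall_zero_iff.1 γ.2)
        (t := 0) (by rw [sub_self]; exact nle_zero σ)
      simpa [Subtype.dist_eq, dist_eq_norm] using this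
    obtain ⟨β, hβ, hfix, -⟩ := ContractingWith.exists_fixedPoint'
      (Metric.isClosed_closedBall.isComplete) hmaps hc (x := 0) (by simp) (edist_ne_top _ _)
    exact ⟨β, fun _ => ⟨mem_closedBall_zero_iff.1 hβ, hfix⟩⟩
  choose B hB using hfix
  refine ⟨fun g => cm D h2 (B g), fun g hg => ⟨(hb hg (hB g hg).1).mono (by linarith),
    fun n hn => D.cmf_not _ hn, fun i p hp => ?_, fun f M hf => ?_, fun g' t hg' ht => ?_⟩⟩
  · show |D.cmf (B g) p| ≤ _
    rw [D.cmf_mem hd _ hp, abs_div, abs_mul, abs_of_pos (D.ρpos i), abs_of_pos (D.card_pos i)]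
    have h3 : |B g i| ≤ 32 := by
      have := lp.norm_apply_le_norm (by norm_num) (B g) i
      rw [Real.norm_eq_abs] at this; linarith [(hB g hg).1]
    exact div_le_div_of_nonneg_right (mul_le_mul_of_nonneg_right h3 (D.ρpos i).le)
      (D.card_pos i).le
  · have hT' : ∀ {h : AF} {M' : ℝ}, Nle σ h M' → HasSum (fun n => h n * f (D.u n)) (D.ev hf (T h)) := by
      intro h M' hh
      refine ((D.ev hf).hasSum (T_bound hA hR' hh).1.hasSum).congr_fun fun n => ?_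
      rcases Nat.eq_zero_or_pos n with rfl | hn
      · simp
      · rw [map_smul, (hR n hn).2 f M hf, smul_eq_mul]
    have e0 : HasSum (fun n => (1 : AF) n * f (D.u n)) (f (D.u 1)) := by
      simpa using hasSum_single (f := fun n => (1 : AF) n * f (D.u n)) 1
        (fun n hn => by simp [ArithmeticFunction.one_apply_ne hn])
    have e2 : HasSum (fun n => D.cmf (B g) n * f (D.u n)) (D.ev hf (B g)) :=
      D.cmf_hasSum hd (B g) (fun n => f (D.u n)) M (by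
        intro i p hp
        exact (mul_le_mul_of_nonneg_left (D.wt2 i p hp) (abs_nonneg _)).trans
          (hf.2.1 _ (D.upos i p hp)))
    have e1 := congrArg (D.ev hf) (hB g hg).2
    simp only [hΨ, map_sub, map_neg, (hR 1 le_rfl).2 f M hf] at e1
    have e3 := ((e0.add (hT' hg)).add e2).add (hT' (NL_bound (hb hg (hB g hg).1) hM))
    rw [show f (D.u 1) + D.ev hf (T g) + D.ev hf (B g) +
      D.ev hf (T (NL (g + cm D h2 (B g)))) = 0 by linarith] at e3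
    refine e3.congr_fun fun n => ?_
    rw [aexp_eq (hb hg (hB g hg).1), ArithmeticFunction.add_apply]
    show (_ + (_ + D.cmf (B g) n) + _) * _ = _
    ring
  · have b1 := hlip hg hg' (hB g hg).1 (hB g' hg').1 ht
    rw [(hB g hg).2, (hB g' hg').2] at b1
    refine (hnl hg hg' (hB g hg).1 (hB g' hg').1 ht).mono ?_
    have b2 : ‖B g - B g'‖ ≤ 4 * A * t := by linarith
    have t0 := ht.nonneg
    calc _ ≤ 2 * (33 * ε) * (t + ε * (4 * A * t)) := by gcongr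
      _ = 66 * (ε + 4 * (A * ε ^ 2)) * t := by ring
      _ ≤ 66 * (1 / 6600) * t := by gcongr
      _ = _ := by ring

end Pool.Agent.H49.Err
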