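import Pool.Agent.H49.Err1

set_option autoImplicit false
open Filter Topology ArithmeticFunction MeasureTheory Set

namespace Pool.Agent.H49.Err
open Pool.Agent.Lead.Sel

theorem exo2 (K : ℝ → ℝ) (C0 : ℝ) (hK : Continuous K) (hC : 0 < C0)
    (hlip : ∀ r r' : ℝ, 0 ≤ r → 0 ≤ r' → |K r - K r'| ≤ C0 * |r - r'|)
    (L : ℕ) (hL : 1 ≤ L) (d : ℝ) (hd : 8 * (L : ℝ) ≤ d) (P : ℕ → Finset ℕ) (J0 : ℕ)
    (hP : ∀ j, J0 ≤ j → (P j).Nonempty ∧ ∀ p ∈ P j, j ^ L < p ∧ p ≤ (j + 1) ^ L) :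
    ∃ κ : ℝ, 0 < κ ∧ ∃ r : ℝ, 0 < r ∧ r ≤ 1 ∧ ∃ c : AF → AF, ∀ g : AF, Nle (3 / d) g r →
      Nle (3 / d) (g + c g : AF) 1 ∧
      (∀ n, c g n ≠ 0 → ∃ j, J0 ≤ j ∧ n ∈ P j ∧
        |c g n| ≤ 256 * (n : ℝ) ^ (3 / d) / (P j).card) ∧
      (∀ (f : ℝ → ℝ) (M : ℝ), Continuous f → (∀ x, 0 < x → |f x| * (1 + x) ^ 3 ≤ M) →
        (∀ x, 0 < x → f x = ∫ ξ in Ioi (0 : ℝ), K (x * ξ) * f ξ) →
        HasSum (fun n : ℕ => aexp (g + c g) n * f (κ * (n : ℝ) ^ (1 / d))) 0) ∧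
      ∀ (g' : AF) (t : ℝ), Nle (3 / d) g' r → Nle (3 / d) (g - g' : AF) t →
        Nle (3 / d) (NL (g + c g) - NL (g' + c g') : AF) (t / 100) := by
  have hL' : (1 : ℝ) ≤ L := by exact_mod_cast hL
  have hd0 : 0 < d := by linarith
  set β : ℝ := L / d with hβ
  have hβ0 : 0 < β := by positivity
  have hβ1 : β ≤ 1 / 8 := by rw [hβ, div_le_iff₀ hd0]; linarith
  set δ : ℝ := min 1 (1 / (32 * C0)) with hδ
  have hδ0 : 0 < δ := lt_min one_pos (by positivity)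
  have hδ1 : δ ≤ 1 := min_le_left _ _
  have hδ2 : C0 * (16 * δ) ≤ 1 / 2 := by
    have : δ ≤ 1 / (32 * C0) := min_le_right _ _
    rw [le_div_iff₀ (by positivity)] at this; linarith
  set q : ℝ := (1 + 1 / δ) ^ 3 with hq
  have hq1 : 1 ≤ q := one_le_pow₀ (by have : 0 < 1 / δ := by positivity
                                      linarith)
  have hT : ∀ γ : ℝ, 0 < γ → Tendsto (fun J : ℕ => (J : ℝ) ^ γ) atTop atTop := fun γ hγ =>
    (tendsto_rpow_atTop hγ).comp tendsto_natCast_atTop_atTop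
  obtain ⟨J, hJ0, hJ1, hJ2, hJ3⟩ : ∃ J : ℕ, J0 ≤ J ∧ 1 ≤ J ∧ 27 / (16 * δ) ≤ (J : ℝ) ^ (1 / 2 : ℝ) ∧
      2048 * q ^ 2 ≤ (J : ℝ) ^ β :=
    ((eventually_ge_atTop J0).and ((eventually_ge_atTop 1).and
      (((hT _ (by norm_num)).eventually_ge_atTop _).and ((hT _ hβ0).eventually_ge_atTop _)))).exists
  have hJr : (1 : ℝ) ≤ J := by exact_mod_cast hJ1
  set κ : ℝ := δ / (J : ℝ) ^ β with hκ
  have hκ0 : 0 < κ := by positivity
  have hκs : κ ≤ 1 / (2048 * q ^ 2) := by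
    rw [hκ]; exact div_le_div₀ zero_le_one hδ1 (by positivity) hJ3
  have hκ1 : κ ≤ 1 := hκs.trans (by rw [div_le_one (by positivity)]; nlinarith)
  have hκ3 : κ ^ 3 * (2048 * q ^ 2) ≤ 1 := by
    rw [le_div_iff₀ (by positivity)] at hκs
    have : κ ^ 2 ≤ 1 := pow_le_one₀ hκ0.le hκ1
    calc κ ^ 3 * (2048 * q ^ 2) = κ ^ 2 * (κ * (2048 * q ^ 2)) := by ring
      _ ≤ 1 * 1 := by gcongr
      _ = 1 := by ring
  have hJ2' : 27 ≤ 16 * δ * (J : ℝ) ^ (1 / 2 : ℝ) := by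
    rw [div_le_iff₀ (by positivity)] at hJ2; linarith
  have hnode : ∀ i, ∀ p ∈ P (J + i), κ * ((J + i : ℕ) : ℝ) ^ β < κ * (p : ℝ) ^ (1 / d) ∧
      κ * (p : ℝ) ^ (1 / d) ≤ κ * (((J + i : ℕ) : ℝ) + 1) ^ β := by
    intro i p hp
    have h := (hP (J + i) (by omega)).2 p hp
    have h' := node_spec hd0 h.1 h.2
    exact ⟨mul_lt_mul_of_pos_left h'.1 hκ0, mul_le_mul_of_nonneg_left h'.2 hκ0.le⟩
  have hUδ : ∀ i : ℕ, δ ≤ κ * ((J + i : ℕ) : ℝ) ^ β := by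
    intro i
    calc δ = κ * (J : ℝ) ^ β := by rw [hκ]; field_simp
      _ ≤ _ := by gcongr; omega
  have hnear : ∀ x, 0 < x → ∀ p ∈ P (J + widx κ β J x),
      |x - κ * (p : ℝ) ^ (1 / d)| * (1 + x) ^ 3 ≤ 16 * δ ∧
      (1 + x) ^ 3 ≤ 8 * (1 + κ * ((J + widx κ β J x : ℕ) : ℝ) ^ β) ^ 3 := by
    intro x hx p hp
    obtain ⟨h1, h2⟩ := widx_spec hκ0 hβ0 J hx
    refine near_aux hδ0 hδ1 hβ0 hβ1 hJ1 (Nat.le_add_right _ _) hJ2' hx h1 ?_ (hnode _ p hp).1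
      (hnode _ p hp).2
    rcases h2 with h | ⟨h, h'⟩
    · exact Or.inl h
    · exact Or.inr ⟨by omega, h'⟩
  let D : LinData :=
    { K := K, C0 := C0, η := 16 * δ, idx := widx κ β J, N := fun i => P (J + i),
      u := fun n => κ * (n : ℝ) ^ (1 / d), ρ := fun i => (1 + κ * ((J + i : ℕ) : ℝ) ^ β) ^ 3,
      contK := hK, C0pos := hC, lip := hlip, small := hδ2, midx := widx_meas _ _ _,
      ne := fun i => (hP (J + i) (by omega)).1,
      upos := fun i p hp => lt_of_le_of_lt (by positivity) (hnode i p hp).1,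
      ρpos := fun i => by positivity,
      near := fun x hx p hp => (hnear x hx p hp).1,
      wt1 := fun x hx => by
        obtain ⟨p, hp⟩ := (hP (J + widx κ β J x) (by omega)).1
        exact (hnear x hx p hp).2,
      wt2 := fun i p hp => by
        have := (hnode i p hp).1
        show (1 + κ * ((J + i : ℕ) : ℝ) ^ β) ^ 3 ≤ (1 + κ * (p : ℝ) ^ (1 / d)) ^ 3
        gcongr }
  have hcube : ∀ n : ℕ, ((n : ℝ) ^ (1 / d)) ^ 3 = (n : ℝ) ^ (3 / d) := by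
    intro n
    rw [← Real.rpow_natCast, ← Real.rpow_mul (by positivity)]; congr 1; push_cast; ring
  have hp1 : ∀ i, ∀ p ∈ P (J + i), 2 ≤ p := by
    intro i p hp
    have h := ((hP (J + i) (by omega)).2 p hp).1
    have : 1 ≤ (J + i) ^ L := Nat.one_le_pow _ _ (by omega)
    omega
  obtain ⟨c, hc⟩ := core2 D (3 / d) (16 / κ ^ 3) (κ ^ 3 * q) (κ ^ 3 / 2)
    (by
      intro i j p hi hj
      have h1 := (hP (J + i) (by omega)).2 p hi
      have h2 := (hP (J + j) (by omega)).2 p hj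
      have h3 : J + i < J + j + 1 := lt_of_pow_lt_pow_left₀ L (by omega) (h1.1.trans_le h2.2)
      have h4 : J + j < J + i + 1 := lt_of_pow_lt_pow_left₀ L (by omega) (h2.1.trans_le h1.2)
      omega)
    hp1 (by positivity) (by positivity)
    (by
      intro n hn
      have hn' : (0 : ℝ) < n := by exact_mod_cast hn
      refine ⟨by show 0 < κ * (n : ℝ) ^ (1 / d); positivity, ?_⟩
      show 16 / (1 + κ * (n : ℝ) ^ (1 / d)) ^ 3 ≤ _
      rw [Real.rpow_neg hn'.le, ← hcube]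
      calc 16 / (1 + κ * (n : ℝ) ^ (1 / d)) ^ 3 ≤ 16 / (κ * (n : ℝ) ^ (1 / d)) ^ 3 := by
            gcongr; linarith
        _ = _ := by field_simp)
    (by
      intro i p hp
      have hp' : (0 : ℝ) < p := by have := hp1 i p hp; positivity
      show (p : ℝ) ^ (-(3 / d)) * (1 + κ * ((J + i : ℕ) : ℝ) ^ β) ^ 3 ≤ _
      rw [Real.rpow_neg hp'.le, ← hcube]
      have h1 := (hnode i p hp).1
      have h2 := hUδ i
      set U := κ * ((J + i : ℕ) : ℝ) ^ β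
      have h3 : 1 + U ≤ (1 + 1 / δ) * (κ * (p : ℝ) ^ (1 / d)) := by
        have : 1 ≤ 1 / δ * U := by rw [one_div, le_inv_mul_iff₀ hδ0]; linarith
        have h4 : 0 < 1 / δ := by positivity
        nlinarith
      have hU0 : 0 < U := by linarith
      calc (((p : ℝ) ^ (1 / d)) ^ 3)⁻¹ * (1 + U) ^ 3
          ≤ (((p : ℝ) ^ (1 / d)) ^ 3)⁻¹ * ((1 + 1 / δ) * (κ * (p : ℝ) ^ (1 / d))) ^ 3 := by gcongr
        _ = _ := by rw [hq]; field_simp)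
    (le_of_eq (by field_simp; norm_num))
    (by
      have : 0 < κ ^ 3 := by positivity
      nlinarith)
    (by
      have h1 : κ * (2048 * q ^ 2) ≤ 1 := by rwa [le_div_iff₀ (by positivity)] at hκs
      have h2 : κ ≤ 1 / 2048 := by nlinarith [one_le_pow₀ hq1 (n := 2)]
      have h3 : κ ^ 2 ≤ (1 / 2048) ^ 2 := by gcongr
      have h4 : q ≤ q ^ 2 := by nlinarith
      calc κ ^ 3 * q + 4 * (16 / κ ^ 3 * (κ ^ 3 * q) ^ 2) = κ ^ 3 * q + 64 * (κ ^ 3 * q ^ 2) := by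
            field_simp; ring
        _ ≤ κ ^ 3 * q ^ 2 + 64 * (κ ^ 3 * q ^ 2) := by gcongr
        _ = 65 / 2048 * κ ^ 2 * (κ * (2048 * q ^ 2)) := by ring
        _ ≤ 65 / 2048 * (1 / 2048) ^ 2 * 1 := by gcongr
        _ ≤ _ := by norm_num)
  refine ⟨κ, hκ0, κ ^ 3 / 2, by positivity, by linarith [pow_le_one₀ hκ0.le hκ1 (n := 3)], c,
    fun g hg => ?_⟩
  obtain ⟨hc1, hc3, hc4, hc5, hc6⟩ := hc g hg
  refine ⟨hc1, ?_, fun f M h1 h2 h3 => hc5 f M ⟨h1, h2, h3⟩, hc6⟩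
  intro n hn
  have : ∃ i, n ∈ D.N i := by by_contra h; exact hn (hc3 n h)
  obtain ⟨i, hi⟩ := this
  refine ⟨J + i, by omega, hi, (hc4 i n hi).trans ?_⟩
  show 32 * (1 + κ * ((J + i : ℕ) : ℝ) ^ β) ^ 3 / ((P (J + i)).card : ℝ) ≤ _
  refine div_le_div_of_nonneg_right ?_ (by positivity)
  have h1 := (hnode i n hi).1
  have h2 : 1 ≤ (n : ℝ) ^ (1 / d) :=
    Real.one_le_rpow (by have := hp1 i n hi; exact_mod_cast (by omega : 1 ≤ n)) (by positivity)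
  have h3 : 1 + κ * ((J + i : ℕ) : ℝ) ^ β ≤ 2 * (n : ℝ) ^ (1 / d) := by nlinarith
  rw [← hcube]
  calc 32 * (1 + κ * ((J + i : ℕ) : ℝ) ^ β) ^ 3 ≤ 32 * (2 * (n : ℝ) ^ (1 / d)) ^ 3 := by gcongr
    _ = _ := by ring

theorem theta_of {e ν : ℝ} {m : ℕ} {K : ℝ → ℝ} {C0 : ℝ} (hK : Continuous K) (hC : 0 < C0)
    (hlip : ∀ r r' : ℝ, 0 ≤ r → 0 ≤ r' → |K r - K r'| ≤ C0 * |r - r'|)
    (hint : ∀ t x : ℝ, 0 < t → 0 < x → ∫ ξ in Ioi (0 : ℝ), K (x * ξ) * psi e ν m t ξ =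
      t ^ (-((m : ℝ) + 1 / 2)) * psi e ν m t⁻¹ x) {d κ : ℝ} {a : ℕ → ℝ} (ha : a 0 = 0)
    (h4 : ∀ (f : ℝ → ℝ) (M : ℝ), Continuous f → (∀ x, 0 < x → |f x| * (1 + x) ^ 3 ≤ M) →
        (∀ x, 0 < x → f x = ∫ ξ in Ioi (0 : ℝ), K (x * ξ) * f ξ) →
        HasSum (fun n : ℕ => a n * f (κ * (n : ℝ) ^ (1 / d))) 0) :
    Theta e ν m d κ (fun n => a n * (n : ℝ) ^ (1 / 2 - 1 / (2 * d))) := by
  intro t ht
  obtain ⟨M1, hM1⟩ := psi_bd e ν m ht
  obtain ⟨M2, hM2⟩ := psi_bd e ν m (inv_pos.2 ht)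
  set α : ℝ := (m : ℝ) + 1 / 2 with hα
  have hta : 0 < t ^ (-α) := by positivity
  have hc1 := psi_cont e ν m t
  have hc2 := psi_cont e ν m t⁻¹
  have h5 := h4 (fun x => psi e ν m t x + t ^ (-α) * psi e ν m t⁻¹ x) (M1 + t ^ (-α) * M2)
    (by fun_prop)
    (by
      intro x hx
      have := hM1 x hx
      have h6 := mul_le_mul_of_nonneg_left (hM2 x hx) hta.le
      calc _ ≤ (|psi e ν m t x| + t ^ (-α) * |psi e ν m t⁻¹ x|) * (1 + x) ^ 3 := by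
            gcongr
            refine (abs_add_le _ _).trans ?_
            rw [abs_mul, abs_of_pos hta]
        _ ≤ _ := by nlinarith)
    (by
      intro x hx
      have i1 := int_ker hK hC hlip hc1 hM1 hx
      have i2 := int_ker hK hC hlip hc2 hM2 hx
      have e1 : ∀ ξ, K (x * ξ) * (psi e ν m t ξ + t ^ (-α) * psi e ν m t⁻¹ ξ) =
          K (x * ξ) * psi e ν m t ξ + t ^ (-α) * (K (x * ξ) * psi e ν m t⁻¹ ξ) := by
        intro ξ; ring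
      simp_rw [e1]
      rw [integral_add i1 (i2.const_mul _), integral_const_mul, hint t x ht hx,
        hint t⁻¹ x (inv_pos.2 ht) hx, inv_inv, Real.inv_rpow ht.le, ← mul_assoc,
        mul_inv_cancel₀ hta.ne']
      ring)
  rw [← h5.tsum_eq]
  congr 1; funext n
  rcases Nat.eq_zero_or_pos n with rfl | hn
  · simp [ha]
  · have hn' : (0 : ℝ) < n := by exact_mod_cast hn
    rw [Real.rpow_neg hn'.le]
    have : (n : ℝ) ^ (1 / 2 - 1 / (2 * d)) ≠ 0 := by positivity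
    field_simp

end Pool.Agent.H49.Err
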