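import Pool.Agent.H49.Err2
import Pool.Agent.H49.ErrDefs
import Pool.Agent.H49.SelA

set_option autoImplicit false
open Filter Topology ArithmeticFunction MeasureTheory Set

namespace Pool.Agent.H49.Err
open Pool.Agent.Lead.Sel

def W (M i : ℕ) : Finset ℕ := (Finset.Ioc (i ^ M) ((i + 1) ^ M)).filter Nat.Prime

lemma W_mem {M i n : ℕ} (h : n ∈ W M i) : i ^ M < n ∧ n ≤ (i + 1) ^ M ∧ n.Prime :=
  ⟨(Finset.mem_Ioc.1 (Finset.mem_filter.1 h).1).1, (Finset.mem_Ioc.1 (Finset.mem_filter.1 h).1).2,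
    (Finset.mem_filter.1 h).2⟩

lemma W_uniq {M i j n : ℕ} (hi : n ∈ W M i) (hj : n ∈ W M j) : i = j := by
  have h1 := W_mem hi
  have h2 := W_mem hj
  have h3 : i < j + 1 := lt_of_pow_lt_pow_left₀ M (by omega) (h1.1.trans_le h2.2.1)
  have h4 : j < i + 1 := lt_of_pow_lt_pow_left₀ M (by omega) (h2.1.trans_le h1.2.1)
  omega

lemma bound58 (hH : HOH) : ∃ M0 : ℕ, 1 ≤ M0 ∧ ∀ M, M0 ≤ M → ∃ I0 : ℕ, ∀ i, I0 ≤ i →
    (0 : ℝ) < (W M i).card ∧ ∀ n ∈ W M i, ∀ σ : ℝ, σ ≤ 1 / 16 →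
      256 * (n : ℝ) ^ σ / (W M i).card ≤ (n : ℝ) ^ (-(5 / 8 : ℝ)) := by
  obtain ⟨L0, hH⟩ := hH
  refine ⟨L0 + 1, by omega, fun L hL => ?_⟩
  obtain ⟨J, hJ⟩ := hH L (by omega)
  have hT : Tendsto (fun J : ℕ => (J : ℝ) ^ (1 / 16 : ℝ)) atTop atTop :=
    (tendsto_rpow_atTop (by norm_num)).comp tendsto_natCast_atTop_atTop
  obtain ⟨J1, hJ1⟩ := eventually_atTop.1 (hT.eventually_ge_atTop (256 * 2 ^ L))
  refine ⟨J + J1 + 1, fun j hj => ?_⟩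
  have hcard : (0 : ℝ) < (W L j).card := by
    refine lt_of_lt_of_le ?_ (hJ j (by omega))
    have : (0 : ℝ) < j := by exact_mod_cast (by omega : 0 < j)
    positivity
  refine ⟨hcard, fun n hn σ h3d => ?_⟩
  obtain ⟨hn1, hn2, -⟩ := W_mem hn
  have hjn : j ≤ n := le_trans (Nat.le_self_pow (by omega) j) hn1.le
  have hn0 : (1 : ℝ) ≤ n := by exact_mod_cast (by omega : 1 ≤ n)
  have hnpos : (0 : ℝ) < n := by linarith
  have h5 : (n : ℝ) ≤ 2 ^ L * (j : ℝ) ^ L := by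
    rw [← mul_pow]
    have : (n : ℝ) ≤ ((j : ℝ) + 1) ^ L := by exact_mod_cast hn2
    refine this.trans ?_
    have : (1 : ℝ) ≤ j := by exact_mod_cast (by omega : 1 ≤ j)
    gcongr; linarith
  have h6 : (n : ℝ) ^ (3 / 4 : ℝ) ≤ 2 ^ L * (W L j).card := by
    calc (n : ℝ) ^ (3 / 4 : ℝ) ≤ (2 ^ L * (j : ℝ) ^ L) ^ (3 / 4 : ℝ) := by gcongr
      _ = ((2 : ℝ) ^ L) ^ (3 / 4 : ℝ) * ((j : ℝ) ^ L) ^ (3 / 4 : ℝ) :=
          Real.mul_rpow (by positivity) (by positivity)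
      _ ≤ 2 ^ L * (W L j).card := by
          refine mul_le_mul ?_ (hJ j (by omega)) (by positivity) (by positivity)
          calc ((2 : ℝ) ^ L) ^ (3 / 4 : ℝ) ≤ ((2 : ℝ) ^ L) ^ (1 : ℝ) :=
                Real.rpow_le_rpow_of_exponent_le (one_le_pow₀ (by norm_num)) (by norm_num)
            _ = _ := Real.rpow_one _
  have h7 : 256 * 2 ^ L ≤ (n : ℝ) ^ (1 / 16 : ℝ) := hJ1 n (by omega)
  rw [div_le_iff₀ hcard]
  have h8 : (n : ℝ) ^ σ ≤ (n : ℝ) ^ (1 / 16 : ℝ) := Real.rpow_le_rpow_of_exponent_le hn0 h3d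
  have h9 : (n : ℝ) ^ (1 / 16 : ℝ) * (n : ℝ) ^ (1 / 16 : ℝ) =
      (n : ℝ) ^ (-(5 / 8 : ℝ)) * (n : ℝ) ^ (3 / 4 : ℝ) := by
    rw [← Real.rpow_add hnpos, ← Real.rpow_add hnpos]; norm_num
  have h10 : (0 : ℝ) < 2 ^ L := by positivity
  refine le_of_mul_le_mul_left ?_ h10
  calc 2 ^ L * (256 * (n : ℝ) ^ σ) = (256 * 2 ^ L) * (n : ℝ) ^ σ := by ring
    _ ≤ (n : ℝ) ^ (1 / 16 : ℝ) * (n : ℝ) ^ (1 / 16 : ℝ) := by gcongr
    _ ≤ (n : ℝ) ^ (-(5 / 8 : ℝ)) * (2 ^ L * (W L j).card) := by rw [h9]; gcongr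
    _ = _ := by ring

theorem mem_of (hmel : MEL) {b : AF} {d κ : ℝ} {m : ℕ} (hd : 48 ≤ d) (hm : d ≤ m) (hκ : 0 < κ)
    (hc0 : ∀ n, ¬ n.Prime → b n = 0) (hcb : ∀ n : ℕ, |b n| ≤ (n : ℝ) ^ (-(5 / 8 : ℝ)))
    (h1 : Nle (3 / d) b 1)
    (hθ : Theta 0 (-1) m d κ (fun n => aexp b n * (n : ℝ) ^ (1 / 2 - 1 / (2 * d)))) :
    ∃ G : ℂ → ℂ, Differentiable ℂ G ∧
      SelDeg (fun n => ((aexp b n * (n : ℝ) ^ (1 / 2 - 1 / (2 * d)) : ℝ) : ℂ)) G d := by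
  have hd0 : 0 < d := by linarith
  set γ : ℝ := 1 / 2 - 1 / (2 * d) with hγ
  have hγ1 : γ ≤ 1 / 2 := by have : 0 < 1 / (2 * d) := by positivity
                             linarith
  have h3d : 3 / d ≤ 1 / 16 := by rw [div_le_iff₀ hd0]; linarith
  have hcγ : ∀ n : ℕ, |b n| ≤ (n : ℝ) ^ (-γ) := by
    intro n
    rcases Nat.eq_zero_or_pos n with rfl | hn
    · simp; positivity
    · exact (hcb n).trans (Real.rpow_le_rpow_of_exponent_le (by exact_mod_cast hn) (by linarith))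
  have key : ∀ {v : ℝ} {n : ℕ}, 1 ≤ n → |v| ≤ (n : ℝ) ^ (-γ) →
      ‖((v * (n : ℝ) ^ γ : ℝ) : ℂ)‖ ≤ 1 := by
    intro v n hn hv
    have hn' : (0 : ℝ) < n := by exact_mod_cast hn
    rw [Complex.norm_real, Real.norm_eq_abs, abs_mul, abs_of_pos (by positivity : 0 < (n : ℝ) ^ γ)]
    calc _ ≤ (n : ℝ) ^ (-γ) * (n : ℝ) ^ γ := by gcongr
      _ = 1 := by rw [← Real.rpow_add hn']; simp
  have sa := summ_shift (γ := γ) (τ := 5 / 8) (aexp_zero b) (aexp_summable h1) (by linarith)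
  have sb := summ_shift (γ := γ) (τ := 5 / 8) b.map_zero h1.1 (by linarith)
  obtain ⟨Φ, G, Q, hQ, g1, g2, g3, f1, f2, f3⟩ := Sel.pack hmel 0 (-1) m d κ _ (5 / 8)
    _ _ rfl rfl (by linarith) (by linarith) hκ (by simp [aexp_zero]) (by norm_num) (by norm_num) sa hθ
  have g4 : ∀ s : ℂ, 1 < s.re → G s = LSeries (fun n => ((aexp b n * (n : ℝ) ^ γ : ℝ) : ℂ)) s :=
    fun s hs => by rw [g3 s (by linarith)]; simp
  refine ⟨G, g1, fun s hs => ⟨(Sel.lseries_bdd sa (by linarith)).1, g4 s hs⟩,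
    ⟨0, G, g1, g2.finite_order, fun s _ => by simp⟩,
    ⟨Q, 1, fun _ => d / 2, fun _ => ((m : ℝ) / 2 + 1 / 4 - d / 4 : ℝ), -1, _, hQ,
      fun _ => by linarith, fun _ => by rw [Complex.ofReal_re]; linarith, by simp,
      by simp; ring, fun s => rfl, ?_⟩,
    fun ε hε => ⟨1, fun n hn => (key hn (aexp_bound hc0 hcγ n)).trans (by
      rw [one_mul]; exact Real.one_le_rpow (by exact_mod_cast hn) hε.le)⟩,
    by simp [aexp_one (hc0 1 Nat.not_prime_one)],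
    fun n => ((b n * (n : ℝ) ^ γ : ℝ) : ℂ), 0, 1, by norm_num,
    fun n hn => by simp [hc0 n fun h => hn h.isPrimePow],
    fun n hn => by simpa using key hn (hcγ n),
    fun s hs => ⟨(Sel.lseries_bdd sb (by linarith)).1, ?_⟩⟩
  · filter_upwards [Sel.fe_codiscrete (by linarith : 0 < d / 2) (by linarith) f1 f2 f3] with s hs
    simpa using hs
  · rw [g4 s hs, lseries_shift (aexp_zero b), lseries_shift b.map_zero]
    refine aexp_series h1 _ ?_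
    simp only [Complex.sub_re, Complex.ofReal_re]; linarith

/-- the family of members of the Selberg class indexed by a background -/
theorem fam (hker : KER0) (hmel : MEL) {M I0 : ℕ} (hM : 1 ≤ M)
    (hW : ∀ i, I0 ≤ i → (0 : ℝ) < (W M i).card ∧ ∀ n ∈ W M i, ∀ σ : ℝ, σ ≤ 1 / 16 →
      256 * (n : ℝ) ^ σ / (W M i).card ≤ (n : ℝ) ^ (-(5 / 8 : ℝ)))
    (d : ℕ) (hd : 16 * M + 48 ≤ d) :
    ∃ r : ℝ, 0 < r ∧ r ≤ 1 ∧ ∃ b : AF → AF, ∀ g : AF, Nle (3 / d) g r → Nle (3 / d) (b g) 1 ∧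
      (∀ n, (∀ j, n ∉ W M (j ^ 2)) → b g n = g n) ∧
      (∀ (g' : AF) (t : ℝ), Nle (3 / d) g' r → Nle (3 / d) (g - g' : AF) t →
        Nle (3 / d) (NL (b g) - NL (b g') : AF) (t / 100)) ∧
      ((∀ n, g n ≠ 0 → ∃ i, I0 ≤ i ∧ (∀ j, i ≠ j ^ 2) ∧ n ∈ W M i ∧
          |g n| ≤ 256 * (n : ℝ) ^ (3 / d : ℝ) / (W M i).card) →
        ∃ G : ℂ → ℂ, Differentiable ℂ G ∧ SelDeg
          (fun n => ((aexp (b g) n * (n : ℝ) ^ (1 / 2 - 1 / (2 * d) : ℝ) : ℝ) : ℂ)) G d) := by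
  obtain ⟨K, C0, hK, hC, hlip, hint⟩ := hker d
  have hd' : 16 * (M : ℝ) + 48 ≤ d := by exact_mod_cast hd
  have hM0 : (0 : ℝ) ≤ M := Nat.cast_nonneg M
  have hsq : ∀ j, I0 ≤ j → I0 ≤ j ^ 2 := fun j hj => hj.trans (Nat.le_self_pow two_ne_zero j)
  obtain ⟨κ, hκ, r, r0, r1, c, hc⟩ := exo2 K C0 hK hC hlip (2 * M) (by omega) d
    (by push_cast; linarith) (fun j => W M (j ^ 2)) (I0 + 1) (fun j hj => ⟨Finset.card_pos.1 (by
      exact_mod_cast (hW _ (hsq j (by omega))).1), fun p hp => by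
        obtain ⟨h1, h2, -⟩ := W_mem hp
        rw [pow_mul, pow_mul]
        exact ⟨h1, h2.trans (Nat.pow_le_pow_left (by nlinarith) M)⟩⟩)
  refine ⟨r, r0, r1, fun g => g + c g, fun g hg => ?_⟩
  obtain ⟨h1, h2, h3, h4⟩ := hc g hg
  have h5 : ∀ n, (∀ j, n ∉ W M (j ^ 2)) → (g + c g) n = g n := fun n hn => by
    rw [ArithmeticFunction.add_apply, add_eq_left]
    by_contra h
    obtain ⟨j, -, hj, -⟩ := h2 n h
    exact hn j hj
  refine ⟨h1, h5, h4, fun hg2 => ?_⟩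
  have h3d : (3 / d : ℝ) ≤ 1 / 16 := by rw [div_le_iff₀ (by linarith)]; linarith
  have h6 : ∀ n, (g + c g) n ≠ 0 → n.Prime ∧ |(g + c g) n| ≤ (n : ℝ) ^ (-(5 / 8 : ℝ)) := by
    intro n hn
    by_cases hgn : g n = 0
    · rw [ArithmeticFunction.add_apply, hgn, zero_add] at hn ⊢
      obtain ⟨j, hj, a1, a2⟩ := h2 n hn
      exact ⟨(W_mem a1).2.2, a2.trans ((hW _ (hsq j (by omega))).2 n a1 _ h3d)⟩
    · obtain ⟨i, hi, a0, a1, a2⟩ := hg2 n hgn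
      rw [h5 n fun j hj => a0 j (W_uniq a1 hj)]
      exact ⟨(W_mem a1).2.2, a2.trans ((hW _ hi).2 n a1 _ h3d)⟩
  refine mem_of hmel (m := d) (by linarith) le_rfl hκ
    (fun n hn => by by_contra h; exact hn (h6 n h).1) (fun n => ?_) h1
    (theta_of hK hC hlip hint (aexp_zero _) h3)
  by_cases h : (g + c g) n = 0
  · rw [h, abs_zero]; positivity
  · exact (h6 n h).2

end Pool.Agent.H49.Err
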