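import Pool.Agent.H49.Err3

set_option autoImplicit false
open Filter Topology ArithmeticFunction Set

namespace Pool.Agent.H49.Err
open Pool.Agent.Lead.Sel

noncomputable def bump (M i : ℕ) (μ : ℝ) : AF :=
  ⟨fun n => if n ∈ W M i then μ / (W M i).card else 0, by simp [W, Nat.not_prime_zero]⟩

lemma bump_apply (M i : ℕ) (μ : ℝ) (n : ℕ) :
    bump M i μ n = if n ∈ W M i then μ / (W M i).card else 0 := rfl

lemma nle_bump {M i : ℕ} {σ ρ μ : ℝ} (hρ : 0 ≤ ρ) (hμ : 0 ≤ μ) (h : ∀ n ∈ W M i, μ ≤ (n : ℝ) ^ σ) :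
    Nle σ (bump M i (ρ * μ)) ρ := by
  have hs : HasSum (wt σ (bump M i (ρ * μ))) (∑ n ∈ W M i, wt σ (bump M i (ρ * μ)) n) :=
    hasSum_sum_of_ne_finset_zero fun n hn => by simp [wt, bump_apply, hn]
  refine ⟨hs.summable, hs.tsum_eq.le.trans ?_⟩
  calc _ ≤ ∑ _n ∈ W M i, ρ / (W M i).card := by
        refine Finset.sum_le_sum fun n hn => ?_
        have hn' : (0 : ℝ) < n := by exact_mod_cast (W_mem hn).2.2.pos
        rw [wt, bump_apply, if_pos hn, abs_of_nonneg (by positivity), Real.rpow_neg hn'.le,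
          div_mul_eq_mul_div, mul_assoc, ← div_eq_mul_inv]
        exact div_le_div_of_nonneg_right (mul_le_of_le_one_right hρ
          (div_le_one_of_le₀ (h n hn) (by positivity))) (by positivity)
    _ ≤ ρ := by
        rw [Finset.sum_const, nsmul_eq_mul, mul_div_assoc', mul_comm, mul_div_assoc]
        exact mul_le_of_le_one_right hρ (div_self_le_one _)

lemma bump_sum {M i x y : ℕ} {μ γ : ℝ} (hμ : 0 ≤ μ) (hγ : 0 ≤ γ) (hc : (0 : ℝ) < (W M i).card)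
    (h1 : x ≤ i ^ M) : (y ≤ i ^ M → ∑ n ∈ Finset.Ioc x y, bump M i μ n * (n : ℝ) ^ γ = 0) ∧
    ((i + 1) ^ M ≤ y → ∑ n ∈ Finset.Ioc x y, bump M i μ n * (n : ℝ) ^ γ =
      ∑ n ∈ W M i, μ / (W M i).card * (n : ℝ) ^ γ) ∧
    μ * (x : ℝ) ^ γ ≤ ∑ n ∈ W M i, μ / (W M i).card * (n : ℝ) ^ γ := by
  refine ⟨fun h => Finset.sum_eq_zero fun n hn => ?_, fun h => ?_, ?_⟩
  · rw [bump_apply, if_neg, zero_mul]
    intro h2
    have := (W_mem h2).1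
    have := (Finset.mem_Ioc.1 hn).2
    omega
  · simp only [bump_apply, ite_mul, zero_mul]
    rw [← Finset.sum_filter]
    congr 1
    ext n
    simp only [Finset.mem_filter, Finset.mem_Ioc, and_iff_right_iff_imp]
    intro h2
    have := W_mem h2
    omega
  · calc _ = ∑ _n ∈ W M i, μ / (W M i).card * (x : ℝ) ^ γ := by
          rw [Finset.sum_const, nsmul_eq_mul]; field_simp
      _ ≤ _ := Finset.sum_le_sum fun n hn => by
          have : (x : ℝ) ≤ n := by exact_mod_cast h1.trans (W_mem hn).1.le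
          gcongr

/-- the lower end of the range -/
def lo (M t : ℕ) : ℕ := (t ^ 2 + 1) ^ M

def hi (M t : ℕ) : ℕ := (t ^ 2 + 6) ^ M

noncomputable def ee (M : ℕ) (σ ρ : ℝ) (t : ℕ) : AF :=
  bump M (t ^ 2 + 2) (ρ * (lo M t : ℝ) ^ σ) + bump M (t ^ 2 + 4) (ρ * (lo M t : ℝ) ^ σ)

lemma pw {M a b : ℕ} (h : a ≤ b) : a ^ M ≤ b ^ M := Nat.pow_le_pow_left h M

lemma lo_le {M t i n : ℕ} {σ : ℝ} (hσ : 0 ≤ σ) (h : t ^ 2 + 1 ≤ i) (hn : n ∈ W M i) :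
    (lo M t : ℝ) ^ σ ≤ (n : ℝ) ^ σ := by
  have : (lo M t : ℝ) ≤ n := by exact_mod_cast (pw h).trans (W_mem hn).1.le
  gcongr

lemma nle_ee (M t : ℕ) {σ ρ : ℝ} (hσ : 0 ≤ σ) (hρ : 0 ≤ ρ) : Nle σ (ee M σ ρ t) (2 * ρ) := by
  rw [two_mul]
  exact (nle_bump hρ (by positivity) fun n hn => lo_le hσ (by omega) hn).add
    (nle_bump hρ (by positivity) fun n hn => lo_le hσ (by omega) hn)

lemma ee_supp {M t n : ℕ} {σ ρ : ℝ} (hσ : 0 ≤ σ) (hρ : 0 ≤ ρ) (hρ1 : ρ ≤ 1)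
    (h : ee M σ ρ t n ≠ 0) : ∃ i, (i = t ^ 2 + 2 ∨ i = t ^ 2 + 4) ∧ n ∈ W M i ∧
      |ee M σ ρ t n| ≤ 256 * (n : ℝ) ^ σ / (W M i).card := by
  have key : ∀ i, t ^ 2 + 1 ≤ i → n ∈ W M i →
      |ρ * (lo M t : ℝ) ^ σ / (W M i).card| ≤ 256 * (n : ℝ) ^ σ / (W M i).card := by
    intro i h1 h2
    rw [abs_of_nonneg (by positivity)]
    have := lo_le hσ h1 h2
    gcongr
    linarith
  rw [ee, ArithmeticFunction.add_apply, bump_apply, bump_apply] at h ⊢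
  by_cases h1 : n ∈ W M (t ^ 2 + 2)
  · have h2 : n ∉ W M (t ^ 2 + 4) := fun h2 => by have := W_uniq h1 h2; omega
    rw [if_pos h1, if_neg h2, add_zero]
    exact ⟨_, Or.inl rfl, h1, key _ (by omega) h1⟩
  · have h2 : n ∈ W M (t ^ 2 + 4) := by by_contra h2; simp [h1, h2] at h
    rw [if_pos h2, if_neg h1, zero_add]
    exact ⟨_, Or.inr rfl, h2, key _ (by omega) h2⟩

lemma ee_rng {M t n : ℕ} {σ ρ : ℝ} (hσ : 0 ≤ σ) (hρ : 0 ≤ ρ) (hρ1 : ρ ≤ 1)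
    (h : ee M σ ρ t n ≠ 0) : lo M t < n ∧ n ≤ hi M t := by
  obtain ⟨i, h1, h2, -⟩ := ee_supp hσ hρ hρ1 h
  have := W_mem h2
  exact ⟨(pw (by omega)).trans_lt this.1, this.2.1.trans (pw (by omega))⟩

lemma rng_uniq {M t s n : ℕ} (ht : 3 ≤ t) (hs : 3 ≤ s) (h1 : lo M t < n ∧ n ≤ hi M t)
    (h2 : lo M s < n ∧ n ≤ hi M s) : t = s := by
  have a1 := lt_of_pow_lt_pow_left₀ M (by omega) (h1.1.trans_le h2.2)
  have a2 := lt_of_pow_lt_pow_left₀ M (by omega) (h2.1.trans_le h1.2)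
  rcases lt_trichotomy t s with h | h | h
  · nlinarith
  · exact h
  · nlinarith

lemma rng_not {M t n : ℕ} (ht : 3 ≤ t) (h1 : lo M t < n ∧ n ≤ hi M t) (j : ℕ) :
    n ∉ W M (j ^ 2) := by
  intro h
  have h2 := W_mem h
  have a1 := lt_of_pow_lt_pow_left₀ M (by omega) (h1.1.trans_le h2.2.1)
  have a2 := lt_of_pow_lt_pow_left₀ M (by omega) (h2.1.trans_le h1.2)
  rcases le_or_gt j t with h | h <;> nlinarith

lemma exists_seq {Φ : ℕ → AF → AF → ℕ → Prop} (e1 e2 : ℕ → ℕ → AF)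
    (h : ∀ k G1 G2, ∀ᶠ τ in atTop, Φ k G1 G2 τ) : ∃ t : ℕ → ℕ, StrictMono t ∧
      ∀ k, Φ k (∑ i ∈ Finset.range k, e1 i (t i)) (∑ i ∈ Finset.range k, e2 i (t i)) (t k) := by
  choose nxt h1 h2 using fun k G1 G2 (τ : ℕ) => ((eventually_gt_atTop τ).and (h k G1 G2)).exists
  let s : ℕ → AF × AF × ℕ := fun k => Nat.rec (0, 0, 0) (fun k s =>
    (s.1 + e1 k (nxt k s.1 s.2.1 s.2.2), s.2.1 + e2 k (nxt k s.1 s.2.1 s.2.2),
      nxt k s.1 s.2.1 s.2.2)) k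
  have hs : ∀ k, (s k).1 = ∑ i ∈ Finset.range k, e1 i (s (i + 1)).2.2 ∧
      (s k).2.1 = ∑ i ∈ Finset.range k, e2 i (s (i + 1)).2.2 := by
    intro k
    induction k with
    | zero => exact ⟨rfl, rfl⟩
    | succ k ih => rw [Finset.sum_range_succ, Finset.sum_range_succ, ← ih.1, ← ih.2]; exact ⟨rfl, rfl⟩
  refine ⟨fun k => (s (k + 1)).2.2, strictMono_nat_of_lt_succ fun k => h1 _ _ _ _, fun k => ?_⟩
  rw [← (hs k).1, ← (hs k).2]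
  exact h2 _ _ _ _

lemma tail_small {σ C η : ℝ} {h : ℕ → ℝ} (hh : Nle σ h C) (hη : 0 < η) {M : ℕ} (hM : 1 ≤ M) :
    ∀ᶠ t in atTop, ∀ y, ∑ n ∈ Finset.Ioc (lo M t) y, wt σ h n ≤ η := by
  obtain ⟨s, hs⟩ := summable_iff_vanishing_norm.1 hh.1 η hη
  filter_upwards [eventually_ge_atTop (s.sup id)] with t ht y
  refine (le_abs_self _).trans (hs _ (Finset.disjoint_left.2 fun n hn hn' => ?_)).le
  have a1 : n ≤ s.sup id := Finset.le_sup (f := id) hn'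
  have a2 : t ^ 2 + 1 ≤ lo M t := Nat.le_self_pow (by omega) _
  have a3 := (Finset.mem_Ioc.1 hn).1
  nlinarith

lemma sum_wt {σ γ : ℝ} {h : ℕ → ℝ} {x y z : ℕ} (hβ : 0 ≤ σ + γ) (hy : y ≤ z) :
    |∑ n ∈ Finset.Ioc x y, h n * (n : ℝ) ^ γ| ≤
      (∑ n ∈ Finset.Ioc x y, wt σ h n) * (z : ℝ) ^ (σ + γ) := by
  rw [Finset.sum_mul]
  refine (Finset.abs_sum_le_sum_abs _ _).trans (Finset.sum_le_sum fun n hn => ?_)
  have a1 := Finset.mem_Ioc.1 hn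
  have hn' : (0 : ℝ) < n := by exact_mod_cast (by omega : 0 < n)
  have a2 : (n : ℝ) ≤ z := by exact_mod_cast a1.2.trans hy
  rw [abs_mul, abs_of_pos (by positivity : 0 < (n : ℝ) ^ γ), wt, mul_assoc]
  refine mul_le_mul_of_nonneg_left ?_ (abs_nonneg _)
  calc (n : ℝ) ^ γ = (n : ℝ) ^ (-σ) * (n : ℝ) ^ (σ + γ) := by rw [← Real.rpow_add hn']; simp
    _ ≤ _ := by gcongr

/-- three levels -/
lemma stair {M t : ℕ} {σ γ ρ : ℝ} {a h1 h2 : ℕ → ℝ} (hσ : 0 ≤ σ) (hγ : 0 ≤ γ) (hβ : σ + γ ≤ 1)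
    (hρ : 0 ≤ ρ) (c1 : (0 : ℝ) < (W M (t ^ 2 + 2)).card) (c2 : (0 : ℝ) < (W M (t ^ 2 + 4)).card)
    (ha : ∀ n, lo M t < n → n ≤ hi M t → a n = (ee M σ ρ t n + h1 n + h2 n) * (n : ℝ) ^ γ)
    (b1 : ∀ y, ∑ n ∈ Finset.Ioc (lo M t) y, wt σ h1 n ≤ ρ / 100) (b2 : Nle σ h2 (4 * ρ / 100))
    (hh : hi M t ≤ 2 * lo M t) :
    ∃ l : ℕ → ℝ, l 0 + ρ * (lo M t : ℝ) ^ (σ + γ) ≤ l 1 ∧ l 1 + ρ * (lo M t : ℝ) ^ (σ + γ) ≤ l 2 ∧
      ∀ s, s ≤ 2 → ∀ y, (t ^ 2 + 1 + 2 * s) ^ M ≤ y → y ≤ (t ^ 2 + 1 + 2 * s + 1) ^ M →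
        |∑ n ∈ Finset.Icc 1 y, a n - l s| ≤ ρ * (lo M t : ℝ) ^ (σ + γ) / 10 := by
  have l0 : (0 : ℝ) < lo M t := by unfold lo; positivity
  have hμ : 0 ≤ ρ * (lo M t : ℝ) ^ σ := by positivity
  have e0 : ρ * (lo M t : ℝ) ^ (σ + γ) = ρ * (lo M t : ℝ) ^ σ * (lo M t : ℝ) ^ γ := by
    rw [Real.rpow_add l0, mul_assoc]
  have p1 := fun y => bump_sum (x := lo M t) (y := y) hμ hγ c1 (pw (by omega))
  have p2 := fun y => bump_sum (x := lo M t) (y := y) hμ hγ c2 (pw (by omega))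
  set J1 := ∑ n ∈ W M (t ^ 2 + 2), ρ * (lo M t : ℝ) ^ σ / (W M (t ^ 2 + 2)).card * (n : ℝ) ^ γ
  set J2 := ∑ n ∈ W M (t ^ 2 + 4), ρ * (lo M t : ℝ) ^ σ / (W M (t ^ 2 + 4)).card * (n : ℝ) ^ γ
  set A := ∑ n ∈ Finset.Ioc 0 (lo M t), a n
  have key : ∀ y, lo M t ≤ y → y ≤ hi M t → |∑ n ∈ Finset.Icc 1 y, a n - (A +
      (∑ n ∈ Finset.Ioc (lo M t) y, bump M (t ^ 2 + 2) (ρ * (lo M t : ℝ) ^ σ) n * (n : ℝ) ^ γ) +
      ∑ n ∈ Finset.Ioc (lo M t) y, bump M (t ^ 2 + 4) (ρ * (lo M t : ℝ) ^ σ) n * (n : ℝ) ^ γ)| ≤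
      ρ * (lo M t : ℝ) ^ (σ + γ) / 10 := by
    intro y y1 y2
    have q1 := sum_wt (σ := σ) (γ := γ) (h := h1) (x := lo M t) (by linarith) y2
    have q2 := sum_wt (σ := σ) (γ := γ) (h := h2) (x := lo M t) (by linarith) y2
    have q3 : ∑ n ∈ Finset.Ioc (lo M t) y, wt σ h2 n ≤ 4 * ρ / 100 :=
      (b2.1.sum_le_tsum _ fun n _ => wt_nonneg _ _ _).trans b2.2
    have q4 : (hi M t : ℝ) ^ (σ + γ) ≤ 2 * (lo M t : ℝ) ^ (σ + γ) := by
      have : (hi M t : ℝ) ≤ 2 * lo M t := by exact_mod_cast hh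
      calc _ ≤ (2 * lo M t : ℝ) ^ (σ + γ) := by gcongr
        _ = 2 ^ (σ + γ) * (lo M t : ℝ) ^ (σ + γ) := Real.mul_rpow (by norm_num) l0.le
        _ ≤ 2 ^ (1 : ℝ) * (lo M t : ℝ) ^ (σ + γ) := by gcongr; norm_num
        _ = _ := by rw [Real.rpow_one]
    have q5 := q1.trans (mul_le_mul (b1 y) q4 (by positivity) (by positivity))
    have q6 := q2.trans (mul_le_mul q3 q4 (by positivity) (by positivity))
    rw [show Finset.Icc 1 y = Finset.Ioc 0 y from rfl,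
      ← Finset.sum_Ioc_consecutive _ (Nat.zero_le _) y1,
      Finset.sum_congr rfl fun n hn => ha n (Finset.mem_Ioc.1 hn).1 ((Finset.mem_Ioc.1 hn).2.trans y2)]
    simp only [ee, ArithmeticFunction.add_apply, add_mul, Finset.sum_add_distrib]
    rw [abs_le] at q5 q6 ⊢
    constructor <;> linarith [q5.1, q5.2, q6.1, q6.2]
  refine ⟨fun s => if s = 0 then A else if s = 1 then A + J1 else A + J1 + J2, ?_, ?_,
    fun s hs y y1 y2 => ?_⟩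
  · simpa [e0] using (p1 0).2.2
  · simpa [e0] using (p2 0).2.2
  · have := key y ((pw (by omega)).trans y1) (y2.trans (pw (by omega)))
    interval_cases s
    · rw [(p1 y).1 (y2.trans (pw (by omega))), (p2 y).1 (y2.trans (pw (by omega)))] at this
      simpa using this
    · rw [(p1 y).2.1 ((pw (by omega)).trans y1), (p2 y).1 (y2.trans (pw (by omega)))] at this
      simpa using this
    · rw [(p1 y).2.1 ((pw (by omega)).trans y1), (p2 y).2.1 ((pw (by omega)).trans y1)] at this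
      simpa using this

end Pool.Agent.H49.Err
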