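import Pool.Agent.H49.Err4

set_option autoImplicit false
open Filter Topology ArithmeticFunction Set

namespace Pool.Agent.H49.Err
open Pool.Agent.Lead.Sel

lemma af_sum (e : ℕ → AF) (k n : ℕ) :
    (∑ i ∈ Finset.range k, e i) n = ∑ i ∈ Finset.range k, e i n := by
  induction k with
  | zero => simp
  | succ k ih => rw [Finset.sum_range_succ, Finset.sum_range_succ, ArithmeticFunction.add_apply, ih]

lemma one {M I0 : ℕ} {σ r ρ0 : ℝ} {b : AF → AF} (hσ : 0 ≤ σ) (h0 : 0 ≤ ρ0) (h1 : 4 * ρ0 ≤ r)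
    (h2 : r ≤ 1)
    (hb : ∀ g : AF, Nle σ g r → Nle σ (b g) 1 ∧ (∀ n, (∀ j, n ∉ W M (j ^ 2)) → b g n = g n) ∧
      ∀ (g' : AF) (t : ℝ), Nle σ g' r → Nle σ (g - g' : AF) t →
        Nle σ (NL (b g) - NL (b g') : AF) (t / 100))
    {t : ℕ → ℕ} (ht : StrictMono t) (h3 : ∀ k, 3 ≤ t k ∧ I0 ≤ t k) :
    ∃ g : AF, Nle σ g r ∧ (∀ n, g n ≠ 0 → ∃ i, I0 ≤ i ∧ (∀ j, i ≠ j ^ 2) ∧ n ∈ W M i ∧
        |g n| ≤ 256 * (n : ℝ) ^ σ / (W M i).card) ∧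
      ∀ k, Nle σ (∑ i ∈ Finset.range k, ee M σ (ρ0 / 2 ^ i) (t i) : AF) r ∧
        ∃ h : ℕ → ℝ, Nle σ h (4 * (ρ0 / 2 ^ k) / 100) ∧ ∀ n, lo M (t k) < n → n ≤ hi M (t k) →
          aexp (b g) n = ee M σ (ρ0 / 2 ^ k) (t k) n +
            NL (b (∑ i ∈ Finset.range k, ee M σ (ρ0 / 2 ^ i) (t i))) n + h n := by
  set e : ℕ → AF := fun i => ee M σ (ρ0 / 2 ^ i) (t i) with he
  have p0 : ∀ i : ℕ, 0 ≤ ρ0 / 2 ^ i := fun i => by positivity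
  have p1 : ∀ i : ℕ, ρ0 / 2 ^ i ≤ 1 := fun i =>
    (div_le_self h0 (one_le_pow₀ one_le_two)).trans (by linarith)
  have ne : ∀ i, Nle σ (e i) (2 * (ρ0 / 2 ^ i)) := fun i => nle_ee M _ hσ (p0 i)
  have hs : ∀ k : ℕ, HasSum (fun i : ℕ => 2 * (ρ0 / 2 ^ (i + k))) (4 * (ρ0 / 2 ^ k)) := fun k => by
    have := geo_half.mul_left (2 * (ρ0 / 2 ^ k))
    rw [show 2 * (ρ0 / 2 ^ k) * 2 = 4 * (ρ0 / 2 ^ k) by ring] at this
    exact this.congr_fun fun i => by rw [pow_add, one_div, inv_pow]; field_simp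
  have hs0 := hs 0
  simp only [add_zero, pow_zero, div_one] at hs0
  set g : AF := ⟨fun n => ∑' i, e i n, by simp⟩ with hg
  have gd : ∀ n, g n = ∑' i, e i n := fun n => rfl
  have g1 : Nle σ g r := (nle_tsum (F := fun i => e i) ne (by simp) hs0).mono h1
  have g2 : ∀ k n, lo M (t k) < n ∧ n ≤ hi M (t k) → g n = e k n := fun k n hn => by
    rw [gd, tsum_eq_single k]
    intro i hi
    by_contra h
    exact hi (ht.injective (rng_uniq (h3 i).1 (h3 k).1 (ee_rng hσ (p0 i) (p1 i) h) hn))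
  refine ⟨g, g1, fun n hn => ?_, fun k => ?_⟩
  · obtain ⟨k, hk⟩ : ∃ k, e k n ≠ 0 := by
      by_contra h
      push Not at h
      exact hn (by simp [gd, h])
    obtain ⟨i, a1, a2, a3⟩ := ee_supp hσ (p0 k) (p1 k) hk
    have a4 := ee_rng hσ (p0 k) (p1 k) hk
    have a5 := h3 k
    refine ⟨i, by rcases a1 with rfl | rfl <;> nlinarith, fun j hj => ?_, a2, ?_⟩
    · exact rng_not a5.1 a4 j (hj ▸ a2)
    · rw [g2 k n a4]; exact a3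
  have q1 : ∀ k, Nle σ (∑ i ∈ Finset.range k, e i : AF) (4 * ρ0 - 4 * (ρ0 / 2 ^ k)) := by
    intro k
    induction k with
    | zero => simpa using nle_zero σ
    | succ k ih =>
      rw [Finset.sum_range_succ]
      exact (ih.add (ne k)).mono (le_of_eq (by rw [pow_succ]; ring))
  have q2 : Nle σ (∑ i ∈ Finset.range k, e i : AF) r := (q1 k).mono (by linarith [p0 k])
  have q3 : Nle σ (g - ∑ i ∈ Finset.range k, e i : AF) (4 * (ρ0 / 2 ^ k)) := by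
    refine (nle_tsum (F := fun i => e (i + k)) (fun i => ne _) (by simp) (hs k)).of_le
      fun n => le_of_eq ?_
    rw [af_sub_apply, af_sum, gd, ← (summ_pt (F := fun i => e i) ne (by simp) hs0.summable
      n).of_abs.sum_add_tsum_nat_add k, add_sub_cancel_left]
  refine ⟨q2, _, (hb g g1).2.2 _ _ q2 q3, fun n n1 n2 => ?_⟩
  have n3 : n ≠ 1 := by
    have : 1 ≤ lo M (t k) := Nat.one_le_pow _ _ (by omega)
    omega
  rw [aexp_eq (hb g g1).1, ArithmeticFunction.one_apply_ne n3,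
    (hb g g1).2.1 n (rng_not (h3 k).1 ⟨n1, n2⟩), g2 k n ⟨n1, n2⟩, af_sub_apply]
  ring

lemma hi_le (M : ℕ) : ∀ᶠ t in atTop, hi M t ≤ 2 * lo M t := by
  have h1 : Tendsto (fun t : ℕ => (1 + 5 / (t : ℝ)) ^ M) atTop (𝓝 ((1 + 0) ^ M)) :=
    ((tendsto_const_div_atTop_nhds_zero_nat 5).const_add 1).pow M
  filter_upwards [h1.eventually_le_const (show ((1 : ℝ) + 0) ^ M < 2 by simp),
    eventually_ge_atTop 1] with t h2 h3
  have h4 : (1 : ℝ) ≤ t := by exact_mod_cast h3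
  have h5 : (t : ℝ) ^ 2 + 6 ≤ (1 + 5 / t) * (t ^ 2 + 1) := by
    have : 5 / (t : ℝ) * (t ^ 2 + 1) = 5 * t + 5 / t := by field_simp
    have : 0 ≤ 5 / (t : ℝ) := by positivity
    nlinarith
  have : ((hi M t : ℕ) : ℝ) ≤ 2 * (lo M t : ℕ) := by
    simp only [hi, lo]; push_cast
    calc _ ≤ ((1 + 5 / (t : ℝ)) * (t ^ 2 + 1)) ^ M := by gcongr
      _ ≤ _ := by rw [mul_pow]; gcongr
  exact_mod_cast this

lemma big_ev {M : ℕ} (hM : 1 ≤ M) {ρ η : ℝ} (hρ : 0 < ρ) (hη : 0 < η) :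
    ∀ᶠ t in atTop, 8 ≤ ρ * (lo M t : ℝ) ^ η := by
  have h1 : Tendsto (fun t => lo M t) atTop atTop :=
    tendsto_atTop_mono (fun t => by
      have : t ^ 2 + 1 ≤ lo M t := Nat.le_self_pow (by omega) _
      show t ≤ _
      nlinarith) tendsto_id
  exact (((tendsto_rpow_atTop hη).comp (tendsto_natCast_atTop_atTop.comp h1)).const_mul_atTop
    hρ).eventually_ge_atTop 8

lemma sign_of {D l : ℝ} (h : D / 2 ≤ |l|) : ∃ u : ℝ, (u = 1 ∨ u = -1) ∧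
    ∀ S, |S - l| ≤ D / 10 → 2 * D / 5 ≤ u * S := by
  rcases le_total 0 l with h0 | h0
  · rw [abs_of_nonneg h0] at h
    exact ⟨1, Or.inl rfl, fun S hS => by linarith [(abs_le.1 hS).1]⟩
  · rw [abs_of_nonpos h0] at h
    exact ⟨-1, Or.inr rfl, fun S hS => by linarith [(abs_le.1 hS).2]⟩

lemma pick {D E : ℝ} {l m : ℕ → ℝ} (_ : 0 ≤ D) (hE : 0 ≤ E) (a1 : l 0 + D ≤ l 1) (a2 : l 1 + D ≤ l 2)
    (b1 : m 0 + E ≤ m 1) (b2 : m 1 + E ≤ m 2) : ∃ s ≤ 2, D / 2 ≤ |l s| ∧ E / 2 ≤ |m s| := by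
  by_contra h
  push Not at h
  have h0 := h 0 (by norm_num)
  have h1 := h 1 (by norm_num)
  have h2 := h 2 (by norm_num)
  simp only [le_abs, abs_lt] at h0 h1 h2
  by_cases c0 : D / 2 ≤ l 0 ∨ D / 2 ≤ -l 0 <;> by_cases c1 : D / 2 ≤ l 1 ∨ D / 2 ≤ -l 1 <;>
    by_cases c2 : D / 2 ≤ l 2 ∨ D / 2 ≤ -l 2
  all_goals first
    | linarith [(h0 c0).1, (h1 c1).2]
    | linarith [(h0 c0).1, (h2 c2).2]
    | linarith [(h1 c1).1, (h2 c2).2]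
    | (push Not at c0 c1; linarith [c0.2, c1.1])
    | (push Not at c0 c2; linarith [c0.2, c2.1])
    | (push Not at c1 c2; linarith [c1.2, c2.1])

/-- two members of the Selberg class whose partial sums are large on common long intervals -/
theorem str (hH : HOH) (hker : KER0) (hmel : MEL) : ∃ M0 : ℕ, ∀ M, M0 ≤ M → ∃ d : ℕ, 2 ≤ d ∧
    ∃ (a1 a2 : ℕ → ℝ) (G1 G2 : ℂ → ℂ), Differentiable ℂ G1 ∧ Differentiable ℂ G2 ∧
      SelDeg (fun n => a1 n) G1 d ∧ SelDeg (fun n => a2 n) G2 (d + 1 : ℕ) ∧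
      ∀ K : ℕ, ∃ i, K ≤ i ∧ ∃ u1 u2 : ℝ, (u1 = 1 ∨ u1 = -1) ∧ (u2 = 1 ∨ u2 = -1) ∧
        ∀ y : ℕ, i ^ M ≤ y → y ≤ (i + 1) ^ M →
          √((i + 1) ^ M) ≤ u1 * ∑ n ∈ Finset.Icc 1 y, a1 n ∧
          √((i + 1) ^ M) ≤ u2 * ∑ n ∈ Finset.Icc 1 y, a2 n := by
  obtain ⟨M0, hM0, hW⟩ := bound58 hH
  refine ⟨M0, fun M hM => ?_⟩
  obtain ⟨I0, hW⟩ := hW M hM
  have M1 : 1 ≤ M := by omega
  obtain ⟨d, hd⟩ : ∃ d, d = 16 * M + 48 := ⟨_, rfl⟩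
  obtain ⟨d', hd'⟩ : ∃ d', d' = d + 1 := ⟨_, rfl⟩
  obtain ⟨r1, r10, r11, b1, hb1⟩ := fam hker hmel M1 hW d (by omega)
  obtain ⟨r2, r20, r21, b2, hb2⟩ := fam hker hmel M1 hW d' (by omega)
  have ρ0 : 0 < min r1 r2 / 4 := by positivity
  set ρ := min r1 r2 / 4 with hρ
  have d1 : (48 : ℝ) ≤ d := by exact_mod_cast (by omega : 48 ≤ d)
  have d2 : (48 : ℝ) ≤ d' := by exact_mod_cast (by omega : 48 ≤ d')
  have tl : ∀ (σ r : ℝ) (b : AF → AF) (k : ℕ) (G : AF), (Nle σ G r → Nle σ (b G) 1) →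
      ∀ᶠ t in atTop, Nle σ G r →
        ∀ y, ∑ n ∈ Finset.Ioc (lo M t) y, wt σ (NL (b G)) n ≤ ρ / 2 ^ k / 100 := by
    intro σ r b k G hG
    by_cases h : Nle σ G r
    · have h1 : Nle σ (NL (b G)) _ := nle_tsum
        (F := fun k n => (b G ^ (k + 2)) n / ((k + 2).factorial : ℝ))
        (fun k => nle_div ((hG h).pow (k + 2)) (by positivity)) (by simp)
        ((summable_nat_add_iff 2).2 (Real.summable_pow_div_factorial 1)).hasSum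
      filter_upwards [tail_small h1 (by positivity : 0 < ρ / 2 ^ k / 100) M1] with t ht _ using ht
    · exact Eventually.of_forall fun t h' => absurd h' h
  obtain ⟨t, ht, hΦ⟩ := exists_seq (Φ := fun k G1 G2 t => (3 ≤ t ∧ I0 ≤ t) ∧ hi M t ≤ 2 * lo M t ∧
      (Nle (3 / d) G1 r1 → ∀ y, ∑ n ∈ Finset.Ioc (lo M t) y, wt (3 / d) (NL (b1 G1)) n ≤
        ρ / 2 ^ k / 100) ∧
      (Nle (3 / d') G2 r2 → ∀ y, ∑ n ∈ Finset.Ioc (lo M t) y, wt (3 / d') (NL (b2 G2)) n ≤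
        ρ / 2 ^ k / 100) ∧
      8 ≤ ρ / 2 ^ k * (lo M t : ℝ) ^ (5 / (2 * d) : ℝ) ∧
      8 ≤ ρ / 2 ^ k * (lo M t : ℝ) ^ (5 / (2 * d') : ℝ))
    (fun i t => ee M (3 / d) (ρ / 2 ^ i) t) (fun i t => ee M (3 / d') (ρ / 2 ^ i) t)
    fun k G1 G2 => ((eventually_ge_atTop 3).and (eventually_ge_atTop I0)).and ((hi_le M).and
      ((tl _ _ _ k G1 fun h => (hb1 G1 h).1).and ((tl _ _ _ k G2 fun h => (hb2 G2 h).1).and
        ((big_ev M1 (by positivity) (by positivity)).and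
          (big_ev M1 (by positivity) (by positivity))))))
  obtain ⟨g1, p1, p2, p3⟩ := one (I0 := I0) (by positivity) ρ0.le
    (by linarith [min_le_left r1 r2]) r11
    (fun g hg => ⟨(hb1 g hg).1, (hb1 g hg).2.1, (hb1 g hg).2.2.1⟩) ht fun k => (hΦ k).1
  obtain ⟨g2, q1, q2, q3⟩ := one (I0 := I0) (by positivity) ρ0.le
    (by linarith [min_le_right r1 r2]) r21
    (fun g hg => ⟨(hb2 g hg).1, (hb2 g hg).2.1, (hb2 g hg).2.2.1⟩) ht fun k => (hΦ k).1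
  obtain ⟨G1, x1, x2⟩ := (hb1 g1 p1).2.2.2 p2
  obtain ⟨G2, y1, y2⟩ := (hb2 g2 q1).2.2.2 q2
  refine ⟨d, by omega, _, fun n => aexp (b2 g2) n * (n : ℝ) ^ (1 / 2 - 1 / (2 * d') : ℝ), G1, G2,
    x1, y1, x2, by rw [← hd']; exact y2, fun K => ?_⟩
  obtain ⟨⟨t3, tI⟩, f1, f2, f3, f4, f5⟩ := hΦ K
  obtain ⟨z1, h1, z2, z3⟩ := p3 K
  obtain ⟨w1, h2, w2, w3⟩ := q3 K
  have ex : ∀ x : ℝ, 48 ≤ x → 0 ≤ 1 / 2 - 1 / (2 * x) ∧ 3 / x + (1 / 2 - 1 / (2 * x)) ≤ 1 ∧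
      3 / x + (1 / 2 - 1 / (2 * x)) = 5 / (2 * x) + 1 / 2 := fun x hx => by
    have a1 : 1 / (2 * x) ≤ 1 / 2 := by gcongr; linarith
    have a2 : 3 / x ≤ 1 / 2 := by rw [div_le_iff₀ (by linarith)]; linarith
    have a3 : 0 ≤ 1 / (2 * x) := by positivity
    exact ⟨by linarith, by linarith, by field_simp; ring⟩
  have c1 := (hW (t K ^ 2 + 2) (by nlinarith)).1
  have c2 := (hW (t K ^ 2 + 4) (by nlinarith)).1
  obtain ⟨l, l1, l2, l3⟩ := stair (a := fun n => aexp (b1 g1) n * (n : ℝ) ^ (1 / 2 - 1 / (2 * d) : ℝ))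
    (by positivity) (ex d d1).1 (ex d d1).2.1 (by positivity) c1 c2
    (fun n n1 n2 => by rw [z3 n n1 n2]) (f2 z1) z2 f1
  obtain ⟨m, m1, m2, m3⟩ := stair (a := fun n => aexp (b2 g2) n * (n : ℝ) ^ (1 / 2 - 1 / (2 * d') : ℝ))
    (by positivity) (ex d' d2).1 (ex d' d2).2.1 (by positivity) c1 c2
    (fun n n1 n2 => by rw [w3 n n1 n2]) (f3 w1) w2 f1
  obtain ⟨s, s2, s3, s4⟩ := pick (by positivity) (by positivity) l1 l2 m1 m2
  obtain ⟨u1, u11, u12⟩ := sign_of s3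
  obtain ⟨u2, u21, u22⟩ := sign_of s4
  have l0 : (0 : ℝ) < lo M (t K) := by unfold lo; positivity
  have sq : ∀ η : ℝ, 8 ≤ ρ / 2 ^ K * (lo M (t K) : ℝ) ^ η →
      √((((t K ^ 2 + 1 + 2 * s : ℕ) : ℝ) + 1) ^ M) ≤
        2 * (ρ / 2 ^ K * (lo M (t K) : ℝ) ^ (η + 1 / 2)) / 5 := fun η h => by
    have a1 : (((t K ^ 2 + 1 + 2 * s : ℕ) : ℝ) + 1) ^ M ≤ 4 * lo M (t K) := by
      have : (t K ^ 2 + 1 + 2 * s + 1) ^ M ≤ 4 * lo M (t K) :=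
        (pw (by omega)).trans (f1.trans (by omega))
      exact_mod_cast this
    have a2 := Real.sqrt_le_sqrt a1
    rw [Real.sqrt_mul (by norm_num), show √4 = 2 by
      rw [show (4 : ℝ) = 2 ^ 2 by norm_num, Real.sqrt_sq (by norm_num)]] at a2
    rw [Real.rpow_add l0, ← Real.sqrt_eq_rpow, ← mul_assoc (ρ / 2 ^ K)]
    nlinarith [Real.sqrt_nonneg (lo M (t K) : ℝ)]
  refine ⟨t K ^ 2 + 1 + 2 * s, by nlinarith [ht.le_apply (x := K)], u1, u2, u11, u21,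
    fun y y1 y2 => ⟨le_trans ?_ (u12 _ (l3 s s2 y y1 y2)), le_trans ?_ (u22 _ (m3 s s2 y y1 y2))⟩⟩
  · rw [(ex d d1).2.2]; exact sq _ f4
  · rw [(ex d' d2).2.2]; exact sq _ f5

end Pool.Agent.H49.Err
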