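import Pool.Agent.H49.Err5

set_option autoImplicit false
open Filter Topology Set MeasureTheory

namespace Pool.Agent.H49.Err
open Pool.Agent.Lead.Sel

lemma err_entire (a : ℕ → ℝ) {G : ℂ → ℂ} (hG : Differentiable ℂ G) {x : ℝ} (hx : 0 < x) :
    err (fun n => a n) G x = ((∑ n ∈ Finset.Icc 1 ⌊x⌋₊, a n : ℝ) : ℂ) := by
  have h : DifferentiableOn ℂ (fun s => G s * (x : ℂ) ^ s / s) (Metric.closedBall 1 (1 / 2)) := by
    intro s hs
    have h1 : s ≠ 0 := by rintro rfl; norm_num at hs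
    exact (((hG s).mul (differentiableAt_id.const_cpow
      (Or.inl (Complex.ofReal_ne_zero.2 hx.ne')))).div differentiableAt_id h1).differentiableWithinAt
  rw [err, Complex.circleIntegral_eq_zero_of_differentiable_on_off_countable (by norm_num)
    countable_empty h.continuousOn fun z hz => h.differentiableAt
      (Metric.closedBall_mem_nhds_of_mem hz.1)]
  simp

lemma int_step (φ : ℕ → ℝ) {w : ℝ → ℝ} (hw : Continuous w) (a b : ℝ) :
    IntervalIntegrable (fun x => φ ⌊x⌋₊ * w x) volume a b := by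
  refine IntervalIntegrable.mul_continuousOn ?_ hw.continuousOn
  rw [intervalIntegrable_iff]
  refine Measure.integrableOn_of_bounded (M := ∑ n ∈ Finset.range (⌊max a b⌋₊ + 1), |φ n|)
    (by simp [uIoc])
    ((measurable_from_top (f := φ)).comp Nat.measurable_floor).aestronglyMeasurable ?_
  filter_upwards [ae_restrict_mem measurableSet_uIoc] with x hx
  exact Finset.single_le_sum (f := fun n => |φ n|) (fun _ _ => abs_nonneg _)
    (Finset.mem_range.2 (Nat.lt_succ_of_le (Nat.floor_mono hx.2)))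

theorem fails (hH : HOH) (hker : KER0) (hmel : MEL) {w : ℝ → ℝ} (hw : Continuous w)
    (w0 : ∀ x, 0 ≤ w x) {M1 : ℕ}
    (h1 : ∀ M, M1 ≤ M → ∀ᶠ i : ℕ in atTop, 1 ≤ ∫ x in ((i : ℝ) ^ M)..(((i : ℝ) + 1) ^ M), w x) :
    ∃ (k : ℕ) (d l : Fin k → ℕ) (a : Fin k → ℕ → ℂ) (F : Fin k → ℂ → ℂ), 2 ≤ k ∧ StrictMono d ∧
      (∀ j, 2 ≤ d j) ∧ (∀ j, SelDeg (a j) (F j) (d j)) ∧ (∀ j, 1 ≤ l j) ∧ (∃ j, l j = 1) ∧
      ¬ ∃ δ : ℝ, 0 < δ ∧ ∀ ε : ℝ, 0 < ε → ∃ C T₀ : ℝ, ∀ T : ℝ, T₀ ≤ T →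
        ‖∫ x in (1 : ℝ)..T, (∏ j, err (a j) (F j) x ^ l j) * (w x : ℂ)‖ ≤
          C * T ^ (1 + ∑ j, (l j : ℝ) * ((d j : ℝ) - 1) / (2 * d j) - δ + ε) := by
  obtain ⟨M0, hs⟩ := str hH hker hmel
  obtain ⟨M, hM0, hM1, hM2⟩ : ∃ M, M0 ≤ M ∧ M1 ≤ M ∧ 1 ≤ M := ⟨M0 + M1 + 1, by omega, by omega, by omega⟩
  obtain ⟨d, hd, a1, a2, G1, G2, g1, g2, s1, s2, hK⟩ := hs M hM0
  refine ⟨2, ![d, d + 1], ![1, 2 * (d + 1)], ![fun n => a1 n, fun n => a2 n], ![G1, G2], le_rfl,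
    Fin.strictMono_iff_lt_succ.2 fun j => by fin_cases j; simp, fun j => by fin_cases j <;> simp <;> omega,
    fun j => by fin_cases j; exacts [s1, s2], fun j => by fin_cases j <;> simp; omega, ⟨0, rfl⟩, ?_⟩
  rintro ⟨δ, hδ, H⟩
  obtain ⟨C, T0, H⟩ := H δ hδ
  have d0 : (2 : ℝ) ≤ d := by exact_mod_cast hd
  set φ : ℕ → ℝ := fun y => (∑ n ∈ Finset.Icc 1 y, a1 n) * (∑ n ∈ Finset.Icc 1 y, a2 n) ^ (2 * (d + 1))
  have H2 : ∀ T : ℝ, T0 ≤ T → 1 ≤ T →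
      |∫ x in (1 : ℝ)..T, φ ⌊x⌋₊ * w x| ≤ |C| * T ^ ((d : ℝ) + 3 / 2 - 1 / (2 * d)) := by
    intro T a1 a2
    have := H T a1
    rw [intervalIntegral.integral_congr (g := fun x => ((φ ⌊x⌋₊ * w x : ℝ) : ℂ)) (fun x hx => by
      have x0 : 0 < x := by rw [uIcc_of_le a2] at hx; linarith [hx.1]
      simp only [Fin.prod_univ_two, Matrix.cons_val_zero, Matrix.cons_val_one, err_entire _ g1 x0,
        err_entire _ g2 x0, φ]
      push_cast; ring), intervalIntegral.integral_ofReal, Complex.norm_real, Real.norm_eq_abs] at this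
    refine this.trans ?_
    rw [show (1 + ∑ j : Fin 2, ((![1, 2 * (d + 1)] : Fin 2 → ℕ) j : ℝ) *
        (((![d, d + 1] : Fin 2 → ℕ) j : ℝ) - 1) / (2 * (![d, d + 1] : Fin 2 → ℕ) j) - δ + δ) =
        (d : ℝ) + 3 / 2 - 1 / (2 * d) by
      simp only [Fin.sum_univ_two, Matrix.cons_val_zero, Matrix.cons_val_one]
      push_cast; field_simp; ring]
    exact mul_le_mul_of_nonneg_right (le_abs_self C) (by positivity)
  have hT : Tendsto (fun i : ℕ => (i : ℝ) ^ (1 / (2 * d) : ℝ)) atTop atTop :=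
    (tendsto_rpow_atTop (by positivity)).comp tendsto_natCast_atTop_atTop
  obtain ⟨K, hK'⟩ := eventually_atTop.1 ((h1 M hM1).and ((hT.eventually_gt_atTop (2 * |C|)).and
    ((tendsto_natCast_atTop_atTop (R := ℝ).eventually_ge_atTop T0).and (eventually_ge_atTop 1))))
  obtain ⟨i, hi, u1, u2, hu1, hu2, hy⟩ := hK K
  obtain ⟨k1, k2, k3, k4⟩ := hK' i hi
  have i1 : (1 : ℝ) ≤ i := by exact_mod_cast k4
  have i2 : (i : ℝ) ≤ (i : ℝ) ^ M := le_self_pow₀ i1 (by omega)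
  have i3 : (i : ℝ) ^ M ≤ ((i : ℝ) + 1) ^ M := by gcongr; linarith
  set X := ((i : ℝ) + 1) ^ M with hX
  have X0 : 0 < X := by linarith
  have b1 := H2 ((i : ℝ) ^ M) (by linarith) (by linarith)
  have b2 := H2 X (by linarith) (by linarith)
  have e0 : 0 ≤ (d : ℝ) + 3 / 2 - 1 / (2 * d) := by
    have : 1 / (2 * (d : ℝ)) ≤ 1 / 2 := by gcongr; linarith
    linarith
  have b3 : |C| * ((i : ℝ) ^ M) ^ ((d : ℝ) + 3 / 2 - 1 / (2 * d)) ≤
      |C| * X ^ ((d : ℝ) + 3 / 2 - 1 / (2 * d)) := by gcongr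
  have b4 := intervalIntegral.integral_interval_sub_left (int_step φ hw 1 X)
    (int_step φ hw 1 ((i : ℝ) ^ M))
  have b5 : √X * X ^ (d + 1) * ∫ x in ((i : ℝ) ^ M)..X, w x ≤
      u1 * ∫ x in ((i : ℝ) ^ M)..X, φ ⌊x⌋₊ * w x := by
    rw [← intervalIntegral.integral_const_mul, ← intervalIntegral.integral_const_mul]
    refine intervalIntegral.integral_mono_on i3 ((hw.intervalIntegrable _ _).const_mul _)
      ((int_step φ hw _ _).const_mul _) fun x hx => ?_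
    obtain ⟨c1, c2⟩ := hy ⌊x⌋₊ (Nat.le_floor (by exact_mod_cast hx.1))
      (Nat.floor_le_of_le (by push_cast; exact hx.2))
    have c3 : X ≤ (∑ n ∈ Finset.Icc 1 ⌊x⌋₊, a2 n) ^ 2 := by
      have := pow_le_pow_left₀ (Real.sqrt_nonneg X) c2 2
      rw [Real.sq_sqrt X0.le, mul_pow] at this
      rcases hu2 with rfl | rfl <;> simpa using this
    rw [← mul_assoc u1]
    refine mul_le_mul_of_nonneg_right ?_ (w0 x)
    simp only [φ]
    rw [← mul_assoc, pow_mul]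
    exact mul_le_mul c1 (pow_le_pow_left₀ X0.le c3 _) (by positivity)
      ((Real.sqrt_nonneg X).trans c1)
  have b6 : √X * X ^ (d + 1) =
      X ^ (1 / (2 * d) : ℝ) * X ^ ((d : ℝ) + 3 / 2 - 1 / (2 * d)) := by
    rw [Real.sqrt_eq_rpow, ← Real.rpow_natCast, ← Real.rpow_add X0, ← Real.rpow_add X0]
    congr 1; push_cast; ring
  have b7 : (i : ℝ) ^ (1 / (2 * d) : ℝ) ≤ X ^ (1 / (2 * d) : ℝ) := by gcongr; linarith
  have b8 := mul_lt_mul_of_pos_right (k2.trans_le b7)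
    (Real.rpow_pos_of_pos X0 ((d : ℝ) + 3 / 2 - 1 / (2 * d)))
  have b9 := le_mul_of_one_le_right (by positivity : 0 ≤ √X * X ^ (d + 1)) k1
  rw [← b4] at b5
  rw [abs_le] at b1 b2
  rcases hu1 with rfl | rfl <;> linarith [b1.1, b1.2, b2.1, b2.2]

lemma poly_low {Q : Polynomial ℝ} (h : Q ≠ 0) : ∃ c, 0 < c ∧ ∀ᶠ u in atTop, c ≤ |Q.eval u| := by
  rcases lt_or_ge 0 Q.degree with h1 | h1
  · exact ⟨1, one_pos, (Q.abs_tendsto_atTop h1).eventually_ge_atTop 1⟩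
  · rw [Polynomial.eq_C_of_degree_le_zero h1] at h ⊢
    exact ⟨|Q.coeff 0|, abs_pos.2 fun h2 => h (by simp [h2]), by simp⟩

lemma wlow {w : ℝ → ℝ} (hw : Continuous w) (w0 : ∀ x, 0 ≤ w x) {η C T0 : ℝ} {P : Polynomial ℝ}
    (hη : 0 < η) (hP : P ≠ 0) (h : ∀ T : ℝ, T0 ≤ T →
      |(∫ t in (1 : ℝ)..T, w t) - T * P.eval (Real.log T)| ≤ C * T ^ (1 - η)) :
    ∃ M1 : ℕ, ∀ M, M1 ≤ M →
      ∀ᶠ i : ℕ in atTop, 1 ≤ ∫ x in ((i : ℝ) ^ M)..(((i : ℝ) + 1) ^ M), w x := by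
  have hQ : P + P.derivative ≠ 0 := by
    intro h2
    have := Polynomial.degree_add_eq_left_of_degree_lt (Polynomial.degree_derivative_lt hP)
    rw [h2, Polynomial.degree_zero] at this
    exact hP (Polynomial.degree_eq_bot.1 this.symm)
  obtain ⟨c, hc, hu⟩ := poly_low hQ
  obtain ⟨u0, hu⟩ := eventually_atTop.1 (Real.tendsto_log_atTop.eventually hu)
  have η0 : 0 < min η 1 := lt_min hη one_pos
  obtain ⟨M1, hM1⟩ := exists_nat_ge (2 / min η 1)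
  refine ⟨M1 + 2, fun M hM => ?_⟩
  obtain ⟨N, rfl⟩ : ∃ N, M = N + 2 := ⟨M - 2, by omega⟩
  have hN : 2 ≤ ((N + 2 : ℕ) : ℝ) * min η 1 := by
    rw [div_le_iff₀ η0] at hM1
    have : (M1 : ℝ) ≤ (N + 2 : ℕ) := by exact_mod_cast (by omega : M1 ≤ N + 2)
    nlinarith
  have hT := tendsto_natCast_atTop_atTop (R := ℝ)
  filter_upwards [hT.eventually_ge_atTop T0, hT.eventually_ge_atTop u0, hT.eventually_ge_atTop 1,
    (hT.const_mul_atTop hc).eventually_ge_atTop (1 + 2 * (|C| * 2 ^ (N + 2)))] with i k1 k2 i1 k3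
  have i2 : (i : ℝ) ≤ (i : ℝ) ^ (N + 2) := le_self_pow₀ i1 (by omega)
  have i3 : (i : ℝ) ^ (N + 2) + (i : ℝ) ^ (N + 1) ≤ ((i : ℝ) + 1) ^ (N + 2) := by
    calc _ = (i : ℝ) ^ (N + 1) * (i + 1) := by ring
      _ ≤ ((i : ℝ) + 1) ^ (N + 1) * (i + 1) := by gcongr; linarith
      _ = _ := by ring
  have i4 : ((i : ℝ) + 1) ^ (N + 2) ≤ 2 ^ (N + 2) * (i : ℝ) ^ (N + 2) := by
    rw [← mul_pow]; gcongr; linarith
  have i5 : 1 ≤ (i : ℝ) ^ N := one_le_pow₀ i1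
  have i6 : 0 < (i : ℝ) ^ (N + 1) := by positivity
  set x := (i : ℝ) ^ (N + 2) with hx
  set y := ((i : ℝ) + 1) ^ (N + 2) with hy
  have er : ∀ T, x ≤ T → T ≤ y →
      |(∫ t in (1 : ℝ)..T, w t) - T * P.eval (Real.log T)| ≤ |C| * 2 ^ (N + 2) * (i : ℝ) ^ N := by
    intro T a1 a2
    have m1 := min_le_left η 1
    have m2 := min_le_right η 1
    calc _ ≤ C * T ^ (1 - η) := h T (by linarith)
      _ ≤ |C| * T ^ (1 - min η 1) := mul_le_mul (le_abs_self C)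
          (Real.rpow_le_rpow_of_exponent_le (by linarith) (by linarith))
          (Real.rpow_nonneg (by linarith) _) (abs_nonneg C)
      _ ≤ |C| * (2 ^ (N + 2) * x) ^ (1 - min η 1) := by
          gcongr <;> linarith
      _ = |C| * ((2 ^ (N + 2) : ℝ) ^ (1 - min η 1) * (i : ℝ) ^ ((N + 2 : ℕ) * (1 - min η 1))) := by
          rw [Real.mul_rpow (by positivity) (by positivity), Real.rpow_natCast_mul (by linarith)]
      _ ≤ |C| * ((2 ^ (N + 2) : ℝ) ^ (1 : ℝ) * (i : ℝ) ^ (N : ℝ)) := by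
          gcongr
          · exact one_le_pow₀ one_le_two
          · linarith
          · push_cast at hN ⊢; linarith
      _ = _ := by rw [Real.rpow_one, Real.rpow_natCast, mul_assoc]
  have hd : ∀ T : ℝ, 0 < T → HasDerivAt (fun T => T * P.eval (Real.log T))
      ((P + P.derivative).eval (Real.log T)) T := fun T hT =>
    ((hasDerivAt_id' T).mul ((P.hasDerivAt _).comp T (Real.hasDerivAt_log hT.ne'))).congr_deriv
      (by rw [Polynomial.eval_add]; field_simp; simp)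
  obtain ⟨ξ, hξ, e⟩ := exists_hasDerivAt_eq_slope (fun T => T * P.eval (Real.log T)) _
    (show x < y by linarith) (fun T hT => (hd T (by linarith [hT.1])).continuousAt.continuousWithinAt)
    fun T hT => hd T (by linarith [hT.1])
  have b1 := hu ξ (by linarith [hξ.1])
  rw [e, abs_div, abs_of_pos (by linarith : 0 < y - x), le_div_iff₀ (by linarith)] at b1
  have b2 := intervalIntegral.integral_interval_sub_left (hw.intervalIntegrable (μ := volume) 1 y)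
    (hw.intervalIntegrable 1 x)
  have b3 : 0 ≤ ∫ t in x..y, w t := intervalIntegral.integral_nonneg (by linarith) fun t _ => w0 t
  have b4 := abs_le.1 (er x le_rfl (by linarith))
  have b5 := abs_le.1 (er y (by linarith) le_rfl)
  have b6 : c * (i : ℝ) ^ (N + 1) ≤ c * (y - x) := by gcongr; linarith
  have b7 := mul_le_mul_of_nonneg_right k3 (by linarith : 0 ≤ (i : ℝ) ^ N)
  have b8 : c * (i : ℝ) * (i : ℝ) ^ N = c * (i : ℝ) ^ (N + 1) := by ring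
  rcases le_abs.1 b1 with b9 | b9 <;> nlinarith [b4.1, b4.2, b5.1, b5.2]

theorem twisted (hH : HOH) (hker : KER0) (hmel : MEL) :
    (∃ (c : ℕ → ℂ) (L : ℂ → ℂ) (d₀ : ℝ), SelDeg c L d₀ ∧ MeanSq L) ∧
    ∀ (c : ℕ → ℂ) (L : ℂ → ℂ) (d₀ : ℝ), SelDeg c L d₀ → MeanSq L →
    ∃ (k : ℕ) (d l : Fin k → ℕ) (a : Fin k → ℕ → ℂ) (F : Fin k → ℂ → ℂ), 2 ≤ k ∧ StrictMono d ∧
      (∀ j, 2 ≤ d j) ∧ (∀ j, SelDeg (a j) (F j) (d j)) ∧ (∀ j, 1 ≤ l j) ∧ (∃ j, l j = 1) ∧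
      ¬ ∃ δ : ℝ, 0 < δ ∧ ∀ ε : ℝ, 0 < ε → ∃ C T₀ : ℝ, ∀ T : ℝ, T₀ ≤ T →
        ‖∫ x in (1 : ℝ)..T, (∏ j, err (a j) (F j) x ^ l j) *
            ((‖L (1 / 2 + x * Complex.I)‖ ^ 2 : ℝ) : ℂ)‖ ≤
          C * T ^ (1 + ∑ j, (l j : ℝ) * ((d j : ℝ) - 1) / (2 * d j) - δ + ε) := by
  constructor
  · have h1 : ∀ s : ℂ, LSeriesSummable LSeries.delta s := fun s =>
      LSeriesSummable_of_isBigO_rpow (x := s.re - 1) (by linarith) (Asymptotics.IsBigO.congr'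
        (Asymptotics.isBigO_zero _ _) (by
          filter_upwards [eventually_gt_atTop 1] with n hn
          simp [LSeries.delta, hn.ne']) EventuallyEq.rfl)
    refine ⟨LSeries.delta, fun _ => 1, 0, ⟨fun s _ => ⟨h1 s, by simp [LSeries_delta]⟩,
      ⟨0, fun _ => 1, by fun_prop, ⟨0, 1, fun s => by simp⟩, by simp⟩,
      ⟨1, 0, Fin.elim0, Fin.elim0, 1, _, one_pos, by simp, by simp, by simp, by simp,
        fun s => rfl, by simp⟩, fun ε hε => ⟨1, fun n hn => ?_⟩, by simp [LSeries.delta],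
      0, 0, 0, by norm_num, by simp, by simp, fun s _ => ⟨LSeriesSummable_zero, by simp⟩⟩,
      1, 1, 1, 1, one_pos, one_ne_zero, fun T hT => by simp⟩
    have : (1 : ℝ) ≤ (n : ℝ) ^ ε := Real.one_le_rpow (by exact_mod_cast hn) hε.le
    rw [LSeries.delta]
    split_ifs <;> simp <;> linarith
  · rintro c L d0 ⟨-, ⟨m, E, e1, -, e3⟩, -⟩ ⟨η, P, C, T0, hη, hP, h⟩
    have n1 : ∀ t : ℝ, (1 / 2 + t * Complex.I : ℂ) - 1 ≠ 0 := fun t h => by
      have := congrArg Complex.re h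
      norm_num at this
    have hc : Continuous fun t : ℝ => ‖L (1 / 2 + t * Complex.I)‖ ^ 2 := by
      have : Continuous fun t : ℝ => E (1 / 2 + t * Complex.I) / (1 / 2 + t * Complex.I - 1) ^ m :=
        (e1.continuous.comp (by fun_prop)).div (by fun_prop) fun t => pow_ne_zero m (n1 t)
      refine (this.congr fun t => ?_).norm.pow 2
      rw [e3 _ (sub_ne_zero.1 (n1 t)), mul_div_cancel_left₀ _ (pow_ne_zero m (n1 t))]
    obtain ⟨M1, hM1⟩ := wlow hc (fun x => by positivity) hη hP h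
    exact fails hH hker hmel hc (fun x => by positivity) hM1

theorem plain (hH : HOH) (hker : KER0) (hmel : MEL) :
    ∃ (k : ℕ) (d l : Fin k → ℕ) (a : Fin k → ℕ → ℂ) (F : Fin k → ℂ → ℂ), 2 ≤ k ∧ StrictMono d ∧
      (∀ j, 2 ≤ d j) ∧ (∀ j, SelDeg (a j) (F j) (d j)) ∧ (∀ j, 1 ≤ l j) ∧ (∃ j, l j = 1) ∧
      ¬ ∃ δ : ℝ, 0 < δ ∧ ∀ ε : ℝ, 0 < ε → ∃ C T₀ : ℝ, ∀ T : ℝ, T₀ ≤ T →
        ‖∫ x in (1 : ℝ)..T, ∏ j, err (a j) (F j) x ^ l j‖ ≤
          C * T ^ (1 + ∑ j, (l j : ℝ) * ((d j : ℝ) - 1) / (2 * d j) - δ + ε) := by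
  obtain ⟨M1, hM1⟩ := wlow (w := fun _ => 1) continuous_const (fun _ => zero_le_one) (η := 1) (C := 1)
    (T0 := 1) (P := 1) one_pos one_ne_zero fun T hT => by simp
  simpa only [Complex.ofReal_one, mul_one] using
    fails hH hker hmel continuous_const (fun _ => zero_le_one) hM1

end Pool.Agent.H49.Err
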