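import Mathlib

set_option autoImplicit false

namespace Pool.Agent.H49.EvStable

open Polynomial UniqueFactorizationMonoid

lemma card_pos (p : ℚ[X]) (hp : 0 < p.natDegree) : 1 ≤ (normalizedFactors p).card := by
  have h0 : p ≠ 0 := by rintro rfl; simp at hp
  have hu : ¬ IsUnit p := not_isUnit_of_natDegree_pos p hp
  exact Multiset.card_pos.2 (ne_of_gt ((normalizedFactors_pos p h0).2 hu))

lemma four (a b c d : ℚ[X]) (ha : 0 < a.natDegree) (hb : 0 < b.natDegree) (hc : 0 < c.natDegree)
    (hd : 0 < d.natDegree) : 4 ≤ (normalizedFactors (a * b * c * d)).card := by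
  have a0 : a ≠ 0 := by rintro rfl; simp at ha
  have b0 : b ≠ 0 := by rintro rfl; simp at hb
  have c0 : c ≠ 0 := by rintro rfl; simp at hc
  have d0 : d ≠ 0 := by rintro rfl; simp at hd
  rw [normalizedFactors_mul (mul_ne_zero (mul_ne_zero a0 b0) c0) d0,
    normalizedFactors_mul (mul_ne_zero a0 b0) c0, normalizedFactors_mul a0 b0]
  simp only [Multiset.card_add]
  have := card_pos a ha
  have := card_pos b hb
  have := card_pos c hc
  have := card_pos d hd
  omega

noncomputable def f : ℚ[X] := X ^ 2 - C (17 / 9)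

lemma f_deg : f.natDegree = 2 := by unfold f; compute_degree!

lemma factor : (f.comp)^[4] X - C (407 / 6561) =
    (X ^ 2 + C 2 * X + C (7 / 9)) * (X ^ 2 - C 2 * X + C (7 / 9)) *
      (X ^ 2 - C (4 / 3) * X - C (4 / 9) : ℚ[X]).comp f *
      ((X ^ 2 - C (10 / 9) * X - C (103 / 81) : ℚ[X]).comp f).comp f := by
  apply Polynomial.funext
  intro x
  simp only [f, Function.iterate_succ, Function.iterate_zero, Function.comp, id, eval_sub,
    eval_comp, eval_pow, eval_X, eval_C, eval_mul, eval_add]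
  ring

lemma omega_ge : 4 ≤ (normalizedFactors ((f.comp)^[4] X - C (407 / 6561))).card := by
  rw [factor]
  have h1 : (X ^ 2 + C 2 * X + C (7 / 9) : ℚ[X]).natDegree = 2 := by compute_degree!
  have h2 : (X ^ 2 - C 2 * X + C (7 / 9) : ℚ[X]).natDegree = 2 := by compute_degree!
  have h3 : (X ^ 2 - C (4 / 3) * X - C (4 / 9) : ℚ[X]).natDegree = 2 := by compute_degree!
  have h4 : (X ^ 2 - C (10 / 9) * X - C (103 / 81) : ℚ[X]).natDegree = 2 := by compute_degree!
  apply four
  · rw [h1]; norm_num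
  · rw [h2]; norm_num
  · rw [natDegree_comp, h3, f_deg]; norm_num
  · rw [natDegree_comp, natDegree_comp, h4, f_deg]; norm_num

lemma no_pre (x : ℚ) : f.eval x ≠ 407 / 6561 := by
  intro h
  simp only [f, eval_sub, eval_pow, eval_X, eval_C] at h
  have h2 : (81 * x / 80) ^ 2 = 2 := by linear_combination (6561 / 6400) * h
  have h3 : IsSquare (2 : ℚ) := ⟨81 * x / 80, by rw [← h2]; ring⟩
  have h4 : IsSquare (2 : ℕ) := by
    rw [← Rat.isSquare_natCast_iff]; exact_mod_cast h3
  exact Nat.prime_two.not_isSquare h4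

lemma wandering :
    (Set.range fun n : ℕ => (fun x => f.eval x)^[n] (407 / 6561)).Infinite := by
  set x : ℕ → ℚ := fun n => (fun x => f.eval x)^[n] (407 / 6561) with hx
  have hs : ∀ n, x (n + 1) = x n ^ 2 + -(17 / 9) := by
    intro n
    simp only [hx]
    rw [Function.iterate_succ_apply']
    simp [f, sub_eq_add_neg]
  have : Fact (Nat.Prime 3) := ⟨by norm_num⟩
  have hc : padicNorm 3 (-(17 / 9)) = 9 := by
    rw [padicNorm.neg, padicNorm.div]
    have h1 : padicNorm 3 17 = 1 := by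
      have := (padicNorm.nat_eq_one_iff (p := 3) 17).2 (by norm_num)
      exact_mod_cast this
    have h2 : padicNorm 3 9 = 1 / 9 := by
      have h3 : padicNorm 3 3 = 3⁻¹ := by
        have := padicNorm.padicNorm_p_of_prime (p := 3)
        exact_mod_cast this
      rw [show (9 : ℚ) = 3 * 3 by norm_num, padicNorm.mul, h3]
      norm_num
    rw [h1, h2]; norm_num
  have h0 : padicNorm 3 (x 0) = 6561 := by
    have e : x 0 = 407 / (3 * 3 * 3 * 3 * 3 * 3 * 3 * 3) := by simp [hx]; norm_num
    have h1 : padicNorm 3 407 = 1 := by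
      have := (padicNorm.nat_eq_one_iff (p := 3) 407).2 (by norm_num)
      exact_mod_cast this
    have h3 : padicNorm 3 3 = 3⁻¹ := by
      have := padicNorm.padicNorm_p_of_prime (p := 3)
      exact_mod_cast this
    rw [e, padicNorm.div, h1]
    simp only [padicNorm.mul, h3]
    norm_num
  have key : ∀ n, 9 < padicNorm 3 (x n) → padicNorm 3 (x n) < padicNorm 3 (x (n + 1)) := by
    intro n hn
    have h1 : padicNorm 3 (-(17 / 9)) < padicNorm 3 (x n ^ 2) := by
      rw [hc, sq, padicNorm.mul]; nlinarith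
    rw [hs, padicNorm.add_eq_max_of_ne h1.ne', max_eq_left h1.le, sq, padicNorm.mul]
    nlinarith
  have hge : ∀ n, 9 < padicNorm 3 (x n) := by
    intro n
    induction n with
    | zero => rw [h0]; norm_num
    | succ n ih => exact ih.trans (key n ih)
  have hmono : StrictMono (fun n => padicNorm 3 (x n)) :=
    strictMono_nat_of_lt_succ (fun n => key n (hge n))
  apply Set.infinite_range_of_injective
  intro a b h
  apply hmono.injective
  simp only
  rw [h]

lemma iter_pow (d n : ℕ) : ((X ^ d : ℚ[X]).comp)^[n] X = X ^ (d ^ n) := by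
  induction n with
  | zero => simp
  | succ n ih => rw [Function.iterate_succ_apply', ih, pow_comp, X_comp, ← pow_mul, ← pow_succ]

lemma omega_pow (m p : ℕ) (hm : 0 < m) (hp : 2 ≤ p) (j : ℕ) :
    j + 1 ≤ (normalizedFactors (X ^ (m * p ^ j) - C (2 ^ (p ^ j)) : ℚ[X])).card := by
  induction j with
  | zero =>
    apply card_pos
    rw [natDegree_X_pow_sub_C]
    positivity
  | succ j ih =>
    obtain ⟨q, hq⟩ := sub_dvd_pow_sub_pow (X ^ (m * p ^ j) : ℚ[X]) (C (2 ^ (p ^ j))) p
    rw [← pow_mul, ← C_pow, ← pow_mul, mul_assoc, ← pow_succ] at hq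
    have hpos : 0 < m * p ^ j := by positivity
    have h0 : (X ^ (m * p ^ j) - C (2 ^ (p ^ j)) : ℚ[X]) ≠ 0 := X_pow_sub_C_ne_zero hpos _
    have hq0 : q ≠ 0 := by
      rintro rfl
      rw [mul_zero] at hq
      exact X_pow_sub_C_ne_zero (by positivity) _ hq
    have hd := congrArg natDegree hq
    rw [natDegree_mul h0 hq0, natDegree_X_pow_sub_C, natDegree_X_pow_sub_C, pow_succ,
      ← mul_assoc] at hd
    have hqd : 0 < q.natDegree := by nlinarith
    rw [hq, normalizedFactors_mul h0 hq0, Multiset.card_add]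
    have := card_pos q hqd
    omega

lemma pow_no_pre (d p q k : ℕ) (hp : p.Prime) (hq : q.Prime) (hpq : p ≠ q) (hqd : q ∣ d) (x : ℚ) :
    x ^ d ≠ 2 ^ (p ^ k) := by
  intro h
  have h1 := congrArg (padicValRat 2) h
  rw [padicValRat.pow, padicValRat.pow] at h1
  have h2 : padicValRat 2 2 = 1 := by
    have := padicValRat.self (p := 2) (by norm_num)
    exact_mod_cast this
  rw [h2, mul_one] at h1
  have h3 : (q : ℤ) ∣ ((p ^ k : ℕ) : ℤ) := by
    rw [← h1]
    exact Dvd.dvd.mul_right (Int.natCast_dvd_natCast.2 hqd) _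
  have h4 := hq.dvd_of_dvd_pow (Int.natCast_dvd_natCast.1 h3)
  exact hpq ((Nat.prime_dvd_prime_iff_eq hq hp).1 h4).symm

lemma pow_wandering (d : ℕ) (hd : 2 ≤ d) (a : ℚ) (ha : 1 < a) :
    (Set.range fun n : ℕ => (fun x => (X ^ d : ℚ[X]).eval x)^[n] a).Infinite := by
  have h : ∀ n, (fun x => (X ^ d : ℚ[X]).eval x)^[n] a = a ^ (d ^ n) := by
    intro n
    induction n with
    | zero => simp
    | succ n ih => rw [Function.iterate_succ_apply', ih, eval_pow, eval_X, ← pow_mul, ← pow_succ]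
  apply Set.infinite_range_of_injective
  intro i j hij
  simp only [h] at hij
  exact Nat.pow_right_injective hd (pow_right_injective₀ (by linarith) ha.ne' hij)

theorem unbounded (d p q : ℕ) (hp : p.Prime) (hq : q.Prime) (hpq : p ≠ q) (hpd : p ∣ d)
    (hqd : q ∣ d) (hd : 2 ≤ d) (M : ℕ) :
    ∃ (f : ℚ[X]) (α : ℚ) (n : ℕ), f.natDegree = d ∧
      (Set.range fun k : ℕ => (fun x => f.eval x)^[k] α).Infinite ∧
      (∀ x : ℚ, f.eval x ≠ α) ∧ 1 ≤ n ∧
      M < (normalizedFactors ((f.comp)^[n] X - C α)).card := by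
  refine ⟨X ^ d, 2 ^ (p ^ (M + 1)), M + 1, natDegree_X_pow d,
    pow_wandering d hd _ (one_lt_pow₀ (by norm_num) (pow_pos hp.pos _).ne'), fun x => ?_,
    by omega, ?_⟩
  · rw [eval_pow, eval_X]
    exact pow_no_pre d p q _ hp hq hpq hqd x
  · obtain ⟨m, rfl⟩ := hpd
    have hm : 0 < m := Nat.pos_of_mul_pos_left (by omega : 0 < p * m)
    have := omega_pow (m ^ (M + 1)) p (by positivity) hp.two_le (M + 1)
    rw [iter_pow, mul_pow, mul_comm]
    omega

end Pool.Agent.H49.EvStable
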