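import Mathlib

/-! Estermann's lemma. -/

set_option autoImplicit false

namespace Pool.Agent.H49.MD

open Finset Filter Topology Complex
open scoped ComplexOrder

lemma dinv (m : ℕ) : iteratedDeriv m (fun s : ℂ => (s - 1)⁻¹) 2 = (-1) ^ m * m.factorial := by
  have := congrFun (iter_deriv_inv_linear_sub m (1 : ℂ) 1) 2
  simp only [one_mul] at this
  rw [iteratedDeriv_eq_iterate, this]
  norm_num

lemma est : ∃ K : ℝ, 1 ≤ K ∧ ∀ (g : ℂ → ℂ) (a : ℕ → ℂ) (M σ : ℝ), Differentiable ℂ g → 0 ≤ a →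
    a 1 = 1 → (∀ s : ℂ, 1 < s.re → LSeriesSummable a s) →
    (∀ s : ℂ, 1 < s.re → LSeries a s = riemannZeta s * g s) → 1 ≤ M →
    (∀ s ∈ Metric.closedBall (2 : ℂ) (3 / 2), ‖g s‖ ≤ M) → 7 / 8 ≤ σ → σ < 1 →
    (riemannZeta σ * g σ).re ≤ 0 →
    (1 - σ) / 2 * Real.exp (-((1 - σ) * (4 * Real.log (K * M) + 1))) ≤ (g 1).re := by
  obtain ⟨C, hC⟩ := (isCompact_closedBall (2 : ℂ) (3 / 2)).exists_bound_of_continuousOn
    differentiable_riemannZeta₁.continuous.continuousOn
  have C0 : 0 ≤ C := (norm_nonneg _).trans (hC 2 (Metric.mem_closedBall_self (by norm_num)))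
  refine ⟨16 * (C + 1), by linarith, fun g a M σ hg a0 a1 hs hL M1 hM s0 s1 hF => ?_⟩
  set l := g 1 with hl
  set Φ := dslope (fun s => riemannZeta₁ s * g s) 1 with hΦ
  have dΦ : Differentiable ℂ Φ := differentiableOn_univ.1
    ((Complex.differentiableOn_dslope univ_mem).2
      (differentiable_riemannZeta₁.mul hg).differentiableOn)
  have e : ∀ s : ℂ, s ≠ 1 → Φ s = riemannZeta s * g s - l * (s - 1)⁻¹ := fun s h => by
    rw [hΦ, dslope_of_ne _ h, slope_def_field, riemannZeta_eq_inv_sub_mul h, riemannZeta₁_one]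
    ring
  set M' := 2 * (C + 1) * M with hM'
  have M'0 : 0 < M' := by positivity
  have l1 : ‖l‖ ≤ M := hM 1 (by simp [dist_eq_norm]; norm_num)
  have bd : ∀ s ∈ Metric.sphere (2 : ℂ) (3 / 2), ‖Φ s‖ ≤ M' := fun s h => by
    have h1 := mem_sphere_iff_norm.1 h
    have h2 : 1 / 2 ≤ ‖s - 1‖ := by
      have := norm_sub_le (s - 1) (1 : ℂ)
      rw [show s - 1 - 1 = s - 2 by ring, h1, norm_one] at this; linarith
    have h3 : s ≠ 1 := by rintro rfl; norm_num at h2
    have h4 := Metric.sphere_subset_closedBall h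
    rw [hΦ, dslope_of_ne _ h3, slope_def_field, riemannZeta₁_one, one_mul, norm_div,
      div_le_iff₀ (by linarith)]
    have := (norm_sub_le (riemannZeta₁ s * g s) l).trans (add_le_add
      ((norm_mul _ _).le.trans (mul_le_mul (hC s h4) (hM s h4) (norm_nonneg _) C0)) l1)
    nlinarith [mul_le_mul_of_nonneg_left h2 M'0.le]
  have ab : LSeries.abscissaOfAbsConv a < (2 : ℝ) :=
    ((hs (3 / 2) (by norm_num)).abscissaOfAbsConv_le).trans_lt (by
      rw [show ((3 / 2 : ℂ)).re = 3 / 2 by norm_num]; exact_mod_cast (by norm_num : (3 / 2 : ℝ) < 2))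
  have ev : Φ =ᶠ[𝓝 2] (LSeries a - fun s => l * (s - 1)⁻¹) := by
    filter_upwards [(isOpen_lt continuous_const continuous_re).mem_nhds
      (show (2 : ℂ) ∈ {z : ℂ | 1 < z.re} by simp)] with z hz
    have hz' : 1 < z.re := hz
    rw [e z (by rintro rfl; simp at hz'), Pi.sub_apply, hL z hz']
  have cI : ∀ m : ℕ, ContDiffAt ℂ m (fun s : ℂ => (s - 1)⁻¹) 2 := fun m =>
    (contDiffAt_id.sub contDiffAt_const).inv (by norm_num)
  have dm : ∀ m : ℕ, iteratedDeriv m Φ 2 =
      iteratedDeriv m (LSeries a) 2 - l * ((-1) ^ m * m.factorial) := fun m => by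
    rw [ev.iteratedDeriv_eq, iteratedDeriv_sub
      ((LSeries_analyticOnNhd a 2 (by simpa using ab)).contDiffAt)
      (contDiffAt_const.mul (cI m)), iteratedDeriv_const_mul _ (cI m), dinv]
  have T := Complex.hasSum_taylorSeries_on_ball (c := 2) (r := 2) dΦ.differentiableOn
    (z := σ) (by
      rw [mem_ball_iff_norm, ← ofReal_ofNat, ← ofReal_sub, norm_real, Real.norm_eq_abs, abs_lt]
      constructor <;> linarith)
  set t : ℕ → ℂ := fun n => (n.factorial : ℂ)⁻¹ • ((σ : ℂ) - 2) ^ n • iteratedDeriv n Φ 2 with ht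
  have f0 : ∀ m : ℕ, (0 : ℝ) < m.factorial := fun m => by exact_mod_cast m.factorial_pos
  have tb : ∀ m, ‖t m‖ ≤ M' * (3 / 4) ^ m := fun m => by
    have h1 := Complex.norm_iteratedDeriv_le_of_forall_mem_sphere_norm_le (c := 2) (R := 3 / 2) m
      (by norm_num) dΦ.diffContOnCl bd
    have h2 : ‖(σ : ℂ) - 2‖ ≤ 9 / 8 := by
      rw [← ofReal_ofNat, ← ofReal_sub, norm_real, Real.norm_eq_abs, abs_le]
      constructor <;> linarith
    simp only [ht, norm_smul, norm_inv, norm_natCast, norm_pow]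
    refine (mul_le_mul_of_nonneg_left (mul_le_mul (pow_le_pow_left₀ (norm_nonneg _) h2 m) h1
      (norm_nonneg _) (by positivity)) (by positivity)).trans_eq ?_
    rw [show (3 / 4 : ℝ) = 9 / 8 / (3 / 2) by norm_num, div_pow (9 / 8 : ℝ)]
    field_simp
  have tr : ∀ m, (if m = 0 then 1 else 0) - l.re * (2 - σ) ^ m ≤ (t m).re := fun m => by
    have h1 := LSeries.iteratedDeriv_alternating a0 ab m
    have h2 : t m = (((m.factorial : ℝ)⁻¹ * (2 - σ) ^ m : ℝ) : ℂ) *
        ((-1) ^ m * iteratedDeriv m (LSeries a) ((2 : ℝ) : ℂ)) - l * (((2 - σ) ^ m : ℝ) : ℂ) := by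
      have : (m.factorial : ℂ) ≠ 0 := by exact_mod_cast m.factorial_ne_zero
      have h3 : ((σ : ℂ) - 2) ^ m = (-1) ^ m * (2 - σ) ^ m := by rw [← mul_pow]; congr 1; ring
      have h4 : ((-1 : ℂ) ^ m) ^ 2 = 1 := by rw [← pow_mul, mul_comm, pow_mul]; simp
      simp only [ht, smul_eq_mul, dm, h3]
      push_cast
      field_simp
      linear_combination (-(2 - (σ : ℂ)) ^ m * m.factorial * l) * h4
    rw [h2, sub_re, re_ofReal_mul, re_mul_ofReal]
    refine sub_le_sub_right ?_ _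
    split_ifs with h
    · subst h
      simp only [Nat.factorial_zero, Nat.cast_one, inv_one, pow_zero, mul_one, one_mul,
        iteratedDeriv_zero]
      have := (hs ((2 : ℝ) : ℂ) (by simp)).le_tsum 1 fun j _ => LSeries.term_nonneg (a0 j) 2
      rw [LSeries.term_of_ne_zero one_ne_zero, a1] at this
      simpa [LSeries] using (Complex.le_def.1 this).1
    · exact mul_nonneg (by have : 0 ≤ 2 - σ := by linarith
                           positivity) ((Complex.le_def.1 h1).1)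
  set K := 16 * (C + 1) with hK
  have KM : 1 ≤ K * M := by nlinarith
  have lg : 0 ≤ Real.log (K * M) := Real.log_nonneg KM
  set n := ⌈4 * Real.log (K * M)⌉₊ with hn
  have n1 : 4 * Real.log (K * M) ≤ n := Nat.le_ceil _
  have n2 : (n : ℝ) ≤ 4 * Real.log (K * M) + 1 := (Nat.ceil_lt_add_one (by positivity)).le
  have n0 : n ≠ 0 := by
    have : 0 < Real.log (K * M) := Real.log_pos (by nlinarith)
    intro h; rw [h, Nat.cast_zero] at n1; linarith
  have p1 : M' * (3 / 4) ^ n ≤ 1 / 8 := by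
    have : (3 / 4 : ℝ) ^ n ≤ (K * M)⁻¹ := by
      refine (pow_le_pow_left₀ (by norm_num) (show (3 / 4 : ℝ) ≤ Real.exp (-(1 / 4)) by
        linarith [Real.add_one_le_exp (-(1 / 4 : ℝ))]) n).trans ?_
      rw [← Real.exp_nat_mul, ← Real.exp_log (show 0 < K * M by linarith), ← Real.exp_neg]
      exact Real.exp_le_exp.2 (by linarith)
    refine (mul_le_mul_of_nonneg_left this M'0.le).trans_eq ?_
    rw [hM', hK]; field_simp; norm_num
  have tail : ‖Φ σ - ∑ m ∈ range n, t m‖ ≤ 1 / 2 := by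
    have h1 := (hasSum_nat_add_iff' n).2 T
    have h2 := (hasSum_geometric_of_lt_one (r := 3 / 4) (by norm_num) (by norm_num)).mul_left
      (M' * (3 / 4) ^ n)
    refine (HasSum.norm_le_of_bounded h1 h2 fun m => (tb _).trans_eq (by ring)).trans ?_
    norm_num; linarith
  have q1 := (abs_le.1 ((abs_re_le_norm _).trans tail)).1
  rw [sub_re, re_sum] at q1
  have q2 := sum_le_sum fun m (_ : m ∈ range n) => tr m
  rw [sum_sub_distrib, sum_ite_eq', if_pos (mem_range.2 (Nat.pos_of_ne_zero n0)), ← mul_sum,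
    geom_sum_eq (by linarith)] at q2
  have q3 : (Φ σ).re ≤ l.re / (1 - σ) := by
    rw [e σ (by exact_mod_cast s1.ne), sub_re, ← ofReal_one, ← ofReal_sub, ← ofReal_inv,
      re_mul_ofReal, show l.re / (1 - σ) = 0 - l.re * (σ - 1)⁻¹ by
        rw [← neg_sub σ, div_neg]; ring]
    linarith
  have d0 : 0 < 1 - σ := by linarith
  have q4 : (1 - σ) / 2 ≤ l.re * (2 - σ) ^ n := by
    have : 1 / 2 ≤ l.re / (1 - σ) + l.re * (((2 - σ) ^ n - 1) / (2 - σ - 1)) := by linarith
    rw [show 2 - σ - 1 = 1 - σ by ring, ← mul_div_assoc, ← add_div, le_div_iff₀ d0] at this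
    linarith
  have q5 : (2 - σ) ^ n ≤ Real.exp ((1 - σ) * (4 * Real.log (K * M) + 1)) := by
    refine (pow_le_pow_left₀ (by linarith) (show 2 - σ ≤ Real.exp (1 - σ) by
      linarith [Real.add_one_le_exp (1 - σ)]) n).trans ?_
    rw [← Real.exp_nat_mul]
    exact Real.exp_le_exp.2 (by nlinarith)
  have l0 : 0 ≤ l.re := by
    by_contra h
    nlinarith [pow_pos (show 0 < 2 - σ by linarith) n]
  rw [Real.exp_neg, ← div_eq_mul_inv, div_le_iff₀ (Real.exp_pos _)]
  exact q4.trans (mul_le_mul_of_nonneg_left q5 l0)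

end Pool.Agent.H49.MD
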