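import Mathlib
import Pool.Agent.H49.MD1
import Pool.Agent.H59.MT3

/-! Siegel's theorem. -/

set_option autoImplicit false

namespace Pool.Agent.H49.MD

open Finset Filter Topology Complex DirichletCharacter Pool.Agent.H59.MT
open scoped ComplexOrder

variable {q : ℕ}

lemma cm (χ : DirichletCharacter ℂ q) : CM (fun n => χ n) :=
  ⟨by simp, fun m n => by simp, fun n => χ.norm_le_one _⟩

lemma sum_zmod [NeZero q] (f : ZMod q → ℂ) : ∑ t ∈ range q, f t = ∑ a, f a :=
  sum_nbij' (fun t => (t : ZMod q)) (fun a => a.val) (by simp) (fun a _ => by simp [ZMod.val_lt])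
    (fun t ht => ZMod.val_cast_of_lt (mem_range.1 ht)) (by simp) (by simp)

lemma ps [NeZero q] {χ : DirichletCharacter ℂ q} (h : χ ≠ 1) : PS (fun n => χ n) q := by
  have h0 : ∑ t ∈ range q, χ ((t + 1 : ℕ) : ZMod q) = 0 := by
    have := (sum_zmod (fun a => χ (a + 1))).trans
      ((Equiv.sum_comp (Equiv.addRight 1) (fun a => χ a)).trans (MulChar.sum_eq_zero_of_ne_one h))
    simpa using this
  intro N
  rw [← Ico_add_one_add_one_eq_Ioc, sum_Ico_eq_sum_range]
  simp only [zero_add, Nat.add_sub_cancel, add_comm 1]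
  induction N using Nat.strong_induction_on with
  | _ k ih =>
    rcases lt_or_ge k q with hk | hk
    · refine (norm_sum_le_of_le _ (n := fun _ => (1 : ℝ)) fun i _ => χ.norm_le_one _).trans ?_
      simpa using hk.le
    · obtain ⟨j, rfl⟩ := Nat.exists_eq_add_of_le hk
      rw [sum_range_add, h0, zero_add]
      have := ih j (by have := NeZero.pos q; omega)
      simpa using this

lemma lc_eq [NeZero q] {χ : DirichletCharacter ℂ q} (h : χ ≠ 1) {s : ℂ} (hs : 0 < s.re) :
    Lc (fun n => χ n) s = LFunction χ s := by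
  have o : IsOpen {z : ℂ | 0 < z.re} := isOpen_lt continuous_const continuous_re
  refine AnalyticOnNhd.eqOn_of_preconnected_of_eventuallyEq (U := {z : ℂ | 0 < z.re})
    (DifferentiableOn.analyticOnNhd (fun z hz => (Lc_diff (ps h) z hz).differentiableWithinAt) o)
    ((differentiable_LFunction h).differentiableOn.analyticOnNhd o)
    (convex_halfSpace_re_gt 0).isPreconnected (z₀ := 2) (by simp) ?_ hs
  filter_upwards [(isOpen_lt continuous_const continuous_re).mem_nhds
      (show (2 : ℂ) ∈ {z : ℂ | 1 < z.re} by simp)] with z hz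
  rw [Lc_eq (cm χ) (ps h) z hz, LFunction_eq_LSeries χ hz]

lemma disc [NeZero q] {χ : DirichletCharacter ℂ q} (h : χ ≠ 1) (s : ℂ)
    (hs : s ∈ Metric.closedBall (2 : ℂ) (3 / 2)) : ‖LFunction χ s‖ ≤ 9 * q := by
  have h1 := mem_closedBall_iff_norm.1 hs
  have h2 := (abs_le.1 ((abs_re_le_norm _).trans h1)).1
  have h3 := norm_le_norm_add_norm_sub' s 2
  simp only [sub_re, re_ofNat, Complex.norm_ofNat] at h2 h3
  have q1 : (1 : ℝ) ≤ q := by exact_mod_cast NeZero.pos q
  rw [← lc_eq h (by linarith)]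
  refine (Lc_bound (cm χ) (ps h) s (1 / 2) (by norm_num) le_rfl (by linarith) 1 one_pos).trans ?_
  simp only [Nat.cast_one, Real.one_rpow, Real.log_one, Real.sqrt_one]
  nlinarith

lemma at1 [NeZero q] {χ : DirichletCharacter ℂ q} (h : χ ≠ 1) :
    ‖LFunction χ 1‖ ≤ 4 + 2 * Real.log q := by
  have q1 : (0 : ℝ) < q := by exact_mod_cast NeZero.pos q
  rw [← lc_eq h (by simp)]
  refine (Lc_bound (cm χ) (ps h) 1 0 le_rfl (by norm_num) (by simp) (q ^ 2)
    (pow_pos (NeZero.pos q) 2)).trans_eq ?_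
  push_cast
  rw [Real.sqrt_sq q1.le, Real.log_pow, Real.rpow_zero, norm_one]
  field_simp; push_cast; ring

lemma real_val [NeZero q] {χ : DirichletCharacter ℂ q} (h : χ ≠ 1) (h2 : χ ^ 2 = 1) {σ : ℝ}
    (hs : 0 < σ) : (LFunction χ σ).im = 0 := by
  rw [← lc_eq h (by simpa using hs), ← conj_eq_iff_im, Lc, conj_tsum]
  refine tsum_congr fun n => ?_
  have e : ∀ a : ZMod q, (starRingEnd ℂ) (χ a) = χ a := fun a => by
    rcases MulChar.isQuadratic_iff_sq_eq_one.mpr h2 a with h | h | h <;> simp [h]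
  have e2 : ∀ x : ℝ, 0 ≤ x → (starRingEnd ℂ) ((x : ℂ) ^ (-(σ : ℂ))) = (x : ℂ) ^ (-(σ : ℂ)) :=
    fun x hx => by rw [← ofReal_neg, ← ofReal_cpow hx, conj_ofReal]
  have e3 := e2 (n + 1) (by positivity)
  have e4 := e2 (n + 2) (by positivity)
  push_cast at e3 e4
  simp only [tm, map_mul, map_sum, map_sub, e, e3, e4]

/-- The arithmetic function of a character. -/
noncomputable def af (χ : DirichletCharacter ℂ q) : ArithmeticFunction ℂ :=
  toArithmeticFunction (χ ·)

lemma af_sum (χ : DirichletCharacter ℂ q) {s : ℂ} (hs : 1 < s.re) : LSeriesSummable (af χ) s :=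
  (LSeriesSummable_congr _ fun h => (χ.apply_eq_toArithmeticFunction_apply h).symm).mpr
    (LSeriesSummable_of_one_lt_re χ hs)

lemma af_L [NeZero q] (χ : DirichletCharacter ℂ q) {s : ℂ} (hs : 1 < s.re) :
    LSeries (af χ) s = LFunction χ s := by
  rw [LFunction_eq_LSeries χ hs]
  exact (LSeries_congr χ.apply_eq_toArithmeticFunction_apply s).symm

lemma af_pp (χ : DirichletCharacter ℂ q) {p : ℕ} (hp : p.Prime) (k : ℕ) :
    af χ (p ^ k) = χ p ^ k := by
  simp [af, toArithmeticFunction, hp.ne_zero]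

lemma conv_pp (f g : ArithmeticFunction ℂ) {p : ℕ} (hp : p.Prime) (k : ℕ) :
    (f * g) (p ^ k) = ∑ i ∈ range (k + 1), f (p ^ i) * g (p ^ (k - i)) := by
  rw [ArithmeticFunction.mul_apply, Nat.sum_divisorsAntidiagonal (fun a b => f a * g b),
    Nat.sum_divisors_prime_pow hp]
  exact sum_congr rfl fun i hi => by rw [Nat.pow_div (by simpa [Nat.lt_succ_iff] using hi) hp.pos]

lemma nn_pair (f g : ArithmeticFunction ℂ) {p : ℕ} (hp : p.Prime) (x y : ℂ)
    (hf : ∀ k, f (p ^ k) = x ^ k) (hg : ∀ k, g (p ^ k) = y ^ k)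
    (h : (0 ≤ x ∧ 0 ≤ y) ∨ (x = -1 ∧ y = 1) ∨ (x = 1 ∧ y = -1)) (k : ℕ) :
    0 ≤ (f * g) (p ^ k) := by
  have key : ∀ f g : ArithmeticFunction ℂ, (∀ k, f (p ^ k) = (-1) ^ k) → (∀ k, g (p ^ k) = 1 ^ k) →
      0 ≤ (f * g) (p ^ k) := fun f g hf hg => by
    simp only [conv_pp f g hp, hf, hg, one_pow, mul_one, neg_one_geom_sum]
    split_ifs
    exacts [le_rfl, zero_le_one]
  rcases h with h | ⟨rfl, rfl⟩ | ⟨rfl, rfl⟩
  · rw [conv_pp f g hp]
    exact sum_nonneg fun i _ => by
      rw [hf, hg]; exact mul_nonneg (pow_nonneg h.1 _) (pow_nonneg h.2 _)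
  · exact key f g hf hg
  · rw [mul_comm]; exact key g f hg hf

lemma four {q₁ Q : ℕ} (χ : DirichletCharacter ℂ q) (χ₁ : DirichletCharacter ℂ q₁)
    (ψ : DirichletCharacter ℂ Q) (h : χ ^ 2 = 1) (h₁ : χ₁ ^ 2 = 1)
    (hψ : ∀ n : ℕ, ψ n = χ n * χ₁ n) (n : ℕ) :
    0 ≤ (af (1 : DirichletCharacter ℂ 1) * af χ₁ * (af χ * af ψ)) n := by
  rcases eq_or_ne n 0 with rfl | hn
  · simp
  have m : (af (1 : DirichletCharacter ℂ 1) * af χ₁ * (af χ * af ψ)).IsMultiplicative :=
    ((isMultiplicative_toArithmeticFunction _).mul (isMultiplicative_toArithmeticFunction _)).mul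
      ((isMultiplicative_toArithmeticFunction _).mul (isMultiplicative_toArithmeticFunction _))
  rw [m.multiplicative_factorization _ hn]
  refine prod_nonneg fun p hp => ?_
  beta_reduce
  have pp := Nat.prime_of_mem_primeFactors hp
  have o : (1 : DirichletCharacter ℂ 1) p = 1 := MulChar.one_apply (isUnit_of_subsingleton _)
  have a := MulChar.isQuadratic_iff_sq_eq_one.mpr h p
  have b := MulChar.isQuadratic_iff_sq_eq_one.mpr h₁ p
  by_cases c : χ₁ p = -1
  · rw [conv_pp _ _ pp]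
    refine sum_nonneg fun i _ => mul_nonneg
      (nn_pair _ _ pp _ _ (af_pp _ pp) (af_pp _ pp) (by simp [o, c]) _)
      (nn_pair _ _ pp _ _ (af_pp _ pp) (af_pp _ pp) ?_ _)
    rcases a with a | a | a <;> simp [hψ, a, c]
  · rw [mul_mul_mul_comm, conv_pp _ _ pp]
    refine sum_nonneg fun i _ => mul_nonneg
      (nn_pair _ _ pp _ _ (af_pp _ pp) (af_pp _ pp) ?_ _)
      (nn_pair _ _ pp _ _ (af_pp _ pp) (af_pp _ pp) ?_ _)
    · rcases a with a | a | a <;> simp [o, a]
    · rcases b with b | b | b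
      · simp [hψ, b]
      · rcases a with a | a | a <;> simp [hψ, a, b]
      · exact absurd b c

lemma cl_mul {q₁ : ℕ} (χ : DirichletCharacter ℂ q) (χ₁ : DirichletCharacter ℂ q₁) (n : ℕ) :
    (changeLevel (dvd_mul_right q q₁) χ * changeLevel (dvd_mul_left q₁ q) χ₁) n = χ n * χ₁ n := by
  by_cases h : IsCoprime (n : ℤ) ((q * q₁ : ℕ) : ℤ)
  · have a := χ.changeLevel_eq_cast_of_dvd' (dvd_mul_right q q₁) h
    have b := χ₁.changeLevel_eq_cast_of_dvd' (dvd_mul_left q₁ q) h
    simp only [Int.cast_natCast] at a b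
    rw [MulChar.mul_apply, a, b]
  · have a := (apply_eq_zero_iff (changeLevel (dvd_mul_right q q₁) χ *
      changeLevel (dvd_mul_left q₁ q) χ₁) n).2 h
    have b := χ.apply_eq_zero_iff n
    have c := χ₁.apply_eq_zero_iff n
    simp only [Int.cast_natCast] at a b c
    rw [a, eq_comm, mul_eq_zero, b, c, ← not_and_or, ← IsCoprime.mul_right_iff]
    exact_mod_cast h

lemma af_one {s : ℂ} (hs : 1 < s.re) :
    LSeries (af (1 : DirichletCharacter ℂ 1)) s = riemannZeta s := by
  rw [af_L _ hs, LFunction_modOne_eq]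

lemma zm [NeZero q] (χ : DirichletCharacter ℂ q) {s : ℂ} (hs : 1 < s.re) :
    LSeries χ.zetaMul s = riemannZeta s * LFunction χ s := by
  rw [← af_L χ hs, ← ArithmeticFunction.LSeries_zeta_eq_riemannZeta hs]
  exact ArithmeticFunction.LSeries_mul' (f := ArithmeticFunction.zeta)
    (ArithmeticFunction.LSeriesSummable_zeta_iff.mpr hs) (af_sum χ hs)

lemma af_1 (χ : DirichletCharacter ℂ q) : af χ 1 = 1 := by simp [af, toArithmeticFunction]

lemma lg (ε x : ℝ) (h : 0 < ε) : x ≤ Real.exp (ε * x) / ε := by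
  rw [le_div_iff₀ h]; linarith [Real.add_one_le_exp (ε * x)]

theorem siegel (ε : ℝ) (hε : 0 < ε) : ∃ c : ℝ, 0 < c ∧ ∀ (q : ℕ) [NeZero q]
    (χ : DirichletCharacter ℂ q), χ ≠ 1 → χ ^ 2 = 1 →
    c * Real.exp (-(ε * Real.log q)) ≤ ‖LFunction χ 1‖ := by
  obtain ⟨K, K1, hK⟩ := est
  obtain ⟨δ, δ0, δ1, δ2, hδ⟩ : ∃ δ : ℝ, 0 < δ ∧ δ ≤ 1 / 8 ∧ δ ≤ ε / 16 ∧
      ∀ σ : ℝ, 1 - δ ≤ σ → σ < 1 → (riemannZeta σ).re ≤ 0 := by
    have c : ContinuousAt (fun σ : ℝ => (riemannZeta₁ σ).re) 1 :=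
      (continuous_re.comp (differentiable_riemannZeta₁.continuous.comp
        continuous_ofReal)).continuousAt
    obtain ⟨r, r0, hr⟩ := Metric.eventually_nhds_iff.1
      (c.eventually (lt_mem_nhds (show (0 : ℝ) < _ by simp)))
    refine ⟨min (r / 2) (min (1 / 8) (ε / 16)), by positivity, by simp, by simp, fun σ h1 h2 => ?_⟩
    have := hr (y := σ) (by
      rw [Real.dist_eq, abs_lt]; constructor <;> linarith [min_le_left (r / 2) (min (1 / 8) (ε / 16))])
    rw [riemannZeta_eq_inv_sub_mul (by exact_mod_cast h2.ne), ← ofReal_one, ← ofReal_sub,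
      ← ofReal_inv, re_ofReal_mul]
    exact mul_nonpos_of_nonpos_of_nonneg (inv_nonpos.2 (by linarith)) this.le
  have two : ∀ σ : ℝ, 1 - δ ≤ σ → σ < 1 → ∃ c : ℝ, 0 < c ∧ ∀ (q : ℕ) [NeZero q]
      (χ : DirichletCharacter ℂ q), χ ≠ 1 → χ ^ 2 = 1 → 0 ≤ (LFunction χ σ).re →
      c * Real.exp (-(ε * Real.log q)) ≤ ‖LFunction χ 1‖ := fun σ s0 s1 => by
    refine ⟨(1 - σ) / 2 * Real.exp (-(4 * Real.log (K * 9) + 1)), by
      have : 0 < 1 - σ := by linarith
      positivity, fun q _ χ h h2 h3 => ?_⟩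
    have q1 : (1 : ℝ) ≤ q := by exact_mod_cast NeZero.pos q
    have := hK (LFunction χ) χ.zetaMul (9 * q) σ (differentiable_LFunction h) (zetaMul_nonneg h2)
      χ.isMultiplicative_zetaMul.map_one (fun s hs => χ.LSeriesSummable_zetaMul hs)
      (fun s hs => zm χ hs)
      (by linarith) (disc h) (by linarith) s1 (by
        rw [mul_re, real_val h h2 (by linarith), mul_zero, sub_zero]
        exact mul_nonpos_of_nonpos_of_nonneg (hδ σ s0 s1) h3)
    refine le_trans ?_ (this.trans (re_le_norm _))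
    rw [mul_assoc, ← Real.exp_add, ← mul_assoc K,
      Real.log_mul (x := K * 9) (by positivity) (by positivity)]
    refine mul_le_mul_of_nonneg_left (Real.exp_le_exp.2 ?_) (by linarith)
    have l1 := Real.log_nonneg q1
    have l2 : 0 ≤ Real.log (K * 9) := Real.log_nonneg (by linarith)
    have := mul_le_mul_of_nonneg_right (show 1 - σ ≤ ε / 16 by linarith) l1
    have := mul_le_mul_of_nonneg_right (show 1 - σ ≤ 1 by linarith) l2
    have := mul_nonneg hε.le l1
    linarith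
  by_cases H : ∃ (q₁ : ℕ) (_ : NeZero q₁) (χ₁ : DirichletCharacter ℂ q₁) (β : ℝ), χ₁ ≠ 1 ∧
      χ₁ ^ 2 = 1 ∧ 1 - δ ≤ β ∧ β < 1 ∧ LFunction χ₁ β = 0
  swap
  · obtain ⟨c, c0, hc⟩ := two (1 - δ) le_rfl (by linarith)
    refine ⟨c, c0, fun q _ χ h h2 => hc q χ h h2 ?_⟩
    by_contra h3
    have c : Continuous fun σ : ℝ => (LFunction χ σ).re :=
      continuous_re.comp ((differentiable_LFunction h).continuous.comp continuous_ofReal)
    have p2 : 0 ≤ (LFunction χ (2 : ℝ)).re := by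
      have a := LSeries.positive (a := χ.zetaMul) (zetaMul_nonneg h2)
        (by rw [χ.isMultiplicative_zetaMul.map_one]; exact zero_lt_one) (x := 2)
        (((χ.LSeriesSummable_zetaMul (s := 3 / 2) (by norm_num)).abscissaOfAbsConv_le).trans_lt (by
          rw [show ((3 / 2 : ℂ)).re = 3 / 2 by norm_num]
          exact_mod_cast (by norm_num : (3 / 2 : ℝ) < 2)))
      have hs : 1 < ((2 : ℝ) : ℂ).re := by simp
      rw [zm χ hs] at a
      have b : 0 < (riemannZeta (2 : ℝ) * LFunction χ (2 : ℝ)).re := (Complex.lt_def.1 a).1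
      rw [mul_re, real_val h h2 (by norm_num), mul_zero, sub_zero] at b
      exact (pos_of_mul_pos_right b (riemannZeta_re_pos_of_one_lt (by norm_num)).le).le
    obtain ⟨β, b1, b2⟩ := intermediate_value_Icc (show 1 - δ ≤ 2 by linarith) c.continuousOn
      ⟨(not_le.1 h3).le, p2⟩
    have z : LFunction χ β = 0 := Complex.ext b2 (real_val h h2 (by linarith [b1.1]))
    refine H ⟨q, inferInstance, χ, β, h, h2, b1.1, ?_, z⟩
    by_contra h4
    exact LFunction_ne_zero_of_one_le_re χ (Or.inl h) (by simpa using h4) z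
  obtain ⟨q₁, _, χ₁, β, h₁, h₂, b0, b1, z⟩ := H
  obtain ⟨c, c0, hc⟩ := two β b0 b1
  have Q1 : (1 : ℝ) ≤ q₁ := by exact_mod_cast NeZero.pos q₁
  have L1 := Real.log_nonneg Q1
  set A := (4 + 2 * Real.log q₁) * (4 + 2 * Real.log q₁ + 4 / ε) with hA
  have A0 : 0 < A := by positivity
  have β0 : 0 < 1 - β := by linarith
  refine ⟨min c ((1 - β) / 2 * Real.exp (-(4 * Real.log (K * 729 * q₁ ^ 2) + 1)) / A),
    by positivity, fun q _ χ h h2 => ?_⟩
  have q1 : (1 : ℝ) ≤ q := by exact_mod_cast NeZero.pos q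
  have l1 := Real.log_nonneg q1
  set ψ := changeLevel (dvd_mul_right q q₁) χ * changeLevel (dvd_mul_left q₁ q) χ₁ with hψ
  by_cases e : ψ = 1
  · refine le_trans (mul_le_mul_of_nonneg_right (min_le_left _ _) (by positivity))
      (hc q χ h h2 (le_of_eq ?_))
    have e1 : changeLevel (dvd_mul_right q q₁) χ = changeLevel (dvd_mul_left q₁ q) χ₁ := by
      have : changeLevel (dvd_mul_left q₁ q) χ₁ * changeLevel (dvd_mul_left q₁ q) χ₁ = 1 := by
        rw [← map_mul, ← sq, h₂, map_one]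
      exact mul_right_cancel (e.trans this.symm)
    have e2 := LFunction_changeLevel (dvd_mul_right q q₁) χ (s := β) (Or.inl h)
    rw [e1, LFunction_changeLevel _ _ (Or.inl h₁), z, zero_mul, eq_comm, mul_eq_zero] at e2
    rcases e2 with e2 | e2
    · rw [e2]; rfl
    · obtain ⟨p, hp, e3⟩ := prod_eq_zero_iff.1 e2
      have p1 : (1 : ℝ) < p := by exact_mod_cast (Nat.prime_of_mem_primeFactors hp).one_lt
      have := congrArg norm (sub_eq_zero.1 e3)
      rw [norm_one, norm_mul, ← ofReal_natCast p, norm_cpow_eq_rpow_re_of_pos (by linarith)] at this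
      have e4 := Real.rpow_lt_one_of_one_lt_of_neg p1 (show (-(β : ℂ)).re < 0 by simp; linarith)
      nlinarith [χ.norm_le_one p, norm_nonneg (χ p),
        Real.rpow_nonneg (show (0 : ℝ) ≤ p by linarith) (-(β : ℂ)).re]
  refine le_trans (mul_le_mul_of_nonneg_right (min_le_right _ _) (by positivity)) ?_
  have := hK (fun s => LFunction χ₁ s * (LFunction χ s * LFunction ψ s))
    (af (1 : DirichletCharacter ℂ 1) * af χ₁ * (af χ * af ψ) : ArithmeticFunction ℂ)
    (9 * q₁ * (9 * q * (9 * (q * q₁ : ℕ)))) β ((differentiable_LFunction h₁).mul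
      ((differentiable_LFunction h).mul (differentiable_LFunction e)))
    (four χ χ₁ ψ h2 h₂ (cl_mul χ χ₁)) (by simp [af_1])
    (fun s hs => ArithmeticFunction.LSeriesSummable_mul
      (ArithmeticFunction.LSeriesSummable_mul (af_sum _ hs) (af_sum _ hs))
      (ArithmeticFunction.LSeriesSummable_mul (af_sum _ hs) (af_sum _ hs)))
    (fun s hs => by
      rw [ArithmeticFunction.LSeries_mul'
        (ArithmeticFunction.LSeriesSummable_mul (af_sum _ hs) (af_sum _ hs))
        (ArithmeticFunction.LSeriesSummable_mul (af_sum _ hs) (af_sum _ hs)),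
        ArithmeticFunction.LSeries_mul' (af_sum _ hs) (af_sum _ hs),
        ArithmeticFunction.LSeries_mul' (af_sum _ hs) (af_sum _ hs), af_one hs, af_L _ hs,
        af_L _ hs, af_L _ hs, mul_assoc])
    (by
      push_cast
      exact one_le_mul_of_one_le_of_one_le (by linarith)
        (one_le_mul_of_one_le_of_one_le (by linarith) (by nlinarith)))
    (fun s hs => by
      rw [norm_mul, norm_mul]
      exact mul_le_mul (disc h₁ s hs) (mul_le_mul (disc h s hs) (disc e s hs) (norm_nonneg _)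
        (by positivity)) (by positivity) (by positivity))
    (by linarith) b1 (by simp [z])
  have u : ‖LFunction χ₁ 1 * (LFunction χ 1 * LFunction ψ 1)‖ ≤
      A * Real.exp (ε / 2 * Real.log q) * ‖LFunction χ 1‖ := by
    have a1 := at1 e
    have a2 := lg (ε / 2) (Real.log q) (by positivity)
    have a3 := Real.one_le_exp (show 0 ≤ ε / 2 * Real.log q by positivity)
    rw [Nat.cast_mul, Real.log_mul (by positivity) (by positivity)] at a1
    have a4 : ‖LFunction ψ 1‖ ≤ (4 + 2 * Real.log q₁ + 4 / ε) * Real.exp (ε / 2 * Real.log q) := by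
      rw [div_div_eq_mul_div, mul_div_assoc] at a2
      rw [show 4 / ε = 2 * (2 / ε) by ring]
      nlinarith
    rw [norm_mul, norm_mul]
    exact (mul_le_mul (at1 h₁) (mul_le_mul_of_nonneg_left a4 (norm_nonneg _)) (by positivity)
      (by positivity)).trans_eq (by rw [hA]; ring)
  have v := (this.trans (re_le_norm _)).trans u
  rw [div_mul_eq_mul_div, div_le_iff₀ A0]
  refine le_of_mul_le_mul_right (le_trans ?_ (v.trans_eq
    (b := _) (c := ‖LFunction χ 1‖ * A * Real.exp (ε / 2 * Real.log q)) (by ring)))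
    (Real.exp_pos _)
  rw [mul_assoc, mul_assoc, ← Real.exp_add, ← Real.exp_add,
    show K * (9 * (q₁ : ℝ) * (9 * q * (9 * (q * q₁ : ℕ)))) = K * 729 * q₁ ^ 2 * q ^ 2 by
      push_cast; ring, Real.log_mul (x := K * 729 * q₁ ^ 2) (by positivity) (by positivity),
    Real.log_pow]
  refine mul_le_mul_of_nonneg_left (Real.exp_le_exp.2 ?_) (by linarith)
  have l2 : 0 ≤ Real.log (K * 729 * q₁ ^ 2) := Real.log_nonneg (by nlinarith)
  push_cast
  nlinarith [mul_le_mul_of_nonneg_right (show 1 - β ≤ ε / 16 by linarith) l1,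
    mul_le_mul_of_nonneg_right (show 1 - β ≤ 1 by linarith) l2]

end Pool.Agent.H49.MD
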