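import Mathlib
import Pool.Agent.H49.MD2

/-! Upper bounds for zeta near the line of convergence, and auxiliary products. -/

set_option autoImplicit false

namespace Pool.Agent.H49.MD

open Finset Filter Topology Complex DirichletCharacter Pool.Agent.H59 Pool.Agent.H59.MT

lemma zub {L : ℝ} (hL : 1 ≤ L) (s : ℂ) (h1 : 1 - 1 / (30 * L) ≤ s.re)
    (h2 : ‖s‖ ≤ Real.exp (8 * L)) : ‖riemannZeta₁ s‖ ≤ (‖s - 1‖ + 1) * (100 * L) := by
  set N := ⌈Real.exp (24 * L)⌉₊ with hN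
  have e0 := Real.exp_pos (24 * L)
  have N1 : Real.exp (24 * L) ≤ N := Nat.le_ceil _
  have N0 : (0 : ℝ) < N := e0.trans_le N1
  have N2 : (N : ℝ) + 1 ≤ Real.exp (26 * L) := by
    have a := (Nat.ceil_lt_add_one e0.le).le
    have b := Real.add_one_le_exp (2 * L)
    have b2 := Real.one_le_exp (show 0 ≤ 24 * L by linarith)
    rw [show 26 * L = 24 * L + 2 * L by ring, Real.exp_add]
    nlinarith
  have N3 : Real.log (N + 1) ≤ 26 * L := (Real.log_le_iff_le_exp (by linarith)).2 N2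
  have N5 : Real.log N ≤ 26 * L := (Real.log_le_log N0 (by linarith)).trans N3
  have N4 : Real.exp (12 * L) ≤ √N := Real.le_sqrt_of_sq_le (by
    rw [← Real.exp_nat_mul]; exact le_of_eq_of_le (by congr 1; push_cast; ring) N1)
  have a1 : 1 / (30 * L) ≤ 1 / 2 := one_div_le_one_div_of_le (by norm_num) (by linarith)
  have a0 : 0 < 1 / (30 * L) := by positivity
  have b0 : ((N : ℝ) + 1) ^ (1 / (30 * L)) ≤ 3 := by
    rw [Real.rpow_def_of_pos (by linarith)]
    refine (Real.exp_le_exp.2 (show _ ≤ 1 from ?_)).trans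
      (Real.exp_one_lt_d9.le.trans (by norm_num))
    rw [mul_one_div, div_le_one (by linarith)]; linarith
  have s0 : 0 < s.re := by linarith
  rw [Zt.zeta1_eq s s0, ← (Zt.summ_tm s s0).sum_add_tsum_nat_add N, Zt.sum_tm]
  have b1 : ‖∑ n ∈ range N, ((n : ℂ) + 1) ^ (-s)‖ ≤ 3 * (1 + Real.log N) := by
    have hh := harmonic_le_one_add_log N
    rw [harmonic, Rat.cast_sum] at hh
    refine (norm_sum_le _ _).trans (le_trans ?_ (mul_le_mul_of_nonneg_left hh (by positivity)))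
    rw [mul_sum]
    refine sum_le_sum fun n hn => ?_
    have n1 : (n : ℝ) + 1 ≤ N := by exact_mod_cast mem_range.1 hn
    have n0 : (0 : ℝ) ≤ n := Nat.cast_nonneg n
    rw [nrm1]
    refine (Real.rpow_le_rpow_of_exponent_le (by linarith)
      (show -s.re ≤ 1 / (30 * L) - 1 by linarith)).trans ?_
    rw [Real.rpow_sub (by linarith), Real.rpow_one, div_eq_mul_inv]
    push_cast
    exact mul_le_mul_of_nonneg_right ((Real.rpow_le_rpow (by linarith) (by linarith) a0.le).trans b0)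
      (by positivity)
  have b2 : ‖((N : ℂ) + 1) ^ (1 - s)‖ ≤ 3 := by
    rw [show 1 - s = -(s - 1) by ring, nrm1]
    exact (Real.rpow_le_rpow_of_exponent_le (by linarith) (by rw [sub_re, one_re]; linarith)).trans b0
  have b3 : ‖∑' n, Zt.tm (n + N) s‖ ≤ ‖s‖ * ‖s - 1‖ * (2 / √N) := by
    have hb : ∀ n, ‖Zt.tm (n + N) s‖ ≤ ‖s‖ * ‖s - 1‖ *
        (((n + N : ℕ) : ℝ) + 1) ^ (-(1 / 2 : ℝ) - 1) :=
      fun n => (Zt.tm_bound _ s s0).trans (mul_le_mul_of_nonneg_left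
        (Real.rpow_le_rpow_of_exponent_le (by linarith [Nat.cast_nonneg (α := ℝ) (n + N)])
          (by linarith)) (by positivity))
    have sm := ((summable_nat_add_iff N).2 (Zt.summ (1 / 2) (by norm_num))).mul_left (‖s‖ * ‖s - 1‖)
    refine (tsum_of_norm_bounded sm.hasSum hb).trans ?_
    rw [tsum_mul_left]
    refine mul_le_mul_of_nonneg_left (Real.tsum_le_of_sum_range_le (fun n => by positivity)
      fun M => (tail32 N (by exact_mod_cast N0) M).trans ?_) (by positivity)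
    have : 0 ≤ 2 / √((M + N : ℕ) : ℝ) := by positivity
    linarith
  have b4 : ‖s‖ * (2 / √N) ≤ 2 := by
    rw [← mul_div_assoc, div_le_iff₀ (Real.sqrt_pos.2 N0)]
    linarith [Real.exp_le_exp.2 (show 8 * L ≤ 12 * L by linarith)]
  rw [show ∀ a b c : ℂ, 1 + (a - 1 + b + c) = a + b + c from fun a b c => by ring]
  refine (norm_add₃_le.trans (add_le_add (add_le_add ((norm_mul _ _).le.trans
    (mul_le_mul_of_nonneg_left b1 (norm_nonneg _))) b2) b3)).trans ?_
  nlinarith [norm_nonneg (s - 1), mul_le_mul_of_nonneg_left b4 (norm_nonneg (s - 1)),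
    mul_le_mul_of_nonneg_left (show 3 * (1 + Real.log N) + 2 ≤ 100 * L by linarith)
      (norm_nonneg (s - 1))]

lemma zdb {L : ℝ} (hL : 1 ≤ L) (s : ℂ) (h1 : 1 - 1 / (60 * L) ≤ s.re)
    (h2 : ‖s‖ ≤ Real.exp (8 * L) - 1) :
    ‖deriv riemannZeta₁ s‖ ≤ (‖s - 1‖ + 2) * (6000 * L ^ 2) := by
  have r0 : 0 < 1 / (60 * L) := by positivity
  have r1 : 1 / (60 * L) ≤ 1 / 4 := one_div_le_one_div_of_le (by norm_num) (by linarith)
  have e : 1 / (30 * L) = 2 * (1 / (60 * L)) := by field_simp; norm_num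
  have := Complex.norm_deriv_le_of_forall_mem_sphere_norm_le (f := riemannZeta₁) (c := s) r0
    (C := (‖s - 1‖ + 2) * (100 * L)) differentiable_riemannZeta₁.diffContOnCl
    fun z hz => by
      have h3 := mem_sphere_iff_norm.1 hz
      have h4 := (abs_le.1 ((abs_re_le_norm (z - s)).trans h3.le)).1
      have h5 := norm_le_norm_add_norm_sub' z s
      have h6 := norm_le_norm_add_norm_sub' (z - 1) (s - 1)
      rw [sub_sub_sub_cancel_right] at h6
      rw [sub_re] at h4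
      exact (zub hL z (by linarith) (by linarith)).trans
        (mul_le_mul_of_nonneg_right (by linarith) (by linarith))
  refine this.trans_eq ?_
  field_simp; norm_num

lemma mv (G : ℂ → ℂ) (r B : ℝ) (r1 : r ≤ 1 / 2) (z s : ℂ)
    (hd : ∀ w : ℂ, 0 < w.re → DifferentiableAt ℂ G w)
    (hb : ∀ w : ℂ, 1 - r ≤ w.re → ‖w - z‖ ≤ 1 → ‖deriv G w‖ ≤ B) (hz : 1 - r ≤ z.re)
    (hs : 1 - r ≤ s.re) (h : ‖s - z‖ ≤ 1) : ‖G z‖ - B * ‖s - z‖ ≤ ‖G s‖ := by
  have m := Convex.norm_image_sub_le_of_norm_deriv_le (f := G) (C := B)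
    (s := {w : ℂ | 1 - r ≤ w.re} ∩ Metric.closedBall z 1)
    (x := z) (y := s) (fun w hw => hd w (by have : 1 - r ≤ w.re := hw.1; linarith))
    (fun w hw => hb w hw.1 (mem_closedBall_iff_norm.1 hw.2))
    ((convex_halfSpace_re_ge _).inter (convex_closedBall _ _))
    ⟨hz, Metric.mem_closedBall_self zero_le_one⟩ ⟨hs, mem_closedBall_iff_norm.2 h⟩
  have := norm_le_norm_add_norm_sub' (G z) (G s)
  rw [norm_sub_rev] at this
  linarith

lemma prod1 {q : ℕ} (hq : 0 < q) : ∏ p ∈ q.primeFactors, (1 + (p : ℝ)⁻¹) ≤ 1 + Real.log q := by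
  have hh := harmonic_le_one_add_log q
  rw [harmonic_eq_sum_Icc, Rat.cast_sum] at hh
  refine le_trans ?_ hh
  rw [prod_one_add]
  have e : ∀ t ∈ q.primeFactors.powerset, ∏ p ∈ t, (p : ℝ)⁻¹ = (((∏ p ∈ t, p : ℕ) : ℝ))⁻¹ :=
    fun t _ => by rw [prod_inv_distrib, Nat.cast_prod]
  have pr : ∀ t ∈ q.primeFactors.powerset, ∀ p ∈ t, p.Prime := fun t ht p hp =>
    Nat.prime_of_mem_primeFactors (mem_powerset.1 ht hp)
  rw [sum_congr rfl e, ← sum_image (g := fun t : Finset ℕ => ∏ p ∈ t, p)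
    (f := fun d : ℕ => (d : ℝ)⁻¹) fun t ht u hu h => by
      rw [← Nat.primeFactors_prod (pr t ht), ← Nat.primeFactors_prod (pr u hu)]; exact congrArg _ h]
  push_cast
  refine sum_le_sum_of_subset_of_nonneg (fun d hd => ?_) fun _ _ _ => by positivity
  obtain ⟨t, ht, rfl⟩ := mem_image.1 hd
  exact mem_Icc.2 ⟨prod_pos fun p hp => (pr t ht p hp).pos, Nat.le_of_dvd hq
    ((prod_dvd_prod_of_subset _ _ _ (mem_powerset.1 ht)).trans (Nat.prod_primeFactors_dvd q))⟩

lemma npow {p : ℕ} (hp : p.Prime) (s : ℂ) : ‖(p : ℂ) ^ (-s)‖ = (p : ℝ) ^ (-s.re) := by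
  rw [← ofReal_natCast p, norm_cpow_eq_rpow_re_of_pos (by exact_mod_cast hp.pos), neg_re]

lemma prod2 {q : ℕ} (hq : 0 < q) {s : ℂ} (hs : 1 ≤ s.re) :
    ‖∏ p ∈ q.primeFactors, (1 - (p : ℂ) ^ (-s))‖ ≤ 1 + Real.log q := by
  rw [norm_prod]
  refine (prod_le_prod (fun _ _ => norm_nonneg _) fun p hp => ?_).trans (prod1 hq)
  have pp := Nat.prime_of_mem_primeFactors hp
  refine (norm_sub_le _ _).trans ?_
  rw [norm_one, npow pp, ← Real.rpow_neg_one]
  exact add_le_add_right (Real.rpow_le_rpow_of_exponent_le (by exact_mod_cast pp.one_le)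
    (by linarith)) _

lemma prod3 {q : ℕ} (hq : 0 < q) {s : ℂ} (hs : 1 / 2 ≤ s.re) :
    ((q : ℝ) ^ 2)⁻¹ ≤ ‖∏ p ∈ q.primeFactors, (1 - (p : ℂ) ^ (-s))‖ := by
  rw [norm_prod]
  refine le_trans ?_ (prod_le_prod (f := fun p : ℕ => ((p : ℝ) ^ 2)⁻¹) (fun _ _ => by positivity)
    fun p hp => ?_)
  · rw [prod_inv_distrib, prod_pow, ← Nat.cast_prod]
    have : 0 < ∏ p ∈ q.primeFactors, p := prod_pos fun p hp => (Nat.prime_of_mem_primeFactors hp).pos
    gcongr
    exact Nat.le_of_dvd hq (Nat.prod_primeFactors_dvd q)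
  · have pp := Nat.prime_of_mem_primeFactors hp
    have p2 : (2 : ℝ) ≤ p := by exact_mod_cast pp.two_le
    have a : (p : ℝ) ^ (-s.re) ≤ 3 / 4 := by
      refine (Real.rpow_le_rpow_of_exponent_le (by linarith)
        (show -s.re ≤ -(1 / 2) by linarith)).trans ?_
      rw [Real.rpow_neg (by linarith), ← Real.sqrt_eq_rpow, inv_le_comm₀ (by positivity)
        (by norm_num)]
      exact Real.le_sqrt_of_sq_le (by linarith)
    have b := norm_sub_norm_le (1 : ℂ) ((p : ℂ) ^ (-s))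
    rw [norm_one, npow pp] at b
    have c : ((p : ℝ) ^ 2)⁻¹ ≤ 4⁻¹ := inv_anti₀ (by norm_num) (by nlinarith)
    linarith

lemma ls_le {g : ℕ → ℂ} (c : CM g) {σ : ℝ} (h : 1 < σ) : ‖LSeries g σ‖ ≤ ‖LSeries (fun _ => 1) σ‖ := by
  have hs : 1 < (σ : ℂ).re := by simpa using h
  have s1 := (cm_one.summ hs).norm
  refine (tsum_of_norm_bounded s1.hasSum fun n => LSeries.norm_term_le _ (by simpa using c.le n)).trans ?_
  have : ((∑' n, ‖LSeries.term (fun _ => 1) σ n‖ : ℝ) : ℂ) = LSeries (fun _ => 1) σ := by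
    rw [ofReal_tsum]
    exact tsum_congr fun n => by
      open scoped ComplexOrder in
      exact Complex.norm_of_nonneg' (LSeries.term_nonneg zero_le_one σ)
  rw [← this, norm_real]; exact le_abs_self _

lemma rep {χ : ℕ → ℂ} (c : CM χ) (η t U D : ℝ) (h0 : 0 < η) (h1 : η ≤ 1) (D0 : 0 ≤ D)
    (hU : ‖LSeries (fun n => χ n * χ n) ((1 + η : ℝ) + (t + t : ℝ) * I)‖ ≤ U)
    (h : 343 * U * D ^ 4 * η ≤ 1) : η * D ≤ ‖LSeries χ ((1 + η : ℝ) + t * I)‖ := by
  have a := repel c c (1 + η) t t (by linarith)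
  have z := zeta_le η (1 + η) h0 h1 le_rfl (by linarith)
  have b := (ls_le (c.prod c.conj) (σ := 1 + η) (by linarith)).trans z
  rw [sub_self, ofReal_zero, zero_mul, add_zero] at a
  set x := ‖LSeries χ ((1 + η : ℝ) + t * I)‖
  have x0 : 0 ≤ x := norm_nonneg _
  have U0 : 0 ≤ U := (norm_nonneg _).trans hU
  have a2 : 1 ≤ (7 / η) ^ 2 * x ^ 2 * x ^ 2 * U * (7 / η) := a.trans (by gcongr)
  by_contra hc
  have : x ^ 4 < (η * D) ^ 4 := pow_lt_pow_left₀ (not_le.1 hc) x0 (by norm_num)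
  have e : (7 / η) ^ 2 * x ^ 2 * x ^ 2 * U * (7 / η) = 343 * U * x ^ 4 / η ^ 3 := by
    field_simp; ring
  rw [e, le_div_iff₀ (by positivity), one_mul] at a2
  have U1 : 0 < U := by
    rcases U0.eq_or_lt with rfl | h; · nlinarith [pow_pos h0 3]
    exact h
  nlinarith [mul_lt_mul_of_pos_left this (show 0 < 343 * U by positivity),
    mul_le_mul_of_nonneg_left h (pow_pos h0 3).le]

end Pool.Agent.H49.MD
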