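import Mathlib
import Pool.Agent.H49.MD3

/-! Lower bounds for Dirichlet series in a thin region to the left of the line of convergence. -/

set_option autoImplicit false

namespace Pool.Agent.H49.MD

open Finset Filter Topology Complex DirichletCharacter Pool.Agent.H59 Pool.Agent.H59.MT

lemma evp (C a : ℝ) (n : ℕ) (ha : 0 < a) : ∀ᶠ L : ℝ in atTop, C * L ^ n ≤ Real.exp (a * L) := by
  have := (isLittleO_pow_exp_pos_mul_atTop n ha).const_mul_left C
  filter_upwards [this.bound one_pos] with L h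
  rw [one_mul, Real.norm_of_nonneg (Real.exp_pos _).le] at h
  exact (le_abs_self _).trans h

lemma trv {q : ℕ} [NeZero q] {s : ℂ} (h : s ≠ 1) : LFunction (1 : DirichletCharacter ℂ q) s =
    (∏ p ∈ q.primeFactors, (1 - (p : ℂ) ^ (-s))) * riemannZeta s :=
  LFunctionTrivChar_eq_mul_riemannZeta h

/-- The numerical conditions on the width `η` and the lower bound `l` at level `L`. -/
structure Num (L η l : ℝ) : Prop where
  L1 : 1 ≤ L
  e0 : 0 < η
  l0 : 0 < l
  l1 : l ≤ 1
  m : 10 ^ 60 * L ^ 30 * η ≤ l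

namespace Num
variable {L η l : ℝ} (h : Num L η l)
include h

lemma le (C : ℝ) (k : ℕ) (hC : C ≤ 10 ^ 60) (hk : k ≤ 30) : C * L ^ k * η ≤ l := by
  refine le_trans (mul_le_mul_of_nonneg_right ?_ h.e0.le) h.m
  have := h.L1
  exact mul_le_mul hC (pow_le_pow_right₀ h.L1 hk) (by positivity) (by positivity)

lemma r : η ≤ 1 / (60 * L) := by
  have := h.le 60 1 (by norm_num) (by norm_num)
  rw [le_div_iff₀ (by linarith [h.L1])]; linarith [h.l1]

lemma r4 : η ≤ 1 / 4 := by linarith [h.le 4 0 (by norm_num) (by norm_num), h.l1]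

lemma r2 : 1 / (60 * L) ≤ 1 / 2 := one_div_le_one_div_of_le (by norm_num) (by linarith [h.L1])

omit h in
lemma nz {s : ℂ} (h1 : 1 - η ≤ s.re) (h2 : s.re ≤ 1 + η) :
    ‖s - ((1 + η : ℝ) + s.im * I)‖ ≤ 2 * η := by
  refine (norm_le_abs_re_add_abs_im _).trans ?_
  simp only [sub_re, add_re, ofReal_re, mul_re, I_re, mul_zero, ofReal_im, I_im, mul_one, sub_self,
    add_zero, sub_im, add_im, mul_im, zero_add, abs_zero, abs_le]
  constructor <;> linarith

omit h in
lemma n1 {s : ℂ} (h1 : 1 - η ≤ s.re) (h2 : s.re ≤ 1 + η) : ‖s - 1‖ ≤ η + |s.im| := by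
  refine (norm_le_abs_re_add_abs_im _).trans (add_le_add ?_ (by simp))
  rw [sub_re, one_re, abs_le]; constructor <;> linarith

lemma big {t : ℝ} (ht : |t| ≤ Real.exp (7 * L)) {w : ℂ} (k : ℝ) (hk : |k| ≤ 2)
    (hw : ‖w - ((1 + η : ℝ) + (k * t : ℝ) * I)‖ ≤ 1) : ‖w‖ ≤ Real.exp (8 * L) - 1 := by
  have a := norm_le_norm_add_norm_sub' w ((1 + η : ℝ) + (k * t : ℝ) * I)
  have b := norm_add_le ((1 + η : ℝ) : ℂ) ((k * t : ℝ) * I)
  rw [norm_mul, norm_I, mul_one, norm_real, norm_real, Real.norm_eq_abs, Real.norm_eq_abs,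
    abs_of_pos (by linarith [h.e0]), abs_mul] at b
  have c := Real.add_one_le_exp (7 * L)
  have d : 5 / 2 ≤ Real.exp L := le_trans (by linarith [Real.exp_one_gt_d9])
    (Real.exp_le_exp.2 h.L1)
  rw [show 8 * L = 7 * L + L by ring, Real.exp_add]
  nlinarith [h.r4, h.L1, mul_le_mul hk ht (abs_nonneg _) zero_le_two]

lemma zU {t t₀ : ℝ} (ht : |t| ≤ Real.exp (7 * L)) (t0 : 0 < t₀) (t1 : t₀ ≤ 1) (h2 : t₀ ≤ |t|) :
    ‖riemannZeta ((1 + η : ℝ) + (t + t : ℝ) * I)‖ ≤ 200 * L / t₀ := by
  set w : ℂ := (1 + η : ℝ) + (t + t : ℝ) * I with hw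
  have a : t₀ ≤ ‖w - 1‖ := by
    refine le_trans ?_ (abs_im_le_norm _)
    simp only [hw, sub_im, add_im, ofReal_im, mul_im, ofReal_re, I_im, mul_one, I_re, mul_zero,
      add_zero, zero_add, one_im, sub_zero]
    rw [← two_mul, abs_mul, abs_two]; linarith [abs_nonneg t]
  have w1 : w ≠ 1 := by rintro e; rw [e, sub_self, norm_zero] at a; linarith
  have L1 := h.L1
  have b := zub L1 w (by
    have : 0 < 1 / (30 * L) := by positivity
    simp only [hw, add_re, ofReal_re, mul_re, I_re, mul_zero, ofReal_im, I_im, mul_one, sub_self]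
    linarith [h.e0])
    (by linarith [h.big ht (w := w) 2 (by simp) (by simp [hw, two_mul])])
  rw [riemannZeta_eq_inv_sub_mul w1, norm_mul, norm_inv, inv_mul_le_iff₀ (by linarith),
    ← mul_div_assoc, le_div_iff₀ t0]
  nlinarith [mul_le_mul_of_nonneg_right b t0.le, mul_le_mul_of_nonneg_right a (show 0 ≤ L by linarith),
    mul_le_mul_of_nonneg_left t1 (show 0 ≤ ‖w - 1‖ * L by positivity)]

lemma lowA {q : ℕ} [NeZero q] (hq : Real.log q ≤ L) {χ : DirichletCharacter ℂ q} (h1 : χ ≠ 1)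
    (hS : χ ^ 2 = 1 → l ≤ ‖LFunction χ 1‖) {s : ℂ} (s1 : 1 - η ≤ s.re) (s2 : s.re ≤ 1 + η)
    (s3 : |s.im| ≤ Real.exp (7 * L)) : η / 7 ≤ ‖Lc (fun n => χ n) s‖ := by
  have L1 := h.L1
  have e0 := h.e0
  have l0 := h.l0
  have q0 : (0 : ℝ) < q := by exact_mod_cast NeZero.pos q
  have qq : (q : ℝ) ≤ Real.exp (2 * L) :=
    ((Real.log_le_iff_le_exp q0).1 hq).trans (Real.exp_le_exp.2 (by linarith))
  have P : ∀ ψ : DirichletCharacter ℂ q, ψ ≠ 1 → PS (fun n => ψ n) (Real.exp (2 * L)) :=
    fun ψ hψ N => (ps hψ N).trans qq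
  set B := 6000 * L ^ 2 with hB
  have B1 : 1 ≤ B := by nlinarith
  have far : ∀ U : ℝ, ‖LSeries (fun n => χ n * χ n) ((1 + η : ℝ) + (s.im + s.im : ℝ) * I)‖ ≤ U →
      343 * U * (3 * B) ^ 4 * η ≤ 1 → η / 7 ≤ ‖Lc (fun n => χ n) s‖ := fun U hU hc => by
    have a := rep (cm χ) η s.im U (3 * B) e0 (by linarith [h.r4]) (by positivity) hU hc
    have b := mv (Lc fun n => χ n) (1 / (60 * L)) B h.r2 ((1 + η : ℝ) + s.im * I) s
      (Lc_diff (P χ h1)) (fun w w1 w2 => db (cm χ) (P χ h1) L1 w w1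
        (h.big s3 1 (by simp) (by simpa using w2)))
      (by have : 0 < 1 / (60 * L) := by positivity
          simp only [add_re, ofReal_re, mul_re, I_re, mul_zero, ofReal_im, I_im, mul_one, sub_self]
          linarith) (by linarith [h.r]) (by linarith [nz s1 s2, h.r4])
    rw [Lc_eq (cm χ) (P χ h1) _ (by simpa using e0)] at b
    nlinarith [mul_le_mul_of_nonneg_left (nz s1 s2) (show 0 ≤ B by linarith)]
  have sq : (fun n : ℕ => χ n * χ n) = fun n : ℕ => (χ ^ 2) n := by
    ext n; rw [pow_two, MulChar.mul_apply]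
  have re1 : 1 < (((1 + η : ℝ) : ℂ) + (s.im + s.im : ℝ) * I).re := by simpa using e0
  by_cases h2 : χ ^ 2 = 1
  swap
  · refine far (100 * L) ?_ ?_
    · rw [sq, ← Lc_eq (cm _) (P _ h2) _ re1]
      exact ub (cm _) (P _ h2) L1 _ (by
        have : 0 < 1 / (30 * L) := by positivity
        linarith) (by
          have := h.big s3 (w := ((1 + η : ℝ) : ℂ) + (s.im + s.im : ℝ) * I) 2 (by simp)
            (by simp [two_mul])
          linarith)
    · have := h.le (343 * 100 * 18000 ^ 4) 9 (by norm_num) (by norm_num)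
      rw [hB]; linarith [h.l1]
  have t1 : l / (4 * B) ≤ 1 / 4 := by rw [div_le_iff₀ (by positivity)]; linarith [h.l1]
  by_cases h3 : l / (4 * B) ≤ |s.im|
  · refine far (2 * L * (200 * L / (l / (4 * B)))) ?_ ?_
    · rw [sq, h2, ← LFunction_eq_LSeries _ re1, trv
        (by rintro e; rw [e] at re1; simp at re1), norm_mul]
      exact mul_le_mul ((prod2 (NeZero.pos q) re1.le).trans (by linarith))
        (h.zU s3 (by positivity) (by linarith) h3) (norm_nonneg _) (by positivity)
    · have := h.le (343 * 400 * 24000 * 18000 ^ 4) 12 (by norm_num) (by norm_num)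
      rw [hB, show 343 * (2 * L * (200 * L / (l / (4 * (6000 * L ^ 2))))) *
        (3 * (6000 * L ^ 2)) ^ 4 * η = 343 * 400 * 24000 * 18000 ^ 4 * L ^ 12 * η / l by
          field_simp; ring, div_le_one l0]
      exact this
  · have n := (n1 s1 s2).trans (add_le_add_right (not_le.1 h3).le _)
    have b := mv (Lc fun n => χ n) (1 / (60 * L)) B h.r2 1 s
      (Lc_diff (P χ h1)) (fun w w1 w2 => db (cm χ) (P χ h1) L1 w w1 (by
        have a := norm_le_norm_add_norm_sub' w 1
        rw [norm_one] at a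
        linarith [Real.add_one_le_exp (8 * L)]))
      (by have : 0 < 1 / (60 * L) := by positivity
          rw [one_re]; linarith) (by linarith [h.r]) (by linarith [h.r4])
    rw [lc_eq h1 (s := 1) (by simp)] at b
    have c := mul_le_mul_of_nonneg_left n (show 0 ≤ B by linarith)
    rw [mul_add, show B * (l / (4 * B)) = l / 4 by field_simp] at c
    have d := h.le 24000 2 (by norm_num) (by norm_num)
    have d2 := h.le 1 0 (by norm_num) (by norm_num)
    have := hS h2
    rw [hB] at c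
    linarith

lemma lowZ {s : ℂ} (s1 : 1 - η ≤ s.re) (s2 : s.re ≤ 1 + η) (s3 : |s.im| ≤ Real.exp (7 * L)) :
    riemannZeta₁ s ≠ 0 ∧ ‖s - 1‖ / ‖riemannZeta₁ s‖ ≤ 7 / η := by
  have L1 := h.L1
  have e0 := h.e0
  set B := 6000 * L ^ 2 with hB
  have B1 : 1 ≤ B := by nlinarith
  have t1 : 1 / (16 * B) ≤ 1 / 16 := one_div_le_one_div_of_le (by norm_num) (by linarith)
  have t0 : 0 < 1 / (16 * B) := by positivity
  have r0 : 0 < 1 / (60 * L) := by positivity
  suffices H : 0 < ‖riemannZeta₁ s‖ ∧ ‖s - 1‖ * η ≤ 7 * ‖riemannZeta₁ s‖ from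
    ⟨norm_pos_iff.1 H.1, by rw [div_le_div_iff₀ H.1 e0]; exact H.2⟩
  by_cases h3 : 1 / (16 * B) ≤ |s.im|
  · set z : ℂ := (1 + η : ℝ) + s.im * I with hz
    have zr : z.re = 1 + η := by simp [hz]
    have re1 : 1 < (((1 + η : ℝ) : ℂ) + (s.im + s.im : ℝ) * I).re := by simpa using e0
    have a := rep cm_one η s.im (200 * L / (1 / (16 * B))) (3 * (64 * B ^ 2)) e0
      (by linarith [h.r4]) (by positivity) (by
        simp only [mul_one]
        exact (congrArg norm (LSeries_one_eq_riemannZeta re1)).le.trans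
          (h.zU s3 t0 (by linarith) h3)) (by
        have := h.le (343 * 200 * 96000 * (192 * 6000 ^ 2) ^ 4) 19 (by norm_num) (by norm_num)
        rw [hB, show 343 * (200 * L / (1 / (16 * (6000 * L ^ 2)))) *
          (3 * (64 * (6000 * L ^ 2) ^ 2)) ^ 4 * η =
            343 * 200 * 96000 * (192 * 6000 ^ 2) ^ 4 * L ^ 19 * η by field_simp; ring]
        linarith [h.l1])
    have z1 : 1 / (16 * B) ≤ ‖z - 1‖ := h3.trans (le_trans (by simp [hz]) (abs_im_le_norm _))
    have z2 : η ≤ ‖z - 1‖ := le_trans (by rw [sub_re, zr, one_re]; linarith) (re_le_norm _)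
    have z3 : 1 ≤ ‖z - 1‖ * (16 * B) := (div_le_iff₀ (by positivity)).1 z1
    have e : LSeries (fun _ => 1) z = riemannZeta z := LSeries_one_eq_riemannZeta (by linarith)
    rw [← hz, e, riemannZeta_eq_inv_sub_mul (by rintro e; rw [e] at zr; simp at zr; linarith),
      norm_mul, norm_inv, le_inv_mul_iff₀ (by linarith)] at a
    have b := mv riemannZeta₁ (1 / (60 * L)) (‖z - 1‖ * (64 * B ^ 2)) h.r2 z s
      (fun w _ => differentiable_riemannZeta₁ w) (fun w w1 w2 => (zdb L1 w w1
        (h.big s3 1 (by simp) (by simpa [hz] using w2))).trans (by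
          have c := norm_le_norm_add_norm_sub' (w - 1) (z - 1)
          rw [sub_sub_sub_cancel_right] at c
          rw [← hB]
          have : ‖w - 1‖ + 2 ≤ ‖z - 1‖ * (64 * B) := by nlinarith
          nlinarith))
      (by linarith) (by linarith [h.r]) (by linarith [nz s1 s2, h.r4])
    have n := nz s1 s2
    rw [← hz] at n
    have c := norm_le_norm_add_norm_sub' (s - 1) (z - 1)
    rw [sub_sub_sub_cancel_right] at c
    have d : ‖z - 1‖ * η ≤ ‖riemannZeta₁ s‖ := by
      have := mul_le_mul_of_nonneg_left n (show 0 ≤ ‖z - 1‖ * (64 * B ^ 2) by positivity)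
      have : ‖z - 1‖ * η * 1 ≤ ‖z - 1‖ * η * (64 * B ^ 2) :=
        mul_le_mul_of_nonneg_left (by nlinarith) (by positivity)
      linarith
    have d0 : 0 < ‖z - 1‖ * η := mul_pos (by linarith) e0
    exact ⟨by linarith, by nlinarith⟩
  · have n := (n1 s1 s2).trans (add_le_add_right (not_le.1 h3).le _)
    have b := mv riemannZeta₁ (1 / (60 * L)) (3 * B) h.r2 1 s
      (fun w _ => differentiable_riemannZeta₁ w) (fun w w1 w2 => (zdb L1 w w1 (by
        have a := norm_le_norm_add_norm_sub' w 1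
        rw [norm_one] at a
        linarith [Real.add_one_le_exp (8 * L)])).trans
          (mul_le_mul_of_nonneg_right (by linarith) (by positivity)))
      (by rw [one_re]; linarith) (by linarith [h.r]) (by linarith [h.r4])
    have c := mul_le_mul_of_nonneg_left n (show 0 ≤ 3 * B by linarith)
    rw [mul_add, show 3 * B * (1 / (16 * B)) = 3 / 16 by field_simp] at c
    have d := h.le 72000 2 (by norm_num) (by norm_num)
    rw [riemannZeta₁_one, norm_one] at b
    have l1 := h.l1
    have r4 := h.r4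
    rw [hB] at c
    exact ⟨by linarith, by nlinarith [norm_nonneg (s - 1)]⟩

end Num

/-- Width of the region at level `L`. -/
noncomputable def et (L : ℝ) : ℝ := Real.exp (-(L / 25))

theorem lowH : ∀ᶠ L : ℝ in atTop, ∀ (q : ℕ) [NeZero q], Real.log q ≤ 2 * L / 5 →
    ∀ χ : DirichletCharacter ℂ q, ∃ H : ℂ → ℂ, (∀ s : ℂ, 1 < s.re → H s = (LFunction χ s)⁻¹) ∧
      ∀ s : ℂ, 1 - et L ≤ s.re → s.re ≤ 2 → |s.im| ≤ Real.exp (7 * L) →
        DifferentiableAt ℂ H s ∧ ‖H s‖ ≤ Real.exp L := by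
  obtain ⟨c, c0, hc⟩ := siegel (1 / 30) (by norm_num)
  filter_upwards [eventually_ge_atTop 1, evp (10 ^ 60) (1 / 50) 30 (by norm_num),
    evp c⁻¹ (1 / 300) 0 (by norm_num), evp 7 (4 / 25) 0 (by norm_num)] with L L1 m1 m2 m3 q _ hq χ
  have h : Num L (et L) (Real.exp (-(L / 60))) := ⟨L1, Real.exp_pos _, Real.exp_pos _,
    Real.exp_le_one_iff.2 (by linarith), (mul_le_mul_of_nonneg_right m1 (Real.exp_pos _).le).trans (by
      rw [← Real.exp_add]; exact Real.exp_le_exp.2 (by linarith))⟩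
  have e0 := h.e0
  have r4 := h.r4
  have q0 : (0 : ℝ) < q := by exact_mod_cast NeZero.pos q
  have k1 : 7 / et L ≤ Real.exp (L / 5) := by
    rw [et, Real.exp_neg, div_inv_eq_mul, show L / 5 = 4 / 25 * L + L / 25 by ring, Real.exp_add]
    exact mul_le_mul_of_nonneg_right (by simpa using m3) (Real.exp_pos _).le
  have k2 : 7 / et L ≤ Real.exp L := k1.trans (Real.exp_le_exp.2 (by linarith))
  have hi : ∀ s : ℂ, 1 + et L ≤ s.re → s.re ≤ 2 → ‖(LFunction χ s)⁻¹‖ ≤ Real.exp L :=
    fun s s1 s2 => by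
      have := low (cm χ) (et L) s.re s.im e0 (by linarith) s1 s2
      rw [re_add_im, ← LFunction_eq_LSeries _ (by linarith)] at this
      rw [norm_inv]
      exact (inv_anti₀ (by positivity) this).trans (by rwa [inv_div])
  by_cases h1 : χ = 1
  · subst h1
    have e : ∀ s : ℂ, 1 < s.re → (s - 1) / riemannZeta₁ s /
        ∏ p ∈ q.primeFactors, (1 - (p : ℂ) ^ (-s)) = (LFunction (1 : DirichletCharacter ℂ q) s)⁻¹ :=
      fun s hs => by
        have s1 : s ≠ 1 := by rintro rfl; simp at hs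
        rw [trv s1, riemannZeta_eq_inv_sub_mul s1]
        simp only [mul_inv, inv_inv, div_eq_mul_inv]; ring
    refine ⟨_, e, fun s s1 s2 s3 => ?_⟩
    have p := prod3 (NeZero.pos q) (s := s) (by linarith)
    have z : riemannZeta₁ s ≠ 0 := by
      rcases le_total s.re (1 + et L) with a | a
      · exact (h.lowZ s1 a s3).1
      · have s1 : s ≠ 1 := by rintro rfl; simp at a; linarith
        have := riemannZeta_ne_zero_of_one_lt_re (s := s) (by linarith)
        rw [riemannZeta_eq_inv_sub_mul s1] at this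
        exact right_ne_zero_of_mul this
    refine ⟨((differentiableAt_id.sub_const 1).div (differentiable_riemannZeta₁ s) z).div
      (DifferentiableAt.fun_finsetProd fun p hp => ?_)
      (norm_pos_iff.1 (lt_of_lt_of_le (by positivity) p)), ?_⟩
    · exact (differentiableAt_id.neg.const_cpow (Or.inl (by
        exact_mod_cast (Nat.prime_of_mem_primeFactors hp).ne_zero))).const_sub 1
    rcases le_total s.re (1 + et L) with a | a
    · rw [norm_div, norm_div, div_eq_mul_inv _ ‖∏ p ∈ q.primeFactors, _‖,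
        show L = L / 5 + 2 * (2 * L / 5) by ring, Real.exp_add]
      refine mul_le_mul ((h.lowZ s1 a s3).2.trans k1) ((inv_anti₀ (by positivity) p).trans ?_)
        (by positivity) (by positivity)
      rw [inv_inv, ← Real.exp_log q0, ← Real.exp_nat_mul]
      exact Real.exp_le_exp.2 (by push_cast; linarith)
    · rw [e s (by linarith)]; exact hi s a s2
  refine ⟨fun s => (LFunction χ s)⁻¹, fun _ _ => rfl, fun s s1 s2 s3 => ?_⟩
  rcases le_total s.re (1 + et L) with a | a
  · have := h.lowA (by linarith) h1 (fun h2 => le_trans ?_ (hc q χ h1 h2)) s1 a s3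
    · rw [lc_eq h1 (by linarith)] at this
      refine ⟨(differentiable_LFunction h1 s).inv (norm_pos_iff.1 (lt_of_lt_of_le (by positivity)
        this)), ?_⟩
      rw [norm_inv]
      exact (inv_anti₀ (by positivity) this).trans (by rwa [inv_div])
    · rw [← inv_mul_le_iff₀ c0]
      refine (mul_le_mul_of_nonneg_right (by simpa using m2) (Real.exp_pos _).le).trans ?_
      rw [← Real.exp_add]
      exact Real.exp_le_exp.2 (by linarith)
  · exact ⟨(differentiable_LFunction h1 s).inv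
      (LFunction_ne_zero_of_one_le_re χ (Or.inl h1) (by linarith)), hi s a s2⟩

end Pool.Agent.H49.MD
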