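import Mathlib
import Pool.Agent.H49.MD4
import Pool.Agent.H59.MT3

/-! Cancellation in twisted sums of the Moebius function. -/

set_option autoImplicit false

namespace Pool.Agent.H49.MD

open Finset Filter Topology Complex MeasureTheory Pool.Agent.H59 Pool.Agent.H59.MT

/-- Indicator of the positive integers. -/
noncomputable def o (n : ℕ) : ℝ := if n = 0 then 0 else 1

lemma o0 (n : ℕ) : 0 ≤ o n := by unfold o; split_ifs <;> norm_num

lemma o1 (n : ℕ) : o n ≤ 1 := by unfold o; split_ifs <;> norm_num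

/-- The zeta series at two. -/
noncomputable def C2 : ℝ := ∑' n, ‖LSeries.term 1 2 n‖

lemma C2_summ : Summable fun n => ‖LSeries.term 1 2 n‖ :=
  (LSeriesSummable_one_iff.2 (by simp : 1 < (2 : ℂ).re)).norm

lemma C2_nonneg : 0 ≤ C2 := tsum_nonneg fun _ => norm_nonneg _

lemma term_le {a : ℕ → ℂ} (c : ∀ n, ‖a n‖ ≤ o n) (t : ℝ) (n : ℕ) :
    ‖LSeries.term a ((2 : ℝ) + t * I) n‖ ≤ ‖LSeries.term 1 2 n‖ := by
  refine (LSeries.norm_term_le _ (g := 1) (by simpa using (c n).trans (o1 n))).trans_eq ?_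
  rw [LSeries.norm_term_eq, LSeries.norm_term_eq]; simp

/-- Gaussian weights. -/
noncomputable def wt (κ u : ℝ) (n : ℕ) : ℝ := Real.exp (-(u - Real.log n) ^ 2 / (4 * κ ^ 2))

lemma dsum {a : ℕ → ℂ} (c : ∀ n, ‖a n‖ ≤ o n) (κ u : ℝ) (hκ : 0 < κ) :
    HasSum (fun n => a n * ((√Real.pi / κ * wt κ u n : ℝ) : ℂ))
    (∫ t : ℝ, LSeries a ((2 : ℝ) + t * I) * Zt.E κ u ((2 : ℝ) + t * I)) := by
  have e1 : ∀ (n : ℕ) (s : ℂ), LSeries.term a s n * Zt.E κ u s =
      a n * Zt.E κ (u - Real.log n) s := by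
    intro n s
    rcases Nat.eq_zero_or_pos n with rfl | hn
    · have : a 0 = 0 := by simpa [o] using c 0
      simp [this]
    have hn0 : (n : ℂ) ≠ 0 := by exact_mod_cast hn.ne'
    rw [LSeries.term_of_ne_zero hn.ne', cpow_def_of_ne_zero hn0, div_mul_eq_mul_div, mul_div_assoc]
    unfold Zt.E
    rw [← Complex.exp_sub, ← natCast_log]
    congr 2
    push_cast; ring
  have h1 := hasSum_integral_of_summable_integral_norm (μ := volume)
    (F := fun (n : ℕ) (t : ℝ) => LSeries.term a ((2 : ℝ) + t * I) n *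
      Zt.E κ u ((2 : ℝ) + t * I))
    (fun n => by simp only [e1]; exact (Zt.E_int κ _ 2 hκ).const_mul _) (by
      refine (C2_summ.mul_right (∫ t : ℝ, ‖Zt.E κ u ((2 : ℝ) + t * I)‖)).of_nonneg_of_le
        (fun n => integral_nonneg fun t => norm_nonneg _) fun n => ?_
      rw [← integral_const_mul]
      refine integral_mono_of_nonneg (Eventually.of_forall fun t => norm_nonneg _)
        ((Zt.E_int κ u 2 hκ).norm.const_mul _) (Eventually.of_forall fun t => ?_)
      simp only [norm_mul]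
      exact mul_le_mul_of_nonneg_right (term_le c t n) (norm_nonneg _))
  simp only [tsum_mul_right] at h1
  refine h1.congr_fun (fun n => ?_)
  simp only [e1]
  rw [integral_const_mul, Zt.E_gauss _ _ _ hκ, wt]

/-- The Dirichlet series of `a` continues with a bound to a thin region. -/
def Cont (a : ℕ → ℂ) (L η : ℝ) : Prop := ∃ H : ℂ → ℂ, (∀ s : ℂ, 1 < s.re → H s = LSeries a s) ∧
  ∀ s : ℂ, 1 - η ≤ s.re → s.re ≤ 2 → |s.im| ≤ Real.exp (7 * L) →
    DifferentiableAt ℂ H s ∧ ‖H s‖ ≤ Real.exp L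

lemma smooth {a : ℕ → ℂ} {L η : ℝ} (c : ∀ n, ‖a n‖ ≤ o n) (h : Cont a L η) (hL : 10 ^ 13 ≤ L)
    (hC : C2 ≤ L) (e0 : 0 < η) (e1 : η ≤ 1) (u : ℝ) (eu : 13 * L ≤ η * u) (u2 : u ≤ Real.exp L) :
    ‖∑' n, a n * ((√Real.pi / Real.exp (-6 * L) * wt (Real.exp (-6 * L)) u n : ℝ) : ℂ)‖ ≤
      Real.exp (u - 5 * L) := by
  set κ := Real.exp (-6 * L) with hκ
  have k0 : 0 < κ := Real.exp_pos _
  have L1 : 1 ≤ L := by linarith
  have k1 : κ ≤ 1 := Real.exp_le_one_iff.2 (by linarith)
  have u0 : 0 ≤ u := ((mul_pos_iff_of_pos_left e0).1 (by linarith : 0 < η * u)).le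
  obtain ⟨H, H1, H2⟩ := h
  have r2 : ∀ t : ℝ, 1 < (((2 : ℝ) : ℂ) + t * I).re := fun t => by simp
  have lb : ∀ t : ℝ, ‖LSeries a ((2 : ℝ) + t * I)‖ ≤ C2 := fun t =>
    tsum_of_norm_bounded C2_summ.hasSum (term_le c t)
  rw [(dsum c κ u k0).tsum_eq]
  refine (rect (fun s => H s * Zt.E κ u s) _ (1 - η) (Real.exp (7 * L))
    (Real.exp L) C2 u κ (by linarith) (by linarith) (by positivity) u0 k0 k1 (by positivity)
    C2_nonneg (fun t ht => ?_) ?_ (fun s h1 h2 h3 => ?_) (fun x t h1 h2 h3 => ?_)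
    (fun t => ?_)).trans ?_
  · rw [H1 _ (r2 t)]
  · refine (Zt.E_int κ u 2 k0).bdd_mul (c := C2) (Continuous.aestronglyMeasurable ?_)
      (Eventually.of_forall lb)
    exact continuous_tsum (fun n => by
      rcases Nat.eq_zero_or_pos n with rfl | hn
      · simp only [LSeries.term_zero]; fun_prop
      · simp only [LSeries.term_of_ne_zero hn.ne']
        exact continuous_const.div (Continuous.const_cpow (by fun_prop)
          (Or.inl (by exact_mod_cast hn.ne'))) fun t => by simp [hn.ne']) C2_summ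
      fun n t => term_le c t n
  · exact (H2 s h1 h2 h3).1.mul (Zt.E_cont κ u s)
  · rw [norm_mul, Zt.E_norm]
    exact mul_le_mul_of_nonneg_right (H2 _ (by simpa using h1) (by simpa using h2)
      (by simpa using h3)).2 (by positivity)
  · rw [norm_mul, Zt.E_norm]
    exact mul_le_mul_of_nonneg_right (lb t) (by positivity)
  have kT : κ ^ 2 * Real.exp (7 * L) ^ 2 = Real.exp L ^ 2 := by
    rw [← mul_pow, hκ, ← Real.exp_add]; congr 2; ring
  have ki : 1 / κ = Real.exp (6 * L) := by rw [hκ, one_div, ← Real.exp_neg]; congr 1; ring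
  have x1 := Real.add_one_le_exp L
  have big : u + 14 * L ≤ Real.exp L ^ 2 / 2 := by nlinarith
  have x12 : 12 ≤ Real.exp (L - 4) := le_trans (by linarith) (Real.add_one_le_exp _)
  have p := Real.exp_pos (u - 5 * L)
  have t1 : Real.exp L * Real.exp ((1 - η) * u + 4) * (2 / κ) * Real.exp (L - 4) ≤
      2 * Real.exp (u - 5 * L) := by
    rw [div_eq_mul_one_div, ki, mul_left_comm, mul_assoc, ← Real.exp_add, ← Real.exp_add,
      ← Real.exp_add]
    exact mul_le_mul_of_nonneg_left (Real.exp_le_exp.2 (by linarith)) (by norm_num)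
  have t2 : Real.exp L * (Real.exp (2 * u + 4) * Real.exp (-κ ^ 2 * Real.exp (7 * L) ^ 2)) *
      Real.exp (L - 4) ≤ Real.exp (u - 5 * L) := by
    rw [← Real.exp_add, ← Real.exp_add, ← Real.exp_add]
    exact Real.exp_le_exp.2 (by linarith)
  have t3 : Real.exp L * Real.exp (2 * u + 4) * Real.exp (-(κ ^ 2 / 2) * Real.exp (7 * L) ^ 2) *
      (3 / κ) * Real.exp (L - 4) ≤ 3 * Real.exp (u - 5 * L) := by
    rw [div_eq_mul_one_div 3, ki, mul_left_comm, mul_assoc, ← Real.exp_add, ← Real.exp_add,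
      ← Real.exp_add, ← Real.exp_add]
    exact mul_le_mul_of_nonneg_left (Real.exp_le_exp.2 (by linarith)) (by norm_num)
  have t4 : C2 * Real.exp (2 * u + 4) * Real.exp (-(κ ^ 2 / 2) * Real.exp (7 * L) ^ 2) * (3 / κ) ≤
      Real.exp L * Real.exp (2 * u + 4) * Real.exp (-(κ ^ 2 / 2) * Real.exp (7 * L) ^ 2) *
        (3 / κ) := by gcongr; linarith
  have q : ∀ A B : ℝ, 0 ≤ A → A * Real.exp (L - 4) ≤ B → 12 * A ≤ B := fun A B h0 h1 => by
    nlinarith
  linarith [q _ _ (by positivity) t1, q _ _ (by positivity) t2, q _ _ (by positivity) t3]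

lemma lam_g (x b : ℝ) (x0 : 0 < x) (b0 : 0 < b) (n : ℕ) :
    o n * Real.exp (-(Real.log x - Real.log n) ^ 2 / b) ≤
      Real.exp b * x ^ 2 * ‖LSeries.term 1 2 n‖ := by
  rcases Nat.eq_zero_or_pos n with rfl | hn
  · simp [o]
  have n0 : (0 : ℝ) < n := by exact_mod_cast hn
  have e : Real.exp b * x ^ 2 / (n : ℝ) ^ 2 = Real.exp (b + 2 * (Real.log x - Real.log n)) := by
    rw [← Real.log_div x0.ne' n0.ne', Real.exp_add, mul_comm 2, ← Real.rpow_def_of_pos
      (by positivity), Real.rpow_two, div_pow, mul_div_assoc]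
  rw [LSeries.norm_term_eq, if_neg hn.ne', o, if_neg hn.ne', Pi.one_apply, norm_one, one_mul,
    show (2 : ℂ).re = 2 by simp, Real.rpow_two, mul_one_div, e]
  refine Real.exp_le_exp.2 ?_
  rw [div_le_iff₀ b0]
  nlinarith [sq_nonneg (b + (Real.log x - Real.log n))]

lemma gs (x κ d : ℝ) (x1 : 1 ≤ x) (k0 : 0 < κ) (d0 : 0 < d) (d1 : d ≤ 1 / 2)
    (x2 : 1 ≤ Real.log x) :
    ∃ A : ℝ, HasSum (fun n : ℕ => o n * Real.exp (-(Real.log x - Real.log n) ^ 2 / (8 * κ ^ 2))) A ∧
      A ≤ (3 * d * x + 1) * Real.log (2 * x) +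
        Real.exp (-d ^ 2 / (16 * κ ^ 2)) * (Real.exp (16 * κ ^ 2) * x ^ 2 * C2) := by
  have x0 : 0 < x := by linarith
  have sm := (C2_summ.mul_left _).of_nonneg_of_le
    (fun n => mul_nonneg (o0 _) (Real.exp_nonneg _))
    (lam_g x (8 * κ ^ 2) x0 (by positivity))
  refine ⟨_, sm.hasSum, ?_⟩
  set J := Icc ⌈x * (1 - d)⌉₊ ⌊x * (1 + 2 * d)⌋₊ with hJ
  have l0 : 0 ≤ Real.log (2 * x) := Real.log_nonneg (by linarith)
  have h1 : HasSum (fun n => if n ∈ J then Real.log (2 * x) else 0) (J.card * Real.log (2 * x)) := by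
    have := hasSum_sum_of_ne_finset_zero (s := J) (L := SummationFilter.unconditional ℕ)
      (f := fun n => if n ∈ J then Real.log (2 * x) else 0) fun n hn => if_neg hn
    rwa [sum_congr rfl fun n hn => if_pos hn, sum_const, nsmul_eq_mul] at this
  have h2 := (C2_summ.hasSum.mul_left (Real.exp (16 * κ ^ 2) * x ^ 2)).mul_left
    (Real.exp (-d ^ 2 / (16 * κ ^ 2)))
  refine (hasSum_le (fun n => ?_) sm.hasSum (h1.add h2)).trans (add_le_add ?_ le_rfl)
  · rcases Nat.eq_zero_or_pos n with rfl | hn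
    · simp only [o, if_true, zero_mul]; positivity
    have n0 : (0 : ℝ) < n := by exact_mod_cast hn
    by_cases hd : |Real.log x - Real.log n| ≤ d
    · have a1 : x * (1 - d) ≤ n := by
        have : Real.log (x / n) ≤ d := by rw [Real.log_div x0.ne' n0.ne']; exact (abs_le.1 hd).2
        have a := Real.add_one_le_exp (-d)
        have b := (Real.log_le_iff_le_exp (by positivity)).1 this
        rw [div_le_iff₀ n0] at b
        have c : Real.exp d * Real.exp (-d) = 1 := by rw [← Real.exp_add]; simp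
        nlinarith [mul_le_mul b a (by linarith) (by positivity)]
      have a2 : (n : ℝ) ≤ x * (1 + 2 * d) := by
        have : Real.log (n / x) ≤ d := by
          rw [Real.log_div n0.ne' x0.ne']; linarith [(abs_le.1 hd).1]
        have b := (Real.log_le_iff_le_exp (by positivity)).1 this
        rw [div_le_iff₀ x0] at b
        have a := (abs_le.1 (Real.abs_exp_sub_one_le (x := d)
          (by rw [abs_of_pos d0]; linarith))).2
        rw [abs_of_pos d0] at a
        nlinarith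
      rw [if_pos (mem_Icc.2 ⟨Nat.ceil_le.2 a1, Nat.le_floor a2⟩)]
      refine le_add_of_le_of_nonneg ?_ (by positivity)
      refine (mul_le_of_le_one_right (o0 _) (Real.exp_le_one_iff.2
        (div_nonpos_of_nonpos_of_nonneg (by simp [sq_nonneg]) (by positivity)))).trans
        ((o1 n).trans (x2.trans (Real.log_le_log x0 (by linarith))))
    · refine le_add_of_nonneg_of_le (by positivity) (le_trans ?_ (mul_le_mul_of_nonneg_left
        (lam_g x (16 * κ ^ 2) x0 (by positivity) n) (by positivity)))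
      rw [mul_left_comm, ← Real.exp_add]
      refine mul_le_mul_of_nonneg_left (Real.exp_le_exp.2 ?_) (o0 _)
      have : d ^ 2 ≤ (Real.log x - Real.log n) ^ 2 := by
        rw [← sq_abs (_ - _)]; exact pow_le_pow_left₀ d0.le (not_le.1 hd).le 2
      have := div_le_div_of_nonneg_right this (show 0 ≤ 16 * κ ^ 2 by positivity)
      have e : -(Real.log x - Real.log n) ^ 2 / (8 * κ ^ 2) =
        -2 * ((Real.log x - Real.log n) ^ 2 / (16 * κ ^ 2)) := by ring
      rw [e, neg_div, neg_div]; linarith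
  · refine mul_le_mul_of_nonneg_right ?_ l0
    rw [hJ, Nat.card_Icc]
    have a := Nat.le_ceil (x * (1 - d))
    have b := Nat.floor_le (show 0 ≤ x * (1 + 2 * d) by positivity)
    rcases le_total ⌈x * (1 - d)⌉₊ (⌊x * (1 + 2 * d)⌋₊ + 1) with h | h
    · rw [Nat.cast_sub h]; push_cast; linarith
    · rw [Nat.sub_eq_zero_of_le h, Nat.cast_zero]; positivity

lemma gs' (x L : ℝ) (hL : 10 ^ 13 ≤ L) (hC : C2 ≤ L) (x1 : 5 * L ≤ Real.log x) (x0 : 1 ≤ x)
    (x2 : Real.log x ≤ Real.exp L) :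
    (3 * Real.exp (-5 * L) * x + 1) * Real.log (2 * x) +
      Real.exp (-Real.exp (-5 * L) ^ 2 / (16 * Real.exp (-6 * L) ^ 2)) *
        (Real.exp (16 * Real.exp (-6 * L) ^ 2) * x ^ 2 * C2) ≤ 9 * (x * Real.exp (-4 * L)) := by
  have y1 := Real.add_one_le_exp L
  have l1 : Real.log (2 * x) ≤ 2 * Real.exp L := by
    rw [Real.log_mul (by norm_num) (by linarith)]; linarith [Real.log_two_lt_d9]
  have ex : x = Real.exp (Real.log x) := (Real.exp_log (by linarith)).symm
  have l2 : 1 ≤ Real.exp (-5 * L) * x := by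
    rw [ex, ← Real.exp_add]
    exact Real.one_le_exp (by linarith)
  have e1 : Real.exp (-5 * L) * Real.exp L = Real.exp (-4 * L) := by
    rw [← Real.exp_add]; congr 1; ring
  have e2 : -Real.exp (-5 * L) ^ 2 / (16 * Real.exp (-6 * L) ^ 2) = -(Real.exp L ^ 2 / 16) := by
    rw [show -5 * L = L + -6 * L by ring, Real.exp_add]; field_simp
  have k1 : Real.exp (-6 * L) ^ 2 ≤ 1 :=
    pow_le_one₀ (by positivity) (Real.exp_le_one_iff.2 (by linarith))
  have t1 : (3 * Real.exp (-5 * L) * x + 1) * Real.log (2 * x) ≤ 8 * (x * Real.exp (-4 * L)) := by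
    refine (mul_le_mul (show _ ≤ 4 * (Real.exp (-5 * L) * x) by linarith) l1
      (Real.log_nonneg (by linarith)) (by positivity)).trans_eq ?_
    rw [← e1]; ring
  have t2 : Real.exp (-(Real.exp L ^ 2 / 16)) * (Real.exp (16 * Real.exp (-6 * L) ^ 2) * x ^ 2 * C2)
      ≤ Real.exp (-(Real.exp L ^ 2 / 16)) * (Real.exp 16 * (x * Real.exp (Real.exp L)) *
        Real.exp L) := by
    have : x ≤ Real.exp (Real.exp L) := ex.trans_le (Real.exp_le_exp.2 x2)
    have := C2_nonneg
    rw [sq x]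
    gcongr <;> linarith
  rw [e2]
  refine (add_le_add t1 (t2.trans (b := _) (c := x * Real.exp (-4 * L)) ?_)).trans_eq (by ring)
  rw [mul_left_comm (Real.exp 16), mul_assoc x, mul_left_comm, ← Real.exp_add, ← Real.exp_add,
    ← Real.exp_add]
  exact mul_le_mul_of_nonneg_left (Real.exp_le_exp.2 (by nlinarith)) (by linarith)

theorem sw {f : ℕ → ℂ} {L η : ℝ} (c : ∀ n, ‖f n‖ ≤ o n) (h : Cont f L η) (hL : 10 ^ 13 ≤ L)
    (hC : C2 ≤ L) (e0 : 0 < η) (e1' : η ≤ 1) (a b : ℕ) (a0 : 0 < a) (ab : a ≤ b)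
    (h1 : 13 * L ≤ η * Real.log a) (h2 : Real.log b ≤ Real.exp L) :
    ‖∑ n ∈ Ico a b, f n‖ ≤ b * Real.exp (-3 * L) := by
  have h0 : 13 * L ≤ Real.log a := h1.trans (mul_le_of_le_one_left (Real.log_natCast_nonneg a) e1')
  set κ := Real.exp (-6 * L) with hκ
  have k0 : 0 < κ := Real.exp_pos _
  have a1 : (1 : ℝ) ≤ a := by exact_mod_cast a0
  have ab' : (a : ℝ) ≤ b := by exact_mod_cast ab
  have lab := Real.log_le_log (by linarith) ab'
  set α := Real.log a with hα
  set β := Real.log b with hβ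
  have p3 := Real.pi_gt_three
  set W : ℕ → ℝ := fun n => √Real.pi / κ / (2 * Real.pi) *
      ∫ u in Set.Ioc α β, Real.exp (-(u - Real.log n) ^ 2 / (4 * κ ^ 2)) with hW
  set F : ℕ → ℝ → ℂ := fun n u => f n * ((√Real.pi / κ * wt κ u n : ℝ) : ℂ) with hF
  have fb : ∀ n, ∀ u ∈ Set.Ioc α β, ‖F n u‖ ≤ √Real.pi / κ * (Real.exp (4 * κ ^ 2) * (b : ℝ) ^ 2 *
      ‖LSeries.term 1 2 n‖) := fun n u hu => by
    have := lam_g (Real.exp u) (4 * κ ^ 2) (by positivity) (by positivity) n
    rw [Real.log_exp] at this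
    have w0 : 0 ≤ wt κ u n := Real.exp_nonneg _
    have eu : Real.exp u ≤ b := (Real.exp_le_exp.2 hu.2).trans_eq (Real.exp_log (by linarith))
    rw [hF, norm_mul, Complex.norm_of_nonneg (by positivity)]
    refine (mul_le_mul_of_nonneg_right (c n) (by positivity)).trans ?_
    rw [mul_left_comm]
    refine mul_le_mul_of_nonneg_left (this.trans ?_) (by positivity)
    gcongr
  have fi : ∀ n, IntegrableOn (F n) (Set.Ioc α β) := fun n => by
    refine Continuous.integrableOn_Ioc ?_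
    simp only [hF, wt]; fun_prop
  have s1 := hasSum_integral_of_summable_integral_norm (μ := volume.restrict (Set.Ioc α β)) fi (by
    refine (((C2_summ.mul_left (Real.exp (4 * κ ^ 2) * (b : ℝ) ^ 2)).mul_left
      (√Real.pi / κ)).mul_right (volume.real (Set.Ioc α β))).of_nonneg_of_le
      (fun n => integral_nonneg fun t => norm_nonneg _) fun n => ?_
    exact (le_abs_self _).trans (norm_setIntegral_le_of_norm_le_const measure_Ioc_lt_top
      fun u hu => (norm_norm (F n u)).trans_le (fb n u hu)))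
  have s2 : ‖∫ u in Set.Ioc α β, ∑' n, F n u‖ ≤ b * Real.exp (-4 * L) := by
    refine (norm_setIntegral_le_of_norm_le_const (C := b * Real.exp (-5 * L)) measure_Ioc_lt_top
      fun u hu => ?_).trans ?_
    · refine (smooth c h hL hC e0 e1' u (h1.trans (mul_le_mul_of_nonneg_left hu.1.le e0.le))
        (by linarith [hu.2])).trans ?_
      rw [← Real.exp_log (show (0 : ℝ) < b by linarith), ← Real.exp_add]
      exact Real.exp_le_exp.2 (by linarith [hu.2])
    · rw [Real.volume_real_Ioc_of_le lab]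
      rw [show -4 * L = -5 * L + L by ring, Real.exp_add, ← mul_assoc]
      exact mul_le_mul_of_nonneg_left (by linarith) (by positivity)
  have e1 : ∀ n, ∫ u in Set.Ioc α β, F n u = (2 * Real.pi : ℝ) * (f n * W n) := fun n => by
    simp only [hF, hW, wt]
    rw [integral_const_mul, integral_complex_ofReal, integral_const_mul]
    have : (Real.pi : ℂ) ≠ 0 := by exact_mod_cast Real.pi_pos.ne'
    push_cast; field_simp
  simp only [e1] at s1
  have s3 := s1.mul_left ((2 * Real.pi : ℝ) : ℂ)⁻¹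
  simp only [inv_mul_cancel_left₀ (show ((2 * Real.pi : ℝ) : ℂ) ≠ 0 by
    exact_mod_cast (show 2 * Real.pi ≠ 0 by positivity))] at s3
  have s4 := hasSum_sum_of_ne_finset_zero (s := Ico a b) (L := SummationFilter.unconditional ℕ)
    (f := fun n => f n * ((if α ≤ Real.log n ∧ Real.log n < β then 1 else 0 : ℝ) : ℂ))
    fun n hn => by
      rcases Nat.eq_zero_or_pos n with rfl | n0
      · have : f 0 = 0 := by simpa [o] using c 0
        simp [this]
      have n0' : (0 : ℝ) < n := by exact_mod_cast n0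
      rw [if_neg, ofReal_zero, mul_zero]
      rw [hα, hβ, Real.log_le_log_iff (by linarith) n0', Real.log_lt_log_iff n0' (by linarith)]
      exact_mod_cast (mem_Ico.not.1 hn)
  rw [sum_congr rfl (g := fun n => f n) fun n hn => by
    have n1 : (a : ℝ) ≤ n := by exact_mod_cast (mem_Ico.1 hn).1
    rw [if_pos ⟨Real.log_le_log (by linarith) n1, Real.log_lt_log (by linarith)
      (by exact_mod_cast (mem_Ico.1 hn).2)⟩, ofReal_one, mul_one]] at s4
  have d1 : Real.exp (-5 * L) ≤ 1 / 2 := by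
    rw [neg_mul, Real.exp_neg, inv_le_comm₀ (by positivity) (by norm_num)]
    linarith [Real.add_one_le_exp (5 * L)]
  obtain ⟨A, A1, A2⟩ := gs a κ _ a1 k0 (Real.exp_pos (-5 * L)) d1 (by linarith)
  obtain ⟨B, B1, B2⟩ := gs b κ _ (by linarith) k0 (Real.exp_pos (-5 * L)) d1 (by linarith)
  have A3 := A2.trans (gs' a L hL hC (by linarith) a1 (by linarith))
  have B3 := B2.trans (gs' b L hL hC (by linarith) (by linarith) h2)
  have s5 := HasSum.norm_le_of_bounded (s4.sub s3) ((A1.add B1).mul_left 2) fun n => by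
    rw [← mul_sub, ← ofReal_sub, norm_mul, norm_real, ← mul_add, mul_left_comm, Real.norm_eq_abs]
    exact mul_le_mul (c n) (wapprox κ k0 α β _) (abs_nonneg _) (o0 _)
  have s6 : ‖((2 * Real.pi : ℝ) : ℂ)⁻¹ * ∫ u in Set.Ioc α β, ∑' n, F n u‖ ≤
      b * Real.exp (-4 * L) := by
    rw [norm_mul, norm_inv, Complex.norm_of_nonneg (by positivity)]
    exact (mul_le_of_le_one_left (norm_nonneg _) (inv_le_one_of_one_le₀ (by linarith))).trans s2
  have s7 := norm_le_norm_add_norm_sub' (∑ n ∈ Ico a b, f n)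
    (((2 * Real.pi : ℝ) : ℂ)⁻¹ * ∫ u in Set.Ioc α β, ∑' n, F n u)
  have y0 := Real.exp_pos (-4 * L)
  have y2 : 37 * Real.exp (-4 * L) ≤ Real.exp (-3 * L) := by
    rw [show -3 * L = L + -4 * L by ring, Real.exp_add]
    exact mul_le_mul_of_nonneg_right (by linarith [Real.add_one_le_exp L]) y0.le
  have b0 : (0 : ℝ) ≤ b := by linarith
  linarith [mul_le_mul_of_nonneg_left y2 b0,
    mul_le_mul_of_nonneg_right ab' y0.le]


open ArithmeticFunction DirichletCharacter in
theorem SW : ∀ᶠ L : ℝ in atTop, ∀ (q : ℕ) [NeZero q], Real.log q ≤ 2 * L / 5 →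
    ∀ (χ : DirichletCharacter ℂ q) (y : ℕ), (y : ℝ) ≤ Real.exp (Real.exp (L / 20)) →
      ‖∑ n ∈ range y, χ n * (moebius n : ℂ)‖ ≤
        2 * (Real.exp (Real.exp (L / 20)) * Real.exp (-3 * L)) := by
  filter_upwards [lowH, eventually_ge_atTop (10 ^ 13), eventually_ge_atTop C2,
    evp 17 (1 / 100) 1 (by norm_num)] with L h1 hL hC m q _ hq χ y hy
  obtain ⟨H, H1, H2⟩ := h1 q hq χ
  set l := Real.exp (L / 20) with hl
  have c : ∀ n : ℕ, ‖χ n * (moebius n : ℂ)‖ ≤ o n := fun n => by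
    unfold o; split_ifs with h
    · simp [h]
    · rw [norm_mul, norm_intCast]
      exact mul_le_one₀ (χ.norm_le_one _) (abs_nonneg _) (by exact_mod_cast abs_moebius_le_one)
  have ct : Cont (fun n => χ n * (moebius n : ℂ)) L (et L) := ⟨H, fun s hs => by
    rw [H1 s hs, LFunction_eq_LSeries _ hs]
    exact (eq_inv_of_mul_eq_one_right (LSeries.mul_mu_eq_one χ hs)).symm, H2⟩
  have x1 : 1 ≤ Real.exp (L / 25) := Real.one_le_exp (by linarith)
  have k : 17 * L * Real.exp (L / 25) ≤ l := by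
    rw [hl, show L / 20 = 1 / 100 * L + L / 25 by ring, Real.exp_add]
    exact mul_le_mul_of_nonneg_right (by simpa using m) (by linarith)
  have k2 : 17 * L ≤ l := le_trans (le_mul_of_one_le_right (by linarith) x1) k
  set a := ⌈Real.exp (l - 4 * L)⌉₊ with ha
  have p := Real.exp_pos (l - 4 * L)
  have a1 : Real.exp (l - 4 * L) ≤ a := Nat.le_ceil _
  have a2 : (a : ℝ) ≤ Real.exp l * Real.exp (-3 * L) := by
    rw [← Real.exp_add, show l + -3 * L = l - 4 * L + L by ring, Real.exp_add]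
    have := (Nat.ceil_lt_add_one p.le).le
    have := Real.one_le_exp (show 0 ≤ l - 4 * L by linarith)
    nlinarith [Real.add_one_le_exp L]
  have tr : ∀ z : ℕ, z ≤ a → ‖∑ n ∈ range z, χ n * (moebius n : ℂ)‖ ≤
      Real.exp l * Real.exp (-3 * L) := fun z hz =>
    (norm_sum_le_of_le _ fun n _ => (c n).trans (o1 n)).trans (by
      rw [sum_const, card_range, nsmul_one]; exact le_trans (by exact_mod_cast hz) a2)
  rcases le_total y a with h | h
  · linarith [tr y h, mul_pos (Real.exp_pos l) (Real.exp_pos (-3 * L))]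
  have a0 : (0 : ℝ) < a := p.trans_le a1
  have := sw c ct hL hC (Real.exp_pos _) (Real.exp_le_one_iff.2 (by linarith)) a y
    (by exact_mod_cast a0) h (by
      rw [et, Real.exp_neg, le_inv_mul_iff₀ (by linarith)]
      refine le_trans ?_ ((Real.le_log_iff_exp_le a0).2 a1)
      nlinarith)
    (((Real.log_le_iff_le_exp (a0.trans_le (by exact_mod_cast h))).2 hy).trans
      (Real.exp_le_exp.2 (by linarith)))
  rw [← sum_range_add_sum_Ico _ h]
  linarith [norm_add_le (∑ n ∈ range a, χ n * (moebius n : ℂ)) (∑ n ∈ Ico a y, χ n * (moebius n : ℂ)),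
    tr a le_rfl, mul_le_mul_of_nonneg_right hy (Real.exp_pos (-3 * L)).le]

end Pool.Agent.H49.MD
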