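import Mathlib
import Pool.Agent.H49.MD5

/-! Additive characters and sums of the Moebius function near rationals of small height. -/

set_option autoImplicit false

namespace Pool.Agent.H49.MD

open Finset Filter Topology Complex ArithmeticFunction

/-- The standard additive character. -/
noncomputable def e (x : ℝ) : ℂ := cexp (I * (2 * Real.pi * x : ℝ))

lemma e_add (x y : ℝ) : e (x + y) = e x * e y := by
  unfold e; rw [← Complex.exp_add]; congr 1; push_cast; ring

lemma e_norm (x : ℝ) : ‖e x‖ = 1 := norm_exp_I_mul_ofReal _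

lemma e_int (k : ℤ) : e k = 1 := by
  unfold e; rw [← exp_int_mul_two_pi_mul_I k]; congr 1; push_cast; ring

lemma e_zero : e 0 = 1 := by simp [e]

lemma e_conj (x : ℝ) : (starRingEnd ℂ) (e x) = e (-x) := by
  unfold e; rw [← exp_conj, map_mul, conj_I, conj_ofReal]; congr 1; push_cast; ring

lemma e_up (x : ℝ) : ‖e x - 1‖ ≤ 7 * |x| := by
  refine Real.norm_exp_I_mul_ofReal_sub_one_le.trans ?_
  rw [Real.norm_eq_abs, abs_mul, abs_of_pos (by positivity)]
  exact mul_le_mul_of_nonneg_right (by linarith [Real.pi_lt_d2]) (abs_nonneg _)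

lemma e_low (x : ℝ) : 4 * |x - round x| ≤ ‖e x - 1‖ := by
  have a : e x = e (x - round x) := by
    rw [← mul_one (e (x - round x)), ← e_int (round x), ← e_add, sub_add_cancel]
  have b := abs_sub_round x
  have p := Real.pi_pos
  have c := Real.mul_abs_le_abs_sin (x := Real.pi * (x - round x)) (by
    rw [abs_mul, abs_of_pos p]; nlinarith)
  rw [a, e, norm_exp_I_mul_ofReal_sub_one, Real.norm_eq_abs, abs_mul, abs_two,
    show 2 * Real.pi * (x - round x) / 2 = Real.pi * (x - round x) by ring]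
  rw [abs_mul, abs_of_pos p, ← mul_assoc, div_mul_cancel₀ _ p.ne'] at c
  linarith

lemma geo (a b : ℕ) (α : ℝ) : ‖∑ m ∈ Ico a b, e (m * α)‖ * ‖e α - 1‖ ≤ 2 := by
  rcases le_total b a with h | h
  · simp [Ico_eq_empty_of_le h]
  have : (∑ m ∈ Ico a b, e (m * α)) * (e α - 1) = e (b * α) - e (a * α) := by
    induction b, h using Nat.le_induction with
    | base => simp
    | succ n h ih =>
      rw [sum_Ico_succ_top h, add_mul, ih, Nat.cast_succ, add_mul, one_mul, e_add]; ring
  rw [← norm_mul, this]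
  linarith [norm_sub_le (e (b * α)) (e (a * α)), e_norm (b * α), e_norm (a * α)]

lemma mu_le (n : ℕ) : ‖(moebius n : ℂ)‖ ≤ 1 := by
  rw [norm_intCast]; exact_mod_cast abs_moebius_le_one

variable {q : ℕ} [NeZero q] {N : ℕ} {B : ℝ}
  (hB : ∀ (χ : DirichletCharacter ℂ q) (y : ℕ), y ≤ N → ‖∑ n ∈ range y, χ n * (moebius n : ℂ)‖ ≤ B)
include hB

lemma maj1 {r : ZMod q} (hr : IsUnit r) {y : ℕ} (hy : y ≤ N) :
    ‖∑ n ∈ range y, (moebius n : ℂ) * (if r = n then 1 else 0)‖ ≤ B := by
  have t0 : (0 : ℝ) < q.totient := by exact_mod_cast Nat.totient_pos.2 (NeZero.pos q)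
  have a : (q.totient : ℂ) * ∑ n ∈ range y, (moebius n : ℂ) * (if r = n then 1 else 0) =
      ∑ χ : DirichletCharacter ℂ q, χ r⁻¹ * ∑ n ∈ range y, χ n * (moebius n : ℂ) := by
    simp only [mul_sum]
    rw [sum_comm]
    refine sum_congr rfl fun n _ => ?_
    simp only [← mul_assoc]
    rw [← sum_mul, DirichletCharacter.sum_char_inv_mul_char_eq ℂ hr]
    split_ifs <;> ring
  have b := (congrArg norm a).le.trans (norm_sum_le_of_le _ (n := fun _ => B) fun χ _ => by
    rw [norm_mul]
    exact (mul_le_of_le_one_left (norm_nonneg _) (χ.norm_le_one _)).trans (hB χ y hy))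
  rw [sum_const, card_univ, ← Nat.card_eq_fintype_card,
    DirichletCharacter.card_eq_totient_of_hasEnoughRootsOfUnity, nsmul_eq_mul, norm_mul,
    Complex.norm_natCast] at b
  exact le_of_mul_le_mul_left b t0

open Classical in
lemma maj2 (g : ZMod q → ℂ) (hg : ∀ r, ‖g r‖ ≤ 1) {y : ℕ} (hy : y ≤ N) :
    ‖∑ n ∈ range y, (moebius n : ℂ) * (if IsUnit (n : ZMod q) then g n else 0)‖ ≤ q * B := by
  have B0 : 0 ≤ B := (norm_nonneg _).trans (hB 1 y hy)
  have a : ∑ n ∈ range y, (moebius n : ℂ) * (if IsUnit (n : ZMod q) then g n else 0) =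
      ∑ r : ZMod q, (if IsUnit r then g r else 0) *
        ∑ n ∈ range y, (moebius n : ℂ) * (if r = n then 1 else 0) := by
    simp only [mul_sum]
    rw [sum_comm]
    refine sum_congr rfl fun n _ => ?_
    rw [sum_eq_single (n : ZMod q) (fun b _ h => by simp [h]) (by simp)]
    simp [mul_comm]
  rw [a]
  refine (norm_sum_le_of_le _ (n := fun _ => B) fun r _ => ?_).trans (by simp)
  split_ifs with h
  · rw [norm_mul]
    exact (mul_le_of_le_one_left (norm_nonneg _) (hg r)).trans (maj1 hB h hy)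
  · simpa using B0

lemma maj3 (f : ZMod q → ℂ) (hf : ∀ r, ‖f r‖ ≤ 1) {y : ℕ} (hy : y ≤ N) :
    ‖∑ n ∈ range y, (moebius n : ℂ) * f n‖ ≤ q ^ 2 * B := by
  classical
  have B0 : 0 ≤ B := (norm_nonneg _).trans (hB 1 y hy)
  have q0 := NeZero.pos q
  rw [← sum_fiberwise_of_maps_to (t := q.divisors) (g := fun n => n.gcd q)
    (fun n _ => Nat.mem_divisors.2 ⟨Nat.gcd_dvd_right _ _, q0.ne'⟩)]
  refine (norm_sum_le_of_le _ (n := fun _ => q * B) fun g hg => ?_).trans ?_
  swap
  · rw [sum_const, nsmul_eq_mul, sq, mul_assoc]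
    exact mul_le_mul_of_nonneg_right (by exact_mod_cast Nat.card_divisors_le_self q) (by positivity)
  have g0 := Nat.pos_of_mem_divisors hg
  have gq := Nat.dvd_of_mem_divisors hg
  have k : ∀ n, n < y ⌈/⌉ g ↔ g * n < y := fun n => by
    rw [← not_le, ceilDiv_le_iff_le_mul g0, not_le]
  have a : ∑ n ∈ range y with n.gcd q = g, (moebius n : ℂ) * f n =
      ∑ n ∈ range (y ⌈/⌉ g) with (g * n).gcd q = g, (moebius (g * n) : ℂ) * f (g * n : ℕ) := by
    symm
    refine sum_bij (fun n _ => g * n) (fun n hn => ?_)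
      (fun a _ b _ h => Nat.eq_of_mul_eq_mul_left g0 h) (fun n hn => ?_) fun _ _ => rfl
    · simpa [k] using hn
    · obtain ⟨m, rfl⟩ : g ∣ n := (mem_filter.1 hn).2 ▸ Nat.gcd_dvd_left _ _
      exact ⟨m, by simpa [k] using hn, rfl⟩
  rw [a, sum_filter, sum_congr rfl (g := fun n : ℕ => (moebius g : ℂ) * ((moebius n : ℂ) *
    (if IsUnit (n : ZMod q) then f (g * n) else 0))) fun n _ => ?_, ← mul_sum, norm_mul]
  · refine (mul_le_of_le_one_left (norm_nonneg _) (mu_le g)).trans
      (maj2 hB (fun r => f (g * r)) (fun r => hf _) (le_trans ?_ hy))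
    exact (ceilDiv_le_iff_le_mul g0).2 (Nat.le_mul_of_pos_left _ g0)
  by_cases c : n.Coprime q
  · rw [if_pos ((ZMod.isUnit_iff_coprime n q).2 c), if_pos (by rw [c.gcd_mul_right_cancel, Nat.gcd_eq_left gq]),
      isMultiplicative_moebius.map_mul_of_coprime (c.coprime_dvd_right gq).symm]
    push_cast; ring
  rw [if_neg (mt (ZMod.isUnit_iff_coprime n q).1 c), mul_zero, mul_zero]
  split_ifs with h
  · rw [moebius_eq_zero_of_not_squarefree, Int.cast_zero, zero_mul]
    intro s
    obtain ⟨d, rfl⟩ := gq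
    rw [Nat.gcd_mul_left, Nat.mul_eq_left g0.ne'] at h
    exact c (Nat.Coprime.mul_right (Nat.coprime_of_squarefree_mul s).symm h)
  · rfl

lemma maj (a : ℤ) (β : ℝ) :
    ‖∑ n ∈ range N, (moebius n : ℂ) * e (n * (a / q + β))‖ ≤ q ^ 2 * B * (1 + 7 * (|β| * N)) := by
  have q0 : (q : ℝ) ≠ 0 := NeZero.ne _
  have B0 : 0 ≤ B := (norm_nonneg _).trans (hB 1 N le_rfl)
  have k : ∀ y, y ≤ N → ‖∑ n ∈ range y, (moebius n : ℂ) * e (n * (a / q))‖ ≤ q ^ 2 * B :=
    fun y hy => by
      refine le_of_eq_of_le (congrArg norm (sum_congr rfl fun n _ => ?_))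
        (maj3 hB (fun r => e (r.val * (a / q))) (fun r => (e_norm _).le) hy)
      rw [ZMod.val_natCast, ← mul_one (e ((n % q : ℕ) * _)), ← e_int ((n / q : ℕ) * a), ← e_add]
      congr 2
      have : (n : ℝ) = (n % q : ℕ) + q * (n / q : ℕ) := by exact_mod_cast (Nat.mod_add_div n q).symm
      rw [this, Int.cast_mul, Int.cast_natCast]
      simp only [← this]
      field_simp; linear_combination a * this
  have p := sum_range_by_parts (fun n : ℕ => e (n * β))
    (fun n : ℕ => (moebius n : ℂ) * e (n * (a / q))) N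
  simp only [smul_eq_mul] at p
  rw [sum_congr rfl (g := fun n : ℕ => e (n * β) * ((moebius n : ℂ) * e (n * (a / q))))
    fun n _ => by rw [mul_add, e_add]; ring, p, mul_add, mul_one]
  refine (norm_sub_le _ _).trans (add_le_add (by rw [norm_mul, e_norm, one_mul]; exact k N le_rfl)
    ((norm_sum_le_of_le _ (n := fun _ => 7 * |β| * (q ^ 2 * B)) fun n hn => ?_).trans ?_))
  · rw [norm_mul, Nat.cast_succ, add_mul, one_mul, e_add, ← mul_sub_one, norm_mul, e_norm, one_mul]
    exact mul_le_mul (e_up β) (k _ (by have := mem_range.1 hn; omega)) (norm_nonneg _)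
      (by positivity)
  · rw [sum_const, card_range, nsmul_eq_mul]
    exact (mul_le_mul_of_nonneg_right (Nat.cast_le.2 (Nat.sub_le N 1)) (by positivity)).trans_eq
      (by ring)

end Pool.Agent.H49.MD
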