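import Mathlib
import Pool.Agent.H49.MD6

/-! Bilinear exponential sums away from rationals of small height. -/

set_option autoImplicit false

namespace Pool.Agent.H49.MD

open Finset Filter Topology Complex ArithmeticFunction

lemma cnt (θ : ℝ) (c : ℚ) (h : |θ - c| ≤ 1 / (c.den : ℝ) ^ 2) (K : ℕ) (δ : ℝ) (d0 : 0 < δ) :
    (((range (K + 1)).filter fun k : ℕ => |k * θ - round (k * θ)| < δ).card : ℝ) ≤
      (2 * K / c.den + 1) * (4 * c.den * δ + 2) := by
  set q := c.den with hq
  have q0 : 0 < q := c.den_pos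
  have q1 : (0 : ℝ) < q := by exact_mod_cast q0
  have := card_le_card_of_injOn (s := (range (K + 1)).filter fun k : ℕ => |k * θ - round (k * θ)| < δ)
    (t := range (2 * K / q + 1) ×ˢ Icc ⌊-(2 * q * δ)⌋ ⌊2 * q * δ⌋)
    (fun k => (2 * k / q, ⌊2 * q * (k * θ - round (k * θ))⌋)) (fun k hk => by
      obtain ⟨a, b⟩ := mem_filter.1 hk
      obtain ⟨b1, b2⟩ := abs_lt.1 b
      refine mem_product.2 ⟨mem_range.2 (Nat.lt_succ_of_le (Nat.div_le_div_right ?_)),
        mem_Icc.2 ⟨Int.floor_le_floor ?_, Int.floor_le_floor ?_⟩⟩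
      · have := mem_range.1 a; omega
      · nlinarith
      · nlinarith) (fun k _ l _ hkl => by
      obtain ⟨a, b⟩ := Prod.mk.inj hkl
      have b1 := Int.abs_sub_lt_one_of_floor_eq_floor b
      have a1 : |(k : ℤ) - l| * 2 < q := by
        have x := Nat.div_add_mod (2 * k) q
        have y := Nat.div_add_mod (2 * l) q
        have z := Nat.mod_lt (2 * k) q0
        have w := Nat.mod_lt (2 * l) q0
        rw [a] at x
        generalize q * (2 * l / q) = t at x y
        rcases abs_cases ((k : ℤ) - l) with u | u <;> omega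
      have a2 : |(k : ℝ) - l| * 2 < q := by exact_mod_cast a1
      set j := round (k * θ) - round (l * θ) with hj
      have e1 : (c : ℝ) = c.num / q := Rat.cast_def c
      have z : |(((k - l) * c.num - j * q : ℤ) : ℝ)| < 1 := by
        have e2 : (((k - l) * c.num - j * q : ℤ) : ℝ) = (2 * q * (k * θ - round (k * θ)) -
            2 * q * (l * θ - round (l * θ))) / 2 - (k - l) * (q * (θ - c)) := by
          rw [e1, hj]; push_cast; field_simp; ring
        have e3 : |(k - l : ℝ) * (q * (θ - c))| ≤ 1 / 2 := by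
          rw [abs_mul, abs_mul, abs_of_pos q1]
          refine (mul_le_mul (show _ ≤ (q : ℝ) / 2 by linarith) (mul_le_mul_of_nonneg_left h q1.le)
            (by positivity) (by positivity)).trans_eq (by field_simp)
        rw [e2]
        refine (abs_sub _ _).trans_lt ?_
        rw [abs_div, abs_two]; linarith
      have z2 : ((k : ℤ) - l) * c.num - j * q = 0 := Int.abs_lt_one_iff.1 (by exact_mod_cast z)
      have z3 : (q : ℤ) ∣ k - l := (Int.isCoprime_iff_gcd_eq_one.2 (by
        rw [Int.gcd_comm]; exact c.reduced)).dvd_of_dvd_mul_right ⟨j, by linarith⟩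
      have := Int.eq_zero_of_abs_lt_dvd z3 (by linarith [abs_nonneg ((k : ℤ) - l)])
      omega)
  rw [card_product, card_range, Int.card_Icc] at this
  refine (Nat.cast_le.2 this).trans ?_
  rw [Nat.cast_mul, Nat.cast_succ]
  refine mul_le_mul (add_le_add_left (Nat.cast_div_le.trans_eq (by push_cast; rfl)) _) ?_
    (by positivity) (by positivity)
  have p : 0 < q * δ := by positivity
  rw [← Int.cast_natCast, Int.toNat_of_nonneg (by
    linarith [Int.floor_le_floor (show -(2 * q * δ) ≤ 2 * q * δ by linarith)])]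
  push_cast
  linarith [Int.floor_le (2 * q * δ), Int.lt_floor_add_one (-(2 * q * δ))]

/-- Weighted geometric sums. -/
noncomputable def U (R y : ℕ) (α : ℝ) : ℝ := ‖∑ m ∈ Ioc R y, (m : ℂ) * e (m * α)‖

lemma U1 (R y : ℕ) (α : ℝ) : U R y α ≤ (y : ℝ) ^ 2 := by
  refine (norm_sum_le_of_le _ (n := fun _ => (y : ℝ)) fun m hm => ?_).trans ?_
  · rw [norm_mul, e_norm, mul_one, Complex.norm_natCast]; exact_mod_cast (mem_Ioc.1 hm).2
  · rw [sum_const, Nat.card_Ioc, nsmul_eq_mul, sq]
    exact mul_le_mul_of_nonneg_right (Nat.cast_le.2 (Nat.sub_le _ _)) (by positivity)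

lemma U2 (R y : ℕ) (α : ℝ) : U R y α * ‖e α - 1‖ ≤ 2 * y := by
  rcases le_total y R with h | h
  · simp [U, Ioc_eq_empty_of_le h]
  have : ‖(∑ m ∈ Ioc R y, (m : ℂ) * e (m * α)) * (e α - 1) - y * e ((y + 1) * α)‖ ≤ y := by
    induction y, h using Nat.le_induction with
    | base => simp [e_norm]
    | succ n h ih =>
      rw [sum_Ioc_succ_top h]
      push_cast
      rw [add_mul (n + 1 : ℝ), one_mul, e_add]
      refine le_of_eq_of_le (congrArg norm (by ring)) ((norm_sub_le _ (e ((n + 1) * α))).trans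
        (add_le_add ih (e_norm _).le))
  have b := norm_le_norm_add_norm_sub' ((∑ m ∈ Ioc R y, (m : ℂ) * e (m * α)) * (e α - 1))
    (y * e ((y + 1) * α))
  rw [norm_mul, norm_mul, e_norm, Complex.norm_natCast] at b
  unfold U; linarith

lemma U3 (R y : ℕ) (α : ℝ) : U R y (-α) = U R y α := by
  unfold U
  rw [← norm_conj, map_sum]
  simp only [map_mul, conj_natCast, e_conj, mul_neg, neg_neg]

variable {θ : ℝ} {c : ℚ} (h : |θ - c| ≤ 1 / (c.den : ℝ) ^ 2) {r N : ℕ} (r0 : 0 < r)
  (h1 : r ^ 2 ≤ c.den) (h2 : c.den * r ^ 2 ≤ N)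
include h r0 h1 h2

lemma msum {K : ℕ} (hK : r ^ 2 < K) :
    ∑ k ∈ range (K + 1), U (r ^ 2) (N / K) (k * θ) ≤ 19 * (N : ℝ) ^ 2 / r * (K : ℝ)⁻¹ := by
  rcases le_or_gt (N / K) (r ^ 2) with a | a
  · simp only [U, Ioc_eq_empty_of_le a, sum_empty, norm_zero, sum_const_zero]; positivity
  have r1 : (1 : ℝ) ≤ r := by exact_mod_cast r0
  have K1 : (r : ℝ) ^ 2 ≤ K := by exact_mod_cast hK.le
  have K0 : (0 : ℝ) < K := by nlinarith
  set M : ℝ := N / K with hM
  have y1 : ((N / K : ℕ) : ℝ) ≤ M := Nat.cast_div_le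
  have M1 : (r : ℝ) ^ 2 ≤ M := le_trans (by exact_mod_cast a.le) y1
  have M0 : 0 < M := by nlinarith
  have q1 : (r : ℝ) ^ 2 ≤ c.den := by exact_mod_cast h1
  have q2 : (c.den : ℝ) * r ^ 2 ≤ K * M := by rw [hM, mul_div_cancel₀ _ K0.ne']; exact_mod_cast h2
  have q0 : (0 : ℝ) < c.den := by nlinarith
  have k := cnt θ c h K (r / M) (by positivity)
  refine (sum_le_sum (g := fun k : ℕ => (if |k * θ - round (k * θ)| < r / M then M ^ 2 else 0) +
    M ^ 2 / (2 * r)) fun k _ => ?_).trans ?_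
  · split_ifs with b
    · exact le_add_of_le_of_nonneg ((U1 _ _ _).trans (by gcongr)) (by positivity)
    · have := mul_le_mul_of_nonneg_left ((mul_le_mul_of_nonneg_left (not_lt.1 b) zero_le_four).trans
        (e_low (k * θ))) (show 0 ≤ U (r ^ 2) (N / K) (k * θ) from norm_nonneg _)
      have := this.trans ((U2 _ _ _).trans (mul_le_mul_of_nonneg_left y1 zero_le_two))
      rw [← mul_div_assoc, ← mul_div_assoc, div_le_iff₀ M0] at this
      rw [zero_add, le_div_iff₀ (by positivity)]; linarith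
  rw [sum_add_distrib, ← sum_filter, sum_const, sum_const, card_range, nsmul_eq_mul, nsmul_eq_mul,
    show 19 * (N : ℝ) ^ 2 / r * (K : ℝ)⁻¹ = 18 * (K / r) * M ^ 2 + K / r * M ^ 2 by
      rw [hM]; field_simp; ring]
  refine add_le_add (mul_le_mul_of_nonneg_right (k.trans ?_) (by positivity)) ?_
  · have t1 : K * (r / M) ≤ K / r := by
      rw [← mul_one_div (K : ℝ) r]; gcongr ?_ * ?_; rw [div_le_div_iff₀ M0 (by linarith)]; linarith
    have t2 : (K : ℝ) / c.den ≤ K / r := by gcongr; nlinarith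
    have t3 : c.den * (r / M) ≤ K / r := by
      rw [← mul_div_assoc, div_le_div_iff₀ M0 (by linarith)]; linarith
    have t4 : (1 : ℝ) ≤ K / r := by rw [le_div_iff₀ (by linarith)]; nlinarith
    rw [show (2 * K / c.den + 1) * (4 * c.den * (r / M) + 2) = 8 * (K * (r / M)) + 4 * (K / c.den) +
      4 * (c.den * (r / M)) + 2 by field_simp; ring]
    linarith
  · rw [Nat.cast_succ, ← mul_div_assoc, div_mul_eq_mul_div, div_le_div_iff₀ (by linarith) (by linarith)]
    have : (1 : ℝ) ≤ K := by nlinarith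
    nlinarith [mul_le_mul_of_nonneg_right this (show 0 ≤ M ^ 2 * r by positivity)]

omit h r0 h1 h2 in
lemma harm (a b : ℕ) : ∑ n ∈ Ioc a b, (n : ℝ)⁻¹ ≤ 1 + Real.log b := by
  refine le_trans ?_ (harmonic_le_one_add_log b)
  rw [harmonic_eq_sum_Icc]
  push_cast
  exact sum_le_sum_of_subset_of_nonneg (fun n hn => by simp at hn ⊢; omega)
    fun _ _ _ => by positivity

lemma bil (w : ℕ → ℝ) (l : ℝ) (hw : ∀ d, d ≤ N → |w d| ≤ l) :
    (∑ m ∈ Ioc (r ^ 2) N, ‖∑ d ∈ Ioc (r ^ 2) N, if m * d ≤ N then (w d : ℂ) * e (m * d * θ) else 0‖)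
      ^ 2 ≤ (1 + Real.log N) * (l ^ 2 * (2 * (19 * (N : ℝ) ^ 2 / r * (1 + Real.log N)))) := by
  set D := Ioc (r ^ 2) N with hD
  set T : ℕ → ℂ := fun m => ∑ d ∈ D, if m * d ≤ N then (w d : ℂ) * e (m * d * θ) else 0 with hT
  have D0 : ∀ m ∈ D, 0 < m := fun m hm => lt_of_le_of_lt (Nat.zero_le _) (mem_Ioc.1 hm).1
  have l0 : 0 ≤ l := (abs_nonneg _).trans (hw 0 (Nat.zero_le _))
  refine (sum_sq_le_sum_mul_sum_of_sq_le_mul D (f := fun m => (m : ℝ)⁻¹)
    (g := fun m => m * ‖T m‖ ^ 2) (fun _ _ => by positivity) (fun _ _ => by positivity)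
    fun m hm => by rw [inv_mul_cancel_left₀ (by exact_mod_cast (D0 m hm).ne')]).trans
    (mul_le_mul (harm _ _) ?_ (by positivity) (by positivity))
  set V : ℕ → ℕ → ℂ := fun a b => ∑ m ∈ Ioc (r ^ 2) (N / max a b), (m : ℂ) * e (m * ((a - b) * θ))
    with hV
  have e1 : ((∑ m ∈ D, m * ‖T m‖ ^ 2 : ℝ) : ℂ) = ∑ a ∈ D, ∑ b ∈ D, (w a * w b : ℝ) * V a b := by
    push_cast
    simp only [← mul_conj', hT, map_sum, sum_mul_sum]
    simp only [mul_sum]
    rw [sum_comm]
    refine sum_congr rfl fun a ha => ?_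
    rw [sum_comm]
    refine sum_congr rfl fun b hb => ?_
    have : Ioc (r ^ 2) (N / max a b) = D.filter fun m => m * a ≤ N ∧ m * b ≤ N := by
      ext m
      simp only [hD, mem_Ioc, mem_filter, Nat.le_div_iff_mul_le (lt_max_of_lt_left (D0 a ha)),
        mul_max, max_le_iff]
      exact ⟨fun x => ⟨⟨x.1, (Nat.le_mul_of_pos_right _ (D0 a ha)).trans x.2.1⟩, x.2⟩,
        fun x => ⟨x.1.1, x.2⟩⟩
    simp only [hV, this, sum_filter, mul_sum]
    refine sum_congr rfl fun m _ => ?_
    by_cases x : m * a ≤ N <;> by_cases y : m * b ≤ N <;> simp only [x, y, if_true, if_false,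
      _root_.map_zero, mul_zero, zero_mul, and_self, and_false, false_and]
    rw [map_mul, conj_ofReal, e_conj, show (m : ℝ) * ((a - b) * θ) = m * a * θ + -(m * b * θ) by ring,
      e_add]
    ring
  set A : ℕ → ℕ → ℝ := fun a b => if b ≤ a then U (r ^ 2) (N / a) ((a - b : ℕ) * θ) else 0 with hA
  have A0 : ∀ a b, 0 ≤ A a b := fun a b => by
    simp only [hA]; split_ifs; exacts [norm_nonneg _, le_rfl]
  have e2 : ∀ a b, ‖V a b‖ ≤ A a b + A b a := fun a b => by
    rcases le_total b a with x | x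
    · refine le_add_of_le_of_nonneg (le_of_eq ?_) (A0 _ _)
      simp only [hV, hA, if_pos x, max_eq_left x, U, Nat.cast_sub x]
    · refine le_add_of_nonneg_of_le (A0 _ _) (le_of_eq ?_)
      simp only [hA, if_pos x, Nat.cast_sub x]
      rw [← U3, ← neg_mul, neg_sub]
      simp only [hV, max_eq_right x, U]
  have e3 : ∑ a ∈ D, ∑ b ∈ D, A a b ≤ 19 * (N : ℝ) ^ 2 / r * (1 + Real.log N) := by
    refine (sum_le_sum fun a ha => le_trans ?_ (msum h r0 h1 h2 (mem_Ioc.1 ha).1)).trans ?_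
    · rw [← sum_range_reflect]
      simp only [hA, ← sum_filter, Nat.add_sub_cancel]
      exact sum_le_sum_of_subset_of_nonneg (fun n hn => by simp at hn ⊢; omega)
        fun _ _ _ => norm_nonneg _
    · rw [← mul_sum]
      exact mul_le_mul_of_nonneg_left (harm _ _) (by positivity)
  refine (le_abs_self _).trans ((norm_real _).ge.trans ((congrArg norm e1).le.trans
    ((norm_sum_le_of_le _ fun a ha => norm_sum_le_of_le _
      (n := fun b => l ^ 2 * (A a b + A b a)) fun b hb => ?_).trans ?_)))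
  · rw [norm_mul, norm_real, Real.norm_eq_abs, abs_mul, sq]
    exact mul_le_mul (mul_le_mul (hw a (mem_Ioc.1 ha).2) (hw b (mem_Ioc.1 hb).2) (abs_nonneg _) l0)
      (e2 a b) (norm_nonneg _) (by positivity)
  · simp only [← mul_sum, sum_add_distrib]
    rw [sum_comm (f := fun a b => A b a)]
    exact mul_le_mul_of_nonneg_left (by linarith) (by positivity)

end Pool.Agent.H49.MD
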