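import Mathlib
import Pool.Agent.H49.MD7

/-! The uniform estimate for exponential sums with the Moebius function. -/

set_option autoImplicit false

namespace Pool.Agent.H49.MD

open Finset Filter Topology Complex ArithmeticFunction

lemma mulog (n : ℕ) : (moebius n : ℝ) * Real.log n =
    -∑ x ∈ n.divisorsAntidiagonal, (moebius x.1 : ℝ) * vonMangoldt x.2 := by
  have a : pmul (moebius : ArithmeticFunction ℝ) log * zeta = -vonMangoldt := by
    ext m
    rw [coe_mul_zeta_apply, ArithmeticFunction.neg_apply, ← sum_moebius_mul_log_eq]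
    simp [log_apply]
  have b : pmul (moebius : ArithmeticFunction ℝ) log = -(moebius * vonMangoldt) := by
    rw [mul_comm, ← neg_mul, ← a, mul_assoc, coe_zeta_mul_coe_moebius, mul_one]
  simpa [log_apply, mul_apply] using congrArg (fun f => f n) b

lemma hyp (F : ℕ → ℕ → ℂ) (N : ℕ) : ∑ n ∈ Ioc 0 N, ∑ x ∈ n.divisorsAntidiagonal, F x.1 x.2 =
    ∑ m ∈ Ioc 0 N, ∑ d ∈ Ioc 0 N, if m * d ≤ N then F m d else 0 := by
  rw [sum_congr rfl fun n hn => by
    rw [Nat.divisorsAntidiagonal_eq_prod_filter_of_le (mem_Ioc.1 hn).1.ne' (mem_Ioc.1 hn).2,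
      sum_filter], sum_comm, ← sum_product' (f := fun m d => if m * d ≤ N then F m d else 0)]
  exact sum_congr rfl fun _ _ => by simp_all

lemma slog (N : ℕ) : ∑ n ∈ Ioc 0 N, (Real.log N - Real.log n) ≤ N := by
  have a : ∀ k : ℕ, ∑ n ∈ Ioc 0 k, Real.log n = Real.log k.factorial := fun k => by
    induction k with
    | zero => simp
    | succ k ih =>
      rw [sum_Ioc_succ_top (Nat.zero_le k), ih, Nat.factorial_succ, Nat.cast_mul,
        Real.log_mul (by positivity) (by positivity), add_comm]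
  rcases Nat.eq_zero_or_pos N with rfl | h
  · simp
  rw [sum_sub_distrib, a, sum_const, Nat.card_Ioc, Nat.sub_zero, nsmul_eq_mul, ← Real.log_pow,
    ← Real.log_div (by positivity) (by positivity), Real.log_le_iff_le_exp (by positivity)]
  exact Real.pow_div_factorial_le_exp _ (by positivity) N

lemma lam_e (m d : ℕ) (θ : ℝ) (p : Prop) [Decidable p] :
    ‖if p then (vonMangoldt d : ℂ) * e (m * d * θ) else 0‖ = if p then vonMangoldt d else 0 := by
  split_ifs
  · rw [norm_mul, e_norm, mul_one, Complex.norm_of_nonneg vonMangoldt_nonneg]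
  · simp

lemma minor {θ : ℝ} {c : ℚ} (h : |θ - c| ≤ 1 / (c.den : ℝ) ^ 2) {r N : ℕ} (r0 : 0 < r)
    (h1 : r ^ 2 ≤ c.den) (h2 : c.den * r ^ 2 ≤ N) (l1 : 1 ≤ Real.log N)
    (l2 : Real.log N ^ 4 ≤ 2 * r) {ρ : ℝ} (hρ : Real.log (r ^ 2 : ℕ) ≤ ρ) :
    Real.log N * ‖∑ n ∈ Ioc 0 N, (moebius n : ℂ) * e (n * θ)‖ ≤ N * (25 + 7 * ρ + ρ ^ 2) := by
  set l := Real.log N with hl
  set R := r ^ 2 with hR
  have RN : R ≤ N := (Nat.le_mul_of_pos_left _ c.den_pos).trans h2
  have ρ0 : 0 ≤ ρ := (Real.log_natCast_nonneg _).trans hρ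
  set G : ℕ → ℕ → ℂ := fun m d => if m * d ≤ N then (vonMangoldt d : ℂ) * e (m * d * θ) else 0
    with hG
  have e1 : (l : ℂ) * ∑ n ∈ Ioc 0 N, (moebius n : ℂ) * e (n * θ) =
      ∑ n ∈ Ioc 0 N, ((l - Real.log n : ℝ) : ℂ) * ((moebius n : ℂ) * e (n * θ)) -
        ∑ m ∈ Ioc 0 N, (moebius m : ℂ) * ∑ d ∈ Ioc 0 N, G m d := by
    simp only [hG, mul_sum, mul_ite, mul_zero]
    rw [← hyp, ← sum_sub_distrib]
    refine sum_congr rfl fun n _ => ?_
    have := congrArg (fun x : ℝ => (x : ℂ) * e (n * θ)) (mulog n)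
    simp only [ofReal_mul, ofReal_neg, ofReal_sum, neg_mul, sum_mul, ofReal_intCast] at this
    rw [sum_congr rfl (g := fun x => (moebius x.1 : ℂ) * (vonMangoldt x.2 : ℂ) * e (n * θ))
      fun x hx => by rw [← (Nat.mem_divisorsAntidiagonal.1 hx).1, Nat.cast_mul,
        mul_assoc (moebius x.1 : ℂ)], ofReal_sub]
    linear_combination this
  have b1 : ‖∑ n ∈ Ioc 0 N, ((l - Real.log n : ℝ) : ℂ) * ((moebius n : ℂ) * e (n * θ))‖ ≤ N :=
    (norm_sum_le_of_le _ fun n hn => by
      have : Real.log n ≤ l := Real.log_le_log (by exact_mod_cast (mem_Ioc.1 hn).1)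
        (by exact_mod_cast (mem_Ioc.1 hn).2)
      rw [norm_mul, norm_mul, e_norm, mul_one, Complex.norm_of_nonneg (by linarith)]
      exact mul_le_of_le_one_right (by linarith) (mu_le n)).trans (slog N)
  have b2 : ∑ m ∈ Ioc 0 R, ‖∑ d ∈ Ioc 0 N, G m d‖ ≤ 6 * N * (1 + ρ) := by
    refine (sum_le_sum (g := fun m : ℕ => 6 * N * (m : ℝ)⁻¹) fun m hm => ?_).trans ?_
    · have m0 := (mem_Ioc.1 hm).1
      refine (norm_sum_le _ _).trans ?_
      simp only [hG, lam_e, ← sum_filter]
      have := Chebyshev.psi_le_const_mul_self (x := (N / m : ℕ)) (by positivity)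
      rw [Chebyshev.psi, Nat.floor_natCast] at this
      refine (sum_le_sum_of_subset_of_nonneg (fun d hd => ?_)
        fun _ _ _ => vonMangoldt_nonneg).trans (this.trans ?_)
      · simp only [mem_filter, mem_Ioc, Nat.le_div_iff_mul_le m0, mul_comm d] at hd ⊢
        exact ⟨hd.1.1, hd.2⟩
      · rw [mul_assoc, ← div_eq_mul_inv]
        refine mul_le_mul ?_ Nat.cast_div_le (by positivity) (by norm_num)
        rw [show (4 : ℝ) = 2 ^ 2 by norm_num, Real.log_pow]
        push_cast; linarith [Real.log_two_lt_d9]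
    · rw [← mul_sum]
      exact mul_le_mul_of_nonneg_left ((harm _ _).trans (by linarith)) (by positivity)
  have b3 : ∑ m ∈ Ioc R N, ‖∑ d ∈ Ioc 0 R, G m d‖ ≤ ρ * N * (1 + ρ) := by
    refine (sum_le_sum fun m _ => norm_sum_le _ _).trans ?_
    rw [sum_comm]
    refine (sum_le_sum (g := fun d : ℕ => ρ * N * (d : ℝ)⁻¹) fun d hd => ?_).trans ?_
    · have d0 := (mem_Ioc.1 hd).1
      simp only [hG, lam_e, ← sum_filter, sum_const, nsmul_eq_mul]
      rw [mul_assoc, ← div_eq_mul_inv, mul_comm]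
      refine mul_le_mul (vonMangoldt_le_log.trans ((Real.log_le_log (by exact_mod_cast d0)
        (by exact_mod_cast (mem_Ioc.1 hd).2)).trans hρ)) (le_trans ?_ Nat.cast_div_le)
        (by positivity) ρ0
      refine Nat.cast_le.2 ((card_le_card (t := Ioc 0 (N / d)) fun m hm => ?_).trans (by simp))
      simp only [mem_filter, mem_Ioc, Nat.le_div_iff_mul_le d0] at hm ⊢
      exact ⟨by omega, hm.2⟩
    · rw [← mul_sum]
      exact mul_le_mul_of_nonneg_left ((harm _ _).trans (by linarith)) (by positivity)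
  have b4 : ∑ m ∈ Ioc R N, ‖∑ d ∈ Ioc R N, G m d‖ ≤ 18 * N := by
    refine le_of_sq_le_sq ((bil h r0 h1 h2 (fun d => vonMangoldt d) l fun d hd => ?_).trans ?_)
      (by positivity)
    · rw [abs_of_nonneg vonMangoldt_nonneg]
      rcases Nat.eq_zero_or_pos d with rfl | d0
      · simp; linarith
      · exact vonMangoldt_le_log.trans (Real.log_le_log (by exact_mod_cast d0) (by exact_mod_cast hd))
    · have r1 : (0 : ℝ) < r := by exact_mod_cast r0
      rw [← hl, show (1 + l) * (l ^ 2 * (2 * (19 * (N : ℝ) ^ 2 / r * (1 + l)))) =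
        38 * ((1 + l) ^ 2 * l ^ 2 / r) * (N : ℝ) ^ 2 by ring, mul_pow]
      refine mul_le_mul_of_nonneg_right ?_ (by positivity)
      have : (1 + l) ^ 2 * l ^ 2 / r ≤ 8 := by
        rw [div_le_iff₀ r1]
        nlinarith [mul_le_mul_of_nonneg_right (pow_le_pow_left₀ (by linarith)
          (show 1 + l ≤ 2 * l by linarith) 2) (sq_nonneg l)]
      linarith
  have b5 : ‖∑ m ∈ Ioc 0 N, (moebius m : ℂ) * ∑ d ∈ Ioc 0 N, G m d‖ ≤
      6 * N * (1 + ρ) + (ρ * N * (1 + ρ) + 18 * N) := by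
    refine (norm_sum_le_of_le _ (n := fun m => ‖∑ d ∈ Ioc 0 N, G m d‖) fun m _ => by
      rw [norm_mul]; exact mul_le_of_le_one_left (norm_nonneg _) (mu_le m)).trans ?_
    rw [← sum_Ioc_consecutive _ (Nat.zero_le R) RN]
    refine add_le_add b2 (le_trans ?_ (add_le_add b3 b4))
    rw [← sum_add_distrib]
    refine sum_le_sum fun m _ => ?_
    rw [← sum_Ioc_consecutive _ (Nat.zero_le R) RN]
    exact norm_add_le _ _
  have := (congrArg norm e1).le.trans ((norm_sub_le _ _).trans (add_le_add b1 b5))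
  rw [norm_mul, Complex.norm_of_nonneg (by linarith)] at this
  linarith

theorem dav : ∀ᶠ N : ℕ in atTop, ∀ θ : ℝ,
    ‖∑ n ∈ range N, (moebius n : ℂ) * e (n * θ)‖ ≤ N * Real.log N ^ (-(3 / 4) : ℝ) := by
  have t1 : Tendsto (fun N : ℕ => Real.log N) atTop atTop :=
    Real.tendsto_log_atTop.comp tendsto_natCast_atTop_atTop
  have t2 : Tendsto (fun N : ℕ => 20 * Real.log (Real.log N)) atTop atTop :=
    (Real.tendsto_log_atTop.comp t1).const_mul_atTop (by norm_num)
  filter_upwards [t2.eventually SW, t2.eventually (evp 30 (1 / 80) 2 (by norm_num)),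
    t2.eventually (evp 16 1 0 one_pos), t2.eventually_ge_atTop 1,
    t1.eventually (evp 1 1 8 one_pos), t1.eventually_ge_atTop 1, eventually_gt_atTop 0]
    with N sw m1 m2 L1 m3 l1 N0 θ
  have N1 : (0 : ℝ) < N := by exact_mod_cast N0
  set l := Real.log N with hl
  set L := 20 * Real.log l with hL
  have el : Real.exp (L / 20) = l := by
    rw [hL, mul_div_cancel_left₀ _ (by norm_num), Real.exp_log (by linarith)]
  have eN : Real.exp l = N := Real.exp_log N1
  rw [el, eN] at sw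
  rw [one_mul, one_mul, eN] at m3
  set r := ⌊l ^ 4⌋₊ with hr
  have l4 : 1 ≤ l ^ 4 := one_le_pow₀ l1
  have r0 : 0 < r := Nat.floor_pos.2 l4
  have r1 : (1 : ℝ) ≤ r := by exact_mod_cast r0
  have r2 : (r : ℝ) ^ 2 ≤ l ^ 8 := (pow_le_pow_left₀ (by positivity)
    (Nat.floor_le (by positivity)) 2).trans_eq (by ring)
  have r3 : ((r ^ 2 : ℕ) : ℝ) ≤ Real.exp (2 * L / 5) := by
    rw [show 2 * L / 5 = (8 : ℕ) * (L / 20) by push_cast; ring, Real.exp_nat_mul, el]
    exact_mod_cast r2
  have r4 : r ^ 2 ≤ N := by exact_mod_cast r2.trans m3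
  obtain ⟨c, c1, c2⟩ := Real.exists_rat_abs_sub_le_and_den_le θ (Nat.div_pos r4 (by positivity))
  have q0 : (1 : ℝ) ≤ c.den := by exact_mod_cast c.den_pos
  rw [Real.rpow_def_of_pos (by linarith), show Real.log l * -(3 / 4) = -(3 * L / 80) by
    rw [hL]; ring]
  rcases le_total (r ^ 2) c.den with h | h
  · have a := minor (c1.trans (one_div_le_one_div_of_le (by positivity) (by
      have : (c.den : ℝ) ≤ (N / r ^ 2 : ℕ) := by exact_mod_cast c2
      nlinarith))) r0 h ((Nat.le_div_iff_mul_le (by positivity)).1 c2) l1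
      (by linarith [Nat.lt_floor_add_one (l ^ 4)])
      ((Real.log_le_iff_le_exp (by positivity)).2 r3)
    have b : ∑ n ∈ range N, (moebius n : ℂ) * e (n * θ) =
        ∑ n ∈ Ioc 0 N, (moebius n : ℂ) * e (n * θ) - (moebius N : ℂ) * e (N * θ) := by
      rw [eq_sub_iff_add_eq, ← sum_range_succ, range_eq_Ico, Ico_add_one_right_eq_Icc,
        ← add_sum_Ioc_eq_sum_Icc (Nat.zero_le N)]
      simp
    have b1 := (congrArg norm b).le.trans ((norm_sub_le _ _).trans (add_le_add_right
      (by rw [norm_mul, e_norm, mul_one]; exact mu_le N : _ ≤ (1 : ℝ)) _))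
    have b2 : l ≤ N := by linarith [Real.add_one_le_exp l]
    refine le_of_mul_le_mul_left ?_ (show 0 < l by linarith)
    rw [mul_left_comm]
    nth_rw 2 [← el]
    rw [← Real.exp_add, show L / 20 + -(3 * L / 80) = 1 / 80 * L by ring]
    nlinarith [mul_le_mul_of_nonneg_left b1 (show 0 ≤ l by linarith),
      mul_le_mul_of_nonneg_left m1 N1.le,
      mul_le_mul_of_nonneg_left (show 26 + 7 * (2 * L / 5) + (2 * L / 5) ^ 2 ≤ 30 * L ^ 2 by
        nlinarith) N1.le]
  · have : NeZero c.den := ⟨c.den_nz⟩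
    have q1 : (c.den : ℝ) ≤ Real.exp (2 * L / 5) := le_trans (by exact_mod_cast h) r3
    have a := maj (N := N) (fun χ y hy => sw c.den ((Real.log_le_iff_le_exp (by linarith)).2 q1)
      χ y (by exact_mod_cast hy)) c.num (θ - c)
    rw [← Rat.cast_def, add_sub_cancel] at a
    have b : |θ - c| * N ≤ Real.exp (2 * L / 5) := by
      refine le_trans ?_ r3
      have : (N : ℝ) ≤ (r ^ 2 : ℕ) * ((N / r ^ 2 : ℕ) + 1) := by
        exact_mod_cast (Nat.lt_mul_div_succ N (by positivity)).le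
      refine (mul_le_mul c1 this N1.le (by positivity)).trans ?_
      rw [one_div_mul_eq_div, div_le_iff₀ (by positivity)]
      gcongr; exact le_mul_of_one_le_right (by positivity) q0
    have x1 := Real.one_le_exp (show 0 ≤ 2 * L / 5 by linarith)
    refine a.trans ((mul_le_mul (mul_le_mul_of_nonneg_right (pow_le_pow_left₀ (by positivity) q1 2)
      (by positivity)) (show _ ≤ 8 * Real.exp (2 * L / 5) by linarith) (by positivity)
      (by positivity)).trans ?_)
    rw [show Real.exp (2 * L / 5) ^ 2 * (2 * (N * Real.exp (-3 * L))) * (8 * Real.exp (2 * L / 5)) =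
      N * (16 * (Real.exp (2 * L / 5) ^ 3 * Real.exp (-3 * L))) by ring, ← Real.exp_nat_mul,
      ← Real.exp_add]
    refine mul_le_mul_of_nonneg_left ((mul_le_mul_of_nonneg_right (by simpa using m2)
      (Real.exp_pos _).le).trans ?_) N1.le
    rw [← Real.exp_add]
    exact Real.exp_le_exp.2 (by push_cast; linarith)

end Pool.Agent.H49.MD
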