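import Mathlib
import Pool.Agent.H49.MD8

/-! A maximal inequality for correlations of bounded sequences with the Moebius function. -/

set_option autoImplicit false

namespace Pool.Agent.H49.MD

open Finset Filter Topology Complex ArithmeticFunction

lemma e_pow (n : ℕ) (α : ℝ) : e (n * α) = e α ^ n := by
  induction n with
  | zero => simp [e_zero]
  | succ n ih => rw [Nat.cast_succ, add_mul, one_mul, e_add, ih, pow_succ]

lemma orth {P a b : ℕ} (ha : a < P) (hb : b < P) :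
    ∑ j ∈ range P, e (j * ((a - b) / P)) = if a = b then (P : ℂ) else 0 := by
  split_ifs with h
  · simp [h, e_zero]
  have P0 : (0 : ℝ) < P := by exact_mod_cast lt_of_le_of_lt (Nat.zero_le _) ha
  have k := geom_sum_mul (e ((a - b) / P)) P
  simp only [← e_pow] at k
  rw [mul_div_cancel₀ _ P0.ne', show (a : ℝ) - b = ((a : ℤ) - b : ℤ) by push_cast; rfl, e_int,
    sub_self, mul_eq_zero] at k
  refine (k.resolve_right fun k => h ?_) ▸ (by simp)
  have := e_low ((((a : ℤ) - b : ℤ) : ℝ) / P)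
  rw [k, norm_zero] at this
  have z := sub_eq_zero.1 (abs_nonpos_iff.1 (by linarith :
    |(((a : ℤ) - b : ℤ) : ℝ) / P - round ((((a : ℤ) - b : ℤ) : ℝ) / P)| ≤ 0))
  rw [div_eq_iff P0.ne'] at z
  have := Int.eq_zero_of_abs_lt_dvd (m := P) (x := (a : ℤ) - b)
    ⟨_, by rw [mul_comm]; exact_mod_cast z⟩ (by rw [abs_lt]; omega)
  omega

lemma pars (P : ℕ) (c : ℕ → ℂ) : ∑ m ∈ range P, ‖∑ j ∈ range P, c j * e (m * (j / P))‖ ^ 2 =
    P * ∑ j ∈ range P, ‖c j‖ ^ 2 := by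
  apply ofReal_injective
  push_cast
  simp only [← mul_conj', map_sum, sum_mul_sum]
  rw [sum_comm, mul_sum]
  refine sum_congr rfl fun a ha => ?_
  rw [sum_comm, sum_eq_single a (fun b hb h => ?_) (fun h => absurd ha h)]
  · simp only [map_mul, e_conj, mul_mul_mul_comm _ (e _), ← e_add, add_neg_cancel, e_zero]
    simp
  · have := orth (mem_range.1 ha) (mem_range.1 hb)
    simp only [map_mul, e_conj, mul_mul_mul_comm _ (e _), ← e_add, ← mul_sum]
    rw [if_neg h.symm] at this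
    rw [sum_congr rfl fun (j : ℕ) _ => congrArg e (show j * (a / P) + -(j * (b / P)) =
      j * ((a - b) / (P : ℝ)) by ring), this, mul_zero]

lemma l2 (a F : ℕ → ℂ) (N L : ℕ) (D : ℝ) (hD : ∀ θ, ‖∑ n ∈ range N, a n * e (n * θ)‖ ≤ D)
    (h1 : ∀ t, ‖F t‖ ≤ 1) (h2 : ∀ t, L ≤ t → F t = 0) :
    ∑ m ∈ range L, ‖∑ n ∈ range N, a n * F (m + n)‖ ^ 2 ≤ D ^ 2 * L := by
  set P := L + N + 1 with hP
  have P0 : (0 : ℝ) < P := by positivity
  set f : ℕ → ℂ := fun j => (starRingEnd ℂ) (∑ s ∈ range P, (starRingEnd ℂ) (F s) * e (j * (s / P)))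
    with hf
  have inv : ∀ t, t < P → (P : ℂ) * F t = ∑ j ∈ range P, f j * e (j * (t / P)) := fun t ht => by
    simp only [hf, map_sum, map_mul, conj_conj, e_conj, sum_mul, mul_assoc, ← e_add]
    rw [sum_comm, sum_eq_single t (fun s hs h => ?_) (fun h => absurd (mem_range.2 ht) h)]
    · simp [e_zero]
    · rw [← mul_sum, sum_congr rfl fun (j : ℕ) _ => congrArg e (show -(j * (s / P)) + j * (t / P) =
        j * ((t - s) / (P : ℝ)) by ring), orth ht (mem_range.1 hs), if_neg h.symm, mul_zero]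
  have k : ∀ m ∈ range L, (P : ℝ) ^ 2 * ‖∑ n ∈ range N, a n * F (m + n)‖ ^ 2 =
      ‖∑ j ∈ range P, (f j * ∑ n ∈ range N, a n * e (n * (j / P))) * e (m * (j / P))‖ ^ 2 :=
    fun m hm => by
      nth_rw 1 [← Complex.norm_natCast P]
      rw [← mul_pow, ← norm_mul, mul_sum, sum_congr rfl fun n hn => by
        rw [mul_left_comm, inv _ (by have := mem_range.1 hm; have := mem_range.1 hn; omega),
          mul_sum], sum_comm]
      simp only [mul_sum, sum_mul]
      refine congrArg (‖·‖ ^ 2) (sum_congr rfl fun j _ => sum_congr rfl fun n _ => ?_)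
      rw [show (j : ℝ) * ((m + n : ℕ) / P) = n * (j / P) + m * (j / P) by push_cast; ring, e_add]
      ring
  refine le_of_mul_le_mul_left ?_ (show (0 : ℝ) < P ^ 2 by positivity)
  rw [mul_sum, sum_congr rfl k]
  refine (sum_le_sum_of_subset_of_nonneg (range_subset_range.2 (show L ≤ P by omega))
    fun _ _ _ => by positivity).trans ?_
  rw [pars, sq (P : ℝ), mul_assoc]
  refine mul_le_mul_of_nonneg_left ((sum_le_sum (g := fun j => D ^ 2 * ‖f j‖ ^ 2)
    fun j _ => ?_).trans ?_) P0.le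
  · rw [norm_mul, mul_pow, mul_comm]
    exact mul_le_mul_of_nonneg_right (pow_le_pow_left₀ (norm_nonneg _) (hD _) 2) (by positivity)
  simp only [← mul_sum, hf, norm_conj]
  rw [pars, mul_left_comm]
  refine mul_le_mul_of_nonneg_left (mul_le_mul_of_nonneg_left ?_ (by positivity)) P0.le
  rw [← sum_range_add_sum_Ico _ (show L ≤ P by omega), sum_eq_zero (s := Ico L P) fun t ht => by
    simp [h2 t (mem_Ico.1 ht).1], add_zero]
  exact (sum_le_sum fun t _ => pow_le_one₀ (norm_nonneg _) ((norm_conj _).trans_le (h1 t))).trans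
    (by simp)

open Classical in
theorem maxi (ε η : ℝ) (e0 : 0 < ε) (η0 : 0 < η) : ∃ H : ℕ, ∀ (L : ℕ) (F : ℕ → ℂ),
    (∀ t, ‖F t‖ ≤ 1) → (∀ t, L ≤ t → F t = 0) → (((range L).filter fun m => ∃ N, H ≤ N ∧
      ε * N < ‖∑ n ∈ range N, (moebius n : ℂ) * F (m + n)‖).card : ℝ) ≤ η * L := by
  obtain ⟨s, hs⟩ := pow_unbounded_of_one_lt (2 / ε) (one_lt_two (α := ℝ))
  obtain ⟨N0, h0⟩ := eventually_atTop.1 dav
  have sm : Summable fun i : ℕ => 2 ^ s * (4 / ε ^ 2 * (Real.log 2 ^ (-(3 / 2) : ℝ) *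
      (i : ℝ) ^ (-(3 / 2) : ℝ))) :=
    (((Real.summable_nat_rpow.2 (by norm_num)).mul_left _).mul_left _).mul_left _
  obtain ⟨u, hu⟩ := sm.vanishing (Iio_mem_nhds η0)
  set i0 := u.sup id + N0 + 1 with hi0
  refine ⟨2 ^ (s + i0), fun L F h1 h2 => ?_⟩
  set S : ℕ → ℕ → ℝ := fun N m => ‖∑ n ∈ range N, (moebius n : ℂ) * F (m + n)‖ with hS
  set A := (range L).filter fun m => ∃ N, 2 ^ (s + i0) ≤ N ∧ ε * N < S N m with hA
  have key : ∀ m ∈ A, ∃ i, i0 ≤ i ∧ ∃ t ∈ Ico (2 ^ s) (2 ^ (s + 1)),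
      ε / 2 * (t * 2 ^ i : ℕ) ≤ S (t * 2 ^ i) m := fun m hm => by
    obtain ⟨N, n1, n2⟩ := (mem_filter.1 hm).2
    have N0 : N ≠ 0 := (lt_of_lt_of_le (by positivity) n1).ne'
    obtain ⟨i, hi⟩ : ∃ i, Nat.log 2 N = s + i := ⟨_, (Nat.add_sub_cancel'
      ((Nat.le_add_right s i0).trans (Nat.le_log_of_pow_le one_lt_two n1))).symm⟩
    have a1 := Nat.pow_log_le_self 2 N0
    have a2 := Nat.lt_pow_succ_log_self one_lt_two N
    have a3 := Nat.le_log_of_pow_le one_lt_two n1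
    rw [hi] at a1 a2 a3
    refine ⟨i, by omega, N / 2 ^ i, mem_Ico.2 ⟨(Nat.le_div_iff_mul_le (by positivity)).2
      (by rwa [← pow_add]), (Nat.div_lt_iff_lt_mul (by positivity)).2
      (by rwa [← pow_add, add_right_comm])⟩, ?_⟩
    have b1 := Nat.div_mul_le_self N (2 ^ i)
    have b2 := Nat.lt_div_mul_add (a := N) (show 0 < 2 ^ i by positivity)
    set M := N / 2 ^ i * 2 ^ i
    have b3 : S N m ≤ S M m + 2 ^ i := by
      simp only [hS]
      rw [← sum_range_add_sum_Ico _ b1]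
      refine (norm_add_le _ _).trans (add_le_add_right ((norm_sum_le_of_le _ (n := fun _ => 1)
        fun n _ => ?_).trans ?_) _)
      · rw [norm_mul]; exact mul_le_one₀ (mu_le n) (norm_nonneg _) (h1 _)
      · rw [sum_const, Nat.card_Ico, nsmul_one]; exact_mod_cast (by omega : N - M ≤ 2 ^ i)
    have b4 : (2 : ℝ) ^ s * 2 ^ i ≤ N := by rw [← pow_add]; exact_mod_cast a1
    have b5 : (M : ℝ) ≤ N := by exact_mod_cast b1
    rw [div_lt_iff₀ e0] at hs
    nlinarith [mul_le_mul_of_nonneg_left b4 e0.le, mul_le_mul_of_nonneg_left b5 e0.le,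
      mul_le_mul_of_nonneg_right hs.le (show (0 : ℝ) ≤ 2 ^ i by positivity)]
  choose! g hg using key
  have sub : A ⊆ (Ico i0 (A.sup g + 1)).biUnion fun i => (Ico (2 ^ s) (2 ^ (s + 1))).biUnion fun t =>
      (range L).filter fun m => ε / 2 * (t * 2 ^ i : ℕ) ≤ S (t * 2 ^ i) m := fun m hm => by
    obtain ⟨a, t, b, c⟩ := hg m hm
    exact mem_biUnion.2 ⟨g m, mem_Ico.2 ⟨a, Nat.lt_succ_of_le (le_sup hm)⟩,
      mem_biUnion.2 ⟨t, b, mem_filter.2 ⟨(mem_filter.1 hm).1, c⟩⟩⟩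
  refine (Nat.cast_le.2 ((card_le_card sub).trans card_biUnion_le)).trans ?_
  refine le_trans ?_ (mul_le_mul_of_nonneg_right (le_of_lt (hu (Ico i0 (A.sup g + 1))
    (disjoint_left.2 fun i hi h => ?_))) (by positivity))
  swap
  · have := le_sup (f := id) h
    have := (mem_Ico.1 hi).1
    simp only [id] at *; omega
  rw [Nat.cast_sum, sum_mul]
  refine sum_le_sum fun i hi => (Nat.cast_le.2 card_biUnion_le).trans ?_
  have i1 := (mem_Ico.1 hi).1
  rw [Nat.cast_sum, mul_assoc, show (2 : ℝ) ^ s = (Ico (2 ^ s) (2 ^ (s + 1))).card by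
    rw [Nat.card_Ico, pow_succ, mul_two, Nat.add_sub_cancel]; push_cast; rfl, ← nsmul_eq_mul]
  refine sum_le_card_nsmul _ _ _ fun t ht => ?_
  have t1 : 2 ^ i ≤ t * 2 ^ i := Nat.le_mul_of_pos_left _ (lt_of_lt_of_le (by positivity)
    (mem_Ico.1 ht).1)
  set M := t * 2 ^ i
  have M0 : (0 : ℝ) < M := by exact_mod_cast lt_of_lt_of_le (by positivity) t1
  have a := l2 (fun n => moebius n) F M L _ (h0 M (by have := i.lt_two_pow_self; omega)) h1 h2
  have b := (card_nsmul_le_sum ((range L).filter fun m => ε / 2 * M ≤ S M m) (fun m => S M m ^ 2)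
    ((ε / 2 * M) ^ 2) fun m hm => pow_le_pow_left₀ (by positivity) (mem_filter.1 hm).2 2).trans
    ((sum_le_sum_of_subset_of_nonneg (filter_subset _ _) fun _ _ _ => by positivity).trans a)
  have l0 := Real.log_pos one_lt_two
  have i2 : (0 : ℝ) < i := by exact_mod_cast (by omega : 0 < i)
  have c : Real.log 2 * i ≤ Real.log M := by
    rw [mul_comm, ← Real.log_pow]; exact Real.log_le_log (by positivity) (by exact_mod_cast t1)
  have d : (Real.log M ^ (-(3 / 4) : ℝ)) ^ 2 ≤ Real.log 2 ^ (-(3 / 2) : ℝ) * (i : ℝ) ^ (-(3 / 2) : ℝ) := by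
    rw [← Real.mul_rpow l0.le i2.le, ← Real.rpow_natCast, ← Real.rpow_mul (Real.log_natCast_nonneg _)]
    norm_num
    exact Real.rpow_le_rpow_of_nonpos (by positivity) c (by norm_num)
  rw [nsmul_eq_mul, ← le_div_iff₀ (by positivity)] at b
  refine b.trans ?_
  rw [show (M * Real.log M ^ (-(3 / 4) : ℝ)) ^ 2 * L / (ε / 2 * M) ^ 2 =
    4 / ε ^ 2 * (Real.log M ^ (-(3 / 4) : ℝ)) ^ 2 * L by field_simp; ring]
  gcongr

end Pool.Agent.H49.MD
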