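import Mathlib
import Pool.Agent.H49.MD9

/-! Inverse theorems for polynomial sequences modulo one. -/

set_option autoImplicit false

namespace Pool.Agent.H49.FD

open Finset Filter Topology Complex Pool.Agent.H49.MD

/-- Distance to the nearest integer. -/
noncomputable def nr (x : ℝ) : ℝ := |x - round x|

lemma nr_le (x : ℝ) (k : ℤ) : nr x ≤ |x - k| := round_le x k

lemma nr_sub (x y : ℝ) : nr (x - y) ≤ nr x + nr y :=
  (nr_le _ (round x - round y)).trans (le_of_eq_of_le (by push_cast; congr 1; ring) (abs_sub _ _))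

lemma nr_mul (k : ℤ) (x : ℝ) : nr (k * x) ≤ |(k : ℝ)| * nr x :=
  (nr_le _ (k * round x)).trans_eq (by rw [nr, ← abs_mul]; push_cast; congr 1; ring)

lemma nr_nat (k : ℕ) (x : ℝ) : nr (k * x) ≤ k * nr x := by simpa using nr_mul k x

lemma nr_add_int (x : ℝ) (k : ℤ) : nr (x + k) = nr x := by simp [nr, round_add_intCast]

lemma nr_small {x : ℝ} (h : |x| ≤ 1 / 2) : |x| ≤ nr x := by
  unfold nr
  rcases eq_or_ne (round x) 0 with a | a
  · simp [a]
  · have : (1 : ℝ) ≤ |(round x : ℝ)| := by exact_mod_cast Int.one_le_abs a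
    linarith [abs_sub_abs_le_abs_sub (round x : ℝ) x, abs_sub_comm (round x : ℝ) x]

/-- `f` is a polynomial sequence whose `d`-th difference equals `α`. -/
def Dg : ℕ → ℝ → (ℕ → ℝ) → Prop
  | 0, α, f => ∀ n, f n = α
  | d + 1, α, f => ∀ k : ℕ, Dg d (k * α) fun n => f (n + k) - f n

lemma Dg.lin {d : ℕ} : ∀ {α β : ℝ} {f g : ℕ → ℝ}, Dg d α f → Dg d β g → ∀ a b : ℝ,
    Dg d (a * α + b * β) fun n => a * f n + b * g n := by
  induction d with
  | zero => exact fun h1 h2 a b n => by simp only [h1 n, h2 n]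
  | succ d ih =>
    intro α β f g h1 h2 a b k
    have := ih (h1 k) (h2 k) a b
    rw [show a * (k * α) + b * (k * β) = k * (a * α + b * β) by ring] at this
    rwa [show (fun n => a * (f (n + k) - f n) + b * (g (n + k) - g n)) = fun n =>
      a * f (n + k) + b * g (n + k) - (a * f n + b * g n) from funext fun n => by ring] at this

lemma Dg.comp {d : ℕ} (v a : ℕ) : ∀ {α : ℝ} {f : ℕ → ℝ}, Dg d α f →
    Dg d (v ^ d * α) fun n => f (v * n + a) := by
  induction d with
  | zero => exact fun h n => by simp only [h _, pow_zero, one_mul]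
  | succ d ih =>
    intro α f h k
    have := ih (h (v * k))
    rw [show (v : ℝ) ^ d * ((v * k : ℕ) * α) = k * (v ^ (d + 1) * α) by push_cast; ring] at this
    simpa only [mul_add, add_right_comm] using this

open Polynomial in
lemma Dg.poly (d : ℕ) : ∀ p : ℝ[X], p.natDegree ≤ d →
    Dg d (d.factorial * p.coeff d) fun n => p.eval (n : ℝ) := by
  induction d with
  | zero => exact fun p hp n => by rw [eq_C_of_natDegree_le_zero hp]; simp
  | succ d ih =>
    intro p hp k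
    have c : ∀ j, d ≤ j → (taylor (k : ℝ) p - p).coeff j = (j + 1) * p.coeff (j + 1) * k :=
      fun j hj => by
        rw [coeff_sub, taylor_coeff, eq_X_add_C_of_natDegree_le_one
          ((natDegree_hasseDeriv_le p j).trans (by omega))]
        simp [hasseDeriv_coeff, add_comm 1 j]
    have := ih (taylor (k : ℝ) p - p) (natDegree_le_iff_coeff_eq_zero.2 fun j hj => by
      rw [c j hj.le, coeff_eq_zero_of_natDegree_lt (by omega), mul_zero, zero_mul])
    rw [c d le_rfl, show (d.factorial : ℝ) * ((d + 1) * p.coeff (d + 1) * k) =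
      k * ((d + 1).factorial * p.coeff (d + 1)) by rw [Nat.factorial_succ]; push_cast; ring] at this
    simpa only [eval_sub, taylor_eval, Nat.cast_add] using this

lemma Dg.bd {d : ℕ} : ∀ {α : ℝ} {f : ℕ → ℝ}, Dg d α f → ∃ C, 0 ≤ C ∧ ∀ n, |f n| ≤ C * (n + 1) ^ d := by
  induction d with
  | zero => exact fun {α} _ h => ⟨|α|, abs_nonneg _, fun n => by rw [h n]; simp⟩
  | succ d ih =>
    intro α f h
    obtain ⟨C, C0, hC⟩ := ih (h 1)
    refine ⟨C + |f 0|, by positivity, fun n => ?_⟩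
    induction n with
    | zero => simp [C0]
    | succ n i =>
      have a := abs_sub_abs_le_abs_sub (f (n + 1)) (f n)
      have b : ((n : ℝ) + 1) ^ d ≤ (n + 1 + 1) ^ d := by gcongr; linarith
      have p : (0 : ℝ) ≤ (n + 1) ^ d := by positivity
      push_cast
      rw [pow_succ] at i ⊢
      nlinarith [hC n, mul_le_mul_of_nonneg_left (mul_le_mul_of_nonneg_right b
        (show (0 : ℝ) ≤ n + 1 + 1 by positivity)) (show 0 ≤ C + |f 0| by positivity),
        mul_nonneg (abs_nonneg (f 0)) p]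

lemma vl {D α ε : ℝ} {K : ℕ} (D1 : 1 ≤ D) (hK : 8 * D ≤ K) (e0 : 0 < ε) (e1 : ε ≤ 1 / (160 * D))
    (h : K / D ≤ ((range (K + 1)).filter fun k : ℕ => nr (k * α) ≤ ε).card) :
    ∃ q : ℕ, 0 < q ∧ (q : ℝ) ≤ 8 * D ∧ nr (q * α) ≤ 16 * D ^ 2 * ε / K := by
  have K0 : (0 : ℝ) < K := by linarith
  obtain ⟨c, c1, c2⟩ := Real.exists_rat_abs_sub_le_and_den_le α
    (show 0 < 2 * K by exact_mod_cast (show (0 : ℝ) < 2 * K by linarith))
  have q0 : (0 : ℝ) < c.den := by exact_mod_cast c.den_pos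
  have q1 : (c.den : ℝ) ≤ 2 * K := by exact_mod_cast c2
  push_cast at c1
  have a := h.trans ((Nat.cast_le.2 (card_le_card (monotone_filter_right _ fun k _ hk =>
    lt_of_le_of_lt hk (by linarith)))).trans (cnt α c (c1.trans (one_div_le_one_div_of_le
      (by positivity) (by nlinarith))) K (2 * ε) (by linarith)))
  have k8 : 8 ≤ K / D := (le_div_iff₀ (by linarith)).2 hK
  have q2 : (c.den : ℝ) ≤ 8 * D := by
    rw [show (2 * K / c.den + 1) * (4 * c.den * (2 * ε) + 2) = 16 * (K * ε) + 4 * (K / c.den) +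
      8 * (c.den * ε) + 2 by field_simp; ring] at a
    have b1 : K * ε ≤ K / D / 160 := (mul_le_mul_of_nonneg_left e1 K0.le).trans_eq (by ring)
    have b2 := mul_le_mul_of_nonneg_right q1 e0.le
    have b3 : K / (8 * D) ≤ K / c.den := by
      rw [show K / (8 * D) = K / D / 8 by ring]; linarith
    exact (div_le_div_iff_of_pos_left K0 (by linarith) q0).1 b3
  set β := c.den * α - c.num with hβ
  have b : |β| ≤ 1 / (2 * K) := by
    rw [hβ, show c.den * α - c.num = c.den * (α - c) by rw [Rat.cast_def]; field_simp, abs_mul,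
      abs_of_pos q0]
    refine (mul_le_mul_of_nonneg_left c1 q0.le).trans ?_
    rw [mul_one_div, div_le_div_iff₀ (by positivity) (by positivity)]; nlinarith
  refine ⟨c.den, c.den_pos, q2, (nr_le _ c.num).trans ?_⟩
  rw [← hβ]
  by_contra H
  have s : ((range (K + 1)).filter fun k : ℕ => nr (k * α) ≤ ε) ⊆ range (⌊K / D / 2⌋₊ + 1) :=
    fun k hk => by
      obtain ⟨k1, k2⟩ := mem_filter.1 hk
      have k3 : (k : ℝ) ≤ K := by exact_mod_cast Nat.lt_succ_iff.1 (mem_range.1 k1)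
      have x := nr_small (x := k * β) (by
        rw [abs_mul, Nat.abs_cast]
        exact (mul_le_mul k3 b (abs_nonneg _) K0.le).trans_eq (by field_simp))
      have y := nr_nat c.den (k * α)
      rw [show c.den * (k * α) = k * β + (k * c.num : ℤ) by rw [hβ]; push_cast; ring,
        nr_add_int] at y
      rw [abs_mul, Nat.abs_cast] at x
      refine mem_range.2 (Nat.lt_succ_of_le (Nat.le_floor (le_of_mul_le_mul_right ?_
        (show 0 < 16 * D ^ 2 * ε / K by positivity))))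
      rw [show K / D / 2 * (16 * D ^ 2 * ε / K) = 8 * D * ε by field_simp; ring]
      exact (mul_le_mul_of_nonneg_left (not_le.1 H).le (by positivity)).trans (x.trans (y.trans
        (mul_le_mul q2 k2 (abs_nonneg _) (by linarith))))
  have := h.trans (Nat.cast_le.2 (card_le_card s))
  rw [card_range, Nat.cast_succ] at this
  linarith [Nat.floor_le (show 0 ≤ K / D / 2 by positivity)]

lemma ph {S : Finset ℕ} {E x : ℝ} (E1 : 1 ≤ E) (x0 : 0 ≤ x) (P : ℕ → ℕ → Prop) [∀ q, DecidablePred (P q)]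
    (h : x ≤ S.card) (hq : ∀ k ∈ S, ∃ q : ℕ, 0 < q ∧ (q : ℝ) ≤ E ∧ P q k) :
    ∃ q : ℕ, 0 < q ∧ (q : ℝ) ≤ E ∧ x / E ≤ (S.filter (P q)).card := by
  choose! g g1 g2 g3 using hq
  obtain ⟨q, a, b⟩ := exists_le_sum_fiber_of_maps_to_of_nsmul_le_sum (s := S) (t := Icc 1 ⌊E⌋₊)
    (f := g) (w := fun _ => (1 : ℝ)) (b := x / E)
    (fun k hk => mem_Icc.2 ⟨g1 k hk, Nat.le_floor (g2 k hk)⟩)
    ⟨1, mem_Icc.2 ⟨le_rfl, Nat.le_floor (by simpa using E1)⟩⟩ (by
      rw [Nat.card_Icc, Nat.add_sub_cancel, nsmul_eq_mul, sum_const, nsmul_one]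
      exact (mul_le_mul_of_nonneg_right (Nat.floor_le (by linarith)) (by positivity)).trans
        (le_of_eq_of_le (by field_simp) h))
  rw [sum_const, nsmul_one] at b
  exact ⟨q, (mem_Icc.1 a).1, (Nat.cast_le.2 (mem_Icc.1 a).2).trans (Nat.floor_le (by linarith)),
    b.trans (Nat.cast_le.2 (card_le_card fun k hk => by
      obtain ⟨k1, rfl⟩ := mem_filter.1 hk
      exact mem_filter.2 ⟨k1, g3 k k1⟩))⟩

lemma pv {D α ε : ℝ} {K C : ℕ} {S : Finset ℕ} (D2 : 2 ≤ D) (hK : D ^ (4 * C + 7) ≤ K) (e0 : 0 < ε)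
    (e1 : ε ≤ 1 / D ^ (4 * C + 12)) (hS : S ⊆ range (K + 1)) (h : K / D ^ 4 ≤ S.card)
    (hq : ∀ k ∈ S, ∃ q : ℕ, 0 < q ∧ (q : ℝ) ≤ (D ^ 4) ^ C ∧ nr (q * (k * α)) ≤ ε) :
    ∃ q : ℕ, 0 < q ∧ (q : ℝ) ≤ D ^ (8 * C + 7) ∧ nr (q * α) ≤ D ^ (8 * C + 12) * ε / K := by
  have D1 : 1 ≤ D := by linarith
  obtain ⟨q, q0, q1, q2⟩ := ph (one_le_pow₀ (one_le_pow₀ D1)) (by positivity) _ h hq
  have p : ∀ n, (2 : ℝ) ^ n ≤ D ^ n := fun n => pow_le_pow_left₀ (by norm_num) D2 n
  have P : 0 < D ^ (4 * C + 4) := by positivity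
  obtain ⟨r, r0, r1, r2⟩ := vl (D := D ^ (4 * C + 4)) (α := q * α) (K := K) (one_le_pow₀ D1)
    (le_trans (by rw [show 4 * C + 7 = 3 + (4 * C + 4) by ring, pow_add D 3]; nlinarith [p 3]) hK)
    e0 (e1.trans (one_div_le_one_div_of_le (by positivity) (by
      rw [show 4 * C + 12 = 8 + (4 * C + 4) by ring, pow_add D 8]; nlinarith [p 8])))
    ((le_of_eq (by rw [div_div, ← pow_mul, ← pow_add, add_comm])).trans (q2.trans
      (Nat.cast_le.2 (card_le_card fun k hk => by
        obtain ⟨k1, k2⟩ := mem_filter.1 hk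
        exact mem_filter.2 ⟨hS k1, by rwa [mul_left_comm]⟩))))
  refine ⟨r * q, by positivity, ?_, ?_⟩
  · rw [Nat.cast_mul, show D ^ (8 * C + 7) = D ^ 3 * D ^ (4 * C + 4) * (D ^ 4) ^ C by ring]
    exact mul_le_mul (r1.trans (by nlinarith [p 3])) q1 (by positivity) (by positivity)
  · rw [Nat.cast_mul, mul_assoc, show D ^ (8 * C + 12) = D ^ 4 * (D ^ (4 * C + 4)) ^ 2 by ring]
    refine r2.trans ?_
    gcongr; linarith [p 4]

lemma vdc (u : ℕ → ℂ) (b : ℕ) : ‖∑ n ∈ range b, u n‖ ^ 2 ≤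
    2 * ∑ k ∈ range b, ‖∑ n ∈ range (b - k), u (n + k) * (starRingEnd ℂ) (u n)‖ := by
  refine le_trans ?_ (mul_le_mul_of_nonneg_left ((re_le_norm _).trans (norm_sum_le _ _)) zero_le_two)
  have k : ∀ m, ∑ k ∈ range (m + 1), u (m - k + k) * (starRingEnd ℂ) (u (m - k)) =
      u m * (starRingEnd ℂ) (∑ j ∈ range (m + 1), u j) := fun m => by
    rw [map_sum, mul_sum, ← sum_range_reflect (fun j => u m * (starRingEnd ℂ) (u j))]
    exact sum_congr rfl fun k hk => by
      rw [Nat.sub_add_cancel (Nat.lt_succ_iff.1 (mem_range.1 hk)), Nat.add_sub_cancel]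
  rw [← sum_range_diag_flip b fun k n => u (n + k) * (starRingEnd ℂ) (u n)]
  simp only [k]
  induction b with
  | zero => simp
  | succ b ih =>
    rw [sum_range_succ _ b, sum_range_succ _ b, sum_range_succ _ b]
    rw [Complex.sq_norm, normSq_apply] at ih ⊢
    simp only [add_re, add_im, mul_re, conj_re, conj_im]
    nlinarith [sq_nonneg (u b).re, sq_nonneg (u b).im]

lemma many {D : ℝ} (D2 : 2 ≤ D) {M b : ℕ} (hb : b ≤ M) (u : ℕ → ℂ) (hu : ∀ n, ‖u n‖ ≤ 1)
    (h : M / D ≤ ‖∑ n ∈ range b, u n‖) : M / D ^ 4 ≤ ((range b).filter fun k => M / D ^ 4 ≤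
      ‖∑ n ∈ range (b - k), u (n + k) * (starRingEnd ℂ) (u n)‖).card := by
  rcases Nat.eq_zero_or_pos M with rfl | M0
  · simp
  have M1 : (0 : ℝ) < M := by exact_mod_cast M0
  have b1 : (b : ℝ) ≤ M := by exact_mod_cast hb
  have a := (pow_le_pow_left₀ (by positivity) h 2).trans ((vdc u b).trans (mul_le_mul_of_nonneg_left
    (sum_le_sum (g := fun k => (if M / D ^ 4 ≤ ‖∑ n ∈ range (b - k), u (n + k) *
      (starRingEnd ℂ) (u n)‖ then (M : ℝ) else 0) + M / D ^ 4) fun k _ => by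
      split_ifs with c
      · refine le_add_of_le_of_nonneg ((norm_sum_le_of_le _ (n := fun _ => 1) fun n _ => ?_).trans
          ?_) (by positivity)
        · rw [norm_mul, norm_conj]; exact mul_le_one₀ (hu _) (norm_nonneg _) (hu _)
        · rw [sum_const, card_range, nsmul_one]; exact_mod_cast (Nat.sub_le b k).trans hb
      · linarith) zero_le_two))
  rw [sum_add_distrib, ← sum_filter, sum_const, sum_const, card_range, nsmul_eq_mul, nsmul_eq_mul,
    show (M / D) ^ 2 = D ^ 2 * (M / D ^ 4) * M by field_simp] at a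
  have p : 0 < M / D ^ 4 := by positivity
  refine le_of_mul_le_mul_right ?_ M1
  nlinarith [mul_le_mul_of_nonneg_right b1 p.le, mul_le_mul_of_nonneg_right
    (show 4 ≤ D ^ 2 by nlinarith) (mul_pos p M1).le]

theorem weyl (d : ℕ) : ∃ C : ℕ, ∀ D : ℝ, 2 ≤ D → ∀ M b : ℕ, D ^ C ≤ M → b ≤ M → ∀ α f,
    Dg (d + 1) α f → M / D ≤ ‖∑ n ∈ range b, e (f n)‖ →
      ∃ q : ℕ, 0 < q ∧ (q : ℝ) ≤ D ^ C ∧ nr (q * α) ≤ D ^ C / M ^ (d + 1) := by
  induction d with
  | zero =>
    refine ⟨1, fun D D2 M b hM _ α f h H => ⟨1, one_pos, by simp; linarith, ?_⟩⟩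
    rw [pow_one] at hM
    have a : ∀ n, e (f n) = e (f 0) * e (n * α) := fun n => by
      have : f (0 + n) - f 0 = n * α := h n 0
      rw [← e_add, ← this, zero_add, add_sub_cancel]
    rw [sum_congr rfl fun n _ => a n, ← mul_sum, norm_mul, e_norm, one_mul, range_eq_Ico] at H
    have := (mul_le_mul H (e_low α) (by positivity) (norm_nonneg _)).trans (geo 0 b α)
    rw [div_mul_eq_mul_div, div_le_iff₀ (by linarith)] at this
    rw [Nat.cast_one, one_mul, zero_add, pow_one, pow_one, le_div_iff₀ (by linarith), nr]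
    linarith
  | succ d ih =>
    obtain ⟨C, ih⟩ := ih
    refine ⟨12 * C + 12, fun D D2 M b hM hb α f h H => ?_⟩
    have D1 : 1 ≤ D := by linarith
    have p : ∀ n, n ≤ 12 * C + 12 → D ^ n ≤ M := fun n hn => (pow_le_pow_right₀ D1 hn).trans hM
    have M1 : (1 : ℝ) ≤ M := by simpa using p 0 (by omega)
    obtain ⟨q, q0, q1, q2⟩ := pv (α := α) (ε := (D ^ 4) ^ C / M ^ (d + 1)) (C := C) D2
      (p _ (by omega)) (by positivity) (by
        rw [div_le_div_iff₀ (by positivity) (by positivity), ← pow_mul, ← pow_add, one_mul]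
        exact (p _ (by omega)).trans (le_self_pow₀ M1 (by omega)))
      ((filter_subset _ _).trans (range_subset_range.2 (by omega)))
      (many D2 hb _ (fun n => (e_norm _).le) H) fun k hk => ih (D ^ 4)
        (D2.trans (le_self_pow₀ D1 (by norm_num))) M (b - k) (by rw [← pow_mul]; exact p _ (by omega))
        (by omega) _ _ (h k) (by simpa only [e_conj, ← e_add, sub_eq_add_neg] using (mem_filter.1 hk).2)
    exact ⟨q, q0, q1.trans (pow_le_pow_right₀ D1 (by omega)), q2.trans_eq (by field_simp; ring)⟩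

theorem srec (d : ℕ) : ∃ C : ℕ, ∀ D : ℝ, 2 ≤ D → ∀ K b : ℕ, D ^ C ≤ K → b ≤ K → ∀ ε β f, 0 < ε →
    ε ≤ 1 / D ^ C → Dg d β f → 0 < K → K / D ≤ ((range b).filter fun n => nr (f n) ≤ ε).card →
      ∃ q : ℕ, 0 < q ∧ (q : ℝ) ≤ D ^ C ∧ nr (q * β) ≤ D ^ C * ε / K ^ d := by
  induction d with
  | zero =>
    refine ⟨0, fun D D2 K b _ _ ε β f _ _ h K0 H => ⟨1, one_pos, by simp, ?_⟩⟩
    obtain ⟨n, hn⟩ := card_pos.1 (Nat.cast_pos.1 (lt_of_lt_of_le (by positivity) H))
    simpa [h n] using (mem_filter.1 hn).2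
  | succ d ih =>
    obtain ⟨C, ih⟩ := ih
    refine ⟨12 * C + 13, fun D D2 K b hK hb ε β f e0 e1 h K0 H => ?_⟩
    have D1 : 1 ≤ D := by linarith
    have p : ∀ n, n ≤ 12 * C + 13 → D ^ n ≤ K := fun n hn => (pow_le_pow_right₀ D1 hn).trans hK
    have K1 : (1 : ℝ) ≤ K := by exact_mod_cast K0
    have e2 : ∀ n, n ≤ 12 * C + 12 → D ^ n * (2 * ε) ≤ 1 := fun n hn => by
      rw [le_div_iff₀ (by positivity), pow_succ] at e1
      nlinarith [mul_le_mul (pow_le_pow_right₀ D1 hn) D2 zero_le_two (by positivity)]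
    obtain ⟨q, q0, q1, q2⟩ := pv (α := β) (ε := (D ^ 4) ^ C * (2 * ε) / K ^ d) (C := C) D2
      (p _ (by omega)) (by positivity) (by
        rw [div_le_div_iff₀ (by positivity) (by positivity), mul_right_comm, ← pow_mul, ← pow_add,
          one_mul]
        exact (e2 _ (by omega)).trans (one_le_pow₀ K1))
      ((filter_subset _ _).trans (range_subset_range.2 (by omega)))
      (many D2 hb (fun n => if nr (f n) ≤ ε then 1 else 0) (fun n => by split_ifs <;> simp)
        (by rwa [sum_boole, Complex.norm_natCast])) fun k hk => ih (D ^ 4)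
        (D2.trans (le_self_pow₀ D1 (by norm_num))) K (b - k) (by rw [← pow_mul]; exact p _ (by omega))
        (by omega) _ _ _ (by linarith) (by
          rw [le_div_iff₀' (by positivity), ← pow_mul]; exact e2 _ (by omega)) (h k) K0
        ((mem_filter.1 hk).2.trans ((norm_sum_le_of_le _ (n := fun n =>
          if nr (f (n + k) - f n) ≤ 2 * ε then 1 else 0) fun n _ => by
            have := nr_sub (f (n + k)) (f n)
            split_ifs <;> simp; linarith).trans (sum_boole _ _).le))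
    refine ⟨q, q0, q1.trans (pow_le_pow_right₀ D1 (by omega)), q2.trans ?_⟩
    rw [show D ^ (8 * C + 12) * ((D ^ 4) ^ C * (2 * ε) / K ^ d) / K =
      D ^ (12 * C + 12) * 2 * ε / K ^ (d + 1) by field_simp; ring, pow_succ D (12 * C + 12)]
    gcongr

end Pool.Agent.H49.FD
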