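import Mathlib
import Pool.Agent.H49.FD1

/-! Polynomial exponential sums over primes away from rationals of small height. -/

set_option autoImplicit false

namespace Pool.Agent.H49.FD

open Finset Filter Topology Complex Pool.Agent.H49.MD ArithmeticFunction

lemma abel (g a : ℕ → ℂ) (y : ℕ) (B : ℝ) (h : ∀ z, z ≤ y → ‖∑ n ∈ range z, a n‖ ≤ B) :
    ‖∑ n ∈ range y, g n * a n‖ ≤ B * (‖g (y - 1)‖ + ∑ n ∈ range (y - 1), ‖g (n + 1) - g n‖) := by
  have p := sum_range_by_parts g a y
  simp only [smul_eq_mul] at p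
  rw [p, mul_add, mul_sum _ _ B]
  refine (norm_sub_le _ _).trans (add_le_add ?_ (norm_sum_le_of_le _ fun n hn => ?_)) <;>
    rw [norm_mul, mul_comm]
  · exact mul_le_mul_of_nonneg_right (h y le_rfl) (norm_nonneg _)
  · exact mul_le_mul_of_nonneg_right (h _ (by have := mem_range.1 hn; omega)) (norm_nonneg _)

lemma wsum {w : ℕ → ℝ} (m : Monotone w) (w0 : ∀ n, 0 ≤ w n) (u : ℕ → ℂ) {R y : ℕ} {B W : ℝ}
    (hW : w y ≤ W) (h : ∀ z, z ≤ y → ‖∑ n ∈ range z, u (n + (R + 1))‖ ≤ B) :
    ‖∑ n ∈ Ioc R y, w n * u n‖ ≤ 2 * W * B := by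
  have B0 : 0 ≤ B := by simpa using h 0 (Nat.zero_le _)
  have W0 := (w0 y).trans hW
  rcases le_or_gt y R with a | a
  · rw [Ioc_eq_empty_of_le a, sum_empty, norm_zero]; positivity
  rw [← Ico_add_one_add_one_eq_Ioc, sum_Ico_eq_sum_range]
  simp only [add_comm (R + 1)]
  refine (abel (fun n => w (n + (R + 1))) _ _ B fun z hz => h z (by omega)).trans ?_
  rw [sum_congr rfl (g := fun n => w (n + 1 + (R + 1)) - w (n + (R + 1))) fun n _ => by
    rw [← ofReal_sub, Complex.norm_of_nonneg (sub_nonneg.2 (m (by omega)))],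
    sum_range_sub (fun n => w (n + (R + 1))), Complex.norm_of_nonneg (w0 _),
    show y + 1 - (R + 1) - 1 + (R + 1) = y by omega, mul_comm]
  exact mul_le_mul_of_nonneg_right (by linarith [w0 (0 + (R + 1))]) B0

lemma conv (f g : ArithmeticFunction ℝ) (E : ℕ → ℂ) (N : ℕ) : ∑ n ∈ Ioc 0 N, ((f * g) n : ℝ) * E n =
    ∑ m ∈ Ioc 0 N, f m * ∑ d ∈ Ioc 0 N, if m * d ≤ N then g d * E (m * d) else 0 := by
  simp only [mul_sum, mul_ite, mul_zero]
  rw [← hyp]
  refine sum_congr rfl fun n _ => ?_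
  rw [mul_apply, ofReal_sum, sum_mul]
  exact sum_congr rfl fun x hx => by
    rw [(Nat.mem_divisorsAntidiagonal.1 hx).1, ofReal_mul, mul_assoc]

lemma inn {m : ℕ} (m0 : 0 < m) (R N : ℕ) (F : ℕ → ℂ) :
    (∑ d ∈ Ioc R N, if m * d ≤ N then F d else 0) = ∑ d ∈ Ioc R (N / m), F d := by
  rw [← sum_filter]
  refine sum_congr (Finset.ext fun d => ?_) fun _ _ => rfl
  simp only [mem_filter, mem_Ioc, Nat.le_div_iff_mul_le m0, mul_comm d]
  exact ⟨fun x => ⟨x.1.1, x.2⟩, fun x => ⟨⟨x.1, (Nat.le_mul_of_pos_left _ m0).trans x.2⟩, x.2⟩⟩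

lemma t1 (f g : ArithmeticFunction ℝ) (E : ℕ → ℂ) {w : ℕ → ℝ} (m : Monotone w) (w0 : ∀ n, 0 ≤ w n)
    (hg : ∀ n, 0 < n → g n = w n) {N R : ℕ} {W a D : ℝ} (hW : w N ≤ W) (D0 : 0 < D)
    (hf : ∀ n, n ≤ N → |f n| ≤ a) (h0 : ∀ n, R < n → f n = 0)
    (hs : ∀ k, 0 < k → k ≤ R → ∀ z, z ≤ N / k →
      ‖∑ n ∈ range z, E (k * (n + (0 + 1)))‖ ≤ (N / k : ℕ) / D) :
    ‖∑ n ∈ Ioc 0 N, ((f * g) n : ℝ) * E n‖ ≤ a * (2 * W * (N / D)) * (1 + Real.log N) := by
  have a0 := (abs_nonneg _).trans (hf 0 (Nat.zero_le _))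
  have W0 := (w0 N).trans hW
  rw [conv]
  refine (norm_sum_le_of_le _ (n := fun k : ℕ => a * (2 * W * (N / D)) * (k : ℝ)⁻¹)
    fun k hk => ?_).trans ?_
  · obtain ⟨k0, k1⟩ := mem_Ioc.1 hk
    rcases le_or_gt k R with c | c
    · rw [inn k0, norm_mul, norm_real, mul_assoc, sum_congr rfl fun n hn => by
        rw [hg n (mem_Ioc.1 hn).1]]
      refine mul_le_mul (hf k k1) ((wsum m w0 (fun n => E (k * n)) ((m (Nat.div_le_self _ _)).trans
        hW) (hs k k0 c)).trans ?_) (norm_nonneg _) a0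
      rw [mul_assoc (2 * W), ← div_eq_mul_inv, div_right_comm]
      gcongr; exact Nat.cast_div_le
    · rw [h0 k c, ofReal_zero, zero_mul, norm_zero]; positivity
  · rw [← mul_sum]
    exact mul_le_mul_of_nonneg_left (harm _ _) (by positivity)

lemma bil2 (φ : ℕ → ℝ) (R N : ℕ) (w : ℕ → ℝ) (l Z : ℝ) (Z0 : 0 ≤ Z) (hw : ∀ d, d ≤ N → |w d| ≤ l)
    (hr : ∀ a ∈ Ioc R N, ∑ b ∈ range (a + 1),
      ‖∑ u ∈ Ioc R (N / a), (u : ℂ) * e (φ (u * a) - φ (u * b))‖ ≤ Z * (a : ℝ)⁻¹) :
    (∑ m ∈ Ioc R N, ‖∑ d ∈ Ioc R N, if m * d ≤ N then (w d : ℂ) * e (φ (m * d)) else 0‖)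
      ^ 2 ≤ (1 + Real.log N) * (l ^ 2 * (2 * (Z * (1 + Real.log N)))) := by
  set D := Ioc R N with hD
  set T : ℕ → ℂ := fun m => ∑ d ∈ D, if m * d ≤ N then (w d : ℂ) * e (φ (m * d)) else 0 with hT
  have D0 : ∀ m ∈ D, 0 < m := fun m hm => lt_of_le_of_lt (Nat.zero_le _) (mem_Ioc.1 hm).1
  have l0 : 0 ≤ l := (abs_nonneg _).trans (hw 0 (Nat.zero_le _))
  refine (sum_sq_le_sum_mul_sum_of_sq_le_mul D (f := fun m => (m : ℝ)⁻¹)
    (g := fun m => m * ‖T m‖ ^ 2) (fun _ _ => by positivity) (fun _ _ => by positivity)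
    fun m hm => by rw [inv_mul_cancel_left₀ (by exact_mod_cast (D0 m hm).ne')]).trans
    (mul_le_mul (harm _ _) ?_ (by positivity) (by positivity))
  set V : ℕ → ℕ → ℂ := fun a b => ∑ m ∈ Ioc R (N / max a b), (m : ℂ) * e (φ (m * a) - φ (m * b))
    with hV
  have e1 : ((∑ m ∈ D, m * ‖T m‖ ^ 2 : ℝ) : ℂ) = ∑ a ∈ D, ∑ b ∈ D, (w a * w b : ℝ) * V a b := by
    push_cast
    simp only [← mul_conj', hT, map_sum, sum_mul_sum]
    simp only [mul_sum]
    rw [sum_comm]
    refine sum_congr rfl fun a ha => ?_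
    rw [sum_comm]
    refine sum_congr rfl fun b hb => ?_
    have : Ioc R (N / max a b) = D.filter fun m => m * a ≤ N ∧ m * b ≤ N := by
      ext m
      simp only [hD, mem_Ioc, mem_filter, Nat.le_div_iff_mul_le (lt_max_of_lt_left (D0 a ha)),
        mul_max, max_le_iff]
      exact ⟨fun x => ⟨⟨x.1, (Nat.le_mul_of_pos_right _ (D0 a ha)).trans x.2.1⟩, x.2⟩,
        fun x => ⟨x.1.1, x.2⟩⟩
    simp only [hV, this, sum_filter, mul_sum]
    refine sum_congr rfl fun m _ => ?_
    by_cases x : m * a ≤ N <;> by_cases y : m * b ≤ N <;> simp only [x, y, if_true, if_false,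
      _root_.map_zero, mul_zero, zero_mul, and_self, and_false, false_and]
    rw [map_mul, conj_ofReal, e_conj, sub_eq_add_neg, e_add]
    ring
  set A : ℕ → ℕ → ℝ := fun a b => if b ≤ a then
    ‖∑ u ∈ Ioc R (N / a), (u : ℂ) * e (φ (u * a) - φ (u * b))‖ else 0 with hA
  have A0 : ∀ a b, 0 ≤ A a b := fun a b => by
    simp only [hA]; split_ifs; exacts [norm_nonneg _, le_rfl]
  have e2 : ∀ a b, ‖V a b‖ ≤ A a b + A b a := fun a b => by
    rcases le_total b a with x | x
    · refine le_add_of_le_of_nonneg (le_of_eq ?_) (A0 _ _)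
      simp only [hV, hA, if_pos x, max_eq_left x]
    · refine le_add_of_nonneg_of_le (A0 _ _) (le_of_eq ?_)
      simp only [hV, hA, if_pos x, max_eq_right x]
      rw [← norm_conj, map_sum]
      simp only [map_mul, conj_natCast, e_conj, neg_sub]
  have e3 : ∑ a ∈ D, ∑ b ∈ D, A a b ≤ Z * (1 + Real.log N) := by
    refine (sum_le_sum fun a ha => le_trans ?_ (hr a ha)).trans ?_
    · simp only [hA, ← sum_filter]
      exact sum_le_sum_of_subset_of_nonneg (fun n hn => by simp at hn ⊢; omega)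
        fun _ _ _ => norm_nonneg _
    · rw [← mul_sum]
      exact mul_le_mul_of_nonneg_left (harm _ _) Z0
  refine (le_abs_self _).trans ((norm_real _).ge.trans ((congrArg norm e1).le.trans
    ((norm_sum_le_of_le _ fun a ha => norm_sum_le_of_le _
      (n := fun b => l ^ 2 * (A a b + A b a)) fun b hb => ?_).trans ?_)))
  · rw [norm_mul, norm_real, Real.norm_eq_abs, abs_mul, sq]
    exact mul_le_mul (mul_le_mul (hw a (mem_Ioc.1 ha).2) (hw b (mem_Ioc.1 hb).2) (abs_nonneg _) l0)
      (e2 a b) (norm_nonneg _) (by positivity)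
  · simp only [← mul_sum, sum_add_distrib]
    rw [sum_comm (f := fun a b => A b a)]
    exact mul_le_mul_of_nonneg_left (by linarith) (by positivity)

/-- Truncation of an arithmetic function. -/
noncomputable def cut (R : ℕ) (f : ArithmeticFunction ℝ) : ArithmeticFunction ℝ :=
  ⟨fun n => if n ≤ R then f n else 0, by simp⟩

lemma cut_apply (R : ℕ) (f : ArithmeticFunction ℝ) (n : ℕ) :
    cut R f n = if n ≤ R then f n else 0 := rfl

lemma sub_ap (f g : ArithmeticFunction ℝ) (n : ℕ) : (f - g) n = f n - g n := by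
  rw [sub_eq_add_neg, ArithmeticFunction.add_apply, ArithmeticFunction.neg_apply, sub_eq_add_neg]

lemma vau (R : ℕ) : vonMangoldt = cut R vonMangoldt + cut R moebius * ArithmeticFunction.log -
    cut R moebius * cut R vonMangoldt * zeta + (moebius - cut R moebius) *
      ((vonMangoldt - cut R vonMangoldt) * zeta) := by
  rw [← vonMangoldt_mul_zeta]
  linear_combination (cut R vonMangoldt - vonMangoldt) * coe_moebius_mul_coe_zeta (R := ℝ)

lemma clam (R n : ℕ) : 0 ≤ cut R vonMangoldt n ∧ cut R vonMangoldt n ≤ vonMangoldt n := by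
  rw [cut_apply]; split_ifs <;> simp [vonMangoldt_nonneg]

lemma cmu (R n : ℕ) : |cut R moebius n| ≤ 1 := by
  rw [cut_apply]; split_ifs
  · rw [intCoe_apply]; exact_mod_cast abs_moebius_le_one
  · simp

lemma lgle {n N : ℕ} (h : n ≤ N) : Real.log n ≤ Real.log N := by
  rcases Nat.eq_zero_or_pos n with rfl | n0
  · simpa using Real.log_natCast_nonneg N
  · exact Real.log_le_log (by exact_mod_cast n0) (by exact_mod_cast h)

theorem vin (d : ℕ) : ∃ E : ℕ, ∀ D : ℝ, 2 ≤ D → ∀ R N : ℕ, D ^ E ≤ R → R ^ 3 ≤ N →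
    1 ≤ Real.log N → ∀ α f (Z : ℝ), Dg (d + 1) α f → (d + 1).factorial * (R * (2 * R ^ 2) ^ (d + 1)) ≤ Z →
    (∀ q : ℕ, 0 < q → (q : ℝ) ≤ Z → Z / N ^ (d + 1) < nr (q * α)) →
    ‖∑ n ∈ Ioc 0 N, (vonMangoldt n : ℂ) * e (f n)‖ ≤ 6 * R + 8 * Real.log N ^ 2 * (N / D) +
      √(40 * Real.log N ^ 4 * (N ^ 2 / D)) := by
  obtain ⟨C, hC⟩ := weyl d
  obtain ⟨C', hC'⟩ := srec (d + 1)
  refine ⟨C + (C + 1) * C' + 1, fun D D2 R N hR hN l1 α f Z hf hZ nm => ?_⟩
  set l := Real.log N with hl
  have D1 : 1 ≤ D := by linarith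
  have p : ∀ n, n ≤ C + (C + 1) * C' + 1 → D ^ n ≤ R := fun n hn =>
    (pow_le_pow_right₀ D1 hn).trans hR
  have R1 : (1 : ℝ) ≤ R := by simpa using p 0 (by omega)
  have R0 : 0 < R := by exact_mod_cast R1
  have f1 : (1 : ℝ) ≤ (d + 1).factorial := by exact_mod_cast (d + 1).factorial_pos
  have N1 : (0 : ℝ) < N := by exact_mod_cast lt_of_lt_of_le (by positivity) hN
  have dv : ∀ k : ℕ, 0 < k → k ≤ N → (N : ℝ) ≤ 2 * k * (N / k : ℕ) := fun k k0 k1 => by
    have := Nat.lt_mul_div_succ N k0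
    have := Nat.le_mul_of_pos_right k (Nat.div_pos k1 k0)
    exact_mod_cast (by nlinarith : N ≤ 2 * k * (N / k))
  have s1 : ∀ k, 0 < k → k ≤ R ^ 2 → ∀ z, z ≤ N / k →
      ‖∑ n ∈ range z, e (f (k * (n + (0 + 1))))‖ ≤ (N / k : ℕ) / D := fun k k0 k1 z hz => by
    by_contra H
    have a : R ≤ N / k := (Nat.le_div_iff_mul_le k0).2 (by nlinarith)
    have k2 : (k : ℝ) ≤ R ^ 2 := by exact_mod_cast k1
    obtain ⟨q, q0, q1, q2⟩ := hC D D2 (N / k) z ((p _ (by omega)).trans (by exact_mod_cast a)) hz _ _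
      (hf.comp k k) (by simpa only [zero_add, mul_add, mul_one] using (not_le.1 H).le)
    have b : D ^ C * (2 * k) ^ (d + 1) ≤ Z := le_trans ((mul_le_mul (p _ (by omega))
      (by gcongr) (by positivity) (by positivity)).trans
        (le_mul_of_one_le_left (by positivity) f1)) hZ
    refine absurd (nm (q * k ^ (d + 1)) (by positivity) (le_trans ?_ b)) (not_lt.2 ?_)
    · push_cast; gcongr; linarith [(Nat.cast_nonneg k : (0 : ℝ) ≤ k)]
    · rw [Nat.cast_mul, Nat.cast_pow, mul_assoc]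
      refine q2.trans ?_
      rw [div_le_div_iff₀ (pow_pos (by exact_mod_cast R0.trans_le a) _) (by positivity)]
      refine le_trans ?_ (mul_le_mul_of_nonneg_right b (by positivity))
      rw [mul_assoc, ← mul_pow]
      gcongr; exact dv k k0 (k1.trans (by nlinarith))
  have row : ∀ a ∈ Ioc R N, ∑ b ∈ range (a + 1), ‖∑ u ∈ Ioc R (N / a),
      (u : ℂ) * e (f (u * a) - f (u * b))‖ ≤ 5 * (N ^ 2 / D) * (a : ℝ)⁻¹ := fun a ha => by
    obtain ⟨a1, a2⟩ := mem_Ioc.1 ha
    rcases le_or_gt (N / a) R with c | c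
    · simp only [Ioc_eq_empty_of_le c, sum_empty, norm_zero, sum_const_zero]; positivity
    set M := N / a with hM
    have M1 : (R : ℝ) ≤ M := by exact_mod_cast c.le
    have a3 : (R : ℝ) + 1 ≤ a := by exact_mod_cast a1
    set S := (range (a + 1)).filter fun b => ∃ z, z ≤ M ∧ M / D ≤
      ‖∑ n ∈ range z, e (f ((n + (R + 1)) * a) - f ((n + (R + 1)) * b))‖ with hS
    have k : (S.card : ℝ) ≤ (a + 1 : ℕ) / D := by
      by_contra H
      obtain ⟨q, q0, q1, q2⟩ := ph (one_le_pow₀ D1 : 1 ≤ D ^ C) (by positivity) (fun q b =>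
        nr (q * (((a : ℝ) ^ (d + 1) - (b : ℝ) ^ (d + 1)) * α)) ≤ D ^ C / M ^ (d + 1))
        (not_le.1 H).le fun b hb => by
          obtain ⟨z, z1, z2⟩ := (mem_filter.1 hb).2
          have := (hf.comp a ((R + 1) * a)).lin (hf.comp b ((R + 1) * b)) 1 (-1)
          rw [show 1 * ((a : ℝ) ^ (d + 1) * α) + -1 * ((b : ℝ) ^ (d + 1) * α) =
            ((a : ℝ) ^ (d + 1) - (b : ℝ) ^ (d + 1)) * α by ring] at this
          exact hC D D2 M z ((p _ (by omega)).trans M1) z1 _ _ this (by
            simpa only [one_mul, neg_mul, ← sub_eq_add_neg, add_mul _ (R + 1), mul_comm _ a,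
              mul_comm _ b] using z2)
      have g := Dg.poly (d + 1) (Polynomial.C (q * (a : ℝ) ^ (d + 1) * α) -
        Polynomial.C (q * α) * Polynomial.X ^ (d + 1)) (by compute_degree)
      obtain ⟨r, r0, r1, r2⟩ := hC' (D ^ (C + 1)) (D2.trans (le_self_pow₀ D1 (by omega))) (a + 1)
        (a + 1) (by rw [← pow_mul]; push_cast; linarith [p ((C + 1) * C') (by omega)]) le_rfl
        (D ^ C / M ^ (d + 1)) _ _ (by have : (0 : ℝ) < M := by linarith
                                      positivity) (by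
          rw [div_le_div_iff₀ (pow_pos (by linarith) _) (by positivity), ← pow_mul, ← pow_add, one_mul]
          exact ((p _ (by omega)).trans M1).trans (le_self_pow₀ (by linarith) (by omega))) g
        (by omega) ((le_of_eq (by rw [div_div, pow_succ'])).trans (q2.trans (Nat.cast_le.2
          (card_le_card fun b hb => mem_filter.2 ⟨(mem_filter.1 (mem_filter.1 hb).1).1,
            le_of_eq_of_le (by simp; congr 1; ring) (mem_filter.1 hb).2⟩))))
      have b : D ^ (C + (C + 1) * C') * 2 ^ (d + 1) * (d + 1).factorial ≤ Z := le_trans (by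
        rw [mul_comm]; gcongr
        · exact p _ (by omega)
        · nlinarith) hZ
      have x2 : (1 : ℝ) ≤ 2 ^ (d + 1) := one_le_pow₀ one_le_two
      refine absurd (nm (r * q * (d + 1).factorial) (by positivity) (le_trans ?_ b)) (not_lt.2 ?_)
      · push_cast
        rw [pow_add, pow_mul, mul_comm (D ^ C)]
        exact mul_le_mul_of_nonneg_right ((mul_le_mul r1 q1 (by positivity) (by positivity)).trans
          (le_mul_of_one_le_right (by positivity) x2)) (by positivity)
      · have := nr_mul (-1) (r * ((d + 1).factorial * -(q * α)))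
        simp only [Polynomial.coeff_sub, Polynomial.coeff_C_succ, Polynomial.coeff_C_mul,
          Polynomial.coeff_X_pow_self, mul_one, zero_sub] at r2
        rw [show ((r * q * (d + 1).factorial : ℕ) : ℝ) * α =
          ((-1 : ℤ) : ℝ) * (r * ((d + 1).factorial * -(q * α))) by push_cast; ring]
        refine this.trans (le_trans (by simpa using r2) ?_)
        rw [← mul_div_assoc, div_div, ← mul_pow, ← pow_mul, ← pow_add, add_comm _ C,
          div_le_div_iff₀ (pow_pos (by nlinarith) _) (by positivity)]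
        refine le_trans ?_ (mul_le_mul_of_nonneg_right ((le_mul_of_one_le_right (by positivity)
          f1).trans b) (pow_pos (by nlinarith) _).le)
        rw [mul_assoc, ← mul_pow]
        gcongr; nlinarith [dv a (by omega) a2]
    refine (sum_le_sum (g := fun b => (if b ∈ S then (M : ℝ) ^ 2 else 0) + 2 * M * (M / D))
      fun b hb => ?_).trans ?_
    · split_ifs with x
      · refine le_add_of_le_of_nonneg ((norm_sum_le_of_le _ (n := fun _ => (M : ℝ))
          fun u hu => ?_).trans ?_) (by positivity)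
        · rw [norm_mul, e_norm, mul_one, Complex.norm_natCast]; exact_mod_cast (mem_Ioc.1 hu).2
        · rw [sum_const, Nat.card_Ioc, nsmul_eq_mul, sq]
          exact mul_le_mul_of_nonneg_right (Nat.cast_le.2 (Nat.sub_le _ _)) (by positivity)
      · rw [zero_add]
        exact wsum (w := fun n => n) Nat.mono_cast (fun _ => by positivity)
          (fun u => e (f (u * a) - f (u * b))) le_rfl fun z hz =>
            (not_le.1 fun y => x (mem_filter.2 ⟨hb, z, hz, y⟩)).le
    rw [sum_add_distrib, sum_ite_mem, inter_eq_right.2 (filter_subset _ _), sum_const, sum_const,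
      card_range, nsmul_eq_mul, nsmul_eq_mul]
    have y : (M : ℝ) ≤ N / a := Nat.cast_div_le
    refine (add_le_add_left (mul_le_mul_of_nonneg_right k (by positivity)) _).trans ?_
    rw [show ((a + 1 : ℕ) : ℝ) / D * M ^ 2 + (a + 1 : ℕ) * (2 * M * (M / D)) =
      3 * (a + 1) * (M ^ 2 / D) by push_cast; ring, show 5 * (N ^ 2 / D) * (a : ℝ)⁻¹ =
      5 * a * ((N / a) ^ 2 / D) by field_simp]
    exact mul_le_mul (by linarith) (by gcongr) (by positivity) (by positivity)
  have b0 : ‖∑ n ∈ Ioc 0 N, (cut R vonMangoldt n : ℂ) * e (f n)‖ ≤ 6 * R := by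
    refine (norm_sum_le _ _).trans ?_
    have := Chebyshev.psi_le_const_mul_self (x := R) (by positivity)
    rw [Chebyshev.psi, Nat.floor_natCast, show (4 : ℝ) = 2 ^ 2 by norm_num, Real.log_pow] at this
    simp only [norm_mul, e_norm, mul_one, Complex.norm_of_nonneg (clam R _).1]
    simp only [cut_apply, ← sum_filter]
    refine (sum_le_sum_of_subset_of_nonneg (fun n hn => by simp at hn ⊢; omega)
      fun _ _ _ => vonMangoldt_nonneg).trans (this.trans ?_)
    push_cast; nlinarith [Real.log_two_lt_d9]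
  have b1 := t1 (cut R moebius) ArithmeticFunction.log (fun n => e (f n)) (w := fun n => Real.log n)
    (fun _ _ h => lgle h) Real.log_natCast_nonneg (fun _ _ => rfl) hl.ge (by linarith)
    (fun n _ => cmu R n) (R := R ^ 2) (fun n hn => if_neg (by nlinarith)) s1
  have b2 := t1 (cut R moebius * cut R vonMangoldt) zeta (fun n => e (f n)) (w := fun _ => 1)
    monotone_const (fun _ => zero_le_one) (fun n hn => by simp [hn.ne']) le_rfl (by linarith)
    (a := l) (fun n hn => by
      rw [mul_apply]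
      refine (abs_sum_le_sum_abs _ _).trans ((sum_le_sum (g := fun x => vonMangoldt x.2)
        fun x _ => ?_).trans ?_)
      · rw [abs_mul, abs_of_nonneg (clam R _).1]
        exact (mul_le_of_le_one_left (clam R _).1 (cmu R _)).trans (clam R _).2
      · rw [Nat.sum_divisorsAntidiagonal' (fun _ b => vonMangoldt b), vonMangoldt_sum]
        exact lgle hn)
    (R := R ^ 2) (fun n hn => by
      rw [mul_apply]
      refine sum_eq_zero fun x hx => ?_
      have := (Nat.mem_divisorsAntidiagonal.1 hx).1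
      simp only [cut_apply]
      split_ifs with u v
      · nlinarith [Nat.mul_le_mul u v]
      all_goals simp) s1
  have b3 : ‖∑ n ∈ Ioc 0 N, (((moebius - cut R moebius) * ((vonMangoldt - cut R vonMangoldt) *
      zeta) : ArithmeticFunction ℝ) n : ℂ) * e (f n)‖ ≤ √(40 * l ^ 4 * (N ^ 2 / D)) := by
    set g : ArithmeticFunction ℝ := (vonMangoldt - cut R vonMangoldt) * zeta with hg
    have RN : R ≤ N := (Nat.le_self_pow (by norm_num) R).trans hN
    refine le_trans ?_ (Real.le_sqrt_of_sq_le ((bil2 f R N g l _ (by positivity) (fun n hn => ?_)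
      row).trans ?_))
    · rw [conv, ← sum_Ioc_consecutive _ (Nat.zero_le R) RN, sum_eq_zero fun n hn => by
        simp [sub_ap, cut_apply, (mem_Ioc.1 hn).2], zero_add]
      refine norm_sum_le_of_le _ fun m hm => ?_
      rw [norm_mul, ← sum_Ioc_consecutive _ (Nat.zero_le R) RN, sum_eq_zero fun n hn => by
        rw [hg, coe_mul_zeta_apply, sum_eq_zero fun k hk => by
          simp [sub_ap, cut_apply, (Nat.divisor_le hk).trans (mem_Ioc.1 hn).2]]; simp, zero_add]
      refine mul_le_of_le_one_left (norm_nonneg _) ?_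
      simpa [sub_ap, cut_apply, not_le.2 (mem_Ioc.1 hm).1] using mu_le m
    · simp only [hg, coe_mul_zeta_apply, sub_ap]
      rw [abs_of_nonneg (sum_nonneg fun k _ => sub_nonneg.2 (clam R k).2)]
      exact (sum_le_sum fun k _ => sub_le_self _ (clam R k).1).trans
        (vonMangoldt_sum.le.trans (lgle hn))
    · rw [← hl, show (1 + l) * (l ^ 2 * (2 * (5 * (N ^ 2 / D) * (1 + l)))) =
        10 * ((1 + l) ^ 2 * l ^ 2) * (N ^ 2 / D) by ring]
      refine mul_le_mul_of_nonneg_right ?_ (by positivity)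
      nlinarith [mul_le_mul_of_nonneg_right (pow_le_pow_left₀ (by linarith)
        (show 1 + l ≤ 2 * l by linarith) 2) (sq_nonneg l)]
  rw [sum_congr rfl fun n _ => by
    rw [vau R, ArithmeticFunction.add_apply, sub_ap,
      ArithmeticFunction.add_apply, ofReal_add, ofReal_sub, ofReal_add, add_mul, sub_mul, add_mul],
    sum_add_distrib, sum_sub_distrib, sum_add_distrib]
  refine (norm_add_le _ _).trans (add_le_add ((norm_sub_le _ _).trans ((add_le_add
    ((norm_add_le _ _).trans (add_le_add b0 b1)) b2).trans ?_)) b3)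
  rw [← hl]
  nlinarith [mul_le_mul_of_nonneg_right (mul_le_mul_of_nonneg_left l1 (show 0 ≤ l by linarith))
    (show 0 ≤ N / D by positivity)]

end Pool.Agent.H49.FD
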