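import Mathlib
import Pool.Agent.H49.FD2

/-! Primes in progressions to moduli of logarithmic size. -/

set_option autoImplicit false

namespace Pool.Agent.H49.FD

open Finset Filter Topology Complex Pool.Agent.H49.MD ArithmeticFunction DirichletCharacter
  Pool.Agent.H59.MT

theorem lowS (s : ℝ) (s0 : 0 < s) (s1 : s ≤ 1 / 10) : ∀ᶠ L : ℝ in atTop, ∀ (q : ℕ) [NeZero q],
    Real.log q ≤ 2 * L / 5 → ∀ χ : DirichletCharacter ℂ q, χ ≠ 1 →
      Cont (fun n => χ n * (moebius n : ℂ)) L (Real.exp (-(2 * (s * L)))) := by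
  obtain ⟨c, c0, hc⟩ := siegel s s0
  filter_upwards [eventually_ge_atTop 1, evp (10 ^ 60) s 30 s0, evp c⁻¹ (s / 2) 0 (by linarith),
    evp 7 (1 / 2) 0 (by norm_num)] with L L1 m1 m2 m3 q _ hq χ h1
  have sl : 0 < s * L := by positivity
  have sl2 : s * L ≤ L / 10 := by nlinarith
  have h : Num L (Real.exp (-(2 * (s * L)))) (Real.exp (-(s * L))) := ⟨L1, Real.exp_pos _,
    Real.exp_pos _, Real.exp_le_one_iff.2 (by linarith),
    (mul_le_mul_of_nonneg_right m1 (Real.exp_pos _).le).trans (by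
      rw [← Real.exp_add]; exact Real.exp_le_exp.2 (by linarith))⟩
  set η := Real.exp (-(2 * (s * L))) with hη
  have e0 := h.e0
  have r4 := h.r4
  have k2 : 7 / η ≤ Real.exp L := by
    rw [hη, Real.exp_neg, div_inv_eq_mul]
    refine (mul_le_mul_of_nonneg_right (by simpa using m3) (Real.exp_pos _).le).trans ?_
    rw [← Real.exp_add]; exact Real.exp_le_exp.2 (by linarith)
  refine ⟨fun s => (LFunction χ s)⁻¹, fun s hs => by
    beta_reduce
    rw [LFunction_eq_LSeries _ hs]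
    exact (eq_inv_of_mul_eq_one_right (LSeries.mul_mu_eq_one χ hs)).symm, fun z s1 s2 s3 => ?_⟩
  rcases le_total z.re (1 + η) with a | a
  · have := h.lowA (by linarith) h1 (fun h2 => le_trans ?_ (hc q χ h1 h2)) s1 a s3
    · rw [lc_eq h1 (by linarith)] at this
      refine ⟨(differentiable_LFunction h1 z).inv (norm_pos_iff.1 (lt_of_lt_of_le (by positivity)
        this)), ?_⟩
      rw [norm_inv]
      exact (inv_anti₀ (by positivity) this).trans (by rwa [inv_div])
    · rw [← inv_mul_le_iff₀ c0]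
      refine (mul_le_mul_of_nonneg_right (by simpa using m2) (Real.exp_pos _).le).trans ?_
      rw [← Real.exp_add]
      exact Real.exp_le_exp.2 (by nlinarith [mul_le_mul_of_nonneg_left hq s0.le])
  · refine ⟨(differentiable_LFunction h1 z).inv
      (LFunction_ne_zero_of_one_le_re χ (Or.inl h1) (by linarith)), ?_⟩
    have := low (cm χ) η z.re z.im e0 (by linarith) a s2
    rw [re_add_im, ← LFunction_eq_LSeries _ (by linarith)] at this
    rw [norm_inv]
    exact (inv_anti₀ (by positivity) this).trans (by rwa [inv_div])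

theorem SWs (s : ℝ) (s0 : 0 < s) (s1 : s ≤ 1 / 10) : ∀ᶠ L : ℝ in atTop, ∀ (q : ℕ) [NeZero q],
    Real.log q ≤ 2 * L / 5 → ∀ (χ : DirichletCharacter ℂ q), χ ≠ 1 → ∀ y : ℕ,
      (y : ℝ) ≤ 2 * Real.exp (Real.exp (3 * (s * L))) → ‖∑ n ∈ range y, χ n * (moebius n : ℂ)‖ ≤
        3 * (Real.exp (Real.exp (3 * (s * L))) * Real.exp (-3 * L)) := by
  filter_upwards [lowS s s0 s1, eventually_ge_atTop (10 ^ 13), eventually_ge_atTop C2,
    evp 17 s 1 s0] with L h1 hL hC m q _ hq χ h0 y hy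
  set l := Real.exp (3 * (s * L)) with hl
  have sl : 0 < s * L := by positivity
  have sl2 : s * L ≤ L / 10 := by nlinarith
  have c : ∀ n : ℕ, ‖χ n * (moebius n : ℂ)‖ ≤ o n := fun n => by
    unfold o; split_ifs with h
    · simp [h]
    · rw [norm_mul]; exact mul_le_one₀ (χ.norm_le_one _) (norm_nonneg _) (mu_le n)
  have x1 : 1 ≤ Real.exp (2 * (s * L)) := Real.one_le_exp (by linarith)
  have k : 17 * L * Real.exp (2 * (s * L)) ≤ l := by
    rw [hl, show 3 * (s * L) = s * L + 2 * (s * L) by ring, Real.exp_add]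
    exact mul_le_mul_of_nonneg_right (by simpa using m) (by linarith)
  have k2 : 17 * L ≤ l := le_trans (le_mul_of_one_le_right (by linarith) x1) k
  set a := ⌈Real.exp (l - 4 * L)⌉₊ with ha
  have p := Real.exp_pos (l - 4 * L)
  have a1 : Real.exp (l - 4 * L) ≤ a := Nat.le_ceil _
  have a2 : (a : ℝ) ≤ Real.exp l * Real.exp (-3 * L) := by
    rw [← Real.exp_add, show l + -3 * L = l - 4 * L + L by ring, Real.exp_add]
    have := (Nat.ceil_lt_add_one p.le).le
    have := Real.one_le_exp (show 0 ≤ l - 4 * L by linarith)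
    nlinarith [Real.add_one_le_exp L]
  have tr : ∀ z : ℕ, z ≤ a → ‖∑ n ∈ range z, χ n * (moebius n : ℂ)‖ ≤
      Real.exp l * Real.exp (-3 * L) := fun z hz =>
    (norm_sum_le_of_le _ fun n _ => (c n).trans (o1 n)).trans (by
      rw [sum_const, card_range, nsmul_one]; exact le_trans (by exact_mod_cast hz) a2)
  rcases le_total y a with h | h
  · linarith [tr y h, mul_pos (Real.exp_pos l) (Real.exp_pos (-3 * L))]
  have a0 : (0 : ℝ) < a := p.trans_le a1
  have := MD.sw c (h1 q hq χ h0) hL hC (Real.exp_pos _) (Real.exp_le_one_iff.2 (by linarith)) a y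
    (by exact_mod_cast a0) h (by
      rw [Real.exp_neg, le_inv_mul_iff₀ (by linarith)]
      refine le_trans ?_ ((Real.le_log_iff_exp_le a0).2 a1)
      nlinarith)
    ((Real.log_le_log (a0.trans_le (by exact_mod_cast h)) hy).trans (by
      rw [Real.log_mul two_ne_zero (by positivity), Real.log_exp,
        show L = 3 * (s * L) + (L - 3 * (s * L)) by ring, Real.exp_add, ← hl]
      nlinarith [Real.log_two_lt_d9, Real.add_one_le_exp (L - 3 * (s * L))]))
  rw [← sum_range_add_sum_Ico _ h]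
  linarith [norm_add_le (∑ n ∈ range a, χ n * (moebius n : ℂ)) (∑ n ∈ Ico a y, χ n * (moebius n : ℂ)),
    tr a le_rfl, mul_le_mul_of_nonneg_right hy (Real.exp_pos (-3 * L)).le]

lemma rI (u : ℕ → ℂ) (h : u 0 = 0) (N : ℕ) : ∑ n ∈ range (N + 1), u n = ∑ n ∈ Ioc 0 N, u n := by
  rw [range_eq_Ico, Ico_add_one_right_eq_Icc, ← add_sum_Ioc_eq_sum_Icc (Nat.zero_le N), h, zero_add]

lemma tl : Tendsto (fun N : ℕ => Real.log N) atTop atTop :=
  Real.tendsto_log_atTop.comp tendsto_natCast_atTop_atTop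

theorem SWL (B : ℕ) (B2 : 2 ≤ B) : ∀ᶠ N : ℕ in atTop, ∀ (q : ℕ) [NeZero q], q ≤ Real.log N ^ B →
    ∀ χ : DirichletCharacter ℂ q, χ ≠ 1 → ∀ y, y ≤ N + 1 →
      ‖∑ n ∈ range y, (vonMangoldt n : ℂ) * χ n‖ ≤ N / Real.log N ^ (4 * B) := by
  have B1 : (2 : ℝ) ≤ B := by exact_mod_cast B2
  have t2 : Tendsto (fun N : ℕ => (5 * B : ℕ) * Real.log (Real.log N)) atTop atTop :=
    (Real.tendsto_log_atTop.comp tl).const_mul_atTop (by positivity)
  filter_upwards [t2.eventually (SWs (1 / (15 * B)) (by positivity)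
    (one_div_le_one_div_of_le (by norm_num) (by linarith))), tl.eventually_ge_atTop 10,
    eventually_gt_atTop 0] with N sw l1 N0 q _ hq χ h1 y hy
  have N1 : (1 : ℝ) ≤ N := by exact_mod_cast N0
  set l := Real.log N with hl
  have l0 : 0 < l := by linarith
  have q0 : (0 : ℝ) < q := by exact_mod_cast NeZero.pos q
  have p : ∀ a b, a ≤ b → l ^ a ≤ l ^ b := fun a b h => pow_le_pow_right₀ (by linarith) h
  rw [show 3 * (1 / (15 * (B : ℝ)) * ((5 * B : ℕ) * Real.log l)) = Real.log l by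
    push_cast; field_simp; ring, Real.exp_log l0, Real.exp_log (by linarith),
    show -3 * (((5 * B : ℕ) : ℝ) * Real.log l) = -((15 * B : ℕ) * Real.log l) by push_cast; ring,
    Real.exp_neg, Real.exp_nat_mul, Real.exp_log l0] at sw
  have sw := sw q ((Real.log_le_log q0 (hq.trans (p _ (2 * B) (by omega)))).trans_eq (by
    rw [Real.log_pow]; push_cast; ring)) χ h1
  rcases y with _ | y
  · simp; positivity
  set Y := ⌈l ^ (7 * B)⌉₊ with hY
  have Y1 : l ^ (7 * B) ≤ Y := Nat.le_ceil _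
  have Y0 : 1 ≤ l ^ (7 * B) := one_le_pow₀ (by linarith)
  have Y2 : (Y : ℝ) ≤ 2 * l ^ (7 * B) := by linarith [Nat.ceil_lt_add_one (show 0 ≤ l ^ (7 * B) by
    positivity)]
  rw [rI _ (by simp), ← log_mul_moebius_eq_vonMangoldt, conv, ← sum_filter_add_sum_filter_not _
    (fun k => k ≤ Y)]
  have b1 : ‖∑ k ∈ Ioc 0 y with k ≤ Y, (ArithmeticFunction.log k : ℂ) * ∑ d ∈ Ioc 0 y,
      if k * d ≤ y then ((moebius : ArithmeticFunction ℝ) d : ℂ) * χ (k * d : ℕ) else 0‖ ≤
      Y * (l * (3 * (N * (l ^ (15 * B))⁻¹))) := by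
    refine (norm_sum_le_of_le _ (n := fun _ => l * (3 * (N * (l ^ (15 * B))⁻¹)))
      fun k hk => ?_).trans ?_
    · obtain ⟨k0, k1⟩ := mem_Ioc.1 (mem_filter.1 hk).1
      rw [inn k0, ← rI _ (by simp), norm_mul, log_apply,
        Complex.norm_of_nonneg (Real.log_natCast_nonneg _), sum_congr rfl
        (g := fun d : ℕ => χ k * (χ d * (moebius d : ℂ))) fun d _ => by simp; ring, ← mul_sum, norm_mul]
      refine mul_le_mul (lgle (by omega)) ((mul_le_of_le_one_left (norm_nonneg _)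
        (χ.norm_le_one _)).trans (sw _ ?_)) (by positivity) l0.le
      have : ((y / k : ℕ) : ℝ) ≤ N := by exact_mod_cast (Nat.div_le_self y k).trans (by omega)
      push_cast; linarith
    · rw [sum_const, nsmul_eq_mul]
      refine mul_le_mul_of_nonneg_right (Nat.cast_le.2 ((card_le_card (t := Ioc 0 Y)
        fun k hk => ?_).trans (by simp))) (by positivity)
      simp at hk ⊢; omega
  have b2 : ‖∑ k ∈ Ioc 0 y with ¬ k ≤ Y, (ArithmeticFunction.log k : ℂ) * ∑ d ∈ Ioc 0 y,
      if k * d ≤ y then ((moebius : ArithmeticFunction ℝ) d : ℂ) * χ (k * d : ℕ) else 0‖ ≤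
      N / Y * (2 * l * (2 * q)) := by
    rw [show (Ioc 0 y).filter (fun k => ¬ k ≤ Y) = Ioc Y y by ext; simp; omega]
    simp only [mul_sum, mul_ite, mul_zero]
    rw [sum_comm]
    refine (norm_sum_le_of_le _ (n := fun d => if d ≤ N / Y then 2 * l * (2 * q) else 0)
      fun d hd => ?_).trans ?_
    · have d0 := (mem_Ioc.1 hd).1
      simp only [mul_comm _ d]
      rw [inn d0]
      split_ifs with c
      · rw [sum_congr rfl (g := fun k : ℕ => ((moebius d : ℂ) * χ d) * ((Real.log k : ℂ) * χ k))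
          fun k _ => by simp [log_apply]; ring, ← mul_sum, norm_mul, norm_mul]
        refine (mul_le_of_le_one_left (norm_nonneg _) (mul_le_one₀ (mu_le d) (norm_nonneg _)
          (χ.norm_le_one _))).trans (wsum (w := fun n => Real.log n) (fun _ _ h => lgle h)
          Real.log_natCast_nonneg (fun n => χ n) (lgle ((Nat.div_le_self _ _).trans (by omega)))
          fun z _ => ?_)
        have := sum_Ioc_consecutive (fun n : ℕ => χ n) (Nat.zero_le Y) (Nat.le_add_right Y z)
        rw [← Ico_add_one_add_one_eq_Ioc Y, sum_Ico_eq_sum_range,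
          show Y + z + 1 - (Y + 1) = z by omega] at this
        simp only [add_comm _ (Y + 1)]
        rw [eq_sub_of_add_eq' this]
        linarith [norm_sub_le (∑ n ∈ Ioc 0 (Y + z), χ (n : ZMod q)) (∑ n ∈ Ioc 0 Y, χ (n : ZMod q)),
          ps h1 (Y + z), ps h1 Y]
      · rw [Ioc_eq_empty_of_le, sum_empty, norm_zero]
        rw [Nat.le_div_iff_mul_le (by exact_mod_cast Y0.trans Y1)] at c
        exact Nat.div_le_of_le_mul (by omega)
    · rw [← sum_filter, sum_const, nsmul_eq_mul]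
      refine mul_le_mul_of_nonneg_right (le_trans (Nat.cast_le.2 ((card_le_card
        (t := Ioc 0 (N / Y)) fun k hk => ?_).trans (by simp))) Nat.cast_div_le) (by positivity)
      simp at hk ⊢; omega
  refine (norm_add_le _ _).trans ((add_le_add b1 b2).trans ?_)
  have u1 : Y * (l * (3 * (N * (l ^ (15 * B))⁻¹))) ≤ 6 * l / l ^ (4 * B) * (N / l ^ (4 * B)) :=
    (mul_le_mul_of_nonneg_right Y2 (by positivity)).trans_eq (by field_simp; ring)
  have u2 : N / Y * (2 * l * (2 * q)) ≤ 4 * l / l ^ (2 * B) * (N / l ^ (4 * B)) :=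
    (mul_le_mul (div_le_div_of_nonneg_left (by linarith) (by linarith) Y1)
      (show _ ≤ 2 * l * (2 * l ^ B) by gcongr) (by positivity) (by positivity)).trans_eq
      (by field_simp; ring)
  have u3 : 6 * l / l ^ (4 * B) ≤ 6 / 10 := by
    rw [div_le_div_iff₀ (by positivity) (by norm_num)]; nlinarith [p 2 (4 * B) (by omega)]
  have u4 : 4 * l / l ^ (2 * B) ≤ 4 / 10 := by
    rw [div_le_div_iff₀ (by positivity) (by norm_num)]; nlinarith [p 2 (2 * B) (by omega)]
  have u5 : 0 ≤ N / l ^ (4 * B) := by positivity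
  nlinarith [mul_le_mul_of_nonneg_right u3 u5, mul_le_mul_of_nonneg_right u4 u5]

lemma npr {N : ℕ} (N0 : 0 < N) (s : Finset ℕ) : ∑ n ∈ Ioc 0 N with ¬ n.Prime ∨ n ∈ s, vonMangoldt n ≤
    2 * √N * Real.log N + s.card * Real.log N := by
  have a := Chebyshev.psi_sub_theta_le (x := N) (by exact_mod_cast N0)
  rw [Chebyshev.psi_sub_theta_eq_sum_not_prime, Nat.floor_natCast] at a
  rw [filter_or]
  refine ((le_add_of_nonneg_right (sum_nonneg fun _ _ => vonMangoldt_nonneg)).trans_eq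
    sum_union_inter).trans (add_le_add a
    ((sum_le_card_nsmul _ _ (Real.log N) fun n hn => vonMangoldt_le_log.trans
      (lgle (mem_Ioc.1 (mem_filter.1 hn).1).2)).trans ?_))
  rw [nsmul_eq_mul]
  exact mul_le_mul_of_nonneg_right (Nat.cast_le.2 (card_le_card fun n hn => (mem_filter.1 hn).2))
    (Real.log_natCast_nonneg _)

lemma majL {q : ℕ} [NeZero q] (F : ZMod q → ℂ) (hF : ∀ z, ‖F z‖ ≤ 1) (g : ℕ → ℂ)
    (hg : ∀ n, ‖g n‖ ≤ 1) {N : ℕ} (N0 : 0 < N) {B V : ℝ} (B0 : 0 ≤ B)
    (hB : ∀ χ : DirichletCharacter ℂ q, χ ≠ 1 → ∀ y, y ≤ N + 1 →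
      ‖∑ n ∈ range y, (vonMangoldt n : ℂ) * χ n‖ ≤ B)
    (hV : ∑ n ∈ range N, ‖g (n + 1) - g n‖ ≤ V) :
    ‖∑ n ∈ Ioc 0 N, (vonMangoldt n : ℂ) * (F n * g n) - ((q.totient : ℂ)⁻¹ * ∑ u : (ZMod q)ˣ, F u) *
      ∑ n ∈ Ioc 0 N, (vonMangoldt n : ℂ) * g n‖ ≤
      q * (B * (1 + V)) + 2 * (2 * √N * Real.log N + q * Real.log N) := by
  classical
  have t0 : (0 : ℝ) < q.totient := by exact_mod_cast Nat.totient_pos.2 (NeZero.pos q)
  have V0 : 0 ≤ V := le_trans (by positivity) hV
  set c : DirichletCharacter ℂ q → ℂ := fun χ =>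
    (q.totient : ℂ)⁻¹ * ∑ u : (ZMod q)ˣ, F u * χ (u : ZMod q)⁻¹ with hc
  have c1 : ∀ χ, ‖c χ‖ ≤ 1 := fun χ => by
    rw [hc, norm_mul, norm_inv, Complex.norm_natCast, inv_mul_le_iff₀ t0, mul_one]
    refine (norm_sum_le_of_le _ (n := fun _ => 1) fun u _ => ?_).trans ?_
    · rw [norm_mul]; exact mul_le_one₀ (hF _) (norm_nonneg _) (χ.norm_le_one _)
    · simp [ZMod.card_units_eq_totient]
  have c2 : c 1 = (q.totient : ℂ)⁻¹ * ∑ u : (ZMod q)ˣ, F u := by
    simp only [hc, ZMod.inv_coe_unit, MulChar.one_apply_coe, mul_one]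
  have k : ∀ z : ZMod q, F z - c 1 = ∑ χ ∈ univ.erase 1, c χ * χ z +
      if IsUnit z then 0 else F z - c 1 := fun z => by
    split_ifs with h
    · rw [add_zero, sub_eq_iff_eq_add, ← mul_one (c 1), ← MulChar.one_apply (R' := ℂ) h,
        sum_erase_add _ _ (mem_univ _)]
      simp only [hc, mul_assoc, sum_mul, ← mul_sum]
      rw [sum_comm]
      simp only [← mul_sum, sum_char_inv_mul_char_eq ℂ (Units.isUnit _)]
      rw [sum_eq_single h.unit (fun u _ hu => by
        rw [if_neg (show ¬ (u : ZMod q) = z from fun e => hu (Units.ext e)), mul_zero]) (by simp)]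
      have : (q.totient : ℂ) ≠ 0 := by exact_mod_cast t0.ne'
      simp; field_simp
    · rw [sum_eq_zero fun χ _ => by rw [χ.map_nonunit h, mul_zero], zero_add]
  rw [← c2, mul_sum, ← sum_sub_distrib, sum_congr rfl (g := fun n : ℕ => ∑ χ ∈ univ.erase 1,
    c χ * (g n * ((vonMangoldt n : ℂ) * χ n)) + (vonMangoldt n : ℂ) * g n *
      if IsUnit (n : ZMod q) then 0 else F n - c 1) fun n _ => by
        rw [sum_congr rfl (g := fun χ => (vonMangoldt n : ℂ) * g n * (c χ * χ n)) fun _ _ => by ring,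
          ← mul_sum, ← mul_add, ← k]; ring, sum_add_distrib, sum_comm]
  refine (norm_add_le _ _).trans (add_le_add ((norm_sum_le_of_le _ (n := fun _ => B * (1 + V))
    fun χ hχ => ?_).trans ?_) ((norm_sum_le_of_le _ (n := fun n => 2 * if ¬ n.Prime ∨
      n ∈ q.primeFactors then vonMangoldt n else 0) fun n _ => ?_).trans ?_))
  · rw [← mul_sum, norm_mul, ← rI _ (by simp)]
    refine (mul_le_of_le_one_left (norm_nonneg _) (c1 χ)).trans ((abel _ _ _ _
      (hB χ (mem_erase.1 hχ).1)).trans (mul_le_mul_of_nonneg_left (add_le_add (hg _) hV) B0))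
  · rw [sum_const, nsmul_eq_mul]
    refine mul_le_mul_of_nonneg_right (Nat.cast_le.2 (card_erase_le.trans ?_)) (by positivity)
    rw [card_univ, ← Nat.card_eq_fintype_card, card_eq_totient_of_hasEnoughRootsOfUnity]
    exact Nat.totient_le q
  · have l0 : 0 ≤ vonMangoldt n := vonMangoldt_nonneg
    by_cases u : IsUnit (n : ZMod q)
    · rw [if_pos u, mul_zero, norm_zero]; positivity
    rw [if_neg u, if_pos, norm_mul, norm_mul, Complex.norm_of_nonneg l0, mul_comm 2]
    · exact mul_le_mul (mul_le_of_le_one_right l0 (hg n)) ((norm_sub_le _ _).trans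
        (by linarith [hF n, c1 1])) (norm_nonneg _) l0
    · rw [ZMod.isUnit_iff_coprime] at u
      exact or_iff_not_imp_left.2 fun p => Nat.mem_primeFactors.2 ⟨not_not.1 p,
        not_not.1 fun d => u (((not_not.1 p).coprime_iff_not_dvd).2 d), NeZero.ne q⟩
  · rw [← mul_sum, ← sum_filter]
    refine mul_le_mul_of_nonneg_left ((npr N0 _).trans (add_le_add_right
      (mul_le_mul_of_nonneg_right (Nat.cast_le.2 ((card_le_card (t := Ioc 0 q) fun p hp =>
        mem_Ioc.2 ⟨Nat.pos_of_mem_primeFactors hp, Nat.le_of_mem_primeFactors hp⟩).trans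
        (by simp))) (Real.log_natCast_nonneg _)) _)) zero_le_two

end Pool.Agent.H49.FD
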