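import Mathlib
import Pool.Agent.H49.FD3

/-! Complete exponential sums over reduced residues. -/

set_option autoImplicit false

namespace Pool.Agent.H49.FD

open Finset Filter Topology Complex Pool.Agent.H49.MD

/-- The properties of an integer polynomial sequence of degree `d + 1`. -/
structure Pl (d : ℕ) (c δ : ℤ) (H : ℕ → ℤ) : Prop where
  dg : Dg (d + 1) c fun n => H n
  di : Dg (d + 1) δ fun n => n
  c0 : c ≠ 0
  per : ∀ a b : ℕ, (a : ℤ) - b ∣ H a - H b

lemma tot (n : ℕ) : (n : ℝ) ≤ (n.primeFactors.card + 1) * n.totient := by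
  have k : ∀ s : Finset ℕ, (∀ p ∈ s, 2 ≤ p) →
      (1 : ℝ) ≤ (s.card + 1) * ∏ p ∈ s, (1 - (p : ℝ)⁻¹) := fun s => by
    induction s using Finset.induction_on_max with
    | empty => simp
    | insert a s h ih =>
      intro H
      have na : a ∉ s := fun x => lt_irrefl _ (h a x)
      have c : s.card + 2 ≤ a := by
        have := card_le_card (show s ⊆ Ico 2 a from fun p hp =>
          mem_Ico.2 ⟨H p (mem_insert_of_mem hp), h p hp⟩)
        have := H a (mem_insert_self _ _)
        rw [Nat.card_Ico] at *; omega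
      have c2 : (s.card : ℝ) + 2 ≤ a := by exact_mod_cast c
      have i := ih fun p hp => H p (mem_insert_of_mem hp)
      rw [prod_insert na, card_insert_of_notMem na, ← mul_assoc]
      refine i.trans (mul_le_mul_of_nonneg_right ?_
        ((mul_pos_iff_of_pos_left (by positivity)).1 (zero_lt_one.trans_le i)).le)
      have : ((s.card : ℝ) + 2) * (a : ℝ)⁻¹ ≤ 1 :=
        (div_le_one (lt_of_lt_of_le (by positivity) c2)).2 c2
      push_cast; linarith
  have e : (n.totient : ℝ) = n * ∏ p ∈ n.primeFactors, (1 - (p : ℝ)⁻¹) := by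
    simpa using congrArg (Rat.cast : ℚ → ℝ) (Nat.totient_eq_mul_prod_factors n)
  rw [e, mul_left_comm]
  exact le_mul_of_one_le_right (by positivity)
    (k _ fun p hp => (Nat.prime_of_mem_primeFactors hp).two_le)

lemma om {n : ℕ} (h : 0 < n) : (n.primeFactors.card : ℝ) ≤ 2 * Real.log n := by
  have a : 2 ^ n.primeFactors.card ≤ n := (pow_card_le_prod _ _ 2 fun p hp =>
    (Nat.prime_of_mem_primeFactors hp).two_le).trans (Nat.le_of_dvd h (Nat.prod_primeFactors_dvd n))
  have := Real.log_le_log (by positivity) (show (2 : ℝ) ^ n.primeFactors.card ≤ n by exact_mod_cast a)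
  rw [Real.log_pow] at this
  nlinarith [Real.log_two_gt_d9, (Nat.cast_nonneg n.primeFactors.card : (0 : ℝ) ≤ _)]

lemma nr_div {k : ℤ} {q : ℕ} (q0 : 0 < q) (h : nr (k / q) < 1 / q) : (q : ℤ) ∣ k := by
  have q1 : (0 : ℝ) < q := by exact_mod_cast q0
  rw [nr, lt_div_iff₀ q1, ← abs_of_pos q1, ← abs_mul, abs_of_pos q1, sub_mul,
    div_mul_cancel₀ _ q1.ne'] at h
  exact ⟨round ((k : ℝ) / q), by
    have := Int.abs_lt_one_iff.1 (by exact_mod_cast h : |k - round ((k : ℝ) / q) * q| < 1)
    linarith⟩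

variable {d : ℕ} {c δ : ℤ} {H : ℕ → ℤ} (P : Pl d c δ H) {m : ℕ} (m0 : 0 < m)
include P m0

lemma fper (r : ℚ) (t n : ℕ) : e (r * H (n : ZMod (r.den * m)).val + t / m *
    (n : ZMod (r.den * m)).val) = e (r * H n + t / m * n) := by
  rw [ZMod.val_natCast]
  obtain ⟨j, hj⟩ := P.per n (n % (r.den * m))
  have a : (n : ℝ) = (n % (r.den * m) : ℕ) + r.den * m * (n / (r.den * m) : ℕ) := by
    exact_mod_cast (Nat.mod_add_div n _).symm
  have b : (H n : ℝ) - H (n % (r.den * m)) = (n - (n % (r.den * m) : ℕ)) * j := by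
    exact_mod_cast hj
  have m1 : (m : ℝ) ≠ 0 := by positivity
  have r1 : (r : ℝ) * r.den = r.num := by exact_mod_cast r.mul_den_eq_num
  rw [← mul_one (e _), ← e_int ((r.num * m * j + t * r.den) * (n / (r.den * m) : ℕ)), ← e_add]
  congr 1
  rw [Int.cast_mul, Int.cast_natCast]
  push_cast
  field_simp
  linear_combination (-r * m) * b - (r * m * j + t) * a - m * m * j * (n / (r.den * m) : ℕ) * r1

theorem cs (η : ℝ) (η0 : 0 < η) : ∃ Q : ℕ, ∀ r : ℚ, Q < r.den → ∀ (t : ℕ) [NeZero (r.den * m)],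
    ‖((r.den * m).totient : ℂ)⁻¹ * ∑ u : (ZMod (r.den * m))ˣ,
      e (r * H (u : ZMod (r.den * m)).val + t / m * (u : ZMod (r.den * m)).val)‖ ≤ η := by
  classical
  obtain ⟨C, hC⟩ := weyl d
  obtain ⟨Q, hQ⟩ := eventually_atTop.1 (tl.eventually ((evp (2 * (m * m * |c|)) 1
    (2 * C + 4 * (d + 1)) one_pos).and ((eventually_ge_atTop 20).and (eventually_ge_atTop (6 / η ^ 2)))))
  refine ⟨Q, fun r hr t _ => ?_⟩
  have fp := fper P m0 r t
  obtain ⟨h1, h2, h3⟩ := hQ (r.den * m) (hr.le.trans (Nat.le_mul_of_pos_right _ m0))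
  set q := r.den * m with hq
  have q0 := NeZero.pos q
  have q1 : (0 : ℝ) < q := by exact_mod_cast q0
  rw [one_mul, Real.exp_log q1] at h1
  set l := Real.log q with hl
  set F : ZMod q → ℂ := fun z => e (r * H z.val + t / m * z.val) with hF
  set Y := ⌊l ^ 4⌋₊ with hY
  have Y1 : (Y : ℝ) ≤ l ^ 4 := Nat.floor_le (by positivity)
  set U := Y.primesLE \ q.primeFactors with hU
  have w := om q0
  have U1 : l ^ 2 ≤ U.card := by
    have a := (Chebyshev.psi_ge Y).trans (Chebyshev.psi_le_primeCounting_mul_log Y)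
    have b : (Y.primeCounting : ℝ) ≤ U.card + q.primeFactors.card := by
      rw [← Nat.primesLE_card_eq_primeCounting]; exact_mod_cast card_le_card_sdiff_add_card
    have Y2 := Nat.lt_floor_add_one (l ^ 4)
    have l4 : 1 ≤ l ^ 4 := one_le_pow₀ (by linarith)
    have x : Real.log (Y + 1) ≤ 1 + 4 * l := (Real.log_le_log (by positivity)
      (show _ ≤ 2 * l ^ 4 by linarith)).trans (by
        rw [Real.log_mul two_ne_zero (by positivity), Real.log_pow]
        push_cast; linarith [Real.log_two_lt_d9, Real.log_le_sub_one_of_pos (show 0 < l by linarith)])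
    have y : Real.log Y ≤ 5 * l := by
      have := lgle (Nat.le_succ Y); push_cast at this; linarith
    have z := mul_le_mul (b.trans (add_le_add_right w _)) y (Real.log_natCast_nonneg _)
      (by positivity)
    have := mul_le_mul Y2.le Real.log_two_gt_d9.le
    by_contra H
    nlinarith [mul_le_mul_of_nonneg_left Real.log_two_gt_d9.le (Nat.cast_nonneg (α := ℝ) Y),
      mul_le_mul_of_nonneg_right (not_le.1 H).le (show 0 ≤ l by linarith),
      mul_le_mul_of_nonneg_right h2 (show 0 ≤ l ^ 3 by positivity),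
      mul_le_mul_of_nonneg_right h2 (show 0 ≤ l ^ 2 by positivity),
      mul_le_mul_of_nonneg_right h2 (show 0 ≤ l by linarith)]
  have pu : ∀ p ∈ U, p ≤ Y ∧ p.Coprime q := fun p hp => by
    obtain ⟨a, b⟩ := mem_sdiff.1 hp
    obtain ⟨a1, a2⟩ := Nat.mem_primesLE.1 a
    exact ⟨a1, a2.coprime_iff_not_dvd.2 fun x => b (Nat.mem_primeFactors.2 ⟨a2, x, q0.ne'⟩)⟩
  have off : ∀ a ∈ U, ∀ b ∈ U, a ≠ b →
      ‖∑ z : ZMod q, F (a * z) * (starRingEnd ℂ) (F (b * z))‖ ≤ q / l ^ 2 := fun a ha b hb ab => by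
    by_contra X
    set j := ⌈(l ^ 2) ^ C⌉₊ + 1 with hj
    have j1 : (l ^ 2) ^ C < j := by rw [hj]; push_cast; linarith [Nat.le_ceil ((l ^ 2) ^ C)]
    have j0 : (0 : ℝ) < j := lt_of_le_of_lt (by positivity) j1
    have pe : ∀ i : ℕ, ∑ n ∈ range (i * q), F (a * n) * (starRingEnd ℂ) (F (b * n)) =
        i * ∑ z : ZMod q, F (a * z) * (starRingEnd ℂ) (F (b * z)) := fun i => by
      induction i with
      | zero => simp
      | succ i ih =>
        rw [add_mul, one_mul, sum_range_add, ih, Nat.cast_succ, add_mul, one_mul, ← sum_zmod]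
        simp
    have g := P.dg.lin P.di r (t / m)
    obtain ⟨k, k0, k1, k2⟩ := hC (l ^ 2) (by nlinarith) (j * q) (j * q) (j1.le.trans (by
      exact_mod_cast Nat.le_mul_of_pos_right _ q0)) le_rfl _ _
      ((g.comp a 0).lin (g.comp b 0) 1 (-1)) (by
        have := pe j
        simp only [← Nat.cast_mul, hF, fp, e_conj, ← e_add] at this
        simp only [add_zero, one_mul, neg_mul]
        rw [this, norm_mul, Complex.norm_natCast, Nat.cast_mul, mul_div_assoc]
        refine mul_le_mul_of_nonneg_left ?_ j0.le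
        simpa only [hF, e_conj, ← e_add] using (not_le.1 X).le)
    set p : ℤ := (a : ℤ) ^ (d + 1) - (b : ℤ) ^ (d + 1) with hp
    have dv := nr_div (k := k * p * (r.num * m * c + t * δ * r.den)) q0 (lt_of_eq_of_lt
      (congrArg nr (by
        have m1 : (m : ℝ) ≠ 0 := by positivity
        rw [hq, hp, Rat.cast_def]; push_cast; field_simp; ring)) (k2.trans_lt (by
      rw [div_lt_div_iff₀ (by positivity) q1, one_mul]
      refine lt_of_lt_of_le ?_ (le_self_pow₀ (by exact_mod_cast Nat.mul_pos (by omega) q0) (by omega))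
      push_cast; gcongr)))
    have dv2 : (r.den : ℤ) ∣ k * p * m * c := (Int.isCoprime_iff_gcd_eq_one.2 (by
      rw [Int.gcd_comm]; exact r.reduced)).dvd_of_dvd_mul_right (by
        have := dvd_sub ((Dvd.intro (m : ℤ) (by rw [hq]; push_cast; rfl)).trans dv)
          (Dvd.intro_left (k * p * (t * δ)) rfl)
        rwa [show k * p * (r.num * m * c + t * δ * r.den) - k * p * (t * δ) * r.den =
          k * p * m * c * r.num by ring] at this)
    have p0 : p ≠ 0 := fun x => ab (Nat.pow_left_injective (by omega : d + 1 ≠ 0)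
      (by exact_mod_cast sub_eq_zero.1 x))
    have le := Int.le_of_dvd (abs_pos.2 (mul_ne_zero (mul_ne_zero (mul_ne_zero (by omega) p0)
      (by omega)) P.c0)) ((dvd_abs _ _).2 dv2)
    have le2 : (r.den : ℝ) ≤ k * |(p : ℝ)| * m * |(c : ℝ)| := by
      rw [abs_mul, abs_mul, abs_mul, Nat.abs_cast, Nat.abs_cast] at le; exact_mod_cast le
    have p1 : |(p : ℝ)| ≤ (l ^ 4) ^ (d + 1) := by
      have x : ∀ a ∈ U, (a : ℝ) ^ (d + 1) ≤ (l ^ 4) ^ (d + 1) := fun a ha => pow_le_pow_left₀
        (by positivity) (le_trans (by exact_mod_cast (pu a ha).1) Y1) _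
      rw [hp, abs_le]; push_cast
      constructor <;> linarith [x a ha, x b hb, pow_nonneg (Nat.cast_nonneg (α := ℝ) a) (d + 1),
        pow_nonneg (Nat.cast_nonneg (α := ℝ) b) (d + 1)]
    have : (q : ℝ) ≤ (l ^ 2) ^ C * (l ^ 4) ^ (d + 1) * m * |(c : ℝ)| * m := by
      rw [hq, Nat.cast_mul]; exact mul_le_mul_of_nonneg_right (le2.trans (by gcongr)) (by positivity)
    rw [← pow_mul, ← pow_mul, ← pow_add] at this
    push_cast at h1; linarith
  have t0 : (0 : ℝ) < q.totient := by exact_mod_cast Nat.totient_pos.2 q0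
  have e1 : (U.card : ℂ) * ∑ u : (ZMod q)ˣ, F u = ∑ u : (ZMod q)ˣ, ∑ a ∈ U, F (a * u) := by
    rw [sum_comm, ← nsmul_eq_mul, ← sum_const]
    exact sum_congr rfl fun a ha => (Equiv.sum_comp (Equiv.mulLeft (ZMod.unitOfCoprime a
      (pu a ha).2)) fun u : (ZMod q)ˣ => F u).symm
  have e2 : ∑ z : ZMod q, ‖∑ a ∈ U, F (a * z)‖ ^ 2 ≤ U.card * (q + U.card * (q / l ^ 2)) := by
    have : ((∑ z : ZMod q, ‖∑ a ∈ U, F (a * z)‖ ^ 2 : ℝ) : ℂ) =
        ∑ a ∈ U, ∑ b ∈ U, ∑ z : ZMod q, F (a * z) * (starRingEnd ℂ) (F (b * z)) := by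
      push_cast
      simp only [← mul_conj', map_sum, sum_mul_sum]
      rw [sum_comm]
      exact sum_congr rfl fun a _ => sum_comm
    refine (le_abs_self _).trans ((norm_real _).ge.trans ((congrArg norm this).le.trans
      ((norm_sum_le_of_le _ fun a ha => norm_sum_le_of_le _
        (n := fun b => (if a = b then (q : ℝ) else 0) + q / l ^ 2) fun b hb => ?_).trans ?_)))
    · split_ifs with x
      · refine le_add_of_le_of_nonneg ((norm_sum_le_of_le _ (n := fun _ => 1) fun z _ => ?_).trans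
          (by simp)) (by positivity)
        simp only [hF, norm_mul, norm_conj, e_norm, mul_one, le_refl]
      · rw [zero_add]; exact off a ha b hb x
    · rw [← nsmul_eq_mul]
      refine sum_le_card_nsmul _ _ _ fun a ha => ?_
      rw [sum_add_distrib, sum_ite_eq, if_pos ha, sum_const, nsmul_eq_mul]
  have e3 := (pow_le_pow_left₀ (norm_nonneg _) ((congrArg norm e1).le.trans (norm_sum_le _ _))
    2).trans (sq_sum_le_card_mul_sum_sq.trans (mul_le_mul_of_nonneg_left (le_trans (by
      rw [← sum_image (s := univ) (g := (Units.val : (ZMod q)ˣ → ZMod q))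
        (f := fun z => ‖∑ a ∈ U, F (a * z)‖ ^ 2) Units.val_injective.injOn]
      exact sum_le_sum_of_subset_of_nonneg (subset_univ _) fun _ _ _ => by positivity) e2)
      (by positivity)))
  rw [card_univ, ZMod.card_units_eq_totient, norm_mul, Complex.norm_natCast, mul_pow] at e3
  have l0 : 0 < l := by linarith
  have U0 : (0 : ℝ) < U.card := lt_of_lt_of_le (by positivity) U1
  have e4 : (q : ℝ) ≤ U.card * (q / l ^ 2) := by
    rw [mul_div_assoc', le_div_iff₀ (by positivity), mul_comm]; gcongr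
  have e5 : (q : ℝ) ≤ 3 * l * q.totient := (tot q).trans (by gcongr; linarith)
  rw [norm_mul, norm_inv, Complex.norm_natCast, inv_mul_le_iff₀ t0]
  refine le_of_sq_le_sq (le_of_mul_le_mul_left (e3.trans ?_) (pow_pos U0 2)) (by positivity)
  rw [div_le_iff₀ (by positivity)] at h3
  have e6 : 2 * (q / l ^ 2) ≤ q.totient * η ^ 2 := by
    rw [mul_div_assoc', div_le_iff₀ (by positivity)]
    nlinarith [mul_le_mul_of_nonneg_right h3 (mul_pos l0 t0).le]
  nlinarith [mul_le_mul_of_nonneg_left e4 (mul_pos t0 U0).le,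
    mul_le_mul_of_nonneg_left e6 (mul_pos t0 (pow_pos U0 2)).le]

end Pool.Agent.H49.FD
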