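import Mathlib
import Pool.Agent.H49.FD4

/-! Probability weights on polynomial values with small Fourier transform off the rationals. -/

set_option autoImplicit false

namespace Pool.Agent.H49.FD

open Finset Filter Topology Complex Pool.Agent.H49.MD ArithmeticFunction

/-- Weights on elements of `X` in a residue class, with Fourier transform small away from the
multiples of `1 / m'`. -/
def Wt (X : Set ℤ) (m m' : ℕ) (η κ : ℝ) (x0 : ℤ) : Prop := ∃ (s : Finset ℕ) (w : ℕ → ℝ) (x : ℕ → ℤ),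
  (∀ i, 0 ≤ w i) ∧ ∑ i ∈ s, w i = 1 ∧ (∀ i ∈ s, x i ∈ X ∧ x i ≠ 0 ∧ (m : ℤ) ∣ x i - x0) ∧
    ∀ θ : ℝ, ‖∑ i ∈ s, w i * e (x i * θ)‖ ≤ η ∨ ‖e (m' * θ) - 1‖ ≤ κ

/-- The equidistribution property of a set of differences. -/
def Key (X : Set ℤ) : Prop := ∀ m : ℕ, 0 < m → ∃ Ex : Finset ℤ, ∀ η : ℝ, 0 < η → ∃ m' : ℕ,
  0 < m' ∧ m ∣ m' ∧ ∀ κ : ℝ, 0 < κ → ∀ x0 ∈ X, x0 ∉ Ex → Wt X m m' η κ x0

lemma mkw {X : Set ℤ} {m m' : ℕ} {η κ A : ℝ} {x0 : ℤ} (s : Finset ℕ) (v : ℕ → ℝ) (x : ℕ → ℤ)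
    (v0 : ∀ i, 0 ≤ v i) (A0 : 0 < A) (η0 : 0 < η) (hA : A ≤ ∑ i ∈ s, v i)
    (h : ∀ i ∈ s, x i ∈ X ∧ x i ≠ 0 ∧ (m : ℤ) ∣ x i - x0)
    (H : ∀ θ : ℝ, ‖∑ i ∈ s, v i * e (x i * θ)‖ ≤ η * A ∨ ‖e (m' * θ) - 1‖ ≤ κ) :
    Wt X m m' η κ x0 := by
  have T0 := A0.trans_le hA
  refine ⟨s, fun i => (∑ i ∈ s, v i)⁻¹ * v i, x, fun i => mul_nonneg (by positivity) (v0 i),
    by rw [← mul_sum, inv_mul_cancel₀ T0.ne'], h, fun θ => (H θ).imp_left fun a => ?_⟩
  simp only [ofReal_mul, mul_assoc, ← mul_sum]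
  rw [norm_mul, Complex.norm_of_nonneg (by positivity), inv_mul_le_iff₀' T0]
  exact a.trans (by gcongr)

lemma e_nr (x : ℝ) : ‖e x - 1‖ ≤ 7 * nr x := by
  rw [← sub_add_cancel x (round x), e_add, e_int, mul_one, sub_add_cancel]; exact e_up _

lemma ind_e {m : ℕ} (m0 : 0 < m) (n r : ℕ) : (if n ≡ r [MOD m] then (m : ℂ) else 0) =
    ∑ t ∈ range m, e (-(t / m * r)) * e (t / m * n) := by
  refine (orth (Nat.mod_lt n m0) (Nat.mod_lt r m0)).symm.trans ?_
  refine sum_congr rfl fun t _ => ?_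
  have a : ∀ n : ℕ, (n : ℝ) = (n % m : ℕ) + m * (n / m : ℕ) := fun n => by
    exact_mod_cast (Nat.mod_add_div n m).symm
  have m1 : (m : ℝ) ≠ 0 := by positivity
  rw [← e_add, ← mul_one (e _), ← e_int (t * ((n / m : ℕ) - (r / m : ℕ))), ← e_add]
  congr 1
  rw [Int.cast_mul, Int.cast_sub, Int.cast_natCast, Int.cast_natCast, Int.cast_natCast]
  field_simp
  linear_combination (-t) * a n + t * a r

lemma sm (c a : ℝ) (a0 : 0 < a) (n : ℕ) : ∀ᶠ N : ℕ in atTop,
    c * (Real.log N ^ n * √N) ≤ a * N ∧ c * (N / Real.log N) ≤ a * N := by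
  filter_upwards [tl.eventually (evp (c / a) (1 / 2) n (by norm_num)),
    tl.eventually_ge_atTop (c / a), tl.eventually_gt_atTop 0, eventually_gt_atTop 0] with N h1 h2 h3 h4
  have N0 : (0 : ℝ) < N := by exact_mod_cast h4
  rw [mul_comm (1 / 2), ← Real.rpow_def_of_pos N0, ← Real.sqrt_eq_rpow, div_mul_eq_mul_div,
    div_le_iff₀' a0] at h1
  rw [div_le_iff₀' a0] at h2
  constructor
  · nlinarith [mul_le_mul_of_nonneg_right h1 (Real.sqrt_nonneg N), Real.mul_self_sqrt N0.le]
  · rw [← mul_div_assoc, div_le_iff₀ h3]; nlinarith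

variable {d : ℕ} {c δ : ℤ} {H : ℕ → ℤ} (P : Pl d c δ H) (Zr : Finset ℕ)
  (hZ : ∀ n, H n = 0 → n ∈ Zr) {X : Set ℤ} {m : ℕ} (m0 : 0 < m) {η : ℝ} (η0 : 0 < η)
include P hZ m0 η0

theorem keyZ (hX : ∀ n, H n ∈ X) : ∃ m' : ℕ, 0 < m' ∧ m ∣ m' ∧ ∀ κ : ℝ, 0 < κ → ∀ (r : ℕ) (x0 : ℤ),
    (m : ℤ) ∣ H r - x0 → Wt X m m' η κ x0 := by
  classical
  obtain ⟨C, hC⟩ := weyl d
  set D := 2 + 4 / η with hD
  have D2 : 2 ≤ D := le_add_of_nonneg_right (by positivity)
  set m' := ⌊D ^ C⌋₊.factorial * (m ^ (d + 1) * c.natAbs) with hm'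
  have c0 := Int.natAbs_pos.2 P.c0
  refine ⟨m', by positivity, Dvd.dvd.mul_left (Dvd.dvd.mul_right (dvd_pow_self m (by omega)) _) _,
    fun κ k0 r x0 hr => ?_⟩
  obtain ⟨M, hM⟩ := exists_nat_ge (D ^ C + (2 * Zr.card + 4 * Zr.card / η) + 7 * m' * D ^ C / κ)
  have p1 : 0 < D ^ C := by positivity
  have p2 : 0 ≤ 7 * m' * D ^ C / κ := by positivity
  have p3 : 0 ≤ 4 * Zr.card / η := by positivity
  have p4 : (0 : ℝ) ≤ Zr.card := by positivity
  have p5 : 1 ≤ D ^ C := one_le_pow₀ (by linarith)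
  have z : (((range M).filter fun n => ¬ H (m * n + r) ≠ 0).card : ℝ) ≤ Zr.card :=
    Nat.cast_le.2 (card_le_card_of_injOn (fun n => m * n + r)
      (fun n hn => hZ _ (not_not.1 (mem_filter.1 hn).2)) fun a _ b _ h =>
        Nat.eq_of_mul_eq_mul_left m0 (Nat.add_right_cancel h))
  refine mkw ((range M).filter fun n => H (m * n + r) ≠ 0) (fun _ => 1) (fun n => H (m * n + r))
    (fun _ => zero_le_one) (A := M / 2) (by linarith) η0 ?_ (fun n hn => ⟨hX _, (mem_filter.1 hn).2,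
      ?_⟩) fun θ => ?_
  · have := congrArg (Nat.cast : ℕ → ℝ) (card_filter_add_card_filter_not (s := range M)
      fun n => H (m * n + r) ≠ 0)
    rw [card_range, Nat.cast_add] at this
    rw [sum_const, nsmul_one]; linarith
  · rw [← sub_add_sub_cancel _ (H r)]
    exact dvd_add (dvd_trans ⟨n, by push_cast; ring⟩ (P.per _ r)) hr
  refine or_iff_not_imp_left.2 fun a => ?_
  simp only [ofReal_one, one_mul] at a
  obtain ⟨q, q0, q1, q2⟩ := hC D D2 M M (by linarith) le_rfl _ _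
    ((P.dg.comp m r).lin (P.dg.comp m r) θ 0) (by
      by_contra b
      simp only [zero_mul, add_zero, mul_comm θ] at b
      refine a ?_
      rw [eq_sub_of_add_eq (sum_filter_add_sum_filter_not (range M) (fun n => H (m * n + r) ≠ 0)
        fun n => e (H (m * n + r) * θ))]
      refine (norm_sub_le _ _).trans ((add_le_add (not_le.1 b).le ((norm_sum_le_of_le _
        (n := fun _ => 1) fun _ _ => (e_norm _).le).trans 
          (show _ ≤ (Zr.card : ℝ) by rwa [sum_const, nsmul_one]))).trans ?_)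
      have u : M / D ≤ η * M / 4 := by
        rw [div_le_iff₀ (by linarith), hD, show η * M / 4 * (2 + 4 / η) = η * M / 2 + M by
          field_simp; ring]
        nlinarith
      have v : 4 * Zr.card / η ≤ M := by linarith
      rw [div_le_iff₀ η0] at v
      linarith)
  obtain ⟨j, hj⟩ : (q * (m ^ (d + 1) * c) : ℤ) ∣ m' := by
    rw [hm']; push_cast
    exact mul_dvd_mul (by exact_mod_cast Nat.dvd_factorial q0 (Nat.le_floor q1))
      (mul_dvd_mul_left _ (self_dvd_abs c))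
  have j1 : |(j : ℝ)| ≤ m' := by
    exact_mod_cast Int.le_of_dvd (by positivity) ((abs_dvd _ _).2 (Dvd.intro_left _ hj.symm))
  have := nr_mul j (q * (θ * (m ^ (d + 1) * c) + 0 * (m ^ (d + 1) * c)))
  rw [show j * (q * (θ * ((m : ℝ) ^ (d + 1) * c) + 0 * (m ^ (d + 1) * c))) = m' * θ by
    rw [← Int.cast_natCast m', hj]; push_cast; ring] at this
  refine (e_nr _).trans ((mul_le_mul_of_nonneg_left (this.trans (mul_le_mul j1 (q2.trans
    (div_le_div_of_nonneg_left p1.le (by linarith) (le_self_pow₀ (by linarith) (by omega))))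
    (abs_nonneg _) (by positivity))) (by norm_num)).trans ?_)
  have v : 7 * m' * D ^ C / κ ≤ M := by linarith
  rw [div_le_iff₀ k0] at v
  rw [← mul_div_assoc, ← mul_div_assoc, div_le_iff₀ (by linarith)]; linarith

theorem keyP (hX : ∀ p, p.Prime → H p ∈ X) : ∃ m' : ℕ, 0 < m' ∧ m ∣ m' ∧ ∀ κ : ℝ, 0 < κ →
    ∀ r : ℕ, r.Coprime m → Wt X m m' η κ (H r) := by
  classical
  have m1 : (1 : ℝ) ≤ m := by exact_mod_cast m0
  set ε := η / (8 * m) with hε
  have e0 : 0 < ε := by positivity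
  obtain ⟨Q, hQ⟩ := cs P m0 (ε / 12) (by positivity)
  obtain ⟨E, hE⟩ := vin d
  obtain ⟨C0, C1, hC⟩ := (P.dg 1).bd
  refine ⟨Q.factorial * m, by positivity, Dvd.intro_left _ rfl, fun κ k0 r hr => ?_⟩
  set B := 1 + (8 * E + 1 + (16 * E + 3) * (d + 1)) with hB
  obtain ⟨N, sw, ⟨s1, s2⟩, ⟨s3, -⟩, ⟨s4, s5⟩, l1, N0⟩ := ((SWL (B + 1) (by omega)).and
    ((sm (100 * (Zr.card + 1)) ε e0 (3 * B + 3)).and ((sm (7 * (Q.factorial * m) * m) κ k0 (3 * B + 3)).and
    ((sm (100 * (Zr.card + 1) * m * m) 1 one_pos (3 * B + 3)).and ((tl.eventually_ge_atTop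
      (2 + (d + 1).factorial + m * m * |c| + 7 * m * C0)).and (eventually_gt_atTop 0)))))).exists
  set l := Real.log N with hl
  have N1 : (1 : ℝ) ≤ N := by exact_mod_cast N0
  have K0 : (0 : ℝ) ≤ Zr.card := by positivity
  have a1 : (0 : ℝ) ≤ (d + 1).factorial := by positivity
  have a2 : (m : ℝ) ≤ m * m * |c| := by
    have : (1 : ℝ) ≤ (|c| : ℤ) := by exact_mod_cast Int.one_le_abs P.c0
    nlinarith [mul_le_mul m1 this zero_le_one (by linarith)]
  have a3 : 0 ≤ 7 * m * C0 := by positivity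
  have l2 : 2 ≤ l := by linarith
  have p : ∀ a b, a ≤ b → l ^ a ≤ l ^ b := fun a b h => pow_le_pow_right₀ (by linarith) h
  have r1 : 1 ≤ √(N : ℝ) := Real.one_le_sqrt.2 N1
  set u := l ^ (3 * B + 3) * √N with hu
  set v := N / l with hv
  have v0 : 0 ≤ v := by positivity
  have u1 : ∀ a, a ≤ 3 * B + 3 → l ^ a ≤ u := fun a h =>
    (p _ _ h).trans (le_mul_of_one_le_right (by positivity) r1)
  have u2 : √N * l ≤ u := by
    rw [mul_comm]; exact mul_le_mul_of_nonneg_right (by simpa using p 1 _ (by omega)) (by positivity)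
  have u3 : l ≤ u := by simpa using u1 1 (by omega)
  have u4 : (Zr.card + 1) * u ≤ (Zr.card + 1) * m * m * u := by
    rw [mul_assoc, mul_assoc]; gcongr; nlinarith [mul_le_mul m1 m1 zero_le_one (by linarith)]
  have vv : ∀ a b, a + b + 1 ≤ 4 * (B + 1) → l ^ a * (N / l ^ (4 * (B + 1)) * l ^ b) ≤ v :=
    fun a b h => by
      rw [div_mul_eq_mul_div, mul_div_assoc', div_le_div_iff₀ (by positivity) (by positivity),
        show l ^ a * (N * l ^ b) * l = N * l ^ (a + b + 1) by ring]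
      exact mul_le_mul_of_nonneg_left (p _ _ h) (by positivity)
  set s := (Ioc 0 N).filter fun n => n.Prime ∧ n ≡ r [MOD m] ∧ H n ≠ 0 with hs
  have df : ∀ g : ℕ → ℂ, (∀ n, ‖g n‖ ≤ 1) → ‖∑ n ∈ Ioc 0 N, (vonMangoldt n : ℂ) *
      ((if n ≡ r [MOD m] then 1 else 0) * g n) - ∑ n ∈ s, (vonMangoldt n : ℂ) * g n‖ ≤
      2 * u + Zr.card * u := fun g hg => by
    refine le_trans ?_ ((npr N0 Zr).trans (show _ ≤ _ by nlinarith))
    rw [hs, sum_filter, sum_filter, ← sum_sub_distrib]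
    refine norm_sum_le_of_le _ fun n _ => ?_
    have l0 : 0 ≤ vonMangoldt n := vonMangoldt_nonneg
    have := mul_le_of_le_one_right l0 (hg n)
    by_cases x : n.Prime <;> by_cases y : n ≡ r [MOD m] <;> by_cases z : H n = 0 <;>
      simp [x, y, z, hZ n, abs_of_nonneg l0, l0, this]
    all_goals split_ifs <;> simp [l0]
  have ps : ‖∑ n ∈ Ioc 0 N, (vonMangoldt n : ℂ)‖ = Chebyshev.psi N := by
    rw [Chebyshev.psi, Nat.floor_natCast, ← ofReal_sum,
      Complex.norm_of_nonneg (sum_nonneg fun _ _ => vonMangoldt_nonneg)]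
  refine mkw s (fun n => vonMangoldt n) H (fun _ => vonMangoldt_nonneg) (A := N / (4 * m))
    (by positivity) η0 ?_ (fun n hn => ?_) fun θ => ?_
  · have : NeZero m := ⟨m0.ne'⟩
    have a := majL (fun z : ZMod m => if z = r then 1 else 0) (fun z => by split_ifs <;> simp)
      (fun _ => 1) (by simp) N0 (V := 0) (by positivity)
      (sw m (le_trans (by linarith) (le_self_pow₀ (by linarith) (by omega)))) (by simp)
    rw [show (∑ u : (ZMod m)ˣ, if (u : ZMod m) = r then (1 : ℂ) else 0) = 1 from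
      (sum_eq_single (ZMod.unitOfCoprime r hr) (fun z _ hz => if_neg fun e => hz (Units.ext e))
        (by simp)).trans (if_pos rfl)] at a
    simp only [ZMod.natCast_eq_natCast_iff] at a
    have b := df (fun _ => 1) (by simp)
    have t0 : (0 : ℝ) < m.totient := by exact_mod_cast Nat.totient_pos.2 m0
    have k := (norm_le_norm_add_norm_sub _ _).trans (add_le_add ((norm_le_norm_add_norm_sub' _ _).trans
      (add_le_add_right b _)) a)
    simp only [mul_one, add_zero] at k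
    rw [norm_mul, ps, norm_inv, Complex.norm_natCast, ← ofReal_sum,
      Complex.norm_of_nonneg (sum_nonneg fun _ _ => vonMangoldt_nonneg), ← hl] at k
    have g := Chebyshev.psi_ge N
    have g1 : Real.log (N + 1) ≤ 2 * l := (Real.log_le_log (by linarith)
      (show _ ≤ 2 * (N : ℝ) by linarith)).trans (by
        rw [Real.log_mul two_ne_zero (by linarith)]; linarith [Real.log_two_lt_d9])
    have g2 : (m : ℝ)⁻¹ * (N / 2) ≤ (m.totient : ℝ)⁻¹ * Chebyshev.psi N :=
      mul_le_mul (inv_anti₀ t0 (by exact_mod_cast Nat.totient_le m)) (by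
        nlinarith [mul_le_mul_of_nonneg_left Real.log_two_gt_d9.le (show (0 : ℝ) ≤ N by linarith)])
        (by positivity) (by positivity)
    have g3 := vv 0 0 (by omega)
    simp only [pow_zero, one_mul, mul_one] at g3
    rw [div_le_iff₀ (by positivity)]
    rw [inv_mul_le_iff₀ (by linarith)] at g2
    have g4 := mul_le_mul_of_nonneg_left k (show (0 : ℝ) ≤ m by linarith)
    have u0 : 0 ≤ u := by linarith
    nlinarith [mul_le_mul_of_nonneg_left g3 (show (0 : ℝ) ≤ m * m by positivity),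
      mul_le_mul_of_nonneg_left u2 (show (0 : ℝ) ≤ m by positivity),
      mul_le_mul_of_nonneg_left u3 (show (0 : ℝ) ≤ m * m by positivity),
      mul_le_mul_of_nonneg_right m1 (show (0 : ℝ) ≤ m * u by positivity),
      mul_le_mul_of_nonneg_right m1 (show (0 : ℝ) ≤ Zr.card * m * u by positivity),
      show (0 : ℝ) ≤ Zr.card * m * m * v by positivity, show (0 : ℝ) ≤ m * m * u by positivity,
      show (0 : ℝ) ≤ Zr.card * m * m * u by positivity]
  · obtain ⟨a, b, c⟩ := (mem_filter.1 hn).2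
    exact ⟨hX n a, c, dvd_trans (Nat.modEq_iff_dvd.1 b.symm) (P.per n r)⟩
  refine or_iff_not_imp_right.2 fun nk => ?_
  have St : ∀ t : ℕ, ‖∑ n ∈ Ioc 0 N, (vonMangoldt n : ℂ) * e (θ * H n + t / m * n)‖ ≤ ε * N := by
    intro t
    have u0 : 0 ≤ (Zr.card : ℝ) * u := by positivity
    have u00 : 0 ≤ (Zr.card : ℝ) * v := by positivity
    by_cases mj : ∀ q : ℕ, 0 < q → (q : ℝ) ≤ l ^ B → l ^ B / N ^ (d + 1) < nr (q * (θ * c + t / m * δ))
    · have R1 : (⌈(l ^ 8) ^ E⌉₊ : ℝ) ≤ l ^ (8 * E + 1) := by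
        have := one_le_pow₀ (n := E) (one_le_pow₀ (n := 8) (show 1 ≤ l by linarith))
        rw [pow_succ l (8 * E), pow_mul]; nlinarith [Nat.ceil_lt_add_one (show 0 ≤ (l ^ 8) ^ E by positivity)]
      refine (hE (l ^ 8) (l2.trans (le_self_pow₀ (by linarith) (by norm_num))) _ N (Nat.le_ceil _)
        (by exact_mod_cast (pow_le_pow_left₀ (by positivity) R1 3).trans (show _ ≤ (N : ℝ) by
          rw [← pow_mul]; linarith [u1 ((8 * E + 1) * 3) (by omega)]))
        (by linarith) _ _ (l ^ B) (P.dg.lin P.di θ (t / m)) (by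
          rw [hB, pow_add l, pow_add l (8 * E + 1), pow_one, pow_mul l (16 * E + 3)]
          gcongr
          · linarith
          · rw [show l ^ (16 * E + 3) = l * (l ^ (8 * E + 1)) ^ 2 by ring]; gcongr) mj).trans ?_
      rw [← hl]
      have x : l ^ 2 * (N / l ^ 8) ≤ v := by
        rw [mul_div_assoc', div_le_div_iff₀ (by positivity) (by positivity),
          show l ^ 2 * N * l = N * l ^ 3 by ring]
        exact mul_le_mul_of_nonneg_left (p _ _ (by norm_num)) (by positivity)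
      have y : √(40 * l ^ 4 * (N ^ 2 / l ^ 8)) ≤ 7 * v := Real.sqrt_le_iff.2 ⟨by positivity, by
        rw [show 40 * l ^ 4 * (N ^ 2 / l ^ 8) = 40 / l ^ 2 * v ^ 2 by rw [hv]; field_simp, mul_pow]
        exact mul_le_mul_of_nonneg_right (by rw [div_le_iff₀ (by positivity)]; nlinarith)
          (by positivity)⟩
      linarith [u1 (8 * E + 1) (by omega)]
    push Not at mj
    obtain ⟨q, q0, q1, q2⟩ := mj
    set k : ℤ := m * q * c with hk
    have k0' : k ≠ 0 := mul_ne_zero (by positivity) P.c0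
    have k1 : (1 : ℝ) ≤ |(k : ℝ)| := by exact_mod_cast Int.one_le_abs k0'
    set ρ := Rat.divInt (round (k * θ)) k with hρ
    have b : |θ - ρ| ≤ m * (l ^ B / N ^ (d + 1)) := by
      have x := (nr_nat m _).trans (mul_le_mul_of_nonneg_left q2 (by positivity))
      rw [show m * (q * (θ * c + t / m * δ)) = k * θ + (q * t * δ : ℤ) by
        rw [hk]; push_cast; field_simp, nr_add_int, nr, show k * θ - round (k * θ) = k * (θ - ρ) by
          rw [hρ, Rat.cast_divInt, mul_sub, mul_div_cancel₀ _ (by exact_mod_cast k0')], abs_mul] at x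
      exact (le_mul_of_one_le_left (abs_nonneg _) k1).trans x
    have dn : (ρ.den : ℝ) ≤ m * q * |c| := by
      have := Int.le_of_dvd (abs_pos.2 k0') ((dvd_abs _ _).2 (Rat.den_dvd (round (k * θ)) k))
      rw [hk, abs_mul, abs_mul, Nat.abs_cast, Nat.abs_cast] at this
      exact_mod_cast this
    rcases le_or_gt ρ.den Q with h | h
    · refine absurd ((e_nr _).trans ?_) nk
      obtain ⟨j, hj⟩ := Nat.dvd_factorial ρ.den_pos h
      have r1 : (ρ : ℝ) * ρ.den = ρ.num := by exact_mod_cast ρ.mul_den_eq_num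
      have x := nr_le ((Q.factorial * m : ℕ) * θ) (ρ.num * j * m)
      rw [show (Q.factorial * m : ℕ) * θ - (ρ.num * j * m : ℤ) = (Q.factorial * m) * (θ - ρ) by
        rw [hj]; push_cast; rw [← r1]; ring, abs_mul, abs_of_pos (by positivity)] at x
      have y : l ^ B / N ^ (d + 1) ≤ u / N := div_le_div₀ (by linarith) (u1 _ (by omega))
        (by linarith) (le_self_pow₀ N1 (by omega))
      refine (mul_le_mul_of_nonneg_left (x.trans (mul_le_mul_of_nonneg_left (b.trans
        (mul_le_mul_of_nonneg_left y (by positivity))) (by positivity))) (by norm_num)).trans ?_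
      rw [← mul_div_assoc, ← mul_div_assoc, ← mul_div_assoc, div_le_iff₀ (by linarith)]
      linarith
    have : NeZero (ρ.den * m) := ⟨by positivity⟩
    have qq : ((ρ.den * m : ℕ) : ℝ) ≤ l ^ (B + 1) := by
      rw [Nat.cast_mul, pow_succ]
      refine (mul_le_mul_of_nonneg_right dn (by positivity)).trans ?_
      rw [show (m : ℝ) * q * (|c| : ℤ) * m = q * (m * m * (|c| : ℤ)) by ring]
      gcongr; linarith
    have a := majL (fun z : ZMod (ρ.den * m) => e (ρ * H z.val + t / m * z.val))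
      (fun _ => (e_norm _).le) (fun n => e ((θ - ρ) * H n)) (fun _ => (e_norm _).le) N0
      (V := l ^ (B + 1)) (by positivity) (sw _ qq) (by
        refine (sum_le_card_nsmul _ _ (7 * (m * (l ^ B / N ^ (d + 1)) * (C0 * (N : ℝ) ^ d)))
          fun n hn => ?_).trans ?_
        · rw [show (θ - ρ) * H (n + 1) = (θ - ρ) * H n + (θ - ρ) * (H (n + 1) - H n) by ring, e_add,
            ← mul_sub_one, norm_mul, e_norm, one_mul]
          refine (e_up _).trans ?_
          rw [abs_mul]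
          gcongr
          refine (hC n).trans ?_
          gcongr; exact_mod_cast mem_range.1 hn
        · rw [card_range, nsmul_eq_mul, show N * (7 * (m * (l ^ B / N ^ (d + 1)) *
            (C0 * (N : ℝ) ^ d))) = l ^ B * (7 * m * C0) by field_simp; ring, pow_succ]
          gcongr; linarith)
    simp only [fper P m0, ← e_add] at a
    rw [sum_congr rfl fun n _ => by
      rw [show θ * H n + t / m * n = ρ * H n + t / m * n + (θ - ρ) * H n by ring]]
    refine (norm_le_norm_add_norm_sub' _ _).trans ((add_le_add ?_ a).trans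
      (show ε / 12 * (6 * N) + _ ≤ _ from ?_))
    · rw [norm_mul]
      refine mul_le_mul (hQ ρ h t) ((norm_sum_le _ _).trans ?_) (norm_nonneg _) (by positivity)
      have := Chebyshev.psi_le_const_mul_self (x := N) (by positivity)
      rw [Chebyshev.psi, Nat.floor_natCast, show (4 : ℝ) = 2 ^ 2 by norm_num, Real.log_pow] at this
      simp only [norm_mul, e_norm, mul_one, Complex.norm_of_nonneg vonMangoldt_nonneg]
      push_cast at this; nlinarith [Real.log_two_lt_d9]
    · have x : (ρ.den * m : ℕ) * (N / l ^ (4 * (B + 1)) * (1 + l ^ (B + 1))) ≤ 2 * v := by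
        refine (mul_le_mul_of_nonneg_right qq (by positivity)).trans ?_
        have := vv (B + 1) 0 (by omega)
        rw [pow_zero] at this
        linarith [vv (B + 1) (B + 1) (by omega)]
      have y := (mul_le_mul_of_nonneg_right qq (show 0 ≤ l by linarith)).trans
        ((pow_succ l _).ge.trans (u1 _ (by omega)))
      rw [← hl]; linarith
  have T : ‖∑ n ∈ Ioc 0 N, (vonMangoldt n : ℂ) * ((if n ≡ r [MOD m] then 1 else 0) *
      e (H n * θ))‖ ≤ ε * N := by
    refine le_of_mul_le_mul_left ?_ (show (0 : ℝ) < m by linarith)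
    nth_rw 1 [← Complex.norm_natCast m]
    rw [← norm_mul, mul_sum, sum_congr rfl (g := fun n : ℕ => ∑ t ∈ range m, e (-(t / m * r)) *
      ((vonMangoldt n : ℂ) * e (θ * H n + t / m * n))) fun n _ => by
        rw [mul_left_comm, ← mul_assoc (m : ℂ), mul_ite, mul_one, mul_zero, ind_e m0, sum_mul, mul_sum]
        exact sum_congr rfl fun t _ => by rw [e_add, mul_comm θ]; ring, sum_comm]
    refine (norm_sum_le_of_le _ (n := fun _ => ε * N) fun t _ => ?_).trans (by simp)
    rw [← mul_sum, norm_mul, e_norm, one_mul]; exact St t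
  refine (norm_le_norm_add_norm_sub _ _).trans ((add_le_add T (df _ fun _ => (e_norm _).le)).trans ?_)
  rw [show η * (N / (4 * m)) = 2 * (ε * N) by rw [hε]; field_simp; ring]
  nlinarith [show 0 ≤ (Zr.card : ℝ) * u by positivity]

end Pool.Agent.H49.FD
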