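import Mathlib
import Pool.Agent.H49.MD9

/-! Averages over cells and a Fourier estimate. -/

set_option autoImplicit false

namespace Pool.Agent.H49.FD

open Finset Filter Topology Complex Pool.Agent.H49.MD

lemma l3 (s : Finset ℕ) (w : ℕ → ℝ) (w0 : ∀ i, 0 ≤ w i) (w1 : ∑ i ∈ s, w i ≤ 1) (y : ℕ → ℕ) (K : ℕ)
    (hy : ∀ i ∈ s, y i ≤ K) (F G : ℕ → ℂ) (L m : ℕ) (hF : ∀ t, L ≤ t → F t = 0)
    (hG : ∀ t, L ≤ t → G t = 0) (h : ∀ t, F t = G t - if m ≤ t then G (t - m) else 0) (η κ : ℝ)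
    (H : ∀ θ : ℝ, ‖∑ i ∈ s, w i * e (y i * θ)‖ ≤ η ∨ ‖e (m * θ) - 1‖ ≤ κ) :
    ∑ n ∈ range L, ‖∑ i ∈ s, w i * F (n + y i)‖ ^ 2 ≤
      η ^ 2 * ∑ t ∈ range L, ‖F t‖ ^ 2 + κ ^ 2 * ∑ t ∈ range L, ‖G t‖ ^ 2 := by
  set P := m + (L + K + 1) with hP
  have P0 : (0 : ℝ) < P := by positivity
  set T : (ℕ → ℂ) → ℕ → ℂ := fun F j => ∑ s ∈ range P, (starRingEnd ℂ) (F s) * e (j * (s / P))
    with hT
  have inv : ∀ t, t < P → (P : ℂ) * F t = ∑ j ∈ range P, (starRingEnd ℂ) (T F j) * e (j * (t / P)) :=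
    fun t ht => by
      simp only [hT, map_sum, map_mul, conj_conj, e_conj, sum_mul, mul_assoc, ← e_add]
      rw [sum_comm, sum_eq_single t (fun s hs h => ?_) (fun h => absurd (mem_range.2 ht) h)]
      · simp [e_zero]
      · rw [← mul_sum, sum_congr rfl fun (j : ℕ) _ => congrArg e (show -(j * (s / P)) + j * (t / P) =
          j * ((t - s) / (P : ℝ)) by ring), orth ht (mem_range.1 hs), if_neg h.symm, mul_zero]
  have k : ∀ n ∈ range L, (P : ℝ) ^ 2 * ‖∑ i ∈ s, w i * F (n + y i)‖ ^ 2 = ‖∑ j ∈ range P,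
      ((starRingEnd ℂ) (T F j) * ∑ i ∈ s, w i * e (y i * (j / P))) * e (n * (j / P))‖ ^ 2 :=
    fun n hn => by
      nth_rw 1 [← Complex.norm_natCast P]
      rw [← mul_pow, ← norm_mul, mul_sum, sum_congr rfl fun i hi => by
        rw [mul_left_comm, inv _ (by have := mem_range.1 hn; have := hy i hi; omega),
          mul_sum], sum_comm]
      simp only [mul_sum, sum_mul]
      refine congrArg (‖·‖ ^ 2) (sum_congr rfl fun j _ => sum_congr rfl fun i _ => ?_)
      rw [show (j : ℝ) * ((n + y i : ℕ) / P) = y i * (j / P) + n * (j / P) by push_cast; ring, e_add]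
      ring
  have r : ∀ j, T F j = T G j * (1 - e (m * (j / P))) := fun j => by
    have a : ∑ s ∈ range P, (starRingEnd ℂ) (if m ≤ s then G (s - m) else 0) * e (j * (s / P)) =
        T G j * e (m * (j / P)) := by
      rw [hP, sum_range_add, sum_eq_zero fun t ht => by simp [not_le.2 (mem_range.1 ht)], zero_add,
        ← hP]
      simp only [hT]
      rw [show range P = range (L + K + 1 + m) by rw [hP, add_comm], sum_range_add _ (L + K + 1),
        sum_eq_zero (s := range m) fun t _ => by rw [hG _ (by omega)]; simp, add_zero, sum_mul]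
      refine sum_congr rfl fun t _ => ?_
      rw [if_pos (Nat.le_add_right _ _), Nat.add_sub_cancel_left, mul_assoc, ← e_add]
      congr 2; push_cast; ring
    rw [mul_sub, mul_one, ← a]
    simp only [hT, ← sum_sub_distrib, ← sub_mul, ← map_sub, ← h]
  have pp : ∀ F : ℕ → ℂ, (∀ t, L ≤ t → F t = 0) →
      ∑ j ∈ range P, ‖T F j‖ ^ 2 = P * ∑ t ∈ range L, ‖F t‖ ^ 2 := fun F hF => by
    simp only [hT]
    rw [pars, ← sum_range_add_sum_Ico _ (show L ≤ P by omega), sum_eq_zero (s := Ico L P)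
      fun t ht => by simp [hF t (mem_Ico.1 ht).1], add_zero]
    simp only [norm_conj]
  refine le_of_mul_le_mul_left ?_ (show (0 : ℝ) < P ^ 2 by positivity)
  rw [mul_sum, sum_congr rfl k]
  refine (sum_le_sum_of_subset_of_nonneg (range_subset_range.2 (show L ≤ P by omega))
    fun _ _ _ => by positivity).trans ?_
  rw [pars, sq (P : ℝ), mul_assoc]
  refine mul_le_mul_of_nonneg_left ((sum_le_sum (g := fun j => η ^ 2 * ‖T F j‖ ^ 2 +
    κ ^ 2 * ‖T G j‖ ^ 2) fun j _ => ?_).trans_eq ?_) P0.le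
  · rw [norm_mul, norm_conj, mul_pow, mul_comm]
    rcases H (j / P) with a | a
    · exact le_add_of_le_of_nonneg (mul_le_mul_of_nonneg_right
        (pow_le_pow_left₀ (norm_nonneg _) a 2) (by positivity)) (by positivity)
    · refine le_add_of_nonneg_of_le (by positivity) ((mul_le_of_le_one_left (by positivity)
        (pow_le_one₀ (norm_nonneg _) ((norm_sum_le_of_le _ fun i _ => ?_).trans w1))).trans ?_)
      · rw [norm_mul, e_norm, mul_one, Complex.norm_of_nonneg (w0 i)]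
      · rw [r, norm_mul, mul_pow, mul_comm, norm_sub_rev]
        exact mul_le_mul_of_nonneg_right (pow_le_pow_left₀ (norm_nonneg _) a 2) (by positivity)
  · rw [sum_add_distrib, ← mul_sum, ← mul_sum, pp F hF, pp G hG]; ring

/-- The points below `N` in the same block of length `L` and the same class modulo `m` as `n`. -/
def cell (m L N n : ℕ) : Finset ℕ := (range N).filter fun j => j / L = n / L ∧ j % m = n % m

/-- The average over a cell. -/
noncomputable def av (m L N : ℕ) (F : ℕ → ℝ) (n : ℕ) : ℝ :=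
  (∑ j ∈ cell m L N n, F j) / (cell m L N n).card

lemma cell_eq {m L j n : ℕ} (N : ℕ) (h : j / L = n / L ∧ j % m = n % m) :
    cell m L N j = cell m L N n := by simp only [cell, h.1, h.2]

lemma av_eq {m L j n : ℕ} (N : ℕ) (F : ℕ → ℝ) (h : j / L = n / L ∧ j % m = n % m) :
    av m L N F j = av m L N F n := by simp only [av, cell_eq N h]

lemma av_sum (m L N : ℕ) (F G : ℕ → ℝ) (h : ∀ j n, j / L = n / L ∧ j % m = n % m → G j = G n) :
    ∑ n ∈ range N, av m L N F n * G n = ∑ n ∈ range N, F n * G n := by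
  simp only [av, div_mul_eq_mul_div, sum_mul, sum_div]
  rw [sum_comm' (t' := range N) (s' := cell m L N) fun x y => by
    simp only [cell, mem_filter]; constructor <;> rintro ⟨a, b⟩ <;> simp_all]
  refine sum_congr rfl fun n hn => ?_
  rw [sum_congr rfl (g := fun _ => F n * G n / (cell m L N n).card) fun j hj => by
    rw [h _ _ (mem_filter.1 hj).2, cell_eq N (mem_filter.1 hj).2], sum_const, nsmul_eq_mul,
    mul_div_cancel₀ _ (by exact_mod_cast (card_pos.2
      (⟨n, mem_filter.2 ⟨hn, rfl, rfl⟩⟩ : (cell m L N n).Nonempty)).ne')]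

lemma av_01 (m L N : ℕ) {F : ℕ → ℝ} (h : ∀ n, 0 ≤ F n ∧ F n ≤ 1) (n : ℕ) :
    0 ≤ av m L N F n ∧ av m L N F n ≤ 1 :=
  ⟨div_nonneg (sum_nonneg fun j _ => (h j).1) (by positivity), div_le_one_of_le₀
    ((sum_le_card_nsmul _ _ 1 fun j _ => (h j).2).trans (by simp)) (by positivity)⟩

lemma cell_card {m J N n : ℕ} (m0 : 0 < m) (h : m * J ∣ N) (hn : n < N) :
    (cell m (m * J) N n).card = J := by
  obtain ⟨c, rfl⟩ := h
  have L0 : 0 < m * J := Nat.pos_of_mul_pos_right (lt_of_le_of_lt (Nat.zero_le _) hn)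
  have a := Nat.mod_lt n m0
  have b : n / (m * J) < c := (Nat.div_lt_iff_lt_mul L0).2 (by rwa [mul_comm c])
  conv_rhs => rw [← card_range J]
  symm
  refine card_bij (fun k _ => m * J * (n / (m * J)) + (n % m + m * k)) (fun k hk => ?_)
    (fun k _ l _ h => Nat.eq_of_mul_eq_mul_left m0 (by omega)) fun j hj => ?_
  · have : n % m + m * k < m * J := by nlinarith [mem_range.1 hk]
    refine mem_filter.2 ⟨mem_range.2 (by nlinarith), ?_, ?_⟩
    · rw [Nat.mul_add_div L0, Nat.div_eq_of_lt this, add_zero]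
    · rw [mul_assoc, Nat.mul_add_mod, Nat.add_mul_mod_self_left, Nat.mod_mod]
  · obtain ⟨-, h1, h2⟩ := mem_filter.1 hj
    refine ⟨j % (m * J) / m, mem_range.2 (Nat.div_lt_of_lt_mul (Nat.mod_lt _ L0)), ?_⟩
    rw [← h1, ← h2, ← Nat.mod_mod_of_dvd j (Dvd.intro J rfl), Nat.mod_add_div, Nat.div_add_mod]

lemma mark (m L N : ℕ) {F : ℕ → ℝ} (h : ∀ n, 0 ≤ F n) {τ : ℝ} (t0 : 0 < τ) :
    ∑ n ∈ range N, (if av m L N F n ≤ τ then (0 : ℝ) else 1) ≤ (∑ n ∈ range N, F n) / τ := by
  have := av_sum m L N F (fun _ => 1) fun _ _ _ => rfl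
  simp only [mul_one] at this
  rw [← this, sum_div]
  refine sum_le_sum fun n _ => ?_
  split_ifs with a
  · exact div_nonneg (div_nonneg (sum_nonneg fun j _ => h j) (by positivity)) t0.le
  · exact (one_le_div t0).2 (not_le.1 a).le

lemma cs1 (S : Finset ℕ) (g : ℕ → ℝ) {γ : ℝ} (g0 : 0 < γ)
    (h : (∑ j ∈ S, g j ^ 2) / S.card ≤ γ ^ 2) : ∑ j ∈ S, |g j| ≤ γ * S.card := by
  rcases S.eq_empty_or_nonempty with rfl | n
  · simp
  rw [div_le_iff₀ (by exact_mod_cast n.card_pos)] at h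
  refine le_of_sq_le_sq (sq_sum_le_card_mul_sum_sq.trans ?_) (by positivity)
  simp only [sq_abs]
  nlinarith [mul_le_mul_of_nonneg_left h (Nat.cast_nonneg (α := ℝ) S.card)]

lemma f3 {m L N : ℕ} (m0 : 0 < m) (L0 : 0 < L) (hN : L ∣ N) {F : ℕ → ℝ}
    (hF : ∀ n, 0 ≤ F n ∧ F n ≤ 1) (s : Finset ℕ) (w : ℕ → ℝ) (w0 : ∀ i, 0 ≤ w i)
    (w1 : ∑ i ∈ s, w i ≤ 1) (y : ℕ → ℕ) (η : ℝ)
    (H : ∀ θ : ℝ, ‖∑ i ∈ s, w i * e (y i * θ)‖ ≤ η ∨ ‖e (m * θ) - 1‖ ≤ η / L) :
    ∑ n ∈ range N, (∑ i ∈ s, w i * if n + y i < N then F (n + y i) - av m L N F (n + y i) else 0)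
      ^ 2 ≤ 2 * η ^ 2 * N := by
  set f : ℕ → ℝ := fun t => if t < N then F t - av m L N F t else 0 with hf
  have f1 : ∀ t, |f t| ≤ 1 := fun t => by
    simp only [hf]; split_ifs
    · rw [abs_le]; constructor <;> linarith [hF t, av_01 m L N hF t]
    · simp
  set g : ℕ → ℝ := fun t => ∑ j ∈ range (t + 1) with j % m = t % m, f j with hg
  have z : ∀ t, g t = ∑ j ∈ Ico (L * (t / L)) (t + 1) with j % m = t % m, f j := fun t => by
    have a := av_sum m L N F (fun j => if j / L < t / L ∧ j % m = t % m then 1 else 0)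
      fun j n h => by simp only [h.1, h.2]
    rw [← sub_eq_zero, ← neg_eq_zero, neg_sub, ← sum_sub_distrib] at a
    simp only [hg, sum_filter]
    rw [← sum_range_add_sum_Ico _ ((Nat.mul_div_le t L).trans (Nat.le_succ t)), add_eq_right]
    refine Eq.trans ?_ a
    simp only [hf, ← ite_and, ← sub_mul]
    simp only [mul_ite, mul_one, mul_zero, ← sum_filter]
    refine sum_congr (Finset.ext fun j => ?_) fun _ _ => rfl
    simp only [mem_filter, mem_range, Nat.div_lt_iff_lt_mul L0, mul_comm L]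
    tauto
  have g0 : ∀ t, N ≤ t → g t = 0 := fun t ht => by
    rw [z]
    refine sum_eq_zero fun j hj => if_neg (not_lt.2 (le_trans ?_ (mem_Ico.1 (mem_filter.1 hj).1).1))
    obtain ⟨c, rfl⟩ := hN
    exact Nat.mul_le_mul_left _ ((Nat.le_div_iff_mul_le L0).2 (by rwa [mul_comm]))
  have g1 : ∀ t, |g t| ≤ L := fun t => by
    rw [z]
    refine (abs_sum_le_sum_abs _ _).trans ((sum_le_card_nsmul _ _ 1 fun j _ => f1 j).trans ?_)
    rw [nsmul_one]
    refine Nat.cast_le.2 ((card_filter_le _ _).trans ?_)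
    have := Nat.lt_mul_div_succ t L0
    rw [Nat.card_Ico]; rw [mul_add] at this; omega
  have := l3 s w w0 w1 y (s.sup y) (fun i hi => le_sup hi) (fun t => f t) (fun t => g t) N m
    (fun t ht => by simp [hf, ht]) (fun t ht => by simp [g0 t ht]) (fun t => by
      simp only [hg]
      rw [range_add_one, filter_insert, if_pos rfl, sum_insert (by simp), ofReal_add, add_sub_assoc,
        left_eq_add, sub_eq_zero]
      split_ifs with a
      · obtain ⟨t, rfl⟩ := Nat.exists_eq_add_of_le' a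
        rw [Nat.add_sub_cancel, Nat.add_mod_right]
        refine congrArg _ (sum_congr (Finset.ext fun j => ?_) fun _ _ => rfl)
        simp only [mem_filter, mem_range]
        refine and_congr_left fun h => ⟨fun b => ?_, fun b => by omega⟩
        by_contra c
        have := Nat.le_of_dvd (by omega) ((Nat.modEq_iff_dvd' (show t ≤ j by omega)).1 h.symm)
        omega
      · rw [sum_eq_zero, ofReal_zero]
        intro j hj
        obtain ⟨b, c⟩ := mem_filter.1 hj
        have := mem_range.1 b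
        rw [Nat.mod_eq_of_lt (by omega), Nat.mod_eq_of_lt (by omega)] at c
        omega) η (η / L) H
  simp only [← ofReal_mul, ← ofReal_sum, norm_real, Real.norm_eq_abs, sq_abs] at this
  refine this.trans ?_
  have a := sum_le_card_nsmul (range N) (fun t => f t ^ 2) 1 fun t _ => by
    rw [← sq_abs]; exact pow_le_one₀ (abs_nonneg _) (f1 t)
  have b := sum_le_card_nsmul (range N) (fun t => g t ^ 2) ((L : ℝ) ^ 2) fun t _ => by
    rw [← sq_abs]; exact pow_le_pow_left₀ (abs_nonneg _) (g1 t) 2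
  rw [card_range, nsmul_eq_mul] at a b
  refine (add_le_add (mul_le_mul_of_nonneg_left a (by positivity))
    (mul_le_mul_of_nonneg_left b (by positivity))).trans_eq ?_
  field_simp; ring

end Pool.Agent.H49.FD
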