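import Mathlib
import Pool.Agent.H49.FD5
import Pool.Agent.H49.FD6

/-! From arbitrary sets to periodic sets. -/

set_option autoImplicit false

namespace Pool.Agent.H49.FD

open Finset Filter Topology Complex Pool.Agent.H49.MD

/-- A periodic set of density at least `t` avoiding the differences in `X`. -/
def Per (X : Set ℤ) (t : ℝ) : Prop := ∃ L : ℕ, 0 < L ∧ ∃ B : Finset (ZMod L),
  (∀ a ∈ B, ∀ b ∈ B, ∀ x ∈ X, x ≠ 0 → (x : ZMod L) ≠ a - b) ∧ t * L ≤ B.card

lemma blk (g : ℕ → ℝ) (L c : ℕ) :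
    ∑ n ∈ range (L * c), g n = ∑ b ∈ range c, ∑ j ∈ range L, g (L * b + j) := by
  induction c with
  | zero => simp
  | succ c ih => rw [mul_add, mul_one, sum_range_add, ih, sum_range_succ]

variable {X : Set ℤ} {F : ℕ → ℝ} (F01 : ∀ n, F n = 0 ∨ F n = 1)
  (hA : ∀ a b : ℕ, F a = 1 → F b = 1 → (a : ℤ) - b ∈ X → (a : ℤ) - b = 0)
include F01 hA

lemma reg {m m' L' J c K : ℕ} (m0 : 0 < m) (m1 : 0 < m') (L0 : 0 < L') (c0 : 0 < c)
    (hL : L' ∣ m * J * c) (Ex : Finset ℤ) {ε η δ : ℝ} (e0 : 0 < ε)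
    (hη : m * (2 * η ^ 2) ≤ ε * (ε ^ 2 / 8) ^ 2) (s : ℕ → Finset ℕ) (w : ℕ → ℕ → ℝ) (x : ℕ → ℕ → ℤ)
    (w0 : ∀ r i, 0 ≤ w r i) (w1 : ∀ r, ∑ i ∈ s r, w r i ≤ 1)
    (w2 : ∀ r (θ : ℝ), ‖∑ i ∈ s r, w r i * e (x r i * θ)‖ ≤ η ∨ ‖e (m' * θ) - 1‖ ≤ η / L')
    (w3 : ∀ r : ℕ, (∃ x0 ∈ X, x0 ∉ Ex ∧ (m : ℤ) ∣ x0 - r) → ∑ i ∈ s r, w r i = 1 ∧
      ∀ i ∈ s r, x r i ∈ X ∧ x r i ≠ 0 ∧ (m : ℤ) ∣ x r i - r)
    (k1 : ∀ r, r < m → ∀ i ∈ s r, |x r i| ≤ K) (k2 : ∀ y ∈ Ex, |y| ≤ K) (hK : 4 * K < ε * J)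
    (en : ∑ n ∈ range (m * J * c), (av m' L' (m * J * c) F n - av m (m * J) (m * J * c) F n) ^ 2 ≤
      ε * (ε ^ 2 / 8) ^ 2 * (m * J * c : ℕ))
    (dn : (δ - ε) * (m * J * c : ℕ) ≤ ∑ n ∈ range (m * J * c), F n) : Per X (δ - 5 * ε) := by
  classical
  set L := m * J with hL'
  set N := L * c with hN
  set γ := ε ^ 2 / 8 with hγ
  have g0 : 0 < γ := by positivity
  have J0 : (0 : ℝ) < J := (mul_pos_iff_of_pos_left e0).1 (lt_of_le_of_lt (by positivity) hK)
  have L1 : 0 < L := Nat.mul_pos m0 (by exact_mod_cast J0)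
  have hF : ∀ n, 0 ≤ F n ∧ F n ≤ 1 := fun n => by rcases F01 n with h | h <;> simp [h]
  set f2 : ℕ → ℝ := fun n => av m' L' N F n - av m L N F n with hf2
  set f : ℕ → ℝ := fun t => if t < N then F t - av m' L' N F t else 0 with hf
  set y : ℕ → ℕ → ℕ := fun r i => (x r i + K).toNat with hy
  set Ψ : ℕ → ℕ → ℝ := fun r n => if K ≤ n then ∑ i ∈ s r, w r i * f (n - K + y r i) else 0 with hΨ
  have y1 : ∀ r, r < m → ∀ i ∈ s r, (y r i : ℤ) = x r i + K := fun r hr i hi =>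
    Int.toNat_of_nonneg (by linarith [(abs_le.1 (k1 r hr i hi)).1])
  have p1 : ∀ r, r < m → ∑ n ∈ range N, Ψ r n ^ 2 ≤ 2 * η ^ 2 * N := fun r hr => by
    refine le_trans ?_ (f3 m1 L0 hL hF (s r) (w r) (w0 r) (w1 r) (y r) η fun θ =>
      (w2 r θ).imp_left fun a => le_of_eq_of_le ?_ a)
    · refine (sum_le_sum_of_subset_of_nonneg (range_subset_range.2 (Nat.le_add_left N K))
        fun _ _ _ => by positivity).trans_eq ?_
      rw [sum_range_add, sum_eq_zero fun t ht => by simp [hΨ, not_le.2 (mem_range.1 ht)], zero_add]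
      simp only [hΨ, hf, Nat.le_add_right, if_true, Nat.add_sub_cancel_left]
    · rw [sum_congr rfl (g := fun i => e (K * θ) * (w r i * e (x r i * θ))) fun i hi => by
        rw [← Int.cast_natCast, y1 r hr i hi]; push_cast; rw [add_mul, e_add]; ring, ← mul_sum,
        norm_mul, e_norm, one_mul]
  set Gd : ℕ → Prop := fun n => ε ≤ av m L N F n ∧ av m L N (fun n => f2 n ^ 2) n ≤ γ ^ 2 ∧
    ∀ r, r < m → av m L N (fun n => Ψ r n ^ 2) n ≤ γ ^ 2 with hGd
  have ms : (δ - 4 * ε) * N ≤ ∑ n ∈ range N, if F n = 1 ∧ Gd n then (1 : ℝ) else 0 := by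
    have a := sum_le_sum (s := range N) (f := F) (g := fun n =>
      (if F n = 1 ∧ Gd n then (1 : ℝ) else 0) + F n * (if ε ≤ av m L N F n then 0 else 1) +
      (if av m L N (fun n => f2 n ^ 2) n ≤ γ ^ 2 then 0 else 1) +
      ∑ r ∈ range m, if av m L N (fun n => Ψ r n ^ 2) n ≤ γ ^ 2 then 0 else 1) fun n _ => by
        have z : (0 : ℝ) ≤ ∑ r ∈ range m, if av m L N (fun n => Ψ r n ^ 2) n ≤ γ ^ 2 then 0 else 1 :=
          sum_nonneg fun _ _ => by positivity
        rcases F01 n with h | h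
        · rw [h, zero_mul]; positivity
        by_cases b : ∀ r, r < m → av m L N (fun n => Ψ r n ^ 2) n ≤ γ ^ 2
        · simp only [hGd, h, true_and]
          split_ifs with u v v' <;> first | linarith | exact absurd ⟨‹_›, ‹_›, b⟩ u
        · push Not at b
          obtain ⟨r, r1, r2⟩ := b
          have := single_le_sum (f := fun r => if av m L N (fun n => Ψ r n ^ 2) n ≤ γ ^ 2 then
            (0 : ℝ) else 1) (fun _ _ => by positivity) (mem_range.2 r1)
          rw [if_neg (not_le.2 r2)] at this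
          rw [h]; split_ifs <;> linarith
    rw [sum_add_distrib, sum_add_distrib, sum_add_distrib, sum_comm, ← av_sum m L N F _
      fun j n h => by rw [av_eq N F h]] at a
    have b1 := sum_le_card_nsmul (range N) (fun n => av m L N F n *
      (if ε ≤ av m L N F n then 0 else 1)) ε fun n _ => by split_ifs <;> linarith
    have b2 := (mark m L N (F := fun n => f2 n ^ 2) (fun _ => by positivity) (pow_pos g0 2)).trans
      ((div_le_iff₀ (pow_pos g0 2)).2 (en.trans_eq (by ring) : _ ≤ ε * N * γ ^ 2))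
    have b3 := sum_le_card_nsmul (range m) _ (2 * η ^ 2 * N / γ ^ 2) fun r hr =>
      (mark m L N (F := fun n => Ψ r n ^ 2) (fun _ => by positivity) (pow_pos g0 2)).trans
        (div_le_div_of_nonneg_right (p1 r (mem_range.1 hr)) (by positivity))
    rw [card_range, nsmul_eq_mul] at b1 b3
    have b4 : m * (2 * η ^ 2 * N / γ ^ 2) ≤ ε * N := by
      rw [← mul_div_assoc, div_le_iff₀ (pow_pos g0 2)]
      nlinarith [mul_le_mul_of_nonneg_right hη (Nat.cast_nonneg (α := ℝ) N)]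
    linarith
  have pair : ∀ n0 n1, n0 < N → n1 < N → n0 / L = n1 / L → Gd n0 → Gd n1 → ∀ x0 ∈ X, x0 ∉ Ex →
      ¬ (m : ℤ) ∣ n1 - n0 - x0 := fun n0 n1 a0 a1 hb G0 G1 x0 X0 X1 dv => by
    have mz : (m : ℤ) ≠ 0 := by positivity
    set r := (x0 % m).toNat with hr
    have r1 : (r : ℤ) = x0 % m := Int.toNat_of_nonneg (Int.emod_nonneg _ mz)
    have r2 : r < m := by have := Int.emod_lt_of_pos x0 (show (0 : ℤ) < m by positivity); omega
    have r3 : (m : ℤ) ∣ x0 - r := r1 ▸ Int.dvd_self_sub_emod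
    obtain ⟨u1, u2⟩ := w3 r ⟨x0, X0, X1, r3⟩
    set b := n0 / L with hb'
    have bc : b < c := (Nat.div_lt_iff_lt_mul L1).2 (by rwa [mul_comm c])
    set I := (cell m L N n0).filter fun n => L * b + K ≤ n ∧ n + K < L * (b + 1) with hI
    have sh : ∀ n ∈ I, ∀ i ∈ s r, n - K + y r i ∈ cell m L N n1 ∧
        ((n - K + y r i : ℕ) : ℤ) - n = x r i := fun n hn i hi => by
      obtain ⟨h1, h2, h3⟩ := mem_filter.1 hn
      have h4 := y1 r r2 i hi
      have h5 := abs_le.1 (k1 r r2 i hi)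
      have h6 : L * (b + 1) ≤ N := Nat.mul_le_mul_left L bc
      have h7 : ((n - K + y r i : ℕ) : ℤ) - n = x r i := by omega
      refine ⟨mem_filter.2 ⟨mem_range.2 (by omega), hb ▸ Nat.div_eq_of_lt_le
        (by rw [mul_comm]; omega) (by rw [mul_comm]; omega), Nat.modEq_iff_dvd.2 ?_⟩, h7⟩
      have := dvd_sub (dvd_add (dvd_add dv (Nat.modEq_iff_dvd.1 (mem_filter.1 h1).2.2)) r3)
        (u2 i hi).2.2
      rwa [show (n1 : ℤ) - n0 - x0 + (n0 - n) + (x0 - r) - (x r i - r) =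
        n1 - (n - K + y r i : ℕ) by omega] at this
    have c0' := cell_card m0 (Dvd.intro c rfl) a0
    have c1 := cell_card m0 (Dvd.intro c rfl) a1
    have t1 := cs1 _ _ g0 G1.2.1
    have t2 := cs1 _ _ g0 (G0.2.2 r r2)
    have t3 := G0.1
    rw [av, c0', le_div_iff₀ J0, ← sum_filter_add_sum_filter_not _
      (fun n => L * b + K ≤ n ∧ n + K < L * (b + 1)), ← hI] at t3
    rw [c1] at t1
    rw [c0'] at t2
    have t4 : ∑ n ∈ cell m L N n0 with ¬ (L * b + K ≤ n ∧ n + K < L * (b + 1)), F n ≤ 2 * K := by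
      refine (sum_le_card_nsmul _ _ 1 fun n _ => (hF n).2).trans ?_
      rw [nsmul_one]
      refine le_trans (Nat.cast_le.2 ((card_le_card (t := Ico (L * b) (L * b + K) ∪
        Ico (L * (b + 1) - K) (L * (b + 1))) fun n hn => ?_).trans (card_union_le _ _))) ?_
      · obtain ⟨h1, h2⟩ := mem_filter.1 hn
        have h3 := Nat.mul_div_le n L
        have h4 := Nat.lt_mul_div_succ n L1
        rw [(mem_filter.1 h1).2.1, ← hb'] at h3 h4
        simp only [mem_union, mem_Ico]; omega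
      · rw [Nat.card_Ico, Nat.card_Ico]; exact_mod_cast (by omega)
    have t5 := sum_le_sum (s := I) (f := fun n => ε * F n) (g := fun n =>
      ∑ i ∈ s r, w r i * |f2 (n - K + y r i)| + |Ψ r n|) fun n hn => by
        rcases F01 n with h | h
        · rw [h, mul_zero]
          exact add_nonneg (sum_nonneg fun i _ => mul_nonneg (w0 r i) (abs_nonneg _)) (abs_nonneg _)
        have z : Ψ r n = ∑ i ∈ s r, (-(w r i * av m L N F n1) - w r i * f2 (n - K + y r i)) := by
          simp only [hΨ]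
          rw [if_pos (by have := (mem_filter.1 hn).2.1; omega)]
          refine sum_congr rfl fun i hi => ?_
          obtain ⟨v1, v2⟩ := sh n hn i hi
          have : F (n - K + y r i) = 0 := (F01 _).resolve_right fun v =>
            (u2 i hi).2.1 (v2 ▸ hA _ _ v h (v2 ▸ (u2 i hi).1))
          simp only [hf, hf2]
          rw [if_pos (mem_range.1 (mem_filter.1 v1).1), this, av_eq N F (mem_filter.1 v1).2]; ring
        rw [sum_sub_distrib, sum_neg_distrib, ← sum_mul, u1] at z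
        have := sum_le_sum (s := s r) fun i _ => mul_le_mul_of_nonneg_left
          (neg_abs_le (f2 (n - K + y r i))) (w0 r i)
        simp only [mul_neg, sum_neg_distrib] at this
        rw [h]; linarith [G1.1, neg_abs_le (Ψ r n)]
    rw [sum_add_distrib, sum_comm, ← mul_sum] at t5
    have t6 : ∑ i ∈ s r, ∑ n ∈ I, w r i * |f2 (n - K + y r i)| ≤ γ * J := by
      rw [← one_mul (γ * J), ← u1, sum_mul]
      refine sum_le_sum fun i hi => ?_
      rw [← mul_sum]
      refine mul_le_mul_of_nonneg_left (le_trans ?_ t1) (w0 r i)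
      rw [← sum_image (g := fun n => n - K + y r i) (f := fun j => |f2 j|) fun a ha b hb h => by
        have := (sh a ha i hi).2; have := (sh b hb i hi).2; simp only at h; omega]
      exact sum_le_sum_of_subset_of_nonneg (image_subset_iff.2 fun n hn => (sh n hn i hi).1)
        fun _ _ _ => abs_nonneg _
    have t7 := (sum_le_sum_of_subset_of_nonneg (filter_subset (fun n => L * b + K ≤ n ∧
      n + K < L * (b + 1)) _) fun _ _ _ => abs_nonneg _).trans t2
    nlinarith [mul_le_mul_of_nonneg_left t3 e0.le, mul_le_mul_of_nonneg_left t4 e0.le,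
      mul_lt_mul_of_pos_left hK e0, mul_pos (mul_pos e0 e0) J0]
  obtain ⟨b, hb, ms⟩ := exists_le_of_sum_le (f := fun _ => (δ - 4 * ε) * L) ⟨0, mem_range.2 c0⟩
    ((le_of_eq (by rw [sum_const, card_range, nsmul_eq_mul, hN, Nat.cast_mul L]; ring)).trans
      (ms.trans_eq (blk _ L c)))
  have KL : (K : ℝ) ≤ ε * L := by
    have : (J : ℝ) ≤ L := by exact_mod_cast Nat.le_mul_of_pos_left J m0
    nlinarith [(Nat.cast_nonneg K : (0 : ℝ) ≤ K)]
  set S := (range (L - K)).filter fun j => F (L * b + j) = 1 ∧ Gd (L * b + j) with hS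
  refine ⟨L, L1, S.image (Nat.cast : ℕ → ZMod L), ?_, ?_⟩
  · simp only [forall_mem_image]
    intro j1 h1 j0 h0 x0 X0 x1 e1
    obtain ⟨a1, b1, d1⟩ := mem_filter.1 h1
    obtain ⟨a0, b0, d0⟩ := mem_filter.1 h0
    rw [mem_range] at a0 a1
    have dv : (L : ℤ) ∣ (j1 - j0) - x0 := (ZMod.intCast_eq_intCast_iff_dvd_sub _ _ _).1
      (by push_cast; exact e1)
    have h6 := Nat.mul_le_mul_left L (Nat.succ_le_of_lt (mem_range.1 hb))
    by_cases z : x0 ∈ Ex
    · have := abs_le.1 (k2 x0 z)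
      have := Int.eq_zero_of_abs_lt_dvd dv (by rw [abs_lt]; omega)
      have u : ((L * b + j1 : ℕ) : ℤ) - (L * b + j0 : ℕ) = x0 := by push_cast; omega
      exact x1 (u ▸ hA _ _ b1 b0 (u ▸ X0))
    · refine pair (L * b + j0) (L * b + j1) (by rw [Nat.mul_succ] at h6; omega)
        (by rw [Nat.mul_succ] at h6; omega) (by
          rw [Nat.mul_add_div L1, Nat.mul_add_div L1, Nat.div_eq_of_lt (by omega),
            Nat.div_eq_of_lt (by omega)]) d0 d1 x0 X0 z ?_
      push_cast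
      rw [add_sub_add_left_eq_sub]
      exact dvd_trans ⟨J, by rw [hL']; push_cast; rfl⟩ dv
  · rw [card_image_of_injOn fun u hu v hv h => by
      have := mem_range.1 (mem_filter.1 hu).1
      have := mem_range.1 (mem_filter.1 hv).1
      rwa [ZMod.natCast_eq_natCast_iff', Nat.mod_eq_of_lt (by omega),
        Nat.mod_eq_of_lt (by omega)] at h]
    rw [sum_boole] at ms
    have := ms.trans (Nat.cast_le.2 ((card_le_card (t := S ∪ Ico (L - K) L) fun j hj => by
      obtain ⟨u, v⟩ := mem_filter.1 hj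
      simp only [hS, mem_union, mem_Ico, mem_filter, mem_range, v, and_true] at u ⊢
      omega).trans (card_union_le _ _)))
    have k : ((Ico (L - K) L).card : ℝ) ≤ K := by rw [Nat.card_Ico]; exact_mod_cast (by omega)
    push_cast at this; linarith

theorem lg (hX : Key X) {δ ε : ℝ} (e0 : 0 < ε)
    (hd : ∃ᶠ N : ℕ in atTop, δ * N ≤ ∑ n ∈ range (N + 1), F n) : Per X (δ - 5 * ε) := by
  classical
  by_contra H
  have hF : ∀ n, 0 ≤ F n ∧ F n ≤ 1 := fun n => by rcases F01 n with h | h <;> simp [h]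
  set τ := ε * (ε ^ 2 / 8) ^ 2 with hτ
  have t0 : 0 < τ := by positivity
  have main : ∀ j m : ℕ, 0 < m → ∃ L, 0 < L ∧ m ∣ L ∧ ∀ N, 0 < N → L ∣ N →
      (δ - ε) * N ≤ ∑ n ∈ range N, F n → ∑ n ∈ range N, av m L N F n ^ 2 + j * τ * N ≤ N := by
    intro j
    induction j with
    | zero =>
      refine fun m m0 => ⟨m, m0, dvd_rfl, fun N _ _ _ => ?_⟩
      simpa using sum_le_card_nsmul (range N) _ 1 fun n _ =>
        pow_le_one₀ (av_01 m m N hF n).1 (av_01 m m N hF n).2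
    | succ j ih =>
      intro m m0
      obtain ⟨Ex, hE⟩ := hX m m0
      have η0 : 0 < √(τ / (2 * m)) := by positivity
      obtain ⟨m', m1, m2, hm⟩ := hE _ η0
      obtain ⟨L', L0, L1, hL⟩ := ih m' m1
      have ex : ∀ r : ℕ, ∃ (s : Finset ℕ) (w : ℕ → ℝ) (x : ℕ → ℤ), (∀ i, 0 ≤ w i) ∧
          ∑ i ∈ s, w i ≤ 1 ∧ (∀ θ : ℝ, ‖∑ i ∈ s, w i * e (x i * θ)‖ ≤ √(τ / (2 * m)) ∨
            ‖e (m' * θ) - 1‖ ≤ √(τ / (2 * m)) / L') ∧ ((∃ x0 ∈ X, x0 ∉ Ex ∧ (m : ℤ) ∣ x0 - r) →
            ∑ i ∈ s, w i = 1 ∧ ∀ i ∈ s, x i ∈ X ∧ x i ≠ 0 ∧ (m : ℤ) ∣ x i - r) := fun r => by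
        by_cases h : ∃ x0 ∈ X, x0 ∉ Ex ∧ (m : ℤ) ∣ x0 - r
        · obtain ⟨x0, a, b, c⟩ := h
          obtain ⟨s, w, x, u0, u1, u2, u3⟩ := hm _ (div_pos η0 (Nat.cast_pos.2 L0)) x0 a b
          exact ⟨s, w, x, u0, u1.le, u3, fun _ => ⟨u1, fun i hi => ⟨(u2 i hi).1, (u2 i hi).2.1,
            sub_add_sub_cancel (x i) x0 r ▸ dvd_add (u2 i hi).2.2 c⟩⟩⟩
        · exact ⟨∅, 0, 0, fun _ => le_rfl, by simp, fun _ => Or.inl (by
          rw [sum_empty, norm_zero]; exact η0.le), fun a => absurd a h⟩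
      choose s w x w0 w1 w2 w3 using ex
      set K := (range m).sup (fun r => (s r).sup fun i => (x r i).natAbs) + Ex.sup Int.natAbs
      obtain ⟨c, hc⟩ := exists_nat_gt (4 * K / ε)
      have c0 : 0 < c := Nat.cast_pos.1 (lt_of_le_of_lt (by positivity) hc)
      obtain ⟨J, rfl⟩ := m2.trans L1
      refine ⟨m * (J * c), mul_assoc m J c ▸ Nat.mul_pos L0 c0, Dvd.intro _ rfl, ?_⟩
      rintro _ N0 ⟨b, rfl⟩ dn
      have d1 : m * J ∣ m * (J * c) := ⟨c, by ring⟩
      have a := hL _ N0 (d1.trans (Dvd.intro _ rfl)) dn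
      have g := not_le.1 fun en => H (reg F01 hA m0 m1 L0 (Nat.pos_of_mul_pos_left N0)
        (d1.trans (Dvd.intro _ rfl)) Ex e0 (K := K) (le_of_eq (by
          rw [Real.sq_sqrt (by positivity)]; field_simp; rw [hτ]; ring)) s w x w0 w1 w2 w3
        (fun r hr i hi => by
          have := (le_sup (f := fun i => (x r i).natAbs) hi).trans
            (le_sup (f := fun r => (s r).sup fun i => (x r i).natAbs) (mem_range.2 hr))
          rw [← Int.natCast_natAbs]; exact_mod_cast this.trans (Nat.le_add_right _ _))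
        (fun y hy => by
          rw [← Int.natCast_natAbs]
          exact_mod_cast (le_sup (f := Int.natAbs) hy).trans (Nat.le_add_left _ _))
        (by rw [div_lt_iff₀' e0] at hc
            refine hc.trans_le (mul_le_mul_of_nonneg_left ?_ e0.le)
            exact_mod_cast Nat.le_mul_of_pos_left c (Nat.pos_of_mul_pos_left L0)) en dn)
      set N := m * (J * c) * b
      have p1 := av_sum m' (m * J) N F (av m (m * (J * c)) N F) fun u v h => av_eq N F ⟨by
        rw [← mul_assoc, ← Nat.div_div_eq_div_mul, h.1, Nat.div_div_eq_div_mul],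
        by rw [← Nat.mod_mod_of_dvd u m2, h.2, Nat.mod_mod_of_dvd v m2]⟩
      have p2 := av_sum m (m * (J * c)) N F (av m (m * (J * c)) N F) fun u v h => av_eq N F h
      rw [← hτ] at g
      simp only [sub_sq, sum_add_distrib, sum_sub_distrib, mul_assoc (2 : ℝ), ← mul_sum] at g
      simp only [← sq] at p2
      push_cast; linarith
  obtain ⟨j, hj⟩ := exists_nat_gt (1 / τ)
  obtain ⟨L, L0, -, hL⟩ := main j 1 one_pos
  obtain ⟨M, hM, M1⟩ := (hd.and_eventually (tendsto_natCast_atTop_atTop.eventually_ge_atTop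
    (|δ| * L / ε))).exists
  have a := Nat.lt_mul_div_succ M L0
  have b := Nat.mul_div_le M L
  set N := L * (M / L + 1) with hN
  have a1 : (M : ℝ) < N := by exact_mod_cast a
  have b1 : (N : ℝ) ≤ M + L := by exact_mod_cast (by rw [hN, mul_add]; omega : N ≤ M + L)
  have N0 : (0 : ℝ) < N := lt_of_le_of_lt (by positivity) a1
  have := hL N (by omega) (Dvd.intro _ rfl) (le_trans (by
    rw [div_le_iff₀' e0] at M1
    nlinarith [mul_le_mul (le_abs_self δ) (show (N : ℝ) - M ≤ L by linarith) (by linarith)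
      (abs_nonneg δ)]) (hM.trans (sum_le_sum_of_subset_of_nonneg (range_subset_range.2 a)
      fun n _ _ => (hF n).1)))
  rw [div_lt_iff₀ t0] at hj
  nlinarith [sum_nonneg fun n (_ : n ∈ range N) => sq_nonneg (av 1 L N F n)]

end Pool.Agent.H49.FD
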