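import Mathlib

set_option autoImplicit false

namespace Pool.Agent.H49.FFHeight

open Polynomial WithZero

variable {k : Type} [Field k]

/-- normalised discrete valuations of `k(t)` trivial on `k` -/
abbrev Pl (k : Type) [Field k] :=
  {v : Valuation (RatFunc k) (WithZero (Multiplicative ℤ)) //
    Function.Surjective v ∧
      ∀ c : k, c ≠ 0 → v (algebraMap (RatFunc k) (RatFunc k) (RatFunc.C c)) = 1}

lemma triv (v : Pl k) : v.1.IsTrivialOn k :=
  ⟨fun c hc => by
    have := v.2.2 c hc
    simpa [RatFunc.algebraMap_eq_C] using this⟩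

lemma sInf_eq (v : Valuation (RatFunc k) (WithZero (Multiplicative ℤ))) (z : Fin 2 → RatFunc k)
    (M : ℤ) (h0 : v (z 0) ≤ exp M) (h1 : v (z 1) ≤ exp M)
    (h : v (z 0) = exp M ∨ v (z 1) = exp M) :
    sInf {m : ℤ | ∀ i, v (z i) ≤ WithZero.coe (Multiplicative.ofAdd m)} = M := by
  apply IsLeast.csInf_eq
  constructor
  · intro i
    fin_cases i
    · exact h0
    · exact h1
  · intro m hm
    rcases h with h | h
    · have := hm 0
      rw [h] at this
      exact exp_le_exp.1 this
    · have := hm 1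
      rw [h] at this
      exact exp_le_exp.1 this

lemma val_unit (v : Valuation (RatFunc k) (WithZero (Multiplicative ℤ))) [hv : v.IsTrivialOn k]
    (hlt : v RatFunc.X < 1) (p : k[X]) (hp : p.coeff 0 ≠ 0) :
    v (algebraMap k[X] (RatFunc k) p) = 1 := by
  have h1 : v (algebraMap k[X] (RatFunc k) (C (p.coeff 0))) = 1 := by
    have := hv.eq_one _ hp
    simpa [RatFunc.algebraMap_eq_C] using this
  have h2 : v (algebraMap k[X] (RatFunc k) (X * p.divX)) < 1 := by
    rw [map_mul, map_mul, RatFunc.algebraMap_X]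
    have := valuation_le_one_of_valuation_X_le_one (K := k) (v := v) hlt.le p.divX
    exact mul_lt_one_of_lt_of_le hlt this
  conv_lhs => rw [← X_mul_divX_add p, map_add]
  rw [Valuation.map_add_eq_of_lt_right, h1]
  rwa [h1]

lemma val_poly_lt (v : Valuation (RatFunc k) (WithZero (Multiplicative ℤ))) [v.IsTrivialOn k]
    (hlt : v RatFunc.X < 1) (p : k[X]) (hp : p ≠ 0) :
    v (algebraMap k[X] (RatFunc k) p) = v RatFunc.X ^ p.rootMultiplicity 0 := by
  obtain ⟨q, hq, hq'⟩ := exists_eq_pow_rootMultiplicity_mul_and_not_dvd p hp 0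
  rw [C_0, sub_zero] at hq hq'
  conv_lhs => rw [hq, map_mul, map_mul, map_pow, map_pow, RatFunc.algebraMap_X]
  rw [val_unit v hlt q (fun h => hq' (X_dvd_iff.2 h)), mul_one]

lemma val_lt (v : Valuation (RatFunc k) (WithZero (Multiplicative ℤ))) [v.IsTrivialOn k]
    (hlt : v RatFunc.X < 1) (f : RatFunc k) (hf : f ≠ 0) :
    v f = v RatFunc.X ^ ((f.num.rootMultiplicity 0 : ℤ) - f.denom.rootMultiplicity 0) := by
  have hX : v RatFunc.X ≠ 0 := (Valuation.ne_zero_iff v).2 RatFunc.X_ne_zero
  conv_lhs => rw [← RatFunc.num_div_denom f]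
  rw [map_div₀, val_poly_lt v hlt _ (RatFunc.num_ne_zero hf),
    val_poly_lt v hlt _ (RatFunc.denom_ne_zero f), zpow_sub₀ hX, zpow_natCast, zpow_natCast]

lemma eq_of_pow (v w : Pl k) (r : RatFunc k → ℤ)
    (hv : ∀ f, f ≠ 0 → v.1 f = v.1 RatFunc.X ^ r f)
    (hw : ∀ f, f ≠ 0 → w.1 f = w.1 RatFunc.X ^ r f)
    (hs : (v.1 RatFunc.X < 1 ∧ w.1 RatFunc.X < 1) ∨ (1 < v.1 RatFunc.X ∧ 1 < w.1 RatFunc.X)) :
    v = w := by
  have key : ∀ u : Pl k, (∀ f, f ≠ 0 → u.1 f = u.1 RatFunc.X ^ r f) →
      u.1 RatFunc.X = exp 1 ∨ u.1 RatFunc.X = exp (-1) := by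
    intro u hu
    have hX : u.1 RatFunc.X ≠ 0 := (Valuation.ne_zero_iff u.1).2 RatFunc.X_ne_zero
    obtain ⟨f, hf⟩ := u.2.1 (exp 1)
    have hf0 : f ≠ 0 := by
      rintro rfl
      rw [map_zero] at hf
      exact exp_ne_zero hf.symm
    rw [hu f hf0, ← exp_log hX, ← exp_zsmul, exp_inj, smul_eq_mul] at hf
    rw [← exp_log hX]
    rcases Int.eq_one_or_neg_one_of_mul_eq_one' hf with h | h
    · left; rw [h.2]
    · right; rw [h.2]
  have hXX : v.1 RatFunc.X = w.1 RatFunc.X := by
    have e1 : ¬ (exp (1 : ℤ) < 1) := by rw [← exp_zero, exp_lt_exp]; norm_num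
    have e2 : ¬ (1 < exp (-1 : ℤ)) := by rw [← exp_zero, exp_lt_exp]; norm_num
    rcases key v hv with a | a <;> rcases key w hw with b | b <;> rw [a, b] at hs ⊢ <;> tauto
  apply Subtype.ext
  ext f
  by_cases hf : f = 0
  · rw [hf, map_zero, map_zero]
  · rw [hv f hf, hw f hf, hXX]

noncomputable def v0 (k : Type) [Field k] : Pl k :=
  ⟨(idealX k).valuation (RatFunc k), (idealX k).valuation_surjective (RatFunc k), fun c hc => by
    have h : (algebraMap (RatFunc k) (RatFunc k) (RatFunc.C c)) =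
        algebraMap k[X] (RatFunc k) (C c) := by simp
    rw [h]
    apply le_antisymm ((idealX k).valuation_le_one _)
    have h2 := (idealX k).valuation_le_one (K := RatFunc k) (C c⁻¹)
    have h3 : (idealX k).valuation (RatFunc k) (algebraMap k[X] (RatFunc k) (C c)) *
        (idealX k).valuation (RatFunc k) (algebraMap k[X] (RatFunc k) (C c⁻¹)) = 1 := by
      rw [← map_mul, ← map_mul, ← C_mul, mul_inv_cancel₀ hc, C_1, map_one, map_one]
    by_contra hlt
    have := mul_lt_one_of_lt_of_le (not_le.1 hlt) h2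
    exact absurd h3 this.ne⟩

open Classical in
noncomputable def vI (k : Type) [Field k] : Pl k :=
  ⟨RatFunc.inftyValuation k, fun n => by
    by_cases hn : n = 0
    · exact ⟨0, by simp [hn]⟩
    · exact ⟨RatFunc.X ^ (log n), by rw [RatFunc.inftyValuation.X_zpow, exp_log hn]⟩,
    fun c hc => by simpa using RatFunc.inftyValuation.C k hc⟩

lemma v0_X : (v0 k).1 RatFunc.X = exp (-1) := valuation_X_eq_neg_one k

lemma vI_X : (vI k).1 RatFunc.X = exp 1 := by
  classical
  exact RatFunc.inftyValuation.X k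

lemma eq_v0 (v : Pl k) (h : v.1 RatFunc.X < 1) : v = v0 k := by
  have h0 : (v0 k).1 RatFunc.X < 1 := by rw [v0_X, ← exp_zero, exp_lt_exp]; norm_num
  have := triv v
  have := triv (v0 k)
  exact eq_of_pow v (v0 k) _ (val_lt v.1 h) (val_lt (v0 k).1 h0) (Or.inl ⟨h, h0⟩)

lemma eq_vI (v : Pl k) (h : 1 < v.1 RatFunc.X) : v = vI k := by
  have h0 : 1 < (vI k).1 RatFunc.X := by rw [vI_X, ← exp_zero, exp_lt_exp]; norm_num
  have := triv v
  have := triv (vI k)
  exact eq_of_pow v (vI k) RatFunc.intDegree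
    (fun f hf => RatFunc.valuation_eq_valuation_X_zpow_intDegree_of_one_lt_valuation_X h hf)
    (fun f hf => RatFunc.valuation_eq_valuation_X_zpow_intDegree_of_one_lt_valuation_X h0 hf)
    (Or.inr ⟨h, h0⟩)

theorem height_eq (s : ℕ) (x y : k[X]) (hx : x ≠ 0) (hy : y.coeff 0 ≠ 0)
    (hd : x.natDegree ≤ y.natDegree) (hc : IsCoprime x y) (z : Fin 2 → RatFunc k)
    (hz0 : z 0 = RatFunc.X ^ s * algebraMap k[X] (RatFunc k) x)
    (hz1 : z 1 = RatFunc.X ^ s * algebraMap k[X] (RatFunc k) y) :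
    ∑ᶠ v : Pl k, ((sInf {m : ℤ | ∀ i, v.1 (z i) ≤ WithZero.coe (Multiplicative.ofAdd m)} : ℤ) : ℝ)
      = y.natDegree := by
  classical
  have hy0 : y ≠ 0 := by rintro rfl; simp at hy
  have hne : v0 k ≠ vI k := by
    intro h
    have h1 := v0_X (k := k)
    rw [h, vI_X, exp_inj] at h1
    norm_num at h1
  rw [finsum_eq_sum_of_support_subset (s := {v0 k, vI k}), Finset.sum_pair hne]
  · have h0 : (v0 k).1 RatFunc.X < 1 := by rw [v0_X, ← exp_zero, exp_lt_exp]; norm_num
    have h1 : 1 < (vI k).1 RatFunc.X := by rw [vI_X, ← exp_zero, exp_lt_exp]; norm_num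
    have := triv (v0 k)
    have := triv (vI k)
    have a1 : (v0 k).1 (z 1) = exp (-(s : ℤ)) := by
      rw [hz1, map_mul, map_pow, val_unit _ h0 y hy, v0_X, mul_one, ← exp_nsmul]
      simp
    have a0 : (v0 k).1 (z 0) ≤ exp (-(s : ℤ)) := by
      rw [hz0, map_mul, map_pow, v0_X, ← exp_nsmul]
      have := valuation_le_one_of_valuation_X_le_one (K := k) (v := (v0 k).1) h0.le x
      simpa using this
    have b1 : (vI k).1 (z 1) = exp ((s : ℤ) + y.natDegree) := by
      have := valuation_eq_valuation_X_pow_natDegree_of_one_lt_valuation_X (K := k) h1 hy0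
      rw [hz1, map_mul, map_pow]
      erw [this]
      rw [vI_X, ← exp_nsmul, ← exp_nsmul, ← exp_add]
      simp
    have b0 : (vI k).1 (z 0) ≤ exp ((s : ℤ) + y.natDegree) := by
      have := valuation_eq_valuation_X_pow_natDegree_of_one_lt_valuation_X (K := k) h1 hx
      rw [hz0, map_mul, map_pow]
      erw [this]
      rw [vI_X, ← exp_nsmul, ← exp_nsmul, ← exp_add, exp_le_exp]
      simpa using hd
    rw [sInf_eq _ z _ a0 a1.le (Or.inr a1), sInf_eq _ z _ b0 b1.le (Or.inr b1)]
    push_cast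
    ring
  · intro v hv
    rw [Function.mem_support] at hv
    rcases lt_trichotomy (v.1 RatFunc.X) 1 with h | h | h
    · simp [eq_v0 v h]
    · exfalso
      apply hv
      have := triv v
      have a0 := valuation_le_one_of_valuation_X_le_one (K := k) (v := v.1) h.le x
      have a1 := valuation_le_one_of_valuation_X_le_one (K := k) (v := v.1) h.le y
      have e0 : v.1 (z 0) = v.1 (algebraMap k[X] (RatFunc k) x) := by
        rw [hz0, map_mul, map_pow, h, one_pow, one_mul]
      have e1 : v.1 (z 1) = v.1 (algebraMap k[X] (RatFunc k) y) := by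
        rw [hz1, map_mul, map_pow, h, one_pow, one_mul]
      rw [sInf_eq _ z 0 (by rw [e0]; exact a0) (by rw [e1]; exact a1)]
      · simp
      · rw [e0, e1, exp_zero]
        by_contra hcon
        push Not at hcon
        obtain ⟨a, b, hab⟩ := hc
        have c0 := valuation_le_one_of_valuation_X_le_one (K := k) (v := v.1) h.le a
        have c1 := valuation_le_one_of_valuation_X_le_one (K := k) (v := v.1) h.le b
        have d0 : v.1 (algebraMap k[X] (RatFunc k) (a * x)) < 1 := by
          rw [map_mul, map_mul, mul_comm]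
          exact mul_lt_one_of_lt_of_le (lt_of_le_of_ne a0 hcon.1) c0
        have d1 : v.1 (algebraMap k[X] (RatFunc k) (b * y)) < 1 := by
          rw [map_mul, map_mul, mul_comm]
          exact mul_lt_one_of_lt_of_le (lt_of_le_of_ne a1 hcon.2) c1
        have := v.1.map_add_lt d0 d1
        rw [← map_add, hab, map_one, map_one] at this
        exact lt_irrefl _ this
    · simp [eq_vI v h]

end Pool.Agent.H49.FFHeight
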