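import Mathlib

set_option autoImplicit false

namespace Pool.Agent.H49.FI

open Finset Complex Filter Topology
open scoped ComplexConjugate

/-- positive definite real function on an abelian group -/
def PD {G : Type} [AddCommGroup G] (ψ : G → ℝ) : Prop :=
  ∀ (ι : Type) [Fintype ι] (v : ι → G) (c : ι → ℂ),
    0 ≤ (∑ i, ∑ j, c i * conj (c j) * (ψ (v i - v j) : ℂ)).re

lemma PD.real {G : Type} [AddCommGroup G] {ψ : G → ℝ} (h : PD ψ) (ι : Type) [Fintype ι]
    (v : ι → G) (c : ι → ℝ) : 0 ≤ ∑ i, ∑ j, c i * c j * ψ (v i - v j) := by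
  have := h ι v fun i => c i
  simp only [conj_ofReal, ← ofReal_mul, ← ofReal_sum, ofReal_re] at this
  exact this

lemma pi_sum {I : Type} [Fintype I] [DecidableEq I] (g : I → Bool → Bool → ℂ) :
    ∑ s : I → Bool, ∑ s' : I → Bool, ∏ e, g e (s e) (s' e) = ∏ e, ∑ b, ∑ b', g e b b' := by
  rw [Finset.prod_univ_sum, Fintype.piFinset_univ]
  refine sum_congr rfl fun s _ => ?_
  rw [Finset.prod_univ_sum, Fintype.piFinset_univ]

section
variable {I : Type} [Fintype I] [DecidableEq I]

/-- coefficient of a vertex of the cube -/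
noncomputable def co (b : I → ℂ) (s : I → Bool) : ℂ := ∏ e, if s e then b e else 1

/-- position of a vertex of the cube -/
def pos (ξ : I → ℚ) (s : I → Bool) : ℚ := ∑ e, if s e then ξ e else 0

/-- the two vertices differ exactly at one coordinate -/
def Up (e0 : I) (s s' : I → Bool) : Prop :=
  ∀ e, if e = e0 then s e = true ∧ s' e = false else s e = s' e

instance (e0 : I) (s s' : I → Bool) : Decidable (Up e0 s s') := by unfold Up; infer_instance

lemma sum_diag (b : I → ℂ) : ∑ s, ∑ s', co b s * conj (co b s') * (if s = s' then 1 else 0) =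
    ∏ e, (1 + b e * conj (b e)) := by
  have := pi_sum fun e x y => (if x then b e else 1) * conj (if y then b e else 1) *
    (if x = y then 1 else 0)
  simp only [prod_mul_distrib, prod_boole, ← map_prod] at this
  simp only [co, funext_iff]
  convert this using 3 <;> simp [add_comm]

lemma sum_up (b : I → ℂ) (e0 : I) :
    ∑ s, ∑ s', co b s * conj (co b s') * (if Up e0 s s' then 1 else 0) =
      b e0 * ∏ e ∈ univ.erase e0, (1 + b e * conj (b e)) := by
  have := pi_sum fun e x y => (if x then b e else 1) * conj (if y then b e else 1) *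
    (if (if e = e0 then x = true ∧ y = false else x = y) then 1 else 0)
  simp only [prod_mul_distrib, prod_boole, ← map_prod] at this
  rw [← mul_prod_erase _ _ (mem_univ e0)] at this
  simp only [co, Up]
  convert this using 2
  · simp
  · simp
  · refine prod_congr rfl fun e he => ?_
    simp [ne_of_mem_erase he, add_comm]

lemma pos_up (ξ : I → ℚ) {e0 : I} {s s' : I → Bool} (h : Up e0 s s') : pos ξ s - pos ξ s' = ξ e0 := by
  simp only [pos, ← sum_sub_distrib]
  rw [sum_eq_single e0]
  · have := h e0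
    simp only [if_true] at this
    simp [this.1, this.2]
  · intro e _ he
    have := h e
    simp only [if_neg he] at this
    simp [this]
  · simp

lemma inner (F : ℚ → ℝ) (L ε : ℝ) (hε : 0 ≤ ε) (b : I → ℂ) (hb : ∑ s, co b s = 0) (ξ : I → ℚ) (d : ℚ)
    (e0 : I) (hg : ∀ s s' e, e ≠ e0 → s e ≠ s' e → |F ((pos ξ s - pos ξ s') * d) - L| ≤ ε) :
    ‖∑ s, ∑ s', co b s * conj (co b s') * (F ((pos ξ s - pos ξ s') * d) : ℂ) -
      ((F 0 - L : ℝ) * ∏ e, (1 + b e * conj (b e)) +
        (b e0 * (F (ξ e0 * d) - L : ℝ) + conj (b e0) * (F (-(ξ e0 * d)) - L : ℝ)) *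
          ∏ e ∈ univ.erase e0, (1 + b e * conj (b e)))‖ ≤ ε * (∑ s, ‖co b s‖) ^ 2 := by
  have h1 := sum_diag b
  have h2 := sum_up b e0
  have h3 : ∑ s, ∑ s', co b s * conj (co b s') * (if Up e0 s' s then 1 else 0) =
      conj (b e0) * ∏ e ∈ univ.erase e0, (1 + b e * conj (b e)) := by
    have := congrArg conj h2
    simp only [map_sum, map_mul, map_prod, map_add, map_one, conj_conj, apply_ite conj, map_zero]
      at this
    rw [sum_comm]
    convert this using 2
    · exact sum_congr rfl fun _ _ => by ring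
    · exact prod_congr rfl fun _ _ => by ring
  set F1 := F (ξ e0 * d) - L
  set F2 := F (-(ξ e0 * d)) - L
  have key : ∀ s s', |F ((pos ξ s - pos ξ s') * d) - (L + (F 0 - L) * (if s = s' then 1 else 0) +
      F1 * (if Up e0 s s' then 1 else 0) + F2 * (if Up e0 s' s then 1 else 0))| ≤ ε := by
    intro s s'
    by_cases hs : ∃ e, e ≠ e0 ∧ s e ≠ s' e
    · obtain ⟨e, he, hs⟩ := hs
      have a1 : s ≠ s' := fun h => hs (congrFun h e)
      have a2 : ¬ Up e0 s s' := fun h => by have := h e; rw [if_neg he] at this; exact hs this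
      have a3 : ¬ Up e0 s' s := fun h => by have := h e; rw [if_neg he] at this; exact hs this.symm
      simpa [a1, a2, a3] using hg s s' e he hs
    · push Not at hs
      have u1 : Up e0 s s' ↔ s e0 = true ∧ s' e0 = false :=
        ⟨fun h => by simpa using h e0, fun h e => by
          split_ifs with he
          · rwa [he]
          · exact hs e he⟩
      have u2 : Up e0 s' s ↔ s' e0 = true ∧ s e0 = false :=
        ⟨fun h => by simpa using h e0, fun h e => by
          split_ifs with he
          · rwa [he]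
          · exact (hs e he).symm⟩
      have u3 : s = s' ↔ s e0 = s' e0 := ⟨fun h => by rw [h], fun h => funext fun e => by
        by_cases he : e = e0
        · rwa [he]
        · exact hs e he⟩
      by_cases a1 : s = s'
      · have a2 : ¬ Up e0 s' s' := fun h => by have := h e0; simp at this
        simp [a1, a2, hε]
      · by_cases a2 : Up e0 s s'
        · have a3 : ¬ Up e0 s' s := by rw [u2]; simp [(u1.1 a2).1]
          simp [a1, a2, a3, pos_up ξ a2, F1, hε]
        · have a3 : Up e0 s' s := by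
            rw [u2]; rw [u1] at a2; rw [u3] at a1
            revert a1 a2; cases s e0 <;> cases s' e0 <;> simp
          have := pos_up ξ a3
          rw [show pos ξ s - pos ξ s' = -ξ e0 by linarith]
          simp [a1, a2, a3, F2, hε]
  have e1 : ((F 0 - L : ℝ) * ∏ e, (1 + b e * conj (b e)) +
        (b e0 * (F1 : ℝ) + conj (b e0) * (F2 : ℝ)) * ∏ e ∈ univ.erase e0, (1 + b e * conj (b e))) =
      ∑ s, ∑ s', co b s * conj (co b s') * ((L + (F 0 - L) * (if s = s' then 1 else 0) +
      F1 * (if Up e0 s s' then 1 else 0) + F2 * (if Up e0 s' s then 1 else 0) : ℝ) : ℂ) := by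
    have : ∀ s s', co b s * conj (co b s') * ((L + (F 0 - L) * (if s = s' then 1 else 0) +
      F1 * (if Up e0 s s' then 1 else 0) + F2 * (if Up e0 s' s then 1 else 0) : ℝ) : ℂ) =
      L * (co b s * conj (co b s')) +
        (F 0 - L : ℝ) * (co b s * conj (co b s') * (if s = s' then 1 else 0)) +
        F1 * (co b s * conj (co b s') * (if Up e0 s s' then 1 else 0)) +
        F2 * (co b s * conj (co b s') * (if Up e0 s' s then 1 else 0)) := by
      intro s s'
      push_cast [apply_ite ofReal]
      ring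
    simp only [this, sum_add_distrib, ← mul_sum, h1, h2, h3]
    rw [← sum_mul, hb]
    ring
  rw [e1, ← sum_sub_distrib, sq, sum_mul_sum, mul_sum]
  refine (norm_sum_le _ _).trans (sum_le_sum fun s _ => ?_)
  rw [← sum_sub_distrib, mul_sum]
  refine (norm_sum_le _ _).trans (sum_le_sum fun s' _ => ?_)
  rw [← mul_sub, ← ofReal_sub, norm_mul, norm_mul, RCLike.norm_conj, norm_real, Real.norm_eq_abs,
    mul_comm]
  exact mul_le_mul_of_nonneg_right (key s s') (by positivity)

end

abbrev Row (K : ℕ) := Fin 3 × Fin K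
abbrev Col (K : ℕ) := Option (Fin K × Fin K)

/-- the coordinate attached to a pair of rows -/
def Sp {K : ℕ} (e : Col K) (i j : Row K) : Prop :=
  ∃ k l, e = some (k, l) ∧ ((i = (0, k) ∧ j = (1, l)) ∨ (i = (1, l) ∧ j = (0, k)))

lemma config (K : ℕ) (E : Finset ℚ) : ∃ (y : Row K → ℚ) (ξ : Col K → ℚ),
    (∀ i j, i ≠ j → y i ≠ y j) ∧ (∀ k l, ξ (some (k, l)) * (y (0, k) - y (1, l)) = 1) ∧
    (∀ s s', s ≠ s' → pos ξ s ≠ pos ξ s') ∧
    ∀ s s' e i j, s e ≠ s' e → i ≠ j → ¬ Sp e i j → (pos ξ s - pos ξ s') * (y i - y j) ∉ E := by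
  classical
  set B := Fintype.card (Row K) + E.sup Rat.den with hB
  have hinf : {p : ℕ | p.Prime ∧ B < p}.Infinite := by
    refine (Nat.infinite_setOfPred_prime.sdiff (Set.finite_le_nat B)).mono fun p hp => ⟨hp.1, ?_⟩
    simpa using hp.2
  set p : Col K → ℕ := fun e => hinf.natEmbedding _ (Fintype.equivFin _ e) with hp
  have pp : ∀ e, (p e).Prime := fun e => (hinf.natEmbedding _ _).2.1
  have pB : ∀ e, B < p e := fun e => (hinf.natEmbedding _ _).2.2
  have pinj : Function.Injective p := fun e e' h =>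
    (Fintype.equivFin _).injective (Fin.ext ((hinf.natEmbedding _).injective (Subtype.ext h)))
  set lab : Row K → ℕ := fun i => Fintype.equivFin _ i with hlab
  have labB : ∀ i, lab i < B := fun i => lt_of_lt_of_le (Fintype.equivFin _ i).2 (by omega)
  have labi : Function.Injective lab := fun i j h => (Fintype.equivFin _).injective (Fin.ext h)
  set t : Col K → Row K → Row K := fun e i => match e with
    | none => i
    | some (k, l) => if i = (1, l) then (0, k) else i with ht
  have tsp : ∀ e i j, i ≠ j → t e i = t e j → Sp e i j := by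
    intro e i j hij h
    match e with
    | none => exact absurd h hij
    | some (k, l) =>
      simp only [ht] at h
      refine ⟨k, l, rfl, ?_⟩
      split_ifs at h with h1 h2 h2
      · exact absurd (h1.trans h2.symm) hij
      · exact Or.inr ⟨h1, h.symm⟩
      · exact Or.inl ⟨h, h2⟩
      · exact absurd h hij
  set N : Col K → ℤ := fun e => ∏ e' ∈ univ.erase e, (p e' : ℤ) with hN
  set z : Row K → ℤ := fun i => ∑ e, (lab (t e i) : ℤ) * N e with hz
  have ppz : ∀ e, Prime (p e : ℤ) := fun e => Nat.prime_iff_prime_int.1 (pp e)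
  have ndp : ∀ e e', e ≠ e' → ¬ (p e : ℤ) ∣ p e' := fun e e' h hd =>
    h (pinj ((Nat.prime_dvd_prime_iff_eq (pp e) (pp e')).1 (by exact_mod_cast hd)))
  have dv : ∀ e i j, (p e : ℤ) ∣ z i - z j ↔ t e i = t e j := by
    intro e i j
    simp only [hz, ← sum_sub_distrib, ← sub_mul]
    rw [← add_sum_erase _ _ (mem_univ e), dvd_add_left (dvd_sum fun e' he' => Dvd.dvd.mul_left
      (dvd_prod_of_mem _ (mem_erase.2 ⟨(ne_of_mem_erase he').symm, mem_univ _⟩)) _),
      (ppz e).dvd_mul]
    constructor
    · rintro (h | h)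
      · have h1 := labB (t e i)
        have h2 := labB (t e j)
        have h3 := pB e
        have := Int.eq_zero_of_abs_lt_dvd h (abs_lt.2 ⟨by omega, by omega⟩)
        exact labi (by omega)
      · obtain ⟨e', he', h⟩ := ((ppz e).dvd_finsetProd_iff _).1 h
        exact absurd h (ndp e e' (ne_of_mem_erase he').symm)
    · intro h; left; simp [h]
  have zne : ∀ i j, i ≠ j → z i - z j ≠ 0 := fun i j h h0 =>
    h ((dv none i j).1 (h0 ▸ dvd_zero _))
  set D : Col K → ℤ := fun e => match e with
    | none => p none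
    | some (k, l) => z (0, k) - z (1, l) with hD
  have D0 : ∀ e, D e ≠ 0 := fun e => match e with
    | none => by simp only [hD]; exact_mod_cast (pp none).ne_zero
    | some (k, l) => zne _ _ (by simp)
  have D1 : ∀ e, (p e : ℤ) ∣ D e := fun e => match e with
    | none => dvd_rfl
    | some (k, l) => (dv _ _ _).2 (by simp [ht])
  have D2 : ∀ e e', e' ≠ e → ¬ (p e : ℤ) ∣ D e' := fun e e' h => match e' with
    | none => ndp _ _ h.symm
    | some (k, l) => fun hd => by
      obtain ⟨k', l', rfl, h2⟩ := tsp _ _ _ (by simp) ((dv _ _ _).1 hd)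
      simp only [Prod.mk.injEq] at h2
      rcases h2 with ⟨h2, h3⟩ | ⟨h2, h3⟩
      · exact h (by rw [h2.2, h3.2])
      · exact absurd h2.1 (by decide)
  have big : ∀ s s' e, s e ≠ s' e →
      1 < padicNorm (p e) (pos (fun e => (D e : ℚ)⁻¹) s - pos (fun e => (D e : ℚ)⁻¹) s') := by
    intro s s' e hs
    have := Fact.mk (pp e)
    have inv : ∀ x : ℚ, padicNorm (p e) x⁻¹ = (padicNorm (p e) x)⁻¹ := fun x => by
      rw [← one_div, padicNorm.div, padicNorm.one, one_div]
    simp only [pos, ← sum_sub_distrib]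
    rw [← add_sum_erase _ _ (mem_univ e)]
    have h1 : 1 < padicNorm (p e) ((if s e then (D e : ℚ)⁻¹ else 0) - if s' e then (D e : ℚ)⁻¹ else 0) := by
      have : 1 < padicNorm (p e) (D e : ℚ)⁻¹ := by
        rw [inv]
        exact (one_lt_inv₀ (lt_of_le_of_ne (padicNorm.nonneg _) (padicNorm.nonzero
          (by exact_mod_cast D0 e)).symm)).2 ((padicNorm.int_lt_one_iff _).2 (D1 e))
      revert hs
      cases s e <;> cases s' e <;> simp [this]
    have h2 : padicNorm (p e) (∑ x ∈ univ.erase e,
        ((if s x then (D x : ℚ)⁻¹ else 0) - if s' x then (D x : ℚ)⁻¹ else 0)) ≤ 1 := by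
      refine padicNorm.sum_le' (fun x hx => ?_) zero_le_one
      have : padicNorm (p e) (D x : ℚ)⁻¹ = 1 := by
        rw [inv, (padicNorm.int_eq_one_iff _).2 (D2 e x (ne_of_mem_erase hx)), inv_one]
      cases s x <;> cases s' x <;> simp [this]
    rw [padicNorm.add_eq_max_of_ne (by linarith)]
    exact lt_max_of_lt_left h1
  refine ⟨fun i => z i, fun e => (D e : ℚ)⁻¹, fun i j h h0 => zne i j h ?_, fun k l => ?_,
    fun s s' h h0 => ?_, fun s s' e i j hs hij hsp hE => ?_⟩
  · rw [sub_eq_zero]; exact Int.cast_injective (α := ℚ) h0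
  · have : ((D (some (k, l)) : ℤ) : ℚ) ≠ 0 := Int.cast_ne_zero.2 (D0 (some (k, l)))
    rw [inv_mul_eq_one₀ this]; simp [hD]
  · obtain ⟨e, he⟩ := Function.ne_iff.1 h
    have := big s s' e he
    rw [h0, sub_self, padicNorm.zero] at this
    linarith
  · have := Fact.mk (pp e)
    have h1 := big s s' e hs
    have h2 : padicNorm (p e) ((z i : ℚ) - z j) = 1 := by
      rw [← Int.cast_sub, padicNorm.int_eq_one_iff, dv]
      exact fun h => hsp (tsp e i j hij h)
    set q := (pos (fun e => (D e : ℚ)⁻¹) s - pos (fun e => (D e : ℚ)⁻¹) s') * ((z i : ℚ) - z j) with hq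
    have h3 : padicNorm (p e) q ≤ 1 := by
      have h4 : q.den ≤ E.sup Rat.den := le_sup (f := Rat.den) hE
      have h5 := pB e
      rw [← Rat.num_div_den q, padicNorm.div, (padicNorm.nat_eq_one_iff _).2
        (Nat.not_dvd_of_pos_of_lt q.pos (by omega)), div_one]
      exact padicNorm.of_int _
    rw [hq, padicNorm.mul, h2, mul_one] at h3
    linarith

end Pool.Agent.H49.FI
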