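import Pool.Agent.H49.FI1

set_option autoImplicit false

namespace Pool.Agent.H49.FI

open Finset Complex Filter Topology
open scoped ComplexConjugate

lemma exists_lim {X : Type} (U : Ultrafilter X) (g : X → ℝ) (h : ∀ x, |g x| ≤ 1) :
    ∃ r, |r| ≤ 1 ∧ Tendsto g U (𝓝 r) := by
  obtain ⟨r, hr, h2⟩ := (isCompact_Icc (a := (-1:ℝ)) (b := 1)).ultrafilter_le_nhds (U.map g)
    (by simp only [Ultrafilter.coe_map, le_principal_iff, Filter.mem_map]
        exact Eventually.of_forall fun x => abs_le.1 (h x))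
  exact ⟨r, abs_le.2 hr, h2⟩

variable {ψ : ℚ × ℚ → ℝ}

lemma no_two (hP : PD ψ) (hb : ∀ v, |ψ v| ≤ 1)
    (hi : ∀ c x y : ℚ, c ≠ 0 → ψ (c * x, c⁻¹ * y) = ψ (x, y)) {a ε : ℝ} (hε : 0 < ε)
    (h1 : {m : ℚ | a + ε ≤ ψ (m, 1)}.Infinite) (h2 : {m : ℚ | ψ (m, 1) ≤ a}.Infinite) : False := by
  obtain ⟨k, hk⟩ := exists_nat_gt (16 / ε ^ 2)
  set u : Bool × Fin k → ℚ := fun i => if i.1 then h1.natEmbedding _ i.2 else h2.natEmbedding _ i.2
    with hu
  have u1 : ∀ i, a + ε ≤ ψ (u (true, i), 1) := fun i => (h1.natEmbedding _ i).2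
  have u2 : ∀ i, ψ (u (false, i), 1) ≤ a := fun i => (h2.natEmbedding _ i).2
  have ui : Function.Injective u := by
    rintro ⟨b, i⟩ ⟨b', j⟩ h
    cases b <;> cases b'
    · simpa [hu, Subtype.val_inj, Fin.val_inj] using h
    · have := u1 j; rw [← h] at this; linarith [u2 i]
    · have := u1 i; rw [h] at this; linarith [u2 j]
    · simpa [hu, Subtype.val_inj, Fin.val_inj] using h
  set t := ε / 8 with ht
  set c : Bool × Fin k → ℝ := fun i => if i.1 then t else -t with hc
  have := hP.real (Option (Bool × Fin k)) (fun i => i.elim 0 fun i => (u i, 1))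
    (fun i => i.elim (-1) c)
  simp only [Fintype.sum_option, Option.elim, sum_add_distrib, sub_zero, zero_sub, Prod.neg_mk,
    Prod.mk_sub_mk, sub_self] at this
  have e1 : ∀ m : ℚ, ψ (-m, -1) = ψ (m, 1) := fun m => by simpa using hi (-1) m 1 (by norm_num)
  have e2 : ∀ i j, ψ (u i - u j, 0) = ψ (1, 0) + if i = j then ψ 0 - ψ (1, 0) else 0 := by
    intro i j
    split_ifs with h
    · simp [h]; rfl
    · simpa using hi (u i - u j) 1 0 (sub_ne_zero.2 (ui.ne h))
  have e3 : ∑ i, c i = 0 := by simp [hc, Fintype.sum_prod_type]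
  have e4 : ∑ i, ∑ j, c i * c j * ψ (u i - u j, 0) = 2 * k * t ^ 2 * (ψ 0 - ψ (1, 0)) := by
    simp only [e2, mul_add, sum_add_distrib, mul_ite, mul_zero, sum_ite_eq, mem_univ, if_true,
      ← sum_mul, ← mul_sum, e3]
    simp [hc, Fintype.sum_prod_type]; ring_nf; simp
  have e5 : k * t * ε ≤ ∑ i, c i * ψ (u i, 1) := by
    simp only [hc, Fintype.sum_prod_type, Fintype.sum_bool, if_true, Bool.false_eq_true, if_false,
      ← sum_add_distrib]
    have : k * t * ε = ∑ _i : Fin k, t * ε := by simp; ring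
    rw [this]
    exact sum_le_sum fun i _ => by nlinarith [u1 i, u2 i]
  simp only [e1, e4, neg_mul, one_mul, mul_neg, mul_one, neg_neg, sum_neg_distrib] at this
  have b1 := abs_le.1 (hb 0)
  have b2 := abs_le.1 (hb (1, 0))
  rw [div_lt_iff₀ (by positivity)] at hk
  have : 2 * k * t ^ 2 * (ψ 0 - ψ (1, 0)) ≤ 2 * k * t ^ 2 * 2 := by
    gcongr; linarith
  have e6 : k * t * ε = k * ε ^ 2 / 8 := by rw [ht]; ring
  have e7 : 2 * k * t ^ 2 * 2 = k * ε ^ 2 / 16 := by rw [ht]; ring
  linarith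

lemma cofin (hP : PD ψ) (hb : ∀ v, |ψ v| ≤ 1)
    (hi : ∀ c x y : ℚ, c ≠ 0 → ψ (c * x, c⁻¹ * y) = ψ (x, y)) :
    ∃ L : ℝ, |L| ≤ 1 ∧ ∀ ε > 0, ∃ E : Finset ℚ, ∀ m ∉ E, |ψ (m, 1) - L| ≤ ε := by
  obtain ⟨L, hL, h⟩ := exists_lim (hyperfilter ℚ) (fun m => ψ (m, 1)) fun _ => hb _
  refine ⟨L, hL, fun ε hε => ?_⟩
  have inf : ∀ s ∈ hyperfilter ℚ, s.Infinite := fun s hs hf => hf.notMem_hyperfilter hs
  have f1 : {m : ℚ | L + ε / 2 + ε / 2 ≤ ψ (m, 1)}.Finite := by
    by_contra hf
    exact no_two hP hb hi (half_pos hε) hf (inf _ (h.eventually (ge_mem_nhds (by linarith))))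
  have f2 : {m : ℚ | ψ (m, 1) ≤ L - ε}.Finite := by
    by_contra hf
    exact no_two hP hb hi (half_pos hε) (inf _ (h.eventually (le_mem_nhds (by linarith)))) hf
  refine ⟨(f1.union f2).toFinset, fun m hm => ?_⟩
  simp only [Set.Finite.mem_toFinset, Set.mem_union, Set.mem_ofPred_eq, not_or, not_le] at hm
  rw [abs_le]; constructor <;> linarith [hm.1, hm.2]

lemma lim_nonneg (hP : PD ψ) (hb : ∀ v, |ψ v| ≤ 1)
    (hi : ∀ c x y : ℚ, c ≠ 0 → ψ (c * x, c⁻¹ * y) = ψ (x, y)) {L : ℝ}
    (h : ∀ ε > 0, ∃ E : Finset ℚ, ∀ m ∉ E, |ψ (m, 1) - L| ≤ ε) : 0 ≤ L := by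
  by_contra hL
  push Not at hL
  obtain ⟨E, hE⟩ := h (-L / 2) (by linarith)
  obtain ⟨R, hR⟩ := E.bddAbove
  obtain ⟨k, hk⟩ := exists_nat_gt (2 / (-L) + 1)
  have := hP.real (Fin k) (fun i => ((|R| + 1) * i, i)) fun _ => 1
  have e1 : ∀ i j : Fin k, 1 * 1 * ψ (((|R| + 1) * i, (i : ℚ)) - ((|R| + 1) * j, (j : ℚ))) ≤
      L / 2 + if i = j then 1 - L / 2 else 0 := by
    intro i j
    split_ifs with hij
    · have := abs_le.1 (hb 0)
      simp [hij]; linarith
    · have d0 : (i : ℚ) - j ≠ 0 := sub_ne_zero.2 fun h => hij (Fin.ext (by exact_mod_cast h))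
      have d1 : 1 ≤ ((i : ℚ) - j) ^ 2 := by
        have : (1 : ℤ) ≤ ((i : ℤ) - j) ^ 2 := (one_le_sq_iff_one_le_abs _).2
          (Int.one_le_abs (by exact_mod_cast d0))
        exact_mod_cast this
      rw [Prod.mk_sub_mk, ← hi _ _ _ d0, inv_mul_cancel₀ d0]
      have := hE (((i : ℚ) - j) * ((|R| + 1) * i - (|R| + 1) * j)) fun hm => by
        have := hR hm
        nlinarith [le_abs_self R, abs_nonneg R]
      linarith [(abs_le.1 this).2]
  have h2 := this.trans (sum_le_sum fun i _ => sum_le_sum fun j _ => e1 i j)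
  simp only [sum_add_distrib, sum_ite_eq, mem_univ, if_true, sum_const, card_univ, Fintype.card_fin,
    nsmul_eq_mul] at h2
  have h3 : 2 / (-L) * (-L) = 2 := div_mul_cancel₀ _ (by linarith)
  have h4 : 0 < 2 / (-L) := div_pos two_pos (by linarith)
  have h5 : 0 < (k : ℝ) := by linarith
  have h6 : 0 ≤ k * (L / 2) + (1 - L / 2) := by
    by_contra h7
    push Not at h7
    nlinarith
  nlinarith

theorem inv_case (hP : PD ψ) (hb : ∀ v, |ψ v| ≤ 1)
    (hi : ∀ c x y : ℚ, c ≠ 0 → ψ (c * x, c⁻¹ * y) = ψ (x, y)) : 0 ≤ ψ (1, 1) := by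
  classical
  by_contra hη
  push Not at hη
  obtain ⟨L, hL1, hL⟩ := cofin hP hb hi
  have L0 := lim_nonneg hP hb hi hL
  set F : ℚ → ℝ := fun m => ψ (m, 1) with hF
  set η := -ψ (1, 1) with hηd
  have η0 : 0 < η := by linarith
  obtain ⟨K, hK⟩ := exists_nat_gt (90 / η)
  have K0 : (0 : ℝ) < K := lt_trans (by positivity) hK
  set b : Col K → ℂ := fun e => e.elim (-1) fun _ => 1 - I with hbd
  set W : ℝ := 2 * 3 ^ (K * K) with hW
  have W0 : 0 < W := by positivity
  set T := (∑ s, ‖co b s‖) ^ 2 with hT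
  have T0 : 0 ≤ T := by positivity
  set ε := η * W / (135 * (T + W)) with hε
  have ε0 : 0 < ε := by positivity
  obtain ⟨E, hE⟩ := hL ε ε0
  obtain ⟨y, ξ, y1, y2, y3, y4⟩ := config K E
  set c : Row K → ℂ := fun i => ![1, 1 - I, -2 + I] i.1 with hc
  have hb0 : ∑ s, co b s = 0 := by
    simp only [co]
    rw [← Fintype.piFinset_univ, ← Finset.prod_univ_sum (fun _ => univ)
      (fun e (x : Bool) => if x = true then b e else 1)]
    exact prod_eq_zero (mem_univ none) (by simp [hbd])
  have b3 : (1 + (1 - I) * conj (1 - I) : ℂ) = 3 := by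
    simp only [map_sub, map_one, conj_I]; ring_nf; rw [I_sq]; norm_num
  have pW : ∏ e, (1 + b e * conj (b e)) = W := by
    rw [Fintype.prod_option]
    simp only [hbd, Option.elim, b3]
    simp [hW]; norm_num
  have pW1 : ∀ e, ∏ e ∈ univ.erase (some e), (1 + b e * conj (b e)) = W / 3 := by
    intro e
    rw [← pW, ← mul_prod_erase _ _ (mem_univ (some e))]
    simp only [hbd, Option.elim, b3]; ring
  have pW2 : ∏ e ∈ univ.erase none, (1 + b e * conj (b e)) = W / 2 := by
    rw [← pW, ← mul_prod_erase _ _ (mem_univ none)]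
    simp [hbd]; ring
  set S : Row K → Row K → ℂ := fun i j =>
    ∑ s, ∑ s', co b s * conj (co b s') * (ψ (pos ξ s - pos ξ s', y i - y j) : ℂ) with hS
  have hQ := hP (Row K × (Col K → Bool)) (fun r => (pos ξ r.2, y r.1)) fun r => c r.1 * co b r.2
  have c0 : ∑ i, c i = 0 := by
    simp [hc, Fintype.sum_prod_type, Fin.sum_univ_three]; ring
  have e1 : ∑ r : Row K × (Col K → Bool), ∑ r' : Row K × (Col K → Bool),
      c r.1 * co b r.2 * conj (c r'.1 * co b r'.2) *
        (ψ ((pos ξ r.2, y r.1) - (pos ξ r'.2, y r'.1)) : ℂ) =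
      ∑ i, ∑ j, c i * conj (c j) * (S i j - (F 0 - L : ℝ) * W) := by
    simp only [mul_sub, sum_sub_distrib, ← sum_mul, ← mul_sum, c0, zero_mul, sub_zero, hS]
    rw [Fintype.sum_prod_type]
    refine sum_congr rfl fun i _ => ?_
    simp only [Fintype.sum_prod_type (α₁ := Row K)]
    rw [sum_comm]
    refine sum_congr rfl fun j _ => ?_
    simp only [mul_sum, map_mul, Prod.mk_sub_mk]
    exact sum_congr rfl fun _ _ => sum_congr rfl fun _ _ => by ring
  rw [e1] at hQ
  have cn : ∀ i j, ‖c i * conj (c j)‖ ≤ 5 := by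
    have : ∀ i, ‖c i‖ ^ 2 ≤ 5 := fun i => by
      rw [← normSq_eq_norm_sq, normSq_apply]
      obtain ⟨a, k⟩ := i
      fin_cases a <;> simp [hc] <;> norm_num
    intro i j
    rw [norm_mul, RCLike.norm_conj]
    nlinarith [this i, this j, sq_nonneg (‖c i‖ - ‖c j‖)]
  have hSo : ∀ i j, i ≠ j → S i j =
      ∑ s, ∑ s', co b s * conj (co b s') * (F ((pos ξ s - pos ξ s') * (y i - y j)) : ℂ) := by
    intro i j hij
    have d0 := sub_ne_zero.2 (y1 i j hij)
    refine sum_congr rfl fun s _ => sum_congr rfl fun s' _ => ?_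
    rw [← hi _ _ _ d0, inv_mul_cancel₀ d0, mul_comm (y i - y j)]
  have reb : ∀ (u x m : ℂ) (r : ℝ), ‖u‖ ≤ 5 → ‖x - m‖ ≤ r → (u * x).re ≤ (u * m).re + 5 * r := by
    intro u x m r h1 h2
    have : (u * (x - m)).re ≤ 5 * r := (re_le_norm _).trans (by
      rw [norm_mul]; exact mul_le_mul h1 h2 (norm_nonneg _) (by norm_num))
    rw [mul_sub, sub_re] at this
    linarith
  have F1 : F 1 - L ≤ -η := by simp only [hF, hηd]; linarith
  have bd : ∀ i j, (c i * conj (c j) * (S i j - (F 0 - L : ℝ) * W)).re ≤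
      (if i = j then 20 * W else 0) + (if i.1 = 0 ∧ j.1 = 1 then -(2 / 3 * η * W) else 0) +
      (if i.1 = 1 ∧ j.1 = 0 then -(2 / 3 * η * W) else 0) + 5 * (ε * (T + W)) := by
    intro i j
    have p0 : 0 ≤ ε * (T + W) := by positivity
    have p1 : ε * T ≤ ε * (T + W) := by nlinarith
    by_cases hij : i = j
    · subst hij
      have n1 : ¬ (i.1 = 0 ∧ i.1 = 1) := fun h => absurd (h.1.symm.trans h.2) (by decide)
      have n2 : ¬ (i.1 = 1 ∧ i.1 = 0) := fun h => n1 h.symm
      rw [if_pos rfl, if_neg n1, if_neg n2]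
      have e2 : S i i = (ψ 0 - ψ (1, 0) : ℝ) * W := by
        have : ∀ s s', co b s * conj (co b s') * (ψ (pos ξ s - pos ξ s', y i - y i) : ℂ) =
            ψ (1, 0) * (co b s * conj (co b s')) +
            (ψ 0 - ψ (1, 0) : ℝ) * (co b s * conj (co b s') * if s = s' then 1 else 0) := by
          intro s s'
          split_ifs with h
          · rw [h, sub_self, sub_self]; push_cast; rw [Prod.mk_zero_zero]; ring
          · have := hi _ 1 0 (sub_ne_zero.2 (y3 s s' h))
            rw [mul_one, mul_zero] at this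
            rw [sub_self, this]; ring
        simp only [hS, this, sum_add_distrib, ← mul_sum, sum_diag, pW]
        rw [← sum_mul, hb0]; ring
      have := reb _ (S i i - (F 0 - L : ℝ) * W) 0 (4 * W) (cn i i) (by
        rw [e2, sub_zero, ← sub_mul, ← ofReal_sub, norm_mul, norm_real, norm_real,
          Real.norm_of_nonneg W0.le, Real.norm_eq_abs]
        have b1 := abs_le.1 (hb 0)
        have b2 := abs_le.1 (hb (1, 0))
        have b3 := abs_le.1 (hb (0, 1))
        have b4 := abs_le.1 hL1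
        gcongr
        rw [abs_le]; constructor <;> simp only [hF] <;> linarith)
      simp only [mul_zero, zero_re] at this
      linarith
    · rw [if_neg hij, hSo i j hij]
      have gen := fun e0 h => inner F L ε ε0.le b hb0 ξ (y i - y j) e0 h
      simp only [pW, ← sub_sub] at gen
      obtain ⟨a, k⟩ := i
      obtain ⟨a', l⟩ := j
      by_cases h1 : a = 0 ∧ a' = 1
      · obtain ⟨rfl, rfl⟩ := h1
        have := reb _ _ _ _ (cn (0, k) (1, l)) (gen (some (k, l)) fun s s' e he hs =>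
          hE _ (y4 s s' e _ _ hs hij (by
            rintro ⟨k', l', rfl, h | h⟩ <;> simp_all)))
        rw [pW1, y2] at this
        refine this.trans ?_
        simp [hc, hbd]
        nlinarith
      · by_cases h2 : a = 1 ∧ a' = 0
        · obtain ⟨rfl, rfl⟩ := h2
          have := reb _ _ _ _ (cn (1, k) (0, l)) (gen (some (l, k)) fun s s' e he hs =>
            hE _ (y4 s s' e _ _ hs hij (by
              rintro ⟨k', l', rfl, h | h⟩ <;> simp_all)))
          rw [pW1, show ξ (some (l, k)) * (y (1, k) - y (0, l)) = -1 by linarith [y2 l k],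
            neg_neg] at this
          refine this.trans ?_
          simp [hc, hbd]
          nlinarith
        · have ns : ∀ e, ¬ Sp e (a, k) (a', l) := by
            rintro e ⟨k', l', rfl, h | h⟩ <;> simp_all
          have g := gen none fun s s' e _ hs => hE _ (y4 s s' e _ _ hs hij (ns e))
          have up : Up none (fun e : Col K => decide (e = none)) fun _ => false := by
            intro e; split_ifs with h <;> simp [h]
          have g1 := hE _ (y4 (fun e => decide (e = none)) (fun _ => false) none _ _ (by simp) hij (ns _))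
          have g2 := hE _ (y4 (fun _ => false) (fun e => decide (e = none)) none _ _ (by simp) hij (ns _))
          rw [← neg_sub (pos ξ _) (pos ξ _), pos_up ξ up, neg_mul] at g2
          rw [pos_up ξ up] at g1
          have := reb _ _ 0 (ε * (T + W)) (cn (a, k) (a', l)) (by
            rw [sub_zero]
            refine (norm_le_norm_sub_add _ _).trans ((add_le_add g ?_).trans (le_of_eq (mul_add ε T W).symm))
            rw [pW2, norm_mul]
            have : ‖(W / 2 : ℂ)‖ = W / 2 := by simp [abs_of_pos W0]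
            rw [this]
            refine (mul_le_mul_of_nonneg_right ((norm_add_le_of_le (r₁ := ε) (r₂ := ε) ?_ ?_))
              (by positivity)).trans (le_of_eq (by ring))
            · simpa [hbd, ← ofReal_sub] using g1
            · simpa [hbd, ← ofReal_sub] using g2)
          simp only [mul_zero, zero_re] at this
          rw [if_neg h1, if_neg h2]
          linarith
  simp only [re_sum] at hQ
  have h2 := hQ.trans (sum_le_sum fun i _ => sum_le_sum fun j _ => bd i j)
  have e5 : ε * (T + W) = η * W / 135 := by rw [hε]; field_simp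
  simp only [e5, sum_add_distrib, sum_ite_eq, mem_univ, if_true] at h2
  simp [Fintype.sum_prod_type, Fin.sum_univ_three] at h2
  rw [div_lt_iff₀ η0] at hK
  have h3 : 0 < K * W * (K * η - 90) := by
    have : 0 < K * η - 90 := by linarith
    positivity
  nlinarith [mul_pos K0 W0]

end Pool.Agent.H49.FI
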