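import Pool.Agent.H49.FI2

set_option autoImplicit false

namespace Pool.Agent.H49.FI

open Finset Complex Filter Topology
open scoped ComplexConjugate

open Classical in
lemma folner {T : Type} [AddCommGroup T] (F : Finset T) {η : ℝ} (hη : 0 < η) : ∃ A : Finset T, A.Nonempty ∧
    ∀ y ∈ F, (1 - η) * A.card ≤ (A.filter fun b => y + b ∈ A).card := by
  set A : ℕ → Finset T := fun k =>
    (Fintype.piFinset fun _ : F => range (k + 1)).image fun n => ∑ γ : F, n γ • (γ : T) with hA
  have ne : ∀ k, (A k).Nonempty := fun k =>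
    ⟨_, mem_image_of_mem _ (Fintype.mem_piFinset.2 fun _ => mem_range.2 (Nat.succ_pos k) :
      (fun _ => 0) ∈ _)⟩
  have sub : ∀ k, A k ⊆ A (k + 1) := fun k => image_subset_image
    (Fintype.piFinset_subset _ _ fun _ => range_subset_range.2 (by omega))
  have step : ∀ k, ∀ y ∈ F, ∀ b ∈ A k, y + b ∈ A (k + 1) := by
    intro k y hy b hb
    obtain ⟨n, hn, rfl⟩ := mem_image.1 hb
    refine mem_image.2 ⟨fun γ => n γ + if γ = ⟨y, hy⟩ then 1 else 0, ?_, ?_⟩
    · rw [Fintype.mem_piFinset] at hn ⊢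
      intro γ
      have := mem_range.1 (hn γ)
      rw [mem_range]; split_ifs <;> omega
    · simp [add_smul, sum_add_distrib, add_comm]
  have card : ∀ k, ((A k).card : ℝ) ≤ ((k + 1 : ℕ) : ℝ) ^ F.card := by
    intro k
    have : (A k).card ≤ (k + 1) ^ F.card := by
      refine card_image_le.trans ?_
      simp [Fintype.card_piFinset]
    exact_mod_cast this
  obtain ⟨k, hk⟩ : ∃ k, ((A (k + 1)).card : ℝ) ≤ (1 + η) * (A k).card := by
    by_contra hc
    push Not at hc
    have grow : ∀ k, (1 + η) ^ k ≤ ((A k).card : ℝ) := by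
      intro k
      induction k with
      | zero => simpa using ne 0
      | succ k ih =>
        rw [pow_succ']
        exact (mul_le_mul_of_nonneg_left ih (by linarith)).trans (hc k).le
    have := (tendsto_pow_const_div_const_pow_of_one_lt F.card (show 1 < 1 + η by linarith)).comp
      (tendsto_add_atTop_nat 1)
    obtain ⟨k, hk⟩ := (this.eventually (gt_mem_nhds (show 0 < 1 / (1 + η) by positivity))).exists
    simp only [Function.comp] at hk
    rw [div_lt_div_iff₀ (by positivity) (by positivity), one_mul, pow_succ] at hk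
    have := (grow k).trans (card k)
    nlinarith
  refine ⟨A k, ne k, fun y hy => ?_⟩
  have h1 := card_filter_add_card_filter_not (s := A k) fun b => y + b ∈ A k
  have h2 : ((A k).filter fun b => ¬ y + b ∈ A k).card ≤ (A (k + 1) \ A k).card :=
    card_le_card_of_injOn (fun b => y + b) (fun b hb => by
      have := mem_filter.1 (mem_coe.1 hb)
      exact mem_coe.2 (mem_sdiff.2 ⟨step k y hy b this.1, this.2⟩)) fun _ _ _ _ h => add_left_cancel h
  have h3 := card_sdiff_add_card_eq_card (sub k)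
  have h4 : ((A k).card : ℝ) + (A k).card ≤
      ((A k).filter fun b => y + b ∈ A k).card + (A (k + 1)).card := by
    exact_mod_cast (by omega : (A k).card + (A k).card ≤
      ((A k).filter fun b => y + b ∈ A k).card + (A (k + 1)).card)
  linarith

lemma folner_seq (G : Type) [AddCommGroup G] [Countable G] : ∃ A : ℕ → Finset G,
    (∀ j, (A j).Nonempty) ∧ ∀ (c : G) (g : G → ℝ), (∀ x, |g x| ≤ 1) →
      Tendsto (fun j => (∑ x ∈ A j, g (c + x)) / (A j).card - (∑ x ∈ A j, g x) / (A j).card)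
        atTop (𝓝 0) := by
  classical
  obtain ⟨u, hu⟩ := exists_surjective_nat G
  choose A h1 h2 using fun j : ℕ => folner ((range j).image u) (Nat.one_div_pos_of_nat (n := j) (α := ℝ))
  refine ⟨A, h1, fun c g hg => ?_⟩
  obtain ⟨i, rfl⟩ := hu c
  have t0 := (tendsto_one_div_add_atTop_nhds_zero_nat (𝕜 := ℝ)).const_mul 2
  rw [mul_zero] at t0
  refine squeeze_zero_norm' ?_ t0
  filter_upwards [eventually_gt_atTop i] with j hj
  have h3 := h2 j _ (mem_image_of_mem u (mem_range.2 hj))
  have hc : (0 : ℝ) < (A j).card := by exact_mod_cast (h1 j).card_pos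
  set A1 := (A j).filter fun b => u i + b ∈ A j with hA1
  set A2 := A1.image fun b => u i + b with hA2
  have s1 : A1 ⊆ A j := filter_subset _ _
  have s2 : A2 ⊆ A j := fun x hx => by
    obtain ⟨b, hb, rfl⟩ := mem_image.1 hx
    exact (mem_filter.1 hb).2
  have c2 : A2.card = A1.card := card_image_of_injective _ (add_right_injective _)
  have e1 : ∑ x ∈ A2, g x = ∑ x ∈ A1, g (u i + x) := sum_image fun _ _ _ _ h => add_left_cancel h
  have bd : ∀ (B : Finset G) (g' : G → ℝ), B ⊆ A j → B.card = A1.card → (∀ x, |g' x| ≤ 1) →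
      |∑ x ∈ A j \ B, g' x| ≤ 1 / ((j : ℝ) + 1) * (A j).card := by
    intro B g' hB hB2 hg'
    refine (abs_sum_le_sum_abs _ _).trans ((sum_le_sum fun x _ => hg' x).trans ?_)
    have := card_sdiff_add_card_eq_card hB
    have : ((A j \ B).card : ℝ) + A1.card = (A j).card := by rw [← hB2]; exact_mod_cast this
    simp only [sum_const, nsmul_eq_mul, mul_one]
    linarith
  rw [← sub_div, Real.norm_eq_abs, abs_div, abs_of_pos hc, div_le_iff₀ hc, ← sum_sdiff s1,
    ← sum_sdiff (f := g) s2, e1, add_sub_add_right_eq_sub]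
  have b1 := bd A1 (fun x => g (u i + x)) s1 rfl fun _ => hg _
  have b2 := bd A2 g s2 c2 hg
  refine (abs_sub _ _).trans ?_
  linarith

lemma PD.lim {G : Type} [AddCommGroup G] {l : Filter ℕ} [l.NeBot] {φ : ℕ → G → ℝ} {ψ : G → ℝ}
    (h : ∀ v, Tendsto (fun j => φ j v) l (𝓝 (ψ v)))
    (hP : ∀ (ι : Type) [Fintype ι] (v : ι → G) (c : ι → ℂ), ∀ᶠ n in l,
      0 ≤ (∑ i, ∑ j, c i * conj (c j) * (φ n (v i - v j) : ℂ)).re) : PD ψ := by
  intro ι _ v c
  refine ge_of_tendsto (f := fun n => (∑ i, ∑ j, c i * conj (c j) * (φ n (v i - v j) : ℂ)).re) ?_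
    (hP ι v c)
  refine (continuous_re.tendsto _).comp (tendsto_finsetSum _ fun i _ => tendsto_finsetSum _ fun j _ =>
    Tendsto.const_mul _ ((continuous_ofReal.tendsto _).comp (h _)))

lemma hyp_le : (hyperfilter ℕ : Filter ℕ) ≤ atTop := by
  rw [← Nat.cofinite_eq_atTop]; exact hyperfilter_le_cofinite

theorem rat_case {ψ : ℚ × ℚ → ℝ} (hP : PD ψ) (hb : ∀ v, |ψ v| ≤ 1) {η : ℝ}
    (h : ∀ x : ℚ, x ≠ 0 → ψ (x, x⁻¹) = η) : 0 ≤ η := by
  have : Countable (Additive ℚˣ) := (Units.val_injective.comp Additive.toMul.injective).countable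
  obtain ⟨A, hA, hA2⟩ := folner_seq (Additive ℚˣ)
  set D : Additive ℚˣ → ℚ × ℚ → ℚ × ℚ := fun c v =>
    ((c.toMul : ℚ) * v.1, (c.toMul : ℚ)⁻¹ * v.2) with hD
  set φ : ℕ → ℚ × ℚ → ℝ := fun j v => (∑ c ∈ A j, ψ (D c v)) / (A j).card with hφ
  have hc : ∀ j, (0 : ℝ) < (A j).card := fun j => by exact_mod_cast (hA j).card_pos
  choose χ h1 h2 using fun v => exists_lim (hyperfilter ℕ) (fun j => φ j v) fun j => by
    simp only [hφ]
    rw [abs_div, abs_of_pos (hc j), div_le_one (hc j)]
    exact (abs_sum_le_sum_abs _ _).trans ((sum_le_sum fun x _ => hb _).trans (by simp))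
  have p1 : PD χ := PD.lim h2 fun ι _ v c => Eventually.of_forall fun n => by
    have : ∑ i, ∑ j, c i * conj (c j) * (φ n (v i - v j) : ℂ) = (((A n).card : ℝ)⁻¹ : ℝ) *
        ∑ x ∈ A n, ∑ i, ∑ j, c i * conj (c j) * (ψ (D x (v i) - D x (v j)) : ℂ) := by
      rw [sum_comm (s := A n), mul_sum]
      refine sum_congr rfl fun i _ => ?_
      rw [sum_comm (s := A n), mul_sum]
      refine sum_congr rfl fun j _ => ?_
      simp only [hφ, hD, Prod.mk_sub_mk, ← mul_sub, Prod.fst_sub, Prod.snd_sub, ← mul_sum]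
      push_cast; ring
    rw [this, re_ofReal_mul, re_sum]
    exact mul_nonneg (by positivity) (sum_nonneg fun x _ => hP ι _ c)
  have p2 : ∀ c x y : ℚ, c ≠ 0 → χ (c * x, c⁻¹ * y) = χ (x, y) := by
    intro c x y hc0
    have := (hA2 (Additive.ofMul (Units.mk0 c hc0)) (fun z => ψ (D z (x, y))) fun _ => hb _).mono_left
      hyp_le
    rw [← sub_eq_zero]
    refine tendsto_nhds_unique ((h2 _).sub (h2 _)) (this.congr fun j => ?_)
    simp only [hφ, hD, toMul_add, toMul_ofMul, Units.val_mul, Units.val_mk0, mul_inv]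
    congr 2
    exact sum_congr rfl fun _ _ => by congr 2 <;> ring
  have p3 : χ (1, 1) = η := by
    refine tendsto_nhds_unique (h2 _) (tendsto_const_nhds.congr fun j => ?_)
    simp only [hφ, hD, mul_one]
    rw [sum_congr rfl fun c _ => h _ (Units.ne_zero _), sum_const, nsmul_eq_mul]
    have := hc j
    field_simp
  rw [← p3]
  exact inv_case p1 h1 p2

theorem int_case {ψ : ℤ × ℤ → ℝ} (hP : PD ψ) (hb : ∀ v, |ψ v| ≤ 1) {η : ℝ}
    (h : ∀ M : ℕ, 0 < M → ∃ n : ℤ, ∀ a b : ℤ, a * b = n * M ^ 2 → ψ (a, b) = η) : 0 ≤ η := by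
  choose n hn using fun j : ℕ => h j.factorial (Nat.factorial_pos j)
  set τ : ℕ → ℚ × ℚ → ℤ × ℤ := fun j v => (n j * ⌊j.factorial * v.1⌋, ⌊j.factorial * v.2⌋) with hτ
  have ev : ∀ x : ℚ, ∀ᶠ j : ℕ in hyperfilter ℕ, ((⌊j.factorial * x⌋ : ℤ) : ℚ) = j.factorial * x := by
    intro x
    refine hyp_le ?_
    filter_upwards [eventually_ge_atTop x.den] with j hj
    obtain ⟨k, hk⟩ := Nat.dvd_factorial x.pos hj
    have : (j.factorial : ℚ) * x = (k * x.num : ℤ) := by
      rw [hk]; push_cast; rw [mul_comm (x.den : ℚ), mul_assoc, Rat.den_mul_eq_num]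
    show ((⌊j.factorial * x⌋ : ℤ) : ℚ) = j.factorial * x
    rw [this, Int.floor_intCast]
  choose χ h1 h2 using fun v => exists_lim (hyperfilter ℕ) (fun j => ψ (τ j v)) fun j => hb _
  refine rat_case (ψ := χ) (PD.lim h2 fun ι _ v c => ?_) h1 fun x hx => ?_
  · filter_upwards [eventually_all.2 fun i => ev (v i).1, eventually_all.2 fun i => ev (v i).2]
      with j a1 a2
    have : ∀ i i', τ j (v i - v i') = τ j (v i) - τ j (v i') := by
      intro i i'
      simp only [hτ, Prod.mk_sub_mk, Prod.fst_sub, Prod.snd_sub, mul_sub]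
      rw [← a1 i, ← a1 i', ← a2 i, ← a2 i', ← Int.cast_sub, ← Int.cast_sub]
      simp only [Int.floor_intCast, mul_sub]
    simp only [this]
    exact hP ι _ c
  · refine tendsto_nhds_unique (h2 _) (tendsto_const_nhds.congr' ?_)
    filter_upwards [ev x, ev x⁻¹] with j a1 a2
    refine (hn j _ _ ?_).symm
    apply Int.cast_injective (α := ℚ)
    push_cast
    rw [a1, a2]
    field_simp

/-- average over a rectangle -/
noncomputable def av (a b : ℤ) (m n : ℕ) (g : ℤ × ℤ → ℝ) : ℝ :=
  (∑ x ∈ range m, ∑ y ∈ range n, g (a + x, b + y)) / (m * n)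

lemma av_bd {a b : ℤ} {m n : ℕ} {g : ℤ × ℤ → ℝ} (h : ∀ v, |g v| ≤ 1) : |av a b m n g| ≤ 1 := by
  unfold av
  rw [abs_div, abs_of_nonneg (a := (m * n : ℝ)) (by positivity)]
  refine div_le_one_of_le₀ ?_ (by positivity)
  refine (abs_sum_le_sum_abs _ _).trans ((sum_le_sum fun x _ => (abs_sum_le_sum_abs _ _).trans
    (sum_le_sum fun y _ => h _)).trans (by simp))

lemma av_shift {a b : ℕ → ℤ} {m n : ℕ → ℕ} (hm : ∀ N, N ≤ m N) (hn : ∀ N, N ≤ n N) (w : ℤ × ℤ) :
    ∀ g : ℤ × ℤ → ℝ, (∀ v, |g v| ≤ 1) → Tendsto (fun N => av (a N) (b N) (m N) (n N)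
      (fun v => g (v + w)) - av (a N) (b N) (m N) (n N) g) atTop (𝓝 0) := by
  set P : ℤ × ℤ → Prop := fun w => ∀ g : ℤ × ℤ → ℝ, (∀ v, |g v| ≤ 1) →
    Tendsto (fun N => av (a N) (b N) (m N) (n N) (fun v => g (v + w)) -
      av (a N) (b N) (m N) (n N) g) atTop (𝓝 0) with hPd
  have add : ∀ w w', P w → P w' → P (w + w') := by
    intro w w' h1 h2 g hg
    have := (h1 (fun v => g (v + w')) fun _ => hg _).add (h2 g hg)
    simpa [add_assoc] using this
  have neg : ∀ w, P w → P (-w) := by
    intro w h1 g hg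
    have := (h1 (fun v => g (v + -w)) fun _ => hg _).neg
    simpa using this
  have t0 : Tendsto (fun N : ℕ => (2 : ℝ) / N) atTop (𝓝 0) := tendsto_const_div_atTop_nhds_zero_nat 2
  have p1 : P (1, 0) := by
    intro g hg
    refine squeeze_zero_norm' ?_ t0
    filter_upwards [eventually_gt_atTop 0] with N hN
    have a1 : (N : ℝ) ≤ m N := by exact_mod_cast hm N
    have a2 : (N : ℝ) ≤ n N := by exact_mod_cast hn N
    have a3 : (0 : ℝ) < N := by exact_mod_cast hN
    have a4 : (0 : ℝ) < m N * n N := mul_pos (by linarith) (by linarith)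
    unfold av
    rw [← sub_div, sum_comm, sum_comm (s := range (m N)), ← sum_sub_distrib, Real.norm_eq_abs,
      abs_div, abs_of_pos a4, div_le_div_iff₀ a4 a3]
    have : ∀ y ∈ range (n N), |∑ x ∈ range (m N), g ((a N + x, b N + y) + (1, 0)) -
        ∑ x ∈ range (m N), g (a N + x, b N + y)| ≤ 2 := by
      intro y _
      have := sum_range_sub (fun x : ℕ => g (a N + x, b N + y)) (m N)
      rw [sum_sub_distrib] at this
      simp only [Prod.mk_add_mk, add_zero, add_assoc]
      push_cast at this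
      rw [this]
      exact (abs_sub _ _).trans (by linarith [hg (a N + m N, b N + y), hg (a N + 0, b N + y)])
    have := (abs_sum_le_sum_abs _ _).trans (sum_le_sum this)
    simp only [sum_const, card_range, nsmul_eq_mul] at this
    nlinarith [mul_le_mul_of_nonneg_right this a3.le]
  have p2 : P (0, 1) := by
    intro g hg
    refine squeeze_zero_norm' ?_ t0
    filter_upwards [eventually_gt_atTop 0] with N hN
    have a1 : (N : ℝ) ≤ m N := by exact_mod_cast hm N
    have a2 : (N : ℝ) ≤ n N := by exact_mod_cast hn N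
    have a3 : (0 : ℝ) < N := by exact_mod_cast hN
    have a4 : (0 : ℝ) < m N * n N := mul_pos (by linarith) (by linarith)
    unfold av
    rw [← sub_div, ← sum_sub_distrib, Real.norm_eq_abs,
      abs_div, abs_of_pos a4, div_le_div_iff₀ a4 a3]
    have : ∀ x ∈ range (m N), |∑ y ∈ range (n N), g ((a N + x, b N + y) + (0, 1)) -
        ∑ y ∈ range (n N), g (a N + x, b N + y)| ≤ 2 := by
      intro x _
      have := sum_range_sub (fun y : ℕ => g (a N + x, b N + y)) (n N)
      rw [sum_sub_distrib] at this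
      simp only [Prod.mk_add_mk, add_zero, add_assoc]
      push_cast at this
      rw [this]
      exact (abs_sub _ _).trans (by linarith [hg (a N + x, b N + n N), hg (a N + x, b N + 0)])
    have := (abs_sum_le_sum_abs _ _).trans (sum_le_sum this)
    simp only [sum_const, card_range, nsmul_eq_mul] at this
    nlinarith [mul_le_mul_of_nonneg_right this a3.le]
  have p0 : P 0 := fun g _ => by simp
  have sm : ∀ w, P w → ∀ k : ℤ, P (k • w) := by
    intro w hw k
    induction k using Int.induction_on with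
    | zero => simpa using p0
    | succ k ih => rw [add_smul, one_smul]; exact add _ _ ih hw
    | pred k ih => rw [sub_smul, one_smul, sub_eq_add_neg]; exact add _ _ ih (neg _ hw)
  have := add _ _ (sm _ p1 w.1) (sm _ p2 w.2)
  have e : w.1 • ((1, 0) : ℤ × ℤ) + w.2 • ((0, 1) : ℤ × ℤ) = w := by ext <;> simp
  rw [e] at this
  exact this

theorem dens (A : Set (ℤ × ℤ)) {ε : ℝ} (hε : 0 < ε) {a b : ℕ → ℤ} {m n : ℕ → ℕ}
    (hm : ∀ N, N ≤ m N) (hn : ∀ N, N ≤ n N)
    (hA : ∀ N, 0 < N → ε ≤ av (a N) (b N) (m N) (n N) (A.indicator 1)) :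
    ∃ M : ℕ, 0 < M ∧ ∀ k : ℤ, ∃ p ∈ A, ∃ q ∈ A, (p.1 - q.1) * (p.2 - q.2) = k * M ^ 2 := by
  classical
  by_contra hc
  push Not at hc
  set f : ℤ × ℤ → ℝ := A.indicator 1 with hf
  have f01 : ∀ v, f v = 0 ∨ f v = 1 := fun v => by
    by_cases h : v ∈ A <;> simp [hf, h]
  have fb : ∀ v, |f v| ≤ 1 := fun v => by rcases f01 v with h | h <;> simp [h]
  set E : ℕ → (ℤ × ℤ → ℝ) → ℝ := fun N => av (a N) (b N) (m N) (n N) with hE
  obtain ⟨δ, d1, d2⟩ := exists_lim (hyperfilter ℕ) (fun N => E N f) fun N => av_bd fb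
  have d3 : ε ≤ δ := ge_of_tendsto d2 (hyp_le ((eventually_gt_atTop 0).mono hA))
  have sh : ∀ (g : ℤ × ℤ → ℝ) (r : ℝ) (w : ℤ × ℤ), (∀ v, |g v| ≤ 1) →
      Tendsto (fun N => E N g) (hyperfilter ℕ) (𝓝 r) →
      Tendsto (fun N => E N fun v => g (v + w)) (hyperfilter ℕ) (𝓝 r) := by
    intro g r w hg h
    simpa [hE] using ((av_shift (a := a) (b := b) hm hn w g hg).mono_left hyp_le).add h
  set h : ℤ × ℤ → ℝ := fun v => f v - δ with hh
  have hb : ∀ v, |h v| ≤ 1 := fun v => by
    have := abs_le.1 d1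
    rw [abs_le]
    rcases f01 v with h' | h' <;> simp only [hh, h'] <;> constructor <;> linarith
  have hb2 : ∀ w v, |h v * h (v + w)| ≤ 1 := fun w v => by
    rw [abs_mul]; exact mul_le_one₀ (hb _) (abs_nonneg _) (hb _)
  choose ψ h1 h2 using fun w => exists_lim (hyperfilter ℕ) (fun N => E N fun v => h v * h (v + w))
    fun N => av_bd (hb2 w)
  have p1 : PD ψ := by
    intro ι _ v c
    refine ge_of_tendsto (f := fun N => (∑ i, ∑ j, c i * conj (c j) *
      ((E N fun u => h (u + v j) * h (u + v i) : ℝ) : ℂ)).re) (x := hyperfilter ℕ) ?_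
      (Eventually.of_forall fun N => ?_)
    · refine (continuous_re.tendsto _).comp (tendsto_finsetSum _ fun i _ =>
        tendsto_finsetSum _ fun j _ => Tendsto.const_mul _ ((continuous_ofReal.tendsto _).comp ?_))
      simpa using sh _ _ (v j) (hb2 _) (h2 (v i - v j))
    · have : ∑ i, ∑ j, c i * conj (c j) * ((E N fun u => h (u + v j) * h (u + v i) : ℝ) : ℂ) =
          ((av (a N) (b N) (m N) (n N) fun u => normSq (∑ i, c i * h (u + v i)) : ℝ) : ℂ) := by
        simp only [hE, av]
        push_cast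
        simp only [← mul_conj, map_sum, map_mul, conj_ofReal]
        simp only [sum_mul_sum]
        simp only [sum_div, mul_sum]
        refine Eq.trans (sum_congr rfl fun i _ => sum_comm) (sum_comm.trans ?_)
        refine sum_congr rfl fun x _ => ?_
        refine Eq.trans (sum_congr rfl fun i _ => sum_comm) (sum_comm.trans ?_)
        exact sum_congr rfl fun y _ => sum_congr rfl fun i _ => sum_congr rfl fun j _ => by ring
      rw [this, ofReal_re]
      exact div_nonneg (sum_nonneg fun _ _ => sum_nonneg fun _ _ => normSq_nonneg _) (by positivity)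
  have : 0 ≤ -δ ^ 2 := by
    refine int_case p1 h1 fun M hM => ?_
    obtain ⟨k, hk⟩ := hc M hM
    refine ⟨k, fun x y hxy => tendsto_nhds_unique (h2 _) ?_⟩
    have t := ((d2.const_mul δ).add ((sh f δ (x, y) fb d2).const_mul δ)).const_sub (δ ^ 2)
    rw [show δ ^ 2 - (δ * δ + δ * δ) = -δ ^ 2 by ring] at t
    refine t.congr' (hyp_le ((eventually_gt_atTop 0).mono fun N hN => ?_))
    have e : ∀ v, h v * h (v + (x, y)) = δ ^ 2 - (δ * f v + δ * f (v + (x, y))) := by
      intro v
      have : f v * f (v + (x, y)) = 0 := by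
        by_cases h1 : v ∈ A
        · by_cases h2 : v + (x, y) ∈ A
          · exact absurd (by simpa using hxy) (hk _ h2 _ h1)
          · simp [hf, h2]
        · simp [hf, h1]
      simp only [hh]; linear_combination this
    have a1 : (0 : ℝ) < m N := by exact_mod_cast lt_of_lt_of_le hN (hm N)
    have a2 : (0 : ℝ) < n N := by exact_mod_cast lt_of_lt_of_le hN (hn N)
    simp only [hE, av, e, sum_sub_distrib, sum_add_distrib, ← mul_sum, sum_const, card_range,
      nsmul_eq_mul]
    field_simp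
  nlinarith

end Pool.Agent.H49.FI
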