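import Pool.Agent.H49.GIDefs

/-! Oxtoby's lemma; the action on sets of finite measure; the weak topology is a group topology. -/

set_option autoImplicit false

namespace Pool.Agent.H49.GI

open MeasureTheory Set Filter Topology
open scoped Classical

lemma maxfam {X σ : Type} [TopologicalSpace X] (V : σ → Set X) (C : Set σ)
    (h : ∀ O, IsOpen O → O.Nonempty → ∃ s ∈ C, (V s).Nonempty ∧ V s ⊆ O) :
    ∃ F ⊆ C, F.PairwiseDisjoint V ∧ Dense (⋃ s ∈ F, V s) := by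
  obtain ⟨F, hF⟩ := zorn_subset {F | F ⊆ C ∧ F.PairwiseDisjoint V} fun c hc hch =>
    ⟨⋃₀ c, ⟨sUnion_subset fun F hF => (hc hF).1,
      (pairwiseDisjoint_sUnion hch.directedOn).2 fun F hF => (hc hF).2⟩,
      fun F hF => subset_sUnion_of_mem hF⟩
  refine ⟨F, hF.prop.1, hF.prop.2, dense_iff_inter_open.2 fun O hO hne => ?_⟩
  by_contra hc
  obtain ⟨s, h1, h2, h3⟩ := h O hO hne
  have h4 : ∀ s' ∈ F, Disjoint (V s) (V s') := fun s' hs' => disjoint_left.2 fun x hx hx' =>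
    hc ⟨x, h3 hx, mem_biUnion hs' hx'⟩
  have h5 : s ∈ F := hF.le_of_ge (y := insert s F) ⟨insert_subset h1 hF.prop.1,
    hF.prop.2.insert fun s' hs' _ => h4 s' hs'⟩ (subset_insert _ _) (mem_insert _ _)
  exact h2.ne_empty (disjoint_self.1 (h4 s h5))

theorem oxtoby {X σ : Type} [TopologicalSpace X] (V : σ → Set X) (P : ℕ → σ → Prop)
    (Rl : ℕ → σ → σ → Prop) {A : Set X} (hV : ∀ k s, P k s → IsOpen (V s))
    (h0 : ∀ O, IsOpen O → O.Nonempty → ∃ s, P 0 s ∧ (V s).Nonempty ∧ V s ⊆ O)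
    (h1 : ∀ k s, P k s → ∀ O, IsOpen O → O.Nonempty → O ⊆ V s →
      ∃ s', P (k + 1) s' ∧ Rl k s s' ∧ (V s').Nonempty ∧ V s' ⊆ O)
    (h2 : ∀ s : ℕ → σ, (∀ k, P k (s k)) → (∀ k, Rl k (s k) (s (k + 1))) →
      ∀ x, (∀ k, x ∈ V (s k)) → x ∈ A) : A ∈ residual X := by
  let Q : ℕ → Set σ → Prop := fun k F => (∀ s ∈ F, P k s) ∧ F.PairwiseDisjoint V ∧
    Dense (⋃ s ∈ F, V s)
  obtain ⟨F0, a0, b0⟩ := maxfam V {s | P 0 s} h0
  have st : ∀ k (F : {F // Q k F}), ∃ F', Q (k + 1) F' ∧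
      ∀ s' ∈ F', ∃ s ∈ F.1, Rl k s s' ∧ V s' ⊆ V s := fun k F => by
    obtain ⟨F', a, b⟩ := maxfam V {s' | P (k + 1) s' ∧ ∃ s ∈ F.1, Rl k s s' ∧ V s' ⊆ V s}
      fun O hO hne => by
        obtain ⟨x, hx, hx'⟩ := F.2.2.2.inter_open_nonempty O hO hne
        obtain ⟨s, hs, hx'⟩ := mem_iUnion₂.1 hx'
        obtain ⟨s', c1, c2, c3, c4⟩ := h1 k s (F.2.1 s hs) (O ∩ V s)
          (hO.inter (hV k s (F.2.1 s hs))) ⟨x, hx, hx'⟩ inter_subset_right
        exact ⟨s', ⟨c1, s, hs, c2, c4.trans inter_subset_right⟩, c3, c4.trans inter_subset_left⟩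
    exact ⟨F', ⟨fun s hs => (a hs).1, b⟩, fun s hs => (a hs).2⟩
  choose nx n1 n2 using st
  let F : ∀ k, {F // Q k F} := fun k => Nat.rec ⟨F0, a0, b0⟩ (fun k F => ⟨nx k F, n1 k F⟩) k
  refine mem_of_superset ((countable_iInter_mem (s := fun k => ⋃ s ∈ (F k).1, V s)).2 fun k =>
    residual_of_dense_open (isOpen_biUnion fun s hs => hV k s ((F k).2.1 s hs)) (F k).2.2.2)
    fun x hx => ?_
  choose s hs hx using fun k => mem_iUnion₂.1 (mem_iInter.1 hx k)
  refine h2 s (fun k => (F k).2.1 _ (hs k)) (fun k => ?_) x hx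
  obtain ⟨s', c1, c2, c3⟩ := n2 k (F k) _ (hs (k + 1))
  rwa [(F k).2.2.1.elim_set (hs k) c1 x (hx k) (c3 (hx (k + 1)))]

/-- measurable sets of finite measure -/
structure M where
  val : Set ℝ
  property : MeasurableSet val ∧ volume val ≠ ⊤

lemma sd_ne (A B : M) : volume (symmDiff A.1 B.1) ≠ ⊤ :=
  ne_top_of_le_ne_top (measure_union_lt_top A.2.2.lt_top B.2.2.lt_top).ne
    (measure_mono symmDiff_le_sup)

noncomputable instance : PseudoMetricSpace M where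
  dist A B := volume.real (symmDiff A.1 B.1)
  dist_self A := by simp
  dist_comm A B := by rw [symmDiff_comm]
  dist_triangle A B C := (measureReal_mono (symmDiff_triangle _ B.1 _)
    (measure_union_lt_top (sd_ne A B).lt_top (sd_ne B C).lt_top).ne).trans (measureReal_union_le _ _)

lemma dist_def (A B : M) : dist A B = volume.real (symmDiff A.1 B.1) := rfl

lemma dist_lt (A B : M) (δ : ℝ) : volume (symmDiff A.1 B.1) < ENNReal.ofReal δ ↔ dist A B < δ :=
  ENNReal.lt_ofReal_iff_toReal_lt (sd_ne A B)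

lemma dist_zero {A B : M} : dist A B = 0 ↔ A.1 =ᵐ[volume] B.1 := by
  rw [dist_def, measureReal_eq_zero_iff (sd_ne A B), measure_symmDiff_eq_zero_iff]

def pre (f : ℝ → ℝ) (hf : MeasurePreserving f volume volume) (A : M) : M :=
  ⟨f ⁻¹' A.1, hf.measurable A.2.1, by rw [hf.measure_preimage A.2.1.nullMeasurableSet]; exact A.2.2⟩

lemma dist_pre {f : ℝ → ℝ} (hf : MeasurePreserving f volume volume) (A B : M) :
    dist (pre f hf A) (pre f hf B) = dist A B :=
  congrArg ENNReal.toReal (by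
    rw [← hf.measure_preimage (A.2.1.symmDiff B.2.1).nullMeasurableSet, preimage_symmDiff]; rfl)

instance : MulAction Aut M where
  smul T A := pre T.1.symm T.2.2 A
  one_smul _ := rfl
  mul_smul _ _ _ := rfl

lemma smul_def (T : Aut) (A : M) : T • A = pre T.1.symm T.2.2 A := rfl

lemma inv_smul (T : Aut) (A : M) : T⁻¹ • A = pre T.1 T.2.1 A := rfl

lemma ds (T : Aut) (A B : M) : dist (T • A) (T • B) = dist A B := dist_pre _ _ _

lemma ds_inv (S T : Aut) (A : M) : dist (S⁻¹ • A) (T⁻¹ • A) = dist (S • T⁻¹ • A) (T • T⁻¹ • A) := by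
  rw [← ds S, smul_inv_smul, smul_inv_smul, dist_comm]

noncomputable def sz (A : M) : ℝ := volume.real A.1

lemma sz_nonneg (A : M) : 0 ≤ sz A := measureReal_nonneg

lemma dist_le_sz (T : Aut) (A B : M) : dist (T • A) B ≤ sz A + sz B := by
  refine (measureReal_mono symmDiff_le_sup (measure_union_lt_top (T • A).2.2.lt_top
    B.2.2.lt_top).ne).trans ((measureReal_union_le _ _).trans (le_of_eq ?_))
  exact congrArg (· + sz B) (congrArg ENNReal.toReal
    (T.2.2.measure_preimage A.2.1.nullMeasurableSet))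

def Bl (T : Aut) (F : Finset M) (δ : ℝ) : Set Aut := {S | ∀ A ∈ F, dist (S • A) (T • A) < δ}

lemma img (T : Aut) (A : M) : T.1 '' A.1 = (T • A).1 := T.1.image_eq_preimage_symm _

lemma open_Bl (T : Aut) (F : Finset M) {δ : ℝ} (h : 0 < δ) : IsOpen (Bl T F δ) := by
  have : Bl T F δ = ⋂ A ∈ F, {S : Aut | volume (symmDiff (S.1 '' A.1) (T.1 '' A.1)) <
      ENNReal.ofReal δ} := by
    ext S; simp only [Bl, mem_ofPred_eq, mem_iInter, img, dist_lt]
  rw [this]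
  exact isOpen_biInter_finset fun A _ => TopologicalSpace.GenerateOpen.basic _
    ⟨T, A.1, δ, A.2.1, A.2.2, h, .inl rfl⟩

lemma mem_Bl (T : Aut) (F : Finset M) {δ : ℝ} (h : 0 < δ) : T ∈ Bl T F δ := fun A _ => by simpa

lemma nbhd {V : Set Aut} (hV : IsOpen V) : ∀ T ∈ V, ∃ (F : Finset M) (δ : ℝ), 0 < δ ∧
    Bl T F δ ⊆ V := by
  induction hV with
  | basic U hU =>
    obtain ⟨T₀, A, δ, a, b, -, rfl | rfl⟩ := hU
    · intro T hT
      have e : ∀ S : Aut, volume (symmDiff (S.1 '' A) (T₀.1 '' A)) < ENNReal.ofReal δ ↔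
          dist (S • (⟨A, a, b⟩ : M)) (T₀ • (⟨A, a, b⟩ : M)) < δ := fun S => by
        rw [← dist_lt, ← img, ← img]
      have h1 := (e T).1 hT
      refine ⟨{⟨A, a, b⟩}, _, sub_pos.2 h1, fun S hS => (e S).2 ?_⟩
      linarith [hS _ (Finset.mem_singleton_self _),
        dist_triangle (S • (⟨A, a, b⟩ : M)) (T • (⟨A, a, b⟩ : M)) (T₀ • (⟨A, a, b⟩ : M))]
    · intro T hT
      have e : ∀ S : Aut, volume (symmDiff (S.1 ⁻¹' A) (T₀.1 ⁻¹' A)) < ENNReal.ofReal δ ↔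
          dist (S⁻¹ • (⟨A, a, b⟩ : M)) (T₀⁻¹ • (⟨A, a, b⟩ : M)) < δ := fun S => dist_lt (S⁻¹ • (⟨A, a, b⟩ : M))
            (T₀⁻¹ • (⟨A, a, b⟩ : M)) δ
      have h1 := (e T).1 hT
      refine ⟨{T⁻¹ • (⟨A, a, b⟩ : M)}, _, sub_pos.2 h1, fun S hS => (e S).2 ?_⟩
      linarith [hS _ (Finset.mem_singleton_self _), ds_inv S T ⟨A, a, b⟩,
        dist_triangle (S⁻¹ • (⟨A, a, b⟩ : M)) (T⁻¹ • (⟨A, a, b⟩ : M)) (T₀⁻¹ • (⟨A, a, b⟩ : M))]
  | univ => exact fun T _ => ⟨∅, 1, one_pos, subset_univ _⟩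
  | inter U U' _ _ ih ih' =>
    intro T hT
    obtain ⟨F, δ, a, c⟩ := ih T hT.1
    obtain ⟨F', δ', a', c'⟩ := ih' T hT.2
    refine ⟨F ∪ F', min δ δ', lt_min a a', fun S hS => ⟨c fun A hA => ?_, c' fun A hA => ?_⟩⟩
    · exact (hS A (Finset.mem_union_left _ hA)).trans_le (min_le_left _ _)
    · exact (hS A (Finset.mem_union_right _ hA)).trans_le (min_le_right _ _)
  | sUnion s _ ih =>
    rintro T ⟨U, hU, hT⟩
    obtain ⟨F, δ, a, c⟩ := ih U hU T hT
    exact ⟨F, δ, a, fun S hS => ⟨U, hU, c hS⟩⟩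

lemma tendsto_iff {ι : Type} {l : Filter ι} {f : ι → Aut} {T : Aut} :
    Tendsto f l (𝓝 T) ↔ ∀ A : M, Tendsto (fun i => dist (f i • A) (T • A)) l (𝓝 0) := by
  refine ⟨fun h A => ?_, fun h => tendsto_nhds.2 fun V hV hT => ?_⟩
  · refine tendsto_iff_dist_tendsto_zero.1 (Metric.tendsto_nhds.2 fun δ hδ => ?_)
    filter_upwards [h.eventually ((open_Bl T {A} hδ).mem_nhds (mem_Bl T _ hδ))] with i hi
    exact hi A (Finset.mem_singleton_self _)
  · obtain ⟨F, δ, a, c⟩ := nbhd hV T hT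
    exact mem_of_superset ((eventually_all_finset F).2 fun A _ => (h A).eventually (gt_mem_nhds a))
      fun i hi => c hi

instance : IsTopologicalGroup Aut where
  continuous_mul := continuous_iff_continuousAt.2 fun p => tendsto_iff.2 fun A => by
    have a := tendsto_iff.1 (continuous_fst.tendsto p) (p.2 • A)
    have b := tendsto_iff.1 (continuous_snd.tendsto p) A
    refine squeeze_zero (fun _ => dist_nonneg) (fun q => ?_) (by simpa using b.add a)
    rw [mul_smul, mul_smul, ← ds q.1 (q.2 • A)]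
    exact dist_triangle _ _ _
  continuous_inv := continuous_iff_continuousAt.2 fun T => tendsto_iff.2 fun A => by
    simp only [ds_inv]
    exact tendsto_iff.1 tendsto_id _

def Eqv (S T : Aut) : Prop := ∀ A : M, dist (S • A) (T • A) = 0

lemma eqv_of {ι : Type} {l : Filter ι} [l.NeBot] {f g : ι → Aut} {S T : Aut}
    (hf : Tendsto f l (𝓝 S)) (hg : Tendsto g l (𝓝 T))
    (h : ∀ A : M, Tendsto (fun i => dist (f i • A) (g i • A)) l (𝓝 0)) : Eqv S T := fun A => by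
  refine le_antisymm (ge_of_tendsto' (f := fun i => dist (f i • A) (S • A) +
    dist (f i • A) (g i • A) + dist (g i • A) (T • A)) (x := l) ?_ fun i => ?_) dist_nonneg
  · simpa using ((tendsto_iff.1 hf A).add (h A)).add (tendsto_iff.1 hg A)
  · rw [dist_comm (f i • A)]; exact dist_triangle4 _ _ _ _

noncomputable def J (p : ℚ × ℚ) : M := ⟨Icc p.1 p.2, measurableSet_Icc, by simp⟩

lemma ae_of_J {u v : ℝ → ℝ} (h : ∀ p, u ⁻¹' (J p).1 =ᵐ[volume] v ⁻¹' (J p).1) : u =ᵐ[volume] v := by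
  filter_upwards [ae_all_iff.2 h] with t ht
  have key : ∀ {a b : ℝ}, (∀ p, a ∈ (J p).1 → b ∈ (J p).1) → b ≤ a := fun {a b} h =>
    not_lt.1 fun hc => by
      obtain ⟨q, q1, q2⟩ := exists_rat_btwn hc
      obtain ⟨p, p1⟩ := exists_rat_lt a
      exact (h (p, q) ⟨p1.le, q1.le⟩).2.not_gt q2
  exact le_antisymm (key fun p => (ht p).symm.mp) (key fun p => (ht p).mp)

lemma Eqv.ae {S T : Aut} (h : Eqv S T) : AeEq S T := ae_of_J fun p =>
  (dist_zero (A := S⁻¹ • J p) (B := T⁻¹ • J p)).1 ((ds_inv S T _).trans (h _))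

end Pool.Agent.H49.GI
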