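import Pool.Agent.H49.GI1

/-! Approximation by intervals and completeness. -/

set_option autoImplicit false

namespace Pool.Agent.H49.GI

open MeasureTheory Set Filter Topology
open scoped Classical

lemma np (n : ℕ+) : (0 : ℝ) < (n : ℕ) := Nat.cast_pos.2 n.pos

lemma fl_iff (n : ℕ+) (t : ℝ) (k : ℤ) :
    ⌊((n : ℕ) : ℝ) * t⌋ = k ↔ t ∈ Ico ((k : ℝ) / (n : ℕ)) ((k + 1) / (n : ℕ)) := by
  rw [Int.floor_eq_iff, mem_Ico, div_le_iff₀' (np n), lt_div_iff₀' (np n)]

lemma meas_fl (n : ℕ+) : Measurable fun t : ℝ => ⌊((n : ℕ) : ℝ) * t⌋ :=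
  Int.measurable_floor.comp (measurable_id.const_mul _)

noncomputable def Iv (n : ℕ+) (D : Finset ℤ) : M :=
  ⟨{t | ⌊((n : ℕ) : ℝ) * t⌋ ∈ D}, meas_fl n (MeasurableSet.of_discrete (s := (D : Set ℤ))),
    ne_top_of_le_ne_top (measure_biUnion_lt_top D.finite_toSet
      (f := fun k : ℤ => Ico ((k : ℝ) / (n : ℕ)) ((k + 1) / (n : ℕ))) fun k _ => by simp).ne
      (measure_mono fun t ht => mem_biUnion ht ((fl_iff n t _).1 rfl))⟩

lemma app (A : M) {ε : ℝ} (hε : 0 < ε) :
    ∃ N : ℕ, ∀ n : ℕ+, N ≤ n → ∃ D, dist A (Iv n D) ≤ ε := by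
  obtain ⟨C, h1, h2, h3⟩ := A.2.1.exists_isCompact_sdiff_lt A.2.2
    (ε := ENNReal.ofReal (ε / 2)) (by simpa using hε)
  have h4 := (ENNReal.tendsto_toReal h2.measure_lt_top.ne).comp
    ((tendsto_measure_cthickening_of_isCompact (μ := volume) h2).comp
      tendsto_one_div_atTop_nhds_zero_nat)
  obtain ⟨N, hN⟩ := eventually_atTop.1 (h4.eventually
    (gt_mem_nhds (lt_add_of_pos_right _ (half_pos hε))))
  refine ⟨N, fun n hn => ?_⟩
  obtain ⟨R, hR⟩ := h2.isBounded.subset_closedBall 0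
  have hf : ((fun s : ℝ => ⌊((n : ℕ) : ℝ) * s⌋) '' C).Finite :=
    (finite_Icc ⌊((n : ℕ) : ℝ) * -R⌋ ⌊((n : ℕ) : ℝ) * R⌋).subset (by
      rintro _ ⟨s, hs, rfl⟩
      have := abs_le.1 (mem_closedBall_zero_iff.1 (hR hs))
      exact ⟨Int.floor_mono (mul_le_mul_of_nonneg_left this.1 (np n).le),
        Int.floor_mono (mul_le_mul_of_nonneg_left this.2 (np n).le)⟩)
  refine ⟨hf.toFinset, ?_⟩
  have h5 : volume.real (Metric.cthickening (1 / (n : ℕ)) C) < volume.real C + ε / 2 := hN n hn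
  have h0 := (h2.cthickening (r := 1 / (n : ℕ))).measure_lt_top (μ := volume)
  have h6 := measureReal_sdiff (μ := volume) (Metric.self_subset_cthickening (δ := 1 / (n : ℕ)) C)
    h2.measurableSet h0.ne
  have h7 : volume.real (A.1 \ C) < ε / 2 := ENNReal.toReal_lt_of_lt_ofReal h3
  refine (measureReal_mono (s₂ := (A.1 \ C) ∪ (Metric.cthickening (1 / (n : ℕ)) C \ C))
    (fun t ht => ?_) (measure_union_lt_top h3.lt_top
      ((measure_mono sdiff_subset).trans_lt h0)).ne).trans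
    ((measureReal_union_le _ _).trans (by linarith))
  rcases ht with ⟨a, b⟩ | ⟨a, b⟩
  · exact .inl ⟨a, fun hc => b (hf.mem_toFinset.2 ⟨t, hc, rfl⟩)⟩
  · obtain ⟨s, s1, s2⟩ := hf.mem_toFinset.1 a
    have c := (fl_iff n s _).1 s2
    have d := (fl_iff n t _).1 rfl
    refine .inr ⟨Metric.mem_cthickening_of_dist_le t s _ C s1 ?_, fun hc => b (h1 hc)⟩
    rw [add_div] at c d
    rw [Real.dist_eq]
    exact abs_le.2 ⟨by linarith [c.2, d.1], by linarith [c.1, d.2]⟩

lemma small_pre {ι : Type} {l : Filter ι} {u v : ι → ℝ → ℝ}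
    (hu : ∀ i, MeasurePreserving (u i) volume volume)
    (hv : ∀ i, MeasurePreserving (v i) volume volume)
    (h : ∀ p, Tendsto (fun i => dist (pre (u i) (hu i) (J p)) (pre (v i) (hv i) (J p))) l (𝓝 0))
    (A : M) : Tendsto (fun i => dist (pre (u i) (hu i) A) (pre (v i) (hv i) A)) l (𝓝 0) := by
  have cl : ∀ A : M, (∀ ε > 0, ∃ B, dist A B ≤ ε ∧
      Tendsto (fun i => dist (pre (u i) (hu i) B) (pre (v i) (hv i) B)) l (𝓝 0)) →
      Tendsto (fun i => dist (pre (u i) (hu i) A) (pre (v i) (hv i) A)) l (𝓝 0) := fun A hA => by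
    refine Metric.tendsto_nhds.2 fun ε hε => ?_
    obtain ⟨B, a, b⟩ := hA (ε / 3) (by positivity)
    filter_upwards [b.eventually (gt_mem_nhds (show 0 < ε / 3 by positivity))] with i hi
    have := dist_triangle4 (pre (u i) (hu i) A) (pre (u i) (hu i) B) (pre (v i) (hv i) B)
      (pre (v i) (hv i) A)
    rw [dist_pre, dist_pre, dist_comm B A] at this
    rw [Real.dist_eq, sub_zero, abs_of_nonneg dist_nonneg]
    linarith
  refine cl A fun ε hε => ?_
  obtain ⟨N, hN⟩ := app A hε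
  obtain ⟨D, hD⟩ := hN N.succPNat (Nat.le_succ N)
  refine ⟨_, hD, ?_⟩
  generalize N.succPNat = n
  clear hD
  have one : ∀ k, Tendsto (fun i => dist (pre (u i) (hu i) (Iv n {k}))
      (pre (v i) (hv i) (Iv n {k}))) l (𝓝 0) := fun k => cl _ fun ε hε =>
    ⟨J (k / (n : ℕ), (k + 1) / (n : ℕ)), (dist_zero.2 (by
      have : (Iv n {k}).1 = Ico ((k : ℝ) / (n : ℕ)) ((k + 1) / (n : ℕ)) := by
        ext t; rw [← fl_iff]; simp [Iv]
      rw [this]
      simpa [J] using Ico_ae_eq_Icc)).le.trans hε.le, h _⟩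
  refine squeeze_zero (fun _ => dist_nonneg) (fun i => ?_)
    (by simpa using tendsto_finsetSum D fun k _ => one k)
  refine le_trans (measureReal_mono (fun t ht => ?_) (measure_biUnion_lt_top D.finite_toSet
    fun k _ => (sd_ne (pre (u i) (hu i) (Iv n {k})) (pre (v i) (hv i) (Iv n {k}))).lt_top).ne)
    (measureReal_biUnion_finset_le D _)
  rcases ht with ⟨a, b⟩ | ⟨a, b⟩
  · exact mem_biUnion a (.inl ⟨Finset.mem_singleton_self _, fun hc =>
      b (by have := Finset.mem_singleton.1 hc; change _ ∈ D at a ⊢; rwa [this])⟩)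
  · exact mem_biUnion a (.inr ⟨Finset.mem_singleton_self _, fun hc =>
      b (by have := Finset.mem_singleton.1 hc; change _ ∈ D at a ⊢; rwa [this])⟩)

lemma small {ι : Type} {l : Filter ι} {f g : ι → Aut}
    (h : ∀ p, Tendsto (fun i => dist (f i • J p) (g i • J p)) l (𝓝 0)) (A : M) :
    Tendsto (fun i => dist (f i • A) (g i • A)) l (𝓝 0) :=
  small_pre (fun i => (f i).2.2) (fun i => (g i).2.2) h A

lemma limset (A : ℕ → M) (k0 : ℕ) (h : ∀ k ≥ k0, dist (A k) (A (k + 1)) ≤ (1 / 2) ^ k) :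
    ∃ E : M, Tendsto (fun k => dist (A k) E) atTop (𝓝 0) ∧
      ∀ᵐ t, ∀ᶠ k in atTop, (t ∈ (A k).1 ↔ t ∈ E.1) := by
  let E : Set ℝ := {t | ∀ᶠ k in atTop, t ∈ (A k).1}
  have mE : MeasurableSet E := by
    simp only [E, eventually_atTop, ofPred_exists, ofPred_forall]
    exact .iUnion fun _ => .iInter fun k => .iInter fun _ => (A k).2.1
  let D : ℕ → Set ℝ := fun k => ⋃ i, symmDiff (A (k + i)).1 (A (k + i + 1)).1
  have d1 : ∀ k ≥ k0, volume (D k) ≤ ENNReal.ofReal (2 * (1 / 2) ^ k) := fun k hk => by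
    refine (measure_iUnion_le _).trans ?_
    have hs : HasSum (fun i => (1 / 2 : ℝ) ^ k * (1 / 2) ^ i) ((1 / 2) ^ k * 2) :=
      hasSum_geometric_two.mul_left _
    rw [mul_comm, ← hs.tsum_eq, ENNReal.ofReal_tsum_of_nonneg (fun _ => by positivity) hs.summable]
    refine ENNReal.tsum_le_tsum fun i => ?_
    rw [← pow_add, ENNReal.le_ofReal_iff_toReal_le (sd_ne _ _) (by positivity)]
    exact h _ (by omega)
  have d2 : ∀ k t, t ∉ D k → ∀ l ≥ k, (t ∈ (A l).1 ↔ t ∈ E) := fun k t ht => by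
    have a : ∀ l ≥ k, (t ∈ (A l).1 ↔ t ∈ (A k).1) := fun l hl => by
      induction hl with
      | refl => rfl
      | step hl ih =>
        obtain ⟨i, rfl⟩ := Nat.exists_eq_add_of_le hl
        have := fun hc => ht (mem_iUnion.2 ⟨i, hc⟩)
        rw [mem_symmDiff] at this
        tauto
    intro l hl
    rw [a l hl]
    refine ⟨fun hk => eventually_atTop.2 ⟨k, fun l hl => (a l hl).2 hk⟩, fun hE => ?_⟩
    obtain ⟨m, m1, m2⟩ := ((eventually_ge_atTop k).and hE).exists
    exact (a m m1).1 m2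
  have d3 : ∀ k, symmDiff (A k).1 E ⊆ D k := fun k t ht => by_contra fun hc => by
    have := d2 k t hc k le_rfl
    rw [mem_symmDiff] at ht
    tauto
  have lim : Tendsto (fun k : ℕ => 2 * (1 / 2 : ℝ) ^ k) atTop (𝓝 0) := by
    simpa using (tendsto_pow_atTop_nhds_zero_of_lt_one (r := (1 / 2 : ℝ)) (by norm_num)
      (by norm_num)).const_mul 2
  refine ⟨⟨E, mE, ne_top_of_le_ne_top (measure_union_lt_top (A k0).2.2.lt_top
    ((d1 k0 le_rfl).trans_lt ENNReal.ofReal_lt_top)).ne (measure_mono fun t ht => ?_)⟩, ?_, ?_⟩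
  · exact (em (t ∈ D k0)).symm.imp_left fun hc => (d2 k0 t hc k0 le_rfl).2 ht
  · refine squeeze_zero' (Eventually.of_forall fun _ => dist_nonneg)
      ((eventually_ge_atTop k0).mono fun k hk => ?_) lim
    exact ENNReal.toReal_le_of_le_ofReal (by positivity) ((measure_mono (d3 k)).trans (d1 k hk))
  · have : volume (⋂ k, D k) = 0 := by
      refine le_antisymm (ge_of_tendsto (by simpa using ENNReal.tendsto_ofReal lim)
        ((eventually_ge_atTop k0).mono fun k hk => ?_)) (by simp)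
      simpa using (measure_mono (iInter_subset D k)).trans (d1 k hk)
    filter_upwards [compl_mem_ae_iff.2 this] with t ht
    obtain ⟨k, hk⟩ : ∃ k, t ∉ D k := by simpa using ht
    exact eventually_atTop.2 ⟨k, d2 k t hk⟩

lemma sz_dist (A B : M) : |sz A - sz B| ≤ dist A B :=
  abs_measureReal_sub_le_measureReal_symmDiff' A.2.1.nullMeasurableSet B.2.1.nullMeasurableSet
    A.2.2 B.2.2

lemma sz_smul (T : Aut) (A : M) : sz (T • A) = sz A :=
  congrArg ENNReal.toReal (T.2.2.measure_preimage A.2.1.nullMeasurableSet)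

noncomputable def KK (m : ℕ) : M := J (-m, m)

def df (A B : M) : M := ⟨A.1 \ B.1, A.2.1.diff B.2.1,
  ne_top_of_le_ne_top A.2.2 (measure_mono sdiff_subset)⟩

lemma df_le (A A' B B' : M) : sz (df A B) ≤ sz (df A' B') + dist A A' + dist B B' := by
  refine (measureReal_mono (s₂ := ((df A' B').1 ∪ symmDiff A.1 A'.1) ∪ symmDiff B.1 B'.1)
    (fun t ht => ?_) (measure_union_lt_top (measure_union_lt_top (df A' B').2.2.lt_top
      (sd_ne _ _).lt_top) (sd_ne _ _).lt_top).ne).trans ((measureReal_union_le _ _).trans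
      (add_le_add (measureReal_union_le _ _) le_rfl))
  simp only [df, mem_union, mem_symmDiff, Set.mem_sdiff] at ht ⊢
  tauto

lemma df_K (A : M) : Tendsto (fun m => sz (df A (KK m))) atTop (𝓝 0) := by
  have := tendsto_measure_iInter_atTop (μ := volume) (s := fun m => (df A (KK m)).1)
    (fun m => (df A _).2.1.nullMeasurableSet) (fun m m' h t ht => ⟨ht.1, fun hc => ht.2 (by
      have h' : (m : ℝ) ≤ m' := by exact_mod_cast h
      simp only [KK, J, mem_Icc] at hc ⊢
      push_cast at hc ⊢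
      constructor <;> linarith [hc.1, hc.2])⟩) ⟨0, (df A _).2.2⟩
  rw [show ⋂ m, (df A (KK m)).1 = ∅ from eq_empty_of_forall_notMem fun t ht => by
    obtain ⟨m, hm⟩ := exists_nat_ge |t|
    exact (mem_iInter.1 ht m).2 (by simpa [KK, J] using abs_le.1 hm), measure_empty] at this
  exact (ENNReal.tendsto_toReal ENNReal.zero_ne_top).comp this

noncomputable def FF (k : ℕ) : Finset M :=
  (Finset.range k).image fun i => J ((exists_surjective_nat (ℚ × ℚ)).choose i)

lemma ev_FF (p : ℚ × ℚ) : ∃ k0, ∀ k ≥ k0, J p ∈ FF k := by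
  obtain ⟨i, hi⟩ := (exists_surjective_nat (ℚ × ℚ)).choose_spec p
  exact ⟨i + 1, fun k hk => Finset.mem_image.2 ⟨i, Finset.mem_range.2 hk, by rw [hi]⟩⟩

theorem lim0 (S : ℕ → Aut) (h1 : ∀ A : M, CauchySeq fun k => S k • A)
    (h2 : ∀ A : M, CauchySeq fun k => (S k)⁻¹ • A) :
    ∃ (f : ℝ → ℝ) (hf : MeasurePreserving f volume volume),
      ∀ A, Tendsto (fun k => dist ((S k)⁻¹ • A) (pre f hf A)) atTop (𝓝 0) := by
  obtain ⟨φ, φ1, φ2⟩ := extraction_forall_of_eventually (P := fun n k => ∀ A ∈ FF n,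
      ∀ l ≥ k, dist ((S k)⁻¹ • A) ((S l)⁻¹ • A) ≤ (1 / 2) ^ n)
      fun n => (eventually_all_finset _).2 fun A _ => by
    obtain ⟨N, hN⟩ := Metric.cauchySeq_iff.1 (h2 A) ((1 / 2) ^ n) (by positivity)
    exact eventually_atTop.2 ⟨N, fun k hk l hl => (hN k hk l (hk.trans hl)).le⟩
  choose E e1 e2 using fun p => limset (fun k => (S (φ k))⁻¹ • J p) (ev_FF p).choose
    fun k hk => φ2 k _ ((ev_FF p).choose_spec k hk) (φ (k + 1)) (φ1.monotone k.le_succ)
  have e3 : ∀ p, volume (E p).1 = volume (J p).1 := fun p => by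
    rw [← ENNReal.toReal_eq_toReal_iff' (E p).2.2 (J p).2.2, eq_comm, ← sub_eq_zero, ← abs_nonpos_iff]
    exact ge_of_tendsto' (e1 p) fun k => by
      have := sz_dist ((S (φ k))⁻¹ • J p) (E p)
      rw [sz_smul] at this
      exact this
  have tight : ∀ᵐ t, ∃ m : ℕ, t ∈ (E (-m, m)).1 := by
    have : ∀ j : ℕ, volume {t | t ∈ (KK j).1 ∧ ∀ m : ℕ, t ∉ (E (-m, m)).1} = 0 := fun j => by
      rw [← measureReal_eq_zero_iff (ne_top_of_le_ne_top (KK j).2.2 (measure_mono fun t h => h.1))]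
      refine le_antisymm (le_of_forall_pos_le_add fun ε hε => ?_) measureReal_nonneg
      obtain ⟨N, hN⟩ := Metric.cauchySeq_iff'.1 (h1 (KK j)) (ε / 3) (by positivity)
      obtain ⟨m, hm⟩ := ((df_K (S N • KK j)).eventually
        (gt_mem_nhds (show 0 < ε / 3 by positivity))).exists
      obtain ⟨k, k1, k2⟩ := (((e1 (-m, m)).eventually (gt_mem_nhds
        (show 0 < ε / 3 by positivity))).and (eventually_ge_atTop N)).exists
      have a := df_le (KK j) (KK j) (E (-m, m)) ((S (φ k))⁻¹ • KK m)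
      have b := df_le (S (φ k) • KK j) (S N • KK j) (KK m) (KK m)
      have c := sz_smul (S (φ k))⁻¹ (df (S (φ k) • KK j) (KK m))
      rw [show (S (φ k))⁻¹ • df (S (φ k) • KK j) (KK m) =
        df ((S (φ k))⁻¹ • S (φ k) • KK j) ((S (φ k))⁻¹ • KK m) from rfl, inv_smul_smul] at c
      have d := hN (φ k) (k2.trans (φ1.id_le k))
      have e : volume.real {t | t ∈ (KK j).1 ∧ ∀ m : ℕ, t ∉ (E (-m, m)).1} ≤
        sz (df (KK j) (E (-m, m))) := measureReal_mono (fun t h => ⟨h.1, h.2 m⟩) (df _ _).2.2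
      rw [dist_self] at a b
      rw [dist_comm] at k1
      change dist _ (_ • KK m) < _ at k1
      linarith
    filter_upwards [ae_all_iff.2 fun j => compl_mem_ae_iff.2 (this j)] with t ht
    obtain ⟨j, hj⟩ := exists_nat_ge |t|
    by_contra hc
    exact ht j ⟨by simpa [KK, J] using abs_le.1 hj, not_exists.1 hc⟩
  let f : ℝ → ℝ := fun t => limsup (fun k => (S (φ k)).1 t) atTop
  have mf : Measurable f := Measurable.limsup fun k => (S (φ k)).2.1.measurable
  have key : ∀ᵐ t, ∀ p : ℚ × ℚ, (t ∈ (E p).1 → f t ∈ Icc (p.1 : ℝ) p.2) ∧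
      (f t ∈ Ioo (p.1 : ℝ) p.2 → t ∈ (E p).1) := by
    filter_upwards [tight, ae_all_iff.2 e2] with t ⟨m, hm⟩ ht
    have a : ∀ p : ℚ × ℚ, t ∈ (E p).1 → f t ∈ Icc (p.1 : ℝ) p.2 := fun p hp => by
      have h : ∀ᶠ k in atTop, (S (φ k)).1 t ∈ Icc (p.1 : ℝ) p.2 := (ht p).mono fun k hk => hk.2 hp
      exact ⟨le_limsup_of_frequently_le (h.mono fun k hk => hk.1).frequently
        ⟨_, h.mono fun k hk => hk.2⟩, limsup_le_of_le
          (isCoboundedUnder_le_of_eventually_le _ (h.mono fun k hk => hk.1))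
          (h.mono fun k hk => hk.2)⟩
    refine fun p => ⟨a p, fun hp => by_contra fun hc => ?_⟩
    have b : t ∉ (E (-m, p.1)).1 := fun h => (a _ h).2.not_gt hp.1
    have c : t ∉ (E (p.2, m)).1 := fun h => (a _ h).1.not_gt hp.2
    obtain ⟨k, ⟨k1, k2⟩, k3, k4⟩ := (((ht p).and (ht (-m, p.1))).and
      ((ht (p.2, m)).and (ht (-m, m)))).exists
    have l4 : (S (φ k)).1 t ∈ Icc _ _ := k4.2 hm
    rcases le_total ((S (φ k)).1 t) p.1 with h | h
    · exact b (k2.1 ⟨l4.1, h⟩)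
    rcases le_total ((S (φ k)).1 t) p.2 with h' | h'
    · exact hc (k1.1 ⟨h, h'⟩)
    · exact c (k3.1 ⟨h', l4.2⟩)
  have mp : MeasurePreserving f volume volume := by
    refine ⟨mf, (Real.measure_ext_Ioo_rat fun a b => ?_).symm⟩
    rw [Measure.map_apply mf measurableSet_Ioo, Real.volume_Ioo]
    refine le_antisymm (ENNReal.le_of_forall_pos_le_add fun ε hε _ => ?_)
      ((measure_mono_ae (t := (E (a, b)).1) (key.mono fun t ht => (ht (a, b)).2)).trans
        (by simp [e3, J]))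
    have hε' : (0 : ℝ) < ε / 2 := by positivity
    obtain ⟨a', a1, a2⟩ := exists_rat_btwn (lt_add_of_pos_right (a : ℝ) hε')
    obtain ⟨b', b1, b2⟩ := exists_rat_btwn (sub_lt_self (b : ℝ) hε')
    have : volume (E (a', b')).1 ≤ volume (f ⁻¹' Ioo a b) := measure_mono_ae (key.mono fun t ht h =>
      ⟨a1.trans_le ((ht (a', b')).1 h).1, ((ht (a', b')).1 h).2.trans_lt b2⟩)
    refine le_trans ?_ (add_le_add this le_rfl)
    rw [e3, J, Real.volume_Icc, ← ENNReal.ofReal_coe_nnreal]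
    exact (ENNReal.ofReal_le_ofReal (by dsimp only; linarith)).trans ENNReal.ofReal_add_le
  refine ⟨f, mp, small_pre (fun k => (S k).2.1) (fun _ => mp) fun p => ?_⟩
  have z : dist (E p) (pre f mp (J p)) = 0 := dist_zero.2 (by
    filter_upwards [key, mp.quasiMeasurePreserving.ae (Ioo_ae_eq_Icc (a := (p.1 : ℝ)) (b := p.2))]
      with t a b
    exact propext ⟨(a p).1, fun h => (a p).2 (b.mpr h)⟩)
  refine tendsto_iff_dist_tendsto_zero.1 (tendsto_nhds_of_cauchySeq_of_subseq (h2 (J p))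
    φ1.tendsto_atTop (tendsto_iff_dist_tendsto_zero.2 (squeeze_zero (fun _ => dist_nonneg)
      (fun k => ?_) (e1 p))))
  simpa [z] using dist_triangle ((S (φ k))⁻¹ • J p) (E p) (pre f mp (J p))

lemma mkIso (f g : ℝ → ℝ) (hf : MeasurePreserving f volume volume)
    (hg' : MeasurePreserving g volume volume) (h : ∀ᵐ x, g (f x) = x) :
    ∃ e : Aut, (e.1 : ℝ → ℝ) =ᵐ[volume] f := by
  have mf := hf.measurable
  have hg := hg'.measurable
  have m1 : MeasurableSet {x | g (f x) = x} := measurableSet_eq_fun (by fun_prop) (by fun_prop)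
  have m2 : MeasurableSet {x | f (g x) = x} := measurableSet_eq_fun (by fun_prop) (by fun_prop)
  have h2 : ∀ᵐ x, f (g x) = x := by
    rw [← hf.map_eq, ae_map_iff mf.aemeasurable m2]
    filter_upwards [h] with x hx using by rw [hx]
  set N := {x | g (f x) = x} ∩ {x | f (g x) = x} with hN
  set X := ⋂ n : ℕ, (f^[n] ⁻¹' N ∩ g^[n] ⁻¹' N) with hX
  have mX : MeasurableSet X := MeasurableSet.iInter fun n =>
    ((mf.iterate n) (m1.inter m2)).inter ((hg.iterate n) (m1.inter m2))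
  have aX : ∀ᵐ x, x ∈ X := by
    simp only [hX, mem_iInter]
    exact ae_all_iff.mpr fun n => ((hf.iterate n).quasiMeasurePreserving.ae (h.and h2)).and
      ((hg'.iterate n).quasiMeasurePreserving.ae (h.and h2))
  have x0 : ∀ x ∈ X, g (f x) = x ∧ f (g x) = x := fun x hx => (mem_iInter.mp hx 0).1
  have fX : ∀ x ∈ X, f x ∈ X := fun x hx => mem_iInter.mpr fun n =>
    ⟨(mem_iInter.mp hx (n + 1)).1, by
      cases n with
      | zero => exact (mem_iInter.mp hx 1).1
      | succ n =>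
        show g^[n] (g (f x)) ∈ N
        rw [(x0 x hx).1]; exact (mem_iInter.mp hx n).2⟩
  have gX : ∀ x ∈ X, g x ∈ X := fun x hx => mem_iInter.mpr fun n =>
    ⟨by
      cases n with
      | zero => exact (mem_iInter.mp hx 1).2
      | succ n =>
        show f^[n] (f (g x)) ∈ N
        rw [(x0 x hx).2]; exact (mem_iInter.mp hx n).1, (mem_iInter.mp hx (n + 1)).2⟩
  have e1 : X.piecewise f id =ᵐ[volume] f := aX.mono fun x hx => piecewise_eq_of_mem _ _ _ hx
  have e2 : X.piecewise g id =ᵐ[volume] g := aX.mono fun x hx => piecewise_eq_of_mem _ _ _ hx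
  refine ⟨⟨⟨X.piecewise f id, X.piecewise g id, fun x => ?_, fun x => ?_⟩,
    hf.congr (mf.piecewise mX measurable_id) e1.symm,
    hg'.congr (hg.piecewise mX measurable_id) e2.symm⟩, e1⟩
  · by_cases hx : x ∈ X
    · simp [hx, fX x hx, (x0 x hx).1]
    · simp [hx]
  · by_cases hx : x ∈ X
    · simp [hx, gX x hx, (x0 x hx).2]
    · simp [hx]

theorem complete (S : ℕ → Aut) (h1 : ∀ A : M, CauchySeq fun k => S k • A)
    (h2 : ∀ A : M, CauchySeq fun k => (S k)⁻¹ • A) : ∃ T, Tendsto S atTop (𝓝 T) := by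
  obtain ⟨f, hf, a⟩ := lim0 S h1 h2
  obtain ⟨g, hg, b⟩ := lim0 (fun k => (S k)⁻¹) h2 (by simpa using h1)
  obtain ⟨T, hT⟩ := mkIso f g hf hg (ae_of_J (v := id) fun p =>
    (dist_zero (A := pre f hf (pre g hg (J p))) (B := J p)).1 (le_antisymm
      (ge_of_tendsto' (by simpa using (a (pre g hg (J p))).add (b (J p))) fun k => by
        have := dist_triangle (pre f hf (pre g hg (J p))) ((S k)⁻¹ • pre g hg (J p)) (J p)
        rwa [← ds (S k) ((S k)⁻¹ • _) (J p), smul_inv_smul, dist_comm (pre f _ _) (_ • _),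
          dist_comm (pre g _ _)] at this) dist_nonneg))
  refine ⟨T, ?_⟩
  have : Tendsto (fun k => (S k)⁻¹) atTop (𝓝 T⁻¹) := tendsto_iff.2 fun A =>
    squeeze_zero (fun _ => dist_nonneg) (fun k => by
      have z : dist (pre f hf A) (T⁻¹ • A) = 0 := dist_zero.2 (hT.symm.preimage _)
      simpa [z] using dist_triangle ((S k)⁻¹ • A) (pre f hf A) (T⁻¹ • A)) (a A)
  simpa using this.inv

end Pool.Agent.H49.GI
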