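import Pool.Agent.H49.WH1

/-! The staircase gadget on a product of cyclic groups of coprime orders. -/

set_option autoImplicit false

namespace Pool.Agent.H49.WH

open Finset Equiv
open scoped Classical

def ψ (h τ v : ℕ) : ℤ := if v < h * τ then ((v / τ : ℕ) : ℤ) else 0

lemma psi_up {h τ q v : ℕ} (hτ : 0 < τ) (hq : h * τ + τ ≤ q) (hv : v + τ < h * τ) :
    ψ h τ ((v + τ) % q) - ψ h τ v = 1 := by
  rw [Nat.mod_eq_of_lt (by omega), ψ, ψ, if_pos hv, if_pos (by omega), Nat.add_div_right _ hτ]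
  push_cast; ring

lemma psi_out {h τ q v : ℕ} (hq : h * τ + τ ≤ q) (hv : v < q) (h1 : h * τ ≤ v) :
    ψ h τ ((v + τ) % q) = ψ h τ v := by
  rw [ψ, ψ, if_neg (show ¬v < h * τ by omega)]
  split_ifs with h2
  · by_cases h3 : v + τ < q
    · rw [Nat.mod_eq_of_lt h3] at h2; omega
    · rw [Nat.mod_eq_sub_mod (by omega), Nat.mod_eq_of_lt (by omega), Nat.div_eq_of_lt (by omega)]
      rfl
  · rfl

lemma psi_step {h τ q v : ℕ} (hτ : 0 < τ) (hq : h * τ + τ ≤ q) (hv : v < q) :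
    ψ h τ ((v + τ) % q) - ψ h τ v = 0 ∨ (h : ℤ) ∣ ψ h τ ((v + τ) % q) - ψ h τ v - 1 := by
  by_cases h1 : h * τ ≤ v
  · left; rw [psi_out hq hv h1, sub_self]
  right
  by_cases h2 : v + τ < h * τ
  · rw [psi_up hτ hq h2]; simp
  · rw [Nat.mod_eq_of_lt (by omega), ψ, ψ, if_neg h2, if_pos (by omega)]
    have : (v + τ) / τ = h := Nat.div_eq_of_lt_le (by omega) (by rw [add_mul]; omega)
    rw [Nat.add_div_right _ hτ] at this
    exact ⟨-1, by rw [← this]; push_cast; ring⟩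

lemma psi_one {h τ q v : ℕ} (hτ : 0 < τ) (hq : h * τ + τ ≤ q) (hv : v < q)
    (hn : ψ h τ ((v + 1) % q) ≠ ψ h τ v) : ∃ k ∈ range (h + 1), v + 1 = k * τ := by
  by_cases h1 : v + 1 < q
  · rw [Nat.mod_eq_of_lt h1, ψ, ψ] at hn
    by_cases h2 : v + 1 < h * τ
    · rw [if_pos h2, if_pos (by omega), Nat.succ_div] at hn
      split_ifs at hn with h3
      · obtain ⟨k, hk⟩ := h3
        refine ⟨k, mem_range.2 ?_, by rw [hk, mul_comm]⟩
        rw [hk, mul_comm h] at h2
        have := Nat.lt_of_mul_lt_mul_left h2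
        omega
      · simp at hn
    · by_cases h3 : v < h * τ
      · exact ⟨h, by simp, by omega⟩
      · rw [if_neg h2, if_neg h3] at hn; simp at hn
  · obtain rfl : q = v + 1 := by omega
    rw [Nat.mod_self, ψ, ψ, if_neg (show ¬v < h * τ by omega)] at hn
    simp at hn

lemma av_comm {X Y : Type} [Fintype X] [Fintype Y] (f : X → Y → ℝ) :
    (av fun x => av fun y => f x y) = av fun y => av fun x => f x y := by
  rw [← av_prod fun z : X × Y => f z.1 z.2, ← av_prod fun z : Y × X => f z.2 z.1]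
  exact av_equiv (Equiv.prodComm X Y) fun z : Y × X => f z.2 z.1

lemma fr_val (q : ℕ) [NeZero q] (P : ℕ → Prop) :
    fr (fun v : ZMod q => P v.val) = cnt q P / q := by
  obtain ⟨n, rfl⟩ := Nat.exists_eq_succ_of_ne_zero (NeZero.ne q)
  rw [fr, av, ZMod.card, cnt, ← Fin.sum_univ_eq_sum_range fun v => ind (P v)]
  rfl

lemma cnt_Ico {q a b : ℕ} (h1 : a ≤ b) (h2 : b ≤ q) :
    cnt q (fun v => a ≤ v ∧ v < b) = (b : ℝ) - a := by
  have : (range q).filter (fun v => a ≤ v ∧ v < b) = Ico a b := by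
    ext v; simp only [mem_filter, mem_range, mem_Ico]; omega
  rw [← Nat.cast_sub h1, ← Nat.card_Ico, ← this, card_filter, cnt, Nat.cast_sum]
  exact sum_congr rfl fun v _ => by by_cases hv : a ≤ v ∧ v < b <;> simp [ind, hv]

lemma cnt_per (q : ℕ) [NeZero q] (Q : ZMod q → Prop) (a : ZMod q) (k : ℕ) :
    cnt (k * q) (fun j => Q (a + j)) = k * q * fr Q := by
  have hq : (q : ℝ) ≠ 0 := Nat.cast_ne_zero.2 (NeZero.ne q)
  induction k with
  | zero => simp [cnt]
  | succ k ih =>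
    have h1 := fr_val q fun j => Q (a + j)
    simp only [ZMod.natCast_zmod_val] at h1
    have h2 := fr_equiv (Equiv.addLeft a) Q
    simp only [Equiv.coe_addLeft] at h2
    rw [h2, eq_div_iff hq] at h1
    rw [cnt] at ih h1 ⊢
    rw [add_mul, one_mul, sum_range_add, ih]
    simp only [Nat.cast_add, Nat.cast_mul, ZMod.natCast_self, mul_zero, zero_add]
    rw [← h1]; push_cast; ring

lemma indep {ι : Type} [Fintype ι] [DecidableEq ι] {q : ι → ℕ} [∀ i, NeZero (q i)] (i : ι)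
    {P : (∀ i, ZMod (q i)) → Prop} (hP : ∀ y a, P (y + Pi.single i a) ↔ P y)
    (Q : ZMod (q i) → Prop) : fr (fun y => P y ∧ Q (y i)) = fr P * fr Q := by
  have h1 : ∀ a, fr (fun y => P y ∧ Q (y i)) = fr (fun y => P y ∧ Q (y i + a)) := fun a => by
    rw [← fr_equiv (Equiv.addRight (Pi.single i a)) fun y => P y ∧ Q (y i)]
    exact fr_congr fun y => by simp [hP]
  rw [← av_const (X := ZMod (q i)) (fr fun y => P y ∧ Q (y i))]
  simp only [fr] at h1 ⊢
  rw [show (fun _ : ZMod (q i) => av fun y => ind (P y ∧ Q (y i))) =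
    fun a => av fun y => ind (P y ∧ Q (y i + a)) from funext h1, av_comm, mul_comm, ← av_mul]
  refine congrArg av (funext fun y => ?_)
  by_cases hy : P y
  · simp only [hy, true_and, ind_pos trivial, mul_one]
    exact av_equiv (Equiv.addLeft (y i)) fun a => ind (Q a)
  · simp only [hy, false_and, ind_neg not_false, mul_zero, av_const]

section
variable {M r : ℕ} (q τ : Fin (M + 1) × Fin r → ℕ) (h : ℕ) (t : Fin (M + 1) × Fin r → ℤ)

abbrev YY := ∀ i, ZMod (q i)

def Pre (A : Fin (M + 1)) (j : ℕ) (y : YY q) : Prop :=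
  ∀ j' : Fin r, j'.val < j → h * τ (A, j') ≤ (y (A, j')).val

def First (y : YY q) (i : Fin (M + 1) × Fin r) : Prop :=
  Pre q τ h i.1 i.2 y ∧ (y i).val < h * τ i

def Up (a : ℤ) (y : YY q) (i : Fin (M + 1) × Fin r) : Prop :=
  (i.1.val : ℤ) = a ∧ First q τ h y i ∧ (y i).val + τ i < h * τ i

def Dn (a : ℤ) (y : YY q) (i : Fin (M + 1) × Fin r) : Prop :=
  (i.1.val : ℤ) = -a ∧ First q τ h y i ∧ τ i ≤ (y i).val

noncomputable def uu (a : ℤ) (y : YY q) : ℤ :=
  if 0 < a then (if H : ∃ i, Up q τ h a y i then t H.choose else 0)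
  else if a < 0 then (if H : ∃ i, Dn q τ h a y i then -t H.choose else 0) else 0

noncomputable def φ (y : YY q) : ℤ := ∑ i, (i.1.val : ℤ) * ψ h (τ i) (y i).val

variable {q τ h t}

lemma first_uniq {y : YY q} {i i' : Fin (M + 1) × Fin r} (e : i.1 = i'.1) (h1 : First q τ h y i)
    (h2 : First q τ h y i') : i = i' := by
  obtain ⟨A, j⟩ := i
  obtain ⟨A', j'⟩ := i'
  obtain rfl : A = A' := e
  rcases lt_trichotomy j j' with hj | hj | hj
  · exact absurd (h2.1 j hj) h1.2.not_ge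
  · rw [hj]
  · exact absurd (h1.1 j' hj) h2.2.not_ge

lemma uu_up {a : ℤ} {y : YY q} {i : Fin (M + 1) × Fin r} (ha : 0 < a) (hu : Up q τ h a y i) :
    uu q τ h t a y = t i := by
  have H : ∃ i, Up q τ h a y i := ⟨i, hu⟩
  rw [uu, if_pos ha, dif_pos H, first_uniq (Fin.ext ?_) H.choose_spec.2.1 hu.2.1]
  have := H.choose_spec.1
  have := hu.1
  omega

lemma uu_dn {a : ℤ} {y : YY q} {i : Fin (M + 1) × Fin r} (ha : a < 0) (hu : Dn q τ h a y i) :
    uu q τ h t a y = -t i := by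
  have H : ∃ i, Dn q τ h a y i := ⟨i, hu⟩
  rw [uu, if_neg ha.not_gt, if_pos ha, dif_pos H,
    first_uniq (Fin.ext ?_) H.choose_spec.2.1 hu.2.1]
  have := H.choose_spec.1
  have := hu.1
  omega

lemma uu_cases (a : ℤ) (y : YY q) : uu q τ h t a y = 0 ∨
    (0 < a ∧ ∃ i, Up q τ h a y i ∧ uu q τ h t a y = t i) ∨
    (a < 0 ∧ ∃ i, Dn q τ h a y i ∧ uu q τ h t a y = -t i) := by
  by_cases h1 : 0 < a ∧ ∃ i, Up q τ h a y i
  · obtain ⟨ha, i, hi⟩ := h1
    exact .inr (.inl ⟨ha, i, hi, uu_up ha hi⟩)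
  by_cases h2 : a < 0 ∧ ∃ i, Dn q τ h a y i
  · obtain ⟨ha, i, hi⟩ := h2
    exact .inr (.inr ⟨ha, i, hi, uu_dn ha hi⟩)
  left
  rw [uu]
  split_ifs <;> simp_all

lemma pre_single {A : Fin (M + 1)} {j : Fin r} (y : YY q) (a : ZMod (q (A, j))) :
    Pre q τ h A j (y + Pi.single (A, j) a) ↔ Pre q τ h A j y := by
  refine forall₂_congr fun j' hj => ?_
  rw [Pi.add_apply, Pi.single_eq_of_ne (fun e => ?_), add_zero]
  have := congrArg (fun i => i.2.val) e
  simp only at this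
  omega

variable [∀ i, NeZero (q i)]

lemma val_up (y : YY q) (i : Fin (M + 1) × Fin r) (n : ℕ) :
    ((y + Pi.single i (n : ZMod (q i)) : YY q) i).val = ((y i).val + n) % q i := by
  rw [Pi.add_apply, Pi.single_eq_same, ZMod.val_add, ZMod.val_natCast, Nat.add_mod_mod]

lemma phi_up (y : YY q) (i : Fin (M + 1) × Fin r) :
    φ q τ h (y + Pi.single i (τ i : ZMod (q i))) - φ q τ h y =
      i.1.val * (ψ h (τ i) (((y i).val + τ i) % q i) - ψ h (τ i) (y i).val) := by
  rw [φ, φ, ← sum_sub_distrib, sum_eq_single i, val_up, mul_sub]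
  · intro j _ hj
    rw [Pi.add_apply, Pi.single_eq_of_ne hj, add_zero, sub_self]
  · simp

lemma up_dn (hq : ∀ i, h * τ i + τ i ≤ q i) {a : ℤ} {y : YY q} {i : Fin (M + 1) × Fin r}
    (hu : Up q τ h a y i) : Dn q τ h (-a) (y + Pi.single i (τ i : ZMod (q i))) i := by
  have := hq i
  have := hu.2.2
  have e : ((y + Pi.single i (τ i : ZMod (q i)) : YY q) i).val = (y i).val + τ i := by
    rw [val_up, Nat.mod_eq_of_lt (by omega)]
  exact ⟨by rw [neg_neg]; exact hu.1, ⟨(pre_single y _).2 hu.2.1.1, by omega⟩, by omega⟩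

lemma dn_up (hq : ∀ i, h * τ i + τ i ≤ q i) {a : ℤ} {y : YY q} {i : Fin (M + 1) × Fin r}
    (hu : Dn q τ h a (y + Pi.single i (τ i : ZMod (q i))) i) : Up q τ h (-a) y i := by
  have h0 := hq i
  have h1 := hu.2.2
  have h2 := hu.2.1.2
  have h3 := (y i).val_lt
  rw [val_up] at h1 h2
  have e : (y i).val + τ i < q i := by
    by_contra hc
    rw [Nat.mod_eq_sub_mod (by omega), Nat.mod_eq_of_lt (by omega)] at h1
    omega
  rw [Nat.mod_eq_of_lt e] at h2
  exact ⟨hu.1, ⟨(pre_single y _).1 hu.2.1.1, by omega⟩, h2⟩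

lemma tail (hq : ∀ i, h * τ i + τ i ≤ q i) (hh : 0 < h) (hr : 0 < r) {β : ℝ} (hβ : 0 < β)
    (hb : ∀ i, β * q i ≤ h * τ i) (A : Fin (M + 1)) (Q : ∀ j : Fin r, ZMod (q (A, j)) → Prop)
    (hQ : ∀ j, fr (Q j) = τ (A, j) / q (A, j)) :
    fr (fun y : YY q => Pre q τ h A r y ∨ ∃ j : Fin r, Pre q τ h A j y ∧ Q j (y (A, j))) ≤
      1 / (β * r) + 1 / h := by
  have hq0 : ∀ i, (0 : ℝ) < q i := fun i => Nat.cast_pos.2 (Nat.pos_of_ne_zero (NeZero.ne _))
  have h1 : ∑ j : Fin r, fr (Pre q τ h A j) * (h * (τ (A, j) / q (A, j))) ≤ 1 := by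
    have e : ∀ j : Fin r, fr (Pre q τ h A j) * (h * (τ (A, j) / q (A, j))) =
        fr fun y => First q τ h y (A, j) := fun j => by
      have e1 := indep (A, j) (P := Pre q τ h A j) pre_single
        fun v => 0 ≤ v.val ∧ v.val < h * τ (A, j)
      rw [fr_val _ fun v => 0 ≤ v ∧ v < h * τ (A, j),
        cnt_Ico (Nat.zero_le _) (by have := hq (A, j); omega)] at e1
      push_cast at e1
      rw [sub_zero, mul_div_assoc] at e1
      rw [← e1]
      exact fr_congr fun y => by simp [First]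
    simp only [e]
    simp only [fr]
    rw [← av_sum, ← av_const (X := YY q) 1]
    refine av_mono fun y => ?_
    by_cases hy : ∃ j, First q τ h y (A, j)
    · obtain ⟨j, hj⟩ := hy
      rw [sum_eq_single j (fun j' _ hj' => ind_neg fun h' => hj' ?_) (by simp)]
      · exact ind_le _
      · exact congrArg Prod.snd (first_uniq (i := (A, j')) (i' := (A, j)) rfl h' hj)
    · rw [sum_eq_zero fun j _ => ind_neg fun h' => hy ⟨j, h'⟩]; norm_num
  refine (fr_or fun y hy => hy).trans (add_le_add ?_ ?_)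
  · rw [le_div_iff₀ (by positivity)]
    refine le_trans ?_ h1
    have : ∀ j : Fin r, fr (Pre q τ h A r) * β ≤
        fr (Pre q τ h A j) * (h * (τ (A, j) / q (A, j))) := fun j =>
      mul_le_mul (fr_mono fun y hy j' _ => hy j' j'.2)
        (by rw [← mul_div_assoc, le_div_iff₀ (hq0 _)]; exact hb _) hβ.le (fr_nonneg _)
    refine le_trans (le_of_eq ?_) (sum_le_sum fun j _ => this j)
    simp only [sum_const, card_univ, Fintype.card_fin, nsmul_eq_mul]; ring
  · refine (fr_exists univ (fun (j : Fin r) y => Pre q τ h A j y ∧ Q j (y (A, j)))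
      fun y ⟨j, hj⟩ => ⟨j, mem_univ _, hj⟩).trans ?_
    rw [le_div_iff₀ (by positivity), sum_mul]
    refine le_trans (le_of_eq (sum_congr rfl fun j _ => ?_)) h1
    rw [indep (A, j) (P := Pre q τ h A j) pre_single (Q j), hQ]; ring

omit [∀ i, NeZero (q i)] in
lemma first_or (A : Fin (M + 1)) (y : YY q) : Pre q τ h A r y ∨ ∃ j, First q τ h y (A, j) := by
  by_cases hy : ∃ j : Fin r, (y (A, j)).val < h * τ (A, j)
  · right
    obtain ⟨j, hj, hm⟩ := exists_min_image (univ.filter fun j : Fin r =>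
      (y (A, j)).val < h * τ (A, j)) id (let ⟨j, hj⟩ := hy; ⟨j, by simpa using hj⟩)
    refine ⟨j, fun j' hj' => not_lt.1 fun hc => ?_, by simpa using hj⟩
    exact (hm j' (by simpa using hc)).not_gt hj'
  · exact .inl fun j _ => not_lt.1 fun hc => hy ⟨j, hc⟩

lemma unmatched (hq : ∀ i, h * τ i + τ i ≤ q i) (hh : 0 < h) (hr : 0 < r) {β : ℝ} (hβ : 0 < β)
    (hb : ∀ i, β * q i ≤ h * τ i) (ht : ∀ i, t i ≠ 0) {a : ℤ} (ha : |a| ≤ M) (h0 : a ≠ 0) :
    fr (fun y => uu q τ h t a y = 0) ≤ 1 / (β * r) + 1 / h := by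
  have ha' := abs_le.1 ha
  obtain ⟨h', rfl⟩ : ∃ h', h = h' + 1 := ⟨h - 1, by omega⟩
  rcases h0.lt_or_gt with h1 | h1
  · let A : Fin (M + 1) := ⟨(-a).toNat, by omega⟩
    refine le_trans (fr_mono fun y hy => ?_) (tail hq hh hr hβ hb A
      (fun j v => 0 ≤ v.val ∧ v.val < τ (A, j)) fun j => ?_)
    · refine (first_or A y).imp_right fun ⟨j, hj⟩ => ⟨j, hj.1, Nat.zero_le _, not_le.1 fun hc => ?_⟩
      rw [uu_dn (i := (A, j)) h1 ⟨by simp only [A]; omega, hj, hc⟩, neg_eq_zero] at hy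
      exact ht _ hy
    · rw [fr_val _ fun v => 0 ≤ v ∧ v < τ (A, j),
        cnt_Ico (Nat.zero_le _) (by have := hq (A, j); omega)]
      simp
  · let A : Fin (M + 1) := ⟨a.toNat, by omega⟩
    refine le_trans (fr_mono fun y hy => ?_) (tail hq hh hr hβ hb A
      (fun j v => h' * τ (A, j) ≤ v.val ∧ v.val < (h' + 1) * τ (A, j)) fun j => ?_)
    · refine (first_or A y).imp_right fun ⟨j, hj⟩ => ⟨j, hj.1, not_lt.1 fun hc => ?_, hj.2⟩
      rw [uu_up (i := (A, j)) h1 ⟨by simp only [A]; omega, hj, by rw [add_mul]; omega⟩] at hy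
      exact ht _ hy
    · rw [fr_val _ fun v => h' * τ (A, j) ≤ v ∧ v < (h' + 1) * τ (A, j),
        cnt_Ico (by rw [add_mul]; omega) (by have := hq (A, j); omega)]
      push_cast; ring

lemma slow (hτ : ∀ i, 0 < τ i) (hq : ∀ i, h * τ i + τ i ≤ q i) {B : ℝ} (hB : 0 < B)
    (hb : ∀ i, B ≤ q i) :
    fr (fun y : YY q => φ q τ h (y + 1) ≠ φ q τ h y) ≤ (M + 1) * r * (h + 1) / B := by
  refine (fr_exists (univ ×ˢ range (h + 1)) (fun k (y : YY q) => (y k.1).val + 1 = k.2 * τ k.1)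
    fun y hy => ?_).trans ?_
  · have : ∃ i, ψ h (τ i) (y i + 1).val ≠ ψ h (τ i) (y i).val := by
      by_contra hc
      push Not at hc
      exact hy (sum_congr rfl fun i _ => by rw [Pi.add_apply, Pi.one_apply, hc])
    obtain ⟨i, hi⟩ := this
    rw [← Nat.cast_one, ZMod.val_add, ZMod.val_natCast, Nat.add_mod_mod] at hi
    obtain ⟨k, hk, e⟩ := psi_one (hτ i) (hq i) (y i).val_lt hi
    exact ⟨(i, k), mem_product.2 ⟨mem_univ _, hk⟩, e⟩
  · have : ∀ k ∈ univ ×ˢ range (h + 1),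
        fr (fun y : YY q => (y k.1).val + 1 = k.2 * τ k.1) ≤ 1 / B := fun k _ => by
      have e1 := indep k.1 (P := fun _ => True) (q := q) (fun _ _ => Iff.rfl)
        fun v => v.val + 1 = k.2 * τ k.1
      rw [fr_true fun _ => trivial, one_mul, fr_val _ fun v => v + 1 = k.2 * τ k.1] at e1
      simp only [true_and] at e1
      rw [e1]
      refine div_le_div₀ zero_le_one ?_ hB (hb _)
      by_cases hk : k.2 * τ k.1 ≤ q k.1
      · refine (cnt_mono (Q := fun v => k.2 * τ k.1 - 1 ≤ v ∧ v < k.2 * τ k.1)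
          fun j _ hj => by omega).trans ?_
        rw [cnt_Ico (by omega) hk, sub_le_iff_le_add]
        exact_mod_cast (by omega)
      · refine (cnt_mono (Q := fun _ => False) fun j _ hj => by omega).trans ?_
        simp [cnt, ind]
    refine (sum_le_sum this).trans (le_of_eq ?_)
    simp only [sum_const, card_product, card_univ, Fintype.card_prod, Fintype.card_fin, card_range,
      nsmul_eq_mul]
    push_cast; ring

lemma rare (hq : ∀ i, h * τ i + τ i ≤ q i) {δ : ℝ} (hb : ∀ i, (h * τ i : ℝ) ≤ δ * q i) {L : ℕ}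
    (hL : ∀ i, q i ∣ L) (i : Fin (M + 1) × Fin r) (y : YY q) :
    cnt L (fun j => φ q τ h (y + (j : YY q) + Pi.single i (τ i : ZMod (q i))) ≠
      φ q τ h (y + (j : YY q))) ≤ δ * L := by
  obtain ⟨k, rfl⟩ := hL i
  have hq0 : (0 : ℝ) < q i := Nat.cast_pos.2 (Nat.pos_of_ne_zero (NeZero.ne _))
  refine (cnt_mono (Q := fun j => 0 ≤ (y i + j).val ∧ (y i + j).val < h * τ i)
    fun j _ hj => ⟨Nat.zero_le _, not_le.1 fun hc => hj (by
      rw [← sub_eq_zero, phi_up, psi_out (v := ((y + (j : YY q)) i).val) (hq i) (ZMod.val_lt _) hc,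
        sub_self, mul_zero])⟩).trans ?_
  · rw [mul_comm (q i), cnt_per (q i) (fun v => 0 ≤ v.val ∧ v.val < h * τ i),
      fr_val _ fun v => 0 ≤ v ∧ v < h * τ i, cnt_Ico (Nat.zero_le _) (by have := hq i; omega)]
    push_cast
    rw [sub_zero, mul_comm δ]
    exact mul_le_mul_of_nonneg_left ((div_le_iff₀ hq0).2 (hb i)) (by positivity)

end

lemma exists_t {ι : Type} [Fintype ι] [DecidableEq ι] (q τ : ι → ℕ) (h : ℕ)
    (hp : ∀ i, (q i).Prime) (hi : Function.Injective q) (hh : ∀ i, h < q i) (h0 : 0 < h) (i : ι) :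
    ∃ t : ℤ, (h : ℤ) ∣ t ∧ (t : ∀ i, ZMod (q i)) = Pi.single i (τ i : ZMod (q i)) := by
  have hc : Nat.Coprime (h * ∏ j ∈ univ.erase i, q j) (q i) := by
    refine Nat.Coprime.mul_left (Nat.Coprime.symm ((hp i).coprime_iff_not_dvd.2 fun hd =>
      (Nat.le_of_dvd h0 hd).not_gt (hh i))) (Nat.Coprime.prod_left fun j hj => ?_)
    exact (Nat.coprime_primes (hp j) (hp i)).2 fun e => (mem_erase.1 hj).1 (hi e)
  have : NeZero (q i) := ⟨(hp i).ne_zero⟩
  let u := ZMod.unitOfCoprime _ hc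
  refine ⟨(h * ∏ j ∈ univ.erase i, q j : ℕ) * (((u⁻¹ : (ZMod (q i))ˣ) : ZMod (q i)) * τ i).val,
    ⟨_, by push_cast; rw [mul_assoc]⟩, funext fun j => ?_⟩
  rw [Pi.intCast_apply, Int.cast_mul, Int.cast_natCast, Int.cast_natCast]
  by_cases hj : j = i
  · subst hj
    rw [Pi.single_eq_same, ZMod.natCast_zmod_val, ← ZMod.coe_unitOfCoprime _ hc, ← mul_assoc,
      Units.mul_inv, one_mul]
  · rw [Pi.single_eq_of_ne hj, (ZMod.natCast_eq_zero_iff _ _).2
      (Dvd.dvd.mul_left (dvd_prod_of_mem q (mem_erase.2 ⟨hj, mem_univ j⟩)) h), zero_mul]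

theorem gadget (M h0 B : ℕ) (hh0 : 0 < h0) {η γ δ : ℝ} (hη : 0 < η) (hγ : 0 < γ) (hδ : 0 < δ) :
    ∃ (Z : Type) (_ : Fintype Z) (_ : Nonempty Z) (s : Perm Z) (φ : Z → ℤ) (u : ℤ → Z → ℤ) (L : ℕ),
      B ≤ L ∧ (∀ a y, (h0 : ℤ) ∣ u a y) ∧
      (∀ a y, u a y ≠ 0 → (h0 : ℤ) ∣ φ ((s ^ u a y) y) - φ y - a ∧
        u (-a) ((s ^ u a y) y) = -u a y) ∧
      (∀ a : ℤ, |a| ≤ M → a ≠ 0 → fr (fun y => u a y = 0) ≤ γ) ∧
      (∀ a y y', (h0 : ℤ) ∣ φ ((s ^ u a y) y') - φ y' ∨ (h0 : ℤ) ∣ φ ((s ^ u a y) y') - φ y' - a) ∧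
      (∀ a y y', cnt L (fun j => φ ((s ^ ((j : ℤ) + u a y)) y') ≠ φ ((s ^ (j : ℤ)) y')) ≤ δ * L) ∧
      fr (fun y => φ (s y) ≠ φ y) ≤ η := by
  obtain ⟨b, hb⟩ := exists_nat_gt (max 2 (1 / δ))
  have hb2 : 2 < b := by exact_mod_cast (le_max_left _ _).trans_lt hb
  have hbδ : 1 < δ * b := by
    have := (le_max_right _ _).trans_lt hb
    rwa [div_lt_iff₀' hδ] at this
  obtain ⟨k, hk⟩ := exists_nat_gt (2 / γ)
  obtain ⟨r, hr⟩ := exists_nat_gt (4 * b / γ)
  have hk0 : (0 : ℝ) < k := lt_trans (by positivity) hk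
  have hr0 : (0 : ℝ) < r := lt_trans (by positivity) hr
  have hb0 : (0 : ℝ) < b := by positivity
  set h := h0 * k with hh
  have hpos : 0 < h := Nat.mul_pos hh0 (Nat.cast_pos.1 hk0)
  obtain ⟨N, hN⟩ := exists_nat_gt (max (2 * h * b : ℝ) ((M + 1) * r * (h + 1) / η))
  have hN1 : 2 * h * b < N := by exact_mod_cast (le_max_left _ _).trans_lt hN
  let q : Fin (M + 1) × Fin r → ℕ := fun i => Nat.nth Nat.Prime (N + (finProdFinEquiv i).val)
  have q1 : ∀ i, (q i).Prime := fun i => Nat.prime_nth_prime _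
  have q2 : Function.Injective q := fun i j e =>
    finProdFinEquiv.injective (Fin.ext (Nat.add_left_cancel
      (Nat.nth_injective Nat.infinite_setOfPred_prime e)))
  have q3 : ∀ i, N ≤ q i := fun i =>
    (Nat.le_add_right _ _).trans (Nat.le_nth fun hf => absurd hf Nat.infinite_setOfPred_prime)
  have : ∀ i, NeZero (q i) := fun i => ⟨(q1 i).ne_zero⟩
  let τ : Fin (M + 1) × Fin r → ℕ := fun i => q i / (h * b)
  have hhb : 0 < h * b := by positivity
  have t1 : ∀ i, h * b * τ i ≤ q i := fun i => Nat.mul_div_le _ _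
  have t2 : ∀ i, q i < h * b * τ i + h * b := fun i => Nat.lt_mul_div_succ _ hhb
  have t3 : ∀ i, 0 < τ i := fun i => Nat.div_pos (by have := q3 i; nlinarith) hhb
  have t4 : ∀ i, h * τ i + τ i ≤ q i := fun i => by
    have := t1 i
    have h1 : τ i ≤ h * τ i := Nat.le_mul_of_pos_left _ hpos
    have h2 : h * τ i * 2 ≤ h * τ i * b := Nat.mul_le_mul_left _ hb2.le
    nlinarith
  choose t ht1 ht2 using exists_t q τ h q1 q2 (fun i => by have := q3 i; nlinarith) hpos
  have t5 : ∀ i, t i ≠ 0 := fun i e => by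
    have := congrFun (ht2 i) i
    rw [e, Pi.single_eq_same, Int.cast_zero, Pi.zero_apply, eq_comm, ZMod.natCast_eq_zero_iff] at this
    have := Nat.le_of_dvd (t3 i) this
    have := t4 i
    have := Nat.mul_pos hpos (t3 i)
    omega
  have hs : ∀ (m : ℤ) (y : YY q), ((Equiv.addRight (1 : YY q) ^ m : Perm _) y) = y + (m : YY q) :=
    fun m y => by simp
  have d0 : (h0 : ℤ) ∣ h := ⟨k, by rw [hh]; push_cast; rfl⟩
  have stp : ∀ i (y : YY q), φ q τ h (y + (t i : YY q)) - φ q τ h y = 0 ∨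
      (h0 : ℤ) ∣ φ q τ h (y + (t i : YY q)) - φ q τ h y - i.1.val := fun i y => by
    rw [ht2, phi_up]
    refine (psi_step (t3 i) (t4 i) (y i).val_lt).imp (fun e => by rw [e, mul_zero]) fun e => ?_
    rw [← mul_sub_one]
    exact (d0.trans e).mul_left _
  have rr := rare (q := q) (L := (B + 1) * ∏ i, q i) t4 (δ := δ) (fun i => by
    have h1 : (h * b * τ i : ℝ) ≤ q i := by exact_mod_cast t1 i
    have h2 : (0 : ℝ) ≤ h * τ i := by positivity
    nlinarith) fun i => (dvd_prod_of_mem q (mem_univ i)).mul_left _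
  refine ⟨YY q, inferInstance, inferInstance, Equiv.addRight 1, φ q τ h, uu q τ h t,
    (B + 1) * ∏ i, q i, ?_, fun a y => ?_, fun a y hu => ?_, fun a ha ha0 => ?_,
    fun a y y' => ?_, fun a y y' => ?_, ?_⟩
  · exact (Nat.le_succ B).trans (Nat.le_mul_of_pos_right _ (prod_pos fun i _ => (q1 i).pos))
  · rcases uu_cases (τ := τ) (h := h) (t := t) a y with e | ⟨-, i, -, e⟩ | ⟨-, i, -, e⟩ <;> rw [e]
    · simp
    · exact d0.trans (ht1 i)
    · exact (d0.trans (ht1 i)).neg_right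
  · rw [hs]
    rcases uu_cases (τ := τ) (h := h) (t := t) a y with e | ⟨ha, i, hi, e⟩ | ⟨ha, i, hi, e⟩
    · exact absurd e hu
    · rw [e, ht2, phi_up, psi_up (t3 i) (t4 i) hi.2.2, uu_dn (by omega) (up_dn t4 hi), hi.1]
      simp
    · obtain ⟨y', rfl⟩ : ∃ y', y = y' + Pi.single i (τ i : ZMod (q i)) :=
        ⟨y - Pi.single i (τ i : ZMod (q i)), by simp⟩
      have hj := dn_up t4 hi
      have e1 := phi_up (τ := τ) (h := h) y' i
      rw [psi_up (t3 i) (t4 i) hj.2.2, hi.1] at e1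
      rw [e, Int.cast_neg, ht2, add_neg_cancel_right, uu_up (by omega) hj]
      exact ⟨⟨0, by linarith⟩, by simp⟩
  · refine (unmatched t4 hpos (Nat.cast_pos.1 hr0) (β := 1 / (2 * b)) (by positivity)
      (fun i => ?_) t5 ha ha0).trans ?_
    · have h1 : (q i : ℝ) < h * b * τ i + h * b := by exact_mod_cast t2 i
      have h2 : (1 : ℝ) ≤ τ i := by exact_mod_cast t3 i
      have h3 : (0 : ℝ) ≤ h * b := by positivity
      rw [one_div, inv_mul_le_iff₀ (by positivity)]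
      nlinarith
    · have h1 : 1 / (1 / (2 * (b : ℝ)) * r) ≤ γ / 2 := by
        rw [div_lt_iff₀ hγ] at hr
        rw [div_le_iff₀ (by positivity)]
        field_simp
        nlinarith
      have h2 : 1 / (h : ℝ) ≤ γ / 2 := by
        rw [div_lt_iff₀ hγ] at hk
        have : (k : ℝ) ≤ h := by exact_mod_cast Nat.le_mul_of_pos_left _ hh0
        rw [div_le_iff₀ (by positivity)]
        nlinarith
      linarith
  · rw [hs]
    rcases uu_cases (τ := τ) (h := h) (t := t) a y with e | ⟨ha, i, hi, e⟩ | ⟨ha, i, hi, e⟩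
    · left; rw [e]; simp
    · rw [e, ← hi.1]
      exact (stp i y').imp_left fun e => by rw [e]; simp
    · rw [e]
      have := stp i (y' + ((-t i : ℤ) : YY q))
      rw [Int.cast_neg, neg_add_cancel_right, hi.1] at this
      rw [Int.cast_neg]
      refine this.imp (fun e => ⟨0, by linarith⟩) fun e => ?_
      rw [show ∀ u v : ℤ, u - v - a = -(v - u - -a) from fun u v => by ring]
      exact e.neg_right
  · simp only [hs]
    rcases uu_cases (τ := τ) (h := h) (t := t) a y with e | ⟨ha, i, hi, e⟩ | ⟨ha, i, hi, e⟩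
    · rw [e]
      simp only [add_zero, ne_eq, not_true_eq_false, cnt, ind_neg not_false, sum_const_zero]
      positivity
    · rw [e]
      simp only [Int.cast_add, Int.cast_natCast, ht2, ← add_assoc]
      exact rr i y'
    · rw [e]
      refine (cnt_mono fun j _ hj => ?_).trans (rr i (y' - Pi.single i (τ i : ZMod (q i))))
      simp only [Int.cast_add, Int.cast_natCast, Int.cast_neg, ht2] at hj
      convert hj.symm using 2 <;> abel
  · refine (slow t3 t4 (B := N) (lt_of_le_of_lt (by positivity) ((le_max_left _ _).trans_lt hN))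
      fun i => by exact_mod_cast q3 i).trans ?_
    have := (le_max_right _ _).trans_lt hN
    rw [div_lt_iff₀ hη] at this
    rw [div_le_iff₀ (lt_of_le_of_lt (by positivity) ((le_max_left _ _).trans_lt hN))]
    linarith

end Pool.Agent.H49.WH
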