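import Pool.Agent.H49.GI2
import Pool.Agent.H49.WH2

/-! Periodic towers over an arbitrary transformation. -/

set_option autoImplicit false

namespace Pool.Agent.H49.GI

open MeasureTheory Set Filter Topology
open scoped Classical

section
variable (n L : ℕ+)

noncomputable def cmb (w : ℝ) (i : ZMod L) : ℝ :=
  (⌊((n : ℕ) : ℝ) * w⌋ + (i.val + Int.fract (((n : ℕ) : ℝ) * w)) / (L : ℕ)) / (n : ℕ)

noncomputable def ix (t : ℝ) : ZMod L := (⌊((L : ℕ) : ℝ) * Int.fract (((n : ℕ) : ℝ) * t)⌋₊ : ℕ)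

noncomputable def wd (t : ℝ) : ℝ :=
  (⌊((n : ℕ) : ℝ) * t⌋ + Int.fract (((L : ℕ) : ℝ) * Int.fract (((n : ℕ) : ℝ) * t))) / (n : ℕ)

lemma split (k : ℤ) {u : ℝ} (h0 : 0 ≤ u) (h1 : u < 1) :
    ⌊((n : ℕ) : ℝ) * ((k + u) / (n : ℕ))⌋ = k ∧ Int.fract (((n : ℕ) : ℝ) * ((k + u) / (n : ℕ))) = u := by
  rw [mul_div_cancel₀ _ (np n).ne', Int.floor_intCast_add, Int.fract_intCast_add,
    Int.floor_eq_zero_iff.2 ⟨h0, h1⟩, Int.fract_eq_self.2 ⟨h0, h1⟩]
  simp

lemma cmb_split (w : ℝ) (i : ZMod L) : ⌊((n : ℕ) : ℝ) * cmb n L w i⌋ = ⌊((n : ℕ) : ℝ) * w⌋ ∧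
    Int.fract (((n : ℕ) : ℝ) * cmb n L w i) = (i.val + Int.fract (((n : ℕ) : ℝ) * w)) / (L : ℕ) := by
  refine split n _ (div_nonneg (add_nonneg (Nat.cast_nonneg _) (Int.fract_nonneg _)) (np L).le) ?_
  have : (i.val : ℝ) + 1 ≤ (L : ℕ) := by exact_mod_cast i.val_lt
  rw [div_lt_one (np L)]
  linarith [Int.fract_lt_one (((n : ℕ) : ℝ) * w)]

lemma ix_cmb (w : ℝ) (i : ZMod L) : ix n L (cmb n L w i) = i := by
  rw [ix, (cmb_split n L w i).2, mul_div_cancel₀ _ (np L).ne', add_comm,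
    Nat.floor_add_natCast (Int.fract_nonneg _), Nat.floor_eq_zero.2 (Int.fract_lt_one _), zero_add,
    ZMod.natCast_zmod_val]

lemma wd_cmb (w : ℝ) (i : ZMod L) : wd n L (cmb n L w i) = w := by
  rw [wd, (cmb_split n L w i).2, (cmb_split n L w i).1, mul_div_cancel₀ _ (np L).ne',
    Int.fract_natCast_add, Int.fract_fract, Int.floor_add_fract, mul_div_cancel_left₀ _ (np n).ne']

lemma cmb_wd (t : ℝ) : cmb n L (wd n L t) (ix n L t) = t := by
  have h := split n ⌊((n : ℕ) : ℝ) * t⌋ (Int.fract_nonneg (((L : ℕ) : ℝ) *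
    Int.fract (((n : ℕ) : ℝ) * t))) (Int.fract_lt_one _)
  have h0 := mul_nonneg (np L).le (Int.fract_nonneg (((n : ℕ) : ℝ) * t))
  rw [cmb, wd, h.1, h.2, ix, ZMod.val_cast_of_lt ((Nat.floor_lt h0).2
    (mul_lt_of_lt_one_right (np L) (Int.fract_lt_one _))), natCast_floor_eq_intCast_floor h0,
    Int.floor_add_fract, mul_div_cancel_left₀ _ (np L).ne', Int.floor_add_fract,
    mul_div_cancel_left₀ _ (np n).ne']

lemma meas_ix : Measurable (ix n L) :=
  (measurable_from_top (f := fun k : ℕ => (k : ZMod L))).comp (by measurability)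

lemma meas_wd : Measurable (wd n L) := by unfold wd; measurability

lemma meas_cmb (i : ZMod L) : Measurable fun w => cmb n L w i := by unfold cmb; measurability

lemma kf {B : Set ℝ} (hB : MeasurableSet B) (i : ZMod L) :
    volume {t | ix n L t = i ∧ wd n L t ∈ B} = volume B / (L : ℕ) := by
  let d : ℤ → ℝ := fun k => (k - (L : ℕ) * k - i.val) / (n : ℕ)
  let I : ℤ → Set ℝ := fun k => B ∩ {w | ⌊((n : ℕ) : ℝ) * w⌋ = k}
  have mI : ∀ k, MeasurableSet (I k) := fun k => hB.inter (meas_fl n (measurableSet_singleton k))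
  have e : ∀ w, (L : ℕ) * cmb n L w i + d ⌊((n : ℕ) : ℝ) * w⌋ = w := fun w => by
    have := np n
    have := np L
    simp only [cmb, d, Int.fract]
    field_simp
    ring
  have e' : ∀ t k, ⌊((n : ℕ) : ℝ) * ((L : ℕ) * t + d k)⌋ = k → cmb n L ((L : ℕ) * t + d k) i = t :=
    fun t k h => by
      have := e ((L : ℕ) * t + d k)
      rw [h] at this
      exact mul_left_cancel₀ (np L).ne' (add_right_cancel this)
  have h1 : {t | ix n L t = i ∧ wd n L t ∈ B} =
      ⋃ k, (fun t => ((L : ℕ) : ℝ) * t) ⁻¹' ((fun t => t + d k) ⁻¹' I k) := by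
    ext t
    simp only [mem_iUnion, mem_preimage]
    refine ⟨fun h => ⟨⌊((n : ℕ) : ℝ) * wd n L t⌋, ?_⟩, fun ⟨k, h⟩ => ?_⟩
    · have := e (wd n L t)
      rw [← h.1, cmb_wd] at this
      rw [this]
      exact ⟨h.2, rfl⟩
    · rw [← e' t k h.2]
      exact ⟨ix_cmb _ _ _ _, by rw [wd_cmb]; exact h.1⟩
  have h2 : B = ⋃ k, I k := by ext; simp [I]
  rw [h1, measure_iUnion (fun k k' h => disjoint_left.2 fun t a b => h ?_) fun k =>
    (measurable_const_mul _) ((measurable_add_const _) (mI k))]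
  · simp only [Real.volume_preimage_mul_left (np L).ne', measure_preimage_add_right]
    rw [ENNReal.tsum_mul_left, ← measure_iUnion (fun k k' h => disjoint_left.2 fun t a b =>
      h (a.2.symm.trans b.2)) mI, ← h2, abs_of_pos (inv_pos.2 (np L)), ENNReal.ofReal_inv_of_pos (np L),
      ENNReal.ofReal_natCast, ENNReal.div_eq_inv_mul]
  · have a1 := (cmb_split n L _ i).1.trans a.2
    have b1 := (cmb_split n L _ i).1.trans b.2
    rw [e' t k a.2] at a1
    rw [e' t k' b.2] at b1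
    exact a1.symm.trans b1

lemma kf2 {P : ZMod L → Set ℝ} (hP : ∀ i, MeasurableSet (P i)) :
    volume {t | wd n L t ∈ P (ix n L t)} = ∑ i, volume (P i) / (L : ℕ) := by
  have : {t | wd n L t ∈ P (ix n L t)} = ⋃ i, {t | ix n L t = i ∧ wd n L t ∈ P i} := by
    ext t; simp
  rw [this, measure_iUnion (f := fun i => {t | ix n L t = i ∧ wd n L t ∈ P i})
    (fun i j h => disjoint_left.2 fun t a b => h (a.1.symm.trans b.1))
    fun i => (meas_ix n L (measurableSet_singleton i)).inter (meas_wd n L (hP i)), tsum_fintype]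
  exact Finset.sum_congr rfl fun i _ => kf n L (hP i) i

variable (T : Aut) (e : ZMod L → ℤ)

noncomputable def tw (m : ℤ) (t : ℝ) : ℝ :=
  cmb n L ((T ^ (e (ix n L t + m) - e (ix n L t))).1 (wd n L t)) (ix n L t + m)

lemma tw_add (a b : ℤ) (t : ℝ) : tw n L T e a (tw n L T e b t) = tw n L T e (a + b) t := by
  simp only [tw, ix_cmb, wd_cmb]
  rw [← Equiv.Perm.mul_apply, ← Subgroup.coe_mul, ← zpow_add, Int.cast_add, add_comm (a : ZMod L),
    ← add_assoc, sub_add_sub_cancel]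

lemma tw_zero {m : ℤ} (h : (m : ZMod L) = 0) (t : ℝ) : tw n L T e m t = t := by
  simp [tw, h, cmb_wd]

lemma tw_mp (m : ℤ) : MeasurePreserving (tw n L T e m) volume volume := by
  have mf : Measurable (tw n L T e m) := fun E hE => by
    have : tw n L T e m ⁻¹' E = ⋃ i, ix n L ⁻¹' {i} ∩ wd n L ⁻¹'
        ((T ^ (e (i + m) - e i)).1 ⁻¹' {w | cmb n L w (i + m) ∈ E}) := by
      ext t
      simp only [mem_preimage, mem_iUnion, mem_inter_iff, mem_singleton_iff, exists_eq_left',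
        mem_ofPred_eq, tw]
    rw [this]
    exact .iUnion fun i => (meas_ix n L (measurableSet_singleton i)).inter
      (meas_wd n L ((T ^ (e (i + m) - e i)).2.1.measurable (meas_cmb n L _ hE)))
  refine ⟨mf, Measure.ext fun E hE => ?_⟩
  have a := kf2 n L (P := fun i => (T ^ (e (i + m) - e i)).1 ⁻¹' {w | cmb n L w (i + m) ∈ E})
    fun i => (T ^ (e (i + m) - e i)).2.1.measurable (meas_cmb n L _ hE)
  have b := kf2 n L (P := fun i => {w | cmb n L w i ∈ E}) fun i => meas_cmb n L _ hE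
  simp only [mem_ofPred_eq, cmb_wd, ofPred_mem_eq] at b
  rw [Measure.map_apply mf hE, b, ← Equiv.sum_comp (Equiv.addRight (m : ZMod L))]
  refine a.trans (Finset.sum_congr rfl fun i _ => ?_)
  exact congrArg (· / _)
    ((T ^ (e (i + m) - e i)).2.1.measure_preimage (meas_cmb n L _ hE).nullMeasurableSet)

noncomputable def twr : Aut :=
  ⟨⟨tw n L T e 1, tw n L T e (-1), fun t => by rw [tw_add]; exact tw_zero _ _ _ _ (by simp) t,
    fun t => by rw [tw_add]; exact tw_zero _ _ _ _ (by simp) t⟩, tw_mp n L T e 1, tw_mp n L T e (-1)⟩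

lemma twr_zpow (m : ℤ) (t : ℝ) : (twr n L T e ^ m).1 t = tw n L T e m t := by
  induction m using Int.induction_on generalizing t with
  | zero => rw [tw_zero _ _ _ _ (by simp)]; rfl
  | succ k ih => rw [zpow_add_one, Subgroup.coe_mul, Equiv.Perm.mul_apply, ih, ← tw_add]; rfl
  | pred k ih =>
    rw [zpow_sub_one, Subgroup.coe_mul, Equiv.Perm.mul_apply, ih, sub_eq_add_neg, ← tw_add]; rfl

lemma twr_dist (m : ℤ) (D D' : Finset ℤ) : dist ((twr n L T e ^ m) • Iv n D) (Iv n D') =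
    WH.av fun i => dist ((T ^ (e (i + m) - e i)) • Iv n D) (Iv n D') := by
  have a := kf2 n L (P := fun i => symmDiff ((T ^ (e (i + (-m : ℤ)) - e i))⁻¹ • Iv n D).1 (Iv n D').1)
    fun i => (M.property _).1.symmDiff (M.property _).1
  have b : symmDiff ((twr n L T e ^ m) • Iv n D).1 (Iv n D').1 = {t | wd n L t ∈
      symmDiff ((T ^ (e (ix n L t + (-m : ℤ)) - e (ix n L t)))⁻¹ • Iv n D).1 (Iv n D').1} := by
    ext t
    have c : t ∈ (Iv n D').1 ↔ wd n L t ∈ (Iv n D').1 := by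
      change _ ∈ D' ↔ _ ∈ D'
      rw [← (cmb_split n L (wd n L t) (ix n L t)).1, cmb_wd]
    have d : t ∈ ((twr n L T e ^ m) • Iv n D).1 ↔
        wd n L t ∈ ((T ^ (e (ix n L t + (-m : ℤ)) - e (ix n L t)))⁻¹ • Iv n D).1 := by
      rw [← inv_inv (twr n L T e ^ m), ← zpow_neg]
      change ⌊_ * (twr n L T e ^ (-m)).1 t⌋ ∈ D ↔ _
      rw [twr_zpow, tw, (cmb_split n L _ _).1]
      rfl
    simp only [mem_symmDiff, mem_ofPred_eq, c, d]
  rw [dist_def, b, Measure.real, a, ENNReal.toReal_sum fun i _ =>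
    ENNReal.div_ne_top (sd_ne _ _) (by simp), WH.av, Finset.sum_div, ZMod.card,
    ← Equiv.sum_comp (Equiv.addRight (m : ZMod L))]
  refine Finset.sum_congr rfl fun i _ => ?_
  rw [ENNReal.toReal_div, ← zpow_neg, neg_sub]
  simp [dist_def, Measure.real]

end

theorem tower (T : Aut) (L : ℕ+) (e : ZMod L → ℤ) (F : Finset M) {ε : ℝ} (hε : 0 < ε) :
    ∃ R : Aut, R ^ (L : ℤ) = 1 ∧ (∀ (m : ℤ) t, (R ^ m).1 t = t → (m : ZMod L) = 0) ∧
      ∀ m : ℤ, ∀ A ∈ F, ∀ B ∈ F, dist ((R ^ m) • A) B ≤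
        WH.av (fun i => dist ((T ^ (e (i + m) - e i)) • A) B) + ε := by
  choose N hN using fun A : M => app A (show 0 < ε / 4 by positivity)
  let n := (∑ A ∈ F, N A).succPNat
  have hn : ∀ A ∈ F, ∃ D, dist A (Iv n D) ≤ ε / 4 := fun A hA => hN A n
    ((Finset.single_le_sum (fun _ _ => Nat.zero_le _) hA).trans (Nat.le_succ _))
  refine ⟨twr n L T e, Subtype.ext (Equiv.ext fun t => ?_), fun m t h => ?_, fun m A hA B hB => ?_⟩
  · rw [twr_zpow]; exact tw_zero _ _ _ _ (by simp) t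
  · have := congrArg (ix n L) h
    rwa [twr_zpow, tw, ix_cmb, add_eq_left] at this
  · obtain ⟨D, a⟩ := hn A hA
    obtain ⟨D', b⟩ := hn B hB
    have c := dist_triangle4 ((twr n L T e ^ m) • A) ((twr n L T e ^ m) • Iv n D) (Iv n D') B
    rw [ds, twr_dist, dist_comm (Iv n D') B] at c
    have d := WH.av_mono (f := fun i => dist ((T ^ (e (i + m) - e i)) • Iv n D) (Iv n D'))
      (g := fun i => dist ((T ^ (e (i + m) - e i)) • A) B + ε / 2) fun i => by
        have := dist_triangle4 ((T ^ (e (i + m) - e i)) • Iv n D) ((T ^ (e (i + m) - e i)) • A) B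
          (Iv n D')
        rw [ds, dist_comm _ A] at this
        linarith
    rw [WH.av_add, WH.av_const] at d
    linarith

lemma av_bad {X : Type} [Fintype X] [Nonempty X] {f : X → ℝ} {x C : ℝ} (hx : 0 ≤ x)
    (P : X → Prop) (h1 : ∀ i, f i ≤ C) (h2 : ∀ i, ¬P i → f i ≤ x) :
    WH.av f ≤ x + C * WH.fr P := by
  rw [WH.fr, ← WH.av_mul, ← WH.av_const (X := X) x, ← WH.av_add]
  refine WH.av_mono fun i => ?_
  by_cases h : P i
  · rw [WH.ind_pos h]; linarith [h1 i]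
  · rw [WH.ind_neg h]; linarith [h2 i h]

end Pool.Agent.H49.GI
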