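import Pool.Agent.H49.GI3

/-! The generic transformation embeds in a flow. -/

set_option autoImplicit false

namespace Pool.Agent.H49.GI

open MeasureTheory Set Filter Topology
open scoped Classical

def ee (N : ℕ) (a : ℤ) (y : ℕ) : ℤ := (y / N : ℕ) + a * (y % N : ℕ)

lemma ee_succ {N : ℕ} (hN : 0 < N) (a : ℤ) (y : ℕ) :
    ee N a (y + 1) - ee N a y = a ∨ ee N a (y + 1) - ee N a y = 1 - a * (N - 1) := by
  have h0 := Nat.div_add_mod y N
  have h1 := Nat.mod_lt y hN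
  by_cases h : y % N + 1 < N
  · left
    obtain ⟨a1, a2⟩ := (Nat.div_mod_unique hN (a := y + 1) (d := y / N) (c := y % N + 1)).2
      ⟨by omega, h⟩
    rw [ee, ee, a1, a2]; push_cast; ring
  · right
    obtain ⟨a1, a2⟩ := (Nat.div_mod_unique hN (a := y + 1) (d := y / N + 1) (c := 0)).2
      ⟨by rw [mul_add]; omega, hN⟩
    have : ((y % N : ℕ) : ℤ) = N - 1 := by omega
    rw [ee, ee, a1, a2, this]; push_cast; ring

lemma ee_add {N : ℕ} (hN : 0 < N) (a : ℤ) (y : ℕ) : ee N a (y + N) - ee N a y = 1 := by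
  rw [ee, ee, Nat.add_div_right _ hN, Nat.add_mod_right]; push_cast; ring

lemma val_add {L : ℕ+} (x : ZMod L) {m : ℕ} (h : x.val + m < L) :
    (x + ((m : ℤ) : ZMod L)).val = x.val + m := by
  rw [Int.cast_natCast, ZMod.val_add, ZMod.val_natCast, Nat.add_mod_mod, Nat.mod_eq_of_lt h]

lemma exists_C (F : Finset M) : ∃ C : ℝ, 0 < C ∧ ∀ (T : Aut), ∀ A ∈ F, ∀ B ∈ F,
    dist (T • A) B ≤ C :=
  ⟨2 * ∑ A ∈ F, sz A + 1, by have := Finset.sum_nonneg fun A (_ : A ∈ F) => sz_nonneg A; linarith,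
    fun T A hA B hB => by
      have := Finset.single_le_sum (fun A _ => sz_nonneg A) hA
      have := Finset.single_le_sum (fun A _ => sz_nonneg A) hB
      linarith [dist_le_sz T A B]⟩

lemma flow_step (T : Aut) {N : ℕ} (hN : 0 < N) (a : ℤ) (F : Finset M) {ε : ℝ} (hε : 0 < ε) :
    ∃ (R : Aut) (Q : ℕ) (a' : ℤ), 0 < Q ∧ (R ^ ((N * Q : ℕ) : ℤ)) ^ a' = R ∧
      (∀ A ∈ F, dist (R ^ ((N * Q : ℕ) : ℤ) • A) (T • A) ≤ ε) ∧ (∀ A ∈ F, dist (R • A) A ≤ ε) ∧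
      ∀ A ∈ F, ∀ B ∈ F, ∀ x, 0 ≤ x → dist (T ^ a • A) B ≤ x → dist (T ^ (1 - a * (N - 1)) • A) B ≤ x →
        dist (R ^ (Q : ℤ) • A) B ≤ x + ε ∧
          (dist A B ≤ x → ∀ i : ℕ, i ≤ Q → dist (R ^ (i : ℤ) • A) B ≤ x + ε) := by
  set F' := F ∪ F.image fun A => T • A
  obtain ⟨C, C0, hC⟩ := exists_C F'
  obtain ⟨Q, hQ⟩ := exists_nat_gt (C / (ε / 4))
  have Q0 : (0 : ℝ) < Q := lt_trans (by positivity) hQ
  have Q1 : 0 < Q := Nat.cast_pos.1 Q0
  have hQ' : C * (1 / Q) ≤ ε / 4 := by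
    rw [div_lt_iff₀ (by positivity)] at hQ
    rw [mul_one_div, div_le_iff₀ Q0]; linarith
  let L : ℕ+ := (N * Q * Q).succPNat
  have hL : (L : ℕ) = N * Q * Q + 1 := rfl
  have hQN : Q ≤ N * Q := Nat.le_mul_of_pos_left _ hN
  have hQL : N * Q ≤ N * Q * Q := Nat.le_mul_of_pos_right _ Q1
  obtain ⟨R, r1, -, r2⟩ := tower T L (fun x => ee N a (x.val / Q)) F' (half_pos hε)
  have b1 : WH.fr (fun x : ZMod L => ¬x.val + N * Q < L) ≤ 1 / Q := by
    rw [WH.fr_val _ fun v => ¬v + N * Q < L, div_le_div_iff₀ (np L) Q0]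
    have := WH.cnt_mono (L := L) (P := fun v => ¬v + N * Q < L)
      (Q := fun v => L - N * Q ≤ v ∧ v < L) fun j h1 h2 => by omega
    rw [WH.cnt_Ico (by omega) le_rfl, Nat.cast_sub (by omega)] at this
    have h2 : ((L : ℕ) : ℝ) = (N * Q : ℕ) * Q + 1 := by rw [hL]; push_cast; rfl
    nlinarith
  have b2 : WH.fr (fun x : ZMod L => Q ∣ x.val + 1) ≤ 1 / Q := by
    rw [WH.fr_val _ fun v => Q ∣ v + 1, div_le_div_iff₀ (np L) Q0, one_mul]
    have : WH.cnt L (fun v => Q ∣ v + 1) = (L / Q : ℕ) := by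
      rw [← Nat.card_multiples, Finset.card_filter, WH.cnt, Nat.cast_sum]
      exact Finset.sum_congr rfl fun v _ => by by_cases hv : Q ∣ v + 1 <;> simp [WH.ind, hv]
    rw [this]
    exact_mod_cast Nat.div_mul_le_self _ _
  have gen : ∀ (m : ℕ) (P : ZMod L → Prop), m ≤ N * Q → WH.fr P ≤ 1 / Q → ∀ A ∈ F', ∀ B ∈ F', ∀ x,
      0 ≤ x → (∀ v : ZMod L, ¬P v →
        dist (T ^ (ee N a ((v.val + m) / Q) - ee N a (v.val / Q)) • A) B ≤ x) →
      dist (R ^ (m : ℤ) • A) B ≤ x + ε := fun m P hm hP A hA B hB x hx h => by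
    have c := av_bad hx (fun v : ZMod L => ¬v.val + N * Q < L ∨ P v)
      (f := fun v => dist (T ^ (ee N a ((v + ((m : ℤ) : ZMod L)).val / Q) - ee N a (v.val / Q)) • A) B)
      (fun v => hC _ A hA B hB) fun v hv => by
        rw [not_or, not_not] at hv
        rw [val_add v (by omega)]
        exact h v hv.2
    have d := mul_le_mul_of_nonneg_left ((WH.fr_or fun v hv => hv).trans (add_le_add b1 hP)) C0.le
    linarith [r2 m A hA B hB]
  have f0 : WH.fr (fun _ : ZMod L => False) ≤ 1 / Q := by rw [WH.fr_false fun _ => id]; positivity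
  have s1 : ∀ A ∈ F, A ∈ F' := fun A hA => Finset.mem_union_left _ hA
  refine ⟨R, Q, -Q, Q1, ?_, fun A hA => ?_, fun A hA => ?_, fun A hA B hB x hx h1 h2 => ⟨?_, ?_⟩⟩
  · rw [← zpow_mul, show ((N * Q : ℕ) : ℤ) * -Q = 1 - L by
      rw [show (L : ℤ) = ((L : ℕ) : ℤ) from rfl, hL]; push_cast; ring, zpow_sub, r1]
    simp
  · rw [← zero_add ε]
    refine gen _ _ le_rfl f0 A (s1 A hA) _ (Finset.mem_union_right _ (Finset.mem_image_of_mem _ hA))
      0 le_rfl fun v _ => ?_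
    rw [Nat.add_mul_div_right _ _ Q1, ee_add hN]; simp
  · rw [← zero_add ε, ← zpow_one R]
    refine gen 1 _ (by omega) b2 A (s1 A hA) A (s1 A hA) 0 le_rfl fun v hv => ?_
    rw [Nat.succ_div_of_not_dvd hv]; simp
  · refine gen _ _ hQN f0 A (s1 A hA) B (s1 B hB) x hx fun v _ => ?_
    rw [Nat.add_div_right _ Q1]
    rcases ee_succ hN a (v.val / Q) with e | e <;> rwa [e]
  · refine fun h3 i hi => gen _ _ (hi.trans hQN) f0 A (s1 A hA) B (s1 B hB) x hx fun v _ => ?_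
    have c1 : v.val / Q ≤ (v.val + i) / Q := Nat.div_le_div_right (by omega)
    have c2 : (v.val + i) / Q ≤ v.val / Q + 1 := by
      rw [← Nat.add_div_right _ Q1]; exact Nat.div_le_div_right (by omega)
    rcases c2.eq_or_lt with e | e
    · rw [e]
      rcases ee_succ hN a (v.val / Q) with e | e <;> rwa [e]
    · rw [show (v.val + i) / Q = v.val / Q by omega]; simpa using h3

noncomputable def dl (k : ℕ) : ℝ := (1 / 2) ^ k

lemma dl_pos (k : ℕ) : 0 < dl k := by unfold dl; positivity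

lemma dl_succ (k : ℕ) : dl (k + 1) = dl k / 2 := by unfold dl; ring

lemma dl_tendsto (c : ℝ) : Tendsto (fun k => c * dl k) atTop (𝓝 0) := by
  simpa [dl] using (tendsto_pow_atTop_nhds_zero_of_lt_one (r := (1 / 2 : ℝ)) (by norm_num)
    (by norm_num)).const_mul c

lemma tele {u : ℕ → M} {c : ℝ} {k0 : ℕ} (h : ∀ k ≥ k0, dist (u (k + 1)) (u k) ≤ c * dl k) {k l : ℕ}
    (hk : k0 ≤ k) (hl : k ≤ l) : dist (u l) (u k) ≤ 2 * c * dl k - 2 * c * dl l := by
  induction hl with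
  | refl => simp
  | @step l hl ih =>
    have := dist_triangle (u (l + 1)) (u l) (u k)
    have := h l (hk.trans hl)
    rw [dl_succ]
    linarith

lemma cauchy_of {u : ℕ → Aut} {c : ℝ} (hc : 0 ≤ c)
    (h : ∀ p, ∃ k0, ∀ k ≥ k0, dist (u (k + 1) • J p) (u k • J p) ≤ c * dl k) (A : M) :
    CauchySeq fun k => u k • A := by
  rw [cauchySeq_iff_tendsto_dist_atTop_0]
  refine small (f := fun q : ℕ × ℕ => u q.1) (g := fun q => u q.2) (fun p => ?_) A
  refine (cauchySeq_iff_tendsto_dist_atTop_0 (u := fun k => u k • J p)).1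
    (Metric.cauchySeq_iff'.2 fun ε hε => ?_)
  obtain ⟨k0, hk⟩ := h p
  obtain ⟨k, k1, k2⟩ := (((dl_tendsto (2 * c)).eventually (gt_mem_nhds hε)).and
    (eventually_ge_atTop k0)).exists
  refine ⟨k, fun l hl => ?_⟩
  have := tele (u := fun k => u k • J p) hk k2 hl
  have := mul_nonneg hc (dl_pos l).le
  linarith

lemma mono_FF {k l : ℕ} (h : k ≤ l) : FF k ⊆ FF l := Finset.image_subset_image (Finset.range_mono h)

structure FS where
  R : Aut
  a : ℤ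
  N : ℕ
  V : Set Aut

def FP (k : ℕ) (s : FS) : Prop :=
  0 < s.N ∧ IsOpen s.V ∧ s.V ⊆ Bl (s.R ^ (s.N : ℤ)) (FF k) (dl k) ∧
    (∀ A ∈ FF k, dist (s.R • A) A ≤ dl k) ∧ ∃ (B : Finset M) (δ : ℝ), 0 < δ ∧ δ ≤ dl k ∧ FF k ⊆ B ∧
      (∀ S ∈ Bl s.R B δ, ∀ j : ℤ, |j| ≤ k * s.N → S ^ j ∈ Bl (s.R ^ j) (FF k) (dl k)) ∧
      ∀ T ∈ s.V, T ^ s.a ∈ Bl s.R B (δ / 2) ∧ T ^ (1 - s.a * (s.N - 1)) ∈ Bl s.R B (δ / 2)

def FR (k : ℕ) (s s' : FS) : Prop :=
  ∃ Q : ℕ, 0 < Q ∧ s'.N = s.N * Q ∧ ∀ j i : ℤ, |j| ≤ k * s.N → |i| ≤ Q → ∀ A ∈ FF k,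
    dist (s'.R ^ (Q * j + i) • A) (s.R ^ j • A) ≤ 4 * dl k

lemma mkV (k : ℕ) {R : Aut} {a : ℤ} {N : ℕ} (hN : 0 < N) (h : (R ^ (N : ℤ)) ^ a = R)
    (h' : ∀ A ∈ FF k, dist (R • A) A ≤ dl k) {O : Set Aut} (hO : IsOpen O) (hR : R ^ (N : ℤ) ∈ O) :
    ∃ V, FP k ⟨R, a, N, V⟩ ∧ V.Nonempty ∧ V ⊆ O := by
  have d := dl_pos k
  obtain ⟨B, δ, b1, b2⟩ := nbhd (V := ⋂ j ∈ Finset.Icc (-(k * N : ℤ)) (k * N),
    (fun S => S ^ j) ⁻¹' Bl (R ^ j) (FF k) (dl k)) (isOpen_biInter_finset fun j _ =>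
      (open_Bl _ _ d).preimage (continuous_zpow j)) R (mem_iInter₂.2 fun j _ => mem_Bl _ _ d)
  have hδ : 0 < min δ (dl k) / 2 := by positivity
  refine ⟨O ∩ Bl (R ^ (N : ℤ)) (FF k) (dl k) ∩
    ((fun T => T ^ a) ⁻¹' Bl R (B ∪ FF k) (min δ (dl k) / 2) ∩
      (fun T => T ^ (1 - a * (N - 1))) ⁻¹' Bl R (B ∪ FF k) (min δ (dl k) / 2)),
    ⟨hN, (hO.inter (open_Bl _ _ d)).inter (((open_Bl _ _ hδ).preimage (continuous_zpow _)).inter
      ((open_Bl _ _ hδ).preimage (continuous_zpow _))), fun T hT => hT.1.2, h', B ∪ FF k,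
      min δ (dl k), by positivity, min_le_right _ _, Finset.subset_union_right,
      fun S hS j hj => mem_iInter₂.1 (b2 fun A hA => (hS A (Finset.mem_union_left _ hA)).trans_le
        (min_le_left _ _)) j (Finset.mem_Icc.2 (abs_le.1 hj)), fun T hT => hT.2⟩,
    ⟨R ^ (N : ℤ), ⟨hR, mem_Bl _ _ d⟩, ?_, ?_⟩, fun T hT => hT.1.1⟩
  · rw [mem_preimage, h]; exact mem_Bl _ _ hδ
  · rw [mem_preimage, zpow_sub, zpow_one, zpow_mul, h, zpow_sub, zpow_one]
    convert mem_Bl R _ hδ using 1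
    group

lemma flow_next {k : ℕ} {s : FS} (h : FP k s) {O : Set Aut} (hO : IsOpen O) (hn : O.Nonempty)
    (hs : O ⊆ s.V) : ∃ s', FP (k + 1) s' ∧ FR k s s' ∧ s'.V.Nonempty ∧ s'.V ⊆ O := by
  obtain ⟨R, a, N, V⟩ := s
  obtain ⟨g1, -, -, g4, B, δ, g5, g6, g7, g8, g9⟩ := h
  dsimp only at *
  obtain ⟨T, hT⟩ := hn
  obtain ⟨F, γ, f1, f2⟩ := nbhd hO T hT
  obtain ⟨t1, t2⟩ := g9 T (hs hT)
  have d := dl_pos (k + 1)
  obtain ⟨ε, e0, e1, e2, e3⟩ : ∃ ε, 0 < ε ∧ ε < γ ∧ ε < δ / 2 ∧ ε ≤ dl (k + 1) :=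
    ⟨min (γ / 2) (min (δ / 4) (dl (k + 1))), by positivity,
      (min_le_left _ _).trans_lt (by linarith),
      ((min_le_right _ _).trans (min_le_left _ _)).trans_lt (by linarith),
      (min_le_right _ _).trans (min_le_right _ _)⟩
  obtain ⟨R', Q, a', r1, r2, r3, r4, r5⟩ := flow_step T g1 a
    (F ∪ FF (k + 1) ∪ (B ∪ B.image fun A => R • A)) e0
  obtain ⟨V', v1, v2, v3⟩ := mkV (k + 1) (Nat.mul_pos g1 r1) r2
    (fun A hA => (r4 A (by simp [hA])).trans e3) hO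
    (f2 fun A hA => (r3 A (by simp [hA])).trans_lt e1)
  refine ⟨⟨R', a', N * Q, V'⟩, v1, ⟨Q, r1, rfl, fun j i hj hi A hA => ?_⟩, v2, v3⟩
  dsimp only at *
  have hB := g7 hA
  have a1 := g8 (R' ^ (Q : ℤ)) (fun A hA => (r5 A (by simp [hA]) (R • A)
    (by simp only [Finset.mem_union, Finset.mem_image]; exact .inr (.inr ⟨A, hA, rfl⟩))
    (δ / 2) (by positivity) (t1 A hA).le (t2 A hA).le).1.trans_lt (by linarith)) j hj A hA
  have a2 := (r5 A (by simp [hB]) A (by simp [hB]) (δ / 2 + dl k) (by linarith [dl_succ k])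
    ((dist_triangle _ (R • A) _).trans (add_le_add (t1 A hB).le (g4 A hA)))
    ((dist_triangle _ (R • A) _).trans (add_le_add (t2 A hB).le (g4 A hA)))).2
    (by rw [dist_self]; linarith [dl_succ k]) i.natAbs
    (by have := abs_le.1 hi; omega)
  have a3 : dist (R' ^ i • A) A = dist (R' ^ (i.natAbs : ℤ) • A) A := by
    rcases Int.natAbs_eq i with e | e
    · rw [← e]
    · rw [← ds (R' ^ (i.natAbs : ℤ)), ← mul_smul, ← zpow_add, dist_comm]
      rw [show (i.natAbs : ℤ) + i = 0 by omega]; simp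
  have a4 := dist_triangle (R' ^ (Q * j + i) • A) ((R' ^ (Q : ℤ)) ^ j • A) (R ^ j • A)
  rw [zpow_add, zpow_mul, mul_smul, ds] at a4
  rw [zpow_add, zpow_mul, mul_smul]
  linarith [dl_succ k]

lemma floor_split (t : ℝ) (N : ℕ) {Q : ℕ} (hQ : 0 < Q) :
    ∃ i : ℤ, |i| ≤ Q ∧ ⌊t * (N * Q : ℕ)⌋ = Q * ⌊t * N⌋ + i := by
  have h := Int.floor_div_natCast (t * (N * Q : ℕ)) Q
  rw [show t * (N * Q : ℕ) / Q = t * N by push_cast; field_simp] at h
  have := Int.emod_nonneg ⌊t * (N * Q : ℕ)⌋ (b := Q) (by omega)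
  have := Int.emod_lt_of_pos ⌊t * (N * Q : ℕ)⌋ (b := Q) (by omega)
  exact ⟨⌊t * (N * Q : ℕ)⌋ % Q, abs_le.2 ⟨by omega, by omega⟩, by rw [h, Int.mul_ediv_add_emod]⟩

lemma flow_lim {s : ℕ → FS} (h : ∀ k, FP k (s k)) (r : ∀ k, FR k (s k) (s (k + 1))) {T : Aut}
    (hT : ∀ k, T ∈ (s k).V) : InFlow T := by
  let u : ℝ → ℕ → Aut := fun t k => (s k).R ^ ⌊t * (s k).N⌋
  have st : ∀ (t : ℝ) (k : ℕ), |t| ≤ k → ∀ A ∈ FF k, dist (u t (k + 1) • A) (u t k • A) ≤ 4 * dl k ∧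
      dist ((u t (k + 1))⁻¹ • A) ((u t k)⁻¹ • A) ≤ 4 * dl k := fun t k ht A hA => by
    obtain ⟨Q, q1, q2, q3⟩ := r k
    obtain ⟨i, i1, i2⟩ := floor_split t (s k).N q1
    have hN : (0 : ℝ) ≤ (s k).N := Nat.cast_nonneg _
    have hj : |⌊t * (s k).N⌋| ≤ k * (s k).N := abs_le.2
      ⟨Int.le_floor.2 (by push_cast; nlinarith [(abs_le.1 ht).1]),
        Int.floor_le_iff.2 (by push_cast; nlinarith [(abs_le.1 ht).2])⟩
    simp only [u, q2, i2, ← zpow_neg, neg_add, ← mul_neg]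
    exact ⟨q3 _ _ hj i1 A hA, q3 _ _ (by rwa [abs_neg]) (by rwa [abs_neg]) A hA⟩
  have ev : ∀ (t : ℝ) p, ∃ k0 : ℕ, ∀ k ≥ k0, |t| ≤ k ∧ J p ∈ FF k := fun t p => by
    obtain ⟨k1, h1⟩ := exists_nat_ge |t|
    obtain ⟨k2, h2⟩ := ev_FF p
    exact ⟨k1 + k2, fun k hk => ⟨h1.trans (by exact_mod_cast (by omega)), h2 k (by omega)⟩⟩
  choose F hF using fun t => complete (u t)
    (cauchy_of (c := 4) (by norm_num) fun p => (ev t p).imp fun k0 h0 k hk =>
      (st t k (h0 k hk).1 _ (h0 k hk).2).1)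
    (cauchy_of (c := 4) (by norm_num) fun p => (ev t p).imp fun k0 h0 k hk =>
      (st t k (h0 k hk).1 _ (h0 k hk).2).2)
  have sm : ∀ {f g : ℕ → Aut}, (∀ k, ∀ A ∈ FF k, dist (f k • A) (g k • A) ≤ dl k) →
      ∀ A : M, Tendsto (fun k => dist (f k • A) (g k • A)) atTop (𝓝 0) := fun hfg =>
    small fun p => squeeze_zero' (Eventually.of_forall fun _ => dist_nonneg)
      (eventually_atTop.2 ((ev_FF p).imp fun k0 h0 k hk => hfg k _ (h0 k hk)))
      (by simpa using dl_tendsto 1)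
  have one : ∀ k (e : ℤ), -1 ≤ e → e ≤ 1 → ∀ A ∈ FF k, dist ((s k).R ^ e • A) A ≤ dl k :=
    fun k e e1 e2 A hA => by
      have := (h k).2.2.2.1 A hA
      interval_cases e
      · rwa [← ds (s k).R, zpow_neg_one, smul_inv_smul, dist_comm]
      · simpa using (dl_pos k).le
      · rwa [zpow_one]
  have law : ∀ a b, Eqv (F (a + b)) (F a * F b) := fun a b =>
    eqv_of (hF (a + b)) ((hF a).mul (hF b)) (sm fun k A hA => by
      have c1 := Int.le_floor_add (a * (s k).N) (b * (s k).N)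
      have c2 := Int.le_floor_add_floor (a * (s k).N) (b * (s k).N)
      simp only [u, add_mul, ← zpow_add]
      rw [← add_sub_cancel (⌊a * (s k).N⌋ + ⌊b * (s k).N⌋) ⌊a * (s k).N + b * (s k).N⌋, zpow_add,
        mul_smul, ds]
      exact one k _ (by omega) (by omega) A hA)
  have zero : ∀ A : M, Tendsto (fun t => dist (F t • A) ((1 : Aut) • A)) (𝓝 0) (𝓝 0) :=
    small fun p => Metric.tendsto_nhds.2 fun ε hε => by
      obtain ⟨k0, hk⟩ := ev 1 p
      obtain ⟨k, k1, k2⟩ := (((dl_tendsto 9).eventually (gt_mem_nhds hε)).and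
        (eventually_ge_atTop k0)).exists
      have hN : (0 : ℝ) < (s k).N := Nat.cast_pos.2 (h k).1
      have hN1 : (1 : ℝ) ≤ (s k).N := by exact_mod_cast (h k).1
      filter_upwards [Metric.ball_mem_nhds 0 (one_div_pos.2 hN)] with t ht
      rw [mem_ball_zero_iff, Real.norm_eq_abs, lt_div_iff₀ hN] at ht
      have ht1 : |t| ≤ |1| := by rw [abs_one]; nlinarith [abs_nonneg t]
      rw [← abs_of_pos hN, ← abs_mul, abs_lt] at ht
      have c1 := one k ⌊t * (s k).N⌋ (Int.le_floor.2 (by push_cast; linarith))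
        (Int.floor_le_iff.2 (by push_cast; linarith)) _ (hk k k2).2
      have c2 : dist (F t • J p) (u t k • J p) ≤ 8 * dl k := by
        refine ge_of_tendsto (f := fun l => dist (u t l • J p) (F t • J p) + 8 * dl k) (x := atTop)
          (by simpa using (tendsto_iff.1 (hF t) (J p)).add_const (8 * dl k))
          ((eventually_ge_atTop k).mono fun l hl => ?_)
        have := tele (u := fun l => u t l • J p) (c := 4) (k0 := k0)
          (fun l hl => (st t l (ht1.trans (hk l hl).1) _ (hk l hl).2).1) k2 hl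
        linarith [dist_triangle_left (F t • J p) (u t k • J p) (u t l • J p), dl_pos l]
      rw [Real.dist_eq, sub_zero, abs_of_nonneg dist_nonneg, one_smul]
      linarith [dist_triangle (F t • J p) (u t k • J p) (J p)]
  refine ⟨F, continuous_iff_continuousAt.2 fun a => tendsto_iff.2 fun A => ?_,
    fun a b => (law a b).ae, Eqv.ae (eqv_of (hF 1) tendsto_const_nhds (sm fun k A hA => ?_))⟩
  · have : Tendsto (fun t => t - a) (𝓝 a) (𝓝 0) := by
      simpa using (continuous_sub_right a).tendsto a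
    refine squeeze_zero (fun _ => dist_nonneg) (fun t => ?_) ((zero A).comp this)
    have c := law a (t - a) A
    have d := dist_triangle (F t • A) ((F a * F (t - a)) • A) (F a • A)
    rw [add_sub_cancel] at c
    rw [c, zero_add, mul_smul, ds] at d
    simpa using d
  · simp only [u, one_mul, Int.floor_natCast]
    rw [dist_comm]
    exact ((h k).2.2.1 (hT k) A hA).le

theorem flow : {T : Aut | InFlow T} ∈ residual Aut :=
  oxtoby FS.V FP FR (fun _ _ h => h.2.1) (fun O hO ⟨T, hT⟩ => by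
    obtain ⟨V, a, b, c⟩ := mkV 0 (R := T) (a := 1) one_pos (by simp) (by simp [FF]) hO
      (by simpa using hT)
    exact ⟨_, a, b, c⟩) (fun _ _ h _ hO hn hs => flow_next h hO hn hs)
    fun _ h r _ hT => flow_lim h r hT

end Pool.Agent.H49.GI
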