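import Pool.Agent.H49.GI4

/-! The generic transformation commutes with a nontrivial involution, hence has a factor. -/

set_option autoImplicit false

namespace Pool.Agent.H49.GI

open MeasureTheory Set Filter Topology
open scoped Classical

lemma fac_step (T : Aut) (h : ℤ) (F : Finset M) {ε : ℝ} (hε : 0 < ε) :
    ∃ (R : Aut) (h' : ℤ), R ^ h' * R ^ h' = 1 ∧ (∀ t, (R ^ h').1 t ≠ t) ∧
      (∀ A ∈ F, dist (R • A) (T • A) ≤ ε) ∧ ∀ A ∈ F, ∀ B ∈ F, ∀ x, dist (T ^ h • A) B ≤ x →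
        dist (T ^ (-h) • A) B ≤ x → dist (R ^ h' • A) B ≤ x + ε := by
  set F' := F ∪ F.image fun A => T • A
  obtain ⟨C, C0, hC⟩ := exists_C F'
  obtain ⟨Q, hQ⟩ := exists_nat_gt (C / (ε / 2))
  have Q0 : (0 : ℝ) < Q := lt_trans (by positivity) hQ
  have Q1 : 0 < Q := Nat.cast_pos.1 Q0
  have hQ' : C * (1 / Q) ≤ ε / 2 := by
    rw [div_lt_iff₀ (by positivity)] at hQ
    rw [mul_one_div, div_le_iff₀ Q0]; linarith
  obtain ⟨L, hL⟩ : ∃ L : ℕ+, (L : ℕ) = 2 * Q := ⟨⟨2 * Q, by omega⟩, rfl⟩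
  obtain ⟨R, r1, r0, r2⟩ := tower T L
    (fun x => if x.val < Q then (x.val : ℤ) else x.val - Q + h) F' (half_pos hε)
  have b2 : WH.fr (fun x : ZMod L => Q ∣ x.val + 1) ≤ 1 / Q := by
    rw [WH.fr_val _ fun v => Q ∣ v + 1, div_le_div_iff₀ (np L) Q0, one_mul]
    have : WH.cnt L (fun v => Q ∣ v + 1) = (L / Q : ℕ) := by
      rw [← Nat.card_multiples, Finset.card_filter, WH.cnt, Nat.cast_sum]
      exact Finset.sum_congr rfl fun v _ => by by_cases hv : Q ∣ v + 1 <;> simp [WH.ind, hv]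
    rw [this]
    exact_mod_cast Nat.div_mul_le_self _ _
  have s1 : ∀ A ∈ F, A ∈ F' := fun A hA => Finset.mem_union_left _ hA
  refine ⟨R, Q, ?_, fun t ht => ?_, fun A hA => ?_, fun A hA B hB x h1 h2 => ?_⟩
  · rw [← zpow_add, ← r1, show (L : ℤ) = ((L : ℕ) : ℤ) from rfl, hL]; congr 1; omega
  · have := r0 _ t ht
    rw [Int.cast_natCast, ZMod.natCast_eq_zero_iff] at this
    have := Nat.le_of_dvd Q1 this
    omega
  · have hA' : T • A ∈ F' := Finset.mem_union_right _ (Finset.mem_image_of_mem _ hA)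
    have a := r2 (1 : ℕ) A (s1 A hA) _ hA'
    refine le_trans (by simp) (a.trans ((add_le_add (av_bad le_rfl
      (fun x : ZMod L => Q ∣ x.val + 1) (fun v => hC _ A (s1 A hA) _ hA') fun v hv => ?_)
        le_rfl).trans (by linarith [mul_le_mul_of_nonneg_left b2 C0.le])))
    have c1 : v.val + 1 ≠ Q := fun e => hv (e ▸ dvd_rfl)
    have c2 : v.val + 1 ≠ 2 * Q := fun e => hv (e ▸ dvd_mul_left _ _)
    have := v.val_lt
    rw [val_add v (by omega)]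
    split_ifs with c3 c4 c4
    · simp
    · omega
    · omega
    · rw [show ((v.val + 1 : ℕ) : ℤ) - Q + h - (v.val - Q + h) = 1 by push_cast; ring]; simp
  · refine (r2 Q A (s1 A hA) B (s1 B hB)).trans (add_le_add ?_ (by linarith))
    rw [← WH.av_const (X := ZMod L) x]
    refine WH.av_mono fun v => ?_
    have := v.val_lt
    by_cases c : v.val < Q
    · rw [val_add v (by omega), if_pos c, if_neg (by omega)]
      rwa [show ((v.val + Q : ℕ) : ℤ) - Q + h - v.val = h by push_cast; ring]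
    · have e : (v + ((Q : ℤ) : ZMod L)).val = v.val - Q := by
        rw [Int.cast_natCast, ZMod.val_add, ZMod.val_natCast, Nat.add_mod_mod,
          Nat.mod_eq_sub_mod (by omega), Nat.mod_eq_of_lt (by omega)]
        omega
      rw [e, if_neg c, if_pos (by omega)]
      rwa [show ((v.val - Q : ℕ) : ℤ) - (v.val - Q + h) = -h by omega]

structure GS where
  R : Aut
  h : ℤ
  A : M
  c : ℝ
  V : Set Aut

def GP (k : ℕ) (s : GS) : Prop :=
  s.R ^ s.h * s.R ^ s.h = 1 ∧ IsOpen s.V ∧ s.V ⊆ Bl s.R (FF k) (dl k) ∧ 0 < s.c ∧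
    s.c + s.c * dl k ≤ dist (s.R ^ s.h • s.A) s.A ∧ ∀ T ∈ s.V,
      T ^ s.h ∈ Bl (s.R ^ s.h) (insert s.A (FF k)) (min s.c 1 * dl k / 4) ∧
      T ^ (-s.h) ∈ Bl (s.R ^ s.h) (insert s.A (FF k)) (min s.c 1 * dl k / 4)

def GR (k : ℕ) (s s' : GS) : Prop :=
  s'.A = s.A ∧ s'.c = s.c ∧ ∀ A ∈ FF k, dist (s'.R ^ s'.h • A) (s.R ^ s.h • A) ≤ 1 * dl k

lemma mkW (k : ℕ) {R : Aut} {h : ℤ} {A : M} {c : ℝ} (h1 : R ^ h * R ^ h = 1) (h2 : 0 < c)
    (h3 : c + c * dl k ≤ dist (R ^ h • A) A) {O : Set Aut} (hO : IsOpen O) (hR : R ∈ O) :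
    ∃ V, GP k ⟨R, h, A, c, V⟩ ∧ V.Nonempty ∧ V ⊆ O := by
  have d := dl_pos k
  have hδ : 0 < min c 1 * dl k / 4 := by positivity
  refine ⟨O ∩ Bl R (FF k) (dl k) ∩
    ((fun T => T ^ h) ⁻¹' Bl (R ^ h) (insert A (FF k)) (min c 1 * dl k / 4) ∩
      (fun T => T ^ (-h)) ⁻¹' Bl (R ^ h) (insert A (FF k)) (min c 1 * dl k / 4)),
    ⟨h1, (hO.inter (open_Bl _ _ d)).inter (((open_Bl _ _ hδ).preimage (continuous_zpow _)).inter
      ((open_Bl _ _ hδ).preimage (continuous_zpow _))), fun T hT => hT.1.2, h2, h3,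
      fun T hT => hT.2⟩, ⟨R, ⟨hR, mem_Bl _ _ d⟩, mem_Bl _ _ hδ, ?_⟩, fun T hT => hT.1.1⟩
  rw [mem_preimage, zpow_neg, inv_eq_of_mul_eq_one_right h1]
  exact mem_Bl _ _ hδ

lemma fac_next {k : ℕ} {s : GS} (h : GP k s) {O : Set Aut} (hO : IsOpen O) (hn : O.Nonempty)
    (hs : O ⊆ s.V) : ∃ s', GP (k + 1) s' ∧ GR k s s' ∧ s'.V.Nonempty ∧ s'.V ⊆ O := by
  obtain ⟨R, a, A, c, V⟩ := s
  obtain ⟨-, -, -, g4, g5, g6⟩ := h
  dsimp only at *
  obtain ⟨T, hT⟩ := hn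
  obtain ⟨F, γ, f1, f2⟩ := nbhd hO T hT
  obtain ⟨t1, t2⟩ := g6 T (hs hT)
  have d := dl_pos k
  obtain ⟨ε, e0, e1, e2⟩ : ∃ ε, 0 < ε ∧ ε < γ ∧ ε ≤ min c 1 * dl k / 4 :=
    ⟨min (γ / 2) (min c 1 * dl k / 4), by positivity, (min_le_left _ _).trans_lt (by linarith),
      min_le_right _ _⟩
  obtain ⟨R', a', r1, -, r3, r4⟩ := fac_step T a
    (F ∪ (insert A (FF k) ∪ (insert A (FF k)).image fun B => R ^ a • B)) e0
  have key : ∀ B ∈ insert A (FF k), dist (R' ^ a' • B) (R ^ a • B) ≤ min c 1 * dl k / 2 :=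
    fun B hB => (r4 B (Finset.mem_union_right _ (Finset.mem_union_left _ hB)) _
      (Finset.mem_union_right _ (Finset.mem_union_right _ (Finset.mem_image_of_mem _ hB))) _
      (t1 B hB).le (t2 B hB).le).trans (by linarith)
  have m1 := mul_le_mul_of_nonneg_right (min_le_left c 1) d.le
  have m2 := mul_le_mul_of_nonneg_right (min_le_right c 1) d.le
  obtain ⟨V', v1, v2, v3⟩ := mkW (k + 1) (A := A) r1 g4 (by
    have := dist_triangle_left (R ^ a • A) A (R' ^ a' • A)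
    rw [dl_succ]
    linarith [key A (Finset.mem_insert_self _ _)]) hO
    (f2 fun B hB => (r3 B (Finset.mem_union_left _ hB)).trans_lt e1)
  exact ⟨⟨R', a', A, c, V'⟩, v1, ⟨rfl, rfl, fun B hB =>
    (key B (Finset.mem_insert_of_mem hB)).trans (by linarith)⟩, v2, v3⟩

lemma fac_zero {O : Set Aut} (hO : IsOpen O) (hn : O.Nonempty) :
    ∃ s, GP 0 s ∧ s.V.Nonempty ∧ s.V ⊆ O := by
  obtain ⟨T, hT⟩ := hn
  obtain ⟨F, γ, f1, f2⟩ := nbhd hO T hT
  obtain ⟨R, a, r1, r2, r3, -⟩ := fac_step T 0 F (half_pos f1)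
  obtain ⟨A, hA⟩ : ∃ A : M, dist (R ^ a • A) ((1 : Aut) • A) ≠ 0 := by
    by_contra hc
    push Not at hc
    obtain ⟨t, ht⟩ := (Eqv.ae hc).exists
    exact r2 t ht
  rw [one_smul] at hA
  obtain ⟨V, v⟩ := mkW 0 (A := A) (c := dist (R ^ a • A) A / 2) r1
    (half_pos (dist_nonneg.lt_of_ne' hA)) (by simp [dl]) hO
    (f2 fun B hB => (r3 B hB).trans_lt (by linarith))
  exact ⟨_, v⟩

@[reducible] def invF (S : Aut) : MeasurableSpace ℝ where
  MeasurableSet' := fun B => MeasurableSet B ∧ S.1 ⁻¹' B =ᵐ[volume] B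
  measurableSet_empty := ⟨.empty, .rfl⟩
  measurableSet_compl := fun B hB => ⟨hB.1.compl, hB.2.compl⟩
  measurableSet_iUnion := fun f hf => ⟨.iUnion fun i => (hf i).1, by
    rw [preimage_iUnion]; exact Filter.EventuallyEq.countable_iUnion fun i => (hf i).2⟩

lemma factor_of {T S : Aut} (h1 : AeEq (S * S) 1) (h2 : AeEq (T * S) (S * T))
    (h3 : AeEq (T⁻¹ * S) (S * T⁻¹)) {A : M} (h4 : dist (S⁻¹ • A) A ≠ 0) : HasFactor T := by
  have hF : invF S ≤ Real.measurableSpace := fun B hB => hB.1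
  have inv : ∀ {U : Aut}, AeEq (U * S) (S * U) → ∀ B, MeasurableSet[invF S] B →
      MeasurableSet[invF S] (U.1 ⁻¹' B) := fun {U} hU B hB => ⟨U.2.1.measurable hB.1, by
    filter_upwards [hU, U.2.1.quasiMeasurePreserving.ae hB.2] with t a b
    exact (congrArg (· ∈ B) a).trans b⟩
  have mB : ∀ n, MeasurableSet[invF S] ((KK n).1 ∪ (S⁻¹ • KK n).1) := fun n =>
    ⟨(KK n).2.1.union (S⁻¹ • KK n).2.1, by
      filter_upwards [h1] with t a
      change (S.1 t ∈ (KK n).1 ∨ (S * S).1 t ∈ (KK n).1) = (t ∈ (KK n).1 ∨ S.1 t ∈ (KK n).1)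
      rw [a, or_comm]; rfl⟩
  refine ⟨invF S, hF, ?_, fun B hB => ⟨_, inv h2 B hB, .rfl⟩,
    fun B hB => ⟨_, inv h3 B hB, .of_eq (by ext t; simp)⟩, A.1, A.2.1, fun B hB e => h4 ?_⟩
  · refine @SigmaFinite.mk ℝ (invF S) _ ⟨@Measure.FiniteSpanningSetsIn.mk ℝ (invF S) _ _
      (fun n => (KK n).1 ∪ (S⁻¹ • KK n).1) (fun _ => trivial) (fun n => ?_)
      (eq_univ_of_forall fun t => ?_)⟩
    · rw [trim_measurableSet_eq hF (mB n)]
      exact measure_union_lt_top (KK n).2.2.lt_top (S⁻¹ • KK n).2.2.lt_top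
    · obtain ⟨n, hn⟩ := exists_nat_ge |t|
      exact mem_iUnion.2 ⟨n, .inl (by simpa [KK, J] using abs_le.1 hn)⟩
  · exact dist_zero.2 (((S.2.1.quasiMeasurePreserving.preimage_ae_eq e).trans hB.2).trans e.symm)

lemma fac_lim {s : ℕ → GS} (h : ∀ k, GP k (s k)) (r : ∀ k, GR k (s k) (s (k + 1))) {T : Aut}
    (hT : ∀ k, T ∈ (s k).V) : HasFactor T := by
  let u : ℕ → Aut := fun k => (s k).R ^ (s k).h
  have hu : ∀ k, (u k)⁻¹ = u k := fun k => inv_eq_of_mul_eq_one_right (h k).1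
  have c := cauchy_of (u := u) zero_le_one fun p => (ev_FF p).imp fun k0 h0 k hk =>
    (r k).2.2 _ (h0 k hk)
  obtain ⟨S, hS⟩ := complete u c (by simpa only [hu] using c)
  have hR : Tendsto (fun k => (s k).R) atTop (𝓝 T) := tendsto_iff.2 (small fun p =>
    squeeze_zero' (Eventually.of_forall fun _ => dist_nonneg)
      (eventually_atTop.2 ((ev_FF p).imp fun k0 h0 k hk =>
        (dist_comm _ _).le.trans ((h k).2.2.1 (hT k) _ (h0 k hk)).le))
      (by simpa using dl_tendsto 1))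
  have e : ∀ k, (s k).A = (s 0).A ∧ (s k).c = (s 0).c := fun k => by
    induction k with
    | zero => exact ⟨rfl, rfl⟩
    | succ k ih => exact ⟨(r k).1.trans ih.1, (r k).2.1.trans ih.2⟩
  refine factor_of (S := S) (A := (s 0).A)
    (eqv_of (hS.mul hS) tendsto_const_nhds fun A => by simp [u, (h _).1]).ae
    (eqv_of (hR.mul hS) (hS.mul hR) fun A => by simp [u, (Commute.self_zpow _ _).eq]).ae
    (eqv_of (hR.inv.mul hS) (hS.mul hR.inv) fun A => by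
      simp [u, (Commute.self_zpow _ _).inv_left.eq]).ae (ne_of_gt ?_)
  refine (h 0).2.2.2.1.trans_le (ge_of_tendsto' (f := fun k => dist ((u k)⁻¹ • (s 0).A)
    (S⁻¹ • (s 0).A) + dist (S⁻¹ • (s 0).A) (s 0).A) (x := atTop)
    (by simpa using (tendsto_iff.1 hS.inv (s 0).A).add_const _) fun k => ?_)
  have a := (h k).2.2.2.2.1
  rw [(e k).1, (e k).2] at a
  have := mul_pos (h 0).2.2.2.1 (dl_pos k)
  have := dist_triangle (u k • (s 0).A) (S⁻¹ • (s 0).A) (s 0).A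
  rw [hu]
  linarith

theorem factor : {T : Aut | HasFactor T} ∈ residual Aut :=
  oxtoby GS.V GP GR (fun _ _ h => h.2.1) (fun _ hO hn => fac_zero hO hn)
    (fun _ _ h _ hO hn hs => fac_next h hO hn hs) fun _ h r _ hT => fac_lim h r hT

lemma root_of_flow {T : Aut} (h : InFlow T) : HasRoot T := by
  obtain ⟨F, -, a, b⟩ := h
  refine ⟨F (1 / 2), 2, le_rfl, ?_⟩
  filter_upwards [a (1 / 2) (1 / 2), b] with t c d
  rw [sq, ← c, ← d]; norm_num

instance : BaireSpace Aut := ⟨fun f ho hd => dense_iff_inter_open.2 fun O hO ⟨T, hT⟩ => by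
  have st : ∀ k (s : {s : Aut × Set Aut // IsOpen s.2 ∧ s.1 ∈ s.2}),
      ∃ s' : {s : Aut × Set Aut // IsOpen s.2 ∧ s.1 ∈ s.2}, closure s'.1.2 ⊆ s.1.2 ∩ f k ∧
        ∀ S ∈ s'.1.2, S ∈ Bl s'.1.1 (FF k) (dl k) ∧ S⁻¹ ∈ Bl s'.1.1⁻¹ (FF k) (dl k) := fun k s => by
    obtain ⟨S, hS⟩ := (hd k).inter_open_nonempty _ s.2.1 ⟨_, s.2.2⟩
    obtain ⟨C, c1, c2, c3⟩ := exists_mem_nhds_isClosed_subset ((s.2.1.inter (ho k)).mem_nhds hS)
    exact ⟨⟨(S, interior C ∩ (Bl S (FF k) (dl k) ∩ Inv.inv ⁻¹' Bl S⁻¹ (FF k) (dl k))),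
      isOpen_interior.inter ((open_Bl _ _ (dl_pos k)).inter
        ((open_Bl _ _ (dl_pos k)).preimage continuous_inv)),
      mem_interior_iff_mem_nhds.2 c1, mem_Bl _ _ (dl_pos k), mem_Bl _ _ (dl_pos k)⟩,
      (closure_minimal (inter_subset_left.trans interior_subset) c2).trans c3, fun _ h => h.2⟩
  choose nx n1 n2 using st
  let s : ℕ → {s : Aut × Set Aut // IsOpen s.2 ∧ s.1 ∈ s.2} :=
    fun k => Nat.rec ⟨(T, O), hO, hT⟩ nx k
  have a : Antitone fun k => (s k).1.2 := antitone_nat_of_succ_le fun k x hx =>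
    (n1 k (s k) (subset_closure hx)).1
  have b : ∀ k, (s (k + 1 + 1)).1.1 ∈ (s (k + 1)).1.2 := fun k =>
    a (Nat.le_succ (k + 1)) (s (k + 1 + 1)).2.2
  obtain ⟨S, hS⟩ := complete (fun k => (s (k + 1)).1.1)
    (cauchy_of zero_le_one fun p => (ev_FF p).imp fun k0 h0 k hk => by
      rw [one_mul]; exact ((n2 k (s k) _ (b k)).1 _ (h0 k hk)).le)
    (cauchy_of zero_le_one fun p => (ev_FF p).imp fun k0 h0 k hk => by
      rw [one_mul]; exact ((n2 k (s k) _ (b k)).2 _ (h0 k hk)).le)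
  have c : ∀ k, S ∈ (s k).1.2 ∩ f k := fun k => n1 k (s k) (mem_closure_of_tendsto hS
    ((eventually_ge_atTop k).mono fun l hl => a (Nat.succ_le_succ hl) (s (l + 1)).2.2))
  exact ⟨S, (c 0).1, mem_iInter.2 fun k => (c k).2⟩⟩

end Pool.Agent.H49.GI
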