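import Mathlib

/-! The group of Lebesgue measure preserving transformations of the line, its weak topology. -/

set_option autoImplicit false

namespace Pool.Agent.H49.GI

open MeasureTheory Set

/-- Invertible measure preserving transformations of `ℝ` with Lebesgue measure. -/
def Aut : Subgroup (Equiv.Perm ℝ) where
  carrier := {T | MeasurePreserving T volume volume ∧ MeasurePreserving T.symm volume volume}
  one_mem' := ⟨MeasurePreserving.id _, MeasurePreserving.id _⟩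
  mul_mem' := fun h h' => ⟨h.1.comp h'.1, h'.2.comp h.2⟩
  inv_mem' := fun h => ⟨h.2, h.1⟩

/-- The weak topology: `T_k → T` iff `μ(T_k A ∆ T A) → 0` and `μ(T_k⁻¹ A ∆ T⁻¹ A) → 0` for every
measurable `A` of finite measure. -/
noncomputable instance weak : TopologicalSpace Aut := TopologicalSpace.generateFrom
  {U | ∃ (T₀ : Aut) (A : Set ℝ) (δ : ℝ), MeasurableSet A ∧ volume A ≠ ⊤ ∧ 0 < δ ∧
    (U = {T : Aut | volume (symmDiff (T.1 '' A) (T₀.1 '' A)) < ENNReal.ofReal δ} ∨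
      U = {T : Aut | volume (symmDiff (T.1 ⁻¹' A) (T₀.1 ⁻¹' A)) < ENNReal.ofReal δ})}

/-- Equality mod 0. -/
def AeEq (S T : Aut) : Prop := ∀ᵐ x, S.1 x = T.1 x

/-- `T` has a factor: a sub-σ-algebra `F` with `T⁻¹ F = F` mod 0, on which the measure is
σ-finite, and which differs mod 0 from the σ-algebra of all measurable sets. -/
def HasFactor (T : Aut) : Prop :=
  ∃ (F : MeasurableSpace ℝ) (hF : F ≤ Real.measurableSpace), SigmaFinite (volume.trim hF) ∧
    (∀ A, MeasurableSet[F] A → ∃ B, MeasurableSet[F] B ∧ T.1 ⁻¹' A =ᵐ[volume] B) ∧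
    (∀ A, MeasurableSet[F] A → ∃ B, MeasurableSet[F] B ∧ A =ᵐ[volume] T.1 ⁻¹' B) ∧
    ∃ A, MeasurableSet[Real.measurableSpace] A ∧ ∀ B, MeasurableSet[F] B → ¬A =ᵐ[volume] B

/-- `T = S ^ n` mod 0 for some `S` and some `n ≥ 2`. -/
def HasRoot (T : Aut) : Prop := ∃ (S : Aut) (n : ℕ), 2 ≤ n ∧ AeEq (S ^ n) T

/-- `T = F 1` mod 0 for a weakly continuous `F : ℝ → Aut` with `F (s + t) = F s F t` mod 0. -/
def InFlow (T : Aut) : Prop :=
  ∃ F : ℝ → Aut, Continuous F ∧ (∀ s t, AeEq (F (s + t)) (F s * F t)) ∧ AeEq (F 1) T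

end Pool.Agent.H49.GI
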