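import Pool.Agent.H49.HRDefs

set_option autoImplicit false

namespace Pool.Agent.H49.HR

open Filter Topology

/-- The kernel form of a Hilbert representation. -/
structure Ker {X : Type} [TopologicalSpace X] (T : X ≃ₜ X) (k : X → X → ℝ) : Prop where
  symm : ∀ x y, k x y = k y x
  inv : ∀ x y, k (T x) (T y) = k x y
  cont : ∀ y, Continuous fun x => k x y
  sep : ∀ x y, k x x - 2 * k x y + k y y ≤ 0 → x = y

theorem Rep.ker {𝕜 : Type} [RCLike 𝕜] {X : Type} [TopologicalSpace X] {T : X ≃ₜ X}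
    (h : Rep 𝕜 X T) : ∃ k, Ker T k := by
  obtain ⟨H, _, _, _, U, α, hi, he, hc⟩ := h
  refine ⟨fun x y => RCLike.re (inner 𝕜 (α y) (α x)), fun x y => inner_re_symm _ _,
    fun x y => by simp only [he, U.inner_map_map], fun y => RCLike.continuous_re.comp (hc _),
    fun x y hxy => hi ?_⟩
  have h1 := norm_sub_sq (𝕜 := 𝕜) (α y) (α x)
  simp only [inner_self_eq_norm_sq] at hxy
  have : ‖α y - α x‖ ^ 2 ≤ 0 := by linarith
  have h2 : ‖α y - α x‖ = 0 := by nlinarith [norm_nonneg (α y - α x)]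
  exact (sub_eq_zero.mp (norm_eq_zero.mp h2)).symm

theorem zpow_comm_apply {X Y : Type} [TopologicalSpace X] [TopologicalSpace Y] {T : X ≃ₜ X}
    {S : Y ≃ₜ Y} {π : X → Y} (h : ∀ x, π (T x) = S (π x)) (n : ℤ) (x : X) :
    π ((T ^ n) x) = (S ^ n) (π x) := by
  induction n using Int.induction_on generalizing x with
  | zero => rfl
  | succ n ih => rw [zpow_add_one, zpow_add_one, Homeomorph.mul_apply, Homeomorph.mul_apply, ih, h]
  | pred n ih =>
    rw [zpow_sub_one, zpow_sub_one, Homeomorph.mul_apply, Homeomorph.mul_apply, ih]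
    congr 1
    apply S.injective
    rw [← h]
    simp

theorem zpow_neg_apply {X : Type} [TopologicalSpace X] (T : X ≃ₜ X) (n : ℤ) (x : X) :
    (T ^ (-n)) ((T ^ n) x) = x := by
  rw [← Homeomorph.mul_apply, ← zpow_add]; simp

theorem zpow_apply_neg {X : Type} [TopologicalSpace X] (T : X ≃ₜ X) (n : ℤ) (x : X) :
    (T ^ n) ((T ^ (-n)) x) = x := by
  rw [← Homeomorph.mul_apply, ← zpow_add]; simp

theorem zpow_fix {X : Type} [TopologicalSpace X] {T : X ≃ₜ X} {w : X} (h : T w = w) (n : ℤ) :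
    (T ^ n) w = w := by
  have := zpow_comm_apply (T := (1 : X ≃ₜ X)) (S := T) (π := fun _ => w) (fun _ => h.symm) n w
  exact this.symm

namespace Ker

variable {X : Type} [TopologicalSpace X] {T : X ≃ₜ X} {k : X → X → ℝ}

theorem inv_zpow (h : Ker T k) (n : ℤ) (x y : X) : k ((T ^ n) x) ((T ^ n) y) = k x y := by
  induction n using Int.induction_on generalizing x y with
  | zero => rfl
  | succ n ih => rw [zpow_add_one, Homeomorph.mul_apply, Homeomorph.mul_apply, ih, h.inv]
  | pred n ih =>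
    rw [zpow_sub_one, Homeomorph.mul_apply, Homeomorph.mul_apply, ih, ← h.inv]
    simp

theorem ext (h : Ker T k) {a b : X} (e : ∀ y, k a y = k b y) : a = b := by
  apply h.sep
  rw [e a, h.symm b a, e b]; linarith

variable {l : Filter ℕ} [l.NeBot] {s : ℕ → ℤ} {p q : X → X}

theorem adj (h : Ker T k) (hp : ∀ x, Tendsto (fun i => (T ^ s i) x) l (𝓝 (p x)))
    (hq : ∀ x, Tendsto (fun i => (T ^ (-s i)) x) l (𝓝 (q x))) (u v : X) :
    k (p u) v = k u (q v) := by
  have h1 := ((h.cont v).tendsto _).comp (hp u)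
  have h2 := ((h.cont u).tendsto _).comp (hq v)
  rw [h.symm u]
  refine tendsto_nhds_unique h1 (h2.congr fun i => ?_)
  simp only [Function.comp]
  rw [h.symm, ← h.inv_zpow (s i), zpow_apply_neg]

theorem comm [T2Space X] (h : Ker T k) (hp : ∀ x, Tendsto (fun i => (T ^ s i) x) l (𝓝 (p x)))
    (hq : ∀ x, Tendsto (fun i => (T ^ (-s i)) x) l (𝓝 (q x))) (x : X) :
    p (q x) = q (p x) := by
  have hc : ∀ (n : ℤ) u, p ((T ^ n) u) = (T ^ n) (p u) := fun n u => by
    refine tendsto_nhds_unique (hp _) ((((T ^ n).continuous.tendsto _).comp (hp u)).congr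
      fun i => ?_)
    simp only [Function.comp, ← Homeomorph.mul_apply, ← zpow_add, add_comm]
  apply h.ext
  intro y
  rw [h.adj hp hq]
  have h1 := ((h.cont (q y)).tendsto _).comp (hq x)
  have h2 := ((h.cont y).tendsto _).comp (hq (p x))
  refine tendsto_nhds_unique h1 (h2.congr fun i => ?_)
  simp only [Function.comp]
  rw [← hc, h.adj hp hq]

theorem kerN [T2Space X] (h : Ker T k) (hp : ∀ x, Tendsto (fun i => (T ^ s i) x) l (𝓝 (p x)))
    (hq : ∀ x, Tendsto (fun i => (T ^ (-s i)) x) l (𝓝 (q x))) (N : ℕ) (u u' : X)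
    (e : p^[N + 1] u = p^[N + 1] u') : p u = p u' := by
  have ad := h.adj hp hq
  have cm := h.comm hp hq
  have nrm : ∀ a b, k (p a) (p b) = k (q a) (q b) := fun a b => by
    rw [ad, ← cm, h.symm, ad, h.symm]
  have k1 : ∀ a b, p a = p b → q a = q b := fun a b hab => by
    apply h.sep
    rw [← nrm, ← nrm, ← nrm, hab]; linarith
  have k2 : ∀ a b, p (p a) = p (p b) → p a = p b := fun a b hab => by
    have e1 := k1 _ _ hab
    apply h.sep
    have a1 : k (p a) (p a) = k (p a) (p b) := by rw [ad, ad, e1]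
    have a2 : k (p b) (p b) = k (p a) (p b) := by rw [h.symm (p a), ad, ad, e1]
    rw [a1, a2]; linarith
  induction N generalizing u u' with
  | zero => exact e
  | succ N ih =>
    rw [Function.iterate_succ_apply, Function.iterate_succ_apply (x := u')] at e
    exact k2 _ _ (ih _ _ e)

theorem down [T2Space X] (h : Ker T k) (hp : ∀ x, Tendsto (fun i => (T ^ s i) x) l (𝓝 (p x)))
    (hq : ∀ x, Tendsto (fun i => (T ^ (-s i)) x) l (𝓝 (q x))) (N : ℕ) (x : X)
    (e : q (p (p^[N + 1] x)) = p^[N + 1] x) {C : Set X} (hC : IsClosed C)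
    (hi : ∀ (n : ℤ), ∀ z ∈ C, (T ^ n) z ∈ C) (hx : p^[N + 1] x ∈ C) : p x ∈ C := by
  have cm := h.comm hp hq
  have cN : ∀ (j : ℕ) a, p^[j] (q a) = q (p^[j] a) := fun j => by
    induction j with
    | zero => intro a; rfl
    | succ j ih => intro a; rw [Function.iterate_succ_apply', ih, cm, Function.iterate_succ_apply']
  have e1 : p (q (p x)) = p x := by
    apply h.kerN hp hq N
    rw [cN, ← e, ← Function.iterate_succ_apply, Function.iterate_succ_apply' (n := N + 1), e]
  have e2 : ∀ j, q (p^[j + 2] x) = p^[j + 1] x := fun j => by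
    have := congrArg p^[j] e1
    rw [← Function.iterate_succ_apply, cN, ← Function.iterate_succ_apply,
      ← Function.iterate_succ_apply] at this
    exact this
  have e3 : ∀ j, p^[j + 1] x ∈ C → p x ∈ C := fun j => by
    induction j with
    | zero => exact id
    | succ j ih =>
      intro hj
      apply ih
      rw [← e2]
      exact hC.mem_of_tendsto (hq _) (Eventually.of_forall fun i => hi _ _ hj)
  exact e3 N hx

end Ker

theorem exists_lim {X : Type} [TopologicalSpace X] [CompactSpace X] (T : X ≃ₜ X)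
    (𝒰 : Ultrafilter ℕ) (s : ℕ → ℤ) :
    ∃ p : X → X, ∀ x, Tendsto (fun i => (T ^ s i) x) 𝒰 (𝓝 (p x)) := by
  have : ∀ x, ∃ y, Tendsto (fun i => (T ^ s i) x) 𝒰 (𝓝 y) := fun x => by
    obtain ⟨y, -, hy⟩ := isCompact_univ.ultrafilter_le_nhds (𝒰.map fun i => (T ^ s i) x) (by simp)
    exact ⟨y, hy⟩
  choose p hp using this
  exact ⟨p, hp⟩

/-- The group-factor form of the obstruction: in a group-factor of a Hilbert representable
system there are no nilpotent chains. -/
theorem chain_group {X Y : Type} [TopologicalSpace X] [CompactSpace X] [T2Space X]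
    [TopologicalSpace Y] [T2Space Y] {T : X ≃ₜ X} {S : Y ≃ₜ Y} {k : X → X → ℝ} (h : Ker T k)
    (hg : GroupFactor T S) (s : ℕ → ℤ) (y : ℕ → Y)
    (hy : ∀ j, Tendsto (fun i => (S ^ s i) (y j)) atTop (𝓝 (y (j + 1)))) (N : ℕ)
    (hf : S (y (N + 1)) = y (N + 1)) : y 1 = y (N + 1) := by
  obtain ⟨K, hK, hc, π, ⟨πc, πs, πe⟩, hπ⟩ := hg
  let 𝒰 := hyperfilter ℕ
  have hU : (𝒰 : Filter ℕ) ≤ atTop := Nat.hyperfilter_le_atTop
  obtain ⟨p, hp⟩ := exists_lim T 𝒰 s
  obtain ⟨q, hq⟩ := exists_lim T 𝒰 (fun i => -s i)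
  obtain ⟨x, hx⟩ := πs (y 0)
  have hj : ∀ j, π (p^[j] x) = y j := fun j => by
    induction j with
    | zero => exact hx
    | succ j ih =>
      rw [Function.iterate_succ_apply']
      refine tendsto_nhds_unique ((πc.tendsto _).comp (hp _)) (((hy j).mono_left hU).congr
        fun i => ?_)
      simp only [Function.comp]
      rw [zpow_comm_apply πe, ih]
  have key : p x ∈ π ⁻¹' {y (N + 1)} := by
    refine h.down hp hq N x ?_ (isClosed_singleton.preimage πc) ?_ (hj _)
    · set w := p^[N + 1] x with hw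
      have hw' : π w = y (N + 1) := hj _
      have : ∀ i, ∃ g ∈ K, g w = (T ^ s i) w := fun i => by
        rw [← hπ, zpow_comm_apply πe, hw', zpow_fix hf]
      choose g gK gw using this
      obtain ⟨G, ⟨g0, g0K, rfl⟩, hG⟩ := hK.ultrafilter_le_nhds
        (𝒰.map fun i => (g i : C(X, X))) (by
          rw [Ultrafilter.coe_map, le_principal_iff, mem_map]
          exact Eventually.of_forall fun i => ⟨g i, gK i, rfl⟩)
      have hG' : Tendsto (fun i => (g i : C(X, X))) 𝒰 (𝓝 (g0 : C(X, X))) := hG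
      have cz : ∀ a ∈ K, ∀ (n : ℤ) z, a ((T ^ n) z) = (T ^ n) (a z) := fun a ha n z =>
        zpow_comm_apply (π := a) (fun z => by
          rw [← Homeomorph.mul_apply, hc a ha, Homeomorph.mul_apply]) n z
      have ev : ∀ (z : ℕ → X) (z0 : X), Tendsto z 𝒰 (𝓝 z0) →
          Tendsto (fun i => g i (z i)) 𝒰 (𝓝 (g0 z0)) := fun z z0 hz =>
        (continuous_eval.tendsto ((g0 : C(X, X)), z0)).comp (hG'.prodMk_nhds hz)
      have a1 : p w = g0 w :=
        tendsto_nhds_unique (hp w) ((ev _ w tendsto_const_nhds).congr gw)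
      have a2 : g0 (q w) = w := by
        refine tendsto_nhds_unique (ev _ _ (hq w)) (tendsto_const_nhds.congr fun i => ?_)
        rw [cz _ (gK i), gw, zpow_neg_apply]
      rw [a1]
      refine tendsto_nhds_unique (hq _) ?_
      have := (g0.continuous.tendsto _).comp (hq w)
      rw [a2] at this
      exact this.congr fun i => cz _ g0K _ _
    · intro n z hz
      rw [Set.mem_preimage, Set.mem_singleton_iff] at hz ⊢
      rw [zpow_comm_apply πe, hz, zpow_fix hf]
  rw [← hj 1]
  exact key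

theorem groupFactor_self {X : Type} [TopologicalSpace X] (T : X ≃ₜ X) : GroupFactor T T := by
  refine ⟨⊥, by simp, fun k hk => by rw [Subgroup.mem_bot.mp hk, one_mul, mul_one], id,
    ⟨continuous_id, Function.surjective_id, fun _ => rfl⟩, fun x x' => ?_⟩
  constructor
  · intro h; exact ⟨1, one_mem _, h⟩
  · rintro ⟨k, hk, e⟩; rw [Subgroup.mem_bot.mp hk] at e; exact e

end Pool.Agent.H49.HR
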