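import Pool.Agent.H49.HR1

set_option autoImplicit false

namespace Pool.Agent.H49.HR

open Filter Topology MeasureTheory
open scoped NNReal ENNReal ComplexConjugate

abbrev Tc := AddCircle (1 : ℝ)

noncomputable def hat (μ : Measure Tc) (n : ℤ) : ℂ := ∫ t, fourier n t ∂μ

theorem norm_four (n : ℤ) (t : Tc) : ‖fourier n t‖ = 1 := by
  rw [fourier_apply]; exact Circle.norm_coe _

theorem four_add (n : ℤ) (s t : Tc) : fourier n (s + t) = fourier n s * fourier n t := by
  simp only [fourier_apply, smul_add, AddCircle.toCircle_add, Circle.coe_mul]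

theorem four_neg (n : ℤ) (t : Tc) : fourier n (-t) = conj (fourier n t) := by
  rw [← fourier_neg]; simp only [fourier_apply, smul_neg, neg_smul]

theorem cint {E : Type} [NormedAddCommGroup E] (μ : Measure Tc) [IsFiniteMeasure μ] {f : Tc → E}
    (hf : Continuous f) : Integrable f μ :=
  hf.integrable_of_hasCompactSupport (HasCompactSupport.of_compactSpace f)

theorem hat_mem (μ : Measure Tc) [IsFiniteMeasure μ] : hat μ ∈ FS :=
  Submodule.subset_span ⟨μ, inferInstance, fun _ => rfl⟩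

theorem FS_one : (1 : ℤ → ℂ) ∈ FS := by
  have : hat (Measure.dirac 0) = 1 := by
    funext n; simp [hat]
  rw [← this]; exact hat_mem _

theorem hat_mul (μ ν : Measure Tc) [IsFiniteMeasure μ] [IsFiniteMeasure ν] :
    hat μ * hat ν ∈ FS := by
  have : hat μ * hat ν = hat ((μ.prod ν).map fun p => p.1 + p.2) := by
    funext n
    simp only [hat, Pi.mul_apply]
    rw [integral_map (by fun_prop) (fourier n).continuous.aestronglyMeasurable, ← integral_prod_mul]
    simp only [four_add]
  rw [this]; exact hat_mem _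

theorem FS_mul {f g : ℤ → ℂ} (hf : f ∈ FS) (hg : g ∈ FS) : f * g ∈ FS := by
  induction hf using Submodule.span_induction with
  | mem f hf =>
    obtain ⟨μ, _, hμ⟩ := hf
    induction hg using Submodule.span_induction with
    | mem g hg =>
      obtain ⟨ν, _, hν⟩ := hg
      rw [funext hμ, funext hν]; exact hat_mul μ ν
    | zero => rw [mul_zero]; exact zero_mem _
    | add a b _ _ ha hb => rw [mul_add]; exact add_mem ha hb
    | smul c a _ ha => rw [mul_smul_comm]; exact Submodule.smul_mem _ _ ha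
  | zero => rw [zero_mul]; exact zero_mem _
  | add a b _ _ ha hb => rw [add_mul]; exact add_mem ha hb
  | smul c a _ ha => rw [smul_mul_assoc]; exact Submodule.smul_mem _ _ ha

theorem FS_star {f : ℤ → ℂ} (hf : f ∈ FS) : star f ∈ FS := by
  induction hf using Submodule.span_induction with
  | mem f hf =>
    obtain ⟨μ, _, hμ⟩ := hf
    have : star f = hat (μ.map fun t => -t) := by
      funext n
      simp only [hat, Pi.star_apply, hμ]
      rw [integral_map (by fun_prop) (fourier n).continuous.aestronglyMeasurable]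
      simp only [four_neg]
      rw [integral_conj]; rfl
    rw [this]; exact hat_mem _
  | zero => rw [star_zero]; exact zero_mem _
  | add a b _ _ ha hb => rw [star_add]; exact add_mem ha hb
  | smul c a _ ha => rw [star_smul]; exact Submodule.smul_mem _ _ ha

theorem FS_dens (μ : Measure Tc) [IsFiniteMeasure μ] {h : Tc → ℝ} (hc : Continuous h)
    (h0 : ∀ t, 0 ≤ h t) : (fun n => ∫ t, (h t : ℂ) * fourier n t ∂μ) ∈ FS := by
  have : IsFiniteMeasure (μ.withDensity fun t => ENNReal.ofReal (h t)) :=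
    isFiniteMeasure_withDensity_ofReal (cint μ hc).2
  have : (fun n => ∫ t, (h t : ℂ) * fourier n t ∂μ) =
      hat (μ.withDensity fun t => ENNReal.ofReal (h t)) := by
    funext n
    rw [hat, integral_withDensity_eq_integral_toReal_smul hc.measurable.ennreal_ofReal
      (Eventually.of_forall fun _ => ENNReal.ofReal_lt_top)]
    simp only [ENNReal.toReal_ofReal (h0 _), Complex.real_smul]
  rw [this]; exact hat_mem _

theorem FS_shift (μ : Measure Tc) [IsFiniteMeasure μ] (m : ℤ) :
    (fun n => hat μ (m + n)) ∈ FS := by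
  have c1 : Continuous fun t : Tc => 1 + (fourier m t).re := by fun_prop
  have c2 : Continuous fun t : Tc => 1 + (fourier m t).im := by fun_prop
  have h1 := FS_dens μ c1 (fun t => by
    have := (abs_le.mp ((Complex.abs_re_le_norm (fourier m t)).trans (norm_four m t).le)).1
    linarith)
  have h2 := FS_dens μ c2 (fun t => by
    have := (abs_le.mp ((Complex.abs_im_le_norm (fourier m t)).trans (norm_four m t).le)).1
    linarith)
  have h3 := sub_mem (add_mem h1 (Submodule.smul_mem _ Complex.I h2))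
    (Submodule.smul_mem _ (1 + Complex.I) (hat_mem μ))
  convert h3 using 1
  funext n
  simp only [hat, Pi.sub_apply, Pi.add_apply, Pi.smul_apply, smul_eq_mul]
  rw [← integral_const_mul, ← integral_const_mul, ← integral_add, ← integral_sub]
  · congr 1; funext t
    rw [fourier_add]
    conv_lhs => rw [← Complex.re_add_im (fourier m t)]
    push_cast; ring
  all_goals exact cint μ (by fun_prop)

section L2

variable (ν : Measure Tc)

theorem mem_mul (n : ℤ) (f : Lp ℂ 2 ν) : MemLp (fun t => fourier n t * f t) 2 ν :=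
  (Lp.memLp f).of_le ((fourier n).continuous.aestronglyMeasurable.mul (Lp.aestronglyMeasurable f))
    (Eventually.of_forall fun t => by rw [norm_mul, norm_four, one_mul])

noncomputable def mulL (n : ℤ) (f : Lp ℂ 2 ν) : Lp ℂ 2 ν := (mem_mul ν n f).toLp _

theorem mulL_ae (n : ℤ) (f : Lp ℂ 2 ν) : mulL ν n f =ᵐ[ν] fun t => fourier n t * f t :=
  MemLp.coeFn_toLp _

theorem mulL_mulL (n m : ℤ) (f : Lp ℂ 2 ν) : mulL ν n (mulL ν m f) = mulL ν (n + m) f := by
  apply Lp.ext
  filter_upwards [mulL_ae ν n (mulL ν m f), mulL_ae ν m f, mulL_ae ν (n + m) f] with t a b c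
  rw [a, b, c, fourier_add, mul_assoc]

theorem mulL_zero (f : Lp ℂ 2 ν) : mulL ν 0 f = f := by
  apply Lp.ext
  filter_upwards [mulL_ae ν 0 f] with t a
  rw [a, fourier_zero, one_mul]

noncomputable def Um : Lp ℂ 2 ν ≃ₗᵢ[ℂ] Lp ℂ 2 ν where
  toFun := mulL ν 1
  invFun := mulL ν (-1)
  map_add' f g := by
    apply Lp.ext
    filter_upwards [mulL_ae ν 1 (f + g), mulL_ae ν 1 f, mulL_ae ν 1 g, Lp.coeFn_add f g,
      Lp.coeFn_add (mulL ν 1 f) (mulL ν 1 g)] with t a b c d e
    rw [a, e, d, Pi.add_apply, Pi.add_apply, b, c, mul_add]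
  map_smul' r f := by
    apply Lp.ext
    filter_upwards [mulL_ae ν 1 (r • f), mulL_ae ν 1 f, Lp.coeFn_smul r f,
      Lp.coeFn_smul r (mulL ν 1 f)] with t a b c d
    rw [RingHom.id_apply, a, d, c, Pi.smul_apply, Pi.smul_apply, b, smul_eq_mul, smul_eq_mul]
    ring
  left_inv f := by rw [mulL_mulL]; exact mulL_zero ν f
  right_inv f := by rw [mulL_mulL]; exact mulL_zero ν f
  norm_map' f := by
    show ‖mulL ν 1 f‖ = ‖f‖
    rw [Lp.norm_def, Lp.norm_def]
    congr 1
    apply eLpNorm_congr_norm_ae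
    filter_upwards [mulL_ae ν 1 f] with t a
    rw [a, norm_mul, norm_four, one_mul]

theorem Um_zpow (n : ℤ) (f : Lp ℂ 2 ν) : (Um ν ^ n) f = mulL ν n f := by
  induction n using Int.induction_on generalizing f with
  | zero => exact (mulL_zero ν f).symm
  | succ n ih =>
    rw [zpow_add_one, LinearIsometryEquiv.coe_mul, Function.comp_apply, ih]
    exact mulL_mulL ν _ _ f
  | pred n ih =>
    rw [zpow_sub_one, LinearIsometryEquiv.coe_mul, Function.comp_apply, ih]
    exact mulL_mulL ν _ _ f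

variable [IsFiniteMeasure ν]

noncomputable def oneL : Lp ℂ 2 ν := (memLp_const (1 : ℂ)).toLp _

theorem inner_one (η : Lp ℂ 2 ν) (n : ℤ) :
    inner ℂ η ((Um ν ^ n) (oneL ν)) = ∫ t, conj (η t) * fourier n t ∂ν := by
  rw [Um_zpow, L2.inner_def]
  apply integral_congr_ae
  filter_upwards [mulL_ae ν n (oneL ν), MemLp.coeFn_toLp (memLp_const (μ := ν) (p := 2) (1 : ℂ))]
    with t a b
  rw [a, oneL, b, RCLike.inner_apply, mul_one, mul_comm]

theorem inner_one_one (n : ℤ) : inner ℂ (oneL ν) ((Um ν ^ n) (oneL ν)) = hat ν n := by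
  rw [inner_one, hat]
  apply integral_congr_ae
  filter_upwards [MemLp.coeFn_toLp (memLp_const (μ := ν) (p := 2) (1 : ℂ))] with t b
  rw [oneL, b, map_one, one_mul]

theorem dom (μ : Measure Tc) [IsFiniteMeasure μ] (c : ℝ≥0) (hc : c ≠ 0) (h : μ ≤ c • ν) :
    ∃ η : Lp ℂ 2 ν, ∀ n, hat μ n = inner ℂ η ((Um ν ^ n) (oneL ν)) := by
  have h1 := Measure.rnDeriv_le_one_of_le h
  have h1' : ∀ᵐ t ∂ν, μ.rnDeriv (c • ν) t ≤ 1 :=
    (Measure.ae_smul_measure_iff (c := c) hc).mp h1
  have hm : MemLp (fun t => (((c : ℝ) * (μ.rnDeriv (c • ν) t).toReal : ℝ) : ℂ)) 2 ν := by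
    refine MemLp.of_bound (Complex.measurable_ofReal.comp (measurable_const.mul
      (Measure.measurable_rnDeriv _ _).ennreal_toReal)).aestronglyMeasurable c ?_
    filter_upwards [h1'] with t ht
    rw [Complex.norm_real, Real.norm_eq_abs, abs_of_nonneg (by positivity)]
    have := ENNReal.toReal_mono ENNReal.one_ne_top ht
    rw [ENNReal.toReal_one] at this
    nlinarith [c.2]
  refine ⟨hm.toLp _, fun n => ?_⟩
  have : μ.HaveLebesgueDecomposition (c • ν) :=
    Measure.haveLebesgueDecomposition_of_sigmaFinite μ (c • ν)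
  rw [inner_one, hat, ← integral_rnDeriv_smul (Measure.absolutelyContinuous_of_le h),
    integral_smul_nnreal_measure, NNReal.smul_def, ← integral_smul]
  apply integral_congr_ae
  filter_upwards [hm.coeFn_toLp] with t a
  rw [a, Complex.conj_ofReal]
  simp only [Complex.real_smul]
  push_cast; ring

end L2

theorem FS_dom {g : ℤ → ℂ} (hg : g ∈ FS) : ∃ μ : Measure Tc, IsFiniteMeasure μ ∧
    ∀ (ν : Measure Tc) [IsFiniteMeasure ν] (c : ℝ≥0), c ≠ 0 → μ ≤ c • ν →
      ∃ η : Lp ℂ 2 ν, ∀ n, g n = inner ℂ η ((Um ν ^ n) (oneL ν)) := by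
  induction hg using Submodule.span_induction with
  | mem f hf =>
    obtain ⟨μ, _, hμ⟩ := hf
    refine ⟨μ, inferInstance, fun ν _ c hc h => ?_⟩
    obtain ⟨η, hη⟩ := dom ν μ c hc h
    exact ⟨η, fun n => (hμ n).trans (hη n)⟩
  | zero => exact ⟨0, inferInstance, fun ν _ c _ _ => ⟨0, fun n => by simp⟩⟩
  | add a b _ _ ha hb =>
    obtain ⟨μ, _, hμ⟩ := ha
    obtain ⟨μ', _, hμ'⟩ := hb
    refine ⟨μ + μ', inferInstance, fun ν _ c hc h => ?_⟩
    obtain ⟨η, hη⟩ := hμ ν c hc ((Measure.le_add_right le_rfl).trans h)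
    obtain ⟨η', hη'⟩ := hμ' ν c hc ((Measure.le_add_left le_rfl).trans h)
    exact ⟨η + η', fun n => by rw [inner_add_left, Pi.add_apply, hη, hη']⟩
  | smul r a _ ha =>
    obtain ⟨μ, _, hμ⟩ := ha
    refine ⟨μ, inferInstance, fun ν _ c hc h => ?_⟩
    obtain ⟨η, hη⟩ := hμ ν c hc h
    exact ⟨conj r • η, fun n => by
      rw [inner_smul_left, Pi.smul_apply, hη, Complex.conj_conj, smul_eq_mul]⟩

theorem FS_common (g : ℕ → ℤ → ℂ) (hg : ∀ i, g i ∈ FS) : ∃ (ν : Measure Tc)
    (_ : IsFiniteMeasure ν) (η : ℕ → Lp ℂ 2 ν),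
    ∀ i n, g i n = inner ℂ (η i) ((Um ν ^ n) (oneL ν)) := by
  choose μ hμ hd using fun i => FS_dom (hg i)
  let c : ℕ → ℝ≥0 := fun i => 2 ^ i * ((μ i Set.univ).toNNReal + 1)
  have hc : ∀ i, c i ≠ 0 := fun i => by positivity
  let ν : Measure Tc := Measure.sum fun i => (c i)⁻¹ • μ i
  have : IsFiniteMeasure ν := ⟨by
    rw [Measure.sum_apply _ MeasurableSet.univ]
    refine lt_of_le_of_lt (ENNReal.tsum_le_tsum (g := fun i => (2⁻¹ : ℝ≥0∞) ^ i) fun i => ?_) ?_
    · have := hμ i
      rw [Measure.smul_apply, ← ENNReal.coe_toNNReal (measure_ne_top (μ i) Set.univ),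
        ENNReal.smul_def, smul_eq_mul, ← ENNReal.coe_mul]
      have : ((2⁻¹ : ℝ≥0∞)) ^ i = ((2⁻¹ ^ i : ℝ≥0) : ℝ≥0∞) := by
        rw [ENNReal.coe_pow, ENNReal.coe_inv (by norm_num)]; rfl
      rw [this, ENNReal.coe_le_coe, ← NNReal.coe_le_coe]
      simp only [c]
      push_cast
      rw [inv_mul_le_iff₀ (by positivity), inv_pow]
      field_simp
      linarith
    · rw [ENNReal.tsum_geometric]; simp⟩
  have : ∀ i, ∃ η : Lp ℂ 2 ν, ∀ n, g i n = inner ℂ η ((Um ν ^ n) (oneL ν)) := fun i => by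
    refine hd i ν (c i) (hc i) ?_
    have h1 : (c i)⁻¹ • μ i ≤ ν := Measure.le_sum (fun i => (c i)⁻¹ • μ i) i
    have h2 : μ i = c i • ((c i)⁻¹ • μ i) := by rw [smul_smul, mul_inv_cancel₀ (hc i), one_smul]
    rw [h2]
    intro s
    simp only [Measure.smul_apply (c i)]
    exact smul_le_smul_left (c i) (h1 s)
  choose η hη using this
  exact ⟨ν, inferInstance, η, hη⟩

end Pool.Agent.H49.HR
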