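import Pool.Agent.H49.HR2

set_option autoImplicit false

namespace Pool.Agent.H49.HR

open Filter Topology MeasureTheory TopologicalSpace
open scoped ComplexConjugate

section OC

variable {Z : Type} [TopologicalSpace Z]

def OC (R : Z ≃ₜ Z) (z : Z) : Set Z := closure (Set.range fun n : ℤ => (R ^ n) z)

theorem OC_mem (R : Z ≃ₜ Z) (z w : Z) : w ∈ OC R z ↔ R w ∈ OC R z := by
  have h : R '' (Set.range fun n : ℤ => (R ^ n) z) = Set.range fun n : ℤ => (R ^ n) z := by
    ext g
    constructor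
    · rintro ⟨_, ⟨n, rfl⟩, rfl⟩
      exact ⟨1 + n, by simp only [zpow_add, zpow_one, Homeomorph.mul_apply]⟩
    · rintro ⟨n, rfl⟩
      refine ⟨_, ⟨n - 1, rfl⟩, ?_⟩
      have : R ^ n = R * R ^ (n - 1) := by rw [← zpow_one_add]; congr 1; ring
      simp only [this, Homeomorph.mul_apply]
  have h2 : R '' OC R z = OC R z := by rw [OC, R.image_closure, h]
  constructor
  · intro hg; rw [← h2]; exact ⟨w, hg, rfl⟩
  · intro hg; rw [← h2] at hg
    obtain ⟨g', hg', e⟩ := hg
    rwa [← R.injective e]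

theorem trans_sub {R : Z ≃ₜ Z} {C : Set Z} {T : C ≃ₜ C} (h : ∀ x, (T x).1 = R x.1) (x : C)
    (hC : C ⊆ OC R x.1) : Trans T x := by
  rw [Trans, DenseRange, Subtype.dense_iff, ← Set.range_comp]
  have : (Subtype.val ∘ fun n : ℤ => (T ^ n) x) = fun n : ℤ => (R ^ n) x.1 :=
    funext fun n => zpow_comm_apply (π := Subtype.val) h n x
  rw [this]; exact hC

theorem Trans.all {T : Z ≃ₜ Z} {x : Z} (h : Trans T x) {C : Set Z} (hC : IsClosed C)
    (ho : ∀ n : ℤ, (T ^ n) x ∈ C) (z : Z) : z ∈ C :=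
  hC.closure_subset_iff.mpr (Set.range_subset_iff.mpr ho) (h z)

end OC

section Hil

variable {H : Type} [NormedAddCommGroup H] [InnerProductSpace ℂ H]
  {X : Type} [TopologicalSpace X] {T : X ≃ₜ X} {U : H ≃ₗᵢ[ℂ] H} {α : X → H}

theorem rep_zpow (h : ∀ x, α (T x) = U (α x)) (n : ℤ) (x : X) :
    α ((T ^ n) x) = (U ^ n) (α x) := by
  induction n using Int.induction_on generalizing x with
  | zero => rfl
  | succ n ih =>
    rw [zpow_add_one, zpow_add_one, Homeomorph.mul_apply, ih, h, LinearIsometryEquiv.coe_mul,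
      Function.comp_apply]
  | pred n ih =>
    rw [zpow_sub_one, zpow_sub_one, Homeomorph.mul_apply, ih, LinearIsometryEquiv.coe_mul,
      Function.comp_apply]
    congr 1
    apply U.injective
    rw [← h]
    simp

theorem ball_closed (hc : ∀ v : H, Continuous fun x => inner ℂ v (α x)) (c : H) {r : ℝ}
    (hr : 0 ≤ r) : IsClosed {x | ‖α x - c‖ ≤ r} := by
  have : {x | ‖α x - c‖ ≤ r} = ⋂ v : H, {x | ‖inner ℂ v (α x) - inner ℂ v c‖ ≤ ‖v‖ * r} := by
    ext x
    simp only [Set.mem_ofPred_eq, Set.mem_iInter, ← inner_sub_right]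
    constructor
    · intro h v
      exact (norm_inner_le_norm _ _).trans (by gcongr)
    · intro h
      have := h (α x - c)
      rw [inner_self_eq_norm_sq_to_K, norm_pow, RCLike.norm_ofReal, abs_norm] at this
      by_contra hn
      push Not at hn
      nlinarith
  rw [this]
  exact isClosed_iInter fun v => isClosed_le ((hc v).sub continuous_const).norm continuous_const

theorem sep_orbit {x₀ : X} (ht : Trans T x₀) (hi : Function.Injective α)
    (he : ∀ x, α (T x) = U (α x)) (hc : ∀ v : H, Continuous fun x => inner ℂ v (α x)) {a b : X}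
    (h : ∀ m : ℤ, inner ℂ ((U ^ m) (α x₀)) (α a) = inner ℂ ((U ^ m) (α x₀)) (α b)) : a = b := by
  have h1 : ∀ z, inner ℂ (α a - α b) (α z) = 0 := fun z =>
    ht.all (C := {z | inner ℂ (α a - α b) (α z) = 0}) (isClosed_eq (hc _) continuous_const)
      (fun n => by
        rw [Set.mem_ofPred_eq, rep_zpow he, ← inner_conj_symm, inner_sub_right, h, sub_self,
          map_zero]) z
  have h2 : inner ℂ (α a - α b) (α a - α b) = 0 := by rw [inner_sub_right, h1, h1, sub_zero]
  exact hi (sub_eq_zero.mp (inner_self_eq_zero.mp h2))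

theorem hilbert_of_rep [CompactSpace X] {x₀ : X} (ht : Trans T x₀) (hi : Function.Injective α)
    (he : ∀ x, α (T x) = U (α x)) (hc : ∀ v : H, Continuous fun x => inner ℂ v (α x))
    (hF : ∀ m : ℤ, (fun n : ℤ => inner ℂ ((U ^ m) (α x₀)) ((U ^ n) (α x₀))) ∈ FS)
    (G : C(X, ℂ)) : InH (fun n => G ((T ^ n) x₀)) := by
  let A : StarSubalgebra ℂ C(X, ℂ) :=
    { carrier := {G | (fun n : ℤ => G ((T ^ n) x₀)) ∈ FS}
      mul_mem' := fun ha hb => FS_mul ha hb
      add_mem' := fun ha hb => FS.add_mem ha hb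
      algebraMap_mem' := fun r => by
        have := Submodule.smul_mem _ r FS_one
        have e : (fun n : ℤ => (algebraMap ℂ C(X, ℂ) r) ((T ^ n) x₀)) = r • (1 : ℤ → ℂ) := by
          ext; simp
        show (fun n : ℤ => (algebraMap ℂ C(X, ℂ) r) ((T ^ n) x₀)) ∈ FS
        rw [e]; exact this
      star_mem' := fun ha => FS_star ha }
  have hs : A.SeparatesPoints := fun a b hab => by
    by_contra hn
    apply hab
    refine sep_orbit ht hi he hc fun m => ?_
    by_contra hm
    refine hn ⟨_, ⟨⟨_, hc ((U ^ m) (α x₀))⟩, ?_, rfl⟩, hm⟩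
    show (fun n : ℤ => inner ℂ ((U ^ m) (α x₀)) (α ((T ^ n) x₀))) ∈ FS
    simp only [rep_zpow he]
    exact hF m
  have ht := ContinuousMap.starSubalgebra_topologicalClosure_eq_top_of_separatesPoints A hs
  have hG : G ∈ closure (A : Set C(X, ℂ)) := by
    have : G ∈ A.topologicalClosure := by rw [ht]; trivial
    exact this
  intro ε hε
  obtain ⟨G', hG', hd⟩ := Metric.mem_closure_iff.mp hG ε hε
  refine ⟨_, hG', fun n => ?_⟩
  rw [← dist_eq_norm]
  exact (ContinuousMap.dist_apply_le_dist _).trans hd.le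

variable [CompleteSpace H]

noncomputable def jW (x : H) : WeakDual ℂ H :=
  StrongDual.toWeakDual (InnerProductSpace.toDual ℂ H x)

noncomputable def aW (w : WeakDual ℂ H) : H :=
  (InnerProductSpace.toDual ℂ H).symm (WeakDual.toStrongDual w)

theorem aW_jW (x : H) : aW (jW x) = x := by simp [aW, jW]

theorem jW_aW (w : WeakDual ℂ H) : jW (aW w) = w := by simp [aW, jW]

theorem aW_cont (v : H) : Continuous fun w => inner ℂ v (aW w) := by
  have : (fun w => inner ℂ v (aW w)) = fun w : WeakDual ℂ H => conj (w v) := by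
    funext w
    rw [← inner_conj_symm, aW, InnerProductSpace.toDual_symm_apply]; rfl
  rw [this]
  exact Complex.continuous_conj.comp (WeakDual.eval_continuous v)

theorem jW_cont {g : X → H} (hg : ∀ v, Continuous fun x => inner ℂ v (g x)) :
    Continuous fun x => jW (g x) := by
  refine WeakDual.continuous_of_continuous_eval fun v => ?_
  have : (fun x => jW (g x) v) = fun x => conj (inner ℂ v (g x)) := by
    funext x; rw [inner_conj_symm]; rfl
  rw [this]
  exact Complex.continuous_conj.comp (hg v)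

noncomputable def wU (U : H ≃ₗᵢ[ℂ] H) : WeakDual ℂ H ≃ₜ WeakDual ℂ H where
  toFun w := jW (U (aW w))
  invFun w := jW (U.symm (aW w))
  left_inv w := by simp [aW_jW, jW_aW]
  right_inv w := by simp [aW_jW, jW_aW]
  continuous_toFun := jW_cont fun v => by
    have : ∀ w, inner ℂ v (U (aW w)) = inner ℂ (U.symm v) (aW w) := fun w => by
      rw [← U.inner_map_map (U.symm v), U.apply_symm_apply]
    simp only [this]; exact aW_cont _
  continuous_invFun := jW_cont fun v => by
    simp only [← U.inner_map_eq_flip]; exact aW_cont _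

theorem cover {Y : Type} [TopologicalSpace Y] [CompactSpace Y] [T2Space Y] (S : Y ≃ₜ Y) (y₀ : Y)
    (hy : Trans S y₀) (U : H ≃ₗᵢ[ℂ] H) (ζ : H) {ι : Type} (F : ι → C(Y, ℂ)) (η : ι → H)
    (Φ : ι → ℂ → ℂ) (hΦ : ∀ i, Continuous (Φ i)) (ε : ι → ℝ)
    (happ : ∀ i (n : ℤ), ‖F i ((S ^ n) y₀) - Φ i (inner ℂ (η i) ((U ^ n) ζ))‖ ≤ ε i)
    (hsep : ∀ y y', (∀ i, ‖F i y - F i y'‖ ≤ 2 * ε i) → y = y') :
    ∃ (X : Type) (_ : TopologicalSpace X) (_ : CompactSpace X) (_ : MetrizableSpace X)
      (T : X ≃ₜ X) (π : X → Y) (α : X → H) (x₀ : X), Factor T S π ∧ Trans T x₀ ∧ π x₀ = y₀ ∧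
      α x₀ = ζ ∧ Function.Injective α ∧ (∀ x, α (T x) = U (α x)) ∧
      ∀ v, Continuous fun x => inner ℂ v (α x) := by
  let R := S.prodCongr (wU U)
  let z : Y × WeakDual ℂ H := (y₀, jW ζ)
  let T : OC R z ≃ₜ OC R z := R.subtype (OC_mem R z)
  let x₀ : OC R z := ⟨z, subset_closure ⟨0, rfl⟩⟩
  let π : OC R z → Y := fun x => x.1.1
  let α : OC R z → H := fun x => aW x.1.2
  have ht : Trans T x₀ := trans_sub (R := R) (fun _ => rfl) x₀ le_rfl
  have πc : Continuous π := by fun_prop
  have πe : ∀ x, π (T x) = S (π x) := fun _ => rfl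
  have αe : ∀ x, α (T x) = U (α x) := fun x => aW_jW _
  have αc : ∀ v, Continuous fun x => inner ℂ v (α x) := fun v =>
    (aW_cont v).comp (by fun_prop)
  have α0 : α x₀ = ζ := aW_jW _
  have hb : ∀ x, ‖α x - 0‖ ≤ ‖ζ‖ := fun x =>
    ht.all (ball_closed αc 0 (norm_nonneg _)) (fun n => by
      rw [Set.mem_ofPred_eq, sub_zero, rep_zpow αe, α0, LinearIsometryEquiv.norm_map]) x
  have hK : CompactSpace (OC R z) := by
    refine isCompact_iff_compactSpace.mp ((isCompact_univ.prod
      (WeakDual.isCompact_closedBall (0 : StrongDual ℂ H) ‖ζ‖)).of_isClosed_subset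
      isClosed_closure fun w hw => ⟨trivial, ?_⟩)
    have := hb ⟨w, hw⟩
    rw [sub_zero] at this
    rw [Set.mem_preimage, mem_closedBall_zero_iff]
    exact (LinearIsometryEquiv.norm_map _ _).symm.le.trans this
  have hap : ∀ i x, ‖F i (π x) - Φ i (inner ℂ (η i) (α x))‖ ≤ ε i := fun i x =>
    ht.all (C := {x | ‖F i (π x) - Φ i (inner ℂ (η i) (α x))‖ ≤ ε i})
      (isClosed_le (((F i).continuous.comp πc).sub ((hΦ i).comp (αc _))).norm continuous_const)
      (fun n => by rw [Set.mem_ofPred_eq, zpow_comm_apply πe, rep_zpow αe, α0]; exact happ i n) x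
  have αi : Function.Injective α := fun a b hab => by
    apply Subtype.ext
    apply Prod.ext
    · refine hsep _ _ fun i => ?_
      have h1 := hap i a
      have h2 := hap i b
      rw [hab] at h1
      have := norm_sub_le_norm_sub_add_norm_sub (F i (π a)) (Φ i (inner ℂ (η i) (α b)))
        (F i (π b))
      rw [norm_sub_rev (Φ i _)] at this
      exact this.trans (by linarith)
    · rw [← jW_aW a.1.2, ← jW_aW b.1.2]; exact congrArg jW hab
  have hm : MetrizableSpace (OC R z) := by
    have c : Continuous fun x : OC R z => fun m : ℤ => inner ℂ ((U ^ m) (α x₀)) (α x) :=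
      continuous_pi fun m => αc _
    exact (c.isClosedEmbedding fun a b hab => sep_orbit ht αi αe αc
      (congrFun hab)).isEmbedding.metrizableSpace
  refine ⟨OC R z, inferInstance, hK, hm, T, π, α, x₀, ⟨πc, fun y => ?_, πe⟩, ht, rfl, α0, αi,
    αe, αc⟩
  exact hy.all (isCompact_range πc).isClosed (fun n => ⟨_, zpow_comm_apply πe n x₀⟩) y

end Hil

end Pool.Agent.H49.HR
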