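import Pool.Agent.H49.HR3

set_option autoImplicit false

namespace Pool.Agent.H49.HR

open Filter Topology MeasureTheory TopologicalSpace

theorem minnorm {H : Type} [NormedAddCommGroup H] [InnerProductSpace ℂ H] [CompleteSpace H]
    (U : H ≃ₗᵢ[ℂ] H) (ξ : H) (A : ℕ → Set ℤ) (hA : Antitone A) (h0 : ∀ k, (0 : ℤ) ∈ A k)
    (hs : ∀ k, ∀ n ∈ A k, ∃ j, ∀ m ∈ A j, n + m ∈ A k) :
    ∃ ζ : H, (∀ k (D : Set H), IsClosed D → (∀ u ∈ D, ∀ w ∈ D, (2⁻¹ : ℂ) • (u + w) ∈ D) →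
      (∀ n ∈ A k, (U ^ n) ξ ∈ D) → ζ ∈ D) ∧
      ∀ ε : ℝ, 0 < ε → ∃ k, ∀ n ∈ A k, ‖(U ^ n) ζ - ζ‖ ≤ ε := by
  let C : ℕ → Set H := fun k => ⋂₀ {D | IsClosed D ∧ (∀ u ∈ D, ∀ w ∈ D, (2⁻¹ : ℂ) • (u + w) ∈ D) ∧
    ∀ n ∈ A k, (U ^ n) ξ ∈ D}
  have Cc : ∀ k, IsClosed (C k) := fun k => isClosed_sInter fun D hD => hD.1
  have Cm : ∀ k, ∀ u ∈ C k, ∀ w ∈ C k, (2⁻¹ : ℂ) • (u + w) ∈ C k := fun k u hu w hw D hD =>
    hD.2.1 _ (hu D hD) _ (hw D hD)
  have Co : ∀ k, ∀ n ∈ A k, (U ^ n) ξ ∈ C k := fun k n hn D hD => hD.2.2 n hn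
  have Cξ : ∀ k, ξ ∈ C k := fun k => Co k 0 (h0 k)
  have Ca : Antitone C := fun k j hkj u hu D hD => hu D ⟨hD.1, hD.2.1, fun n hn => hD.2.2 n (hA hkj hn)⟩
  have CU : ∀ k, ∀ n ∈ A k, ∃ j, ∀ u ∈ C j, (U ^ n) u ∈ C k := fun k n hn => by
    obtain ⟨j, hj⟩ := hs k n hn
    refine ⟨j, fun u hu => hu ((U ^ n) ⁻¹' C k) ⟨(Cc k).preimage (U ^ n).continuous,
      fun u hu w hw => ?_, fun m hm => ?_⟩⟩
    · rw [Set.mem_preimage, map_smul, map_add]; exact Cm k _ hu _ hw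
    · have := Co k _ (hj m hm)
      rwa [zpow_add, LinearIsometryEquiv.coe_mul] at this
  let d : ℕ → ℝ := fun k => Metric.infDist 0 (C k)
  have d0 : ∀ k, 0 ≤ d k := fun k => Metric.infDist_nonneg
  have dle : ∀ k, ∀ u ∈ C k, d k ≤ ‖u‖ := fun k u hu => by
    have := Metric.infDist_le_dist_of_mem (x := (0 : H)) hu
    rwa [dist_zero_left] at this
  have dm : Monotone d := fun k j hkj => Metric.infDist_le_infDist_of_subset (Ca hkj) ⟨_, Cξ j⟩
  have db : BddAbove (Set.range d) := ⟨‖ξ‖, by rintro _ ⟨k, rfl⟩; exact dle k _ (Cξ k)⟩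
  set D := ⨆ k, d k
  have dD : ∀ k, d k ≤ D := le_ciSup db
  have dt : Tendsto d atTop (𝓝 D) := tendsto_atTop_ciSup dm db
  have key : ∀ k, ∀ u ∈ C k, ∀ w ∈ C k, ∀ r, ‖u‖ ≤ r → ‖w‖ ≤ r →
      ‖u - w‖ ≤ √(4 * r ^ 2 - 4 * d k ^ 2) := fun k u hu w hw r hur hwr => by
    apply Real.le_sqrt_of_sq_le
    have h1 := dle k _ (Cm k u hu w hw)
    rw [norm_smul, norm_inv, Complex.norm_ofNat] at h1
    have h2 := parallelogram_law_with_norm ℂ u w
    have h3 : 2 * d k ≤ ‖u + w‖ := by linarith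
    nlinarith [d0 k, norm_nonneg u, norm_nonneg w, norm_nonneg (u + w)]
  have : ∀ k : ℕ, ∃ u ∈ C k, ‖u‖ ≤ D + 1 / ((k : ℝ) + 1) := fun k => by
    obtain ⟨u, hu, h⟩ := (Metric.infDist_lt_iff (x := (0 : H)) (r := d k + 1 / ((k : ℝ) + 1))
      ⟨_, Cξ k⟩).mp (lt_add_of_pos_right _ (by positivity))
    rw [dist_zero_left] at h
    exact ⟨u, hu, by linarith [dD k]⟩
  choose u uC un using this
  have r0 : Tendsto (fun k : ℕ => D + 1 / ((k : ℝ) + 1)) atTop (𝓝 D) := by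
    simpa using tendsto_one_div_add_atTop_nhds_zero_nat.const_add D
  have b0 : Tendsto (fun k : ℕ => √(4 * (D + 1 / ((k : ℝ) + 1)) ^ 2 - 4 * d k ^ 2)) atTop (𝓝 0) := by
    have := (((r0.pow 2).const_mul 4).sub ((dt.pow 2).const_mul 4)).sqrt
    rwa [sub_self, Real.sqrt_zero] at this
  have mono : ∀ k j : ℕ, k ≤ j → ‖u j‖ ≤ D + 1 / ((k : ℝ) + 1) := fun k j h =>
    (un j).trans (by gcongr)
  have cs : CauchySeq u := cauchySeq_of_le_tendsto_0 _ (fun n m N hn hm => by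
    rw [dist_eq_norm]
    exact key N _ (Ca hn (uC n)) _ (Ca hm (uC m)) _ (mono _ _ hn) (mono _ _ hm)) b0
  obtain ⟨ζ, hζ⟩ := cauchySeq_tendsto_of_complete cs
  have ζC : ∀ k, ζ ∈ C k := fun k => (Cc k).mem_of_tendsto hζ
    ((eventually_ge_atTop k).mono fun j hj => Ca hj (uC j))
  have ζn : ‖ζ‖ ≤ D := le_of_tendsto_of_tendsto' hζ.norm r0 un
  refine ⟨ζ, fun k E h1 h2 h3 => ζC k E ⟨h1, h2, h3⟩, fun ε hε => ?_⟩
  obtain ⟨k, hk⟩ := (b0.eventually (ge_mem_nhds hε)).exists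
  refine ⟨k, fun n hn => ?_⟩
  obtain ⟨j, hj⟩ := CU k n hn
  have hr : ‖ζ‖ ≤ D + 1 / ((k : ℝ) + 1) := ζn.trans (le_add_of_nonneg_right (by positivity))
  exact (key k _ (hj _ (ζC j)) _ (ζC k) _ (by rwa [LinearIsometryEquiv.norm_map]) hr).trans hk

theorem almost_of_fibre {X Y : Type} [TopologicalSpace X] [CompactSpace X] [MetrizableSpace X]
    [TopologicalSpace Y] [T2Space Y] {T : X ≃ₜ X} {S : Y ≃ₜ Y} {π : X → Y} (hπ : Factor T S π)
    {x₀ : X} (ht : Trans T x₀) (hf : ∀ x, π x = π x₀ → x = x₀) : AlmostOneOne π := by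
  letI := metrizableSpaceMetric X
  let O : ℕ → Set X := fun k =>
    (Prod.fst '' {p : X × X | π p.2 = π p.1 ∧ 1 / ((k : ℝ) + 1) ≤ dist p.2 p.1})ᶜ
  have hO : ∀ k, IsOpen (O k) := fun k => by
    have c : IsClosed {p : X × X | π p.2 = π p.1 ∧ 1 / ((k : ℝ) + 1) ≤ dist p.2 p.1} :=
      (isClosed_eq (hπ.1.comp continuous_snd) (hπ.1.comp continuous_fst)).inter
        (isClosed_le continuous_const (continuous_snd.dist continuous_fst))
    exact (c.isCompact.image continuous_fst).isClosed.isOpen_compl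
  refine ⟨⋂ k, O k, IsGδ.iInter fun k => (hO k).isGδ, ht.mono ?_, fun x hx => ?_⟩
  · rintro _ ⟨n, rfl⟩
    refine Set.mem_iInter.mpr fun k => ?_
    rintro ⟨⟨a, b⟩, ⟨h1, h2⟩, h3⟩
    simp only at h1 h2 h3
    have : (T ^ (-n)) b = x₀ := by
      apply hf
      rw [zpow_comm_apply hπ.2.2, h1, h3, zpow_comm_apply hπ.2.2, zpow_neg_apply]
    rw [h3, ← this, zpow_apply_neg, dist_self] at h2
    exact absurd h2 (not_le.mpr (by positivity))
  · ext x'
    simp only [Set.mem_preimage, Set.mem_singleton_iff]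
    refine ⟨fun h => ?_, fun h => by rw [h]⟩
    by_contra hn
    obtain ⟨k, hk⟩ := exists_nat_one_div_lt (dist_pos.mpr hn)
    exact Set.mem_iInter.mp hx k ⟨(x, x'), ⟨h, hk.le⟩, rfl⟩

/-- Every metrizable Hilbert system is an almost one-to-one factor of a Hilbert representable
system. -/
theorem almost_cover (Y : Type) [TopologicalSpace Y] [CompactSpace Y] [MetrizableSpace Y]
    (S : Y ≃ₜ Y) (h : HilbertSys Y S) :
    ∃ (X : Type) (_ : TopologicalSpace X) (_ : CompactSpace X) (_ : MetrizableSpace X)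
      (T : X ≃ₜ X), Rep ℂ X T ∧ ∃ π : X → Y, Factor T S π ∧ AlmostOneOne π := by
  letI := metrizableSpaceMetric Y
  obtain ⟨y₀, hy, hH⟩ := h
  obtain ⟨e, he⟩ := exists_surjective_nat (ℤ × ℕ)
  let F : ℕ → C(Y, ℂ) := fun i => ⟨fun y => (dist y ((S ^ (e i).1) y₀) : ℝ), by fun_prop⟩
  let ε : ℕ → ℝ := fun i => 1 / (((e i).2 : ℝ) + 1)
  choose g gF hg using fun i => hH (F i) (ε i) (by positivity)
  obtain ⟨ν, _, η, hη⟩ := FS_common g gF
  let A : ℕ → Set ℤ := fun k => {n | dist ((S ^ n) y₀) y₀ < 1 / ((k : ℝ) + 1)}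
  have small : ∀ O : Set Y, IsOpen O → y₀ ∈ O → ∃ j, ∀ m ∈ A j, (S ^ m) y₀ ∈ O := fun O hO h0 => by
    obtain ⟨δ, hδ, hb⟩ := Metric.isOpen_iff.mp hO y₀ h0
    obtain ⟨j, hj⟩ := exists_nat_one_div_lt hδ
    exact ⟨j, fun m hm => hb (lt_trans hm hj)⟩
  obtain ⟨ζ, hζ1, hζ2⟩ := minnorm (Um ν) (oneL ν) A
    (fun k j hkj n hn => lt_of_lt_of_le (b := 1 / ((j : ℝ) + 1)) hn (Nat.one_div_le_one_div hkj))
    (fun k => by simp only [A, Set.mem_ofPred_eq, zpow_zero, Homeomorph.one_apply, dist_self]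
                 positivity)
    (fun k n hn => by
      obtain ⟨j, hj⟩ := small ((S ^ n) ⁻¹' Metric.ball y₀ (1 / ((k : ℝ) + 1)))
        (Metric.isOpen_ball.preimage (S ^ n).continuous) hn
      exact ⟨j, fun m hm => by
        have := hj m hm
        rwa [Set.mem_preimage, ← Homeomorph.mul_apply, ← zpow_add] at this⟩)
  obtain ⟨X, _, _, _, T, π, α, x₀, hπ, ht, h1, h2, αi, αe, αc⟩ :=
    cover S y₀ hy (Um ν) ζ F η (fun _ => id) (fun _ => continuous_id) ε (fun i m => by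
      refine le_of_forall_pos_le_add fun δ hδ => ?_
      obtain ⟨j, hj⟩ := small {y | ‖F i ((S ^ m) y₀) - F i ((S ^ m) y)‖ < δ}
        (isOpen_lt (by fun_prop) continuous_const) (by simpa using hδ)
      refine hζ1 j {u | ‖F i ((S ^ m) y₀) - inner ℂ (η i) ((Um ν ^ m) u)‖ ≤ ε i + δ}
        (isClosed_le (by fun_prop) continuous_const) (fun u hu w hw => ?_) (fun n hn => ?_)
      · rw [Set.mem_ofPred_eq] at hu hw ⊢
        have : F i ((S ^ m) y₀) - inner ℂ (η i) ((Um ν ^ m) ((2⁻¹ : ℂ) • (u + w))) =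
            (2⁻¹ : ℂ) * ((F i ((S ^ m) y₀) - inner ℂ (η i) ((Um ν ^ m) u)) +
              (F i ((S ^ m) y₀) - inner ℂ (η i) ((Um ν ^ m) w))) := by
          rw [map_smul, map_add, inner_smul_right, inner_add_right]; ring
        rw [this, norm_mul, norm_inv, Complex.norm_ofNat]
        linarith [norm_add_le (F i ((S ^ m) y₀) - inner ℂ (η i) ((Um ν ^ m) u))
          (F i ((S ^ m) y₀) - inner ℂ (η i) ((Um ν ^ m) w))]
      · have a1 := hj n hn
        have a2 : ‖F i ((S ^ (m + n)) y₀) - g i (m + n)‖ ≤ ε i := hg i (m + n)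
        rw [hη, zpow_add, zpow_add, LinearIsometryEquiv.coe_mul, Function.comp_apply,
          Homeomorph.mul_apply] at a2
        rw [Set.mem_ofPred_eq] at a1 ⊢
        linarith [norm_sub_le_norm_sub_add_norm_sub (F i ((S ^ m) y₀)) (F i ((S ^ m) ((S ^ n) y₀)))
          (inner ℂ (η i) ((Um ν ^ m) ((Um ν ^ n) (oneL ν))))])
    (fun y y' hyy => by
      have a1 : ∀ m : ℤ, dist y ((S ^ m) y₀) = dist y' ((S ^ m) y₀) := fun m => by
        by_contra hn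
        obtain ⟨k, hk⟩ := exists_nat_one_div_lt (half_pos (abs_pos.mpr (sub_ne_zero.mpr hn)))
        obtain ⟨i, hi⟩ := he (m, k)
        have := hyy i
        simp only [F, ε, hi, ContinuousMap.coe_mk, ← Complex.ofReal_sub, Complex.norm_real,
          Real.norm_eq_abs] at this
        linarith
      have a2 := hy.all (C := {z | dist y z = dist y' z})
        (isClosed_eq (by fun_prop) (by fun_prop)) a1 y'
      rwa [Set.mem_ofPred_eq, dist_self, dist_eq_zero] at a2)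
  refine ⟨X, inferInstance, inferInstance, inferInstance, T,
    ⟨_, inferInstance, inferInstance, inferInstance, _, α, αi, αe, αc⟩, π, hπ,
    almost_of_fibre hπ ht fun x hx => αi ?_⟩
  rw [h2, ← sub_eq_zero, ← norm_le_zero_iff]
  refine le_of_forall_pos_le_add fun δ hδ => ?_
  obtain ⟨k, hk⟩ := hζ2 δ hδ
  have := ht.all ((ball_closed αc ζ hδ.le).union
    (Metric.isOpen_ball.preimage hπ.1 (t := Metric.ball y₀ (1 / ((k : ℝ) + 1)))).isClosed_compl)
    (fun n => by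
      by_cases hn : n ∈ A k
      · left; rw [Set.mem_ofPred_eq, rep_zpow αe, h2]; exact hk n hn
      · right; rw [Set.mem_compl_iff, Set.mem_preimage, zpow_comm_apply hπ.2.2, h1]; exact hn) x
  rcases this with h | h
  · rw [zero_add]; exact h
  · exact absurd (by rw [Set.mem_preimage, hx, h1]; exact Metric.mem_ball_self (by positivity)) h

end Pool.Agent.H49.HR
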