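import Pool.Agent.H49.HR4

set_option autoImplicit false

namespace Pool.Agent.H49.HR

open Filter Topology MeasureTheory TopologicalSpace Real

noncomputable def Ee (x : ℝ) : ℂ := Complex.exp (2 * π * Complex.I * x)

theorem four_coe (n : ℤ) (x : ℝ) : fourier n (x : Tc) = Ee (n * x) := by
  rw [fourier_coe_apply, Ee]; congr 1; push_cast; ring

theorem Ee_add (x y : ℝ) : Ee (x + y) = Ee x * Ee y := by
  rw [Ee, Ee, Ee, ← Complex.exp_add]; congr 1; push_cast; ring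

theorem Ee_int (n : ℤ) : Ee n = 1 := by
  rw [Ee, ← Complex.exp_int_mul_two_pi_mul_I n]; congr 1; push_cast; ring

theorem Ee_norm (x : ℝ) : ‖Ee x‖ = 1 := by
  have := norm_four 1 (x : Tc)
  rwa [four_coe, Int.cast_one, one_mul] at this

theorem Ee_cos (x : ℝ) : Ee x + Ee (-x) = 2 * (cos (2 * π * x) : ℝ) := by
  rw [Complex.ofReal_cos, Complex.two_cos, Ee, Ee]; congr 2 <;> (push_cast; ring)

theorem Ee_cont : Continuous Ee := by unfold Ee; fun_prop

theorem Ee_lim {t : ℕ → ℝ} (h : Tendsto t atTop (𝓝 0)) : Tendsto (fun k => Ee (t k)) atTop (𝓝 1) := by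
  have := (Ee_cont.tendsto 0).comp h
  rwa [show Ee 0 = 1 by simp [Ee]] at this

abbrev Om := ℕ → ZMod 2

def sg (a : ZMod 2) : ℤ := if a = 0 then 1 else -1

theorem sg_abs (a : ZMod 2) : |(sg a : ℝ)| = 1 := by
  unfold sg; split_ifs <;> simp

theorem sg_succ (a : ZMod 2) : sg (a + 1) = - sg a := by revert a; decide

theorem sg_cases (a : ZMod 2) : sg a = 1 ∨ sg a = -1 := by revert a; decide

noncomputable def tm (ω : Om) (k : ℕ) : ℝ := sg (ω k) * (2⁻¹ : ℝ) ^ (k ^ 2)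

theorem tm_le (ω : Om) (k : ℕ) : ‖tm ω k‖ ≤ (2⁻¹ : ℝ) ^ k := by
  rw [tm, norm_mul, Real.norm_eq_abs, sg_abs, one_mul, norm_pow, Real.norm_eq_abs,
    abs_of_pos (by norm_num)]
  exact pow_le_pow_of_le_one (by norm_num) (by norm_num) (Nat.le_self_pow two_ne_zero k)

theorem geo : Summable fun k : ℕ => (2⁻¹ : ℝ) ^ k :=
  summable_geometric_of_lt_one (by norm_num) (by norm_num)

theorem tm_sum (ω : Om) : Summable (tm ω) := Summable.of_norm_bounded geo (tm_le ω)

noncomputable def th (ω : Om) : ℝ := ∑' k, tm ω k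

theorem th_cont : Continuous th :=
  continuous_tsum (fun k => ((continuous_of_discreteTopology (f := fun a => (sg a : ℝ))).comp
    (continuous_apply k)).mul continuous_const) geo fun k ω => tm_le ω k

theorem th_flip (ω : Om) (k : ℕ) : th (ω + Pi.single k 1) = th ω - 2 * tm ω k := by
  have : th (ω + Pi.single k 1) - th ω = - 2 * tm ω k := by
    rw [th, th, ← (tm_sum _).tsum_sub (tm_sum _), tsum_eq_single k]
    · simp only [tm, Pi.add_apply, Pi.single_eq_same, sg_succ]; push_cast; ring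
    · intro i hi; simp [tm, hi]
  linarith

def sq (j k : ℕ) : ℤ := 2 ^ (k ^ 2 - j)

theorem sq_tm (j k : ℕ) (h : j + 1 ≤ k) (ω : Om) : sq j k * tm ω k = sg (ω k) * (2⁻¹ : ℝ) ^ j := by
  have : j ≤ k ^ 2 := by nlinarith
  obtain ⟨a, ha⟩ := Nat.exists_eq_add_of_le this
  rw [sq, tm, ha, Nat.add_sub_cancel_left]
  push_cast
  rw [pow_add, inv_pow, inv_pow]
  field_simp

theorem sq_low (j k : ℕ) (h : j + 1 ≤ k) (ω : Om) :
    ∃ N : ℤ, sq j k * ∑ i ∈ Finset.range k, tm ω i = N := by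
  refine ⟨∑ i ∈ Finset.range k, sg (ω i) * 2 ^ (k ^ 2 - j - i ^ 2), ?_⟩
  rw [Finset.mul_sum]
  push_cast
  refine Finset.sum_congr rfl fun i hi => ?_
  have hi := Finset.mem_range.mp hi
  have : j + i ^ 2 ≤ k ^ 2 := by nlinarith
  obtain ⟨a, ha⟩ := Nat.exists_eq_add_of_le this
  rw [sq, tm, ha, show j + i ^ 2 + a - j = i ^ 2 + a by omega, Nat.add_sub_cancel_left]
  push_cast
  rw [pow_add, inv_pow]
  field_simp

theorem sq_tail (j : ℕ) (ω : Om) :
    Tendsto (fun k => sq j k * ∑' i, tm ω (i + (k + 1))) atTop (𝓝 0) := by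
  have g0 : Tendsto (fun k : ℕ => (2⁻¹ : ℝ) ^ k * ∑' i : ℕ, (2⁻¹ : ℝ) ^ i) atTop (𝓝 0) := by
    simpa using (tendsto_pow_atTop_nhds_zero_of_lt_one (r := (2⁻¹ : ℝ)) (by norm_num)
      (by norm_num)).mul_const (∑' i : ℕ, (2⁻¹ : ℝ) ^ i)
  refine squeeze_zero_norm (fun k => ?_) g0
  rw [← tsum_mul_left, ← tsum_mul_left]
  refine tsum_of_norm_bounded (geo.mul_left _).hasSum fun i => ?_
  rw [tm, norm_mul, norm_mul, Real.norm_eq_abs (sg _), sg_abs, one_mul, sq, norm_pow]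
  push_cast
  rw [norm_pow, Real.norm_ofNat, norm_inv, Real.norm_ofNat, ← pow_add]
  have : k ^ 2 - j + (k + i) ≤ (i + (k + 1)) ^ 2 := by
    have := Nat.sub_le (k ^ 2) j
    nlinarith
  calc (2 : ℝ) ^ (k ^ 2 - j) * 2⁻¹ ^ (i + (k + 1)) ^ 2
      ≤ 2 ^ (k ^ 2 - j) * 2⁻¹ ^ (k ^ 2 - j + (k + i)) := by
        gcongr ?_ * ?_
        exact pow_le_pow_of_le_one (by norm_num) (by norm_num) this
    _ = 2⁻¹ ^ (k + i) := by rw [pow_add 2⁻¹, ← mul_assoc, ← mul_pow]; norm_num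

theorem pt_lim (j : ℕ) (m : ℤ) (ω : Om) :
    Tendsto (fun k => (2⁻¹ : ℂ) * (Ee ((m + sq j k : ℤ) * th ω) +
      Ee ((m + sq j k : ℤ) * th (ω + Pi.single k 1)))) atTop
      (𝓝 ((cos (2 * π * 2⁻¹ ^ j) : ℝ) * Ee (m * th ω))) := by
  have t0 := Ee_lim (sq_tail j ω)
  have b0 : Tendsto (fun k => -2 * m * tm ω k) atTop (𝓝 0) := by
    simpa using (tm_sum ω).tendsto_atTop_zero.const_mul (-2 * m : ℝ)
  have b1 : Tendsto (fun k => (Ee (-2 * m * tm ω k) - 1) * Ee (-(sg (ω k) * (2⁻¹ : ℝ) ^ j)))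
      atTop (𝓝 0) := by
    rw [tendsto_zero_iff_norm_tendsto_zero]
    simp only [norm_mul, Ee_norm, mul_one]
    simpa using ((Ee_lim b0).sub_const 1).norm
  have := (t0.mul ((b1.const_mul 2⁻¹).const_add ((cos (2 * π * 2⁻¹ ^ j) : ℝ) : ℂ))).mul_const
    (Ee (m * th ω))
  rw [mul_zero, add_zero, one_mul] at this
  refine this.congr' ((eventually_ge_atTop (j + 1)).mono fun k hk => ?_)
  obtain ⟨N, hN⟩ := sq_low j k hk ω
  have e1 := sq_tm j k hk ω
  have e2 := (tm_sum ω).sum_add_tsum_nat_add (k + 1)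
  rw [Finset.sum_range_succ] at e2
  have e3 : (cos (2 * π * 2⁻¹ ^ j) : ℝ) = (2⁻¹ : ℂ) * (Ee (sg (ω k) * (2⁻¹ : ℝ) ^ j) +
      Ee (-(sg (ω k) * (2⁻¹ : ℝ) ^ j))) := by
    rw [Ee_cos]
    rcases sg_cases (ω k) with h | h <;> rw [h] <;> simp
  set a := (sg (ω k) : ℝ) * (2⁻¹ : ℝ) ^ j
  set t := (sq j k : ℝ) * ∑' i, tm ω (i + (k + 1))
  have e4 : (sq j k : ℝ) * th ω = N + a + t := by
    rw [th, ← e2, ← hN, ← e1]; ring
  have f1 : ((m + sq j k : ℤ) : ℝ) * th ω = m * th ω + (N + a + t) := by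
    push_cast; rw [← e4]; ring
  have f2 : ((m + sq j k : ℤ) : ℝ) * th (ω + Pi.single k 1) =
      m * th ω + (N + -a + t + -2 * m * tm ω k) := by
    rw [th_flip]; push_cast; linear_combination e4 - 2 * e1
  simp only [f1, f2, Ee_add, Ee_int, e3]
  ring

theorem exMeasure : ∃ ν : Measure Tc, IsProbabilityMeasure ν ∧ ∀ j : ℕ, ∃ s : ℕ → ℤ, ∀ m,
    Tendsto (fun k => hat ν (m + s k)) atTop (𝓝 ((cos (2 * π * 2⁻¹ ^ j) : ℝ) * hat ν m)) := by
  letI : MeasurableSpace Om := borel Om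
  haveI : BorelSpace Om := ⟨rfl⟩
  let P : Measure Om := Measure.addHaarMeasure ⊤
  haveI : IsProbabilityMeasure P := ⟨by
    rw [← PositiveCompacts.coe_top]; exact Measure.addHaarMeasure_self⟩
  have c : Continuous fun ω => (th ω : Tc) := (AddCircle.continuous_mk' 1).comp th_cont
  have hh : ∀ n, hat (P.map fun ω => (th ω : Tc)) n = ∫ ω, Ee (n * th ω) ∂P := fun n => by
    rw [hat, integral_map c.aemeasurable (fourier n).continuous.aestronglyMeasurable]
    simp only [four_coe]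
  have ci : ∀ f : Om → ℂ, Continuous f → Integrable f P := fun f hf =>
    hf.integrable_of_hasCompactSupport (HasCompactSupport.of_compactSpace f)
  have := Ee_cont
  have := th_cont
  refine ⟨P.map fun ω => (th ω : Tc), Measure.isProbabilityMeasure_map c.aemeasurable,
    fun j => ⟨sq j, fun m => ?_⟩⟩
  simp only [hh]
  rw [← integral_const_mul]
  refine (tendsto_integral_of_dominated_convergence (fun _ => 1) (fun k => ?_)
    (integrable_const _) (fun k => Eventually.of_forall fun ω => ?_)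
    (Eventually.of_forall (pt_lim j m))).congr fun k => ?_
  · exact Continuous.aestronglyMeasurable (by fun_prop)
  · rw [norm_mul, norm_inv, Complex.norm_ofNat]
    have := norm_add_le (Ee ((m + sq j k : ℤ) * th ω))
      (Ee ((m + sq j k : ℤ) * th (ω + Pi.single k 1)))
    rw [Ee_norm, Ee_norm] at this
    linarith
  · rw [integral_const_mul, integral_add (ci _ (by fun_prop)) (ci _ (by fun_prop)),
      integral_add_right_eq_self (fun ω => Ee ((m + sq j k : ℤ) * th ω))]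
    ring

end Pool.Agent.H49.HR
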