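import Pool.Agent.H49.HR5

set_option autoImplicit false

namespace Pool.Agent.H49.HR

open Filter Topology MeasureTheory TopologicalSpace Real

theorem Rep.real {X : Type} [TopologicalSpace X] {T : X ≃ₜ X} (h : Rep ℂ X T) : Rep ℝ X T := by
  obtain ⟨H, _, _, _, U, α, hi, he, hc⟩ := h
  letI : InnerProductSpace ℝ H := InnerProductSpace.rclikeToReal ℂ H
  refine ⟨H, inferInstance, inferInstance, inferInstance,
    { toFun := U, invFun := U.symm, map_add' := map_add U,
      map_smul' := fun r x => map_smul U (algebraMap ℝ ℂ r) x, left_inv := U.symm_apply_apply,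
      right_inv := U.apply_symm_apply, norm_map' := U.norm_map }, α, hi, he, fun v => ?_⟩
  exact RCLike.continuous_re.comp (hc v)

theorem shift_zpow (n : ℤ) (g : ℤ → ℝ) : (shift ^ n) g = fun m => g (m + n) := by
  induction n using Int.induction_on generalizing g with
  | zero => funext m; simp
  | succ n ih => rw [zpow_add_one, Homeomorph.mul_apply, ih]; funext m; simp [shift, add_assoc]
  | pred n ih =>
    rw [zpow_sub_one, Homeomorph.mul_apply, ih]; funext m
    show g _ = g _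
    congr 1; ring

theorem sig_zpow (f : ℤ → ℝ) (n : ℤ) (y : Xf f) : ((sig f ^ n) y).1 = fun m => y.1 (m + n) :=
  (zpow_comm_apply (T := sig f) (S := shift) (fun _ => (rfl : (sig f _).1 = _)) n y).trans
    (shift_zpow n _)

theorem self_mem (f : ℤ → ℝ) : f ∈ Xf f := subset_closure ⟨0, by funext m; simp⟩

theorem sig_trans (f : ℤ → ℝ) : Trans (sig f) ⟨f, self_mem f⟩ :=
  trans_sub (R := shift) (fun _ => rfl) _ (by
    simp only [OC, shift_zpow]; exact le_rfl)

theorem inner_zpow {H : Type} [NormedAddCommGroup H] [InnerProductSpace ℂ H] (U : H ≃ₗᵢ[ℂ] H)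
    (m n : ℤ) (a b : H) : inner ℂ ((U ^ m) a) ((U ^ n) b) = inner ℂ a ((U ^ (-m + n)) b) := by
  have : U ^ n = U ^ m * U ^ (-m + n) := by rw [← zpow_add]; congr 1; ring
  rw [this, LinearIsometryEquiv.coe_mul, Function.comp_apply, LinearIsometryEquiv.inner_map_map]

/-- No nilpotent chains. -/
def NoChain {W : Type} [TopologicalSpace W] (R : W ≃ₜ W) : Prop :=
  ∀ (s : ℕ → ℤ) (y : ℕ → W), (∀ j, Tendsto (fun i => (R ^ s i) (y j)) atTop (𝓝 (y (j + 1)))) →
    ∀ N, R (y (N + 1)) = y (N + 1) → y 1 = y (N + 1)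

/-- The transitive point is a limit of points that are nilpotent over a fixed point. -/
def Nil {Y : Type} [TopologicalSpace Y] (S : Y ≃ₜ Y) (y₀ : Y) : Prop :=
  ∃ (o : Y) (s : ℕ → ℕ → ℤ) (y : ℕ → ℕ → Y) (N : ℕ → ℕ), S o = o ∧ (∀ j, y j 0 = y₀) ∧
    (∀ j, y j (N j + 1) = o) ∧
    (∀ j i, Tendsto (fun k => (S ^ s j k) (y j i)) atTop (𝓝 (y j (i + 1)))) ∧
    Tendsto (fun j => y j 1) atTop (𝓝 y₀)

noncomputable def ya (ν : Measure Tc) (a : ℝ) : ℤ → ℝ := fun m => max (a * (hat ν m).re - 1 / 4) 0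

theorem hat_re_le (ν : Measure Tc) [IsProbabilityMeasure ν] (m : ℤ) : (hat ν m).re ≤ 1 := by
  refine (Complex.re_le_norm _).trans ?_
  have := norm_integral_le_of_norm_le_const (μ := ν) (f := fun t => fourier m t) (C := 1)
    (Eventually.of_forall fun t => (norm_four m t).le)
  rwa [probReal_univ, mul_one] at this

theorem hat_zero (ν : Measure Tc) [IsProbabilityMeasure ν] : hat ν 0 = 1 := by simp [hat]

theorem main : ∃ (f : ℤ → ℝ) (_ : CompactSpace (Xf f)), Nontrivial (Xf f) ∧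
    RecTrans (Xf f) (sig f) ∧
    (∀ F : C(Xf f, ℂ), InH (fun n => F ((sig f ^ n) ⟨f, self_mem f⟩))) ∧
    HilbertFun ℂ f ∧ HilbertFun ℝ f ∧
    (∃ (X : Type) (_ : TopologicalSpace X) (_ : CompactSpace X) (_ : MetrizableSpace X)
      (T : X ≃ₜ X) (p : X → Xf f) (H : Type) (_ : NormedAddCommGroup H)
      (_ : InnerProductSpace ℂ H) (_ : CompleteSpace H) (U : H ≃ₗᵢ[ℂ] H) (α : X → H),
      Factor T (sig f) p ∧ Function.Injective α ∧ (∀ x, ‖α x‖ ≤ 1) ∧ (∀ x, α (T x) = U (α x)) ∧
      ∀ v, Continuous fun x => inner ℂ v (α x)) ∧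
    Nil (sig f) ⟨f, self_mem f⟩ := by
  obtain ⟨ν, _, hν⟩ := exMeasure
  set f := ya ν 1 with hf
  have hK : CompactSpace (Xf f) := by
    refine isCompact_iff_compactSpace.mp ((isCompact_univ_pi fun _ : ℤ =>
      isCompact_Icc (a := (0 : ℝ)) (b := 1)).of_isClosed_subset isClosed_closure
      (closure_minimal ?_ (isClosed_set_pi fun _ _ => isClosed_Icc)))
    rintro _ ⟨n, rfl⟩ m -
    exact ⟨le_max_right _ _, max_le (by linarith [hat_re_le ν (m + n)]) zero_le_one⟩
  let y₀ : Xf f := ⟨f, self_mem f⟩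
  have hy : Trans (sig f) y₀ := sig_trans f
  let c : ℕ → ℝ := fun j => cos (2 * π * 2⁻¹ ^ (j + 2))
  have hang : ∀ j : ℕ, 0 < 2 * π * 2⁻¹ ^ (j + 2) ∧ 2 * π * 2⁻¹ ^ (j + 2) ≤ π / 2 := fun j => by
    refine ⟨by positivity, ?_⟩
    have : (2⁻¹ : ℝ) ^ j ≤ 1 := pow_le_one₀ (by norm_num) (by norm_num)
    rw [pow_add]; nlinarith [pi_pos]
  have c0 : ∀ j, 0 ≤ c j := fun j =>
    cos_nonneg_of_neg_pi_div_two_le_of_le (by linarith [(hang j).1, pi_pos]) (hang j).2
  have c1 : ∀ j, c j < 1 := fun j => by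
    have := cos_lt_cos_of_nonneg_of_le_pi_div_two le_rfl (hang j).2 (hang j).1
    rwa [cos_zero] at this
  have ct : Tendsto c atTop (𝓝 1) := by
    have := (continuous_cos.tendsto _).comp ((((tendsto_pow_atTop_nhds_zero_of_lt_one
      (r := (2⁻¹ : ℝ)) (by norm_num) (by norm_num)).comp (tendsto_add_atTop_nat 2))).const_mul
      (2 * π))
    rwa [mul_zero, cos_zero] at this
  have chain : ∀ j, ∃ (s : ℕ → ℤ) (y : ℕ → Xf f) (N : ℕ), y 0 = y₀ ∧ (y 1).1 = ya ν (c j) ∧
      (y (N + 1)).1 = 0 ∧ ∀ i, Tendsto (fun k => (sig f ^ s k) (y i)) atTop (𝓝 (y (i + 1))) := by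
    intro j
    obtain ⟨s, hs⟩ := hν (j + 2)
    have lim : ∀ a, Tendsto (fun k => fun m => ya ν a (m + s k)) atTop (𝓝 (ya ν (a * c j))) :=
      fun a => tendsto_pi_nhds.mpr fun m => by
        have := ((((Complex.continuous_re.tendsto _).comp (hs m)).const_mul a).sub_const
          (1 / 4)).max (tendsto_const_nhds (x := (0 : ℝ)))
        rw [Complex.re_ofReal_mul, ← mul_assoc] at this
        exact this
    have mem : ∀ i : ℕ, ya ν (c j ^ i) ∈ Xf f := fun i => by
      induction i with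
      | zero => rw [pow_zero]; exact self_mem f
      | succ i ih =>
        rw [pow_succ]
        refine isClosed_closure.mem_of_tendsto (lim _) (Eventually.of_forall fun k => ?_)
        have := ((sig f ^ s k) ⟨_, ih⟩).2
        rwa [sig_zpow] at this
    obtain ⟨N, hN⟩ := exists_pow_lt_of_lt_one (show (0 : ℝ) < 1 / 4 by norm_num) (c1 j)
    refine ⟨s, fun i => ⟨_, mem i⟩, N, Subtype.ext (by simp only [pow_zero]; rfl),
      by simp only [pow_one], ?_, fun i => ?_⟩
    · funext m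
      have h1 : c j ^ (N + 1) ≤ c j ^ N := pow_le_pow_of_le_one (c0 j) (c1 j).le (Nat.le_succ N)
      have h2 := pow_nonneg (c0 j) (N + 1)
      exact max_eq_right (by nlinarith [hat_re_le ν m])
    · rw [tendsto_subtype_rng]
      simp only [sig_zpow, pow_succ]
      exact lim _
  choose s y N h0 h1 h2 h3 using chain
  have yt : Tendsto (fun j => y j 1) atTop (𝓝 y₀) := by
    rw [tendsto_subtype_rng]
    simp only [h1]
    exact tendsto_pi_nhds.mpr fun m => ((ct.mul_const _).sub_const _).max tendsto_const_nhds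
  have yne : ∀ j, y j 1 ≠ y₀ := fun j e => by
    have := congrFun ((h1 j).symm.trans (congrArg Subtype.val e)) 0
    simp only [y₀, hf, ya, hat_zero, Complex.one_re, mul_one] at this
    rw [max_eq_left (show (0 : ℝ) ≤ 1 - 1 / 4 by norm_num)] at this
    rcases max_choice (c j - 1 / 4) 0 with h | h <;> rw [h] at this <;> linarith [c1 j]
  obtain ⟨X, _, _, _, T, p, α, x₀, hπ, ht, e1, e2, αi, αe, αc⟩ :=
    cover (sig f) y₀ hy (Um ν) (oneL ν) (fun m : ℤ => ⟨fun y => (y.1 m : ℂ),
        Complex.continuous_ofReal.comp ((continuous_apply m).comp continuous_subtype_val)⟩)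
      (fun m => (Um ν ^ (-m)) (oneL ν)) (fun _ z => (max (1 * z.re - 1 / 4) 0 : ℝ))
      (fun _ => by fun_prop) (fun _ => 0) (fun m n => by
        rw [inner_zpow, inner_one_one, neg_neg, ContinuousMap.coe_mk, sig_zpow]
        simp [y₀, hf, ya])
      (fun a b hab => Subtype.ext (funext fun m => by
        have := hab m
        rw [mul_zero, norm_le_zero_iff, sub_eq_zero] at this
        exact Complex.ofReal_injective this))
  have hR : Rep ℂ X T := ⟨_, inferInstance, inferInstance, inferInstance, _, α, αi, αe, αc⟩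
  have hfun : ∃ (x : X) (F : X → ℝ), Continuous F ∧ ∀ n : ℤ, f n = F ((T ^ n) x) :=
    ⟨x₀, fun x => (p x).1 0, ((continuous_apply 0).comp continuous_subtype_val).comp hπ.1, fun n => by
      simp only [zpow_comm_apply hπ.2.2, e1, sig_zpow, zero_add, y₀]⟩
  refine ⟨f, hK, ⟨_, _, yne 0⟩, ⟨⟨_, hy⟩, fun x hx => ?_⟩, fun F => ?_,
    ⟨X, inferInstance, inferInstance, inferInstance, T, hR, hfun⟩,
    ⟨X, inferInstance, inferInstance, inferInstance, T, hR.real, hfun⟩,
    ⟨X, inferInstance, inferInstance, inferInstance, T, p, _, inferInstance, inferInstance,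
      inferInstance, _, α, hπ, αi, fun x => ?_, αe, αc⟩, ?_⟩
  · obtain ⟨n, hn⟩ := hy.exists_mem_open hx (Set.singleton_nonempty x)
    have ho := hx.preimage (sig f ^ n).continuous
    obtain ⟨j, hj⟩ := (yt.eventually (ho.mem_nhds hn)).exists
    exact yne j ((sig f ^ n).injective (hj.trans (Set.mem_singleton_iff.mp hn).symm))
  · have := hilbert_of_rep ht αi αe αc (fun m => by
      simp only [e2, inner_zpow, inner_one_one]; exact FS_shift ν (-m)) (F.comp ⟨p, hπ.1⟩)
    simpa only [ContinuousMap.comp_apply, ContinuousMap.coe_mk, zpow_comm_apply hπ.2.2, e1]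
      using this
  · have n1 : ‖oneL ν‖ ≤ 1 := by
      have a := inner_one_one ν 0
      rw [hat_zero, zpow_zero, LinearIsometryEquiv.coe_one, id, inner_self_eq_norm_sq_to_K] at a
      have b := congrArg norm a
      rw [norm_pow, RCLike.norm_ofReal, abs_norm, norm_one] at b
      nlinarith [norm_nonneg (oneL ν)]
    have := ht.all (ball_closed αc 0 zero_le_one) (fun n => by
      rw [Set.mem_ofPred_eq, sub_zero, rep_zpow αe, e2, LinearIsometryEquiv.norm_map]; exact n1) x
    rwa [Set.mem_ofPred_eq, sub_zero] at this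
  · refine ⟨y 0 (N 0 + 1), s, y, N, Subtype.ext ?_, h0,
      fun j => Subtype.ext ((h2 j).trans (h2 0).symm), h3, yt⟩
    show shift (y 0 (N 0 + 1)).1 = (y 0 (N 0 + 1)).1
    rw [h2 0]; rfl

theorem nil_factor {Y W : Type} [TopologicalSpace Y] [TopologicalSpace W] [T2Space W]
    {S : Y ≃ₜ Y} {y₀ : Y} (hy : Trans S y₀) (h : Nil S y₀) {R : W ≃ₜ W} {ρ : Y → W}
    (hρ : Factor S R ρ) (hn : NoChain R) : Subsingleton W := by
  obtain ⟨o, s, y, N, of, -, ho, h3, yt⟩ := h
  have of' : R (ρ o) = ρ o := by rw [← hρ.2.2, of]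
  have a1 : ∀ j, ρ (y j 1) = ρ o := fun j => by
    have := hn (s j) (fun i => ρ (y j i)) (fun i => by
      simpa only [Function.comp_def, zpow_comm_apply hρ.2.2] using
        (hρ.1.tendsto _).comp (h3 j i)) (N j) (by simp only [ho]; exact of')
    simpa only [ho] using this
  have a2 : ρ y₀ = ρ o := tendsto_nhds_unique ((hρ.1.tendsto _).comp yt)
    (tendsto_const_nhds.congr fun j => (a1 j).symm)
  have a3 : ∀ z, ρ z = ρ o := hy.all (C := {z | ρ z = ρ o}) (isClosed_eq hρ.1 continuous_const)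
    fun n => by rw [Set.mem_ofPred_eq, zpow_comm_apply hρ.2.2, a2, zpow_fix of']
  refine ⟨fun a b => ?_⟩
  obtain ⟨a, rfl⟩ := hρ.2.1 a
  obtain ⟨b, rfl⟩ := hρ.2.1 b
  rw [a3, a3 b]

theorem nil_FS {Y : Type} [TopologicalSpace Y] {S : Y ≃ₜ Y} {y₀ : Y} (h : Nil S y₀) (F : C(Y, ℂ))
    (hF : (fun n : ℤ => F ((S ^ n) y₀)) ∈ FS) : ∃ c, ∀ n : ℤ, F ((S ^ n) y₀) = c := by
  obtain ⟨o, s, y, N, of, h0, ho, h3, yt⟩ := h
  obtain ⟨ν, _, η', hη⟩ := FS_common (fun _ => fun n : ℤ => F ((S ^ n) y₀)) (fun _ => hF)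
  set U := Um ν
  set η := η' 0
  let K := (Submodule.span ℂ (Set.range fun m : ℤ => (U ^ m) η)).topologicalClosure
  obtain ⟨a, ha, b, hb, hab⟩ := K.exists_add_mem_mem_orthogonal (oneL ν)
  have flip : ∀ (m n : ℤ) u w, inner ℂ ((U ^ m) u) ((U ^ n) w) = inner ℂ ((U ^ (m - n)) u) w :=
    fun m n u w => by
      rw [inner_zpow]
      have := inner_zpow U (m - n) 0 u w
      rw [zpow_zero, LinearIsometryEquiv.coe_one, id] at this
      rw [this]; congr 3; ring
  have g0 : ∀ m : ℤ, inner ℂ ((U ^ (-m)) η) a = F ((S ^ m) y₀) := fun m => by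
    have h1 := flip 0 m η (oneL ν)
    rw [zpow_zero, LinearIsometryEquiv.coe_one, id, zero_sub] at h1
    rw [hη 0 m, h1, hab, inner_add_right, hb _ (Submodule.le_topologicalClosure _
      (Submodule.subset_span ⟨-m, rfl⟩)), add_zero]
  have perp : ∀ d, (∀ m : ℤ, inner ℂ ((U ^ m) η) d = 0) → inner ℂ d a = 0 := fun d hd => by
    have : K ≤ LinearMap.ker (innerSL ℂ d).toLinearMap :=
      Submodule.topologicalClosure_minimal _ (Submodule.span_le.mpr (by
        rintro _ ⟨m, rfl⟩
        show inner ℂ d _ = 0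
        rw [← inner_conj_symm, hd, map_zero])) (ContinuousLinearMap.isClosed_ker _)
    exact this ha
  obtain ⟨X, _, _, _, T, -, α, x₀, -, ht, -, e2, αi, αe, αc⟩ :=
    cover (1 : Unit ≃ₜ Unit) () (fun _ => subset_closure ⟨0, rfl⟩) U a (ι := Empty) Empty.elim
      Empty.elim Empty.elim (fun i => i.elim) Empty.elim (fun i => i.elim) (fun _ _ _ => rfl)
  have sep : ∀ x x', (∀ m : ℤ, inner ℂ ((U ^ (-m)) η) (α x) = inner ℂ ((U ^ (-m)) η) (α x')) →
      x = x' := fun x x' hx => sep_orbit ht αi αe αc fun n => by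
    have := perp ((U ^ (-n)) (α x - α x')) fun m => by
      rw [flip, inner_sub_right, ← neg_neg (m - -n), hx, sub_self]
    have h2 := flip 0 n (α x - α x') a
    rw [zpow_zero, LinearIsometryEquiv.coe_one, id, zero_sub, this] at h2
    rw [e2, ← sub_eq_zero, ← inner_sub_right, ← inner_conj_symm, h2, map_zero]
  obtain ⟨k, hk⟩ := Rep.ker (𝕜 := ℂ) (T := T)
    ⟨_, inferInstance, inferInstance, inferInstance, _, α, αi, αe, αc⟩
  have hU : (hyperfilter ℕ : Filter ℕ) ≤ atTop := Nat.hyperfilter_le_atTop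
  have a1 : ∀ j (m : ℤ), F ((S ^ m) (y j 1)) = F o := fun j m => by
    obtain ⟨p, hp⟩ := exists_lim T (hyperfilter ℕ) (s j)
    obtain ⟨q, hq⟩ := exists_lim T (hyperfilter ℕ) (fun i => -s j i)
    have hi : ∀ i (m : ℤ), inner ℂ ((U ^ (-m)) η) (α (p^[i] x₀)) = F ((S ^ m) (y j i)) := by
      intro i
      induction i with
      | zero => intro m; rw [Function.iterate_zero, id, e2, h0, g0]
      | succ i ih =>
        intro m
        rw [Function.iterate_succ_apply']
        refine tendsto_nhds_unique (((αc _).tendsto _).comp (hp _))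
          ((((F.continuous.comp (S ^ m).continuous).tendsto _).comp
            ((h3 j i).mono_left hU)).congr fun l => ?_)
        simp only [Function.comp]
        rw [rep_zpow αe, flip, ← neg_add', ih, zpow_add, Homeomorph.mul_apply]
    set w := p^[N j + 1] x₀ with hw
    have w1 : T w = w := sep _ _ fun m => by
      have := flip (-m) 1 η (α w)
      rw [zpow_one] at this
      rw [αe, this, ← neg_add', hi, hi, ho, zpow_fix of, zpow_fix of]
    have w2 : p w = w := tendsto_nhds_unique (hp w)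
      (tendsto_const_nhds.congr fun i => (zpow_fix w1 _).symm)
    have w3 := hk.kerN hp hq (N j) x₀ w (Function.iterate_fixed w2 _).symm
    rw [← hi, Function.iterate_one, w3, w2, hi, ho, zpow_fix of]
  exact ⟨F o, fun m => tendsto_nhds_unique
    (((F.continuous.comp (S ^ m).continuous).tendsto _).comp yt)
    (tendsto_const_nhds.congr fun j => (a1 j m).symm)⟩

theorem noChain_group {𝕜 : Type} [RCLike 𝕜] {X Y : Type} [TopologicalSpace X] [CompactSpace X]
    [T2Space X] [TopologicalSpace Y] [T2Space Y] {T : X ≃ₜ X} {S : Y ≃ₜ Y} (h : Rep 𝕜 X T)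
    (hg : GroupFactor T S) : NoChain S := by
  obtain ⟨k, hk⟩ := h.ker
  exact chain_group hk hg

theorem factor_id {X : Type} [TopologicalSpace X] (T : X ≃ₜ X) : Factor T T id :=
  ⟨continuous_id, Function.surjective_id, fun _ => rfl⟩

end Pool.Agent.H49.HR
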