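import Mathlib

set_option autoImplicit false

namespace Pool.Agent.H49.HR

open MeasureTheory

/-- `(X, T)` is Hilbert representable over the scalar field `𝕜`: there are a Hilbert space `H`,
a unitary `U` and an injective, weakly continuous, equivariant map `α : X → H`. For compact `X`
such an `α` is a homeomorphism onto a weakly compact `U`-invariant set. -/
def Rep (𝕜 : Type) [RCLike 𝕜] (X : Type) [TopologicalSpace X] (T : X ≃ₜ X) : Prop :=
  ∃ (H : Type) (_ : NormedAddCommGroup H) (_ : InnerProductSpace 𝕜 H) (_ : CompleteSpace H)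
    (U : H ≃ₗᵢ[𝕜] H) (α : X → H),
    Function.Injective α ∧ (∀ x, α (T x) = U (α x)) ∧
      ∀ v : H, Continuous (fun x => inner 𝕜 v (α x))

/-- `π` is a factor map from `(X, T)` onto `(Y, S)`. -/
def Factor {X Y : Type} [TopologicalSpace X] [TopologicalSpace Y] (T : X ≃ₜ X) (S : Y ≃ₜ Y)
    (π : X → Y) : Prop :=
  Continuous π ∧ Function.Surjective π ∧ ∀ x, π (T x) = S (π x)

/-- `x` has a dense two-sided orbit. -/
def Trans {X : Type} [TopologicalSpace X] (T : X ≃ₜ X) (x : X) : Prop :=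
  DenseRange (fun n : ℤ => (T ^ n) x)

/-- Point-transitive without isolated points. -/
def RecTrans (X : Type) [TopologicalSpace X] (T : X ≃ₜ X) : Prop :=
  (∃ x, Trans T x) ∧ ∀ x : X, ¬ IsOpen ({x} : Set X)

/-- `B(ℤ)`: the Fourier-Stieltjes transforms of complex measures on the circle, that is, the
complex linear span of the transforms of finite positive Borel measures. -/
noncomputable def FS : Submodule ℂ (ℤ → ℂ) :=
  Submodule.span ℂ {g | ∃ μ : Measure (AddCircle (1 : ℝ)), IsFiniteMeasure μ ∧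
    ∀ n, g n = ∫ t, fourier n t ∂μ}

/-- `H(ℤ)`: the closure of `B(ℤ)` in the sup norm. -/
def InH (f : ℤ → ℂ) : Prop :=
  ∀ ε : ℝ, 0 < ε → ∃ g ∈ FS, ∀ n, ‖f n - g n‖ ≤ ε

/-- A Hilbert system: for a transitive point `x`, the algebra `𝒜(X, x)` lies in `H(ℤ)`. -/
def HilbertSys (X : Type) [TopologicalSpace X] (T : X ≃ₜ X) : Prop :=
  ∃ x, Trans T x ∧ ∀ F : C(X, ℂ), InH (fun n => F ((T ^ n) x))

/-- `(Y, S)` is a group-factor of `(X, T)`: there is a subgroup `K` of the homeomorphism group,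
compact in the compact-open topology and commuting with `T`, and a factor map whose fibres are
exactly the `K`-orbits. -/
def GroupFactor {X Y : Type} [TopologicalSpace X] [TopologicalSpace Y] (T : X ≃ₜ X)
    (S : Y ≃ₜ Y) : Prop :=
  ∃ K : Subgroup (X ≃ₜ X), IsCompact ((fun k : X ≃ₜ X => (k : C(X, X))) '' K) ∧
    (∀ k ∈ K, k * T = T * k) ∧
    ∃ π : X → Y, Factor T S π ∧ ∀ x x', π x = π x' ↔ ∃ k ∈ K, k x = x'

/-- `π` is almost one-to-one. -/
def AlmostOneOne {X Y : Type} [TopologicalSpace X] (π : X → Y) : Prop :=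
  ∃ X₀ : Set X, IsGδ X₀ ∧ Dense X₀ ∧ ∀ x ∈ X₀, π ⁻¹' {π x} = {x}

/-- The left shift on real sequences. -/
def shift : (ℤ → ℝ) ≃ₜ (ℤ → ℝ) where
  toFun g := fun m => g (m + 1)
  invFun g := fun m => g (m - 1)
  left_inv g := by funext m; simp
  right_inv g := by funext m; simp
  continuous_toFun := by fun_prop
  continuous_invFun := by fun_prop

/-- The cyclic system of `f`: the pointwise closure of its translates. -/
def Xf (f : ℤ → ℝ) : Set (ℤ → ℝ) :=
  closure (Set.range fun n : ℤ => fun m => f (m + n))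

theorem shift_mem {f g : ℤ → ℝ} : g ∈ Xf f ↔ shift g ∈ Xf f := by
  have h : shift '' (Set.range fun n : ℤ => fun m => f (m + n)) =
      Set.range fun n : ℤ => fun m => f (m + n) := by
    ext g
    constructor
    · rintro ⟨_, ⟨n, rfl⟩, rfl⟩
      exact ⟨n + 1, by funext m; show f _ = f _; congr 1; ring⟩
    · rintro ⟨n, rfl⟩
      exact ⟨_, ⟨n - 1, rfl⟩, by funext m; simp [shift]⟩
  have h2 : shift '' Xf f = Xf f := by rw [Xf, shift.image_closure, h]
  constructor
  · intro hg; rw [← h2]; exact ⟨g, hg, rfl⟩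
  · intro hg; rw [← h2] at hg
    obtain ⟨g', hg', e⟩ := hg
    rwa [← shift.injective e]

/-- The shift on the cyclic system. -/
def sig (f : ℤ → ℝ) : Xf f ≃ₜ Xf f :=
  shift.subtype (fun _ => shift_mem)

/-- `f` comes from a pointed Hilbert representable compact system. -/
def HilbertFun (𝕜 : Type) [RCLike 𝕜] (f : ℤ → ℝ) : Prop :=
  ∃ (X : Type) (_ : TopologicalSpace X) (_ : CompactSpace X) (_ : T2Space X) (T : X ≃ₜ X),
    Rep 𝕜 X T ∧ ∃ (x : X) (F : X → ℝ), Continuous F ∧ ∀ n : ℤ, f n = F ((T ^ n) x)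

end Pool.Agent.H49.HR
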