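import Mathlib

set_option autoImplicit false

namespace Pool.Agent.H49.IE

open Finset

lemma enc_fin (M n : ℕ) : ∀ u : Fin n → ℤ, (∀ j, |u j| ≤ M) →
    ∑ j : Fin n, ((M : ℤ) + 1) ^ (j : ℕ) * u j = 0 → u = 0 := by
  induction n with
  | zero => intro u _ _; exact Subsingleton.elim _ _
  | succ n ih =>
    intro u hu h
    rw [Fin.sum_univ_succ] at h
    simp only [Fin.val_succ, pow_succ', mul_assoc, ← mul_sum, Fin.val_zero, pow_zero, one_mul] at h
    have h0 : u 0 = 0 := Int.eq_zero_of_abs_lt_dvd (m := M + 1)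
      ⟨-∑ j : Fin n, ((M : ℤ) + 1) ^ (j : ℕ) * u j.succ, by linarith⟩ (by linarith [hu 0])
    rw [h0, zero_add, mul_eq_zero, or_iff_right (by positivity)] at h
    have := ih (fun j => u j.succ) (fun j => hu _) h
    funext j
    exact Fin.cases h0 (fun j => congrFun this j) j

lemma enc (J : Type) [Fintype J] (M : ℕ) : ∃ w : J → ℤ, ∀ u : J → ℤ, (∀ j, |u j| ≤ M) →
    ∑ j, w j * u j = 0 → u = 0 := by
  refine ⟨fun j => ((M : ℤ) + 1) ^ (Fintype.equivFin J j : ℕ), fun u hu h => ?_⟩
  have := enc_fin M _ (fun i => u ((Fintype.equivFin J).symm i)) (fun _ => hu _) (by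
    rw [← h, ← (Fintype.equivFin J).symm.sum_comp]; simp)
  funext j
  simpa using congrFun this (Fintype.equivFin J j)

/-- digits of a gadget -/
abbrev Dg (k p : ℕ) : Type := Bool × Fin (k + 1) × (Fin (k + 1) × Fin (k + 1) → Fin (p + 1 + (p + 1)))

variable {k p : ℕ}

/-- value of an entry -/
def val (t : Fin (p + 1 + (p + 1))) : ℤ := (t : ℕ) - (p + 1 : ℤ)

/-- masked entries -/
def msk (d : Dg k p) (e : Fin (k + 1) × Fin (k + 1)) : ℤ :=
  if (if d.1 then e.2 else e.1) = d.2.1 then 0 else val (d.2.2 e)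

/-- the full vector of a digit -/
def vec (v : Fin (k + 1) → ℤ) (d : Dg k p) : (Fin (k + 1) × Fin (k + 1)) ⊕ Fin (k + 1) ⊕ Fin 3 → ℤ :=
  Sum.elim (msk d) (Sum.elim (fun a => val (d.2.2 (if d.1 then (a, d.2.1) else (d.2.1, a))))
    ![v d.2.1, (d.2.1 : ℕ), if d.1 then 1 else 0])

/-- good pairs -/
def Good (d d' : Dg k p) : Prop :=
  ∀ e, val (d.2.2 e) + msk d' e ≠ 0 ∧ val (d'.2.2 e) + msk d e ≠ 0

lemma val_inj : Function.Injective (val (p := p)) := fun a b h => by
  unfold val at h; ext; omega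

lemma val_bd (t : Fin (p + 1 + (p + 1))) : |val t| ≤ p + 1 := by
  have := t.2
  unfold val; rw [abs_le]; omega

lemma vec_inj (v : Fin (k + 1) → ℤ) : Function.Injective (vec (p := p) v) := by
  rintro ⟨b, i, z⟩ ⟨b', i', z'⟩ h
  have h1 := congrFun h (.inr (.inr 1))
  have h2 := congrFun h (.inr (.inr 2))
  have e1 : i = i' := by simpa [vec, Fin.val_inj] using h1
  have e2 : b = b' := by cases b <;> cases b' <;> simp [vec] at h2 ⊢
  subst e1 e2
  congr 2
  funext ⟨x, y⟩
  have h3 := congrFun h (.inl (x, y))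
  have h4 := congrFun h (.inr (.inl x))
  have h5 := congrFun h (.inr (.inl y))
  apply val_inj
  cases b
  · by_cases hx : x = i
    · subst hx; simpa [vec] using h5
    · simpa [vec, msk, hx] using h3
  · by_cases hy : y = i
    · subst hy; simpa [vec] using h4
    · simpa [vec, msk, hy] using h3

lemma vec_bd (v : Fin (k + 1) → ℤ) (d : Dg k p) (j) :
    |vec v d j| ≤ p + 1 + (k + 1) + ∑ i, |v i| := by
  have h0 : 0 ≤ ∑ i, |v i| := sum_nonneg fun _ _ => abs_nonneg _
  have h1 := single_le_sum (f := fun i => |v i|) (fun _ _ => abs_nonneg _) (mem_univ d.2.1)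
  have h2 := d.2.1.2
  rcases j with e | a | j
  · simp only [vec, Sum.elim_inl, msk]
    have := val_bd (d.2.2 e)
    split_ifs <;> first | omega | (simp; omega)
  · exact (val_bd _).trans (by omega)
  · fin_cases j
    · simp only [vec]; simp; omega
    · simp only [vec]; simp; omega
    · simp only [vec]; cases d.1 <;> simp <;> omega

lemma rigid (v : Fin (k + 1) → ℤ) {a b a' b' : Dg k p} (h' : Good a' b')
    (h : vec v a + vec v b = vec v a' + vec v b') :
    (if a.1 then v a.2.1 else 0) + (if b.1 then v b.2.1 else 0) =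
      (if a'.1 then v a'.2.1 else 0) + (if b'.1 then v b'.2.1 else 0) := by
  obtain ⟨f, i, z⟩ := a
  obtain ⟨g, j, y⟩ := b
  obtain ⟨f', i', z'⟩ := a'
  obtain ⟨g', j', y'⟩ := b'
  have h0 := congrFun h (.inr (.inr 0))
  have h2 := congrFun h (.inr (.inr 2))
  have h3 := congrFun h (.inl (i, j))
  have h4 := congrFun h (.inl (j, i))
  have g3 := h' (i, j)
  have g4 := h' (j, i)
  cases f <;> cases g <;> cases f' <;> cases g' <;> simp [vec] at h0 h2 ⊢
  · by_contra hc
    have : j ≠ j' := fun e => hc (e ▸ rfl)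
    simp only [vec, msk, Pi.add_apply, Sum.elim_inl] at h3 g3
    simp [this] at h3 g3
    omega
  · by_contra hc
    have : j ≠ i' := fun e => hc (e ▸ rfl)
    simp only [vec, msk, Pi.add_apply, Sum.elim_inl] at h3 g3
    simp [this] at h3 g3
    omega
  · by_contra hc
    have : i ≠ j' := fun e => hc (e ▸ rfl)
    simp only [vec, msk, Pi.add_apply, Sum.elim_inl] at h4 g4
    simp [this] at h4 g4
    omega
  · by_contra hc
    have : i ≠ i' := fun e => hc (e ▸ rfl)
    simp only [vec, msk, Pi.add_apply, Sum.elim_inl] at h4 g4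
    simp [this] at h4 g4
    omega
  · exact h0

lemma cnt (e : Fin (k + 1) × Fin (k + 1)) (φ : Dg k p → ℤ) :
    #{x : Dg k p × Dg k p | val (x.1.2.2 e) + φ x.2 = 0} * (p + 1 + (p + 1)) ≤
      Fintype.card (Dg k p) ^ 2 := by
  have := card_le_card_of_injOn (s := ({x : Dg k p × Dg k p | val (x.1.2.2 e) + φ x.2 = 0} :
    Finset _) ×ˢ (univ : Finset (Fin (p + 1 + (p + 1))))) (t := (univ : Finset (Dg k p × Dg k p)))
    (fun y => ((y.1.1.1, y.1.1.2.1, Function.update y.1.1.2.2 e y.2), y.1.2)) (fun _ _ => by simp) (by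
      rintro ⟨⟨⟨b, i, z⟩, d⟩, t⟩ h1 ⟨⟨⟨b', i', z'⟩, d'⟩, t'⟩ h2 h
      simp only [coe_product, Set.mem_prod, coe_filter, mem_univ, true_and, Set.mem_ofPred_eq,
        Prod.mk.injEq] at h1 h2 h ⊢
      obtain ⟨⟨rfl, rfl, h3⟩, rfl⟩ := h
      refine ⟨⟨⟨rfl, rfl, funext fun e' => ?_⟩, rfl⟩, by simpa using congrFun h3 e⟩
      by_cases he : e' = e
      · subst he; exact val_inj (by linarith [h1.1, h2.1])
      · simpa [he] using congrFun h3 e')
  rwa [card_product, card_univ, card_univ, Fintype.card_fin, Fintype.card_prod (Dg k p), ← sq] at this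

open Classical in
lemma bad {n : ℕ} (hp : (k + 1) ^ 2 * 2 ^ (n + 2) ≤ p) :
    #{x : Dg k p × Dg k p | ¬ Good x.1 x.2} * 2 ^ (n + 2) ≤ Fintype.card (Dg k p) ^ 2 := by
  set A : Fin (k + 1) × Fin (k + 1) → Finset (Dg k p × Dg k p) := fun e =>
    {x | val (x.1.2.2 e) + msk x.2 e = 0} with hA
  have h1 : #{x : Dg k p × Dg k p | ¬ Good x.1 x.2} ≤ ∑ e, (#(A e) + #(A e)) := by
    refine (card_le_card (t := univ.biUnion fun e => A e ∪ (A e).image Prod.swap) fun x hx => ?_).trans
      (card_biUnion_le.trans (sum_le_sum fun e _ => (card_union_le _ _).trans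
        (Nat.add_le_add_left card_image_le _)))
    simp only [mem_filter, mem_univ, true_and, Good, not_forall, not_and_or, not_not] at hx
    obtain ⟨e, he | he⟩ := hx
    · exact mem_biUnion.2 ⟨e, mem_univ _, mem_union_left _ (by simpa [hA] using he)⟩
    · exact mem_biUnion.2 ⟨e, mem_univ _, mem_union_right _
        (mem_image.2 ⟨x.swap, by simpa [hA] using he, rfl⟩)⟩
  have h2 : (∑ e, (#(A e) + #(A e))) * (p + 1) ≤ (k + 1) ^ 2 * Fintype.card (Dg k p) ^ 2 := by
    rw [sum_mul]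
    refine (sum_le_sum (g := fun _ => Fintype.card (Dg k p) ^ 2) fun e _ => ?_).trans (by simp [sq])
    have := cnt (p := p) e fun d => msk d e
    simp only [hA]
    linarith
  refine Nat.le_of_mul_le_mul_left ?_ (show 0 < (k + 1) ^ 2 by positivity)
  nlinarith [Nat.mul_le_mul h1 (hp.trans (Nat.le_succ p))]

/-- inverse of val -/
def mk (t : ℤ) : Fin (p + 1 + (p + 1)) := ⟨(t + (p + 1)).toNat % (p + 1 + (p + 1)), Nat.mod_lt _ (by omega)⟩

lemma val_mk {t : ℤ} (h : |t| ≤ p) : val (mk (p := p) t) = t := by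
  rw [abs_le] at h
  simp only [val, mk]
  rw [Nat.mod_eq_of_lt (by omega)]
  omega

lemma matching (v : Fin (k + 1) → ℤ) : ∃ (S : Finset (Fin (k + 1) → Dg k p))
    (σ : (Fin (k + 1) → Dg k p) → Fin (k + 1) → Dg k p), Set.InjOn σ S ∧
    (∀ d ∈ S, ∃ τ, ∀ i, vec v (σ d i) = vec v (d i) + τ ∧ (σ d i).1 = true ∧ (σ d i).2.1 = i ∧
      (d i).1 = false) ∧
    Fintype.card (Dg k p) ^ (k + 1) ≤ (2 * (k + 1) * 2 ^ (k + 1) ^ 2) ^ (k + 1) * #S := by
  classical
  set ι : (Fin (k + 1) → Fin (k + 1) × Fin (k + 1) → Fin (p + 1)) → Fin (k + 1) → Dg k p :=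
    fun x i => (false, i, fun e => Fin.natAdd (p + 1) (x i e)) with hι
  set σ : (Fin (k + 1) → Dg k p) → Fin (k + 1) → Dg k p := fun d i => (true, i, fun e =>
    if e.2 = i then (d i).2.2 (i, e.1) else mk (msk (d i) e - msk (d e.2) e)) with hσ
  have mb : ∀ x i e, 0 ≤ msk (ι x i) e ∧ msk (ι x i) e ≤ p := fun x i e => by
    have := (x i e).2
    simp only [msk, hι, val]
    split_ifs <;> simp <;> omega
  have key : ∀ x i, vec v (σ (ι x) i) = vec v (ι x i) +
      Sum.elim (fun e => -msk (ι x e.2) e) (Sum.elim 0 ![0, 0, 1]) := by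
    intro x i
    funext j
    rcases j with e | a | j
    · simp only [vec, Sum.elim_inl, Pi.add_apply]
      by_cases h : e.2 = i
      · subst h; simp [msk, hσ]
      · have : msk (σ (ι x) i) e = val (mk (p := p) (msk (ι x i) e - msk (ι x e.2) e)) := by
          simp [msk, hσ, h]
        rw [this, val_mk (by
          have := mb x i e
          have := mb x e.2 e
          rw [abs_le]; omega)]
        ring
    · simp [vec, hσ, hι]
    · fin_cases j <;> simp [vec, hσ, hι]
  refine ⟨univ.image ι, σ, ?_, ?_, ?_⟩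
  · simp only [coe_image, coe_univ, Set.image_univ]
    rintro _ ⟨x, rfl⟩ _ ⟨y, rfl⟩ h
    have e : ∀ e : Fin (k + 1) × Fin (k + 1), msk (ι x e.2) e = msk (ι y e.2) e := fun e => by
      have h1 := congrFun (key x e.1) (.inl e)
      have h2 := congrFun (key y e.1) (.inl e)
      have z : ∀ x, msk (ι x e.1) e = 0 := fun x => by simp [msk, hι]
      rw [h, h2] at h1
      simp only [vec, Sum.elim_inl, Pi.add_apply, z] at h1
      linarith
    funext i
    apply vec_inj v
    have h1 := key x i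
    rw [h, key y i] at h1
    simp only [e] at h1
    exact (add_right_cancel h1).symm
  · intro d hd
    obtain ⟨x, -, rfl⟩ := mem_image.1 hd
    exact ⟨_, fun i => ⟨key x i, rfl, rfl, rfl⟩⟩
  · rw [card_image_of_injective _ fun x y h => funext fun i => funext fun e => by
      simpa [hι] using congrFun (congrArg (fun d => d.2.2) (congrFun h i)) e]
    simp only [card_univ, Fintype.card_fun, Fintype.card_prod, Fintype.card_fin, Fintype.card_bool,
      ← mul_pow, ← two_mul, ← sq]
    exact le_of_eq (by rw [mul_pow 2 (p + 1)]; ring)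

open Classical in
theorem gadget (v : Fin (k + 1) → ℤ) (p h n : ℕ) : ∃ (c : Dg k p → ℤ) (h' : ℕ),
    (∀ d d', d ≠ d' → (h : ℤ) ≤ |c d - c d'|) ∧
    (∀ d, (n : ℤ) + 1 ≤ c d ∧ c d + h + n + 1 ≤ h') ∧ 2 * Fintype.card (Dg k p) * h ≤ h' ∧
    (∀ a b a' b', Good a' b' → |c a + c b - c a' - c b'| ≤ 4 * h → c a + c b = c a' + c b') ∧
    ∃ (S : Finset (Fin (k + 1) → Dg k p)) (σ : (Fin (k + 1) → Dg k p) → Fin (k + 1) → Dg k p),
      Set.InjOn σ S ∧ (∀ d ∈ S, ∃ r, ∀ i, c (σ d i) - c (d i) = r + v i) ∧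
      Fintype.card (Dg k p) ^ (k + 1) ≤ (2 * (k + 1) * 2 ^ (k + 1) ^ 2) ^ (k + 1) * #S := by
  set V := ∑ i, |v i| with hV
  have V0 : 0 ≤ V := sum_nonneg fun _ _ => abs_nonneg _
  obtain ⟨w, hw⟩ := enc ((Fin (k + 1) × Fin (k + 1)) ⊕ Fin (k + 1) ⊕ Fin 3)
    (4 * (p + 1 + (k + 1) + V.toNat))
  set s : Dg k p → ℤ := fun d => if d.1 then v d.2.1 else 0 with hs
  have sb : ∀ d, |s d| ≤ V := fun d => by
    simp only [hs]
    split_ifs
    · exact single_le_sum (f := fun i => |v i|) (fun _ _ => abs_nonneg _) (mem_univ _)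
    · simpa
  set L : Dg k p → ℤ := fun d => ∑ j, w j * vec v d j with hL
  set c : Dg k p → ℤ := fun d => (4 * h + 4 * V + 1) * L d + s d with hc
  have key : ∀ a b a' b', |c a + c b - c a' - c b'| ≤ 4 * h →
      vec v a + vec v b = vec v a' + vec v b' ∧ L a + L b = L a' + L b' := by
    intro a b a' b' H
    have e : L a + L b - L a' - L b' = 0 := by
      have := abs_le.1 (sb a)
      have := abs_le.1 (sb b)
      have := abs_le.1 (sb a')
      have := abs_le.1 (sb b')
      rw [abs_le] at H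
      simp only [hc] at H
      by_contra hne
      rcases lt_or_gt_of_ne hne with h1 | h1 <;> nlinarith
    refine ⟨?_, by linarith⟩
    rw [← sub_eq_zero]
    refine hw _ (fun j => ?_) (by
      rw [← e]
      simp only [hL, Pi.sub_apply, Pi.add_apply, mul_sub, mul_add, sum_sub_distrib, sum_add_distrib]
      ring)
    have := abs_le.1 (vec_bd v a j)
    have := abs_le.1 (vec_bd v b j)
    have := abs_le.1 (vec_bd v a' j)
    have := abs_le.1 (vec_bd v b' j)
    simp only [Pi.sub_apply, Pi.add_apply]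
    rw [abs_le]
    omega
  set B := ∑ d, |c d| with hB
  have cb : ∀ d, |c d| ≤ B := fun d =>
    single_le_sum (f := fun d => |c d|) (fun _ _ => abs_nonneg _) (mem_univ _)
  obtain ⟨S, σ, m1, m2, m3⟩ := matching (p := p) v
  refine ⟨fun d => c d + (B + n + 1), 2 * B.toNat + 2 * n + 2 + h + 2 * Fintype.card (Dg k p) * h,
    fun d d' hd => ?_, fun d => ?_, by omega, fun a b a' b' hg H => ?_, S, σ, m1, fun d hd => ?_, m3⟩
  · by_contra hc
    refine hd (vec_inj v (add_right_cancel (key d d d' d ?_).1))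
    rw [add_sub_add_right_eq_sub] at hc
    rw [show c d + c d - c d' - c d = c d - c d' by ring]
    omega
  · have := abs_le.1 (cb d)
    have : 0 ≤ 2 * (Fintype.card (Dg k p) : ℤ) * h := by positivity
    push_cast
    omega
  · obtain ⟨k1, k2⟩ := key a b a' b' (by convert H using 2; ring)
    have := rigid v hg k1
    simp only [hc, hs]
    linear_combination (4 * h + 4 * V + 1) * k2 + this
  · obtain ⟨τ, hτ⟩ := m2 d hd
    refine ⟨(4 * h + 4 * V + 1) * ∑ j, w j * τ j, fun i => ?_⟩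
    obtain ⟨t1, t2, t3, t4⟩ := hτ i
    simp only [hc, hs, hL, t1, t2, t3, t4, Pi.add_apply, mul_add (w _), sum_add_distrib]
    simp
    ring

end Pool.Agent.H49.IE
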