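import Pool.Agent.H49.IE1

set_option autoImplicit false

namespace Pool.Agent.H49.IE

open Finset MeasureTheory ProbabilityTheory Filter Topology
open scoped ENNReal symmDiff

lemma split {W Δ : Type} [MeasurableSpace W] (M : Measure W) (χ : W → Δ)
    (hχ : ∀ d, MeasurableSet (χ ⁻¹' {d})) (E : Set W) (S : Finset Δ) :
    ∑ d ∈ S, M (χ ⁻¹' {d} ∩ E) = M (χ ⁻¹' S ∩ E) := by
  have := sum_measure_preimage_singleton (μ := M.restrict E) S fun d _ => hχ d
  rwa [Measure.restrict_apply (by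
    rw [← Finset.set_biUnion_preimage_singleton]
    exact S.measurableSet_biUnion fun d _ => hχ d),
    sum_congr rfl fun d _ => Measure.restrict_apply (hχ d)] at this

lemma sym {W Δ : Type} [MeasurableSpace W] [Fintype Δ] (M : Measure W) (χ : W → Δ)
    (hχ : ∀ d, MeasurableSet (χ ⁻¹' {d})) (E : Set W)
    (h : ∀ d d', M (χ ⁻¹' {d} ∩ E) ≤ M (χ ⁻¹' {d'} ∩ E)) (d : Δ) :
    Fintype.card Δ * M (χ ⁻¹' {d} ∩ E) = M E := by
  have := split M χ hχ E univ
  rw [sum_congr rfl fun d' _ => le_antisymm (h d' d) (h d d')] at this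
  simpa using this

variable (D : ℕ → Type) [∀ n, Fintype (D n)] [∀ n, Nonempty (D n)] [∀ n, MeasurableSpace (D n)]
  [∀ n, DiscreteMeasurableSpace (D n)]

/-- uniform product measure on digit sequences -/
noncomputable def ν : Measure (∀ n, D n) := Measure.infinitePi fun n => uniformOn (Set.univ : Set (D n))

lemma ν_prob : IsProbabilityMeasure (ν D) := by unfold ν; infer_instance

variable {D}

lemma perm (e : ∀ n, Equiv.Perm (D n)) :
    MeasurePreserving (fun (ω : ∀ n, D n) n => e n (ω n)) (ν D) (ν D) := by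
  refine ⟨by fun_prop, ?_⟩
  unfold ν
  rw [Measure.infinitePi_map_pi _ fun _ => by fun_prop]
  congr 1
  funext n
  refine Measure.ext_of_singleton fun x => ?_
  rw [Measure.map_apply (by fun_prop) (measurableSet_singleton _), uniformOn_univ, uniformOn_univ,
    ← Equiv.image_symm_eq_preimage]
  simp

/-- position in the tower -/
def pos (c : ∀ n, D n → ℤ) (n : ℕ) (ω : ∀ n, D n) : ℤ := ∑ l ∈ range n, c l (ω l)

/-- cylinders -/
def cyl {k : ℕ} (n : ℕ) (u : Fin k → ∀ n, D n) : Set (Fin k → ∀ n, D n) :=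
  {ω | ∀ i, ∀ l < n, ω i l = u i l}

lemma dens {k : ℕ} (M : Measure (Fin k → ∀ n, D n)) [IsProbabilityMeasure M]
    {E : Set (Fin k → ∀ n, D n)} (hE : MeasurableSet E) (h0 : M E ≠ 0) {K : ℕ} :
    ∀ᶠ n in atTop, ∃ u, K * M (cyl n u \ E) < M (cyl n u) := by
  classical
  set 𝒜 : Set (Set (Fin k → ∀ n, D n)) := {C | ∃ n, ∀ ω ω', ω ∈ cyl n ω' → (ω ∈ C ↔ ω' ∈ C)} with hA
  have mono : ∀ {n n' : ℕ} {ω ω' : Fin k → ∀ n, D n}, n ≤ n' → ω ∈ cyl n' ω' → ω ∈ cyl n ω' :=
    fun h h' i l hl => h' i l (hl.trans_le h)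
  set χ : ∀ n : ℕ, (Fin k → ∀ n, D n) → Fin k → ∀ l : Fin n, D l := fun n ω i l => ω i l with hχ
  have mχ : ∀ n, Measurable (χ n) := fun n => by fun_prop
  have fib : ∀ n ω ω', χ n ω = χ n ω' ↔ ω ∈ cyl n ω' := fun n ω ω' =>
    ⟨fun h i l hl => congrFun (congrFun h i) ⟨l, hl⟩, fun h => funext fun i => funext fun l => h i l l.2⟩
  have ring : IsSetRing 𝒜 := ⟨⟨0, by simp⟩, by
    rintro s t ⟨n, hs⟩ ⟨n', ht⟩
    exact ⟨n + n', fun ω ω' h => or_congr (hs _ _ (mono (by omega) h)) (ht _ _ (mono (by omega) h))⟩, by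
    rintro s t ⟨n, hs⟩ ⟨n', ht⟩
    exact ⟨n + n', fun ω ω' h => and_congr (hs _ _ (mono (by omega) h))
      (not_congr (ht _ _ (mono (by omega) h)))⟩⟩
  have gen : (inferInstance : MeasurableSpace (Fin k → ∀ n, D n)) = MeasurableSpace.generateFrom 𝒜 := by
    refine le_antisymm ?_ (MeasurableSpace.generateFrom_le ?_)
    · have : @Measurable _ (Fin k → ∀ n, D n) (MeasurableSpace.generateFrom 𝒜) _ id :=
        @measurable_pi_lambda _ _ _ (MeasurableSpace.generateFrom 𝒜) _ _ fun i =>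
          @measurable_pi_lambda _ _ _ (MeasurableSpace.generateFrom 𝒜) _ _ fun l s _ =>
            MeasurableSpace.measurableSet_generateFrom ⟨l + 1, fun ω ω' h => by
              simp [h i l (by omega)]⟩
      exact fun s hs => this hs
    · rintro C ⟨n, hC⟩
      have : C = χ n ⁻¹' (χ n '' C) := by
        ext ω
        exact ⟨fun h => ⟨ω, h, rfl⟩, fun ⟨ω', h, h'⟩ => (hC _ _ ((fib _ _ _).1 h')).1 h⟩
      rw [this]
      exact mχ n (Set.toFinite _).measurableSet
  have hK : (0 : ℝ≥0∞) < M E / (K + 1) := ENNReal.div_pos h0 (by finiteness)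
  obtain ⟨C, ⟨n0, hC⟩, h1⟩ := exists_measure_symmDiff_lt_of_generateFrom_isSetRing (μ := M) ring
    ⟨{Set.univ}, by simp, by rintro _ rfl; exact ⟨0, by simp⟩, by simp⟩ gen hE hK
  filter_upwards [eventually_ge_atTop n0] with n hn
  by_contra hc
  push Not at hc
  have a1 : M C ≤ K * M (C \ E) := by
    have s1 := split M (χ n) (fun d => mχ n (measurableSet_singleton d)) C univ
    have s2 := split M (χ n) (fun d => mχ n (measurableSet_singleton d)) (C \ E) univ
    simp only [coe_univ, Set.preimage_univ, Set.univ_inter] at s1 s2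
    rw [← s1, ← s2, mul_sum]
    refine sum_le_sum fun d _ => ?_
    rcases (χ n ⁻¹' {d} ∩ C).eq_empty_or_nonempty with h | ⟨u, rfl, hu⟩
    · simp [h]
    · have e : χ n ⁻¹' {χ n u} ∩ C = cyl n u := by
        ext ω
        exact ⟨fun h => (fib _ _ _).1 h.1, fun h => ⟨(fib _ _ _).2 h, (hC _ _ (mono hn h)).2 hu⟩⟩
      rw [← Set.inter_diff_assoc, e]
      exact hc u
  have a2 : M E ≤ M C + M (C ∆ E) := (measure_mono fun ω h => by
    by_cases h' : ω ∈ C
    · exact Or.inl h'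
    · exact Or.inr (Or.inr ⟨h, h'⟩)).trans (measure_union_le _ _)
  have a3 : M (C \ E) ≤ M (C ∆ E) := measure_mono fun ω h => Or.inl h
  rw [ENNReal.lt_div_iff_mul_lt (by simp) (by simp), mul_add, mul_one, mul_comm] at h1
  exact absurd (a2.trans (add_le_add (a1.trans (by gcongr)) le_rfl)) (not_le.2 h1)

lemma pos_congr (c : ∀ n, D n → ℤ) {n N : ℕ} (h : n ≤ N) {ω ω' : ∀ n, D n}
    (e : ∀ l, n ≤ l → l < N → ω l = ω' l) : pos c N ω - pos c n ω = pos c N ω' - pos c n ω' := by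
  unfold pos
  rw [← sum_range_add_sum_Ico _ h, ← sum_range_add_sum_Ico _ h, add_sub_cancel_left,
    add_sub_cancel_left]
  exact sum_congr rfl fun l hl => by rw [e l (mem_Ico.1 hl).1 (mem_Ico.1 hl).2]

theorem dich (c : ∀ n, D n → ℤ) {k K : ℕ}
    (H : ∀ (v : Fin k → ℤ) (n : ℕ), ∃ m, n ≤ m ∧ ∃ (S : Finset (Fin k → D m))
      (σ : (Fin k → D m) → Fin k → D m), Set.InjOn σ S ∧
      (∀ d ∈ S, ∃ r, ∀ i, c m (σ d i) - c m (d i) = r + v i) ∧ Fintype.card (D m) ^ k ≤ K * #S)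
    (E : (Fin k → ℤ) → Set (Fin k → ∀ n, D n)) (hm : ∀ f, MeasurableSet (E f))
    (hr : ∀ f r, E (fun i => f i - r) ⊆ E f)
    (hc : ∀ n f ω ω', (∀ i l, n ≤ l → ω i l = ω' i l) → ω ∈ E f →
      ω' ∈ E fun i => f i + pos c n (ω i) - pos c n (ω' i)) :
    (∀ f, Measure.pi (fun _ => ν D) (E f) = 0) ∨ ∀ f, Measure.pi (fun _ => ν D) (E f)ᶜ = 0 := by
  classical
  have := ν_prob D
  set M := Measure.pi fun _ : Fin k => ν D with hM
  by_contra hcon
  push Not at hcon
  obtain ⟨⟨f, hf⟩, g, hg⟩ := hcon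
  obtain ⟨n, ⟨u, hu⟩, u', hu'⟩ := ((dens M (hm f) hf (K := 2 * K)).and
    (dens M (hm g).compl hg (K := 2 * K))).exists
  obtain ⟨m, hnm, S, σ, s1, s2, s3⟩ := H (fun i => f i - g i + pos c n (u i) - pos c n (u' i)) n
  set χ : (Fin k → ∀ n, D n) → Fin k → D m := fun ω i => ω i m with hχ
  have mχ : ∀ d, MeasurableSet (χ ⁻¹' {d}) := fun d =>
    (by fun_prop : Measurable χ) (measurableSet_singleton d)
  have mc : ∀ u : Fin k → ∀ n, D n, MeasurableSet (cyl n u) := fun u => by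
    unfold cyl; measurability
  set θ : (Fin k → ∀ n, D n) → (Fin k → ∀ n, D n) → (Fin k → D m) → (Fin k → D m) →
      (Fin k → ∀ n, D n) → Fin k → ∀ n, D n := fun a a' d d' ω i l => Function.update
    (fun l => if l < n then Equiv.swap (a i l) (a' i l) else Equiv.refl (D l)) m
      (Equiv.swap (d i) (d' i)) l (ω i l) with hθ
  have mp : ∀ a a' d d', MeasurePreserving (θ a a' d d') M M := fun a a' d d' =>
    measurePreserving_pi _ _ fun i => perm _
  have t1 : ∀ a a' d d' ω, ω ∈ χ ⁻¹' {d} ∩ cyl n a → θ a a' d d' ω ∈ χ ⁻¹' {d'} ∩ cyl n a' := by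
    rintro a a' _ d' ω ⟨rfl, h⟩
    refine ⟨funext fun i => by simp [hθ, hχ], fun i l hl => ?_⟩
    simp [hθ, Function.update_of_ne (show l ≠ m by omega), hl, h i l hl]
  have t2 : ∀ a a' d d' ω i l, n ≤ l → l ≠ m → ω i l = θ a a' d d' ω i l := fun a a' d d' ω i l h1 h2 => by
    simp [hθ, Function.update_of_ne h2, not_lt.2 h1]
  have le : ∀ a a' d d', M (χ ⁻¹' {d} ∩ cyl n a) ≤ M (χ ⁻¹' {d'} ∩ cyl n a') := fun a a' d d' =>
    (measure_mono (t1 a a' d d')).trans_eq ((mp a a' d d').measure_preimage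
      ((mχ _).inter (mc _)).nullMeasurableSet)
  have sy : ∀ a d, Fintype.card (Fin k → D m) * M (χ ⁻¹' {d} ∩ cyl n a) = M (cyl n a) := fun a d =>
    sym M χ mχ _ (le a a) d
  obtain ⟨d0⟩ : Nonempty (Fin k → D m) := inferInstance
  have P : M (cyl n u') = M (cyl n u) := by
    rw [← sy u d0, ← sy u' d0, le_antisymm (le u u' d0 d0) (le u' u d0 d0)]
  have b1 : ∀ d ∈ S, M (χ ⁻¹' {d} ∩ cyl n u) ≤
      M (χ ⁻¹' {σ d} ∩ (cyl n u' \ (E g)ᶜ)) + M (χ ⁻¹' {d} ∩ (cyl n u \ E f)) := by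
    intro d hd
    obtain ⟨r, hr'⟩ := s2 d hd
    rw [← (mp u u' d (σ d)).measure_preimage
      ((mχ _).inter ((mc _).diff (hm g).compl)).nullMeasurableSet]
    refine (measure_mono fun ω h => ?_).trans (measure_union_le _ _)
    by_cases h' : ω ∈ E f
    · have a1 := t1 u u' d (σ d) ω h
      refine Or.inl ⟨a1.1, a1.2, not_not.2 (hr g r ?_)⟩
      convert hc (m + 1) f ω _ (fun i l hl => t2 u u' d (σ d) ω i l (by omega) (by omega)) h'
        using 3 with i
      have a2 := pos_congr c hnm fun l h1 h2 => t2 u u' d (σ d) ω i l h1 h2.ne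
      have a3 : pos c n (ω i) = pos c n (u i) := sum_congr rfl fun l hl => by
        rw [h.2 i l (mem_range.1 hl)]
      have a4 : pos c n (θ u u' d (σ d) ω i) = pos c n (u' i) := sum_congr rfl fun l hl => by
        rw [a1.2 i l (mem_range.1 hl)]
      have a5 : ω i m = d i := congrFun h.1 i
      have a6 : θ u u' d (σ d) ω i m = σ d i := congrFun a1.1 i
      have a7 := hr' i
      simp only [pos, sum_range_succ, a5, a6] at a2 a3 a4 a7 ⊢
      linarith
    · exact Or.inr ⟨h.1, h.2, h'⟩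
  have b2 := sum_le_sum b1
  rw [sum_congr rfl fun d _ => le_antisymm (le u u d d0) (le u u d0 d), sum_const, nsmul_eq_mul,
    sum_add_distrib, ← sum_image (f := fun d => M (χ ⁻¹' {d} ∩ (cyl n u' \ (E g)ᶜ))) s1,
    split M χ mχ, split M χ mχ] at b2
  have b3 : M (cyl n u) ≤ K * (M (cyl n u' \ (E g)ᶜ) + M (cyl n u \ E f)) := by
    rw [← sy u d0]
    refine le_trans ?_ (mul_le_mul_right (b2.trans (add_le_add (measure_mono Set.inter_subset_right)
      (measure_mono Set.inter_subset_right))) _)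
    rw [← mul_assoc]
    gcongr
    rw [Fintype.card_fun, Fintype.card_fin]
    exact_mod_cast s3
  rw [P] at hu'
  have := ENNReal.add_lt_add hu' hu
  push_cast at this
  rw [← mul_add, mul_assoc, two_mul] at this
  exact absurd (add_le_add b3 b3) (not_le.2 this)

end Pool.Agent.H49.IE
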