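import Pool.Agent.H49.IE2

set_option autoImplicit false
set_option linter.unusedSectionVars false

namespace Pool.Agent.H49.IE

open Finset MeasureTheory ProbabilityTheory Filter Topology
open scoped ENNReal

variable {D : ℕ → Type} [∀ n, Fintype (D n)] [∀ n, Nonempty (D n)] [∀ n, MeasurableSpace (D n)]
  [∀ n, DiscreteMeasurableSpace (D n)] (c : ∀ n, D n → ℤ) (h : ℕ → ℕ)

/-- cutting and stacking data -/
structure OK : Prop where
  h0 : h 0 = 1
  sep : ∀ n d d', d ≠ d' → (h n : ℤ) ≤ |c n d - c n d'|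
  mar : ∀ (n : ℕ) d, (n : ℤ) + 1 ≤ c n d ∧ c n d + h n + n + 1 ≤ h (n + 1)
  big : ∀ n, 2 * Fintype.card (D n) * h n ≤ h (n + 1)
  two : ∀ n, 2 ≤ Fintype.card (D n)

open Classical in
/-- one step down -/
noncomputable def pj (n : ℕ) (f : ℤ) : ℤ :=
  if H : ∃ d, 0 ≤ f - c n d ∧ f - c n d < h n then f - c n H.choose else -1

/-- several steps down -/
noncomputable def proj (m : ℕ) : ℕ → ℤ → ℤ
  | 0, f => f
  | t + 1, f => proj m t (pj c h (m + t) f)

/-- the coding map -/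
noncomputable def Ψ (ω : ∀ n, D n) (j : ℤ) (m : ℕ) : ℤ :=
  proj c h m (j.natAbs + 1) (j + pos c (m + (j.natAbs + 1)) ω)

/-- shifts -/
def sh (r : ℤ) (x : ℤ → ℕ → ℤ) : ℤ → ℕ → ℤ := fun j => x (j + r)

/-- levels of towers -/
noncomputable def Φ (n : ℕ) (f : ℤ) (ω : ∀ n, D n) : ℤ → ℕ → ℤ := sh (f - pos c n ω) (Ψ c h ω)

/-- towers -/
def Xs (n : ℕ) : Set (ℤ → ℕ → ℤ) := {x | ∀ m, n ≤ m → 0 ≤ x 0 m}

/-- weights -/
noncomputable def wt (D : ℕ → Type) [∀ n, Fintype (D n)] (n : ℕ) : ℝ≥0∞ :=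
  ∏ l ∈ range n, (Fintype.card (D l) : ℝ≥0∞)⁻¹

/-- measures on towers -/
noncomputable def μn (n : ℕ) : Measure (ℤ → ℕ → ℤ) :=
  wt D n • ∑ f ∈ Ico (0 : ℤ) (h n), (ν D).map (Φ c h n f)

/-- being in range -/
def R (N : ℕ) (j : ℤ) (ω : ∀ n, D n) : Prop := 0 ≤ j + pos c N ω ∧ j + pos c N ω < h N

variable {c h} (H : OK c h)

lemma pos_succ (n : ℕ) (ω : ∀ n, D n) : pos c (n + 1) ω = pos c n ω + c n (ω n) := sum_range_succ _ _

lemma sh_sh (r s : ℤ) (x : ℤ → ℕ → ℤ) : sh r (sh s x) = sh (r + s) x := by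
  funext j; simp [sh, add_assoc]

lemma sh_zero (x : ℤ → ℕ → ℤ) : sh 0 x = x := by funext j; simp [sh]

lemma sh_meas (r : ℤ) : Measurable (sh r) := by unfold sh; fun_prop

lemma pos_meas (n : ℕ) : Measurable (pos c n) := by unfold pos; fun_prop

lemma Ψ_meas : Measurable (Ψ c h) := measurable_pi_lambda _ fun j => measurable_pi_lambda _ fun m =>
  (measurable_of_countable fun z => proj c h m (j.natAbs + 1) (j + z)).comp (pos_meas _)

lemma Φ_meas (n : ℕ) (f : ℤ) : Measurable (Φ c h n f) :=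
  (measurable_from_prod_countable_left (f := fun p : (∀ n, D n) × ℤ => sh (f - p.2) (Ψ c h p.1))
    fun z => (sh_meas (f - z)).comp (Ψ_meas (c := c) (h := h))).comp (measurable_id.prodMk (pos_meas n))

lemma Xs_meas (n : ℕ) : MeasurableSet (Xs n) := by unfold Xs; measurability

lemma Φ_succ (n : ℕ) (f : ℤ) (ω : ∀ n, D n) : Φ c h n f ω = Φ c h (n + 1) (f + c n (ω n)) ω := by
  simp [Φ, pos_succ]

include H

lemma uniq {n : ℕ} {f f' : ℤ} {d d' : D n} (h0 : 0 ≤ f) (h1 : f < h n) (h2 : 0 ≤ f') (h3 : f' < h n)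
    (e : f + c n d = f' + c n d') : d = d' := by
  by_contra hc
  have := H.sep n d d' hc
  rw [le_abs] at this
  omega

lemma pj_eq {n : ℕ} {f : ℤ} (h0 : 0 ≤ f) (h1 : f < h n) (d : D n) : pj c h n (f + c n d) = f := by
  have ex : ∃ d', 0 ≤ f + c n d - c n d' ∧ f + c n d - c n d' < h n := ⟨d, by simpa using ⟨h0, h1⟩⟩
  rw [pj, dif_pos ex, ← uniq H h0 h1 ex.choose_spec.1 ex.choose_spec.2 (d := d) (d' := ex.choose)
    (by ring)]
  ring

lemma R_mono {N N' : ℕ} {j : ℤ} {ω : ∀ n, D n} (hN : N ≤ N') (r : R c h N j ω) : R c h N' j ω := by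
  induction N', hN using Nat.le_induction with
  | base => exact r
  | succ N _ ih =>
    have := H.mar N (ω N)
    unfold R at ih ⊢
    rw [pos_succ]; omega

lemma R_big {N : ℕ} {j : ℤ} (ω : ∀ n, D n) (hN : j.natAbs < N) : R c h N j ω := by
  obtain ⟨N, rfl⟩ : ∃ N', N = N' + 1 := ⟨N - 1, by omega⟩
  have r := R_mono H (Nat.zero_le N) (show R c h 0 0 ω by simp [R, pos, H.h0])
  have := H.mar N (ω N)
  unfold R at r ⊢
  rw [pos_succ]; omega

lemma stab {m t t' : ℕ} {j : ℤ} {ω : ∀ n, D n} (r : R c h (m + t) j ω) (ht : t ≤ t') :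
    proj c h m t' (j + pos c (m + t') ω) = proj c h m t (j + pos c (m + t) ω) := by
  induction t', ht using Nat.le_induction with
  | base => rfl
  | succ t' ht ih =>
    have r' := R_mono H (Nat.add_le_add_left ht m) r
    rw [proj, ← add_assoc m, pos_succ, ← add_assoc, pj_eq H r'.1 r'.2, ih]

lemma Ψ_eq {m t : ℕ} {j : ℤ} {ω : ∀ n, D n} (r : R c h (m + t) j ω) :
    Ψ c h ω j m = proj c h m t (j + pos c (m + t) ω) := by
  rcases le_total t (j.natAbs + 1) with h' | h'
  · exact stab H r h'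
  · exact (stab H (R_big H ω (by omega)) h').symm

lemma agree {n : ℕ} {ω ω' : ∀ n, D n} (e : ∀ l, n ≤ l → ω l = ω' l) (f : ℤ) :
    Φ c h n f ω = Φ c h n f ω' := by
  funext j m
  set t := (j + (f - pos c n ω)).natAbs + (j + (f - pos c n ω')).natAbs + n + 1
  have := pos_congr c (show n ≤ m + t by omega) fun l h _ => e l h
  simp only [Φ, sh]
  rw [Ψ_eq H (t := t) (R_big H _ (by omega)), Ψ_eq H (t := t) (R_big H _ (by omega))]
  congr 1; linarith

lemma Φ_at {n m : ℕ} {f : ℤ} (hf : f ∈ Ico (0 : ℤ) (h n)) (hm : n ≤ m) (ω : ∀ n, D n) :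
    Φ c h n f ω 0 m = f - pos c n ω + pos c m ω ∧ 0 ≤ Φ c h n f ω 0 m := by
  have r := R_mono H hm (show R c h n (f - pos c n ω) ω by simpa [R] using hf)
  have := Ψ_eq H (t := 0) r
  simp only [Φ, sh, zero_add, this, proj, add_zero]
  exact ⟨trivial, r.1⟩

lemma Φ_below {n : ℕ} {f : ℤ} (hf : f ∈ Ico (0 : ℤ) (h (n + 1))) (ω : ∀ n, D n) :
    Φ c h (n + 1) f ω 0 n = pj c h n f := by
  have := Ψ_eq H (t := 1) (show R c h (n + 1) (f - pos c (n + 1) ω) ω by simpa [R] using hf)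
  simp [Φ, sh, this, proj]

lemma K1 (n : ℕ) (f : ℤ) {A : Set (ℤ → ℕ → ℤ)} (hA : MeasurableSet A) :
    Fintype.card (D n) * ν D (Φ c h n f ⁻¹' A) = ∑ d, ν D (Φ c h (n + 1) (f + c n d) ⁻¹' A) := by
  classical
  have mχ : ∀ d : D n, MeasurableSet ((fun ω : ∀ n, D n => ω n) ⁻¹' {d}) := fun d =>
    measurable_pi_apply n (measurableSet_singleton d)
  have s1 := split (ν D) _ mχ (Φ c h n f ⁻¹' A) univ
  simp only [coe_univ, Set.preimage_univ, Set.univ_inter] at s1
  rw [← s1, mul_sum]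
  refine sum_congr rfl fun d _ => ?_
  rw [← sym (ν D) _ mχ (Φ c h (n + 1) (f + c n d) ⁻¹' A) (fun a b => ?_) d]
  · congr 2
    ext ω
    refine and_congr_right fun e => ?_
    rw [Set.mem_preimage, Φ_succ, show ω n = d from e]; rfl
  · rw [← (perm (Function.update (fun l => Equiv.refl (D l)) n (Equiv.swap a b))).measure_preimage
      ((mχ b).inter (Φ_meas _ _ hA)).nullMeasurableSet]
    refine measure_mono fun ω e => ⟨by simp [show ω n = a from e.1], ?_⟩
    rw [Set.mem_preimage, ← agree H (ω := ω) fun l hl => by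
      simp [Function.update_of_ne (show l ≠ n by omega)]]
    exact e.2

omit H in
lemma μn_apply (n : ℕ) {A : Set (ℤ → ℕ → ℤ)} (hA : MeasurableSet A) :
    μn c h n A = wt D n * ∑ f ∈ Ico (0 : ℤ) (h n), ν D (Φ c h n f ⁻¹' A) := by
  simp only [μn, Measure.smul_apply, Measure.coe_finsetSum, Finset.sum_apply, smul_eq_mul,
    Measure.map_apply (Φ_meas _ _) hA]

omit H in
lemma wt_succ (n : ℕ) : wt D (n + 1) * Fintype.card (D n) = wt D n := by
  rw [wt, prod_range_succ, mul_assoc, ENNReal.inv_mul_cancel (by simp) (by simp), mul_one, wt]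

lemma K2 (n : ℕ) {A : Set (ℤ → ℕ → ℤ)} (hA : MeasurableSet A) :
    μn c h (n + 1) (A ∩ Xs n) = μn c h n A := by
  classical
  rw [μn_apply _ (hA.inter (Xs_meas n)), μn_apply _ hA, ← wt_succ n, mul_assoc, mul_sum _ _
    (Fintype.card (D n) : ℝ≥0∞)]
  congr 1
  simp only [K1 H n _ hA]
  have sub : ∀ f ∈ Ico (0 : ℤ) (h n), ∀ d, f + c n d ∈ Ico (0 : ℤ) (h (n + 1)) := fun f hf d => by
    have := H.mar n d
    rw [mem_Ico] at hf ⊢; omega
  rw [← sum_product', ← sum_subset (s₁ := (Ico (0 : ℤ) (h n) ×ˢ univ).image fun p : ℤ × D n =>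
    p.1 + c n p.2), sum_image]
  · refine sum_congr rfl fun p hp => ?_
    have hp := (mem_product.1 hp).1
    congr 1
    ext ω
    refine and_iff_left fun m hm => ?_
    rcases hm.eq_or_lt with rfl | hm
    · rw [Φ_below H (sub _ hp _), pj_eq H (mem_Ico.1 hp).1 (mem_Ico.1 hp).2]
      exact (mem_Ico.1 hp).1
    · exact (Φ_at H (sub _ hp _) hm ω).2
  · rintro ⟨f, d⟩ h1 ⟨f', d'⟩ h2 e
    simp only [coe_product, Set.mem_prod, mem_coe, mem_Ico] at h1 h2 e
    obtain rfl := uniq H h1.1.1 h1.1.2 h2.1.1 h2.1.2 e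
    rw [add_right_cancel e]
  · intro j hj
    obtain ⟨p, hp, rfl⟩ := mem_image.1 hj
    exact sub _ (mem_product.1 hp).1 _
  · intro j hj hj'
    refine measure_mono_null (fun ω e => ?_) measure_empty
    have := e.2 n le_rfl
    rw [Φ_below H hj, pj, dif_neg] at this
    · omega
    · rintro ⟨d, h1⟩
      exact hj' (mem_image.2 ⟨(j - c n d, d), by simpa using h1, by simp⟩)

lemma μn_mono {A : Set (ℤ → ℕ → ℤ)} (hA : MeasurableSet A) : Monotone fun n => μn c h n A :=
  monotone_nat_of_le_succ fun n => (K2 H n hA).ge.trans (measure_mono Set.inter_subset_left)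

/-- the invariant measure -/
noncomputable def μ : Measure (ℤ → ℕ → ℤ) := Measure.ofMeasurable (fun A _ => ⨆ n, μn c h n A)
  (by simp) fun f hf hd => by
    simp only [measure_iUnion hd hf, ← lintegral_count]
    exact (lintegral_iSup (fun n => measurable_of_countable _) fun n m e i => μn_mono H (hf i) e).symm

lemma μ_apply {A : Set (ℤ → ℕ → ℤ)} (hA : MeasurableSet A) : μ H A = ⨆ n, μn c h n A :=
  Measure.ofMeasurable_apply _ hA

lemma μn_le (n : ℕ) : μn c h n ≤ μ H := Measure.le_iff.2 fun A hA => by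
  rw [μ_apply H hA]; exact le_iSup (fun n => μn c h n A) n

lemma μ_res (n : ℕ) : (μ H).restrict (Xs n) = μn c h n := by
  ext A hA
  have e : ∀ N, n ≤ N → μn c h (N + 1) (A ∩ Xs n) = μn c h n A := fun N hN => by
    induction N, hN using Nat.le_induction with
    | base => exact K2 H n hA
    | succ N hN ih =>
      rw [← ih, ← K2 H (N + 1) (hA.inter (Xs_meas n)), Set.inter_assoc,
        Set.inter_eq_left.2 (show Xs n ⊆ Xs (N + 1) from fun x hx m hm => hx m (by omega))]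
  rw [Measure.restrict_apply hA, μ_apply H (hA.inter (Xs_meas n))]
  exact le_antisymm (iSup_le fun N => (μn_mono H (hA.inter (Xs_meas n)) (show N ≤ N + n + 1 by omega)).trans
    (e _ (by omega)).le) (le_iSup_of_le (n + 1) (e n le_rfl).ge)

lemma μ_out : μ H (⋃ n, Xs n)ᶜ = 0 := by
  have m := (MeasurableSet.iUnion Xs_meas).compl
  rw [μ_apply H m, ENNReal.iSup_eq_zero]
  intro n
  rw [μn_apply _ m, sum_eq_zero, mul_zero]
  intro f hf
  exact measure_mono_null (fun ω e => e (Set.mem_iUnion.2 ⟨n, fun m hm => (Φ_at H hf hm ω).2⟩))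
    measure_empty

omit H in
lemma μn_univ (n : ℕ) : μn c h n Set.univ = wt D n * h n := by
  have := ν_prob D
  simp [μn_apply _ MeasurableSet.univ]

lemma wt_le (n : ℕ) : wt D n ≤ 2⁻¹ ^ n := by
  rw [← card_range n, ← prod_const, card_range]
  exact prod_le_prod' fun l _ => ENNReal.inv_le_inv.2 (by exact_mod_cast H.two l)

lemma le_of_wt {a b : ℝ≥0∞} {n : ℕ} (e : ∀ N, n ≤ N → a ≤ b + wt D N) : a ≤ b := by
  have := (ENNReal.tendsto_pow_atTop_nhds_zero_of_lt_one
    (show (2⁻¹ : ℝ≥0∞) < 1 by simp)).const_add b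
  rw [add_zero] at this
  exact ge_of_tendsto this ((eventually_ge_atTop n).mono fun N hN =>
    (e N hN).trans (add_le_add le_rfl (wt_le H N)))

lemma μn_fin (n : ℕ) : IsFiniteMeasure (μn c h n) := ⟨by
  rw [μn_univ]
  exact ENNReal.mul_lt_top ((wt_le H n).trans_lt (ENNReal.pow_lt_top (by simp))) (by simp)⟩

lemma μ_sig : SigmaFinite (μ H) := ⟨⟨⟨fun n => Xs n ∪ (⋃ n, Xs n)ᶜ, fun _ => trivial, fun n => by
  have := μn_fin H n
  refine (measure_union_le _ _).trans_lt ?_
  rw [μ_out, add_zero, ← Measure.restrict_apply_univ, μ_res]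
  exact measure_lt_top _ _, by rw [← Set.iUnion_union, Set.union_compl_self]⟩⟩⟩

lemma μ_atom : NullSingletonClass (μ H) := ⟨fun x => by
  have := ν_prob D
  rw [μ_apply H (measurableSet_singleton x), ENNReal.iSup_eq_zero]
  refine fun n => le_antisymm (le_of_wt H (n := n) fun N hN => ?_) zero_le
  refine (μn_mono H (measurableSet_singleton x) hN).trans ?_
  simp only [zero_add, μn_apply _ (measurableSet_singleton x)]
  refine mul_le_of_le_one_right' ((sum_le_sum (g := fun f => if f = x 0 N then 1 else 0)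
    fun f hf => ?_).trans (by rw [sum_ite_eq']; split_ifs <;> simp))
  split_ifs with e
  · exact prob_le_one
  · refine (measure_mono_null (fun ω e' => e ?_) measure_empty).le
    rw [← show Φ c h N f ω = x from e', (Φ_at H hf le_rfl ω).1]; ring⟩

lemma μ_inf : μ H Set.univ = ⊤ := by
  have e : ∀ n, (2 : ℝ≥0∞) ^ n ≤ wt D n * h n := fun n => by
    induction n with
    | zero => simp [wt, H.h0]
    | succ n ih =>
      have : (2 : ℝ≥0∞) * Fintype.card (D n) * h n ≤ h (n + 1) := by exact_mod_cast H.big n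
      calc (2 : ℝ≥0∞) ^ (n + 1) ≤ 2 * (wt D n * h n) := by rw [pow_succ']; gcongr
        _ = wt D (n + 1) * (2 * Fintype.card (D n) * h n) := by rw [← wt_succ n]; ring
        _ ≤ _ := by gcongr
  refine ENNReal.eq_top_of_forall_nnreal_le fun r => ?_
  obtain ⟨n, hn⟩ := exists_nat_ge r
  refine le_trans ?_ ((e n).trans ((μn_univ n).ge.trans (μn_le H n _)))
  exact_mod_cast hn.trans (by exact_mod_cast Nat.lt_two_pow_self.le)

lemma μ_inv : MeasurePreserving (sh 1) (μ H) (μ H) := by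
  have := ν_prob D
  refine ⟨sh_meas 1, Measure.ext fun A hA => ?_⟩
  have mA := sh_meas 1 hA
  rw [Measure.map_apply (sh_meas 1) hA]
  have e : ∀ N, μn c h N (sh 1 ⁻¹' A) + wt D N * ν D (Φ c h N 0 ⁻¹' A) =
      μn c h N A + wt D N * ν D (Φ c h N (h N) ⁻¹' A) := fun N => by
    rw [μn_apply _ mA, μn_apply _ hA, ← mul_add, ← mul_add]
    congr 1
    have e1 : ∀ f, Φ c h N f ⁻¹' (sh 1 ⁻¹' A) = Φ c h N (f + 1) ⁻¹' A := fun f => by
      ext ω
      simp only [Set.mem_preimage, Φ, sh_sh]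
      rw [show 1 + (f - pos c N ω) = f + 1 - pos c N ω by ring]
    have e2 : ∀ g : ℤ → ℝ≥0∞, ∑ f ∈ Ico (0 : ℤ) (h N), g f = ∑ i ∈ range (h N), g i := fun g => by
      rw [Int.Ico_eq_finset_map]; simp
    simp only [e1, e2]
    have := sum_range_succ' (fun i : ℕ => ν D (Φ c h N i ⁻¹' A)) (h N)
    rw [sum_range_succ] at this
    push_cast at this
    exact this.symm
  have b : ∀ N s, wt D N * ν D s ≤ wt D N := fun N s => mul_le_of_le_one_right' prob_le_one
  refine le_antisymm ?_ ?_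
  · rw [μ_apply H mA]
    exact iSup_le fun n => le_of_wt H fun N hN => (μn_mono H mA hN).trans (le_self_add.trans
      ((e N).le.trans (add_le_add (μn_le H N _) (b _ _))))
  · rw [μ_apply H hA]
    exact iSup_le fun n => le_of_wt H fun N hN => (μn_mono H hA hN).trans (le_self_add.trans
      ((e N).ge.trans (add_le_add (μn_le H N _) (b _ _))))

end Pool.Agent.H49.IE
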