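import Pool.Agent.H49.IE3

set_option autoImplicit false
set_option linter.unusedSectionVars false

namespace Pool.Agent.H49.IE

open Finset MeasureTheory ProbabilityTheory Filter Topology
open scoped ENNReal

variable {D : ℕ → Type} [∀ n, Fintype (D n)] [∀ n, Nonempty (D n)] [∀ n, MeasurableSpace (D n)]
  [∀ n, DiscreteMeasurableSpace (D n)] {c : ∀ n, D n → ℤ} {h : ℕ → ℕ} (H : OK c h)

lemma null {k : ℕ} {A : Set (Fin k → ℤ → ℕ → ℤ)} (hA : MeasurableSet A)
    (h0 : ∀ f : Fin k → ℤ, Measure.pi (fun _ => ν D)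
      {ω | (fun i => sh (f i) (Ψ c h (ω i))) ∈ A} = 0) : Measure.pi (fun _ => μ H) A = 0 := by
  classical
  have := ν_prob D
  have := μ_sig H
  have mX : ∀ n, MeasurableSet (Set.univ.pi fun _ : Fin k => Xs n) := fun n =>
    MeasurableSet.univ_pi fun _ => Xs_meas n
  have e : ∀ n, Measure.pi (fun _ : Fin k => μ H) (A ∩ Set.univ.pi fun _ => Xs n) = 0 := by
    intro n
    have := μn_fin H n
    have mΦ : ∀ f : Fin k → ℤ, Measurable fun (ω : Fin k → ∀ n, D n) i => Φ c h n (f i) (ω i) :=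
      fun f => measurable_pi_lambda _ fun i => (Φ_meas _ _).comp (measurable_pi_apply i)
    rw [← Measure.restrict_apply hA, Measure.restrict_pi_pi]
    simp only [μ_res]
    rw [Measure.pi_eq (μ' := wt D n ^ k • ∑ f ∈ Fintype.piFinset fun _ : Fin k => Ico (0 : ℤ) (h n),
      (Measure.pi fun _ => ν D).map fun ω i => Φ c h n (f i) (ω i)) fun s hs => ?_]
    · simp only [Measure.smul_apply, Measure.coe_finsetSum, Finset.sum_apply, smul_eq_mul,
        Measure.map_apply (mΦ _) hA]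
      rw [sum_eq_zero fun f _ => measure_mono_null (fun ω hω => Set.mem_iUnion.2
        ⟨fun i => f i - pos c n (ω i), hω⟩) (measure_iUnion_null h0), mul_zero]
    · simp only [Measure.smul_apply, Measure.coe_finsetSum, Finset.sum_apply, smul_eq_mul,
        Measure.map_apply (mΦ _) (MeasurableSet.univ_pi hs), μn_apply _ (hs _), prod_mul_distrib,
        prod_const, card_univ, Fintype.card_fin, prod_univ_sum, ← Measure.pi_pi]
      rfl
  refine measure_mono_null (t := (⋃ n, A ∩ Set.univ.pi fun _ => Xs n) ∪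
    ⋃ i, Function.eval i ⁻¹' (⋃ n, Xs n)ᶜ) (fun x hx => ?_) (measure_union_null
      (measure_iUnion_null e) (measure_iUnion_null fun i => Measure.pi_eval_preimage_null _ (μ_out H)))
  by_cases h' : ∀ i, ∃ n, x i ∈ Xs n
  · choose n hn using h'
    exact Or.inl (Set.mem_iUnion.2 ⟨∑ i, n i, hx, fun i _ m hm => hn i m
      ((single_le_sum (f := n) (fun _ _ => Nat.zero_le _) (mem_univ i)).trans hm)⟩)
  · obtain ⟨i, hi⟩ := not_forall.1 h'
    exact Or.inr (Set.mem_iUnion.2 ⟨i, fun e => hi (Set.mem_iUnion.1 e)⟩)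

theorem erg {k K : ℕ}
    (H5 : ∀ (v : Fin k → ℤ) (n : ℕ), ∃ m, n ≤ m ∧ ∃ (S : Finset (Fin k → D m))
      (σ : (Fin k → D m) → Fin k → D m), Set.InjOn σ S ∧
      (∀ d ∈ S, ∃ r, ∀ i, c m (σ d i) - c m (d i) = r + v i) ∧ Fintype.card (D m) ^ k ≤ K * #S) :
    Ergodic (fun x : Fin k → ℤ → ℕ → ℤ => fun i => sh 1 (x i)) (Measure.pi fun _ => μ H) := by
  have := μ_sig H
  refine ⟨measurePreserving_pi _ _ fun _ => μ_inv H, ⟨fun A hA hi => ?_⟩⟩
  have inv : ∀ (r : ℤ) x, (fun i => sh r (x i)) ∈ A ↔ x ∈ A := by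
    have s : ∀ x, (fun i => sh 1 (x i)) ∈ A ↔ x ∈ A := fun x => Set.ext_iff.1 hi x
    intro r
    induction r using Int.induction_on with
    | zero => simp [sh_zero]
    | succ r ih => intro x; rw [← ih x, ← s fun i => sh r (x i)]; simp only [sh_sh, add_comm]
    | pred r ih => intro x; rw [← ih x, ← s]; simp only [sh_sh, add_sub_cancel]
  have := dich c H5 (fun f => {ω | (fun i => sh (f i) (Ψ c h (ω i))) ∈ A})
    (fun f => measurable_pi_lambda _ (fun i => (sh_meas _).comp (Ψ_meas.comp (measurable_pi_apply i))) hA)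
    (fun f r ω e => by simpa only [sh_sh, add_sub_cancel, Set.mem_ofPred_eq] using (inv r _).2 e)
    (fun n f ω ω' e h' => by
      have : ∀ i, sh (f i + pos c n (ω i) - pos c n (ω' i)) (Ψ c h (ω' i)) = sh (f i) (Ψ c h (ω i)) :=
        fun i => by simpa [Φ] using (agree H (e i) (f i + pos c n (ω i))).symm
      simpa only [Set.mem_ofPred_eq, this] using h')
  rw [eventuallyConst_set]
  exact this.symm.imp (null H hA.compl) fun h' => by
    simpa [ae_iff] using null H hA h'

open Classical in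
theorem nonerg (G : ∀ n, D n → D n → Prop)
    (rig : ∀ n a b a' b', G n a' b' → |c n a + c n b - c n a' - c n b'| ≤ 4 * h n →
      c n a + c n b = c n a' + c n b')
    (bad : ∀ n, #{x : D n × D n | ¬ G n x.1 x.2} * 2 ^ (n + 2) ≤ Fintype.card (D n) ^ 2) :
    ¬ Ergodic (fun p : (ℤ → ℕ → ℤ) × (ℤ → ℕ → ℤ) => (sh 1 p.1, sh (-1) p.2)) ((μ H).prod (μ H)) := by
  intro hE
  have := ν_prob D
  have := μ_sig H
  set B : Set ((ℤ → ℕ → ℤ) × (ℤ → ℕ → ℤ)) := {p | p.1 0 0 = 0 ∧ p.2 0 0 = 0 ∧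
    (∀ n, ∃ a b, G n a b ∧ p.1 0 (n + 1) = p.1 0 n + c n a ∧ p.2 0 (n + 1) = p.2 0 n + c n b) ∧
    ∀ r, ∃ N, ∀ n, N ≤ n → p.1 r n = p.1 0 n + r ∧ p.2 r n = p.2 0 n + r} with hB
  have mB : MeasurableSet B := by rw [hB]; measurability
  have bd : ∀ p ∈ B, ∀ n, (0 ≤ p.1 0 n ∧ p.1 0 n < h n) ∧ 0 ≤ p.2 0 n ∧ p.2 0 n < h n := by
    intro p hp n
    induction n with
    | zero => simp [hp.1, hp.2.1, H.h0]
    | succ n ih =>
      obtain ⟨a, b, -, e1, e2⟩ := hp.2.2.1 n
      have := H.mar n a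
      have := H.mar n b
      omega
  have key : ∀ x y r, (sh 1 x, y) ∈ B → (sh r x, sh (-r) y) ∉ B := by
    intro x y r h1 h2
    obtain ⟨N1, a1⟩ := h1.2.2.2 (r - 1)
    obtain ⟨N2, a2⟩ := h1.2.2.2 (-r)
    have : ∀ n, n ≤ N1 + N2 → sh 1 x 0 n + y 0 n - sh r x 0 n - sh (-r) y 0 n = 1 := by
      intro n hn
      induction hn using Nat.decreasingInduction with
      | self =>
        have b1 := (a1 (N1 + N2) (by omega)).1
        have b2 := (a2 (N1 + N2) (by omega)).2
        simp only [sh, sub_add_cancel, zero_add] at b1 b2 ⊢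
        omega
      | of_succ n _ ih =>
        obtain ⟨a, b, -, e1, e2⟩ := h1.2.2.1 n
        obtain ⟨a', b', g, e3, e4⟩ := h2.2.2.1 n
        have := bd _ h1 n
        have := bd _ h2 n
        have := rig n a b a' b' g (by rw [abs_le]; simp only at *; omega)
        simp only at *
        omega
    have := this 0 (by omega)
    have := h1.1
    have := h1.2.1
    have := h2.1
    have := h2.2.1
    simp only at *
    omega
  have m0 : μn c h 0 = (ν D).map (Ψ c h) := by
    have : Φ c h 0 0 = Ψ c h := funext fun ω => by simp [Φ, pos, sh_zero]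
    simp [μn, wt, H.h0, show Ico (0 : ℤ) 1 = {0} from rfl, this]
  have pB : (μ H).prod (μ H) B ≠ 0 := by
    intro h0
    have h1 : ((ν D).prod (ν D)) (Prod.map (Ψ c h) (Ψ c h) ⁻¹' B) = 0 := by
      rw [← Measure.map_apply (Ψ_meas.prodMap Ψ_meas) mB, ← Measure.map_prod_map _ _ Ψ_meas Ψ_meas, ← m0]
      exact le_antisymm ((Measure.prod_mono (μn_le H 0) (μn_le H 0) B).trans h0.le) zero_le
    have h2 : ∀ n, ((ν D).prod (ν D)) {p | ¬ G n (p.1 n) (p.2 n)} ≤ 2⁻¹ ^ (n + 2) := fun n => by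
      have mp := (measurePreserving_eval_infinitePi (fun n => uniformOn (Set.univ : Set (D n))) n).prod
        (measurePreserving_eval_infinitePi (fun n => uniformOn (Set.univ : Set (D n))) n)
      have := mp.measure_preimage (s := ({x : D n × D n | ¬ G n x.1 x.2} : Finset _))
        (Finset.measurableSet _).nullMeasurableSet
      refine le_trans (le_of_eq (by unfold ν; congr 1; ext; simp)) (this.le.trans ?_)
      rw [← sum_measure_singleton]
      rw [sum_congr rfl fun x _ => (by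
        rw [← Set.singleton_prod_singleton, Measure.prod_prod, uniformOn_univ, uniformOn_univ,
          Measure.count_singleton, Measure.count_singleton, one_div] : ((uniformOn Set.univ).prod
          (uniformOn Set.univ)) {(x.1, x.2)} = (Fintype.card (D n) : ℝ≥0∞)⁻¹ *
            (Fintype.card (D n) : ℝ≥0∞)⁻¹), sum_const, nsmul_eq_mul]
      have b : (#{x : D n × D n | ¬ G n x.1 x.2} : ℝ≥0∞) * 2 ^ (n + 2) ≤ Fintype.card (D n) ^ 2 := by
        exact_mod_cast bad n
      rw [← sq, ← ENNReal.inv_pow, ← ENNReal.inv_pow, ← div_eq_mul_inv,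
        ENNReal.div_le_iff (by simp) (by simp), mul_comm, ← div_eq_mul_inv,
        ENNReal.le_div_iff_mul_le (by simp) (by simp)]
      exact b
    have h3 : ((ν D).prod (ν D)) Set.univ ≤ ((ν D).prod (ν D)) (Prod.map (Ψ c h) (Ψ c h) ⁻¹' B) +
        ∑' n, ((ν D).prod (ν D)) {p | ¬ G n (p.1 n) (p.2 n)} := by
      refine le_trans (measure_mono fun p _ => ?_) ((measure_union_le _ _).trans
        (add_le_add le_rfl (measure_iUnion_le _)))
      by_cases hg : ∀ n, G n (p.1 n) (p.2 n)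
      · have e : ∀ (ω : ∀ n, D n) n, Ψ c h ω 0 n = pos c n ω := fun ω n => by
          simpa [proj] using Ψ_eq H (t := 0)
            (R_mono H (Nat.zero_le n) (show R c h 0 0 ω by simp [R, pos, H.h0]))
        have e' : ∀ (ω : ∀ n, D n) r n, r.natAbs + 1 ≤ n → Ψ c h ω r n = pos c n ω + r :=
          fun ω r n hn => by simpa [proj, add_comm] using Ψ_eq H (t := 0) (R_big H ω hn)
        exact Or.inl ⟨e _ _, e _ _, fun n => ⟨_, _, hg n, by simp [e, pos_succ]⟩,
          fun r => ⟨r.natAbs + 1, fun n hn => by simp [e, e' _ r n hn]⟩⟩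
      · exact Or.inr (by simpa using hg)
    rw [h1, zero_add, measure_univ] at h3
    have h4 := h3.trans (ENNReal.tsum_le_tsum h2)
    simp only [pow_add, ENNReal.tsum_mul_right, ENNReal.tsum_geometric, ENNReal.one_sub_inv_two,
      inv_inv] at h4
    rw [sq, ← mul_assoc, ENNReal.mul_inv_cancel (by simp) (by simp), one_mul] at h4
    simp at h4
  have := hE.aeconst_set (s := {p | ∃ r : ℤ, (sh r p.1, sh (-r) p.2) ∈ B}) (by
    rw [Set.ofPred_exists]
    exact MeasurableSet.iUnion fun r => ((sh_meas r).prodMap (sh_meas (-r))) mB) (by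
    ext p
    simp only [Set.mem_preimage, Set.mem_ofPred_eq, sh_sh]
    exact ⟨fun ⟨r, e⟩ => ⟨r + 1, by rwa [neg_add]⟩, fun ⟨r, e⟩ => ⟨r - 1, by
      rwa [sub_add_cancel, show -(r - 1) + -1 = -r by ring]⟩⟩)
  rcases eventuallyConst_set.1 this with h' | h'
  · refine pB ?_
    rw [← ((μ_inv H).prod (MeasurePreserving.id (μ H))).measure_preimage mB.nullMeasurableSet]
    refine measure_mono_null (fun p e => ?_) (ae_iff.1 h')
    exact fun ⟨r, e'⟩ => key _ _ r e e'
  · refine pB (measure_mono_null (fun p e => ?_) (ae_iff.1 h'))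
    exact fun e' => e' ⟨0, by simpa [sh_zero] using e⟩

end Pool.Agent.H49.IE
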