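import Mathlib

set_option autoImplicit false

namespace Pool.Agent.H49.IrrDyn

open Polynomial Filter Topology

abbrev R := (ZMod 2)[X]

open Classical in
noncomputable def e (p : R × R) : ℕ := if p.1.coeff 0 = 0 then 1 else 0

open Classical in
noncomputable def step (p : R × R) : R × R :=
  if p.1.coeff 0 = 0 then
    (p.1.divX * (p.1 + p.2), X * p.1.divX ^ 2 + p.2 * (p.1 + p.2))
  else (p.1 * (p.1 + p.2), p.1 ^ 2 + X * (p.2 * (p.1 + p.2)))

lemma step_fst (p : R × R) : X ^ e p * (step p).1 = p.1 * (p.1 + p.2) := by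
  unfold e step
  split_ifs with h
  · have h1 : X * p.1.divX = p.1 := by
      have := X_mul_divX_add p.1
      rwa [h, C_0, add_zero] at this
    simp only [pow_one]
    rw [← mul_assoc, h1]
  · simp

lemma step_snd (p : R × R) : X ^ e p * (step p).2 = p.1 ^ 2 + X * (p.2 * (p.1 + p.2)) := by
  unfold e step
  split_ifs with h
  · have h1 : X * p.1.divX = p.1 := by
      have := X_mul_divX_add p.1
      rwa [h, C_0, add_zero] at this
    simp only [pow_one]
    conv_rhs => rw [← h1]
    rw [h1]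
    nth_rewrite 3 [← h1]
    ring
  · simp

structure Good (p : R × R) : Prop where
  y0 : p.2.coeff 0 = 1
  xne : p.1 ≠ 0
  lt : p.1.natDegree < p.2.natDegree
  cop : IsCoprime p.1 p.2

lemma zmod_ne (a : ZMod 2) (h : a ≠ 0) : a = 1 := by revert a; decide

lemma e_le (p : R × R) : e p ≤ 1 := by unfold e; split_ifs <;> omega

lemma Good.yne {p : R × R} (h : Good p) : p.2 ≠ 0 := by
  intro h0
  have := h.y0
  rw [h0, coeff_zero] at this
  exact zero_ne_one this

lemma Good.sum_deg {p : R × R} (h : Good p) : (p.1 + p.2).natDegree = p.2.natDegree :=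
  natDegree_add_eq_right_of_natDegree_lt h.lt

lemma Good.sum_ne {p : R × R} (h : Good p) : p.1 + p.2 ≠ 0 := by
  intro h0
  have := h.sum_deg
  rw [h0, natDegree_zero] at this
  have := h.lt
  omega

lemma Good.step_y0 {p : R × R} (h : Good p) : (step p).2.coeff 0 = 1 := by
  unfold step
  split_ifs with h0
  · simp [h.y0, h0]
  · simp [zmod_ne _ h0, pow_two]

lemma Good.e_step {p : R × R} (h : Good p) (he : e p = 0) : e (step p) = 1 := by
  have h0 : ¬ p.1.coeff 0 = 0 := by
    intro h0
    simp [e, h0] at he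
  have : (step p).1.coeff 0 = 0 := by
    unfold step
    rw [if_neg h0]
    simp only [mul_coeff_zero, coeff_add, zmod_ne _ h0, h.y0]
    decide
  simp [e, this]

lemma Good.deg_snd {p : R × R} (h : Good p) :
    (step p).2.natDegree + e p = 2 * p.2.natDegree + 1 := by
  have hne : (step p).2 ≠ 0 := by
    intro h0
    have := h.step_y0
    rw [h0, coeff_zero] at this
    exact zero_ne_one this
  have h1 := congrArg natDegree (step_snd p)
  rw [natDegree_mul (pow_ne_zero _ X_ne_zero) hne, natDegree_X_pow] at h1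
  have h2 : (X * (p.2 * (p.1 + p.2)) : R).natDegree = 2 * p.2.natDegree + 1 := by
    rw [natDegree_mul X_ne_zero (mul_ne_zero h.yne h.sum_ne), natDegree_mul h.yne h.sum_ne,
      h.sum_deg, natDegree_X]
    ring
  rw [natDegree_add_eq_right_of_natDegree_lt, h2] at h1
  · omega
  · rw [h2, natDegree_pow]
    have := h.lt
    omega

lemma Good.step {p : R × R} (h : Good p) : Good (step p) := by
  have hx : (IrrDyn.step p).1 ≠ 0 := by
    intro h0
    have := step_fst p
    rw [h0, mul_zero] at this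
    exact mul_ne_zero h.xne h.sum_ne this.symm
  refine ⟨h.step_y0, hx, ?_, ?_⟩
  · have h1 := congrArg natDegree (step_fst p)
    rw [natDegree_mul (pow_ne_zero _ X_ne_zero) hx, natDegree_X_pow,
      natDegree_mul h.xne h.sum_ne, h.sum_deg] at h1
    have h2 := h.deg_snd
    have h3 := h.lt
    omega
  · apply isCoprime_of_prime_dvd (fun hh => hx hh.1)
    intro z hz h1 h2
    have h3 : z ∣ p.1 * (p.1 + p.2) := by rw [← step_fst]; exact h1.mul_left _
    have h4 : z ∣ p.1 ^ 2 + X * (p.2 * (p.1 + p.2)) := by rw [← step_snd]; exact h2.mul_left _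
    have hnot : ¬ (z ∣ p.1 ∧ z ∣ p.2) := fun hh => hz.not_isUnit (h.cop.isUnit_of_dvd' hh.1 hh.2)
    rcases hz.dvd_or_dvd h3 with h5 | h5
    · have h6 : z ∣ X * (p.2 * (p.1 + p.2)) :=
        (dvd_add_right (Dvd.dvd.pow h5 (by norm_num))).1 h4
      rcases hz.dvd_or_dvd h6 with h7 | h7
      · have h8 : (X : R) ∣ z := (hz.associated_of_dvd prime_X h7).symm.dvd
        have h9 := X_dvd_iff.1 (h8.trans h2)
        rw [h.step_y0] at h9
        exact one_ne_zero h9
      · rcases hz.dvd_or_dvd h7 with h8 | h8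
        · exact hnot ⟨h5, h8⟩
        · exact hnot ⟨h5, (dvd_add_right h5).1 h8⟩
    · have h6 : z ∣ p.1 ^ 2 :=
        (dvd_add_left (Dvd.dvd.mul_left (Dvd.dvd.mul_left h5 _) _)).1 h4
      have h7 := hz.dvd_of_dvd_pow h6
      exact hnot ⟨h7, (dvd_add_right h7).1 h5⟩

noncomputable def W (p q : R × R) : R := p.1 * q.2 - q.1 * p.2

lemma W_step (p q : R × R) : X ^ e p * X ^ e q * W (step p) (step q) =
    W p q * ((X - 1) * p.1 * q.1 + X * (p.1 * q.2 + q.1 * p.2) + X * (p.2 * q.2)) := by
  have : X ^ e p * X ^ e q * W (step p) (step q) =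
      (X ^ e p * (step p).1) * (X ^ e q * (step q).2) -
      (X ^ e q * (step q).1) * (X ^ e p * (step p).2) := by
    unfold W; ring
  rw [this, step_fst, step_fst, step_snd, step_snd]
  unfold W
  ring

lemma dvd_of_unit (N : ℕ) (A B : R) (hB : B.coeff 0 ≠ 0) (h : X ^ N ∣ A * B) : X ^ N ∣ A :=
  prime_X.pow_dvd_of_dvd_mul_right N (fun hh => hB (X_dvd_iff.1 hh)) h

lemma W_class0 {p q : R × R} (hp : Good p) (hq : Good q) (h1 : e p = 1) (h2 : e q = 1) (N : ℕ)
    (h : X ^ N ∣ W (step p) (step q)) : X ^ (N + 1) ∣ W p q := by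
  have hp0 : p.1.coeff 0 = 0 := by
    by_contra h0; simp [e, h0] at h1
  have hq0 : q.1.coeff 0 = 0 := by
    by_contra h0; simp [e, h0] at h2
  obtain ⟨a, ha⟩ := X_dvd_iff.2 hp0
  obtain ⟨b, hb⟩ := X_dvd_iff.2 hq0
  have h3 := W_step p q
  rw [h1, h2, pow_one] at h3
  have h4 : X * W (step p) (step q) =
      W p q * ((X - 1) * X * a * b + X * (a * q.2 + b * p.2) + p.2 * q.2) := by
    apply mul_left_cancel₀ (X_ne_zero (R := ZMod 2))
    rw [← mul_assoc, h3]
    generalize W p q = w
    rw [ha, hb]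
    ring
  apply dvd_of_unit (N + 1) _ ((X - 1) * X * a * b + X * (a * q.2 + b * p.2) + p.2 * q.2)
  · simp [hp.y0, hq.y0]
  · rw [← h4, pow_succ, mul_comm]
    exact mul_dvd_mul_left _ h

lemma W_class1 {p q : R × R} (h1 : e p = 0) (h2 : e q = 0) (N : ℕ)
    (h : X ^ N ∣ W (step p) (step q)) : X ^ N ∣ W p q := by
  have hp0 : p.1.coeff 0 ≠ 0 := by
    intro h0; simp [e, h0] at h1
  have hq0 : q.1.coeff 0 ≠ 0 := by
    intro h0; simp [e, h0] at h2
  have h3 := W_step p q
  rw [h1, h2, pow_zero, one_mul, one_mul] at h3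
  rw [h3] at h
  apply dvd_of_unit N _ _ _ h
  simp [hp0, hq0]

lemma W_dvd (N : ℕ) : ∀ p q : R × R, Good p → Good q →
    (∀ j, e (step^[j] p) = e (step^[j] q)) → X ^ N ∣ W p q := by
  induction N with
  | zero => intro p q _ _ _; simp
  | succ N ih =>
    have h0 : ∀ p q : R × R, Good p → Good q →
        (∀ j, e (step^[j] p) = e (step^[j] q)) → e p = 1 → X ^ (N + 1) ∣ W p q := by
      intro p q hp hq hit h1
      have h2 : e q = 1 := by rw [← h1]; exact (hit 0).symm
      exact W_class0 hp hq h1 h2 N (ih _ _ hp.step hq.step (fun j => hit (j + 1)))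
    intro p q hp hq hit
    by_cases h1 : e p = 1
    · exact h0 p q hp hq hit h1
    · have h1' : e p = 0 := by have := e_le p; omega
      have h2 : e q = 0 := by rw [← h1']; exact (hit 0).symm
      exact W_class1 h1' h2 _
        (h0 _ _ hp.step hq.step (fun j => hit (j + 1)) (hp.e_step h1'))

lemma deg_le_of_itin {p q : R × R} (hp : Good p) (hq : Good q)
    (hit : ∀ j, e (step^[j] p) = e (step^[j] q)) : q.2.natDegree ≤ p.2.natDegree := by
  have hW : W p q = 0 := by
    by_contra hne
    have h := natDegree_le_of_dvd (W_dvd ((W p q).natDegree + 1) p q hp hq hit) hne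
    rw [natDegree_X_pow] at h
    omega
  have h1 : q.2 ∣ q.1 * p.2 := ⟨p.1, by unfold W at hW; linear_combination -hW⟩
  exact natDegree_le_of_dvd (hq.cop.symm.dvd_of_dvd_mul_left h1) hp.yne

noncomputable def P (n : ℕ) : R × R := step^[n] (1, X + 1)

lemma P_succ (n : ℕ) : P (n + 1) = step (P n) := Function.iterate_succ_apply' _ _ _

lemma P_add (n j : ℕ) : P (n + j) = step^[j] (P n) := by
  unfold P; rw [add_comm, Function.iterate_add_apply]

lemma good_P (n : ℕ) : Good (P n) := by
  induction n with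
  | zero =>
    refine ⟨by simp [P], by simp [P], ?_, isCoprime_one_left⟩
    simp only [P, Function.iterate_zero, id, natDegree_one]
    rw [← C_1, natDegree_X_add_C]
    exact one_pos
  | succ n ih => rw [P_succ]; exact ih.step

noncomputable def D (n : ℕ) : ℕ := (P n).2.natDegree

lemma D_succ (n : ℕ) : D (n + 1) + e (P n) = 2 * D n + 1 := by
  unfold D; rw [P_succ]; exact (good_P n).deg_snd

lemma D_strictMono : StrictMono D := by
  apply strictMono_nat_of_lt_succ
  intro n
  have h1 := D_succ n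
  have h2 := e_le (P n)
  have h3 : 0 < D n := lt_of_le_of_lt (Nat.zero_le _) (good_P n).lt
  omega

lemma D_lower (n m : ℕ) : 2 ^ m * D n ≤ D (n + m) := by
  induction m with
  | zero => simp
  | succ m ih =>
    have h1 := D_succ (n + m)
    have h2 := e_le (P (n + m))
    rw [pow_succ, ← add_assoc]
    nlinarith

lemma D_upper (n m : ℕ) :
    3 * D (n + m) + 2 - e (P (n + m)) ≤ 2 ^ m * (3 * D n + 2 - e (P n)) := by
  induction m with
  | zero => simp
  | succ m ih =>
    have h1 := D_succ (n + m)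
    have h2 := e_le (P (n + m))
    have h3 : e (P (n + m)) = 0 → e (P (n + m + 1)) = 1 := by
      intro h; rw [P_succ]; exact (good_P _).e_step h
    rw [pow_succ, ← add_assoc, mul_comm (2 ^ m) 2, mul_assoc]
    omega

lemma mono_D : Monotone (fun n : ℕ => (D n : ℝ) / 2 ^ n) := by
  apply monotone_nat_of_le_succ
  intro n
  have h := D_lower n 1
  have h' : (2 : ℝ) * D n ≤ D (n + 1) := by exact_mod_cast h
  rw [div_le_div_iff₀ (by positivity) (by positivity), pow_succ]
  have : (0 : ℝ) < 2 ^ n := by positivity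
  nlinarith

lemma upper_D (n m : ℕ) :
    (D (n + m) : ℝ) / 2 ^ (n + m) ≤ (3 * D n + 2 - e (P n)) / 3 / 2 ^ n := by
  have h := D_upper n m
  have h1 := e_le (P (n + m))
  have h2 := e_le (P n)
  have h3 : 3 * D (n + m) ≤ 2 ^ m * (3 * D n + 2 - e (P n)) := by omega
  have h4 : (3 : ℝ) * D (n + m) ≤ 2 ^ m * (3 * D n + 2 - e (P n)) := by
    have : ((3 * D n + 2 - e (P n) : ℕ) : ℝ) = 3 * D n + 2 - e (P n) := by
      rw [Nat.cast_sub (by omega)]; push_cast; ring
    rw [← this]
    exact_mod_cast h3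
  rw [div_le_div_iff₀ (by positivity) (by positivity), pow_add]
  have : (0 : ℝ) < 2 ^ n := by positivity
  nlinarith

theorem exists_limit : ∃ L : ℝ, Tendsto (fun n : ℕ => (D n : ℝ) / 2 ^ n) atTop (𝓝 L) := by
  refine ⟨_, tendsto_atTop_ciSup mono_D ⟨(3 * D 0 + 2 - e (P 0)) / 3 / 2 ^ 0, ?_⟩⟩
  rintro _ ⟨m, rfl⟩
  have := upper_D 0 m
  rwa [zero_add] at this

theorem not_rational (q : ℚ) :
    ¬ Tendsto (fun n : ℕ => (D n : ℝ) / 2 ^ n) atTop (𝓝 (q : ℝ)) := by
  intro hq
  have hlow : ∀ n, (D n : ℚ) ≤ q * 2 ^ n := by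
    intro n
    have h := mono_D.ge_of_tendsto hq n
    rw [div_le_iff₀ (by positivity)] at h
    exact_mod_cast h
  have hup : ∀ n, 3 * (q * 2 ^ n) ≤ 3 * (D n : ℚ) + 2 - e (P n) := by
    intro n
    have h : (q : ℝ) ≤ (3 * D n + 2 - e (P n)) / 3 / 2 ^ n := by
      apply le_of_tendsto hq
      filter_upwards [eventually_ge_atTop n] with m hm
      obtain ⟨j, rfl⟩ := Nat.exists_eq_add_of_le hm
      exact upper_D n j
    rw [le_div_iff₀ (by positivity), le_div_iff₀ (by positivity)] at h
    have h' : (q : ℝ) * 2 ^ n * 3 ≤ 3 * D n + 2 - e (P n) := h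
    have h'' : q * 2 ^ n * 3 ≤ 3 * (D n : ℚ) + 2 - e (P n) := by exact_mod_cast h'
    linarith
  set c : ℕ → ℚ := fun n => q * 2 ^ n - D n with hc
  have hrec : ∀ n, c (n + 1) = 2 * c n - 1 + e (P n) := by
    intro n
    have h : (D (n + 1) : ℚ) + e (P n) = 2 * D n + 1 := by exact_mod_cast D_succ n
    simp only [hc]
    rw [pow_succ]
    linarith
  have hdet : ∀ n m, c n = c m → e (P n) = e (P m) := by
    have key : ∀ n m, c n = c m → e (P n) = 1 → e (P m) = 0 → False := by
      intro n m h h1 h2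
      have a1 := hup n
      have a2 := hlow (m + 1)
      have a3 := hrec m
      rw [h1] at a1
      rw [h2] at a3
      simp only [hc] at h a3
      push_cast at a1 a3
      linarith
    intro n m h
    have b1 := e_le (P n)
    have b2 := e_le (P m)
    by_contra hne
    rcases Nat.lt_or_gt_of_ne hne with hlt | hlt
    · exact key m n h.symm (by omega) (by omega)
    · exact key n m h (by omega) (by omega)
  have hfin : ∃ n m, n < m ∧ c n = c m := by
    have hmaps : ∀ n, c n ∈ ((Finset.Icc (0 : ℤ) q.den).image (fun j : ℤ => (j : ℚ) / q.den) :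
        Set ℚ) := by
      intro n
      have hden : (0 : ℚ) < q.den := by exact_mod_cast q.den_pos
      have e1 : c n * q.den = ((q.num * 2 ^ n - D n * q.den : ℤ) : ℚ) := by
        simp only [hc]
        push_cast
        rw [← Rat.mul_den_eq_num]
        ring
      have a1 := hup n
      have a2 := hlow n
      have a3 : (0 : ℚ) ≤ e (P n) := by positivity
      have c0 : 0 ≤ c n := by simp only [hc]; linarith
      have c1 : c n ≤ 1 := by simp only [hc]; linarith
      rw [Finset.coe_image]
      refine ⟨q.num * 2 ^ n - D n * q.den, ?_, ?_⟩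
      · rw [Finset.mem_coe, Finset.mem_Icc]
        constructor
        · have : (0 : ℚ) ≤ ((q.num * 2 ^ n - D n * q.den : ℤ) : ℚ) := by rw [← e1]; positivity
          exact_mod_cast this
        · have : ((q.num * 2 ^ n - D n * q.den : ℤ) : ℚ) ≤ q.den := by rw [← e1]; nlinarith
          exact_mod_cast this
      · simp only
        rw [← e1]
        field_simp
    obtain ⟨n, -, m, -, hlt, h⟩ := Set.infinite_univ.exists_lt_map_eq_of_mapsTo
      (f := c) (fun n _ => hmaps n) (Finset.finite_toSet _)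
    exact ⟨n, m, hlt, h⟩
  obtain ⟨n, m, hlt, h⟩ := hfin
  have hall : ∀ j, c (n + j) = c (m + j) := by
    intro j
    induction j with
    | zero => exact h
    | succ j ih =>
      rw [← add_assoc, ← add_assoc, hrec, hrec, ih, hdet _ _ ih]
  have := deg_le_of_itin (good_P n) (good_P m) (fun j => by
    rw [← P_add, ← P_add]; exact hdet _ _ (hall j))
  exact absurd (D_strictMono hlt) (not_lt.2 this)

end Pool.Agent.H49.IrrDyn
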