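import Pool.Agent.H49.P1

set_option autoImplicit false

namespace Pool.Agent.H49.P1

open Polynomial

variable {K : Type*} [Field K]

lemma num_denom_div (p q : K[X]) (hc : IsCoprime p q) (hq : q.Monic) :
    (algebraMap K[X] (RatFunc K) p / algebraMap K[X] (RatFunc K) q).num = p ∧
    (algebraMap K[X] (RatFunc K) p / algebraMap K[X] (RatFunc K) q).denom = q := by
  set x := algebraMap K[X] (RatFunc K) p / algebraMap K[X] (RatFunc K) q with hx
  have h := (RatFunc.num_mul_eq_mul_denom_iff (x := x) (p := p) hq.ne_zero).2 hx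
  have h1 : x.denom ∣ q := by
    apply (RatFunc.isCoprime_num_denom x).symm.dvd_of_dvd_mul_left
    exact ⟨p, by rw [h, mul_comm]⟩
  have h2 : q ∣ x.denom := by
    apply hc.symm.dvd_of_dvd_mul_left
    exact ⟨x.num, by rw [← h, mul_comm]⟩
  have h3 : x.denom = q :=
    eq_of_monic_of_associated (RatFunc.monic_denom x) hq (associated_of_dvd_dvd h1 h2)
  refine ⟨?_, h3⟩
  rw [h3] at h
  exact mul_right_cancel₀ hq.ne_zero h

end Pool.Agent.H49.P1
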