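import Pool.Agent.H49.IrrDyn
import Pool.Agent.H49.P1Lemmas

set_option autoImplicit false

namespace Pool.Agent.H49.IrrHeight

open Polynomial Pool.Agent.H49.P1 Pool.Agent.H49.IrrDyn

variable (k : Type) [Field k] [Algebra (ZMod 2) k]

noncomputable def A : (RatFunc k)[X] := X * (X + 1)

noncomputable def B : (RatFunc k)[X] := X ^ 2 + C RatFunc.X * (X + 1)

omit [Algebra (ZMod 2) k] in
lemma B_monic : (B k).Monic := by unfold B; monicity!

omit [Algebra (ZMod 2) k] in
lemma B_deg : (B k).natDegree = 2 := by unfold B; compute_degree!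

omit [Algebra (ZMod 2) k] in
lemma A_deg : (A k).natDegree = 2 := by unfold A; compute_degree!

omit [Algebra (ZMod 2) k] in
lemma AB_cop : IsCoprime (A k) (B k) := by
  unfold A B
  apply IsCoprime.mul_left
  · refine ⟨-(C (RatFunc.X)⁻¹ * (X + C RatFunc.X)), C (RatFunc.X)⁻¹, ?_⟩
    have : (C (RatFunc.X)⁻¹ : (RatFunc k)[X]) * C RatFunc.X = 1 := by
      rw [← C_mul, inv_mul_cancel₀ RatFunc.X_ne_zero, C_1]
    linear_combination this
  · exact ⟨-(X - 1 + C RatFunc.X), 1, by ring⟩

noncomputable def Phi : RatFunc (RatFunc k) :=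
  algebraMap (RatFunc k)[X] _ (A k) / algebraMap (RatFunc k)[X] _ (B k)

omit [Algebra (ZMod 2) k] in
lemma deg_Phi : deg (Phi k) = 2 := by
  obtain ⟨h1, h2⟩ := num_denom_div (A k) (B k) (AB_cop k) (B_monic k)
  unfold deg Phi
  rw [h1, h2, A_deg, B_deg, max_self]

noncomputable def phi : R →+* RatFunc k :=
  (algebraMap k[X] (RatFunc k)).comp (mapRingHom (algebraMap (ZMod 2) k))

lemma phi_X : phi k X = RatFunc.X := by simp [phi]

lemma phi_ne {p : R} (hp : p ≠ 0) : phi k p ≠ 0 := by
  have hinj : Function.Injective (algebraMap (ZMod 2) k) := (algebraMap (ZMod 2) k).injective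
  exact RatFunc.algebraMap_ne_zero ((Polynomial.map_ne_zero_iff hinj).2 hp)

lemma act_step (p : R × R) (hp : Good p) :
    act (Phi k) (OnePoint.some (phi k p.1 / phi k p.2)) =
      OnePoint.some (phi k (step p).1 / phi k (step p).2) := by
  obtain ⟨h1, h2⟩ := num_denom_div (A k) (B k) (AB_cop k) (B_monic k)
  have e1 := congrArg (phi k) (step_fst p)
  have e2 := congrArg (phi k) (step_snd p)
  simp only [map_mul, map_pow, map_add, phi_X] at e1 e2
  have hy := phi_ne k hp.yne
  have hy' := phi_ne k hp.step.yne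
  have ht : (RatFunc.X : RatFunc k) ^ e p ≠ 0 := pow_ne_zero _ RatFunc.X_ne_zero
  have a : (A k).eval (phi k p.1 / phi k p.2) =
      RatFunc.X ^ e p * phi k (step p).1 / phi k p.2 ^ 2 := by
    rw [e1]; simp only [A, eval_mul, eval_X, eval_add, eval_one]; field_simp
  have b : (B k).eval (phi k p.1 / phi k p.2) =
      RatFunc.X ^ e p * phi k (step p).2 / phi k p.2 ^ 2 := by
    rw [e2]; simp only [B, eval_mul, eval_X, eval_add, eval_one, eval_pow, eval_C]; field_simp
  unfold act Phi
  rw [OnePoint.elim_some, h1, h2, a, b, if_neg (by positivity)]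
  congr 1
  field_simp

lemma iter (n : ℕ) : (act (Phi k))^[n] (OnePoint.some (phi k (P 0).1 / phi k (P 0).2)) =
    OnePoint.some (phi k (P n).1 / phi k (P n).2) := by
  induction n with
  | zero => rfl
  | succ n ih => rw [Function.iterate_succ_apply', ih, act_step k _ (good_P n), P_succ]

lemma deg_eq (n : ℕ) : deg (phi k (P n).1 / phi k (P n).2) = D n := by
  have hg := good_P n
  have hm : (P n).2.Monic := zmod_ne _ (leadingCoeff_ne_zero.2 hg.yne)
  obtain ⟨h1, h2⟩ := num_denom_div ((P n).1.map (algebraMap (ZMod 2) k))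
    ((P n).2.map (algebraMap (ZMod 2) k))
    (hg.cop.map (Polynomial.mapRingHom (algebraMap (ZMod 2) k))) (hm.map _)
  unfold deg
  erw [h1, h2]
  rw [natDegree_map, natDegree_map]
  exact max_eq_right hg.lt.le

end Pool.Agent.H49.IrrHeight
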