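import Pool.Agent.H49.SelGamma

set_option autoImplicit false
open Complex MeasureTheory Set Filter Asymptotics

namespace Pool.Agent.H49.Sel
open Pool.Agent.Lead.Sel

theorem Gamma_le_exp {x : ℝ} (hx : 1 / 2 ≤ x) : Real.Gamma x ≤ Real.exp (5 * (1 + x) ^ 2) := by
  have h0 : 0 ≤ x := by linarith
  have h1 := Gamma_upper hx ⌊x⌋₊ (Nat.lt_floor_add_one x).le
  have h2 : (((⌊x⌋₊ + 2).factorial : ℕ) : ℝ) ≤ ((⌊x⌋₊ + 2 : ℕ) : ℝ) ^ (⌊x⌋₊ + 2) := by
    exact_mod_cast Nat.factorial_le_pow (⌊x⌋₊ + 2)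
  have h3 : ((⌊x⌋₊ + 2 : ℕ) : ℝ) ≤ x + 2 := by push_cast; linarith [Nat.floor_le h0]
  have h4 : ((⌊x⌋₊ + 2 : ℕ) : ℝ) ^ (⌊x⌋₊ + 2) ≤ Real.exp (x + 2) ^ (⌊x⌋₊ + 2) :=
    pow_le_pow_left₀ (by positivity) (h3.trans (by linarith [Real.add_one_le_exp (x + 2)])) _
  rw [← Real.exp_nat_mul] at h4
  have h5 : Real.exp (((⌊x⌋₊ + 2 : ℕ) : ℝ) * (x + 2)) ≤ Real.exp (4 * (1 + x) ^ 2) :=
    Real.exp_le_exp.mpr (by nlinarith)
  have h6 : 2 ≤ Real.exp ((1 + x) ^ 2) := by
    have := Real.add_one_le_exp ((1 + x) ^ 2); nlinarith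
  calc _ ≤ 2 * Real.exp (4 * (1 + x) ^ 2) := by linarith
    _ ≤ Real.exp ((1 + x) ^ 2) * Real.exp (4 * (1 + x) ^ 2) := by gcongr
    _ = _ := by rw [← Real.exp_add]; ring_nf

theorem norm_Gamma_le_exp {s : ℂ} (hs : 1 / 2 ≤ s.re) :
    ‖Complex.Gamma s‖ ≤ Real.exp (5 * (1 + ‖s‖) ^ 2) := by
  refine (norm_Gamma_le (by linarith)).trans ((Gamma_le_exp hs).trans ?_)
  have := Complex.re_le_norm s
  gcongr

theorem norm_sin_le (z : ℂ) : ‖Complex.sin z‖ ≤ Real.exp ‖z‖ := by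
  have h1 : ∀ w : ℂ, ‖w‖ = ‖z‖ → ‖Complex.exp w‖ ≤ Real.exp ‖z‖ := fun w hw => by
    rw [Complex.norm_exp, ← hw]; exact Real.exp_le_exp.mpr (Complex.re_le_norm w)
  have h2 := h1 (-z * I) (by simp)
  have h3 := h1 (z * I) (by simp)
  have h4 := norm_sub_le (Complex.exp (-z * I)) (Complex.exp (z * I))
  rw [Complex.sin, norm_div, norm_mul, norm_I, mul_one]
  simp only [Complex.norm_ofNat]
  linarith

theorem g4 : G4 := by
  refine ⟨24, by norm_num, fun s => ?_, fun s hs => (norm_Gamma_le_exp hs).trans (by gcongr; norm_num)⟩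
  have hs0 := norm_nonneg s
  have p3 := Real.pi_gt_three
  have p4 := Real.pi_lt_four
  rcases le_total s.re (1 / 2) with hs | hs
  · by_cases h0 : Complex.Gamma s = 0
    · rw [h0, inv_zero, norm_zero]; positivity
    have h1 : 1 / 2 ≤ (1 - s).re := by simp only [sub_re, one_re]; linarith
    have h2 : Complex.Gamma (1 - s) ≠ 0 := Complex.Gamma_ne_zero_of_re_pos (by linarith)
    have h3 := Complex.Gamma_mul_Gamma_one_sub s
    have h4 : Complex.sin (Real.pi * s) ≠ 0 := by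
      intro h; rw [h, div_zero] at h3; exact mul_ne_zero h0 h2 h3
    have hpi : (Real.pi : ℂ) ≠ 0 := ofReal_ne_zero.mpr Real.pi_ne_zero
    have h5 : (Complex.Gamma s)⁻¹ = Complex.Gamma (1 - s) * Complex.sin (Real.pi * s) / Real.pi := by
      rw [eq_div_iff h4] at h3
      rw [eq_div_iff hpi, inv_mul_eq_iff_eq_mul₀ h0, ← mul_assoc, h3]
    have h6 := norm_Gamma_le_exp h1
    have h7 := norm_sin_le (Real.pi * s)
    have h8 : ‖1 - s‖ ≤ 1 + ‖s‖ := by simpa using norm_sub_le 1 s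
    rw [norm_mul, Complex.norm_real, Real.norm_eq_abs, abs_of_pos Real.pi_pos] at h7
    rw [h5, norm_div, norm_mul, Complex.norm_real, Real.norm_eq_abs, abs_of_pos Real.pi_pos]
    calc _ ≤ ‖Complex.Gamma (1 - s)‖ * ‖Complex.sin (Real.pi * s)‖ :=
          div_le_self (by positivity) (by linarith)
      _ ≤ Real.exp (5 * (1 + ‖1 - s‖) ^ 2) * Real.exp (Real.pi * ‖s‖) := by gcongr
      _ ≤ _ := by
          rw [← Real.exp_add]; apply Real.exp_le_exp.mpr
          have : (1 + ‖1 - s‖) ^ 2 ≤ (2 * (1 + ‖s‖)) ^ 2 := by gcongr; linarith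
          nlinarith
  · have h1 := norm_Gamma_lower s.im hs
    rw [Complex.re_add_im] at h1
    have h2 : Complex.Gamma s ≠ 0 := Complex.Gamma_ne_zero_of_re_pos (by linarith)
    have h3 : 0 < ‖Complex.Gamma s‖ := norm_pos_iff.mpr h2
    have h4 := Complex.re_le_norm s
    have h5 := Complex.abs_im_le_norm s
    rw [norm_inv, inv_le_comm₀ h3 (Real.exp_pos _), ← Real.exp_neg]
    have h6 : 2 * (s.re * (s.re + 1)) ≤ Real.exp (2 * (1 + ‖s‖) ^ 2) := by
      have := Real.add_one_le_exp (2 * (1 + ‖s‖) ^ 2)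
      have : s.re * (s.re + 1) ≤ (1 + ‖s‖) ^ 2 := by nlinarith
      linarith
    have h7 : Real.exp (-(Real.pi * |s.im| / 2)) ≤ Real.exp (2 * (1 + ‖s‖) ^ 2) * ‖Complex.Gamma s‖ :=
      h1.trans (by gcongr)
    apply le_of_mul_le_mul_left _ (Real.exp_pos (2 * (1 + ‖s‖) ^ 2))
    refine le_trans ?_ h7
    rw [← Real.exp_add]; apply Real.exp_le_exp.mpr
    have : Real.pi * |s.im| ≤ 4 * ‖s‖ := by gcongr
    nlinarith

theorem g5 : G5 := by
  intro F A B N hF ⟨ρ, C0, hord⟩ ⟨C, hC⟩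
  rcases le_or_gt B A with hAB | hAB
  · exact ⟨C, fun s h1 h2 => hC s (Or.inl (by linarith))⟩
  have hC0 : 0 ≤ C := by
    have := hC A (Or.inl (by simp))
    simp only [ofReal_im, abs_zero, add_zero, one_pow, mul_one] at this
    exact (norm_nonneg _).trans this
  set w : ℂ → ℂ := fun s => s - A + 1 with hw
  have hw1 : ∀ s : ℂ, A ≤ s.re → 1 ≤ ‖w s‖ ∧ 1 + |s.im| ≤ 2 * ‖w s‖ := by
    intro s hs
    have h1 := Complex.re_le_norm (w s)
    have h2 := Complex.abs_im_le_norm (w s)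
    simp only [hw, add_re, sub_re, ofReal_re, one_re, add_im, sub_im, ofReal_im, one_im, sub_zero,
      add_zero] at h1 h2 ⊢
    constructor <;> linarith
  have hw2 : ∀ s : ℂ, A ≤ s.re → s.re ≤ B → ‖w s‖ ≤ (B - A + 1) * (1 + |s.im|) := by
    intro s h1 h2
    have h3 := Complex.norm_le_abs_re_add_abs_im (w s)
    simp only [hw, add_re, sub_re, ofReal_re, one_re, add_im, sub_im, ofReal_im, one_im, sub_zero,
      add_zero] at h3 ⊢
    rw [abs_of_pos (by linarith)] at h3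
    nlinarith [abs_nonneg s.im]
  have hline : ∀ s : ℂ, (s.re = A ∨ s.re = B) → ‖F s / w s ^ N‖ ≤ C * 2 ^ N := by
    intro s hs
    have hA : A ≤ s.re := by rcases hs with h | h <;> linarith
    obtain ⟨a1, a2⟩ := hw1 s hA
    rw [norm_div, norm_pow, div_le_iff₀ (by positivity), mul_assoc, ← mul_pow]
    exact (hC s hs).trans (by gcongr)
  have hdiff : DiffContOnCl ℂ (fun s => F s / w s ^ N) (re ⁻¹' Ioo A B) := by
    apply DifferentiableOn.diffContOnCl
    rw [Complex.closure_preimage_re, closure_Ioo hAB.ne]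
    intro s hs
    have a1 := (hw1 s hs.1).1
    have a2 : w s ≠ 0 := by intro h; rw [h, norm_zero] at a1; linarith
    have a3 : DifferentiableAt ℂ (fun s => w s ^ N) s := by simp only [hw]; fun_prop
    exact ((hF s).div a3 (pow_ne_zero _ a2)).differentiableWithinAt
  set c : ℝ := Real.pi / (B - A) / 2 with hc
  have hc0 : 0 < Real.pi / (B - A) := div_pos Real.pi_pos (by linarith)
  have hc1 : 0 < c := by positivity
  set n := ⌈ρ⌉₊
  set M := |A| + |B|
  have hgrow : (fun s => F s / w s ^ N) =O[comap (_root_.abs ∘ im) atTop ⊓ 𝓟 (re ⁻¹' Ioo A B)]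
      fun z => Real.exp ((n.factorial / c ^ n * Real.exp (c * M)) * Real.exp (c * |z.im|)) := by
    refine IsBigO.of_bound C0 ?_
    rw [eventually_inf_principal]
    have : ∀ᶠ s : ℂ in comap (_root_.abs ∘ im) atTop, 1 ≤ |s.im| :=
      (tendsto_comap (f := _root_.abs ∘ im)).eventually (eventually_ge_atTop 1)
    filter_upwards [this] with s hs hstrip
    have a1 := (hw1 s hstrip.1.le).1
    have a2 : 1 ≤ ‖s‖ := hs.trans (Complex.abs_im_le_norm s)
    have a3 : ‖s‖ ≤ M + |s.im| := by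
      have h3 := Complex.norm_le_abs_re_add_abs_im s
      have : |s.re| ≤ M := abs_le.mpr
        ⟨by linarith [neg_abs_le A, abs_nonneg B, hstrip.1], by linarith [le_abs_self B, abs_nonneg A, hstrip.2]⟩
      linarith
    have a4 : ‖s‖ ^ ρ ≤ (M + |s.im|) ^ n := by
      calc _ ≤ ‖s‖ ^ (n : ℝ) := Real.rpow_le_rpow_of_exponent_le a2 (Nat.le_ceil ρ)
        _ = ‖s‖ ^ n := Real.rpow_natCast _ _
        _ ≤ _ := by gcongr
    have a5 := Real.pow_div_factorial_le_exp (c * (M + |s.im|)) (by nlinarith) n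
    have a6 : (M + |s.im|) ^ n ≤ (n.factorial / c ^ n * Real.exp (c * M)) * Real.exp (c * |s.im|) := by
      rw [mul_assoc, ← Real.exp_add, ← mul_add, div_mul_eq_mul_div, le_div_iff₀ (by positivity)]
      rw [div_le_iff₀ (by positivity), mul_pow] at a5
      linarith
    have hC00 : 0 ≤ C0 := by
      have := (norm_nonneg _).trans (hord s)
      exact nonneg_of_mul_nonneg_left this (Real.exp_pos _)
    rw [norm_div, norm_pow, Real.norm_eq_abs, abs_of_pos (Real.exp_pos _)]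
    calc _ ≤ ‖F s‖ := div_le_self (norm_nonneg _) (one_le_pow₀ a1)
      _ ≤ _ := hord s
      _ ≤ _ := by gcongr; exact a4.trans a6
  refine ⟨C * 2 ^ N * (B - A + 1) ^ N, fun s h1 h2 => ?_⟩
  have key := PhragmenLindelof.vertical_strip hdiff ⟨c, by linarith, _, hgrow⟩
    (fun z hz => hline z (Or.inl hz)) (fun z hz => hline z (Or.inr hz)) h1 h2
  have a1 := (hw1 s h1).1
  rw [norm_div, norm_pow, div_le_iff₀ (by positivity)] at key
  rw [mul_assoc, ← mul_pow]
  exact key.trans (by gcongr; exact hw2 s h1 h2)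

end Pool.Agent.H49.Sel
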