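import Pool.Agent.Lead.KK.Spec
import Pool.Agent.H49.SelG45

set_option autoImplicit false
open Complex Set Filter Topology

namespace Pool.Agent.H49.KK
open Pool.Agent.Lead.Sel Pool.Agent.Lead.KK

theorem normsq_shift {w : ℂ} (hw : w.re = 2) (j : ℕ) : ‖w + j‖ ^ 2 = (2 + j) ^ 2 + |w.im| ^ 2 := by
  rw [Complex.sq_norm, Complex.normSq_apply, sq_abs]
  simp [hw]; ring

theorem shift_ne {w : ℂ} (hw : w.re = 2) (j : ℕ) : w + j ≠ 0 := by
  intro h
  have := congrArg re h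
  have h2 : (0 : ℝ) ≤ j := Nat.cast_nonneg j
  simp [hw] at this; linarith

theorem sum_inv_sq {w : ℂ} (hw : w.re = 2) (hY : 0 < |w.im|) (n : ℕ) :
    ∑ j ∈ Finset.range n, (‖w + j‖ ^ 2)⁻¹ ≤ 2 / |w.im| := by
  have : ∑ j ∈ Finset.range n, (‖w + j‖ ^ 2)⁻¹ ≤ 2 / |w.im| - 2 / (|w.im| + n) := by
    induction n with
    | zero => simp
    | succ n ih =>
      rw [Finset.sum_range_succ, normsq_shift hw]
      generalize |w.im| = Y at *
      have hn : (0 : ℝ) ≤ n := Nat.cast_nonneg n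
      have : ((2 + n) ^ 2 + Y ^ 2 : ℝ)⁻¹ ≤ 2 / (Y + n) - 2 / (Y + (n + 1)) := by
        rw [div_sub_div _ _ (by positivity) (by positivity), inv_eq_one_div,
          div_le_div_iff₀ (by positivity) (by positivity)]
        nlinarith [sq_nonneg (Y - n - 1), mul_nonneg hn hY.le]
      push_cast
      linarith
  have h2 : 0 ≤ 2 / (|w.im| + n) := by positivity
  linarith

noncomputable def Kn (w : ℂ) (n : ℕ) : ℂ :=
  (Real.log n : ℂ) - ∑ j ∈ Finset.range (n + 1), (w + j)⁻¹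

theorem Kn_tendsto {w : ℂ} (hw : w.re = 2) : ∃ K, Tendsto (Kn w) atTop (𝓝 K) := by
  have h1 : Summable fun j : ℕ => ((j : ℂ) + 1)⁻¹ - (w + j)⁻¹ := by
    have h0 : Summable fun j : ℕ => ‖w - 1‖ * (1 / ((j + 1 : ℕ) : ℝ) ^ 2) :=
      ((summable_nat_add_iff 1).2 (Real.summable_one_div_nat_pow.2 one_lt_two)).mul_left _
    refine Summable.of_norm_bounded h0 fun j => ?_
    have e1 : ((j : ℂ) + 1) ≠ 0 := by exact_mod_cast Nat.succ_ne_zero j
    have e2 := shift_ne hw j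
    have e3 : ‖(j : ℂ) + 1‖ = (j : ℝ) + 1 := by
      rw [show (j : ℂ) + 1 = ((j + 1 : ℕ) : ℂ) by push_cast; rfl, Complex.norm_natCast]; simp
    have e4 : (j : ℝ) + 1 ≤ ‖w + j‖ := by
      have := Complex.re_le_norm (w + j)
      simp [hw] at this; linarith
    rw [show ((j : ℂ) + 1)⁻¹ - (w + j)⁻¹ = (w - 1) / ((j + 1) * (w + j)) by field_simp; ring,
      norm_div, norm_mul, e3, mul_one_div]
    push_cast
    rw [sq]
    gcongr
  have h2 := (tendsto_add_atTop_iff_nat 1).2 h1.hasSum.tendsto_sum_nat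
  have h3 : Tendsto (fun n : ℕ => Real.log n - (harmonic (n + 1) : ℝ)) atTop
      (𝓝 (-Real.eulerMascheroniConstant - 0)) := by
    have a1 := Real.tendsto_harmonic_sub_log.neg
    have a2 : Tendsto (fun n : ℕ => 1 / ((n : ℝ) + 1)) atTop (𝓝 0) :=
      tendsto_one_div_add_atTop_nhds_zero_nat
    refine (a1.sub a2).congr fun n => ?_
    rw [harmonic_succ]; push_cast; ring
  refine ⟨_, ((tendsto_ofReal_iff.2 h3).add h2).congr fun n => ?_⟩
  simp only [Kn, Finset.sum_sub_distrib, harmonic]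
  push_cast
  ring

theorem ratio_eq {w k : ℂ} (hw : w.re = 2) (hk : ‖k‖ ≤ |w.im| / 2) {n : ℕ} (hn : n ≠ 0) :
    ∃ r : ℂ, ‖r‖ ≤ 2 * ‖k‖ ^ 2 / |w.im| ∧
      GammaSeq (w + k) n / (GammaSeq w n * Complex.exp (k * Kn w n)) = Complex.exp r := by
  rcases (abs_nonneg w.im).eq_or_lt with h0 | hY
  · have : k = 0 := by rw [← h0] at hk; simpa using hk
    subst this
    refine ⟨0, by simp, ?_⟩
    have : GammaSeq w n ≠ 0 := by
      rw [GammaSeq]
      refine div_ne_zero (mul_ne_zero ?_ ?_) (Finset.prod_ne_zero_iff.2 fun j _ => shift_ne hw j)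
      · rw [Ne, cpow_eq_zero_iff]; simp [hn]
      · exact_mod_cast Nat.factorial_ne_zero n
    simp [this]
  have hz : ∀ j : ℕ, ‖k * (w + j)⁻¹‖ ≤ 1 / 2 := fun j => by
    have e4 : |w.im| ≤ ‖w + j‖ := by simpa using Complex.abs_im_le_norm (w + j)
    rw [norm_mul, norm_inv, ← div_eq_mul_inv, div_le_iff₀ (by linarith)]
    linarith
  have hne : ∀ j : ℕ, 1 + k * (w + j)⁻¹ ≠ 0 := fun j h => by
    have h1 := hz j
    rw [show k * (w + j)⁻¹ = -1 by linear_combination h] at h1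
    norm_num at h1
  refine ⟨-∑ j ∈ Finset.range (n + 1), (Complex.log (1 + k * (w + j)⁻¹) - k * (w + j)⁻¹), ?_, ?_⟩
  · rw [norm_neg]
    refine (norm_sum_le _ _).trans ?_
    calc _ ≤ ∑ j ∈ Finset.range (n + 1), ‖k‖ ^ 2 * (‖w + j‖ ^ 2)⁻¹ := by
          refine Finset.sum_le_sum fun j _ => ?_
          have h1 := hz j
          refine (Complex.norm_log_one_add_sub_self_le (by linarith)).trans ?_
          have h2 : (1 - ‖k * (w + j)⁻¹‖)⁻¹ ≤ 2 := by
            rw [inv_le_comm₀ (by linarith) two_pos]; linarith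
          have h3 : ‖k‖ ^ 2 * (‖w + j‖ ^ 2)⁻¹ = ‖k * (w + j)⁻¹‖ ^ 2 := by
            rw [norm_mul, norm_inv, mul_pow, inv_pow]
          rw [h3]
          nlinarith [sq_nonneg ‖k * (w + j)⁻¹‖]
      _ ≤ ‖k‖ ^ 2 * (2 / |w.im|) := by
          rw [← Finset.mul_sum]
          exact mul_le_mul_of_nonneg_left (sum_inv_sq hw hY _) (by positivity)
      _ = _ := by ring
  · have hn' : (n : ℂ) ≠ 0 := Nat.cast_ne_zero.2 hn
    have e1 : ∏ j ∈ Finset.range (n + 1), (w + k + j) = (∏ j ∈ Finset.range (n + 1), (w + j)) *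
        Complex.exp (∑ j ∈ Finset.range (n + 1), Complex.log (1 + k * (w + j)⁻¹)) := by
      rw [Complex.exp_sum, ← Finset.prod_mul_distrib]
      refine Finset.prod_congr rfl fun j _ => ?_
      have := shift_ne hw j
      rw [Complex.exp_log (hne j)]; field_simp; ring
    have e2 : (n : ℂ) ^ (w + k) = (n : ℂ) ^ w * Complex.exp (k * Real.log n) := by
      rw [cpow_add _ _ hn', cpow_def_of_ne_zero hn' k, mul_comm k, Complex.natCast_log]
    have e3 : (n : ℂ) ^ w ≠ 0 := by rw [Ne, cpow_eq_zero_iff]; simp [hn]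
    have e4 : ((n.factorial : ℕ) : ℂ) ≠ 0 := by exact_mod_cast Nat.factorial_ne_zero n
    have e5 : ∏ j ∈ Finset.range (n + 1), (w + j) ≠ 0 :=
      Finset.prod_ne_zero_iff.2 fun j _ => shift_ne hw j
    rw [GammaSeq, GammaSeq, e1, e2, Kn, Finset.sum_sub_distrib, ← Finset.mul_sum, mul_sub,
      neg_sub, Complex.exp_sub, Complex.exp_sub]
    have := Complex.exp_ne_zero
    field_simp

theorem core {w : ℂ} (hw : w.re = 2) (hY : 8 ≤ |w.im|) : ∃ K : ℂ, |K.im| ≤ 2 ∧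
    |K.re - Real.log ‖w‖| ≤ 1 ∧ ∀ k : ℂ, ‖k‖ ≤ |w.im| / 2 →
      ‖Gamma (w + k) / (Gamma w * Complex.exp (k * K))‖ ≤ Real.exp (2 * ‖k‖ ^ 2 / |w.im|) ∧
      (2 * ‖k‖ ^ 2 / |w.im| ≤ 1 →
        ‖Gamma (w + k) / (Gamma w * Complex.exp (k * K)) - 1‖ ≤ 2 * (2 * ‖k‖ ^ 2 / |w.im|)) := by
  obtain ⟨K, hK⟩ := Kn_tendsto hw
  have g0 : Gamma w ≠ 0 := Complex.Gamma_ne_zero_of_re_pos (by rw [hw]; norm_num)
  have main : ∀ k : ℂ, ‖k‖ ≤ |w.im| / 2 →
      ‖Gamma (w + k) / (Gamma w * Complex.exp (k * K))‖ ≤ Real.exp (2 * ‖k‖ ^ 2 / |w.im|) ∧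
      (2 * ‖k‖ ^ 2 / |w.im| ≤ 1 →
        ‖Gamma (w + k) / (Gamma w * Complex.exp (k * K)) - 1‖ ≤ 2 * (2 * ‖k‖ ^ 2 / |w.im|)) := by
    intro k hk
    have t := (GammaSeq_tendsto_Gamma (w + k)).div ((GammaSeq_tendsto_Gamma w).mul
      (hK.const_mul k).cexp) (mul_ne_zero g0 (Complex.exp_ne_zero _))
    refine ⟨le_of_tendsto t.norm ?_, fun h1 => le_of_tendsto (t.sub_const 1).norm ?_⟩
    · filter_upwards [eventually_ne_atTop 0] with n hn
      obtain ⟨r, r1, r2⟩ := ratio_eq hw hk hn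
      rw [Pi.div_apply, r2]
      exact (Complex.norm_exp_le_exp_norm r).trans (Real.exp_le_exp.2 r1)
    · filter_upwards [eventually_ne_atTop 0] with n hn
      obtain ⟨r, r1, r2⟩ := ratio_eq hw hk hn
      rw [Pi.div_apply, r2]
      linarith [Complex.norm_exp_sub_one_le (r1.trans h1)]
  refine ⟨K, ?_, ?_, main⟩
  · refine le_of_tendsto' (((continuous_im.tendsto K).comp hK).abs) fun n => ?_
    simp only [Function.comp, Kn, sub_im, ofReal_im, zero_sub, abs_neg, im_sum]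
    refine (Finset.abs_sum_le_sum_abs _ _).trans ?_
    calc _ = |w.im| * ∑ j ∈ Finset.range (n + 1), (‖w + j‖ ^ 2)⁻¹ := by
          rw [Finset.mul_sum]
          refine Finset.sum_congr rfl fun j _ => ?_
          rw [inv_im, abs_div, abs_neg, abs_of_nonneg (normSq_nonneg _), Complex.sq_norm]
          simp [div_eq_mul_inv]
      _ ≤ |w.im| * (2 / |w.im|) :=
          mul_le_mul_of_nonneg_left (sum_inv_sq hw (by linarith) _) (abs_nonneg _)
      _ = 2 := by field_simp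
  · have w0 : w ≠ 0 := by simpa using shift_ne hw 0
    have a1 : 2 * ‖(1 : ℂ)‖ ^ 2 / |w.im| ≤ 1 / 4 := by
      rw [div_le_iff₀ (by linarith)]; simp; linarith
    have a2 := (main 1 (by simp; linarith)).2 (by linarith)
    rw [Complex.Gamma_add_one _ w0, one_mul, mul_comm w, mul_div_mul_left _ _ g0] at a2
    have a3 := abs_norm_sub_norm_le (w / Complex.exp K) 1
    rw [norm_one, norm_div, Complex.norm_exp, ← Real.exp_log (norm_pos_iff.2 w0),
      ← Real.exp_sub] at a3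
    obtain ⟨a4, a5⟩ := abs_le.1 (a3.trans (a2.trans (by linarith : _ ≤ (1 / 2 : ℝ))))
    have b1 := Real.add_one_le_exp (Real.log ‖w‖ - K.re)
    have b2 := Real.add_one_le_exp (K.re - Real.log ‖w‖)
    have b3 : Real.exp (Real.log ‖w‖ - K.re) * Real.exp (K.re - Real.log ‖w‖) = 1 := by
      rw [← Real.exp_add]; simp
    have b4 := Real.exp_pos (K.re - Real.log ‖w‖)
    rw [abs_le]
    constructor <;> nlinarith

theorem gam_ratio (s h K : ℂ) (h1 : s - 1 ≠ 0) :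
    gam (s + h) / (gam s * Complex.exp ((K - Real.log Real.pi) / 2 * h)) =
      (1 + h / (s - 1)) *
        (Gamma (s / 2 + 1 + h / 2) / (Gamma (s / 2 + 1) * Complex.exp (h / 2 * K))) := by
  have hp : (Real.pi : ℂ) ≠ 0 := ofReal_ne_zero.mpr Real.pi_ne_zero
  have e1 : (Real.pi : ℂ) ^ (-((s + h) / 2)) =
      (Real.pi : ℂ) ^ (-(s / 2)) / Complex.exp (h / 2 * Real.log Real.pi) := by
    rw [cpow_def_of_ne_zero hp, cpow_def_of_ne_zero hp, ← Complex.exp_sub, ofReal_log Real.pi_pos.le]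
    congr 1; ring
  have e2 : (Real.pi : ℂ) ^ (-(s / 2)) ≠ 0 := by rw [Ne, cpow_eq_zero_iff]; simp [Real.pi_ne_zero]
  have e3 : Complex.exp ((K - Real.log Real.pi) / 2 * h) =
      Complex.exp (h / 2 * K) / Complex.exp (h / 2 * Real.log Real.pi) := by
    rw [← Complex.exp_sub]; congr 1; ring
  rw [gam, gam, e1, e3, show (s + h) / 2 + 1 = s / 2 + 1 + h / 2 by ring]
  have := Complex.exp_ne_zero
  field_simp
  ring

theorem gamb (g3 : G3) : GAM := by
  obtain ⟨c, C0, hc, -, hG⟩ := g3 2 2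
  have hc' : 0 < c⁻¹ := inv_pos.2 hc
  refine ⟨20 + c⁻¹, 2000, by linarith, fun τ hτ => ?_⟩
  set w : ℂ := (2 + τ * I) / 2 + 1 with hwdef
  have hw : w.re = 2 := by simp [hwdef]; norm_num
  have hwi : w.im = τ / 2 := by simp [hwdef]
  have hY : |w.im| = |τ| / 2 := by rw [hwi, abs_div]; simp
  have hs1 : |τ| ≤ ‖(2 + τ * I - 1 : ℂ)‖ := by simpa using Complex.abs_im_le_norm (2 + τ * I - 1)
  have hs0 : (2 + τ * I - 1 : ℂ) ≠ 0 := norm_pos_iff.1 (by linarith)
  have g0 : Gamma w ≠ 0 := Complex.Gamma_ne_zero_of_re_pos (by rw [hw]; norm_num)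
  have gl : c * Real.exp (-|τ|) ≤ ‖Gamma w‖ := by
    have := (hG 2 w.im le_rfl le_rfl (by linarith)).1
    rw [show ((2 : ℝ) : ℂ) + w.im * I = w by rw [← hw]; exact re_add_im w] at this
    refine le_trans ?_ this
    rw [mul_assoc]
    refine mul_le_mul_of_nonneg_left ?_ hc.le
    have a1 : 1 ≤ |w.im| ^ ((2 : ℝ) - 3 / 2) := Real.one_le_rpow (by linarith) (by norm_num)
    have a2 : Real.exp (-|τ|) ≤ Real.exp (-(Real.pi * |w.im| / 2)) := by
      rw [Real.exp_le_exp, hY]; nlinarith [Real.pi_le_four]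
    nlinarith [Real.exp_pos (-|τ|)]
  obtain ⟨K, k1, k2, k3⟩ := core hw (by linarith)
  have w1 : |τ| / 2 ≤ ‖w‖ := hY ▸ Complex.abs_im_le_norm w
  have w2 : ‖w‖ ≤ |τ| := by
    have := Complex.norm_le_abs_re_add_abs_im w
    rw [hw, hY, abs_two] at this; linarith
  rw [hY] at k3
  generalize |τ| = T at *
  have T0 : 0 < T := by linarith
  have l1 : Real.log ‖w‖ ≤ Real.log T := Real.log_le_log (by linarith) w2
  have l2 : Real.log T - 1 ≤ Real.log ‖w‖ := by
    have := Real.log_le_log (by linarith) w1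
    rw [Real.log_div T0.ne' two_ne_zero] at this
    linarith [Real.log_two_lt_d9]
  have l3 : 1 ≤ Real.log ‖w‖ := by
    rw [Real.le_log_iff_exp_le (by linarith)]; linarith [Real.exp_one_lt_d9]
  have l4 : Real.log Real.pi ≤ 3 := by
    linarith [Real.log_le_sub_one_of_pos Real.pi_pos, Real.pi_le_four]
  have l5 : 0 ≤ Real.log Real.pi := Real.log_nonneg (by linarith [Real.pi_gt_three])
  obtain ⟨k4, k5⟩ := abs_le.1 k2
  set v := T ^ (1 / 3 : ℝ) with hv
  have v0 : 0 < v := Real.rpow_pos_of_pos T0 _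
  have v3 : v ^ 3 = T := by
    rw [hv, ← Real.rpow_natCast, ← Real.rpow_mul T0.le]; norm_num
  have v1 : 12 ≤ v := by
    by_contra h
    have := pow_le_pow_left₀ v0.le (not_le.1 h).le 3
    linarith
  have v2 : 12 * v ^ 2 ≤ T := by nlinarith
  have v4 : 144 * v ≤ T := by nlinarith
  have vu : T ^ (-(1 / 3) : ℝ) = v⁻¹ := by rw [Real.rpow_neg T0.le]
  refine ⟨(K - Real.log Real.pi) / 2, ?_, ?_, ?_, fun h h0 h1 => ?_⟩
  · simp only [div_ofNat_re, sub_re, ofReal_re]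
    rw [abs_le]; constructor <;> linarith
  · simp only [div_ofNat_im, sub_im, ofReal_im, sub_zero, abs_div, abs_two]
    linarith
  · refine mul_ne_zero (mul_ne_zero hs0 ?_) g0
    rw [Ne, cpow_eq_zero_iff]; simp [Real.pi_ne_zero]
  rw [gam_ratio _ _ _ hs0, ← hwdef, vu]
  have n1 : ‖h‖ ≤ v + |h.im| := by
    have := Complex.norm_le_abs_re_add_abs_im h
    rw [abs_of_nonneg h0] at this; linarith
  have n2 : ‖h‖ ^ 2 ≤ v ^ 2 + h.im ^ 2 := by
    rw [Complex.sq_norm, Complex.normSq_apply]; nlinarith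
  have n3 : ‖h / (2 + τ * I - 1)‖ ≤ ‖h‖ / T := by rw [norm_div]; gcongr
  have n4 : ‖1 + h / (2 + τ * I - 1)‖ ≤ 1 + ‖h‖ / T := by
    linarith [norm_add_le 1 (h / (2 + τ * I - 1)), norm_one (α := ℂ)]
  have n5 : ‖h / 2‖ = ‖h‖ / 2 := by simp
  have n6 : 2 * ‖h / 2‖ ^ 2 / (T / 2) = ‖h‖ ^ 2 / T := by rw [n5]; field_simp
  have e1 := Real.exp_pos (h.im ^ 2 / 4)
  constructor
  · rw [norm_mul]
    rcases le_total |h.im| (T / 4) with hc1 | hc1
    · have a1 := (k3 (h / 2) (by linarith)).1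
      have a2 : ‖h‖ ^ 2 / T ≤ 1 + h.im ^ 2 / 4 := by
        rw [div_le_iff₀ T0]; nlinarith [sq_nonneg h.im]
      have a3 : ‖h‖ / T ≤ 1 := by rw [div_le_iff₀ T0]; linarith
      rw [n6] at a1
      have a4 := a1.trans (Real.exp_le_exp.2 a2)
      rw [Real.exp_add] at a4
      calc _ ≤ 2 * (Real.exp 1 * Real.exp (h.im ^ 2 / 4)) := by gcongr; linarith
        _ ≤ _ := by nlinarith [Real.exp_one_lt_d9]
    · have a1 : ‖Gamma (w + h / 2)‖ ≤ Real.exp (20 * T) := by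
        have r1 : (w + h / 2).re = 2 + h.re / 2 := by simp [hw]
        refine (Sel.norm_Gamma_le (by rw [r1]; linarith)).trans
          ((Sel.Gamma_le_exp (by rw [r1]; linarith)).trans (Real.exp_le_exp.2 ?_))
        rw [r1]; nlinarith
      have a2 : Real.exp (-|h.im|) ≤ ‖Complex.exp (h / 2 * K)‖ := by
        rw [Complex.norm_exp, Real.exp_le_exp, mul_re, div_ofNat_re, div_ofNat_im]
        have b1 : h.im * K.im ≤ |h.im| * 2 :=
          (le_abs_self _).trans (by rw [abs_mul]; gcongr)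
        nlinarith [mul_nonneg h0 (by linarith : 0 ≤ K.re)]
      have a3 : 1 + ‖h‖ / T ≤ Real.exp (2 * |h.im|) := by
        have : ‖h‖ / T ≤ ‖h‖ := div_le_self (norm_nonneg _) (by linarith)
        linarith [Real.add_one_le_exp (2 * |h.im|)]
      rw [norm_div, norm_mul]
      calc _ ≤ Real.exp (2 * |h.im|) *
            (Real.exp (20 * T) / (c * Real.exp (-T) * Real.exp (-|h.im|))) := by
            gcongr; exact n4.trans a3
        _ = c⁻¹ * Real.exp (2 * |h.im| + 20 * T + T + |h.im|) := by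
            simp only [Real.exp_add, Real.exp_neg]; field_simp
        _ ≤ c⁻¹ * Real.exp (h.im ^ 2 / 4) := by
            gcongr
            rw [← sq_abs]; nlinarith
        _ ≤ _ := by nlinarith
  · intro hi
    have a0 : ‖h‖ ^ 2 / T ≤ 2 * v⁻¹ := by
      have : h.im ^ 2 ≤ v ^ 2 := by rw [← sq_abs]; gcongr
      rw [div_le_iff₀ T0, ← v3, show 2 * v⁻¹ * v ^ 3 = 2 * v ^ 2 by field_simp]
      linarith
    have u1 : v⁻¹ ≤ 1 / 12 := by rw [one_div]; gcongr
    have u0 : 0 < v⁻¹ := inv_pos.2 v0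
    have a1 := (k3 (h / 2) (by linarith)).2 (by linarith)
    have a2 : ‖h‖ / T ≤ v⁻¹ := by
      rw [div_le_iff₀ T0, ← v3, show v⁻¹ * v ^ 3 = v ^ 2 by field_simp]
      nlinarith
    rw [n6] at a1
    generalize Gamma (w + h / 2) / (Gamma w * Complex.exp (h / 2 * K)) = R at a1 ⊢
    generalize h / (2 + τ * I - 1) = a at n3 ⊢
    have a3 : ‖a * (R - 1)‖ ≤ v⁻¹ * 1 := by
      rw [norm_mul]; gcongr <;> linarith
    rw [show (1 + a) * R - 1 = (R - 1) + a + a * (R - 1) by ring]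
    have a4 := norm_add₃_le (a := R - 1) (b := a) (c := a * (R - 1))
    nlinarith [mul_pos hc' u0]

end Pool.Agent.H49.KK
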