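import Mathlib
import Pool.Agent.H49.MD9

/-! Every finite word is close to a word with no large Moebius correlations. -/

set_option autoImplicit false

namespace Pool.Agent.H49.MD

open Finset Filter Topology ArithmeticFunction

/-- Shift by `m` places. -/
def sh (m : ℕ) (x : ℕ → Bool) : ℕ → Bool := fun i => x (m + i)

/-- Erase the first `p` letters. -/
def zp (p : ℕ) (x : ℕ → Bool) : ℕ → Bool := fun i => if i < p then false else x i

/-- Indicator that the word `w` occurs at place `t`. -/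
noncomputable def ind (k : ℕ) (w : Fin k → Bool) (x : ℕ → Bool) (t : ℕ) : ℂ :=
  if (fun i : Fin k => x (t + i)) = w then 1 else 0

/-- Correlation of a cylinder with the Moebius function. -/
noncomputable def Sm (k : ℕ) (w : Fin k → Bool) (N : ℕ) (x : ℕ → Bool) : ℂ :=
  ∑ n ∈ range N, (moebius n : ℂ) * ind k w x n

/-- A large correlation at level `k`. -/
def B (G : ℕ → ℕ) (k c : ℕ) (x : ℕ → Bool) : Prop := ∃ w : Fin k → Bool, w ≠ (fun _ => false) ∧
  ∃ N, G k ≤ N ∧ (N : ℝ) / 4 ^ k - c * k < ‖Sm k w N x‖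

lemma Sm_close {k p N : ℕ} {w : Fin k → Bool} {x y : ℕ → Bool} (h : ∀ i, p ≤ i → x i = y i) :
    ‖Sm k w N x‖ ≤ ‖Sm k w N y‖ + p := by
  refine (norm_le_norm_add_norm_sub' _ (Sm k w N y)).trans (add_le_add_right ?_ _)
  rw [Sm, Sm, ← sum_sub_distrib]
  refine (norm_sum_le_of_le _ (n := fun n => if n < p then 1 else 0) fun n _ => ?_).trans ?_
  · rw [← mul_sub, norm_mul]
    refine (mul_le_of_le_one_left (norm_nonneg _) (mu_le n)).trans ?_
    split_ifs with a
    · unfold ind; split_ifs <;> simp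
    · unfold ind
      rw [show (fun i : Fin k => x (n + i)) = fun i : Fin k => y (n + i) from
        funext fun i => h _ (by omega), sub_self, norm_zero]
  · rw [sum_boole]
    exact_mod_cast (card_le_card (t := range p) fun n hn => mem_range.2 (mem_filter.1 hn).2).trans
      (card_range p).le

lemma Sm_zero {k N : ℕ} {w : Fin k → Bool} (h : w ≠ fun _ => false) :
    Sm k w N (fun _ => false) = 0 := sum_eq_zero fun n _ => by rw [ind, if_neg h.symm, mul_zero]

lemma B.mono {G : ℕ → ℕ} {k c p : ℕ} {x y : ℕ → Bool} (b : B G k c x) (h : ∀ i, p ≤ i → x i = y i)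
    (hp : p ≤ k) : B G k (c + 1) y := by
  obtain ⟨w, a, N, b, d⟩ := b
  have : (p : ℝ) ≤ k := by exact_mod_cast hp
  exact ⟨w, a, N, b, by push_cast; linarith [Sm_close (N := N) (w := w) h]⟩

theorem greedy {G : ℕ → ℕ} (hG : ∀ k, 4 ^ k * (4 * k) ≤ G k) (L : ℕ) : ∀ x : ℕ → Bool,
    (∀ i, L ≤ i → x i = false) → ∃ y : ℕ → Bool, (∀ i, L ≤ i → y i = false) ∧
      (∀ m p k, B G k 0 (zp p (sh m y)) → ∀ i, i < k → zp p (sh m y) i = false) ∧
      ∀ j, y j ≠ x j → ∃ m k, m ≤ j ∧ j < m + k ∧ (∀ i, i < k → y (m + i) = false) ∧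
        B G k 2 (sh m y) := by
  classical
  induction L with
  | zero => exact fun x hx => ⟨x, hx, fun m p k _ i _ => by simp [zp, sh, hx], fun j h => absurd rfl h⟩
  | succ L ih =>
  intro x hx
  obtain ⟨y0, s0, g0, w0⟩ := ih (sh 1 x) fun i hi => hx _ (by omega)
  set y1 : ℕ → Bool := fun i => Nat.casesOn i (x 0) y0 with hy1
  have s1 : ∀ i, L + 1 ≤ i → y1 i = false := fun i hi => by
    obtain ⟨i, rfl⟩ : ∃ j, i = j + 1 := ⟨i - 1, by omega⟩
    exact s0 i (by omega)
  set k0 := Nat.findGreatest (fun k => B G k 1 y1) (L + 1) with hk0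
  have bd : ∀ k, B G k 1 y1 → k ≤ k0 := fun k hk => Nat.le_findGreatest (by
    obtain ⟨w, a, N, b, d⟩ := hk
    have c := Sm_close (N := N) (w := w) s1
    rw [Sm_zero a, norm_zero] at c
    have e : (4 * k : ℝ) ≤ N / 4 ^ k := by
      rw [le_div_iff₀' (by positivity)]; exact_mod_cast (hG k).trans b
    have : (k : ℝ) ≤ (L + 1 : ℕ) := by push_cast at *; linarith [(Nat.cast_nonneg k : (0 : ℝ) ≤ k)]
    exact_mod_cast this) hk
  refine ⟨zp k0 y1, fun i hi => by simp [zp, s1 i hi], fun m p k b i hi => ?_, fun j hj => ?_⟩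
  · rcases m with _ | m
    · by_contra c
      simp only [zp, sh, zero_add] at c
      have := bd k (b.mono (p := max p k0) (fun i hi => by
        rw [max_le_iff] at hi
        simp only [zp, sh, zero_add, if_neg (not_lt.2 hi.1), if_neg (not_lt.2 hi.2)]) (by
          rw [max_le_iff]; constructor <;> by_contra d <;> simp at c
          all_goals omega))
      exact c (by rw [if_pos (show i < k0 by omega)]; simp)
    · have e : zp p (sh (m + 1) (zp k0 y1)) = zp (max p (k0 - (m + 1))) (sh m y0) := by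
        funext i
        simp only [zp, sh, hy1, show m + 1 + i = m + i + 1 by ring, lt_max_iff]
        split_ifs <;> first | rfl | omega
      rw [e] at b ⊢
      exact g0 _ _ _ b i hi
  by_cases a : j < k0
  · refine ⟨0, k0, Nat.zero_le _, by omega, fun i hi => by simp [zp, hi], ?_⟩
    exact (Nat.findGreatest_of_ne_zero hk0.symm (by omega) : B G k0 1 y1).mono (p := k0)
      (fun i hi => by simp [sh, zp, not_lt.2 hi]) le_rfl
  rw [zp, if_neg a] at hj
  rcases j with _ | j
  · exact absurd rfl hj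
  obtain ⟨m, k, b1, b2, b3, b4⟩ := w0 j (by rwa [sh, add_comm])
  have e : sh (m + 1) (zp k0 y1) = sh m y0 := by
    funext i
    simp only [zp, sh, hy1, show m + 1 + i = m + i + 1 by ring]
    split_ifs with c
    · exact (b3 i (by omega)).symm
    · rfl
  exact ⟨m + 1, k, by omega, by omega, fun i hi => (congrFun e i).trans (b3 i hi), e ▸ b4⟩

theorem approx : ∃ G : ℕ → ℕ, ∀ (L : ℕ) (x : ℕ → Bool), (∀ i, L ≤ i → x i = false) →
    ∃ y : ℕ → Bool, (∀ m k, B G k 0 (sh m y) → ∀ i, i < k → y (m + i) = false) ∧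
      (((range L).filter fun j => y j ≠ x j).card : ℝ) ≤ L / 16 := by
  classical
  choose H hH using fun k : ℕ => maxi (1 / (2 * 4 ^ k)) (1 / (32 * (k + 1) * 4 ^ k))
    (by positivity) (by positivity)
  set G : ℕ → ℕ := fun k => 4 ^ k * (4 * k) + H k with hG
  refine ⟨G, fun L x hx => ?_⟩
  obtain ⟨y, s, g, w⟩ := greedy (G := G) (fun k => Nat.le_add_right _ _) L x hx
  refine ⟨y, fun m k b i hi => g m 0 k b i hi, ?_⟩
  choose! fm fk a1 a2 _ a4 using w
  set A := (range L).filter fun j => y j ≠ x j with hA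
  have sub : A ⊆ (range (A.sup fk + 1)).biUnion fun k => (univ.filter
      fun w : Fin k → Bool => w ≠ fun _ => false).biUnion fun w => ((range L).filter fun m =>
        ∃ N, H k ≤ N ∧ 1 / (2 * 4 ^ k) * N < ‖∑ n ∈ range N, (moebius n : ℂ) *
          ind k w y (m + n)‖).biUnion fun m => Ico m (m + k) := fun j hj => by
    obtain ⟨j1, j2⟩ := mem_filter.1 hj
    obtain ⟨w, b1, N, b2, b3⟩ := a4 j j2
    refine mem_biUnion.2 ⟨fk j, mem_range.2 (Nat.lt_succ_of_le (le_sup hj)), mem_biUnion.2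
      ⟨w, by simpa using b1, mem_biUnion.2 ⟨fm j, mem_filter.2 ⟨mem_range.2
        ((a1 j j2).trans_lt (mem_range.1 j1)), N, (Nat.le_add_left _ _).trans b2, ?_⟩,
        mem_Ico.2 ⟨a1 j j2, a2 j j2⟩⟩⟩⟩
    have e : (4 * fk j : ℝ) ≤ N / 4 ^ fk j := by
      rw [le_div_iff₀' (by positivity)]; exact_mod_cast (Nat.le_add_right _ _).trans b2
    simp only [Sm, ind, sh, ← add_assoc] at b3 ⊢
    rw [show 1 / (2 * 4 ^ fk j) * (N : ℝ) = N / 4 ^ fk j / 2 by ring]
    push_cast at b3; linarith
  refine (Nat.cast_le.2 ((card_le_card sub).trans card_biUnion_le)).trans ?_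
  rw [Nat.cast_sum]
  refine (sum_le_sum (g := fun k => L / 32 * (1 / 2 : ℝ) ^ k) fun k _ => ?_).trans ?_
  swap
  · rw [← mul_sum]
    exact (mul_le_mul_of_nonneg_left (sum_geometric_two_le _) (by positivity)).trans_eq (by ring)
  refine (Nat.cast_le.2 card_biUnion_le).trans ?_
  rw [Nat.cast_sum]
  refine (sum_le_card_nsmul _ _ (1 / (32 * (k + 1) * 4 ^ k) * L * k : ℝ) fun w hw => ?_).trans ?_
  · refine (Nat.cast_le.2 (card_biUnion_le_card_mul _ _ k fun m _ => by simp)).trans ?_
    rw [Nat.cast_mul]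
    refine mul_le_mul_of_nonneg_right (hH k L _ (fun t => ?_) fun t ht => ?_) (by positivity)
    · unfold ind; split_ifs <;> simp
    · exact if_neg fun c => (mem_filter.1 hw).2 (c.symm.trans (funext fun i => s _ (by omega)))
  · rw [nsmul_eq_mul]
    refine (mul_le_mul_of_nonneg_right (Nat.cast_le.2 (card_le_univ _)) (by positivity)).trans ?_
    rw [Fintype.card_fun, Fintype.card_bool, Fintype.card_fin, show (4 : ℝ) = 2 * 2 by norm_num,
      mul_pow, one_div_pow]
    push_cast
    rw [show (2 : ℝ) ^ k * (1 / (32 * (k + 1) * (2 ^ k * 2 ^ k)) * L * k) =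
      L / 32 * (1 / 2 ^ k) * (k / (k + 1)) by field_simp]
    exact mul_le_of_le_one_right (by positivity) (div_le_one_of_le₀ (by linarith) (by positivity))

end Pool.Agent.H49.MD
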