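import Mathlib
import Pool.Agent.H49.MD10

/-! Disjoint points and a correlating point. -/

set_option autoImplicit false

namespace Pool.Agent.H49.MD

open Finset Filter Topology ArithmeticFunction

lemma pnt : Tendsto (fun N : ℕ => (N : ℂ)⁻¹ * ∑ n ∈ range N, (moebius n : ℂ)) atTop (𝓝 0) := by
  refine squeeze_zero_norm' ?_ ((tendsto_rpow_neg_atTop (show (0 : ℝ) < 3 / 4 by norm_num)).comp
    (Real.tendsto_log_atTop.comp tendsto_natCast_atTop_atTop))
  filter_upwards [dav, eventually_gt_atTop 0] with N h N0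
  have := h 0
  simp only [mul_zero, e_zero, mul_one] at this
  rwa [norm_mul, norm_inv, Complex.norm_natCast, inv_mul_le_iff₀ (by exact_mod_cast N0)]

lemma disj {G : ℕ → ℕ} {x : ℕ → Bool} (hx : ∀ k, B G k 0 x → ∀ i, i < k → x i = false) (φ : ℕ → ℂ)
    (C : ℝ) (hC : ∀ n, ‖φ n‖ ≤ C) (uc : ∀ ε : ℝ, 0 < ε → ∃ k, ∀ n m,
      (∀ i, i < k → x (n + i) = x (m + i)) → ‖φ n - φ m‖ ≤ ε) :
    Tendsto (fun N : ℕ => (N : ℂ)⁻¹ * ∑ n ∈ range N, (moebius n : ℂ) * φ n) atTop (𝓝 0) := by
  classical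
  have C0 : 0 ≤ C := (norm_nonneg _).trans (hC 0)
  have nb : ∀ᶠ k in atTop, ¬ B G k 0 x := by
    by_cases h : ∃ p, x p = true
    · obtain ⟨p, hp⟩ := h
      filter_upwards [eventually_gt_atTop p] with k hk b
      simp [hx k b p hk] at hp
    · obtain rfl : x = fun _ => false := funext fun p => by simpa using not_exists.1 h p
      refine Eventually.of_forall fun k ⟨w, a, N, _, b⟩ => ?_
      rw [Sm_zero a, norm_zero, Nat.cast_zero, zero_mul, sub_zero] at b
      exact absurd b (not_lt.2 (by positivity))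
  refine NormedAddGroup.tendsto_nhds_zero.2 fun ε e0 => ?_
  obtain ⟨k1, uc⟩ := uc (ε / 3) (by positivity)
  have t : Tendsto (fun k : ℕ => 2 * C * (1 / 2 : ℝ) ^ k) atTop (𝓝 (2 * C * 0)) :=
    (tendsto_pow_atTop_nhds_zero_of_lt_one (by norm_num) (by norm_num)).const_mul _
  obtain ⟨k, nb, hk, h3⟩ := (nb.and ((eventually_ge_atTop k1).and
    (t.eventually (eventually_le_nhds (show 2 * C * 0 < ε / 3 by linarith))))).exists
  set g : (Fin k → Bool) → ℂ := fun w =>
    if h : ∃ n, (fun i : Fin k => x (n + i)) = w then φ h.choose else 0 with hg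
  have g1 : ∀ w, ‖g w‖ ≤ C := fun w => by
    simp only [hg]; split_ifs; exacts [hC _, by simpa using C0]
  have g2 : ∀ n, ‖φ n - g fun i => x (n + i)‖ ≤ ε / 3 := fun n => by
    have h : ∃ m, (fun i : Fin k => x (m + i)) = fun i : Fin k => x (n + i) := ⟨n, rfl⟩
    simp only [hg, dif_pos h]
    exact uc _ _ fun i hi => (congrFun h.choose_spec ⟨i, by omega⟩).symm
  filter_upwards [NormedAddGroup.tendsto_nhds_zero.1 (pnt.const_mul (g fun _ => false) |>.trans_eq
    (by rw [mul_zero])) (ε / 3) (by positivity), eventually_ge_atTop (G k), eventually_gt_atTop 0]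
    with N h1 h2 N0
  have N1 : (0 : ℝ) < N := by exact_mod_cast N0
  have e1 : ∑ n ∈ range N, (moebius n : ℂ) * φ n = (g fun _ => false) * ∑ n ∈ range N,
      (moebius n : ℂ) + (∑ n ∈ range N, (moebius n : ℂ) * (φ n - g fun i => x (n + i)) +
        ∑ w, (g w - g fun _ => false) * Sm k w N x) := by
    simp only [Sm, ind, mul_sum]
    rw [sum_comm, ← sum_add_distrib, ← sum_add_distrib]
    refine sum_congr rfl fun n _ => ?_
    simp only [mul_ite, mul_one, mul_zero, sum_ite_eq, mem_univ, if_true]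
    ring
  have b1 : ‖∑ n ∈ range N, (moebius n : ℂ) * (φ n - g fun i => x (n + i))‖ ≤ N * (ε / 3) :=
    (norm_sum_le_of_le _ (n := fun _ => ε / 3) fun n _ => by
      rw [norm_mul]; exact (mul_le_of_le_one_left (norm_nonneg _) (mu_le n)).trans (g2 n)).trans
      (by simp)
  have b2 : ‖∑ w, (g w - g fun _ => false) * Sm k w N x‖ ≤ N * (ε / 3) := by
    refine (norm_sum_le_of_le _ (n := fun _ => 2 * C * (N / 4 ^ k)) fun w _ => ?_).trans ?_
    · by_cases a : w = fun _ => false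
      · rw [a, sub_self, zero_mul, norm_zero]; positivity
      · rw [norm_mul]
        exact mul_le_mul ((norm_sub_le _ _).trans (by linarith [g1 w, g1 fun _ => false]))
          (not_lt.1 fun b => nb ⟨w, a, N, h2, by simpa using b⟩) (norm_nonneg _) (by positivity)
    · rw [sum_const, card_univ, Fintype.card_fun, Fintype.card_bool, Fintype.card_fin, nsmul_eq_mul]
      refine le_of_eq_of_le ?_ (mul_le_mul_of_nonneg_left h3 N1.le)
      rw [show (4 : ℝ) = 2 * 2 by norm_num, mul_pow, one_div_pow]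
      push_cast; field_simp
  rw [e1, mul_add, mul_left_comm]
  refine (norm_add_le _ _).trans_lt ?_
  have : ‖(N : ℂ)⁻¹ * (∑ n ∈ range N, (moebius n : ℂ) * (φ n - g fun i => x (n + i)) +
      ∑ w, (g w - g fun _ => false) * Sm k w N x)‖ ≤ 2 * (ε / 3) := by
    rw [norm_mul, norm_inv, Complex.norm_natCast, inv_mul_le_iff₀ N1]
    linarith [norm_add_le (∑ n ∈ range N, (moebius n : ℂ) * (φ n - g fun i => x (n + i)))
      (∑ w, (g w - g fun _ => false) * Sm k w N x)]
  linarith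

lemma sqf (N : ℕ) : (N : ℝ) / 4 - 1 ≤ ∑ n ∈ range N, (moebius n : ℝ) ^ 2 := by
  rcases N with _ | N
  · simp
  have a : ∑ n ∈ Ioc 0 N, (1 - (moebius n : ℝ) ^ 2) ≤
      ∑ n ∈ Ioc 0 N, ∑ d ∈ Ioc 1 (N + 2), if d ^ 2 ∣ n then (1 : ℝ) else 0 :=
    sum_le_sum fun n hn => by
      rw [show (moebius n : ℝ) ^ 2 = if Squarefree n then 1 else 0 by exact_mod_cast moebius_sq]
      split_ifs with h
      · rw [sub_self]; exact sum_nonneg fun _ _ => by positivity
      · rw [Nat.squarefree_iff_prime_squarefree] at h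
        push Not at h
        obtain ⟨p, p1, p2⟩ := h
        have := Nat.le_of_dvd (mem_Ioc.1 hn).1 (dvd_trans ⟨p, rfl⟩ p2)
        have := (mem_Ioc.1 hn).2
        refine le_trans ?_ (single_le_sum (f := fun d => if d ^ 2 ∣ n then (1 : ℝ) else 0)
          (fun _ _ => by positivity) (mem_Ioc.2 ⟨p1.one_lt, by omega⟩ : p ∈ _))
        simp [sq, p2]
  rw [sum_comm, sum_sub_distrib] at a
  have b : ∑ d ∈ Ioc 1 (N + 2), ∑ n ∈ Ioc 0 N, (if d ^ 2 ∣ n then (1 : ℝ) else 0) ≤ N * (3 / 4) := by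
    refine (sum_le_sum (g := fun d : ℕ => N * ((d : ℝ) ^ 2)⁻¹) fun d _ => ?_).trans ?_
    · rw [sum_boole, Nat.Ioc_filter_dvd_card_eq_div]
      exact Nat.cast_div_le.trans_eq (by push_cast; rfl)
    · rw [← mul_sum, ← sum_Ioc_consecutive _ one_le_two (by omega)]
      refine mul_le_mul_of_nonneg_left ?_ (by positivity)
      have := sum_Ioc_inv_sq_le_sub (α := ℝ) two_ne_zero (show 2 ≤ N + 2 by omega)
      have : (0 : ℝ) ≤ ((N + 2 : ℕ) : ℝ)⁻¹ := by positivity
      rw [show Ioc 1 2 = {2} by rfl, sum_singleton]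
      push_cast at *; linarith
  rw [range_eq_Ico, Ico_add_one_right_eq_Icc, ← add_sum_Ioc_eq_sum_Icc (Nat.zero_le N)]
  simp only [sum_const, Nat.card_Ioc, Nat.sub_zero, nsmul_one] at a
  push_cast
  linarith [sq_nonneg (moebius 0 : ℝ)]

lemma Sm_congr {k N : ℕ} {w : Fin k → Bool} {x y : ℕ → Bool} (h : ∀ i, i < N + k → x i = y i) :
    Sm k w N x = Sm k w N y := sum_congr rfl fun n hn => by
  unfold ind
  rw [show (fun i : Fin k => x (n + i)) = fun i : Fin k => y (n + i) from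
    funext fun i => h _ (by have := mem_range.1 hn; omega)]

/-- Every violation in the first coordinate sees a marker in the second, and the markers have
distinct gaps. -/
def XS (G : ℕ → ℕ) : Set ((ℕ → Bool) × (ℕ → Bool)) := {p | (∀ a b g, 0 < g → p.2 a = true →
  p.2 (a + g) = true → p.2 b = true → p.2 (b + g) = true → a = b) ∧
  ∀ m k (w : Fin k → Bool) N, w ≠ (fun _ => false) → G k ≤ N →
    (N : ℝ) / 4 ^ k < ‖Sm k w N (sh m p.1)‖ → (∃ i, i < k ∧ p.1 (m + i) = true) →
      ∃ r, r < N + k ∧ p.2 (m + r) = true}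

theorem point : ∃ G, ∃ p ∈ XS G, ¬ Tendsto (fun N : ℕ => (N : ℂ)⁻¹ * ∑ n ∈ range N,
    (moebius n : ℂ) * (if p.1 n = true then 1 else 0)) atTop (𝓝 0) := by
  classical
  obtain ⟨G, hG⟩ := approx
  choose y y1 y2 using fun j : ℕ => hG (2 ^ j)
    (fun i => decide (i < 2 ^ j ∧ moebius (2 ^ j - 1 + i) = 1)) fun i hi => by simp [hi]
  set z : ℕ → Bool := fun n => y (Nat.log 2 (n + 1)) (n + 1 - 2 ^ Nat.log 2 (n + 1)) with hz
  have z1 : ∀ j i, i < 2 ^ j → z (2 ^ j - 1 + i) = y j i := fun j i hi => by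
    have p : 0 < 2 ^ j := by positivity
    have : Nat.log 2 (2 ^ j - 1 + i + 1) = j :=
      Nat.log_eq_of_pow_le_of_lt_pow (by omega) (by rw [pow_succ]; omega)
    simp only [hz, this]; congr 1; omega
  refine ⟨G, (z, fun n => decide (∃ j, n + 1 = 2 ^ j)), ⟨?_, fun m k w N a b c d => ?_⟩, fun t => ?_⟩
  · have k : ∀ a b g i j k l : ℕ, 0 < g → a + 1 = 2 ^ i → a + g + 1 = 2 ^ j → b + 1 = 2 ^ k →
        b + g + 1 = 2 ^ l → ¬ a < b := fun a b g i j k l g0 h1 h2 h3 h4 h => by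
      have u := Nat.pow_le_pow_right two_pos (Nat.succ_le_of_lt
        ((Nat.pow_lt_pow_iff_right one_lt_two).1 (by omega : 2 ^ j < 2 ^ l)))
      have v := Nat.pow_le_pow_right two_pos (Nat.succ_le_of_lt
        ((Nat.pow_lt_pow_iff_right one_lt_two).1 (by omega : 2 ^ k < 2 ^ l)))
      rw [pow_succ] at u v; omega
    simp only [decide_eq_true_eq]
    rintro a b g g0 ⟨i, h1⟩ ⟨j, h2⟩ ⟨u, h3⟩ ⟨v, h4⟩
    exact le_antisymm (not_lt.1 (k _ _ _ _ _ _ _ g0 h3 h4 h1 h2))
      (not_lt.1 (k _ _ _ _ _ _ _ g0 h1 h2 h3 h4))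
  · simp only [decide_eq_true_eq]
    by_contra h
    set j := Nat.log 2 (m + 1)
    have a1 : 2 ^ j ≤ m + 1 := Nat.pow_log_le_self 2 (by omega)
    have a2 : m + 1 < 2 ^ (j + 1) := Nat.lt_pow_succ_log_self one_lt_two _
    have a3 : m + N + k + 1 ≤ 2 ^ (j + 1) := by
      by_contra a3
      exact h ⟨2 ^ (j + 1) - 1 - m, by omega, j + 1, by omega⟩
    rw [pow_succ] at a2 a3
    have e : ∀ i, i < N + k → z (m + i) = y j (m + 1 - 2 ^ j + i) := fun i hi => by
      rw [← z1 j _ (by omega)]; congr 1; omega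
    obtain ⟨i, d1, d2⟩ := d
    have := y1 j (m + 1 - 2 ^ j) k ⟨w, a, N, b, by
      rw [← Sm_congr (x := sh m z) (y := sh (m + 1 - 2 ^ j) (y j)) e]; simpa using c⟩ i d1
    rw [← e i (by omega)] at this
    exact absurd (this.symm.trans d2) (by simp)
  have s : ∀ J : ℕ, ∑ n ∈ range (2 ^ J - 1), ((moebius n : ℝ) ^ 2 + moebius n) / 2 - (2 ^ J - 1) / 16
      ≤ ∑ n ∈ range (2 ^ J - 1), (moebius n : ℝ) * (if z n = true then 1 else 0) := fun J => by
    induction J with
    | zero => simp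
    | succ J ih =>
      have p : 0 < 2 ^ J := by positivity
      rw [show 2 ^ (J + 1) - 1 = 2 ^ J - 1 + 2 ^ J by rw [pow_succ]; omega, sum_range_add,
        sum_range_add]
      have a := y2 J
      rw [← sum_boole] at a
      have b := sum_le_sum (s := range (2 ^ J)) (f := fun i =>
        ((moebius (2 ^ J - 1 + i) : ℝ) ^ 2 + moebius (2 ^ J - 1 + i)) / 2 - if y J i ≠
          decide (i < 2 ^ J ∧ moebius (2 ^ J - 1 + i) = 1) then (1 : ℝ) else 0)
        (g := fun i => (moebius (2 ^ J - 1 + i) : ℝ) * (if z (2 ^ J - 1 + i) = true then 1 else 0))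
        fun i hi => by
          rw [z1 J i (mem_range.1 hi)]
          rcases moebius_eq_or (2 ^ J - 1 + i) with h | h | h <;> cases y J i <;>
            simp [h, mem_range.1 hi]
      rw [sum_sub_distrib] at b
      push_cast at a ⊢
      rw [pow_succ]; linarith
  have t1 : Tendsto (fun J : ℕ => 2 ^ J - 1) atTop atTop :=
    (tendsto_sub_atTop_nat 1).comp (tendsto_pow_atTop_atTop_of_one_lt one_lt_two)
  obtain ⟨J, h1, h2, h3⟩ := (t1.eventually ((NormedAddGroup.tendsto_nhds_zero.1 t (1 / 64)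
    (by norm_num)).and ((NormedAddGroup.tendsto_nhds_zero.1 pnt (1 / 64) (by norm_num)).and
      (eventually_ge_atTop 64)))).exists
  have a := s J
  have b := sqf (2 ^ J - 1)
  have c : ((2 ^ J - 1 : ℕ) : ℝ) = 2 ^ J - 1 := by
    rw [Nat.cast_sub (Nat.one_le_two_pow)]; push_cast; rfl
  rw [← c, ← sum_div, sum_add_distrib] at a
  set N := 2 ^ J - 1
  have N1 : (64 : ℝ) ≤ N := by exact_mod_cast h3
  rw [norm_mul, norm_inv, Complex.norm_natCast, inv_mul_lt_iff₀ (by linarith)] at h1 h2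
  have d1 := (Complex.re_le_norm _).trans_lt h1
  have d2 := (abs_lt.1 ((Complex.abs_re_le_norm _).trans_lt h2)).1
  simp only [Complex.re_sum, Complex.mul_re, Complex.intCast_re, Complex.intCast_im, zero_mul,
    sub_zero, apply_ite Complex.re, Complex.one_re, Complex.zero_re] at d1 d2
  linarith

end Pool.Agent.H49.MD
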