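import Mathlib
import Pool.Agent.H49.MD11

/-! The two systems. -/

set_option autoImplicit false

namespace Pool.Agent.H49.MD

open Finset Filter Topology ArithmeticFunction MeasureTheory

lemma mat {Y : Type} [MeasurableSpace Y] (S : Y → Y) (hS : Measurable S) (Z : Set Y)
    (hZ : MeasurableSet Z) (T : Z → Z) (hT : Measurable T) (c : ∀ z, (T z : Y) = S z) (z0 : Z)
    (full : ∀ ν : Measure Y, IsProbabilityMeasure ν → MeasurePreserving S ν ν → ∀ᵐ y ∂ν, y ∈ Z) :
    (∀ μ : Measure Z, IsProbabilityMeasure μ → MeasurePreserving T μ μ →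
      ∃ ν : Measure Y, IsProbabilityMeasure ν ∧ MeasurePreserving S ν ν ∧
        ∃ φ : Z → Y, ∃ ψ : Y → Z, MeasurePreserving φ μ ν ∧ MeasurePreserving ψ ν μ ∧
          (∀ᵐ x ∂μ, φ (T x) = S (φ x)) ∧ (∀ᵐ x ∂μ, ψ (φ x) = x) ∧ (∀ᵐ y ∂ν, φ (ψ y) = y)) ∧
    (∀ ν : Measure Y, IsProbabilityMeasure ν → MeasurePreserving S ν ν →
      ∃ μ : Measure Z, IsProbabilityMeasure μ ∧ MeasurePreserving T μ μ ∧
        ∃ φ : Z → Y, ∃ ψ : Y → Z, MeasurePreserving φ μ ν ∧ MeasurePreserving ψ ν μ ∧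
          (∀ᵐ x ∂μ, φ (T x) = S (φ x)) ∧ (∀ᵐ x ∂μ, ψ (φ x) = x) ∧ (∀ᵐ y ∂ν, φ (ψ y) = y)) := by
  have em := MeasurableEmbedding.subtype_coe hZ
  set ψ : Y → Z := Function.extend Subtype.val id fun _ => z0 with hψ
  have m1 : Measurable ψ := em.measurable_extend measurable_id measurable_const
  have m2 : ∀ z : Z, ψ z = z := fun z => Subtype.val_injective.extend_apply _ _ z
  have mv : Measurable (Subtype.val : Z → Y) := measurable_subtype_coe
  refine ⟨fun μ _ h => ⟨μ.map Subtype.val, Measure.isProbabilityMeasure_map mv.aemeasurable,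
    ⟨hS, ?_⟩, _, ψ, ⟨mv, rfl⟩, ⟨m1, ?_⟩, ae_of_all _ c, ae_of_all _ m2,
    em.ae_map_iff.2 (ae_of_all _ fun z => congrArg _ (m2 z))⟩, fun ν _ h => ?_⟩
  · rw [Measure.map_map hS mv, show S ∘ Subtype.val = Subtype.val ∘ T from
      funext fun z => (c z).symm, ← Measure.map_map mv hT, h.map_eq]
  · rw [Measure.map_map m1 mv, show ψ ∘ Subtype.val = id from funext m2, Measure.map_id]
  have f := full ν ‹_› h
  have f2 : ∀ᵐ y ∂ν, (ψ y : Y) = y := f.mono fun y hy => congrArg _ (m2 ⟨y, hy⟩)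
  refine ⟨ν.map ψ, Measure.isProbabilityMeasure_map m1.aemeasurable, ⟨hT, ?_⟩, _, ψ, ⟨mv, ?_⟩,
    ⟨m1, rfl⟩, ae_of_all _ c, ae_of_all _ m2, f2⟩
  · rw [Measure.map_map hT m1, Measure.map_congr (g := ψ ∘ S) (f.mono fun y hy => ?_),
      ← Measure.map_map m1 hS, h.map_eq]
    exact (congrArg T (m2 ⟨y, hy⟩)).trans ((m2 _).symm.trans (congrArg ψ (c ⟨y, hy⟩)))
  · rw [Measure.map_map mv m1, Measure.map_congr (f := Subtype.val ∘ ψ) (g := id) f2, Measure.map_id]

lemma clo (P : (ℕ → Bool) × (ℕ → Bool) → Prop) (K : ℕ)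
    (h : ∀ p q, (∀ i, i < K → p.1 i = q.1 i ∧ p.2 i = q.2 i) → P p → P q) : IsClosed {p | P p} := by
  refine isOpen_compl_iff.1 (isOpen_iff_mem_nhds.2 fun q hq => ?_)
  have : ∀ᶠ p in 𝓝 q, ∀ i ∈ range K, (p.1 i, p.2 i) ∈ ({(q.1 i, q.2 i)} : Set (Bool × Bool)) :=
    (eventually_all_finset _).2 fun i _ => (show Continuous fun p : (ℕ → Bool) × (ℕ → Bool) =>
      (p.1 i, p.2 i) by fun_prop).continuousAt.eventually_mem ((isOpen_discrete _).mem_nhds rfl)
  exact this.mono fun p hp a => hq (h p q (fun i hi => Prod.mk.inj (hp i (mem_range.2 hi))) a)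

variable (G : ℕ → ℕ)

lemma XS_closed : IsClosed (XS G) := by
  simp only [XS, Set.ofPred_and]
  refine IsClosed.inter ?_ ?_
  · iterate 3 rw [Set.ofPred_forall]; refine isClosed_iInter fun _ => ?_
    rename_i a b g
    refine clo _ (a + b + g + 1) fun p q h H g0 h1 h2 h3 h4 => H g0 ?_ ?_ ?_ ?_ <;>
      rwa [(h _ (by omega)).2]
  · iterate 4 rw [Set.ofPred_forall]; refine isClosed_iInter fun _ => ?_
    rename_i m k w N
    refine clo _ (m + N + k) fun p q h H a b c ⟨i, d1, d2⟩ => ?_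
    obtain ⟨r, r1, r2⟩ := H a b (by
      rwa [Sm_congr (x := sh m p.1) (y := sh m q.1) fun i hi => (h _ (by omega)).1])
      ⟨i, d1, by rwa [(h _ (by omega)).1]⟩
    exact ⟨r, r1, by rwa [← (h _ (by omega)).2]⟩

/-- The shift on the larger system. -/
def T1 (p : XS G) : XS G := ⟨(sh 1 p.1.1, sh 1 p.1.2), fun a b g g0 h1 h2 h3 h4 =>
  Nat.add_left_cancel (p.2.1 (1 + a) (1 + b) g g0 h1 (by rwa [add_assoc]) h3 (by rwa [add_assoc])),
  fun m k w N a b c d => by
    simpa only [sh, add_assoc] using p.2.2 (1 + m) k w N a b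
      (by rwa [show sh (1 + m) p.1.1 = sh m (sh 1 p.1.1) from funext fun i => by
        simp only [sh, add_assoc]]) (by simpa only [sh, add_assoc] using d)⟩

lemma T1_cont : Continuous (T1 G) := Continuous.subtype_mk (by unfold sh; fun_prop) _

lemma T1_it' (n : ℕ) (p : XS G) : ((T1 G)^[n] p).1 = (sh n p.1.1, sh n p.1.2) := by
  induction n with
  | zero => exact Prod.ext (funext fun i => by simp [sh]) (funext fun i => by simp [sh])
  | succ n ih =>
    rw [Function.iterate_succ_apply']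
    simp only [T1, ih]
    exact Prod.ext (funext fun i => by simp [sh, add_assoc]) (funext fun i => by simp [sh, add_assoc])

lemma T1_it (n : ℕ) (p : XS G) (i : ℕ) : ((T1 G)^[n] p).1.1 i = p.1.1 (n + i) := by
  rw [T1_it']; rfl

/-- The smaller system. -/
def ZS : Set (XS G) := {p | p.1.2 = fun _ => false}

lemma ZS_closed : IsClosed (ZS G) := isClosed_eq (by fun_prop) continuous_const

/-- The shift on the smaller system. -/
def T0 (p : ZS G) : ZS G := ⟨T1 G p.1, funext fun i => congrFun p.2 (1 + i)⟩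

lemma T0_cont : Continuous (T0 G) :=
  Continuous.subtype_mk ((T1_cont G).comp continuous_subtype_val) _

/-- A point of the smaller system. -/
def z0 : ZS G := ⟨⟨(fun _ => false, fun _ => false), by simp, by simp⟩, rfl⟩

lemma full (ν : Measure (XS G)) (_ : IsProbabilityMeasure ν) (h : MeasurePreserving (T1 G) ν ν) :
    ∀ᵐ y ∂ν, y ∈ ZS G := by
  have ms : ∀ g, MeasurableSet {p : XS G | p.1.2 0 = true ∧ p.1.2 g = true} := fun g =>
    ((isClosed_eq (by fun_prop) continuous_const).inter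
      (isClosed_eq (by fun_prop) continuous_const)).measurableSet
  have a := ae_all_iff.2 fun g =>
    h.conservative.ae_mem_imp_frequently_image_mem (ms g).nullMeasurableSet
  have b : ∀ᵐ p ∂ν, p.1.2 0 = false := a.mono fun p hp => by
    by_contra c
    rw [Bool.not_eq_false] at c
    obtain ⟨g, g1, g0⟩ := ((hp 0 ⟨c, c⟩).and_eventually (eventually_gt_atTop 0)).exists
    simp only [Set.mem_ofPred, T1_it', sh, and_self] at g1
    obtain ⟨n, n1, n0⟩ := ((hp g ⟨c, g1⟩).and_eventually (eventually_gt_atTop 0)).exists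
    simp only [Set.mem_ofPred, T1_it', sh] at n1
    exact n0.ne (p.2.1 0 n g g0 c (by rwa [zero_add]) n1.1 n1.2)
  filter_upwards [ae_all_iff.2 fun n => (h.iterate n).quasiMeasurePreserving.ae b] with p hp
  exact funext fun n => by simpa only [T1_it', sh, add_zero] using hp n

lemma ZS_disj (x : ZS G) (f : ZS G → ℂ) (hf : Continuous f) :
    Tendsto (fun N : ℕ => (N : ℂ)⁻¹ * ∑ n ∈ range N, (moebius n : ℂ) * f ((T0 G)^[n] x)) atTop
      (𝓝 0) := by
  have : CompactSpace (XS G) := isCompact_iff_compactSpace.1 (XS_closed G).isCompact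
  have : CompactSpace (ZS G) := isCompact_iff_compactSpace.1 (ZS_closed G).isCompact
  obtain ⟨C, hC⟩ := isCompact_univ.exists_bound_of_continuousOn hf.continuousOn
  have it : ∀ n i, ((T0 G)^[n] x).1.1.1 i = x.1.1.1 (n + i) := fun n i => by
    rw [← T1_it, ← Function.Semiconj.iterate_right (f := Subtype.val) (ga := T0 G) (fun _ => rfl)]
  refine disj (G := G) (x := x.1.1.1) (fun k ⟨w, a, N, b, c⟩ i hi => ?_) _ C
    (fun n => hC _ trivial) fun ε e0 => ?_
  · by_contra d
    obtain ⟨r, _, r2⟩ := x.1.2.2 0 k w N a b (by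
      rw [show sh 0 x.1.1.1 = x.1.1.1 from funext fun i => by simp [sh]]; simpa using c)
      ⟨i, hi, by simpa using d⟩
    rw [x.2] at r2; simp at r2
  by_contra H
  push Not at H
  have cl : ∀ k, IsClosed {p : ZS G × ZS G | (∀ i, i < k → p.1.1.1.1 i = p.2.1.1.1 i) ∧
      ε ≤ ‖f p.1 - f p.2‖} := fun k => by
    refine IsClosed.inter (s₁ := {p : ZS G × ZS G | ∀ i, i < k → p.1.1.1.1 i = p.2.1.1.1 i})
      (s₂ := {p : ZS G × ZS G | ε ≤ ‖f p.1 - f p.2‖}) ?_
      (isClosed_le continuous_const (by fun_prop))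
    simp only [Set.ofPred_forall]
    exact isClosed_iInter fun i => isClosed_iInter fun _ => isClosed_eq (by fun_prop) (by fun_prop)
  obtain ⟨p, hp⟩ := IsCompact.nonempty_iInter_of_sequence_nonempty_isCompact_isClosed
    (fun k => {p : ZS G × ZS G | (∀ i, i < k → p.1.1.1.1 i = p.2.1.1.1 i) ∧ ε ≤ ‖f p.1 - f p.2‖})
    (fun k p hp => ⟨fun i hi => hp.1 i (by omega), hp.2⟩) (fun k => by
      obtain ⟨n, m, a, b⟩ := H k
      exact ⟨((T0 G)^[n] x, (T0 G)^[m] x), fun i hi => by simpa only [it] using a i hi, b.le⟩)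
    (cl 0).isCompact cl
  rw [Set.mem_iInter] at hp
  have := (hp 0).2
  rw [show p.1 = p.2 from Subtype.ext (Subtype.ext (Prod.ext
    (funext fun i => (hp (i + 1)).1 i (by omega)) (p.1.2.trans p.2.2.symm))), sub_self,
    norm_zero] at this
  linarith

end Pool.Agent.H49.MD
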