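import Pool.Agent.H49.RXDefs

/-! Mixing in infinite measure and the metric on mixing automorphisms. -/

set_option autoImplicit false

namespace Pool.Agent.H49.MI

open MeasureTheory Set Filter Topology Pool.Agent.H49.RX
open scoped ENNReal

variable {X : Type} [MeasurableSpace X] {μ : Measure X}

/-- `μ(T^n A ∩ B) → 0` for all `A`, `B` of finite measure. -/
def MixInf (T : Aut μ) : Prop :=
  ∀ A B : Set X, MeasurableSet A → MeasurableSet B → μ A ≠ ⊤ → μ B ≠ ⊤ →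
    Tendsto (fun n : ℕ => μ ((T ^ n).1 '' A ∩ B)) atTop (𝓝 0)

/-- The Halmos metric (the sets are indexed from `0`, the weights from `2⁻¹`). -/
noncomputable def rho (A : ℕ → Set X) (S T : Aut μ) : ℝ≥0∞ :=
  ∑' i, 2⁻¹ ^ (i + 1) * (μ (symmDiff (S.1 '' A i) (T.1 '' A i)) +
    μ (symmDiff (S⁻¹.1 '' A i) (T⁻¹.1 '' A i)))

/-- The weak distance. -/
noncomputable def dw (A : ℕ → Set X) (S T : Aut μ) : ℝ≥0∞ :=
  ∑' i, ∑' j, 2⁻¹ ^ (i + 1) * 2⁻¹ ^ (j + 1) *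
    ENNReal.ofReal |μ.real (S.1 '' A i ∩ A j) - μ.real (T.1 '' A i ∩ A j)|

/-- The metric `r_∞`. -/
noncomputable def rInf (A : ℕ → Set X) (S T : Aut μ) : ℝ≥0∞ :=
  rho A S T + ⨆ n : ℕ, dw A (S ^ (n + 1)) (T ^ (n + 1))

end Pool.Agent.H49.MI
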