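import Pool.Agent.H49.RX4
import Pool.Agent.H49.MIDefs

/-! Isomorphisms between sets of equal measure, gluing, markers. -/

set_option autoImplicit false

namespace Pool.Agent.H49.MI

open MeasureTheory Set Filter Topology Pool.Agent.H49.RX ProbabilityTheory Function
open scoped ENNReal Classical

variable {X : Type} [MeasurableSpace X] {μ μ' μ'' : Measure X} {φ ψ φ' ψ' : X → X}

lemma iso_symm (h : AeIso μ μ' φ ψ) : AeIso μ' μ ψ φ := ⟨h.m2, h.m1, h.e2, h.e1⟩

lemma iso_trans (h : AeIso μ μ' φ ψ) (h' : AeIso μ' μ'' φ' ψ') : AeIso μ μ'' (φ' ∘ φ) (ψ ∘ ψ') := by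
  refine ⟨h'.m1.comp h.m1, h.m2.comp h'.m2, ?_, ?_⟩
  · filter_upwards [h.e1, h.m1.quasiMeasurePreserving.ae h'.e1] with x a b
    simp only [Function.comp, a, b]
  · filter_upwards [h'.e2, h'.m2.quasiMeasurePreserving.ae h.e2] with x a b
    simp only [Function.comp, a, b]

lemma iso_restrict (h : AeIso μ μ' φ ψ) {C : Set X} (hC : MeasurableSet C) :
    AeIso (μ.restrict C) (μ'.restrict (ψ ⁻¹' C)) φ ψ := by
  refine ⟨?_, h.m2.restrict_preimage hC, ae_restrict_of_ae h.e1, ae_restrict_of_ae h.e2⟩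
  rw [← Measure.restrict_congr_set (s := φ ⁻¹' (ψ ⁻¹' C)) (t := C) (h.e1.mono fun x hx =>
    congrArg (· ∈ C) hx)]
  exact h.m1.restrict_preimage (h.m2.measurable hC)

lemma iso_aut (U : Aut μ) {C : Set X} (hC : MeasurableSet C) :
    AeIso (μ.restrict (U.1 ⁻¹' C)) (μ.restrict C) U.1 U⁻¹.1 :=
  iso_symm (iso_restrict (φ := U⁻¹.1) (ψ := U.1) ⟨U.2.2, U.2.1, .of_forall U.1.apply_symm_apply,
    .of_forall U.1.symm_apply_apply⟩ hC)

lemma iso_meas {A B : Set X} (h : AeIso (μ.restrict A) (μ.restrict B) φ ψ) : μ A = μ B := by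
  simpa using h.m1.measure_preimage (s := univ) nullMeasurableSet_univ

lemma mu_aut (T : Aut μ) (A : Set X) : μ (T.1 ⁻¹' A) = μ A :=
  le_antisymm (T.2.1.measure_preimage_le A) (by simpa using T.2.2.measure_preimage_le (T.1 ⁻¹' A))

variable [StandardBorelSpace X]

lemma glue {ι : Type} [Countable ι] {P Q : ι → Set X} (mP : ∀ i, MeasurableSet (P i))
    (mQ : ∀ i, MeasurableSet (Q i)) (dP : Pairwise (Disjoint on P)) (dQ : Pairwise (Disjoint on Q))
    (uP : ∀ x, ∃ i, x ∈ P i) (uQ : ∀ x, ∃ i, x ∈ Q i) {f g : ι → X → X}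
    (h : ∀ i, AeIso (μ.restrict (P i)) (μ.restrict (Q i)) (f i) (g i)) :
    ∃ R : Aut μ, ∀ᵐ x ∂μ, ∀ i, x ∈ P i → R.1 x = f i x := by
  have key : ∀ {P Q : ι → Set X} (mP : ∀ i, MeasurableSet (P i)) (mQ : ∀ i, MeasurableSet (Q i))
      (dP : Pairwise (Disjoint on P)) (dQ : Pairwise (Disjoint on Q)) (uP : ∀ x, ∃ i, x ∈ P i)
      (uQ : ∀ x, ∃ i, x ∈ Q i) {f g : ι → X → X}
      (h : ∀ i, AeIso (μ.restrict (P i)) (μ.restrict (Q i)) (f i) (g i)),
      MeasurePreserving (fun x => f (uP x).choose x) μ μ ∧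
      ∀ᵐ x ∂μ, (fun x => g (uQ x).choose x) (f (uP x).choose x) = x := by
    intro P Q mP mQ dP dQ uP uQ f g h
    have e : ∀ {P : ι → Set X} (dP : Pairwise (Disjoint on P)) (uP : ∀ x, ∃ i, x ∈ P i) {x i},
        x ∈ P i → (uP x).choose = i := fun dP uP x i hx => by_contra fun hc =>
      disjoint_left.1 (dP hc) (uP x).choose_spec hx
    have dec : ∀ {P : ι → Set X} (mP : ∀ i, MeasurableSet (P i)) (dP : Pairwise (Disjoint on P))
        (uP : ∀ x, ∃ i, x ∈ P i), μ = Measure.sum fun i => μ.restrict (P i) := fun mP dP uP => by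
      rw [← Measure.restrict_iUnion dP mP, iUnion_eq_univ_iff.2 uP, Measure.restrict_univ]
    have m : Measurable fun x => f (uP x).choose x := (FM.of (f := fun x => (uP x).choose) fun i => by
      convert mP i using 1
      exact Set.ext fun x => ⟨fun hx => hx ▸ (uP x).choose_spec, e dP uP⟩).mbind
        fun i => (h i).m1.measurable
    refine ⟨⟨m, ?_⟩, ?_⟩
    · conv_lhs => rw [dec mP dP uP, Measure.map_sum m.aemeasurable]
      conv_rhs => rw [dec mQ dQ uQ]
      congr 1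
      funext i
      rw [← (h i).m1.map_eq]
      exact Measure.map_congr ((ae_restrict_mem (mP i)).mono fun x hx => by simp only [e dP uP hx])
    · rw [dec mP dP uP, Measure.ae_sum_iff]
      intro i
      filter_upwards [ae_restrict_mem (mP i), (h i).m1.quasiMeasurePreserving.ae
        (ae_restrict_mem (mQ i)), (h i).e1] with x a b c
      simp only [e dP uP a, e dQ uQ b, c]
  obtain ⟨a, b⟩ := key mP mQ dP dQ uP uQ h
  obtain ⟨c, d⟩ := key mQ mP dQ dP uQ uP fun i => iso_symm (h i)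
  obtain ⟨R, hR⟩ := genuine ⟨a, c, b, d⟩
  refine ⟨R, hR.mono fun x hx i hi => ?_⟩
  rw [hx, by_contra fun hc => disjoint_left.1 (dP hc) (uP x).choose_spec hi]

variable [NullSingletonClass μ]

lemma cond_iso {A : Set X} (h0 : μ A ≠ 0) (h : μ A ≠ ⊤) :
    ∃ φ ψ, AeIso μ[|A] (volume.restrict (Icc (0 : ℝ) 1)) φ ψ := by
  have := cond_isProbabilityMeasure_of_finite h0 h
  have : NullSingletonClass μ[|A] := ⟨fun x => cond_absolutelyContinuous (measure_singleton x)⟩
  exact iso_unit _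

lemma iso_fin {A B : Set X} (e : μ A = μ B) (h : μ A ≠ ⊤) :
    ∃ φ ψ, AeIso (μ.restrict A) (μ.restrict B) φ ψ := by
  by_cases h0 : μ A = 0
  · rw [Measure.restrict_eq_zero.2 h0, Measure.restrict_eq_zero.2 (e ▸ h0)]
    exact ⟨id, id, .id _, .id _, by simp, by simp⟩
  obtain ⟨a, b, h1⟩ := cond_iso h0 h
  obtain ⟨c, d, h2⟩ := cond_iso (e ▸ h0) (e ▸ h)
  have u : ∀ C, μ A = μ C → μ.restrict C = μ A • μ[|C] := fun C e => by
    rw [ProbabilityTheory.cond, smul_smul, ← e, ENNReal.mul_inv_cancel h0 h, one_smul]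
  rw [u A rfl, u B e]
  refine ⟨d ∘ a, b ∘ c, (h2.m2.comp h1.m1).smul_measure _, (h1.m2.comp h2.m1).smul_measure _,
    Measure.ae_smul_measure ?_ _, Measure.ae_smul_measure ?_ _⟩
  · filter_upwards [h1.e1, h1.m1.quasiMeasurePreserving.ae h2.e2] with x p q
    simp only [Function.comp, p, q]
  · filter_upwards [h2.e1, h2.m1.quasiMeasurePreserving.ae h1.e2] with x p q
    simp only [Function.comp, p, q]

lemma extend {ι : Type} [Finite ι] {P Q : ι → Set X} (mP : ∀ i, MeasurableSet (P i))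
    (mQ : ∀ i, MeasurableSet (Q i)) (dP : Pairwise (Disjoint on P)) (dQ : Pairwise (Disjoint on Q))
    (fP : ∀ i, μ (P i) ≠ ⊤) {f g : ι → X → X}
    (h : ∀ i, AeIso (μ.restrict (P i)) (μ.restrict (Q i)) (f i) (g i)) :
    ∃ R : Aut μ, ∀ᵐ x ∂μ, ∀ i, x ∈ P i → R.1 x = f i x := by
  have mA := MeasurableSet.iUnion mP
  have mB := MeasurableSet.iUnion mQ
  have e : μ (⋃ i, P i) = μ (⋃ i, Q i) := by
    rw [measure_iUnion dP mP, measure_iUnion dQ mQ]
    exact tsum_congr fun i => iso_meas (h i)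
  have fA : μ (⋃ i, P i) ≠ ⊤ := by
    have := Fintype.ofFinite ι
    rw [measure_iUnion dP mP, tsum_fintype]
    exact ENNReal.sum_ne_top.2 fun i _ => fP i
  obtain ⟨a, b, h1⟩ := iso_fin (measure_sdiff_symm mB.nullMeasurableSet mA.nullMeasurableSet e.symm
    (ne_top_of_le_ne_top fA (measure_mono inter_subset_right)))
    (ne_top_of_le_ne_top (e ▸ fA) (measure_mono sdiff_subset))
  have k : ∀ {P : ι → Set X} (B : Set X), Pairwise (Disjoint on P) → Pairwise (Disjoint on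
      (fun i : Option (Option ι) => i.elim ((⋃ i, P i) ∪ B)ᶜ fun i => i.elim (B \ ⋃ i, P i) P)) ∧
      ∀ x, ∃ i : Option (Option ι), x ∈ (i.elim ((⋃ i, P i) ∪ B)ᶜ fun i =>
        i.elim (B \ ⋃ i, P i) P : Set X) := fun {P} B dP => ⟨by
    rintro (_ | _ | i) (_ | _ | j) hij <;>
      simp only [Function.onFun, Option.elim, ne_eq, not_true] at hij ⊢
    any_goals (refine disjoint_left.2 fun x => ?_; simp only [mem_compl_iff, mem_union,
      Set.mem_sdiff, mem_iUnion]; tauto)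
    exact dP fun e => hij (by rw [e]), fun x => by
    by_cases h1 : x ∈ ⋃ i, P i
    · obtain ⟨i, hi⟩ := mem_iUnion.1 h1
      exact ⟨some (some i), hi⟩
    by_cases h2 : x ∈ B
    · exact ⟨some none, h2, h1⟩
    · exact ⟨none, fun h => h.elim h1 h2⟩⟩
  refine (glue (μ := μ) ?_ ?_ (k (⋃ i, Q i) dP).1 (k (⋃ i, P i) dQ).1 (k _ dP).2 (k _ dQ).2
    (f := fun i => i.elim id fun i => i.elim a f) (g := fun i => i.elim id fun i => i.elim b g)
    ?_).imp fun R hR => hR.mono fun x hx i => hx (some (some i))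
  · rintro (_ | _ | i)
    exacts [(mA.union mB).compl, mB.diff mA, mP i]
  · rintro (_ | _ | i)
    exacts [(mB.union mA).compl, mA.diff mB, mQ i]
  · rintro (_ | _ | i)
    · simp only [Option.elim, union_comm (⋃ i, Q i)]
      exact ⟨.id _, .id _, by simp, by simp⟩
    exacts [h1, h i]

lemma exists_sub [SigmaFinite μ] {A : Set X} (hA : MeasurableSet A) {c : ℝ≥0∞} (h : c < μ A) :
    ∃ D ⊆ A, MeasurableSet D ∧ μ D = c := by
  obtain ⟨B, b1, b2, b3, b4⟩ := Measure.exists_subset_measure_lt_top hA h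
  obtain ⟨φ, ψ, h1⟩ := cond_iso b3.ne_bot b4.ne
  have s1 : c / μ B ≤ 1 := ENNReal.div_le_of_le_mul (by simpa using b3.le)
  have := h1.m1.measure_preimage (s := Icc 0 (c / μ B).toReal) measurableSet_Icc.nullMeasurableSet
  rw [cond_apply b1, Measure.restrict_apply measurableSet_Icc, inter_eq_left.2 (Icc_subset_Icc_right
    (ENNReal.toReal_le_of_le_ofReal zero_le_one (by simpa using s1))), Real.volume_Icc, sub_zero,
    ENNReal.ofReal_toReal (ne_top_of_le_ne_top ENNReal.one_ne_top s1), ENNReal.div_eq_inv_mul] at this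
  exact ⟨_, inter_subset_left.trans b2, b1.inter (h1.m1.measurable measurableSet_Icc),
    (ENNReal.mul_right_inj (ENNReal.inv_ne_zero.2 b4.ne) (ENNReal.inv_ne_top.2 b3.ne_bot)).1 this⟩

end Pool.Agent.H49.MI
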