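import Pool.Agent.H49.MI1

/-! Markers and sparse sets. -/

set_option autoImplicit false

namespace Pool.Agent.H49.MI

open MeasureTheory Set Filter Topology Pool.Agent.H49.RX Function
open scoped ENNReal Classical

variable {X : Type} [MeasurableSpace X] {μ : Measure X}

def Sep (S : Aut μ) (H : ℕ) (B : Set X) : Prop :=
  ∀ x ∈ B, ∀ j : ℤ, j ≠ 0 → |j| ≤ H → (S ^ j).1 x ∉ B

def Nb (S : Aut μ) (H : ℕ) (B : Set X) : Set X := {x | ∃ j : ℤ, |j| ≤ H ∧ (S ^ j).1 x ∈ B}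

lemma zm (S : Aut μ) (j : ℤ) : Measurable (S ^ j).1 := (S ^ j).2.1.measurable

lemma zp_neg (S : Aut μ) (j : ℤ) (x : X) : (S ^ (-j)).1 ((S ^ j).1 x) = x := by
  rw [zp_add]; simp

lemma nb_eq (S : Aut μ) (H : ℕ) (B : Set X) :
    Nb S H B = ⋃ j ∈ Finset.Icc (-H : ℤ) H, (S ^ j).1 ⁻¹' B := by
  ext x; simp only [Nb, mem_ofPred_eq, mem_iUnion, Finset.mem_Icc, abs_le, exists_prop, mem_preimage]

lemma nb_meas (S : Aut μ) (H : ℕ) {B : Set X} (h : MeasurableSet B) : MeasurableSet (Nb S H B) := by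
  rw [nb_eq]; exact Finset.measurableSet_biUnion _ fun j _ => zm S j h

lemma nb_fin (S : Aut μ) (H : ℕ) {B : Set X} (h : μ B ≠ ⊤) : μ (Nb S H B) ≠ ⊤ := by
  rw [nb_eq]
  exact (measure_biUnion_lt_top (Finset.finite_toSet _) fun j _ => by rwa [mu_aut, lt_top_iff_ne_top]).ne

lemma mix_pre {T : Aut μ} (h : MixInf T) {A : Set X} (hA : MeasurableSet A) (fA : μ A ≠ ⊤)
    {δ : ℝ≥0∞} (hδ : δ ≠ 0) : ∃ N : ℕ, ∀ m : ℤ, N ≤ |m| → μ (A ∩ (T ^ m).1 ⁻¹' A) ≤ δ := by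
  obtain ⟨N, hN⟩ := eventually_atTop.1 ((h A A hA hA fA fA).eventually (ge_mem_nhds hδ.bot_lt))
  have e : ∀ m : ℤ, μ (A ∩ (T ^ m).1 ⁻¹' A) = μ (A ∩ (T ^ (-m)).1 ⁻¹' A) := fun m => by
    rw [← mu_aut (T ^ (-m)), inter_comm]
    congr 1
    ext x
    simp [zp_add, -SubgroupClass.coe_zpow, -zpow_neg]
  have a : ∀ n : ℕ, N ≤ n → μ (A ∩ (T ^ (-n : ℤ)).1 ⁻¹' A) ≤ δ := fun n hn => by
    have := hN n hn
    rwa [Equiv.image_eq_preimage_symm, inter_comm, show (T ^ n).1.symm = (T ^ (-n : ℤ)).1 by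
      rw [zpow_neg, zpow_natCast]; rfl] at this
  refine ⟨N, fun m hm => ?_⟩
  obtain ⟨n, rfl | rfl⟩ := m.eq_nat_or_neg
  · rw [e]; exact a n (by simpa using hm)
  · exact a n (by simpa using hm)

variable [StandardBorelSpace X] [SigmaFinite μ]

lemma aper {T : Aut μ} (h : MixInf T) : ∀ᵐ x ∂μ, ∀ j : ℤ, j ≠ 0 → (T ^ j).1 x ≠ x := by
  refine ae_all_iff.2 fun j => ?_
  by_cases hj : j = 0
  · simp [hj]
  refine mem_ae_iff.2 (measure_mono_null (t := {x | (T ^ j).1 x = x}) (fun x hx => by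
    simpa [hj] using hx) (by_contra fun hc => ?_))
  obtain ⟨A, a1, a2, a3, a4⟩ := Measure.exists_subset_measure_lt_top
    (measurableSet_eq_fun (zm T j) measurable_id) (pos_iff_ne_zero.2 hc)
  obtain ⟨N, hN⟩ := mix_pre h a1 a4.ne (ENNReal.half_pos a3.ne').ne'
  have b : ∀ n : ℕ, ∀ x ∈ A, (T ^ (j * n)).1 x = x := fun n x hx => by
    induction n with
    | zero => simp
    | succ n ih => rw [Nat.cast_succ, mul_add_one, ← zp_add, show (T ^ j).1 x = x from a2 hx, ih]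
  refine (ENNReal.half_lt_self a3.ne' a4.ne).not_ge (le_trans (measure_mono fun x hx =>
    mem_inter hx (by rwa [mem_preimage, b N x hx])) (hN (j * N) ?_))
  rw [abs_mul, Nat.abs_cast]
  exact le_mul_of_one_le_left (Nat.cast_nonneg _) (Int.one_le_abs hj)

lemma marker {T : Aut μ} (h : MixInf T) (H : ℕ) :
    ∃ B, MeasurableSet B ∧ Sep T H B ∧ ∀ᵐ x ∂μ, x ∈ Nb T H B := by
  have he := measurableEmbedding_embeddingReal X
  obtain ⟨f, hf⟩ := (TopologicalSpace.countable_countableBasis ℝ).exists_eq_range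
    (((TopologicalSpace.isBasis_countableBasis ℝ).exists_subset_of_mem_open (mem_univ 0)
      isOpen_univ).imp fun _ h => h.1)
  let C : ℕ → Set X := fun k => embeddingReal X ⁻¹' f k
  have mC : ∀ k, MeasurableSet (C k) := fun k => he.measurable
    (TopologicalSpace.isOpen_of_mem_countableBasis (hf ▸ mem_range_self k)).measurableSet
  let D : ℕ → Set X := fun k => {x | x ∈ C k ∧ ∀ j : ℤ, j ≠ 0 → |j| ≤ H → (T ^ j).1 x ∉ C k}
  have mD : ∀ k, MeasurableSet (D k) := fun k => (mC k).inter (s₂ := {x | ∀ j : ℤ, j ≠ 0 → |j| ≤ H →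
      (T ^ j).1 x ∉ C k}) (by
    simp only [ofPred_forall]
    exact .iInter fun j => .iInter fun _ => .iInter fun _ => (zm T j (mC k)).compl)
  let B : ℕ → Set X := fun k => Nat.rec ∅ (fun k B => B ∪ (D k \ Nb T H B)) k
  have e : ∀ k, B (k + 1) = B k ∪ (D k \ Nb T H (B k)) := fun _ => rfl
  have mB : ∀ k, MeasurableSet (B k) ∧ Sep T H (B k) := fun k => by
    induction k with
    | zero => exact ⟨.empty, fun _ h => h.elim⟩
    | succ k ih =>
      refine ⟨ih.1.union ((mD k).diff (nb_meas T H ih.1)), ?_⟩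
      rintro x (a | a) j h1 h2 (b | b)
      · exact ih.2 x a j h1 h2 b
      · exact b.2 ⟨-j, by rwa [abs_neg], by rwa [zp_neg]⟩
      · exact a.2 ⟨j, h2, b⟩
      · exact a.1.2 j h1 h2 b.1.1
  have mo : Monotone B := monotone_nat_of_le_succ fun k => subset_union_left
  refine ⟨⋃ k, B k, .iUnion fun k => (mB k).1, fun x hx j h1 h2 hy => ?_, (aper h).mono fun x hx => ?_⟩
  · obtain ⟨k, a⟩ := mem_iUnion.1 hx
    obtain ⟨l, b⟩ := mem_iUnion.1 hy
    exact (mB (max k l)).2 x (mo (le_max_left _ _) a) j h1 h2 (mo (le_max_right _ _) b)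
  · have fin : ((fun j : ℤ => embeddingReal X ((T ^ j).1 x)) '' {j | j ≠ 0 ∧ |j| ≤ H}).Finite :=
      ((finite_Icc (-H : ℤ) H).subset fun j hj => abs_le.1 hj.2).image _
    obtain ⟨v, v1, v2, v3⟩ := (TopologicalSpace.isBasis_countableBasis ℝ).exists_subset_of_mem_open
      (a := embeddingReal X x) (fun ⟨j, a, b⟩ => hx j a.1 (he.injective b)) fin.isClosed.isOpen_compl
    obtain ⟨k, rfl⟩ := hf.subset v1
    by_cases c : x ∈ Nb T H (B k)
    · exact c.imp fun j a => ⟨a.1, mem_iUnion.2 ⟨k, a.2⟩⟩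
    · exact ⟨0, by simp, mem_iUnion.2 ⟨k + 1, .inr ⟨⟨v2, fun j a b d => v3 d ⟨j, ⟨a, b⟩, rfl⟩⟩, c⟩⟩⟩

lemma mark2 {S : Aut μ} (h : MixInf S) {E : Set X} (mE : MeasurableSet E) (fE : μ E ≠ ⊤) (N : ℕ)
    {ε : ℝ≥0∞} (hε : ε ≠ 0) : ∃ (H : ℕ) (B : Set X), MeasurableSet B ∧ μ (E ∩ Nb S N B) ≤ ε ∧
      ∀ᵐ x ∂μ, ∃ i ≤ H, (S ^ (-(i : ℤ))).1 x ∈ B := by
  obtain ⟨K, K0, hK⟩ := ENNReal.exists_nat_pos_mul_gt hε fE
  obtain ⟨B, b1, b2, b3⟩ := marker h (K * (2 * N + 1))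
  let c : ℕ → ℤ := fun i => i * (2 * N + 1)
  obtain ⟨i, -, hi⟩ := ENNReal.exists_le_of_sum_le (Finset.nonempty_range_iff.2 K0.ne')
    (f := fun i => μ (E ∩ Nb S N ((S ^ c i).1 ⁻¹' B))) (g := fun _ => ε) (by
      rw [← measure_biUnion_finset (fun i hi i' hi' hn => disjoint_left.2 ?_) fun i _ =>
        mE.inter (nb_meas S N (zm S _ b1))]
      · exact (measure_mono (iUnion₂_subset fun _ _ => inter_subset_left)).trans
          (by simpa using hK.le)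
      rintro x ⟨-, j, a1, a2⟩ ⟨-, j', c1, c2⟩
      rw [mem_preimage, zp_add] at a2 c2
      have := Finset.mem_range.1 hi
      have := Finset.mem_range.1 hi'
      rw [abs_le] at a1 c1
      refine b2 _ a2 (c i' + j' - (c i + j)) ?_ ?_ (by rwa [zp_add, sub_add_cancel])
      · rcases lt_or_gt_of_ne hn with d | d <;> simp only [c] <;> zify at d <;> nlinarith
      · simp only [c]
        zify at *
        rw [abs_le]
        constructor <;> nlinarith)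
  refine ⟨2 * (K * (2 * N + 1)), _, zm S _ b1, hi, ?_⟩
  filter_upwards [(S ^ (c i - (K * (2 * N + 1) : ℕ))).2.1.quasiMeasurePreserving.ae b3] with x
    ⟨j, a, b⟩
  rw [abs_le] at a
  refine ⟨((K * (2 * N + 1) : ℕ) - j).toNat, by omega, ?_⟩
  rw [mem_preimage, zp_add, Int.toNat_of_nonneg (by omega)]
  rw [zp_add] at b
  convert b using 4
  ring

lemma sparse [NullSingletonClass μ] (hμ : μ univ = ⊤) {T : Aut μ} (h : MixInf T) {c : ℝ≥0∞}
    (hc : c ≠ ⊤) (M : ℕ) {δ : ℝ≥0∞} (hδ : δ ≠ 0) : ∃ B, MeasurableSet B ∧ μ B = c ∧ Sep T M B ∧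
      ∀ m : ℤ, m ≠ 0 → μ (B ∩ (T ^ m).1 ⁻¹' B) ≤ 3 * δ := by
  obtain ⟨K, K0, hK⟩ := ENNReal.exists_nat_pos_mul_gt hδ hc
  have K1 : (K : ℝ≥0∞) ≠ 0 := by simpa using K0.ne'
  have hη : c / K ≤ δ := ENNReal.div_le_of_le_mul' hK.le
  have fη : c / K ≠ ⊤ := ENNReal.div_ne_top hc K1
  rw [← ENNReal.mul_div_cancel K1 (ENNReal.natCast_ne_top K) (b := c)]
  generalize c / K = η at hη fη
  clear hK K0 K1
  induction K with
  | zero => exact ⟨∅, .empty, by simp, fun _ h => h.elim, by simp⟩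
  | succ K ih =>
    obtain ⟨B, b1, b2, b3, b4⟩ := ih
    have fB : μ B ≠ ⊤ := b2 ▸ ENNReal.mul_ne_top (ENNReal.natCast_ne_top K) fη
    obtain ⟨N, hN⟩ := mix_pre h b1 fB hδ
    obtain ⟨C, c1, c2, c3⟩ := marker h (N + M)
    obtain ⟨D, d1, d2, d3⟩ := exists_sub (c1.diff (nb_meas T (N + M) b1)) (c := η)
      (lt_top_iff_ne_top.2 fη |>.trans_eq (by_contra fun hn => nb_fin T (N + M) (B := C)
        (ne_top_of_le_ne_top (ENNReal.add_ne_top.2 ⟨Ne.symm hn, nb_fin T (N + M) fB⟩)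
          ((measure_mono (subset_sdiff_union _ _)).trans (measure_union_le _ _)))
        ((measure_congr (ae_eq_univ.2 c3)).trans hμ)))
    have k : ∀ x ∈ B ∪ D, ∀ j : ℤ, j ≠ 0 → |j| ≤ (N + M : ℕ) → (T ^ j).1 x ∈ B ∪ D →
        x ∈ B ∧ (T ^ j).1 x ∈ B := by
      rintro x (a | a) j h1 h2 (b | b)
      · exact ⟨a, b⟩
      · exact ((d1 b).2 ⟨-j, by rwa [abs_neg], by rwa [zp_neg]⟩).elim
      · exact ((d1 a).2 ⟨j, h2, b⟩).elim
      · exact (c2 x (d1 a).1 j h1 h2 (d1 b).1).elim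
    refine ⟨B ∪ D, b1.union d2, ?_, fun x hx j h1 h2 hy => ?_, fun m hm => ?_⟩
    · rw [measure_union (disjoint_left.2 fun x a b => (d1 b).2 ⟨0, by positivity, a⟩) d2, b2, d3,
        Nat.cast_succ, add_one_mul]
    · obtain ⟨a, b⟩ := k x hx j h1 (by omega) hy
      exact b3 x a j h1 h2 b
    · by_cases a : |m| ≤ (N + M : ℕ)
      · exact (measure_mono fun x hx => k x hx.1 m hm a hx.2).trans (b4 m hm)
      · refine (measure_mono (t := (B ∩ (T ^ m).1 ⁻¹' B ∪ D) ∪ (T ^ m).1 ⁻¹' D) fun x hx => ?_).trans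
          ((measure_union_le _ _).trans ((add_le_add ((measure_union_le _ _).trans (add_le_add
            (hN m (by omega)) (d3.trans_le hη))) ((mu_aut _ _).trans_le (d3.trans_le hη))).trans
              (le_of_eq (by ring))))
        simp only [mem_inter_iff, mem_union, mem_preimage] at hx ⊢
        tauto

end Pool.Agent.H49.MI
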