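import Pool.Agent.H49.MI2

/-! Conjugates of a mixing automorphism approximate every mixing automorphism. -/

set_option autoImplicit false

namespace Pool.Agent.H49.MI

open MeasureTheory Set Filter Topology Pool.Agent.H49.RX Function
open scoped ENNReal Classical

variable {X : Type} [MeasurableSpace X] {μ : Measure X}

lemma conj_ap (R T : Aut μ) (j : ℤ) (x : X) :
    R.1 (((R⁻¹ * T * R) ^ j).1 x) = (T ^ j).1 (R.1 x) := by
  have := conj_zpow (i := j) (a := R⁻¹) (b := T)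
  rw [inv_inv] at this
  rw [this]
  simp

lemma sd_le (S T : Aut μ) (A : Set X) :
    μ (symmDiff (S.1 '' A) (T.1 '' A)) ≤ 2 * μ {x | x ∈ A ∧ S.1 x ≠ T.1 x} := by
  rw [two_mul]
  refine (measure_mono ?_).trans ((measure_union_le _ _).trans
    (add_le_add (mu_aut S⁻¹ _).le (mu_aut T⁻¹ _).le))
  rintro _ (⟨⟨x, a, rfl⟩, b⟩ | ⟨⟨x, a, rfl⟩, b⟩)
  · exact .inl (by simpa using ⟨a, fun e => b ⟨x, a, e.symm⟩⟩)
  · exact .inr (by simpa using ⟨a, fun e => b ⟨x, a, e⟩⟩)

lemma abs_le' {a b c : ℝ≥0∞} (ha : a ≠ ⊤) (hb : b ≠ ⊤) (h : a ≤ b + c) (h' : b ≤ a + c) :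
    ENNReal.ofReal |a.toReal - b.toReal| ≤ c := by
  by_cases hc : c = ⊤
  · simp [hc]
  have a1 := ENNReal.toReal_mono (ENNReal.add_ne_top.2 ⟨hb, hc⟩) h
  have a2 := ENNReal.toReal_mono (ENNReal.add_ne_top.2 ⟨ha, hc⟩) h'
  rw [ENNReal.toReal_add hb hc] at a1
  rw [ENNReal.toReal_add ha hc] at a2
  exact (ENNReal.ofReal_le_iff_le_toReal hc).2 (abs_le.2 ⟨by linarith, by linarith⟩)

lemma mu_img (S : Aut μ) (A : Set X) : μ (S.1 '' A) = μ A := by
  rw [Equiv.image_eq_preimage_symm]; exact mu_aut S⁻¹ A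

variable [StandardBorelSpace X] [SigmaFinite μ] [NullSingletonClass μ]

theorem core (hμ : μ univ = ⊤) {T S : Aut μ} (hT : MixInf T) (hS : MixInf S) {E : Set X}
    (mE : MeasurableSet E) (fE : μ E ≠ ⊤) (N : ℕ) {ε : ℝ≥0∞} (hε : ε ≠ 0) : ∃ R : Aut μ,
      (∀ j : ℤ, |j| ≤ N → μ {x | x ∈ E ∧ ((R⁻¹ * T * R) ^ j).1 x ≠ (S ^ j).1 x} ≤ ε) ∧
      ∀ n : ℤ, μ (E ∩ ((R⁻¹ * T * R) ^ n).1 ⁻¹' E) ≤ μ (E ∩ (S ^ n).1 ⁻¹' E) + ε := by
  obtain ⟨H, B, mB, b1, b2⟩ := mark2 hS mE fE N hε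
  let M := H + N
  let B₁ := B ∩ Nb S H E
  have m1 : MeasurableSet B₁ := mB.inter (nb_meas S H mE)
  have f1 : μ B₁ ≠ ⊤ := ne_top_of_le_ne_top (nb_fin S H fE) (measure_mono inter_subset_right)
  obtain ⟨δ, δ0, hδ⟩ := ENNReal.exists_nnreal_pos_mul_lt
    (a := (M + 1 : ℕ) * ((M + 1 : ℕ) * 3)) (by finiteness) hε
  obtain ⟨B', m2, e2, s2, s3⟩ := sparse hμ hT f1 M (δ := δ) (by simpa using δ0.ne')
  obtain ⟨r, r', hr⟩ := iso_fin e2.symm f1
  let C : ℕ → Set X := fun i => {b | ∀ j : ℤ, 0 < j → j ≤ i → (S ^ j).1 b ∉ B}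
  have mC : ∀ i, MeasurableSet (C i) := fun i => by
    simp only [C, ofPred_forall]
    exact .iInter fun j => .iInter fun _ => .iInter fun _ => (zm S j mB).compl
  obtain ⟨R, hR⟩ := extend (μ := μ) (ι := Fin (M + 1))
    (P := fun i => (S ^ (-(i.val : ℤ))).1 ⁻¹' (C i ∩ B₁))
    (Q := fun i => (T ^ (-(i.val : ℤ))).1 ⁻¹' (r' ⁻¹' C i ∩ B'))
    (fun i => zm S _ ((mC i).inter m1)) (fun i => zm T _ ((hr.m2.measurable (mC i)).inter m2))
    (fun i i' h => by
      wlog d : i < i' generalizing i i'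
      · exact (this _ _ h.symm (lt_of_le_of_ne (not_lt.1 d) h.symm)).symm
      refine disjoint_left.2 fun x a b => b.1 (i'.val - i.val) (by omega) (by omega) ?_
      rw [zp_add, sub_add_eq_add_sub, add_neg_cancel, zero_sub]
      exact a.2.1)
    (fun i i' h => disjoint_left.2 fun x a b => s2 _ b.2 (i'.val - i.val) (by omega)
      (abs_le.2 ⟨by omega, by omega⟩) (by
        rw [zp_add, sub_add_eq_add_sub, add_neg_cancel, zero_sub]; exact a.2))
    (fun i => by rw [mu_aut]; exact ne_top_of_le_ne_top f1 (measure_mono inter_subset_right))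
    fun i => iso_trans (iso_trans (iso_aut _ ((mC i).inter m1)) (by
      have := iso_restrict hr (mC i)
      rwa [Measure.restrict_restrict (mC i), Measure.restrict_restrict (hr.m2.measurable (mC i))]
        at this)) (iso_symm (iso_aut _ ((hr.m2.measurable (mC i)).inter m2)))
  have hb : ∀ᵐ b ∂μ, b ∈ B₁ → r b ∈ B' ∧ r' (r b) = b := (ae_restrict_iff' m1).1
    ((hr.m1.quasiMeasurePreserving.ae (ae_restrict_mem m2)).and hr.e1)
  have gd : ∀ᵐ x ∂μ, x ∈ E → ∃ i ≤ H, ∃ b, b ∈ C i ∩ B₁ ∧ (S ^ (-(i : ℤ))).1 x = b ∧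
      (T ^ (-(i : ℤ))).1 (R.1 x) = r b ∧ r b ∈ B' ∧ r' (r b) = b := by
    filter_upwards [b2, hR, ae_all_iff.2 fun i : ℤ => (S ^ i).2.1.quasiMeasurePreserving.ae hb]
      with x ⟨i₀, a0, a1⟩ a2 a3 hx
    have ex : ∃ i : ℕ, (S ^ (-(i : ℤ))).1 x ∈ B := ⟨i₀, a1⟩
    have hi := (Nat.find_min' ex a1).trans a0
    have c : (S ^ (-(Nat.find ex : ℤ))).1 x ∈ C (Nat.find ex) ∩ B₁ := ⟨fun j c1 c2 c3 =>
      Nat.find_min ex (m := (Nat.find ex - j).toNat) (by omega) (by
        rw [zp_add] at c3; convert c3 using 4; omega), Nat.find_spec ex, Nat.find ex,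
      by simpa using hi, by rw [zp_add]; simpa using hx⟩
    refine ⟨_, hi, _, c, rfl, ?_, a3 _ c.2⟩
    rw [a2 ⟨_, Nat.lt_succ_of_le (hi.trans (Nat.le_add_right H N))⟩ c]
    simp
  refine ⟨R, fun j hj => (measure_mono_ae ?_).trans b1, fun n => ?_⟩
  · filter_upwards [gd, (S ^ j).2.1.quasiMeasurePreserving.ae hR] with x a b ⟨hx, hn⟩
    refine ⟨hx, by_contra fun hc => hn (R.1.injective ?_)⟩
    obtain ⟨i, a1, _, a2, rfl, a3, -⟩ := a hx
    have hi : N < i := not_le.1 fun d => hc ⟨-i, by simpa using d, a2.2.1⟩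
    rw [abs_le] at hj
    have e : (-((i + j).toNat : ℤ) + j) = -i := by omega
    rw [conj_ap, b ⟨(i + j).toNat, by omega⟩ (by
      rw [mem_preimage, zp_add, e]
      refine ⟨fun l l1 l2 l3 => ?_, a2.2⟩
      by_cases d : l ≤ i
      · exact a2.1 l l1 d l3
      · rw [zp_add] at l3
        exact hc ⟨_, abs_le.2 ⟨by omega, by dsimp only at l2; omega⟩, l3⟩)]
    simp only [Function.comp, zp_add, e, ← a3, ← zpow_neg]
    congr 3
    omega
  · refine (measure_mono_ae (t := E ∩ (S ^ n).1 ⁻¹' E ∪ ⋃ i ∈ Finset.range (M + 1),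
      ⋃ i' ∈ Finset.range (M + 1), R.1 ⁻¹' ((T ^ (-(i : ℤ))).1 ⁻¹' {y | n + i - i' ≠ 0 ∧
        y ∈ B' ∩ (T ^ (n + i - i')).1 ⁻¹' B'})) ?_).trans ((measure_union_le _ _).trans
          (add_le_add le_rfl ?_))
    · filter_upwards [gd, ((R⁻¹ * T * R) ^ n).2.1.quasiMeasurePreserving.ae gd] with x a b ⟨hx, hn⟩
      obtain ⟨i, a1, u, -, a2, a3, a4, a5⟩ := a hx
      obtain ⟨i', c1, u', -, c2, c3, c4, c5⟩ := b hn
      have e : (T ^ (n + i - i')).1 (r u) = r u' := by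
        rw [← a3, ← c3, conj_ap, zp_add, zp_add]; congr 3; ring
      by_cases d : n + i - i' = 0
      · refine .inl ⟨hx, ?_⟩
        have : u = u' := by rw [← a5, ← c5, ← e, d]; rfl
        rw [← a2, ← c2] at this
        have := congrArg (S ^ (i' : ℤ)).1 this
        rw [zp_add, zp_add, show (i' : ℤ) + -i = n by omega, add_neg_cancel] at this
        rw [mem_preimage, this]
        exact hn
      · exact .inr (mem_biUnion (Finset.mem_range.2 (show i < M + 1 by omega)) (mem_biUnion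
          (Finset.mem_range.2 (show i' < M + 1 by omega)) ⟨d, by rwa [a3], by
            rwa [mem_preimage, a3, e]⟩))
    · refine (measure_biUnion_finset_le _ _).trans ((Finset.sum_le_sum fun i _ =>
        (measure_biUnion_finset_le _ _).trans (Finset.sum_le_sum (g := fun _ => 3 * (δ : ℝ≥0∞))
          fun i' _ => ?_)).trans (le_trans (le_of_eq ?_) hδ.le))
      · rw [mu_aut, mu_aut]
        by_cases d : n + i - i' = 0
        · simp [d]
        · exact (measure_mono fun y hy => hy.2).trans (s3 _ d)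
      · simp only [Finset.sum_const, Finset.card_range, nsmul_eq_mul]
        ring

theorem dense (hμ : μ univ = ⊤) (A : ℕ → Set X) (hA : ∀ i, MeasurableSet (A i))
    (hs : ∑' i, 2⁻¹ ^ (i + 1) * μ (A i) ≠ ⊤) {T S : Aut μ} (hT : MixInf T) (hS : MixInf S)
    {ε : ℝ≥0∞} (hε : ε ≠ 0) : ∃ R : Aut μ, rInf A (R⁻¹ * T * R) S < ε := by
  obtain ⟨δ, δ0, hδ⟩ := ENNReal.exists_nnreal_pos_mul_lt (a := 12) (by finiteness) hε
  have δ1 : (δ : ℝ≥0∞) ≠ 0 := by simpa using δ0.ne'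
  obtain ⟨s, h1⟩ := ((ENNReal.tendsto_tsum_compl_atTop_zero hs).eventually
    (ge_mem_nhds δ1.bot_lt)).exists
  set w : ℕ → ℝ≥0∞ := fun i => 2⁻¹ ^ (i + 1) with hw
  have w1 : ∑' i, w i = 1 := by
    rw [ENNReal.tsum_geometric_add_one, ENNReal.one_sub_inv_two, inv_inv,
      ENNReal.inv_mul_cancel] <;> simp
  have fA : ∀ i, μ (A i) ≠ ⊤ := fun i h => ENNReal.ne_top_of_tsum_ne_top hs i
    (by rw [h, ENNReal.mul_top (by simp)])
  let t : ℕ → ℝ≥0∞ := (↑s : Set ℕ)ᶜ.indicator fun i => w i * μ (A i)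
  have t1 : ∑' i, t i ≤ δ := (tsum_subtype _ _).symm.trans_le h1
  let E := ⋃ i ∈ s, A i
  have mE : MeasurableSet E := Finset.measurableSet_biUnion _ fun i _ => hA i
  have fE : μ E ≠ ⊤ := (measure_biUnion_lt_top s.finite_toSet fun i _ => (fA i).lt_top).ne
  have sE : ∀ i ∈ s, A i ⊆ E := fun i hi => subset_biUnion_of_mem (u := A) hi
  obtain ⟨N, hN⟩ := mix_pre hS mE fE δ1
  obtain ⟨R, r1, r2⟩ := core hμ hT hS mE fE (N + 1) δ1
  refine ⟨R, lt_of_le_of_lt ?_ hδ⟩
  generalize R⁻¹ * T * R = U at r1 r2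
  have a1 : ∀ j : ℤ, |j| ≤ (N + 1 : ℕ) → ∀ i ∈ s,
      μ (symmDiff ((U ^ j).1 '' A i) ((S ^ j).1 '' A i)) ≤ 2 * δ := fun j hj i hi =>
    (sd_le _ _ _).trans (mul_le_mul_right (le_trans (measure_mono fun x hx => by
      exact ⟨sE i hi hx.1, hx.2⟩) (r1 j hj)) _)
  have a2 : ∀ (V W : Aut μ) i, μ (symmDiff (V.1 '' A i) (W.1 '' A i)) ≤ 2 * μ (A i) := fun V W i =>
    (sd_le _ _ _).trans (mul_le_mul_right (measure_mono fun x hx => hx.1) _)
  rw [show (δ : ℝ≥0∞) * 12 = (1 * (4 * δ) + 4 * δ) + (1 * (1 * (2 * δ)) + (1 * δ + 1 * δ)) by ring]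
  refine add_le_add ((ENNReal.tsum_le_tsum (g := fun i => w i * (4 * δ) + 4 * t i) fun i => ?_).trans
    ?_) (iSup_le fun n => (ENNReal.tsum_le_tsum fun i => ENNReal.tsum_le_tsum
      (g := fun j => w i * (w j * (2 * δ)) + (w j * t i + w i * t j)) fun j => ?_).trans ?_)
  · by_cases hi : i ∈ s
    · have b := a1 1 (by simp) i hi
      have c := a1 (-1) (by simp) i hi
      simp only [zpow_neg, zpow_one] at b c
      exact le_add_right (mul_le_mul_right ((add_le_add b c).trans (le_of_eq (by ring))) _)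
    · refine le_add_left ((mul_le_mul_right (add_le_add (a2 _ _ i) (a2 _ _ i)) _).trans
        (le_of_eq ?_))
      simp only [t, indicator_of_mem (show i ∈ (↑s : Set ℕ)ᶜ from hi), hw]
      ring
  · rw [ENNReal.tsum_add, ENNReal.tsum_mul_right, ENNReal.tsum_mul_left, w1]
    gcongr
  · have fi : ∀ V : Aut μ, μ (V.1 '' A i ∩ A j) ≤ μ (A i) := fun V =>
      (measure_mono inter_subset_left).trans (mu_img V _).le
    have fj : ∀ V : Aut μ, μ (V.1 '' A i ∩ A j) ≤ μ (A j) := fun V =>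
      measure_mono inter_subset_right
    have k := fun c => abs_le' (c := c) (ne_top_of_le_ne_top (fA j) (fj (U ^ (n + 1))))
      (ne_top_of_le_ne_top (fA j) (fj (S ^ (n + 1))))
    by_cases hi : i ∈ s
    swap
    · refine le_add_left (le_add_right ((mul_le_mul_right (k _ (le_add_left (fi _))
        (le_add_left (fi _))) _).trans (le_of_eq ?_)))
      simp only [t, indicator_of_mem (show i ∈ (↑s : Set ℕ)ᶜ from hi), hw]
      ring
    by_cases hj : j ∈ s
    swap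
    · refine le_add_left (le_add_left ((mul_le_mul_right (k _ (le_add_left (fj _))
        (le_add_left (fj _))) _).trans (le_of_eq ?_)))
      simp only [t, indicator_of_mem (show j ∈ (↑s : Set ℕ)ᶜ from hj), hw]
      ring
    refine le_add_right (le_trans (mul_le_mul_right ?_ _) (le_of_eq (mul_assoc _ _ _)))
    by_cases hn : n ≤ N
    · have b := a1 (n + 1 : ℕ) (by rw [Nat.abs_cast]; omega) i hi
      rw [zpow_natCast, zpow_natCast] at b
      refine k _ ((measure_mono fun x hx => ?_).trans ((measure_union_le _ _).trans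
        (add_le_add le_rfl b))) ((measure_mono fun x hx => ?_).trans ((measure_union_le _ _).trans
        (add_le_add le_rfl b))) <;>
      · simp only [mem_inter_iff, mem_union, mem_symmDiff] at hx ⊢
        tauto
    · have b : ∀ V : Aut μ, μ ((V ^ (n + 1)).1 '' A i ∩ A j) ≤
          μ (E ∩ (V ^ ((n + 1 : ℕ) : ℤ)).1 ⁻¹' E) := fun V => by
        rw [zpow_natCast, ← mu_aut (V ^ (n + 1))]
        exact measure_mono fun x hx => ⟨sE i hi ((Equiv.injective _).mem_set_image.1 hx.1),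
          sE j hj hx.2⟩
      have c := hN (n + 1 : ℕ) (by rw [Nat.abs_cast]; omega)
      rw [two_mul]
      exact k _ (le_add_left ((b U).trans ((r2 _).trans (add_le_add c le_rfl))))
        (le_add_left (le_add_left ((b S).trans c)))
  · simp only [ENNReal.tsum_add, ENNReal.tsum_mul_right, ENNReal.tsum_mul_left, w1]
    gcongr

end Pool.Agent.H49.MI
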