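import Mathlib

set_option autoImplicit false

namespace Pool.Agent.H49.MP

open Finset

/-- finite l^p norm -/
noncomputable def nrm {α : Type} (p : ℝ) (S : Finset α) (a : α → ℂ) : ℝ :=
  (∑ k ∈ S, ‖a k‖ ^ p) ^ (1 / p)

/-- finite matrix bounded by C on l^p -/
def IB {α β : Type} (p : ℝ) (K : α → β → ℂ) (N : Finset α) (S : Finset β) (C : ℝ) : Prop :=
  0 ≤ C ∧ ∀ a : β → ℂ, nrm p N (fun n => ∑ k ∈ S, K n k * a k) ≤ C * nrm p S a

variable {α β γ τ : Type} {p : ℝ}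

lemma sp_nonneg (S : Finset α) (a : α → ℂ) : 0 ≤ ∑ k ∈ S, ‖a k‖ ^ p :=
  sum_nonneg fun _ _ => by positivity

lemma nrm_nonneg (S : Finset α) (a : α → ℂ) : 0 ≤ nrm p S a :=
  Real.rpow_nonneg (sp_nonneg S a) _

lemma nrm_pow (hp : 0 < p) (S : Finset α) (a : α → ℂ) : nrm p S a ^ p = ∑ k ∈ S, ‖a k‖ ^ p := by
  unfold nrm
  rw [one_div, Real.rpow_inv_rpow (sp_nonneg S a) hp.ne']

lemma nrm_le_iff (hp : 0 < p) (S : Finset α) (a : α → ℂ) {x : ℝ} (hx : 0 ≤ x) :
    nrm p S a ≤ x ↔ ∑ k ∈ S, ‖a k‖ ^ p ≤ x ^ p := by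
  rw [← nrm_pow hp, Real.rpow_le_rpow_iff (nrm_nonneg S a) hx hp]

lemma IB_iff (hp : 0 < p) {K : α → β → ℂ} {N : Finset α} {S : Finset β} {C : ℝ} :
    IB p K N S C ↔ 0 ≤ C ∧ ∀ a : β → ℂ,
      ∑ n ∈ N, ‖∑ k ∈ S, K n k * a k‖ ^ p ≤ C ^ p * ∑ k ∈ S, ‖a k‖ ^ p := by
  unfold IB
  refine and_congr_right fun hC => forall_congr' fun a => ?_
  rw [nrm_le_iff hp _ _ (mul_nonneg hC (nrm_nonneg S a)), Real.mul_rpow hC (nrm_nonneg S a),
    nrm_pow hp]

lemma nrm_mono (hp : 0 < p) {S : Finset α} {a b : α → ℂ} (h : ∀ k ∈ S, ‖a k‖ ≤ ‖b k‖) :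
    nrm p S a ≤ nrm p S b := by
  rw [nrm_le_iff hp _ _ (nrm_nonneg S b), nrm_pow hp]
  exact sum_le_sum fun k hk => Real.rpow_le_rpow (norm_nonneg _) (h k hk) hp.le

lemma nrm_congr {S : Finset α} {a b : α → ℂ} (h : ∀ k ∈ S, a k = b k) :
    nrm p S a = nrm p S b := by
  unfold nrm
  rw [sum_congr rfl fun k hk => by rw [h k hk]]

lemma nrm_add (hp : 1 ≤ p) (S : Finset α) (a b : α → ℂ) :
    nrm p S (fun k => a k + b k) ≤ nrm p S a + nrm p S b := by
  refine le_trans ?_ (Real.Lp_add_le_of_nonneg S hp (fun k _ => norm_nonneg (a k))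
    (fun k _ => norm_nonneg (b k)))
  unfold nrm
  refine Real.rpow_le_rpow (sp_nonneg S _) (sum_le_sum fun k _ => ?_) (by positivity)
  exact Real.rpow_le_rpow (norm_nonneg _) (norm_add_le _ _) (by linarith)

lemma nrm_mul_le (hp : 0 < p) {S : Finset α} {u a : α → ℂ} {x : ℝ} (hx : 0 ≤ x)
    (h : ∀ k ∈ S, ‖u k‖ ≤ x) : nrm p S (fun k => u k * a k) ≤ x * nrm p S a := by
  rw [nrm_le_iff hp _ _ (mul_nonneg hx (nrm_nonneg S a)), Real.mul_rpow hx (nrm_nonneg S a),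
    nrm_pow hp, mul_sum]
  refine sum_le_sum fun k hk => ?_
  rw [← Real.mul_rpow hx (norm_nonneg _), norm_mul]
  exact Real.rpow_le_rpow (by positivity) (mul_le_mul_of_nonneg_right (h k hk) (norm_nonneg _))
    hp.le

variable {K K' : α → β → ℂ} {N : Finset α} {S : Finset β} {C C' : ℝ}

lemma IB.mono (h : IB p K N S C) (hC : C ≤ C') : IB p K N S C' :=
  ⟨h.1.trans hC, fun a => (h.2 a).trans (mul_le_mul_of_nonneg_right hC (nrm_nonneg S a))⟩

lemma IB.congr (h : IB p K N S C) (hK : ∀ n ∈ N, ∀ k ∈ S, K' n k = K n k) : IB p K' N S C :=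
  ⟨h.1, fun a => by
    rw [nrm_congr (b := fun n => ∑ k ∈ S, K n k * a k)
      (fun n hn => sum_congr rfl fun k hk => by rw [hK n hn k hk])]
    exact h.2 a⟩

lemma IB.add (hp : 1 ≤ p) (h : IB p K N S C) (h' : IB p K' N S C') :
    IB p (fun n k => K n k + K' n k) N S (C + C') :=
  ⟨add_nonneg h.1 h'.1, fun a => by
    have := nrm_add hp N (fun n => ∑ k ∈ S, K n k * a k) (fun n => ∑ k ∈ S, K' n k * a k)
    have h1 := h.2 a
    have h2 := h'.2 a
    simp only [add_mul, sum_add_distrib]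
    linarith⟩

lemma IB.zero (hp : 0 < p) : IB p (fun _ _ => 0) N S 0 := by
  rw [IB_iff hp]
  simp [hp.ne']

lemma IB.sum {ι : Type} (hp : 1 ≤ p) (I : Finset ι) {Kt : ι → α → β → ℂ} {Ct : ι → ℝ}
    (h : ∀ i ∈ I, IB p (Kt i) N S (Ct i)) :
    IB p (fun n k => ∑ i ∈ I, Kt i n k) N S (∑ i ∈ I, Ct i) := by
  classical
  induction I using Finset.induction_on with
  | empty => simpa using IB.zero (by linarith)
  | insert i I hi ih =>
    simp only [sum_insert hi]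
    exact IB.add hp (h i (mem_insert_self _ _)) (ih fun j hj => h j (mem_insert_of_mem hj))

lemma IB.mod (hp : 0 < p) (h : IB p K N S C) {u : α → ℂ} {v : β → ℂ} {x y : ℝ} (hx : 0 ≤ x)
    (hy : 0 ≤ y) (hu : ∀ n ∈ N, ‖u n‖ ≤ x) (hv : ∀ k ∈ S, ‖v k‖ ≤ y) :
    IB p (fun n k => u n * K n k * v k) N S (x * C * y) :=
  ⟨by have := h.1; positivity, fun a => by
    have h1 := nrm_mul_le hp (a := fun n => ∑ k ∈ S, K n k * (v k * a k)) hx hu
    have h2 := h.2 (fun k => v k * a k)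
    have h3 := nrm_mul_le hp (a := a) hy hv
    rw [nrm_congr (b := fun n => u n * ∑ k ∈ S, K n k * (v k * a k))
      (fun n _ => by rw [mul_sum]; exact sum_congr rfl fun k _ => by ring)]
    have := h.1
    calc _ ≤ x * (C * (y * nrm p S a)) := by
          refine h1.trans (mul_le_mul_of_nonneg_left (h2.trans ?_) hx)
          exact mul_le_mul_of_nonneg_left h3 this
      _ = _ := by ring⟩

lemma IB.smul (hp : 0 < p) (h : IB p K N S C) (c : ℂ) :
    IB p (fun n k => c * K n k) N S (‖c‖ * C) := by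
  have := h.mod hp (u := fun _ => c) (v := fun _ => 1) (norm_nonneg c) zero_le_one
    (fun _ _ => le_rfl) (fun _ _ => by simp)
  simpa using this

lemma IB.sub (hp : 1 ≤ p) (h : IB p K N S C) (h' : IB p K' N S C') :
    IB p (fun n k => K n k - K' n k) N S (C + C') := by
  have := h.add hp (h'.smul (by linarith) (-1))
  simpa [sub_eq_add_neg] using this

lemma IB.comp {K1 : α → γ → ℂ} {K2 : γ → β → ℂ} {X : Finset γ} (h1 : IB p K1 N X C)
    (h2 : IB p K2 X S C') : IB p (fun n k => ∑ x ∈ X, K1 n x * K2 x k) N S (C * C') :=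
  ⟨mul_nonneg h1.1 h2.1, fun a => by
    rw [nrm_congr (b := fun n => ∑ x ∈ X, K1 n x * ∑ k ∈ S, K2 x k * a k) (fun n _ => by
      simp only [sum_mul, mul_sum, mul_assoc]; exact sum_comm)]
    refine (h1.2 _).trans ?_
    rw [mul_assoc]
    exact mul_le_mul_of_nonneg_left (h2.2 a) h1.1⟩

lemma IB.pull {α' β' : Type} (hp : 0 < p) {K : α' → β' → ℂ} {N' : Finset α'} {S' : Finset β'}
    (h : IB p K N' S' C) (i : α → α') (j : β → β') (hi : Set.InjOn i N) (hj : Set.InjOn j S)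
    (hN : ∀ n ∈ N, i n ∈ N') (hS : ∀ k ∈ S, j k ∈ S') :
    IB p (fun n k => K (i n) (j k)) N S C := by
  classical
  rw [IB_iff hp] at h ⊢
  refine ⟨h.1, fun a => ?_⟩
  set a' : β' → ℂ := fun k' => ∑ k ∈ S, if j k = k' then a k else 0 with ha'
  have e1 : ∀ n', ∑ k' ∈ S', K n' k' * a' k' = ∑ k ∈ S, K n' (j k) * a k := by
    intro n'
    simp only [ha', mul_sum]
    rw [sum_comm]
    refine sum_congr rfl fun k hk => ?_
    simp only [mul_ite, mul_zero]
    rw [sum_ite_eq, if_pos (hS k hk)]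
  have e2 : ∀ k ∈ S, a' (j k) = a k := by
    intro k hk
    simp only [ha']
    rw [sum_eq_single k]
    · simp
    · intro k2 hk2 hne
      rw [if_neg fun e => hne (hj hk2 hk e)]
    · intro h'; exact absurd hk h'
  have e3 : ∑ k' ∈ S', ‖a' k'‖ ^ p = ∑ k ∈ S, ‖a k‖ ^ p := by
    rw [← sum_subset (s₁ := S.image j)]
    · rw [sum_image hj]
      exact sum_congr rfl fun k hk => by rw [e2 k hk]
    · intro x hx
      obtain ⟨k, hk, rfl⟩ := mem_image.1 hx
      exact hS k hk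
    · intro x _ hx
      have : a' x = 0 := by
        simp only [ha']
        refine sum_eq_zero fun k hk => if_neg fun e => hx (mem_image.2 ⟨k, hk, e⟩)
      rw [this, norm_zero, Real.zero_rpow hp.ne']
  have h2 := h.2 a'
  rw [e3] at h2
  refine le_trans ?_ h2
  simp only [e1]
  rw [← sum_image (f := fun n' => ‖∑ k ∈ S, K n' (j k) * a k‖ ^ p) hi]
  refine sum_le_sum_of_subset_of_nonneg ?_ fun _ _ _ => by positivity
  intro x hx
  obtain ⟨k, hk, rfl⟩ := mem_image.1 hx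
  exact hN k hk

lemma IB.subset (hp : 0 < p) {N' : Finset α} {S' : Finset β} (h : IB p K N' S' C) (hN : N ⊆ N')
    (hS : S ⊆ S') : IB p K N S C :=
  h.pull hp id id (Set.injOn_id _) (Set.injOn_id _) (fun _ h => hN h) (fun _ h => hS h)

/-- averaging over overlapping blocks -/
lemma IB.herz (hp : 1 ≤ p) (T : Finset τ) (R : α → τ → Prop) (R' : β → τ → Prop)
    [∀ n t, Decidable (R n t)] [∀ k t, Decidable (R' k t)] (Kt : τ → α → β → ℂ) (hC : 0 ≤ C)
    (h : ∀ t ∈ T, IB p (Kt t) (N.filter (R · t)) (S.filter (R' · t)) C) {A : ℝ} (hA : 0 < A)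
    (h1 : ∀ n ∈ N, ((T.filter (R n)).card : ℝ) ≤ A) (h2 : ∀ k ∈ S, ((T.filter (R' k)).card : ℝ) ≤ A) :
    IB p (fun n k => ∑ t ∈ T, if R n t ∧ R' k t then Kt t n k else 0) N S (C * A) := by
  have hp0 : 0 < p := by linarith
  rw [IB_iff hp0]
  refine ⟨by positivity, fun a => ?_⟩
  set x : τ → α → ℝ := fun t n => ‖∑ k ∈ S.filter (R' · t), Kt t n k * a k‖ with hx
  have e1 : ∀ n ∈ N, ‖∑ k ∈ S, (∑ t ∈ T, if R n t ∧ R' k t then Kt t n k else 0) * a k‖ ^ p ≤
      A ^ (p - 1) * ∑ t ∈ T, if R n t then x t n ^ p else 0 := by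
    intro n hn
    have : ∑ k ∈ S, (∑ t ∈ T, if R n t ∧ R' k t then Kt t n k else 0) * a k =
        ∑ t ∈ T.filter (R n), ∑ k ∈ S.filter (R' · t), Kt t n k * a k := by
      simp only [sum_mul, sum_filter]
      rw [sum_comm]
      refine sum_congr rfl fun t _ => ?_
      by_cases hR : R n t <;> simp [hR]
    rw [this, ← sum_filter]
    calc _ ≤ (∑ t ∈ T.filter (R n), x t n) ^ p :=
          Real.rpow_le_rpow (norm_nonneg _) (norm_sum_le _ _) hp0.le
      _ ≤ _ := Real.rpow_sum_le_const_mul_sum_rpow_of_nonneg _ hp fun _ _ => norm_nonneg _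
      _ ≤ _ := mul_le_mul_of_nonneg_right
          (Real.rpow_le_rpow (by positivity) (h1 n hn) (by linarith))
          (sum_nonneg fun _ _ => by positivity)
  have e2 : ∑ n ∈ N, ∑ t ∈ T, (if R n t then x t n ^ p else 0) ≤
      C ^ p * (A * ∑ k ∈ S, ‖a k‖ ^ p) := by
    rw [sum_comm]
    calc _ ≤ ∑ t ∈ T, C ^ p * ∑ k ∈ S.filter (R' · t), ‖a k‖ ^ p := by
          refine sum_le_sum fun t ht => ?_
          rw [← sum_filter]
          exact ((IB_iff hp0).1 (h t ht)).2 a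
      _ ≤ _ := by
          rw [← mul_sum]
          refine mul_le_mul_of_nonneg_left ?_ (by positivity)
          simp only [sum_filter]
          rw [sum_comm, mul_sum]
          refine sum_le_sum fun k hk => ?_
          rw [← sum_filter, sum_const, nsmul_eq_mul]
          exact mul_le_mul_of_nonneg_right (h2 k hk) (by positivity)
  calc _ ≤ ∑ n ∈ N, A ^ (p - 1) * ∑ t ∈ T, (if R n t then x t n ^ p else 0) := sum_le_sum e1
    _ ≤ A ^ (p - 1) * (C ^ p * (A * ∑ k ∈ S, ‖a k‖ ^ p)) := by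
        rw [← mul_sum]; exact mul_le_mul_of_nonneg_left e2 (by positivity)
    _ = _ := by
        rw [Real.mul_rpow hC hA.le, Real.rpow_sub_one hA.ne']
        field_simp

lemma IB.block [DecidableEq τ] (hp : 1 ≤ p) (φ : α → τ) (ψ : β → τ) (hC : 0 ≤ C)
    (h : ∀ t, IB p K (N.filter (φ · = t)) (S.filter (ψ · = t)) C) :
    IB p (fun n k => if φ n = ψ k then K n k else 0) N S C := by
  have := IB.herz hp (N.image φ) (fun n t => φ n = t) (fun k t => ψ k = t) (fun _ => K) hC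
    (fun t _ => h t) one_pos
    (fun n _ => by
      exact_mod_cast card_le_one.2 fun a ha b hb => by
        rw [← (mem_filter.1 ha).2, ← (mem_filter.1 hb).2])
    (fun n _ => by
      exact_mod_cast card_le_one.2 fun a ha b hb => by
        rw [← (mem_filter.1 ha).2, ← (mem_filter.1 hb).2])
  rw [mul_one] at this
  refine this.congr fun n hn k _ => ?_
  rw [sum_eq_single (φ n)]
  · simp [eq_comm]
  · intro t _ ht; rw [if_neg fun h => ht h.1.symm]
  · intro h'; exact absurd (mem_image_of_mem φ hn) h'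

lemma IB.schur (hp : 1 ≤ p) (D : α → β → ℝ) (hD : ∀ n k, 0 ≤ D n k)
    (hK : ∀ n ∈ N, ∀ k ∈ S, ‖K n k‖ ≤ D n k) (hC : 0 ≤ C)
    (h1 : ∀ n ∈ N, ∑ k ∈ S, D n k ≤ C) (h2 : ∀ k ∈ S, ∑ n ∈ N, D n k ≤ C) : IB p K N S C := by
  have hp0 : 0 < p := by linarith
  rw [IB_iff hp0]
  refine ⟨hC, fun a => ?_⟩
  have hpi : p⁻¹ ≤ 1 := inv_le_one_of_one_le₀ hp
  have e1 : ∀ n ∈ N, ‖∑ k ∈ S, K n k * a k‖ ^ p ≤ C ^ (p - 1) * ∑ k ∈ S, D n k * ‖a k‖ ^ p := by
    intro n hn
    have h3 := Real.inner_le_weight_mul_Lp_of_nonneg S hp (D n) (fun k => ‖a k‖) (hD n)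
      (fun _ => norm_nonneg _)
    have h4 : ‖∑ k ∈ S, K n k * a k‖ ≤ ∑ k ∈ S, D n k * ‖a k‖ :=
      (norm_sum_le _ _).trans (sum_le_sum fun k hk => by
        rw [norm_mul]; exact mul_le_mul_of_nonneg_right (hK n hn k hk) (norm_nonneg _))
    have h5 : 0 ≤ ∑ k ∈ S, D n k * ‖a k‖ ^ p :=
      sum_nonneg fun k _ => mul_nonneg (hD n k) (by positivity)
    have h6 : (∑ k ∈ S, D n k) ^ (1 - p⁻¹) ≤ C ^ (1 - p⁻¹) :=
      Real.rpow_le_rpow (sum_nonneg fun k _ => hD n k) (h1 n hn) (by linarith)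
    calc _ ≤ (C ^ (1 - p⁻¹) * (∑ k ∈ S, D n k * ‖a k‖ ^ p) ^ p⁻¹) ^ p :=
          Real.rpow_le_rpow (norm_nonneg _) (h4.trans (h3.trans
            (mul_le_mul_of_nonneg_right h6 (by positivity)))) hp0.le
      _ = _ := by
          rw [Real.mul_rpow (by positivity) (by positivity), Real.rpow_inv_rpow h5 hp0.ne',
            ← Real.rpow_mul hC]
          congr 2
          field_simp
  calc _ ≤ ∑ n ∈ N, C ^ (p - 1) * ∑ k ∈ S, D n k * ‖a k‖ ^ p := sum_le_sum e1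
    _ ≤ C ^ (p - 1) * (C * ∑ k ∈ S, ‖a k‖ ^ p) := by
        rw [← mul_sum]
        refine mul_le_mul_of_nonneg_left ?_ (by positivity)
        rw [sum_comm, mul_sum]
        refine sum_le_sum fun k hk => ?_
        rw [← sum_mul]
        exact mul_le_mul_of_nonneg_right (h2 k hk) (by positivity)
    _ = _ := by
        rw [← mul_assoc]
        congr 1
        rcases hC.eq_or_lt with h0 | h0
        · rw [← h0, Real.zero_rpow hp0.ne', mul_zero]
        · rw [Real.rpow_sub_one h0.ne']; field_simp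

lemma holder {q : ℝ} (hpq : p.HolderConjugate q) (S : Finset α) (a b : α → ℂ) :
    ‖∑ k ∈ S, a k * b k‖ ≤ nrm p S a * nrm q S b := by
  refine (norm_sum_le _ _).trans ?_
  simp only [norm_mul]
  exact Real.inner_le_Lp_mul_Lq_of_nonneg S hpq (fun _ _ => norm_nonneg _)
    (fun _ _ => norm_nonneg _)

lemma nrm_le_of_dual {q : ℝ} (hpq : p.HolderConjugate q) (S : Finset α) (a : α → ℂ) {x : ℝ}
    (hx : 0 ≤ x) (h : ∀ b : α → ℂ, ‖∑ k ∈ S, a k * b k‖ ≤ x * nrm q S b) : nrm p S a ≤ x := by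
  have hp := hpq.pos
  have hq := hpq.symm.pos
  set b : α → ℂ := fun k => ((‖a k‖ ^ p : ℝ) : ℂ) / a k with hb
  set Y := ∑ k ∈ S, ‖a k‖ ^ p with hY
  have hY0 : 0 ≤ Y := sp_nonneg S a
  have e1 : ∑ k ∈ S, a k * b k = (Y : ℂ) := by
    rw [hY]; push_cast
    refine sum_congr rfl fun k _ => ?_
    by_cases h0 : a k = 0
    · simp [h0, hp.ne']
    · simp only [hb]; field_simp
  have e2 : nrm q S b = Y ^ (1 / q) := by
    unfold nrm
    congr 1
    refine sum_congr rfl fun k _ => ?_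
    by_cases h0 : a k = 0
    · simp [hb, h0, hp.ne', hq.ne']
    · have h1 : 0 < ‖a k‖ := norm_pos_iff.2 h0
      simp only [hb, norm_div, Complex.norm_real, Real.norm_eq_abs]
      rw [abs_of_nonneg (by positivity), ← Real.rpow_sub_one h1.ne', ← Real.rpow_mul h1.le,
        hpq.sub_one_mul_conj]
  have h3 := h b
  rw [e1, e2, Complex.norm_real, Real.norm_of_nonneg hY0] at h3
  rcases hY0.eq_or_lt with h0 | h0
  · unfold nrm
    rw [← hY, ← h0, Real.zero_rpow (by positivity)]; exact hx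
  · have h4 : Y = Y ^ (1 / p) * Y ^ (1 / q) := by
      rw [← Real.rpow_add h0, one_div, one_div, hpq.inv_add_inv_eq_one, Real.rpow_one]
    have h5 : 0 < Y ^ (1 / q) := by positivity
    unfold nrm
    rw [← hY]
    refine le_of_mul_le_mul_right ?_ h5
    linarith

lemma IB.bil {q : ℝ} (hpq : p.HolderConjugate q) (h : IB p K N S C) (a : β → ℂ) (b : α → ℂ) :
    ‖∑ n ∈ N, (∑ k ∈ S, K n k * a k) * b n‖ ≤ C * nrm p S a * nrm q N b :=
  (holder hpq N _ b).trans (mul_le_mul_of_nonneg_right (h.2 a) (nrm_nonneg _ _))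

lemma IB.of_bil {q : ℝ} (hpq : p.HolderConjugate q) (hC : 0 ≤ C)
    (h : ∀ (a : β → ℂ) (b : α → ℂ),
      ‖∑ n ∈ N, (∑ k ∈ S, K n k * a k) * b n‖ ≤ C * nrm p S a * nrm q N b) : IB p K N S C :=
  ⟨hC, fun a => nrm_le_of_dual hpq N _ (mul_nonneg hC (nrm_nonneg _ _)) (h a)⟩

lemma IB.dual {q : ℝ} (hpq : p.HolderConjugate q) (h : IB q (fun k n => K n k) S N C) :
    IB p K N S C := by
  refine IB.of_bil hpq h.1 fun a b => ?_
  have := h.bil hpq.symm b a
  have e : ∑ n ∈ N, (∑ k ∈ S, K n k * a k) * b n = ∑ k ∈ S, (∑ n ∈ N, K n k * b n) * a k := by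
    simp only [sum_mul]
    rw [sum_comm]
    exact sum_congr rfl fun _ _ => sum_congr rfl fun _ _ => by ring
  rw [e]
  linarith

end Pool.Agent.H49.MP
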