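import Pool.Agent.H49.MP1

set_option autoImplicit false

namespace Pool.Agent.H49.MP

open Finset Complex

variable {α β : Type} {p : ℝ}

noncomputable def EE (a w : ℂ) : ℂ := a / ‖a‖ * exp (Real.log ‖a‖ * w)

lemma EE_one (a : ℂ) : EE a 1 = a := by
  unfold EE
  by_cases h : a = 0
  · simp [h]
  · have h1 : 0 < ‖a‖ := norm_pos_iff.2 h
    rw [mul_one, ← ofReal_exp, Real.exp_log h1]
    have : (‖a‖ : ℂ) ≠ 0 := by exact_mod_cast h1.ne'
    field_simp

lemma EE_pow (a w : ℂ) {r s : ℝ} (hr : 0 < r) (hs : 0 < s) (h : w.re * r = s) :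
    ‖EE a w‖ ^ r = ‖a‖ ^ s := by
  unfold EE
  by_cases h0 : a = 0
  · simp [h0, hr.ne', hs.ne']
  · have h1 : 0 < ‖a‖ := norm_pos_iff.2 h0
    rw [norm_mul, norm_div, norm_real, norm_norm, div_self h1.ne', one_mul, norm_exp,
      re_ofReal_mul, ← Real.rpow_def_of_pos h1, ← Real.rpow_mul h1.le, h]

lemma EE_bd (a : ℂ) (c0 c1 : ℝ) (z : ℂ) (h0 : 0 ≤ z.re) (h1 : z.re ≤ 1) :
    ‖EE a (c0 * (1 - z) + c1 * z)‖ ≤ Real.exp (|Real.log ‖a‖| * (|c0| + |c1|)) := by
  unfold EE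
  rw [norm_mul, norm_exp, re_ofReal_mul]
  have e1 : ‖a / (‖a‖ : ℂ)‖ ≤ 1 := by
    rw [norm_div, norm_real, norm_norm]; exact div_self_le_one _
  have e2 : |(c0 * (1 - z) + c1 * z : ℂ).re| ≤ |c0| + |c1| := by
    have : (c0 * (1 - z) + c1 * z : ℂ).re = c0 * (1 - z.re) + c1 * z.re := by simp
    rw [this]
    refine (abs_add_le _ _).trans (add_le_add ?_ ?_)
    · rw [abs_mul]; exact mul_le_of_le_one_right (abs_nonneg _) (abs_le.2 ⟨by linarith, by linarith⟩)
    · rw [abs_mul]; exact mul_le_of_le_one_right (abs_nonneg _) (abs_le.2 ⟨by linarith, by linarith⟩)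
  refine (mul_le_of_le_one_left (Real.exp_pos _).le e1).trans (Real.exp_le_exp.2 ?_)
  refine (le_abs_self _).trans ?_
  rw [abs_mul]
  exact mul_le_mul_of_nonneg_left e2 (abs_nonneg _)

lemma rp_mix {x u v θ : ℝ} (hx : 0 ≤ x) (hu : 0 ≤ u) (hv : 0 ≤ v) (h0 : 0 ≤ θ) (h1 : θ ≤ 1) :
    (x ^ u) ^ (1 - θ) * (x ^ v) ^ θ = x ^ ((1 - θ) * u + θ * v) := by
  rw [← Real.rpow_mul hx, ← Real.rpow_mul hx, ← Real.rpow_add_of_nonneg hx
    (mul_nonneg hu (by linarith)) (mul_nonneg hv h0)]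
  congr 1; ring

/-- Riesz-Thorin for finite matrices -/
lemma IB.interp {K : α → β → ℂ} {N : Finset α} {S : Finset β} {C p0 p1 θ : ℝ} (hp : 1 < p)
    (hp0 : 1 < p0) (hp1 : 1 < p1) (h0 : 0 ≤ θ) (h1 : θ ≤ 1)
    (hθ : p⁻¹ = (1 - θ) * p0⁻¹ + θ * p1⁻¹) (k0 : IB p0 K N S C) (k1 : IB p1 K N S C) :
    IB p K N S C := by
  have c := Real.HolderConjugate.conjExponent hp
  have c0 := Real.HolderConjugate.conjExponent hp0
  have c1 := Real.HolderConjugate.conjExponent hp1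
  set q := p.conjExponent
  set q0 := p0.conjExponent
  set q1 := p1.conjExponent
  have hq : q⁻¹ = (1 - θ) * q0⁻¹ + θ * q1⁻¹ := by
    have := c.inv_add_inv_eq_one
    have := c0.inv_add_inv_eq_one
    have := c1.inv_add_inv_eq_one
    have e0 : q0⁻¹ = 1 - p0⁻¹ := by linarith
    have e1 : q1⁻¹ = 1 - p1⁻¹ := by linarith
    rw [e0, e1]; linarith
  have P := c.pos
  have Q := c.symm.pos
  have P0 := c0.pos
  have Q0 := c0.symm.pos
  have P1 := c1.pos
  have Q1 := c1.symm.pos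
  refine IB.of_bil c k0.1 fun a b => ?_
  set wa : ℂ → ℂ := fun z => ((p / p0 : ℝ) : ℂ) * (1 - z) + ((p / p1 : ℝ) : ℂ) * z with hwa
  set wb : ℂ → ℂ := fun z => ((q / q0 : ℝ) : ℂ) * (1 - z) + ((q / q1 : ℝ) : ℂ) * z with hwb
  set F : ℂ → ℂ := fun z => ∑ n ∈ N, (∑ k ∈ S, K n k * EE (a k) (wa z)) * EE (b n) (wb z) with hF
  set A := ∑ k ∈ S, ‖a k‖ ^ p with hA
  set B := ∑ n ∈ N, ‖b n‖ ^ q with hB
  have A0 : 0 ≤ A := sp_nonneg S a
  have B0 : 0 ≤ B := sp_nonneg N b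
  have hd : Differentiable ℂ F := by
    simp only [hF, hwa, hwb, EE]
    fun_prop
  have hb : BddAbove ((norm ∘ F) '' HadamardThreeLines.verticalClosedStrip 0 1) := by
    refine ⟨∑ n ∈ N, (∑ k ∈ S, ‖K n k‖ * Real.exp (|Real.log ‖a k‖| * (|p / p0| + |p / p1|))) *
      Real.exp (|Real.log ‖b n‖| * (|q / q0| + |q / q1|)), ?_⟩
    rintro _ ⟨z, hz, rfl⟩
    refine (norm_sum_le _ _).trans (sum_le_sum fun n _ => ?_)
    rw [norm_mul]
    refine mul_le_mul ((norm_sum_le _ _).trans (sum_le_sum fun k _ => ?_))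
      (EE_bd _ _ _ z hz.1 hz.2) (norm_nonneg _) (sum_nonneg fun _ _ => by positivity)
    rw [norm_mul]
    exact mul_le_mul_of_nonneg_left (EE_bd _ _ _ z hz.1 hz.2) (norm_nonneg _)
  have l0 : ∀ z ∈ re ⁻¹' {0}, ‖F z‖ ≤ C * A ^ p0⁻¹ * B ^ q0⁻¹ := by
    intro z hz
    have hz : z.re = 0 := hz
    refine (k0.bil c0 _ _).trans (le_of_eq ?_)
    unfold nrm
    rw [sum_congr rfl fun k _ => EE_pow (a k) (wa z) P0 P (by simp [hwa, hz]; field_simp),
      sum_congr rfl fun n _ => EE_pow (b n) (wb z) Q0 Q (by simp [hwb, hz]; field_simp),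
      one_div, one_div]
  have l1 : ∀ z ∈ re ⁻¹' {1}, ‖F z‖ ≤ C * A ^ p1⁻¹ * B ^ q1⁻¹ := by
    intro z hz
    have hz : z.re = 1 := hz
    refine (k1.bil c1 _ _).trans (le_of_eq ?_)
    unfold nrm
    rw [sum_congr rfl fun k _ => EE_pow (a k) (wa z) P1 P (by simp [hwa, hz]; field_simp),
      sum_congr rfl fun n _ => EE_pow (b n) (wb z) Q1 Q (by simp [hwb, hz]; field_simp),
      one_div, one_div]
  have := HadamardThreeLines.norm_le_interp_of_mem_verticalClosedStrip₀₁' F (z := (θ : ℂ))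
    ⟨by simpa using h0, by simpa using h1⟩ hd.diffContOnCl hb l0 l1
  have ea : wa θ = 1 := by
    simp only [hwa]
    have : p / p0 * (1 - θ) + p / p1 * θ = 1 := by
      have : p * p⁻¹ = 1 := mul_inv_cancel₀ P.ne'
      rw [hθ] at this; linear_combination this
    exact_mod_cast this
  have eb : wb θ = 1 := by
    simp only [hwb]
    have : q / q0 * (1 - θ) + q / q1 * θ = 1 := by
      have : q * q⁻¹ = 1 := mul_inv_cancel₀ Q.ne'
      rw [hq] at this; linear_combination this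
    exact_mod_cast this
  simp only [hF, ea, eb, EE_one, ofReal_re] at this
  refine this.trans (le_of_eq ?_)
  have hC := k0.1
  have eC := rp_mix hC zero_le_one zero_le_one h0 h1
  rw [Real.rpow_one, show (1 - θ) * 1 + θ * 1 = 1 by ring, Real.rpow_one] at eC
  have eA := rp_mix A0 (inv_pos.2 P0).le (inv_pos.2 P1).le h0 h1
  have eB := rp_mix B0 (inv_pos.2 Q0).le (inv_pos.2 Q1).le h0 h1
  rw [← hθ] at eA
  rw [← hq] at eB
  unfold nrm
  rw [← hA, ← hB, one_div, one_div, ← eA, ← eB,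
    Real.mul_rpow (by positivity) (by positivity), Real.mul_rpow (by positivity) (by positivity),
    Real.mul_rpow (by positivity) (by positivity), Real.mul_rpow (by positivity) (by positivity)]
  conv_rhs => rw [← eC]
  ring

/-- convolution kernel bounded by C on l^p of the integers -/
def MB (p : ℝ) (K : ℤ → ℂ) (C : ℝ) : Prop := ∀ N S : Finset ℤ, IB p (fun n k => K (n - k)) N S C

variable {K K' : ℤ → ℂ} {C C' : ℝ}

lemma MB.nonneg (h : MB p K C) : 0 ≤ C := (h ∅ ∅).1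

lemma MB.mono (h : MB p K C) (hC : C ≤ C') : MB p K C' := fun N S => (h N S).mono hC

lemma MB.congr (h : MB p K C) (hK : ∀ n, K' n = K n) : MB p K' C :=
  fun N S => (h N S).congr fun _ _ _ _ => hK _

lemma MB.add (hp : 1 ≤ p) (h : MB p K C) (h' : MB p K' C') :
    MB p (fun n => K n + K' n) (C + C') := fun N S => (h N S).add hp (h' N S)

lemma MB.sub (hp : 1 ≤ p) (h : MB p K C) (h' : MB p K' C') :
    MB p (fun n => K n - K' n) (C + C') := fun N S => (h N S).sub hp (h' N S)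

lemma MB.smul (hp : 0 < p) (h : MB p K C) (c : ℂ) : MB p (fun n => c * K n) (‖c‖ * C) :=
  fun N S => (h N S).smul hp c

lemma MB.sum {ι : Type} (hp : 1 ≤ p) (I : Finset ι) {Kt : ι → ℤ → ℂ} {Ct : ι → ℝ}
    (h : ∀ i ∈ I, MB p (Kt i) (Ct i)) : MB p (fun n => ∑ i ∈ I, Kt i n) (∑ i ∈ I, Ct i) :=
  fun N S => IB.sum hp I (Kt := fun i n k => Kt i (n - k)) fun i hi => h i hi N S

lemma MB.of_sum (hp : 1 ≤ p) (D : ℤ → ℝ) (hK : ∀ n, ‖K n‖ ≤ D n)
    (h : ∀ S : Finset ℤ, ∑ n ∈ S, D n ≤ C) : MB p K C := by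
  intro N S
  refine IB.schur hp (fun n k => D (n - k)) (fun n k => (norm_nonneg _).trans (hK _))
    (fun n _ k _ => hK _) (by simpa using h ∅) (fun n _ => ?_) (fun k _ => ?_)
  · rw [← sum_image (f := D) (g := fun k => n - k) (fun _ _ _ _ h => by simpa using h)]
    exact h _
  · rw [← sum_image (f := D) (g := fun n => n - k) (fun _ _ _ _ h => by simpa using h)]
    exact h _

lemma MB.delta (hp : 1 ≤ p) (r : ℤ) (c : ℂ) : MB p (fun n => if n = r then c else 0) ‖c‖ := by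
  refine MB.of_sum hp (fun n => if n = r then ‖c‖ else 0) (fun n => by split_ifs <;> simp)
    fun S => ?_
  rw [sum_ite_eq']
  split_ifs <;> simp

/-- the constant bounding sums of inverse squares -/
noncomputable def zz : ℝ := ∑' n : ℤ, 1 / (n : ℝ) ^ 2

lemma sum_le_zz (S : Finset ℤ) : ∑ n ∈ S, 1 / (n : ℝ) ^ 2 ≤ zz :=
  (Real.summable_one_div_int_pow.2 one_lt_two).sum_le_tsum S fun _ _ => by positivity

lemma zz_nonneg : 0 ≤ zz := by simpa using sum_le_zz ∅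

lemma MB.sq (hp : 1 ≤ p) : MB p (fun n => ((n : ℂ)⁻¹) ^ 2) zz :=
  MB.of_sum hp (fun n => 1 / (n : ℝ) ^ 2) (fun n => by simp) sum_le_zz

lemma cot_id (n k l : ℤ) : (((n - k : ℤ) : ℂ))⁻¹ * (((n - l : ℤ) : ℂ))⁻¹ =
    (((n - k : ℤ) : ℂ))⁻¹ * (((k - l : ℤ) : ℂ))⁻¹ + (((n - l : ℤ) : ℂ))⁻¹ * (((l - k : ℤ) : ℂ))⁻¹ +
    (if k = l then ((((n - k : ℤ) : ℂ))⁻¹) ^ 2 else 0) +
    (if n = l then ((((n - k : ℤ) : ℂ))⁻¹) ^ 2 else 0) +
    (if n = k then ((((n - l : ℤ) : ℂ))⁻¹) ^ 2 else 0) := by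
  have neg : ∀ x y : ℤ, (((x - y : ℤ) : ℂ))⁻¹ = -(((y - x : ℤ) : ℂ))⁻¹ := by
    intro x y; rw [← inv_neg]; push_cast; ring_nf
  by_cases h1 : k = l
  · subst h1
    by_cases h2 : n = k
    · simp [h2]
    · simp [h2, sq]
  · by_cases h2 : n = l
    · subst h2
      have : ¬ n = k := fun h => h1 h.symm
      rw [neg k n]; simp [h1, this, sq]
    · by_cases h3 : n = k
      · subst h3
        rw [neg l n]; simp [h1, sq]
      · simp only [h1, h2, h3, if_false, add_zero]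
        have a1 : ((n - k : ℤ) : ℂ) ≠ 0 := by exact_mod_cast sub_ne_zero.2 h3
        have a2 : ((n - l : ℤ) : ℂ) ≠ 0 := by exact_mod_cast sub_ne_zero.2 h2
        have a3 : ((k - l : ℤ) : ℂ) ≠ 0 := by exact_mod_cast sub_ne_zero.2 h1
        rw [neg l k]
        field_simp
        push_cast
        ring

lemma nrm_sq (hp : 0 < p) (S : Finset α) (a : α → ℂ) :
    nrm p S (fun k => a k * a k) = nrm (2 * p) S a ^ 2 := by
  unfold nrm
  rw [← Real.rpow_natCast, ← Real.rpow_mul (sp_nonneg S a)]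
  congr 1
  · refine sum_congr rfl fun k _ => ?_
    rw [norm_mul, ← sq, ← Real.rpow_natCast, ← Real.rpow_mul (norm_nonneg _)]
    norm_num
  · push_cast; field_simp

lemma nrm_cs (hp : 0 < p) (S : Finset α) (a b : α → ℂ) :
    nrm p S (fun k => a k * b k) ≤ nrm (2 * p) S a * nrm (2 * p) S b := by
  have h := Real.inner_le_Lp_mul_Lq_of_nonneg S Real.HolderConjugate.two_two
    (f := fun k => ‖a k‖ ^ p) (g := fun k => ‖b k‖ ^ p) (fun _ _ => by positivity)
    (fun _ _ => by positivity)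
  rw [nrm_le_iff hp _ _ (mul_nonneg (nrm_nonneg _ _) (nrm_nonneg _ _)),
    Real.mul_rpow (nrm_nonneg _ _) (nrm_nonneg _ _)]
  have e : ∀ c : α → ℂ, nrm (2 * p) S c ^ p = (∑ k ∈ S, (‖c k‖ ^ p) ^ (2 : ℝ)) ^ (1 / 2 : ℝ) := by
    intro c
    unfold nrm
    rw [← Real.rpow_mul (sp_nonneg S c)]
    congr 1
    · refine sum_congr rfl fun k _ => ?_
      rw [← Real.rpow_mul (norm_nonneg _), mul_comm]
    · field_simp
  rw [e, e]
  refine le_trans (le_of_eq (sum_congr rfl fun k _ => ?_)) h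
  rw [norm_mul, Real.mul_rpow (norm_nonneg _) (norm_nonneg _)]

lemma cotlar (hp : 1 ≤ p) (h : MB p (fun n => (n : ℂ)⁻¹) C) :
    MB (2 * p) (fun n => (n : ℂ)⁻¹) (2 * C + 3 * zz + 1) := by
  intro N S
  have hp0 : 0 < p := by linarith
  have hC := h.nonneg
  have hz := zz_nonneg
  refine IB.subset (by linarith) (N' := N ∪ S) (S' := N ∪ S) ?_ subset_union_left
    subset_union_right
  set T := N ∪ S
  refine ⟨by positivity, fun a => ?_⟩
  set H : ℤ → ℂ := fun n => ∑ k ∈ T, (((n - k : ℤ) : ℂ))⁻¹ * a k with hH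
  set G : ℤ → ℂ := fun n => ∑ k ∈ T, ((((n - k : ℤ) : ℂ))⁻¹) ^ 2 * a k with hG
  set U : ℤ → ℂ := fun n => ∑ k ∈ T, (((n - k : ℤ) : ℂ))⁻¹ * (a k * H k) with hU
  set V : ℤ → ℂ := fun n => ∑ k ∈ T, ((((n - k : ℤ) : ℂ))⁻¹) ^ 2 * (a k * a k) with hV
  have key : ∀ n ∈ T, H n * H n = U n + U n + V n + a n * G n + a n * G n := by
    intro n hn
    have : H n * H n = ∑ k ∈ T, ∑ l ∈ T,
        ((((n - k : ℤ) : ℂ))⁻¹ * (((n - l : ℤ) : ℂ))⁻¹) * (a k * a l) := by
      simp only [hH]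
      rw [sum_mul_sum]
      exact sum_congr rfl fun _ _ => sum_congr rfl fun _ _ => by ring
    rw [this]
    simp only [cot_id n, add_mul, sum_add_distrib]
    congr 1
    congr 1
    congr 1
    congr 1
    · simp only [hU, hH, mul_sum]
      exact sum_congr rfl fun _ _ => sum_congr rfl fun _ _ => by ring
    · rw [sum_comm]
      simp only [hU, hH, mul_sum]
      exact sum_congr rfl fun _ _ => sum_congr rfl fun _ _ => by ring
    · refine sum_congr rfl fun k hk => ?_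
      simp only [ite_mul, zero_mul]
      rw [sum_ite_eq, if_pos hk]
    · simp only [hG, mul_sum]
      refine sum_congr rfl fun k hk => ?_
      simp only [ite_mul, zero_mul]
      rw [sum_ite_eq, if_pos hn]; ring
    · rw [sum_comm]
      simp only [hG, mul_sum]
      refine sum_congr rfl fun k hk => ?_
      simp only [ite_mul, zero_mul]
      rw [sum_ite_eq, if_pos hn]; ring
  set X := nrm (2 * p) T H
  set A := nrm (2 * p) T a
  have X0 : 0 ≤ X := nrm_nonneg _ _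
  have A0 : 0 ≤ A := nrm_nonneg _ _
  have hU1 : nrm p T U ≤ C * (A * X) :=
    ((h T T).2 _).trans (mul_le_mul_of_nonneg_left (nrm_cs hp0 T a H) hC)
  have hV1 : nrm p T V ≤ zz * A ^ 2 := by
    rw [← nrm_sq hp0]; exact (MB.sq hp T T).2 _
  have hG1 : nrm p T (fun n => a n * G n) ≤ A * (zz * A) :=
    (nrm_cs hp0 T a G).trans (mul_le_mul_of_nonneg_left
      ((MB.sq (p := 2 * p) (by linarith) T T).2 a) A0)
  have h1 := nrm_add hp T U U
  have h2 := nrm_add hp T (fun n => U n + U n) V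
  have h3 := nrm_add hp T (fun n => U n + U n + V n) (fun n => a n * G n)
  have h4 := nrm_add hp T (fun n => U n + U n + V n + a n * G n) (fun n => a n * G n)
  rw [← nrm_congr key, nrm_sq hp0] at h4
  have h5 : X ^ 2 ≤ 2 * C * A * X + 3 * zz * A ^ 2 := by nlinarith
  by_contra hc
  push Not at hc
  have h6 : A < X := lt_of_le_of_lt (by nlinarith) hc
  have h7 : (2 * C + 3 * zz + 1) * A * X < X * X :=
    mul_lt_mul_of_pos_right hc (lt_of_le_of_lt A0 h6)
  have h8 : zz * A * A ≤ zz * A * X := mul_le_mul_of_nonneg_left h6.le (by positivity)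
  nlinarith

end Pool.Agent.H49.MP
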