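import Pool.Agent.H49.MP2

set_option autoImplicit false

namespace Pool.Agent.H49.MP

open Finset Complex MeasureTheory
open scoped Real ComplexConjugate

abbrev T := UnitAddCircle

/-- the basic character of the circle -/
noncomputable def e (z : T) : ℂ := AddCircle.toCircle z

lemma e_add (x y : T) : e (x + y) = e x * e y := by
  simp only [e, AddCircle.toCircle_add, Circle.coe_mul]

lemma e_zero : e 0 = 1 := by simp [e]

lemma e_norm (x : T) : ‖e x‖ = 1 := Circle.norm_coe _

lemma e_coe (x : ℝ) : e (x : T) = exp (2 * π * I * x) := by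
  have := fourier_coe_apply (T := 1) (n := 1) (x := x)
  rw [fourier_one] at this
  unfold e
  rw [this]; simp

lemma e_neg (x : T) : e (-x) = conj (e x) := by
  have := fourier_neg (T := 1) (n := 1) (x := x)
  rw [fourier_one, fourier_apply, neg_one_zsmul] at this
  exact this

lemma e_eq_one {x : T} (h : e x = 1) : x = 0 := by
  apply AddCircle.injective_toCircle one_ne_zero
  rw [AddCircle.toCircle_zero]
  exact Circle.ext h

lemma e_cont : Continuous e := continuous_induced_dom.comp AddCircle.continuous_toCircle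

lemma e_smul (n : ℤ) (x : ℝ) : e (n • (x : T)) = exp (2 * π * I * n * x) := by
  rw [← AddCircle.coe_zsmul, e_coe]; congr 1; simp; ring

lemma e_nsmul (n : ℕ) (x : T) : e (n • x) = e x ^ n := by
  induction n with
  | zero => simp [e_zero]
  | succ n ih => rw [succ_nsmul, e_add, ih, pow_succ]

lemma coe_int (n : ℤ) : ((n : ℝ) : T) = 0 := by
  rw [AddCircle.coe_eq_zero_iff]; exact ⟨n, by simp⟩

lemma cont_e (n : ℤ) : Continuous fun x : ℝ => e (n • (x : T)) :=
  e_cont.comp ((continuous_zsmul n).comp (AddCircle.continuous_mk' 1))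

lemma tpi_ne {n : ℤ} (hn : n ≠ 0) : (2 * π * I * n : ℂ) ≠ 0 := by
  have : (n : ℂ) ≠ 0 := by exact_mod_cast hn
  simp [this, Real.pi_ne_zero]

lemma int_e (n : ℤ) : ∫ x in (0:ℝ)..1, e (n • (x : T)) = if n = 0 then 1 else 0 := by
  split_ifs with hn
  · simp [hn, e_zero]
  · simp only [e_smul]
    rw [integral_exp_mul_complex (tpi_ne hn)]
    have : exp (2 * π * I * n) = 1 := by
      rw [← exp_int_mul_two_pi_mul_I n]; congr 1; ring
    simp [this]

/-- Fourier coefficient on the unit interval -/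
noncomputable def cf (g : ℝ → ℂ) (n : ℤ) : ℂ := ∫ x in (0:ℝ)..1, e ((-n) • (x : T)) * g x

lemma cf_id (n : ℤ) : cf (fun x => x) n = if n = 0 then 1 / 2 else -(2 * π * I * n)⁻¹ := by
  unfold cf
  split_ifs with hn
  · simp only [hn, neg_zero, zero_smul, e_zero, one_mul]
    rw [intervalIntegral.integral_ofReal]; simp
  · simp only [e_smul]
    have hc := tpi_ne (neg_ne_zero.2 hn)
    set c : ℂ := 2 * π * I * (-n : ℤ) with hcd
    have h1 : exp c = 1 := by
      rw [← exp_int_mul_two_pi_mul_I (-n)]; congr 1; rw [hcd]; ring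
    rw [intervalIntegral.integral_eq_sub_of_hasDerivAt
      (f := fun x : ℝ => exp (c * x) * x / c - exp (c * x) / c ^ 2)]
    · have : (2 * π * I * n : ℂ) = -c := by rw [hcd]; push_cast; ring
      rw [this]
      simp [h1]
    · intro x _
      have h2 : HasDerivAt (fun x : ℝ => (x : ℂ)) 1 x := by
        simpa using (hasDerivAt_id x).ofReal_comp
      have h3 : HasDerivAt (fun x : ℝ => exp (c * x)) (exp (c * x) * (c * 1)) x :=
        (h2.const_mul c).cexp
      refine (((h3.mul h2).div_const c).sub (h3.div_const (c ^ 2))).congr_deriv ?_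
      field_simp
      ring
    · exact Continuous.intervalIntegrable (by fun_prop) _ _

lemma int_sum {ι : Type} (S : Finset ι) (f : ι → ℝ → ℂ) (h : ∀ i ∈ S, Continuous (f i)) :
    ∫ x in (0:ℝ)..1, ∑ i ∈ S, f i x = ∑ i ∈ S, ∫ x in (0:ℝ)..1, f i x :=
  intervalIntegral.integral_finsetSum fun i hi => (h i hi).intervalIntegrable _ _

lemma parseval (S : Finset ℤ) (σ : ℤ → ℤ) (hσ : Function.Injective σ) (a : ℤ → ℂ) :
    ∫ x in (0:ℝ)..1, ‖∑ k ∈ S, a k * e (σ k • (x : T))‖ ^ 2 = ∑ k ∈ S, ‖a k‖ ^ 2 := by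
  apply ofReal_injective
  rw [← intervalIntegral.integral_ofReal]
  have : ∀ x : ℝ, ((‖∑ k ∈ S, a k * e (σ k • (x : T))‖ ^ 2 : ℝ) : ℂ) =
      ∑ k ∈ S, ∑ l ∈ S, a k * conj (a l) * e ((σ k - σ l) • (x : T)) := by
    intro x
    rw [ofReal_pow, ← mul_conj', map_sum, sum_mul_sum]
    refine sum_congr rfl fun k _ => sum_congr rfl fun l _ => ?_
    rw [sub_smul, sub_eq_add_neg, e_add, e_neg, map_mul]; ring
  simp only [this]
  rw [int_sum _ _ fun k _ => by
    exact continuous_finsetSum _ fun l _ => continuous_const.mul (cont_e _)]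
  push_cast
  refine sum_congr rfl fun k hk => ?_
  rw [int_sum _ _ fun l _ => by exact continuous_const.mul (cont_e _)]
  simp only [intervalIntegral.integral_const_mul, int_e, sub_eq_zero, hσ.eq_iff, mul_ite, mul_one,
    mul_zero]
  rw [sum_ite_eq, if_pos hk, mul_conj']

lemma MB_id : MB 2 (cf fun x => x) 1 := by
  intro N S
  rw [IB_iff two_pos]
  refine ⟨zero_le_one, fun a => ?_⟩
  set y : ℤ → ℂ := fun n => ∑ k ∈ S, cf (fun x => x) (n - k) * a k with hy
  set A : ℝ → ℂ := fun x => ∑ k ∈ S, a k * e (id k • (x : T)) with hA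
  set B : ℝ → ℂ := fun x => ∑ n ∈ N, conj (y n) * e ((-n) • (x : T)) with hB
  have cA : Continuous A := continuous_finsetSum _ fun l _ => continuous_const.mul (cont_e _)
  have cB : Continuous B := continuous_finsetSum _ fun l _ => continuous_const.mul (cont_e _)
  have pA : ∫ x in (0:ℝ)..1, ‖A x‖ ^ 2 = ∑ k ∈ S, ‖a k‖ ^ 2 :=
    parseval S id Function.injective_id a
  have pB : ∫ x in (0:ℝ)..1, ‖B x‖ ^ 2 = ∑ n ∈ N, ‖conj (y n)‖ ^ 2 :=
    parseval N (fun n => -n) neg_injective _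
  have e1 : ∀ n, y n = ∫ x in (0:ℝ)..1, e ((-n) • (x : T)) * (x * A x) := by
    intro n
    simp only [hy, hA, cf, mul_sum]
    rw [int_sum _ _ fun l _ => by
      exact (cont_e _).mul (continuous_ofReal.mul (continuous_const.mul (cont_e _)))]
    refine sum_congr rfl fun k _ => ?_
    rw [← intervalIntegral.integral_mul_const]
    congr 1; ext x
    rw [neg_sub, sub_eq_neg_add, add_smul, e_add, id]; ring
  have e2 : ((∑ n ∈ N, ‖y n‖ ^ 2 : ℝ) : ℂ) = ∫ x in (0:ℝ)..1, B x * (x * A x) := by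
    simp only [hB, sum_mul]
    rw [int_sum _ _ fun l _ => by
      exact (continuous_const.mul (cont_e _)).mul (continuous_ofReal.mul cA)]
    push_cast
    refine sum_congr rfl fun n _ => ?_
    simp only [mul_assoc]
    rw [intervalIntegral.integral_const_mul, ← e1, conj_mul']
  have e3 : ∑ n ∈ N, ‖y n‖ ^ 2 ≤ ∫ x in (0:ℝ)..1, (‖B x‖ ^ 2 + ‖A x‖ ^ 2) / 2 := by
    have h0 : 0 ≤ ∑ n ∈ N, ‖y n‖ ^ 2 := sum_nonneg fun _ _ => by positivity
    rw [← Real.norm_of_nonneg h0, ← norm_real, e2]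
    refine intervalIntegral.norm_integral_le_of_norm_le zero_le_one
      (Filter.Eventually.of_forall fun x hx => ?_) (Continuous.intervalIntegrable (by fun_prop) _ _)
    rw [norm_mul, norm_mul, norm_real, Real.norm_of_nonneg hx.1.le]
    have := norm_nonneg (A x)
    have := norm_nonneg (B x)
    have h1 : x * ‖A x‖ ≤ ‖A x‖ := mul_le_of_le_one_left (norm_nonneg _) hx.2
    nlinarith [sq_nonneg (‖A x‖ - ‖B x‖), mul_le_mul_of_nonneg_left h1 this]
  rw [intervalIntegral.integral_div, intervalIntegral.integral_add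
    (Continuous.intervalIntegrable (by fun_prop) _ _)
    (Continuous.intervalIntegrable (by fun_prop) _ _), pA, pB] at e3
  simp only [RCLike.norm_conj] at e3
  simp only [Real.rpow_two, one_pow, one_mul]
  change ∑ n ∈ N, ‖y n‖ ^ 2 ≤ _
  linarith

lemma hilbert2 : ∃ C, MB 2 (fun n => (n : ℂ)⁻¹) C := by
  refine ⟨_, ((MB_id.smul two_pos (-(2 * π * I))).add one_le_two
    (MB.delta one_le_two 0 (π * I))).congr fun n => ?_⟩
  rw [cf_id]
  split_ifs with hn
  · simp [hn]; ring
  · have := tpi_ne hn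
    have : (n : ℂ) ≠ 0 := by exact_mod_cast hn
    have : (π : ℂ) ≠ 0 := by exact_mod_cast Real.pi_ne_zero
    field_simp
    simp

lemma hilbert_pow (k : ℕ) : ∃ C, MB (2 ^ (k + 1)) (fun n => (n : ℂ)⁻¹) C := by
  induction k with
  | zero => simpa using hilbert2
  | succ k ih =>
    obtain ⟨C, h⟩ := ih
    have := cotlar (one_le_pow₀ one_le_two) h
    rw [← pow_succ'] at this
    exact ⟨_, this⟩

lemma hilbert_ge {p : ℝ} (hp : 2 ≤ p) : ∃ C, MB p (fun n => (n : ℂ)⁻¹) C := by
  obtain ⟨k, hk⟩ := pow_unbounded_of_one_lt p (one_lt_two (α := ℝ))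
  obtain ⟨C0, h0⟩ := hilbert2
  obtain ⟨C1, h1⟩ := hilbert_pow k
  set P : ℝ := 2 ^ (k + 1) with hP
  have hpP : p < P := by
    rw [hP, pow_succ]; nlinarith
  have i1 : P⁻¹ < p⁻¹ := inv_strictAnti₀ (by linarith) hpP
  have i2 : p⁻¹ ≤ 2⁻¹ := inv_anti₀ two_pos hp
  have i3 : 0 < (2:ℝ)⁻¹ - P⁻¹ := by linarith
  refine ⟨max C0 C1, fun N S => IB.interp (θ := (2⁻¹ - p⁻¹) / (2⁻¹ - P⁻¹)) (by linarith) one_lt_two
    (by linarith) (div_nonneg (by linarith) i3.le) ((div_le_one i3).2 (by linarith)) ?_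
    ((h0 N S).mono (le_max_left _ _)) ((h1 N S).mono (le_max_right _ _))⟩
  have : (2⁻¹ - p⁻¹) / (2⁻¹ - P⁻¹) * (2⁻¹ - P⁻¹) = 2⁻¹ - p⁻¹ := div_mul_cancel₀ _ i3.ne'
  linarith

/-- M. Riesz: the discrete Hilbert transform is bounded on l^p -/
theorem hilbert {p : ℝ} (hp : 1 < p) : ∃ C, MB p (fun n => (n : ℂ)⁻¹) C := by
  rcases le_or_gt 2 p with h | h
  · exact hilbert_ge h
  · have c := Real.HolderConjugate.conjExponent hp
    have hq : 2 ≤ p.conjExponent := by
      rw [Real.conjExponent, le_div_iff₀ (by linarith)]; linarith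
    obtain ⟨C, hC⟩ := hilbert_ge hq
    refine ⟨_, fun N S => IB.dual c (((hC.smul c.symm.pos (-1)) S N).congr fun n _ k _ => ?_)⟩
    push_cast
    rw [neg_one_mul, ← inv_neg, neg_sub]

end Pool.Agent.H49.MP
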