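import Pool.Agent.H49.MP3

set_option autoImplicit false

namespace Pool.Agent.H49.MP

open Finset Complex
open scoped Real ComplexConjugate

variable {p C : ℝ} {K : ℤ → ℂ}

/-- triangle (Fejer) weights -/
noncomputable def tri (N : ℕ) (n : ℤ) : ℝ := (((N : ℤ) - |n|).toNat : ℝ) / N

lemma MB.tri (hp : 1 ≤ p) (h : MB p K C) {N : ℕ} (hN : 0 < N) :
    MB p (fun n => (tri N n : ℂ) * K n) C := by
  intro A S
  have hp0 : 0 < p := by linarith
  have hN' : (0 : ℝ) < N := by exact_mod_cast hN
  have hc : ∀ (X : Finset ℤ) (n : ℤ), ((X.filter (fun t => n ≤ t ∧ t < n + N)).card : ℝ) ≤ N := by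
    intro X n
    have : (X.filter (fun t => n ≤ t ∧ t < n + N)).card ≤ (Ico n (n + N)).card :=
      card_le_card fun t ht => mem_Ico.2 (mem_filter.1 ht).2
    rw [Int.card_Ico] at this
    have e : (n + N - n).toNat = N := by simp
    exact_mod_cast e ▸ this
  have := (IB.herz hp (A.biUnion fun n => Ico n (n + N)) (fun n t => n ≤ t ∧ t < n + N)
    (fun n t => n ≤ t ∧ t < n + N) (fun _ n k => K (n - k)) h.nonneg (N := A) (S := S)
    (fun t _ => h _ _) hN' (fun n _ => hc _ n) (fun n _ => hc _ n)).smul hp0 ((N : ℂ)⁻¹)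
  refine (this.congr fun n hn k _ => ?_).mono (le_of_eq ?_)
  · rw [← sum_filter, sum_const, nsmul_eq_mul]
    have : filter (fun t => (n ≤ t ∧ t < n + N) ∧ k ≤ t ∧ t < k + N)
        (A.biUnion fun n => Ico n (n + N)) = Ico (max n k) (min n k + N) := by
      ext t
      simp only [mem_filter, mem_biUnion, mem_Ico]
      constructor
      · rintro ⟨_, h1⟩; omega
      · intro h1; exact ⟨⟨n, hn, by omega⟩, by omega⟩
    rw [this, Int.card_Ico]
    have e : min n k + N - max n k = N - |n - k| := by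
      rcases le_total n k with h1 | h1
      · rw [abs_of_nonpos (by omega)]; omega
      · rw [abs_of_nonneg (by omega)]; omega
    rw [e]
    simp only [MP.tri]
    push_cast
    ring
  · rw [norm_inv, Complex.norm_natCast]; field_simp

lemma MB.dil (hp : 1 ≤ p) (h : MB p K C) {m : ℤ} (hm : 0 < m) (r : ℤ) :
    MB p (fun n => if m ∣ n - r then K ((n - r) / m) else 0) C := by
  intro A S
  have hp0 : 0 < p := by linarith
  have := IB.block hp (K := fun n k => K ((n - r) / m - k / m)) (N := A) (S := S)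
    (fun n => (n - r) % m) (fun k => k % m) h.nonneg fun t =>
      (h (A.image fun n => (n - r) / m) (S.image fun k => k / m)).pull hp0
        (fun n => (n - r) / m) (fun k => k / m) ?_ ?_
        (fun n hn => mem_image_of_mem _ (mem_filter.1 hn).1)
        (fun n hn => mem_image_of_mem _ (mem_filter.1 hn).1)
  · refine this.congr fun n _ k _ => ?_
    have e : m ∣ n - k - r ↔ (n - r) % m = k % m := by
      rw [Int.emod_eq_emod_iff_emod_sub_eq_zero, Int.dvd_iff_emod_eq_zero]
      congr! 2; ring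
    by_cases hd : m ∣ n - k - r
    · simp only [if_pos hd, if_pos (e.1 hd)]
      congr 1
      obtain ⟨j, hj⟩ := hd
      have : n - r = k + m * j := by linarith
      rw [hj, this, Int.add_mul_ediv_left _ _ hm.ne', Int.mul_ediv_cancel_left _ hm.ne']
      ring
    · simp only [if_neg hd, if_neg (mt e.2 hd)]
  · intro a ha b hb hab
    have h1 := (mem_filter.1 (mem_coe.1 ha)).2
    have h2 := (mem_filter.1 (mem_coe.1 hb)).2
    have h3 := Int.emod_add_mul_ediv (a - r) m
    have h4 := Int.emod_add_mul_ediv (b - r) m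
    simp only at hab
    rw [h1, hab] at h3
    rw [h2] at h4
    linarith
  · intro a ha b hb hab
    have h1 := (mem_filter.1 (mem_coe.1 ha)).2
    have h2 := (mem_filter.1 (mem_coe.1 hb)).2
    have h3 := Int.emod_add_mul_ediv a m
    have h4 := Int.emod_add_mul_ediv b m
    simp only at hab
    rw [h1, hab] at h3
    rw [h2] at h4
    linarith

/-- high-frequency part of the Hilbert kernel -/
noncomputable def rho (N : ℕ) (n : ℤ) : ℝ := (1 - tri N n) / n

lemma MB.rho (hp : 1 ≤ p) (h : MB p (fun n => (n : ℂ)⁻¹) C) {N : ℕ} (hN : 0 < N) :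
    MB p (fun n => (rho N n : ℂ)) (C + C) :=
  (h.sub hp (h.tri hp hN)).congr fun n => by simp only [MP.rho]; push_cast; ring

lemma rho_neg (N : ℕ) (n : ℤ) : rho N (-n) = -rho N n := by
  simp only [rho, tri, abs_neg]; push_cast; ring

lemma rho_pos {N : ℕ} (hN : 0 < N) {n : ℤ} (hn : 0 < n) : rho N n = 1 / max (N : ℝ) n := by
  have hN' : (0 : ℝ) < N := by exact_mod_cast hN
  have hn' : (0 : ℝ) < n := by exact_mod_cast hn
  simp only [rho, tri, abs_of_pos hn]
  rcases le_total (N : ℤ) n with h | h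
  · rw [Int.toNat_eq_zero.2 (by omega), max_eq_right (by exact_mod_cast h)]; simp
  · have : ((((N : ℤ) - n).toNat : ℤ) : ℝ) = N - n := by
      rw [Int.toNat_of_nonneg (by omega)]; push_cast; ring
    rw [Int.cast_natCast] at this
    rw [this, max_eq_left (by exact_mod_cast h)]
    field_simp
    ring

lemma rho_zero (N : ℕ) : rho N 0 = 0 := by simp [rho]

lemma rho_scale {W N : ℕ} (hW : 0 < W) (hN : 0 < N) (j : ℤ) :
    rho (W * N) (W * j) = rho N j / W := by
  have hW' : (0 : ℝ) < W := by exact_mod_cast hW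
  have key : ∀ j : ℤ, 0 < j → rho (W * N) (W * j) = rho N j / W := by
    intro j hj
    rw [rho_pos (Nat.mul_pos hW hN) (by positivity), rho_pos hN hj]
    push_cast
    rw [← mul_max_of_nonneg _ _ hW'.le, div_div, mul_comm]
  rcases lt_trichotomy j 0 with h | h | h
  · have := key (-j) (by omega)
    rw [mul_neg, rho_neg, rho_neg, neg_div] at this
    linarith
  · simp [h, rho_zero]
  · exact key j h

noncomputable def th (N : ℕ) (n : ℤ) : ℝ :=
  if n < 0 then -rho N n else if n = 0 then 2 / N else 4 / N - rho N n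

lemma rho_bd {N : ℕ} (hN : 0 < N) {n : ℤ} (hn : 0 < n) : 0 ≤ rho N n ∧ rho N n ≤ 1 / N := by
  have hN' : (0 : ℝ) < N := by exact_mod_cast hN
  rw [rho_pos hN hn]
  exact ⟨by positivity, one_div_le_one_div_of_le hN' (le_max_left _ _)⟩

lemma rho_anti {N : ℕ} (hN : 0 < N) {n : ℤ} (hn : 0 < n) : rho N (n + 1) ≤ rho N n := by
  have hN' : (0 : ℝ) < N := by exact_mod_cast hN
  rw [rho_pos hN hn, rho_pos hN (by omega)]
  exact one_div_le_one_div_of_le (by positivity) (max_le_max le_rfl (by push_cast; linarith))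

lemma th_bd {N : ℕ} (hN : 0 < N) (n : ℤ) : 0 ≤ th N n ∧ th N n ≤ 4 / N := by
  have hN' : (0 : ℝ) < 1 / N := by positivity
  have e2 : (2 : ℝ) / N = 2 * (1 / N) := by ring
  have e4 : (4 : ℝ) / N = 4 * (1 / N) := by ring
  unfold th
  split_ifs with h1 h2
  · have := rho_bd hN (n := -n) (by omega)
    rw [rho_neg] at this
    constructor <;> linarith
  · constructor <;> linarith
  · have := rho_bd hN (n := n) (by omega)
    constructor <;> linarith

lemma th_step {N : ℕ} (hN : 0 < N) (n : ℤ) :
    |rho N (n + 1) - rho N n| ≤ th N (n + 1) - th N n := by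
  have hN' : (0 : ℝ) < 1 / N := by positivity
  have e2 : (2 : ℝ) / N = 2 * (1 / N) := by ring
  have e4 : (4 : ℝ) / N = 4 * (1 / N) := by ring
  have r1 := rho_bd hN one_pos
  unfold th
  rw [abs_le]
  rcases lt_trichotomy n (-1) with h | h | h
  · rw [if_pos (by omega), if_pos (by omega)]
    have := rho_anti hN (n := -(n + 1)) (by omega)
    rw [show -(n + 1) + 1 = -n by ring, rho_neg, rho_neg] at this
    constructor <;> linarith
  · subst h
    rw [if_neg (by omega), if_pos (by omega), if_pos (by omega), neg_add_cancel, rho_zero, rho_neg]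
    constructor <;> linarith
  · rcases eq_or_ne n 0 with h0 | h0
    · subst h0
      rw [if_neg (by omega), if_neg (by omega), if_neg (by omega), if_pos rfl, zero_add, rho_zero]
      constructor <;> linarith
    · rw [if_neg (by omega), if_neg (by omega), if_neg (by omega), if_neg h0]
      have := rho_anti hN (n := n) (by omega)
      constructor <;> linarith

lemma th_le {N : ℕ} (hN : 0 < N) {a b : ℤ} (h : a ≤ b) :
    |rho N b - rho N a| ≤ th N b - th N a := by
  induction b, h using Int.leInduction with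
  | base => simp
  | succ b _ ih =>
    have := th_step hN b
    rw [abs_le] at *
    constructor <;> linarith [ih.1, ih.2, this.1, this.2]

lemma th_mono {N : ℕ} (hN : 0 < N) {a b : ℤ} (h : a ≤ b) : th N a ≤ th N b := by
  have := th_le hN h
  linarith [abs_nonneg (rho N b - rho N a)]

lemma th_near {N : ℕ} (hN : 0 < N) {x y W : ℤ} (h : |y - x| ≤ W) :
    |rho N x - rho N y| ≤ th N (x + W) - th N (x - W) := by
  rw [abs_le] at h
  rcases le_total x y with h1 | h1
  · rw [abs_sub_comm]
    linarith [th_le hN h1, th_mono hN (show y ≤ x + W by omega), th_mono hN (show x - W ≤ x by omega)]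
  · linarith [th_le hN h1, th_mono hN (show x ≤ x + W by omega), th_mono hN (show x - W ≤ y by omega)]

lemma th_sum1 {N : ℕ} (hN : 0 < N) (S : Finset ℤ) (r : ℤ) :
    ∑ x ∈ S, (th N (x + r + 1) - th N (x + r)) ≤ 4 / N := by
  obtain ⟨a, ha⟩ := S.bddBelow
  obtain ⟨b, hb⟩ := S.bddAbove
  have tel : ∀ L : ℕ, ∑ x ∈ Ico a (a + L), (th N (x + r + 1) - th N (x + r)) =
      th N (a + L + r) - th N (a + r) := by
    intro L
    induction L with
    | zero => simp
    | succ L ih =>
      push_cast
      rw [← add_assoc, ← Finset.insert_Ico_right_eq_Ico_add_one (by omega), sum_insert (by simp), ih,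
        show a + L + 1 + r = a + L + r + 1 by ring]
      ring
  calc _ ≤ ∑ x ∈ Ico a (a + ((b + 1 - a).toNat : ℕ)), (th N (x + r + 1) - th N (x + r)) := by
        refine sum_le_sum_of_subset_of_nonneg (fun x hx => ?_) fun x _ _ =>
          sub_nonneg.2 (th_mono hN (by omega))
        have h1 := ha hx
        have h2 := hb hx
        rw [mem_Ico]; omega
    _ ≤ _ := by
        rw [tel]
        linarith [(th_bd hN (a + ((b + 1 - a).toNat : ℕ) + r)).2, (th_bd hN (a + r)).1]

lemma th_sum {N : ℕ} (hN : 0 < N) (S : Finset ℤ) (r : ℤ) (L : ℕ) :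
    ∑ x ∈ S, (th N (x + r + L) - th N (x + r)) ≤ L * (4 / N) := by
  induction L with
  | zero => simp
  | succ L ih =>
    have := th_sum1 hN S (r + L)
    push_cast
    simp only [← add_assoc] at this ⊢
    simp only [sum_sub_distrib] at *
    linarith

lemma IB.of_sum (hp : 1 ≤ p) {K : ℤ → ℤ → ℂ} (D : ℤ → ℝ) (hK : ∀ n k, ‖K n k‖ ≤ D (n - k))
    (h : ∀ S : Finset ℤ, ∑ n ∈ S, D n ≤ C) (N S : Finset ℤ) : IB p K N S C := by
  refine IB.schur hp (fun n k => D (n - k)) (fun n k => (norm_nonneg _).trans (hK _ _))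
    (fun n _ k _ => hK _ _) (by simpa using h ∅) (fun n _ => ?_) (fun k _ => ?_)
  · rw [← sum_image (f := D) (g := fun k => n - k) (fun _ _ _ _ h => by simpa using h)]
    exact h _
  · rw [← sum_image (f := D) (g := fun n => n - k) (fun _ _ _ _ h => by simpa using h)]
    exact h _

lemma bohr (Γ : Finset T) {η : ℝ} (hη : 0 < η) :
    ∃ V : ℕ, ∀ x : ℤ, ∃ t : ℤ, |t - x| ≤ V ∧ ∀ y ∈ Γ, ‖e (t • y) - 1‖ ≤ η := by
  set φ : ℤ → (Γ → ℂ) := fun n y => e (n • (y : T)) with hφ
  have tb : TotallyBounded (Set.range φ) := by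
    refine (isCompact_closedBall (0 : Γ → ℂ) 1).totallyBounded.subset ?_
    rintro _ ⟨n, rfl⟩
    rw [mem_closedBall_zero_iff, pi_norm_le_iff_of_nonneg zero_le_one]
    intro y; simp [hφ, e_norm]
  obtain ⟨t, ht, hf, hc⟩ := Metric.finite_approx_of_totallyBounded tb η hη
  obtain ⟨V, hV⟩ := (hf.image fun z => (Function.invFun φ z).natAbs).bddAbove
  refine ⟨V, fun x => ?_⟩
  obtain ⟨z, hz, hx⟩ := Set.mem_iUnion₂.1 (hc ⟨x, rfl⟩)
  have h1 : φ (Function.invFun φ z) = z := Function.invFun_eq (ht hz)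
  have h2 : (Function.invFun φ z).natAbs ≤ V := hV ⟨z, hz, rfl⟩
  refine ⟨x - Function.invFun φ z, ?_, fun y hy => ?_⟩
  · rw [sub_sub_cancel_left, abs_neg, Int.abs_eq_natAbs]; exact_mod_cast h2
  · set n := Function.invFun φ z
    rw [← h1, Metric.mem_ball, dist_eq_norm] at hx
    have h3 := (norm_le_pi_norm (φ x - φ n) ⟨y, hy⟩).trans hx.le
    have h4 : e (x • y) - e (n • y) = (e ((x - n) • y) - 1) * e (n • y) := by
      rw [sub_mul, ← e_add, ← add_smul, sub_add_cancel, one_mul]
    have h5 : ‖e (x • y) - e (n • y)‖ ≤ η := h3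
    rwa [h4, norm_mul, e_norm, mul_one] at h5

/-- Fourier transform of a finitely supported function on the circle -/
noncomputable def hat (Γ : Finset T) (c : T → ℂ) (n : ℤ) : ℂ := ∑ y ∈ Γ, c y * e ((-n) • y)

theorem transfer (hp : 1 ≤ p) (hH : MB p (fun n => (n : ℂ)⁻¹) C) (Γ : Finset T) (c : T → ℂ)
    {B : ℝ} (hw : ∀ V : ℕ, ∃ W : ℕ, 0 < W ∧
      IB p (fun r s => hat Γ c (r - s) / W) (Ico (-V : ℤ) (W + V)) (Ico (-V : ℤ) (W + V)) B)
    (N0 : ℕ) : ∃ N : ℕ, N0 ≤ N ∧ 0 < N ∧
      MB p (fun n => (rho N n : ℂ) * hat Γ c n) ((C + C) * B + 2) := by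
  have hp0 : 0 < p := by linarith
  have hC := hH.nonneg
  set s := ∑ y ∈ Γ, ‖c y‖ with hs
  have s0 : 0 ≤ s := sum_nonneg fun _ _ => norm_nonneg _
  set η : ℝ := 1 / (4 * C * s + 1) with hη
  have η0 : 0 < η := by positivity
  obtain ⟨V, hV⟩ := bohr Γ η0
  obtain ⟨W, hW, hB⟩ := hw V
  choose t ht1 ht2 using fun b : ℤ => hV (b * W)
  obtain ⟨N1, hN1⟩ := exists_nat_gt (8 * s + N0)
  have N1p : 0 < N1 := by
    have : (0 : ℝ) < N1 := lt_of_le_of_lt (by positivity) hN1
    exact_mod_cast this
  have Np : 0 < W * N1 := Nat.mul_pos hW N1p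
  refine ⟨W * N1, ?_, Np, fun A S => ?_⟩
  · have : (N0 : ℝ) ≤ N1 := by linarith
    have : N0 ≤ N1 := by exact_mod_cast this
    nlinarith
  set N := W * N1 with hN
  set β : ℤ → ℤ := fun n => n / W with hβ
  set o : ℤ → ℤ := fun n => n - t (β n) with ho
  have hWz : (0 : ℤ) < W := by exact_mod_cast hW
  have hb : ∀ n, 0 ≤ n - W * β n ∧ n - W * β n < W := by
    intro n
    have h1 := Int.emod_add_mul_ediv n W
    have h2 := Int.emod_nonneg n hWz.ne'
    have h3 := Int.emod_lt_of_pos n hWz
    simp only [hβ]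
    constructor <;> linarith
  set I := Ico (-V : ℤ) (W + V) with hI
  have hoI : ∀ n, o n ∈ I := by
    intro n
    have h1 := hb n
    have h2 := abs_le.1 (ht1 (β n))
    rw [hI, mem_Ico]
    simp only [ho]
    constructor <;> linarith [h1.1, h1.2, h2.1, h2.2]
  have hinj : ∀ a b, β a = β b → o a = o b → a = b := by
    intro a b h1 h2
    simp only [ho, h1] at h2
    linarith
  -- phase error
  have hρ := hH.rho hp Np A S
  have T1 : IB p (fun n k => (rho N (n - k) : ℂ) * (hat Γ c (n - k) - hat Γ c (o n - o k))) A S 1 := by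
    have := IB.sum hp Γ (N := A) (S := S) (Ct := fun y => ‖c y‖ * (η * (C + C) * 1 + 1 * (C + C) * η))
      (Kt := fun y n k => c y * ((e ((-o n) • y) * (e ((-t (β n)) • y) - 1)) * (rho N (n - k) : ℂ) *
        e (k • y) + e ((-o n) • y) * (rho N (n - k) : ℂ) * (e (o k • y) * (e (t (β k) • y) - 1))))
      fun y hy => ((hρ.mod hp0 η0.le zero_le_one (fun n _ => ?_) (fun k _ => (e_norm _).le)).add hp
        (hρ.mod hp0 zero_le_one η0.le (fun n _ => (e_norm _).le) (fun k _ => ?_))).smul hp0 (c y)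
    · refine (this.congr fun n _ k _ => ?_).mono ?_
      · simp only [hat, ← sum_sub_distrib, mul_sum]
        refine sum_congr rfl fun y _ => ?_
        have e1 : e ((-(n - k)) • y) = e ((-o n) • y) * e ((-t (β n)) • y) * e (k • y) := by
          rw [← e_add, ← e_add, ← add_smul, ← add_smul]; congr 2; simp only [ho]; ring
        have e2 : e ((-(o n - o k)) • y) = e ((-o n) • y) * e (o k • y) := by
          rw [← e_add, ← add_smul]; congr 2; ring
        have e3 : e (k • y) = e (o k • y) * e (t (β k) • y) := by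
          rw [← e_add, ← add_smul]; congr 2; simp only [ho]; ring
        rw [e1, e2, e3]; ring
      · rw [← sum_mul, ← hs, hη]
        have : 0 < 4 * C * s + 1 := by positivity
        field_simp
        nlinarith
    · rw [norm_mul, e_norm, one_mul, neg_smul, e_neg, ← map_one (starRingEnd ℂ), ← map_sub,
        RCLike.norm_conj]
      exact ht2 _ y hy
    · rw [norm_mul, e_norm, one_mul]
      exact ht2 _ y hy
  -- smoothness error
  have T2 : IB p (fun n k => ((rho N (n - k) : ℂ) - rho N (W * (β n - β k))) * hat Γ c (o n - o k))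
      A S 1 := by
    refine IB.of_sum hp (fun x => (th N (x + W) - th N (x - W)) * s) (fun n k => ?_) (fun X => ?_) A S
    · rw [norm_mul, ← ofReal_sub, norm_real, Real.norm_eq_abs]
      have h1 : |W * (β n - β k) - (n - k)| ≤ W := by
        have h1 := hb n
        have h2 := hb k
        rw [abs_le]; constructor <;> linarith [h1.1, h1.2, h2.1, h2.2]
      have h2 := th_near Np h1
      refine mul_le_mul h2 ((norm_sum_le _ _).trans (le_of_eq ?_)) (norm_nonneg _)
        ((abs_nonneg _).trans h2)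
      simp only [norm_mul, e_norm, mul_one, hs]
    · rw [← sum_mul]
      have h1 := th_sum Np X (-W) (2 * W)
      have h2 : ∑ x ∈ X, (th N (x + W) - th N (x - W)) ≤ 8 / N1 := by
        refine le_trans (le_of_eq (sum_congr rfl fun x _ => ?_)) (h1.trans (le_of_eq ?_))
        · congr 2; push_cast; ring
        · have : (W : ℝ) ≠ 0 := by positivity
          rw [hN]; push_cast; field_simp; ring
      have h3 : (0 : ℝ) < N1 := by positivity
      refine (mul_le_mul_of_nonneg_right h2 s0).trans ?_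
      rw [div_mul_eq_mul_div, div_le_one h3]
      have : (0 : ℝ) ≤ N0 := by positivity
      linarith
  -- main term
  have hG := hH.rho hp N1p
  set X := (S.image β) ×ˢ I with hX
  have K1 := IB.block hp (K := fun n (x : ℤ × ℤ) => (rho N1 (β n - x.1) : ℂ)) (N := A) (S := X)
    o Prod.snd hG.nonneg fun r => (hG (A.image β) (S.image β)).pull hp0 β Prod.fst
      (fun a ha b hb' hab => hinj a b hab
        ((mem_filter.1 (mem_coe.1 ha)).2.trans (mem_filter.1 (mem_coe.1 hb')).2.symm))
      (fun a ha b hb' hab => Prod.ext hab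
        ((mem_filter.1 (mem_coe.1 ha)).2.trans (mem_filter.1 (mem_coe.1 hb')).2.symm))
      (fun n hn => mem_image_of_mem _ (mem_filter.1 hn).1)
      (fun x hx => (mem_product.1 (mem_filter.1 hx).1).1)
  have K2 := IB.block hp (K := fun (x : ℤ × ℤ) k => hat Γ c (x.2 - o k) / W) (N := X) (S := S)
    Prod.fst β hB.1 fun b => hB.pull hp0 Prod.snd o
      (fun a ha b hb' hab => Prod.ext
        ((mem_filter.1 (mem_coe.1 ha)).2.trans (mem_filter.1 (mem_coe.1 hb')).2.symm) hab)
      (fun a ha b hb' hab => hinj a b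
        ((mem_filter.1 (mem_coe.1 ha)).2.trans (mem_filter.1 (mem_coe.1 hb')).2.symm) hab)
      (fun x hx => (mem_product.1 (mem_filter.1 hx).1).2)
      (fun k _ => hoI k)
  refine ((((K1.comp K2).add hp T1).add hp T2).congr fun n _ k hk => ?_).mono (by linarith)
  rw [sum_eq_single (β k, o n)]
  · simp only [if_true, hN, rho_scale hW N1p]
    push_cast
    ring
  · intro x _ hx
    by_cases h1 : o n = x.2
    · rw [if_neg (c := x.1 = β k) fun h2 => hx (Prod.ext h2 h1.symm), mul_zero]
    · rw [if_neg h1, zero_mul]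
  · intro h; exact absurd (mem_product.2 ⟨mem_image_of_mem β hk, hoI n⟩ : (β k, o n) ∈ _) h

end Pool.Agent.H49.MP
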