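import Pool.Agent.H49.MP4

set_option autoImplicit false

namespace Pool.Agent.H49.MP

open Finset Complex MeasureTheory Filter Topology
open scoped Real ComplexConjugate

/-- fractional part on the circle -/
noncomputable def fr (z : T) : ℝ := (AddCircle.equivIco 1 0 z : ℝ)

lemma fr_coe (x : ℝ) : fr (x : T) = Int.fract x := by
  simp [fr]

lemma coe_fract (x : ℝ) : ((Int.fract x : ℝ) : T) = x := by
  rw [Int.fract, AddCircle.coe_sub, coe_int, sub_zero]

lemma coe_fr (z : T) : ((fr z : ℝ) : T) = z := by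
  induction z using QuotientAddGroup.induction_on
  rw [fr_coe, coe_fract]

lemma fr_mem (z : T) : 0 ≤ fr z ∧ fr z < 1 := by
  induction z using QuotientAddGroup.induction_on
  rw [fr_coe]; exact ⟨Int.fract_nonneg _, Int.fract_lt_one _⟩

/-- Lebesgue measure on the unit interval -/
noncomputable abbrev μ : Measure ℝ := volume.restrict (Set.Icc (0:ℝ) 1)

lemma int_eq (g : ℝ → ℂ) : ∫ x in (0:ℝ)..1, g x = ∫ x, g x ∂μ := by
  rw [intervalIntegral.integral_of_le zero_le_one, integral_Icc_eq_integral_Ioc]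

lemma cf_eq (g : ℝ → ℂ) (n : ℤ) : cf g n = ∫ x, e ((-n) • (x : T)) * g x ∂μ := int_eq _

lemma int_cont {g u : ℝ → ℂ} (h : Integrable g μ) (hu : Continuous u) :
    Integrable (fun x => u x * g x) μ :=
  IntegrableOn.continuousOn_mul hu.continuousOn h isCompact_Icc

lemma cf_add {g g' : ℝ → ℂ} (h : Integrable g μ) (h' : Integrable g' μ) (n : ℤ) :
    cf (fun x => g x + g' x) n = cf g n + cf g' n := by
  simp only [cf_eq, mul_add]
  exact integral_add (int_cont h (cont_e _)) (int_cont h' (cont_e _))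

lemma cf_smul (g : ℝ → ℂ) (c : ℂ) (n : ℤ) : cf (fun x => c * g x) n = c * cf g n := by
  simp only [cf_eq, ← integral_const_mul]
  congr 1; ext x; ring

lemma cf_sub {g g' : ℝ → ℂ} (h : Integrable g μ) (h' : Integrable g' μ) (n : ℤ) :
    cf (fun x => g x - g' x) n = cf g n - cf g' n := by
  simp only [cf_eq, mul_sub]
  exact integral_sub (int_cont h (cont_e _)) (int_cont h' (cont_e _))

lemma cf_sum {ι : Type} (I : Finset ι) {g : ι → ℝ → ℂ} (h : ∀ i ∈ I, Integrable (g i) μ) (n : ℤ) :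
    cf (fun x => ∑ i ∈ I, g i x) n = ∑ i ∈ I, cf (g i) n := by
  simp only [cf_eq, mul_sum]
  exact integral_finsetSum _ fun i hi => int_cont (h i hi) (cont_e _)

lemma cf_const (c : ℂ) (n : ℤ) : cf (fun _ => c) n = if n = 0 then c else 0 := by
  unfold cf
  rw [intervalIntegral.integral_mul_const, int_e]
  by_cases h : n = 0 <;> simp [h]

/-- piecewise linear function with slope minus sigma and jumps J -/
def Good (G : T → ℂ) (σ : ℂ) (J : T → ℂ) : Prop :=
  (∀ z, ∀ᶠ t : ℝ in 𝓝 0, G (z + t) = G z - t * σ - if t < 0 then J z else 0) ∧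
  Measurable (fun x : ℝ => G x) ∧ ∃ B, ∀ z, ‖G z‖ ≤ B

variable {G G' J J' : T → ℂ} {σ σ' : ℂ}

lemma Good.int (h : Good G σ J) : Integrable (fun x : ℝ => G x) μ := by
  obtain ⟨B, hB⟩ := h.2.2
  exact Integrable.of_bound h.2.1.aestronglyMeasurable B (Eventually.of_forall fun x => hB _)

lemma Good.congr (h : Good G σ J) (h1 : σ' = σ) (h2 : ∀ z, J' z = J z) : Good G σ' J' := by
  rw [h1, funext h2]; exact h

lemma Good.const (c : ℂ) : Good (fun _ => c) 0 (fun _ => 0) :=
  ⟨fun z => by simp, measurable_const, ‖c‖, fun _ => le_rfl⟩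

lemma Good.add (h : Good G σ J) (h' : Good G' σ' J') :
    Good (fun z => G z + G' z) (σ + σ') (fun z => J z + J' z) := by
  obtain ⟨B, hB⟩ := h.2.2
  obtain ⟨B', hB'⟩ := h'.2.2
  refine ⟨fun z => ?_, h.2.1.add h'.2.1, B + B', fun z => norm_add_le_of_le (hB z) (hB' z)⟩
  filter_upwards [h.1 z, h'.1 z] with t h1 h2
  rw [h1, h2]; split_ifs <;> ring

lemma Good.smul (h : Good G σ J) (c : ℂ) :
    Good (fun z => c * G z) (c * σ) (fun z => c * J z) := by
  obtain ⟨B, hB⟩ := h.2.2
  refine ⟨fun z => ?_, h.2.1.const_mul c, ‖c‖ * B, fun z => ?_⟩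
  · filter_upwards [h.1 z] with t h1
    rw [h1]; split_ifs <;> ring
  · rw [norm_mul]; exact mul_le_mul_of_nonneg_left (hB z) (norm_nonneg _)

lemma Good.sub (h : Good G σ J) (h' : Good G' σ' J') :
    Good (fun z => G z - G' z) (σ - σ') (fun z => J z - J' z) := by
  simpa [sub_eq_add_neg] using h.add (h'.smul (-1))

lemma Good.sum {ι : Type} (I : Finset ι) {G J : ι → T → ℂ} {σ : ι → ℂ}
    (h : ∀ i ∈ I, Good (G i) (σ i) (J i)) :
    Good (fun z => ∑ i ∈ I, G i z) (∑ i ∈ I, σ i) (fun z => ∑ i ∈ I, J i z) := by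
  classical
  induction I using Finset.induction_on with
  | empty => simpa using Good.const 0
  | insert i I hi ih =>
    simp only [sum_insert hi]
    exact (h i (mem_insert_self _ _)).add (ih fun j hj => h j (mem_insert_of_mem hj))

/-- sawtooth with unit jump at y -/
noncomputable def saw (y z : T) : ℂ := -(fr (z - y) : ℂ)

open Classical in
lemma good_saw (y : T) : Good (saw y) 1 (fun z => if z = y then 1 else 0) := by
  refine ⟨fun z => ?_, ?_, 1, fun z => ?_⟩
  · set x := fr (z - y) with hx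
    have h0 := fr_mem (z - y)
    have h1 : ∀ t : ℝ, fr (z + t - y) = Int.fract (x + t) := by
      intro t
      rw [← fr_coe, AddCircle.coe_add, hx, coe_fr]; congr 1; abel
    by_cases hz : z = y
    · have hx0 : x = 0 := by
        rw [hx, hz, sub_self, ← AddCircle.coe_zero, fr_coe, Int.fract_zero]
      filter_upwards [Ioo_mem_nhds (show (-1:ℝ) < 0 by norm_num) zero_lt_one] with t ht
      simp only [saw, h1, ← hx, hx0, zero_add, if_pos hz]
      split_ifs with h
      · rw [← Int.fract_add_one, Int.fract_eq_self.2 ⟨by linarith [ht.1], by linarith⟩]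
        push_cast; ring
      · rw [Int.fract_eq_self.2 ⟨by linarith, ht.2⟩]; push_cast; ring
    · have hx0 : 0 < x := by
        refine lt_of_le_of_ne h0.1 fun h => hz ?_
        rw [← sub_eq_zero, ← coe_fr (z - y), ← hx, ← h, AddCircle.coe_zero]
      filter_upwards [Ioo_mem_nhds (show -x < 0 by linarith) (show 0 < 1 - x by linarith [h0.2])]
        with t ht
      simp only [saw, h1, ← hx, if_neg hz, ite_self]
      rw [Int.fract_eq_self.2 ⟨by linarith [ht.1], by linarith [ht.2]⟩]; push_cast; ring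
  · have : (fun x : ℝ => saw y x) = fun x => -((Int.fract (x - fr y) : ℝ) : ℂ) := by
      ext x; rw [saw, ← fr_coe, AddCircle.coe_sub, coe_fr]
    rw [this]
    exact (measurable_ofReal.comp (measurable_id.sub_const _).fract).neg
  · rw [saw, norm_neg, norm_real, Real.norm_of_nonneg (fr_mem _).1]; exact (fr_mem _).2.le

lemma cf_saw (y : T) (n : ℤ) : cf (fun x => saw y x) n =
    if n = 0 then -(1 / 2) else e ((-n) • y) * (2 * π * I * n)⁻¹ := by
  have hper : Function.Periodic (fun x : ℝ => e ((-n) • (x : T)) * saw y x) 1 := by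
    intro x
    simp only [AddCircle.coe_add_period]
  have h1 := hper.intervalIntegral_add_eq 0 (fr y)
  have h2 := intervalIntegral.integral_comp_add_right (a := 0) (b := 1)
    (fun x : ℝ => e ((-n) • (x : T)) * saw y x) (fr y)
  rw [zero_add] at h1 h2
  rw [cf, h1, add_comm, ← h2]
  have h3 : ∫ x in (0:ℝ)..1, e ((-n) • ((x + fr y : ℝ) : T)) * saw y (x + fr y : ℝ) =
      -e ((-n) • y) * cf (fun x => x) n := by
    rw [cf, ← intervalIntegral.integral_const_mul]
    refine intervalIntegral.integral_congr_ae ?_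
    filter_upwards [compl_mem_ae_iff.2 (measure_singleton (1:ℝ))] with x hx hx'
    rw [Set.uIoc_of_le zero_le_one] at hx'
    rw [AddCircle.coe_add, coe_fr, smul_add, e_add, saw, add_sub_cancel_right, fr_coe,
      Int.fract_eq_self.2 ⟨hx'.1.le, lt_of_le_of_ne hx'.2 hx⟩]
    ring
  rw [h3, cf_id]
  split_ifs with h
  · simp [h, e_zero]
  · ring

/-- indicator function of an arc -/
noncomputable def ind (a b : ℝ) (z : T) : ℂ := (b - a : ℝ) + saw a z - saw b z

open Classical in
lemma good_ind (a b : ℝ) :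
    Good (ind a b) 0 (fun z => (if z = a then 1 else 0) - if z = b then 1 else 0) :=
  (((Good.const _).add (good_saw a)).sub (good_saw b)).congr (by simp) (by simp)

lemma cf_ind (a b : ℝ) (n : ℤ) : cf (fun x => ind a b x) n =
    if n = 0 then ((b - a : ℝ) : ℂ) else (e ((-n) • (a : T)) - e ((-n) • (b : T))) * (2 * π * I * n)⁻¹ := by
  simp only [ind]
  rw [cf_sub ((Good.const _).add (good_saw a)).int (good_saw b).int,
    cf_add (Good.const _).int (good_saw a).int, cf_const, cf_saw, cf_saw]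
  split_ifs <;> ring

lemma ind_eq {a b x : ℝ} (ha : 0 ≤ a) (hab : a ≤ b) (hb : b ≤ 1) (h0 : 0 ≤ x) (h1 : x < 1) :
    ind a b x = if a ≤ x ∧ x < b then 1 else 0 := by
  have key : ∀ c : ℝ, 0 ≤ c → c ≤ 1 → saw c x = -((x - c + if c ≤ x then 0 else 1 : ℝ) : ℂ) := by
    intro c h2 h3
    rw [saw, ← AddCircle.coe_sub, fr_coe]
    split_ifs with h
    · rw [Int.fract_eq_self.2 ⟨by linarith, by linarith⟩, add_zero]
    · rw [← Int.fract_add_one, Int.fract_eq_self.2 ⟨by linarith, by linarith⟩]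
  rw [ind, key a ha (by linarith), key b (by linarith) hb]
  by_cases h2 : a ≤ x
  · by_cases h3 : x < b
    · simp [h2, h3, not_le.2 h3]
    · simp [h2, h3, not_lt.1 h3]
  · have : ¬ b ≤ x := fun h => h2 (hab.trans h)
    simp [h2, this]; ring

lemma exists_rep {w : T} {δ : ℝ} (h : ‖w‖ < δ) : ∃ t : ℝ, |t| < δ ∧ w = t := by
  induction w using QuotientAddGroup.induction_on with
  | H x =>
    rw [UnitAddCircle.norm_eq] at h
    exact ⟨_, h, by rw [AddCircle.coe_sub, coe_int, sub_zero]⟩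

lemma Good.osc (h : Good G 0 J) {η : ℝ} (hJ : ∀ z, ‖J z‖ ≤ η) :
    ∃ δ > 0, ∀ z w, ‖w - z‖ < δ → ‖G w - G z‖ ≤ 2 * η := by
  have h1 : ∀ z, ∃ δ > 0, ∀ w ∈ Metric.ball z δ, ‖G w - G z‖ ≤ η := by
    intro z
    obtain ⟨δ, hδ, h2⟩ := Metric.eventually_nhds_iff.1 (h.1 z)
    refine ⟨δ, hδ, fun w hw => ?_⟩
    obtain ⟨t, ht, e⟩ := exists_rep (mem_ball_iff_norm.1 hw)
    have := h2 (y := t) (by simpa using ht)
    rw [← e, add_sub_cancel] at this
    rw [this]
    split_ifs
    · simpa using hJ z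
    · simpa using (norm_nonneg _).trans (hJ z)
  choose r hr h1 using h1
  obtain ⟨δ, hδ, h2⟩ := lebesgue_number_lemma_of_metric (c := fun z => Metric.ball z (r z))
    isCompact_univ (fun _ => Metric.isOpen_ball)
    (fun z _ => Set.mem_iUnion.2 ⟨z, Metric.mem_ball_self (hr z)⟩)
  refine ⟨δ, hδ, fun z w hw => ?_⟩
  obtain ⟨i, hi⟩ := h2 z trivial
  have h3 := h1 i w (hi (mem_ball_iff_norm.2 hw))
  have h4 := h1 i z (hi (Metric.mem_ball_self hδ))
  calc ‖G w - G z‖ = ‖(G w - G i) - (G z - G i)‖ := by congr 1; ring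
    _ ≤ _ := (norm_sub_le _ _).trans (by linarith)

/-- step functions on the unit interval -/
def Stp (g : ℝ → ℂ) : Prop := ∃ (m : ℕ) (t : Fin (m + 1) → ℝ) (c : Fin m → ℂ),
  StrictMono t ∧ t 0 = 0 ∧ t (Fin.last m) = 1 ∧
  ∀ i : Fin m, ∀ x ∈ Set.Ioo (t i.castSucc) (t i.succ), g x = c i

lemma Good.step (h : Good G 0 J) (F : Finset T) (hF : ∀ z ∉ F, J z = 0) :
    Stp fun x : ℝ => G x := by
  classical
  set Z : Finset ℝ := insert 0 (insert 1 (F.image fr)) with hZ
  have hZ1 : ∀ x ∈ Z, 0 ≤ x ∧ x ≤ 1 := by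
    intro x hx
    simp only [hZ, mem_insert, mem_image] at hx
    rcases hx with rfl | rfl | ⟨y, _, rfl⟩
    · norm_num
    · norm_num
    · exact ⟨(fr_mem y).1, (fr_mem y).2.le⟩
  obtain ⟨m, hm⟩ : ∃ m, Z.card = m + 1 :=
    Nat.exists_eq_succ_of_ne_zero (card_pos.2 ⟨0, by simp [hZ]⟩).ne'
  set t := Z.orderEmbOfFin hm with ht
  have hr : Set.range t = Z := range_orderEmbOfFin Z hm
  have hmem : ∀ i, t i ∈ Z := fun i => orderEmbOfFin_mem Z hm i
  refine ⟨m, t, fun i => G (((t i.castSucc + t i.succ) / 2 : ℝ)), t.strictMono, ?_, ?_, ?_⟩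
  · obtain ⟨i, hi⟩ : (0:ℝ) ∈ Set.range t := by rw [hr]; simp [hZ]
    exact le_antisymm (hi ▸ t.monotone (Fin.zero_le i)) (hZ1 _ (hmem _)).1
  · obtain ⟨i, hi⟩ : (1:ℝ) ∈ Set.range t := by rw [hr]; simp [hZ]
    exact le_antisymm (hZ1 _ (hmem _)).2 (hi ▸ t.monotone (Fin.le_last i))
  · intro i x hx
    have hd : ∀ y ∈ Set.Ioo (t i.castSucc) (t i.succ), HasDerivAt (fun x : ℝ => G x) 0 y := by
      intro y hy
      have h1 : (y : T) ∉ F := by
        intro hyF
        have h2 : y ∈ Z := by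
          have : fr y = y := by
            rw [fr_coe, Int.fract_eq_self.2 ⟨(hZ1 _ (hmem _)).1.trans hy.1.le,
              hy.2.trans_le (hZ1 _ (hmem _)).2⟩]
          simp only [hZ, mem_insert, mem_image]
          exact Or.inr (Or.inr ⟨_, hyF, this⟩)
        obtain ⟨j, hj⟩ : y ∈ Set.range t := by rw [hr]; exact h2
        rw [← hj] at hy
        have h3 := t.strictMono.lt_iff_lt.1 hy.1
        have h4 := t.strictMono.lt_iff_lt.1 hy.2
        rw [Fin.lt_def] at h3 h4
        simp at h3 h4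
        omega
      refine (hasDerivAt_const y (G y)).congr_of_eventuallyEq ?_
      have h5 : Tendsto (fun x : ℝ => x - y) (𝓝 y) (𝓝 0) := by
        have : Continuous fun x : ℝ => x - y := by fun_prop
        simpa using this.tendsto y
      filter_upwards [h5.eventually (h.1 y)] with w hw
      rw [← AddCircle.coe_add, add_sub_cancel, hF _ h1] at hw
      simpa using hw
    have hlt : t i.castSucc < t i.succ := hx.1.trans hx.2
    exact isOpen_Ioo.is_const_of_deriv_eq_zero isPreconnected_Ioo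
      (fun y hy => (hd y hy).differentiableAt.differentiableWithinAt) (fun y hy => (hd y hy).deriv)
      hx ⟨by linarith, by linarith⟩

lemma Stp.rep {g : ℝ → ℂ} (h : Stp g) : ∃ (G J : T → ℂ) (F : Finset T), Good G 0 J ∧
    (∀ z ∉ F, J z = 0) ∧ ∀ᵐ x ∂μ, g x = G x := by
  classical
  obtain ⟨m, t, c, ht, h0, h1, hc⟩ := h
  have hb : ∀ i, 0 ≤ t i ∧ t i ≤ 1 := fun i =>
    ⟨h0 ▸ ht.monotone (Fin.zero_le i), h1 ▸ ht.monotone (Fin.le_last i)⟩
  refine ⟨_, _, univ.image fun i => (t i : T), (Good.sum univ fun i _ =>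
    (good_ind (t i.castSucc) (t i.succ)).smul (c i)).congr (by simp) (fun _ => rfl), fun z hz => ?_, ?_⟩
  · refine sum_eq_zero fun i _ => ?_
    rw [if_neg fun e => hz (mem_image.2 ⟨_, mem_univ _, e.symm⟩),
      if_neg fun e => hz (mem_image.2 ⟨_, mem_univ _, e.symm⟩)]
    simp
  · have hn : ∀ᵐ x ∂μ, x ∉ Set.range t :=
      ae_restrict_of_ae (compl_mem_ae_iff.2 ((Set.finite_range t).measure_zero _))
    filter_upwards [hn, ae_restrict_mem measurableSet_Icc] with x hx hx'
    have hne : ∀ i, t i ≠ x := fun i e => hx ⟨i, e⟩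
    have x1 : x < 1 := lt_of_le_of_ne hx'.2 fun e => hne (Fin.last m) (h1.trans e.symm)
    obtain ⟨j, hj, hmin⟩ := (univ.filter fun j => x < t j).exists_min_image id
      ⟨Fin.last m, by simp [h1, x1]⟩
    have hj := (mem_filter.1 hj).2
    obtain ⟨i, rfl⟩ : ∃ i : Fin m, i.succ = j := by
      refine Fin.exists_succ_eq.2 fun e => ?_
      rw [e, h0] at hj
      exact absurd hx'.1 (not_le.2 hj)
    have hi : t i.castSucc < x := by
      refine lt_of_le_of_ne (not_lt.1 fun e => ?_) (hne _)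
      have := hmin i.castSucc (by simp [e])
      exact absurd (Fin.castSucc_lt_succ (i := i)) (not_lt.2 this)
    rw [hc i x ⟨hi, hj⟩, sum_eq_single i]
    · rw [ind_eq (hb _).1 (hi.trans hj).le (hb _).2 hx'.1 x1, if_pos ⟨hi.le, hj⟩, mul_one]
    · intro k _ hk
      rw [ind_eq (hb _).1 (ht (Fin.castSucc_lt_succ (i := k))).le (hb _).2 hx'.1 x1, if_neg, mul_zero]
      rintro ⟨h2, h3⟩
      have h4 := ht.lt_iff_lt.1 (h2.trans_lt hj)
      have h5 := ht.lt_iff_lt.1 (hi.trans h3)
      rw [Fin.lt_def] at h4 h5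
      simp at h4 h5
      exact hk (Fin.ext (by omega))
    · simp

end Pool.Agent.H49.MP
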