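import Pool.Agent.H49.MP5

set_option autoImplicit false

namespace Pool.Agent.H49.MP

open Finset Complex MeasureTheory Filter Topology
open scoped Real ComplexConjugate

lemma geo (z : T) (hz : z ≠ 0) (a : ℤ) (L : ℕ) :
    ‖∑ j ∈ Ico a (a + L), e (j • z)‖ ≤ 2 / ‖e z - 1‖ := by
  have h1 : 0 < ‖e z - 1‖ := norm_pos_iff.2 (sub_ne_zero.2 fun h => hz (e_eq_one h))
  have tel : (∑ j ∈ Ico a (a + L), e (j • z)) * (e z - 1) = e ((a + L) • z) - e (a • z) := by
    induction L with
    | zero => simp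
    | succ L ih =>
      push_cast
      rw [← add_assoc, ← Finset.insert_Ico_right_eq_Ico_add_one (by omega), sum_insert (by simp),
        add_mul, ih, add_smul (a + L), one_smul, e_add]
      ring
  rw [le_div_iff₀ h1, ← norm_mul, tel]
  exact (norm_sub_le _ _).trans (by rw [e_norm, e_norm]; norm_num)

lemma tri_zero {N : ℕ} (hN : 0 < N) : tri N 0 = 1 := by
  have : (N : ℝ) ≠ 0 := by positivity
  simp [tri, this]

lemma tri_off {N : ℕ} {n : ℤ} (h : n ∉ Ioo (-N : ℤ) N) : tri N n = 0 := by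
  rw [mem_Ioo, ← abs_lt, not_lt] at h
  simp [tri, Int.toNat_eq_zero.2 (sub_nonpos.2 h)]

/-- Fejer kernel -/
noncomputable def fk (N : ℕ) (z : T) : ℝ := ‖∑ j ∈ Ico (0:ℤ) (0 + N), e (j • z)‖ ^ 2 / N

lemma fk_eq (N : ℕ) (z : T) : (fk N z : ℂ) = ∑ n ∈ Ioo (-N : ℤ) N, (tri N n : ℂ) * e (n • z) := by
  rw [fk, ofReal_div, ofReal_pow, ← mul_conj', map_sum, sum_mul_sum, zero_add]
  have h1 : ∀ i ∈ Ico (0:ℤ) N, ∑ j ∈ Ico (0:ℤ) N, e (i • z) * conj (e (j • z)) =
      ∑ n ∈ Ioo (-N : ℤ) N, if n ≤ i ∧ i < n + N then e (n • z) else 0 := by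
    intro i hi
    rw [← sum_filter]
    rw [mem_Ico] at hi
    refine sum_nbij' (fun j => i - j) (fun n => i - n) ?_ ?_ (by simp) (by simp) ?_
    · intro j hj; simp only [mem_filter, mem_Ico, mem_Ioo] at *; omega
    · intro j hj; simp only [mem_filter, mem_Ico, mem_Ioo] at *; omega
    · intro j _; rw [← e_neg, ← e_add, sub_smul, sub_eq_add_neg]
  rw [sum_congr rfl h1, sum_comm, sum_div]
  refine sum_congr rfl fun n _ => ?_
  rw [← sum_filter, sum_const, nsmul_eq_mul]
  have : filter (fun i => n ≤ i ∧ i < n + N) (Ico (0:ℤ) N) = Ico (max n 0) (min n 0 + N) := by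
    ext t
    simp only [mem_filter, mem_Ico]
    omega
  rw [this, Int.card_Ico]
  have e : min n 0 + N - max n 0 = N - |n| := by
    rcases le_total n 0 with h1 | h1
    · rw [abs_of_nonpos h1]; omega
    · rw [abs_of_nonneg h1]; omega
  rw [e]
  simp only [tri]
  push_cast
  ring

/-- Fejer mean -/
noncomputable def fej (N : ℕ) (φ : ℝ → ℂ) (z : T) : ℂ :=
  ∑ n ∈ Ioo (-N : ℤ) N, (tri N n : ℂ) * cf φ n * e (n • z)

lemma cont_fk (N : ℕ) (z : T) : Continuous fun x : ℝ => fk N (z - x) := by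
  unfold fk
  refine ((continuous_finsetSum _ fun j _ => e_cont.comp ((continuous_zsmul j).comp
    (continuous_const.sub (AddCircle.continuous_mk' 1)))).norm.pow 2).div_const _

lemma fej_eq (N : ℕ) {φ : ℝ → ℂ} (h : Integrable φ μ) (z : T) :
    fej N φ z = ∫ x : ℝ, (fk N (z - x) : ℂ) * φ x ∂μ := by
  simp only [fk_eq, sum_mul, fej, cf_eq]
  rw [integral_finsetSum _ fun n _ => int_cont h (by
    exact continuous_const.mul (e_cont.comp
      ((continuous_zsmul n).comp (continuous_const.sub (AddCircle.continuous_mk' 1)))))]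
  refine sum_congr rfl fun n _ => ?_
  rw [← integral_const_mul, ← integral_mul_const]
  congr 1; ext x
  rw [smul_sub, sub_eq_add_neg, e_add, neg_smul]; ring

lemma fej_one {N : ℕ} (hN : 0 < N) (z : T) (v : ℂ) : fej N (fun _ => v) z = v := by
  simp only [fej, cf_const]
  rw [sum_eq_single 0]
  · simp [tri_zero hN, e_zero]
  · intro n _ hn; simp [hn]
  · intro h; exact absurd (mem_Ioo.2 ⟨by omega, by omega⟩) h

lemma fejer {φ : ℝ → ℂ} {G : T → ℂ} (h : Integrable φ μ) {B ε δ η : ℝ} (hB : ∀ z, ‖G z‖ ≤ B)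
    (hε : 0 ≤ ε) (hφ : ∀ᵐ x ∂μ, ‖φ x - G x‖ ≤ ε) (hδ : 0 < δ) (hη : 0 < η) :
    ∃ N0 : ℕ, ∀ N : ℕ, N0 ≤ N → 0 < N → ∀ (z : T) (η1 : ℝ), 0 ≤ η1 →
      (∀ w, ‖w - z‖ < δ → ‖G w - G z‖ ≤ η1) → ‖fej N φ z - G z‖ ≤ ε + η1 + η := by
  obtain ⟨m, hm, hm2⟩ := IsCompact.exists_forall_le' (s := {z : T | δ ≤ ‖z‖})
    (f := fun z => ‖e z - 1‖) (a := 0) (isClosed_le continuous_const continuous_norm).isCompact
    (e_cont.sub continuous_const).norm.continuousOn fun z hz =>
      norm_pos_iff.2 (sub_ne_zero.2 fun h => by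
        have := e_eq_one h
        simp only [this, Set.mem_ofPred_eq, norm_zero] at hz
        linarith)
  have B0 : 0 ≤ B := (norm_nonneg _).trans (hB 0)
  obtain ⟨N0, hN0⟩ := exists_nat_gt ((2 / m) ^ 2 * (ε + 2 * B) / η)
  refine ⟨N0, fun N hN Np z η1 h1 hz => ?_⟩
  have Np' : (0 : ℝ) < N := by exact_mod_cast Np
  have hκ : (2 / m) ^ 2 / N * (ε + 2 * B) ≤ η := by
    have : (N0 : ℝ) ≤ N := by exact_mod_cast hN
    rw [div_lt_iff₀ hη] at hN0
    rw [div_mul_eq_mul_div, div_le_iff₀ Np']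
    nlinarith
  have e1 : fej N φ z - G z = ∫ x : ℝ, (fk N (z - x) : ℂ) * (φ x - G z) ∂μ := by
    conv_lhs => rw [← fej_one Np z (G z), fej_eq N h, fej_eq N (integrable_const _)]
    simp only [mul_sub]
    have hc : Continuous fun x : ℝ => (fk N (z - x) : ℂ) := continuous_ofReal.comp (cont_fk N z)
    rw [integral_sub (int_cont h hc) (int_cont (integrable_const _) hc)]
  have e2 : ∫ x : ℝ, fk N (z - x) ∂μ = 1 := by
    apply ofReal_injective
    have := fej_eq N (integrable_const (1:ℂ)) z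
    rw [fej_one Np] at this
    rw [← integral_complex_ofReal, ofReal_one, this]; simp
  have i1 : Integrable (fun x : ℝ => fk N (z - x)) μ :=
    (cont_fk N z).continuousOn.integrableOn_compact isCompact_Icc
  rw [e1]
  refine (norm_integral_le_of_norm_le (g := fun x : ℝ => fk N (z - x) * (ε + η1) + η)
    ((i1.mul_const _).add (integrable_const _)) ?_).trans (le_of_eq ?_)
  · filter_upwards [hφ] with x hx
    have f0 : 0 ≤ fk N (z - x) := by unfold fk; positivity
    rw [norm_mul, norm_real, Real.norm_of_nonneg f0]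
    have t1 : ‖φ x - G z‖ ≤ ‖φ x - G x‖ + ‖G x - G z‖ := norm_sub_le_norm_sub_add_norm_sub _ _ _
    by_cases hx2 : ‖(x : T) - z‖ < δ
    · have := hz x hx2
      have : fk N (z - x) * ‖φ x - G z‖ ≤ fk N (z - x) * (ε + η1) :=
        mul_le_mul_of_nonneg_left (by linarith) f0
      linarith
    · rw [norm_sub_rev, not_lt] at hx2
      have h2 : z - x ≠ 0 := by
        intro h0; rw [h0, norm_zero] at hx2; linarith
      have h3 : fk N (z - x) ≤ (2 / m) ^ 2 / N := by
        unfold fk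
        gcongr
        exact (geo _ h2 0 N).trans (div_le_div_of_nonneg_left zero_le_two hm (hm2 _ hx2))
      have h4 : ‖φ x - G z‖ ≤ ε + 2 * B := by
        linarith [norm_sub_le (G x) (G z), hB x, hB z]
      have := mul_le_mul h3 h4 (norm_nonneg _) (by positivity)
      have : 0 ≤ fk N (z - x) * (ε + η1) := by positivity
      linarith
  · rw [integral_add (i1.mul_const _) (integrable_const _), integral_mul_const, e2]
    simp

open Classical in
lemma folner (F : Finset T) {η : ℝ} (hη : 0 < η) : ∃ A : Finset T, A.Nonempty ∧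
    ∀ y ∈ F, (1 - η) * A.card ≤ (A.filter fun b => y + b ∈ A).card := by
  set A : ℕ → Finset T := fun k =>
    (Fintype.piFinset fun _ : F => range (k + 1)).image fun n => ∑ γ : F, n γ • (γ : T) with hA
  have ne : ∀ k, (A k).Nonempty := fun k =>
    ⟨_, mem_image_of_mem _ (Fintype.mem_piFinset.2 fun _ => mem_range.2 (Nat.succ_pos k) :
      (fun _ => 0) ∈ _)⟩
  have sub : ∀ k, A k ⊆ A (k + 1) := fun k => image_subset_image
    (Fintype.piFinset_subset _ _ fun _ => range_subset_range.2 (by omega))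
  have step : ∀ k, ∀ y ∈ F, ∀ b ∈ A k, y + b ∈ A (k + 1) := by
    intro k y hy b hb
    obtain ⟨n, hn, rfl⟩ := mem_image.1 hb
    refine mem_image.2 ⟨fun γ => n γ + if γ = ⟨y, hy⟩ then 1 else 0, ?_, ?_⟩
    · rw [Fintype.mem_piFinset] at hn ⊢
      intro γ
      have := mem_range.1 (hn γ)
      rw [mem_range]; split_ifs <;> omega
    · simp [add_smul, sum_add_distrib, add_comm]
  have card : ∀ k, ((A k).card : ℝ) ≤ ((k + 1 : ℕ) : ℝ) ^ F.card := by
    intro k
    have : (A k).card ≤ (k + 1) ^ F.card := by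
      refine card_image_le.trans ?_
      simp [Fintype.card_piFinset]
    exact_mod_cast this
  obtain ⟨k, hk⟩ : ∃ k, ((A (k + 1)).card : ℝ) ≤ (1 + η) * (A k).card := by
    by_contra hc
    push Not at hc
    have grow : ∀ k, (1 + η) ^ k ≤ ((A k).card : ℝ) := by
      intro k
      induction k with
      | zero => simpa using ne 0
      | succ k ih =>
        rw [pow_succ']
        exact (mul_le_mul_of_nonneg_left ih (by linarith)).trans (hc k).le
    have := (tendsto_pow_const_div_const_pow_of_one_lt F.card (show 1 < 1 + η by linarith)).comp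
      (tendsto_add_atTop_nat 1)
    obtain ⟨k, hk⟩ := (this.eventually (gt_mem_nhds (show 0 < 1 / (1 + η) by positivity))).exists
    simp only [Function.comp] at hk
    rw [div_lt_div_iff₀ (by positivity) (by positivity), one_mul, pow_succ] at hk
    have := (grow k).trans (card k)
    nlinarith
  refine ⟨A k, ne k, fun y hy => ?_⟩
  have h1 := card_filter_add_card_filter_not (s := A k) fun b => y + b ∈ A k
  have h2 : ((A k).filter fun b => ¬ y + b ∈ A k).card ≤ (A (k + 1) \ A k).card :=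
    card_le_card_of_injOn (fun b => y + b) (fun b hb => by
      have := mem_filter.1 (mem_coe.1 hb)
      exact mem_coe.2 (mem_sdiff.2 ⟨step k y hy b this.1, this.2⟩)) fun _ _ _ _ h => add_left_cancel h
  have h3 := card_sdiff_add_card_eq_card (sub k)
  have h4 : ((A k).card : ℝ) + (A k).card ≤
      ((A k).filter fun b => y + b ∈ A k).card + (A (k + 1)).card := by
    exact_mod_cast (by omega : (A k).card + (A k).card ≤
      ((A k).filter fun b => y + b ∈ A k).card + (A (k + 1)).card)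
  linarith

/-- almost periodic weight attached to a finite set -/
noncomputable def ww (A : Finset T) (j : ℤ) : ℝ := ‖∑ a ∈ A, e ((-j) • a)‖ ^ 2 / A.card

lemma ww_eq (A : Finset T) (j : ℤ) :
    (ww A j : ℂ) = (∑ a ∈ A, ∑ b ∈ A, e ((-j) • (a - b))) / A.card := by
  rw [ww, ofReal_div, ofReal_pow, ← mul_conj', map_sum, sum_mul_sum]
  simp only [← e_neg, ← e_add, sub_eq_add_neg, smul_add, smul_neg]
  simp

lemma ww_neg (A : Finset T) (j : ℤ) : ww A (-j) = ww A j := by
  unfold ww
  rw [← RCLike.norm_conj, map_sum]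
  simp only [← e_neg, neg_neg, neg_smul]

lemma ww_sum (A : Finset T) (hA : A.Nonempty) : ∃ B : ℝ, ∀ (r a : ℤ) (L : ℕ),
    ∑ j ∈ Ico a (a + L), ww A (j - r) ≤ L + B := by
  classical
  refine ⟨(∑ a ∈ A, ∑ b ∈ A, 2 / ‖e (b - a) - 1‖) / A.card, fun r x L => ?_⟩
  have hc : (0 : ℝ) < A.card := by exact_mod_cast hA.card_pos
  have h0 : 0 ≤ ∑ j ∈ Ico x (x + L), ww A (j - r) := sum_nonneg fun _ _ => by unfold ww; positivity
  rw [← Real.norm_of_nonneg h0, ← norm_real]
  push_cast
  simp only [ww_eq]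
  rw [← sum_div, norm_div, Complex.norm_natCast, div_le_iff₀ hc, add_mul, div_mul_cancel₀ _ hc.ne',
    sum_comm]
  have : (L : ℝ) * A.card = ∑ a ∈ A, ∑ b ∈ A, if a = b then (L : ℝ) else 0 := by
    rw [sum_congr rfl fun a ha => by rw [sum_ite_eq, if_pos ha]]; simp [mul_comm]
  rw [this, ← sum_add_distrib]
  refine (norm_sum_le _ _).trans (sum_le_sum fun a _ => ?_)
  rw [sum_comm, ← sum_add_distrib]
  refine (norm_sum_le _ _).trans (sum_le_sum fun b _ => ?_)
  split_ifs with hab
  · simp [hab, e_zero]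
  · have e1 : ∑ j ∈ Ico x (x + L), e ((-(j - r)) • (a - b)) =
        e (r • (a - b)) * ∑ j ∈ Ico x (x + L), e (j • (b - a)) := by
      rw [mul_sum]
      refine sum_congr rfl fun j _ => ?_
      rw [← e_add]; congr 1; module
    rw [e1, norm_mul, e_norm, one_mul, zero_add]
    exact geo _ (sub_ne_zero.2 (Ne.symm hab)) _ _

open Classical in
/-- window estimate for a Folner truncation of a trigonometric polynomial -/
lemma window {p M : ℝ} (hp : 1 ≤ p) (A : Finset T) (hA : A.Nonempty) (jk : ℤ → ℂ) (N : ℕ)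
    (hj : ∀ l ∉ Ioo (-N : ℤ) N, jk l = 0) (hM : MB p jk M) (V : ℕ) : ∃ W : ℕ, 0 < W ∧
    IB p (fun r s => hat ((A ×ˢ A).image fun x => x.1 - x.2)
      (fun y => (((A.filter fun b => y + b ∈ A).card / A.card : ℝ) : ℂ) *
        ∑ l ∈ Ioo (-N : ℤ) N, jk l * e (l • y)) (r - s) / W)
      (Ico (-V : ℤ) (W + V)) (Ico (-V : ℤ) (W + V)) (M * 2) := by
  obtain ⟨B, hB⟩ := ww_sum A hA
  obtain ⟨W, hW⟩ := exists_nat_gt (2 * V + 2 * N + |B|)
  have hW0 : (0 : ℝ) < W := lt_of_le_of_lt (by positivity) hW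
  refine ⟨W, by exact_mod_cast hW0, ?_⟩
  set I := Ico (-V : ℤ) (W + V) with hI
  set X := Ico (-V - N : ℤ) (W + V + N) with hX
  have hB' := le_abs_self B
  have h2 : IB p (fun x s => ((ww A (x - s) / W : ℝ) : ℂ)) X I 2 := by
    refine IB.schur hp (fun x s => ww A (x - s) / W) (fun _ _ => by unfold ww; positivity)
      (fun _ _ _ _ => by rw [norm_real, Real.norm_of_nonneg (by unfold ww; positivity)])
      zero_le_two (fun x _ => ?_) (fun s _ => ?_)
    · rw [← sum_div, div_le_iff₀ hW0]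
      have := hB x (-V) (W + 2 * V)
      rw [show (-V : ℤ) + (W + 2 * V : ℕ) = W + V by push_cast; ring] at this
      rw [sum_congr rfl fun s _ => by rw [← ww_neg, neg_sub]]
      push_cast at this
      have : (0 : ℝ) ≤ N := by positivity
      linarith
    · rw [← sum_div, div_le_iff₀ hW0]
      have := hB s (-V - N) (W + 2 * V + 2 * N)
      rw [show (-V - N : ℤ) + (W + 2 * V + 2 * N : ℕ) = W + V + N by push_cast; ring] at this
      push_cast at this
      linarith
  refine ((hM I X).comp h2).congr fun r hr s _ => ?_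
  have e1 : ∀ Φ : T → ℂ, ∑ y ∈ (A ×ˢ A).image (fun x => x.1 - x.2),
      (((A.filter fun b => y + b ∈ A).card / A.card : ℝ) : ℂ) * Φ y =
      (∑ a ∈ A, ∑ b ∈ A, Φ (a - b)) / A.card := by
    intro Φ
    have : ∀ y, (((A.filter fun b => y + b ∈ A).card / A.card : ℝ) : ℂ) * Φ y =
        (∑ b ∈ A, if y + b ∈ A then Φ y else 0) / A.card := by
      intro y
      rw [← sum_filter, sum_const, nsmul_eq_mul]; push_cast; ring
    simp only [this]
    rw [← sum_div, sum_comm, sum_comm (s := A) (t := A)]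
    congr 1
    refine sum_congr rfl fun b hb => ?_
    rw [← sum_filter]
    refine sum_nbij' (fun y => y + b) (fun a => a - b) ?_ ?_ (by simp) (by simp) (by simp)
    · intro y hy; exact (mem_filter.1 hy).2
    · intro a ha
      exact mem_filter.2 ⟨mem_image.2 ⟨(a, b), mem_product.2 ⟨ha, hb⟩, rfl⟩, by simpa using ha⟩
  simp only [hat, mul_assoc]
  rw [e1]
  have e2 : ∑ x ∈ X, jk (r - x) * ((ww A (x - s) / W : ℝ) : ℂ) =
      ∑ l ∈ Ioo (-N : ℤ) N, jk l * ((ww A (r - l - s) / W : ℝ) : ℂ) := by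
    rw [← sum_subset (s₁ := (Ioo (-N : ℤ) N).image fun l => r - l),
      sum_image fun _ _ _ _ h => by simpa using h]
    · simp
    · intro x hx
      obtain ⟨l, hl, rfl⟩ := mem_image.1 hx
      simp only [hI, hX, mem_Ico, mem_Ioo] at *
      omega
    · intro x _ hx
      rw [hj _ fun h => hx (mem_image.2 ⟨_, h, by ring⟩), zero_mul]
  rw [e2]
  simp only [ofReal_div, ww_eq, sum_mul, sum_div, mul_sum]
  refine Eq.trans ?_ sum_comm
  refine sum_congr rfl fun a _ => ?_
  refine Eq.trans ?_ sum_comm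
  refine sum_congr rfl fun b _ => sum_congr rfl fun l _ => ?_
  rw [mul_assoc, ← e_add, ← add_smul, show l + -(r - s) = -(r - l - s) by ring]
  push_cast
  ring

end Pool.Agent.H49.MP
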