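import Pool.Agent.H49.MP6

set_option autoImplicit false

namespace Pool.Agent.H49.MP

open Finset Complex MeasureTheory Filter Topology
open scoped Real ComplexConjugate

variable {p C M : ℝ}

lemma MB.modul (hp : 0 < p) {K : ℤ → ℂ} (h : MB p K M) (z : T) :
    MB p (fun n => K n * e (n • z)) M := by
  intro N S
  have := (h N S).mod hp (u := fun n => e (n • z)) (v := fun k => e ((-k) • z)) zero_le_one
    zero_le_one (fun _ _ => (e_norm _).le) (fun _ _ => (e_norm _).le)
  rw [one_mul, mul_one] at this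
  refine this.congr fun n _ k _ => ?_
  simp only [sub_eq_add_neg, add_smul, e_add]; ring

open Classical in
lemma jumps (hp : 1 ≤ p) (hH : MB p (fun n => (n : ℂ)⁻¹) C) {f : ℝ → ℂ} (hf : Integrable f μ)
    (hM : MB p (cf f) M) {G J : T → ℂ} {F : Finset T} (hG : Good G 0 J) (hF : ∀ z ∉ F, J z = 0)
    {ε : ℝ} (hε : 0 < ε) (hae : ∀ᵐ x ∂μ, ‖f x - G x‖ ≤ ε) : ∃ (Γ : Finset T) (c : T → ℂ),
      (∀ z, ‖(if z ∈ Γ then c z else 0) - J z‖ ≤ 5 * ε) ∧ ∀ N0 : ℕ, ∃ N : ℕ, N0 ≤ N ∧ 0 < N ∧
        MB p (fun n => (rho N n : ℂ) * hat Γ c n) ((C + C) * ((M + M) * 2) + 2) := by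
  have hp0 : 0 < p := by linarith
  set s := ∑ y ∈ F, ‖J y‖ with hs
  have s0 : 0 ≤ s := sum_nonneg fun _ _ => norm_nonneg _
  obtain ⟨A, hA, hA2⟩ := folner F (show 0 < ε / (s + 1) by positivity)
  have hc : (0 : ℝ) < A.card := by exact_mod_cast hA.card_pos
  set Γ := (A ×ˢ A).image fun x => x.1 - x.2 with hΓ
  set u : T → ℝ := fun y => (A.filter fun b => y + b ∈ A).card / A.card with hu
  have u0 : ∀ y, 0 ≤ u y := fun y => by positivity
  have u1 : ∀ y, u y ≤ 1 := fun y => (div_le_one hc).2 (by exact_mod_cast card_filter_le _ _)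
  have u2 : ∀ y, (1 - u y) * ‖J y‖ ≤ ε := by
    intro y
    by_cases hy : y ∈ F
    · have h1 : 1 - ε / (s + 1) ≤ u y := (le_div_iff₀ hc).2 (hA2 y hy)
      have h2 : ‖J y‖ ≤ s := single_le_sum (f := fun y => ‖J y‖) (fun _ _ => norm_nonneg _) hy
      have h3 : ε / (s + 1) * (s + 1) = ε := by field_simp
      have h4 : (1 - u y) * ‖J y‖ ≤ ε / (s + 1) * (s + 1) :=
        mul_le_mul (by linarith) (by linarith) (norm_nonneg _) (by positivity)
      linarith
    · rw [hF y hy, norm_zero, mul_zero]; exact hε.le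
  have u3 : ∀ y ∉ Γ, u y = 0 := by
    intro y hy
    simp only [hu]
    rw [filter_false_of_mem fun b hb h => hy (mem_image.2 ⟨(y + b, b), mem_product.2 ⟨h, hb⟩, by simp⟩)]
    simp
  obtain ⟨δ, hδ, hδ2⟩ := Metric.eventually_nhds_iff.1 ((eventually_all_finset Γ).2 fun y _ => hG.1 y)
  obtain ⟨B, hB⟩ := hG.2.2
  obtain ⟨N0, hN0⟩ := fejer hf hB hε.le hae (half_pos hδ) hε
  set N := N0 + 1
  have hN := hN0 N (by omega) (by omega)
  set τ : ℝ := δ / 2 with hτ
  set jk : ℤ → ℂ := fun l => (tri N l : ℂ) * cf f l * e (l • (τ : T)) -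
    (tri N l : ℂ) * cf f l * e (l • ((-τ : ℝ) : T)) with hjk
  have hM' : MB p jk (M + M) := ((hM.tri hp (by omega)).modul hp0 _).sub hp
    ((hM.tri hp (by omega)).modul hp0 _)
  refine ⟨Γ, fun y => (u y : ℂ) * ∑ l ∈ Ioo (-N : ℤ) N, jk l * e (l • y), fun z => ?_,
    transfer hp hH _ _ (window hp A hA jk N (fun l hl => by simp [hjk, tri_off hl]) hM')⟩
  split_ifs with hz
  · have e1 : ∑ l ∈ Ioo (-N : ℤ) N, jk l * e (l • z) = fej N f (z + τ) - fej N f (z + (-τ : ℝ)) := by
      simp only [fej, ← sum_sub_distrib, hjk, smul_add, e_add]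
      exact sum_congr rfl fun _ _ => by ring
    have g1 : ∀ t : ℝ, |t| < τ → G (z + τ + t) = G z := by
      intro t ht
      rw [abs_lt] at ht
      have := hδ2 (y := τ + t) (by
        rw [Real.dist_eq, sub_zero, abs_lt]; constructor <;> linarith) z hz
      rw [if_neg (by linarith), AddCircle.coe_add, ← add_assoc] at this
      simpa using this
    have g2 : ∀ t : ℝ, |t| < τ → G (z + (-τ : ℝ) + t) = G z - J z := by
      intro t ht
      rw [abs_lt] at ht
      have := hδ2 (y := -τ + t) (by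
        rw [Real.dist_eq, sub_zero, abs_lt]; constructor <;> linarith) z hz
      rw [if_pos (by linarith), AddCircle.coe_add, ← add_assoc] at this
      simpa using this
    have τ0 : |(0:ℝ)| < τ := by rw [abs_zero]; exact half_pos hδ
    have g3 := g1 0 τ0
    have g4 := g2 0 τ0
    rw [AddCircle.coe_zero, add_zero] at g3 g4
    have h1 := hN (z + τ) 0 le_rfl fun w hw => by
      obtain ⟨t, ht, e⟩ := exists_rep hw
      rw [← add_sub_cancel (z + τ) w, e, g1 t ht, g3]; simp
    have h2 := hN (z + (-τ : ℝ)) 0 le_rfl fun w hw => by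
      obtain ⟨t, ht, e⟩ := exists_rep hw
      rw [← add_sub_cancel (z + (-τ : ℝ)) w, e, g2 t ht, g4]; simp
    rw [g3] at h1
    rw [g4] at h2
    simp only [e1]
    set X := fej N f (z + τ)
    set Y := fej N f (z + (-τ : ℝ))
    have e2 : (u z : ℂ) * (X - Y) - J z =
        u z * ((X - G z) - (Y - (G z - J z))) - ((1 - u z : ℝ) : ℂ) * J z := by push_cast; ring
    rw [e2]
    refine (norm_sub_le _ _).trans ?_
    rw [norm_mul, norm_mul, norm_real, norm_real, Real.norm_of_nonneg (u0 z),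
      Real.norm_of_nonneg (by linarith [u1 z])]
    have h3 := mul_le_of_le_one_left (norm_nonneg ((X - G z) - (Y - (G z - J z)))) (u1 z)
    linarith [norm_sub_le (X - G z) (Y - (G z - J z)), u2 z]
  · have := u2 z
    rw [u3 z hz] at this
    rw [zero_sub, norm_neg]; linarith

lemma e_per {m : ℕ} (hm : 0 < m) {j : ℤ} (h : (m : ℤ) ∣ j) : e (j • ((1 / m : ℝ) : T)) = 1 := by
  obtain ⟨k, rfl⟩ := h
  have : (m : ℝ) ≠ 0 := by positivity
  rw [← AddCircle.coe_zsmul, show ((m : ℤ) * k) • (1 / m : ℝ) = k by simp; field_simp, coe_int, e_zero]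

lemma roots {m : ℕ} (hm : 0 < m) (j : ℤ) :
    ∑ i ∈ range m, e (j • ((i / m : ℝ) : T)) = if (m : ℤ) ∣ j then (m : ℂ) else 0 := by
  have hm' : (m : ℝ) ≠ 0 := by positivity
  have e1 : ∀ i : ℕ, e (j • ((i / m : ℝ) : T)) = e (j • ((1 / m : ℝ) : T)) ^ i := by
    intro i
    rw [← e_nsmul, smul_comm, ← AddCircle.coe_nsmul]; congr 3; simp; ring
  simp only [e1]
  split_ifs with h
  · simp [e_per hm h, -one_div]
  · rw [geom_sum_eq, ← e1, div_self hm', AddCircle.coe_period, smul_zero, e_zero, sub_self, zero_div]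
    intro h1
    have := e_eq_one h1
    rw [← AddCircle.coe_zsmul, AddCircle.coe_eq_zero_iff] at this
    obtain ⟨k, hk⟩ := this
    refine h ⟨k, ?_⟩
    simp only [zsmul_eq_mul, mul_one] at hk
    field_simp at hk
    rw [mul_comm]
    exact_mod_cast hk.symm

lemma corr (σ : ℂ) {m : ℕ} (hm : 0 < m) : ∃ (H J : T → ℂ) (F : Finset T), Good H (-σ) J ∧
    (∀ z ∉ F, J z = 0) ∧ (∀ z, ‖J z‖ ≤ ‖σ‖ / m) ∧
    ∀ n ≠ 0, cf (fun x => H x) n = -σ * (if (m : ℤ) ∣ n then (2 * π * I * n)⁻¹ else 0) := by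
  classical
  have hm' : (0 : ℝ) < m := by positivity
  have hm2 : (m : ℂ) ≠ 0 := by exact_mod_cast hm.ne'
  refine ⟨_, _, (range m).image fun i : ℕ => ((i / m : ℝ) : T),
    ((Good.sum (range m) fun i _ => good_saw ((i / m : ℝ) : T)).smul (-σ / m)).congr
      (by simp; field_simp) (fun _ => rfl), fun z hz => ?_, fun z => ?_, fun n hn => ?_⟩
  · rw [sum_eq_zero fun i hi => if_neg fun e => hz (mem_image.2 ⟨i, hi, e.symm⟩), mul_zero]
  · rw [norm_mul, norm_div, norm_neg, Complex.norm_natCast, sum_boole, Complex.norm_natCast]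
    refine mul_le_of_le_one_right (by positivity) ?_
    have key : ∀ i ∈ range m, fr ((i / m : ℝ) : T) = i / m := fun i hi => by
      rw [fr_coe, Int.fract_eq_self.2 ⟨by positivity, (div_lt_one hm').2
        (by exact_mod_cast mem_range.1 hi)⟩]
    exact_mod_cast card_le_one.2 fun a ha b hb => by
      have ha := mem_filter.1 ha
      have hb := mem_filter.1 hb
      have := key a ha.1
      rw [← ha.2, hb.2, key b hb.1, div_left_inj' hm'.ne'] at this
      exact_mod_cast this.symm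
  · rw [cf_smul, cf_sum _ fun i _ => (good_saw _).int]
    simp only [cf_saw, if_neg hn]
    rw [← sum_mul, roots hm]
    simp only [dvd_neg]
    split_ifs
    · field_simp
    · simp

lemma stair_err (hp : 1 ≤ p) (hH : MB p (fun n => (n : ℂ)⁻¹) C) {m : ℕ} (hm : 0 < m) (k : ℤ)
    (hk : 2 * π * |(k : ℝ)| / m ≤ 1) :
    MB p (fun n => (if (m : ℤ) ∣ n - k then (m : ℂ) else 0) * cf (fun x => ind 0 (1 / m) x) n -
      if n = k then 1 else 0) (2 * π * |(k : ℝ)| / m * (1 + 2 * (C + zz))) := by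
  have hp0 : 0 < p := by linarith
  have hm' : (0 : ℝ) < m := by positivity
  have hm2 : (m : ℂ) ≠ 0 := by exact_mod_cast hm.ne'
  set θ : ℝ := k / m with hθ
  set w : ℂ := -(2 * π * I * θ) with hw
  have hwn : ‖w‖ = 2 * π * |(k : ℝ)| / m := by
    simp [hw, hθ, abs_of_pos Real.pi_pos]; ring
  have hθ2 : |θ| ≤ 1 / 2 := by
    rw [hθ, abs_div, abs_of_pos hm']
    have : 2 * π * |(k : ℝ)| / m = 2 * π * (|(k : ℝ)| / m) := by ring
    have h0 : 0 ≤ |(k : ℝ)| / m := by positivity
    nlinarith [Real.pi_gt_three]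
  rw [← hwn] at hk ⊢
  have h1 : MB p (fun j => if j = 0 then 0 else ((j : ℂ) + θ)⁻¹) (C + zz) := by
    refine (hH.add hp (MB.of_sum hp (K := fun j => if j = 0 then 0 else ((j : ℂ) + θ)⁻¹ - (j : ℂ)⁻¹)
      (fun j => 1 / (j : ℝ) ^ 2) (fun j => ?_) sum_le_zz)).congr fun j => by split_ifs with h <;> simp [h]
    split_ifs with h
    · simp [h]
    · have a1 : (1 : ℝ) ≤ |(j : ℝ)| := by exact_mod_cast Int.one_le_abs h
      have a2 : |(j : ℝ)| / 2 ≤ |(j : ℝ) + θ| := by
        have := abs_sub_abs_le_abs_sub (j : ℝ) (-θ)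
        rw [abs_neg, sub_neg_eq_add] at this
        linarith
      have a3 : (j : ℝ) ≠ 0 := by exact_mod_cast h
      have a4 : (j : ℝ) + θ ≠ 0 := abs_pos.1 (by linarith)
      have : ((j : ℂ) + θ)⁻¹ - (j : ℂ)⁻¹ = ((-θ / ((j + θ) * j) : ℝ) : ℂ) := by
        have a5 : (j : ℂ) ≠ 0 := by exact_mod_cast h
        have a6 : (j : ℂ) + θ ≠ 0 := by exact_mod_cast a4
        push_cast; field_simp; ring
      rw [this, norm_real, Real.norm_eq_abs, abs_div, abs_neg, abs_mul, ← sq_abs,
        div_le_div_iff₀ (by positivity) (by positivity)]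
      nlinarith [mul_le_mul_of_nonneg_right a2 (abs_nonneg (j : ℝ)),
        mul_le_mul_of_nonneg_right hθ2 (sq_nonneg |(j : ℝ)|)]
  have h2 := ((MB.delta hp 0 (if k = 0 then 0 else (exp w - 1) / w - 1)).add hp
    (h1.smul hp0 ((1 - exp w) * (2 * π * I)⁻¹))).dil hp (show (0 : ℤ) < m by exact_mod_cast hm) k
  have hπ : (π : ℂ) ≠ 0 := by exact_mod_cast Real.pi_ne_zero
  refine (h2.congr fun n => ?_).mono ?_
  · by_cases hd : (m : ℤ) ∣ n - k
    · simp only [if_pos hd, cf_ind]
      have e1 : e ((-n) • ((1 / m : ℝ) : T)) = exp w := by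
        rw [show -n = -k + -(n - k) by ring, add_smul, e_add, e_per hm (dvd_neg.2 hd), mul_one,
          e_smul, hw, hθ]
        congr 1; push_cast; ring
      obtain ⟨j, hj⟩ := hd
      rw [hj, Int.mul_ediv_cancel_left _ (by omega), e1, AddCircle.coe_zero, smul_zero, e_zero]
      have hn : n = k + m * j := by linarith
      by_cases hj0 : j = 0
      · have : n = k := by simp [hn, hj0]
        subst this
        by_cases h0 : n = 0
        · simp [h0, hj0, hm2]
        · have : (n : ℂ) ≠ 0 := by exact_mod_cast h0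
          simp only [hj0, h0, if_true, if_false, hw, hθ]
          push_cast; field_simp; ring
      · have a1 : (1 : ℝ) ≤ |(j : ℝ)| := by exact_mod_cast Int.one_le_abs hj0
        have e2 : (n : ℝ) = m * (j + θ) := by rw [hn, hθ]; push_cast; field_simp; ring
        have a4 : (j : ℝ) + θ ≠ 0 := by
          intro h
          rw [show (j : ℝ) = -θ by linarith, abs_neg] at a1
          linarith
        have n0 : n ≠ 0 := by
          have : (n : ℝ) ≠ 0 := by rw [e2]; positivity
          exact_mod_cast this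
        have nk : n ≠ k := by
          intro h; rw [h] at hn
          exact hj0 ((mul_eq_zero.1 (by linarith : (m : ℤ) * j = 0)).resolve_left (by omega))
        have a6 : (j : ℂ) + θ ≠ 0 := by exact_mod_cast a4
        have e3 : (n : ℂ) = m * (j + θ) := by exact_mod_cast e2
        simp only [hj0, n0, nk, if_false, e3]
        field_simp
        ring
    · have : n ≠ k := fun h => hd (by simp [h])
      simp [hd, this]
  · have hC := hH.nonneg
    have hz := zz_nonneg
    have b1 : ‖if k = 0 then 0 else (exp w - 1) / w - 1‖ ≤ ‖w‖ := by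
      split_ifs with h
      · simp
      · have w0 : w ≠ 0 := by
          rw [← norm_pos_iff, hwn]
          have : (k : ℝ) ≠ 0 := by exact_mod_cast h
          have := Real.pi_pos
          positivity
        rw [show (exp w - 1) / w - 1 = (exp w - 1 - w) / w by field_simp, norm_div,
          div_le_iff₀ (norm_pos_iff.2 w0), ← sq]
        exact norm_exp_sub_one_sub_id_le hk
    have b2 : ‖(1 - exp w) * (2 * π * I)⁻¹‖ ≤ 2 * ‖w‖ := by
      rw [norm_mul, norm_sub_rev]
      refine (mul_le_of_le_one_right (norm_nonneg _) ?_).trans (norm_exp_sub_one_le hk)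
      rw [norm_inv]
      refine inv_le_one_of_one_le₀ ?_
      simp [abs_of_pos Real.pi_pos]
      linarith [Real.pi_gt_three]
    have := mul_le_mul_of_nonneg_right b2 (add_nonneg hC hz)
    linarith

end Pool.Agent.H49.MP
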