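import Pool.Agent.H49.MP7

set_option autoImplicit false

namespace Pool.Agent.H49.MP

open Finset Complex MeasureTheory Filter Topology
open scoped Real ComplexConjugate ENNReal

variable {p C M : ℝ}

lemma stair (hp : 1 ≤ p) (hH : MB p (fun n => (n : ℂ)⁻¹) C) (L : Finset ℤ) (q : ℤ → ℂ) {η : ℝ}
    (hη : 0 < η) : ∃ (G J : T → ℂ) (F : Finset T), Good G 0 J ∧ (∀ z ∉ F, J z = 0) ∧
      (∀ x : ℝ, 0 ≤ x → x < 1 → ‖G x - ∑ k ∈ L, q k * e (k • (x : T))‖ ≤ η) ∧
      MB p (fun n => cf (fun x => G x) n - if n ∈ L then q n else 0) 1 := by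
  classical
  have hp0 : 0 < p := by linarith
  set Q : T → ℂ := fun z => ∑ k ∈ L, q k * e (k • z) with hQ
  have cQ : Continuous Q := continuous_finsetSum _ fun k _ =>
    continuous_const.mul (e_cont.comp (continuous_zsmul k))
  obtain ⟨δ, hδ, hδ2⟩ := Metric.uniformContinuous_iff.1
    (CompactSpace.uniformContinuous_of_continuous cQ) η hη
  have t0 : ∀ c : ℝ, Tendsto (fun m : ℕ => c / m) atTop (𝓝 0) := tendsto_const_div_atTop_nhds_zero_nat
  have t1 : Tendsto (fun m : ℕ => ∑ k ∈ L, ‖q k‖ * (2 * π * |(k : ℝ)| / m * (1 + 2 * (C + zz))))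
      atTop (𝓝 0) := by
    have := tendsto_finsetSum L fun k _ =>
      ((t0 (2 * π * |(k : ℝ)|)).mul_const (1 + 2 * (C + zz))).const_mul ‖q k‖
    simpa using this
  obtain ⟨m, hm, h1, h2, h3⟩ := ((eventually_gt_atTop 0).and (((t0 1).eventually (gt_mem_nhds hδ)).and
    ((t1.eventually (ge_mem_nhds one_pos)).and ((eventually_all_finset L).2 fun k _ =>
      (t0 (2 * π * |(k : ℝ)|)).eventually (ge_mem_nhds one_pos))))).exists
  have hm' : (0 : ℝ) < m := by positivity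
  have gd : ∀ i ∈ range m, Good (fun z => Q ((i / m : ℝ) : T) * ind (i / m) (i / m + 1 / m) z) _ _ :=
    fun i _ => (good_ind (i / m) (i / m + 1 / m)).smul _
  refine ⟨_, _, ((range m).image fun i : ℕ => ((i / m : ℝ) : T)) ∪
    (range m).image fun i : ℕ => ((i / m + 1 / m : ℝ) : T),
    (Good.sum (range m) gd).congr (by simp) (fun _ => rfl), fun z hz => ?_, fun x x0 x1 => ?_, ?_⟩
  · rw [mem_union, not_or] at hz
    refine sum_eq_zero fun i hi => ?_
    rw [if_neg fun e => hz.1 (mem_image.2 ⟨_, hi, e.symm⟩),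
      if_neg fun e => hz.2 (mem_image.2 ⟨_, hi, e.symm⟩)]
    simp
  · set i0 := ⌊m * x⌋₊ with hi0
    have a1 : (i0 : ℝ) ≤ m * x := Nat.floor_le (by positivity)
    have a2 : m * x < i0 + 1 := Nat.lt_floor_add_one _
    have a3 : i0 ∈ range m := by
      rw [mem_range, hi0, Nat.floor_lt (by positivity)]; nlinarith
    have key : ∀ i ∈ range m, ind (i / m) (i / m + 1 / m) x = if i = i0 then 1 else 0 := by
      intro i hi
      have : ((i + 1 : ℕ) : ℝ) ≤ m := by exact_mod_cast mem_range.1 hi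
      rw [ind_eq (by positivity) (le_add_of_nonneg_right (by positivity))
        (by rw [← add_div, div_le_one hm']; exact_mod_cast this) x0 x1]
      congr 1
      rw [← add_div, div_le_iff₀ hm', lt_div_iff₀ hm', mul_comm x, eq_comm (a := i), hi0,
        Nat.floor_eq_iff (by positivity)]
    rw [sum_congr rfl fun i hi => by rw [key i hi]]
    simp only [mul_ite, mul_one, mul_zero]
    rw [sum_ite_eq', if_pos a3, ← dist_eq_norm]
    refine (hδ2 ?_).le
    rw [dist_eq_norm, ← AddCircle.coe_sub]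
    refine lt_of_le_of_lt (QuotientAddGroup.norm_mk_le_norm) (lt_of_le_of_lt ?_ h1)
    rw [Real.norm_eq_abs, show i0 / m - x = (i0 - m * x) / m by field_simp, abs_div, abs_of_pos hm']
    gcongr
    rw [abs_le]; constructor <;> linarith
  · refine ((MB.sum hp L fun k hk => (stair_err hp hH hm k (h3 k hk)).smul hp0 (q k)).congr
      fun n => ?_).mono h2
    rw [cf_sum _ fun i hi => (gd i hi).int]
    have e1 : ∀ i : ℕ, cf (fun x => ind (i / m) (i / m + 1 / m) x) n =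
        e ((-n) • ((i / m : ℝ) : T)) * cf (fun x => ind 0 (1 / m) x) n := by
      intro i
      simp only [cf_ind]
      split_ifs with h
      · simp [h, e_zero]
      · rw [AddCircle.coe_add, smul_add, e_add, AddCircle.coe_zero, smul_zero, e_zero]; ring
    simp only [cf_smul, e1]
    simp only [hQ, sum_mul, mul_sub, sum_sub_distrib, mul_ite, mul_one, mul_zero]
    rw [sum_ite_eq, sum_comm]
    congr 1
    refine sum_congr rfl fun k _ => ?_
    have := roots hm (k + -n)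
    simp only [show ((m : ℤ) ∣ k + -n) = ((m : ℤ) ∣ n - k) by
      rw [← dvd_neg]; congr 1; ring] at this
    rw [← this, sum_mul, mul_sum]
    refine sum_congr rfl fun i _ => ?_
    rw [add_smul, e_add]; ring

theorem approx (hp : 1 < p) {f : ℝ → ℂ} (hf : Integrable f μ) (hM : MB p (cf f) M) :
    ∃ C', ∀ ε > 0, (∃ s, Stp s ∧ ∀ᵐ x ∂μ, ‖f x - s x‖ ≤ ε) →
      ∃ g, Stp g ∧ MB p (cf g) C' ∧ ∀ᵐ x ∂μ, ‖g x - f x‖ ≤ 16 * ε := by
  classical
  obtain ⟨C, hH⟩ := hilbert hp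
  have hp1 := hp.le
  have hp0 : 0 < p := by linarith
  have hC := hH.nonneg
  set a : ℂ := (2 * π * I)⁻¹ with ha
  refine ⟨‖a‖ * ((C + C) * ((M + M) * 2) + 2) + (‖a‖ * C + ‖a‖ * C) + M + 1, ?_⟩
  rintro ε hε ⟨s, hs, hs2⟩
  obtain ⟨G, J, F, hG, hF, hs3⟩ := hs.rep
  have hae : ∀ᵐ x ∂μ, ‖f x - G x‖ ≤ ε := by
    filter_upwards [hs2, hs3] with x h1 h2
    rwa [← h2]
  obtain ⟨Γ, c, hc, hN⟩ := jumps hp1 hH hf hM hG hF hε hae
  set σ := ∑ y ∈ Γ, c y with hσ
  obtain ⟨m, hm⟩ := exists_nat_gt (‖σ‖ / ε + ‖σ‖)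
  have σ0 : 0 ≤ ‖σ‖ / ε := by positivity
  have hm' : (0 : ℝ) < m := lt_of_le_of_lt (by positivity) hm
  have hm0 : 0 < m := by exact_mod_cast hm'
  obtain ⟨H2, J2, F2, g2, f2, j2, c2⟩ := corr σ hm0
  have g1 : Good (fun z => ∑ y ∈ Γ, c y * saw y z) σ (fun z => if z ∈ Γ then c z else 0) :=
    (Good.sum Γ fun y _ => (good_saw y).smul (c y)).congr (by simp [hσ]) (fun z => by simp)
  have gH := (g1.add g2).congr (σ' := 0) (by simp) fun _ => rfl
  set H : T → ℂ := fun z => ∑ y ∈ Γ, c y * saw y z + H2 z with hHd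
  have gD := (hG.sub gH).congr (σ' := 0) (by simp) fun _ => rfl
  obtain ⟨δ, hδ, hδ2⟩ := gD.osc (η := 6 * ε) fun z => by
    have h1 := hc z
    have h2 : ‖σ‖ / m ≤ ε := by
      rw [div_le_iff₀ hm']
      have : ‖σ‖ / ε ≤ m := by linarith [norm_nonneg σ]
      rw [div_le_iff₀ hε] at this
      linarith
    rw [← sub_sub]
    rw [norm_sub_rev] at h1
    linarith [norm_sub_le (J z - if z ∈ Γ then c z else 0) (J2 z), j2 z]
  obtain ⟨B, hB⟩ := gD.2.2
  have iφ : Integrable (fun x : ℝ => f x - H x) μ := hf.sub gH.int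
  have hφ : ∀ᵐ x : ℝ ∂μ, ‖(f x - H x) - (G x - H x)‖ ≤ ε := by simpa using hae
  obtain ⟨N0, hN0⟩ := fejer iφ hB hε.le hφ hδ hε
  obtain ⟨N, hN1, Np, hρ⟩ := hN N0
  obtain ⟨G3, J3, F3, g3, f3, h3, c3⟩ := stair hp1 hH (Ioo (-N : ℤ) N)
    (fun k => (tri N k : ℂ) * cf (fun x => f x - H x) k) hε
  refine ⟨fun x => H x + G3 x, ((gH.add g3).congr (σ' := 0) (by simp) fun _ => rfl).step
    (Γ ∪ F2 ∪ F3) fun z hz => ?_, ?_, ?_⟩
  · simp only [mem_union, not_or] at hz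
    simp [hz.1.1, f2 z hz.1.2, f3 z hz.2]
  · have k1 := ((hH.dil hp1 (show (0 : ℤ) < m by exact_mod_cast hm0) 0).smul hp0 (-σ / m * a)).mono
      (C' := ‖a‖ * C) (by
        rw [norm_mul, norm_div, norm_neg, Complex.norm_natCast]
        have : ‖σ‖ / m ≤ 1 := (div_le_one hm').2 (by linarith)
        exact mul_le_mul_of_nonneg_right (mul_le_of_le_one_left (norm_nonneg _) this) hC)
    refine ((((hρ.smul hp0 a).add hp1 (k1.sub hp1 (k1.tri hp1 Np))).add hp1 (hM.tri hp1 Np)).add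
      hp1 c3).congr fun n => ?_
    rw [cf_add gH.int g3.int, cf_sub hf gH.int]
    have e1 : (if n ∈ Ioo (-N : ℤ) N then (tri N n : ℂ) * (cf f n - cf (fun x => H x) n) else 0) =
        (tri N n : ℂ) * (cf f n - cf (fun x => H x) n) := by
      split_ifs with h
      · rfl
      · simp [tri_off h]
    rw [e1]
    by_cases hn : n = 0
    · simp [hn, tri_zero Np, rho_zero]; ring
    · have e2 : cf (fun x => H x) n = hat Γ c n * (2 * π * I * n)⁻¹ +
          -σ * (if (m : ℤ) ∣ n then (2 * π * I * n)⁻¹ else 0) := by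
        simp only [hHd]
        rw [cf_add g1.int g2.int, c2 n hn, cf_sum _ fun y _ => ((good_saw y).smul (c y)).int]
        simp only [cf_smul, cf_saw, if_neg hn, hat, sum_mul, mul_assoc]
      have e3 : (if (m : ℤ) ∣ n then (2 * π * I * n : ℂ)⁻¹ else 0) =
          a / m * if (m : ℤ) ∣ n - 0 then (((n - 0) / m : ℤ) : ℂ)⁻¹ else 0 := by
        rw [sub_zero]
        split_ifs with h
        · obtain ⟨j, rfl⟩ := h
          rw [Int.mul_ediv_cancel_left _ (by omega), ha]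
          push_cast
          simp only [mul_inv]; ring
        · simp
      rw [e2, e3, rho, ha]
      push_cast
      simp only [mul_inv]
      ring
  · filter_upwards [hφ, ae_restrict_mem measurableSet_Icc,
      ae_restrict_of_ae (compl_mem_ae_iff.2 (measure_singleton (1:ℝ)))] with x h1 h2 h4
    have h5 := h3 x h2.1 (lt_of_le_of_ne h2.2 h4)
    have h6 := hN0 N hN1 Np x _ (by positivity) (hδ2 x)
    unfold fej at h6
    set Y := ∑ n ∈ Ioo (-N : ℤ) N, (tri N n : ℂ) * cf (fun x => f x - H x) n * e (n • (x : T))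
    have : H x + G3 x - f x = (G3 x - Y) + (Y - (G x - H x)) - (f x - H x - (G x - H x)) := by ring
    rw [this]
    linarith [norm_sub_le ((G3 x - Y) + (Y - (G x - H x))) (f x - H x - (G x - H x)),
      norm_add_le (G3 x - Y) (Y - (G x - H x))]

lemma Mb_iff (hp : 0 < p) (K : ℤ → ℂ) {C : ℝ} (hC : 0 ≤ C) :
    (∀ a : ℤ →₀ ℂ, ∑' n : ℤ, ENNReal.ofReal ‖∑ k ∈ a.support, K (n - k) * a k‖ ^ p
      ≤ ENNReal.ofReal C ^ p * ∑ k ∈ a.support, ENNReal.ofReal ‖a k‖ ^ p) ↔ MB p K C := by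
  classical
  have key : ∀ (a : ℤ → ℂ) (N S : Finset ℤ),
      ∑ n ∈ N, ENNReal.ofReal ‖∑ k ∈ S, K (n - k) * a k‖ ^ p
        ≤ ENNReal.ofReal C ^ p * ∑ k ∈ S, ENNReal.ofReal ‖a k‖ ^ p ↔
      ∑ n ∈ N, ‖∑ k ∈ S, K (n - k) * a k‖ ^ p ≤ C ^ p * ∑ k ∈ S, ‖a k‖ ^ p := by
    intro a N S
    simp only [ENNReal.ofReal_rpow_of_nonneg (norm_nonneg _) hp.le,
      ENNReal.ofReal_rpow_of_nonneg hC hp.le]
    rw [← ENNReal.ofReal_sum_of_nonneg fun _ _ => by positivity,
      ← ENNReal.ofReal_sum_of_nonneg fun _ _ => by positivity, ← ENNReal.ofReal_mul (by positivity),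
      ENNReal.ofReal_le_ofReal_iff (mul_nonneg (by positivity) (sp_nonneg _ _))]
  constructor
  · intro h N S
    refine (IB_iff hp).2 ⟨hC, fun a => ?_⟩
    set a' : ℤ →₀ ℂ := Finsupp.onFinset S (fun k => if k ∈ S then a k else 0)
      (fun k hk => by by_contra h; simp [h] at hk) with ha'
    have hs : a'.support ⊆ S := Finsupp.support_onFinset_subset
    have h1 := (key a' N a'.support).1 ((ENNReal.sum_le_tsum N).trans (h a'))
    have e1 : ∀ Φ : ℤ → ℂ → ℂ, (∀ k, Φ k 0 = 0) →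
        ∑ k ∈ a'.support, Φ k (a' k) = ∑ k ∈ S, Φ k (a k) := by
      intro Φ hΦ
      rw [sum_subset hs fun k _ hk => by rw [Finsupp.notMem_support_iff.1 hk, hΦ]]
      exact sum_congr rfl fun k hk => by simp [ha', hk]
    have e2 : ∑ k ∈ a'.support, ‖a' k‖ ^ p = ∑ k ∈ S, ‖a k‖ ^ p := by
      rw [sum_subset hs fun k _ hk => by simp [Finsupp.notMem_support_iff.1 hk, hp.ne']]
      exact sum_congr rfl fun k hk => by simp [ha', hk]
    rw [e2] at h1
    simp only [fun n => e1 (fun k x => K (n - k) * x) (by simp)] at h1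
    exact h1
  · intro h a
    refine ENNReal.summable.tsum_le_of_sum_le fun N => (key a N _).2 ?_
    exact ((IB_iff hp).1 (h N a.support)).2 a

lemma ae_of_lt {g : ℝ → ℂ} {ε : ℝ} (hε : 0 < ε) (h : eLpNorm g ⊤ μ < ENNReal.ofReal ε) :
    ∀ᵐ x ∂μ, ‖g x‖ ≤ ε := by
  rw [eLpNorm_exponent_top] at h
  filter_upwards [ae_le_eLpNormEssSup (f := g) (μ := μ)] with x hx
  have := hx.trans h.le
  rwa [← ofReal_norm, ENNReal.ofReal_le_ofReal_iff hε.le] at this

theorem main (hp : 1 < p) {f : ℝ → ℂ}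
    (h : ∀ ε : ℝ≥0∞, 0 < ε → ∃ g : ℝ → ℂ, Stp g ∧ eLpNorm (fun x => f x - g x) ⊤ μ < ε)
    (hM : MB p (cf f) M) : ∃ g : ℕ → ℝ → ℂ, (∀ j, Stp (g j)) ∧ (∃ C : ℝ, ∀ j, MB p (cf (g j)) C) ∧
      Tendsto (fun j => eLpNorm (fun x => g j x - f x) ⊤ μ) atTop (𝓝 0) := by
  have h1 : ∀ ε > 0, ∃ s, Stp s ∧ ∀ᵐ x ∂μ, ‖f x - s x‖ ≤ ε := fun ε hε => by
    obtain ⟨s, hs, hs2⟩ := h _ (ENNReal.ofReal_pos.2 hε)
    exact ⟨s, hs, ae_of_lt hε hs2⟩
  have h2 : ∀ ε > 0, ∃ s, Integrable s μ ∧ ∀ᵐ x ∂μ, ‖f x - s x‖ ≤ ε := fun ε hε => by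
    obtain ⟨s, hs, hs2⟩ := h1 ε hε
    obtain ⟨G, J, F, hG, -, hs3⟩ := hs.rep
    exact ⟨s, hG.int.congr (Filter.EventuallyEq.symm hs3), hs2⟩
  have t0 := tendsto_one_div_add_atTop_nhds_zero_nat (𝕜 := ℝ)
  have hf : Integrable f μ := by
    choose s hs hs2 using fun j : ℕ => h2 (1 / ((j : ℝ) + 1)) Nat.one_div_pos_of_nat
    have hm : AEStronglyMeasurable f μ := by
      refine aestronglyMeasurable_of_tendsto_ae atTop (fun j => (hs j).1) ?_
      filter_upwards [ae_all_iff.2 hs2] with x hx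
      rw [tendsto_iff_norm_sub_tendsto_zero]
      exact squeeze_zero (fun _ => norm_nonneg _) (fun j => by rw [norm_sub_rev]; exact hx j) t0
    have := (Integrable.of_bound (hm.sub (hs 0).1) _ (hs2 0)).add (hs 0)
    simpa using this
  obtain ⟨C, hC⟩ := approx hp hf hM
  choose g g1 g2 g3 using fun j : ℕ => hC (1 / ((j : ℝ) + 1)) Nat.one_div_pos_of_nat
    (h1 _ Nat.one_div_pos_of_nat)
  refine ⟨g, g1, ⟨C, g2⟩, ?_⟩
  have t1 : Tendsto (fun j : ℕ => ENNReal.ofReal (16 * (1 / ((j : ℝ) + 1)))) atTop (𝓝 0) := by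
    simpa using ENNReal.tendsto_ofReal (t0.const_mul 16)
  refine tendsto_of_tendsto_of_tendsto_of_le_of_le tendsto_const_nhds t1 (fun _ => zero_le) fun j => ?_
  simp only [eLpNorm_exponent_top]
  exact eLpNormEssSup_le_of_ae_bound (g3 j)

end Pool.Agent.H49.MP
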