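import Mathlib

set_option autoImplicit false

namespace Pool.Agent.H49.Mo

open Finset

lemma conv {ι : Type} [Fintype ι] [DecidableEq ι] (p q : ℕ) [Fact p.Prime] (hq : 2 ≤ q)
    (hp : q < p) : ∃ φ : (ι → ZMod p) → ℕ,
    (∀ s, φ s < q ^ Fintype.card ι * (Fintype.card ι * p ^ 2 + 1)) ∧
    ∀ s δ : ι → ZMod p, δ ≠ 0 → φ s = φ (s + (q : ℤ) • δ) → φ (s + δ) < φ s := by
  obtain ⟨M, hM⟩ : ∃ M, q ^ Fintype.card ι = M := ⟨_, rfl⟩
  have e : (ι → Fin q) ≃ Fin M := Fintype.equivFinOfCardEq (by simp [hM])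
  rw [hM]
  let res : (ι → ZMod p) → ι → Fin q := fun s l => ⟨(s l).val % q, Nat.mod_lt _ (by omega)⟩
  let nr : (ι → ZMod p) → ℕ := fun s => ∑ l, (s l).val ^ 2
  have pp : p.Prime := Fact.out
  refine ⟨fun s => M * nr s + e (res s), fun s => ?_, fun s δ hδ h => ?_⟩
  · have h1 : nr s ≤ Fintype.card ι * p ^ 2 := by
      calc nr s ≤ ∑ _l : ι, p ^ 2 :=
            sum_le_sum fun l _ => Nat.pow_le_pow_left (ZMod.val_lt _).le 2
        _ = _ := by simp
    have h2 := (e (res s)).2
    have h3 := Nat.mul_le_mul_left M h1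
    dsimp only
    rw [mul_add]; omega
  · have hs : ∀ l, (s + (q : ℤ) • δ) l = s l + q * δ l := fun l => by simp
    generalize s + (q : ℤ) • δ = t at h hs
    have a1 := (e (res s)).2
    have a2 := (e (res t)).2
    have a3 := (e (res (s + δ))).2
    dsimp only at h ⊢
    have M0 : 0 < M := by omega
    have h1 : nr s = nr t := by
      have := congrArg (· / M) h
      simpa only [Nat.mul_add_div M0, Nat.div_eq_of_lt a1, Nat.div_eq_of_lt a2, add_zero] using this
    have h2 : res s = res t := e.injective (Fin.ext (by rw [h1] at h; omega))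
    have q0 : (q : ZMod p) ≠ 0 := fun hz =>
      absurd (Nat.le_of_dvd (by omega) ((ZMod.natCast_eq_zero_iff _ _).1 hz)) (by omega)
    have key : ∀ l, ∃ d : ℤ, ((t l).val : ℤ) = (s l).val + q * d ∧
        (((s + δ) l).val : ℤ) = (s l).val + d ∧ (d : ZMod p) = δ l := by
      intro l
      have b1 : (s l).val % q = (t l).val % q := congrArg Fin.val (congrFun h2 l)
      obtain ⟨d, hd⟩ := (Nat.modEq_iff_dvd.1 b1)
      have b2 : (d : ZMod p) = δ l := by
        have : ((t l).val : ZMod p) - (s l).val = q * d := by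
          exact_mod_cast congrArg (Int.cast : ℤ → ZMod p) hd
        rw [ZMod.natCast_zmod_val, ZMod.natCast_zmod_val, hs, add_sub_cancel_left] at this
        exact (mul_left_cancel₀ q0 this).symm
      have b3 := ZMod.val_lt (s l)
      have b4 := ZMod.val_lt (t l)
      have q2 : (2 : ℤ) ≤ q := by omega
      have b5 : 0 ≤ ((s l).val : ℤ) + d ∧ ((s l).val : ℤ) + d < p := by
        rcases le_total 0 d with c | c
        · have : d ≤ q * d := by nlinarith
          omega
        · have : q * d ≤ d := by nlinarith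
          omega
      refine ⟨d, by omega, ?_, b2⟩
      have b6 : (s + δ) l = (((s l).val + d : ℤ) : ZMod p) := by simp [b2]
      rw [b6, ZMod.val_intCast, Int.emod_eq_of_lt b5.1 b5.2]
    choose d k1 k2 k3 using key
    have c1 : (nr t : ℤ) =
        nr s + q * (∑ l, 2 * (s l).val * d l + q * ∑ l, d l ^ 2) := by
      simp only [nr, Nat.cast_sum, Nat.cast_pow, k1, mul_sum, mul_add, ← sum_add_distrib]
      exact sum_congr rfl fun l _ => by ring
    have c2 : (nr (s + δ) : ℤ) = nr s + (∑ l, 2 * (s l).val * d l + ∑ l, d l ^ 2) := by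
      simp only [nr, Nat.cast_sum, Nat.cast_pow, k2, ← sum_add_distrib]
      exact sum_congr rfl fun l _ => by ring
    have c3 : 0 < ∑ l, d l ^ 2 := by
      obtain ⟨l, hl⟩ := Function.ne_iff.1 hδ
      have hne : d l ≠ 0 := fun hz => hl (by rw [← k3, hz]; simp)
      exact sum_pos' (fun _ _ => sq_nonneg _) ⟨l, mem_univ _, by positivity⟩
    have c4 : ∑ l, 2 * ((s l).val : ℤ) * d l + q * ∑ l, d l ^ 2 = 0 :=
      (mul_eq_zero.1 (show (q : ℤ) * _ = 0 by omega)).resolve_left (by omega)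
    have q2 : (2 : ℤ) ≤ q := by omega
    have c5 : nr (s + δ) + 1 ≤ nr s := by
      have : (nr (s + δ) : ℤ) < nr s := by nlinarith
      omega
    have c6 := Nat.mul_le_mul_left M c5
    rw [mul_add] at c6
    omega

lemma hash (p n R : ℕ) [Fact p.Prime] (hn : n ≤ p ^ 8) :
    ∃ Λ : (Fin n → ℤ) →+ (Fin R × Fin 8 → ZMod p), ∀ (w : Fin n → ℤ) (i0 : Fin n),
      (w i0 = 1 ∨ w i0 = -1) → (univ.filter fun i => w i ≠ 0).card ≤ R → Λ w ≠ 0 := by
  classical
  let b := Module.finBasisOfFinrankEq (ZMod p) (GaloisField p 8) (GaloisField.finrank p (by omega))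
  haveI := Fintype.ofFinite (GaloisField p 8)
  obtain ⟨g⟩ : Nonempty (Fin n ↪ GaloisField p 8) := Function.Embedding.nonempty_of_card_le (by
    rw [Fintype.card_fin, ← Nat.card_eq_fintype_card, GaloisField.card p 8 (by omega)]; exact hn)
  refine ⟨AddMonoidHom.mk' (fun x jl => b.repr (∑ i, (x i : GaloisField p 8) * g i ^ (jl.1 : ℕ)) jl.2)
    fun x y => by ext jl; simp [add_mul, sum_add_distrib], fun w i0 h0 hc hz => ?_⟩
  have h1 : ∀ j < R, ∑ i, (w i : GaloisField p 8) * g i ^ j = 0 := fun j hj =>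
    b.repr.injective (by ext l; simpa using congrFun hz (⟨j, hj⟩, l))
  set S := univ.filter fun i => w i ≠ 0
  have hS : i0 ∈ S := by simp only [S, mem_filter, mem_univ, true_and]; omega
  set P : Polynomial (GaloisField p 8) := ∏ i ∈ S.erase i0, (Polynomial.X - Polynomial.C (g i))
  have hP : P.natDegree < R := by
    rw [Polynomial.natDegree_prod_of_monic _ _ fun i _ => Polynomial.monic_X_sub_C _]
    have := card_erase_of_mem hS
    have := card_pos.2 ⟨i0, hS⟩
    simp only [Polynomial.natDegree_X_sub_C, sum_const, smul_eq_mul]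
    omega
  have h2 : ∑ i, (w i : GaloisField p 8) * P.eval (g i) = 0 := by
    simp only [Polynomial.eval_eq_sum_range' hP, mul_sum]
    rw [sum_comm]
    refine sum_eq_zero fun j hj => ?_
    simp only [mul_left_comm _ (P.coeff j), ← mul_sum, h1 j (mem_range.1 hj), mul_zero]
  rw [sum_eq_single i0 (fun i _ hi => ?_) (by simp)] at h2
  · refine mul_ne_zero (by rcases h0 with h | h <;> simp [h]) ?_ h2
    rw [Polynomial.eval_prod]
    exact prod_ne_zero_iff.2 fun i hi => by
      simpa [sub_eq_zero] using (mem_erase.1 hi).1.symm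
  · by_cases c : w i = 0
    · simp [c]
    · rw [Polynomial.eval_prod, prod_eq_zero (i := i) (mem_erase.2 ⟨hi, by simpa [S] using c⟩)
        (by simp), mul_zero]

/-- Number of extreme coordinates. -/
def ex {n k : ℕ} (x : Fin n → Fin k) : ℕ :=
  (univ.filter fun i => (x i : ℕ) = 0 ∨ (x i : ℕ) + 1 = k).card

theorem colour (k n R p : ℕ) [Fact p.Prime] (hk : 3 ≤ k) (hp : k ≤ p) (hn : n ≤ p ^ 8)
    (hR : 0 < R) : ∃ φ : (Fin n → Fin k) → ℕ,
    (∀ x, φ x < (k - 1) ^ (R * 8) * (R * 8 * p ^ 2 + 1)) ∧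
    ∀ (x y z : Fin n → Fin k) (w : Fin n → ℤ) (i0 : Fin n), w i0 ≠ 0 →
      (∀ i, ((y i : ℕ) : ℤ) = (x i : ℕ) + w i ∧ ((z i : ℕ) : ℤ) = (x i : ℕ) + (k - 1 : ℕ) * w i) →
      ex x / R + φ x = ex y / R + φ y → ex x / R + φ x ≠ ex z / R + φ z := by
  obtain ⟨φ, h1, h2⟩ := conv (ι := Fin R × Fin 8) p (k - 1) (by omega) (by omega)
  obtain ⟨Λ, hΛ⟩ := hash p n R hn
  refine ⟨fun x => φ (Λ fun i => (x i : ℕ)), fun x => by simpa using h1 _,
    fun x y z w i0 h0 hw e1 e2 => ?_⟩
  have tri : ∀ i, w i = 0 ∨ (w i = 1 ∧ (x i : ℕ) = 0 ∧ (y i : ℕ) = 1 ∧ (z i : ℕ) + 1 = k) ∨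
      (w i = -1 ∧ (x i : ℕ) + 1 = k ∧ (y i : ℕ) + 2 = k ∧ (z i : ℕ) = 0) := by
    intro i
    obtain ⟨a1, a2⟩ := hw i
    have := (x i).2
    have := (z i).2
    have q0 : (0 : ℤ) < (k - 1 : ℕ) := by omega
    have b1 : w i < 2 := lt_of_mul_lt_mul_left (by omega) q0.le
    have b2 : -2 < w i := lt_of_mul_lt_mul_left (by omega) q0.le
    obtain c | c | c : w i = 0 ∨ w i = 1 ∨ w i = -1 := by omega
    all_goals rw [c] at a1 a2; omega
  have t1 : ex x = ex z := congrArg card (filter_congr fun i _ => by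
    have := hw i
    rcases tri i with c | c | c
    · rw [c] at this; omega
    all_goals omega)
  have t2 : ex x = ex y + (univ.filter fun i => w i ≠ 0).card := by
    unfold ex
    rw [← card_union_of_disjoint (disjoint_filter.2 fun i _ h => by have := tri i; omega),
      ← filter_or]
    exact congrArg card (filter_congr fun i _ => by have := hw i; have := tri i; omega)
  have y1 : (fun i => ((y i : ℕ) : ℤ)) = (fun i => ((x i : ℕ) : ℤ)) + w :=
    funext fun i => (hw i).1
  have z1 : (fun i => ((z i : ℕ) : ℤ)) = (fun i => ((x i : ℕ) : ℤ)) + ((k - 1 : ℕ) : ℤ) • w :=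
    funext fun i => (hw i).2
  dsimp only at e1 e2
  rw [y1, map_add] at e1
  rw [z1, map_add, map_zsmul, ← t1] at e2
  have mono : ex y / R ≤ ex x / R := Nat.div_le_div_right (by omega)
  by_cases c : Λ w = 0
  · rw [c, add_zero] at e1
    have c1 : R < (univ.filter fun i => w i ≠ 0).card := by
      by_contra hc
      exact hΛ w i0 (by have := tri i0; omega) (by omega) c
    have c2 : (ex y + R) / R ≤ ex x / R := Nat.div_le_div_right (by omega)
    rw [Nat.add_div_right _ hR] at c2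
    omega
  · have := h2 _ _ c (Nat.add_left_cancel e2)
    omega

end Pool.Agent.H49.Mo
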