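import Mathlib
import Pool.Agent.H49.Mo1

set_option autoImplicit false

namespace Pool.Agent.H49.Mo

open Finset

lemma var {α : Type} [Fintype α] (z : α → ℝ) (B : ℝ) (h0 : ∑ a, z a = 0) (hB : ∀ a, z a ^ 2 ≤ B)
    (n : ℕ) : ∑ x : Fin n → α, (∑ i, z (x i)) ^ 2 ≤ n * B * Fintype.card α ^ n := by
  induction n with
  | zero => simp
  | succ n ih =>
    rw [← (Fin.consEquiv fun _ => α).sum_comp, Fintype.sum_prod_type, sum_comm]
    have e : ∀ x : Fin n → α, ∑ a, (∑ i, z ((Fin.consEquiv fun _ => α) (a, x) i)) ^ 2 ≤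
        Fintype.card α * B + Fintype.card α * (∑ i, z (x i)) ^ 2 := by
      intro x
      simp only [Fin.consEquiv, Equiv.coe_fn_mk, Fin.sum_univ_succ, Fin.cons_zero, Fin.cons_succ,
        add_sq, sum_add_distrib, ← sum_mul, ← mul_sum, h0]
      have : ∑ a, z a ^ 2 ≤ ∑ _a : α, B := sum_le_sum fun a _ => hB a
      simp only [sum_const, card_univ, nsmul_eq_mul] at this ⊢
      linarith
    refine (sum_le_sum fun x _ => e x).trans ?_
    rw [sum_add_distrib, ← mul_sum, ← mul_sum]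
    have := mul_le_mul_of_nonneg_left ih (Nat.cast_nonneg (Fintype.card α))
    simp only [sum_const, card_univ, nsmul_eq_mul, Fintype.card_fun, Fintype.card_fin,
      Nat.cast_pow, pow_succ, Nat.cast_add, Nat.cast_one] at this ⊢
    linarith

lemma central (k n : ℕ) (hk : 3 ≤ k) (hn : 0 < n) : ∃ (G : Finset (Fin n → Fin k)) (L : ℕ),
    3 / 4 * (k : ℝ) ^ n ≤ G.card ∧ ∀ x ∈ G, L ≤ ex x ∧ ex x ≤ L + (⌈4 * √n⌉₊ + 1) := by
  classical
  let z : Fin k → ℝ := fun a => k * (if (a : ℕ) = 0 ∨ (a : ℕ) + 1 = k then 1 else 0) - 2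
  have k3 : (3 : ℝ) ≤ k := by exact_mod_cast hk
  have n0 : (0 : ℝ) < n := by exact_mod_cast hn
  have h0 : ∑ a, z a = 0 := by
    have : (univ.filter fun a : Fin k => (a : ℕ) = 0 ∨ (a : ℕ) + 1 = k) =
        {⟨0, by omega⟩, ⟨k - 1, by omega⟩} := by
      ext a; simp only [mem_filter, mem_univ, true_and, mem_insert, mem_singleton, Fin.ext_iff]; omega
    simp only [z, sum_sub_distrib, ← mul_sum, sum_boole, this]
    rw [card_pair (by simp only [ne_eq, Fin.mk.injEq]; omega)]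
    simp
  have hv := var z (k ^ 2) h0 (fun a => by simp only [z]; split_ifs <;> nlinarith) n
  have hz : ∀ x : Fin n → Fin k, ∑ i, z (x i) = k * ex x - 2 * n := fun x => by
    simp only [z, sum_sub_distrib, ← mul_sum, sum_boole, ex]
    simp [mul_comm]
  simp only [hz, Fintype.card_fin] at hv
  let p : (Fin n → Fin k) → Prop := fun x => ((k : ℝ) * ex x - 2 * n) ^ 2 < 4 * k ^ 2 * n
  refine ⟨univ.filter p, ⌊2 * n / k - 2 * √n⌋₊, ?_, fun x hx => ?_⟩
  · have h1 : ((univ.filter fun x => ¬ p x).card : ℝ) * (4 * k ^ 2 * n) ≤ n * k ^ 2 * k ^ n := by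
      refine le_trans ?_ ((sum_le_sum_of_subset_of_nonneg (filter_subset (fun x => ¬ p x) _)
        fun _ _ _ => sq_nonneg _).trans hv)
      rw [← nsmul_eq_mul]
      exact card_nsmul_le_sum _ _ _ fun x hx => not_lt.1 (mem_filter.1 hx).2
    have h2 := card_filter_add_card_filter_not (s := univ) p
    rw [card_univ, Fintype.card_fun, Fintype.card_fin, Fintype.card_fin] at h2
    have h3 : ((univ.filter p).card : ℝ) + (univ.filter fun x => ¬ p x).card = k ^ n := by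
      exact_mod_cast h2
    have h4 : ((univ.filter fun x => ¬ p x).card : ℝ) * 4 ≤ k ^ n :=
      le_of_mul_le_mul_left (a := (n : ℝ) * k ^ 2) (by linarith) (by positivity)
    linarith
  · have h1 : ((k : ℝ) * ex x - 2 * n) ^ 2 < (2 * k * √n) ^ 2 := by
      rw [mul_pow, Real.sq_sqrt n0.le, mul_pow]; have := (mem_filter.1 hx).2; simp only [p] at this
      linarith
    obtain ⟨h2, h3⟩ := abs_lt.1 (abs_lt_of_sq_lt_sq h1 (by positivity))
    have e : k * (2 * n / k : ℝ) = 2 * n := by field_simp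
    have h4 : 2 * n / k - 2 * √n < (ex x : ℝ) :=
      lt_of_mul_lt_mul_left (a := (k : ℝ)) (by linarith) (by linarith)
    have h5 : (ex x : ℝ) < 2 * n / k + 2 * √n :=
      lt_of_mul_lt_mul_left (a := (k : ℝ)) (by linarith) (by linarith)
    refine ⟨Nat.floor_le_of_le h4.le, ?_⟩
    have h6 := Nat.lt_floor_add_one (2 * n / k - 2 * √n : ℝ)
    have h7 := Nat.le_ceil (4 * √n : ℝ)
    have : (ex x : ℝ) ≤ (⌊2 * n / k - 2 * √n⌋₊ + (⌈4 * √n⌉₊ + 1) : ℕ) := by push_cast; linarith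
    exact_mod_cast this

lemma line {k n : ℕ} (hk : 3 ≤ k) (T : Finset (Fin n → Fin k)) (hT : T.card = k)
    (h : Collinear ℝ ((fun (x : Fin n → Fin k) (i : Fin n) => (((x i : ℕ)) : ℝ)) ''
      (T : Set (Fin n → Fin k)))) : ∃ x ∈ T, ∃ y ∈ T, ∃ z ∈ T, ∃ (w : Fin n → ℤ) (i0 : Fin n),
    w i0 ≠ 0 ∧ ∀ i, ((y i : ℕ) : ℤ) = (x i : ℕ) + w i ∧
      ((z i : ℕ) : ℤ) = (x i : ℕ) + (k - 1 : ℕ) * w i := by
  obtain ⟨p, v, hv⟩ := (collinear_iff_exists_forall_eq_smul_vadd _).1 h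
  have h1 : ∀ x ∈ T, ∃ r : ℝ, ∀ i, ((x i : ℕ) : ℝ) = r * v i + p i := fun x hx => by
    obtain ⟨r, hr⟩ := hv _ ⟨x, hx, rfl⟩
    exact ⟨r, fun i => by simpa using congrFun hr i⟩
  choose! r hr using h1
  obtain ⟨a, ha, b, hb, hab⟩ := one_lt_card.1 (show 1 < T.card by omega)
  obtain ⟨i0, hi⟩ := Function.ne_iff.1 hab
  have v0 : v i0 ≠ 0 := fun hz => hi (Fin.ext (by
    have e : ((a i0 : ℕ) : ℝ) = (b i0 : ℕ) := by rw [hr a ha, hr b hb, hz]; simp
    exact_mod_cast e))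
  have inj : Set.InjOn (fun x : Fin n → Fin k => x i0) T := fun x hx y hy e => by
    have e1 : r x = r y := by
      have := hr x hx i0
      rw [show x i0 = y i0 from e, hr y hy] at this
      exact (mul_right_cancel₀ v0 (add_right_cancel this)).symm
    funext i
    have e2 : ((x i : ℕ) : ℝ) = (y i : ℕ) := by rw [hr x hx, hr y hy, e1]
    exact Fin.ext (by exact_mod_cast e2)
  have sur : ∀ c : Fin k, ∃ x ∈ T, x i0 = c := fun c => by
    have : T.image (fun x => x i0) = univ := eq_univ_of_card _ (by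
      rw [card_image_of_injOn inj, hT, Fintype.card_fin])
    exact mem_image.1 (this ▸ mem_univ c)
  obtain ⟨x, hx, ex0⟩ := sur ⟨0, by omega⟩
  obtain ⟨y, hy, ey⟩ := sur ⟨1, by omega⟩
  obtain ⟨z, hz, ez⟩ := sur ⟨k - 1, by omega⟩
  refine ⟨x, hx, y, hy, z, hz, fun i => (y i : ℕ) - (x i : ℕ), i0, by simp [ex0, ey],
    fun i => ⟨by ring, ?_⟩⟩
  have a1 := hr x hx i0
  have a2 := hr y hy i0
  have a3 := hr z hz i0
  rw [ex0] at a1; rw [ey] at a2; rw [ez] at a3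
  have a4 : r z - r x = (k - 1 : ℕ) * (r y - r x) :=
    mul_right_cancel₀ v0 (by push_cast at a1 a2; linear_combination a1 - a3 + (k - 1 : ℕ) * (a2 - a1))
  have a5 : ((z i : ℕ) : ℝ) = (x i : ℕ) + (k - 1 : ℕ) * (((y i : ℕ) : ℝ) - (x i : ℕ)) := by
    rw [hr x hx, hr y hy, hr z hz]; linear_combination v i * a4
  exact_mod_cast a5

lemma root (n : ℕ) : ∃ s, s ^ 8 ≤ n ∧ n < (s + 1) ^ 8 := by
  have a1 := Nat.sqrt_le' n
  have a2 := Nat.lt_succ_sqrt' n
  have b1 := Nat.sqrt_le' n.sqrt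
  have b2 := Nat.lt_succ_sqrt' n.sqrt
  have c1 := Nat.sqrt_le' n.sqrt.sqrt
  have c2 := Nat.lt_succ_sqrt' n.sqrt.sqrt
  refine ⟨n.sqrt.sqrt.sqrt, ?_, ?_⟩
  · calc _ = ((n.sqrt.sqrt.sqrt ^ 2) ^ 2) ^ 2 := by ring
      _ ≤ n := (Nat.pow_le_pow_left ((Nat.pow_le_pow_left c1 2).trans b1) 2).trans a1
  · calc n < _ := a2
      _ ≤ (((n.sqrt.sqrt.sqrt + 1) ^ 2) ^ 2) ^ 2 :=
        Nat.pow_le_pow_left (le_trans b2 (Nat.pow_le_pow_left c2 2)) 2
      _ = _ := by ring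

end Pool.Agent.H49.Mo
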