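import Mathlib

set_option autoImplicit false

/-! Rational functions as self-maps of the projective line `P^1(K) = K ∪ {∞}`. -/

namespace Pool.Agent.H49.P1

open Polynomial

variable {K : Type*} [Field K]

open Classical in
/-- The self-map of `P^1(K) = OnePoint K` induced by `h = num / denom` (coprime numerator and
denominator): a finite point goes to `∞` exactly when it is a root of the denominator; `∞` goes to
`∞` when `deg num > deg denom`, and otherwise to the limit value (ratio of the coefficients in
degree `deg denom`, which is `0` when `deg num < deg denom`). -/
noncomputable def act (h : RatFunc K) (x : OnePoint K) : OnePoint K :=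
  x.elim
    (if h.denom.natDegree < h.num.natDegree then OnePoint.infty
      else OnePoint.some (h.num.coeff h.denom.natDegree / h.denom.coeff h.denom.natDegree))
    (fun z => if h.denom.eval z = 0 then OnePoint.infty
      else OnePoint.some (h.num.eval z / h.denom.eval z))

/-- The degree of a rational function as a self-map of `P^1`. -/
noncomputable def deg (h : RatFunc K) : ℕ := max h.num.natDegree h.denom.natDegree

end Pool.Agent.H49.P1
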