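import Pool.Agent.H49.PCFDefs

set_option autoImplicit false

namespace Pool.Agent.H49.PCF

open Polynomial

lemma norm_two : ‖(2 : ℚ_[2])‖ = 1 / 2 := by
  have := Padic.norm_p (p := 2)
  simpa using this

lemma norm_mul_succ (c : ℚ_[2]) (hc : ‖c‖ ≤ 1) : ‖c ^ 2 + c‖ ≤ 1 / 2 := by
  let z : ℤ_[2] := ⟨c, hc⟩
  have h1 : z ^ 2 + z ∈ RingHom.ker (PadicInt.toZMod : ℤ_[2] →+* ZMod 2) := by
    rw [RingHom.mem_ker, map_add, map_pow]
    generalize PadicInt.toZMod z = a
    revert a; decide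
  rw [PadicInt.ker_toZMod, PadicInt.maximalIdeal_eq_span_p, Ideal.mem_span_singleton] at h1
  obtain ⟨w, hw⟩ := h1
  have h2 : c ^ 2 + c = 2 * (w : ℚ_[2]) := by
    have := congrArg (fun t : ℤ_[2] => (t : ℚ_[2])) hw
    push_cast at this
    exact this
  rw [h2, norm_mul, norm_two]
  have : ‖(w : ℚ_[2])‖ ≤ 1 := w.2
  linarith

theorem padic_pcf (c : ℚ_[2]) (x : ℕ → ℚ_[2]) (h0 : x 0 = 0) (hs : ∀ n, x (n + 1) = x n ^ 2 + c)
    (hfin : (Set.range x).Finite) : c = 0 ∨ c = -1 ∨ c = -2 := by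
  have hx1 : x 1 = c := by rw [hs, h0]; ring
  have hx2 : x 2 = c ^ 2 + c := by rw [hs, hx1]
  have hc : ‖c‖ ≤ 1 := by
    by_contra hc
    push Not at hc
    have hge : ∀ n, ‖c‖ ≤ ‖x (n + 1)‖ ∧ ‖x (n + 1)‖ < ‖x (n + 2)‖ := by
      have key : ∀ n, ‖c‖ ≤ ‖x n‖ → ‖x n‖ < ‖x (n + 1)‖ := by
        intro n hn
        have h1 : ‖c‖ < ‖x n ^ 2‖ := by rw [norm_pow]; nlinarith
        rw [hs, Padic.add_eq_max_of_ne h1.ne', max_eq_left h1.le, norm_pow]
        nlinarith
      intro n
      induction n with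
      | zero => exact ⟨by rw [zero_add, hx1], key 1 (by rw [hx1])⟩
      | succ n ih => exact ⟨ih.1.trans ih.2.le, key _ (ih.1.trans ih.2.le)⟩
    have hmono : StrictMono (fun n => ‖x (n + 1)‖) := strictMono_nat_of_lt_succ (fun n => (hge n).2)
    have hinj : Function.Injective (fun n => x (n + 1)) := by
      intro a b h
      apply hmono.injective
      simp only at h ⊢
      rw [h]
    exact Set.infinite_of_injective_forall_mem (s := Set.range x) hinj (fun n => ⟨n + 1, rfl⟩) hfin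
  have hle : ∀ n, ‖x n‖ ≤ 1 := by
    intro n
    induction n with
    | zero => simp [h0]
    | succ n ih =>
      rw [hs]
      refine (Padic.nonarchimedean _ _).trans (max_le ?_ hc)
      rw [norm_pow]
      exact pow_le_one₀ (norm_nonneg _) ih
  set D : ℕ → ℚ_[2] := fun n => x (n + 2) - x n with hD
  have hrec : ∀ n, D (n + 1) = D n * (D n + 2 * x n) := by
    intro n
    simp only [hD]
    rw [hs (n + 2), hs n]
    ring
  have hD0 : D 0 = x 2 := by simp [hD, h0]
  have ht : ‖x 2‖ ≤ 1 / 2 := by rw [hx2]; exact norm_mul_succ c hc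
  have h2x : ∀ n, ‖2 * x n‖ = ‖x n‖ / 2 := by
    intro n; rw [norm_mul, norm_two]; ring
  have hhalf : ∀ n, ‖D n‖ ≤ 1 / 2 ∧ ‖D (n + 1)‖ ≤ ‖D n‖ / 2 := by
    have key : ∀ n, ‖D n‖ ≤ 1 / 2 → ‖D (n + 1)‖ ≤ ‖D n‖ / 2 := by
      intro n hn
      have h1 : ‖D n + 2 * x n‖ ≤ 1 / 2 := by
        refine (Padic.nonarchimedean _ _).trans (max_le hn ?_)
        rw [h2x]; linarith [hle n]
      rw [hrec, norm_mul]
      nlinarith [norm_nonneg (D n)]
    intro n
    induction n with
    | zero => exact ⟨by rw [hD0]; exact ht, key 0 (by rw [hD0]; exact ht)⟩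
    | succ n ih =>
      have : ‖D (n + 1)‖ ≤ 1 / 2 := by linarith [ih.1, ih.2]
      exact ⟨this, key _ this⟩
  have hex : ∃ n, D n = 0 := by
    by_contra hne
    push Not at hne
    have hanti : StrictAnti (fun n => ‖D n‖) := by
      apply strictAnti_nat_of_succ_lt
      intro n
      have := (hhalf n).2
      have h1 : 0 < ‖D n‖ := norm_pos_iff.2 (hne n)
      linarith
    have hinj : Function.Injective (fun n => (x (n + 2), x n)) := by
      intro a b h
      apply hanti.injective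
      simp only [Prod.mk.injEq] at h
      simp only [hD, h.1, h.2]
    exact Set.infinite_of_injective_forall_mem (s := Set.range x ×ˢ Set.range x) hinj
      (fun n => ⟨⟨n + 2, rfl⟩, ⟨n, rfl⟩⟩) (hfin.prod hfin)
  by_cases hz : x 2 = 0
  · rw [hx2] at hz
    have : c * (c + 1) = 0 := by linear_combination hz
    rcases mul_eq_zero.1 this with h | h
    · exact Or.inl h
    · exact Or.inr (Or.inl (by linear_combination h))
  have htpos : 0 < ‖x 2‖ := norm_pos_iff.2 hz
  have hD1 : ‖D 1‖ = ‖x 2‖ ^ 2 := by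
    rw [hrec 0, hD0, h0, mul_zero, add_zero, norm_mul, sq]
  have hDle : ∀ n, ‖D (n + 1)‖ ≤ ‖x 2‖ ^ 2 := by
    intro n
    induction n with
    | zero => exact hD1.le
    | succ n ih => linarith [(hhalf (n + 1)).2, norm_nonneg (D (n + 1))]
  have hxge : ∀ n, ‖x 2‖ ≤ ‖x (n + 1)‖ ∧ ‖x 2‖ ≤ ‖x (n + 2)‖ := by
    intro n
    induction n with
    | zero =>
      refine ⟨?_, le_rfl⟩
      have h1 := hle 2
      have : x 2 = x 1 * (x 1 + 1) := by rw [hx2, hx1]; ring
      have h3 : ‖x 1 + 1‖ ≤ 1 := (Padic.nonarchimedean _ _).trans (max_le (hle 1) (by simp))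
      rw [this, norm_mul]
      nlinarith [norm_nonneg (x 1)]
    | succ n ih =>
      refine ⟨ih.2, ?_⟩
      have h1 : x (n + 1 + 2) = D (n + 1) + x (n + 1) := by simp [hD]
      have h2 : ‖D (n + 1)‖ < ‖x (n + 1)‖ := by nlinarith [hDle n, ih.1]
      rw [h1, Padic.add_eq_max_of_ne h2.ne, max_eq_right h2.le]
      exact ih.1
  classical
  have hmin := Nat.find_spec hex
  have hne := fun m => Nat.find_min hex (m := m)
  generalize Nat.find hex = N at hmin hne
  rcases N with _ | N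
  · exact absurd (hD0 ▸ hmin) hz
  have h1 : D N + 2 * x N = 0 := by
    rw [hrec] at hmin
    exact (mul_eq_zero.1 hmin).resolve_left (hne N (Nat.lt_succ_self N))
  have h2 : ‖D N‖ = ‖x N‖ / 2 := by
    rw [eq_neg_of_add_eq_zero_left h1, norm_neg, h2x]
  rcases N with _ | _ | N
  · rw [h0, mul_zero, add_zero, hD0] at h1
    exact absurd h1 hz
  · have h3 : c * (c + 2) * (c ^ 2 + 1) = 0 := by
      simp only [hD, zero_add] at h1
      rw [hs 2, hx2, hx1] at h1
      linear_combination h1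
    rcases mul_eq_zero.1 h3 with h | h
    · rcases mul_eq_zero.1 h with h | h
      · exact Or.inl h
      · exact Or.inr (Or.inr (by linear_combination h))
    · exfalso
      have h4 : ‖c‖ ^ 2 = 1 := by
        rw [← norm_pow, eq_neg_of_add_eq_zero_left h, norm_neg, norm_one]
      have h5 : ‖c‖ = 1 := by nlinarith [norm_nonneg c]
      rw [zero_add, hD1, hx1, h5] at h2
      nlinarith
  · exfalso
    have h3 := (hhalf (N + 1)).2
    have h4 := hDle N
    have h5 := (hxge N).2
    nlinarith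

variable {L : Type*} [Field L]

noncomputable def inv (f : L[X]) : L := f.coeff 2 * f.coeff 0 + f.coeff 1 / 2 - f.coeff 1 ^ 2 / 4

lemma eq_quad (f : L[X]) (hf : f.natDegree ≤ 2) :
    f = C (f.coeff 2) * X ^ 2 + C (f.coeff 1) * X + C (f.coeff 0) := by
  ext n
  rcases n with _ | _ | _ | n
  · simp
  · simp
  · simp
  · rw [coeff_eq_zero_of_natDegree_lt (by omega)]
    simp

lemma conj_normal [CharZero L] (f : L[X]) (hf : f.natDegree = 2) :
    (X ^ 2 + C (inv f)).comp (C (f.coeff 2) * X + C (f.coeff 1 / 2)) =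
      C (f.coeff 2) * f + C (f.coeff 1 / 2) := by
  apply Polynomial.funext
  intro z
  have := congrArg (eval z) (eq_quad f hf.le)
  simp only [eval_add, eval_mul, eval_C, eval_pow, eval_X] at this
  simp only [eval_comp, eval_add, eval_mul, eval_C, eval_pow, eval_X, this, inv]
  ring

lemma inv_eq [CharZero L] (f g : L[X]) (hf : f.natDegree ≤ 2) (hg : g.natDegree ≤ 2)
    (h : AffConj f g) : inv f = inv g := by
  obtain ⟨a, b, ha, h⟩ := h
  have e : ∀ z : L, g.coeff 2 * (a * z + b) ^ 2 + g.coeff 1 * (a * z + b) + g.coeff 0 =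
      a * (f.coeff 2 * z ^ 2 + f.coeff 1 * z + f.coeff 0) + b := by
    intro z
    have h1 := congrArg (eval z) h
    have h2 := congrArg (eval z) (eq_quad f hf)
    have h3 := congrArg (eval (a * z + b)) (eq_quad g hg)
    simp only [eval_comp, eval_add, eval_mul, eval_C, eval_pow, eval_X] at h1 h2 h3
    rw [← h2, ← h3, h1]
  have e0 := e 0
  have e1 := e 1
  have e2 := e (-1)
  have k2 : f.coeff 2 = g.coeff 2 * a := by
    apply mul_left_cancel₀ ha
    linear_combination (-1 / 2 : L) * e1 + (-1 / 2 : L) * e2 + e0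
  have k1 : f.coeff 1 = 2 * b * g.coeff 2 + g.coeff 1 := by
    apply mul_left_cancel₀ ha
    linear_combination (-1 / 2 : L) * e1 + (1 / 2 : L) * e2
  unfold inv
  rw [k2, k1]
  linear_combination (-(g.coeff 2)) * e0

theorem main (f : (AlgebraicClosure ℚ_[2])[X]) (hf : f.natDegree = 2)
    (hrat : ∀ σ : AlgebraicClosure ℚ_[2] ≃ₐ[ℚ_[2]] AlgebraicClosure ℚ_[2],
      AffConj f (f.map (σ : AlgebraicClosure ℚ_[2] →+* AlgebraicClosure ℚ_[2])))
    (hpcf : IsPCF f) :
    AffConj f (X ^ 2) ∨ AffConj f (X ^ 2 - 1) ∨ AffConj f (X ^ 2 - 2) := by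
  have hlc : f.coeff 2 ≠ 0 := by
    have : f ≠ 0 := by
      rintro rfl
      simp at hf
    have h2 := leadingCoeff_ne_zero.2 this
    rwa [leadingCoeff, hf] at h2
  have hfix : ∀ σ : AlgebraicClosure ℚ_[2] ≃ₐ[ℚ_[2]] AlgebraicClosure ℚ_[2],
      σ (inv f) = inv f := by
    intro σ
    conv_rhs => rw [inv_eq f _ hf.le (natDegree_map_le.trans hf.le) (hrat σ)]
    simp [inv, map_ofNat]
  obtain ⟨c, hc⟩ := (InfiniteGalois.mem_range_algebraMap_iff_fixed (inv f)).2 hfix
  have hn := conj_normal f hf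
  have hconj : AffConj f (X ^ 2 + C (inv f)) := ⟨_, _, hlc, hn⟩
  set z0 := -(f.coeff 1 / 2) / f.coeff 2 with hz0
  have hcrit : f.derivative.eval z0 = 0 := by
    rw [eq_quad f hf.le]
    simp [hz0]
    field_simp
    ring
  let x : ℕ → ℚ_[2] := fun n => (fun t => t ^ 2 + c)^[n] 0
  have hx : ∀ n, algebraMap ℚ_[2] (AlgebraicClosure ℚ_[2]) (x n) =
      f.coeff 2 * (fun t => f.eval t)^[n] z0 + f.coeff 1 / 2 := by
    intro n
    induction n with
    | zero => simp [x, hz0]; field_simp; ring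
    | succ n ih =>
      simp only [x] at ih ⊢
      rw [Function.iterate_succ_apply', Function.iterate_succ_apply', map_add, map_pow, ih, hc]
      have := congrArg (eval ((fun t => f.eval t)^[n] z0)) hn
      simpa [eval_comp] using this
  have hfin : (Set.range x).Finite := by
    apply Set.Finite.of_finite_image _
      (algebraMap ℚ_[2] (AlgebraicClosure ℚ_[2])).injective.injOn
    refine ((hpcf z0 hcrit).image (fun t => f.coeff 2 * t + f.coeff 1 / 2)).subset ?_
    rintro _ ⟨_, ⟨n, rfl⟩, rfl⟩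
    exact ⟨_, ⟨n, rfl⟩, (hx n).symm⟩
  have := padic_pcf c x rfl (fun n => Function.iterate_succ_apply' _ _ _) hfin
  rw [← hc] at hconj
  rcases this with rfl | rfl | rfl
  · left; simpa using hconj
  · right; left; simpa [sub_eq_add_neg] using hconj
  · right; right
    simpa [sub_eq_add_neg, map_ofNat] using hconj

end Pool.Agent.H49.PCF
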