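import Mathlib

set_option autoImplicit false

namespace Pool.Agent.H49.PCF

open Polynomial

variable {L : Type*} [Field L]

/-- `f` and `g` are conjugate by an affine map `φ(z) = a z + b`, `a ≠ 0`: `g ∘ φ = φ ∘ f`. -/
def AffConj (f g : L[X]) : Prop :=
  ∃ a b : L, a ≠ 0 ∧ g.comp (C a * X + C b) = C a * f + C b

/-- A polynomial is postcritically finite if every finite critical point has a finite forward
orbit (the critical point `∞` is fixed). -/
def IsPCF (f : L[X]) : Prop :=
  ∀ z : L, f.derivative.eval z = 0 → (Set.range fun n : ℕ => (fun x => f.eval x)^[n] z).Finite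

end Pool.Agent.H49.PCF
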