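import Mathlib

set_option autoImplicit false

namespace Pool.Agent.H49.Phi3

open Finset

/-- number of `1 ≤ i ≤ N` coprime to `m` -/
def cnt (N m : ℕ) : ℕ := ((Icc 1 N).filter (fun i => Nat.gcd i m = 1)).card

lemma cnt_one (N : ℕ) : cnt N 1 = N := by simp [cnt]

lemma cnt_step (N m p : ℕ) (hp : p.Prime) (hc : Nat.Coprime p m) :
    cnt N (p * m) + cnt (N / p) m = cnt N m := by
  unfold cnt
  rw [← card_filter_add_card_filter_not (s := (Icc 1 N).filter (fun i => Nat.gcd i m = 1))
    (fun i => ¬ p ∣ i)]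
  congr 1
  · congr 1
    ext i
    simp only [mem_filter, and_assoc, and_congr_right_iff]
    intro _
    rw [← Nat.Coprime, ← Nat.Coprime, Nat.coprime_mul_iff_right, Nat.coprime_comm,
      hp.coprime_iff_not_dvd, and_comm]
  · apply card_bij (fun j _ => p * j)
    · intro j hj
      simp only [mem_filter, mem_Icc, not_not] at hj ⊢
      refine ⟨⟨⟨Nat.mul_pos hp.pos hj.1.1, ?_⟩, Nat.Coprime.mul_left hc hj.2⟩, dvd_mul_right _ _⟩
      have := (Nat.le_div_iff_mul_le hp.pos).1 hj.1.2
      rwa [mul_comm]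
    · intro a _ b _ h
      exact Nat.eq_of_mul_eq_mul_left hp.pos h
    · intro i hi
      simp only [mem_filter, mem_Icc, not_not] at hi
      obtain ⟨⟨⟨h1, h2⟩, h3⟩, j, rfl⟩ := hi
      refine ⟨j, ?_, rfl⟩
      simp only [mem_filter, mem_Icc]
      refine ⟨⟨Nat.pos_of_mul_pos_left h1, ?_⟩, Nat.Coprime.coprime_mul_left h3⟩
      rw [Nat.le_div_iff_mul_le hp.pos, mul_comm]
      exact h2

lemma cnt_val : cnt (4125441 / 3) 4125441 = 825088 := by
  have a : ∀ N, cnt N 3517 = N - N / 3517 := fun N => by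
    have := cnt_step N 1 3517 (by norm_num) (by norm_num)
    rw [cnt_one, cnt_one] at this
    norm_num at this
    omega
  have b : ∀ N, cnt N 80891 = cnt N 3517 - cnt (N / 23) 3517 := fun N => by
    have := cnt_step N 3517 23 (by norm_num) (by norm_num)
    norm_num at this
    omega
  have c : ∀ N, cnt N 1375147 = cnt N 80891 - cnt (N / 17) 80891 := fun N => by
    have := cnt_step N 80891 17 (by norm_num) (by norm_num)
    norm_num at this
    omega
  have d : ∀ N, cnt N 4125441 = cnt N 1375147 - cnt (N / 3) 1375147 := fun N => by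
    have := cnt_step N 1375147 3 (by norm_num) (by norm_num)
    norm_num at this
    omega
  rw [d, c, c, b, b, b, b, a, a, a, a, a, a, a, a]

end Pool.Agent.H49.Phi3
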