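import Pool.Agent.H49.PreimDefs

set_option autoImplicit false

namespace H49.Preim

open Polynomial IntermediateField

lemma F_smul (t c : K) (v : Fin 3 → K) : F t (c • v) = c ^ 2 • F t v := by
  funext i
  fin_cases i <;> simp [F] <;> ring

lemma f_mk (t : K) (v : Fin 3 → K) (hv : v ≠ 0) :
    f t (Projectivization.mk K v hv) = Projectivization.mk K (F t v) (F_ne t hv) := by
  obtain ⟨c, hc⟩ := Projectivization.exists_smul_eq_mk_rep K v hv
  unfold f
  rw [Projectivization.mk_eq_mk_iff']
  refine ⟨(c : K) ^ 2, ?_⟩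
  rw [← hc, Units.smul_def, F_smul]

lemma conj_fin (t s : K) (h : Conj t s) : t = 0 ∨ t = 1 ∨ t = s ∨ t = 1 - s := by
  obtain ⟨A, κ, -, hA⟩ := h
  set w : Fin 3 → K := ![t, 0, 1]
  set u : Fin 3 → K := ![1, 0, 0]
  have hw : F t w = w := by
    funext i
    fin_cases i <;> simp [F, w]
  have hwu : F t (w + u) = F t w + F t u + (2 * t) • u := by
    funext i
    fin_cases i <;> simp [F, w, u]
    ring
  set v := A.symm w
  set r := A.symm u
  have hv : A v = w := A.apply_symm_apply w
  have hr : A r = u := A.apply_symm_apply u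
  have hr0 : r ≠ 0 := by
    intro h
    rw [h, map_zero] at hr
    simpa [u] using congrFun hr 0
  have e1 : κ • F s v = v := by
    apply A.injective
    rw [map_smul, ← hA, hv, hw]
  have e2 : κ • F s (v + r) = κ • F s v + κ • F s r + (2 * t) • r := by
    apply A.injective
    rw [map_add, map_add, map_smul, map_smul, map_smul, map_smul, ← hA, ← hA, ← hA, map_add, hv, hr,
      hwu]
  have a0 := congrFun e1 0
  have a1 := congrFun e1 1
  have a2 := congrFun e1 2
  have b0 := congrFun e2 0
  have b1 := congrFun e2 1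
  have b2 := congrFun e2 2
  simp only [F, Pi.smul_apply, Pi.add_apply, smul_eq_mul, Matrix.cons_val_zero, Matrix.cons_val_one,
    Matrix.cons_val_two, Matrix.head_cons, Matrix.tail_cons] at a0 a1 a2 b0 b1 b2
  have c2 : (κ * v 2 - t) * r 2 = 0 := by linear_combination (1 / 2 : K) * b2
  have c1 : (κ * v 1 - t) * r 1 = 0 := by linear_combination (1 / 2 : K) * b1
  have c0 : (κ * v 0 - t) * r 0 + (s - s ^ 2) * (κ * v 2) * r 2 = 0 := by
    linear_combination (1 / 2 : K) * b0
  have d2 : (κ * v 2) * (κ * v 2 - 1) = 0 := by linear_combination κ * a2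
  have d1 : (κ * v 1) * (κ * v 1 - 1) = 0 := by linear_combination κ * a1
  have d0 : (κ * v 0) ^ 2 + (s - s ^ 2) * (κ * v 2) ^ 2 = κ * v 0 := by linear_combination κ * a0
  by_cases h2 : r 2 = 0
  · by_cases h1 : r 1 = 0
    · have h0 : r 0 ≠ 0 := by
        intro h0
        apply hr0
        funext i
        fin_cases i <;> simp [h0, h1, h2]
      rw [h2, mul_zero, add_zero] at c0
      have ht : κ * v 0 = t := sub_eq_zero.1 ((mul_eq_zero.1 c0).resolve_right h0)
      rw [ht] at d0
      rcases mul_eq_zero.1 d2 with h | h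
      · rw [h] at d0
        have : t * (t - 1) = 0 := by linear_combination d0
        rcases mul_eq_zero.1 this with h | h
        · exact Or.inl h
        · exact Or.inr (Or.inl (sub_eq_zero.1 h))
      · rw [sub_eq_zero.1 h] at d0
        have : (t - s) * (t - (1 - s)) = 0 := by linear_combination d0
        rcases mul_eq_zero.1 this with h | h
        · exact Or.inr (Or.inr (Or.inl (sub_eq_zero.1 h)))
        · exact Or.inr (Or.inr (Or.inr (sub_eq_zero.1 h)))
    · have ht : κ * v 1 = t := sub_eq_zero.1 ((mul_eq_zero.1 c1).resolve_right h1)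
      rw [ht] at d1
      rcases mul_eq_zero.1 d1 with h | h
      · exact Or.inl h
      · exact Or.inr (Or.inl (sub_eq_zero.1 h))
  · have ht : κ * v 2 = t := sub_eq_zero.1 ((mul_eq_zero.1 c2).resolve_right h2)
    rw [ht] at d2
    rcases mul_eq_zero.1 d2 with h | h
    · exact Or.inl h
    · exact Or.inr (Or.inl (sub_eq_zero.1 h))

/-- The first-coordinate map. -/
noncomputable def g (t x : K) : K := x ^ 2 + (t - t ^ 2)

lemma vec_ne (x y : K) : (![x, y, 1] : Fin 3 → K) ≠ 0 := by
  intro h
  simpa using congrFun h 2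

/-- The affine point `[x : y : 1]`. -/
noncomputable def pt (x y : K) : P2 := Projectivization.mk K ![x, y, 1] (vec_ne x y)

lemma f_pt (t x y : K) : f t (pt x y) = pt (g t x) (y ^ 2) := by
  unfold pt
  rw [f_mk]
  congr 1
  funext i
  fin_cases i <;> simp [F, g]

lemma iter_pt (t x y : K) (m : ℕ) : (f t)^[m] (pt x y) = pt ((g t)^[m] x) (y ^ 2 ^ m) := by
  induction m with
  | zero => simp
  | succ m ih =>
    rw [Function.iterate_succ_apply', ih, f_pt, Function.iterate_succ_apply', ← pow_mul, pow_succ]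

lemma pt_inj {x y y' : K} (h : pt x y = pt x y') : y = y' := by
  unfold pt at h
  rw [Projectivization.mk_eq_mk_iff'] at h
  obtain ⟨c, hc⟩ := h
  have h1 := congrFun hc 1
  have h2 := congrFun hc 2
  simp at h1 h2
  rw [h2, one_mul] at h1
  exact h1.symm

lemma isInt (x : K) : IsIntegral ℚ x := by
  have h := (AlgebraicClosure.isAlgebraic ℚ).isAlgebraic x
  have h2 : IsAlgebraic ℚ x := by
    convert h
    · rfl
    · exact Subsingleton.elim _ _
  exact h2.isIntegral

lemma deg_pt (x : K) (y : ℚ) : deg (pt x (y : K)) ≤ Module.finrank ℚ ℚ⟮x⟯ := by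
  have hx : IsIntegral ℚ x := isInt x
  have : FiniteDimensional ℚ ℚ⟮x⟯ := adjoin.finiteDimensional hx
  obtain ⟨c, hc⟩ := Projectivization.exists_smul_eq_mk_rep K ![x, (y : K), 1] (vec_ne x y)
  unfold deg
  refine IntermediateField.finrank_le_of_le_right ?_
  rw [adjoin_le_iff]
  rintro _ ⟨⟨i, j⟩, rfl⟩
  have hmem : ∀ i : Fin 3, (![x, (y : K), 1] : Fin 3 → K) i ∈ ℚ⟮x⟯ := by
    intro i
    fin_cases i
    · exact mem_adjoin_simple_self ℚ x
    · simp
    · simp
  have hrep : (pt x y).rep = (c : K) • ![x, (y : K), 1] := by rw [pt, ← hc, Units.smul_def]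
  simp only [hrep, Pi.smul_apply, smul_eq_mul]
  rw [mul_div_mul_left _ _ c.ne_zero]
  exact div_mem (hmem i) (hmem j)

lemma exists_chain (p : ℚ) (k : ℕ) :
    ∃ x : K, Module.finrank ℚ ℚ⟮x⟯ ≤ 2 ^ k ∧ (g (p : K))^[k] x = -(p : K) := by
  have hsurj : Function.Surjective (g (p : K)) := by
    intro y
    obtain ⟨u, hu⟩ := IsAlgClosed.exists_pow_nat_eq (y - ((p : K) - (p : K) ^ 2)) (n := 2) (by norm_num)
    exact ⟨u, by simp [g, hu]⟩
  obtain ⟨x, hx⟩ := (hsurj.iterate k) (-(p : K))
  refine ⟨x, ?_, hx⟩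
  have hP : ∀ k : ℕ, ∃ P : ℚ[X], P.Monic ∧ P.natDegree = 2 ^ k ∧
      ∀ z : K, aeval z P = (g (p : K))^[k] z := by
    intro k
    induction k with
    | zero => exact ⟨X, monic_X, by simp, by simp⟩
    | succ k ih =>
      obtain ⟨P, h1, h2, h3⟩ := ih
      have hd : (P ^ 2).natDegree = 2 ^ (k + 1) := by rw [h1.natDegree_pow, h2]; ring
      have hlt : (C (p - p ^ 2)).degree < (P ^ 2).degree := by
        apply degree_lt_degree
        rw [hd, natDegree_C]
        positivity
      refine ⟨P ^ 2 + C (p - p ^ 2), (h1.pow 2).add_of_left hlt, ?_, fun z => ?_⟩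
      · rw [natDegree_add_C, hd]
      · rw [Function.iterate_succ_apply', ← h3]
        simp [g]
  obtain ⟨P, h1, h2, h3⟩ := hP k
  have hxi : IsIntegral ℚ x := isInt x
  rw [adjoin.finrank hxi]
  have hlt : (C p).degree < P.degree := by
    apply degree_lt_degree
    rw [h2, natDegree_C]
    positivity
  have hm : (P + C p).Monic := h1.add_of_left hlt
  have hz : aeval x (P + C p) = 0 := by simp [h3, hx]
  have := natDegree_le_natDegree (minpoly.min ℚ x hm hz)
  rwa [natDegree_add_C, h2] at this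

lemma g_fix (t : K) (m : ℕ) : (g t)^[m] t = t :=
  Function.iterate_fixed (by simp [g]) m

lemma g_neg (t : K) (m : ℕ) (hm : 0 < m) : (g t)^[m] (-t) = t := by
  obtain ⟨m, rfl⟩ := Nat.exists_eq_succ_of_ne_zero hm.ne'
  rw [Function.iterate_succ_apply]
  have : g t (-t) = t := by simp [g]
  rw [this, g_fix]

/-- Dehomogenisation into an iterated polynomial ring. -/
noncomputable def deh (G : MvPolynomial (Fin 3) K[X]) : K[X][X][X] :=
  MvPolynomial.aeval ![C X, X, 1] G

lemma deh_eval (G : MvPolynomial (Fin 3) K[X]) (t x y : K) :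
    ((deh G).map (eval₂RingHom (evalRingHom t) x)).eval y =
      MvPolynomial.eval₂ (evalRingHom t) ![x, y, 1] G := by
  induction G using MvPolynomial.induction_on with
  | C c => simp [deh]
  | add p q hp hq =>
    simp only [deh, map_add, Polynomial.map_add, eval_add, MvPolynomial.eval₂_add] at hp hq ⊢
    rw [hp, hq]
  | mul_X p i hp =>
    simp only [deh, map_mul, Polynomial.map_mul, eval_mul, MvPolynomial.eval₂_mul,
      MvPolynomial.eval₂_X, MvPolynomial.aeval_X] at hp ⊢
    rw [hp]
    fin_cases i <;> simp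

lemma hom_smul (G : MvPolynomial (Fin 3) K[X]) (m : ℕ) (hG : G.IsHomogeneous m) (t c : K)
    (v : Fin 3 → K) : MvPolynomial.eval₂ (evalRingHom t) (c • v) G =
      c ^ m * MvPolynomial.eval₂ (evalRingHom t) v G := by
  rw [MvPolynomial.eval₂_eq', MvPolynomial.eval₂_eq', Finset.mul_sum]
  refine Finset.sum_congr rfl fun d hd => ?_
  have h := hG (MvPolynomial.mem_support_iff.1 hd)
  simp only [Pi.smul_apply, smul_eq_mul, mul_pow, Finset.prod_mul_distrib, Finset.prod_pow_eq_pow_sum]
  have : ∑ i, d i = m := by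
    rw [← h, Finsupp.weight_apply, Finsupp.sum_fintype] <;> simp
  rw [this]
  ring

lemma deh_ne (G : MvPolynomial (Fin 3) K[X]) (m : ℕ) (hG : G.IsHomogeneous m) (t : K)
    (v : Fin 3 → K) (hv : MvPolynomial.eval₂ (evalRingHom t) v G ≠ 0) : deh G ≠ 0 := by
  intro h0
  apply hv
  have h1 : ∀ x y : K, MvPolynomial.eval₂ (evalRingHom t) ![x, y, 1] G = 0 := by
    intro x y
    rw [← deh_eval, h0]
    simp
  have h2 : MvPolynomial.X 2 * MvPolynomial.map (evalRingHom t) G = 0 := by
    apply MvPolynomial.funext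
    intro w
    rw [map_mul, MvPolynomial.eval_X, MvPolynomial.eval_map, map_zero]
    by_cases hw : w 2 = 0
    · rw [hw, zero_mul]
    · have : w = w 2 • ![w 0 / w 2, w 1 / w 2, 1] := by
        funext i
        fin_cases i <;> simp <;> field_simp
      rw [this, hom_smul G m hG, h1]
      simp
  have h3 := (mul_eq_zero.1 h2).resolve_left (MvPolynomial.X_ne_zero _)
  rw [← MvPolynomial.eval_map, h3, map_zero]

theorem main (V : Set (K × P2)) (hV : ZClosed V) (hne : V ≠ Set.univ) :
    ∃ D : ℕ, 1 ≤ D ∧ ∀ C : ℕ, ∃ t : K, Module.finrank ℚ ℚ⟮t⟯ ≤ D ∧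
      (C : ℕ∞) < {x | x ∈ preim t D ∧ (t, x) ∉ V}.encard := by
  classical
  obtain ⟨S, hS, rfl⟩ := hV
  obtain ⟨q, hq⟩ := (Set.ne_univ_iff_exists_notMem _).1 hne
  simp only [Set.mem_ofPred_eq, not_forall] at hq
  obtain ⟨G, hGS, hq⟩ := hq
  obtain ⟨m, hm⟩ := hS G hGS
  have hQ := deh_ne G m hm _ _ hq
  set Q := deh G
  set R := Q.leadingCoeff
  have hR : R ≠ 0 := leadingCoeff_ne_zero.2 hQ
  set T := R.leadingCoeff
  have hT : T ≠ 0 := leadingCoeff_ne_zero.2 hR
  set k := R.natDegree
  set e := Q.natDegree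
  refine ⟨2 ^ k, Nat.one_le_two_pow, fun C => ?_⟩
  have hinj : Function.Injective fun n : ℕ => ((2 : K) ^ 2 ^ n) := by
    intro a b h
    have h' : ((2 ^ 2 ^ a : ℕ) : K) = ((2 ^ 2 ^ b : ℕ) : K) := by simpa using h
    have h2 := Nat.cast_injective h'
    exact Nat.pow_right_injective le_rfl (Nat.pow_right_injective le_rfl h2)
  obtain ⟨n, hn, hnT⟩ : ∃ n : ℕ, C + e + k + 1 ≤ n ∧ T.eval ((2 : K) ^ 2 ^ n) ≠ 0 := by
    have hfin : ((fun n : ℕ => ((2 : K) ^ 2 ^ n)) ⁻¹' (T.roots.toFinset : Set K)).Finite :=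
      (Finset.finite_toSet _).preimage hinj.injOn
    obtain ⟨n, hn1, hn2⟩ := (Set.Ici_infinite (C + e + k + 1)).exists_notMem_finite hfin
    refine ⟨n, hn1, fun h => hn2 ?_⟩
    simp only [Set.mem_preimage, Finset.mem_coe, Multiset.mem_toFinset, mem_roots hT]
    exact h
  set p : ℚ := 2 ^ 2 ^ n
  have hp : (p : K) = (2 : K) ^ 2 ^ n := by simp [p]
  have hp0 : (p : K) ≠ 0 := by rw [hp]; exact pow_ne_zero _ two_ne_zero
  choose xs hxs1 hxs2 using exists_chain p
  have hxinj : Function.Injective xs := by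
    have aux : ∀ i j, i < j → xs i ≠ xs j := by
      intro i j hij h
      have h1 := hxs2 j
      obtain ⟨d, rfl⟩ := Nat.exists_eq_add_of_lt hij
      rw [← h, show i + d + 1 = (d + 1) + i by ring, Function.iterate_add_apply, hxs2,
        g_neg _ _ (Nat.succ_pos d)] at h1
      apply hp0
      linear_combination (1 / 2 : K) * h1
    intro i j h
    rcases lt_trichotomy i j with hij | hij | hij
    · exact absurd h (aux i j hij)
    · exact hij
    · exact absurd h.symm (aux j i hij)
  set Rp := R.map (evalRingHom (p : K))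
  have hRp : Rp ≠ 0 := by
    intro h
    apply hnT
    have := congrArg (fun P => coeff P k) h
    have h2 : T = R.coeff k := rfl
    rw [h2]
    simpa [Rp, coeff_map, ← hp] using this
  obtain ⟨i, hi, hxi⟩ : ∃ i, i ≤ k ∧ Rp.eval (xs i) ≠ 0 := by
    by_contra hcon
    push Not at hcon
    have hsub : (Finset.range (k + 1)).image xs ⊆ Rp.roots.toFinset := by
      intro z hz
      obtain ⟨i, hi, rfl⟩ := Finset.mem_image.1 hz
      simp only [Multiset.mem_toFinset, mem_roots hRp]
      exact hcon i (by simpa [Nat.lt_succ_iff] using hi)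
    have h1 := Finset.card_le_card hsub
    rw [Finset.card_image_of_injective _ hxinj, Finset.card_range] at h1
    have h2 : Rp.roots.toFinset.card ≤ k :=
      (Multiset.toFinset_card_le _).trans ((card_roots' _).trans natDegree_map_le)
    omega
  set Qp := Q.map (eval₂RingHom (evalRingHom (p : K)) (xs i))
  have hQp : Qp ≠ 0 := by
    intro h
    apply hxi
    have := congrArg (fun P => coeff P e) h
    have h2 : R = Q.coeff e := rfl
    simp only [Rp, h2]
    simpa [Qp, coeff_map, eval_map] using this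
  refine ⟨(p : K), ?_, ?_⟩
  · have : Module.finrank ℚ ℚ⟮(p : K)⟯ = 1 := by
      rw [finrank_adjoin_simple_eq_one_iff]
      simp
    rw [this]
    exact Nat.one_le_two_pow
  · set J := ((Finset.range (C + e + 1)).image fun j : ℕ => ((2 : K) ^ 2 ^ j)) \ Qp.roots.toFinset
    have hJ : C + 1 ≤ J.card := by
      have h1 := Finset.le_card_sdiff Qp.roots.toFinset
        ((Finset.range (C + e + 1)).image fun j : ℕ => ((2 : K) ^ 2 ^ j))
      rw [Finset.card_image_of_injective _ hinj, Finset.card_range] at h1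
      change _ ≤ J.card at h1
      have h2 : Qp.roots.toFinset.card ≤ e :=
        (Multiset.toFinset_card_le _).trans ((card_roots' _).trans natDegree_map_le)
      omega
    have hsub : pt (xs i) '' (J : Set K) ⊆ {x | x ∈ preim (p : K) (2 ^ k) ∧ ((p : K), x) ∉
        {p : K × P2 | ∀ G ∈ S, MvPolynomial.eval₂ (evalRingHom p.1) p.2.rep G = 0}} := by
      rintro _ ⟨y, hy, rfl⟩
      simp only [J, Finset.coe_sdiff, Set.mem_sdiff, Finset.mem_coe, Finset.mem_image,
        Finset.mem_range, Multiset.mem_toFinset, mem_roots hQp] at hy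
      obtain ⟨⟨j, hj, rfl⟩, hroot⟩ := hy
      refine ⟨⟨?_, n - j, ?_⟩, fun h => hroot ?_⟩
      · have h1 := deg_pt (xs i) (2 ^ 2 ^ j)
        have h2 : (((2 : ℚ) ^ 2 ^ j : ℚ) : K) = (2 : K) ^ 2 ^ j := by simp
        rw [h2] at h1
        exact h1.trans ((hxs1 i).trans (Nat.pow_le_pow_right (by norm_num) hi))
      · rw [iter_pt, show n - j = (n - j - i) + i by omega, Function.iterate_add_apply, hxs2,
          g_neg _ _ (by omega), ← pow_mul, ← pow_add, show j + (n - j - i + i) = n by omega, ← hp]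
        rfl
      · have h1 := h G hGS
        obtain ⟨c, hc⟩ := Projectivization.exists_smul_eq_mk_rep K ![xs i, (2 : K) ^ 2 ^ j, 1]
          (vec_ne _ _)
        simp only [pt, ← hc, Units.smul_def] at h1
        rw [hom_smul G m hm, ← deh_eval] at h1
        exact (mul_eq_zero.1 h1).resolve_left (pow_ne_zero _ c.ne_zero)
    have hc := Set.encard_le_encard hsub
    rw [Set.InjOn.encard_image (fun y _ y' _ h => pt_inj h), Set.encard_coe_eq_coe_finsetCard] at hc
    refine lt_of_lt_of_le ?_ hc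
    exact_mod_cast hJ

end H49.Preim
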