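import Mathlib

set_option autoImplicit false

namespace H49.Preim

open Polynomial

/-- The field of algebraic numbers. -/
abbrev K : Type := AlgebraicClosure ℚ

/-- `ℙ²(K)`. -/
abbrev P2 : Type := Projectivization K (Fin 3 → K)

/-- Homogeneous lift `(x² + (t - t²) z², y², z²)` of the member `f_t` of the family. -/
noncomputable def F (t : K) (v : Fin 3 → K) : Fin 3 → K :=
  ![v 0 ^ 2 + (t - t ^ 2) * v 2 ^ 2, v 1 ^ 2, v 2 ^ 2]

/-- The three forms have no common zero: `f_t` is an endomorphism of `ℙ²` of degree `2`. -/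
theorem F_ne (t : K) {v : Fin 3 → K} (hv : v ≠ 0) : F t v ≠ 0 := by
  intro h
  apply hv
  have h0 := congrFun h 0
  have h1 := congrFun h 1
  have h2 := congrFun h 2
  simp [F] at h0 h1 h2
  rw [h2] at h0
  simp at h0
  funext i
  fin_cases i <;> simp [h0, h1, h2]

/-- The endomorphism `f_t = [x² + (t - t²) z² : y² : z²]` of `ℙ²`. -/
noncomputable def f (t : K) (x : P2) : P2 :=
  Projectivization.mk K (F t x.rep) (F_ne t x.rep_nonzero)

/-- The marked point `a_t = [t : t : 1]`. -/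
noncomputable def a (t : K) : P2 :=
  Projectivization.mk K ![t, t, 1] (by intro h; simpa using congrFun h 2)

/-- `f_t` and `f_s` are conjugate under `PGL₃(K)`. -/
def Conj (t s : K) : Prop :=
  ∃ (A : (Fin 3 → K) ≃ₗ[K] (Fin 3 → K)) (κ : K), κ ≠ 0 ∧ ∀ v, F t (A v) = κ • A (F s v)

/-- The degree `[ℚ(x) : ℚ]` of a point of `ℙ²(K)`: `ℚ(x)` is generated by the coordinate ratios. -/
noncomputable def deg (x : P2) : ℕ :=
  Module.finrank ℚ (IntermediateField.adjoin ℚ (Set.range fun q : Fin 3 × Fin 3 =>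
    x.rep q.1 / x.rep q.2))

/-- `Preim(f_t, a_t, D)`. -/
def preim (t : K) (D : ℕ) : Set P2 := {x | deg x ≤ D ∧ ∃ n : ℕ, (f t)^[n] x = a t}

/-- Zariski-closed subsets of `𝔸¹ × ℙ²` over `K`: common zeros of polynomials in `K[t][x, y, z]`
that are homogeneous in `x, y, z`. -/
def ZClosed (V : Set (K × P2)) : Prop :=
  ∃ S : Set (MvPolynomial (Fin 3) K[X]), (∀ G ∈ S, ∃ m, G.IsHomogeneous m) ∧
    V = {p | ∀ G ∈ S, MvPolynomial.eval₂ (evalRingHom p.1) p.2.rep G = 0}

end H49.Preim
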