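import Mathlib

set_option autoImplicit false

namespace Pool.Agent.H49.RP

open Filter Topology

section Defs

variable {A : Type}

/-- The realisations of a word under one application of `ϑ`. -/
def App (ϑ : A → Finset (List A)) (u : List A) : Set (List A) :=
  {w | ∃ L : List (List A), List.Forall₂ (fun a v => v ∈ ϑ a) u L ∧ w = L.flatten}

/-- The realisations of a word under `ϑ ^ n`. -/
def Pow (ϑ : A → Finset (List A)) : ℕ → List A → Set (List A)
  | 0, u => {u}
  | n + 1, u => {w | ∃ v ∈ Pow ϑ n u, w ∈ App ϑ v}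

/-- Legal words. -/
def Legal (ϑ : A → Finset (List A)) (w : List A) : Prop :=
  ∃ n, 1 ≤ n ∧ ∃ a, ∃ v ∈ Pow ϑ n [a], w <:+: v

/-- The block of length `n` of `x` starting at `i`. -/
def win (x : ℤ → A) (i : ℤ) (n : ℕ) : List A := (List.range n).map fun j : ℕ => x (i + j)

/-- The random substitution subshift. -/
def RS (ϑ : A → Finset (List A)) : Set (ℤ → A) := {x | ∀ i n, Legal ϑ (win x i n)}

/-- The left shift. -/
def sh (x : ℤ → A) : ℤ → A := fun i => x (i + 1)

theorem App.append {ϑ : A → Finset (List A)} {u u' w w' : List A} (h : w ∈ App ϑ u)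
    (h' : w' ∈ App ϑ u') : w ++ w' ∈ App ϑ (u ++ u') := by
  obtain ⟨L, hL, rfl⟩ := h
  obtain ⟨L', hL', rfl⟩ := h'
  exact ⟨L ++ L', List.rel_append hL hL', by simp⟩

theorem Pow.append {ϑ : A → Finset (List A)} (n : ℕ) {u u' w w' : List A} (h : w ∈ Pow ϑ n u)
    (h' : w' ∈ Pow ϑ n u') : w ++ w' ∈ Pow ϑ n (u ++ u') := by
  induction n generalizing w w' with
  | zero => rw [show w = u from h, show w' = u' from h']; rfl
  | succ n ih =>
    obtain ⟨v, hv, h⟩ := h
    obtain ⟨v', hv', h'⟩ := h'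
    exact ⟨_, ih hv hv', App.append h h'⟩

theorem Pow.step {ϑ : A → Finset (List A)} (n : ℕ) {a : A} {v w : List A} (hv : v ∈ ϑ a)
    (h : w ∈ Pow ϑ n v) : w ∈ Pow ϑ (n + 1) [a] := by
  induction n generalizing w with
  | zero =>
    rw [show w = v from h]
    exact ⟨[a], rfl, [v], by simpa using hv, by simp⟩
  | succ n ih =>
    obtain ⟨u, hu, h⟩ := h
    exact ⟨u, ih hu, h⟩

theorem win_sh (x : ℤ → A) (i : ℤ) (n : ℕ) : win (sh x) i n = win x (i + 1) n := by
  simp only [win, sh]; congr 1; funext j; congr 1; ring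

theorem win_succ (x : ℤ → A) (i : ℤ) (n : ℕ) : win x i (n + 1) = win x i n ++ [x (i + n)] := by
  simp [win, List.range_succ]

theorem win_len (x : ℤ → A) (i : ℤ) (n : ℕ) : (win x i n).length = n := by simp [win]

end Defs

/-- the random Fibonacci substitution -/
def fib (a : Fin 2) : Finset (List (Fin 2)) := if a = 0 then {[0, 1], [1, 0]} else {[0]}

def lt (b : Fin 4) : Fin 2 := if b = 1 ∨ b = 2 then 1 else 0

def lab (b : Fin 4) : ℝ := if b = 1 then 1 else if b = 3 then -1 else 0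

def W : ℕ → (Bool → List (Fin 4)) × (Bool → List (Fin 4)) × (Bool → List (Fin 4))
  | 0 => (fun e => if e then [0, 1] else [2, 3], fun e => if e then [0, 1] else [2, 3],
      fun _ => [0])
  | k + 1 => (fun e => (W k).1 e ++ (W k).2.2 e, fun e => (W k).1 e ++ (W k).2.2 (!e), (W k).2.1)

def Lev (k : ℕ) (w : List (Fin 4)) : Prop :=
  ∃ e, w = (W k).1 e ∨ w = (W k).2.1 e ∨ w = (W k).2.2 e

theorem Lev.split {k : ℕ} {w : List (Fin 4)} (h : Lev (k + 1) w) :
    Lev k w ∨ ∃ u v, Lev k u ∧ Lev k v ∧ w = u ++ v := by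
  obtain ⟨e, h | h | h⟩ := h
  · exact Or.inr ⟨_, _, ⟨e, Or.inl rfl⟩, ⟨e, Or.inr (Or.inr rfl)⟩, h⟩
  · exact Or.inr ⟨_, _, ⟨e, Or.inl rfl⟩, ⟨!e, Or.inr (Or.inr rfl)⟩, h⟩
  · exact Or.inl ⟨e, Or.inr (Or.inl h)⟩

theorem W_pow (k : ℕ) : ∀ e, ((W k).1 e).map lt ∈ Pow fib (k + 1) [0] ∧
    ((W k).2.1 e).map lt ∈ Pow fib (k + 1) [0] ∧ ((W k).2.2 e).map lt ∈ Pow fib (k + 1) [1] := by
  induction k with
  | zero =>
    have h : ∀ e : Bool, (if e then [0, 1] else [2, 3] : List (Fin 4)).map lt ∈ fib 0 := by decide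
    exact fun e => ⟨Pow.step 0 (h e) rfl, Pow.step 0 (h e) rfl,
      Pow.step 0 (v := [0]) (by decide) rfl⟩
  | succ k ih =>
    intro e
    refine ⟨Pow.step _ (v := [0, 1]) (by decide) ?_, Pow.step _ (v := [0, 1]) (by decide) ?_,
      Pow.step _ (v := [0]) (by decide) (ih e).2.1⟩
    · simp only [W, List.map_append]; exact Pow.append _ (ih e).1 (ih e).2.2
    · simp only [W, List.map_append]; exact Pow.append _ (ih e).1 (ih (!e)).2.2

theorem Lev.legal {k : ℕ} {w u : List (Fin 4)} (h : Lev k w) (hu : u <:+: w) :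
    Legal fib (u.map lt) := by
  obtain ⟨e, h | h | h⟩ := h <;> subst h
  · exact ⟨k + 1, by omega, 0, _, (W_pow k e).1, hu.map lt⟩
  · exact ⟨k + 1, by omega, 0, _, (W_pow k e).2.1, hu.map lt⟩
  · exact ⟨k + 1, by omega, 1, _, (W_pow k e).2.2, hu.map lt⟩

theorem Lev.len_le {k : ℕ} {w : List (Fin 4)} (h : Lev k w) : w.length ≤ 2 ^ (k + 1) := by
  induction k generalizing w with
  | zero => obtain ⟨e, h | h | h⟩ := h <;> subst h <;> cases e <;> simp [W]
  | succ k ih =>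
    rcases h.split with h | ⟨u, v, hu, hv, rfl⟩
    · have := ih h; rw [pow_succ]; omega
    · have := ih hu; have := ih hv; rw [List.length_append, pow_succ]; omega

theorem infix_bd (Φ : List (Fin 4) → ℝ) (h1 : ∀ u v, Φ (u ++ v) ≤ Φ u + Φ v)
    (h2 : ∀ w, Φ w ≤ w.length) {ε : ℝ} (hε : 0 ≤ ε) (j : ℕ)
    (h3 : ∀ k, j ≤ k → ∀ w, Lev k w → Φ w ≤ ε * w.length) {k : ℕ} {w u : List (Fin 4)}
    (h : Lev k w) (hu : u <:+: w) : Φ u ≤ ε * u.length + 2 * 2 ^ (j + 1) := by
  have small : ∀ k w, Lev k w → k ≤ j → ∀ u : List (Fin 4), u.length ≤ w.length →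
      Φ u ≤ ε * u.length + 2 ^ (j + 1) := fun k w h hk u hu => by
    have a : u.length ≤ 2 ^ (j + 1) :=
      (hu.trans h.len_le).trans (Nat.pow_le_pow_right (by norm_num) (by omega))
    have b : (u.length : ℝ) ≤ 2 ^ (j + 1) := by exact_mod_cast a
    have := h2 u
    have : 0 ≤ ε * u.length := by positivity
    linarith
  have ps : ∀ k w, Lev k w → ∀ p s, w = p ++ s →
      Φ p ≤ ε * p.length + 2 ^ (j + 1) ∧ Φ s ≤ ε * s.length + 2 ^ (j + 1) := by
    intro k
    induction k with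
    | zero =>
      intro w h p s e
      exact ⟨small 0 w h (by omega) p (by simp [e]), small 0 w h (by omega) s (by simp [e])⟩
    | succ k ih =>
      intro w h p s e
      by_cases hk : k + 1 ≤ j
      · exact ⟨small _ w h hk p (by simp [e]), small _ w h hk s (by simp [e])⟩
      rcases h.split with h | ⟨u, v, hu, hv, rfl⟩
      · exact ih w h p s e
      have a := h3 k (by omega) u hu
      have b := h3 k (by omega) v hv
      rcases List.append_eq_append_iff.mp e with ⟨c, rfl, rfl⟩ | ⟨c, rfl, rfl⟩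
      · have := ih _ hv c s rfl
        refine ⟨?_, this.2⟩
        have := h1 u c
        rw [List.length_append]; push_cast; linarith
      · have := ih _ hu p c rfl
        refine ⟨this.1, ?_⟩
        have := h1 c v
        rw [List.length_append]; push_cast; linarith
  have pos : (0 : ℝ) ≤ 2 ^ (j + 1) := by positivity
  induction k generalizing w with
  | zero => linarith [small 0 w h (by omega) u hu.length_le]
  | succ k ih =>
    rcases h.split with h | ⟨a, b, ha, hb, rfl⟩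
    · exact ih h hu
    rcases List.infix_append_iff.mp hu with h | h | ⟨c, d, rfl, ⟨x, hx⟩, ⟨y, hy⟩⟩
    · exact ih ha h
    · exact ih hb h
    · have := (ps k a ha x c hx.symm).2
      have := (ps k b hb d y hy.symm).1
      have := h1 c d
      rw [List.length_append]; push_cast; linarith

noncomputable def E (z : ℂ) : List (Fin 4) → ℂ
  | [] => 0
  | b :: w => lab b + z * E z w

theorem E_append (z : ℂ) (u v : List (Fin 4)) : E z (u ++ v) = E z u + z ^ u.length * E z v := by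
  induction u with
  | nil => simp [E]
  | cons b u ih => simp only [List.cons_append, E, ih, List.length_cons]; ring

theorem lab_le (b : Fin 4) : |lab b| ≤ 1 := by unfold lab; split_ifs <;> simp

theorem E_le {z : ℂ} (hz : ‖z‖ = 1) (w : List (Fin 4)) : ‖E z w‖ ≤ w.length := by
  induction w with
  | nil => simp [E]
  | cons b u ih =>
    refine (norm_add_le _ _).trans ?_
    rw [norm_mul, hz, Complex.norm_real, Real.norm_eq_abs, List.length_cons]
    push_cast; linarith [lab_le b]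

theorem W_len (k : ℕ) : ∃ a b : ℕ, (3 / 2 : ℝ) ^ (k + 1) ≤ a ∧ (3 / 2 : ℝ) ^ k ≤ b ∧
    ∀ e, ((W k).1 e).length = a ∧ ((W k).2.1 e).length = a ∧ ((W k).2.2 e).length = b := by
  induction k with
  | zero => exact ⟨2, 1, by norm_num, by norm_num, fun e => by cases e <;> simp [W]⟩
  | succ k ih =>
    obtain ⟨a, b, h1, h2, h⟩ := ih
    refine ⟨a + b, a, ?_, h1, fun e => ?_⟩
    · push_cast
      have : (0 : ℝ) < (3 / 2) ^ k := by positivity
      rw [pow_succ] at h1
      rw [pow_succ, pow_succ]; linarith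
    · simp [W, (h e).1, (h e).2.1, (h e).2.2, (h (!e)).2.2]

theorem Lev.len_ge {k : ℕ} {w : List (Fin 4)} (h : Lev k w) : (3 / 2 : ℝ) ^ k ≤ w.length := by
  obtain ⟨a, b, h1, h2, h3⟩ := W_len k
  have : (3 / 2 : ℝ) ^ k ≤ (3 / 2) ^ (k + 1) := pow_le_pow_right₀ (by norm_num) (by omega)
  obtain ⟨e, h | h | h⟩ := h <;> subst h
  · rw [(h3 e).1]; linarith
  · rw [(h3 e).2.1]; linarith
  · rw [(h3 e).2.2]; linarith

theorem W_E {z : ℂ} (hz : ‖z‖ = 1) (k : ℕ) : ∃ P P' Q : ℂ,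
    ‖P‖ ^ 2 + ‖P'‖ ^ 2 + ‖Q‖ ^ 2 ≤ 2 * 2 ^ k ∧ ∀ e : Bool,
      E z ((W k).1 e) = (if e then 1 else -1) * P ∧ E z ((W k).2.1 e) = (if e then 1 else -1) * P' ∧
      E z ((W k).2.2 e) = (if e then 1 else -1) * Q := by
  induction k with
  | zero => exact ⟨z, z, 0, by rw [hz]; norm_num, fun e => by cases e <;> simp [W, E, lab]⟩
  | succ k ih =>
    obtain ⟨P, P', Q, h, h'⟩ := ih
    obtain ⟨a, b, -, -, hl⟩ := W_len k
    refine ⟨P + z ^ a * Q, P - z ^ a * Q, P', ?_, fun e => ?_⟩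
    · have := parallelogram_law_with_norm ℂ P (z ^ a * Q)
      rw [norm_mul, norm_pow, hz, one_pow, one_mul] at this
      rw [pow_succ 2 k]
      nlinarith [sq_nonneg ‖P'‖]
    · simp only [W, E_append, (h' e).1, (h' e).2.1, (h' e).2.2, (h' (!e)).2.2, (hl e).1]
      cases e <;> refine ⟨?_, ?_, ?_⟩ <;> simp <;> ring

theorem E_lev {z : ℂ} (hz : ‖z‖ = 1) {ε : ℝ} (hε : 0 < ε) :
    ∃ j, ∀ k, j ≤ k → ∀ w, Lev k w → ‖E z w‖ ≤ ε * w.length := by
  obtain ⟨j, hj⟩ := exists_pow_lt_of_lt_one (show 0 < ε ^ 2 / 2 by positivity)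
    (show (8 / 9 : ℝ) < 1 by norm_num)
  refine ⟨j, fun k hk w h => ?_⟩
  obtain ⟨P, P', Q, h1, h2⟩ := W_E hz k
  have a : ‖E z w‖ ^ 2 ≤ 2 * 2 ^ k := by
    have n : ∀ (e : Bool) (x : ℂ), ‖(if e then 1 else -1) * x‖ = ‖x‖ := fun e x => by
      cases e <;> simp
    obtain ⟨e, h | h | h⟩ := h <;> subst h
    · rw [(h2 e).1, n]; nlinarith [sq_nonneg ‖P'‖, sq_nonneg ‖Q‖]
    · rw [(h2 e).2.1, n]; nlinarith [sq_nonneg ‖P‖, sq_nonneg ‖Q‖]
    · rw [(h2 e).2.2, n]; nlinarith [sq_nonneg ‖P'‖, sq_nonneg ‖P‖]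
  have b := h.len_ge
  have c : (8 / 9 : ℝ) ^ k ≤ (8 / 9) ^ j := pow_le_pow_of_le_one (by norm_num) (by norm_num) hk
  have d : (2 : ℝ) ^ k = (8 / 9) ^ k * ((3 / 2) ^ k) ^ 2 := by
    rw [← pow_mul, mul_comm k, pow_mul, ← mul_pow]; norm_num
  refine (sq_le_sq₀ (norm_nonneg _) (by positivity)).mp ?_
  have e : ((3 / 2 : ℝ) ^ k) ^ 2 ≤ (w.length : ℝ) ^ 2 := by gcongr
  rw [mul_pow]
  calc _ ≤ 2 * ((8 / 9) ^ k * ((3 / 2) ^ k) ^ 2) := by rw [← d]; exact a
    _ ≤ 2 * (ε ^ 2 / 2 * (w.length : ℝ) ^ 2) := by gcongr; linarith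
    _ = _ := by ring

noncomputable def Z (w : List (Fin 4)) : ℝ := (w.map fun b => 1 - |lab b|).sum

theorem Z_append (u v : List (Fin 4)) : Z (u ++ v) = Z u + Z v := by simp [Z]

theorem Z_le (w : List (Fin 4)) : Z w ≤ w.length := by
  induction w with
  | nil => simp [Z]
  | cons b u ih =>
    simp only [Z, List.map_cons, List.sum_cons, List.length_cons] at ih ⊢
    push_cast; linarith [abs_nonneg (lab b)]

theorem Z_lev (k : ℕ) (hk : 1 ≤ k) (w : List (Fin 4)) (h : Lev k w) : Z w ≤ 2 / 3 * w.length := by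
  induction k, hk using Nat.le_induction generalizing w with
  | base => obtain ⟨e, h | h | h⟩ := h <;> subst h <;> cases e <;> simp [W, Z, lab] <;> norm_num
  | succ k _ ih =>
    rcases h.split with h | ⟨u, v, hu, hv, rfl⟩
    · exact ih w h
    · have := ih u hu; have := ih v hv
      rw [Z_append, List.length_append]; push_cast; linarith

end Pool.Agent.H49.RP
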