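import Pool.Agent.H49.RP1
import Pool.Agent.H98.Emp

set_option autoImplicit false

namespace Pool.Agent.H49.RP

open Filter Topology MeasureTheory

def Om : Set (ℤ → Fin 4) := {z | ∀ i n, ∃ k w, Lev k w ∧ win z i n <:+: w}

theorem win_closed {A : Type} [TopologicalSpace A] [DiscreteTopology A] (P : List A → Prop) :
    IsClosed {z : ℤ → A | ∀ i n, P (win z i n)} := by
  simp only [Set.ofPred_forall]
  refine isClosed_iInter fun i => isClosed_iInter fun n => ?_
  have : {z : ℤ → A | P (win z i n)} = (fun z (j : Fin n) => z (i + j)) ⁻¹'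
      {v | P (List.ofFn v)} := by
    ext z
    have : win z i n = List.ofFn fun j : Fin n => z (i + j) :=
      List.ext_getElem (by simp [win]) fun j _ _ => by simp [win]
    simp only [Set.mem_ofPred_eq, Set.mem_preimage, this]
  rw [this]
  exact (isClosed_discrete _).preimage (by fun_prop)

theorem Om_closed : IsClosed Om := win_closed fun u => ∃ k w, Lev k w ∧ u <:+: w

theorem Om_sh {z : ℤ → Fin 4} (h : z ∈ Om) : sh z ∈ Om := fun i n => by
  rw [win_sh]; exact h _ _

theorem sh_cont {A : Type} [TopologicalSpace A] : Continuous (sh : (ℤ → A) → ℤ → A) := by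
  unfold sh; fun_prop

theorem Om_ne : Om.Nonempty := by
  have hl : ∀ m : ℕ, ∃ k w, Lev k w ∧ 2 * m ≤ w.length := fun m => by
    obtain ⟨k, hk⟩ := pow_unbounded_of_one_lt (2 * m : ℝ) (show (1 : ℝ) < 3 / 2 by norm_num)
    have h : Lev k ((W k).1 true) := ⟨true, Or.inl rfl⟩
    exact ⟨k, _, h, by exact_mod_cast hk.le.trans h.len_ge⟩
  choose k w hw hm using hl
  let z : ℕ → ℤ → Fin 4 := fun m i => (w m).getD (i + m).toNat 0
  obtain ⟨x, -, hx⟩ := isCompact_univ.ultrafilter_le_nhds ((hyperfilter ℕ).map z) (by simp)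
  have hx' : Tendsto z (hyperfilter ℕ) (𝓝 x) := hx
  refine ⟨x, fun i n => ?_⟩
  have e1 : ∀ᶠ m in (hyperfilter ℕ : Filter ℕ), ∀ j ∈ Finset.range n, z m (i + j) = x (i + j) :=
    (eventually_all_finset _).mpr fun j _ => by
      have := tendsto_pi_nhds.mp hx' (i + j)
      rwa [nhds_discrete, tendsto_pure] at this
  obtain ⟨m, h1, h2⟩ := (e1.and (Nat.hyperfilter_le_atTop
    (eventually_ge_atTop (i.natAbs + n)))).exists
  have h3 := hm m
  refine ⟨k m, w m, hw m, List.IsInfix.trans (List.IsPrefix.isInfix ?_)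
    (List.drop_suffix (i + m).toNat (w m)).isInfix⟩
  rw [List.prefix_iff_eq_take]
  refine List.ext_getElem (by simp [win]; omega) fun j a b => ?_
  rw [win_len] at a
  simp only [win, List.getElem_map, List.getElem_range, List.getElem_take, List.getElem_drop]
  rw [← h1 j (Finset.mem_range.mpr a)]
  simp only [z]
  rw [show (i + j + m).toNat = (i + m).toNat + j by omega, List.getD_eq_getElem]

def pr (z : ℤ → Fin 4) : ℤ → Fin 2 := fun i => lt (z i)

theorem pr_cont : Continuous pr :=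
  continuous_pi fun i => (continuous_of_discreteTopology (f := lt)).comp (continuous_apply i)

theorem pr_RS {z : ℤ → Fin 4} (h : z ∈ Om) : pr z ∈ RS fib := fun i n => by
  obtain ⟨k, w, h1, h2⟩ := h i n
  have := h1.legal h2
  rwa [win, List.map_map] at this

theorem exists_min {X : Type} [TopologicalSpace X] [CompactSpace X] [T2Space X] {T : X → X}
    (hT : Continuous T) {K : Set X} (h1 : K.Nonempty) (h2 : IsClosed K) (h3 : T '' K ⊆ K) :
    ∃ Y ⊆ K, Y.Nonempty ∧ IsClosed Y ∧ T '' Y = Y ∧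
      ∀ Z ⊆ Y, Z.Nonempty → IsClosed Z → T '' Z ⊆ Z → Z = Y := by
  obtain ⟨Y, hY, ⟨a, b, c⟩, hm⟩ := zorn_superset_nonempty
    {Z : Set X | Z.Nonempty ∧ IsClosed Z ∧ T '' Z ⊆ Z} (fun c hc hch hn => by
      have : Nonempty c := hn.to_subtype
      refine ⟨⋂₀ c, ⟨IsCompact.nonempty_sInter_of_directed_nonempty_isCompact_isClosed
        (fun a ha b hb => (hch.total ha hb).elim (fun h => ⟨a, ha, le_rfl, h⟩)
          fun h => ⟨b, hb, h, le_rfl⟩) (fun U hU => (hc hU).1) (fun U hU => (hc hU).2.1.isCompact)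
        (fun U hU => (hc hU).2.1), isClosed_sInter fun U hU => (hc hU).2.1, ?_⟩,
        fun s hs => Set.sInter_subset_of_mem hs⟩
      rintro _ ⟨x, hx, rfl⟩ U hU
      exact (hc hU).2.2 ⟨x, hx U hU, rfl⟩) K ⟨h1, h2, h3⟩
  have m : ∀ Z ⊆ Y, Z.Nonempty → IsClosed Z → T '' Z ⊆ Z → Z = Y := fun Z h p q r =>
    h.antisymm (hm ⟨p, q, r⟩ h)
  exact ⟨Y, hY, a, b, m _ c (a.image T) (b.isCompact.image hT).isClosed (Set.image_mono c), m⟩

theorem sh_iter {A : Type} (n : ℕ) (z : ℤ → A) (i : ℤ) : sh^[n] z i = z (i + n) := by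
  induction n generalizing i with
  | zero => simp
  | succ n ih => rw [Function.iterate_succ_apply', sh, ih]; congr 1; push_cast; ring

theorem E_win (c : ℂ) (z : ℤ → Fin 4) (N : ℕ) :
    E c (win z 0 N) = ∑ n ∈ Finset.range N, c ^ n * lab (z n) := by
  induction N with
  | zero => simp [win, E]
  | succ N ih => rw [win_succ, E_append, ih, Finset.sum_range_succ, win_len]; simp [E]

theorem Z_win (z : ℤ → Fin 4) (N : ℕ) :
    Z (win z 0 N) = ∑ n ∈ Finset.range N, (1 - |lab (z n)|) := by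
  induction N with
  | zero => simp [win, Z]
  | succ N ih => rw [win_succ, Z_append, ih, Finset.sum_range_succ]; simp [Z]

theorem le_of_lin {a b C : ℝ} (h : ∀ N : ℕ, N * a ≤ b * N + C) : a ≤ b := by
  by_contra hn
  obtain ⟨N, hN⟩ := exists_nat_gt (C / (a - b))
  rw [div_lt_iff₀ (by linarith)] at hN
  linarith [h N]

section Meas

variable {ν : Measure (ℤ → Fin 4)} [IsProbabilityMeasure ν]

theorem lab_cont (i : ℤ) : Continuous fun z : ℤ → Fin 4 => lab (z i) :=
  (continuous_of_discreteTopology (f := lab)).comp (continuous_apply i)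

omit [IsProbabilityMeasure ν] in
theorem int_iter {G : Type} [NormedAddCommGroup G] [NormedSpace ℝ G]
    (hν : MeasurePreserving sh ν ν) {φ : (ℤ → Fin 4) → G} (hφ : AEStronglyMeasurable φ ν) (n : ℕ) :
    ∫ z, φ (sh^[n] z) ∂ν = ∫ z, φ z ∂ν := by
  have h := hν.iterate n
  rw [← integral_map h.measurable.aemeasurable (by rwa [h.map_eq]), h.map_eq]

theorem eig (hν : MeasurePreserving sh ν ν) (hO : ∀ᵐ z ∂ν, z ∈ Om) {H : (ℤ → Fin 4) → ℂ}
    (hH : Integrable H ν) {c : ℂ} (he : ∀ᵐ z ∂ν, H (sh z) = c * H z) :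
    ∫ z, (lab (z 0) : ℂ) * H z ∂ν = 0 := by
  have hi : ∀ i : ℤ, Integrable (fun z => (lab (z i) : ℂ) * H z) ν := fun i =>
    hH.bdd_mul (c := 1) (Complex.continuous_ofReal.comp (lab_cont i)).aestronglyMeasurable
      (Eventually.of_forall fun z => by
        rw [Complex.norm_real, Real.norm_eq_abs]; exact lab_le _)
  set J := ∫ z, ‖H z‖ ∂ν with hJ
  have J0 : 0 ≤ J := integral_nonneg fun _ => norm_nonneg _
  have hc : ‖c‖ * J = J := by
    rw [hJ, ← integral_const_mul]
    refine Eq.trans (integral_congr_ae ?_) (int_iter hν hH.norm.1 1)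
    filter_upwards [he] with z hz
    rw [Function.iterate_one, hz, norm_mul]
  by_cases h0 : J = 0
  · refine norm_le_zero_iff.mp ((norm_integral_le_integral_norm _).trans ?_)
    rw [← h0]
    refine integral_mono (hi 0).norm hH.norm fun z => ?_
    simp only [norm_mul, Complex.norm_real, Real.norm_eq_abs]
    nlinarith [lab_le (z 0), norm_nonneg (H z)]
  have c1 : ‖c‖ = 1 := mul_right_cancel₀ h0 (by rw [hc, one_mul])
  have it : ∀ n : ℕ, ∀ᵐ z ∂ν, H (sh^[n] z) = c ^ n * H z := fun n => by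
    induction n with
    | zero => simp
    | succ n ih =>
      filter_upwards [ih, (hν.iterate n).quasiMeasurePreserving.ae he] with z a b
      rw [Function.iterate_succ_apply', b, a]; ring
  have sum : ∀ N : ℕ, (N : ℂ) * ∫ z, (lab (z 0) : ℂ) * H z ∂ν =
      ∫ z, E c (win z 0 N) * H z ∂ν := fun N => by
    simp only [E_win, Finset.sum_mul, mul_assoc]
    rw [integral_finsetSum _ fun (n : ℕ) _ => (hi n).const_mul _, ← nsmul_eq_mul,
      ← Finset.card_range N, ← Finset.sum_const, Finset.card_range]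
    refine Finset.sum_congr rfl fun n _ => ?_
    rw [← int_iter hν (hi 0).1 n]
    refine integral_congr_ae ?_
    filter_upwards [it n] with z hz
    rw [hz, sh_iter, zero_add]; ring
  refine norm_le_zero_iff.mp (le_of_forall_pos_le_add fun δ hδ => ?_)
  have Jp : 0 < J := lt_of_le_of_ne J0 (Ne.symm h0)
  obtain ⟨j, hj⟩ := E_lev c1 (div_pos hδ Jp)
  rw [zero_add]
  refine le_of_lin (C := 2 * 2 ^ (j + 1) * J) fun N => ?_
  have a := congrArg norm (sum N)
  rw [norm_mul, Complex.norm_natCast] at a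
  rw [a]
  refine (norm_integral_le_of_norm_le (hH.norm.const_mul (δ / J * N + 2 * 2 ^ (j + 1))) ?_).trans ?_
  · filter_upwards [hO] with z hz
    obtain ⟨k, w, h1, h2⟩ := hz 0 N
    have := infix_bd (fun w => ‖E c w‖) (fun u v => by
      rw [E_append]
      refine (norm_add_le _ _).trans ?_
      rw [norm_mul, norm_pow, c1, one_pow, one_mul]) (E_le c1) (div_pos hδ Jp).le j hj h1 h2
    rw [win_len] at this
    rw [norm_mul]; gcongr
  · rw [integral_const_mul, ← hJ]
    field_simp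
    rfl

theorem dens (hν : MeasurePreserving sh ν ν) (hO : ∀ᵐ z ∂ν, z ∈ Om) :
    1 / 3 ≤ ∫ z, |lab (z 0)| ∂ν := by
  have hi : ∀ i : ℤ, Integrable (fun z : ℤ → Fin 4 => 1 - |lab (z i)|) ν := fun i =>
    (continuous_const.sub (lab_cont i).abs).integrable_of_hasCompactSupport
      (HasCompactSupport.of_compactSpace _)
  have : ∫ z, (1 - |lab (z 0)|) ∂ν ≤ 2 / 3 := by
    refine le_of_lin (C := 2 * 2 ^ (1 + 1)) fun N => ?_
    have sum : (N : ℝ) * ∫ z, (1 - |lab (z 0)|) ∂ν = ∫ z, Z (win z 0 N) ∂ν := by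
      simp only [Z_win]
      rw [integral_finsetSum _ fun (n : ℕ) _ => hi n, ← nsmul_eq_mul,
        ← Finset.card_range N, ← Finset.sum_const, Finset.card_range]
      refine Finset.sum_congr rfl fun n _ => ?_
      rw [← int_iter hν (hi 0).1 n]
      simp only [sh_iter, zero_add]
    rw [sum]
    refine (integral_mono_ae (g := fun _ => 2 / 3 * (N : ℝ) + 2 * 2 ^ (1 + 1)) ?_
      (integrable_const _) ?_).trans (by simp)
    · simp only [Z_win]; exact integrable_finsetSum _ fun (n : ℕ) _ => hi n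
    · filter_upwards [hO] with z hz
      obtain ⟨k, w, h1, h2⟩ := hz 0 N
      have := infix_bd Z (fun u v => (Z_append u v).le) Z_le (by norm_num) 1 Z_lev h1 h2
      rwa [win_len] at this
  rw [integral_sub (integrable_const _) ((lab_cont 0).abs.integrable_of_hasCompactSupport
    (HasCompactSupport.of_compactSpace _))] at this
  simp only [integral_const, probReal_univ, smul_eq_mul, mul_one] at this
  linarith

end Meas

theorem main : ∃ Y ⊆ RS fib, Y.Nonempty ∧ IsClosed Y ∧ sh '' Y = Y ∧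
    (∀ Z ⊆ Y, Z.Nonempty → IsClosed Z → sh '' Z ⊆ Z → Z = Y) ∧
    ∃ (μ : Measure (ℤ → Fin 2)) (_ : IsProbabilityMeasure μ), μ Yᶜ = 0 ∧
      MeasurePreserving sh μ μ ∧ ¬ Dense (Submodule.span ℂ
        {f : Lp ℂ 2 μ | ∃ c : ℂ, ∀ᵐ x ∂μ, f (sh x) = c * f x} : Set (Lp ℂ 2 μ)) := by
  obtain ⟨Y, hY, h1, h2, h3, h4⟩ := exists_min (K := pr '' Om) sh_cont (Om_ne.image pr)
    (Om_closed.isCompact.image pr_cont).isClosed (by
      rintro _ ⟨_, ⟨z, hz, rfl⟩, rfl⟩; exact ⟨sh z, Om_sh hz, rfl⟩)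
  refine ⟨Y, fun y hy => by obtain ⟨z, hz, rfl⟩ := hY hy; exact pr_RS hz, h1, h2, h3, h4, ?_⟩
  obtain ⟨y, hy⟩ := h1
  obtain ⟨z₀, hz₀, rfl⟩ := hY hy
  have Mc : IsClosed (Om ∩ pr ⁻¹' Y) := Om_closed.inter (h2.preimage pr_cont)
  have Mi : ∀ n : ℕ, sh^[n] z₀ ∈ Om ∩ pr ⁻¹' Y := fun n => by
    induction n with
    | zero => exact ⟨hz₀, hy⟩
    | succ n ih =>
      rw [Function.iterate_succ_apply']
      exact ⟨Om_sh ih.1, h3 ▸ ⟨_, ih.2, rfl⟩⟩
  obtain ⟨ν', n1, n2⟩ := @Pool.Agent.H98.Emp.exists_inv_ge (ℤ → Fin 4) _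
    (TopologicalSpace.metrizableSpaceMetric _) (inferInstanceAs (BorelSpace (ℤ → Fin 4)))
    (inferInstanceAs (CompactSpace (ℤ → Fin 4))) sh sh_cont _ Mc 1 fun M => ⟨M, le_rfl, z₀, by
      simp only [Mi, Finset.filter_true, Finset.card_range]; simp⟩
  set ν : Measure (ℤ → Fin 4) := ν'.toMeasure with hν'
  have hν : MeasurePreserving sh ν ν := ⟨sh_cont.measurable, n1⟩
  have hM : ∀ᵐ z ∂ν, z ∈ Om ∩ pr ⁻¹' Y := by
    rw [ae_iff]
    exact (prob_compl_eq_zero_iff Mc.measurableSet).mpr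
      ((ENNReal.toReal_eq_one_iff _).mp (le_antisymm measureReal_le_one n2))
  have hO : ∀ᵐ z ∂ν, z ∈ Om := hM.mono fun _ h => h.1
  have hp : MeasurePreserving pr ν (ν.map pr) := ⟨pr_cont.measurable, rfl⟩
  have := Measure.isProbabilityMeasure_map (μ := ν) pr_cont.measurable.aemeasurable
  refine ⟨ν.map pr, this, ?_, ⟨sh_cont.measurable, ?_⟩, fun hd => ?_⟩
  · rw [Measure.map_apply pr_cont.measurable h2.measurableSet.compl]
    exact ae_iff.mp (hM.mono fun _ h => h.2)
  · rw [Measure.map_map sh_cont.measurable pr_cont.measurable]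
    conv_rhs => rw [← hν.map_eq, Measure.map_map pr_cont.measurable sh_cont.measurable]
    rfl
  have gm : MemLp (fun z : ℤ → Fin 4 => (lab (z 0) : ℂ)) 2 ν :=
    MemLp.of_bound (Complex.continuous_ofReal.comp (lab_cont 0)).aestronglyMeasurable 1
      (Eventually.of_forall fun z => by
        rw [Complex.norm_real, Real.norm_eq_abs]; exact lab_le _)
  let L : Lp ℂ 2 (ν.map pr) →L[ℂ] ℂ := (innerSL ℂ (gm.toLp _)).comp
    (Lp.compMeasurePreservingₗᵢ ℂ pr hp).toContinuousLinearMap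
  have hL : ∀ f, L f = ∫ z, (lab (z 0) : ℂ) * f (pr z) ∂ν := fun f => by
    show inner ℂ (gm.toLp _) (Lp.compMeasurePreserving pr hp f) = _
    rw [L2.inner_def]
    refine integral_congr_ae ?_
    filter_upwards [gm.coeFn_toLp, Lp.coeFn_compMeasurePreserving f hp] with z a b
    rw [a, b, RCLike.inner_apply, Complex.conj_ofReal, mul_comm]; rfl
  have L0 : ∀ f, L f = 0 := fun f => by
    refine (ContinuousLinearMap.isClosed_ker L).closure_subset_iff.mpr
      (Submodule.span_le.mpr ?_) (hd f)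
    rintro f ⟨c, hc⟩
    show L f = 0
    rw [hL]
    exact eig hν hO (((Lp.memLp f).comp_measurePreserving hp).integrable one_le_two)
      (hp.quasiMeasurePreserving.ae hc)
  have fc : Continuous fun x : ℤ → Fin 2 => (((x 0).val : ℝ) : ℂ) :=
    (continuous_of_discreteTopology (f := fun a : Fin 2 => ((a.val : ℝ) : ℂ))).comp
      (continuous_apply 0)
  have fm : MemLp (fun x : ℤ → Fin 2 => (((x 0).val : ℝ) : ℂ)) 2 (ν.map pr) :=
    fc.memLp_of_hasCompactSupport (HasCompactSupport.of_compactSpace _)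
  have a1 := L0 (fm.toLp _)
  have a2 := eig hν hO (integrable_const (1 : ℂ)) (c := 1) (by simp)
  have a3 := dens hν hO
  have a4 : L (fm.toLp _) = ∫ z, (2⁻¹ : ℂ) * ((lab (z 0) : ℂ) * 1 + (|lab (z 0)| : ℝ)) ∂ν := by
    rw [hL]
    refine integral_congr_ae ?_
    filter_upwards [hp.quasiMeasurePreserving.ae fm.coeFn_toLp] with z a
    rw [a]
    show _ * (((lt (z 0)).val : ℝ) : ℂ) = _
    generalize z 0 = b
    fin_cases b <;> simp [lab, lt] <;> norm_num
  have ci : ∀ f : (ℤ → Fin 4) → ℂ, Continuous f → Integrable f ν := fun f hf =>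
    hf.integrable_of_hasCompactSupport (HasCompactSupport.of_compactSpace f)
  have := lab_cont 0
  rw [a1, integral_const_mul, integral_add (ci _ (by fun_prop)) (ci _ (by fun_prop)), a2,
    integral_complex_ofReal, zero_add, eq_comm, mul_eq_zero] at a4
  rcases a4 with h | h
  · norm_num at h
  · have : ∫ z, |lab (z 0)| ∂ν = 0 := by exact_mod_cast h
    linarith

end Pool.Agent.H49.RP
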