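import Pool.Agent.H49.WM1

set_option autoImplicit false

namespace Pool.Agent.H49.RW

open Finset MeasureTheory Filter Topology Set
open scoped ENNReal NNReal

variable {X : Type} [MeasurableSpace X]

lemma semi : IsSetSemiring (image2 (· ×ˢ ·) {s : Set X | MeasurableSet s} {s : Set X | MeasurableSet s}) := by
  classical
  refine ⟨⟨∅, MeasurableSet.empty, ∅, MeasurableSet.empty, by simp⟩, ?_, ?_⟩
  · rintro _ ⟨A, hA, B, hB, rfl⟩ _ ⟨A', hA', B', hB', rfl⟩
    exact ⟨_, hA.inter hA', _, hB.inter hB', prod_inter_prod.symm⟩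
  · rintro _ ⟨A, hA, B, hB, rfl⟩ _ ⟨A', hA', B', hB', rfl⟩
    refine ⟨{(A \ A') ×ˢ B, (A ∩ A') ×ˢ (B \ B')}, ?_, ?_, ?_⟩
    · simp only [Finset.coe_insert, Finset.coe_singleton, Set.insert_subset_iff, Set.singleton_subset_iff]
      exact ⟨⟨_, hA.diff hA', _, hB, rfl⟩, _, hA.inter hA', _, hB.diff hB', rfl⟩
    · simp only [Finset.coe_insert, Finset.coe_singleton]
      refine (pairwiseDisjoint_singleton _ _).insert fun j hj _ => ?_
      rw [Set.mem_singleton_iff.1 hj]
      exact Set.disjoint_left.2 fun p h h' => h.1.2 h'.1.2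
    · ext p; simp; tauto

/-- the integer powers -/
def τ (T : X ≃ᵐ X) (k : ℤ) : X → X := ⇑(T.toEquiv ^ k : Equiv.Perm X)

lemma τ_add (T : X ≃ᵐ X) (k l : ℤ) (x : X) : τ T (k + l) x = τ T k (τ T l x) := by
  simp [τ, zpow_add]

lemma τ_zero (T : X ≃ᵐ X) (x : X) : τ T 0 x = x := by simp [τ]

lemma τ_nat (T : X ≃ᵐ X) (n : ℕ) : τ T n = T^[n] := by
  simp [τ, Equiv.Perm.coe_pow]

lemma τ_mp {T : X ≃ᵐ X} {μ : Measure X} (h : MeasurePreserving T μ μ) (k : ℤ) :
    MeasurePreserving (τ T k) μ μ := by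
  rcases Int.eq_nat_or_neg k with ⟨n, rfl | rfl⟩
  · rw [τ_nat]; exact h.iterate n
  · have : τ T (-n) = T.symm^[n] := by
      simp only [τ, zpow_neg, zpow_natCast, ← inv_pow, Equiv.Perm.coe_pow]; rfl
    rw [this]; exact (h.symm T).iterate n

lemma const {Y : Type} [MeasurableSpace Y] {ρ lam : Measure Y} [IsFiniteMeasure lam] {S : ℤ → Y → Y}
    (hS : ∀ k, MeasurePreserving (S k) ρ ρ) (ha : ∀ k l y, S (k + l) y = S k (S l y))
    (h0 : ∀ y, S 0 y = y) (he : PreErgodic (S 1) ρ) {F : Set Y} (hF : MeasurableSet F) (hf : ρ F ≠ ⊤)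
    (ac : lam ≪ ρ.restrict F)
    (inv : ∀ k E, MeasurableSet E → E ⊆ F → S k ⁻¹' E ⊆ F → lam (S k ⁻¹' E) = lam E) :
    ∃ c : ℝ, ∀ R, MeasurableSet R → lam.real R = c * (ρ.restrict F).real R := by
  have : IsFiniteMeasure (ρ.restrict F) := isFiniteMeasure_restrict.2 hf
  set π := ρ.restrict F with hπ
  have dic : ∀ c c' : ℝ≥0, c < c' → lam ≤ c' • π ∨ c • π ≤ lam := by
    intro c c' hc
    obtain ⟨D, mD, d1, d2⟩ := hahn_decomposition lam (c' • π)
    obtain ⟨D', mD', d3, d4⟩ := hahn_decomposition lam (c • π)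
    by_cases z1 : π D = 0
    · refine Or.inl (Measure.le_iff.2 fun s hs => ?_)
      rw [← measure_inter_add_sdiff s mD, measure_mono_null inter_subset_right (ac z1), zero_add]
      exact (d2 _ (hs.diff mD) fun x hx => hx.2).trans (measure_mono Set.sdiff_subset)
    by_cases z2 : π D'ᶜ = 0
    · refine Or.inr (Measure.le_iff.2 fun s hs => ?_)
      rw [← measure_inter_add_sdiff s mD', measure_mono_null (s := s \ D') (t := D'ᶜ) (fun x hx => hx.2)
        (by simp [z2]), add_zero]
      exact (d3 _ (hs.inter mD') inter_subset_right).trans (measure_mono inter_subset_left)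
    exfalso
    rw [hπ, Measure.restrict_apply (by measurability)] at z1 z2
    have mP : ∀ k, MeasurableSet (S k ⁻¹' (D ∩ F)) := fun k => (hS k).measurable (mD.inter hF)
    obtain ⟨k, hk⟩ : ∃ k, ρ (D'ᶜ ∩ F ∩ S k ⁻¹' (D ∩ F)) ≠ 0 := by
      by_contra hc
      push Not at hc
      rcases he.measure_self_or_compl_eq_zero (MeasurableSet.iUnion mP) (by
        ext y
        simp only [Set.mem_preimage, Set.mem_iUnion, ← ha]
        exact ⟨fun ⟨k, h⟩ => ⟨_, h⟩, fun ⟨k, h⟩ => ⟨k - 1, by rwa [sub_add_cancel]⟩⟩) with h | h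
      · exact z1 (measure_mono_null (fun y hy => mem_iUnion.2 ⟨0, by simpa [h0] using hy⟩) h)
      · refine z2 (measure_mono_null (fun y hy => ?_) (measure_union_null (measure_iUnion_null hc) h))
        by_cases h' : y ∈ ⋃ k, S k ⁻¹' (D ∩ F)
        · obtain ⟨k, hk⟩ := mem_iUnion.1 h'
          exact Or.inl (mem_iUnion.2 ⟨k, hy, hk⟩)
        · exact Or.inr h'
    set E := S (-k) ⁻¹' (D'ᶜ ∩ F) ∩ (D ∩ F) with hE
    have mE : MeasurableSet E := ((hS _).measurable (mD'.compl.inter hF)).inter (mD.inter hF)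
    have e : S k ⁻¹' E = D'ᶜ ∩ F ∩ S k ⁻¹' (D ∩ F) := by
      ext y; simp only [hE, Set.mem_preimage, Set.mem_inter_iff, ← ha, neg_add_cancel, h0]
    have s1 : E ⊆ F := fun y hy => hy.2.2
    have s2 : S k ⁻¹' E ⊆ F := fun y hy => (e ▸ hy).1.2
    have a1 := d1 E mE fun y hy => hy.2.1
    have a2 := d4 _ ((hS k).measurable mE) fun y hy => (e ▸ hy).1.1
    have a3 := (hS k).measure_preimage mE.nullMeasurableSet
    rw [inv k E mE s1 s2] at a2
    simp only [Measure.smul_apply, hπ, Measure.restrict_eq_self _ s1, Measure.restrict_eq_self _ s2,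
      a3, ENNReal.smul_def, smul_eq_mul] at a1 a2
    rw [← e, a3] at hk
    exact absurd (a1.trans a2) (not_le.2 (ENNReal.mul_lt_mul_left hk
      (ne_top_of_le_ne_top hf (measure_mono s1)) (by exact_mod_cast hc)))
  have re : ∀ (c : ℝ≥0) R, (c • π).real R = c * π.real R := fun c R => by simp
  rcases (measureReal_nonneg (μ := π) (s := univ)).eq_or_lt with p0 | p0
  · refine ⟨0, fun R _ => ?_⟩
    rw [zero_mul, measureReal_eq_zero_iff]
    exact measure_mono_null (subset_univ _) (ac ((measureReal_eq_zero_iff (by finiteness)).1 p0.symm))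
  set c0 := lam.real univ / π.real univ with hc0
  have lo : ∀ R, c0 * π.real R ≤ lam.real R := by
    intro R
    rcases (measureReal_nonneg (μ := π) (s := R)).eq_or_lt with h | h
    · rw [← h, mul_zero]; exact measureReal_nonneg
    rw [← le_div_iff₀ h]
    refine le_of_forall_lt_imp_le_of_dense fun c hc => ?_
    rcases lt_or_ge c 0 with h' | h'
    · exact h'.le.trans (div_nonneg measureReal_nonneg h.le)
    rw [le_div_iff₀ h]
    rcases dic ⟨c, h'⟩ ⟨(c + c0) / 2, by linarith⟩ (show c < (c + c0) / 2 by linarith) with d | d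
    · have : lam.real univ ≤ _ := ENNReal.toReal_mono (measure_ne_top _ _) (d univ)
      have e : lam.real univ ≤ (c + c0) / 2 * π.real univ :=
        this.trans_eq (re ⟨(c + c0) / 2, by linarith⟩ univ)
      have : lam.real univ = c0 * π.real univ := by rw [hc0]; field_simp
      nlinarith
    · exact (re ⟨c, h'⟩ R).ge.trans (ENNReal.toReal_mono (measure_ne_top _ _) (d R))
  refine ⟨c0, fun R hR => le_antisymm ?_ (lo R)⟩
  have := lo Rᶜ
  rw [measureReal_compl hR, measureReal_compl hR] at this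
  have : lam.real univ = c0 * π.real univ := by rw [hc0]; field_simp
  linarith

theorem core {μ : Measure X} [SigmaFinite μ] {T : X ≃ᵐ X} (hT : MeasurePreserving T μ μ)
    (he : PreErgodic (Prod.map T T) (μ.prod μ)) {F : Set X} (hF : MeasurableSet F) (hf : μ F ≠ ⊤)
    (a : ℕ → ℝ) (ha : ∀ n, 0 ≤ a n)
    (hW : ∀ A B, MeasurableSet A → MeasurableSet B → A ⊆ F → B ⊆ F →
      Tendsto (fun n => a n * ∑ i ∈ Finset.range n, μ.real (T^[i] '' A ∩ B)) atTop
        (𝓝 (μ.real A * μ.real B)))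
    (s : ℕ → ℝ) (s0 : ∀ i, 0 ≤ s i) (s1 : ∀ i, s i ≤ 1) (U : Ultrafilter ℕ) (hU : (U : Filter ℕ) ≤ atTop) :
    ∃ c : ℝ, ∀ A B, MeasurableSet A → MeasurableSet B → A ⊆ F → B ⊆ F →
      Tendsto (fun n => a n * ∑ i ∈ Finset.range n, s i * μ.real (T^[i] '' A ∩ B)) U
        (𝓝 (c * (μ.real A * μ.real B))) := by
  classical
  have : IsFiniteMeasure (μ.restrict F) := isFiniteMeasure_restrict.2 hf
  set g : ℕ → X → X × X := fun i x => (x, T^[i] x) with hg
  have mg : ∀ i, Measurable (g i) := fun i => measurable_id.prodMk (hT.iterate i).measurable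
  have fin : ∀ i E, μ (g i ⁻¹' (E ∩ F ×ˢ F)) ≠ ⊤ := fun i E =>
    ne_top_of_le_ne_top hf (measure_mono fun x hx => hx.2.1)
  have rect : ∀ i A B, MeasurableSet A → MeasurableSet B →
      μ.real (g i ⁻¹' (A ×ˢ B)) = μ.real (T^[i] '' A ∩ B) := fun i A B hA hB => by
    have inj : Function.Injective T^[i] := T.injective.iterate i
    have e : T^[i] '' A = τ T (-i) ⁻¹' A := by
      ext y
      refine ⟨fun ⟨x, hx, e⟩ => ?_, fun h => ⟨_, h, ?_⟩⟩
      · rwa [Set.mem_preimage, ← e, ← τ_nat, ← τ_add, neg_add_cancel, τ_zero]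
      · rw [← τ_nat, ← τ_add, add_neg_cancel, τ_zero]
    rw [← (hT.iterate i).measureReal_preimage (s := T^[i] '' A ∩ B) (by
      rw [e]; exact (((τ_mp hT _).measurable hA).inter hB).nullMeasurableSet), Set.preimage_inter,
      inj.preimage_image]
    rfl
  obtain ⟨C, hC⟩ := (hW F F hF hF le_rfl le_rfl).bddAbove_range
  have le : ∀ n E, a n * ∑ i ∈ Finset.range n, s i * μ.real (g i ⁻¹' E) ≤
      a n * ∑ i ∈ Finset.range n, μ.real (g i ⁻¹' E) := fun n E => mul_le_mul_of_nonneg_left
    (sum_le_sum fun i _ => mul_le_of_le_one_left measureReal_nonneg (s1 i)) (ha n)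
  have nn : ∀ n E, 0 ≤ a n * ∑ i ∈ Finset.range n, s i * μ.real (g i ⁻¹' E) := fun n E =>
    mul_nonneg (ha n) (sum_nonneg fun i _ => mul_nonneg (s0 i) measureReal_nonneg)
  choose m hm using fun E : Set (X × X) => WM.exl U (fun n => a n * ∑ i ∈ Finset.range n,
    s i * μ.real (g i ⁻¹' (E ∩ F ×ˢ F))) C fun n => by
      rw [abs_of_nonneg (nn _ _)]
      refine (le _ _).trans (le_trans ?_ (hC ⟨n, rfl⟩))
      refine mul_le_mul_of_nonneg_left (sum_le_sum fun i _ => ?_) (ha n)
      rw [← rect i F F hF hF]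
      exact measureReal_mono (fun x hx => hx.2) (by simpa using fin i univ)
  set π := (μ.prod μ).restrict (F ×ˢ F) with hπ
  have : IsFiniteMeasure π := by rw [hπ, ← Measure.prod_restrict]; infer_instance
  have πr : ∀ A B, π.real (A ×ˢ B) = μ.real (A ∩ F) * μ.real (B ∩ F) := fun A B => by
    rw [hπ, measureReal_restrict_apply' (hF.prod hF), prod_inter_prod, measureReal_prod_prod]
  obtain ⟨m', e1, e2⟩ := VectorMeasure.exists_extension_of_isSetSemiring_of_le_measure_of_generateFrom
    (μ := π) (m := ⟨m, tendsto_nhds_unique (hm ∅) (by simp), fun I h1 h2 _ => by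
      refine tendsto_nhds_unique (hm _) ((tendsto_finsetSum I fun u _ => hm u).congr fun n => ?_)
      rw [← mul_sum, sum_comm]
      congr 1
      refine sum_congr rfl fun i _ => ?_
      rw [← mul_sum, ← measureReal_biUnion_finset (f := fun u => g i ⁻¹' (u ∩ F ×ˢ F)) (fun u hu v hv huv => ((h2 hu hv huv).mono
        Set.inter_subset_left Set.inter_subset_left).preimage _) (fun u hu => by
          obtain ⟨A, hA, B, hB, rfl⟩ := h1 hu
          exact mg i ((MeasurableSet.prod hA hB).inter (hF.prod hF))) fun u _ => fin i u]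
      congr 2
      ext x
      simp only [Set.mem_iUnion, Set.mem_preimage, Set.mem_inter_iff, Set.mem_sUnion, mem_coe]
      exact ⟨fun ⟨u, h, h'⟩ => ⟨⟨u, h, h'.1⟩, h'.2⟩, fun ⟨⟨u, h, h'⟩, h''⟩ => ⟨u, h, h', h''⟩⟩⟩) semi (by
      rintro _ ⟨A, hA, B, hB, rfl⟩
      have h1 : m (A ×ˢ B) ≤ π.real (A ×ˢ B) := by
        rw [πr]
        refine le_of_tendsto_of_tendsto' (hm _) ((hW _ _ (hA.inter hF) (hB.inter hF) inter_subset_right
          inter_subset_right).mono_left hU) fun n => (le _ _).trans_eq ?_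
        simp only [prod_inter_prod, rect _ _ _ (hA.inter hF) (hB.inter hF)]
      show ‖m (A ×ˢ B)‖ₑ ≤ _
      rw [Real.enorm_of_nonneg (ge_of_tendsto' (hm _) fun n => nn _ _), ← ofReal_measureReal]
      exact ENNReal.ofReal_le_ofReal h1) generateFrom_prod.symm
  have e3 : ∀ E, |m' E| ≤ π.real E := fun E => by
    have := ENNReal.toReal_mono (measure_ne_top π E) (e2 E)
    simpa [Measure.real] using this
  have e4 : ∀ E, 0 ≤ m' E + π.real E := fun E => by linarith [(abs_le.1 (e3 E)).1]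
  set lam : Measure (X × X) := Measure.ofMeasurable (fun E _ => ENNReal.ofReal (m' E + π.real E))
    (by simp) fun f hf hd => by
      have := (m'.m_iUnion hf hd).add (π.toSignedMeasure.m_iUnion hf hd)
      simp only [Measure.toSignedMeasure_apply_measurable (hf _),
        Measure.toSignedMeasure_apply_measurable (MeasurableSet.iUnion hf)] at this
      rw [← ENNReal.ofReal_tsum_of_nonneg (fun _ => e4 _) this.summable, this.tsum_eq] with hlam
  have la : ∀ E, MeasurableSet E → lam E = ENNReal.ofReal (m' E + π.real E) := fun E hE =>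
    Measure.ofMeasurable_apply _ hE
  have : IsFiniteMeasure lam := ⟨by rw [la _ MeasurableSet.univ]; exact ENNReal.ofReal_lt_top⟩
  have lr : ∀ A B, MeasurableSet A → MeasurableSet B → lam (A ×ˢ B) =
      ENNReal.ofReal (m (A ×ˢ B) + π.real (A ×ˢ B)) := fun A B hA hB => by
    rw [la _ (hA.prod hB), e1 _ ⟨A, hA, B, hB, rfl⟩]; rfl
  have mp : ∀ k, MeasurePreserving (Prod.map (τ T k) (τ T k)) (μ.prod μ) (μ.prod μ) := fun k =>
    (τ_mp hT k).prod (τ_mp hT k)
  obtain ⟨c, hc⟩ := const (ρ := μ.prod μ) (lam := lam) mp (fun k l y => by simp [Prod.map, τ_add])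
    (fun y => by simp [Prod.map, τ_zero]) (by simpa [τ] using he) (hF.prod hF)
    (by rw [Measure.prod_prod]; exact ENNReal.mul_ne_top hf hf)
    (Measure.AbsolutelyContinuous.mk fun E hE h => by
      have := e3 E
      rw [la E hE, ENNReal.ofReal_eq_zero]
      simp only [Measure.real, show π E = 0 from h] at this ⊢
      simpa using (abs_le.1 this).2) (fun k E hE h1 h2 => by
    set G := F ∩ τ T (-k) ⁻¹' F with hG
    have mG : MeasurableSet G := hF.inter ((τ_mp hT _).measurable hF)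
    have sG : E ⊆ G ×ˢ G := fun p hp => by
      have := @h2 (Prod.map (τ T (-k)) (τ T (-k)) p) (by simpa [Prod.map, ← τ_add, τ_zero] using hp)
      exact ⟨⟨(h1 hp).1, this.1⟩, (h1 hp).2, this.2⟩
    have : (lam.map (Prod.map (τ T k) (τ T k))).restrict (G ×ˢ G) = lam.restrict (G ×ˢ G) := by
      refine Measure.ext_prod fun {A B} hA hB => ?_
      have a1 := hA.inter mG
      have a2 := hB.inter mG
      have b : ∀ A, τ T k ⁻¹' (A ∩ G) ∩ F = τ T k ⁻¹' (A ∩ G ∩ F) := fun A => by
        ext x; simp only [hG, Set.mem_inter_iff, Set.mem_preimage, ← τ_add, neg_add_cancel, τ_zero]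
        tauto
      rw [Measure.restrict_apply (hA.prod hB), Measure.restrict_apply (hA.prod hB), prod_inter_prod,
        Measure.map_apply (mp k).measurable (a1.prod a2), preimage_prod_map_prod,
        lr _ _ ((τ_mp hT k).measurable a1) ((τ_mp hT k).measurable a2), lr _ _ a1 a2, πr, πr, b, b,
        (τ_mp hT k).measureReal_preimage (a1.inter hF).nullMeasurableSet,
        (τ_mp hT k).measureReal_preimage (a2.inter hF).nullMeasurableSet]
      congr 2
      refine tendsto_nhds_unique (hm _) ((hm _).congr fun n => ?_)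
      congr 1
      refine sum_congr rfl fun i _ => ?_
      rw [prod_inter_prod, prod_inter_prod, b, b, ← (τ_mp hT k).measureReal_preimage
        (mg i ((a1.inter hF).prod (a2.inter hF))).nullMeasurableSet]
      congr 2
      ext x
      simp only [hg, Set.mem_preimage, Set.mem_prod, ← τ_nat, ← τ_add, add_comm]
    have := congrArg (fun ρ : Measure (X × X) => ρ E) this
    simpa only [Measure.restrict_eq_self _ sG, Measure.map_apply (mp k).measurable hE] using this)
  refine ⟨c - 1, fun A B hA hB h1 h2 => ?_⟩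
  have := hc _ (hA.prod hB)
  rw [Measure.real, la _ (hA.prod hB), ENNReal.toReal_ofReal (e4 _), e1 _ ⟨A, hA, B, hB, rfl⟩,
    ← hπ, πr, inter_eq_left.2 h1, inter_eq_left.2 h2] at this
  have h := hm (A ×ˢ B)
  simp only [prod_inter_prod, inter_eq_left.2 h1, inter_eq_left.2 h2, rect _ _ _ hA hB] at h
  convert h using 2
  have e : m (A ×ˢ B) + μ.real A * μ.real B = c * (μ.real A * μ.real B) := this
  linarith

end Pool.Agent.H49.RW
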