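import Pool.Agent.H49.WH2

/-! Periodic visible coordinates at several scales. -/

set_option autoImplicit false

namespace Pool.Agent.H49.RX

open Finset Equiv Pool.Agent.H49.WH
open scoped Classical

lemma tele {ι : Type} [Fintype ι] {j : ι → ℕ} (hj : Function.Injective j) (a m : ι → ℝ) :
    ∏ i, a i - ∏ i, m i = ∑ i, (a i - m i) * (∏ i' with j i' < j i, a i') *
      ∏ i' with j i < j i', m i' := by
  let := LinearOrder.lift' j hj
  have := prod_add_ordered univ m fun i => a i - m i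
  simp only [add_sub_cancel] at this
  rw [this, add_sub_cancel_left]
  rfl

lemma abs_prod_le {ι : Type} (s : Finset ι) {a : ι → ℝ} (h : ∀ i, |a i| ≤ 1) : |∏ i ∈ s, a i| ≤ 1 := by
  rw [abs_prod]; exact prod_le_one (fun _ _ => abs_nonneg _) fun i _ => h i

lemma av_nonneg {V : Type} [Fintype V] {f : V → ℝ} (h : ∀ v, 0 ≤ f v) : 0 ≤ av f :=
  div_nonneg (sum_nonneg fun v _ => h v) (Nat.cast_nonneg _)

lemma av_le {V : Type} [Fintype V] [Nonempty V] {f : V → ℝ} {c : ℝ} (h : ∀ v, f v ≤ c) : av f ≤ c :=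
  (av_mono h).trans (av_const c).le

lemma av_sub {V : Type} [Fintype V] [Nonempty V] (f : V → ℝ) : av (fun v => f v - av f) = 0 := by
  simp only [sub_eq_add_neg]
  rw [av_add, av_const, add_neg_cancel]

theorem comb {ι V W : Type} [Fintype ι] [Fintype V] [Fintype W] [Nonempty V] [Nonempty W]
    (vis : ℕ → ℕ → W → V) (Λ : ℕ → ℕ) (η : ℕ → ℝ) (M L : ℕ) {ε : ℝ} (hΛ : ∀ j, 0 < Λ j)
    (per : ∀ j' j, j' < j → ∀ b b', b % Λ j = b' % Λ j → vis j' b = vis j' b')
    (orth : ∀ j < M, ∀ (b : ℕ) (f : ℕ → V → ℝ), (∀ l v, |f l v| ≤ 1) → (∀ l, av (f l) = 0) →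
      av (fun w => |∑ l ∈ range L, f l (vis j (b + l) w)|) ≤ η j * L)
    (size : ∀ j, (Fintype.card (ι → V → Prop) : ℝ) * Λ j * η j ≤ ε)
    (D : ℕ → ι → V → Prop) (j : ι → ℕ) (hj : ∀ i, j i < M)
    (b : ι → ℕ) : ∃ u : ι → W → ℝ, (∀ i w, 0 ≤ u i w) ∧ (∀ i, av (u i) ≤ ε * L) ∧
      (Function.Injective j → ∀ w : ι → W, |∑ l ∈ range L,
        (∏ i, ind (D l i (vis (j i) (b i + l) (w i))) - ∏ i, fr (D l i))| ≤ ∑ i, u i (w i)) := by
  have m1 : ∀ P : V → Prop, fr P ≤ 1 := fun P => av_le fun v => ind_le _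
  let C : ℕ → Finset ((ι → V → Prop) × ℕ) := fun j => univ ×ˢ range (Λ j)
  let F : ι → (ι → V → Prop) × ℕ → ℕ → V → ℝ := fun i c l v =>
    if (D l, l % Λ (j i)) = c then ind (D l i v) - fr (D l i) else 0
  refine ⟨fun i w => ∑ c ∈ C (j i), |∑ l ∈ range L, F i c l (vis (j i) (b i + l) w)|,
    fun i w => sum_nonneg fun _ _ => abs_nonneg _, fun i => ?_, fun hi w => ?_⟩
  · rw [av_sum]
    refine (sum_le_sum fun c _ => orth _ (hj i) (b i) (F i c) (fun l v => ?_) fun l => ?_).trans ?_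
    · simp only [F]
      split_ifs
      · exact abs_le.2 ⟨by linarith [ind_nonneg (D l i v), m1 (D l i)],
          by linarith [ind_le (D l i v), fr_nonneg (D l i)]⟩
      · simp
    · simp only [F]
      split_ifs
      · exact av_sub _
      · exact av_const 0
    · rw [sum_const, card_product, card_univ, card_range, nsmul_eq_mul, Nat.cast_mul, ← mul_assoc]
      exact mul_le_mul_of_nonneg_right (size _) (Nat.cast_nonneg _)
  · simp only [tele hi]
    rw [sum_comm]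
    refine (abs_sum_le_sum_abs _ _).trans (sum_le_sum fun i _ => ?_)
    let K : (ι → V → Prop) × ℕ → ℝ := fun c =>
      (∏ i' with j i' < j i, ind (c.1 i' (vis (j i') (b i' + c.2) (w i')))) *
        ∏ i' with j i < j i', fr (c.1 i')
    have e : ∀ l ∈ range L, (ind (D l i (vis (j i) (b i + l) (w i))) - fr (D l i)) *
        (∏ i' with j i' < j i, ind (D l i' (vis (j i') (b i' + l) (w i')))) *
        ∏ i' with j i < j i', fr (D l i') =
        ∑ c ∈ C (j i), K c * F i c l (vis (j i) (b i + l) (w i)) := fun l _ => by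
      rw [sum_eq_single (D l, l % Λ (j i)) (fun c _ hc => by simp [F, hc.symm]) fun hc =>
        absurd (mem_product.2 ⟨mem_univ _, mem_range.2 (Nat.mod_lt _ (hΛ _))⟩) hc]
      have : ∏ i' with j i' < j i, ind (D l i' (vis (j i') (b i' + l % Λ (j i)) (w i'))) =
          ∏ i' with j i' < j i, ind (D l i' (vis (j i') (b i' + l) (w i'))) :=
        prod_congr rfl fun i' hi' => by
          rw [per _ _ (mem_filter.1 hi').2 _ (b i' + l) (by simp)]
      simp only [K, F, if_true, this]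
      ring
    rw [sum_congr rfl e, sum_comm]
    refine (abs_sum_le_sum_abs _ _).trans (sum_le_sum fun c _ => ?_)
    rw [← mul_sum, abs_mul]
    refine mul_le_of_le_one_left (abs_nonneg _) ?_
    rw [abs_mul]
    exact mul_le_one₀ (abs_prod_le _ fun i => abs_le.2 ⟨(neg_one_lt_zero.le.trans (ind_nonneg _)),
      ind_le _⟩) (abs_nonneg _)
      (abs_prod_le _ fun i => abs_le.2 ⟨neg_one_lt_zero.le.trans (fr_nonneg _), m1 _⟩)

lemma av_indep {V I : Type} [Fintype V] [Nonempty V] [Fintype I] [DecidableEq I] {p p' : I}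
    (h : p ≠ p') (f g : V → ℝ) (hf : av f = 0) : av (fun ω : I → V => f (ω p) * g (ω p')) = 0 := by
  rw [← av_equiv (Equiv.piSplitAt p fun _ => V).symm, av_prod]
  have : ∀ (v : V) (ω : {j // j ≠ p} → V), f ((Equiv.piSplitAt p fun _ => V).symm (v, ω) p) *
      g ((Equiv.piSplitAt p fun _ => V).symm (v, ω) p') = g (ω ⟨p', h.symm⟩) * f v := fun v ω => by
    simp [h.symm, mul_comm]
  simp only [this]
  rw [av_comm]
  simp only [av_mul, hf, mul_zero]
  exact av_const 0

/-- index of the visible coordinate -/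
def vi (Q P b i : ℕ) : ℕ := (b + i) % (P * Q) / Q

lemma vi_lt {Q P : ℕ} (hQ : 0 < Q) (hP : 0 < P) (b i : ℕ) : vi Q P b i < P :=
  Nat.div_lt_of_lt_mul (by rw [mul_comm Q]; exact Nat.mod_lt _ (Nat.mul_pos hP hQ))

lemma vi_cnt {Q P : ℕ} (hQ : 0 < Q) (hP : 0 < P) (b i r k : ℕ) :
    cnt (k * (P * Q)) (fun l => vi Q P (b + l) i = r) ≤ k * Q := by
  have : NeZero (P * Q) := ⟨(Nat.mul_pos hP hQ).ne'⟩
  have a := cnt_per (P * Q) (fun v => v.val / Q = r) (b + i : ℕ) k
  have e : ∀ l : ℕ, ((b + i : ℕ) + (l : ZMod (P * Q))).val = (b + l + i) % (P * Q) := fun l => by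
    rw [← Nat.cast_add, ZMod.val_natCast]; congr 1; omega
  simp only [e] at a
  refine a.le.trans ?_
  rw [fr_val _ fun v => v / Q = r, mul_assoc, mul_div_cancel₀ _ (by exact_mod_cast NeZero.ne (P * Q))]
  refine mul_le_mul_of_nonneg_left ?_ (Nat.cast_nonneg _)
  by_cases hr : r < P
  · refine (cnt_mono (Q := fun v => r * Q ≤ v ∧ v < (r + 1) * Q) fun v _ hv => ?_).trans ?_
    · rw [← hv]
      exact ⟨Nat.div_mul_le_self _ _, by rw [mul_comm]; exact Nat.lt_mul_div_succ _ hQ⟩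
    · rw [cnt_Ico (Nat.mul_le_mul_right _ r.le_succ) (Nat.mul_le_mul_right _ hr)]
      push_cast; linarith
  · refine (cnt_mono (Q := fun _ => False) fun v h1 hv => hr ?_).trans (by simp [cnt, ind])
    rw [← hv]; exact Nat.div_lt_of_lt_mul (by rwa [mul_comm])

lemma vi_succ {Q P : ℕ} (b i : ℕ) (h : ¬Q ∣ b + i + 1) : vi Q P (b + 1) i = vi Q P b i := by
  rw [vi, vi, mul_comm, Nat.mod_mul_right_div_self, Nat.mod_mul_right_div_self,
    show b + 1 + i = b + i + 1 by omega, Nat.succ_div_of_not_dvd h]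

theorem gadget (V : Type) [Fintype V] [Nonempty V] {Q : ℕ} (hQ : 0 < Q) (P : ℕ → ℕ)
    (hP : ∀ j, 0 < P j) (hd : ∀ j, P j ∣ P (j + 1)) (M : ℕ) :
    ∃ q : ℕ, 0 < q ∧ ∀ (W : Type) [Fintype W] (E : V × Fin q ≃ W) (pj : W → V),
      (∀ z, pj (E z) = z.1) → ∃ (vis : ℕ → ℕ → W → V) (γ : Perm V → ℕ → ℕ → Perm W),
      (∀ g j b w, pj (γ g j b w) = g (vis j b w)) ∧
      (∀ j b, fr (fun w => vis j (b + 1) w ≠ vis j b w) ≤ 1 / Q) ∧
      (∀ j' j, j' < j → ∀ b b', b % (P j * Q) = b' % (P j * Q) → vis j' b = vis j' b') ∧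
      ∀ j < M, ∀ (b : ℕ) (f : ℕ → V → ℝ), (∀ l v, |f l v| ≤ 1) → (∀ l, av (f l) = 0) →
        av (fun w => (∑ l ∈ range (P M * Q), f l (vis j (b + l) w)) ^ 2) ≤
          (P M * Q : ℕ) ^ 2 / P (j + 1) := by
  have dv : ∀ {j j'}, j ≤ j' → P j ∣ P j' := fun h => by
    induction h with
    | refl => rfl
    | step _ ih => exact ih.trans (hd _)
  have : Nonempty (Fin Q) := ⟨⟨0, hQ⟩⟩
  let I := Fin (P M + 1)
  let Z := ({i : I // i ≠ 0} → V) × Fin Q
  refine ⟨Fintype.card Z, Fintype.card_pos, fun W _ E0 pj hp => ?_⟩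
  let E : (I → V) × Fin Q ≃ W := ((Equiv.piSplitAt (0 : I) fun _ => V).prodCongr (Equiv.refl _)).trans
    ((Equiv.prodAssoc _ _ _).trans (((Equiv.refl V).prodCongr (Fintype.equivFin Z)).trans E0))
  have hE : ∀ z, pj (E z) = z.1 0 := fun z => hp _
  let ix : ℕ → ℕ → Fin Q → I := fun j b i => Fin.ofNat _ (vi Q (P (j + 1)) b i)
  let γ0 : Perm V → ℕ → ℕ → Perm ((I → V) × Fin Q) := fun g j b =>
    Equiv.prodCongrLeft fun i => (Equiv.arrowCongr (swap 0 (ix j b i)) (Equiv.refl V)).trans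
      (Equiv.piCongrRight fun p => if p = 0 then g else 1)
  refine ⟨fun j b w => (E.symm w).1 (ix j b (E.symm w).2), fun g j b => E.permCongr (γ0 g j b),
    fun g j b w => ?_, fun j b => ?_, fun j' j h b b' e => ?_, fun j hj b f f1 f2 => ?_⟩
  · rw [permCongr_apply, hE]
    beta_reduce
    generalize E.symm w = z
    obtain ⟨ω, i⟩ := z
    simp [γ0]
  · rw [← fr_equiv E, ← fr_equiv (Equiv.prodComm _ _)]
    refine (fr_mono (Q := fun z => Q ∣ b + z.1.val + 1) fun z hz => by_contra fun hc => hz (by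
      simp [ix, vi_succ b _ hc])).trans ?_
    · rw [fr_fst fun i : Fin Q => Q ∣ b + i.val + 1, fr_eq, Fintype.card_fin]
      refine div_le_div_of_nonneg_right ?_ (Nat.cast_nonneg _)
      norm_cast
      refine card_le_one.2 fun x hx y hy => Fin.ext ?_
      simp only [mem_filter, mem_univ, true_and] at hx hy
      have a := hx
      have c := hy
      rcases le_total x.val y.val with h | h
      · have := Nat.eq_zero_of_dvd_of_lt (Nat.dvd_sub c a) (by omega); omega
      · have := Nat.eq_zero_of_dvd_of_lt (Nat.dvd_sub a c) (by omega); omega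
  · funext w
    have := (Nat.ModEq.of_dvd (mul_dvd_mul_right (dv (Nat.succ_le_of_lt h)) Q) e).add_right
      (E.symm w).2.val
    simp only [ix, vi]
    rw [this]
  · rw [← av_equiv E, ← av_equiv (Equiv.prodComm _ _), av_prod]
    refine av_le fun i => ?_
    simp only [Equiv.prodComm_apply, Prod.swap_prod_mk, symm_apply_apply, sq, sum_mul_sum]
    rw [av_sum]
    obtain ⟨k, hk⟩ := dv (Nat.succ_le_of_lt hj)
    have p0 : (0 : ℝ) < P (j + 1) := Nat.cast_pos.2 (hP _)
    refine (sum_le_sum (g := fun _ => (k * Q : ℝ)) fun l _ => ?_).trans (le_of_eq ?_)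
    · rw [av_sum]
      have hc := vi_cnt hQ (hP (j + 1)) b i (vi Q (P (j + 1)) (b + l) i) k
      rw [show k * (P (j + 1) * Q) = P M * Q by rw [hk]; ring] at hc
      refine le_trans (sum_le_sum fun l' _ => ?_) hc
      by_cases c : vi Q (P (j + 1)) (b + l') i = vi Q (P (j + 1)) (b + l) i
      · rw [ind_pos c]
        exact av_le fun ω => (le_abs_self _).trans (by
          rw [abs_mul]; exact mul_le_one₀ (f1 _ _) (abs_nonneg _) (f1 _ _))
      · rw [ind_neg c, av_indep (fun e => c ?_) _ _ (f2 l)]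
        have a := vi_lt hQ (hP (j + 1)) (b + l) i
        have a' := vi_lt hQ (hP (j + 1)) (b + l') i
        have d : P (j + 1) ≤ P M := Nat.le_of_dvd (hP M) (dv (Nat.succ_le_of_lt hj))
        have := congrArg Fin.val e
        simp only [ix, Fin.val_ofNat] at this
        rw [Nat.mod_eq_of_lt (a.trans_le (d.trans (Nat.le_succ _))),
          Nat.mod_eq_of_lt (a'.trans_le (d.trans (Nat.le_succ _)))] at this
        exact this.symm
    · rw [sum_const, card_range, nsmul_eq_mul, hk]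
      push_cast
      field_simp

lemma av_abs {W : Type} [Fintype W] [Nonempty W] {U : W → ℝ} {a : ℝ} (ha : 0 < a)
    (h : av (fun w => U w ^ 2) ≤ a ^ 2) : av (fun w => |U w|) ≤ a := by
  have := av_mono (f := fun w => 2 * a * |U w|) (g := fun w => U w ^ 2 + a ^ 2) fun w => by
    nlinarith [sq_nonneg (|U w| - a), sq_abs (U w)]
  rw [av_mul, av_add, av_const] at this
  nlinarith

theorem pack (ι V : Type) [Fintype ι] [Fintype V] [Nonempty V] {Q : ℕ} (hQ : 0 < Q) (M : ℕ)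
    {ε : ℝ} (hε : 0 < ε) : ∃ q L : ℕ, 0 < q ∧ 0 < L ∧ ∀ (W : Type) [Fintype W]
      (E : V × Fin q ≃ W) (pj : W → V), (∀ z, pj (E z) = z.1) →
      ∃ (vis : ℕ → ℕ → W → V) (γ : Perm V → ℕ → ℕ → Perm W),
      (∀ g j b w, pj (γ g j b w) = g (vis j b w)) ∧
      (∀ j b, fr (fun w => vis j (b + 1) w ≠ vis j b w) ≤ 1 / Q) ∧
      ∀ (D : ℕ → ι → V → Prop) (j b : ι → ℕ), ∃ bad : ι → W → Prop, (∀ i, fr (bad i) ≤ ε) ∧
        ((∀ i, j i < M) → Function.Injective j → ∀ w : ι → W, (∀ i, ¬bad i (w i)) →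
          |∑ l ∈ range L, (∏ i, ind (D l i (vis (j i) (b i + l) (w i))) - ∏ i, fr (D l i))| ≤
            Fintype.card ι * ε * L) := by
  set C : ℝ := (Fintype.card (ι → V → Prop) : ℝ) with hC
  have C0 : 0 < C := Nat.cast_pos.2 Fintype.card_pos
  have Q0 : (0 : ℝ) < Q := Nat.cast_pos.2 hQ
  obtain ⟨c, hc⟩ := exists_nat_gt ((C * Q / ε ^ 2) ^ 2)
  have c0 : 0 < c := Nat.cast_pos.1 (lt_of_le_of_lt (sq_nonneg _) hc)
  let P : ℕ → ℕ := fun j => Nat.rec 1 (fun _ p => c * p ^ 2) j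
  have e : ∀ j, P (j + 1) = c * P j ^ 2 := fun _ => rfl
  have hP : ∀ j, 0 < P j := fun j => by
    induction j with
    | zero => exact one_pos
    | succ j ih => rw [e]; positivity
  obtain ⟨q, hq, h⟩ := gadget V hQ P hP (fun j => ⟨c * P j, by rw [e]; ring⟩) M
  refine ⟨q, P M * Q, hq, Nat.mul_pos (hP M) hQ, fun W _ E pj hp => ?_⟩
  obtain ⟨vis, γ, h1, h2, h3, h4⟩ := h W E pj hp
  have : Nonempty W := ⟨E (Classical.arbitrary V, ⟨0, hq⟩)⟩
  refine ⟨vis, γ, h1, h2, fun D j b => ?_⟩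
  by_cases hj : ∀ i, j i < M
  swap
  · exact ⟨fun _ _ => False, fun i => (fr_false fun _ => id).trans_le hε.le, fun h => absurd h hj⟩
  have L0 : (0 : ℝ) < (P M * Q : ℕ) := Nat.cast_pos.2 (Nat.mul_pos (hP M) hQ)
  obtain ⟨u, u1, u2, u3⟩ := comb vis (fun j => P j * Q) (fun j : ℕ => ε ^ 2 / (C * Q * Nat.cast (P j))) M
    (P M * Q) (ε := ε ^ 2) (fun j => Nat.mul_pos (hP j) hQ) h3 (fun j hj b f f1 f2 => by
      have p0 : (0 : ℝ) < P j := Nat.cast_pos.2 (hP j)
      refine av_abs (by positivity) ((h4 j hj b f f1 f2).trans ?_)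
      rw [mul_pow, div_eq_mul_inv, mul_comm]
      refine mul_le_mul_of_nonneg_right ?_ (sq_nonneg _)
      rw [inv_le_comm₀ (Nat.cast_pos.2 (hP (j + 1))) (by positivity), ← inv_pow, inv_div, e]
      push_cast
      calc _ = (C * Q / ε ^ 2) ^ 2 * (P j : ℝ) ^ 2 := by ring
        _ ≤ _ := by gcongr) (fun j => le_of_eq (by
      have p0 : (0 : ℝ) < P j := Nat.cast_pos.2 (hP j)
      rw [← hC]; push_cast; field_simp)) D j hj b
  refine ⟨fun i w => ε * (P M * Q : ℕ) < u i w, fun i => ?_, fun _ hi w hw => (u3 hi w).trans ?_⟩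
  · have := av_mono (f := fun w => ε * (P M * Q : ℕ) * ind (ε * (P M * Q : ℕ) < u i w))
      (g := u i) fun w => by
        by_cases a : ε * (P M * Q : ℕ) < u i w
        · rw [ind_pos a, mul_one]; exact a.le
        · rw [ind_neg a, mul_zero]; exact u1 i w
    rw [av_mul] at this
    refine le_of_mul_le_mul_left (this.trans ((u2 i).trans (le_of_eq ?_))) (mul_pos hε L0)
    ring
  · refine (sum_le_sum fun i _ => not_lt.1 (hw i)).trans (le_of_eq ?_)
    rw [sum_const, card_univ, nsmul_eq_mul, mul_assoc]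

lemma av_pi {ι V : Type} [Fintype ι] [Fintype V] (f : ι → V → ℝ) :
    av (fun v : ι → V => ∏ i, f i (v i)) = ∏ i, av (f i) := by
  simp only [av, prod_div_distrib, prod_univ_sum, Fintype.piFinset_univ, prod_const, card_univ,
    Fintype.card_fun, Nat.cast_pow]

lemma prod_ind {ι : Type} [Fintype ι] (P : ι → Prop) : ∏ i, ind (P i) = ind (∀ i, P i) := by
  by_cases h : ∀ i, P i
  · simp [ind_pos h, fun i => ind_pos (h i)]
  · obtain ⟨i, hi⟩ := not_forall.1 h
    rw [ind_neg h, prod_eq_zero (mem_univ i) (ind_neg hi)]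

end Pool.Agent.H49.RX
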