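import Pool.Agent.H49.WH4

/-! Interval permutations inside dense open sets of the weak topology. -/

set_option autoImplicit false

namespace Pool.Agent.H49.WH

open MeasureTheory Filter Topology Set Equiv
open scoped Classical

@[reducible] noncomputable def wk : TopologicalSpace G := TopologicalSpace.generateFrom
  {U | ∃ T₀ : G, ∃ A : Set ℝ, MeasurableSet A ∧ ∃ δ : ℝ, 0 < δ ∧
    U = {S : G | μ (symmDiff ((S.1 : ℝ → ℝ) ⁻¹' A) ((T₀.1 : ℝ → ℝ) ⁻¹' A)) < ENNReal.ofReal δ}}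

noncomputable def dA (A : Set ℝ) (f g : ℝ → ℝ) : ℝ := ms fun t => ¬(f t ∈ A ↔ g t ∈ A)

lemma dA_iff (A : Set ℝ) (f g : ℝ → ℝ) (δ : ℝ) :
    μ (symmDiff (f ⁻¹' A) (g ⁻¹' A)) < ENNReal.ofReal δ ↔ dA A f g < δ := by
  rw [ENNReal.lt_ofReal_iff_toReal_lt (measure_ne_top _ _)]
  have : symmDiff (f ⁻¹' A) (g ⁻¹' A) = {t | ¬(f t ∈ A ↔ g t ∈ A)} := by
    ext t; simp only [mem_symmDiff, mem_preimage, mem_ofPred_eq]; tauto
  rw [this]; rfl

lemma nbhd {V : Set G} (hV : IsOpen[wk] V) : ∀ T ∈ V, ∃ (F : Finset (Set ℝ)) (δ : ℝ), 0 < δ ∧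
    (∀ A ∈ F, MeasurableSet A) ∧ ∀ S : G, (∀ A ∈ F, dA A S.1 T.1 < δ) → S ∈ V := by
  induction hV with
  | basic U hU =>
    obtain ⟨T₀, A, hA, δ, -, rfl⟩ := hU
    intro T hT
    have h1 := (dA_iff _ _ _ _).1 hT
    refine ⟨{A}, δ - dA A T.1 T₀.1, by linarith, by simpa using hA, fun S hS =>
      (dA_iff _ _ _ _).2 ?_⟩
    have h2 := hS A (by simp)
    have h3 : dA A S.1 T₀.1 ≤ dA A S.1 T.1 + dA A T.1 T₀.1 := ms_or' fun t _ => by tauto
    linarith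
  | univ => exact fun T _ => ⟨∅, 1, one_pos, by simp, by simp⟩
  | inter U U' _ _ ih ih' =>
    intro T hT
    obtain ⟨F, δ, a, b, c⟩ := ih T hT.1
    obtain ⟨F', δ', a', b', c'⟩ := ih' T hT.2
    refine ⟨F ∪ F', min δ δ', lt_min a a', fun A hA => (Finset.mem_union.1 hA).elim (b A) (b' A),
      fun S hS => ⟨c S fun A hA => ?_, c' S fun A hA => ?_⟩⟩
    · exact (hS A (Finset.mem_union_left _ hA)).trans_le (min_le_left _ _)
    · exact (hS A (Finset.mem_union_right _ hA)).trans_le (min_le_right _ _)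
  | sUnion s _ ih =>
    rintro T ⟨U, hU, hT⟩
    obtain ⟨F, δ, a, b, c⟩ := ih U hU T hT
    exact ⟨F, δ, a, b, fun S hS => ⟨U, hU, c S hS⟩⟩

lemma app {A : Set ℝ} (hA : MeasurableSet A) {ε : ℝ} (hε : 0 < ε) :
    ∃ N : ℕ, ∀ n : ℕ+, N ≤ n → ∃ D : Fin n → Prop, ms (fun t => ¬(t ∈ A ↔ D (lv n t))) ≤ ε := by
  obtain ⟨C, h1, h2, h3⟩ := hA.exists_isClosed_sdiff_lt (μ := μ) (measure_ne_top _ _)
    (ε := ENNReal.ofReal (ε / 2)) (by simpa using hε)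
  have h4 := (ENNReal.tendsto_toReal (measure_ne_top _ _)).comp
    ((tendsto_measure_cthickening_of_isClosed (μ := μ) ⟨1, one_pos, measure_ne_top _ _⟩ h2).comp
      tendsto_one_div_atTop_nhds_zero_nat)
  obtain ⟨N, hN⟩ := eventually_atTop.1 (h4.eventually
    (gt_mem_nhds (lt_add_of_pos_right _ (half_pos hε))))
  refine ⟨N, fun n hn => ⟨fun a => ∃ s ∈ C, s ∈ Ico (0 : ℝ) 1 ∧ lv n s = a, ?_⟩⟩
  have h5 : μ.real (Metric.cthickening (1 / (n : ℕ)) C) < μ.real C + ε / 2 := hN n hn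
  have h6 := measureReal_sdiff (μ := μ) (Metric.self_subset_cthickening (δ := 1 / (n : ℕ)) C)
    h2.measurableSet
  have h7 : μ.real (A \ C) < ε / 2 := ENNReal.toReal_lt_of_lt_ofReal h3
  refine (ms_or' (Q := fun t => t ∈ A \ C)
    (R := fun t => t ∈ Metric.cthickening (1 / (n : ℕ)) C \ C) fun t ht h => ?_).trans ?_
  · have hC : t ∉ C := fun hc => h (iff_of_true (h1 hc) ⟨t, hc, ht, rfl⟩)
    by_cases hA : t ∈ A
    · exact .inl ⟨hA, hC⟩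
    · obtain ⟨s, s1, s2, s3⟩ : ∃ s ∈ C, s ∈ Ico (0 : ℝ) 1 ∧ lv n s = lv n t := by tauto
      have a := (lv_iff n s2 _).1 s3
      have b := (lv_iff n ht _).1 rfl
      refine .inr ⟨Metric.mem_cthickening_of_dist_le t s _ C s1 ?_, hC⟩
      rw [Real.dist_eq]
      exact abs_le.2 ⟨by linarith [a.2, b.1], by linarith [a.1, b.2]⟩
  · change μ.real (A \ C) + μ.real (_ \ C) ≤ ε
    linarith

lemma appF {F : Finset (Set ℝ)} (hF : ∀ A ∈ F, MeasurableSet A) {f : ℝ → ℝ} (hf : Measurable f)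
    {ε : ℝ} (hε : 0 < ε) : ∃ N : ℕ, ∀ n : ℕ+, N ≤ n → ∃ l : Fin n → F → Prop,
      ms (fun t => (fun A : F => f t ∈ A.1) ≠ l (lv n t)) ≤ ε := by
  have hp : 0 < ε / (F.card + 1) := by positivity
  choose N hN using fun A : F => app (hf (hF A.1 A.2)) hp
  refine ⟨∑ A, N A, fun n hn => ?_⟩
  choose D hD using fun A : F => hN A n
    ((Finset.single_le_sum (fun _ _ => Nat.zero_le _) (Finset.mem_univ A)).trans hn)
  refine ⟨fun a A => D A a, (ms_exists Finset.univ (fun A t => ¬(t ∈ f ⁻¹' A.1 ↔ D A (lv n t)))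
    fun t ht => ?_).trans ((Finset.sum_le_sum fun A _ => hD A).trans ?_)⟩
  · by_contra hc
    push Not at hc
    exact ht (funext fun A => propext (hc A (Finset.mem_univ A)))
  · rw [Finset.sum_const, Finset.card_univ, Fintype.card_coe, nsmul_eq_mul, ← mul_div_assoc,
      div_le_iff₀ (by positivity)]
    nlinarith

lemma near {V : Set G} (hV : IsOpen[wk] V) {T1 : G} (h : T1 ∈ V) : ∃ N : ℕ, ∀ n : ℕ+, N ≤ n →
    ∃ (τ : Perm (Fin n)) (η : ℝ), 0 < η ∧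
      ∀ T : G, ms (fun t => lv n (T.1 t) ≠ τ (lv n t)) ≤ η → T ∈ V := by
  obtain ⟨F, δ, h1, h2, h3⟩ := nbhd hV T1 h
  obtain ⟨C, hC⟩ : ∃ C : ℝ, C = Fintype.card (F → Prop) := ⟨_, rfl⟩
  have hC0 : 0 ≤ C := hC ▸ Nat.cast_nonneg _
  have hε : 0 < δ / (2 * C + 4) := by positivity
  set ε := δ / (2 * C + 4) with hδ
  rw [eq_div_iff (by positivity)] at hδ
  obtain ⟨N, hN⟩ := appF h2 measurable_id hε
  obtain ⟨N', hN'⟩ := appF h2 T1.1.measurable hε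
  refine ⟨N + N', fun n hn => ?_⟩
  obtain ⟨f, hf⟩ := hN n (by omega)
  obtain ⟨g, hg⟩ := hN' n (by omega)
  obtain ⟨τ, hτ⟩ := exists_match f g (ε := 2 * ε) (by positivity) fun l => by
    rw [← ms_lv, ← ms_lv]
    have a := ms_or' (P := fun t => g (lv n t) = l) (Q := fun t => (fun A : F => T1.1 t ∈ A.1) = l)
      (R := fun t => (fun A : F => T1.1 t ∈ A.1) ≠ g (lv n t)) fun t _ ht => by
        rw [ht]; exact em _
    have b := ms_equiv T1.2 fun s => (fun A : F => s ∈ A.1) = l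
    have c := ms_or' (P := fun t => (fun A : F => t ∈ A.1) = l) (Q := fun t => f (lv n t) = l)
      (R := fun t => (fun A : F => id t ∈ A.1) ≠ f (lv n t)) fun t _ ht => by
        rw [← ht]; exact (em _).imp_right fun h e => h e.symm
    linarith
  refine ⟨τ, ε, hε, fun T hT => h3 T fun A hA => ?_⟩
  rw [← ms_lv, ← hC] at hτ
  have a := ms_equiv T.2 fun t => (fun A : F => id t ∈ A.1) ≠ f (lv n t)
  have b : dA A T.1 T1.1 ≤ ms (fun t => (fun A : F => id (T.1 t) ∈ A.1) ≠ f (lv n (T.1 t))) +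
      (ms (fun t => lv n (T.1 t) ≠ τ (lv n t)) + (ms (fun t => f (τ (lv n t)) ≠ g (lv n t)) +
        ms (fun t => (fun A : F => T1.1 t ∈ A.1) ≠ g (lv n t)))) := by
    refine (ms_or' fun t _ ht => ?_).trans (add_le_add le_rfl ((ms_or' fun t _ ht => ht).trans
      (add_le_add le_rfl (ms_or' fun t _ ht => ht))))
    by_contra hc
    push Not at hc
    obtain ⟨c1, c2, c3, c4⟩ := hc
    rw [c2, c3, ← c4] at c1
    exact ht (iff_of_eq (congrFun c1 ⟨A, hA⟩))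
  nlinarith

lemma pr_prod (n q : ℕ+) (z : Fin n × Fin q) : pr n (n' := n * q) (finProdFinEquiv z) = z.1 := by
  rw [Fin.ext_iff, pr_val (q := q) rfl]
  change (z.2.val + q * z.1.val) / q = _
  rw [Nat.add_mul_div_left _ _ q.pos, Nat.div_eq_of_lt z.2.2, zero_add]

noncomputable def dbl (s : Σ n : ℕ+, Perm (Fin n)) : Σ n : ℕ+, Perm (Fin n) :=
  ⟨s.1 * 2, (finProdFinEquiv (m := s.1) (n := (2 : ℕ+))).permCongr (s.2.prodCongr (Equiv.refl _))⟩

lemma dbl_spec (s : Σ n : ℕ+, Perm (Fin n)) (z : Fin (dbl s).1) :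
    pr s.1 ((dbl s).2 z) = s.2 (pr s.1 z) := by
  obtain ⟨n, τ⟩ := s
  obtain ⟨v, rfl⟩ := (finProdFinEquiv (m := n) (n := (2 : ℕ+))).surjective z
  have e : (dbl ⟨n, τ⟩).2 (finProdFinEquiv v) = finProdFinEquiv (τ v.1, v.2) :=
    congrArg (fun w => finProdFinEquiv (τ.prodCongr (Equiv.refl _) w))
      (finProdFinEquiv.symm_apply_apply v)
  exact (congrArg (pr n) e).trans ((pr_prod n 2 _).trans (congrArg τ (pr_prod n 2 v).symm))

noncomputable def dbls (s : Σ n : ℕ+, Perm (Fin n)) : ℕ → Σ n : ℕ+, Perm (Fin n)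
  | 0 => s
  | k + 1 => dbl (dbls s k)

lemma real (n : ℕ+) (τ : Perm (Fin n)) : ∃ T : G, ms (fun t => lv n (T.1 t) ≠ τ (lv n t)) ≤ 0 := by
  obtain ⟨T, hT⟩ := lim (n := fun k => (dbls ⟨n, τ⟩ k).1) (fun k => ⟨2, rfl⟩) (fun k => by
    induction k with
    | zero => exact Nat.zero_le _
    | succ k ih =>
      change k + 1 ≤ (dbls ⟨n, τ⟩ k).1 * 2
      have := (dbls ⟨n, τ⟩ k).1.pos
      omega) (fun k => (dbls ⟨n, τ⟩ k).2) (e := fun _ => 0) tendsto_const_nhds fun k => by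
    rw [add_zero]
    exact (fr_false fun z hz => hz (dbl_spec _ z)).le
  exact ⟨T, hT 0⟩

theorem adv {U : Set G} (hU : IsOpen[wk] U) (hD : @Dense G wk U) (n : ℕ+) (τ : Perm (Fin n))
    {η : ℝ} (hη : 0 < η) (B : ℕ) : ∃ n1 : ℕ+, (n : ℕ) ∣ n1 ∧ B ≤ n1 ∧
      ∃ (τ1 : Perm (Fin n1)) (η1 : ℝ), 0 < η1 ∧ fr (fun z => pr n (τ1 z) ≠ τ (pr n z)) ≤ η ∧
        ∀ T : G, ms (fun t => lv n1 (T.1 t) ≠ τ1 (lv n1 t)) ≤ η1 → T ∈ U := by
  let := wk
  obtain ⟨T0, h0⟩ := real n τ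
  have hp : 0 < η / (n : ℕ) := div_pos hη (np n)
  let W : Set G := ⋂ a : Fin n, {S : G | μ (symmDiff ((S.1 : ℝ → ℝ) ⁻¹' (lv n ⁻¹' {a}))
    ((T0.1 : ℝ → ℝ) ⁻¹' (lv n ⁻¹' {a}))) < ENNReal.ofReal (η / (n : ℕ))}
  have hW : IsOpen W := isOpen_iInter_of_finite fun a => TopologicalSpace.GenerateOpen.basic _
    ⟨T0, _, meas_lv n (measurableSet_singleton a), _, hp, rfl⟩
  obtain ⟨T1, h1⟩ := hD.inter_open_nonempty W hW ⟨T0, mem_iInter.2 fun a => by simpa using hp⟩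
  obtain ⟨N, hN⟩ := near (hW.inter hU) h1
  have hle : N + B + 1 ≤ (n * ⟨N + B + 1, Nat.succ_pos _⟩ : ℕ+) := Nat.le_mul_of_pos_left _ n.pos
  obtain ⟨τ1, η1, a, b⟩ := hN (n * ⟨N + B + 1, Nat.succ_pos _⟩) (by omega)
  have hd : (n : ℕ) ∣ (n * ⟨N + B + 1, Nat.succ_pos _⟩ : ℕ+) := ⟨_, rfl⟩
  refine ⟨_, hd, by omega, τ1, η1, a, ?_, fun T hT => (b T hT).2⟩
  obtain ⟨T2, h2⟩ := real _ τ1
  have h3 := mem_iInter.1 (b T2 (h2.trans a.le)).1
  have h4 : ms (fun t => lv n (T2.1 t) ≠ lv n (T0.1 t)) ≤ η := by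
    refine (ms_exists Finset.univ (fun a t => ¬(T2.1 t ∈ lv n ⁻¹' {a} ↔ T0.1 t ∈ lv n ⁻¹' {a}))
      fun t ht => ⟨lv n (T2.1 t), Finset.mem_univ _, fun h => ht (h.1 rfl).symm⟩).trans
      ((Finset.sum_le_sum fun a _ => ((dA_iff _ _ _ _).1 (h3 a)).le).trans ?_)
    rw [Finset.sum_const, Finset.card_univ, Fintype.card_fin, nsmul_eq_mul,
      mul_div_cancel₀ _ (np n).ne']
  rw [← ms_lv]
  refine (ms_or ?_).trans ((add_le_add h2 ((ms_or' fun t _ ht => ht).trans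
    (add_le_add h4 h0))).trans (by linarith))
  filter_upwards [ae_Ico, T2.2.quasiMeasurePreserving.ae ae_Ico] with t t1 t2 ht
  by_contra hc
  push Not at hc
  exact ht (by rw [← hc.1, pr_lv hd t2, pr_lv hd t1, hc.2.1, hc.2.2])

end Pool.Agent.H49.WH
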