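import Pool.Agent.H49.RXDefs
import Pool.Agent.H49.WH5

/-! Level systems on standard nonatomic probability spaces
(the isomorphism theorem is taken from helper39). -/

set_option autoImplicit false

namespace Pool.Agent.H49.RX

open Set Filter Topology MeasureTheory ProbabilityTheory Equiv
open scoped ENNReal Classical

theorem pit (ν : Measure ℝ) [IsProbabilityMeasure ν] [NullSingletonClass ν] :
    MeasurePreserving (cdf ν) ν (volume.restrict (Icc 0 1)) := by
  have h1 : Continuous (cdf ν) := continuous_iff_continuousAt.2 fun x => by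
    have h := (cdf ν).measure_singleton x
    rw [measure_cdf, measure_singleton, eq_comm, ENNReal.ofReal_eq_zero, sub_nonpos] at h
    rw [(monotone_cdf ν).continuousAt_iff_leftLim_eq_rightLim, (cdf ν).rightLim_eq]
    exact ((monotone_cdf ν).leftLim_le le_rfl).antisymm h
  have := Measure.isProbabilityMeasure_map (μ := ν) h1.aemeasurable
  refine ⟨h1.measurable, Measure.ext_of_Iic _ _ fun s => ?_⟩
  rw [Measure.map_apply h1.measurable measurableSet_Iic, Measure.restrict_apply measurableSet_Iic]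
  by_cases h2 : 1 ≤ s
  · rw [eq_univ_of_forall (s := cdf ν ⁻¹' Iic s) fun x => (cdf_le_one ν x).trans h2,
      inter_eq_right.2 fun x hx => hx.2.trans h2]
    simp
  rw [show Iic s ∩ Icc 0 1 = Icc 0 s from Set.ext fun x => ⟨fun h => ⟨h.2.1, h.1⟩,
    fun h => ⟨h.2, h.1, h.2.trans (not_le.1 h2).le⟩⟩, Real.volume_Icc, sub_zero]
  rcases (cdf ν ⁻¹' Iic s).eq_empty_or_nonempty with h3 | h3
  · rw [h3, measure_empty, eq_comm, ENNReal.ofReal_eq_zero]
    exact ge_of_tendsto' (tendsto_cdf_atBot ν) fun x => (not_le.1 fun h => h3.subset h).le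
  obtain ⟨b, hb⟩ := eventually_atTop.1 ((tendsto_cdf_atTop ν).eventually
    (lt_mem_nhds (not_le.1 h2)))
  have h4 : BddAbove (cdf ν ⁻¹' Iic s) := ⟨b, fun x hx => not_lt.1 fun h => (hb x h.le).not_ge hx⟩
  have h5 := (isClosed_Iic.preimage h1).csSup_mem h3 h4
  set c := sSup (cdf ν ⁻¹' Iic s) with hc
  have h6 : cdf ν ⁻¹' Iic s = Iic c := Set.ext fun x =>
    ⟨fun h => le_csSup h4 h, fun h => (monotone_cdf ν h).trans h5⟩
  rw [h6, ← ofReal_cdf]
  refine congrArg _ (le_antisymm h5 (ge_of_tendsto (x := 𝓝[>] c)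
    (h1.continuousAt.tendsto.mono_left nhdsWithin_le_nhds) ?_))
  filter_upwards [self_mem_nhdsWithin] with x hx
  exact (not_le.1 fun h => (mem_Iic.1 (h6.subset h)).not_gt hx).le

variable {X Y : Type} [MeasurableSpace X] [MeasurableSpace Y]

/-- Inverse isomorphisms modulo null sets. -/
structure AeIso (μ : Measure X) (ν : Measure Y) (φ : X → Y) (ψ : Y → X) : Prop where
  m1 : MeasurePreserving φ μ ν
  m2 : MeasurePreserving ψ ν μ
  e1 : ∀ᵐ x ∂μ, ψ (φ x) = x
  e2 : ∀ᵐ y ∂ν, φ (ψ y) = y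

theorem iso_unit [StandardBorelSpace X] (μ : Measure X) [IsProbabilityMeasure μ]
    [NullSingletonClass μ] : ∃ φ ψ, AeIso μ (volume.restrict (Icc (0 : ℝ) 1)) φ ψ := by
  have hb := measurableEmbedding_embeddingReal X
  have := Measure.isProbabilityMeasure_map (μ := μ) hb.measurable.aemeasurable
  have : NullSingletonClass (μ.map (embeddingReal X)) := ⟨fun r => by
    rw [hb.map_apply]
    exact (subsingleton_singleton.preimage hb.injective).measure_zero μ⟩
  have h1 := (pit (μ.map (embeddingReal X))).comp ⟨hb.measurable, rfl⟩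
  set F := cdf (μ.map (embeddingReal X)) with hF
  let N := (F ∘ embeddingReal X) ⁻¹' range fun q : ℚ => F q
  have h2 : MeasurableSet N := h1.measurable (countable_range _).measurableSet
  have h3 : μ N = 0 := (h1.measure_preimage (countable_range _).measurableSet.nullMeasurableSet).trans
    ((countable_range _).measure_zero _)
  have h4 : ∀ x y, x ∉ N → F (embeddingReal X x) = F y → ¬embeddingReal X x < y :=
    fun x y hx h h' => by
      obtain ⟨q, a, b⟩ := exists_rat_btwn h'
      exact hx ⟨q, ((monotone_cdf _ b.le).trans h.ge).antisymm (monotone_cdf _ a.le)⟩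
  have := h2.compl.standardBorel
  have h5 : MeasurableEmbedding fun x : ↥Nᶜ => F (embeddingReal X x) :=
    (h1.measurable.comp measurable_subtype_coe).measurableEmbedding fun x y h => Subtype.ext
      (hb.injective (le_antisymm (not_lt.1 (h4 _ _ y.2 h.symm)) (not_lt.1 (h4 _ _ x.2 h))))
  have := μ.nonempty_of_neZero
  let ψ : ℝ → X := Function.extend (fun x : ↥Nᶜ => F (embeddingReal X x)) (↑)
    fun _ => Classical.arbitrary X
  have h6 : Measurable ψ := h5.measurable_extend measurable_subtype_coe measurable_const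
  have h7 : ∀ᵐ x ∂μ, ψ (F (embeddingReal X x)) = x := measure_mono_null
    (fun x hx => by_contra fun h => hx (h5.injective.extend_apply _ _ ⟨x, h⟩)) h3
  refine ⟨_, ψ, h1, ⟨h6, ?_⟩, h7, ?_⟩
  · rw [← h1.map_eq, Measure.map_map h6 h1.measurable]
    exact (Measure.map_congr h7).trans Measure.map_id
  · rw [← h1.map_eq]
    exact (ae_map_iff h1.measurable.aemeasurable
      (measurableSet_eq_fun (h1.measurable.comp h6) measurable_id)).2
      (h7.mono fun x hx => by simp only [Function.comp, hx, id])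

variable {μ : Measure X} {ν : Measure Y} {φ : X → Y} {ψ : Y → X}

theorem genuine [StandardBorelSpace X] {f g : X → X} (h : AeIso μ μ f g) :
    ∃ T : Aut μ, ∀ᵐ x ∂μ, T.1 x = f x := by
  let A := {x | g (f x) = x ∧ f (g x) = x}
  have h1 : MeasurableSet A := (measurableSet_eq_fun (h.m2.comp h.m1).measurable measurable_id).inter
    (measurableSet_eq_fun (h.m1.comp h.m2).measurable measurable_id)
  let G := {x | ∀ n, f^[n] x ∈ A ∧ g^[n] x ∈ A}
  have h2 : MeasurableSet G := by
    simp only [G, ofPred_forall]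
    exact MeasurableSet.iInter fun n =>
      ((h.m1.iterate n).measurable h1).inter ((h.m2.iterate n).measurable h1)
  have h3 : ∀ᵐ x ∂μ, x ∈ G := ae_all_iff.2 fun n =>
    ((h.m1.iterate n).quasiMeasurePreserving.ae (h.e1.and h.e2)).and
      ((h.m2.iterate n).quasiMeasurePreserving.ae (h.e1.and h.e2))
  have h0 : ∀ x ∈ G, g (f x) = x ∧ f (g x) = x := fun x hx => (hx 0).1
  have h4 : ∀ x ∈ G, f x ∈ G := fun x hx n => ⟨(hx (n + 1)).1, by
    cases n with
    | zero => exact (hx 1).1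
    | succ n => rw [Function.iterate_succ_apply, (h0 x hx).1]; exact (hx n).2⟩
  have h5 : ∀ x ∈ G, g x ∈ G := fun x hx n => ⟨by
    cases n with
    | zero => exact (hx 1).2
    | succ n => rw [Function.iterate_succ_apply, (h0 x hx).2]; exact (hx n).1, (hx (n + 1)).2⟩
  have h6 : G.piecewise f id =ᵐ[μ] f := h3.mono fun x hx => piecewise_eq_of_mem _ _ _ hx
  have h7 : G.piecewise g id =ᵐ[μ] g := h3.mono fun x hx => piecewise_eq_of_mem _ _ _ hx
  refine ⟨⟨⟨G.piecewise f id, G.piecewise g id, fun x => ?_, fun x => ?_⟩,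
    h.m1.congr (h.m1.measurable.piecewise h2 measurable_id) h6.symm,
    h.m2.congr (h.m2.measurable.piecewise h2 measurable_id) h7.symm⟩, h6⟩
  · by_cases hx : x ∈ G
    · rw [piecewise_eq_of_mem _ _ _ hx, piecewise_eq_of_mem _ _ _ (h4 x hx), (h0 x hx).1]
    · simp [hx]
  · by_cases hx : x ∈ G
    · rw [piecewise_eq_of_mem _ _ _ hx, piecewise_eq_of_mem _ _ _ (h5 x hx), (h0 x hx).2]
    · simp [hx]

theorem AeIso.lift [StandardBorelSpace X] (h : AeIso μ ν φ ψ) (R : Aut ν) :
    ∃ T : Aut μ, ∀ᵐ x ∂μ, φ (T.1 x) = R.1 (φ x) := by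
  obtain ⟨T, hT⟩ := genuine (μ := μ) (f := ψ ∘ R.1 ∘ φ) (g := ψ ∘ R.1.symm ∘ φ)
    ⟨h.m2.comp (R.2.1.comp h.m1), h.m2.comp (R.2.2.comp h.m1), by
      filter_upwards [h.e1, (R.2.1.comp h.m1).quasiMeasurePreserving.ae h.e2] with x a b
      simp only [Function.comp] at b ⊢
      rw [b, Equiv.symm_apply_apply, a], by
      filter_upwards [h.e1, (R.2.2.comp h.m1).quasiMeasurePreserving.ae h.e2] with x a b
      simp only [Function.comp] at b ⊢
      rw [b, Equiv.apply_symm_apply, a]⟩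
  refine ⟨T, ?_⟩
  filter_upwards [hT, (R.2.1.comp h.m1).quasiMeasurePreserving.ae h.e2] with x a b
  rw [a]
  exact b


noncomputable def mr (ρ : Measure X) (P : X → Prop) : ℝ := ρ.real {z | P z}

section
variable {ρ : Measure X} [IsFiniteMeasure ρ] {P Q R : X → Prop}

omit [IsFiniteMeasure ρ] in
lemma mr_nonneg (P : X → Prop) : 0 ≤ mr ρ P := measureReal_nonneg

lemma mr_ae (h : ∀ᵐ t ∂ρ, P t → Q t) : mr ρ P ≤ mr ρ Q :=
  ENNReal.toReal_mono (measure_ne_top _ _) (measure_mono_ae h)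

lemma mr_mono (h : ∀ t, P t → Q t) : mr ρ P ≤ mr ρ Q := mr_ae (.of_forall h)

lemma mr_or (h : ∀ᵐ t ∂ρ, P t → Q t ∨ R t) : mr ρ P ≤ mr ρ Q + mr ρ R :=
  (mr_ae h).trans (measureReal_union_le {t | Q t} {t | R t})

lemma mr_or' : mr ρ (fun t => Q t ∨ R t) ≤ mr ρ Q + mr ρ R := mr_or (.of_forall fun _ h => h)

lemma mr_exists {ι : Type} (s : Finset ι) (Q : ι → X → Prop)
    (h : ∀ t, P t → ∃ i ∈ s, Q i t) : mr ρ P ≤ ∑ i ∈ s, mr ρ (Q i) :=
  (measureReal_mono (fun t ht => by simpa using h t ht) (measure_ne_top _ _)).trans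
    (measureReal_biUnion_finset_le s fun i => {t | Q i t})

omit [IsFiniteMeasure ρ] in
lemma mr_comp {f : Y → X} (hf : MeasurePreserving f ν ρ) (hP : MeasurableSet {t | P t}) :
    mr ν (fun t => P (f t)) = mr ρ P :=
  congrArg ENNReal.toReal (hf.measure_preimage hP.nullMeasurableSet)

lemma mr_comp_le {f : Y → X} (hf : MeasurePreserving f ν ρ) (P : X → Prop) :
    mr ν (fun t => P (f t)) ≤ mr ρ P :=
  ENNReal.toReal_mono (measure_ne_top _ _) (hf.measure_preimage_le {t | P t})

lemma mr_aut (T : Aut ρ) (P : X → Prop) : mr ρ (fun t => P (T.1 t)) = mr ρ P :=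
  le_antisymm (mr_comp_le T.2.1 P) (by simpa using mr_comp_le T.2.2 fun t => P (T.1 t))

end

structure Lev (ν : Measure Y) where
  lv : (n : ℕ+) → Y → Fin n
  meas : ∀ n, Measurable (lv n)
  unif : ∀ n P, mr ν (fun y => P (lv n y)) = WH.fr P
  comp : ∀ n n' : ℕ+, (n : ℕ) ∣ n' → ∀ᵐ y ∂ν, WH.pr n (lv n' y) = lv n y
  app : ∀ A, MeasurableSet A → ∀ ε > 0, ∃ N : ℕ, ∀ n : ℕ+, N ≤ n →
    ∃ D : Fin n → Prop, mr ν (fun y => ¬(y ∈ A ↔ D (lv n y))) ≤ ε
  real : ∀ (n : ℕ+) (π : Perm (Fin n)), ∃ R : Aut ν, ∀ᵐ y ∂ν, lv n (R.1 y) = π (lv n y)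

theorem exists_lev [StandardBorelSpace Y] (ν : Measure Y) [IsProbabilityMeasure ν]
    [NullSingletonClass ν] : Nonempty (Lev ν) := by
  obtain ⟨φ, ψ, h⟩ := iso_unit ν
  refine ⟨⟨fun n y => WH.lv n (φ y), fun n => (WH.meas_lv n).comp h.m1.measurable, fun n P => ?_,
    fun n n' hn => ?_, fun A hA ε hε => ?_, fun n π => ?_⟩⟩
  · exact (mr_comp h.m1 (P := fun t => P (WH.lv n t))
      (WH.meas_lv n (MeasurableSet.of_discrete (s := {a | P a})))).trans (WH.ms_lv n P)
  · filter_upwards [h.m1.quasiMeasurePreserving.ae WH.ae_Ico] with y hy using WH.pr_lv hn hy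
  · obtain ⟨N, hN⟩ := WH.app (h.m2.measurable hA) hε
    refine ⟨N, fun n hn => (hN n hn).imp fun D hD => le_trans (mr_ae ?_)
      ((mr_comp_le h.m1 fun t => ¬(t ∈ ψ ⁻¹' A ↔ D (WH.lv n t))).trans hD)⟩
    filter_upwards [h.e1] with y hy
    rw [mem_preimage, hy]; exact id
  · obtain ⟨T, hT⟩ := WH.real n π
    obtain ⟨R, hR⟩ := h.lift ⟨T.1.toEquiv, T.2, T.2.symm T.1⟩
    have : ∀ᵐ t ∂WH.μ, WH.lv n (T.1 t) = π (WH.lv n t) :=
      (measureReal_eq_zero_iff (measure_ne_top _ _)).1 (le_antisymm hT measureReal_nonneg)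
    refine ⟨R, ?_⟩
    filter_upwards [hR, h.m1.quasiMeasurePreserving.ae this] with y a b
    rw [a]; exact b

/-- measurable maps into a discrete space -/
def FM {α : Type} (f : X → α) : Prop := @Measurable X α _ ⊤ f

lemma FM.of {α : Type} [Countable α] {f : X → α} (h : ∀ a, MeasurableSet {x | f x = a}) : FM f :=
  @measurable_to_countable' α X ⊤ _ _ f h

lemma FM.set {α : Type} {f : X → α} (h : FM f) (P : α → Prop) : MeasurableSet {x | P (f x)} :=
  h (t := {a | P a}) trivial

lemma FM.map {α β : Type} {f : X → α} (h : FM f) (g : α → β) : FM fun x => g (f x) :=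
  fun s _ => h.set fun a => g a ∈ s

lemma FM.meas {α β : Type} [MeasurableSpace β] {f : X → α} (h : FM f) (g : α → β) :
    Measurable fun x => g (f x) := fun s _ => h.set fun a => g a ∈ s

lemma FM.pre {α : Type} {f : X → α} (h : FM f) {g : Y → X} (hg : Measurable g) :
    FM fun y => f (g y) := fun s _ => hg (h.set fun a => a ∈ s)

lemma FM.pair {α β : Type} [Countable α] [Countable β] {f : X → α} {g : X → β} (h : FM f)
    (h' : FM g) : FM fun x => (f x, g x) := FM.of fun a => by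
  simpa only [Prod.ext_iff, ofPred_and] using (h.set (· = a.1)).inter (h'.set (· = a.2))

lemma FM.pi {ι α : Type} [Finite ι] [Countable α] {f : ι → X → α} (h : ∀ i, FM (f i)) :
    FM fun x i => f i x := FM.of fun a => by
  simpa only [funext_iff, ofPred_forall] using MeasurableSet.iInter fun i => (h i).set (· = a i)

lemma FM.prop {A : Set X} (h : MeasurableSet A) : FM fun x => x ∈ A := FM.of fun a => by
  by_cases ha : a
  · simpa [ha] using h
  · convert h.compl using 1
    ext; simp [ha]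

lemma FM.bind {α β : Type} [Countable α] {f : X → α} (h : FM f) {g : α → X → β}
    (h' : ∀ a, FM (g a)) : FM fun x => g (f x) x := fun s _ => by
  have : (fun x => g (f x) x) ⁻¹' s = ⋃ a, {x | f x = a} ∩ {x | g a x ∈ s} := by ext; simp
  rw [this]
  exact .iUnion fun a => (h.set (· = a)).inter ((h' a).set (· ∈ s))

lemma FM.mbind {α β : Type} [Countable α] [MeasurableSpace β] {f : X → α} (h : FM f)
    {g : α → X → β} (h' : ∀ a, Measurable (g a)) : Measurable fun x => g (f x) x := fun s hs => by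
  have : (fun x => g (f x) x) ⁻¹' s = ⋃ a, {x | f x = a} ∩ g a ⁻¹' s := by ext; simp
  rw [this]
  exact .iUnion fun a => (h.set (· = a)).inter (h' a hs)

lemma Lev.fm (Λ : Lev ν) (n : ℕ+) : FM (Λ.lv n) :=
  FM.of fun a => Λ.meas n (measurableSet_singleton a)

end Pool.Agent.H49.RX
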