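import Pool.Agent.H49.WH3
import Pool.Agent.H49.WH5

/-! The recursive construction of `T` and of a weakly homoclinic involution `S`. -/

set_option autoImplicit false

namespace Pool.Agent.H49.WH

open MeasureTheory Filter Topology Set Equiv
open scoped Classical

structure St where
  n : ℕ+
  π : Perm (Fin n)
  c : Fin n → ℤ
  m : ℕ+
  L : ℕ
  η : ℝ

noncomputable def dl (k : ℕ) : ℝ := (1 / 2) ^ k

lemma dl_pos (k : ℕ) : 0 < dl k := by unfold dl; positivity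

lemma dl_succ (k : ℕ) : dl (k + 1) = dl k / 2 := by unfold dl; ring

lemma dl_tendsto : Tendsto dl atTop (𝓝 0) :=
  tendsto_pow_atTop_nhds_zero_of_lt_one (by norm_num) (by norm_num)

structure Good (k : ℕ) (s : St) : Prop where
  anti : Anti s.π s.c
  rig : Rig s.π s.c (pr s.m) s.L (dl k)
  dvd : (s.m : ℕ) ∣ s.n
  big : k ≤ s.n
  len : k < s.L
  pos : 0 < s.η
  small : s.η * s.L ≤ dl k

structure Rel (U : Set G) (k : ℕ) (s s' : St) : Prop where
  dvd : (s.n : ℕ) ∣ s'.n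
  col : s'.m = s.n
  devT : fr (fun z => pr s.n (s'.π⁻¹ z) ≠ s.π⁻¹ (pr s.n z)) ≤ s.η / 2
  half : s'.η ≤ s.η / 2
  devS : fr (fun z => pr s.n ((s'.π ^ s'.c z) z) ≠ (s.π ^ s.c (pr s.n z)) (pr s.n z)) ≤ dl k / 8
  blk : ∀ m : ℤ, ∑ j ∈ Finset.range s.L,
    fr (fun z => pr s.m ((s'.π ^ (m + j + s'.c z)) z) ≠ pr s.m ((s'.π ^ (m + j)) z)) ≤
      s.L * (3 * dl k)
  mem : ∀ T : G, ms (fun t => lv s'.n (T.1 t) ≠ s'.π⁻¹ (lv s'.n t)) ≤ s'.η → T ∈ U

lemma exists_E' (n q : ℕ+) : ∃ (n2 : ℕ+) (E : Fin n × Fin q ≃ Fin n2), (∀ z, pr n (E z) = z.1) ∧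
    (n : ℕ) ∣ n2 := ⟨n * q, finProdFinEquiv, fun z => pr_prod n q z, q, PNat.mul_coe n q⟩

lemma exists_E (n : ℕ+) {q : ℕ} (hq : 0 < q) : ∃ (n2 : ℕ+) (E : Fin n × Fin q ≃ Fin n2),
    (∀ z, pr n (E z) = z.1) ∧ (n : ℕ) ∣ n2 := exists_E' n ⟨q, hq⟩

theorem next {U : Set G} (hU : IsOpen[wk] U) (hD : @Dense G wk U) {k : ℕ} {s : St} (h : Good k s) :
    ∃ s', Good (k + 1) s' ∧ Rel U k s s' := by
  obtain ⟨n, π, c, m, L, η⟩ := s
  obtain ⟨g1, g2, g3, g4, g5, g6, g7⟩ := h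
  dsimp only at *
  obtain ⟨M, hM⟩ := exists_bound c
  have d0 := dl_pos k
  have d1 := dl_pos (k + 1)
  obtain ⟨a, a0, a1, a2⟩ : ∃ a : ℝ, 0 < a ∧ a ≤ η / 4 ∧ (2 * M + 8 * L + 1) * a ≤ dl k / 16 :=
    ⟨min (η / 4) (dl k / 16 / (2 * M + 8 * L + 1)), by positivity, min_le_left _ _,
      (le_div_iff₀' (by positivity)).1 (min_le_right _ _)⟩
  obtain ⟨n1, b1, b2, τ1, η1, b3, b4, b5⟩ := adv hU hD n π⁻¹ a0 (k + 1)
  have b6 : fr (fun z => pr n (τ1⁻¹ z) ≠ π (pr n z)) ≤ a := by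
    have := fr_inv (pr n) τ1 π⁻¹
    rw [inv_inv] at this
    exact this.le.trans b4
  obtain ⟨q, hq, hs⟩ := step g1 d0.le g2 hM (pr n) τ1⁻¹ b6 (k + 2) (η2 := min a (η1 / 2))
    (γ := dl k / 16) (δ' := dl (k + 1)) (by positivity) (by positivity) d1
  obtain ⟨n2, E, hE, hd⟩ := exists_E n1 hq
  obtain ⟨π2, c2, L', e0, e1, e2, e3, e4, e5⟩ := hs (Fin n2) E (pr n1) hE
  simp only [pr_pr b1, pr_pr g3] at e3 e5
  have m1 := min_le_left a (η1 / 2)
  have m2 := min_le_right a (η1 / 2)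
  have hM0 : (0 : ℝ) ≤ M * a := by positivity
  have hL0 : (0 : ℝ) ≤ L * a := by positivity
  obtain ⟨η', f0, f1, f2, f3⟩ : ∃ η' : ℝ, 0 < η' ∧ η' ≤ η / 2 ∧ η' ≤ η1 / 2 ∧
      η' * L' ≤ dl (k + 1) := by
    refine ⟨min (min (η / 2) (η1 / 2)) (dl (k + 1) / (L' + 1)), by positivity,
      (min_le_left _ _).trans (min_le_left _ _), (min_le_left _ _).trans (min_le_right _ _), ?_⟩
    have := (le_div_iff₀ (by positivity)).1
      (min_le_right (min (η / 2) (η1 / 2)) (dl (k + 1) / (L' + 1)))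
    have : 0 < min (min (η / 2) (η1 / 2)) (dl (k + 1) / (L' + 1)) := by positivity
    linarith
  have r1 : Rig π2 c2 (pr n) L' (dl (k + 1)) := fun x w => by
    refine le_trans (cnt_mono fun j _ hj => ?_) (e4 x w)
    exact fun e => hj (by rw [← pr_pr b1, e, pr_pr b1])
  have r2 : fr (fun z => pr n (π2⁻¹ z) ≠ π⁻¹ (pr n z)) ≤ η / 2 := by
    rw [fr_inv (pr n) π2 π]
    have := fr_pr hd fun z => pr n (τ1⁻¹ z) ≠ π (pr n z)
    refine (fr_or (Q := fun z => pr n1 (π2 z) ≠ τ1⁻¹ (pr n1 z))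
      (R := fun z => pr n (τ1⁻¹ (pr n1 z)) ≠ π (pr n (pr n1 z))) fun z hz => ?_).trans (by linarith)
    by_contra hc
    push Not at hc
    exact hz (by rw [← pr_pr b1, hc.1, hc.2, pr_pr b1])
  have r3 : dl k + 4 * L * (a + min a (η1 / 2)) + 2 * M * a ≤ 3 * dl k := by
    have : (L : ℝ) * min a (η1 / 2) ≤ L * a := mul_le_mul_of_nonneg_left m1 (Nat.cast_nonneg _)
    linarith
  have r4 : ∀ T : G, ms (fun t => lv n2 (T.1 t) ≠ π2⁻¹ (lv n2 t)) ≤ η' → T ∈ U := fun T hT => by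
    refine b5 T ?_
    rw [← fr_inv (pr n1) π2 τ1⁻¹, inv_inv, ← ms_lv] at e2
    refine (ms_or ?_).trans ((add_le_add hT e2).trans (by linarith))
    filter_upwards [ae_Ico, T.2.quasiMeasurePreserving.ae ae_Ico] with t t1 t2 ht
    by_contra hc
    push Not at hc
    exact ht (by rw [← pr_lv hd t2, hc.1, hc.2, pr_lv hd t1])
  have r5 : dl k / 16 + 2 * M * a ≤ dl k / 8 := by linarith
  exact ⟨⟨n2, π2, c2, n, L', η'⟩,
    ⟨e1, r1, b1.trans hd, b2.trans (Nat.le_of_dvd n2.pos hd), e0, f0, f3⟩,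
    ⟨b1.trans hd, rfl, r2, f1, e3.trans r5,
      fun i => (e5 i).trans (mul_le_mul_of_nonneg_left r3 (Nat.cast_nonneg _)), r4⟩⟩

noncomputable def s0 : St := ⟨2, swap 0 1, ![1, -1], 1, 1, 1⟩

lemma good0 : Good 0 s0 :=
  ⟨by change ∀ x : Fin 2, (![1, -1] : Fin 2 → ℤ) ((swap (0 : Fin 2) 1 ^ (![1, -1] : Fin 2 → ℤ) x) x) =
      -(![1, -1] : Fin 2 → ℤ) x
      decide,
    fun x w => (cnt_le _ _).trans (by simp [dl]), one_dvd _, Nat.zero_le _, one_pos, one_pos,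
    by simp [s0, dl]⟩

lemma blocks {f : ℕ → ℝ} (hf : ∀ i, 0 ≤ f i) {L N : ℕ} {D : ℝ} (hD : 0 ≤ D) (hL : 0 < L)
    (h : ∀ m, ∑ j ∈ Finset.range L, f (m + j) ≤ L * D) (hN : L ≤ N) :
    ∑ i ∈ Finset.Icc 1 N, f i ≤ 2 * N * D := by
  have h1 : ∀ K, ∑ j ∈ Finset.range (K * L), f (1 + j) ≤ (K * L : ℕ) * D := fun K => by
    induction K with
    | zero => simp
    | succ K ih =>
      have := h (1 + K * L)
      rw [add_mul, one_mul, Finset.sum_range_add]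
      simp only [add_assoc] at this
      push_cast at *
      linarith
  have h2 : N < (N / L + 1) * L := by rw [mul_comm]; exact Nat.lt_mul_div_succ N hL
  have h3 : (N / L + 1) * L ≤ 2 * N := by
    have := Nat.div_mul_le_self N L
    rw [add_mul]; omega
  have h4 := h1 (N / L + 1)
  have h5 : ∑ i ∈ Finset.Icc 1 N, f i = ∑ j ∈ Finset.range N, f (1 + j) := by
    rw [← Finset.Ico_add_one_right_eq_Icc, Finset.sum_Ico_eq_sum_range, Nat.add_sub_cancel]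
  rw [h5]
  refine ((Finset.sum_le_sum_of_subset_of_nonneg (Finset.range_mono h2.le)
    fun _ _ _ => hf _).trans h4).trans (mul_le_mul_of_nonneg_right ?_ hD)
  exact_mod_cast h3

lemma between {L : ℕ → ℕ} (h : ∀ k, k < L k) {k1 N : ℕ} (hN : L k1 ≤ N) :
    ∃ k ≥ k1, L k ≤ N ∧ N < L (k + 1) := by
  by_contra hc
  push Not at hc
  have : ∀ k ≥ k1, L k ≤ N := fun k hk => by
    induction hk with
    | refl => exact hN
    | step hk ih => exact hc _ hk ih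
  have := this (max k1 N) (le_max_left _ _)
  have := h (max k1 N)
  omega

lemma iter_dev {R : ℝ ≃ᵐ ℝ} (hR : MeasurePreserving R μ μ) {n : ℕ+} {π : Perm (Fin n)} {η : ℝ}
    (h : ms (fun t => lv n (R t) ≠ π (lv n t)) ≤ η) (i : ℕ) :
    ms (fun t => lv n (R^[i] t) ≠ (π ^ (i : ℤ)) (lv n t)) ≤ i * η := by
  induction i with
  | zero => simp [ms]
  | succ i ih =>
    have := ms_iter hR i fun t => lv n (R t) ≠ π (lv n t)
    refine (ms_or' (Q := fun t => lv n (R (R^[i] t)) ≠ π (lv n (R^[i] t)))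
      (R := fun t => lv n (R^[i] t) ≠ (π ^ (i : ℤ)) (lv n t)) fun t _ ht => ?_).trans
      (by push_cast; linarith)
    by_contra hc
    push Not at hc
    exact ht (by rw [Function.iterate_succ_apply', hc.1, hc.2, Nat.cast_succ, add_comm,
      zpow_one_add, Perm.mul_apply])

theorem exists_pair {U : ℕ → Set G} (hU : ∀ k, IsOpen[wk] (U k)) (hD : ∀ k, @Dense G wk (U k)) :
    ∃ T S : G, (∀ k, T ∈ U k) ∧ (¬∀ᵐ x ∂μ, S.1 x = x) ∧ ∀ (B : ℕ), ∃ n : ℕ+, B ≤ n ∧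
      ∀ θ > 0, ∀ᶠ N : ℕ in atTop, ∑ i ∈ Finset.Icc 1 N,
        ms (fun y => lv n (T.1.symm^[i] (S.1 y)) ≠ lv n (T.1.symm^[i] y)) ≤ θ * N := by
  choose nx h1 h2 using fun k (s : {s // Good k s}) => next (hU k) (hD k) s.2
  let sq : ∀ k, {s // Good k s} := fun k => Nat.rec ⟨s0, good0⟩ (fun k s => ⟨nx k s, h1 k s⟩) k
  obtain ⟨s, g, r, z⟩ : ∃ s : ℕ → St, (∀ k, Good k (s k)) ∧ (∀ k, Rel (U k) k (s k) (s (k + 1))) ∧
    s 0 = s0 := ⟨fun k => (sq k).1, fun k => (sq k).2, fun k => h2 k (sq k), rfl⟩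
  have e1 : Tendsto (fun k => (s k).η) atTop (𝓝 0) :=
    squeeze_zero (fun k => (g k).pos.le) (fun k => le_trans (le_mul_of_one_le_right (g k).pos.le
      (by exact_mod_cast (Nat.succ_le_succ (Nat.zero_le k)).trans (g k).len)) (g k).small) dl_tendsto
  obtain ⟨T, hT⟩ := lim (fun k => (r k).dvd) (fun k => (g k).big) (fun k => (s k).π⁻¹) e1
    fun k => by linarith [(r k).devT, (r k).half]
  obtain ⟨S, hS⟩ := lim (fun k => (r k).dvd) (fun k => (g k).big) (fun k => sg (g k).anti)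
    (e := fun k => dl k / 4) (by simpa using dl_tendsto.div_const 4)
    fun k => by simp only [sg_apply]; linarith [(r k).devS, dl_succ k]
  refine ⟨T, S, fun k => (r k).mem T (hT _), fun hc => ?_, fun B => ⟨(s B).n, (g B).big, ?_⟩⟩
  · have a := hS 0
    have b : ms (fun t => lv (s 0).n t ≠ sg (g 0).anti (lv (s 0).n t)) ≤ _ :=
      (ms_ae (hc.mono fun t ht h => by rwa [ht])).trans a
    rw [ms_lv (s 0).n fun x => x ≠ sg (g 0).anti x, fr_true] at b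
    · norm_num [dl] at b
    · simp only [sg_apply]
      rw [z]
      change ∀ x : Fin 2, x ≠ (swap (0 : Fin 2) 1 ^ (![1, -1] : Fin 2 → ℤ) x) x
      decide
  intro θ hθ
  obtain ⟨k1, hk1⟩ := eventually_atTop.1 (dl_tendsto.eventually (gt_mem_nhds
    (show 0 < θ / 8 by positivity)))
  refine eventually_atTop.2 ⟨(s (max k1 (B + 1))).L, fun N hN => ?_⟩
  obtain ⟨k, k1', k2, k3⟩ := between (fun k => (g k).len) hN
  have dk := hk1 k ((le_max_left _ _).trans k1')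
  have d0 := dl_pos k
  have hd : ((s B).n : ℕ) ∣ (s k).m := by
    obtain ⟨k, rfl⟩ : ∃ k', k = k' + 1 := ⟨k - 1, by omega⟩
    rw [(r k).col]
    exact dvd_of_le (fun k => (r k).dvd) (by omega)
  have hd' : ((s k).m : ℕ) ∣ (s (k + 1)).n := (g k).dvd.trans (r k).dvd
  have hR := T.2.symm T.1
  have hdev : ms (fun t => lv _ (T.1.symm t) ≠ (s (k + 1)).π (lv _ t)) ≤ (s (k + 1)).η := by
    rw [← ms_equiv T.2]
    refine le_trans (ms_mono fun t _ h => ?_) (hT (k + 1))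
    refine fun e => h ?_
    rw [e]; simp
  have key : ∀ i ∈ Finset.Icc 1 N,
      ms (fun y => lv (s B).n (T.1.symm^[i] (S.1 y)) ≠ lv (s B).n (T.1.symm^[i] y)) ≤
      fr (fun z => pr (s k).m (((s (k + 1)).π ^ (i + (s (k + 1)).c z)) z) ≠
        pr (s k).m (((s (k + 1)).π ^ (i : ℤ)) z)) + 2 * dl k := fun i hi => by
    have a := iter_dev hR hdev i
    have b := (ms_equiv S.2 _).le.trans a
    have c := hS (k + 1)
    have d : i * (s (k + 1)).η ≤ dl (k + 1) := by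
      refine le_trans ?_ (g (k + 1)).small
      rw [mul_comm]
      exact mul_le_mul_of_nonneg_left
        (by exact_mod_cast (Finset.mem_Icc.1 hi).2.trans k3.le) (g _).pos.le
    rw [← ms_lv]
    refine (ms_or ?_).trans (add_le_add le_rfl ((ms_or' fun t _ ht => ht).trans ((add_le_add a
      ((ms_or' fun t _ ht => ht).trans (add_le_add b c))).trans (by linarith [dl_succ k]))))
    filter_upwards [(hR.iterate i).quasiMeasurePreserving.ae ae_Ico,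
      ((hR.iterate i).comp S.2).quasiMeasurePreserving.ae ae_Ico] with t t1 t2 ht
    by_contra hc
    push Not at hc
    obtain ⟨c1, c2, c3, c4⟩ := hc
    rw [c4, sg_apply, ← Perm.mul_apply, ← zpow_add] at c3
    rw [← c2, ← c3, pr_lv hd' t1] at c1
    erw [pr_lv hd' t2] at c1
    exact ht (by erw [← pr_lv hd t1, ← pr_lv hd t2, c1])
  refine (Finset.sum_le_sum key).trans ?_
  have := blocks (f := fun i : ℕ => fr fun z => pr (s k).m (((s (k + 1)).π ^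
    (i + (s (k + 1)).c z)) z) ≠ pr (s k).m (((s (k + 1)).π ^ (i : ℤ)) z)) (fun _ => fr_nonneg _)
    (D := 3 * dl k) (by positivity) ((Nat.zero_le k).trans_lt (g k).len)
    (fun m => by simpa only [Nat.cast_add] using (r k).blk m) k2
  rw [Finset.sum_add_distrib, Finset.sum_const, Nat.card_Icc, nsmul_eq_mul, Nat.add_sub_cancel]
  have hN0 : (0 : ℝ) ≤ N := Nat.cast_nonneg _
  nlinarith

theorem homoclinic {T S : G} (h : ∀ (B : ℕ), ∃ n : ℕ+, B ≤ n ∧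
      ∀ θ > 0, ∀ᶠ N : ℕ in atTop, ∑ i ∈ Finset.Icc 1 N,
        ms (fun y => lv n (T.1.symm^[i] (S.1 y)) ≠ lv n (T.1.symm^[i] y)) ≤ θ * N)
    {A : Set ℝ} (hA : MeasurableSet A) {ε : ℝ} (hε : 0 < ε) :
    Tendsto (fun N : ℕ => (((Finset.Icc 1 N).filter (fun i : ℕ =>
      μ (symmDiff (((T.1.symm : ℝ → ℝ)^[i] ∘ (S.1 : ℝ → ℝ) ∘ (T.1 : ℝ → ℝ)^[i]) ⁻¹' A) A)
        < ENNReal.ofReal ε)).card : ℝ) / (N : ℝ)) atTop (𝓝 1) := by
  obtain ⟨B, hB⟩ := app hA (show 0 < ε / 4 by positivity)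
  obtain ⟨n, h1, h2⟩ := h B
  obtain ⟨D, hD⟩ := hB n h1
  have hR := T.2.symm T.1
  have key : ∀ i : ℕ, ¬μ (symmDiff (((T.1.symm : ℝ → ℝ)^[i] ∘ (S.1 : ℝ → ℝ) ∘
      (T.1 : ℝ → ℝ)^[i]) ⁻¹' A) A) < ENNReal.ofReal ε →
      ε / 2 ≤ ms (fun y => lv n (T.1.symm^[i] (S.1 y)) ≠ lv n (T.1.symm^[i] y)) := fun i hi => by
    have a := not_lt.1 fun h => hi ((dA_iff A _ id ε).2 h)
    have b := ms_iter T.2 i fun y => ¬(T.1.symm^[i] (S.1 y) ∈ A ↔ T.1.symm^[i] y ∈ A)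
    simp only [Function.LeftInverse.iterate T.1.symm_apply_apply i _] at b
    have c := (ms_iter hR i _).le.trans hD
    have d := (ms_equiv S.2 _).le.trans c
    have e := ms_or' (P := fun y => ¬(T.1.symm^[i] (S.1 y) ∈ A ↔ T.1.symm^[i] y ∈ A))
      (Q := fun y => lv n (T.1.symm^[i] (S.1 y)) ≠ lv n (T.1.symm^[i] y))
      (R := fun y => ¬(T.1.symm^[i] y ∈ A ↔ D (lv n (T.1.symm^[i] y))) ∨
        ¬(T.1.symm^[i] (S.1 y) ∈ A ↔ D (lv n (T.1.symm^[i] (S.1 y))))) fun y _ hy => by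
        by_contra hc
        push Not at hc
        exact hy (by rw [hc.2.1, hc.2.2, hc.1])
    have f := (ms_or' fun t _ ht => ht).trans (add_le_add c d)
    change ε ≤ ms fun y => ¬(T.1.symm^[i] (S.1 (T.1^[i] y)) ∈ A ↔ y ∈ A) at a
    linarith
  refine Metric.tendsto_nhds.2 fun θ hθ => ?_
  filter_upwards [h2 (θ * ε / 4) (by positivity), eventually_gt_atTop 0] with N h3 h4
  set P := fun i : ℕ => μ (symmDiff (((T.1.symm : ℝ → ℝ)^[i] ∘ (S.1 : ℝ → ℝ) ∘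
      (T.1 : ℝ → ℝ)^[i]) ⁻¹' A) A) < ENNReal.ofReal ε
  have h5 := Finset.card_filter_add_card_filter_not (s := Finset.Icc 1 N) P
  rw [Nat.card_Icc, Nat.add_sub_cancel] at h5
  have h6 := (Finset.card_nsmul_le_sum _ _ _ fun i hi => key i (Finset.mem_filter.1 hi).2).trans
    ((Finset.sum_le_sum_of_subset_of_nonneg (Finset.filter_subset (fun i => ¬P i) _)
      fun _ _ _ => ms_nonneg _).trans h3)
  rw [nsmul_eq_mul] at h6
  have h7 : (0 : ℝ) < N := Nat.cast_pos.2 h4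
  have h8 : (((Finset.Icc 1 N).filter P).card : ℝ) +
    ((Finset.Icc 1 N).filter fun i => ¬P i).card = N := by exact_mod_cast h5
  have h9 : (0 : ℝ) ≤ ((Finset.Icc 1 N).filter fun i => ¬P i).card := Nat.cast_nonneg _
  rw [Real.dist_eq, div_sub_one h7.ne', abs_div, abs_of_pos h7, div_lt_iff₀ h7,
    abs_of_nonpos (by linarith)]
  nlinarith [mul_pos hθ h7]

end Pool.Agent.H49.WH
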