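import Pool.Agent.H49.RX1
import Pool.Agent.H49.RX2
import Pool.Agent.H49.WH6

/-! Neighbourhoods in the space of extensions. -/

set_option autoImplicit false

namespace Pool.Agent.H49.RX

open Set Filter Topology MeasureTheory Equiv Pool.Agent.H49.WH
open scoped ENNReal Classical

variable {X Y : Type} [MeasurableSpace X] [MeasurableSpace Y] {μ : Measure X} {ν : Measure Y}

lemma aut_img (S : Aut μ) {A : Set X} (hA : MeasurableSet A) : MeasurableSet (S.1 '' A) := by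
  rw [Equiv.image_eq_preimage_symm]; exact S.2.2.measurable hA

lemma ext_mul {T T' : Aut μ} {S S' : Aut (μ.prod ν)} (h : S ∈ Ext T ν) (h' : S' ∈ Ext T' ν) :
    S * S' ∈ Ext (T * T') ν := by
  obtain ⟨Φ, h⟩ := h
  obtain ⟨Φ', h'⟩ := h'
  exact ⟨fun x => Φ (T'.1 x) * Φ' x, fun x y => by simp [h, h']⟩

lemma ext_inv {T : Aut μ} {S : Aut (μ.prod ν)} (h : S ∈ Ext T ν) : S⁻¹ ∈ Ext T⁻¹ ν := by
  obtain ⟨Φ, h⟩ := h
  exact ⟨fun x => (Φ (T⁻¹.1 x))⁻¹, fun x y => S.1.symm_apply_eq.2 (by simp [h])⟩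

lemma ext_zpow {T : Aut μ} {S : Aut (μ.prod ν)} (h : S ∈ Ext T ν) (n : ℤ) :
    S ^ n ∈ Ext (T ^ n) ν := by
  induction n using Int.induction_on with
  | zero => exact ⟨fun _ => 1, fun x y => by simp⟩
  | succ n ih => rw [zpow_add_one, zpow_add_one]; exact ext_mul ih h
  | pred n ih => rw [zpow_sub_one, zpow_sub_one]; exact ext_mul ih (ext_inv h)

lemma ext_fst {T : Aut μ} {S : Aut (μ.prod ν)} (h : S ∈ Ext T ν) (z : X × Y) :
    (S.1 z).1 = T.1 z.1 := by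
  obtain ⟨Φ, h⟩ := h
  rw [h z.1 z.2]

variable [IsProbabilityMeasure μ] [IsProbabilityMeasure ν]

lemma mk_ext (T : Aut μ) {C : Type} [Countable C] {c : X → C} (hc : FM c) (R : C → Aut ν) :
    ∃ S ∈ Ext T ν, ∀ x y, S.1 (x, y) = (T.1 x, (R (c x)).1 y) := by
  refine ⟨⟨Equiv.prodShear T.1 fun x => (R (c x)).1, T.2.1.skew_product (g := fun x => (R (c x)).1)
    ((hc.pre measurable_fst).mbind (g := fun a (z : X × Y) => (R a).1 z.2) fun a =>
      (R a).2.1.measurable.comp measurable_snd) (.of_forall fun x => (R (c x)).2.1.map_eq),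
    T.2.2.skew_product (g := fun x => (R (c (T.1.symm x))).1.symm)
    ((hc.pre (T.2.2.measurable.comp measurable_fst)).mbind
      (g := fun a (z : X × Y) => (R a).1.symm z.2) fun a =>
      (R a).2.2.measurable.comp measurable_snd)
      (.of_forall fun x => (R _).2.2.map_eq)⟩, ⟨fun x => R (c x), fun _ _ => rfl⟩, fun _ _ => rfl⟩

lemma sd_eq (S S₀ : Aut μ) (A : Set X) : μ.real (symmDiff (S.1 '' A) (S₀.1 '' A)) =
    mr μ fun z => ¬(S.1 z ∈ S₀.1 '' A ↔ S₀.1 z ∈ S₀.1 '' A) := by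
  refine (mr_aut S (· ∈ symmDiff (S.1 '' A) (S₀.1 '' A))).symm.trans ?_
  congr 1
  ext z
  rw [mem_symmDiff, S.1.injective.mem_set_image, S₀.1.injective.mem_set_image]
  tauto

lemma nhds_set (S₁ : Aut μ) {A : Set X} (hA : MeasurableSet A) {η : ℝ} (hη : 0 < η) :
    ∀ᶠ S : Aut μ in 𝓝 S₁, mr μ (fun z => ¬(S.1 z ∈ A ↔ S₁.1 z ∈ A)) < η := by
  have : IsOpen {S : Aut μ | μ (symmDiff (S.1 '' (S₁.1 ⁻¹' A)) (S₁.1 '' (S₁.1 ⁻¹' A))) <
      ENNReal.ofReal η} := TopologicalSpace.isOpen_generateFrom_of_mem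
    ⟨S₁, _, η, S₁.2.1.measurable hA, hη, rfl⟩
  refine mem_of_superset (this.mem_nhds (by simpa using hη)) fun S hS => ?_
  have a := (sd_eq S S₁ _).symm.trans_lt (ENNReal.toReal_lt_of_lt_ofReal hS)
  rwa [Equiv.image_preimage] at a

lemma nhds_fin (S₁ : Aut μ) {W : Type} [Fintype W] {κ : X → W} (hκ : FM κ) {η : ℝ} (hη : 0 < η) :
    ∀ᶠ S : Aut μ in 𝓝 S₁, mr μ (fun z => κ (S.1 z) ≠ κ (S₁.1 z)) ≤ η := by
  have h : 0 < η / (Fintype.card W + 1) := by positivity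
  filter_upwards [eventually_all.2 fun w => nhds_set S₁ (hκ.set (· = w)) h] with S hS
  refine (mr_exists Finset.univ _ fun z hz => ⟨κ (S₁.1 z), Finset.mem_univ _, fun e =>
    hz (e.2 rfl)⟩).trans ((Finset.sum_le_sum fun w _ => (hS w).le).trans ?_)
  rw [Finset.sum_const, Finset.card_univ, nsmul_eq_mul, mul_div_assoc', div_le_iff₀ (by positivity)]
  nlinarith

lemma mr_le_one (P : X → Prop) : mr μ P ≤ 1 := measureReal_le_one

omit [IsProbabilityMeasure μ] in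
lemma mr_prod {P : X × Y → Prop} (hP : MeasurableSet {z | P z}) :
    mr (μ.prod ν) P = ∫ x, mr ν (fun y => P (x, y)) ∂μ := by
  rw [mr, Measure.real, Measure.prod_apply hP, ← integral_toReal
    (measurable_measure_prodMk_left hP).aemeasurable (.of_forall fun _ => measure_lt_top _ _)]
  rfl

lemma mr_fib {P : X × Y → Prop} (hP : MeasurableSet {z | P z}) {c : ℝ}
    (h : ∀ x, mr ν (fun y => P (x, y)) ≤ c) : mr (μ.prod ν) P ≤ c := by
  rw [mr_prod hP]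
  exact (integral_mono (Measure.integrable_measure_prodMk_left hP (measure_ne_top _ _))
    (integrable_const c) h).trans (by simp)

lemma select {C : ℕ+ → Type} [∀ n, Finite (C n)] [∀ n, Nonempty (C n)]
    (E : ∀ n, C n → X × Y → Prop) (hE : ∀ n c, MeasurableSet {z | E n c z}) {ε : ℝ} (hε : 0 < ε)
    (h : ∀ x, ∃ N : ℕ, ∀ n : ℕ+, N ≤ n → ∃ c, mr ν (fun y => E n c (x, y)) ≤ ε) :
    ∃ N : ℕ, ∀ n : ℕ+, N ≤ n → ∃ c : X → C n, FM c ∧
      mr (μ.prod ν) (fun z => E n (c z.1) z) ≤ 2 * ε := by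
  let G : ∀ n, X → C n → Prop := fun n x c => mr ν (fun y => E n c (x, y)) ≤ ε
  have hG : ∀ n, FM (G n) := fun n => FM.pi fun c => FM.prop (A := {x | G n x c})
    (measurableSet_le (measurable_measure_prodMk_left (hE n c)).ennreal_toReal measurable_const)
  have hB : ∀ n, MeasurableSet {x | ¬∃ c, G n x c} := fun n => (hG n).set fun g => ¬∃ c, g c
  have t := tendsto_measure_of_tendsto_indicator_of_isFiniteMeasure (atTop : Filter ℕ+) μ
    (A := ∅) hB fun x => by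
      obtain ⟨N, hN⟩ := h x
      exact eventually_atTop.2 ⟨N.succPNat, fun n hn => iff_of_false
        (fun a => a (hN n ((Nat.le_succ N).trans hn))) id⟩
  obtain ⟨N, hN⟩ := eventually_atTop.1 (t.eventually (gt_mem_nhds
    (show μ ∅ < ENNReal.ofReal ε by simpa using hε)))
  refine ⟨N, fun n hn => ⟨fun x => Classical.epsilon (G n x), (hG n).map _, ?_⟩⟩
  have m : MeasurableSet {z : X × Y | E n (Classical.epsilon (G n z.1)) z} :=
    (((hG n).pre measurable_fst).bind (g := fun g z => E n (Classical.epsilon g) z) fun g =>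
      FM.prop (hE n _)).set id
  refine (mr_or (Q := fun z => E n (Classical.epsilon (G n z.1)) z ∧ ∃ c, G n z.1 c)
    (R := fun z => ¬∃ c, G n z.1 c) (.of_forall fun z hz => by tauto)).trans ?_
  rw [two_mul]
  refine add_le_add (mr_fib (P := fun z => E n (Classical.epsilon (G n z.1)) z ∧ ∃ c, G n z.1 c)
    (m.inter (((hG n).pre measurable_fst).set fun g => ∃ c, g c)) fun x => ?_) ((mr_comp_le
    measurePreserving_fst fun x => ¬∃ c, G n x c).trans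
      (ENNReal.toReal_lt_of_lt_ofReal (hN n hn)).le)
  by_cases a : ∃ c, G n x c
  · exact (mr_mono fun y hy => hy.1).trans (Classical.epsilon_spec a)
  · simpa [a, mr] using hε.le

lemma papp (Λ : Lev ν) {A : Set (X × Y)} (hA : MeasurableSet A) {ε : ℝ} (hε : 0 < ε) :
    ∃ N : ℕ, ∀ n : ℕ+, N ≤ n → ∃ D : X → Fin n → Prop, FM D ∧
      mr (μ.prod ν) (fun z => ¬(z ∈ A ↔ D z.1 (Λ.lv n z.2))) ≤ 2 * ε :=
  select (C := fun n => Fin n → Prop) (fun n D z => ¬(z ∈ A ↔ D (Λ.lv n z.2))) (fun n D =>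
    ((FM.prop hA).pair ((Λ.fm n).pre measurable_snd)).set fun p => ¬(p.1 ↔ D p.2)) hε
    fun _ => Λ.app _ (measurable_prodMk_left hA) ε hε

lemma close (Λ : Lev ν) {A : Set (X × Y)} (hA : MeasurableSet A) {ε : ℝ} (hε : 0 < ε) :
    ∃ N : ℕ, ∀ n : ℕ+, N ≤ n → ∀ T : Aut μ, ∀ S ∈ Ext T ν, ∀ S₀ ∈ Ext T ν,
      mr (μ.prod ν) (fun z => Λ.lv n (S.1 z).2 ≠ Λ.lv n (S₀.1 z).2) ≤ ε →
      mr (μ.prod ν) (fun z => ¬(S.1 z ∈ A ↔ S₀.1 z ∈ A)) ≤ 5 * ε := by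
  obtain ⟨N, hN⟩ := papp (μ := μ) Λ hA hε
  refine ⟨N, fun n hn T S hS S₀ h₀ h => ?_⟩
  obtain ⟨D, -, hD⟩ := hN n hn
  have a := (mr_aut S _).trans_le hD
  have b := (mr_aut S₀ _).trans_le hD
  refine (mr_or (.of_forall fun z hz => ?_)).trans ((add_le_add h (mr_or'.trans
    (add_le_add a b))).trans (by linarith))
  by_contra hc
  push Not at hc
  rw [hc.2.1, hc.2.2, hc.1, ext_fst hS, ext_fst h₀] at hz
  exact hz Iff.rfl

lemma nb (Λ : Lev ν) {T : Aut μ} {O : Set (Aut (μ.prod ν))} (hO : IsOpen O) :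
    ∀ S₀ ∈ O, S₀ ∈ Ext T ν → ∃ (N : ℕ) (δ : ℝ), 0 < δ ∧ ∀ n : ℕ+, N ≤ n → ∀ S ∈ Ext T ν,
      mr (μ.prod ν) (fun z => Λ.lv n (S.1 z).2 ≠ Λ.lv n (S₀.1 z).2) ≤ δ → S ∈ O := by
  induction hO with
  | basic U hU =>
    obtain ⟨S', A, δ, hA, -, rfl⟩ := hU
    intro S₀ h h₀
    have h1 := sub_pos.2 (ENNReal.toReal_lt_of_lt_ofReal h)
    obtain ⟨N, hN⟩ := close (μ := μ) Λ (aut_img S₀ hA) (div_pos h1 (by norm_num : (0 : ℝ) < 6))
    refine ⟨N, _, div_pos h1 (by norm_num : (0 : ℝ) < 6), fun n hn S hS h2 =>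
      (ENNReal.lt_ofReal_iff_toReal_lt (measure_ne_top _ _)).2 ?_⟩
    have a := (sd_eq S S₀ A).trans_le (hN n hn T S hS S₀ h₀ h2)
    have b := measureReal_symmDiff_le (μ := μ.prod ν) (s := S.1 '' A) (t := S₀.1 '' A) (S'.1 '' A)
    simp only [Measure.real] at a b
    linarith
  | univ => exact fun _ _ _ => ⟨0, 1, one_pos, fun _ _ _ _ _ => trivial⟩
  | inter U V _ _ h1 h2 =>
    intro S₀ h h₀
    obtain ⟨N, δ, a, b⟩ := h1 S₀ h.1 h₀
    obtain ⟨N', δ', a', b'⟩ := h2 S₀ h.2 h₀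
    exact ⟨N + N', min δ δ', lt_min a a', fun n hn S hS h => ⟨b n (by omega) S hS
      (h.trans (min_le_left _ _)), b' n (by omega) S hS (h.trans (min_le_right _ _))⟩⟩
  | sUnion K _ h1 =>
    rintro S₀ ⟨U, hU, h⟩ h₀
    obtain ⟨N, δ, a, b⟩ := h1 U hU S₀ h h₀
    exact ⟨N, δ, a, fun n hn S hS h => ⟨U, hU, b n hn S hS h⟩⟩

lemma halmos0 (Λ : Lev ν) (R : Aut ν) (n₀ : ℕ+) {ε : ℝ} (hε : 0 < ε) :
    ∃ N : ℕ, ∀ m : ℕ+, N ≤ m → ∃ π : Perm (Fin (n₀ * m : ℕ+)),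
      mr ν (fun y => Λ.lv n₀ (R.1 y) ≠ pr n₀ (π (Λ.lv (n₀ * m) y))) ≤ ε := by
  have p := np n₀
  obtain ⟨e, he, h⟩ : ∃ e : ℝ, 0 < e ∧ (n₀ : ℕ) * e + (n₀ : ℕ) * ((n₀ : ℕ) * e) = ε :=
    ⟨ε / ((n₀ : ℕ) + (n₀ : ℕ) * (n₀ : ℕ)), by positivity, by field_simp⟩
  choose N hN using fun a => Λ.app _ (((Λ.fm n₀).pre R.2.1.measurable).set (· = a)) e he
  refine ⟨∑ a, N a, fun m hm => ?_⟩
  choose D hD using fun a => hN a (n₀ * m) (((Finset.single_le_sum (f := N) (fun _ _ =>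
    Nat.zero_le _) (Finset.mem_univ a)).trans hm).trans (Nat.le_mul_of_pos_left _ n₀.pos))
  let t : Fin (n₀ * m : ℕ+) → Fin n₀ := fun v => Classical.epsilon fun a => D a v
  have a : mr ν (fun y => Λ.lv n₀ (R.1 y) ≠ t (Λ.lv (n₀ * m) y)) ≤ (n₀ : ℕ) * e := by
    refine (mr_exists Finset.univ _ fun y hy => ?_).trans
      ((Finset.sum_le_sum fun a _ => hD a).trans (by simp))
    by_contra hc
    push Not at hc
    exact hy ((hc _ (Finset.mem_univ _)).2 (Classical.epsilon_spec (p := fun a => D a _)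
      ⟨_, (hc _ (Finset.mem_univ _)).1 rfl⟩))
  obtain ⟨π, hπ⟩ := exists_match (pr n₀) t (ε := (n₀ : ℕ) * e) (by positivity) fun l => by
    rw [fr_pr (dvd_mul_right _ _) (· = l), ← Λ.unif, ← Λ.unif, ← mr_aut R fun y => Λ.lv n₀ y = l]
    exact (mr_or (.of_forall fun y hy => by rw [hy]; exact em _)).trans (add_le_add le_rfl a)
  rw [← Λ.unif, Fintype.card_fin] at hπ
  refine ⟨π, (mr_or (.of_forall fun y hy => ?_)).trans ((add_le_add a hπ).trans h.le)⟩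
  by_contra hc
  push Not at hc
  exact hy (hc.1.trans hc.2.symm)

lemma halmos (Λ : Lev ν) {T : Aut μ} {S : Aut (μ.prod ν)} (hS : S ∈ Ext T ν) (n₀ : ℕ+) {ε : ℝ}
    (hε : 0 < ε) : ∃ N : ℕ, ∀ m : ℕ+, N ≤ m → ∃ π : X → Perm (Fin (n₀ * m : ℕ+)), FM π ∧
      mr (μ.prod ν) (fun z => Λ.lv n₀ (S.1 z).2 ≠ pr n₀ (π z.1 (Λ.lv (n₀ * m) z.2))) ≤ 2 * ε := by
  obtain ⟨Φ, h⟩ := hS
  refine select (C := fun m => Perm (Fin (n₀ * m : ℕ+))) (fun m π z => Λ.lv n₀ (S.1 z).2 ≠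
    pr n₀ (π (Λ.lv (n₀ * m) z.2))) (fun m π => (((Λ.fm n₀).pre S.2.1.measurable.snd).pair
      ((Λ.fm (n₀ * m)).pre measurable_snd)).set fun p => p.1 ≠ pr n₀ (π p.2)) hε fun x => ?_
  simp only [h]
  exact halmos0 Λ (Φ x) n₀ hε

end Pool.Agent.H49.RX
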