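import Pool.Agent.H49.RX3

/-! Towers with many types over a mixing transformation. -/

set_option autoImplicit false

namespace Pool.Agent.H49.RX

open Set Filter Topology MeasureTheory Equiv Pool.Agent.H49.WH
open scoped ENNReal Classical

variable {X Y : Type} [MeasurableSpace X] [MeasurableSpace Y] {μ : Measure X} {ν : Measure Y}

lemma zp_add (T : Aut μ) (a b : ℤ) (x : X) : (T ^ a).1 ((T ^ b).1 x) = (T ^ (a + b)).1 x := by
  rw [zpow_add]; rfl

lemma zp_one (T : Aut μ) (a : ℤ) (x : X) : (T ^ a).1 (T.1 x) = (T ^ (a + 1)).1 x := by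
  rw [zpow_add_one]; rfl

def tm {k : ℕ} (m : Fin k → ℕ) (j : Fin (k + 1)) : ℕ := ∑ i : Fin k with i.val < j.val, m i

variable [IsProbabilityMeasure μ] [IsProbabilityMeasure ν]

lemma mix_iff {k : ℕ} {T : Aut μ} : Mix k T ↔ ∀ A : Fin (k + 1) → Set X,
    (∀ j, MeasurableSet (A j)) → Tendsto (fun m : Fin k → ℕ =>
      mr μ fun x => ∀ j, (T ^ (-(tm m j : ℤ))).1 x ∈ A j) atTop (𝓝 (∏ j, μ.real (A j))) := by
  refine forall₂_congr fun A _ => ?_
  rw [← ENNReal.tendsto_toReal_iff (fun _ => measure_ne_top _ _)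
    (ENNReal.prod_ne_top fun _ _ => measure_ne_top _ _), ENNReal.toReal_prod]
  refine tendsto_congr fun m => congrArg μ.real (Set.ext fun x => ?_)
  simp only [mem_iInter, Equiv.image_eq_preimage_symm, zpow_neg, zpow_natCast]
  rfl

def Mx (T : Aut μ) : Prop := ∀ A B : X → Prop, MeasurableSet {x | A x} → MeasurableSet {x | B x} →
  Tendsto (fun m : ℕ => mr μ fun x => A x ∧ B ((T ^ (-(m : ℤ))).1 x)) atTop (𝓝 (mr μ A * mr μ B))

lemma mix_two {k : ℕ} {T : Aut μ} (h : Mix (k + 1) T) : Mx T := fun A B hA hB => by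
  have t : Tendsto (fun (m : ℕ) (_ : Fin (k + 1)) => m) atTop atTop := tendsto_atTop.2 fun b =>
    (eventually_ge_atTop (Finset.univ.sup b)).mono fun m hm i =>
      (Finset.le_sup (Finset.mem_univ i)).trans hm
  have a := (mix_iff.1 h (Fin.cons {x | A x} (Fin.cons {x | B x} fun _ => univ)) (by
    simp [Fin.forall_fin_succ, hA, hB])).comp t
  have e : ∀ m, tm (fun _ : Fin (k + 1) => m) (Fin.succ 0) = m := fun m => by
    simp [tm, Finset.filter_eq']
  simp only [Fin.prod_univ_succ, Fin.forall_fin_succ, Function.comp_def, e] at a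
  simpa [tm, mr] using a

lemma fr_one {M : ℕ} (a : Fin M) : fr (fun v => v = a) = 1 / M := by
  rw [fr, av, Finset.sum_eq_single a (fun _ _ => ind_neg) (by simp), ind_pos rfl, Fintype.card_fin]

lemma ae_of_mr {P : X → Prop} (h : mr μ P ≤ 0) : ∀ᵐ x ∂μ, ¬P x :=
  compl_mem_ae_iff.2 ((measureReal_eq_zero_iff (measure_ne_top _ _)).1 (h.antisymm (mr_nonneg P)))

theorem tower [StandardBorelSpace X] [NullSingletonClass μ] {T : Aut μ} (hT : Mx T) (M : ℕ+)
    {β : ℝ} (hβ : 0 < β) {G : Type} [Group G] [Countable G] {π : X → G} (hπ : FM π) :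
    ∃ (b : X → ℕ) (j : X → Fin M) (φ : X → G) (B : X → Prop), FM b ∧ FM j ∧ FM φ ∧ mr μ B ≤ β ∧
      (∀ a, mr μ (fun x => j x = a) ≤ 1 / (M : ℕ)) ∧
      ∀ x, ¬B x → b (T.1 x) = b x + 1 ∧ j (T.1 x) = j x ∧ φ (T.1 x) = π x * φ x := by
  obtain ⟨Λ⟩ := exists_lev μ
  obtain ⟨n, hn⟩ := exists_nat_one_div_lt hβ
  let A : X → Prop := fun x => Λ.lv n.succPNat x = 0
  have mA : MeasurableSet {x | A x} := (Λ.fm _).set (· = 0)
  have eA : mr μ A = 1 / (n + 1) := (Λ.unif _ (· = 0)).trans ((fr_one _).trans (by simp))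
  let ex : X → Prop := fun x => ∃ i : ℕ, A ((T ^ (-(i : ℤ))).1 x)
  have mp : ∀ i : ℕ, MeasurableSet {x | A ((T ^ (-(i : ℤ))).1 x)} := fun i =>
    (T ^ (-(i : ℤ))).2.1.measurable mA
  have mx : MeasurableSet {x | ¬ex x} := by
    convert (MeasurableSet.iUnion mp).compl using 1
    ext; simp [ex]
  have h0 : mr μ (fun x => ¬ex x) ≤ 0 := by
    have := le_of_tendsto' (hT _ A mx mA) (b := 0) fun m => by
      simpa [mr] using mr_mono (ρ := μ) (Q := fun _ => False) fun x (h : ¬ex x ∧ A _) => h.1 ⟨m, h.2⟩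
    rw [eA] at this
    exact nonpos_of_mul_nonpos_left this (by positivity)
  have hp : ∀ x, ∃ i : ℕ, A ((T ^ (-(i : ℤ))).1 x) ∨ ¬ex x := fun x => by
    by_cases h : ex x
    · exact h.imp fun _ => Or.inl
    · exact ⟨0, Or.inr h⟩
  let b : X → ℕ := fun x => Nat.find (hp x)
  have hb : FM b := measurable_find hp fun i => (mp i).union mx
  let bs : X → X := fun x => (T ^ (-(b x : ℤ))).1 x
  have ms : Measurable bs := hb.mbind (g := fun i x => (T ^ (-(i : ℤ))).1 x) fun i =>
    (T ^ (-(i : ℤ))).2.1.measurable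
  have e0 : ∀ x, (T ^ (b x : ℤ)).1 (bs x) = x := fun x => by simp only [bs, zp_add]; simp
  have := Measure.isProbabilityMeasure_map (μ := μ) ms.aemeasurable
  have : NullSingletonClass (μ.map bs) := ⟨fun y => by
    rw [Measure.map_apply ms (measurableSet_singleton y)]
    refine measure_mono_null (fun x hx => ?_)
      ((countable_range fun i : ℕ => (T ^ (i : ℤ)).1 y).measure_zero μ)
    exact ⟨b x, by rw [← show bs x = y from hx]; exact e0 x⟩⟩
  obtain ⟨Λ'⟩ := exists_lev (μ.map bs)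
  let c : ℕ → X → G := fun i y => Nat.rec 1 (fun i g => π ((T ^ (i : ℤ)).1 y) * g) i
  have hc : ∀ i, FM (c i) := fun i => by
    induction i with
    | zero => exact measurable_const
    | succ i ih => exact ((hπ.pre (T ^ (i : ℤ)).2.1.measurable).pair ih).map fun p => p.1 * p.2
  refine ⟨b, fun x => Λ'.lv M (bs x), fun x => c (b x) (bs x), fun x => A (T.1 x) ∨ ¬ex x, hb,
    (Λ'.fm M).pre ms, hb.bind (g := fun i x => c i ((T ^ (-(i : ℤ))).1 x)) fun i =>
      (hc i).pre (T ^ (-(i : ℤ))).2.1.measurable, mr_or'.trans ?_, fun a => ?_, fun x hx => ?_⟩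
  · rw [mr_aut, eA]; linarith
  · exact (mr_comp_le ⟨ms, rfl⟩ fun y => Λ'.lv M y = a).trans
      ((Λ'.unif M (· = a)).trans (fr_one a)).le
  · rw [not_or, not_not] at hx
    have e : ∀ i : ℕ, (T ^ (-((i + 1 : ℕ) : ℤ))).1 (T.1 x) = (T ^ (-(i : ℤ))).1 x := fun i => by
      rw [zp_one]; congr 3; push_cast; ring
    have e1 : b (T.1 x) = b x + 1 := (Nat.find_eq_iff _).2 ⟨Or.inl (by
      rw [e]; exact (Nat.find_spec (hp x)).resolve_right (not_not.2 hx.2)), fun i hi => by
        rintro (h | h)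
        · cases i with
          | zero => exact hx.1 (by simpa using h)
          | succ i => exact Nat.find_min (hp x) (Nat.lt_of_succ_lt_succ hi) (Or.inl (e i ▸ h))
        · obtain ⟨i, h'⟩ := hx.2
          exact h ⟨i + 1, by rwa [e]⟩⟩
    have e2 : bs (T.1 x) = bs x := by simp only [bs, e1, e]
    refine ⟨e1, congrArg _ e2, ?_⟩
    beta_reduce
    rw [e1, e2]
    exact congrArg (fun y => π y * _) (e0 x)

lemma collide {T : Aut μ} (hT : Mx T) {M : ℕ+} {j : X → Fin M} (hj : FM j)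
    (h : ∀ a, mr μ (fun x => j x = a) ≤ 1 / (M : ℕ)) : ∃ N : ℕ, ∀ s t : ℤ, N ≤ |s - t| →
      mr μ (fun x => j ((T ^ s).1 x) = j ((T ^ t).1 x)) ≤ 2 / (M : ℕ) := by
  have p := np M
  have a := tendsto_finsetSum Finset.univ fun a _ => hT _ _ (hj.set (· = a)) (hj.set (· = a))
  obtain ⟨N, hN⟩ := eventually_atTop.1 (a.eventually (gt_mem_nhds (a := (2 : ℝ) / (M : ℕ))
    ((Finset.sum_le_sum fun a _ => mul_self_le_mul_self (mr_nonneg _) (h a)).trans_lt (by
      rw [Finset.sum_const, Finset.card_univ, Fintype.card_fin, nsmul_eq_mul]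
      field_simp; norm_num))))
  refine ⟨N, fun s t hs => ?_⟩
  wlog ht : t ≤ s generalizing s t
  · simpa only [eq_comm] using this t s (by rwa [abs_sub_comm]) (not_le.1 ht).le
  obtain ⟨m, rfl⟩ := Int.le.dest ht
  refine le_trans (le_of_eq ?_) ((mr_exists Finset.univ _ (P := fun x => j x =
    j ((T ^ (-(m : ℤ))).1 x)) fun x hx => ⟨_, Finset.mem_univ _, hx, rfl⟩).trans
      (hN m (by simpa using hs)).le)
  rw [← mr_aut (T ^ (t + m)) fun x => j x = j ((T ^ (-(m : ℤ))).1 x)]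
  simp [zp_add, -SubgroupClass.coe_zpow, -zpow_neg]

lemma int_bd {G : X → ℝ} (hG : Measurable G) (h1 : ∀ z, |G z| ≤ 1) : Integrable G μ :=
  (integrable_const (1 : ℝ)).mono' hG.aestronglyMeasurable (.of_forall h1)

lemma avg (F : ℕ → Aut μ) {G : X → ℝ} (hG : Measurable G) (h1 : ∀ z, |G z| ≤ 1) {L : ℕ}
    (hL : 0 < L) {c : ℝ} (hc : 0 ≤ c) (bad : X → Prop)
    (h : ∀ᵐ z ∂μ, ¬bad z → |∑ l ∈ Finset.range L, G ((F l).1 z)| ≤ c * L) :
    |∫ z, G z ∂μ| ≤ c + mr μ bad := by
  have L0 : (0 : ℝ) < L := Nat.cast_pos.2 hL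
  have e : ∫ z, ∑ l ∈ Finset.range L, G ((F l).1 z) ∂μ = L * ∫ z, G z ∂μ := by
    rw [integral_finsetSum (f := fun l z => G ((F l).1 z)) _ fun l _ =>
      int_bd (hG.comp (F l).2.1.measurable) fun _ => h1 _,
      Finset.sum_congr rfl fun l _ => (integral_map (F l).2.1.measurable.aemeasurable
        hG.aestronglyMeasurable).symm]
    simp [(F _).2.1.map_eq]
  have m := measurableSet_toMeasurable μ {z | bad z}
  have i := (integrable_const (μ := μ) (L : ℝ)).indicator m
  have := norm_integral_le_of_norm_le ((integrable_const (c * L)).add i)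
    (f := fun z => ∑ l ∈ Finset.range L, G ((F l).1 z)) (h.mono fun z hz => by
      by_cases a : z ∈ toMeasurable μ {z | bad z}
      · refine ((Finset.abs_sum_le_sum_abs _ _).trans (Finset.sum_le_sum fun l _ => h1 _)).trans ?_
        simpa [a] using mul_nonneg hc L0.le
      · simpa [a] using hz fun b => a (subset_toMeasurable _ _ b))
  simp only [Pi.add_apply] at this
  rw [e, integral_add (integrable_const _) i, integral_indicator_const _ m, Real.norm_eq_abs,
    abs_mul, abs_of_pos L0, Measure.real, measure_toMeasurable] at this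
  refine le_of_mul_le_mul_left (this.trans (le_of_eq ?_)) L0
  simp [mr, Measure.real]; ring

lemma ind_abs (P : Prop) : |ind P| ≤ 1 := abs_le.2 ⟨neg_one_lt_zero.le.trans (ind_nonneg _), ind_le _⟩

lemma int_ind {P : X → Prop} (h : MeasurableSet {x | P x}) : Integrable (fun x => ind (P x)) μ :=
  int_bd ((FM.prop h).meas ind) fun _ => ind_abs _

omit [IsProbabilityMeasure μ] in
lemma integral_ind {P : X → Prop} (h : MeasurableSet {x | P x}) : ∫ x, ind (P x) ∂μ = mr μ P :=
  integral_indicator_one h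

lemma integral_fr {V : Type} [Fintype V] {P : X → V → Prop} (h : ∀ v, MeasurableSet {x | P x v}) :
    ∫ x, fr (P x) ∂μ = av fun v => mr μ fun x => P x v := by
  simp only [fr, av]
  rw [integral_div, integral_finsetSum _ fun v _ => int_ind (h v)]
  simp only [fun v => integral_ind (μ := μ) (h v)]

end Pool.Agent.H49.RX
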