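import Pool.Agent.H49.RX4

/-! The main estimate: uniform relative independence near special extensions. -/

set_option autoImplicit false

namespace Pool.Agent.H49.RX

open Set Filter Topology MeasureTheory Equiv Pool.Agent.H49.WH
open scoped ENNReal Classical

variable {X Y : Type} [MeasurableSpace X] [MeasurableSpace Y] {μ : Measure X} {ν : Measure Y}

noncomputable def dev (Λ : Lev ν) (T : Aut μ) (S : Aut (μ.prod ν)) {ι : Type} [Fintype ι] {n : ℕ+}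
    (t : ι → ℤ) (D : ι → X → Fin n → Prop) : ℝ :=
  |mr (μ.prod ν) (fun z => ∀ i, D i ((S ^ t i).1 z).1 (Λ.lv n ((S ^ t i).1 z).2)) -
    av fun v : ι → Fin n => mr μ fun x => ∀ i, D i ((T ^ t i).1 x) (v i)|

def Good (ι : Type) [Fintype ι] (Λ : Lev ν) (T : Aut μ) (N₀ : ℕ) (ε : ℝ) (S : Aut (μ.prod ν)) :
    Prop := ∃ n : ℕ+, N₀ ≤ n ∧ ∃ N : ℕ, ∀ t : ι → ℤ, (∀ i i', i ≠ i' → (N : ℤ) ≤ |t i - t i'|) →
  ∀ D : ι → X → Fin n → Prop, (∀ i, FM (D i)) → dev Λ T S t D ≤ ε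

lemma zp_succ (T : Aut μ) (a : ℤ) (x : X) : (T ^ (a + 1)).1 x = T.1 ((T ^ a).1 x) := by
  rw [add_comm, zpow_one_add]; rfl

lemma fr_pi {ι V : Type} [Fintype ι] [Fintype V] (P : ι → V → Prop) :
    ∏ i, fr (P i) = fr fun v : ι → V => ∀ i, P i (v i) := by
  simp only [fr, ← prod_ind, av_pi fun i v => ind (P i v)]

lemma fr_abs {V : Type} [Fintype V] [Nonempty V] (P : Prop) (Q : V → Prop) : |ind P - fr Q| ≤ 1 :=
  abs_le.2 ⟨by linarith [ind_nonneg P, show fr Q ≤ 1 from av_le fun v => ind_le _],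
    by linarith [ind_le P, fr_nonneg Q]⟩

variable [IsProbabilityMeasure μ] [IsProbabilityMeasure ν]

theorem est (Λ : Lev ν) {T : Aut μ} {ι : Type} [Fintype ι] {n n' M : ℕ+} (hn : (n : ℕ) ∣ n')
    {L : ℕ} (hL : 0 < L) {e : ℝ} (he : 0 ≤ e) {vis : ℕ → ℕ → Fin n' → Fin n}
    {γ : Perm (Fin n) → ℕ → ℕ → Perm (Fin n')} (h1 : ∀ g j b w, pr n (γ g j b w) = g (vis j b w))
    (h3 : ∀ (D : ℕ → ι → Fin n → Prop) (j b : ι → ℕ), ∃ bad : ι → Fin n' → Prop,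
      (∀ i, fr (bad i) ≤ e) ∧ ((∀ i, j i < M) → Function.Injective j → ∀ w : ι → Fin n',
        (∀ i, ¬bad i (w i)) → |∑ l ∈ Finset.range L, (∏ i, ind (D l i (vis (j i) (b i + l) (w i))) -
          ∏ i, fr (D l i))| ≤ Fintype.card ι * e * L))
    {b : X → ℕ} {j : X → Fin M} {φ : X → Perm (Fin n)} {B : X → Prop} (hb : FM b) (hj : FM j)
    (hφ : FM φ) (hB : ∀ x, ¬B x → b (T.1 x) = b x + 1 ∧ j (T.1 x) = j x) {κ : X × Y → Fin n'}
    (hκ : ∀ z, κ z = (γ (φ z.1) (j z.1) (b z.1))⁻¹ (Λ.lv n' z.2)) (mκ : FM κ)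
    {S : Aut (μ.prod ν)} (hS : S ∈ Ext T ν) {η c : ℝ}
    (hη : mr (μ.prod ν) (fun z => κ (S.1 z) ≠ κ z ∨ B z.1) ≤ η) (t : ι → ℤ) (c0 : 0 ≤ c)
    (hc : ∀ i i', i ≠ i' → mr μ (fun x => j ((T ^ t i).1 x) = j ((T ^ t i').1 x)) ≤ c)
    (D : ι → X → Fin n → Prop) (hD : ∀ i, FM (D i)) : dev Λ T S t D ≤ Fintype.card ι * e +
      (Fintype.card ι * (L * η) + (Fintype.card ι * (Fintype.card ι * c) + Fintype.card ι * e)) := by
  choose bad b1 b2 using h3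
  have mT : ∀ s : ℤ, Measurable (T ^ s).1 := fun s => (T ^ s).2.1.measurable
  have mS : ∀ s : ℤ, Measurable (S ^ s).1 := fun s => (S ^ s).2.1.measurable
  have f1 : ∀ (s : ℤ) z, ((S ^ s).1 z).1 = (T ^ s).1 z.1 := fun s => ext_fst (ext_zpow hS s)
  let d : X → (Fin L → ι → Fin n → Prop) × (ι → ℕ) × (ι → ℕ) := fun x =>
    (fun l i v => D i ((T ^ (t i + l.val)).1 x) (φ ((T ^ (t i + l.val)).1 x) v),
      fun i => j ((T ^ t i).1 x), fun i => b ((T ^ t i).1 x))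
  have hd : FM d := (FM.pi fun l => FM.pi fun i => (((hD i).pair hφ).pre (mT _)).map
    fun p v => p.1 (p.2 v)).pair ((FM.pi fun i => (hj.pre (mT _)).map Fin.val).pair
      (FM.pi fun i => hb.pre (mT _)))
  let Bd : (Fin L → ι → Fin n → Prop) × (ι → ℕ) × (ι → ℕ) → ι → Fin n' → Prop := fun p =>
    bad (fun l => if h : l < L then p.1 ⟨l, h⟩ else fun _ _ => False) p.2.1 p.2.2
  let P : X × Y → Prop := fun z => ∀ i, D i ((S ^ t i).1 z).1 (Λ.lv n ((S ^ t i).1 z).2)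
  let Q : X × Y → (ι → Fin n) → Prop := fun z v => ∀ i, D i ((T ^ t i).1 z.1) (v i)
  have hP : FM P := (FM.pi fun i => (((hD i).pre (mS (t i)).fst).pair
    ((Λ.fm n).pre (mS (t i)).snd)).map fun p => p.1 p.2).map fun p => ∀ i, p i
  have hQ' := (FM.pi fun i => (hD i).pre (mT (t i))).map fun p (v : ι → Fin n) => ∀ i, p i (v i)
  have hQ : FM Q := hQ'.pre measurable_fst
  have eG : ∫ z, (ind (P z) - fr (Q z)) ∂μ.prod ν = mr (μ.prod ν) P -
      av fun v : ι → Fin n => mr μ fun x => ∀ i, D i ((T ^ t i).1 x) (v i) := by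
    rw [integral_sub (int_ind (hP.set fun p => p)) (int_bd (hQ.meas fr) fun z => by
      simpa [ind] using fr_abs False (Q z)), integral_ind (hP.set fun p => p),
      integral_fr fun v => hQ.set (· v)]
    congr 2
    exact funext fun v => mr_comp measurePreserving_fst (hQ'.set (· v))
  rw [dev, ← eG]
  refine (avg (fun l => S ^ (l : ℤ)) ((hP.pair hQ).meas fun p => ind p.1 - fr p.2)
    (fun z => fr_abs _ _) hL (by positivity) (fun z => (∃ i, ∃ l ∈ Finset.range L,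
      κ (S.1 ((S ^ (t i + l)).1 z)) ≠ κ ((S ^ (t i + l)).1 z) ∨ B ((S ^ (t i + l)).1 z).1) ∨
      (∃ i i', i ≠ i' ∧ j ((T ^ t i).1 z.1) = j ((T ^ t i').1 z.1)) ∨
      ∃ i, Bd (d z.1) i (κ ((S ^ t i).1 z))) ?_).trans (add_le_add le_rfl ?_)
  · filter_upwards [ae_all_iff.2 fun s : ℤ => (S ^ s).2.1.quasiMeasurePreserving.ae
      (Measure.quasiMeasurePreserving_snd.ae (Λ.comp n n' hn))] with z hz hg
    push Not at hg
    obtain ⟨g1, g2, g3⟩ := hg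
    have col : ∀ i, ∀ l ≤ L, κ ((S ^ (t i + l)).1 z) = κ ((S ^ t i).1 z) ∧
        b ((T ^ (t i + l)).1 z.1) = b ((T ^ t i).1 z.1) + l ∧
        j ((T ^ (t i + l)).1 z.1) = j ((T ^ t i).1 z.1) := fun i l => by
      induction l with
      | zero => simp
      | succ l ih =>
        intro hl
        obtain ⟨a1, a2, a3⟩ := ih (by omega)
        obtain ⟨c1, c2⟩ := g1 i l (Finset.mem_range.2 hl)
        obtain ⟨c3, c4⟩ := hB _ (f1 _ z ▸ c2)
        rw [Nat.cast_succ, ← add_assoc, zp_succ, zp_succ, c1, c3, c4, a1, a2, a3]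
        exact ⟨rfl, add_assoc _ _ _, rfl⟩
    refine le_trans (le_of_eq (congrArg _ (Finset.sum_congr rfl fun l hl => ?_)))
      (b2 _ _ _ (fun i => (j _).2) (fun i i' h => by_contra fun h' => g2 i i' h' (Fin.ext h)) _ g3)
    have hl' := Finset.mem_range.1 hl
    simp only [dif_pos hl', P, Q, d, zp_add, f1, prod_ind, ← fr_pi]
    congr 2
    · refine forall_congr fun i => ?_
      obtain ⟨a1, a2, a3⟩ := col i l hl'.le
      rw [← h1, ← a1, ← a2, ← a3, hκ, f1, Perm.inv_def, Equiv.apply_symm_apply, hz]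
    · exact funext fun i => (fr_equiv _ _).symm
  · have s1 : ∀ (Q : ι → X × Y → Prop) (a : ℝ), (∀ i, mr (μ.prod ν) (Q i) ≤ a) →
        mr (μ.prod ν) (fun z => ∃ i, Q i z) ≤ Fintype.card ι * a := fun Q a h =>
      (mr_exists Finset.univ Q fun z hz => by simpa using hz).trans
        ((Finset.sum_le_sum fun i _ => h i).trans (by simp))
    refine mr_or'.trans (add_le_add (s1 _ _ fun i => ?_) (mr_or'.trans (add_le_add
      (s1 _ _ fun i => s1 _ _ fun i' => ?_) (s1 _ _ fun i => ?_))))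
    · exact (mr_exists (Finset.range L) _ fun z hz => hz).trans ((Finset.sum_le_sum fun l _ =>
        (mr_aut (S ^ (t i + (l : ℕ))) _).trans_le hη).trans (by simp))
    · by_cases h : i = i'
      · simpa [h, mr] using c0
      · exact ((mr_mono fun z hz => hz.2).trans (mr_comp_le measurePreserving_fst _)).trans
          (hc i i' h)
    · refine mr_fib (((hd.pre measurable_fst).pair (mκ.pre (mS _))).set fun p => Bd p.1 i p.2)
        fun x => ?_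
      obtain ⟨Φ, hΦ⟩ := ext_zpow hS (t i)
      simp only [hκ, hΦ]
      generalize (γ _ _ _)⁻¹ = σ
      exact (mr_aut (Φ x) fun y => Bd (d x) i (σ (Λ.lv n' y))).trans_le
        (((Λ.unif n' fun w => Bd (d x) i (σ w)).trans (fr_equiv σ _)).trans_le (b1 _ _ _ i))

theorem core [StandardBorelSpace X] [NullSingletonClass μ] (Λ : Lev ν) {T : Aut μ} (hT : Mx T)
    (ι : Type) [Fintype ι] (N₀ : ℕ) {ε δ : ℝ} (hε : 0 < ε) (hδ : 0 < δ) {S₀ : Aut (μ.prod ν)}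
    (h₀ : S₀ ∈ Ext T ν) (n₀ : ℕ+) : ∃ S₁ ∈ Ext T ν,
      mr (μ.prod ν) (fun z => Λ.lv n₀ (S₁.1 z).2 ≠ Λ.lv n₀ (S₀.1 z).2) ≤ δ ∧
      ∃ (n' : ℕ+) (η : ℝ), 0 < η ∧ (∀ x, ∃ σ : Perm (Fin n'),
        ∀ᵐ y ∂ν, Λ.lv n' (S₁.1 (x, y)).2 = σ (Λ.lv n' y)) ∧ ∀ S ∈ Ext T ν,
        mr (μ.prod ν) (fun z => Λ.lv n' (S.1 z).2 ≠ Λ.lv n' (S₁.1 z).2) ≤ η → Good ι Λ T N₀ ε S := by
  obtain ⟨K, hK⟩ : ∃ K : ℝ, K = Fintype.card ι := ⟨_, rfl⟩
  have K0 : 0 ≤ K := hK ▸ Nat.cast_nonneg _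
  obtain ⟨e, he, ee⟩ : ∃ e : ℝ, 0 < e ∧ (4 * K + 2 * K * K + 1) * e = ε :=
    ⟨ε / (4 * K + 2 * K * K + 1), by positivity, by field_simp⟩
  have d4 : 0 < δ / 4 := by positivity
  obtain ⟨N, hN⟩ := halmos Λ h₀ n₀ d4
  obtain ⟨π, hπ, a1⟩ := hN (N + N₀).succPNat (by simp; omega)
  have hn0 : N₀ ≤ (n₀ * (N + N₀).succPNat : ℕ+) :=
    le_trans (by simp; omega) (Nat.le_mul_of_pos_left ((N + N₀).succPNat : ℕ) n₀.pos)
  have hd0 : (n₀ : ℕ) ∣ (n₀ * (N + N₀).succPNat : ℕ+) := dvd_mul_right _ _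
  generalize n₀ * (N + N₀).succPNat = n at π hπ a1 hn0 hd0
  obtain ⟨Q, hQ⟩ := exists_nat_one_div_lt d4
  obtain ⟨M, hM⟩ := exists_nat_one_div_lt he
  obtain ⟨q, L, hq, hL, h⟩ := pack ι (Fin n) Q.succ_pos M.succPNat he
  obtain ⟨n', E, hE, hn⟩ := exists_E n hq
  obtain ⟨vis, γ, h1, h2, h3⟩ := h _ E (pr n) hE
  have L0 : (0 : ℝ) < L := Nat.cast_pos.2 hL
  obtain ⟨b, j, φ, B, hb, hj, hφ, hB, hj', hs⟩ := tower hT M.succPNat
    (lt_min d4 (div_pos he L0)) hπ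
  obtain ⟨N', hN'⟩ := collide hT hj hj'
  choose R hR using Λ.real n'
  let g : X → Perm (Fin n') := fun x => γ (φ x) (j x) (b x)
  have hg : FM g := (hφ.pair (hj.pair hb)).map fun p => γ p.1 p.2.1 p.2.2
  obtain ⟨S₁, s1, s2⟩ := mk_ext T (((hg.pre T.2.1.measurable).pair hg).map fun p => p.1 * p.2⁻¹) R
  let κ : X × Y → Fin n' := fun z => (g z.1)⁻¹ (Λ.lv n' z.2)
  have mκ : FM κ := ((hg.pre measurable_fst).pair ((Λ.fm n').pre measurable_snd)).map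
    fun p => p.1⁻¹ p.2
  have k1 : mr (μ.prod ν) (fun z => κ (S₁.1 z) ≠ κ z) ≤ 0 :=
    mr_fib (((mκ.pre S₁.2.1.measurable).pair mκ).set fun p => p.1 ≠ p.2) fun x => by
      simpa [mr] using mr_ae (ρ := ν) (Q := fun _ => False) ((hR (g (T.1 x) * (g x)⁻¹)).mono
        fun y hy (h : κ (S₁.1 (x, y)) ≠ κ (x, y)) => h (by simp [κ, s2, hy]))
  have B1 := mr_comp_le (ν := μ.prod ν) measurePreserving_fst B
  refine ⟨S₁, s1, ?_, n', e / L, div_pos he L0, fun x => ⟨_, by simpa [s2] using hR _⟩,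
    fun S hS hη => ⟨n, hn0, N', fun t ht D hD => (est Λ hn hL he.le h1 h3 hb hj hφ
      (fun x hx => ⟨(hs x hx).1, (hs x hx).2.1⟩) (κ := κ) (fun _ => rfl) mκ hS (η := 2 * (e / L))
      (c := 2 * e) ?_ t (by positivity) (fun i i' hi => (hN' _ _ (ht i i' hi)).trans ?_)
      D hD).trans ?_⟩⟩
  · have a2 : mr (μ.prod ν) (fun z => vis (j z.1) (b z.1 + 1) (κ z) ≠ vis (j z.1) (b z.1) (κ z)) ≤
        δ / 4 := mr_fib ((((hj.pair hb).pre measurable_fst).pair mκ).set fun p =>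
          vis p.1.1 (p.1.2 + 1) p.2 ≠ vis p.1.1 p.1.2 p.2) fun x =>
      ((Λ.unif n' fun w => vis (j x) (b x + 1) ((g x)⁻¹ w) ≠ vis (j x) (b x) ((g x)⁻¹ w)).trans
        (fr_equiv (g x)⁻¹ fun w => vis (j x) (b x + 1) w ≠ vis (j x) (b x) w)).trans_le
        ((h2 _ _).trans (by simpa using hQ.le))
    refine (mr_or ?_).trans ((add_le_add a1 (mr_or'.trans (add_le_add a2
      (B1.trans (hB.trans (min_le_left _ _)))))).trans (by linarith))
    filter_upwards [ae_of_mr k1, Measure.quasiMeasurePreserving_snd.ae (Λ.comp n n' hn),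
      S₁.2.1.quasiMeasurePreserving.ae (Measure.quasiMeasurePreserving_snd.ae
        (Λ.comp n₀ n' (hd0.trans hn)))] with z c1 c2 c3 hz
    by_contra hc
    push Not at hc c1
    obtain ⟨c4, c5, c6⟩ := hc
    obtain ⟨c7, c8, c9⟩ := hs _ c6
    have u : ∀ z, pr n (Λ.lv n' z.2) = φ z.1 (vis (j z.1) (b z.1) (κ z)) := fun z => by
      rw [← h1]; simp [κ, g]
    refine hz ?_
    rw [c4, ← c3, ← c2, ← pr_pr hd0, u, u, c1, ext_fst s1, c7, c8, c9, c5, Perm.mul_apply]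
  · refine mr_or'.trans ((add_le_add ((mr_or (.of_forall fun z hz => ?_)).trans (add_le_add hη k1))
      (B1.trans (hB.trans (min_le_right _ _)))).trans (by linarith))
    by_contra hc
    push Not at hc
    exact hz (by rw [← hc.2]; simp only [κ, hc.1, ext_fst hS, ext_fst s1])
  · have : (2 : ℝ) / (M + 1) = 2 * (1 / (M + 1)) := by ring
    simp only [Nat.succPNat_coe, Nat.cast_succ]
    linarith
  · rw [← hK, ← ee, mul_left_comm (L : ℝ), mul_div_cancel₀ _ L0.ne']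
    nlinarith

end Pool.Agent.H49.RX
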