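import Pool.Agent.H49.RX5

/-! Generic extensions of mixing transformations are relatively mixing of all orders. -/

set_option autoImplicit false

namespace Pool.Agent.H49.RX

open Set Filter Topology MeasureTheory Equiv Pool.Agent.H49.WH
open scoped ENNReal Classical

variable {X Y : Type} [MeasurableSpace X] [MeasurableSpace Y] {μ : Measure X} {ν : Measure Y}

lemma abs_prod_sub {ι : Type} (s : Finset ι) {a b : ι → ℝ} {c : ℝ} (ha : ∀ i, |a i| ≤ 1)
    (hb : ∀ i, |b i| ≤ 1) (h : ∀ i, |a i - b i| ≤ c) :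
    |∏ i ∈ s, a i - ∏ i ∈ s, b i| ≤ s.card * c := by
  induction s using Finset.induction_on with
  | empty => simp
  | insert i s hi ih =>
    rw [Finset.prod_insert hi, Finset.prod_insert hi, Finset.card_insert_of_notMem hi,
      show ∀ x y : ℝ, a i * x - b i * y = a i * (x - y) + (a i - b i) * y from fun _ _ => by ring]
    refine (abs_add_le _ _).trans ?_
    rw [abs_mul, abs_mul]
    have := mul_le_of_le_one_left (abs_nonneg (∏ i ∈ s, a i - ∏ i ∈ s, b i)) (ha i)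
    have := mul_le_of_le_one_right (abs_nonneg (a i - b i)) (abs_prod_le s hb)
    push_cast
    linarith [h i]

lemma tm_gap {k : ℕ} (N : ℕ) : ∀ᶠ m : Fin k → ℕ in atTop, ∀ i i' : Fin (k + 1), i ≠ i' →
    (N : ℤ) ≤ |(tm m i : ℤ) - tm m i'| := by
  filter_upwards [eventually_ge_atTop fun _ => N] with m hm i i' h
  wlog hi : i < i' generalizing i i'
  · rw [abs_sub_comm]; exact this i' i h.symm (lt_of_le_of_ne (not_lt.1 hi) h.symm)
  let a : Fin k := ⟨i, by omega⟩
  have : m a + tm m i ≤ tm m i' := by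
    rw [tm, ← Finset.sum_insert (by simp [a])]
    refine Finset.sum_le_sum_of_subset fun x hx => ?_
    simp only [Finset.mem_insert, Finset.mem_filter, Finset.mem_univ, true_and] at hx ⊢
    rcases hx with rfl | hx
    · exact hi
    · exact hx.trans hi
  have : N ≤ m a := hm a
  rw [abs_sub_comm, le_abs]
  left; omega

variable [IsProbabilityMeasure μ] [IsProbabilityMeasure ν]

lemma mr_abs {P Q : X → Prop} : |mr μ P - mr μ Q| ≤ mr μ fun x => ¬(P x ↔ Q x) := by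
  have a : mr μ P ≤ mr μ Q + mr μ fun x => ¬(P x ↔ Q x) := mr_or (.of_forall fun _ => by tauto)
  have b : mr μ Q ≤ mr μ P + mr μ fun x => ¬(P x ↔ Q x) := mr_or (.of_forall fun _ => by tauto)
  exact abs_le.2 ⟨by linarith, by linarith⟩

lemma mr_all {ι : Type} [Fintype ι] (Q : ι → X → Prop) {a : ℝ} (h : ∀ i, mr μ (Q i) ≤ a) :
    mr μ (fun z => ∃ i, Q i z) ≤ Fintype.card ι * a :=
  (mr_exists Finset.univ Q fun z hz => by simpa using hz).trans
    ((Finset.sum_le_sum fun i _ => h i).trans (by simp))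

lemma mr_step (Λ : Lev ν) {n : ℕ+} {D : X → Fin n → Prop} (hD : FM D) :
    mr (μ.prod ν) (fun z => D z.1 (Λ.lv n z.2)) = av fun v => mr μ fun x => D x v := by
  rw [mr_prod (((hD.pre measurable_fst).pair ((Λ.fm n).pre measurable_snd)).set fun p => p.1 p.2),
    ← integral_fr fun v => hD.set (· v)]
  simp only [Λ.unif]

theorem good_lim (Λ : Lev ν) {T : Aut μ} {S : Aut (μ.prod ν)} {ι α : Type} [Fintype ι]
    (h : ∀ N₀ j : ℕ, Good ι Λ T N₀ (1 / (j + 1)) S) {l : Filter α} {t : α → ι → ℤ}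
    (gap : ∀ N : ℕ, ∀ᶠ a in l, ∀ i i', i ≠ i' → (N : ℤ) ≤ |t a i - t a i'|)
    (hT : ∀ A : ι → Set X, (∀ i, MeasurableSet (A i)) → Tendsto (fun a =>
      mr μ fun x => ∀ i, (T ^ t a i).1 x ∈ A i) l (𝓝 (∏ i, μ.real (A i))))
    (A : ι → Set (X × Y)) (hA : ∀ i, MeasurableSet (A i)) : Tendsto (fun a =>
      mr (μ.prod ν) fun z => ∀ i, (S ^ t a i).1 z ∈ A i) l (𝓝 (∏ i, (μ.prod ν).real (A i))) := by
  refine Metric.tendsto_nhds.2 fun ε hε => ?_
  obtain ⟨K, hK⟩ : ∃ K : ℝ, K = Fintype.card ι := ⟨_, rfl⟩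
  have K0 : 0 ≤ K := hK ▸ Nat.cast_nonneg _
  obtain ⟨e, he, ee⟩ : ∃ e : ℝ, 0 < e ∧ (4 * K + 2) * e = ε :=
    ⟨ε / (4 * K + 2), by positivity, by field_simp⟩
  choose N hN using fun i => papp (μ := μ) Λ (hA i) he
  obtain ⟨j, hj⟩ := exists_nat_one_div_lt he
  obtain ⟨n, hn, N', h'⟩ := h (∑ i, N i) j
  choose D hD a1 using fun i => hN i n ((Finset.single_le_sum (f := N) (fun _ _ => Nat.zero_le _)
    (Finset.mem_univ i)).trans hn)
  have a2 : Tendsto (fun a => av fun v : ι → Fin n => mr μ fun x => ∀ i, D i ((T ^ t a i).1 x) (v i))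
      l (𝓝 (∏ i, mr (μ.prod ν) fun z => D i z.1 (Λ.lv n z.2))) := by
    simp only [fun i => mr_step (μ := μ) Λ (hD i), ← av_pi]
    exact (tendsto_finsetSum _ fun v _ => hT (fun i => {x | D i x (v i)})
      fun i => (hD i).set (· (v i))).div_const _
  filter_upwards [gap N', Metric.tendsto_nhds.1 a2 e he] with a g a3
  have a4 := h' _ g D hD
  have a5 := abs_prod_sub Finset.univ (a := fun i => mr (μ.prod ν) fun z => D i z.1 (Λ.lv n z.2))
    (b := fun i => mr (μ.prod ν) (· ∈ A i)) (fun i => abs_le.2 ⟨neg_one_lt_zero.le.trans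
      (mr_nonneg _), mr_le_one _⟩) (fun i => abs_le.2 ⟨neg_one_lt_zero.le.trans
      (mr_nonneg _), mr_le_one _⟩) fun i => by rw [abs_sub_comm]; exact mr_abs.trans (a1 i)
  have a6 := (mr_abs (P := fun z => ∀ i, (S ^ t a i).1 z ∈ A i) (Q := fun z => ∀ i,
    D i ((S ^ t a i).1 z).1 (Λ.lv n ((S ^ t a i).1 z).2))).trans ((mr_mono fun z hz =>
      not_forall.1 fun c => hz (forall_congr' c)).trans (mr_all _ fun i =>
        (mr_aut (S ^ t a i) _).trans_le (a1 i)))
  rw [Finset.card_univ, ← hK] at a5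
  rw [← hK] at a6
  rw [Real.dist_eq, abs_lt] at a3 ⊢
  rw [dev] at a4
  rw [abs_le] at a4 a5 a6
  simp only [mr, ofPred_mem_eq] at a3 a4 a5 a6 ⊢
  constructor <;> nlinarith [a3.1, a3.2, a4.1, a4.2, a5.1, a5.2, a6.1, a6.2]

theorem gen_weak [StandardBorelSpace X] [NullSingletonClass μ] (Λ : Lev ν) {T : Aut μ} (hT : Mx T)
    (ι : Type) [Fintype ι] (N₀ : ℕ) {ε : ℝ} (hε : 0 < ε) :
    ∀ᶠ S : Ext T ν in residual _, Good ι Λ T N₀ ε S.1 := by
  refine mem_of_superset (residual_of_dense_open isOpen_interior (dense_iff_inter_open.2 ?_))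
    interior_subset
  rintro U hU ⟨S₀, h⟩
  obtain ⟨O, hO, rfl⟩ := isOpen_induced_iff.1 hU
  obtain ⟨N, δ, hδ, hN⟩ := nb Λ hO _ h S₀.2
  obtain ⟨S₁, s1, s2, n', η, hη, -, s3⟩ := core Λ hT ι N₀ hε hδ S₀.2 N.succPNat
  exact ⟨⟨S₁, s1⟩, hN N.succPNat N.le_succ _ s1 s2, mem_interior_iff_mem_nhds.2
    ((continuous_subtype_val.continuousAt.eventually (nhds_fin S₁ ((Λ.fm n').pre measurable_snd)
      hη)).mono fun S hS => s3 _ S.2 hS)⟩

theorem mix_ext [StandardBorelSpace X] [NullSingletonClass μ] [StandardBorelSpace Y]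
    [NullSingletonClass ν] {k : ℕ} {T : Aut μ} (hT : Mix (k + 1) T) :
    ∀ᶠ S : Ext T ν in residual _, Mix (k + 1) S.1 := by
  obtain ⟨Λ⟩ := exists_lev ν
  filter_upwards [eventually_countable_forall.2 fun N₀ : ℕ => eventually_countable_forall.2
    fun j : ℕ => gen_weak Λ (mix_two hT) (Fin (k + 1 + 1)) N₀ (Nat.one_div_pos_of_nat (n := j))]
    with S hS
  exact mix_iff.2 (good_lim Λ hS (fun N => (tm_gap N).mono fun m hm i i' h => by
    rw [neg_sub_neg]; exact hm i' i h.symm) (mix_iff.1 hT))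

end Pool.Agent.H49.RX
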