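import Pool.Agent.H49.RXDefs

/-! Cocycles, convergence in measure, skew products, mixing of all orders. -/

set_option autoImplicit false

namespace Pool.Agent.H49.RX

open MeasureTheory Set Filter Topology

variable {X Y : Type} [MeasurableSpace X] [MeasurableSpace Y]

/-- Cocycles: measurable families `x ↦ α x` of automorphisms of `(Y, ν)`. -/
structure Coc (μ : Measure X) (ν : Measure Y) where
  α : X → Aut ν
  meas : Measurable fun z : X × Y => (α z.1).1 z.2
  meas_inv : Measurable fun z : X × Y => (α z.1).1.symm z.2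

/-- Convergence in `μ`-measure of maps into `Aut ν` with its weak topology: `α_n → α` iff for
every measurable `A` the functions `x ↦ ν(α_n(x) A ∆ α(x) A)` tend to `0` in measure. -/
instance inMeasure (μ : Measure X) (ν : Measure Y) : TopologicalSpace (Coc μ ν) :=
  TopologicalSpace.generateFrom {U | ∃ (a₀ : Coc μ ν) (A : Set Y) (δ : ℝ), MeasurableSet A ∧ 0 < δ ∧
    U = {a : Coc μ ν | μ {x | ENNReal.ofReal δ ≤ ν (symmDiff ((a.α x).1 '' A) ((a₀.α x).1 '' A))} <
      ENNReal.ofReal δ}}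

/-- The skew product `T_α (x, y) = (T x, α(x) y)`. -/
def skew {μ : Measure X} {ν : Measure Y} (T : X → X) (a : Coc μ ν) (z : X × Y) : X × Y :=
  (T z.1, (a.α z.1).1 z.2)

/-- Mixing of all orders: for every `k ≥ 2`,
`μ(A_0 ∩ T^(-n_1) A_1 ∩ ⋯ ∩ T^(-n_k) A_k) → ∏ μ(A_j)`, where `n_j = m_1 + ⋯ + m_j` and all the gaps
`m_i` tend to infinity. -/
def MultMix (μ : Measure X) (T : X → X) : Prop :=
  ∀ k : ℕ, 2 ≤ k → ∀ A : Fin (k + 1) → Set X, (∀ j, MeasurableSet (A j)) →
    Tendsto (fun m : Fin k → ℕ =>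
      μ (⋂ j : Fin (k + 1), T^[∑ i : Fin k with i.val < j.val, m i] ⁻¹' A j))
      atTop (𝓝 (∏ j, μ (A j)))

end Pool.Agent.H49.RX
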