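import Pool.Agent.H49.RX6
import Pool.Agent.H49.RXDefs2

/-! The same for cocycles with convergence in measure. -/

set_option autoImplicit false

namespace Pool.Agent.H49.RX

open Set Filter Topology MeasureTheory Equiv Pool.Agent.H49.WH
open scoped ENNReal Classical

variable {X Y : Type} [MeasurableSpace X] [MeasurableSpace Y] {μ : Measure X} {ν : Measure Y}
  [IsProbabilityMeasure μ] [IsProbabilityMeasure ν]

def sk (T : Aut μ) (a : Coc μ ν) : Aut (μ.prod ν) :=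
  ⟨Equiv.prodShear T.1 fun x => (a.α x).1, T.2.1.skew_product (g := fun x => (a.α x).1) a.meas
    (.of_forall fun x => (a.α x).2.1.map_eq),
    T.2.2.skew_product (g := fun x => (a.α (T.1.symm x)).1.symm)
    (a.meas_inv.comp (T.2.2.measurable.prodMap measurable_id))
      (.of_forall fun _ => (a.α _).2.2.map_eq)⟩

lemma sk_ext (T : Aut μ) (a : Coc μ ν) : sk T a ∈ Ext T ν := ⟨a.α, fun _ _ => rfl⟩

lemma sk_surj {T : Aut μ} {S : Aut (μ.prod ν)} (h : S ∈ Ext T ν) : ∃ a, sk T a = S := by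
  obtain ⟨Φ, h⟩ := h
  refine ⟨⟨Φ, ?_, ?_⟩, Subtype.ext (Equiv.ext fun z => (h z.1 z.2).symm)⟩
  · convert S.2.1.measurable.snd using 2 with z
    rw [h z.1 z.2]
  · convert (S.2.2.measurable.comp (T.2.1.measurable.prodMap measurable_id)).snd using 2 with z
    rw [Function.comp, (S.1.symm_apply_eq (y := (z.1, (Φ z.1).1.symm z.2))).2 (by simp [h]; rfl)]

omit [IsProbabilityMeasure μ] in
lemma mm_iff {T : Aut μ} : MultMix μ T.1 ↔ ∀ k, 2 ≤ k → Mix k T⁻¹ := by
  simp only [MultMix, Mix, Equiv.image_eq_preimage_symm, inv_pow, ← Perm.coe_pow]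
  rfl

lemma Mx.inv {T : Aut μ} (h : Mx T⁻¹) : Mx T := fun A B hA hB => by
  rw [mul_comm]
  refine (h B A hB hA).congr fun m => ?_
  rw [← mr_aut (T ^ (-(m : ℤ)))]
  simp [zp_add, and_comm, -SubgroupClass.coe_zpow, -zpow_neg, -zpow_natCast, inv_zpow']

lemma mr_fib' {P : X × Y → Prop} (hP : MeasurableSet {z | P z}) {c : ℝ} (hc : 0 ≤ c) (B : X → Prop)
    (h : ∀ x, ¬B x → mr ν (fun y => P (x, y)) ≤ c) : mr (μ.prod ν) P ≤ c + mr μ B := by
  have m := measurableSet_toMeasurable μ {x | B x}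
  refine (mr_or (Q := fun z => P z ∧ z.1 ∉ toMeasurable μ {x | B x}) (.of_forall fun z hz => by
    tauto)).trans (add_le_add (mr_fib (P := fun z => P z ∧ z.1 ∉ toMeasurable μ {x | B x})
      (hP.inter (measurable_fst m.compl)) fun x => ?_)
      ((mr_comp_le measurePreserving_fst (· ∈ toMeasurable μ {x | B x})).trans
        (congrArg ENNReal.toReal (measure_toMeasurable _)).le))
  by_cases a : x ∈ toMeasurable μ {x | B x}
  · simpa [a, mr] using hc
  · exact (mr_mono fun y hy => hy.1).trans (h x fun b => a (subset_toMeasurable _ _ b))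

omit [IsProbabilityMeasure μ] [IsProbabilityMeasure ν] in
lemma sd_meas (a a' : Coc μ ν) {A : Set Y} (hA : MeasurableSet A) : MeasurableSet
    {z : X × Y | z.2 ∈ symmDiff ((a.α z.1).1 '' A) ((a'.α z.1).1 '' A)} := by
  simp only [Equiv.image_eq_preimage_symm]
  exact (a.meas_inv hA).symmDiff (a'.meas_inv hA)

lemma nb' (Λ : Lev ν) (T : Aut μ) {O : Set (Coc μ ν)} (hO : IsOpen O) :
    ∀ a₀ ∈ O, ∃ (N : ℕ) (δ : ℝ), 0 < δ ∧ ∀ n : ℕ+, N ≤ n → ∀ a, mr (μ.prod ν) (fun z =>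
      Λ.lv n ((sk T a).1 z).2 ≠ Λ.lv n ((sk T a₀).1 z).2) ≤ δ → a ∈ O := by
  induction hO with
  | basic U hU =>
    obtain ⟨a', A, δ, hA, hδ, rfl⟩ := hU
    intro a₀ h
    let f : Coc μ ν → Coc μ ν → X → ℝ := fun a b x =>
      ν.real (symmDiff ((a.α x).1 '' A) ((b.α x).1 '' A))
    have e : ∀ a b, {x | ENNReal.ofReal δ ≤ ν (symmDiff ((a.α x).1 '' A) ((b.α x).1 '' A))} =
        {x | δ ≤ f a b x} := fun a b => Set.ext fun x =>
      ENNReal.ofReal_le_iff_le_toReal (measure_ne_top _ _)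
    have t := tendsto_measure_of_tendsto_indicator_of_isFiniteMeasure (atTop : Filter ℕ) μ
      (A := {x | δ ≤ f a₀ a' x}) (As := fun m => {x | δ - 1 / (m + 1) ≤ f a₀ a' x})
      (fun m => measurableSet_le measurable_const
        (measurable_measure_prodMk_left (sd_meas a₀ a' hA)).ennreal_toReal) fun x => by
      by_cases c : δ ≤ f a₀ a' x
      · exact .of_forall fun m => iff_of_true ((sub_le_self _ (by positivity)).trans c) c
      · filter_upwards [tendsto_one_div_add_atTop_nhds_zero_nat.eventually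
          (gt_mem_nhds (sub_pos.2 (not_le.1 c)))] with m hm
        exact iff_of_false (not_le.2 (by linarith)) c
    rw [mem_ofPred, e] at h
    obtain ⟨m, hm⟩ := (t.eventually (gt_mem_nhds h)).exists
    have h1 := sub_pos.2 (ENNReal.toReal_lt_of_lt_ofReal hm)
    have r0 : (0 : ℝ) < 1 / (m + 1) := by positivity
    generalize (1 : ℝ) / (m + 1) = r at h1 r0
    have h2 := div_pos (mul_pos r0 h1) (by norm_num : (0 : ℝ) < 6)
    obtain ⟨N, hN⟩ := close (μ := μ) Λ (aut_img (sk T a₀) (measurable_snd hA)) h2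
    refine ⟨N, _, h2, fun n hn a h3 => ?_⟩
    have h4 := hN n hn T _ (sk_ext T a) _ (sk_ext T a₀) h3
    have u : ∀ x y, (T.1 x, y) ∈ (sk T a₀).1 '' (Prod.snd ⁻¹' A) ↔ y ∈ (a₀.α x).1 '' A :=
      fun x y => by simp only [Equiv.image_eq_preimage_symm]; simp [sk]
    have mA := FM.prop (aut_img (sk T a₀) (measurable_snd hA))
    rw [mr_prod (((mA.pre (sk T a).2.1.measurable).pair (mA.pre (sk T a₀).2.1.measurable)).set
      fun p => ¬(p.1 ↔ p.2)), show (fun x => _) = f a a₀ from funext fun x =>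
        ((sd_eq (a.α x) (a₀.α x) A).trans (by simp only [← u]; rfl)).symm] at h4
    have h5 := (mul_meas_ge_le_integral_of_nonneg (f := f a a₀) (μ := μ)
      (.of_forall fun _ => measureReal_nonneg) (int_bd (measurable_measure_prodMk_left
        (sd_meas a a₀ hA)).ennreal_toReal fun x => abs_le.2 ⟨neg_one_lt_zero.le.trans
          measureReal_nonneg, measureReal_le_one⟩) r).trans h4
    rw [mem_ofPred, e, ENNReal.lt_ofReal_iff_toReal_lt (measure_ne_top _ _)]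
    have h6 := mr_or (ρ := μ) (P := fun x => δ ≤ f a a' x) (Q := fun x => δ - r ≤ f a₀ a' x)
      (R := fun x => r ≤ f a a₀ x) (.of_forall fun x hx => by
        have : f a a' x ≤ f a a₀ x + f a₀ a' x := measureReal_symmDiff_le _
        by_contra c
        push Not at c
        linarith [c.1, c.2])
    simp only [mr, Measure.real] at h5 h6
    nlinarith
  | univ => exact fun _ _ => ⟨0, 1, one_pos, fun _ _ _ _ => trivial⟩
  | inter U V _ _ h1 h2 =>
    intro S₀ h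
    obtain ⟨N, δ, a, b⟩ := h1 S₀ h.1
    obtain ⟨N', δ', a', b'⟩ := h2 S₀ h.2
    exact ⟨N + N', min δ δ', lt_min a a', fun n hn S h => ⟨b n (by omega) S
      (h.trans (min_le_left _ _)), b' n (by omega) S (h.trans (min_le_right _ _))⟩⟩
  | sUnion K _ h1 =>
    rintro S₀ ⟨U, hU, h⟩
    obtain ⟨N, δ, a, b⟩ := h1 U hU S₀ h
    exact ⟨N, δ, a, fun n hn S h => ⟨U, hU, b n hn S h⟩⟩

lemma nhds' (Λ : Lev ν) (T : Aut μ) (a₁ : Coc μ ν) {n : ℕ+} (h : ∀ x, ∃ σ : Perm (Fin n),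
    ∀ᵐ y ∂ν, Λ.lv n ((a₁.α x).1 y) = σ (Λ.lv n y)) {η : ℝ} (hη : 0 < η) : ∀ᶠ a in 𝓝 a₁,
      mr (μ.prod ν) (fun z => Λ.lv n ((sk T a).1 z).2 ≠ Λ.lv n ((sk T a₁).1 z).2) ≤ η := by
  have p := np n
  obtain ⟨e, he, ee⟩ : ∃ e : ℝ, 0 < e ∧ (n : ℕ) * e + (n : ℕ) * e = η :=
    ⟨η / (2 * (n : ℕ)), by positivity, by field_simp; norm_num⟩
  filter_upwards [eventually_all.2 fun w : Fin n => (TopologicalSpace.isOpen_generateFrom_of_mem
    (g := {U | ∃ (a₀ : Coc μ ν) (A : Set Y) (δ : ℝ), MeasurableSet A ∧ 0 < δ ∧ U = {a : Coc μ ν |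
      μ {x | ENNReal.ofReal δ ≤ ν (symmDiff ((a.α x).1 '' A) ((a₀.α x).1 '' A))} <
      ENNReal.ofReal δ}}) ⟨a₁, _, e, (Λ.fm n).set (· = w), he, rfl⟩).mem_nhds (by simp [he, he.not_ge])]
    with a ha
  refine (mr_fib' ((((Λ.fm n).pre (sk T a).2.1.measurable.snd).pair ((Λ.fm n).pre
    (sk T a₁).2.1.measurable.snd)).set fun p => p.1 ≠ p.2) (c := (n : ℕ) * e) (by positivity) _
    fun x hx => ?_).trans ((add_le_add le_rfl ((mr_all _ fun w =>
      (ENNReal.toReal_lt_of_lt_ofReal (ha w)).le).trans (by simp))).trans ee.le)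
  obtain ⟨σ, hσ⟩ := h x
  refine (mr_ae ?_).trans ((mr_all _ fun w => ((sd_eq _ _ _).symm.trans_lt
    (ENNReal.toReal_lt_of_lt_ofReal (not_le.1 fun c => hx ⟨w, c⟩))).le).trans (by simp))
  filter_upwards [hσ, ((a₁.α x)⁻¹ * a.α x).2.1.quasiMeasurePreserving.ae hσ] with y h1 h2 h3
  refine ⟨Λ.lv n y, fun c => h3 ?_⟩
  obtain ⟨y', c1, c2⟩ := c.2 ⟨y, rfl, rfl⟩
  have c3 : ((a₁.α x)⁻¹ * a.α x).1 y = y' := by simp [← c2]
  rw [c3, c2, c1] at h2
  exact h2.trans h1.symm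

theorem gen_meas [StandardBorelSpace X] [NullSingletonClass μ] (Λ : Lev ν) {T : Aut μ} (hT : Mx T)
    (ι : Type) [Fintype ι] (N₀ : ℕ) {ε : ℝ} (hε : 0 < ε) :
    ∀ᶠ a : Coc μ ν in residual _, Good ι Λ T N₀ ε (sk T a) := by
  refine mem_of_superset (residual_of_dense_open isOpen_interior (dense_iff_inter_open.2 ?_))
    interior_subset
  rintro U hU ⟨a₀, h⟩
  obtain ⟨N, δ, hδ, hN⟩ := nb' Λ T hU _ h
  obtain ⟨S₁, s1, s2, n', η, hη, s4, s3⟩ := core Λ hT ι N₀ hε hδ (sk_ext T a₀) N.succPNat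
  obtain ⟨a₁, rfl⟩ := sk_surj s1
  exact ⟨a₁, hN N.succPNat N.le_succ _ s2, mem_interior_iff_mem_nhds.2
    ((nhds' Λ T a₁ s4 hη).mono fun a ha => s3 _ (sk_ext T a) ha)⟩

theorem mm_ext [StandardBorelSpace X] [NullSingletonClass μ] [StandardBorelSpace Y]
    [NullSingletonClass ν] {T : Aut μ} (hT : MultMix μ T.1) :
    ∀ᶠ a : Coc μ ν in residual _, MultMix (μ.prod ν) (skew T.1 a) := by
  obtain ⟨Λ⟩ := exists_lev ν
  rw [mm_iff] at hT
  filter_upwards [eventually_countable_forall.2 fun k : ℕ => eventually_countable_forall.2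
    fun N₀ : ℕ => eventually_countable_forall.2 fun j : ℕ => gen_meas Λ (mix_two (hT 2 le_rfl)).inv
      (Fin (k + 1)) N₀ (Nat.one_div_pos_of_nat (n := j))] with a ha
  refine (mm_iff (T := sk T a)).2 fun k hk => mix_iff.2 ?_
  have := mix_iff.1 (hT k hk)
  simp only [inv_zpow', neg_neg] at this ⊢
  exact good_lim Λ (ha k) tm_gap this

end Pool.Agent.H49.RX
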