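import Mathlib

/-! Automorphisms, the weak topology, multiple mixing, extensions. -/

set_option autoImplicit false

namespace Pool.Agent.H49.RX

open MeasureTheory Set Filter Topology

variable {X Y : Type} [MeasurableSpace X] [MeasurableSpace Y]

/-- Invertible measure preserving transformations. -/
def Aut (μ : Measure X) : Subgroup (Equiv.Perm X) where
  carrier := {T | MeasurePreserving T μ μ ∧ MeasurePreserving T.symm μ μ}
  one_mem' := ⟨MeasurePreserving.id _, MeasurePreserving.id _⟩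
  mul_mem' := fun h h' => ⟨h.1.comp h'.1, h'.2.comp h.2⟩
  inv_mem' := fun h => ⟨h.2, h.1⟩

/-- The weak (Halmos) topology: `T_n → T` iff `μ(T_n A ∆ T A) → 0` for every measurable `A`. -/
instance weak (μ : Measure X) : TopologicalSpace (Aut μ) := TopologicalSpace.generateFrom
  {U | ∃ (T₀ : Aut μ) (A : Set X) (δ : ℝ), MeasurableSet A ∧ 0 < δ ∧
    U = {T : Aut μ | μ (symmDiff (T.1 '' A) (T₀.1 '' A)) < ENNReal.ofReal δ}}

/-- Mixing of multiplicity `k`: `μ(A_0 ∩ ⋂_j T^(m_1+⋯+m_j) A_j) → ∏ μ(A_j)` as all `m_i → ∞`. -/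
def Mix {μ : Measure X} (k : ℕ) (T : Aut μ) : Prop :=
  ∀ A : Fin (k + 1) → Set X, (∀ j, MeasurableSet (A j)) →
    Tendsto (fun m : Fin k → ℕ =>
      μ (⋂ j : Fin (k + 1), (T ^ ∑ i : Fin k with i.val < j.val, m i).1 '' A j))
      atTop (𝓝 (∏ j, μ (A j)))

/-- Extensions of `T`: automorphisms of the product of the form `(x, y) ↦ (T x, Φ x y)` with each
`Φ x` an automorphism of `(Y, ν)`. -/
def Ext {μ : Measure X} (T : Aut μ) (ν : Measure Y) : Set (Aut (μ.prod ν)) :=
  {S | ∃ Φ : X → Aut ν, ∀ x y, S.1 (x, y) = (T.1 x, (Φ x).1 y)}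

end Pool.Agent.H49.RX
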