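import Pool.Agent.H49.SDDDefs

set_option autoImplicit false

namespace H49.SDD

open Filter OnePoint

@[simp] lemma co_infty : co ∞ = ![1, 0] := rfl
@[simp] lemma co_coe (t : K) : co (t : OnePoint K) = ![t, 1] := rfl

lemma map_map (x : OnePoint K) (g h : K → K) : (x.map g).map h = x.map (h ∘ g) := by
  induction x using OnePoint.rec <;> rfl

lemma iter (m : ℕ) (p : X) :
    f^[m] p = (p.1.map (· ^ 2 ^ m), p.2.1.map (· ^ 2 ^ m), p.2.2.map (· ^ 3 ^ m)) := by
  induction m with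
  | zero =>
    obtain ⟨x, y, z⟩ := p
    simp only [Function.iterate_zero, id, pow_zero, pow_one]
    refine Prod.ext ?_ (Prod.ext ?_ ?_)
    · induction x using OnePoint.rec <;> rfl
    · induction y using OnePoint.rec <;> rfl
    · induction z using OnePoint.rec <;> rfl
  | succ m ih =>
    rw [Function.iterate_succ_apply', ih]
    simp only [f, map_map]
    refine Prod.ext ?_ (Prod.ext ?_ ?_) <;> simp only <;> congr 1 <;> funext t <;>
      simp only [Function.comp] <;> rw [← pow_mul, ← pow_succ]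

lemma pow_surj (d : ℕ) (hd : 0 < d) (x : OnePoint K) : ∃ y : OnePoint K, y.map (· ^ d) = x := by
  induction x using OnePoint.rec with
  | infty => exact ⟨∞, rfl⟩
  | coe t =>
    obtain ⟨u, hu⟩ := IsAlgClosed.exists_pow_nat_eq t hd
    exact ⟨(u : OnePoint K), by simp [hu]⟩

lemma f_surj : Function.Surjective f := by
  rintro ⟨x, y, z⟩
  obtain ⟨a, ha⟩ := pow_surj 2 (by norm_num) x
  obtain ⟨b, hb⟩ := pow_surj 2 (by norm_num) y
  obtain ⟨c, hc⟩ := pow_surj 3 (by norm_num) z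
  exact ⟨(a, b, c), by simp [f, ha, hb, hc]⟩

lemma image_Y (ζ : K) (m : ℕ) : f^[m] '' Y ζ = Y (ζ ^ 2 ^ m) := by
  ext q
  constructor
  · rintro ⟨⟨x, y, z⟩, ⟨h1, h2⟩, rfl⟩
    simp only at h1 h2
    rw [iter]
    subst h1 h2
    refine ⟨?_, ?_⟩
    · simp only [map_map]
      congr 1
      funext t
      simp [mul_pow]
    · simp
  · obtain ⟨x, y, z⟩ := q
    rintro ⟨h1, h2⟩
    simp only at h1 h2
    obtain ⟨a, ha⟩ := pow_surj (2 ^ m) (by positivity) x
    refine ⟨(a, a.map (ζ * ·), ((0 : K) : OnePoint K)), ⟨rfl, rfl⟩, ?_⟩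
    rw [iter]
    subst h1 h2 ha
    refine Prod.ext rfl (Prod.ext ?_ ?_)
    · simp only [map_map]
      congr 1
      funext t
      simp [mul_pow]
    · simp

lemma Y_inj {a b : K} (h : Y a = Y b) : a = b := by
  have h1 : (((1 : K) : OnePoint K), ((a : K) : OnePoint K), ((0 : K) : OnePoint K)) ∈ Y a :=
    ⟨by simp, rfl⟩
  rw [h] at h1
  have := h1.1
  simpa using this

/-- Product of three linear forms. -/
noncomputable def prodForm (u v w : Fin 2 → K) : Fin 2 → Fin 2 → Fin 2 → K :=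
  fun i j k => u i * v j * w k

lemma mem_prodForm (u v w : Fin 2 → K) (p : X) :
    p ∈ hyp (prodForm u v w) ↔ (u 0 * co p.1 0 + u 1 * co p.1 1 = 0 ∨
      v 0 * co p.2.1 0 + v 1 * co p.2.1 1 = 0 ∨ w 0 * co p.2.2 0 + w 1 * co p.2.2 1 = 0) := by
  rw [← mul_eq_zero, ← mul_eq_zero]
  simp only [hyp, prodForm, Set.mem_ofPred_eq, Fin.sum_univ_two]
  constructor <;> intro h <;> linear_combination h

lemma lin_zero (x : OnePoint K) :
    (![1, 0] : Fin 2 → K) 0 * co x 0 + (![1, 0] : Fin 2 → K) 1 * co x 1 = 0 ↔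
      x = ((0 : K) : OnePoint K) := by
  induction x using OnePoint.rec <;> simp

lemma lin_infty (x : OnePoint K) :
    (![0, 1] : Fin 2 → K) 0 * co x 0 + (![0, 1] : Fin 2 → K) 1 * co x 1 = 0 ↔ x = ∞ := by
  induction x using OnePoint.rec <;> simp

lemma lin_one (x : OnePoint K) :
    (![1, -1] : Fin 2 → K) 0 * co x 0 + (![1, -1] : Fin 2 → K) 1 * co x 1 = 0 ↔
      x = ((1 : K) : OnePoint K) := by
  induction x using OnePoint.rec with
  | infty => simp
  | coe t => simp [← sub_eq_add_neg, sub_eq_zero]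

/-- roots of unity of order dividing `d`, as points. -/
def mu (d : ℕ) : Set (OnePoint K) := {x | x.map (· ^ d) = ((1 : K) : OnePoint K)}

lemma mu_eq (d : ℕ) (hd : 0 < d) :
    mu d = (fun t : K => (t : OnePoint K)) '' (Polynomial.nthRootsFinset d (1 : K) : Set K) := by
  ext x
  induction x using OnePoint.rec with
  | infty => simp [mu]
  | coe t => simp [mu, Polynomial.mem_nthRootsFinset hd]

lemma mu_fin (d : ℕ) (hd : 0 < d) : (mu d).Finite := by
  rw [mu_eq d hd]
  exact (Finset.finite_toSet _).image _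

lemma exists_prim (d : ℕ) (hd : 0 < d) : ∃ ζ : K, IsPrimitiveRoot ζ d := by
  have : NeZero d := ⟨hd.ne'⟩
  exact HasEnoughRootsOfUnity.exists_primitiveRoot K d

lemma mu_card (d : ℕ) (hd : 0 < d) : (mu d).encard = d := by
  obtain ⟨ζ, hζ⟩ := exists_prim d hd
  rw [mu_eq d hd, Set.InjOn.encard_image (OnePoint.coe_injective.injOn), Set.encard_coe_eq_coe_finsetCard,
    hζ.card_nthRootsFinset]

lemma zero_not_mu (d : ℕ) (hd : 0 < d) : ((0 : K) : OnePoint K) ∉ mu d := by
  simp [mu, hd.ne']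

lemma infty_not_mu (d : ℕ) : (∞ : OnePoint K) ∉ mu d := by
  simp [mu]

lemma inter_ge (m : ℕ) : ((3 ^ m : ℕ) : ℕ∞) ≤ inter Set.univ 2 f^[m] := by
  set a₀ := prodForm ![1, -1] ![1, -1] ![1, -1]
  set a : Fin 2 → Fin 2 → Fin 2 → Fin 2 → K :=
    ![prodForm ![1, 0] ![0, 1] ![1, 0], prodForm ![0, 1] ![1, 0] ![0, 1]]
  have hmem : ∀ p : X, p ∈ cut Set.univ f^[m] a₀ a ↔
      (p.1 ∈ mu (2 ^ m) ∨ p.2.1 ∈ mu (2 ^ m) ∨ p.2.2 ∈ mu (3 ^ m)) ∧
      (p.1 = ((0 : K) : OnePoint K) ∨ p.2.1 = ∞ ∨ p.2.2 = ((0 : K) : OnePoint K)) ∧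
      (p.1 = ∞ ∨ p.2.1 = ((0 : K) : OnePoint K) ∨ p.2.2 = ∞) := by
    intro p
    simp only [cut, Set.univ_inter, Set.mem_inter_iff, Set.mem_preimage, Set.mem_iInter,
      Fin.forall_fin_two, a, a₀, Matrix.cons_val_zero, Matrix.cons_val_one, mem_prodForm,
      Matrix.cons_val_fin_one]
    have h0 := lin_zero
    have h1 := lin_one
    have h2 := lin_infty
    simp only [Matrix.cons_val_zero, Matrix.cons_val_one, Matrix.cons_val_fin_one] at h0 h1 h2
    rw [h0, h0, h0, h1, h1, h1, h2, h2, h2, iter]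
    rfl
  have h2 : 0 < 2 ^ m := by positivity
  have h3 : 0 < 3 ^ m := by positivity
  have hfin : (cut Set.univ f^[m] a₀ a).Finite := by
    have hS : ∀ d, 0 < d → (insert ((0 : K) : OnePoint K) (insert ∞ (mu d))).Finite :=
      fun d hd => ((mu_fin d hd).insert _).insert _
    refine ((hS _ h2).prod ((hS _ h2).prod (hS _ h3))).subset ?_
    rintro ⟨x, y, z⟩ hp
    rw [hmem] at hp
    have z2 := zero_not_mu _ h2
    have z3 := zero_not_mu _ h3
    have i2 := infty_not_mu (2 ^ m)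
    have i3 := infty_not_mu (3 ^ m)
    have hne : ((0 : K) : OnePoint K) ≠ ∞ := OnePoint.coe_ne_infty _
    simp only [Set.mem_prod, Set.mem_insert_iff] at hp ⊢
    obtain ⟨hA, hB, hC⟩ := hp
    rcases hA with hA | hA | hA <;> rcases hB with hB | hB | hB <;> rcases hC with hC | hC | hC <;>
      simp_all
  have hsub : (fun z : OnePoint K => ((((0 : K) : OnePoint K), ((0 : K) : OnePoint K), z) : X)) ''
      mu (3 ^ m) ⊆ cut Set.univ f^[m] a₀ a := by
    rintro _ ⟨z, hz, rfl⟩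
    rw [hmem]
    simp [hz]
  have hc := Set.encard_le_encard hsub
  rw [Set.InjOn.encard_image (by intro x _ y _ h; simpa using h), mu_card _ h3] at hc
  refine hc.trans ?_
  exact le_iSup₂_of_le a₀ a (le_iSup_of_le hfin le_rfl)

lemma inter_le (ζ : K) (m : ℕ) : inter (Y ζ) 0 f^[m] ≤ ((3 * 2 ^ m : ℕ) : ℕ∞) := by
  refine iSup_le fun a₀ => iSup_le fun a => iSup_le fun hfin => ?_
  classical
  set η := ζ ^ 2 ^ m
  set Q : Polynomial K := Polynomial.C (a₀ 0 0 1 * η) * Polynomial.X ^ (2 * 2 ^ m) +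
    Polynomial.C (a₀ 0 1 1 + a₀ 1 0 1 * η) * Polynomial.X ^ (2 ^ m) + Polynomial.C (a₀ 1 1 1)
  let φ : OnePoint K → X := fun t => (t, t.map (ζ * ·), ((0 : K) : OnePoint K))
  have hφ : Function.Injective φ := fun x y h => congrArg Prod.fst h
  have hmem : ∀ t : K, φ t ∈ cut (Y ζ) f^[m] a₀ a ↔ Q.eval t = 0 := by
    intro t
    have hY : ((t : OnePoint K), ((ζ * t : K) : OnePoint K), ((0 : K) : OnePoint K)) ∈ Y ζ :=
      ⟨rfl, rfl⟩
    simp only [cut, Set.mem_inter_iff, Set.mem_iInter, IsEmpty.forall_iff, and_true,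
      Set.mem_preimage, iter, hyp, Set.mem_ofPred_eq, φ, OnePoint.map_some, co_coe, Fin.sum_univ_two,
      Matrix.cons_val_zero, Matrix.cons_val_one, Matrix.cons_val_fin_one, Q, Polynomial.eval_add,
      Polynomial.eval_mul, Polynomial.eval_C, Polynomial.eval_pow, Polynomial.eval_X]
    have h0 : (0 : K) ^ 3 ^ m = 0 := zero_pow (by positivity)
    rw [h0, mul_pow, pow_mul']
    constructor
    · intro h
      linear_combination h.2
    · intro h
      exact ⟨hY, by linear_combination h⟩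
  have hQ : Q ≠ 0 := by
    intro hQ
    refine Set.infinite_of_injective_forall_mem (f := fun t : K => φ t)
      (hφ.comp OnePoint.coe_injective) (fun t => (hmem t).2 (by simp [hQ])) hfin
  have hdeg : Q.natDegree ≤ 2 * 2 ^ m := by
    refine (Polynomial.natDegree_add_le _ _).trans (max_le ((Polynomial.natDegree_add_le _ _).trans
      (max_le ?_ ?_)) ?_)
    · exact Polynomial.natDegree_C_mul_X_pow_le _ _
    · exact (Polynomial.natDegree_C_mul_X_pow_le _ _).trans (by omega)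
    · simp
  have hsub : cut (Y ζ) f^[m] a₀ a ⊆
      φ '' (insert ∞ ((fun t : K => (t : OnePoint K)) '' (Q.roots.toFinset : Set K))) := by
    rintro ⟨x, y, z⟩ hp
    have hY := hp.1.1
    obtain ⟨h1, h2⟩ := hY
    simp only at h1 h2
    subst h1 h2
    refine ⟨x, ?_, rfl⟩
    induction x using OnePoint.rec with
    | infty => simp
    | coe t =>
      right
      refine ⟨t, ?_, rfl⟩
      simp only [Finset.mem_coe, Multiset.mem_toFinset, Polynomial.mem_roots hQ]
      exact (hmem t).1 hp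
  refine (Set.encard_le_encard hsub).trans ?_
  rw [hφ.injOn.encard_image]
  refine (Set.encard_insert_le _ _).trans ?_
  rw [OnePoint.coe_injective.injOn.encard_image, Set.encard_coe_eq_coe_finsetCard]
  have h1 : Q.roots.toFinset.card ≤ 2 * 2 ^ m :=
    (Multiset.toFinset_card_le _).trans ((Polynomial.card_roots' _).trans hdeg)
  have h2 : 0 < 2 ^ m := by positivity
  have h3 : Q.roots.toFinset.card + 1 ≤ 3 * 2 ^ m := by omega
  exact_mod_cast h3

lemma d1_ge (s : ℕ) : (3 : ENNReal) ^ s ≤ d1 Set.univ 3 f^[s] := by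
  refine Filter.le_limsup_of_frequently_le (Filter.Eventually.frequently ?_)
  filter_upwards [Filter.eventually_gt_atTop 0] with n hn
  rw [← Function.iterate_mul]
  have h := inter_ge (s * n)
  have h' : (((3 ^ (s * n) : ℕ) : ℕ∞) : ENNReal) ≤ ((inter Set.univ 2 f^[s * n] : ℕ∞) : ENNReal) :=
    ENat.toENNReal_le.2 h
  refine le_trans ?_ (ENNReal.rpow_le_rpow h' (by positivity))
  have hn' : (n : ℝ) ≠ 0 := by exact_mod_cast hn.ne'
  rw [ENat.toENNReal_coe]
  simp only [Nat.cast_pow, Nat.cast_ofNat, pow_mul]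
  rw [one_div, ENNReal.pow_rpow_inv_natCast hn.ne']

lemma d1_lt (ζ : K) (s : ℕ) (hs : 3 ≤ s) : d1 (Y ζ) 1 f^[s] < (3 : ENNReal) ^ s := by
  have hlt : (3 * 2 ^ s : ENNReal) < 3 ^ s := by
    have : 3 * 2 ^ s < 3 ^ s := by
      induction s, hs using Nat.le_induction with
      | base => norm_num
      | succ k _ ih => rw [pow_succ, pow_succ]; omega
    exact_mod_cast this
  refine lt_of_le_of_lt ?_ hlt
  refine Filter.limsup_le_of_le (by isBoundedDefault) ?_
  filter_upwards [Filter.eventually_gt_atTop 0] with n hn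
  rw [← Function.iterate_mul]
  have h := inter_le ζ (s * n)
  have h2 : 3 * 2 ^ (s * n) ≤ (3 * 2 ^ s) ^ n := by
    rw [mul_pow, ← pow_mul]
    exact Nat.mul_le_mul_right _ (by
      calc 3 = 3 ^ 1 := by norm_num
        _ ≤ 3 ^ n := Nat.pow_le_pow_right (by norm_num) hn)
  have h3 : inter (Y ζ) 0 f^[s * n] ≤ (((3 * 2 ^ s) ^ n : ℕ) : ℕ∞) :=
    h.trans (by exact_mod_cast h2)
  have h' : ((inter (Y ζ) 0 f^[s * n] : ℕ∞) : ENNReal) ≤ ((((3 * 2 ^ s) ^ n : ℕ) : ℕ∞) : ENNReal) :=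
    ENat.toENNReal_le.2 h3
  refine le_trans (ENNReal.rpow_le_rpow h' (by positivity)) ?_
  rw [ENat.toENNReal_coe]
  simp only [Nat.cast_pow, Nat.cast_ofNat, Nat.cast_mul]
  rw [one_div, ENNReal.pow_rpow_inv_natCast hn.ne']

theorem main : Function.Surjective f ∧ 1 < d1 Set.univ 3 f ∧
    ∀ N : ℕ, ∃ (ζ : K) (s : ℕ), ζ ≠ 0 ∧ N < s ∧
      IsLeast {m : ℕ | 0 < m ∧ f^[m] '' Y ζ = Y ζ} s ∧
      d1 (Y ζ) 1 f^[s] < d1 Set.univ 3 f^[s] ∧
      ((((0 : K) : OnePoint K), ((0 : K) : OnePoint K), ((0 : K) : OnePoint K)) : X) ∈ Y ζ := by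
  refine ⟨f_surj, ?_, fun N => ?_⟩
  · have := d1_ge 1
    simp only [pow_one, Function.iterate_one] at this
    exact lt_of_lt_of_le (by norm_num) this
  · set s := N + 3
    have hpos : 0 < 2 ^ s - 1 := by
      have : 2 ^ 1 ≤ 2 ^ s := Nat.pow_le_pow_right (by norm_num) (by omega)
      omega
    obtain ⟨ζ, hζ⟩ := exists_prim _ hpos
    have hz : ζ ≠ 0 := hζ.ne_zero hpos.ne'
    have key : ∀ m : ℕ, ζ ^ 2 ^ m = ζ ↔ 2 ^ s - 1 ∣ 2 ^ m - 1 := by
      intro m
      rw [← hζ.pow_eq_one_iff_dvd]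
      have h1 : 2 ^ m = (2 ^ m - 1) + 1 := by
        have : 0 < 2 ^ m := by positivity
        omega
      conv_lhs => rw [h1, pow_succ]
      constructor
      · intro h
        exact mul_right_cancel₀ hz (by rw [h, one_mul])
      · intro h
        rw [h, one_mul]
    refine ⟨ζ, s, hz, by omega, ⟨⟨by omega, ?_⟩, ?_⟩, ?_, ⟨by simp, rfl⟩⟩
    · rw [image_Y, (key s).2 dvd_rfl]
    · rintro m ⟨hm, h⟩
      rw [image_Y] at h
      have h1 := (key m).1 (Y_inj h)
      have h2 : 0 < 2 ^ m - 1 := by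
        have : 2 ^ 1 ≤ 2 ^ m := Nat.pow_le_pow_right (by norm_num) hm
        omega
      have h3 := Nat.le_of_dvd h2 h1
      have h4 : 2 ^ s ≤ 2 ^ m := by omega
      exact (Nat.pow_le_pow_iff_right (by norm_num)).1 h4
    · exact (d1_lt ζ s (by omega)).trans_le (d1_ge s)

end H49.SDD
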