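import Mathlib

set_option autoImplicit false

namespace H49.SDD

open scoped ENNReal

/-- The field of algebraic numbers. -/
abbrev K : Type := AlgebraicClosure ℚ

/-- Geometric points of `X = ℙ¹ × ℙ¹ × ℙ¹`, with `ℙ¹ = K ∪ {∞}`. -/
abbrev X : Type := OnePoint K × OnePoint K × OnePoint K

/-- Homogeneous coordinates on `ℙ¹`: `t = [t : 1]`, `∞ = [1 : 0]`. -/
noncomputable def co (x : OnePoint K) : Fin 2 → K :=
  x.elim ![1, 0] (fun t => ![t, 1])

/-- The endomorphism `(x, y, z) ↦ (x², y², z³)` of `X` (each factor fixes `∞`). -/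
noncomputable def f (p : X) : X :=
  (p.1.map (· ^ 2), p.2.1.map (· ^ 2), p.2.2.map (· ^ 3))

/-- Zero set of the trilinear form with coefficients `a`: a hyperplane section of `X` in the Segre
embedding, i.e. a member of the very ample system `|H|`, `H = O(1,1,1)` (or `X` if `a = 0`). -/
def hyp (a : Fin 2 → Fin 2 → Fin 2 → K) : Set X :=
  {p | ∑ i, ∑ j, ∑ k, a i j k * co p.1 i * co p.2.1 j * co p.2.2 k = 0}

/-- `V ∩ g⁻¹(H₀) ∩ H₁ ∩ ⋯ ∩ H_r`. -/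
def cut (V : Set X) (g : X → X) {r : ℕ} (a₀ : Fin 2 → Fin 2 → Fin 2 → K)
    (a : Fin r → Fin 2 → Fin 2 → Fin 2 → K) : Set X :=
  V ∩ g ⁻¹' hyp a₀ ∩ ⋂ i, hyp (a i)

/-- The intersection number `(g|_V)^* H · H^r` on a subvariety `V` of dimension `r + 1`: the
largest number of points of a finite intersection `V ∩ g⁻¹(H₀) ∩ H₁ ∩ ⋯ ∩ H_r`. -/
noncomputable def inter (V : Set X) (r : ℕ) (g : X → X) : ℕ∞ :=
  ⨆ (a₀ : Fin 2 → Fin 2 → Fin 2 → K) (a : Fin r → Fin 2 → Fin 2 → Fin 2 → K)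
    (_ : (cut V g a₀ a).Finite), (cut V g a₀ a).encard

/-- First dynamical degree of `g|_V` on a subvariety `V` of dimension `m`. -/
noncomputable def d1 (V : Set X) (m : ℕ) (g : X → X) : ℝ≥0∞ :=
  Filter.limsup (fun n : ℕ => ((inter V (m - 1) g^[n] : ℕ∞) : ℝ≥0∞) ^ (1 / (n : ℝ))) Filter.atTop

/-- The curve `Y_ζ = {(t, ζ t, 0) : t ∈ ℙ¹}`. -/
def Y (ζ : K) : Set X :=
  {p | p.2.1 = p.1.map (ζ * ·) ∧ p.2.2 = ((0 : K) : OnePoint K)}

end H49.SDD
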