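import Pool.Agent.H49.SelOrd

set_option autoImplicit false
open Complex MeasureTheory Set Filter

namespace Pool.Agent.H49.Sel
open Pool.Agent.Lead.Sel

/-- the entire functions attached to a theta identity -/
theorem pack (hmel : MEL) (e ν : ℝ) (m : ℕ) (d κ : ℝ) (a : ℕ → ℝ) (σ0 lam mu : ℝ)
    (hlam : lam = d / 2) (hmu : mu = (m : ℝ) / 2 + 1 / 4 - d / 4) (hd : 2 ≤ d) (hm : 0 < mu)
    (hκ : 0 < κ) (ha : a 0 = 0) (hσ0 : 0 ≤ σ0) (hσ : σ0 ≤ 2)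
    (hs : Summable (fun n : ℕ => |a n| * (n : ℝ) ^ (-σ0))) (hθ : Theta e ν m d κ a) :
    ∃ (Φ G : ℂ → ℂ) (Q : ℝ), 0 < Q ∧ Differentiable ℂ G ∧ Ord2 univ G ∧
      (∀ s : ℂ, σ0 ≤ s.re → G s = (e * (lam * s + mu) - ν) * LSeries (fun n => (a n : ℂ)) s) ∧
      (∀ s, Φ (1 - s) = -Φ s) ∧ (∀ s, Φ (starRingEnd ℂ s) = starRingEnd ℂ (Φ s)) ∧
      (∀ s : ℂ, Complex.Gamma (lam * s + mu) ≠ 0 →
        (Q : ℂ) ^ s * Complex.Gamma (lam * s + mu) * G s = Φ s) := by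
  obtain ⟨Φ, h1, h2, h3, h4, h5⟩ := hmel e ν m d κ a σ0 (by linarith) hκ ha hs hθ
  rw [← hmu, ← hlam] at h5
  set Q : ℝ := (Real.pi * κ ^ 2) ^ (-lam) with hQ
  have hQ0 : 0 < Q := Real.rpow_pos_of_pos (mul_pos Real.pi_pos (by positivity)) _
  have hQ1 : (Q : ℂ) ≠ 0 := ofReal_ne_zero.mpr hQ0.ne'
  have hl1 : 1 ≤ lam := by linarith
  have h6 : ∀ s : ℂ, σ0 ≤ s.re → Φ s = (e * (lam * s + mu) - ν) * (Q : ℂ) ^ s *
      Complex.Gamma (lam * s + mu) * LSeries (fun n => (a n : ℂ)) s :=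
    fun s hs => h5 s hs (by nlinarith)
  have hcp : ∀ s : ℂ, (Q : ℂ) ^ s * (Q : ℂ) ^ ((-1 : ℂ) * s + 0) = 1 := by
    intro s; rw [← cpow_add _ _ hQ1]; simp
  refine ⟨Φ, fun s => Φ s * (Q : ℂ) ^ ((-1 : ℂ) * s + 0) * (Complex.Gamma (lam * s + mu))⁻¹, Q, hQ0,
    ?_, ?_, fun s hs' => ?_, h2, h3, fun s hs' => ?_⟩
  · refine (h1.mul fun s => DifferentiableAt.const_cpow (by fun_prop) (Or.inl hQ1)).mul ?_
    exact differentiable_one_div_Gamma.comp (by fun_prop)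
  · exact ((phi_ord2 hQ0 hl1 hm.le hσ hs h2 h4 fun s hs' => h6 s (hσ.trans hs')).mul
      (ord2_cpow_affine _ hQ0 _ _)).mul (ord2_invGamma _ _ _)
  · have hG : Complex.Gamma (lam * s + mu) ≠ 0 := by
      apply Complex.Gamma_ne_zero_of_re_pos
      simp only [add_re, mul_re, ofReal_re, ofReal_im, zero_mul, sub_zero]
      nlinarith
    beta_reduce
    rw [h6 s hs']
    have := hcp s
    generalize (Q : ℂ) ^ ((-1 : ℂ) * s + 0) = u at this ⊢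
    field_simp
    linear_combination (e * (lam * s + mu) - ν) * LSeries (fun n => (a n : ℂ)) s * this
  · beta_reduce
    have := hcp s
    generalize (Q : ℂ) ^ ((-1 : ℂ) * s + 0) = u at this ⊢
    field_simp
    linear_combination Φ s * this

theorem exs (hsel : SEL) (hker : KER0) (hmel : MEL) : EXS := by
  obtain ⟨d0, hsel⟩ := hsel
  obtain ⟨N, hN⟩ := exists_nat_ge (|d0| + 3)
  have hd0 := le_abs_self d0
  have hd1 := abs_nonneg d0
  obtain ⟨κ, hκ, a, b, a0, a1, a2, b1, b2, b3, sa, sb, hexp, hθ⟩ :=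
    hsel 0 (-1) N ((N : ℝ) + 1 / 2) (by linarith) (hker N)
  obtain ⟨Φ, G, Q, hQ, g1, g2, g3, f1, f2, f3⟩ := pack hmel 0 (-1) N ((N : ℝ) + 1 / 2) κ a (5 / 8)
    _ _ rfl rfl (by linarith) (by linarith) hκ a0 (by norm_num) (by norm_num) sa hθ
  refine ⟨fun n => a n, fun n => b n, G, Q, ((N : ℝ) + 1 / 2) / 2,
    (N : ℝ) / 2 + 1 / 4 - ((N : ℝ) + 1 / 2) / 4, by simp [a0], by simp [a1],
    fun n => by simpa using a2 n, fun n hn => by simp [b1 n hn], fun n => by simpa using b2 n,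
    fun p hp => by simp [b3 p hp],
    fun s hs => ⟨(lseries_bdd sb (by linarith)).1, hexp s (by linarith)⟩, g1, g2.finite_order,
    fun s hs => by rw [g3 s (by linarith)]; simp, hQ, by linarith, by linarith, fun k hk => ?_,
    fun s h1 h2 => ?_⟩
  · have : (2 * N + 1 : ℝ) = 2 * k := by linarith
    have : (2 * N + 1 : ℤ) = 2 * k := by exact_mod_cast this
    omega
  · rw [f3 s (Complex.Gamma_ne_zero h1), f3 _ (Complex.Gamma_ne_zero h2), f1, f2]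
    simp

/-- the negation of the degree conjecture, in the form of the frozen statement -/
theorem fin15984 (h : EXS) :
    ¬ (∀ (f : ℕ → ℂ),
    (∃ n : ℕ, 0 < n ∧ f n ≠ 0) →
    (∀ ε : ℝ, 0 < ε → ∃ C : ℝ, ∀ n : ℕ, 1 ≤ n → ‖f n‖ ≤ C * (n : ℝ) ^ ε) →
    ∀ (m : ℕ) (F : ℂ → ℂ), Differentiable ℂ F →
    (∃ ρ C : ℝ, ∀ s : ℂ, ‖F s‖ ≤ C * Real.exp (‖s‖ ^ ρ)) →
    (∀ s : ℂ, 1 < s.re → F s = (s - 1) ^ m * LSeries f s) →
    ∀ (R : ℕ) (Q : ℝ) (lam : Fin R → ℝ) (mu : Fin R → ℂ) (ω : ℂ),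
    0 < Q → (∀ j, 0 < lam j) → (∀ j, 0 ≤ (mu j).re) → ‖ω‖ = 1 →
    (∀ s : ℂ, s ≠ 0 → s ≠ 1 →
      (∀ j, ∀ n : ℕ, (lam j : ℂ) * s + mu j ≠ -(n : ℂ)) →
      (∀ j, ∀ n : ℕ, (lam j : ℂ) * (1 - starRingEnd ℂ s) + mu j ≠ -(n : ℂ)) →
      F s / (s - 1) ^ m * (Q : ℂ) ^ s * ∏ j, Complex.Gamma ((lam j : ℂ) * s + mu j)
        = ω * starRingEnd ℂ
            (F (1 - starRingEnd ℂ s) / (1 - starRingEnd ℂ s - 1) ^ m
              * (Q : ℂ) ^ (1 - starRingEnd ℂ s)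
              * ∏ j, Complex.Gamma ((lam j : ℂ) * (1 - starRingEnd ℂ s) + mu j))) →
    ∀ (b : ℕ → ℂ) (θ : ℝ), θ < 1 / 2 →
    (∃ C : ℝ, ∀ p k : ℕ, p.Prime → 1 ≤ k → ‖b (p ^ k)‖ ≤ C * ((p ^ k : ℕ) : ℝ) ^ θ) →
    (∀ s : ℂ, 1 < s.re →
      HasProd (fun p : Nat.Primes =>
        Complex.exp (∑' k : ℕ, b ((p : ℕ) ^ (k + 1)) * ((p : ℕ) : ℂ) ^ (-(((k + 1 : ℕ) : ℂ) * s))))
        (LSeries f s)) →
    ∃ d : ℤ, 2 * ∑ j, lam j = (d : ℝ)) := by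
  intro H
  obtain ⟨a, b, G, Q, lam, mu, a0, a1, a2, b1, b2, b3, hexp, g1, g2, g3, hQ, hlam, hmu, hni, hfe⟩ := h
  obtain ⟨d, hd⟩ := H a ⟨1, one_pos, by simp [a1]⟩
    (fun ε hε => ⟨1, fun n hn => (a2 n).trans (by
      rw [one_mul]; exact Real.one_le_rpow (by exact_mod_cast hn) hε.le)⟩)
    0 G g1 g2 (fun s hs => by simp [g3 s hs]) 1 Q (fun _ => lam) (fun _ => mu) (-1) hQ
    (fun _ => by linarith) (fun _ => by simpa using hmu.le) (by simp)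
    (fun s _ _ h1 h2 => by
      have := hfe s (h1 0) (h2 0)
      simp only [pow_zero, div_one, Finset.univ_unique, Finset.prod_const, Finset.card_singleton,
        pow_one, neg_mul, one_mul]
      rw [show G s * (Q : ℂ) ^ s * Complex.Gamma (lam * s + mu) =
        (Q : ℂ) ^ s * Complex.Gamma (lam * s + mu) * G s by ring, this]
      congr 2; ring)
    b (-(1 / 8)) (by norm_num) ⟨1, fun p k _ _ => by simpa using b2 (p ^ k)⟩
    (fun s hs => by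
      obtain ⟨h1, h2⟩ := hexp s hs
      rw [h2]
      apply HasSum.cexp
      have h3 : ∀ p : Nat.Primes, ∑' k : ℕ, b ((p : ℕ) ^ (k + 1)) *
          ((p : ℕ) : ℂ) ^ (-(((k + 1 : ℕ) : ℂ) * s)) = LSeries.term b s p := by
        intro p
        rw [tsum_eq_single 0, LSeries.term_of_ne_zero p.2.ne_zero]
        · simp [cpow_neg, div_eq_mul_inv]
        · intro k hk
          rw [b1 _ (Nat.Prime.not_prime_pow (by omega)), zero_mul]
      simp_rw [h3]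
      refine (Function.Injective.hasSum_iff (f := LSeries.term b s)
        (g := fun p : Nat.Primes => (p : ℕ)) Subtype.val_injective fun n hn => ?_).mpr h1.hasSum
      have : ¬ n.Prime := fun hp => hn ⟨⟨n, hp⟩, rfl⟩
      rw [LSeries.term_def, b1 n this]; simp)
  apply hni d
  simpa using hd

end Pool.Agent.H49.Sel
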