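import Pool.Agent.Lead.Sel.Spec

set_option autoImplicit false
open Complex MeasureTheory Set

namespace Pool.Agent.H49.Sel
open Pool.Agent.Lead.Sel

theorem norm_Gamma_le {s : ℂ} (hs : 0 < s.re) : ‖Complex.Gamma s‖ ≤ Real.Gamma s.re := by
  rw [Complex.Gamma_eq_integral hs, Real.Gamma_eq_integral hs, GammaIntegral]
  refine (norm_integral_le_integral_norm _).trans (le_of_eq ?_)
  refine setIntegral_congr_fun measurableSet_Ioi fun x hx => ?_
  have hx0 : (0 : ℝ) < x := hx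
  simp only [norm_mul, Complex.norm_real, Real.norm_eq_abs, abs_of_pos (Real.exp_pos _)]
  rw [norm_cpow_eq_rpow_re_of_pos hx0]
  simp

theorem norm_beta_le (x y c : ℝ) :
    ‖betaIntegral (x + y * I) c‖ ≤ ‖betaIntegral x c‖ := by
  have key : betaIntegral x c = ((∫ t : ℝ in 0..1, t ^ (x - 1) * (1 - t) ^ (c - 1) : ℝ) : ℂ) := by
    rw [betaIntegral, ← intervalIntegral.integral_ofReal,
      intervalIntegral.integral_of_le zero_le_one, intervalIntegral.integral_of_le zero_le_one]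
    refine setIntegral_congr_fun measurableSet_Ioc fun t ht => ?_
    have h1 : (0 : ℝ) ≤ 1 - t := sub_nonneg.mpr ht.2
    simp only [ofReal_mul]
    rw [ofReal_cpow ht.1.le, ofReal_cpow h1]
    push_cast; rfl
  rw [key, Complex.norm_real, betaIntegral]
  refine (intervalIntegral.norm_integral_le_integral_norm zero_le_one).trans ?_
  refine le_trans (le_of_eq ?_) (le_abs_self _)
  rw [intervalIntegral.integral_of_le zero_le_one, intervalIntegral.integral_of_le zero_le_one,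
    integral_Ioc_eq_integral_Ioo, integral_Ioc_eq_integral_Ioo]
  refine setIntegral_congr_fun measurableSet_Ioo fun t ht => ?_
  have h1 : (0 : ℝ) < 1 - t := sub_pos.mpr ht.2
  have h2 : (1 : ℂ) - t = ((1 - t : ℝ) : ℂ) := by push_cast; rfl
  simp only [norm_mul]
  rw [h2, norm_cpow_eq_rpow_re_of_pos ht.1, norm_cpow_eq_rpow_re_of_pos h1]
  simp

/-- the ratio of the complex to the real Gamma value increases with the real part -/
theorem Gamma_ratio_mono {x x' y : ℝ} (hx : 0 < x) (hxx : x ≤ x') :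
    ‖Complex.Gamma (x + y * I)‖ * Real.Gamma x' ≤ ‖Complex.Gamma (x' + y * I)‖ * Real.Gamma x := by
  rcases hxx.eq_or_lt with rfl | hlt
  · exact le_rfl
  obtain ⟨c, rfl⟩ : ∃ c, x' = x + c := ⟨x' - x, by ring⟩
  have hc : 0 < c := by linarith
  have h1 := Gamma_mul_Gamma_eq_betaIntegral (s := x + y * I) (t := c) (by simpa using hx)
    (by simpa using hc)
  have h2 := Gamma_mul_Gamma_eq_betaIntegral (s := x) (t := c) (by simpa using hx)
    (by simpa using hc)
  have e1 : (x : ℂ) + y * I + c = ((x + c : ℝ) : ℂ) + y * I := by push_cast; ring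
  rw [e1] at h1
  have gc := Real.Gamma_pos_of_pos hc
  have gx := Real.Gamma_pos_of_pos hx
  have gxc := Real.Gamma_pos_of_pos (add_pos hx hc)
  have n1 := congrArg norm h1
  have n2 := congrArg norm h2
  rw [← ofReal_add] at n2
  simp only [norm_mul, Gamma_ofReal, Complex.norm_real, Real.norm_eq_abs, abs_of_pos gc,
    abs_of_pos gx, abs_of_pos gxc] at n1 n2
  have h3 := norm_beta_le x y c
  have h4 : ‖Complex.Gamma (x + y * I)‖ * Real.Gamma (x + c) * Real.Gamma c ≤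
      ‖Complex.Gamma (((x + c : ℝ) : ℂ) + y * I)‖ * Real.Gamma x * Real.Gamma c := by
    calc _ = (‖Complex.Gamma (x + y * I)‖ * Real.Gamma c) * Real.Gamma (x + c) := by ring
      _ = ‖Complex.Gamma (((x + c : ℝ) : ℂ) + y * I)‖ * ‖betaIntegral (x + y * I) c‖ *
            Real.Gamma (x + c) := by rw [n1]
      _ ≤ ‖Complex.Gamma (((x + c : ℝ) : ℂ) + y * I)‖ * ‖betaIntegral x c‖ *
            Real.Gamma (x + c) := by gcongr
      _ = ‖Complex.Gamma (((x + c : ℝ) : ℂ) + y * I)‖ *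
            (Real.Gamma (x + c) * ‖betaIntegral x c‖) := by ring
      _ = _ := by rw [← n2]; ring
  exact le_of_mul_le_mul_right h4 gc

theorem norm_Gamma_half_sq (y : ℝ) :
    ‖Complex.Gamma ((1 / 2 : ℝ) + y * I)‖ ^ 2 * Real.cosh (Real.pi * y) = Real.pi := by
  have h := Complex.Gamma_mul_Gamma_one_sub (((1 / 2 : ℝ) : ℂ) + y * I)
  have e1 : (1 : ℂ) - (((1 / 2 : ℝ) : ℂ) + y * I) = starRingEnd ℂ (((1 / 2 : ℝ) : ℂ) + y * I) := by
    apply Complex.ext <;> simp; norm_num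
  have e2 : (Real.pi : ℂ) * (((1 / 2 : ℝ) : ℂ) + y * I) =
      ((Real.pi * y : ℝ) : ℂ) * I + Real.pi / 2 := by push_cast; ring
  rw [e1, Gamma_conj, mul_conj, e2, Complex.sin_add_pi_div_two, cos_mul_I, ← ofReal_cosh,
    ← ofReal_div, ofReal_inj, Complex.normSq_eq_norm_sq] at h
  rw [h]
  have := Real.cosh_pos (Real.pi * y)
  field_simp

theorem cosh_bounds (u : ℝ) : Real.exp |u| / 2 ≤ Real.cosh u ∧ Real.cosh u ≤ Real.exp |u| := by
  rw [← Real.cosh_abs, Real.cosh_eq]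
  have h1 := Real.exp_pos (-|u|)
  have h2 : Real.exp (-|u|) ≤ Real.exp |u| := Real.exp_le_exp.mpr (by linarith [abs_nonneg u])
  constructor <;> linarith

theorem norm_Gamma_half (y : ℝ) :
    Real.exp (-(Real.pi * |y| / 2)) ≤ ‖Complex.Gamma ((1 / 2 : ℝ) + y * I)‖ ∧
    ‖Complex.Gamma ((1 / 2 : ℝ) + y * I)‖ ≤ 3 * Real.exp (-(Real.pi * |y| / 2)) := by
  have h := norm_Gamma_half_sq y
  obtain ⟨h1, h2⟩ := cosh_bounds (Real.pi * y)
  rw [abs_mul, abs_of_pos Real.pi_pos] at h1 h2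
  set g := ‖Complex.Gamma ((1 / 2 : ℝ) + y * I)‖
  set E := Real.exp (-(Real.pi * |y| / 2))
  have hE : 0 < E := Real.exp_pos _
  have hEE : E ^ 2 * Real.exp (Real.pi * |y|) = 1 := by
    rw [← Real.exp_nat_mul, ← Real.exp_add]; simp; ring
  have hg : 0 ≤ g := norm_nonneg _
  have p3 := Real.pi_gt_three
  have p4 := Real.pi_lt_four
  have hX := Real.exp_pos (Real.pi * |y|)
  constructor
  · apply (pow_le_pow_iff_left₀ hE.le hg two_ne_zero).mp
    have : E ^ 2 * Real.exp (Real.pi * |y|) ≤ g ^ 2 * Real.exp (Real.pi * |y|) := by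
      have : g ^ 2 * Real.cosh (Real.pi * y) ≤ g ^ 2 * Real.exp (Real.pi * |y|) := by gcongr
      linarith
    exact le_of_mul_le_mul_right this hX
  · apply (pow_le_pow_iff_left₀ hg (by positivity) two_ne_zero).mp
    have : g ^ 2 * Real.exp (Real.pi * |y|) ≤ (3 * E) ^ 2 * Real.exp (Real.pi * |y|) := by
      have : g ^ 2 * (Real.exp (Real.pi * |y|) / 2) ≤ g ^ 2 * Real.cosh (Real.pi * y) := by gcongr
      nlinarith
    exact le_of_mul_le_mul_right this hX

theorem one_le_Gamma {x : ℝ} (hx : 2 ≤ x) : 1 ≤ Real.Gamma x := by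
  have := Real.Gamma_strictMonoOn_Ici.monotoneOn (show (2 : ℝ) ≤ 2 from le_refl _) hx hx
  rwa [Real.Gamma_two] at this

theorem Gamma_shift2 {x : ℝ} (hx : 0 < x) : Real.Gamma (x + 2) = x * (x + 1) * Real.Gamma x := by
  rw [show x + 2 = (x + 1) + 1 by ring, Real.Gamma_add_one (by linarith),
    Real.Gamma_add_one hx.ne']
  ring

theorem Gamma_lower {x : ℝ} (hx : 0 < x) : 1 ≤ x * (x + 1) * Real.Gamma x := by
  rw [← Gamma_shift2 hx]; exact one_le_Gamma (by linarith)

theorem Gamma_upper {x : ℝ} (hx : 1 / 2 ≤ x) (n : ℕ) (hn : x ≤ n + 1) :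
    Real.Gamma x ≤ 2 * (n + 2).factorial := by
  have h0 : 0 < x := by linarith
  have h1 : Real.Gamma (x + 2) ≤ Real.Gamma (((n + 2 : ℕ) : ℝ) + 1) :=
    Real.Gamma_strictMonoOn_Ici.monotoneOn (show (2 : ℝ) ≤ x + 2 by linarith)
      (show (2 : ℝ) ≤ ((n + 2 : ℕ) : ℝ) + 1 by push_cast; linarith [n.cast_nonneg (α := ℝ)])
      (by push_cast; linarith)
  rw [Real.Gamma_nat_eq_factorial, Gamma_shift2 h0] at h1
  have h2 := Real.Gamma_pos_of_pos h0
  have h3 : 1 / 2 ≤ x * (x + 1) := by nlinarith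
  nlinarith

theorem Gamma_half_bounds : 1 ≤ Real.Gamma (1 / 2) ∧ Real.Gamma (1 / 2) ≤ 2 := by
  rw [Real.Gamma_one_half_eq]
  constructor
  · exact Real.one_le_sqrt.mpr (by linarith [Real.pi_gt_three])
  · exact Real.sqrt_le_iff.mpr ⟨by norm_num, by linarith [Real.pi_lt_four]⟩

/-- lower bound on the half plane right of one half -/
theorem norm_Gamma_lower {x : ℝ} (y : ℝ) (hx : 1 / 2 ≤ x) :
    Real.exp (-(Real.pi * |y| / 2)) ≤ 2 * (x * (x + 1)) * ‖Complex.Gamma (x + y * I)‖ := by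
  have h1 := Gamma_ratio_mono (y := y) (show (0 : ℝ) < 1 / 2 by norm_num) hx
  have h2 := (norm_Gamma_half y).1
  have h3 := Gamma_half_bounds.2
  have h0 : 0 < x := by linarith
  have h4 := Gamma_lower h0
  have h5 := Real.Gamma_pos_of_pos h0
  have h6 : 0 < x * (x + 1) := by positivity
  set E := Real.exp (-(Real.pi * |y| / 2))
  have hE : 0 < E := Real.exp_pos _
  set g := ‖Complex.Gamma (x + y * I)‖
  have hg : 0 ≤ g := norm_nonneg _
  calc E ≤ E * (x * (x + 1) * Real.Gamma x) := le_mul_of_one_le_right hE.le h4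
    _ = x * (x + 1) * (E * Real.Gamma x) := by ring
    _ ≤ x * (x + 1) * (‖Complex.Gamma ((1 / 2 : ℝ) + y * I)‖ * Real.Gamma x) := by gcongr
    _ ≤ x * (x + 1) * (g * Real.Gamma (1 / 2)) := by gcongr
    _ ≤ x * (x + 1) * (g * 2) := by gcongr
    _ = _ := by ring

theorem Gamma_step (x y : ℝ) (hy : 1 ≤ |y|) :
    ‖Complex.Gamma ((x + 1 : ℝ) + y * I)‖ = ‖(x : ℂ) + y * I‖ * ‖Complex.Gamma (x + y * I)‖ ∧
    |y| ≤ ‖(x : ℂ) + y * I‖ ∧ ‖(x : ℂ) + y * I‖ ≤ (|x| + 1) * |y| := by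
  have h2 : |y| ≤ ‖(x : ℂ) + y * I‖ := by
    have := Complex.abs_im_le_norm ((x : ℂ) + y * I)
    simpa using this
  refine ⟨?_, h2, ?_⟩
  · have hne : (x : ℂ) + y * I ≠ 0 := by
      intro h; rw [h, norm_zero] at h2; linarith
    rw [← norm_mul, ← Complex.Gamma_add_one _ hne]
    congr 2; push_cast; ring
  · have := norm_add_le (x : ℂ) (y * I)
    simp only [Complex.norm_real, Real.norm_eq_abs, norm_mul, norm_I, mul_one] at this
    nlinarith [abs_nonneg x]

/-- the two sided bound in a strip -/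
def Strip (A B : ℝ) : Prop := ∃ c C : ℝ, 0 < c ∧ 0 < C ∧ ∀ x y : ℝ, A ≤ x → x ≤ B → 1 ≤ |y| →
    c * |y| ^ (x - 3 / 2) * Real.exp (-(Real.pi * |y| / 2)) ≤ ‖Complex.Gamma (x + y * I)‖ ∧
    ‖Complex.Gamma (x + y * I)‖ ≤ C * |y| ^ (x + 1 / 2) * Real.exp (-(Real.pi * |y| / 2))

theorem strip_base : Strip (1 / 2) (3 / 2) := by
  refine ⟨1 / 8, 72, by norm_num, by norm_num, fun x y h1 h2 hy => ?_⟩
  set E := Real.exp (-(Real.pi * |y| / 2)) with hEdef
  have hE : 0 < E := Real.exp_pos _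
  have hg : 0 ≤ ‖Complex.Gamma (x + y * I)‖ := norm_nonneg _
  constructor
  · have h3 := norm_Gamma_lower y h1
    have h4 : |y| ^ (x - 3 / 2) ≤ 1 := Real.rpow_le_one_of_one_le_of_nonpos hy (by linarith)
    have h5 : 2 * (x * (x + 1)) ≤ 8 := by nlinarith
    have h6 : E ≤ 8 * ‖Complex.Gamma (x + y * I)‖ := h3.trans (by gcongr)
    nlinarith
  · have h3 := Gamma_ratio_mono (y := y) (show (0 : ℝ) < x by linarith) h2
    obtain ⟨s1, -, s3⟩ := Gamma_step (1 / 2) y hy
    rw [show (1 / 2 + 1 : ℝ) = 3 / 2 by norm_num] at s1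
    have h4 := (norm_Gamma_half y).2
    have h5 : Real.Gamma (3 / 2) = 1 / 2 * Real.Gamma (1 / 2) := by
      rw [← Real.Gamma_add_one (by norm_num)]; norm_num
    have h6 := Gamma_half_bounds.1
    have h7 := Gamma_upper h1 1 (by push_cast; linarith)
    have h8 : |y| ≤ |y| ^ (x + 1 / 2) := by
      conv_lhs => rw [← Real.rpow_one |y|]
      exact Real.rpow_le_rpow_of_exponent_le hy (by linarith)
    rw [abs_of_pos (by norm_num : (0 : ℝ) < 1 / 2)] at s3
    have h9 : ‖Complex.Gamma ((3 / 2 : ℝ) + y * I)‖ ≤ (1 / 2 + 1) * |y| * (3 * E) := by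
      rw [s1]; gcongr
    have h10 : Real.Gamma x ≤ 8 := by
      have h0 : 0 < x := by linarith
      have a1 : Real.Gamma (x + 2) ≤ Real.Gamma (((3 : ℕ) : ℝ) + 1) :=
        Real.Gamma_strictMonoOn_Ici.monotoneOn (show (2 : ℝ) ≤ x + 2 by linarith)
          (show (2 : ℝ) ≤ ((3 : ℕ) : ℝ) + 1 by norm_num) (by push_cast; linarith)
      rw [Real.Gamma_nat_eq_factorial, Gamma_shift2 h0] at a1
      have a2 := Real.Gamma_pos_of_pos h0
      have a3 : 3 / 4 ≤ x * (x + 1) := by nlinarith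
      norm_num [Nat.factorial] at a1
      nlinarith
    have h11 : ‖Complex.Gamma (x + y * I)‖ * (1 / 2) ≤ (1 / 2 + 1) * |y| * (3 * E) * 8 := by
      calc _ ≤ ‖Complex.Gamma (x + y * I)‖ * Real.Gamma (3 / 2) := by gcongr; linarith
        _ ≤ _ := h3
        _ ≤ _ := by gcongr
    have h12 : |y| * E ≤ |y| ^ (x + 1 / 2) * E := by gcongr
    nlinarith

theorem strip_step (n : ℕ) (h : Strip (1 / 2 - n) (3 / 2 + n)) :
    Strip (1 / 2 - (n + 1 : ℕ)) (3 / 2 + (n + 1 : ℕ)) := by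
  obtain ⟨c, C, hc, hC, h⟩ := h
  have hn : (0 : ℝ) ≤ n := n.cast_nonneg
  refine ⟨c / (n + 3), C * (n + 3), by positivity, by positivity, fun x y h1 h2 hy => ?_⟩
  push_cast at h1 h2
  set E := Real.exp (-(Real.pi * |y| / 2)) with hEdef
  have hE : 0 < E := Real.exp_pos _
  have hy0 : 0 < |y| := by linarith
  have hcc : c / (n + 3) ≤ c := div_le_self hc.le (by linarith)
  have hCC : C ≤ C * (n + 3) := le_mul_of_one_le_right hC.le (by linarith)
  rcases lt_or_ge x (1 / 2 - n) with hx | hx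
  · obtain ⟨a1, a2⟩ := h (x + 1) y (by linarith) (by linarith) hy
    obtain ⟨s1, s2, s3⟩ := Gamma_step x y hy
    have hxa : |x| + 1 ≤ n + 3 := by
      have : |x| ≤ n + 2 := abs_le.mpr ⟨by linarith, by linarith⟩
      linarith
    rw [s1, show x + 1 - 3 / 2 = x - 3 / 2 + 1 by ring, Real.rpow_add_one hy0.ne'] at a1
    rw [s1, show x + 1 + 1 / 2 = x + 1 / 2 + 1 by ring, Real.rpow_add_one hy0.ne'] at a2
    set g := ‖Complex.Gamma (x + y * I)‖
    have hg : 0 ≤ g := norm_nonneg _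
    constructor
    · have b1 : c * (|y| ^ (x - 3 / 2) * |y|) * E ≤ (n + 3) * |y| * g :=
        a1.trans (by gcongr; exact s3.trans (by gcongr))
      rw [div_mul_eq_mul_div, div_mul_eq_mul_div, div_le_iff₀ (by linarith)]
      apply le_of_mul_le_mul_right _ hy0
      linarith
    · have b1 : |y| * g ≤ C * (|y| ^ (x + 1 / 2) * |y|) * E := le_trans (by gcongr) a2
      have b2 : g ≤ C * |y| ^ (x + 1 / 2) * E := by
        apply le_of_mul_le_mul_right _ hy0
        linarith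
      exact b2.trans (by gcongr)
  rcases le_or_gt x (3 / 2 + n) with hx' | hx'
  · obtain ⟨a1, a2⟩ := h x y hx hx' hy
    exact ⟨le_trans (by gcongr) a1, a2.trans (by gcongr)⟩
  · obtain ⟨a1, a2⟩ := h (x - 1) y (by linarith) (by linarith) hy
    obtain ⟨s1, s2, s3⟩ := Gamma_step (x - 1) y hy
    rw [sub_add_cancel] at s1
    have hxa : |x - 1| + 1 ≤ n + 3 := by
      have : |x - 1| ≤ n + 2 := abs_le.mpr ⟨by linarith, by linarith⟩
      linarith
    rw [s1, show x - 3 / 2 = x - 1 - 3 / 2 + 1 by ring, show x + 1 / 2 = x - 1 + 1 / 2 + 1 by ring,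
      Real.rpow_add_one hy0.ne', Real.rpow_add_one hy0.ne']
    set g := ‖Complex.Gamma ((x - 1 : ℝ) + y * I)‖
    have hg : 0 ≤ g := norm_nonneg _
    constructor
    · calc _ ≤ c * (|y| ^ (x - 1 - 3 / 2) * |y|) * E := by gcongr
        _ = |y| * (c * |y| ^ (x - 1 - 3 / 2) * E) := by ring
        _ ≤ _ := by gcongr
    · calc _ ≤ ((n + 3) * |y|) * (C * |y| ^ (x - 1 + 1 / 2) * E) := by
            gcongr; exact s3.trans (by gcongr)
        _ = _ := by ring

theorem g3 : G3 := by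
  intro A B
  have h : ∀ n : ℕ, Strip (1 / 2 - n) (3 / 2 + n) := by
    intro n
    induction n with
    | zero => simpa using strip_base
    | succ n ih => exact strip_step n ih
  obtain ⟨n, hn⟩ := exists_nat_ge (|A| + |B| + 1)
  obtain ⟨c, C, hc, hC, h⟩ := h n
  refine ⟨c, C, hc, hC, fun x y h1 h2 hy => h x y ?_ ?_ hy⟩
  · linarith [neg_abs_le A, abs_nonneg B]
  · linarith [le_abs_self B, abs_nonneg A]

end Pool.Agent.H49.Sel
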