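import Pool.Agent.Lead.Sel.Spec

set_option autoImplicit false
open Complex MeasureTheory Set Filter Topology ArithmeticFunction

namespace Pool.Agent.H49.Sel
open Pool.Agent.Lead.Sel

theorem rough_eq (z n : ℕ) :
    (rough z n : ℂ) = (1 : DirichletCharacter ℂ (primorial z)) (n : ZMod (primorial z)) := by
  unfold rough
  split_ifs with h
  · rw [MulChar.one_apply ((ZMod.isUnit_iff_coprime n _).mpr h)]; simp
  · rw [MulChar.map_nonunit _ (mt (ZMod.isUnit_iff_coprime n _).mp h)]; simp

theorem rough_nonneg (z n : ℕ) : 0 ≤ rough z n := by unfold rough; split_ifs <;> norm_num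

theorem rough_le_one (z n : ℕ) : rough z n ≤ 1 := by unfold rough; split_ifs <;> norm_num

theorem lseries_real (z : ℕ) {σ : ℝ} (hσ : 1 < σ) :
    LSeries (fun n => (rough z n : ℂ)) σ = ((∑' n : ℕ, rough z n * (n : ℝ) ^ (-σ) : ℝ) : ℂ) := by
  rw [ofReal_tsum, LSeries]
  refine tsum_congr fun n => ?_
  rcases eq_or_ne n 0 with rfl | hn
  · simp [Real.zero_rpow (show -σ ≠ 0 by linarith)]
  · rw [LSeries.term_of_ne_zero hn, ofReal_mul, ofReal_cpow n.cast_nonneg, ofReal_neg, cpow_neg]
    simp [div_eq_mul_inv]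

theorem three_four_one (z : ℕ) {x : ℝ} (hx : 0 < x) (t : ℝ) :
    1 ≤ (∑' n : ℕ, rough z n * (n : ℝ) ^ (-(1 + x))) ^ 3 *
      ‖LSeries (fun n => (rough z n : ℂ)) (1 + x + I * t)‖ ^ 4 *
      ‖LSeries (fun n => (rough z n : ℂ)) (1 + x + 2 * I * t)‖ := by
  have h := DirichletCharacter.norm_LSeries_product_ge_one
    (1 : DirichletCharacter ℂ (primorial z)) hx t
  rw [one_pow] at h
  simp only [← rough_eq] at h
  rw [show (1 : ℂ) + x = ((1 + x : ℝ) : ℂ) by simp] at h ⊢
  rw [lseries_real z (by linarith), norm_mul, norm_mul, norm_pow, norm_pow, Complex.norm_real,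
    Real.norm_of_nonneg (tsum_nonneg fun n => mul_nonneg (rough_nonneg z n) (by positivity))] at h
  exact h

theorem ld (hzb : ZB) : LD := by
  obtain ⟨C0, hC0, z0, hzb⟩ := hzb
  set C := C0 + 1 with hCdef
  have hC : 1 ≤ C := by linarith
  set c := 1 / (8 ^ 5 * C ^ 5) with hcdef
  have hC5 : C ≤ C ^ 5 := le_self_pow₀ hC (by norm_num)
  have hc0 : 0 < c := by positivity
  have hcC : c * (8 ^ 5 * C ^ 5) = 1 := by rw [hcdef]; field_simp
  have hc1 : c * C ≤ 1 / 4 := by nlinarith
  have hc2 : c ≤ 1 / 4 := by nlinarith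
  refine ⟨c, hc0, by linarith, 1 / (2 * c), by positivity, max z0 8, fun z hz => ?_⟩
  obtain ⟨⟨G, g1, g2, g3⟩, g4⟩ := hzb z (le_of_max_le_left hz)
  have hz8 : (8 : ℝ) ≤ z := by exact_mod_cast le_of_max_le_right hz
  set l := Real.log z with hl
  have hl2 : 2 ≤ l := by
    rw [hl, Real.le_log_iff_exp_le (by linarith)]
    have h1 := Real.exp_one_lt_d9
    have h2 : Real.exp 2 = Real.exp 1 * Real.exp 1 := by rw [← Real.exp_add]; norm_num
    nlinarith [Real.exp_pos 1]
  set Z := (z : ℝ) ^ (1 / 10 : ℝ) with hZ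
  have hZ1 : 1 ≤ Z := Real.one_le_rpow (by linarith) (by norm_num)
  set i := 1 / l with hi
  have hi0 : 0 < i := by positivity
  have hi1 : i ≤ 1 / 2 := by rw [hi]; gcongr
  have hil : i * l = 1 := by rw [hi]; field_simp
  have hci : c / l = c * i := by rw [hi]; ring
  set U : Set ℂ := {s | 1 - i < s.re ∧ ‖s - 1‖ < Z ∧ s ≠ 1} with hU
  have hUo : IsOpen U := by
    refine (isOpen_lt continuous_const continuous_re).inter
      ((isOpen_lt (f := fun s : ℂ => ‖s - 1‖) (by fun_prop) continuous_const).inter isOpen_ne)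
  have hGU : DifferentiableOn ℂ G U := fun s hs => (g1 s hs.1 hs.2.1 hs.2.2).differentiableWithinAt
  refine ⟨fun s => -deriv G s / G s, fun s h1 h2 h3 => ?_⟩
  rw [hci] at h1
  rw [show 2 / l = 2 * i by rw [hi]; ring] at h2
  have hci0 : 0 < c * i := by positivity
  have hci1 : c * i ≤ i / 4 := by nlinarith
  -- points near the horizontal segment
  have near : ∀ u w : ℂ, |u.re - 1| ≤ c * i → u.im = s.im → ‖w - u‖ ≤ i / 2 →
      w ∈ U ∧ ‖G w‖ ≤ C := by
    intro u w a1 a2 a3
    have b1 := (Complex.abs_re_le_norm (w - u)).trans a3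
    have b2 := (Complex.abs_im_le_norm (w - u)).trans a3
    rw [sub_re, abs_le] at b1
    rw [sub_im, a2] at b2
    have b3 : i ≤ |w.im| := by
      have := abs_sub_abs_le_abs_sub s.im w.im
      rw [abs_sub_comm] at this
      linarith
    have b4 : ‖w - 1‖ < Z := by
      have c1 := norm_sub_le_norm_sub_add_norm_sub w u 1
      have c2 := Complex.norm_le_abs_re_add_abs_im (u - 1)
      simp only [sub_re, one_re, sub_im, one_im, sub_zero, a2] at c2
      linarith
    have b5 : 1 - i < w.re := by rw [abs_le] at a1; linarith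
    refine ⟨⟨b5, b4, ?_⟩, (g3 w b5 b4 b3).trans (by linarith)⟩
    rintro rfl
    simp at b3; linarith
  have cauchy : ∀ u : ℂ, |u.re - 1| ≤ c * i → u.im = s.im → ‖deriv G u‖ ≤ 2 * C * l := by
    intro u a1 a2
    have b1 : DiffContOnCl ℂ G (Metric.ball u (i / 2)) := by
      apply DifferentiableOn.diffContOnCl
      rw [closure_ball u (by positivity)]
      exact hGU.mono fun w hw => (near u w a1 a2 (by simpa [dist_eq_norm] using hw)).1
    have b2 := Complex.norm_deriv_le_of_forall_mem_sphere_norm_le (by positivity) b1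
      fun w hw => (near u w a1 a2 (by simpa [dist_eq_norm] using (Metric.mem_sphere.mp hw).le)).2
    refine b2.trans (le_of_eq ?_)
    rw [hi]; field_simp
  have hsU := (near s s h1 rfl (by simp only [sub_self, norm_zero]; positivity)).1
  set s1 : ℂ := 1 + (c * i : ℝ) + I * s.im with hs1
  have r1 : s1.re = 1 + c * i := by simp [hs1]
  have r2 : s1.im = s.im := by simp [hs1]
  have r3 : |s1.re - 1| ≤ c * i := by rw [r1, add_sub_cancel_left, abs_of_pos hci0]
  have hs1U := (near s1 s1 r3 r2 (by simp only [sub_self, norm_zero]; positivity)).1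
  have low1 : 8 * C * c ≤ ‖G s1‖ := by
    have a1 := three_four_one z hci0 s.im
    rw [← g2 _ (by rw [r1]; linarith) hs1U.2.1] at a1
    set s2 : ℂ := 1 + (c * i : ℝ) + 2 * I * s.im with hs2
    have q1 : s2.re = 1 + c * i := by simp [hs2]
    have q2 : s2.im = 2 * s.im := by simp [hs2]
    have q3 : ‖s2 - 1‖ < Z := by
      have c2 := Complex.norm_le_abs_re_add_abs_im (s2 - 1)
      simp only [sub_re, one_re, sub_im, one_im, sub_zero, q1, q2, add_sub_cancel_left,
        abs_of_pos hci0, abs_mul, abs_two] at c2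
      linarith
    rw [← g2 _ (by rw [q1]; linarith) q3] at a1
    have a2 : ‖G s2‖ ≤ C := (g3 s2 (by rw [q1]; linarith) q3
      (by rw [q2, abs_mul, abs_two]; linarith)).trans (by linarith)
    have a3 := g4 (1 + c * i) (by linarith) (by linarith)
    have a4 : l * (1 + c * i - 1) = c := by
      rw [add_sub_cancel_left]; linear_combination c * hil
    rw [a4] at a3
    have a5 : C0 + 1 / c ≤ 2 / c := by
      rw [← le_sub_iff_add_le, ← sub_div, le_div_iff₀ hc0]; nlinarith
    have a6 : 0 ≤ ∑' n : ℕ, rough z n * (n : ℝ) ^ (-(1 + c * i)) :=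
      tsum_nonneg fun n => mul_nonneg (rough_nonneg z n) (by positivity)
    have a7 : 1 ≤ (2 / c) ^ 3 * ‖G s1‖ ^ 4 * C := a1.trans (by gcongr; exact a3.trans a5)
    apply (pow_le_pow_iff_left₀ (by positivity) (norm_nonneg _) (n := 4) (by norm_num)).mp
    have a8 : (2 / c) ^ 3 * (8 * C * c) ^ 4 * C = 1 := by
      rw [← hcC]; field_simp; ring
    rw [← a8] at a7
    exact le_of_mul_le_mul_left (le_of_mul_le_mul_right a7 (by linarith)) (by positivity)
  have mvt : ‖G s - G s1‖ ≤ 4 * C * c := by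
    set S : Set ℂ := {u | |u.re - 1| ≤ c * i ∧ u.im = s.im} with hS
    have hconv : Convex ℝ S := by
      have e : S = {u : ℂ | 1 - c * i ≤ u.re} ∩ ({u : ℂ | u.re ≤ 1 + c * i} ∩
          ({u : ℂ | s.im ≤ u.im} ∩ {u : ℂ | u.im ≤ s.im})) := by
        ext u
        simp only [hS, mem_ofPred_eq, mem_inter_iff, abs_le]
        constructor
        · rintro ⟨⟨a, b⟩, d⟩; exact ⟨by linarith, by linarith, d.ge, d.le⟩
        · rintro ⟨a, b, d, e⟩; exact ⟨⟨by linarith, by linarith⟩, le_antisymm e d⟩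
      rw [e]
      exact (convex_halfSpace_re_ge _).inter ((convex_halfSpace_re_le _).inter
        ((convex_halfSpace_im_ge _).inter (convex_halfSpace_im_le _)))
    have a1 := hconv.norm_image_sub_le_of_norm_deriv_le (f := G) (C := 2 * C * l)
      (fun u hu => by
        have := (near u u hu.1 hu.2 (by simp only [sub_self, norm_zero]; positivity)).1
        exact g1 u this.1 this.2.1 this.2.2)
      (fun u hu => cauchy u hu.1 hu.2) (x := s1) (y := s) ⟨r3, r2⟩ ⟨h1, rfl⟩
    have a2 : ‖s - s1‖ ≤ 2 * (c * i) := by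
      have c2 := Complex.norm_le_abs_re_add_abs_im (s - s1)
      simp only [sub_re, sub_im, r1, r2, sub_self, abs_zero, add_zero] at c2
      refine c2.trans (abs_le.mpr ?_)
      rw [abs_le] at h1
      constructor <;> linarith
    calc _ ≤ 2 * C * l * (2 * (c * i)) := a1.trans (by gcongr)
      _ = 4 * C * c * (i * l) := by ring
      _ = _ := by rw [hil, mul_one]
  have low : 4 * C * c ≤ ‖G s‖ := by
    have := norm_sub_norm_le (G s1) (G s)
    rw [norm_sub_rev] at this
    linarith
  have hG0 : G s ≠ 0 := norm_pos_iff.mp (lt_of_lt_of_le (by positivity) low)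
  refine ⟨?_, ?_, fun hs => ?_⟩
  · exact ((hGU.deriv hUo).differentiableAt (hUo.mem_nhds hsU)).neg.div
      (hGU.differentiableAt (hUo.mem_nhds hsU)) hG0
  · rw [norm_div, norm_neg]
    calc _ ≤ 2 * C * l / (4 * C * c) := by gcongr; exact cauchy s h1 rfl
      _ = _ := by field_simp; ring
  · have e1 : G =ᶠ[𝓝 s] LSeries (fun n => (rough z n : ℂ)) := by
      have : IsOpen {w : ℂ | 1 < w.re ∧ ‖w - 1‖ < Z} :=
        (isOpen_lt continuous_const continuous_re).inter
          (isOpen_lt (f := fun s : ℂ => ‖s - 1‖) (by fun_prop) continuous_const)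
      filter_upwards [this.mem_nhds ⟨hs, hsU.2.1⟩] with w hw using g2 w hw.1 hw.2
    have e2 := DirichletCharacter.LSeries_twist_vonMangoldt_eq
      (1 : DirichletCharacter ℂ (primorial z)) hs
    simp only [← rough_eq] at e2
    beta_reduce
    rw [e1.deriv_eq, e1.eq_of_nhds, ← e2]
    congr 1
    ext n
    simp

end Pool.Agent.H49.Sel
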