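import Pool.Agent.H49.SelG45

set_option autoImplicit false
open Complex MeasureTheory Set Filter

namespace Pool.Agent.H49.Sel
open Pool.Agent.Lead.Sel

/-- growth of order at most two on a set -/
def Ord2 (U : Set ℂ) (f : ℂ → ℂ) : Prop :=
  ∃ C : ℝ, 0 ≤ C ∧ ∀ s ∈ U, ‖f s‖ ≤ Real.exp (C * (1 + ‖s‖) ^ 2)

theorem one_le_sq (s : ℂ) : 1 ≤ (1 + ‖s‖) ^ 2 := one_le_pow₀ (by linarith [norm_nonneg s])

theorem Ord2.mul {U : Set ℂ} {f g : ℂ → ℂ} (hf : Ord2 U f) (hg : Ord2 U g) :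
    Ord2 U (fun s => f s * g s) := by
  obtain ⟨C, hC, h⟩ := hf
  obtain ⟨D, hD, k⟩ := hg
  refine ⟨C + D, by positivity, fun s hs => ?_⟩
  rw [norm_mul, add_mul, Real.exp_add]
  exact mul_le_mul (h s hs) (k s hs) (norm_nonneg _) (Real.exp_pos _).le

theorem Ord2.of_le {U : Set ℂ} {f g : ℂ → ℂ} (hf : Ord2 U f) (h : ∀ s ∈ U, ‖g s‖ ≤ ‖f s‖) :
    Ord2 U g := by
  obtain ⟨C, hC, k⟩ := hf
  exact ⟨C, hC, fun s hs => (h s hs).trans (k s hs)⟩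

theorem Ord2.mono {U V : Set ℂ} {f : ℂ → ℂ} (hf : Ord2 U f) (h : V ⊆ U) : Ord2 V f := by
  obtain ⟨C, hC, k⟩ := hf
  exact ⟨C, hC, fun s hs => k s (h hs)⟩

theorem Ord2.union {U V : Set ℂ} {f : ℂ → ℂ} (hf : Ord2 U f) (hg : Ord2 V f) : Ord2 (U ∪ V) f := by
  obtain ⟨C, hC, h⟩ := hf
  obtain ⟨D, hD, k⟩ := hg
  refine ⟨C + D, by positivity, fun s hs => ?_⟩
  have := one_le_sq s
  rcases hs with hs | hs
  · exact (h s hs).trans (Real.exp_le_exp.mpr (by nlinarith))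
  · exact (k s hs).trans (Real.exp_le_exp.mpr (by nlinarith))

theorem ord2_of_linear {U : Set ℂ} {f : ℂ → ℂ} (C : ℝ)
    (h : ∀ s ∈ U, ‖f s‖ ≤ Real.exp (C * (1 + ‖s‖))) : Ord2 U f := by
  refine ⟨|C|, abs_nonneg C, fun s hs => (h s hs).trans (Real.exp_le_exp.mpr ?_)⟩
  have h0 := norm_nonneg s
  calc _ ≤ |C| * (1 + ‖s‖) := by gcongr; exact le_abs_self C
    _ ≤ _ := by gcongr; nlinarith

theorem ord2_of_bdd {U : Set ℂ} {f : ℂ → ℂ} (C : ℝ) (h : ∀ s ∈ U, ‖f s‖ ≤ C) : Ord2 U f := by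
  refine ord2_of_linear |C| fun s hs => (h s hs).trans ?_
  have := Real.add_one_le_exp (|C| * (1 + ‖s‖))
  nlinarith [le_abs_self C, abs_nonneg C, norm_nonneg s]

theorem ord2_const (U : Set ℂ) (c : ℂ) : Ord2 U (fun _ => c) := ord2_of_bdd ‖c‖ fun _ _ => le_rfl

theorem norm_affine_le (α β s : ℂ) : 1 + ‖α * s + β‖ ≤ (1 + ‖α‖ + ‖β‖) * (1 + ‖s‖) := by
  have := norm_add_le (α * s) β
  rw [norm_mul] at this
  nlinarith [norm_nonneg α, norm_nonneg β, norm_nonneg s, mul_nonneg (norm_nonneg β) (norm_nonneg s)]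

theorem ord2_affine (U : Set ℂ) (α β : ℂ) : Ord2 U (fun s => α * s + β) := by
  refine ord2_of_linear (1 + ‖α‖ + ‖β‖) fun s _ => ?_
  have := Real.add_one_le_exp ((1 + ‖α‖ + ‖β‖) * (1 + ‖s‖))
  linarith [norm_affine_le α β s]

theorem Ord2.comp {U V : Set ℂ} {f : ℂ → ℂ} (hf : Ord2 V f) (α β : ℂ)
    (h : ∀ s ∈ U, α * s + β ∈ V) : Ord2 U (fun s => f (α * s + β)) := by
  obtain ⟨C, hC, k⟩ := hf
  refine ⟨C * (1 + ‖α‖ + ‖β‖) ^ 2, by positivity, fun s hs => (k _ (h s hs)).trans ?_⟩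
  rw [mul_assoc, ← mul_pow]
  gcongr
  exact norm_affine_le α β s

theorem ord2_cpow (U : Set ℂ) {Q : ℝ} (hQ : 0 < Q) : Ord2 U (fun s => (Q : ℂ) ^ s) := by
  refine ord2_of_linear |Real.log Q| fun s _ => ?_
  rw [norm_cpow_eq_rpow_re_of_pos hQ, Real.rpow_def_of_pos hQ]
  apply Real.exp_le_exp.mpr
  calc _ ≤ |Real.log Q * s.re| := le_abs_self _
    _ = |Real.log Q| * |s.re| := abs_mul _ _
    _ ≤ _ := by gcongr; linarith [Complex.abs_re_le_norm s]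

theorem ord2_cpow_affine (U : Set ℂ) {Q : ℝ} (hQ : 0 < Q) (α β : ℂ) :
    Ord2 U (fun s => (Q : ℂ) ^ (α * s + β)) :=
  (ord2_cpow univ hQ).comp α β fun _ _ => mem_univ _

theorem ord2_invGamma (U : Set ℂ) (α β : ℂ) : Ord2 U (fun s => (Complex.Gamma (α * s + β))⁻¹) := by
  obtain ⟨C, hC, h, -⟩ := g4
  exact Ord2.comp (V := univ) (f := fun s => (Complex.Gamma s)⁻¹) ⟨C, hC.le, fun s _ => h s⟩ α β
    fun _ _ => mem_univ _

theorem ord2_Gamma (U : Set ℂ) (α β : ℂ) (hU : ∀ s ∈ U, 1 / 2 ≤ (α * s + β).re) :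
    Ord2 U (fun s => Complex.Gamma (α * s + β)) := by
  obtain ⟨C, hC, -, h⟩ := g4
  exact Ord2.comp (V := {s | 1 / 2 ≤ s.re}) ⟨C, hC.le, fun s hs => h s hs⟩ α β hU

theorem ord2_of_symm {f : ℂ → ℂ} (h1 : ∀ s, ‖f (1 - s)‖ = ‖f s‖)
    (h2 : Ord2 {s | -1 ≤ s.re ∧ s.re ≤ 2} f) (h3 : Ord2 {s | 2 ≤ s.re} f) : Ord2 univ f := by
  have h4 : Ord2 {s | s.re ≤ -1} f := by
    refine (h3.comp (-1) 1 fun s hs => ?_).of_le fun s _ => ?_
    · simp only [mem_ofPred_eq, add_re, mul_re, neg_re, one_re, neg_im, one_im] at hs ⊢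
      linarith
    · rw [← h1 s]; apply le_of_eq; congr 2; ring
  refine ((h2.union h3).union h4).mono fun s _ => ?_
  simp only [mem_union, mem_ofPred_eq]
  rcases le_total s.re (-1) with h | h
  · exact Or.inr h
  rcases le_total s.re 2 with h' | h'
  · exact Or.inl (Or.inl ⟨h, h'⟩)
  · exact Or.inl (Or.inr h')

theorem Ord2.finite_order {f : ℂ → ℂ} (hf : Ord2 univ f) :
    ∃ ρ C : ℝ, ∀ s : ℂ, ‖f s‖ ≤ C * Real.exp (‖s‖ ^ ρ) := by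
  obtain ⟨C, hC, h⟩ := hf
  refine ⟨(3 : ℕ), Real.exp (C * (2 + 4 * C) ^ 2), fun s => (h s (mem_univ _)).trans ?_⟩
  rw [← Real.exp_add, Real.rpow_natCast]
  apply Real.exp_le_exp.mpr
  have h0 := norm_nonneg s
  set r := ‖s‖
  rcases le_total r (1 + 4 * C) with hr | hr
  · have : C * (1 + r) ^ 2 ≤ C * (2 + 4 * C) ^ 2 :=
      mul_le_mul_of_nonneg_left (pow_le_pow_left₀ (by linarith) (by linarith) 2) hC
    have : 0 ≤ r ^ 3 := by positivity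
    linarith
  · have h1 : (1 + r) ^ 2 ≤ (2 * r) ^ 2 := by gcongr; linarith
    have h2 : C * (1 + r) ^ 2 ≤ C * (2 * r) ^ 2 := by gcongr
    have h3 : 4 * C * r ^ 2 ≤ r * r ^ 2 := by gcongr; linarith
    have : 0 ≤ C * (2 + 4 * C) ^ 2 := by positivity
    nlinarith

theorem lseries_bdd {a : ℕ → ℝ} {σ0 : ℝ} (h : Summable fun n : ℕ => |a n| * (n : ℝ) ^ (-σ0))
    {s : ℂ} (hs : σ0 ≤ s.re) : LSeriesSummable (fun n => (a n : ℂ)) s ∧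
      ‖LSeries (fun n => (a n : ℂ)) s‖ ≤ ∑' n : ℕ, |a n| * (n : ℝ) ^ (-σ0) := by
  have key : ∀ n, ‖LSeries.term (fun n => (a n : ℂ)) s n‖ ≤ |a n| * (n : ℝ) ^ (-σ0) := by
    intro n
    rw [LSeries.norm_term_eq]
    split_ifs with hn
    · positivity
    · have h1 : (1 : ℝ) ≤ n := by exact_mod_cast Nat.one_le_iff_ne_zero.mpr hn
      rw [Complex.norm_real, Real.norm_eq_abs, div_eq_mul_inv, ← Real.rpow_neg (by linarith)]
      gcongr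
  exact ⟨Summable.of_norm_bounded h key, tsum_of_norm_bounded h.hasSum key⟩

theorem phi_ord2 {Φ : ℂ → ℂ} {e ν : ℂ} {Q lam mu σ0 : ℝ} {a : ℕ → ℝ} (hQ : 0 < Q) (hlam : 1 ≤ lam)
    (hmu : 0 ≤ mu) (hσ : σ0 ≤ 2) (h : Summable fun n : ℕ => |a n| * (n : ℝ) ^ (-σ0))
    (h1 : ∀ s, Φ (1 - s) = -Φ s)
    (h2 : ∀ A B : ℝ, ∃ C : ℝ, ∀ s : ℂ, A ≤ s.re → s.re ≤ B → ‖Φ s‖ ≤ C)
    (h3 : ∀ s : ℂ, 2 ≤ s.re → Φ s = (e * (lam * s + mu) - ν) * (Q : ℂ) ^ s *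
      Complex.Gamma (lam * s + mu) * LSeries (fun n => (a n : ℂ)) s) : Ord2 univ Φ := by
  refine ord2_of_symm (fun s => by rw [h1, norm_neg]) ?_ ?_
  · obtain ⟨C, hC⟩ := h2 (-1) 2
    exact ord2_of_bdd C fun s hs => hC s hs.1 hs.2
  · refine ((((ord2_affine _ (e * lam) (e * mu - ν)).mul (ord2_cpow _ hQ)).mul
      (ord2_Gamma _ lam mu fun s hs => ?_)).mul
      (ord2_of_bdd _ fun s hs => (lseries_bdd h (hσ.trans hs)).2)).of_le fun s hs => ?_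
    · have : 2 ≤ s.re := hs
      simp only [add_re, mul_re, ofReal_re, ofReal_im, zero_mul, sub_zero]
      nlinarith
    · rw [h3 s hs]; apply le_of_eq; congr 4; ring

end Pool.Agent.H49.Sel
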