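import Mathlib

set_option autoImplicit false

namespace Pool.Agent.H49.SelS

/-- `F` (holomorphic away from `1`) with Dirichlet coefficients `a` is a member of the Selberg
class. The functional equation is an identity of meromorphic functions, so it is required outside
a closed discrete set. -/
def InSelberg (a : ℕ → ℂ) (F : ℂ → ℂ) : Prop :=
  (∀ s : ℂ, 1 < s.re → LSeriesSummable a s ∧ F s = LSeries a s) ∧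
  (∃ (m : ℕ) (E : ℂ → ℂ), Differentiable ℂ E ∧
    (∃ ρ C : ℝ, ∀ s : ℂ, ‖E s‖ ≤ C * Real.exp (‖s‖ ^ ρ)) ∧
    ∀ s : ℂ, s ≠ 1 → E s = (s - 1) ^ m * F s) ∧
  (∃ (Q : ℝ) (k : ℕ) (lam : Fin k → ℝ) (mu : Fin k → ℂ) (ω : ℂ) (Φ : ℂ → ℂ),
    0 < Q ∧ (∀ j, 0 < lam j) ∧ (∀ j, 0 ≤ (mu j).re) ∧ ‖ω‖ = 1 ∧
    (∀ s : ℂ, Φ s = (Q : ℂ) ^ s * (∏ j, Complex.Gamma ((lam j : ℂ) * s + mu j)) * F s) ∧
    ∀ᶠ s in Filter.codiscrete ℂ, Φ s = ω * starRingEnd ℂ (Φ (1 - starRingEnd ℂ s))) ∧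
  (∀ ε : ℝ, 0 < ε → ∃ C : ℝ, ∀ n : ℕ, 1 ≤ n → ‖a n‖ ≤ C * (n : ℝ) ^ ε) ∧
  a 1 = 1 ∧
  ∃ (b : ℕ → ℂ) (θ C : ℝ), θ < 1 / 2 ∧ (∀ n : ℕ, ¬ IsPrimePow n → b n = 0) ∧
    (∀ n : ℕ, 1 ≤ n → ‖b n‖ ≤ C * (n : ℝ) ^ θ) ∧
    ∀ s : ℂ, 1 < s.re → LSeriesSummable b s ∧ F s = Complex.exp (LSeries b s)

end Pool.Agent.H49.SelS
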