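import Pool.Agent.H49.SelZeta
import Pool.Agent.H49.SelSDefs
import Pool.Agent.H53.DivBound

set_option autoImplicit false
open Complex MeasureTheory Set Filter Topology ArithmeticFunction

namespace Pool.Agent.H49.Sel
open Pool.Agent.Lead.Sel

/-- the entire function equal to `(s-1) ζ(s) / (s+2)` -/
noncomputable def Z (s : ℂ) : ℂ :=
  X s * (Real.pi : ℂ) ^ ((1 / 2 : ℂ) * s + 0) * (Complex.Gamma ((1 / 2 : ℂ) * s + 2))⁻¹ * (1 / 4)

theorem pi_ne : (Real.pi : ℂ) ≠ 0 := ofReal_ne_zero.mpr Real.pi_ne_zero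

theorem Z_diff : Differentiable ℂ Z := by
  refine ((X_diff.mul fun s => DifferentiableAt.const_cpow (by fun_prop) (Or.inl pi_ne)).mul
    ?_).mul_const _
  exact differentiable_one_div_Gamma.comp (by fun_prop)

theorem Z_ord2 : Ord2 univ Z :=
  ((X_ord2.mul (ord2_cpow_affine _ Real.pi_pos _ _)).mul (ord2_invGamma _ _ _)).mul (ord2_const _ _)

theorem Z_eq {s : ℂ} (hs : 1 < s.re) : (s + 2) * Z s = (s - 1) * riemannZeta s := by
  have h1 : s + 2 ≠ 0 := by
    intro h; have := congrArg re h; simp at this; linarith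
  have h2 : Complex.Gamma (s / 2 + 1) ≠ 0 := by
    apply Complex.Gamma_ne_zero_of_re_pos; simp only [add_re, div_ofNat_re, one_re]; linarith
  have h3 : (Real.pi : ℂ) ^ (-s / 2) * (Real.pi : ℂ) ^ ((1 / 2 : ℂ) * s + 0) = 1 := by
    rw [← cpow_add _ _ pi_ne, show -s / 2 + (1 / 2 * s + 0) = 0 by ring, cpow_zero]
  have h4 : Complex.Gamma ((1 / 2 : ℂ) * s + 2) = (s / 2 + 1) * Complex.Gamma (s / 2 + 1) := by
    rw [← Complex.Gamma_add_one _ (fun h => h1 (by linear_combination 2 * h))]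
    congr 1; ring
  have h5 : s / 2 + 1 = (s + 2) / 2 := by ring
  rw [Z, X_eq hs, h4]
  generalize Complex.Gamma (s / 2 + 1) = g at h2 ⊢
  generalize (Real.pi : ℂ) ^ (-s / 2) = u at h3 ⊢
  generalize (Real.pi : ℂ) ^ ((1 / 2 : ℂ) * s + 0) = v at h3 ⊢
  rw [h5]
  field_simp
  linear_combination 4 * (s - 1) * riemannZeta s * h3

theorem Z_ne {s : ℂ} (h : X s ≠ 0) (hs : -4 < s.re) : Z s ≠ 0 := by
  refine mul_ne_zero (mul_ne_zero (mul_ne_zero h ?_) (inv_ne_zero ?_)) (by norm_num)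
  · rw [Ne, cpow_eq_zero_iff]; simp [Real.pi_ne_zero]
  · apply Complex.Gamma_ne_zero_of_re_pos
    rw [show (1 / 2 : ℂ) * s + 2 = s / 2 + 2 by ring]
    simp only [add_re, div_ofNat_re, re_ofNat]; linarith

theorem Z_one : Z 1 ≠ 0 := Z_ne (by simp [X]) (by simp only [one_re]; norm_num)

theorem Z_neg_two : Z (-2) ≠ 0 := by
  refine Z_ne ?_ (by simp only [neg_re, re_ofNat]; norm_num)
  rw [show (-2 : ℂ) = 1 - 3 by norm_num, X_one_sub, X_eq (by norm_num)]
  refine mul_ne_zero (mul_ne_zero (by norm_num) (riemannZeta_ne_zero_of_one_lt_re (by norm_num)))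
    (mul_ne_zero (mul_ne_zero two_ne_zero ?_) (Complex.Gamma_ne_zero_of_re_pos (by norm_num)))
  rw [Ne, cpow_eq_zero_iff]; simp [Real.pi_ne_zero]

theorem cpow_exp {x : ℝ} (hx : 0 < x) (s : ℂ) : (x : ℂ) ^ s = Complex.exp (Real.log x * s) := by
  rw [cpow_def_of_ne_zero (ofReal_ne_zero.mpr hx.ne'), ofReal_log hx.le]

/-- the gamma factor that belongs to `Z` -/
theorem Z_gamma {Q : ℝ} (hQ : 0 < Q) {s : ℂ} (hs : Complex.Gamma ((1 / 2 : ℂ) * s + 0) ≠ 0) :
    ((Real.exp (Real.log Q + (Real.log 2 - Real.log Real.pi) / 2) : ℝ) : ℂ) ^ s *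
      Complex.Gamma (((1 / 4 : ℝ) : ℂ) * s + 0) * Complex.Gamma (((1 / 4 : ℝ) : ℂ) * s + 3 / 2) * Z s =
      (√Real.pi : ℝ) / 2 * (X s / s) * (Q : ℂ) ^ s := by
  have h0 : s ≠ 0 := by rintro rfl; simp at hs
  have h2 : s + 2 ≠ 0 := by
    intro h
    apply hs
    rw [show (1 / 2 : ℂ) * s + 0 = -(1 : ℕ) by push_cast; linear_combination (1 / 2) * h]
    exact Complex.Gamma_neg_nat_eq_zero 1
  have e1 := Complex.Gamma_mul_Gamma_add_half (s / 4)
  have e2 : Complex.Gamma (((1 / 4 : ℝ) : ℂ) * s + 3 / 2) =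
      (s + 2) / 4 * Complex.Gamma (s / 4 + 1 / 2) := by
    rw [show (s + 2) / 4 = s / 4 + 1 / 2 by ring,
      ← Complex.Gamma_add_one _ (fun h => h2 (by linear_combination 4 * h))]
    congr 1; push_cast; ring
  have e3 : Complex.Gamma ((1 / 2 : ℂ) * s + 2) =
      (s + 2) / 2 * (s / 2 * Complex.Gamma (2 * (s / 4))) := by
    rw [show 2 * (s / 4) = s / 2 by ring,
      ← Complex.Gamma_add_one _ (fun h => h0 (by linear_combination 2 * h)),
      show (s + 2) / 2 = s / 2 + 1 by ring,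
      ← Complex.Gamma_add_one _ (fun h => h2 (by linear_combination 2 * h))]
    congr 1; ring
  rw [show (1 / 2 : ℂ) * s + 0 = 2 * (s / 4) by ring] at hs
  have e4 : ((Real.exp (Real.log Q + (Real.log 2 - Real.log Real.pi) / 2) : ℝ) : ℂ) ^ s *
      (2 : ℂ) ^ (1 - 2 * (s / 4)) * (Real.pi : ℂ) ^ ((1 / 2 : ℂ) * s + 0) = 2 * (Q : ℂ) ^ s := by
    have h22 : (2 : ℂ) = Complex.exp (Real.log 2 * 1) := by
      rw [← cpow_exp two_pos]; simp
    rw [cpow_exp (Real.exp_pos _), show (2 : ℂ) ^ (1 - 2 * (s / 4)) =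
      ((2 : ℝ) : ℂ) ^ (1 - 2 * (s / 4)) by simp, cpow_exp two_pos, cpow_exp Real.pi_pos,
      cpow_exp hQ, Real.log_exp]
    conv_rhs => rw [h22]
    rw [← Complex.exp_add, ← Complex.exp_add, ← Complex.exp_add]
    congr 1
    simp only [ofReal_add, ofReal_div, ofReal_sub, ofReal_ofNat]
    ring
  rw [Z, e2, e3, show ((1 / 4 : ℝ) : ℂ) * s + 0 = s / 4 by push_cast; ring]
  generalize Complex.Gamma (2 * (s / 4)) = g at *
  generalize Complex.Gamma (s / 4) = g1 at *
  generalize Complex.Gamma (s / 4 + 1 / 2) = g2 at *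
  generalize ((Real.exp (Real.log Q + (Real.log 2 - Real.log Real.pi) / 2) : ℝ) : ℂ) ^ s = q at *
  generalize (2 : ℂ) ^ (1 - 2 * (s / 4)) = w at *
  generalize (Real.pi : ℂ) ^ ((1 / 2 : ℂ) * s + 0) = v at *
  generalize ((√Real.pi : ℝ) : ℂ) = r at *
  field_simp
  linear_combination (8 * q * v * X s) * e1 + (8 * g * r * X s) * e4

theorem Gamma_ne_codiscrete' (α β x : ℂ) (h : Complex.Gamma (α * x + β) ≠ 0) :
    ∀ᶠ s in codiscrete ℂ, Complex.Gamma (α * s + β) ≠ 0 := by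
  have h1 : Differentiable ℂ fun s : ℂ => (Complex.Gamma (α * s + β))⁻¹ :=
    differentiable_one_div_Gamma.comp (by fun_prop)
  have h2 := (h1.differentiableOn.analyticOnNhd isOpen_univ).preimage_zero_mem_codiscrete (x := x)
    (by simpa using h)
  filter_upwards [h2] with s hs
  simpa using hs

theorem ram_conv {a : ℕ → ℝ} (h : ∀ n, |a n| ≤ 1) (ε : ℝ) (hε : 0 < ε) : ∃ C : ℝ, ∀ n : ℕ, 1 ≤ n →
    ‖LSeries.convolution (1 : ℕ → ℂ) (fun n => (a n : ℂ)) n‖ ≤ C * (n : ℝ) ^ ε := by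
  obtain ⟨C, -, hC⟩ := H53.DivBound.card_divisors_le ε hε
  refine ⟨C, fun n hn => le_trans ?_ (hC n (by omega))⟩
  rw [LSeries.convolution_def]
  beta_reduce
  rw [Nat.sum_divisorsAntidiagonal (fun x y => (1 : ℕ → ℂ) x * (a y : ℂ))]
  refine (norm_sum_le _ _).trans ?_
  calc _ ≤ ∑ _x ∈ n.divisors, (1 : ℝ) := Finset.sum_le_sum fun x _ => by simpa using h _
    _ = _ := by simp

theorem norm_Lam_log (n : ℕ) : ‖(Λ n : ℂ) / (Real.log n : ℂ)‖ ≤ 1 := by
  rw [norm_div, Complex.norm_real, Complex.norm_real, Real.norm_eq_abs, Real.norm_eq_abs,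
    abs_of_nonneg vonMangoldt_nonneg, abs_of_nonneg (Real.log_natCast_nonneg n)]
  exact div_le_one_of_le₀ vonMangoldt_le_log (Real.log_natCast_nonneg n)

/-- a member of the Selberg class with a simple pole that is not divisible by zeta -/
theorem finPole (hsel : SEL) (hker : KER1) (hmel : MEL) :
    ∃ (a : ℕ → ℂ) (F : ℂ → ℂ), SelS.InSelberg a F ∧ meromorphicOrderAt F 1 = (-1 : ℤ) ∧
      ¬ ∃ L : ℂ → ℂ, Differentiable ℂ L ∧ ∀ s : ℂ, s ≠ 1 → F s = riemannZeta s * L s := by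
  obtain ⟨d0, hsel⟩ := hsel
  obtain ⟨N, hN⟩ := exists_nat_ge (|d0| + 3)
  have hd0 := le_abs_self d0
  have hd1 := abs_nonneg d0
  set lam : ℝ := (N : ℝ) / 2 with hlam
  set mu : ℝ := ((3 * N : ℕ) : ℝ) / 2 + 1 / 4 - (N : ℝ) / 4 with hmu
  have hmu' : mu = 5 * N / 4 + 1 / 4 := by rw [hmu]; push_cast; ring
  have hl0 : 0 < lam := by linarith
  obtain ⟨κ, hκ, a, b, a0, a1, a2, b1, b2, -, sa, sb, hexp, hθ⟩ :=
    hsel 1 (mu - N) (3 * N) N (by linarith) (hker (3 * N) (mu - N) (by push_cast; linarith))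
  obtain ⟨Φ, G, Q, hQ, g1, g2, g3', f1, f2, f3⟩ := pack hmel 1 (mu - N) (3 * N) N κ a (5 / 8)
    lam mu rfl rfl (by linarith) (by linarith) hκ a0 (by norm_num) (by norm_num) sa hθ
  have hlc : (lam : ℂ) ≠ 0 := ofReal_ne_zero.mpr hl0.ne'
  have g3 : ∀ s : ℂ, 5 / 8 ≤ s.re → G s = lam * (s + 2) * LSeries (fun n => (a n : ℂ)) s := by
    intro s hs
    rw [g3' s hs, hlam]; push_cast; ring
  have g4 : ∀ s : ℂ, 5 / 8 ≤ s.re → G s ≠ 0 := by
    intro s hs
    rw [g3 s hs, hexp s hs]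
    refine mul_ne_zero (mul_ne_zero hlc fun h => ?_) (Complex.exp_ne_zero _)
    have := congrArg re h; simp at this; linarith
  have hQs : ∀ s : ℂ, (Q : ℂ) ^ s ≠ 0 := fun s => by
    rw [cpow_exp hQ]; exact Complex.exp_ne_zero _
  have g5 : G (-2) ≠ 0 := by
    have n1 : Complex.Gamma (lam * (-2) + mu) ≠ 0 := by
      apply Complex.Gamma_ne_zero_of_re_pos; simp; linarith
    have n2 : Complex.Gamma (lam * 3 + mu) ≠ 0 := by
      apply Complex.Gamma_ne_zero_of_re_pos; simp; linarith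
    have e1 := f3 _ n1
    have e2 := f3 _ n2
    have e3 := f1 3
    rw [show (1 : ℂ) - 3 = -2 by norm_num, ← e1, ← e2] at e3
    intro h
    rw [h, mul_zero, zero_eq_neg] at e3
    exact mul_ne_zero (mul_ne_zero (hQs 3) n2) (g4 3 (by norm_num)) e3
  set E : ℂ → ℂ := fun s => Z s * G s * (lam : ℂ)⁻¹ with hE
  have E1 : Differentiable ℂ E := (Z_diff.mul g1).mul_const _
  have hF : ∀ s : ℂ, 1 < s.re →
      E s / (s - 1) = riemannZeta s * LSeries (fun n => (a n : ℂ)) s := by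
    intro s hs
    have h1 : s - 1 ≠ 0 := by
      intro h; have := congrArg re h; simp at this; linarith
    have h2 := Z_eq hs
    simp only [hE]
    rw [g3 s (by linarith)]
    field_simp
    linear_combination LSeries (fun n => (a n : ℂ)) s * h2
  refine ⟨LSeries.convolution 1 (fun n => (a n : ℂ)), fun s => E s / (s - 1),
    ⟨fun s hs => ?_, ⟨1, E, E1, ((Z_ord2.mul g2).mul (ord2_const _ _)).finite_order, fun s hs => ?_⟩,
      ⟨Real.exp (Real.log Q + (Real.log 2 - Real.log Real.pi) / 2), 3, ![1 / 4, 1 / 4, lam],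
        ![0, 3 / 2, mu], -1, _, Real.exp_pos _, fun j => ?_, fun j => ?_, by simp, fun s => rfl, ?_⟩,
      ram_conv a2, by simp [LSeries.convolution_def, a1],
      ⟨fun n => (Λ n : ℂ) / (Real.log n : ℂ) + b n, 0, 2, by norm_num, fun n hn => ?_,
        fun n hn => ?_, fun s hs => ?_⟩⟩, ?_, ?_⟩
  · have h1 := LSeriesSummable_one_iff.mpr hs
    have h2 := (lseries_bdd (s := s) sa (by linarith)).1
    exact ⟨h1.convolution h2, by
      beta_reduce
      rw [hF s hs, LSeries_convolution' h1 h2, LSeries_one_eq_riemannZeta hs]⟩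
  · have := sub_ne_zero.mpr hs
    field_simp
  · fin_cases j <;> simp [hl0]
  · fin_cases j <;> simp
    · norm_num
    · linarith
  · have key : ∀ᶠ s in codiscrete ℂ,
        ((Real.exp (Real.log Q + (Real.log 2 - Real.log Real.pi) / 2) : ℝ) : ℂ) ^ s *
          (∏ j : Fin 3, Complex.Gamma (((![1 / 4, 1 / 4, lam] : Fin 3 → ℝ) j : ℂ) * s +
            (![0, 3 / 2, mu] : Fin 3 → ℂ) j)) * (E s / (s - 1)) =
        (√Real.pi : ℝ) / 2 * (lam : ℂ)⁻¹ * (X s / (s * (s - 1))) * Φ s := by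
      filter_upwards [Gamma_ne_codiscrete lam mu (by simp; linarith),
        Gamma_ne_codiscrete' (1 / 2) 0 2 (by simp)] with s h1 h2
      have h3 := Z_gamma hQ h2
      rw [← f3 s h1, Fin.prod_univ_three]
      simp only [Matrix.cons_val_zero, Matrix.cons_val_one, Matrix.cons_val, hE]
      rw [← div_div]
      linear_combination (Complex.Gamma (lam * s + mu) * G s * (lam : ℂ)⁻¹ / (s - 1)) * h3
    filter_upwards [key, refl_codiscrete key] with s h1 h2
    rw [h1, h2, f1, f2, X_one_sub, X_conj]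
    simp only [map_mul, map_div₀, map_inv₀, map_neg, map_sub, map_one, conj_ofReal, conj_conj,
      map_ofNat]
    rw [show (1 - s) * (1 - s - 1) = s * (s - 1) by ring]
    ring
  · simp [vonMangoldt_apply, hn, b1 n fun h => hn h.isPrimePow]
  · have h1 := norm_Lam_log n
    have h2 : ‖(b n : ℂ)‖ ≤ 1 := by
      rw [Complex.norm_real, Real.norm_eq_abs]
      exact (b2 n).trans (Real.rpow_le_one_of_one_le_of_nonpos (by exact_mod_cast hn) (by norm_num))
    rw [Real.rpow_zero, mul_one]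
    linarith [norm_add_le ((Λ n : ℂ) / (Real.log n : ℂ)) (b n)]
  · have h1 : LSeriesSummable (fun n => (Λ n : ℂ) / (Real.log n : ℂ)) s :=
      LSeriesSummable_of_bounded_of_one_lt_re (m := 1) (fun n _ => norm_Lam_log n) hs
    have h2 := (lseries_bdd (s := s) sb (by linarith)).1
    refine ⟨h1.add h2, ?_⟩
    beta_reduce
    rw [hF s hs, hexp s (by linarith), ← riemannZeta_eq_exp_LSeries hs, ← Complex.exp_add,
      ← LSeries_add h1 h2]
    rfl
  · have h1 : MeromorphicAt (fun s => E s / (s - 1)) 1 :=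
      (E1.analyticAt 1).meromorphicAt.div (by fun_prop)
    refine (meromorphicOrderAt_eq_int_iff h1).mpr ⟨E, E1.analyticAt 1,
      mul_ne_zero (mul_ne_zero Z_one (g4 1 (by norm_num))) (inv_ne_zero hlc),
      Eventually.of_forall fun s => ?_⟩
    simp [div_eq_inv_mul]
  · rintro ⟨L, -, hL⟩
    have h1 := hL (-2) (by norm_num)
    have h2 := riemannZeta_neg_two_mul_nat_add_one 0
    simp only [Nat.cast_zero, zero_add, mul_one] at h2
    rw [h2, zero_mul, div_eq_zero_iff] at h1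
    rcases h1 with h1 | h1
    · exact mul_ne_zero (mul_ne_zero Z_neg_two g5) (inv_ne_zero hlc) h1
    · norm_num at h1

end Pool.Agent.H49.Sel
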