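import Pool.Agent.H49.SelLD
import Pool.Agent.H61.SelA

set_option autoImplicit false
open Complex MeasureTheory Set Filter Topology

namespace Pool.Agent.H49.Sel
open Pool.Agent.Lead.Sel Pool.Agent.H61.SelA

theorem tri_nonneg (u : ℝ) : 0 ≤ tri u := le_max_right _ _

theorem tri_le_one (u : ℝ) : tri u ≤ 1 := max_le (by linarith [abs_nonneg u]) zero_le_one

theorem tri_eq_zero {u : ℝ} (h : 1 ≤ |u|) : tri u = 0 := max_eq_right (by linarith)

theorem tri_lip (x y : ℝ) : |tri x - tri y| ≤ |x - y| := by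
  refine (abs_max_sub_max_le_abs _ _ _).trans ?_
  rw [show 1 - |x| - (1 - |y|) = |y| - |x| by ring, abs_sub_comm x y]
  exact abs_abs_sub_abs_le_abs_sub y x

theorem tri_exp (c : ℂ) (hc0 : c ≠ 0) :
    ∫ y : ℝ, Complex.exp (c * y) * (tri y : ℂ) = (Complex.exp c - 2 + Complex.exp (-c)) / c ^ 2 := by
  have hc : Continuous (fun y : ℝ => Complex.exp (c * y) * (tri y : ℂ)) :=
    Continuous.mul (by fun_prop) (Complex.continuous_ofReal.comp tri_cont)
  have h1 : ∫ y : ℝ, Complex.exp (c * y) * (tri y : ℂ) =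
      ∫ y in (-1 : ℝ)..1, Complex.exp (c * y) * (tri y : ℂ) := by
    rw [intervalIntegral.integral_of_le (by norm_num)]
    refine (setIntegral_eq_integral_of_forall_compl_eq_zero fun y hy => ?_).symm
    simp [tri_zero hy]
  have h2 : ∫ y in (-1 : ℝ)..0, Complex.exp (c * y) * (tri y : ℂ) =
      ∫ y in (-1 : ℝ)..0, Complex.exp (c * y) * (1 + 1 * y) := by
    refine intervalIntegral.integral_congr fun y hy => ?_
    rw [uIcc_of_le (by norm_num)] at hy
    have : tri y = 1 + y := by
      unfold tri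
      rw [abs_of_nonpos hy.2, max_eq_left (by linarith [hy.1])]; ring
    simp [this]
  have h3 : ∫ y in (0 : ℝ)..1, Complex.exp (c * y) * (tri y : ℂ) =
      ∫ y in (0 : ℝ)..1, Complex.exp (c * y) * (1 + (-1) * y) := by
    refine intervalIntegral.integral_congr fun y hy => ?_
    rw [uIcc_of_le (by norm_num)] at hy
    have : tri y = 1 - y := by
      unfold tri
      rw [abs_of_nonneg hy.1, max_eq_left (by linarith [hy.2])]
    simp [this, sub_eq_add_neg]
  rw [h1, ← intervalIntegral.integral_add_adjacent_intervals (b := 0)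
    (hc.intervalIntegrable _ _) (hc.intervalIntegrable _ _), h2, h3, lin_exp _ hc0, lin_exp _ hc0]
  simp only [Complex.ofReal_zero, mul_zero, Complex.exp_zero, Complex.ofReal_neg,
    Complex.ofReal_one, mul_neg, mul_one]
  field_simp
  ring

theorem tri_int : ∫ y : ℝ, tri y = 1 := by
  have := tri_fourier 0
  simp only [ofReal_zero, zero_mul, neg_zero, Complex.exp_zero, one_mul, zero_div, Real.sinc_zero,
    one_pow] at this
  exact_mod_cast this

theorem int_scale {E : Type} [NormedAddCommGroup E] [NormedSpace ℝ E] (f : ℝ → E) {L : ℝ}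
    (hL : 0 < L) (j : ℝ) : ∫ y : ℝ, f (y / L - j) = L • ∫ u, f u := by
  rw [Measure.integral_comp_div (fun u => f (u - j)) L, abs_of_pos hL, integral_sub_right_eq_self]

theorem tent_exp {L : ℝ} (hL : 0 < L) (k : ℕ) {w : ℂ} (hw : w ≠ 0) :
    ∫ y : ℝ, (tri (y / L - (k + 2)) : ℂ) * Complex.exp (-w * y) =
      (Complex.exp (-w * L) ^ (k + 1) - 2 * Complex.exp (-w * L) ^ (k + 2) +
        Complex.exp (-w * L) ^ (k + 3)) / (L * w ^ 2) := by
  have hL' : (L : ℂ) ≠ 0 := ofReal_ne_zero.mpr hL.ne'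
  have h1 := int_scale (fun u : ℝ => Complex.exp (-w * L) ^ (k + 2) *
    (Complex.exp (-w * L * u) * (tri u : ℂ))) hL (k + 2)
  conv_rhs at h1 => rw [integral_const_mul, tri_exp _ (mul_ne_zero (neg_ne_zero.mpr hw) hL')]
  rw [show (fun y : ℝ => (tri (y / L - (k + 2)) : ℂ) * Complex.exp (-w * y)) = fun y : ℝ =>
    Complex.exp (-w * L) ^ (k + 2) * (Complex.exp (-w * L * (y / L - (k + 2) : ℝ)) *
      (tri (y / L - (k + 2)) : ℂ)) from ?_, h1, Complex.exp_neg, real_smul]
  · have := Complex.exp_ne_zero (-w * L)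
    generalize Complex.exp (-w * L) = q at *
    field_simp
    ring
  · ext y
    rw [← mul_assoc, ← Complex.exp_nat_mul, ← Complex.exp_add, mul_comm]
    congr 2
    push_cast
    field_simp
    ring

/-- the ramp -/
noncomputable def ramp (u : ℝ) : ℝ := max 0 (min u 1)

theorem tri_eq_ramp (u : ℝ) : tri u = ramp (u + 1) - ramp u := by
  unfold tri ramp
  rcases abs_cases u with h | h <;> simp only [max_def, min_def] <;> split_ifs <;> linarith

theorem hasSum_tri (u : ℝ) : HasSum (fun k : ℕ => tri (u - (k + 2))) (ramp (u - 1)) := by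
  rw [hasSum_iff_tendsto_nat_of_nonneg fun k => tri_nonneg _]
  have h1 : ∀ n : ℕ, ∑ k ∈ Finset.range n, tri (u - (k + 2)) = ramp (u - 1) - ramp (u - (n + 1)) := by
    intro n
    induction n with
    | zero => simp
    | succ n ih =>
      rw [Finset.sum_range_succ, ih, tri_eq_ramp]
      push_cast
      rw [show u - (n + 2) + 1 = u - (n + 1) by ring, show (n : ℝ) + 1 + 1 = n + 2 by ring]
      ring
  simp_rw [h1]
  obtain ⟨N, hN⟩ := exists_nat_ge u
  refine tendsto_const_nhds.congr' ?_
  filter_upwards [eventually_ge_atTop N] with n hn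
  have : (N : ℝ) ≤ n := by exact_mod_cast hn
  have : ramp (u - (n + 1)) = 0 := max_eq_left (min_le_of_left_le (by linarith))
  rw [this, sub_zero]

/-- Lipschitz bound for a tent times an exponential -/
theorem tent_lip {L M : ℝ} (hL : 1 ≤ L) (j : ℝ) (w : ℂ)
    (hM : ∀ y : ℝ, L * (j - 1) ≤ y → y ≤ L * (j + 1) → ‖Complex.exp (-w * y)‖ ≤ M) (x y : ℝ) :
    ‖(tri (x / L - j) : ℂ) * Complex.exp (-w * x) - (tri (y / L - j) : ℂ) * Complex.exp (-w * y)‖ ≤
      M * (1 + ‖w‖) * |x - y| := by
  have hL0 : 0 < L := by linarith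
  have hab : L * (j - 1) ≤ L * (j + 1) := by gcongr; linarith
  set cl : ℝ → ℝ := fun y => max (L * (j - 1)) (min y (L * (j + 1))) with hcl
  have c1 : ∀ y, cl y ∈ Icc (L * (j - 1)) (L * (j + 1)) :=
    fun y => ⟨le_max_left _ _, max_le hab (min_le_right _ _)⟩
  have c2 : |cl x - cl y| ≤ |x - y| := by
    simp only [hcl, max_comm (L * (j - 1))]
    exact (abs_max_sub_max_le_abs _ _ _).trans (by
      simpa using abs_min_sub_min_le_max x (L * (j + 1)) y (L * (j + 1)))
  have c3 : ∀ y : ℝ, (tri (y / L - j) : ℂ) * Complex.exp (-w * y) =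
      (tri (y / L - j) : ℂ) * Complex.exp (-w * cl y) := by
    intro y
    rcases le_or_gt 1 |y / L - j| with h | h
    · simp [tri_eq_zero h]
    · rw [abs_lt] at h
      have a1 : L * (j - 1) ≤ y := by
        have := (lt_div_iff₀ hL0).mp (show j - 1 < y / L by linarith); linarith
      have a2 : y ≤ L * (j + 1) := by
        have := (div_lt_iff₀ hL0).mp (show y / L < j + 1 by linarith); linarith
      simp only [hcl, min_eq_left a2, max_eq_right a1]
  have hM0 : 0 ≤ M := (norm_nonneg _).trans (hM _ le_rfl hab)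
  have c4 : ‖Complex.exp (-w * cl x) - Complex.exp (-w * cl y)‖ ≤ M * ‖w‖ * |x - y| := by
    have := (convex_Icc (L * (j - 1)) (L * (j + 1))).norm_image_sub_le_of_norm_hasDerivWithin_le
      (f := fun t : ℝ => Complex.exp (-w * t)) (f' := fun t : ℝ => Complex.exp (-w * t) * (-w))
      (C := M * ‖w‖) (fun t _ => ?_) (fun t ht => ?_) (c1 y) (c1 x)
    · refine this.trans ?_
      rw [Real.norm_eq_abs]; gcongr
    · have : HasDerivAt (fun z : ℂ => Complex.exp (-w * z)) (Complex.exp (-w * t) * (-w)) (t : ℂ) := by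
        simpa using ((hasDerivAt_id (t : ℂ)).const_mul (-w)).cexp
      exact this.comp_ofReal.hasDerivWithinAt
    · rw [norm_mul, norm_neg]; gcongr; exact hM t ht.1 ht.2
  have c5 : |tri (x / L - j) - tri (y / L - j)| ≤ |x - y| := by
    refine (tri_lip _ _).trans ?_
    rw [show x / L - j - (y / L - j) = (x - y) / L by ring, abs_div, abs_of_pos hL0]
    exact div_le_self (abs_nonneg _) hL
  rw [c3 x, c3 y]
  have c6 := hM _ (c1 x).1 (c1 x).2
  calc _ = ‖((tri (x / L - j) - tri (y / L - j) : ℝ) : ℂ) * Complex.exp (-w * cl x) +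
        (tri (y / L - j) : ℂ) * (Complex.exp (-w * cl x) - Complex.exp (-w * cl y))‖ := by
        congr 1; push_cast; ring
    _ ≤ |x - y| * M + 1 * (M * ‖w‖ * |x - y|) := by
        refine (norm_add_le _ _).trans ?_
        rw [norm_mul, norm_mul, Complex.norm_real, Complex.norm_real, Real.norm_eq_abs,
          Real.norm_of_nonneg (tri_nonneg _)]
        gcongr
        exact tri_le_one _
    _ = _ := by ring

end Pool.Agent.H49.Sel
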