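import Pool.Agent.H49.SelZB

set_option autoImplicit false
open Complex MeasureTheory Set Filter Topology

namespace Pool.Agent.H49.Sel
open Pool.Agent.Lead.Sel Pool.Agent.H61.SelA

/-- one term of a block -/
noncomputable def blkT (z : ℕ) (L : ℝ) (s : ℂ) (m k : ℕ) : ℂ :=
  (rough z m : ℂ) * ((tri (Real.log m / L - (k + 2)) : ℂ) * Complex.exp (-(s - 1) * (Real.log m : ℝ))) / m

/-- the expected value of a block -/
noncomputable def blkI (L : ℝ) (s : ℂ) (k : ℕ) : ℂ :=
  (Complex.exp (-(s - 1) * L) ^ (k + 1) - 2 * Complex.exp (-(s - 1) * L) ^ (k + 2) +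
    Complex.exp (-(s - 1) * L) ^ (k + 3)) / (L * (s - 1) ^ 2)

theorem blk_diff (z : ℕ) {L : ℝ} (hL : 0 < L) (k : ℕ) :
    Differentiable ℂ fun s => ∑' m : ℕ, blkT z L s m k := by
  obtain ⟨N, hN⟩ := exists_nat_ge (Real.exp (L * (k + 3)))
  have h : ∀ s, ∑' m : ℕ, blkT z L s m k = ∑ m ∈ Finset.range N, blkT z L s m k := by
    intro s
    refine tsum_eq_sum fun m hm => ?_
    have h1 : (N : ℝ) ≤ m := by exact_mod_cast not_lt.mp (mt Finset.mem_range.mpr hm)
    have h2 : L * (k + 3) ≤ Real.log m := by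
      rw [Real.le_log_iff_exp_le (by linarith [Real.exp_pos (L * (k + 3))])]; linarith
    have h3 : (k : ℝ) + 3 ≤ Real.log m / L := by rw [le_div_iff₀ hL]; linarith
    rw [blkT, tri_eq_zero (le_abs.mpr (Or.inl (by linarith)))]
    simp
  simp_rw [h]
  refine Differentiable.fun_sum fun m _ => ?_
  unfold blkT
  fun_prop

theorem blk_bound {C : ℝ} (hC : 0 < C) {z : ℕ}
    (hrs : ∀ a : ℝ, 1 / 2 ≤ a → ∀ (h : ℝ → ℂ) (ψ : ℝ → ℝ) (H b : ℝ),
      (∀ y, ‖h y‖ ≤ ψ y) → (∀ y, ψ y ≤ H) →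
      (∀ y, y ≤ a * Real.log z → ψ y = 0) → (∀ y, b ≤ y → ψ y = 0) →
      (∀ x y, ‖h x - h y‖ ≤ H * |x - y|) → (∀ x y, |ψ x - ψ y| ≤ H * |x - y|) →
      ‖(∑' m : ℕ, (rough z m : ℂ) * h (Real.log m) / (m : ℂ)) - (V z : ℂ) * ∫ y, h y‖
        ≤ C * Real.exp (-2 * a) / Real.log z * (∫ y, ψ y) + C * H * (z : ℝ) ^ (-a / 4))
    (hz : 8 ≤ Real.log z) {s : ℂ} (h1 : 1 - 1 / Real.log z < s.re)
    (h2 : ‖s - 1‖ < (z : ℝ) ^ (1 / 10 : ℝ)) (h3 : s ≠ 1) (k : ℕ) :
    ‖(∑' m : ℕ, blkT z (Real.log z / 2) s m k) - V z * blkI (Real.log z / 2) s k‖ ≤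
      3 * C * Real.exp (3 / 2) * Real.exp (-1 / 2) ^ k := by
  set l := Real.log z with hl
  have hz0 : (0 : ℝ) < z := by
    rcases Nat.eq_zero_or_pos z with rfl | h
    · simp at hl; linarith
    · exact_mod_cast h
  have hk : (0 : ℝ) ≤ k := k.cast_nonneg
  set L := l / 2 with hL
  have hL1 : 1 ≤ L := by linarith
  have hL0 : 0 < L := by linarith
  set M := Real.exp ((k + 3) / 2) with hM
  have hM0 : 0 < M := Real.exp_pos _
  have hw := norm_nonneg (s - 1)
  have hMb : ∀ y : ℝ, L * ((k + 2 : ℝ) - 1) ≤ y → y ≤ L * ((k + 2 : ℝ) + 1) →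
      ‖Complex.exp (-(s - 1) * y)‖ ≤ M := by
    intro y a1 a2
    have a0 : 0 ≤ y := le_trans (mul_nonneg hL0.le (by linarith)) a1
    rw [Complex.norm_exp]
    apply Real.exp_le_exp.mpr
    simp only [mul_re, neg_re, sub_re, one_re, ofReal_re, ofReal_im, mul_zero, sub_zero]
    calc _ ≤ 1 / l * y := by gcongr; linarith
      _ ≤ 1 / l * (L * ((k + 2 : ℝ) + 1)) := by gcongr
      _ = _ := by rw [hL]; field_simp; ring
  have hsupp : ∀ y : ℝ, tri (y / L - (k + 2)) = 0 ∨
      (L * ((k + 2 : ℝ) - 1) ≤ y ∧ y ≤ L * ((k + 2 : ℝ) + 1)) := by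
    intro y
    rcases le_or_gt 1 |y / L - (k + 2)| with h | h
    · exact Or.inl (tri_eq_zero h)
    · rw [abs_lt] at h
      have a1 := (lt_div_iff₀ hL0).mp (show (k + 2 : ℝ) - 1 < y / L by linarith)
      have a2 := (div_lt_iff₀ hL0).mp (show y / L < (k + 2 : ℝ) + 1 by linarith)
      exact Or.inr ⟨by linarith, by linarith⟩
  have key := hrs ((k + 1) / 2) (by linarith)
    (fun y => (tri (y / L - (k + 2)) : ℂ) * Complex.exp (-(s - 1) * y))
    (fun y => M * tri (y / L - (k + 2))) (M * (1 + ‖s - 1‖)) (L * (k + 3))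
    (fun y => by
      rw [norm_mul, Complex.norm_real, Real.norm_of_nonneg (tri_nonneg _), mul_comm]
      rcases hsupp y with h | h
      · simp [h]
      · exact mul_le_mul_of_nonneg_right (hMb y h.1 h.2) (tri_nonneg _))
    (fun y => by gcongr; linarith [tri_le_one (y / L - (k + 2))])
    (fun y hy => by
      have : y / L ≤ k + 1 := by rw [div_le_iff₀ hL0, hL]; linarith
      rw [tri_eq_zero (le_abs.mpr (Or.inr (by linarith))), mul_zero])
    (fun y hy => by
      have : (k : ℝ) + 3 ≤ y / L := by rw [le_div_iff₀ hL0]; linarith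
      rw [tri_eq_zero (le_abs.mpr (Or.inl (by linarith))), mul_zero])
    (tent_lip hL1 (k + 2) (s - 1) hMb)
    (fun x y => by
      rw [← mul_sub, abs_mul, abs_of_pos hM0, mul_assoc]
      gcongr
      refine (tri_lip _ _).trans ?_
      rw [show x / L - (k + 2) - (y / L - (k + 2)) = (x - y) / L by ring, abs_div, abs_of_pos hL0]
      exact (div_le_self (abs_nonneg _) hL1).trans
        (le_mul_of_one_le_left (abs_nonneg _) (by linarith)))
  rw [tent_exp hL0 k (sub_ne_zero.mpr h3), integral_const_mul, int_scale tri hL0, tri_int] at key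
  refine key.trans ?_
  rw [← Real.exp_nat_mul]
  have b1 : C * Real.exp (-2 * ((k + 1) / 2)) / l * (M * L • (1 : ℝ)) ≤
      C * Real.exp (3 / 2) * Real.exp (k * (-1 / 2)) := by
    have : Real.exp (-2 * ((k + 1) / 2)) * M ≤ Real.exp (3 / 2) * Real.exp (k * (-1 / 2)) := by
      rw [hM, ← Real.exp_add, ← Real.exp_add]; apply Real.exp_le_exp.mpr; linarith
    calc _ = C * (Real.exp (-2 * ((k + 1) / 2)) * M) / 2 := by
          rw [smul_eq_mul, hL]; field_simp
      _ ≤ C * (Real.exp (3 / 2) * Real.exp (k * (-1 / 2))) / 1 := by gcongr; norm_num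
      _ = _ := by ring
  have b2 : C * (M * (1 + ‖s - 1‖)) * (z : ℝ) ^ (-(((k : ℝ) + 1) / 2) / 4) ≤
      2 * C * Real.exp (3 / 2) * Real.exp (k * (-1 / 2)) := by
    rw [Real.rpow_def_of_pos hz0, ← hl] at h2 ⊢
    have c1 : 1 ≤ Real.exp (l * (1 / 10)) := Real.one_le_exp (by linarith)
    have c2 : M * Real.exp (l * (1 / 10)) * Real.exp (l * (-(((k : ℝ) + 1) / 2) / 4)) ≤
        Real.exp (3 / 2) * Real.exp (k * (-1 / 2)) := by
      rw [hM, ← Real.exp_add, ← Real.exp_add, ← Real.exp_add]; apply Real.exp_le_exp.mpr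
      nlinarith
    calc _ ≤ C * (M * (2 * Real.exp (l * (1 / 10)))) * Real.exp (l * (-(((k : ℝ) + 1) / 2) / 4)) := by
          gcongr; linarith
      _ = 2 * C * (M * Real.exp (l * (1 / 10)) * Real.exp (l * (-(((k : ℝ) + 1) / 2) / 4))) := by ring
      _ ≤ 2 * C * (Real.exp (3 / 2) * Real.exp (k * (-1 / 2))) := by gcongr
      _ = _ := by ring
  linarith

theorem hasSum_blkI {L : ℝ} (hL : 0 < L) {s : ℂ} (hs : 1 < s.re) :
    HasSum (blkI L s) ((Complex.exp (-(s - 1) * L) - Complex.exp (-(s - 1) * L) ^ 2) /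
      (L * (s - 1) ^ 2)) := by
  unfold blkI
  apply HasSum.div_const
  have hq : ‖Complex.exp (-(s - 1) * L)‖ < 1 := by
    rw [Complex.norm_exp, Real.exp_lt_one_iff]
    simp only [mul_re, neg_re, sub_re, one_re, ofReal_re, ofReal_im, mul_zero, sub_zero]
    nlinarith
  generalize Complex.exp (-(s - 1) * L) = q at hq
  have h1 : 1 - q ≠ 0 := by
    intro h; rw [← sub_eq_zero.mp h, norm_one] at hq; exact lt_irrefl _ hq
  have h2 := (hasSum_geometric_of_norm_lt_one hq).mul_left (q * (1 - q) ^ 2)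
  rw [show q * (1 - q) ^ 2 * (1 - q)⁻¹ = q - q ^ 2 by field_simp] at h2
  exact h2.congr_fun fun k => by ring

theorem rough_log {z m : ℕ} (hm : 2 ≤ m) (h : rough z m ≠ 0) : z < m := by
  unfold rough at h
  split_ifs at h with hc
  · by_contra hz
    have hp := Nat.minFac_prime (show m ≠ 1 by omega)
    have h1 : m.minFac ∣ primorial z :=
      (hp.dvd_primorial_iff).mpr ((Nat.minFac_le (by omega)).trans (not_lt.mp hz))
    exact hp.one_lt.ne' (Nat.eq_one_of_dvd_coprimes hc (Nat.minFac_dvd m) h1)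
  · exact absurd rfl h

theorem lseries_blocks {z : ℕ} (hz : 0 < Real.log z) {s : ℂ} (hs : 1 < s.re) :
    HasSum (fun k : ℕ => ∑' m : ℕ, blkT z (Real.log z / 2) s m k)
      (LSeries (fun n => (rough z n : ℂ)) s - 1) := by
  set L := Real.log z / 2 with hL
  have hL0 : 0 < L := by linarith
  set a : ℕ → ℂ := fun m => LSeries.term (fun n => (rough z n : ℂ)) s m with ha
  have hsum : Summable a := LSeriesSummable_of_bounded_of_one_lt_re (m := 1) (fun n _ => by
    rw [Complex.norm_real, Real.norm_of_nonneg (rough_nonneg z n)]; exact rough_le_one z n) hs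
  have e1 : ∀ m k, blkT z L s m k = a m * (tri (Real.log m / L - (k + 2)) : ℝ) := by
    intro m k
    rcases eq_or_ne m 0 with rfl | hm
    · simp [blkT, ha]
    · have hm' : (m : ℂ) ≠ 0 := by exact_mod_cast hm
      have : (m : ℂ) ^ s = m * Complex.exp ((s - 1) * (Real.log m : ℝ)) := by
        rw [cpow_def_of_ne_zero hm', natCast_log]
        conv_rhs => rw [← Complex.exp_log hm', ← Complex.exp_add, Complex.exp_log hm']
        congr 1; ring
      simp only [blkT, ha, LSeries.term_of_ne_zero hm, this, neg_mul, Complex.exp_neg]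
      field_simp
  have e2 : ∀ m : ℕ, HasSum (fun k => blkT z L s m k) (a m * (ramp (Real.log m / L - 1) : ℝ)) := by
    intro m
    simp_rw [e1]
    exact (hasSum_ofReal.mpr (hasSum_tri _)).mul_left _
  have r0 : ∀ u, 0 ≤ ramp u := fun u => le_max_left _ _
  have r1 : ∀ u, ramp u ≤ 1 := fun u => max_le zero_le_one (min_le_right _ _)
  have e3 : Summable fun p : ℕ × ℕ => blkT z L s p.1 p.2 := by
    apply Summable.of_norm
    have n1 : ∀ m : ℕ, HasSum (fun k => ‖blkT z L s m k‖) (‖a m‖ * ramp (Real.log m / L - 1)) := by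
      intro m
      simp_rw [e1, norm_mul, Complex.norm_real, Real.norm_of_nonneg (tri_nonneg _)]
      exact (hasSum_tri _).mul_left _
    refine (summable_prod_of_nonneg fun p => norm_nonneg _).mpr ⟨fun m => (n1 m).summable, ?_⟩
    simp_rw [fun m => (n1 m).tsum_eq]
    exact hsum.norm.of_nonneg_of_le (fun m => mul_nonneg (norm_nonneg _) (r0 _))
      fun m => mul_le_of_le_one_right (norm_nonneg _) (r1 _)
  have e4 : HasSum (fun m : ℕ => a m * (ramp (Real.log m / L - 1) : ℝ))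
      (LSeries (fun n => (rough z n : ℂ)) s - 1) := by
    refine (hsum.hasSum.sub (hasSum_ite_eq 1 (1 : ℂ))).congr_fun fun m => ?_
    rcases Nat.lt_or_ge m 2 with hm | hm
    · interval_cases m
      · simp [ha]
      · simp [ha, ramp, rough]
    · rw [if_neg (by omega), sub_zero]
      by_cases h : rough z m = 0
      · simp [ha, LSeries.term_def, h]
      · have h1 : (z : ℝ) ≤ m := by exact_mod_cast (rough_log hm h).le
        have hz0 : (0 : ℝ) < z := by
          rcases Nat.eq_zero_or_pos z with rfl | h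
          · simp at hz
          · exact_mod_cast h
        have h2 := Real.log_le_log hz0 h1
        have h3 : 2 ≤ Real.log m / L := by rw [le_div_iff₀ hL0]; linarith
        rw [ramp, min_eq_right (by linarith), max_eq_right zero_le_one]; simp
  have e5 := e3.hasSum.prod_fiberwise e2
  rw [← e5.unique e4]
  have e6 := (Equiv.prodComm ℕ ℕ).hasSum_iff.mpr e3.hasSum
  exact e6.prod_fiberwise fun k => (e6.summable.prod_factor k).hasSum

theorem zb (hrs : RS) (hvb : VB) : ZB := by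
  obtain ⟨C, hC, z0, hrs⟩ := hrs
  obtain ⟨z1, hz1⟩ := exists_nat_ge (Real.exp 8)
  have hr0 := Real.exp_pos (-1 / 2)
  have hr1 : Real.exp (-1 / 2) < 1 := Real.exp_lt_one_iff.mpr (by norm_num)
  have hu := (hasSum_geometric_of_lt_one hr0.le hr1).mul_left (3 * C * Real.exp (3 / 2))
  set D := 3 * C * Real.exp (3 / 2) * (1 - Real.exp (-1 / 2))⁻¹ with hD
  have hD0 : 0 ≤ D := hu.nonneg fun k => by positivity
  refine ⟨D + 13, by linarith, max z0 z1, fun z hz => ?_⟩
  have hz2 : Real.exp 8 ≤ z := hz1.trans (by exact_mod_cast le_of_max_le_right hz)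
  have hz9 : (9 : ℝ) ≤ z := by linarith [Real.add_one_le_exp 8]
  have hl8 : 8 ≤ Real.log z := (Real.le_log_iff_exp_le (by linarith)).mpr hz2
  obtain ⟨hV0, hV1⟩ := hvb z (by have : (2 : ℝ) ≤ z := by linarith
                                 exact_mod_cast this)
  have hb := fun s h1 h2 h3 k => blk_bound hC (hrs z (le_of_max_le_left hz)) hl8 (s := s) h1 h2 h3 k
  set l := Real.log z with hl
  set L := l / 2 with hL
  have hL0 : 0 < L := by linarith
  have hLc : (L : ℂ) ≠ 0 := ofReal_ne_zero.mpr hL0.ne'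
  set Z := (z : ℝ) ^ (1 / 10 : ℝ) with hZ
  set Br : ℕ → ℂ → ℂ := fun k s => (∑' m : ℕ, blkT z L s m k) - V z * blkI L s k with hBr
  set P : ℂ → ℂ := fun s => (Complex.exp (-(s - 1) * L) - Complex.exp (-(s - 1) * L) ^ 2) /
      (L * (s - 1) ^ 2) with hP
  set G : ℂ → ℂ := fun s => 1 + V z * P s + ∑' k, Br k s with hG
  have hGL : ∀ s : ℂ, 1 < s.re → G s = LSeries (fun n => (rough z n : ℂ)) s := by
    intro s hs
    have := (lseries_blocks (z := z) (by linarith) hs).sub ((hasSum_blkI hL0 hs).mul_left (V z : ℂ))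
    simp only [hG, hBr, hP]
    rw [this.tsum_eq]; ring
  have hGb : ∀ s : ℂ, 1 - 1 / l < s.re → ‖s - 1‖ < Z → s ≠ 1 → ‖G s‖ ≤ D + 1 + 1 / l * ‖P s‖ := by
    intro s h1 h2 h3
    have a1 : ‖∑' k, Br k s‖ ≤ D := tsum_of_norm_bounded hu (hb s h1 h2 h3)
    have a2 := norm_add₃_le (a := (1 : ℂ)) (b := V z * P s) (c := ∑' k, Br k s)
    rw [norm_one, norm_mul, Complex.norm_real, Real.norm_of_nonneg hV0.le] at a2
    have a3 : V z * ‖P s‖ ≤ 1 / l * ‖P s‖ := by gcongr
    simp only [hG]; linarith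
  refine ⟨⟨G, fun s h1 h2 h3 => ?_, fun s hs _ => hGL s hs, fun s h1 h2 h3 => ?_⟩, fun σ h1 h2 => ?_⟩
  · set U : Set ℂ := {s | 1 - 1 / l < s.re ∧ ‖s - 1‖ < Z ∧ s ≠ 1} with hU
    have hUo : IsOpen U := (isOpen_lt continuous_const continuous_re).inter
      ((isOpen_lt (f := fun s : ℂ => ‖s - 1‖) (by fun_prop) continuous_const).inter isOpen_ne)
    have den : ∀ w : ℂ, w ≠ 1 → (L : ℂ) * (w - 1) ^ 2 ≠ 0 :=
      fun w hw => mul_ne_zero hLc (pow_ne_zero _ (sub_ne_zero.mpr hw))
    have d1 := differentiableOn_tsum_of_summable_norm (F := Br) hu.summable (fun k w hw => by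
      refine ((blk_diff z hL0 k w).sub (DifferentiableAt.const_mul ?_ _)).differentiableWithinAt
      unfold blkI
      exact DifferentiableAt.div (by fun_prop) (by fun_prop) (den w hw.2.2)) hUo
      fun k w hw => hb w hw.1 hw.2.1 hw.2.2 k
    refine (DifferentiableAt.const_add _ (DifferentiableAt.const_mul ?_ _)).add
      (d1.differentiableAt (hUo.mem_nhds ⟨h1, h2, h3⟩))
    exact DifferentiableAt.div (by fun_prop) (by fun_prop) (den s h3)
  · have hi : 0 < 1 / l := by positivity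
    have h4 : s ≠ 1 := by rintro rfl; simp at h3; linarith
    refine (hGb s h1 h2 h4).trans ?_
    have a1 : ‖Complex.exp (-(s - 1) * L)‖ ≤ 2 := by
      rw [Complex.norm_exp]
      simp only [mul_re, neg_re, sub_re, one_re, ofReal_re, ofReal_im, mul_zero, sub_zero]
      have b1 : -(s.re - 1) * L ≤ 1 / 2 := by
        calc _ ≤ 1 / l * L := by gcongr; linarith
          _ = _ := by rw [hL]; field_simp
      calc _ ≤ Real.exp (Real.log 2) := Real.exp_le_exp.mpr (by linarith [Real.log_two_gt_d9])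
        _ = 2 := Real.exp_log two_pos
    have a2 : 1 / l ≤ ‖s - 1‖ := h3.trans (by simpa using Complex.abs_im_le_norm (s - 1))
    have a3 : ‖P s‖ ≤ 6 / (L * (1 / l) ^ 2) := by
      simp only [hP]
      rw [norm_div, norm_mul, norm_pow, Complex.norm_real, Real.norm_of_nonneg hL0.le]
      gcongr
      refine (norm_sub_le _ _).trans ?_
      rw [norm_pow]
      nlinarith [norm_nonneg (Complex.exp (-(s - 1) * L))]
    have a4 : 1 / l * (6 / (L * (1 / l) ^ 2)) = 12 := by rw [hL]; field_simp; norm_num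
    have a5 : 1 / l * ‖P s‖ ≤ 1 / l * (6 / (L * (1 / l) ^ 2)) := by gcongr
    linarith
  · have hi : 0 < 1 / l := by positivity
    have hZ1 : 1 < Z := Real.one_lt_rpow (by linarith) (by norm_num)
    have a0 : (σ : ℂ) - 1 = ((σ - 1 : ℝ) : ℂ) := by simp
    have a1 := hGb σ (by simp only [ofReal_re]; linarith)
      (by rw [a0, Complex.norm_real, Real.norm_of_nonneg (by linarith)]; linarith)
      (by exact_mod_cast h1.ne')
    rw [hGL σ (by simpa using h1), lseries_real z h1, Complex.norm_real] at a1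
    refine (le_abs_self _).trans (a1.trans ?_)
    obtain ⟨w, rfl⟩ : ∃ w, σ = w + 1 := ⟨σ - 1, by ring⟩
    have hw : 0 < w := by linarith
    have a2 : P (w + 1 : ℝ) = ((Real.exp (-w * L) * (1 - Real.exp (-w * L)) / (L * w ^ 2) : ℝ) : ℂ) := by
      simp only [hP]; push_cast; rw [add_sub_cancel_right]; ring
    have a3 : Real.exp (-w * L) ≤ 1 := Real.exp_le_one_iff.mpr (by nlinarith)
    have a4 := Real.add_one_le_exp (-w * L)
    have a5 := Real.exp_pos (-w * L)
    have a6 : ‖P (w + 1 : ℝ)‖ ≤ 1 / w := by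
      rw [a2, Complex.norm_real, Real.norm_of_nonneg (div_nonneg (by nlinarith) (by positivity))]
      calc _ ≤ 1 * (w * L) / (L * w ^ 2) := by gcongr; linarith
        _ = _ := by field_simp
    have a7 : 1 / l * ‖P (w + 1 : ℝ)‖ ≤ 1 / l * (1 / w) := by gcongr
    rw [add_sub_cancel_right, ← one_div_mul_one_div]
    linarith

end Pool.Agent.H49.Sel
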