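import Pool.Agent.H49.SelA

set_option autoImplicit false
open Complex MeasureTheory Set Filter Topology

namespace Pool.Agent.H49.Sel
open Pool.Agent.Lead.Sel

theorem Ord2.add {U : Set ℂ} {f g : ℂ → ℂ} (hf : Ord2 U f) (hg : Ord2 U g) :
    Ord2 U (fun s => f s + g s) := by
  obtain ⟨C, hC, h⟩ := hf
  obtain ⟨D, hD, k⟩ := hg
  refine ⟨C + D + 1, by positivity, fun s hs => ?_⟩
  have h1 := one_le_sq s
  set r := (1 + ‖s‖) ^ 2
  have h2 : Real.exp (C * r) ≤ Real.exp ((C + D) * r) := Real.exp_le_exp.mpr (by nlinarith)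
  have h3 : Real.exp (D * r) ≤ Real.exp ((C + D) * r) := Real.exp_le_exp.mpr (by nlinarith)
  have h4 : 2 ≤ Real.exp r := by linarith [Real.add_one_le_exp r]
  have h5 := Real.exp_pos ((C + D) * r)
  calc _ ≤ ‖f s‖ + ‖g s‖ := norm_add_le _ _
    _ ≤ Real.exp ((C + D) * r) * 2 := by linarith [h s hs, k s hs]
    _ ≤ Real.exp ((C + D) * r) * Real.exp r := by gcongr
    _ = _ := by rw [← Real.exp_add]; ring_nf

theorem mellin_bdd {f : ℝ → ℂ} (h : ∀ s, MellinConvergent f s) (A B : ℝ) :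
    ∃ C : ℝ, ∀ s : ℂ, A ≤ s.re → s.re ≤ B → ‖mellin f s‖ ≤ C := by
  have hA := (h A).norm
  have hB := (h B).norm
  refine ⟨_, fun s h1 h2 => norm_integral_le_of_norm_le (hA.add hB) ?_⟩
  filter_upwards [ae_restrict_mem measurableSet_Ioi] with t ht
  have ht0 : (0 : ℝ) < t := ht
  simp only [Pi.add_apply, norm_smul, norm_cpow_eq_rpow_re_of_pos ht0, sub_re, ofReal_re, one_re]
  rw [← add_mul]
  gcongr
  have a1 := Real.rpow_pos_of_pos ht0 (A - 1)
  have a2 := Real.rpow_pos_of_pos ht0 (B - 1)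
  rcases le_total t 1 with h | h
  · linarith [Real.rpow_le_rpow_of_exponent_ge ht0 h (show A - 1 ≤ s.re - 1 by linarith)]
  · linarith [Real.rpow_le_rpow_of_exponent_le h (show s.re - 1 ≤ B - 1 by linarith)]

theorem mellin_conj {f : ℝ → ℂ} (h : ∀ t, starRingEnd ℂ (f t) = f t) (s : ℂ) :
    mellin f (starRingEnd ℂ s) = starRingEnd ℂ (mellin f s) := by
  rw [mellin, mellin, ← integral_conj]
  refine setIntegral_congr_fun measurableSet_Ioi fun t ht => ?_
  have ht0 : (0 : ℝ) < t := ht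
  simp only [smul_eq_mul, map_mul, h]
  congr 1
  rw [show starRingEnd ℂ s - 1 = starRingEnd ℂ (s - 1) by simp,
    cpow_conj _ _ (by rw [arg_ofReal_of_nonneg ht0.le]; exact Real.pi_pos.ne), conj_ofReal]

theorem zeta0_bdd (A B : ℝ) :
    ∃ C : ℝ, ∀ s : ℂ, A ≤ s.re → s.re ≤ B → ‖completedRiemannZeta₀ s‖ ≤ C := by
  obtain ⟨C, hC⟩ := mellin_bdd (f := (HurwitzZeta.hurwitzEvenFEPair 0).f_modif)
    (fun s => ((HurwitzZeta.hurwitzEvenFEPair 0).isStrongFEPair_toStrongFEPair.hasMellin s).1)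
    (A / 2) (B / 2)
  refine ⟨C / 2, fun s h1 h2 => ?_⟩
  have := hC (s / 2) (by simp only [div_ofNat_re]; linarith) (by simp only [div_ofNat_re]; linarith)
  rw [completedRiemannZeta₀, HurwitzZeta.completedHurwitzZetaEven₀, WeakFEPair.Λ₀, norm_div]
  simp only [Complex.norm_ofNat]
  linarith

theorem zeta0_conj (s : ℂ) :
    completedRiemannZeta₀ (starRingEnd ℂ s) = starRingEnd ℂ (completedRiemannZeta₀ s) := by
  simp only [completedRiemannZeta₀, HurwitzZeta.completedHurwitzZetaEven₀, WeakFEPair.Λ₀, map_div₀]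
  rw [← mellin_conj]
  · simp [map_ofNat]
  · intro t
    simp only [WeakFEPair.f_modif, HurwitzZeta.hurwitzEvenFEPair, Pi.add_apply, indicator]
    split_ifs <;> simp

/-- the entire completed zeta function -/
noncomputable def X (s : ℂ) : ℂ := s * (s - 1) * completedRiemannZeta₀ s + 1

theorem X_one_sub (s : ℂ) : X (1 - s) = X s := by
  rw [X, X, completedRiemannZeta₀_one_sub]; ring

theorem X_conj (s : ℂ) : X (starRingEnd ℂ s) = starRingEnd ℂ (X s) := by
  simp [X, zeta0_conj]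

theorem X_diff : Differentiable ℂ X := by
  have := differentiable_completedZeta₀
  unfold X; fun_prop

theorem X_eq {s : ℂ} (hs : 1 < s.re) : X s = (s - 1) * riemannZeta s *
    (2 * (Real.pi : ℂ) ^ (-s / 2) * Complex.Gamma (s / 2 + 1)) := by
  have h1 : 1 - s ≠ 0 := by
    intro h; have := congrArg re h; simp at this; linarith
  have h2 : Complex.Gamma (s / 2 + 1) ≠ 0 := by
    apply Complex.Gamma_ne_zero_of_re_pos; simp only [add_re, div_ofNat_re, one_re]; linarith
  have h3 : (Real.pi : ℂ) ^ (-s / 2) ≠ 0 := by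
    rw [Ne, cpow_eq_zero_iff]; simp [Real.pi_ne_zero]
  rw [riemannZeta_eq_mul_completedRiemannZeta₀, X]
  generalize Complex.Gamma (s / 2 + 1) = g at h2 ⊢
  generalize (Real.pi : ℂ) ^ (-s / 2) = u at h3 ⊢
  field_simp
  ring

theorem X_ord2 : Ord2 univ X := by
  refine ord2_of_symm (fun s => by rw [X_one_sub]) ?_ ?_
  · obtain ⟨C, hC⟩ := zeta0_bdd (-1) 2
    refine ((((ord2_affine _ 1 0).mul (ord2_affine _ 1 (-1))).mul
      (ord2_of_bdd C fun s hs => hC s hs.1 hs.2)).add (ord2_const _ 1)).of_le fun s _ => ?_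
    apply le_of_eq; rw [X]; congr 1; ring
  · have hs : Summable fun n : ℕ => |(1 : ℝ)| * (n : ℝ) ^ (-(2 : ℝ)) := by
      simp
    refine (((ord2_affine _ 1 (-1)).mul (ord2_of_bdd _ fun s h => (lseries_bdd hs h).2)).mul
      (((ord2_const _ 2).mul (ord2_cpow_affine _ Real.pi_pos (-1 / 2) 0)).mul
        (ord2_Gamma _ (1 / 2) 1 fun s h => ?_))).of_le fun s h => ?_
    · have : 2 ≤ s.re := h
      have e : (1 / 2 * s + 1 : ℂ) = s / 2 + 1 := by ring
      rw [e]; simp only [add_re, div_ofNat_re, one_re]; linarith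
    · have h2 : 2 ≤ s.re := h
      rw [X_eq (by linarith), ← LSeries_one_eq_riemannZeta (by linarith)]
      apply le_of_eq
      rw [show (1 : ℂ) * s + -1 = s - 1 by ring, show (-1 / 2 : ℂ) * s + 0 = -s / 2 by ring,
        show (1 / 2 : ℂ) * s + 1 = s / 2 + 1 by ring]
      rfl

theorem refl_codiscrete {p : ℂ → Prop} (h : ∀ᶠ s in codiscrete ℂ, p s) :
    ∀ᶠ s in codiscrete ℂ, p (1 - starRingEnd ℂ s) := by
  refine mem_codiscrete.mpr fun x => ?_
  have h1 := mem_codiscrete.mp h (1 - starRingEnd ℂ x)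
  rw [disjoint_principal_right, compl_compl] at h1 ⊢
  have h2 : Tendsto (fun s : ℂ => 1 - starRingEnd ℂ s) (𝓝[≠] x) (𝓝[≠] (1 - starRingEnd ℂ x)) := by
    refine tendsto_nhdsWithin_of_tendsto_nhds_of_eventually_within _ ?_ ?_
    · exact ((continuous_const.sub continuous_conj).tendsto x).mono_left nhdsWithin_le_nhds
    · filter_upwards [self_mem_nhdsWithin] with s hs h
      apply hs
      have : starRingEnd ℂ s = starRingEnd ℂ x := by simpa using h
      simpa using congrArg (starRingEnd ℂ) this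
  exact h2 h1

end Pool.Agent.H49.Sel
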