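import Pool.Agent.H49.P1Lemmas

set_option autoImplicit false

namespace Pool.Agent.H49.Semilin

open Polynomial Pool.Agent.H49.P1

lemma three_pow_dvd (x w : ℂ) (hw : IsPrimitiveRoot w 3) (A B k : ℕ)
    (hA : x ^ A = w) (hB : x ^ B = w) (hk : 3 ^ k ∣ A) : 3 ^ k ∣ B := by
  have h3A : orderOf x ∣ 3 * A := by
    rw [orderOf_dvd_iff_pow_eq_one, mul_comm, pow_mul, hA, hw.pow_eq_one]
  have h3B : orderOf x ∣ 3 * B := by
    rw [orderOf_dvd_iff_pow_eq_one, mul_comm, pow_mul, hB, hw.pow_eq_one]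
  have hnA : ¬ orderOf x ∣ A := by
    rw [orderOf_dvd_iff_pow_eq_one, hA]
    exact hw.ne_one (by norm_num)
  have hN0 : orderOf x ≠ 0 := by
    intro h0
    rw [h0, zero_dvd_iff] at h3A
    apply hnA
    have : A = 0 := by omega
    rw [this]; exact dvd_zero _
  obtain ⟨e, N', hN', hN⟩ := Nat.exists_eq_pow_mul_and_not_dvd hN0 3 (by norm_num)
  obtain ⟨A', rfl⟩ := hk
  have hcop : Nat.Coprime N' 3 := ((Nat.Prime.coprime_iff_not_dvd Nat.prime_three).2 hN').symm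
  have h1 : N' ∣ A' := by
    have : N' ∣ 3 ^ (k + 1) * A' := by
      have h2 : N' ∣ orderOf x := ⟨3 ^ e, by rw [hN, mul_comm]⟩
      have h3 := h2.trans h3A
      have e : 3 ^ (k + 1) * A' = 3 * (3 ^ k * A') := by ring
      rw [e]
      exact h3
    exact (Nat.Coprime.pow_right (k + 1) hcop).dvd_of_dvd_mul_left this
  have he : k + 1 ≤ e := by
    by_contra hcon
    apply hnA
    rw [hN]
    exact mul_dvd_mul (pow_dvd_pow 3 (by omega)) h1
  have h4 : 3 ^ (k + 1) ∣ 3 * B := by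
    refine dvd_trans ?_ h3B
    rw [hN]
    exact dvd_mul_of_dvd_left (pow_dvd_pow 3 he) _
  rw [pow_succ, mul_comm] at h4
  exact Nat.dvd_of_mul_dvd_mul_left (by norm_num) h4

lemma two_pow_three_pow (j : ℕ) : 3 ^ (j + 1) ∣ 2 ^ (3 ^ j) + 1 := by
  induction j with
  | zero => norm_num
  | succ j ih =>
    have h3 : 3 ∣ 2 ^ (3 ^ j) + 1 := (dvd_pow_self 3 (Nat.succ_ne_zero j)).trans ih
    have hpos : 0 < 2 ^ (3 ^ j) := by positivity
    obtain ⟨v, hv⟩ : ∃ v, 2 ^ (3 ^ j) = 3 * v + 2 := ⟨(2 ^ (3 ^ j) - 2) / 3, by omega⟩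
    have : 2 ^ (3 ^ (j + 1)) + 1 = (2 ^ (3 ^ j) + 1) * (3 * v ^ 2 + 3 * v + 1) * 3 := by
      rw [pow_succ 3 j, pow_mul, hv]; ring
    rw [this, pow_succ 3 (j + 1)]
    exact mul_dvd_mul (dvd_mul_of_dvd_left ih _) (dvd_refl 3)

/-- the arithmetic description of the recurrence set -/
def T (w : ℂ) : Set (ℕ × ℕ) := {p | ∃ x : ℂ, x ^ (2 ^ p.1 + 1) = w ∧ x ^ (2 ^ p.2 + 1) = w}

lemma mem_T (w : ℂ) (hw : IsPrimitiveRoot w 3) (j i : ℕ) :
    (3 ^ j, 3 ^ j * (1 + 6 * i)) ∈ T w := by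
  obtain ⟨x, hx⟩ := IsAlgClosed.exists_pow_nat_eq w (n := 2 ^ (3 ^ j) + 1) (by positivity)
  refine ⟨x, hx, ?_⟩
  have h3 : 3 ∣ 2 ^ (3 ^ j) + 1 :=
    (dvd_pow_self 3 (Nat.succ_ne_zero j)).trans (two_pow_three_pow j)
  have hpos : 0 < 2 ^ (3 ^ j) := by positivity
  obtain ⟨v, hv⟩ : ∃ v, 2 ^ (3 ^ j) = 3 * v + 2 := ⟨(2 ^ (3 ^ j) - 2) / 3, by omega⟩
  simp only
  rw [pow_mul, hv]
  rw [hv] at hx
  have hone : x ^ ((3 * v + 2 + 1) * 3) = 1 := by rw [pow_mul, hx, hw.pow_eq_one]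
  have h6 : ∀ y : ℕ, x ^ (y * (3 * v + 2) ^ 6) = x ^ y := by
    intro y
    have : y * (3 * v + 2) ^ 6 = y + ((3 * v + 2 + 1) * 3) *
        (y * (3 * v ^ 2 + 3 * v + 1) * (27 * v ^ 3 + 54 * v ^ 2 + 36 * v + 7)) := by ring
    rw [this, pow_add, pow_mul, hone, one_pow, mul_one]
  have hi : ∀ i : ℕ, x ^ ((3 * v + 2) ^ (1 + 6 * i)) = x ^ (3 * v + 2) := by
    intro i
    induction i with
    | zero => simp
    | succ i ih =>
      have : (3 * v + 2) ^ (1 + 6 * (i + 1)) = (3 * v + 2) ^ (1 + 6 * i) * (3 * v + 2) ^ 6 := by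
        rw [← pow_add]; congr 1
      rw [this, h6, ih]
  rw [pow_succ, hi, ← pow_succ, hx]

lemma not_both (w : ℂ) (hw : IsPrimitiveRoot w 3) (j n q : ℕ) (hq : 0 < q) (hqj : q ≤ j)
    (h1 : (3 ^ j, n) ∈ T w) (h2 : (3 ^ j, n + q) ∈ T w) : False := by
  obtain ⟨x, hx1, hx2⟩ := h1
  obtain ⟨y, hy1, hy2⟩ := h2
  have d1 := three_pow_dvd x w hw _ _ (j + 1) hx1 hx2 (two_pow_three_pow j)
  have d2 := three_pow_dvd y w hw _ _ (j + 1) hy1 hy2 (two_pow_three_pow j)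
  simp only at d1 d2
  have hpos : 1 ≤ 2 ^ q := Nat.one_le_two_pow
  obtain ⟨r, hr⟩ : ∃ r, 2 ^ q = r + 1 := ⟨2 ^ q - 1, by omega⟩
  have e : 2 ^ (n + q) + 1 = (2 ^ n + 1) + 2 ^ n * r := by rw [pow_add, hr]; ring
  rw [e] at d2
  have d3 : 3 ^ (j + 1) ∣ 2 ^ n * r := (Nat.dvd_add_right d1).1 d2
  have d4 : 3 ^ (j + 1) ∣ r :=
    (Nat.Coprime.pow (j + 1) n (by norm_num : Nat.Coprime 3 2)).dvd_of_dvd_mul_left d3
  have hr0 : 0 < r := by
    have : 2 ^ 1 ≤ 2 ^ q := Nat.pow_le_pow_right (by norm_num) hq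
    omega
  have h5 := Nat.le_of_dvd hr0 d4
  have h6 : 2 ^ q ≤ 2 ^ (j + 1) := Nat.pow_le_pow_right (by norm_num) (by omega)
  have h7 : 2 ^ (j + 1) ≤ 3 ^ (j + 1) := Nat.pow_le_pow_left (by norm_num) _
  omega

theorem T_not_semilinear (w : ℂ) (hw : IsPrimitiveRoot w 3) : ¬ IsSemilinearSet (T w) := by
  rintro ⟨S, hS, hlin, hT⟩
  choose! a P hP hEq using hlin
  have hfin : (⋃ t ∈ S, (insert (a t) (P t))).Finite :=
    hS.biUnion (fun t ht => (hP t ht).insert _)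
  obtain ⟨Q, hQ⟩ := (hfin.image Prod.snd).bddAbove
  have hQ' : ∀ t ∈ S, ∀ p ∈ insert (a t) (P t), p.2 ≤ Q := by
    intro t ht p hp
    exact hQ ⟨p, Set.mem_biUnion ht hp, rfl⟩
  have hmem := mem_T w hw Q (Q + Q * 3 ^ Q)
  rw [hT] at hmem
  obtain ⟨t, ht, hx⟩ := hmem
  have hx' := hx
  rw [hEq t ht] at hx'
  obtain ⟨y, hy, hxy⟩ := hx'
  simp only [vadd_eq_add] at hxy
  by_cases hgen : ∃ p ∈ P t, p.1 = 0 ∧ 0 < p.2
  · obtain ⟨p, hp, hp1, hp2⟩ := hgen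
    have hx2 : (3 ^ Q, 3 ^ Q * (1 + 6 * (Q + Q * 3 ^ Q)) + p.2) ∈ t := by
      rw [hEq t ht]
      refine ⟨y + p, AddSubmonoid.add_mem _ hy (AddSubmonoid.subset_closure hp), ?_⟩
      simp only [vadd_eq_add]
      rw [← add_assoc, hxy]
      ext
      · simp [hp1]
      · simp
    refine not_both w hw Q (3 ^ Q * (1 + 6 * (Q + Q * 3 ^ Q))) p.2 hp2 (hQ' t ht p (Set.mem_insert_of_mem _ hp)) ?_ ?_
    · rw [hT]; exact ⟨t, ht, hx⟩
    · rw [hT]; exact ⟨t, ht, hx2⟩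
  · push Not at hgen
    have hb : ∀ z ∈ AddSubmonoid.closure (P t), z.2 ≤ Q * z.1 := by
      intro z hz
      induction hz using AddSubmonoid.closure_induction with
      | mem p hp =>
        have h1 := hQ' t ht p (Set.mem_insert_of_mem _ hp)
        rcases Nat.eq_zero_or_pos p.1 with h0 | h0
        · have := hgen p hp h0
          omega
        · nlinarith
      | zero => simp
      | add u v _ _ hu hv =>
        simp only [Prod.fst_add, Prod.snd_add]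
        nlinarith
    have h1 := hb y hy
    have h2 := hQ' t ht (a t) (Set.mem_insert _ _)
    have e1 := congrArg Prod.fst hxy
    have e2 := congrArg Prod.snd hxy
    simp only [Prod.fst_add, Prod.snd_add] at e1 e2
    have h3 : 1 ≤ 3 ^ Q := Nat.one_le_pow _ _ (by norm_num)
    have h4 : Q * y.1 ≤ Q * 3 ^ Q := Nat.mul_le_mul_left _ (by omega)
    nlinarith

lemma act_sq_some (z : ℂ) :
    act (algebraMap ℂ[X] (RatFunc ℂ) (X ^ 2)) (OnePoint.some z) = OnePoint.some (z ^ 2) := by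
  unfold act
  rw [OnePoint.elim_some, RatFunc.num_algebraMap, RatFunc.denom_algebraMap]
  simp

lemma act_sq_infty :
    act (algebraMap ℂ[X] (RatFunc ℂ) (X ^ 2)) OnePoint.infty = OnePoint.infty := by
  unfold act
  rw [OnePoint.elim_infty, RatFunc.num_algebraMap, RatFunc.denom_algebraMap]
  simp

lemma iter_some (m : ℕ) (z : ℂ) :
    (act (algebraMap ℂ[X] (RatFunc ℂ) (X ^ 2)))^[m] (OnePoint.some z) =
      OnePoint.some (z ^ (2 ^ m)) := by
  induction m with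
  | zero => simp
  | succ m ih => rw [Function.iterate_succ_apply', ih, act_sq_some, ← pow_mul, ← pow_succ]

lemma iter_infty (m : ℕ) :
    (act (algebraMap ℂ[X] (RatFunc ℂ) (X ^ 2)))^[m] OnePoint.infty = OnePoint.infty :=
  Function.iterate_fixed act_sq_infty m

lemma deg_sq : deg (algebraMap ℂ[X] (RatFunc ℂ) (X ^ 2)) = 2 := by
  unfold deg
  rw [RatFunc.num_algebraMap, RatFunc.denom_algebraMap]
  simp

lemma cop (w : ℂ) (hw : w ≠ 0) : IsCoprime (C w : ℂ[X]) X :=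
  ⟨C w⁻¹, 0, by rw [← C_mul, inv_mul_cancel₀ hw]; simp⟩

theorem set_eq (w : ℂ) (hw : w ≠ 0) :
    {p : ℕ × ℕ | ∃ x : OnePoint ℂ,
      act (algebraMap ℂ[X] (RatFunc ℂ) (C w) / algebraMap ℂ[X] (RatFunc ℂ) X) x =
        (act (algebraMap ℂ[X] (RatFunc ℂ) (X ^ 2)))^[p.1] x ∧
      (act (algebraMap ℂ[X] (RatFunc ℂ) (X ^ 2)))^[p.1] x =
        (act (algebraMap ℂ[X] (RatFunc ℂ) (X ^ 2)))^[p.2] x} = T w := by
  obtain ⟨hn, hd⟩ := num_denom_div (C w) X (cop w hw) monic_X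
  have hinf : act (algebraMap ℂ[X] (RatFunc ℂ) (C w) / algebraMap ℂ[X] (RatFunc ℂ) X)
      OnePoint.infty = OnePoint.some 0 := by
    unfold act
    rw [OnePoint.elim_infty, hn, hd]
    simp
  have hsome : ∀ z : ℂ, act (algebraMap ℂ[X] (RatFunc ℂ) (C w) / algebraMap ℂ[X] (RatFunc ℂ) X)
      (OnePoint.some z) = if z = 0 then OnePoint.infty else OnePoint.some (w / z) := by
    intro z
    unfold act
    rw [OnePoint.elim_some, hn, hd]
    simp
  ext ⟨m, n⟩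
  simp only [T, Set.mem_ofPred_eq]
  constructor
  · rintro ⟨x, h1, h2⟩
    induction x using OnePoint.rec with
    | infty =>
      rw [hinf, iter_infty] at h1
      exact absurd h1 (OnePoint.coe_ne_infty _)
    | coe z =>
      rw [iter_some, iter_some] at h2
      rw [hsome, iter_some] at h1
      split_ifs at h1 with hz
      · exact absurd h1 (OnePoint.infty_ne_coe _)
      · have e1 : w / z = z ^ 2 ^ m := OnePoint.coe_injective h1
        have e2 : z ^ 2 ^ m = z ^ 2 ^ n := OnePoint.coe_injective h2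
        rw [div_eq_iff hz] at e1
        exact ⟨z, by rw [pow_succ, e1], by rw [pow_succ, ← e2, e1]⟩
  · rintro ⟨z, h1, h2⟩
    have hz : z ≠ 0 := by
      rintro rfl
      rw [pow_succ, mul_zero] at h1
      exact hw h1.symm
    refine ⟨OnePoint.some z, ?_, ?_⟩
    · rw [hsome, iter_some, if_neg hz]
      congr 1
      rw [div_eq_iff hz, ← pow_succ, h1]
    · rw [iter_some, iter_some]
      congr 1
      rw [pow_succ] at h1 h2
      exact mul_right_cancel₀ hz (h1.trans h2.symm)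

end Pool.Agent.H49.Semilin
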