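import Mathlib

set_option autoImplicit false

namespace Pool.Agent.H49.Shaf

open Polynomial

abbrev E := ℂ[X] × ℂ[X]

/-- polynomial functions of the coefficients of a pair of polynomials -/
inductive IsPoly : (E → ℂ) → Prop
  | const (c : ℂ) : IsPoly (fun _ => c)
  | fst (i : ℕ) : IsPoly (fun z => z.1.coeff i)
  | snd (i : ℕ) : IsPoly (fun z => z.2.coeff i)
  | add (f g : E → ℂ) : IsPoly f → IsPoly g → IsPoly (fun z => f z + g z)
  | mul (f g : E → ℂ) : IsPoly f → IsPoly g → IsPoly (fun z => f z * g z)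

def cl (S : Set E) : Set E := {z | ∀ f, IsPoly f → (∀ s ∈ S, f s = 0) → f z = 0}

lemma subset_cl (S : Set E) : S ⊆ cl S := fun z hz _ _ h => h z hz

lemma IsPoly.line {f : E → ℂ} (hf : IsPoly f) (u₁ u₂ v₁ v₂ : ℂ[X]) :
    ∃ q : ℂ[X], ∀ t : ℂ, f (u₁ + C t * v₁, u₂ + C t * v₂) = q.eval t := by
  induction hf with
  | const c => exact ⟨C c, fun t => by simp⟩
  | fst i => exact ⟨C (u₁.coeff i) + X * C (v₁.coeff i), fun t => by
      simp only [eval_add, eval_mul, eval_C, eval_X, coeff_add, coeff_C_mul]⟩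
  | snd i => exact ⟨C (u₂.coeff i) + X * C (v₂.coeff i), fun t => by
      simp only [eval_add, eval_mul, eval_C, eval_X, coeff_add, coeff_C_mul]⟩
  | add f g _ _ hf hg =>
    obtain ⟨p, hp⟩ := hf
    obtain ⟨q, hq⟩ := hg
    exact ⟨p + q, fun t => by simp [hp, hq]⟩
  | mul f g _ _ hf hg =>
    obtain ⟨p, hp⟩ := hf
    obtain ⟨q, hq⟩ := hg
    exact ⟨p * q, fun t => by simp [hp, hq]⟩

lemma line (S : Set E) (u₁ u₂ v₁ v₂ : ℂ[X]) (T : Set ℂ) (hT : T.Infinite)
    (h : ∀ t ∈ T, (u₁ + C t * v₁, u₂ + C t * v₂) ∈ cl S) (t : ℂ) :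
    (u₁ + C t * v₁, u₂ + C t * v₂) ∈ cl S := by
  intro f hf hS
  obtain ⟨q, hq⟩ := hf.line u₁ u₂ v₁ v₂
  have : q = 0 := by
    apply Polynomial.eq_zero_of_infinite_isRoot
    refine hT.mono (fun t ht => ?_)
    have := h t ht f hf hS
    rwa [hq] at this
  rw [hq, this, eval_zero]

noncomputable def Psi (a b : ℂ) (z : E) : E := ((C a * X + C b) * z.1 + z.2, z.1)

lemma IsPoly.comp_Psi {f : E → ℂ} (hf : IsPoly f) (a b : ℂ) : IsPoly (fun z => f (Psi a b z)) := by
  induction hf with
  | const c => exact .const c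
  | fst i =>
    rcases i with _ | i
    · have : (fun z : E => (Psi a b z).1.coeff 0) = fun z => b * z.1.coeff 0 + z.2.coeff 0 := by
        funext z; simp [Psi]
      rw [this]
      exact .add _ _ (.mul _ _ (.const b) (.fst 0)) (.snd 0)
    · have : (fun z : E => (Psi a b z).1.coeff (i + 1)) =
          fun z => (a * z.1.coeff i + b * z.1.coeff (i + 1)) + z.2.coeff (i + 1) := by
        funext z; simp [Psi, add_mul, mul_assoc, coeff_X_mul]
      rw [this]
      exact .add _ _ (.add _ _ (.mul _ _ (.const a) (.fst _)) (.mul _ _ (.const b) (.fst _)))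
        (.snd _)
  | snd i => exact .fst i
  | add f g _ _ hf hg => exact .add _ _ hf hg
  | mul f g _ _ hf hg => exact .mul _ _ hf hg

lemma Psi_cl (S S' : Set E) (a b : ℂ) (h : ∀ s ∈ S, Psi a b s ∈ S') (z : E) (hz : z ∈ cl S) :
    Psi a b z ∈ cl S' :=
  fun _ hf hS => hz _ (hf.comp_Psi a b) (fun s hs => hS _ (h s hs))

/-- the integral condition carried through the continued fraction expansion -/
def Good (n : ℕ) (B D : ℤ[X]) : Prop :=
  B.natDegree ≤ n ∧ (∃ j : ℕ, B.coeff n = 2 ^ j) ∧ D.degree < n ∧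
    ∃ (U V : ℤ[X]) (k : ℕ), U * B + V * D = C (2 ^ k)

def V (n : ℕ) : Set E :=
  {z | ∃ B D : ℤ[X], Good n B D ∧ z = (B.map (Int.castRingHom ℂ), D.map (Int.castRingHom ℂ))}

lemma Good.step {n : ℕ} {B D : ℤ[X]} (h : Good n B D) (j : ℕ) (b : ℤ) :
    Good (n + 1) ((C (2 ^ j) * X + C b) * B + D) B := by
  obtain ⟨h1, ⟨i, h2⟩, h3, U, W, k, h4⟩ := h
  have hD : D.natDegree ≤ n := natDegree_le_of_degree_le h3.le
  refine ⟨?_, ⟨j + i, ?_⟩, ?_, W, U - W * (C (2 ^ j) * X + C b), k, by rw [← h4]; ring⟩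
  · refine (natDegree_add_le _ _).trans (max_le ?_ (by omega))
    refine natDegree_mul_le.trans ?_
    have : (C (2 ^ j) * X + C b : ℤ[X]).natDegree ≤ 1 := natDegree_linear_le
    omega
  · have e1 : B.coeff (n + 1) = 0 := coeff_eq_zero_of_natDegree_lt (by omega)
    have e2 : D.coeff (n + 1) = 0 := coeff_eq_zero_of_natDegree_lt (by omega)
    rw [add_mul, mul_assoc, coeff_add, coeff_add, coeff_C_mul, coeff_C_mul, coeff_X_mul, e1, e2, h2,
      pow_add]
    ring
  · refine lt_of_le_of_lt (degree_le_of_natDegree_le h1) ?_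
    exact_mod_cast Nat.lt_succ_self n

lemma inf_pow : (Set.range (fun j : ℕ => (2 : ℂ) ^ j)).Infinite := by
  apply Set.infinite_range_of_injective
  intro i j h
  have h' : (2 : ℂ) ^ i = 2 ^ j := h
  have : (2 : ℕ) ^ i = 2 ^ j := by exact_mod_cast h'
  exact Nat.pow_right_injective le_rfl this

lemma inf_int : (Set.range (fun j : ℤ => (j : ℂ))).Infinite :=
  Set.infinite_range_of_injective Int.cast_injective

lemma inf_ne (c : ℂ) : ({t : ℂ | t ≠ c}).Infinite := (Set.finite_singleton c).infinite_compl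

lemma deg_div (A B : ℂ[X]) (hB : B ≠ 0) :
    B.natDegree + (A / B).natDegree ≤ max A.natDegree B.natDegree := by
  by_cases h0 : A / B = 0
  · simp [h0]
  · rw [← natDegree_mul hB h0]
    have h1 : B * (A / B) = A - A % B := by
      have := EuclideanDomain.div_add_mod A B
      linear_combination this
    rw [h1]
    refine (natDegree_sub_le _ _).trans (max_le_max le_rfl ?_)
    exact natDegree_le_natDegree (degree_mod_lt A hB).le

lemma fill (S : Set E) (n : ℕ) (A : ℂ[X])
    (h : ∀ B : ℂ[X], B.natDegree ≤ n → B.coeff n ≠ 0 → (A, B) ∈ cl S) (B : ℂ[X])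
    (hB : B.natDegree ≤ n) : (A, B) ∈ cl S := by
  have := line S A B 0 (X ^ n) _ (inf_ne (-B.coeff n)) (fun t ht => by
    rw [mul_zero, add_zero]
    apply h
    · refine (natDegree_add_le _ _).trans (max_le hB ?_)
      exact natDegree_C_mul_X_pow_le _ _
    · simp only [coeff_add, coeff_C_mul, coeff_X_pow, if_true, mul_one]
      intro h0
      exact ht (by linear_combination h0)) 0
  simpa using this

theorem dense_V (n : ℕ) : ∀ B D : ℂ[X], B.natDegree ≤ n → D.degree < n → (B, D) ∈ cl (V n) := by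
  induction n with
  | zero =>
    intro B D hB hD
    have hD0 : D = 0 := by simpa using hD
    have hB0 : B = C (B.coeff 0) := eq_C_of_natDegree_le_zero hB
    have := line (V 0) 0 0 1 0 _ inf_pow (by
      rintro _ ⟨j, rfl⟩
      apply subset_cl
      refine ⟨C (2 ^ j), 0, ⟨(natDegree_C _).le, ⟨j, coeff_C_zero⟩, by simp, 1, 0, j, by simp⟩, ?_⟩
      rw [map_C]
      simp) (B.coeff 0)
    rw [hD0, hB0]
    simpa using this
  | succ n ih =>
    have h1 : ∀ (B D : ℂ[X]), B.natDegree ≤ n → D.degree < n → ∀ a b : ℂ,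
        ((C a * X + C b) * B + D, B) ∈ cl (V (n + 1)) := by
      intro B D hB hD a b
      have h2 : ∀ (j : ℕ) (b : ℤ), ((C ((2 : ℂ) ^ j) * X + C (b : ℂ)) * B + D, B) ∈
          cl (V (n + 1)) := by
        intro j b
        refine Psi_cl (V n) (V (n + 1)) ((2 : ℂ) ^ j) (b : ℂ) ?_ (B, D) (ih B D hB hD)
        rintro _ ⟨B', D', hg, rfl⟩
        refine ⟨_, _, hg.step j b, ?_⟩
        simp only [Psi, Polynomial.map_add, Polynomial.map_mul, map_C, map_X]
        simp
      have h3 : ∀ (j : ℕ) (b : ℂ), ((C ((2 : ℂ) ^ j) * X + C b) * B + D, B) ∈ cl (V (n + 1)) := by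
        intro j b
        have := line (V (n + 1)) (C ((2 : ℂ) ^ j) * X * B + D) B B 0 _ inf_int (by
          rintro _ ⟨b, rfl⟩
          convert h2 j b using 2 <;> ring) b
        convert this using 2 <;> ring
      have := line (V (n + 1)) (C b * B + D) B (X * B) 0 _ inf_pow (by
        rintro _ ⟨j, rfl⟩
        convert h3 j b using 2 <;> ring) a
      convert this using 2 <;> ring
    intro A B hA hB
    have hB' : B.natDegree ≤ n := by
      by_cases h0 : B = 0
      · simp [h0]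
      · have := (natDegree_lt_iff_degree_lt h0).2 hB
        omega
    refine fill _ n A (fun B hB hc => ?_) B hB'
    have hn : B.natDegree = n := natDegree_eq_of_le_of_coeff_ne_zero hB hc
    have hB0 : B ≠ 0 := by rintro rfl; simp at hc
    have hq : (A / B).natDegree ≤ 1 := by
      have := deg_div A B hB0
      omega
    have hr : (A % B).degree < n := by
      rw [← hn, ← degree_eq_natDegree hB0]
      exact degree_mod_lt A hB0
    have := h1 B (A % B) hB hr ((A / B).coeff 1) ((A / B).coeff 0)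
    rw [← eq_X_add_C_of_natDegree_le_one hq, mul_comm, EuclideanDomain.div_add_mod] at this
    exact this

/-- integral pairs whose resultant is divisible by no odd prime -/
def G (d : ℕ) : Set E :=
  {z | ∃ F H : ℤ[X], F.natDegree ≤ d ∧ H.natDegree ≤ d ∧
    (∀ p : ℕ, p.Prime → p ≠ 2 → ¬ (p : ℤ) ∣ resultant F H d d) ∧
    z = (F.map (Int.castRingHom ℂ), H.map (Int.castRingHom ℂ))}

lemma Good.res {d : ℕ} {B D : ℤ[X]} (h : Good d B D) (b : ℤ) (p : ℕ) (hp : p.Prime)
    (hp2 : p ≠ 2) : ¬ (p : ℤ) ∣ resultant (C b * B + D) B d d := by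
  obtain ⟨h1, ⟨i, h2⟩, h3, U, W, k, h4⟩ := h
  have hD : D.natDegree ≤ d := natDegree_le_of_degree_le h3.le
  have := Fact.mk hp
  have h2ne : (2 : ZMod p) ≠ 0 := by
    intro h0
    have : ((2 : ℕ) : ZMod p) = 0 := by exact_mod_cast h0
    rw [ZMod.natCast_eq_zero_iff] at this
    exact hp2 ((Nat.prime_dvd_prime_iff_eq hp Nat.prime_two).1 this)
  rw [← ZMod.intCast_zmod_eq_zero_iff_dvd]
  have e := resultant_map_map (C b * B + D) B d d (Int.castRingHom (ZMod p))
  change ¬ (Int.castRingHom (ZMod p)) (resultant (C b * B + D) B d d) = 0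
  rw [← e]
  set F' := (C b * B + D).map (Int.castRingHom (ZMod p)) with hF'
  set B' := B.map (Int.castRingHom (ZMod p)) with hB'
  have hc : B'.coeff d ≠ 0 := by
    rw [hB', coeff_map, h2]
    simpa using pow_ne_zero i h2ne
  have hBd : B'.natDegree = d :=
    natDegree_eq_of_le_of_coeff_ne_zero (natDegree_map_le.trans h1) hc
  have hFd : F'.natDegree ≤ d := by
    refine natDegree_map_le.trans ((natDegree_add_le _ _).trans (max_le ?_ hD))
    exact (natDegree_C_mul_le _ _).trans h1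
  have hcop : IsCoprime F' B' := by
    have h5 : W * (C b * B + D) + (U - W * C b) * B = C (2 ^ k) := by rw [← h4]; ring
    have h6 := congrArg (Polynomial.map (Int.castRingHom (ZMod p))) h5
    rw [Polynomial.map_add, Polynomial.map_mul, Polynomial.map_mul, map_C, ← hF', ← hB'] at h6
    have hu : (Int.castRingHom (ZMod p)) (2 ^ k) ≠ 0 := by simpa using pow_ne_zero k h2ne
    refine ⟨C ((Int.castRingHom (ZMod p)) (2 ^ k))⁻¹ * W.map (Int.castRingHom (ZMod p)),
      C ((Int.castRingHom (ZMod p)) (2 ^ k))⁻¹ * (U - W * C b).map (Int.castRingHom (ZMod p)), ?_⟩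
    rw [mul_assoc, mul_assoc, ← mul_add, h6, ← C_mul, inv_mul_cancel₀ hu, C_1]
  obtain ⟨m, hm⟩ := Nat.exists_eq_add_of_le hFd
  have h7 := resultant_add_left_deg F' B' F'.natDegree d m le_rfl
  rw [← hm] at h7
  rw [h7]
  have h8 := resultant_ne_zero F' B' hcop
  rw [hBd] at h8
  exact mul_ne_zero (mul_ne_zero (pow_ne_zero _ (by simp)) (pow_ne_zero _ hc)) h8

theorem dense_G (d : ℕ) (F H : ℂ[X]) (hF : F.natDegree ≤ d) (hH : H.natDegree ≤ d) :
    (F, H) ∈ cl (G d) := by
  refine fill _ d F (fun B hB hc => ?_) H hH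
  have hn : B.natDegree = d := natDegree_eq_of_le_of_coeff_ne_zero hB hc
  have hB0 : B ≠ 0 := by rintro rfl; simp at hc
  have hq : (F / B).natDegree ≤ 0 := by
    have := deg_div F B hB0
    omega
  have hr : (F % B).degree < d := by
    rw [← hn, ← degree_eq_natDegree hB0]
    exact degree_mod_lt F hB0
  have h2 : ∀ b : ℤ, (F % B + C (b : ℂ) * B, B + C (b : ℂ) * 0) ∈ cl (G d) := by
    intro b
    have := Psi_cl (V d) (G d) 0 (b : ℂ) (by
      rintro _ ⟨B', D', hg, rfl⟩
      refine ⟨C b * B' + D', B', ?_, hg.1, hg.res b, ?_⟩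
      · refine (natDegree_add_le _ _).trans (max_le ?_ (natDegree_le_of_degree_le hg.2.2.1.le))
        exact (natDegree_C_mul_le _ _).trans hg.1
      · simp [Psi]) _ (dense_V d B (F % B) hB hr)
    simpa [Psi, add_comm] using this
  have := line (G d) (F % B) B B 0 _ inf_int (by rintro _ ⟨b, rfl⟩; exact h2 b) ((F / B).coeff 0)
  rw [← eq_C_of_natDegree_le_zero hq, mul_zero, add_zero, add_comm, mul_comm,
    EuclideanDomain.div_add_mod] at this
  exact this

lemma isPoly_eval (d : ℕ) (P : MvPolynomial (Fin (d + 1) ⊕ Fin (d + 1)) ℂ) :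
    IsPoly (fun z => MvPolynomial.eval
      (Sum.elim (fun i : Fin (d + 1) => z.1.coeff i) (fun i : Fin (d + 1) => z.2.coeff i)) P) := by
  induction P using MvPolynomial.induction_on with
  | C a => simpa using IsPoly.const a
  | add p q hp hq => simpa using IsPoly.add _ _ hp hq
  | mul_X p i hp =>
    rcases i with i | i
    · simpa using IsPoly.mul _ _ hp (.fst i)
    · simpa using IsPoly.mul _ _ hp (.snd i)

theorem main (d : ℕ) (P : MvPolynomial (Fin (d + 1) ⊕ Fin (d + 1)) ℂ)
    (hP : ∀ F H : ℤ[X], F.natDegree ≤ d → H.natDegree ≤ d →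
      (∀ p : ℕ, p.Prime → p ≠ 2 → ¬ (p : ℤ) ∣ resultant F H d d) →
      MvPolynomial.eval (Sum.elim (fun i : Fin (d + 1) => ((F.coeff i : ℤ) : ℂ))
        (fun i : Fin (d + 1) => ((H.coeff i : ℤ) : ℂ))) P = 0) : P = 0 := by
  apply MvPolynomial.funext
  intro x
  have hdeg : ∀ y : Fin (d + 1) → ℂ, (∑ i : Fin (d + 1), monomial (i : ℕ) (y i)).natDegree ≤ d := by
    intro y
    refine natDegree_sum_le_of_forall_le _ _ (fun i _ => (natDegree_monomial_le _).trans ?_)
    omega
  have hco : ∀ (y : Fin (d + 1) → ℂ) (j : Fin (d + 1)),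
      (∑ i : Fin (d + 1), monomial (i : ℕ) (y i)).coeff j = y j := by
    intro y j
    rw [finsetSum_coeff, Finset.sum_eq_single j]
    · simp
    · intro i _ hi
      rw [coeff_monomial, if_neg (fun h => hi (Fin.ext h))]
    · simp
  have := dense_G d _ _ (hdeg (fun i => x (Sum.inl i))) (hdeg (fun i => x (Sum.inr i))) _
    (isPoly_eval d P) (by
      rintro _ ⟨F, H, h1, h2, h3, rfl⟩
      simpa using hP F H h1 h2 h3)
  simp only [hco] at this
  rw [map_zero, ← this]
  congr 2
  funext i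
  rcases i with i | i <;> rfl

end Pool.Agent.H49.Shaf
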