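import Pool.Agent.H49.W14Defs

namespace Pool.Agent.H49.W14

abbrev O := ℤ√14

def pi : O := ⟨4, 1⟩
def ep : O := ⟨15, 4⟩
def ei : O := ⟨15, -4⟩

lemma ep_ei : ep * ei = 1 := by decide
lemma pi_sq : pi ^ 2 = 2 * ep := by decide
lemma two_eq : (2 : O) = pi ^ 2 * ei := by decide

lemma pi_dvd (a : O) : pi ∣ a ↔ 2 ∣ a.re := by
  constructor
  · rintro ⟨y, rfl⟩
    simp only [pi, Zsqrtd.re_mul]
    omega
  · rintro ⟨t, ht⟩
    refine ⟨⟨4 * t - 7 * a.im, 2 * a.im - t⟩, ?_⟩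
    ext
    · simp only [pi, Zsqrtd.re_mul]; omega
    · simp only [pi, Zsqrtd.im_mul]; omega

lemma odd_mul {a b : O} (ha : ¬ pi ∣ a) (hb : ¬ pi ∣ b) : ¬ pi ∣ a * b := by
  rw [pi_dvd] at *
  simp only [Zsqrtd.re_mul]
  intro h
  have h1 : (2:ℤ) ∣ a.re * b.re := by
    have : (2:ℤ) ∣ 14 * a.im * b.im := ⟨7 * a.im * b.im, by ring⟩
    exact (dvd_add_left this).mp h
  rcases Int.prime_two.dvd_or_dvd h1 with h | h
  · exact ha h
  · exact hb h

lemma norm_eq_zero' {a : O} (h : a.norm = 0) : a = 0 := by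
  have : ∀ n : ℤ, (14:ℤ) ≠ n * n := by
    intro n hn
    have h1 : n ≤ 3 := by nlinarith
    have h2 : -3 ≤ n := by nlinarith
    interval_cases n <;> omega
  exact (Zsqrtd.norm_eq_zero this a).mp h

lemma mul_ne {a b : O} (ha : a ≠ 0) (hb : b ≠ 0) : a * b ≠ 0 := by
  intro h
  have : (a * b).norm = 0 := by rw [h]; simp
  rw [Zsqrtd.norm_mul] at this
  rcases mul_eq_zero.mp this with h | h
  · exact ha (norm_eq_zero' h)
  · exact hb (norm_eq_zero' h)

lemma pi_ne : pi ≠ 0 := by decide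

lemma pow_ne (k : ℕ) : pi ^ k ≠ 0 := by
  induction k with
  | zero => simp
  | succ k ih => rw [pow_succ]; exact mul_ne ih pi_ne

lemma cancel {a x y : O} (ha : a ≠ 0) (h : a * x = a * y) : x = y := by
  by_contra hne
  exact mul_ne ha (sub_ne_zero.mpr hne) (by rw [mul_sub, h, sub_self])

lemma dvd_cancel {k : ℕ} {x y : O} (h : pi ^ k * x ∣ pi ^ k * y) : x ∣ y := by
  obtain ⟨t, ht⟩ := h
  exact ⟨t, cancel (pow_ne k) (by rw [ht]; ring)⟩

lemma dvd_of_odd (k : ℕ) {b : O} (hb : ¬ pi ∣ b) : ∀ {x : O}, pi ^ k ∣ x * b → pi ^ k ∣ x := by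
  induction k with
  | zero => intro x _; simp
  | succ k ih =>
    intro x h
    have h1 : pi ^ k ∣ x := ih ((pow_dvd_pow pi (Nat.le_succ k)).trans h)
    obtain ⟨y, rfl⟩ := h1
    rw [pow_succ, mul_assoc] at h
    have h2 := dvd_cancel h
    by_cases hy : pi ∣ y
    · rw [pow_succ]; exact mul_dvd_mul_left _ hy
    · exact absurd h2 (odd_mul hy hb)

lemma norm_pi_pow (k : ℕ) : (pi ^ k).norm = 2 ^ k := by
  induction k with
  | zero => simp
  | succ k ih => rw [pow_succ, Zsqrtd.norm_mul, ih, pow_succ]; rfl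

lemma exists_val {r : O} (hr : r ≠ 0) : ∃ k r', r = pi ^ k * r' ∧ ¬ pi ∣ r' := by
  have key : ∀ n : ℕ, ∀ r : O, r ≠ 0 → r.norm.natAbs ≤ n → ∃ k r', r = pi ^ k * r' ∧ ¬ pi ∣ r' := by
    intro n
    induction n with
    | zero =>
      intro r hr h
      exact absurd (norm_eq_zero' (by omega)) hr
    | succ n ih =>
      intro r hr h
      by_cases hp : pi ∣ r
      · obtain ⟨y, rfl⟩ := hp
        have hy : y ≠ 0 := by rintro rfl; simp at hr
        have hn : (pi * y).norm = 2 * y.norm := by rw [Zsqrtd.norm_mul]; rfl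
        have hy0 : y.norm ≠ 0 := fun h => hy (norm_eq_zero' h)
        obtain ⟨k, r', h1, h2⟩ := ih y hy (by omega)
        exact ⟨k + 1, r', by rw [h1]; ring, h2⟩
      · exact ⟨0, r, by simp, hp⟩
  exact key _ r hr le_rfl

lemma pI_eq : pI = Ideal.span {pi} := by
  apply le_antisymm
  · rw [pI, Ideal.span_le]
    intro x hx
    simp only [Set.mem_insert_iff, Set.mem_singleton_iff] at hx
    rcases hx with rfl | rfl
    · exact Ideal.mem_span_singleton.mpr ((pi_dvd _).mpr (by decide))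
    · exact Ideal.mem_span_singleton.mpr ((pi_dvd _).mpr (by decide))
  · rw [Ideal.span_le]
    intro x hx
    simp only [Set.mem_singleton_iff] at hx
    subst hx
    exact Ideal.mem_span_pair.mpr ⟨2, 1, by decide⟩

lemma pI_pow_dvd (k : ℕ) (r : O) : pI ^ k ∣ Ideal.span {r} ↔ pi ^ k ∣ r := by
  rw [pI_eq, Ideal.span_singleton_pow]
  constructor
  · intro h
    have := Ideal.le_of_dvd h
    exact Ideal.mem_span_singleton.mp (this (Ideal.mem_span_singleton_self r))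
  · rintro ⟨t, rfl⟩
    exact ⟨Ideal.span {t}, (Ideal.span_singleton_mul_span_singleton _ _).symm⟩

lemma wn_eq (c : ℝ) (k : ℕ) {r' : O} (h : ¬ pi ∣ r') :
    wn c (pi ^ k * r') = |((pi ^ k * r').norm : ℝ)| * (c / 2) ^ k := by
  unfold wn
  rw [multiplicity_eq_of_dvd_of_not_dvd (k := k)]
  · rw [pI_pow_dvd]; exact dvd_mul_right _ _
  · rw [pI_pow_dvd, pow_succ]; exact fun h' => h (dvd_cancel h')

lemma wn_le {c : ℝ} (hc : 2 ≤ c) {k : ℕ} {r : O} (h : ¬ pi ^ (k + 1) ∣ r) :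
    wn c r ≤ |(r.norm : ℝ)| * (c / 2) ^ k := by
  have hr : r ≠ 0 := by rintro rfl; exact h (dvd_zero _)
  obtain ⟨j, r', rfl, h'⟩ := exists_val hr
  rw [wn_eq c j h']
  have hj : j ≤ k := by
    by_contra hlt
    exact h ((pow_dvd_pow pi (by omega)).trans (dvd_mul_right _ _))
  exact mul_le_mul_of_nonneg_left (pow_le_pow_right₀ (by linarith) hj) (abs_nonneg _)

lemma wn_ge {c : ℝ} (hc : 2 ≤ c) {k : ℕ} {r : O} (hr : r ≠ 0) (h : pi ^ k ∣ r) :
    |(r.norm : ℝ)| * (c / 2) ^ k ≤ wn c r := by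
  obtain ⟨j, r', rfl, h'⟩ := exists_val hr
  rw [wn_eq c j h']
  have hj : k ≤ j := by
    by_contra hlt
    have h2 : pi ^ j * pi ∣ pi ^ j * r' := by
      rw [← pow_succ]; exact (pow_dvd_pow pi (by omega)).trans h
    exact h' (dvd_cancel h2)
  exact mul_le_mul_of_nonneg_left (pow_le_pow_right₀ (by linarith) hj) (abs_nonneg _)

lemma wn_zero (c : ℝ) : wn c 0 = 0 := by simp [wn]

lemma wn_two (c : ℝ) (r : O) : wn c (2 * r) = 4 * (c / 2) ^ 2 * wn c r := by
  by_cases hr : r = 0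
  · subst hr; simp [wn_zero]
  obtain ⟨j, r', rfl, h'⟩ := exists_val hr
  have h1 : ¬ pi ∣ ei * r' := odd_mul (by rw [pi_dvd]; decide) h'
  have h2 : 2 * (pi ^ j * r') = pi ^ (j + 2) * (ei * r') := by rw [two_eq]; ring
  have h3 : (2 * (pi ^ j * r')).norm = 4 * (pi ^ j * r').norm := by rw [Zsqrtd.norm_mul]; rfl
  rw [wn_eq c j h', h2, wn_eq c (j + 2) h1, ← h2, h3]
  push_cast
  rw [abs_mul]
  norm_num
  ring

lemma dvd_coords (k : ℕ) (a : O) :
    pi ^ k ∣ a ↔ (2:ℤ) ^ ((k + 1) / 2) ∣ a.re ∧ (2:ℤ) ^ (k / 2) ∣ a.im := by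
  induction k using Nat.strong_induction_on generalizing a with
  | _ k ih =>
    match k with
    | 0 => simp
    | 1 => simp [pi_dvd]
    | k + 2 =>
      have e1 : (k + 2 + 1) / 2 = (k + 1) / 2 + 1 := by omega
      have e2 : (k + 2) / 2 = k / 2 + 1 := by omega
      rw [e1, e2]
      constructor
      · rintro ⟨y, rfl⟩
        have h : pi ^ (k + 2) * y = 2 * (pi ^ k * (ep * y)) := by rw [pow_add, pi_sq]; ring
        obtain ⟨h1, h2⟩ := (ih k (by omega) (pi ^ k * (ep * y))).mp (dvd_mul_right _ _)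
        rw [h]
        constructor
        · have : (2 * (pi ^ k * (ep * y))).re = 2 * (pi ^ k * (ep * y)).re := by
            rw [Zsqrtd.re_mul (2 : O)]; simp
          rw [this, pow_succ']; exact mul_dvd_mul_left _ h1
        · have : (2 * (pi ^ k * (ep * y))).im = 2 * (pi ^ k * (ep * y)).im := by
            rw [Zsqrtd.im_mul (2 : O)]; simp
          rw [this, pow_succ']; exact mul_dvd_mul_left _ h2
      · rintro ⟨⟨s, hs⟩, ⟨t, ht⟩⟩
        have h : a = 2 * (⟨2 ^ ((k + 1) / 2) * s, 2 ^ (k / 2) * t⟩ : O) := by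
          ext
          · rw [Zsqrtd.re_mul (2 : O), hs]; simp; ring
          · rw [Zsqrtd.im_mul (2 : O), ht]; simp; ring
        obtain ⟨y, hy⟩ := (ih k (by omega) (⟨2 ^ ((k + 1) / 2) * s, 2 ^ (k / 2) * t⟩ : O)).mpr
          ⟨dvd_mul_right _ _, dvd_mul_right _ _⟩
        rw [h, hy, two_eq]
        exact ⟨ei * y, by ring⟩

lemma fin_range {c : ℝ} (hc : 2 ≤ c) (lam : ℝ) : (Set.range (wn c) ∩ Set.Icc 0 lam).Finite := by
  obtain ⟨n, hn⟩ := exists_nat_ge lam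
  refine Set.Finite.subset (Set.Finite.image (fun p : ℕ × ℕ => (p.1 : ℝ) * (c / 2) ^ p.2)
    ((Set.finite_Iic n).prod (Set.finite_Iic n))) ?_
  rintro x ⟨⟨r, rfl⟩, h0, h1⟩
  by_cases hr : r = 0
  · exact ⟨(0, 0), ⟨by simp, by simp⟩, by simp [hr, wn_zero]⟩
  obtain ⟨j, r', rfl, h'⟩ := exists_val hr
  have hr' : r'.norm ≠ 0 := fun h => h' (by rw [norm_eq_zero' h]; exact dvd_zero _)
  rw [wn_eq c j h'] at h1 ⊢
  have hN : |((pi ^ j * r').norm : ℝ)| = ((pi ^ j * r').norm.natAbs : ℝ) := by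
    rw [Nat.cast_natAbs]; push_cast; rfl
  have h2 : (1:ℝ) ≤ (c / 2) ^ j := one_le_pow₀ (by linarith)
  have h3 : ((pi ^ j * r').norm.natAbs : ℝ) ≤ n := by
    rw [← hN]; nlinarith [abs_nonneg ((pi ^ j * r').norm : ℝ)]
  have h4 : (pi ^ j * r').norm.natAbs ≤ n := by exact_mod_cast h3
  refine ⟨((pi ^ j * r').norm.natAbs, j), ⟨h4, ?_⟩, by simp only [hN]⟩
  have h5 : (pi ^ j * r').norm.natAbs = 2 ^ j * r'.norm.natAbs := by
    rw [Zsqrtd.norm_mul, norm_pi_pow, Int.natAbs_mul, Int.natAbs_pow]; rfl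
  have h6 : j < 2 ^ j := Nat.lt_two_pow_self
  have h7 : 1 ≤ r'.norm.natAbs := by omega
  show j ≤ n
  nlinarith

lemma wn_eq_zero {c : ℝ} (hc : 0 < c) (r : O) : wn c r = 0 ↔ r = 0 := by
  constructor
  · intro h
    unfold wn at h
    rcases mul_eq_zero.mp h with h | h
    · exact norm_eq_zero' (by exact_mod_cast abs_eq_zero.mp h)
    · exact absurd h (by positivity)
  · rintro rfl; exact wn_zero c

lemma wn_nonneg {c : ℝ} (hc : 0 < c) (r : O) : 0 ≤ wn c r := by unfold wn; positivity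

end Pool.Agent.H49.W14
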