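import Pool.Agent.H49.W14A

namespace Pool.Agent.H49.W14

noncomputable def s14 : ℝ := Real.sqrt 14
noncomputable def eu (a : O) : ℝ := a.re + a.im * s14
noncomputable def ew (a : O) : ℝ := a.re - a.im * s14

lemma s_sq : s14 * s14 = 14 := Real.mul_self_sqrt (by norm_num)
lemma s_pos : 0 < s14 := Real.sqrt_pos.mpr (by norm_num)

lemma eu_mul (a b : O) : eu (a * b) = eu a * eu b := by
  simp only [eu, Zsqrtd.re_mul, Zsqrtd.im_mul]; push_cast
  linear_combination (-(a.im : ℝ) * b.im) * s_sq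
lemma ew_mul (a b : O) : ew (a * b) = ew a * ew b := by
  simp only [ew, Zsqrtd.re_mul, Zsqrtd.im_mul]; push_cast
  linear_combination (-(a.im : ℝ) * b.im) * s_sq
lemma eu_sub (a b : O) : eu (a - b) = eu a - eu b := by
  simp only [eu, Zsqrtd.re_sub, Zsqrtd.im_sub]; push_cast; ring
lemma ew_sub (a b : O) : ew (a - b) = ew a - ew b := by
  simp only [ew, Zsqrtd.re_sub, Zsqrtd.im_sub]; push_cast; ring
lemma norm_uw (a : O) : (a.norm : ℝ) = eu a * ew a := by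
  simp only [eu, ew, Zsqrtd.norm]; push_cast
  linear_combination ((a.im : ℝ) * a.im) * s_sq

def ONE : ℕ := 2 ^ 80
def MM : ℕ := 2 ^ 32
def SL : ℕ := 4523386223022818649090962
def OFF : ℕ := MM * ONE + MM * SL
def RU : ℕ := 2 ^ 76
def RW : ℕ := 29 * 2 ^ 77
def TAB : ℕ := 9820323540667970576588284946398745457682721515740126505823258841673743473289928206712964391899489550283736236344630441461493575796261497427994208737689

lemma SL_le : (SL : ℝ) ≤ s14 * ONE := by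
  have h : (0:ℝ) ≤ s14 * ONE := by have := s_pos; positivity
  refine le_of_sq_le_sq ?_ h
  have : (s14 * ONE) ^ 2 = 14 * (ONE : ℝ) ^ 2 := by rw [mul_pow, sq s14, s_sq]
  rw [this]
  exact_mod_cast (by decide +kernel : SL ^ 2 ≤ 14 * ONE ^ 2)

lemma le_SL : s14 * ONE ≤ (SL : ℝ) + 1 := by
  refine le_of_sq_le_sq ?_ (by positivity)
  have : (s14 * ONE) ^ 2 = 14 * (ONE : ℝ) ^ 2 := by rw [mul_pow, sq s14, s_sq]
  rw [this]
  exact_mod_cast (by decide +kernel : 14 * ONE ^ 2 ≤ (SL + 1) ^ 2)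

def rk3 (p q dx dy : ℕ) : ℕ :=
  if p = 0 ∧ q = 0 then TAB / 16 ^ (8 * dx + dy) % 16
  else if p = 1 ∧ q = 1 ∧ dx = 0 ∧ dy = 0 then 4 else 9

def rkO (z l : O) : ℕ :=
  rk3 (l.re % 2).toNat (l.im % 2).toNat ((z.re - l.re) % 16).toNat ((z.im - l.im) % 8).toNat

structure Cell where
  ul : ℕ
  uh : ℕ
  wl : ℕ
  wh : ℕ
  zx : ℕ
  zy : ℕ
  k : ℕ
  lim : ℕ
  ap : ℕ
deriving DecidableEq

def dst (lo hi c : ℕ) : ℕ := max (hi - c) (c - lo) + MM

def leaf (ul uh wl wh zx zy k lim X Y t e : ℕ) : Bool :=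
  if t = 0 then
    decide (X % 2 = 1) && decide (Y % 2 = 1) && decide (e < k) &&
    !(decide (zx % 2 ^ ((e + 2) / 2) = X % 2 ^ ((e + 2) / 2)) &&
      decide (zy % 2 ^ ((e + 1) / 2) = Y % 2 ^ ((e + 1) / 2))) &&
    decide (dst ul uh (X * ONE + Y * SL) * dst wl wh (X * ONE + (2 * MM - Y) * SL) * 28 ^ e * 625
      < 4 * ONE * ONE * 784 * 25 ^ e)
  else
    decide (7 ≤ k) &&
    decide (rk3 (X % 2) (Y % 2) ((zx + 16 - X % 16) % 16) ((zy + 8 - Y % 8) % 8) < lim) &&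
    decide (dst ul uh (X * ONE + Y * SL) * 30 ^ e ≤ RU) &&
    decide (dst wl wh (X * ONE + (2 * MM - Y) * SL) * 10 ^ e ≤ RW * 299 ^ e)

def force {α : Type} (n : ℕ) (f : ℕ → α) : α :=
  match n with
  | 0 => f 0
  | k + 1 => f (k + 1)

lemma force_eq {α : Type} (n : ℕ) (f : ℕ → α) : force n f = f n := by cases n <;> rfl

def step : ℕ → ℕ → Cell → List Cell → Option (List Cell)
  | 0, _, _, _ => none
  | f + 1, e, ⟨ul, uh, wl, wh, zx, zy, k, lim, ap⟩, st =>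
    force (e / 4) fun p =>
    if e % 4 = 0 then force ((ul + uh) / 2) fun m =>
      step f p ⟨ul, m, wl, wh, zx, zy, k, lim, ap⟩ (⟨m, uh, wl, wh, zx, zy, k, lim, ap⟩ :: st)
    else if e % 4 = 1 then force ((wl + wh) / 2) fun m =>
      step f p ⟨ul, uh, wl, m, zx, zy, k, lim, ap⟩ (⟨ul, uh, m, wh, zx, zy, k, lim, ap⟩ :: st)
    else if e % 4 = 2 then
      (if ap = 1 then force (k + 1) fun k' =>
        force (if k % 2 = 0 then zx + 2 ^ (k / 2) else zx) fun x' =>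
        force (if k % 2 = 0 then zy else zy + 2 ^ (k / 2)) fun y' =>
        step f p ⟨ul, uh, wl, wh, zx, zy, k', lim, ap⟩ (⟨ul, uh, wl, wh, x', y', k', lim, ap⟩ :: st)
      else none)
    else if leaf ul uh wl wh zx zy k lim (p / 64 % 2 ^ 33) (p / 2 ^ 39 % 2 ^ 33) (p / 32 % 2) (p % 32)
      then some st else none

def run : List ℕ → List Cell → Option (List Cell)
  | [], st => some st
  | _ :: _, [] => none
  | e :: es, C :: st =>
    match step 200 e C st with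
    | none => none
    | some st' => run es st'

section
variable (β : ℕ) (b' : O)

noncomputable def UU (A : O) : ℝ := eu A / eu (pi ^ β * b')
noncomputable def WW (A : O) : ℝ := ew A / ew (pi ^ β * b')

def Bad (A : O) : Prop := (∀ l : O, l.re % 2 = 1 → l.im % 2 = 1 → A ≠ l * (pi ^ β * b')) ∧
  ∀ (l : O) (e : ℕ), l.re % 2 = 1 → l.im % 2 = 1 →
  ¬ pi ^ (β + e + 1) ∣ A - l * (pi ^ β * b') →
  4 * (28 / 25 : ℝ) ^ 2 ≤ |UU β b' A - eu l| * |WW β b' A - ew l| * (28 / 25) ^ e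

def Cl (A z : O) (k : ℕ) : Prop := pi ^ (β + k) ∣ A - z * (pi ^ β * b')

def St (n : ℕ) (x y : ℝ) : Prop := ∃ A z l : O, Bad β b' A ∧ Cl β b' A z 7 ∧ rkO z l = n ∧
  x = UU β b' A - eu l ∧ y = WW β b' A - ew l

def Low (lim : ℕ) : Prop := ∀ m < lim, ∀ (x y : ℝ) (j : ℕ), St β b' m x y → |x| * 30 ^ j ≤ 1 / 16 →
  |y| * 10 ^ j ≤ 29 / 8 * 299 ^ j → False

def ok (C : Cell) : Prop := ∀ A : O, Bad β b' A →
  (C.ul : ℝ) ≤ UU β b' A * ONE + OFF → UU β b' A * ONE + OFF ≤ C.uh →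
  (C.wl : ℝ) ≤ WW β b' A * ONE + OFF → WW β b' A * ONE + OFF ≤ C.wh →
  ((C.ap = 1 ∧ Cl β b' A ⟨C.zx, C.zy⟩ C.k) ∨ (C.ap ≠ 1 ∧ C.k ≤ 1 ∧ ¬ Cl β b' A 1 1)) →
  Low β b' C.lim → False

end

lemma dst_le {lo hi c : ℕ} {v c' : ℝ} (h1 : (lo : ℝ) ≤ v) (h2 : v ≤ hi) (h3 : |c' - c| ≤ MM) :
    |v - c'| ≤ dst lo hi c := by
  have a1 : (hi : ℝ) ≤ ((hi - c : ℕ) : ℝ) + c := by exact_mod_cast (by omega : hi ≤ hi - c + c)
  have a2 : (c : ℝ) ≤ ((c - lo : ℕ) : ℝ) + lo := by exact_mod_cast (by omega : c ≤ c - lo + lo)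
  have a3 : ((hi - c : ℕ) : ℝ) ≤ (max (hi - c) (c - lo) : ℕ) := by exact_mod_cast le_max_left _ _
  have a4 : ((c - lo : ℕ) : ℝ) ≤ (max (hi - c) (c - lo) : ℕ) := by exact_mod_cast le_max_right _ _
  rw [abs_le] at h3 ⊢
  unfold dst
  rw [Nat.cast_add]
  constructor <;> linarith [h3.1, h3.2]

lemma ONE_pos : (0 : ℝ) < ONE := by unfold ONE; positivity

lemma dist_u {X Y lo hi : ℕ} {u : ℝ} (hY : Y ≤ 2 * MM) (h1 : (lo : ℝ) ≤ u * ONE + OFF)
    (h2 : u * ONE + OFF ≤ hi) :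
    |u - eu ⟨(X : ℤ) - MM, (Y : ℤ) - MM⟩| * ONE ≤ dst lo hi (X * ONE + Y * SL) := by
  have hY' : (Y : ℝ) ≤ 2 * MM := by exact_mod_cast hY
  have h := dst_le (c := X * ONE + Y * SL) (c' := eu ⟨(X : ℤ) - MM, (Y : ℤ) - MM⟩ * ONE + OFF) h1 h2 (by
    have e : eu ⟨(X : ℤ) - MM, (Y : ℤ) - MM⟩ * ONE + OFF - ((X * ONE + Y * SL : ℕ) : ℝ)
        = ((Y : ℝ) - MM) * (s14 * ONE - SL) := by
      simp only [eu, OFF]; push_cast; ring
    rw [e, abs_mul]
    have b1 : |(Y : ℝ) - MM| ≤ MM := by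
      rw [abs_le]; constructor <;> linarith [Nat.cast_nonneg (α := ℝ) Y]
    have b2 : |s14 * ONE - SL| ≤ 1 := by rw [abs_le]; constructor <;> linarith [SL_le, le_SL]
    nlinarith [abs_nonneg ((Y : ℝ) - MM), abs_nonneg (s14 * ONE - SL)])
  have h0 : ∀ a b : ℝ, |a - b| * ONE = |a * ONE + OFF - (b * ONE + OFF)| := by
    intro a b
    rw [show a * ONE + OFF - (b * ONE + OFF) = (a - b) * ONE by ring, abs_mul, abs_of_pos ONE_pos]
  rw [h0]; exact h

lemma dist_w {X Y lo hi : ℕ} {u : ℝ} (hY : Y ≤ 2 * MM) (h1 : (lo : ℝ) ≤ u * ONE + OFF)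
    (h2 : u * ONE + OFF ≤ hi) :
    |u - ew ⟨(X : ℤ) - MM, (Y : ℤ) - MM⟩| * ONE ≤ dst lo hi (X * ONE + (2 * MM - Y) * SL) := by
  have hY' : (Y : ℝ) ≤ 2 * MM := by exact_mod_cast hY
  have h := dst_le (c := X * ONE + (2 * MM - Y) * SL)
    (c' := ew ⟨(X : ℤ) - MM, (Y : ℤ) - MM⟩ * ONE + OFF) h1 h2 (by
    have e : ew ⟨(X : ℤ) - MM, (Y : ℤ) - MM⟩ * ONE + OFF - ((X * ONE + (2 * MM - Y) * SL : ℕ) : ℝ)
        = -(((Y : ℝ) - MM) * (s14 * ONE - SL)) := by
      simp only [ew, OFF]; push_cast [Nat.cast_sub hY]; ring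
    rw [e, abs_neg, abs_mul]
    have b1 : |(Y : ℝ) - MM| ≤ MM := by
      rw [abs_le]; constructor <;> linarith [Nat.cast_nonneg (α := ℝ) Y]
    have b2 : |s14 * ONE - SL| ≤ 1 := by rw [abs_le]; constructor <;> linarith [SL_le, le_SL]
    nlinarith [abs_nonneg ((Y : ℝ) - MM), abs_nonneg (s14 * ONE - SL)])
  have h0 : ∀ a b : ℝ, |a - b| * ONE = |a * ONE + OFF - (b * ONE + OFF)| := by
    intro a b
    rw [show a * ONE + OFF - (b * ONE + OFF) = (a - b) * ONE by ring, abs_mul, abs_of_pos ONE_pos]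
  rw [h0]; exact h

lemma mod_of_dvd {z X a : ℕ} (ha : a ≤ 32) (h : (2:ℤ) ^ a ∣ ((X : ℤ) - MM) - z) : z % 2 ^ a = X % 2 ^ a := by
  have h1 : (2:ℤ) ^ a ∣ (MM : ℤ) := by
    unfold MM; push_cast; exact (pow_dvd_pow 2 ha).trans (by norm_num)
  have h2 : ((2 ^ a : ℕ) : ℤ) ∣ (X : ℤ) - z := by
    have := dvd_add h h1
    rw [show (X : ℤ) - MM - z + MM = X - z by ring] at this
    exact_mod_cast this
  exact (Nat.modEq_iff_dvd.mpr h2)

lemma leaf_ok {β : ℕ} {b' : O} (hb : ¬ pi ∣ b') {ul uh wl wh zx zy k lim ap X Y t e : ℕ}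
    (hY : Y ≤ 2 * MM) (he : e < 32) (h : leaf ul uh wl wh zx zy k lim X Y t e = true) :
    ok β b' ⟨ul, uh, wl, wh, zx, zy, k, lim, ap⟩ := by
  intro A hA u1 u2 w1 w2 hc hl
  have d1 := dist_u (X := X) hY u1 u2
  have d2 := dist_w (X := X) hY w1 w2
  simp only at u1 u2 w1 w2 hc hl d1 d2
  obtain ⟨l, hl'⟩ : ∃ l : O, l = ⟨(X : ℤ) - MM, (Y : ℤ) - MM⟩ := ⟨_, rfl⟩
  rw [← hl'] at d1 d2
  have lre : l.re = (X : ℤ) - 4294967296 := by rw [hl']; rfl
  have lim' : l.im = (Y : ℤ) - 4294967296 := by rw [hl']; rfl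
  unfold leaf at h
  split_ifs at h with ht
  · simp only [Bool.and_eq_true, decide_eq_true_eq, Bool.not_eq_true', Bool.and_eq_false_iff,
      decide_eq_false_iff_not] at h
    obtain ⟨⟨⟨⟨hX, hY2⟩, hek⟩, hv⟩, hlt⟩ := h
    have hnd : ¬ pi ^ (β + e + 1) ∣ A - l * (pi ^ β * b') := by
      intro hd
      rcases hc with ⟨-, hc⟩ | ⟨-, hk, hc⟩
      · have h1 : pi ^ (β + e + 1) ∣ A - (⟨zx, zy⟩ : O) * (pi ^ β * b') :=
          (pow_dvd_pow pi (by omega)).trans hc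
        have h2 := dvd_sub h1 hd
        have h3 : pi ^ β * pi ^ (e + 1) ∣ pi ^ β * ((l - ⟨zx, zy⟩) * b') := by
          rw [← pow_add, ← add_assoc]; convert h2 using 1; ring
        have h4 := (dvd_coords _ _).mp (dvd_of_odd _ hb (dvd_cancel h3))
        rw [hl'] at h4
        rcases hv with hv | hv
        · exact hv (mod_of_dvd (by omega) h4.1)
        · exact hv (mod_of_dvd (by omega) h4.2)
      · apply hc
        have e0 : e = 0 := by omega
        subst e0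
        have h1 : pi ∣ l - 1 := by rw [pi_dvd, Zsqrtd.re_sub, lre]; simp only [Zsqrtd.re_one]; omega
        have h2 : pi ^ (β + 1) ∣ (l - 1) * (pi ^ β * b') := by
          obtain ⟨y, hy⟩ := h1
          exact ⟨y * b', by rw [hy]; ring⟩
        have h3 := dvd_add hd h2
        unfold Cl
        convert h3 using 1; ring
    have hB := hA.2 l e (by omega) (by omega) hnd
    have hlt' : (dst ul uh (X * ONE + Y * SL) : ℝ) * dst wl wh (X * ONE + (2 * MM - Y) * SL) * 28 ^ e * 625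
      < 4 * ONE * ONE * 784 * 25 ^ e := by exact_mod_cast hlt
    have o := ONE_pos
    have m1 : |UU β b' A - eu l| * ONE * (|WW β b' A - ew l| * ONE) ≤
        (dst ul uh (X * ONE + Y * SL) : ℝ) * dst wl wh (X * ONE + (2 * MM - Y) * SL) :=
      mul_le_mul d1 d2 (by positivity) (by positivity)
    rw [div_pow (28:ℝ) 25 e, ← mul_div_assoc, le_div_iff₀ (by positivity)] at hB
    have m2 : (0:ℝ) < 28 ^ e := by positivity
    have m3 := mul_le_mul_of_nonneg_right m1 m2.le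
    have m4 := mul_le_mul_of_nonneg_right hB (mul_pos o o).le
    nlinarith
  · simp only [Bool.and_eq_true, decide_eq_true_eq] at h
    obtain ⟨⟨⟨hk, hr⟩, h1⟩, h2⟩ := h
    rcases hc with ⟨-, hc⟩ | ⟨-, hk', -⟩
    · have o := ONE_pos
      refine hl _ hr (UU β b' A - eu l) (WW β b' A - ew l) e
        ⟨A, ⟨zx, zy⟩, l, hA, (pow_dvd_pow pi (by omega)).trans hc, ?_, rfl, rfl⟩ ?_ ?_
      · unfold rkO
        simp only [lre, lim']
        congr 1 <;> omega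
      · have h1' : (dst ul uh (X * ONE + Y * SL) : ℝ) * 30 ^ e ≤ RU := by exact_mod_cast h1
        have e1 : (RU : ℝ) = 1 / 16 * ONE := by unfold RU ONE; norm_num
        have m := mul_le_mul_of_nonneg_right d1 (by positivity : (0:ℝ) ≤ 30 ^ e)
        refine le_of_mul_le_mul_right ?_ o
        nlinarith
      · have h2' : (dst wl wh (X * ONE + (2 * MM - Y) * SL) : ℝ) * 10 ^ e ≤ RW * 299 ^ e := by
          exact_mod_cast h2
        have e1 : (RW : ℝ) = 29 / 8 * ONE := by unfold RW ONE; norm_num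
        have m := mul_le_mul_of_nonneg_right d2 (by positivity : (0:ℝ) ≤ 10 ^ e)
        refine le_of_mul_le_mul_right ?_ o
        rw [e1] at h2'
        nlinarith
    · omega

lemma cl_split {β : ℕ} {b' : O} (hb : ¬ pi ∣ b') {A : O} {zx zy k : ℕ} (h : Cl β b' A ⟨zx, zy⟩ k) :
    Cl β b' A ⟨zx, zy⟩ (k + 1) ∨ Cl β b' A ⟨((if k % 2 = 0 then zx + 2 ^ (k / 2) else zx : ℕ) : ℤ),
      ((if k % 2 = 0 then zy else zy + 2 ^ (k / 2) : ℕ) : ℤ)⟩ (k + 1) := by
  obtain ⟨g, hg, hg1, hg2⟩ : ∃ g : O, (⟨((if k % 2 = 0 then zx + 2 ^ (k / 2) else zx : ℕ) : ℤ),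
      ((if k % 2 = 0 then zy else zy + 2 ^ (k / 2) : ℕ) : ℤ)⟩ : O) = ⟨zx, zy⟩ + g ∧ pi ^ k ∣ g ∧
      ¬ pi ^ (k + 1) ∣ g := by
    have hp : ¬ (2:ℤ) ^ (k / 2 + 1) ∣ 2 ^ (k / 2) := by
      rw [pow_dvd_pow_iff (by norm_num) (by decide)]; omega
    split_ifs with hk
    · refine ⟨⟨2 ^ (k / 2), 0⟩, by ext <;> simp, ?_, ?_⟩
      · rw [dvd_coords]; exact ⟨pow_dvd_pow 2 (by omega), dvd_zero _⟩
      · rw [dvd_coords]; rintro ⟨h, -⟩; exact hp ((pow_dvd_pow 2 (by omega)).trans h)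
    · refine ⟨⟨0, 2 ^ (k / 2)⟩, by ext <;> simp, ?_, ?_⟩
      · rw [dvd_coords]; exact ⟨dvd_zero _, dvd_rfl⟩
      · rw [dvd_coords]; rintro ⟨-, h⟩; exact hp ((pow_dvd_pow 2 (by omega)).trans h)
  rw [hg]
  obtain ⟨y, hy⟩ := h
  obtain ⟨g', rfl⟩ := hg1
  have hg' : ¬ pi ∣ g' := fun h => hg2 (by rw [pow_succ]; exact mul_dvd_mul_left _ h)
  by_cases hpy : pi ∣ y
  · left
    unfold Cl
    rw [hy, ← add_assoc, pow_succ]; exact mul_dvd_mul_left _ hpy
  · right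
    have h1 := odd_mul hg' hb
    have h2 : pi ∣ y - g' * b' := by
      rw [pi_dvd] at *; rw [Zsqrtd.re_sub]; omega
    obtain ⟨t, ht⟩ := h2
    refine ⟨t, ?_⟩
    have : A = pi ^ (β + k) * y + ⟨zx, zy⟩ * (pi ^ β * b') := by rw [← hy]; ring
    have h3 : y = pi * t + g' * b' := by rw [← ht]; ring
    rw [this, h3]; ring

lemma step_ok {β : ℕ} {b' : O} (hb : ¬ pi ∣ b') : ∀ (f e : ℕ) (C : Cell) (st st' : List Cell),
    step f e C st = some st' → (∀ D ∈ st', ok β b' D) → ok β b' C ∧ ∀ D ∈ st, ok β b' D := by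
  intro f
  induction f with
  | zero => intro e C st st' h; simp [step] at h
  | succ f ih =>
    rintro e ⟨ul, uh, wl, wh, zx, zy, k, lim, ap⟩ st st' h hst
    simp only [step, force_eq] at h
    split_ifs at h with h0 h1 h2 h3 h4 h5
    · obtain ⟨a, b⟩ := ih _ _ _ _ h hst
      refine ⟨?_, fun D hD => b D (List.mem_cons_of_mem _ hD)⟩
      intro A hA u1 u2 w1 w2 hc hl
      rcases le_total (UU β b' A * ONE + OFF) (((ul + uh) / 2 : ℕ) : ℝ) with m | m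
      · exact a A hA u1 m w1 w2 hc hl
      · exact b _ List.mem_cons_self A hA m u2 w1 w2 hc hl
    · obtain ⟨a, b⟩ := ih _ _ _ _ h hst
      refine ⟨?_, fun D hD => b D (List.mem_cons_of_mem _ hD)⟩
      intro A hA u1 u2 w1 w2 hc hl
      rcases le_total (WW β b' A * ONE + OFF) (((wl + wh) / 2 : ℕ) : ℝ) with m | m
      · exact a A hA u1 u2 w1 m hc hl
      · exact b _ List.mem_cons_self A hA u1 u2 m w2 hc hl
    · obtain ⟨a, b⟩ := ih _ _ _ _ h hst
      refine ⟨?_, fun D hD => b D (List.mem_cons_of_mem _ hD)⟩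
      intro A hA u1 u2 w1 w2 hc hl
      rcases hc with ⟨-, hc⟩ | ⟨hc, -⟩
      · rcases cl_split hb hc with m | m
        · exact a A hA u1 u2 w1 w2 (Or.inl ⟨h3, m⟩) hl
        · rw [if_pos h4, if_pos h4] at m
          exact b _ List.mem_cons_self A hA u1 u2 w1 w2 (Or.inl ⟨h3, m⟩) hl
      · exact hc h3
    · obtain ⟨a, b⟩ := ih _ _ _ _ h hst
      refine ⟨?_, fun D hD => b D (List.mem_cons_of_mem _ hD)⟩
      intro A hA u1 u2 w1 w2 hc hl
      rcases hc with ⟨-, hc⟩ | ⟨hc, -⟩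
      · rcases cl_split hb hc with m | m
        · exact a A hA u1 u2 w1 w2 (Or.inl ⟨h3, m⟩) hl
        · rw [if_neg h4, if_neg h4] at m
          exact b _ List.mem_cons_self A hA u1 u2 w1 w2 (Or.inl ⟨h3, m⟩) hl
      · exact hc h3
    · obtain rfl : st = st' := by simpa using h
      refine ⟨leaf_ok hb ?_ ?_ h5, hst⟩
      · unfold MM; omega
      · omega

lemma run_ok {β : ℕ} {b' : O} (hb : ¬ pi ∣ b') : ∀ (L : List ℕ) (st st' : List Cell),
    run L st = some st' → (∀ D ∈ st', ok β b' D) → ∀ D ∈ st, ok β b' D := by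
  intro L
  induction L with
  | nil => intro st st' h hst; obtain rfl : st = st' := by simpa [run] using h
           exact hst
  | cons e es ih =>
    intro st st' h hst
    match st, h with
    | [], h => simp
    | C :: st, h =>
      simp only [run] at h
      split at h
      · simp at h
      · rename_i st2 h2
        obtain ⟨a, b⟩ := step_ok hb _ _ _ _ _ h2 (ih _ _ h hst)
        intro D hD
        rcases List.mem_cons.mp hD with rfl | hD
        · exact a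
        · exact b D hD

end Pool.Agent.H49.W14
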