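import Pool.Agent.H49.W14C

namespace Pool.Agent.H49.W14

variable {β : ℕ} {b' : O}

lemma b_ne (hb : ¬ pi ∣ b') : pi ^ β * b' ≠ 0 :=
  mul_ne (pow_ne β) (by rintro rfl; exact hb (dvd_zero _))

lemma euw_ne {a : O} (ha : a ≠ 0) : eu a ≠ 0 ∧ ew a ≠ 0 := by
  have h : (a.norm : ℝ) ≠ 0 := by exact_mod_cast fun h => ha (norm_eq_zero' h)
  rw [norm_uw] at h
  exact mul_ne_zero_iff.mp h

lemma UU_mul (t A : O) : UU β b' (t * A) = eu t * UU β b' A := by
  unfold UU; rw [eu_mul]; ring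
lemma WW_mul (t A : O) : WW β b' (t * A) = ew t * WW β b' A := by
  unfold WW; rw [ew_mul]; ring
lemma UU_sub (hb : ¬ pi ∣ b') (A m : O) : UU β b' (A - m * (pi ^ β * b')) = UU β b' A - eu m := by
  have := (euw_ne (b_ne (β := β) hb)).1
  unfold UU; rw [eu_sub, eu_mul m]; field_simp
lemma WW_sub (hb : ¬ pi ∣ b') (A m : O) : WW β b' (A - m * (pi ^ β * b')) = WW β b' A - ew m := by
  have := (euw_ne (b_ne (β := β) hb)).2
  unfold WW; rw [ew_sub, ew_mul m]; field_simp

lemma bad_mul {t t' A : O} (h1 : t * t' = 1) (h2 : t.norm = 1) (h3 : t'.re % 2 = 1) (h4 : t'.im % 2 = 0)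
    (h : Bad β b' A) : Bad β b' (t * A) := by
  have par : ∀ l : O, l.re % 2 = 1 → l.im % 2 = 1 → (t' * l).re % 2 = 1 ∧ (t' * l).im % 2 = 1 := by
    intro l a b
    simp only [Zsqrtd.re_mul, Zsqrtd.im_mul]
    constructor
    · rw [Int.add_emod, Int.mul_emod t'.re, h3, a, mul_assoc, Int.mul_emod 14]; norm_num
    · rw [Int.add_emod, Int.mul_emod t'.re, h3, b, Int.mul_emod t'.im, h4]; norm_num
  constructor
  · intro l a b hl
    refine h.1 (t' * l) (par l a b).1 (par l a b).2 ?_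
    rw [mul_assoc, ← hl]; linear_combination (-A) * h1
  · intro l e a b hd
    have e1 : t * A - l * (pi ^ β * b') = t * (A - t' * l * (pi ^ β * b')) := by
      linear_combination (l * (pi ^ β * b')) * h1
    have := h.2 (t' * l) e (par l a b).1 (par l a b).2 (fun hh => hd (by rw [e1]; exact hh.mul_left _))
    have e2 : l = t * (t' * l) := by linear_combination (-l) * h1
    have e3 : |eu t| * |ew t| = 1 := by rw [← abs_mul, ← norm_uw, h2]; simp
    have e4 : eu l = eu t * eu (t' * l) := by rw [← eu_mul, ← e2]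
    have e5 : ew l = ew t * ew (t' * l) := by rw [← ew_mul, ← e2]
    rw [UU_mul, WW_mul, e4, e5, ← mul_sub, ← mul_sub, abs_mul, abs_mul]
    convert this using 2
    linear_combination (|UU β b' A - eu (t' * l)| * |WW β b' A - ew (t' * l)|) * e3

lemma bad_sub (hb : ¬ pi ∣ b') {A m : O} (h1 : m.re % 2 = 0) (h2 : m.im % 2 = 0) (h : Bad β b' A) :
    Bad β b' (A - m * (pi ^ β * b')) := by
  constructor
  · intro l a b hl
    refine h.1 (l + m) (by rw [Zsqrtd.re_add]; omega) (by rw [Zsqrtd.im_add]; omega) ?_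
    linear_combination hl
  · intro l e a b hd
    have := h.2 (l + m) e (by rw [Zsqrtd.re_add]; omega) (by rw [Zsqrtd.im_add]; omega)
      (by rw [show A - (l + m) * (pi ^ β * b') = A - m * (pi ^ β * b') - l * (pi ^ β * b') by ring]; exact hd)
    rw [UU_sub hb, WW_sub hb]
    have e1 : eu (l + m) = eu m + eu l := by simp only [eu, Zsqrtd.re_add, Zsqrtd.im_add]; push_cast; ring
    have e2 : ew (l + m) = ew m + ew l := by simp only [ew, Zsqrtd.re_add, Zsqrtd.im_add]; push_cast; ring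
    rw [e1, e2, ← sub_sub, ← sub_sub] at this
    exact this

lemma rk_ep : ∀ p < 2, ∀ q < 2, ∀ dx < 16, ∀ dy < 8,
    rk3 p q ((15 * dx + 56 * dy) % 16) ((4 * dx + 15 * dy) % 8) = rk3 p q dx dy := by decide +kernel
lemma rk_neg : ∀ p < 2, ∀ q < 2, ∀ dx < 16, ∀ dy < 8,
    rk3 p q ((16 - dx) % 16) ((8 - dy) % 8) = rk3 p q dx dy := by decide +kernel
set_option synthInstance.maxSize 2000 in
lemma rk_cases : ∀ p < 2, ∀ q < 2, ∀ dx < 16, ∀ dy < 8, rk3 p q dx dy ≤ 4 →
    (p = 0 ∧ q = 0 ∧ dx % 2 = 1) ∨ (p = 1 ∧ q = 1 ∧ dx = 0 ∧ dy = 0 ∧ rk3 p q dx dy = 4) := by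
  decide +kernel

lemma St_mul {t t' : O} (h1 : t * t' = 1) (h2 : t.norm = 1) (h3 : t'.re % 2 = 1) (h4 : t'.im % 2 = 0)
    (h5 : ∀ z l : O, rkO (t * z) (t * l) = rkO z l) {n : ℕ} {x y : ℝ} (h : St β b' n x y) :
    St β b' n (eu t * x) (ew t * y) := by
  obtain ⟨A, z, l, hA, hc, hr, rfl, rfl⟩ := h
  refine ⟨t * A, t * z, t * l, bad_mul h1 h2 h3 h4 hA, ?_, by rw [h5, hr], ?_, ?_⟩
  · unfold Cl at *
    rw [show t * A - t * z * (pi ^ β * b') = t * (A - z * (pi ^ β * b')) by ring]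
    exact hc.mul_left _
  · rw [UU_mul, eu_mul]; ring
  · rw [WW_mul, ew_mul]; ring

lemma St_ep {n : ℕ} {x y : ℝ} (h : St β b' n x y) : St β b' n (eu ep * x) (ew ep * y) := by
  refine St_mul ep_ei (by decide) (by decide) (by decide) ?_ h
  intro z l
  unfold rkO
  rw [← rk_ep (l.re % 2).toNat (by omega) (l.im % 2).toNat (by omega) ((z.re - l.re) % 16).toNat (by omega)
    ((z.im - l.im) % 8).toNat (by omega)]
  simp only [ep, Zsqrtd.re_mul, Zsqrtd.im_mul]
  congr 1 <;> omega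

lemma St_neg {n : ℕ} {x y : ℝ} (h : St β b' n x y) : St β b' n (-x) (-y) := by
  have := St_mul (t := -1) (t' := -1) (by decide) (by decide) (by decide) (by decide) (by
    intro z l
    unfold rkO
    rw [← rk_neg (l.re % 2).toNat (by omega) (l.im % 2).toNat (by omega) ((z.re - l.re) % 16).toNat (by omega)
      ((z.im - l.im) % 8).toNat (by omega)]
    simp only [neg_mul, one_mul, Zsqrtd.re_neg, Zsqrtd.im_neg]
    congr 1 <;> omega) h
  simpa [eu, ew] using this

lemma St_ne (hb : ¬ pi ∣ b') {n : ℕ} (hn : n ≤ 4) {x y : ℝ} (h : St β b' n x y) : x ≠ 0 := by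
  obtain ⟨A, z, l, hA, hc, hr, rfl, rfl⟩ := h
  intro h0
  rw [← UU_sub hb] at h0
  have h1 : A - l * (pi ^ β * b') = 0 := by
    by_contra hne
    exact div_ne_zero (euw_ne hne).1 (euw_ne (b_ne hb)).1 h0
  have h2 : A = l * (pi ^ β * b') := sub_eq_zero.mp h1
  rcases rk_cases (l.re % 2).toNat (by omega) (l.im % 2).toNat (by omega) ((z.re - l.re) % 16).toNat (by omega)
    ((z.im - l.im) % 8).toNat (by omega) (le_of_eq_of_le hr hn) with ⟨a, b, c⟩ | ⟨a, b, -⟩
  · unfold Cl at hc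
    rw [h2, show l * (pi ^ β * b') - z * (pi ^ β * b') = pi ^ β * ((l - z) * b') by ring, pow_add] at hc
    have h3 := ((dvd_coords _ _).mp (dvd_of_odd _ hb (dvd_cancel hc))).1
    rw [Zsqrtd.re_sub] at h3
    norm_num at h3
    omega
  · exact hA.1 l (by omega) (by omega) h2

lemma cl_move {A z m z' : O} (h : Cl β b' A z 7) (h1 : 16 ∣ z.re - m.re - z'.re) (h2 : 8 ∣ z.im - m.im - z'.im) :
    Cl β b' (A - m * (pi ^ β * b')) z' 7 := by
  have h3 : pi ^ 7 ∣ z - m - z' := by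
    rw [dvd_coords]; simp only [Zsqrtd.re_sub, Zsqrtd.im_sub]; exact ⟨h1, h2⟩
  obtain ⟨y, hy⟩ := h3
  unfold Cl at *
  have : A - m * (pi ^ β * b') - z' * (pi ^ β * b') = A - z * (pi ^ β * b') + pi ^ (β + 7) * (y * b') := by
    linear_combination (pi ^ β * b') * hy
  rw [this]
  exact dvd_add h (dvd_mul_right _ _)

lemma strip_false (hb : ¬ pi ∣ b') {n : ℕ} (hn : n ≤ 4) {x y : ℝ} (h : St β b' n x y) (x1 : 1 / 16 ≤ x)
    (x2 : x ≤ 30 / 16) (y1 : |y| ≤ 1 / 8) (hl : Low β b' n) : False := by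
  obtain ⟨A, z, l, hA, hc, hr, rfl, rfl⟩ := h
  rw [abs_le] at y1
  have o : (ONE : ℝ) = 2 ^ 80 := by unfold ONE; norm_num
  have c1 : ((OFF + RU : ℕ) : ℝ) = OFF + 1 / 16 * 2 ^ 80 := by unfold RU; push_cast; norm_num
  have c2 : ((OFF + 30 * RU : ℕ) : ℝ) = OFF + 30 / 16 * 2 ^ 80 := by unfold RU; push_cast; norm_num
  have c3 : ((OFF - RW / 29 : ℕ) : ℝ) = OFF - 1 / 8 * 2 ^ 80 := by
    rw [Nat.cast_sub (by decide +kernel), show RW / 29 = 2 ^ 77 by decide +kernel]; norm_num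
  have c4 : ((OFF + RW / 29 : ℕ) : ℝ) = OFF + 1 / 8 * 2 ^ 80 := by
    rw [show RW / 29 = 2 ^ 77 by decide +kernel]; push_cast; norm_num
  rcases rk_cases (l.re % 2).toNat (by omega) (l.im % 2).toNat (by omega) ((z.re - l.re) % 16).toNat (by omega)
    ((z.im - l.im) % 8).toNat (by omega) (le_of_eq_of_le hr hn) with ⟨a, b, c⟩ | ⟨a, b, c, d, e⟩
  · refine ok_strip (β := β) hb (x := ((z.re - l.re) % 16).toNat) (y := ((z.im - l.im) % 8).toNat) (by omega) c
      (by omega) (A - l * (pi ^ β * b')) (bad_sub hb (by omega) (by omega) hA) ?_ ?_ ?_ ?_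
      (Or.inl ⟨rfl, cl_move hc ?_ ?_⟩) ?_
    · simp only [strip]; rw [c1, UU_sub hb, o]; linarith
    · simp only [strip]; rw [c2, UU_sub hb, o]; linarith
    · simp only [strip]; rw [c3, WW_sub hb, o]; linarith
    · simp only [strip]; rw [c4, WW_sub hb, o]; linarith
    · simp only [strip]; omega
    · simp only [strip]; omega
    · unfold rkO at hr; rw [a, b] at hr; simp only [strip]; rw [hr]; exact hl
  · have s1 := SL_le
    have s2 := le_SL
    have e1 : eu (l - ⟨1, 1⟩) = eu l - (1 + s14) := by rw [eu_sub]; simp [eu]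
    have e2 : ew (l - ⟨1, 1⟩) = ew l - (1 - s14) := by rw [ew_sub]; simp [ew]
    rw [o] at s1 s2
    refine (ok_O (β := β) hb).1 (A - (l - ⟨1, 1⟩) * (pi ^ β * b'))
      (bad_sub hb (by rw [Zsqrtd.re_sub]; simp only; omega) (by rw [Zsqrtd.im_sub]; simp only; omega) hA)
      ?_ ?_ ?_ ?_ (Or.inl ⟨rfl, cl_move hc ?_ ?_⟩) ?_
    · simp only [stripO]; rw [UU_sub hb, e1]; unfold RU; push_cast; rw [o]; linarith
    · simp only [stripO]; rw [UU_sub hb, e1]; unfold RU; push_cast; rw [o]; linarith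
    · simp only [stripO]
      rw [WW_sub hb, e2, Nat.cast_sub (by decide +kernel), Nat.cast_sub (by decide +kernel),
        Nat.cast_sub (by decide +kernel), show RW / 29 = 2 ^ 77 by decide +kernel]
      push_cast; rw [o]; linarith
    · simp only [stripO]
      rw [WW_sub hb, e2, Nat.cast_add, Nat.cast_sub (by decide +kernel),
        show RW / 29 = 2 ^ 77 by decide +kernel]
      push_cast; rw [o]; linarith
    · simp only [stripO, Zsqrtd.re_sub]; omega
    · simp only [stripO, Zsqrtd.im_sub]; omega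
    · unfold rkO at hr; rw [e] at hr; simp only [stripO]; rw [hr]; exact hl

lemma s_bd : 3.74 ≤ s14 ∧ s14 ≤ 3.75 := by
  have := s_sq; have := s_pos
  constructor <;> nlinarith

lemma St_pow {n : ℕ} {x y : ℝ} (h : St β b' n x y) (j : ℕ) : St β b' n (eu ep ^ j * x) (ew ep ^ j * y) := by
  induction j with
  | zero => simpa using h
  | succ j ih => have := St_ep ih; rw [pow_succ', pow_succ', mul_assoc, mul_assoc]; exact this

lemma low_all (hb : ¬ pi ∣ b') : ∀ n ≤ 5, Low β b' n := by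
  intro n
  induction n with
  | zero => intro _ m hm; omega
  | succ n ih =>
    intro hn m hm x y j h hx hy
    have ih' := ih (by omega)
    rcases Nat.lt_succ_iff_lt_or_eq.mp hm with hm | rfl
    · exact ih' m hm x y j h hx hy
    have hE : eu ep = 15 + 4 * s14 := by simp [eu, ep]
    have hF : ew ep = 15 - 4 * s14 := by simp [ew, ep]
    have sb := s_bd
    have E1 : 29.9 ≤ eu ep := by rw [hE]; linarith
    have E2 : eu ep ≤ 30 := by rw [hE]; linarith
    have EF : eu ep * ew ep = 1 := by rw [hE, hF]; linear_combination (-16) * s_sq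
    have F0 : 0 < ew ep := by
      by_contra hh
      nlinarith
    have F1 : ew ep ≤ 10 / 299 := by nlinarith
    have hx0 := St_ne hb (by omega) h
    have hxp : 0 < |x| := abs_pos.mpr hx0
    have ex : ∃ k : ℕ, 1 / 16 < eu ep ^ (j + k) * |x| := by
      obtain ⟨k, hk⟩ := pow_unbounded_of_one_lt (1 / 16 / |x|) (by linarith : (1:ℝ) < eu ep)
      refine ⟨k, ?_⟩
      rw [div_lt_iff₀ hxp] at hk
      exact hk.trans_le (mul_le_mul_of_nonneg_right (pow_le_pow_right₀ (by linarith) (by omega)) hxp.le)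
    classical
    have k1 := Nat.find_spec ex
    have j0 : eu ep ^ j * |x| ≤ 1 / 16 := by
      have : eu ep ^ j ≤ 30 ^ j := pow_le_pow_left₀ (by linarith) E2 j
      nlinarith
    obtain ⟨k, hk⟩ : ∃ k, Nat.find ex = k + 1 := by
      refine Nat.exists_eq_succ_of_ne_zero ?_
      intro h0; rw [h0, add_zero] at k1; linarith
    have k2 := not_lt.mp (Nat.find_min ex (m := k) (by omega))
    rw [hk] at k1
    have k3 : eu ep ^ (j + (k + 1)) * |x| ≤ 30 / 16 := by
      rw [← add_assoc, pow_succ', mul_assoc]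
      have : 0 ≤ eu ep ^ (j + k) * |x| := by positivity
      nlinarith
    have y1 : ew ep ^ j * |y| ≤ 29 / 8 := by
      have a : ew ep ^ j ≤ (10 / 299) ^ j := pow_le_pow_left₀ F0.le F1 j
      have b : ((10:ℝ) / 299) ^ j * |y| ≤ 29 / 8 := by
        rw [div_pow, div_mul_eq_mul_div, div_le_iff₀ (by positivity)]; linarith
      exact (mul_le_mul_of_nonneg_right a (abs_nonneg _)).trans b
    have y2 : |ew ep ^ (j + (k + 1)) * y| ≤ 1 / 8 := by
      rw [abs_mul, abs_of_pos (by positivity), pow_add, pow_succ]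
      have a : ew ep ^ k ≤ 1 := pow_le_one₀ F0.le (by linarith)
      have b : 0 ≤ ew ep ^ j * |y| := by positivity
      have c : ew ep ^ k * ew ep ≤ 10 / 299 := by nlinarith
      have d : 0 ≤ ew ep ^ k * ew ep := by positivity
      nlinarith
    have h2 := St_pow h (j + (k + 1))
    rcases lt_or_gt_of_ne hx0 with hneg | hpos
    · rw [abs_of_neg hneg] at k1 k3
      exact strip_false hb (by omega) (St_neg h2) (by linarith) (by linarith) (by rwa [abs_neg]) ih'
    · rw [abs_of_pos hpos] at k1 k3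
      exact strip_false hb (by omega) h2 k1.le k3 y2 ih'

lemma glob_false (hb : ¬ pi ∣ b') {A : O} (hA : Bad β b' A) {X Y : ℝ} (hu : UU β b' A = X + Y * s14)
    (hw : WW β b' A = X - Y * s14) (hX : |X| ≤ 1) (hY0 : 0 ≤ Y) (hY : Y ≤ 1) : False := by
  rw [abs_le] at hX
  have sb := s_bd
  have p1 : 0 ≤ Y * s14 := by have := s_pos; positivity
  have p2 : Y * s14 ≤ 3.75 := by nlinarith
  have o : (ONE : ℝ) = 2 ^ 80 := by unfold ONE; norm_num
  have key : ∀ zx lim ap, ok β b' (glob zx lim ap) →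
      ((ap = 1 ∧ Cl β b' A ⟨zx, (0 : ℕ)⟩ 1) ∨ (ap ≠ 1 ∧ 1 ≤ 1 ∧ ¬ Cl β b' A 1 1)) → lim ≤ 5 → False := by
    intro zx lim ap h1 h2 h3
    refine h1 A hA ?_ ?_ ?_ ?_ h2 (low_all hb _ h3)
    · simp only [glob]; rw [Nat.cast_sub (by decide +kernel), hu, o]; linarith
    · simp only [glob]; rw [hu]; push_cast; rw [o]; linarith
    · simp only [glob]; rw [Nat.cast_sub (by decide +kernel), hw]; push_cast; rw [o]; linarith
    · simp only [glob]; rw [hw]; push_cast; rw [o]; linarith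
  by_cases hc : Cl β b' A 1 1
  · exact key 1 5 1 (ok_glob hb) (Or.inl ⟨rfl, hc⟩) le_rfl
  · exact key 0 0 0 (ok_O hb).2 (Or.inr ⟨by norm_num, le_rfl, hc⟩) (by norm_num)

lemma not_bad (hb : ¬ pi ∣ b') {A : O} (hA : Bad β b' A) : False := by
  have sp := s_pos
  obtain ⟨X, hX⟩ : ∃ X, X = (UU β b' A + WW β b' A) / 2 := ⟨_, rfl⟩
  obtain ⟨Y, hY⟩ : ∃ Y, Y = (UU β b' A - WW β b' A) / (2 * s14) := ⟨_, rfl⟩
  have hu : UU β b' A = X + Y * s14 := by rw [hX, hY]; field_simp; ring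
  have hw : WW β b' A = X - Y * s14 := by rw [hX, hY]; field_simp; ring
  have r1 := abs_sub_round (X / 2)
  have r2 := abs_sub_round (Y / 2)
  have hB := bad_sub hb (m := ⟨2 * round (X / 2), 2 * round (Y / 2)⟩) (by simp) (by simp) hA
  have hu' := UU_sub (β := β) hb A ⟨2 * round (X / 2), 2 * round (Y / 2)⟩
  have hw' := WW_sub (β := β) hb A ⟨2 * round (X / 2), 2 * round (Y / 2)⟩
  rw [abs_le] at r1 r2
  simp only [eu, ew] at hu' hw'
  push_cast at hu' hw'
  rcases le_total 0 (Y - 2 * round (Y / 2)) with h | h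
  · refine glob_false hb hB (X := X - 2 * round (X / 2)) (Y := Y - 2 * round (Y / 2)) ?_ ?_ ?_ h ?_
    · rw [hu', hu]; ring
    · rw [hw', hw]; ring
    · rw [abs_le]; constructor <;> linarith
    · linarith
  · refine glob_false hb (bad_mul (t := -1) (t' := -1) (by decide) (by decide) (by decide) (by decide) hB)
      (X := -(X - 2 * round (X / 2))) (Y := -(Y - 2 * round (Y / 2))) ?_ ?_ ?_ (by linarith) ?_
    · rw [UU_mul, hu', hu]; simp [eu]; ring
    · rw [WW_mul, hw', hw]; simp [ew]; ring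
    · rw [abs_le]; constructor <;> linarith
    · linarith

theorem euc : (56 / 25 : ℝ) ∈ window := by
  refine ⟨by norm_num, wn_nonneg (by norm_num), fun lam _ => fin_range (by norm_num) lam,
    wn_eq_zero (by norm_num), ?_⟩
  intro a b hb0
  by_contra hcon
  push Not at hcon
  obtain ⟨β, b', rfl, hb⟩ := exists_val hb0
  have hq : ∀ l : O, l.re % 2 = 1 → l.im % 2 = 1 → ∃ q : O,
      2 * a - ⟨1, 1⟩ * (pi ^ β * b') - l * (pi ^ β * b') = 2 * (a - pi ^ β * b' * q) := by
    intro l h1 h2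
    refine ⟨⟨(l.re + 1) / 2, (l.im + 1) / 2⟩, ?_⟩
    have : (2 : O) * ⟨(l.re + 1) / 2, (l.im + 1) / 2⟩ = ⟨1, 1⟩ + l := by
      ext
      · rw [Zsqrtd.re_mul (2 : O)]; simp; omega
      · rw [Zsqrtd.im_mul (2 : O)]; simp; omega
    linear_combination (pi ^ β * b') * this
  have hpos : 0 < wn (56 / 25) (pi ^ β * b') :=
    lt_of_le_of_ne (wn_nonneg (by norm_num) _) (fun h => hb0 ((wn_eq_zero (by norm_num) _).mp h.symm))
  refine not_bad (β := β) hb (A := 2 * a - ⟨1, 1⟩ * (pi ^ β * b')) ⟨?_, ?_⟩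
  · intro l h1 h2 hl
    obtain ⟨q, hq⟩ := hq l h1 h2
    have h3 := wn_two (56 / 25) (a - pi ^ β * b' * q)
    rw [← hq, hl, sub_self, wn_zero] at h3
    have := hcon q
    nlinarith
  · intro l e h1 h2 hd
    obtain ⟨q, hq⟩ := hq l h1 h2
    have h3 := wn_two (56 / 25) (a - pi ^ β * b' * q)
    have h4 := wn_le (c := 56 / 25) (by norm_num) hd
    have h5 := hcon q
    rw [wn_eq _ β hb] at h5
    rw [← hq] at h3
    rw [← UU_sub hb, ← WW_sub hb]
    obtain ⟨n1, n2⟩ := euw_ne hb0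
    unfold UU WW
    rw [← abs_mul, div_mul_div_comm, ← norm_uw, ← norm_uw, abs_div]
    have hN : 0 < |((pi ^ β * b').norm : ℝ)| := by rw [norm_uw]; exact abs_pos.mpr (mul_ne_zero n1 n2)
    rw [div_mul_eq_mul_div, le_div_iff₀ hN]
    rw [show (56 / 25 / 2 : ℝ) = 28 / 25 by norm_num] at h3 h4 h5
    have hp : (0:ℝ) < (28 / 25) ^ β := by positivity
    refine le_of_mul_le_mul_right ?_ hp
    rw [pow_add] at h4
    nlinarith

end Pool.Agent.H49.W14
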