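import Mathlib

namespace Pool.Agent.H49.W14

/-- the prime ideal (2, sqrt 14) of Z[sqrt 14] -/
def pI : Ideal (ℤ√14) := Ideal.span {2, Zsqrtd.sqrtd}

/-- weighted norm: |N r| * (c/2)^(exponent of pI in the ideal (r)) -/
noncomputable def wn (c : ℝ) (r : ℤ√14) : ℝ :=
  |(r.norm : ℝ)| * (c / 2) ^ (multiplicity pI (Ideal.span {r}))

/-- Euclidean function on Z[sqrt 14] -/
def IsEuc (f : ℤ√14 → ℝ) : Prop :=
  (∀ r, 0 ≤ f r) ∧
  (∀ lam : ℝ, 0 ≤ lam → (Set.range f ∩ Set.Icc 0 lam).Finite) ∧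
  (∀ r, f r = 0 ↔ r = 0) ∧
  ∀ a b, b ≠ 0 → ∃ q, f (a - b * q) < f b

/-- the Euclidean window of pI -/
def window : Set ℝ := {c | 0 < c ∧ IsEuc (wn c)}

end Pool.Agent.H49.W14
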