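import Pool.Agent.H49.W14A

namespace Pool.Agent.H49.W14

lemma wn_unit (c : ℝ) {t : O} (ht : t.norm = 1) (ho : ¬ pi ∣ t) (r : O) : wn c (t * r) = wn c r := by
  by_cases hr : r = 0
  · subst hr; simp
  obtain ⟨j, r', rfl, h'⟩ := exists_val hr
  have h2 : t * (pi ^ j * r') = pi ^ j * (t * r') := by ring
  rw [wn_eq c j h', h2, wn_eq c j (odd_mul ho h'), ← h2, Zsqrtd.norm_mul t, ht, one_mul]

def SS : List (ℤ × ℤ) := [(156347, 4468293), (10918113, 7236908), (1157518, 7235172), (11724852, 4414477), (193367, 4373388), (6158733, 5961413), (3329998, 5312952), (9163182, 8436247), (5748812, 6122958), (6227703, 6096443), (11926228, 7614282), (1164462, 4845667), (10925057, 4847403), (357723, 7668098), (11889208, 7709187), (5923842, 6121162), (8752577, 6769623), (2919393, 3646328), (6333763, 5959617), (5854872, 5986132)]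

lemma SS_ep : ∀ p ∈ SS, ((15 * p.1 + 56 * p.2) % 12082575, (4 * p.1 + 15 * p.2) % 12082575) ∈ SS := by
  decide +kernel

lemma SS_ei : ∀ p ∈ SS, ((15 * p.1 - 56 * p.2) % 12082575, (15 * p.2 - 4 * p.1) % 12082575) ∈ SS := by
  decide +kernel

def okp (u v : ℤ) : Bool :=
  (List.range 14).any fun k => decide (u % 2 ^ ((k + 1) / 2) = 0) && decide (v % 2 ^ (k / 2) = 0) &&
    decide ((12082575 : ℤ) ^ 2 * 2000 ^ k ≤ |u * u - 14 * v * v| * 2553 ^ k)

lemma SS_ok : ∀ p ∈ SS, ∀ x ∈ List.range 8, ∀ y ∈ List.range 4,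
    okp (p.1 + 12082575 * ((x : ℤ) - 4)) (p.2 + 12082575 * ((y : ℤ) - 2)) = true := by
  decide +kernel

lemma SS_ne : ((0 : ℤ), (0 : ℤ)) ∉ SS := by decide +kernel

lemma far {c : ℝ} (hc : 2553 / 1000 ≤ c) : ∀ n : ℕ, ∀ a : O, a.re * a.re + 14 * (a.im * a.im) ≤ n →
    (a.re % 12082575, a.im % 12082575) ∈ SS → (12082575 : ℝ) ^ 2 ≤ wn c a := by
  intro n
  induction n with
  | zero =>
    intro a h hS
    push_cast at h
    have h1 : a.re = 0 := mul_self_eq_zero.mp (by nlinarith [mul_self_nonneg a.re, mul_self_nonneg a.im])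
    have h2 : a.im = 0 := mul_self_eq_zero.mp (by nlinarith [mul_self_nonneg a.re, mul_self_nonneg a.im])
    rw [h1, h2] at hS
    exact absurd hS SS_ne
  | succ n ih =>
    intro a h hS
    have hc2 : (2:ℝ) ≤ c := by linarith
    have ha : a ≠ 0 := by
      rintro rfl
      exact SS_ne hS
    by_cases h1 : (ep * a).re * (ep * a).re + 14 * ((ep * a).im * (ep * a).im) ≤ n
    · rw [← wn_unit c (t := ep) (by decide) (by rw [pi_dvd]; decide) a]
      refine ih _ h1 ?_
      have := SS_ep _ hS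
      convert this using 2
      · simp only [ep, Zsqrtd.re_mul]; omega
      · simp only [ep, Zsqrtd.im_mul]; omega
    by_cases h2 : (ei * a).re * (ei * a).re + 14 * ((ei * a).im * (ei * a).im) ≤ n
    · rw [← wn_unit c (t := ei) (by decide) (by rw [pi_dvd]; decide) a]
      refine ih _ h2 ?_
      have := SS_ei _ hS
      convert this using 2
      · simp only [ei, Zsqrtd.re_mul]; omega
      · simp only [ei, Zsqrtd.im_mul]; omega
    simp only [ep, ei, Zsqrtd.re_mul, Zsqrtd.im_mul] at h1 h2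
    push_cast at h
    have hN : a.norm = a.re * a.re - 14 * a.im * a.im := rfl
    by_cases h3 : (12082575 : ℤ) ^ 2 ≤ |a.norm|
    · have := wn_ge hc2 (k := 0) ha (by simp)
      have h4 : ((12082575 : ℝ)) ^ 2 ≤ |(a.norm : ℝ)| := by exact_mod_cast h3
      simp only [pow_zero, mul_one] at this
      linarith
    obtain ⟨x, hx⟩ : ∃ x, x = a.re := ⟨_, rfl⟩
    obtain ⟨y, hy⟩ : ∃ y, y = a.im := ⟨_, rfl⟩
    rw [← hx, ← hy] at h1 h2 h hN hS
    obtain ⟨T, hT⟩ : ∃ T, T = x * x + 14 * (y * y) := ⟨_, rfl⟩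
    obtain ⟨m, hm⟩ : ∃ m, m = x * y := ⟨_, rfl⟩
    have hT0 : 0 ≤ T := by nlinarith [mul_self_nonneg x, mul_self_nonneg y]
    have g1 : -(2 * T) ≤ 15 * m := by nlinarith
    have g2 : 15 * m ≤ 2 * T := by nlinarith
    have g3 : (15 * m) ^ 2 ≤ (2 * T) ^ 2 := sq_le_sq' g1 g2
    have g4 : a.norm ^ 2 = T ^ 2 - 56 * m ^ 2 := by rw [hN, hT, hm]; ring
    have g5 : T ^ 2 ≤ (15 * |a.norm|) ^ 2 := by rw [mul_pow, sq_abs]; nlinarith
    have g6 : T ≤ 15 * |a.norm| := le_of_sq_le_sq g5 (by positivity)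
    have g7 : T ≤ 15 * 12082575 ^ 2 := by linarith
    have b1 : x < 4 * 12082575 := by nlinarith [mul_self_nonneg y]
    have b2 : -(4 * 12082575) < x := by nlinarith [mul_self_nonneg y]
    have b3 : y < 2 * 12082575 := by nlinarith [mul_self_nonneg x]
    have b4 : -(2 * 12082575) < y := by nlinarith [mul_self_nonneg x]
    have k := SS_ok _ hS (x / 12082575 + 4).toNat (List.mem_range.mpr (by omega)) (y / 12082575 + 2).toNat
      (List.mem_range.mpr (by omega))
    have e1 : x % 12082575 + 12082575 * (((x / 12082575 + 4).toNat : ℤ) - 4) = x := by omega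
    have e2 : y % 12082575 + 12082575 * (((y / 12082575 + 2).toNat : ℤ) - 2) = y := by omega
    simp only [e1, e2, okp, List.any_eq_true, Bool.and_eq_true, decide_eq_true_eq] at k
    obtain ⟨k, -, ⟨k1, k2⟩, k3⟩ := k
    have hd : pi ^ k ∣ a := by
      rw [dvd_coords, ← hx, ← hy]
      exact ⟨Int.dvd_of_emod_eq_zero k1, Int.dvd_of_emod_eq_zero k2⟩
    refine le_trans ?_ (wn_ge hc2 ha hd)
    rw [← hN] at k3
    have k4 : (12082575 : ℝ) ^ 2 * 2000 ^ k ≤ |(a.norm : ℝ)| * 2553 ^ k := by exact_mod_cast k3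
    have k5 : ((2553 : ℝ) / 2000) ^ k ≤ (c / 2) ^ k := pow_le_pow_left₀ (by norm_num) (by linarith) k
    have k6 : (12082575 : ℝ) ^ 2 ≤ |(a.norm : ℝ)| * ((2553 : ℝ) / 2000) ^ k := by
      rw [div_pow, ← mul_div_assoc, le_div_iff₀ (by positivity)]; exact k4
    exact k6.trans (mul_le_mul_of_nonneg_left k5 (abs_nonneg _))

theorem not_euc {c : ℝ} (hc : 2553 / 1000 ≤ c) : c ∉ window := by
  rintro ⟨-, -, -, -, h⟩
  obtain ⟨q, hq⟩ := h ⟨156347, 4468293⟩ ⟨12082575, 0⟩ (by decide)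
  have hb : wn c (⟨12082575, 0⟩ : O) = (12082575 : ℝ) ^ 2 := by
    have := wn_eq c 0 (r' := (⟨12082575, 0⟩ : O)) (by rw [pi_dvd]; decide)
    simp only [pow_zero, one_mul, mul_one] at this
    rw [this]
    norm_num [Zsqrtd.norm]
  rw [hb] at hq
  obtain ⟨a, ha⟩ : ∃ a : O, a = ⟨156347, 4468293⟩ - ⟨12082575, 0⟩ * q := ⟨_, rfl⟩
  rw [← ha] at hq
  have hT : 0 ≤ a.re * a.re + 14 * (a.im * a.im) := by nlinarith [mul_self_nonneg a.re, mul_self_nonneg a.im]
  have := far hc (a.re * a.re + 14 * (a.im * a.im)).toNat a (by omega) (by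
    have h1 : a.re % 12082575 = 156347 := by rw [ha]; simp only [Zsqrtd.re_sub, Zsqrtd.re_mul]; omega
    have h2 : a.im % 12082575 = 4468293 := by rw [ha]; simp only [Zsqrtd.im_sub, Zsqrtd.im_mul]; omega
    rw [h1, h2]; decide +kernel)
  linarith

end Pool.Agent.H49.W14
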