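import Mathlib

/-! Finite averages, straight orbit segments, matchings. -/

set_option autoImplicit false

namespace Pool.Agent.H49.WH

open Finset Equiv
open scoped Classical

variable {X Y : Type} [Fintype X] [Fintype Y]

noncomputable def av (f : X → ℝ) : ℝ := (∑ x, f x) / Fintype.card X

noncomputable def ind (P : Prop) : ℝ := if P then 1 else 0

lemma ind_pos {P : Prop} (h : P) : ind P = 1 := if_pos h

lemma ind_neg {P : Prop} (h : ¬P) : ind P = 0 := if_neg h

lemma ind_nonneg (P : Prop) : 0 ≤ ind P := by unfold ind; split_ifs <;> norm_num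

lemma ind_le (P : Prop) : ind P ≤ 1 := by unfold ind; split_ifs <;> norm_num

lemma ind_or {P Q R : Prop} (h : P → Q ∨ R) : ind P ≤ ind Q + ind R := by
  unfold ind; split_ifs <;> simp_all

lemma ind_mono {P Q : Prop} (h : P → Q) : ind P ≤ ind Q := by
  unfold ind; split_ifs <;> simp_all

noncomputable def fr (P : X → Prop) : ℝ := av fun x => ind (P x)

lemma av_mono {f g : X → ℝ} (h : ∀ x, f x ≤ g x) : av f ≤ av g :=
  div_le_div_of_nonneg_right (sum_le_sum fun x _ => h x) (Nat.cast_nonneg _)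

lemma av_add (f g : X → ℝ) : av (fun x => f x + g x) = av f + av g := by
  simp only [av, sum_add_distrib, add_div]

lemma av_mul (a : ℝ) (f : X → ℝ) : av (fun x => a * f x) = a * av f := by
  simp only [av, ← mul_sum, mul_div_assoc]

lemma av_sum {ι : Type} (s : Finset ι) (f : ι → X → ℝ) :
    av (fun x => ∑ i ∈ s, f i x) = ∑ i ∈ s, av (f i) := by
  simp only [av]
  rw [sum_comm, sum_div]

lemma av_const [Nonempty X] (a : ℝ) : av (fun _ : X => a) = a := by
  have : (Fintype.card X : ℝ) ≠ 0 := Nat.cast_ne_zero.2 Fintype.card_ne_zero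
  simp only [av, sum_const, card_univ, nsmul_eq_mul]
  field_simp

lemma av_equiv (e : X ≃ Y) (f : Y → ℝ) : av (fun x => f (e x)) = av f := by
  simp only [av, Equiv.sum_comp e f, Fintype.card_congr e]

lemma av_prod (f : X × Y → ℝ) : av f = av fun x => av fun y => f (x, y) := by
  simp only [av, Fintype.sum_prod_type, Fintype.card_prod, Nat.cast_mul, ← sum_div]
  rw [div_div, mul_comm]

lemma fr_nonneg (P : X → Prop) : 0 ≤ fr P :=
  div_nonneg (sum_nonneg fun _ _ => ind_nonneg _) (Nat.cast_nonneg _)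

lemma fr_mono {P Q : X → Prop} (h : ∀ x, P x → Q x) : fr P ≤ fr Q :=
  av_mono fun x => ind_mono (h x)

lemma fr_congr {P Q : X → Prop} (h : ∀ x, P x ↔ Q x) : fr P = fr Q :=
  le_antisymm (fr_mono fun x => (h x).1) (fr_mono fun x => (h x).2)

lemma fr_or {P Q R : X → Prop} (h : ∀ x, P x → Q x ∨ R x) : fr P ≤ fr Q + fr R := by
  rw [fr, fr, fr, ← av_add]
  exact av_mono fun x => ind_or (h x)

lemma fr_false {P : X → Prop} (h : ∀ x, ¬P x) : fr P = 0 := by simp [fr, av, h, ind]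

lemma fr_true [Nonempty X] {P : X → Prop} (h : ∀ x, P x) : fr P = 1 := by
  simp only [fr, h, ind_pos trivial, av_const]

lemma fr_exists {ι : Type} (s : Finset ι) {P : X → Prop} (Q : ι → X → Prop)
    (h : ∀ x, P x → ∃ i ∈ s, Q i x) : fr P ≤ ∑ i ∈ s, fr (Q i) := by
  simp only [fr]
  rw [← av_sum]
  refine av_mono fun x => ?_
  have h0 : ∀ i ∈ s, (0 : ℝ) ≤ ind (Q i x) := fun i _ => ind_nonneg _
  by_cases hp : P x
  · obtain ⟨i, hi, hq⟩ := h x hp
    exact (ind_mono fun _ => hq).trans (single_le_sum h0 hi)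
  · rw [ind_neg hp]; exact sum_nonneg h0

lemma fr_equiv (e : X ≃ Y) (P : Y → Prop) : fr (fun x => P (e x)) = fr P :=
  av_equiv e fun y => ind (P y)

lemma fr_fst [Nonempty Y] (P : X → Prop) : fr (fun z : X × Y => P z.1) = fr P := by
  simp only [fr]
  rw [av_prod]
  exact congrArg av (funext fun x => av_const (ind (P x)))

lemma fr_slice [Nonempty X] {P : X × Y → Prop} {γ : ℝ} (h : ∀ x, fr (fun y => P (x, y)) ≤ γ) :
    fr P ≤ γ := by
  rw [fr, av_prod, ← av_const (X := X) γ]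
  exact av_mono h

lemma fr_eq (P : X → Prop) : fr P = ((univ.filter P).card : ℝ) / Fintype.card X := by
  simp [fr, av, ind]

lemma fr_split (P Q : X → Prop) :
    fr P = fr (fun x => P x ∧ Q x) + fr (fun x => P x ∧ ¬Q x) := by
  rw [fr, fr, fr, ← av_add]
  congr 1
  funext x
  by_cases hp : P x <;> by_cases hq : Q x <;> simp [hp, hq, ind]

/-- number of `j < L` with `Q j` -/
noncomputable def cnt (L : ℕ) (Q : ℕ → Prop) : ℝ := ∑ j ∈ range L, ind (Q j)

lemma cnt_le (L : ℕ) (Q : ℕ → Prop) : cnt L Q ≤ L :=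
  (sum_le_sum fun j _ => ind_le (Q j)).trans (by simp)

lemma cnt_mono {L : ℕ} {P Q : ℕ → Prop} (h : ∀ j < L, P j → Q j) : cnt L P ≤ cnt L Q :=
  sum_le_sum fun j hj => ind_mono (h j (mem_range.1 hj))

lemma cnt_or {L : ℕ} {P Q R : ℕ → Prop} (h : ∀ j, P j → Q j ∨ R j) :
    cnt L P ≤ cnt L Q + cnt L R := by
  rw [cnt, cnt, cnt, ← sum_add_distrib]
  exact sum_le_sum fun j _ => ind_or (h j)

lemma sum_fr (L : ℕ) (Q : ℕ → X → Prop) :
    ∑ j ∈ range L, fr (Q j) = av fun x => cnt L fun j => Q j x := by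
  simp only [fr, cnt]
  rw [av_sum]

lemma exists_match {Λ : Type} [Fintype Λ] (f g : X → Λ) {ε : ℝ} (hε : 0 ≤ ε)
    (h : ∀ l, fr (fun a => g a = l) ≤ fr (fun a => f a = l) + ε) :
    ∃ τ : Perm X, fr (fun a => f (τ a) ≠ g a) ≤ Fintype.card Λ * ε := by
  obtain ⟨τ, -, hτ⟩ := exists_min_image (univ : Finset (Perm X))
    (fun τ => (univ.filter fun a => f (τ a) ≠ g a).card) univ_nonempty
  refine ⟨τ, ?_⟩
  have key : ∀ a a', f (τ a) ≠ g a → f (τ a') ≠ g a' → g a ≠ f (τ a') := by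
    intro a a' ha ha' e
    refine (hτ (τ * swap a a') (mem_univ _)).not_gt (card_lt_card ⟨fun b hb => ?_, fun hs => ?_⟩)
    · simp only [mem_filter, mem_univ, true_and, Perm.mul_apply] at hb ⊢
      by_cases h1 : b = a
      · rwa [h1]
      by_cases h2 : b = a'
      · rwa [h2]
      rwa [swap_apply_of_ne_of_ne h1 h2] at hb
    · have := hs (mem_filter.2 ⟨mem_univ a, ha⟩)
      simp only [mem_filter, mem_univ, true_and, Perm.mul_apply, swap_apply_left] at this
      exact this e.symm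
  refine (fr_exists univ (fun l a => g a = l ∧ f (τ a) ≠ g a) fun a ha =>
    ⟨g a, mem_univ _, rfl, ha⟩).trans ?_
  rw [← nsmul_eq_mul, ← card_univ, ← sum_const]
  refine sum_le_sum fun l _ => ?_
  by_cases hl : ∃ a, g a = l ∧ f (τ a) ≠ g a
  swap
  · rw [fr_false fun a ha => hl ⟨a, ha⟩]; exact hε
  obtain ⟨a, ha, ha'⟩ := hl
  have h1 := fr_split (fun a => g a = l) (fun a => f (τ a) ≠ g a)
  have h2 : fr (fun a => f (τ a) = l) ≤ fr (fun a => g a = l ∧ ¬f (τ a) ≠ g a) :=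
    fr_mono fun b hb => by
      have : ¬f (τ b) ≠ g b := fun hb' => key a b ha' hb' (ha.trans hb.symm)
      exact ⟨by rw [← hb]; exact (not_not.1 this).symm, this⟩
  have h3 := fr_equiv τ (fun a => f a = l)
  have := h l
  linarith

omit [Fintype X] [Fintype Y] in
lemma straight (p : Y → X) (π' : Perm Y) (π : Perm X) (K : ℕ) (z : Y)
    (h : ∀ i ∈ Ico (-K : ℤ) K, p (π' ((π' ^ i) z)) = π (p ((π' ^ i) z))) (j : ℤ) (hj : |j| ≤ K) :
    p ((π' ^ j) z) = (π ^ j) (p z) := by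
  induction j using Int.induction_on with
  | zero => simp
  | succ n ih =>
    have hn := abs_le.1 hj
    have := h n (mem_Ico.2 ⟨by omega, by omega⟩)
    rw [add_comm, zpow_one_add, zpow_one_add, Perm.mul_apply, Perm.mul_apply, this,
      ih (abs_le.2 ⟨by omega, by omega⟩)]
  | pred n ih =>
    have hn := abs_le.1 hj
    have := h (-n - 1) (mem_Ico.2 ⟨by omega, by omega⟩)
    have e : ∀ {Z : Type} (ρ : Perm Z) (w : Z), ρ ((ρ ^ (-(n : ℤ) - 1)) w) = (ρ ^ (-(n : ℤ))) w :=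
      fun ρ w => by
        rw [← Perm.mul_apply, ← zpow_one_add]; congr 2; ring
    rw [e, ih (abs_le.2 ⟨by omega, by omega⟩), ← e] at this
    exact (π.injective this).symm

/-- not straight on `[-K, K]` -/
def NS {X Y : Type} (p : Y → X) (π' : Perm Y) (π : Perm X) (K : ℕ) (z : Y) : Prop :=
  ∃ j : ℤ, |j| ≤ K ∧ p ((π' ^ j) z) ≠ (π ^ j) (p z)

omit [Fintype X] in
lemma fr_NS (p : Y → X) (π' : Perm Y) (π : Perm X) (K : ℕ) {η : ℝ}
    (h : fr (fun z => p (π' z) ≠ π (p z)) ≤ η) : fr (NS p π' π K) ≤ 2 * K * η := by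
  refine (fr_exists (Ico (-K : ℤ) K) (fun i z => p (π' ((π' ^ i) z)) ≠ π (p ((π' ^ i) z)))
    fun z hz => ?_).trans ?_
  · by_contra hc
    push Not at hc
    obtain ⟨j, hj, h'⟩ := hz
    exact h' (straight p π' π K z hc j hj)
  · refine (sum_le_sum fun i _ =>
      ((fr_equiv (π' ^ i) fun z => p (π' z) ≠ π (p z)).le.trans h)).trans ?_
    rw [sum_const, Int.card_Ico, nsmul_eq_mul]
    have : ((K : ℤ) - -(K : ℤ)).toNat = 2 * K := by omega
    rw [this]; push_cast; exact le_rfl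

/-- `x ↦ π ^ c x • x` is an involution, in a strong form -/
def Anti {X : Type} (π : Perm X) (c : X → ℤ) : Prop := ∀ x, c ((π ^ c x) x) = -c x

def sg {X : Type} {π : Perm X} {c : X → ℤ} (h : Anti π c) : Perm X :=
  Function.Involutive.toPerm (fun x => (π ^ c x) x) fun x => by
    simp only [h x]
    rw [← Perm.mul_apply, ← zpow_add]; simp

omit [Fintype X] in
lemma sg_apply {π : Perm X} {c : X → ℤ} (h : Anti π c) (x : X) : sg h x = (π ^ c x) x := rfl

/-- every exponent is a rigidity time along every block of length `L` -/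
def Rig {X K : Type} (π : Perm X) (c : X → ℤ) (κ : X → K) (L : ℕ) (δ : ℝ) : Prop :=
  ∀ x w, cnt L (fun j => κ ((π ^ ((j : ℤ) + c x)) w) ≠ κ ((π ^ (j : ℤ)) w)) ≤ δ * L

omit [Fintype X] in
lemma lift_c (p : Y → X) (π' : Perm Y) {π : Perm X} {c : X → ℤ} (h : Anti π c) {M : ℕ}
    (hM : ∀ x, |c x| ≤ M) {η : ℝ} (hd : fr (fun z => p (π' z) ≠ π (p z)) ≤ η) :
    ∃ c' : Y → ℤ, Anti π' c' ∧ (∀ z, c' z = 0 ∨ ∃ x, c' z = c x) ∧
      fr (fun z => p ((π' ^ c' z) z) ≠ (π ^ c (p z)) (p z)) ≤ 2 * M * η := by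
  let c' : Y → ℤ := fun z => if p ((π' ^ c (p z)) z) = (π ^ c (p z)) (p z) then c (p z) else 0
  refine ⟨c', fun z => ?_, fun z => ?_, (fr_mono fun z hz => ?_).trans (fr_NS p π' π M hd)⟩
  · by_cases hz : p ((π' ^ c (p z)) z) = (π ^ c (p z)) (p z)
    · have e : c' z = c (p z) := if_pos hz
      rw [e]
      simp only [c', hz, h (p z)]
      rw [if_pos]
      rw [← Perm.mul_apply, ← Perm.mul_apply, ← zpow_add, ← zpow_add]; simp
    · have e : c' z = 0 := if_neg hz
      rw [e, zpow_zero, Perm.one_apply, e, neg_zero]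
  · simp only [c']
    split_ifs
    · exact .inr ⟨_, rfl⟩
    · exact .inl rfl
  · refine ⟨c (p z), hM _, fun e => hz ?_⟩
    have e' : c' z = c (p z) := if_pos e
    rw [e', e]

omit [Fintype X] in
lemma block {Z K : Type} [Fintype Z] [Nonempty Y] [Nonempty Z] {π : Perm X} {c : X → ℤ} {κ : X → K}
    {L : ℕ} {δ : ℝ} (hδ : 0 ≤ δ) (rig : Rig π c κ L δ) {M : ℕ} (hM : ∀ x, |c x| ≤ M)
    (p : Y → X) (π1 : Perm Y) {η1 η2 : ℝ} (h1 : fr (fun z => p (π1 z) ≠ π (p z)) ≤ η1)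
    (π2 : Perm (Y × Z)) (h2 : fr (fun z => (π2 z).1 ≠ π1 z.1) ≤ η2) {c2 : Y × Z → ℤ}
    (ha : Anti π2 c2) (h5 : ∀ z (m : ℤ), ((π2 ^ (m + c2 z)) z).1 = ((π2 ^ m) z).1 ∨
      ∃ x, ((π2 ^ (m + c2 z)) z).1 = (π1 ^ c x) ((π2 ^ m) z).1) (m : ℤ) :
    ∑ j ∈ range L, fr (fun z => κ (p ((π2 ^ (m + j + c2 z)) z).1) ≠ κ (p ((π2 ^ (m + j)) z).1)) ≤
      L * (δ + 4 * L * (η1 + η2) + 2 * M * η1) := by
  have d : fr (fun z : Y × Z => p (π2 z).1 ≠ π (p z.1)) ≤ η1 + η2 := by
    refine (fr_or (Q := fun z => p (π1 z.1) ≠ π (p z.1)) (R := fun z => (π2 z).1 ≠ π1 z.1)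
      fun z hz => ?_).trans (add_le_add ?_ h2)
    · by_contra hc
      push Not at hc
      exact hz (by rw [hc.2, hc.1])
    · exact (fr_fst fun z => p (π1 z) ≠ π (p z)).le.trans h1
  have n2 := fr_NS (fun z : Y × Z => p z.1) π2 π L d
  have n1 := fr_NS p π1 π M h1
  set A := NS (fun z : Y × Z => p z.1) π2 π L
  set B := NS p π1 π M
  have a1 := (fr_equiv (π2 ^ m) A).le.trans n2
  have a2 := (fr_equiv (π2 ^ m * sg ha) A).le.trans n2
  have a3 := ((fr_equiv (π2 ^ m) fun z => B z.1).le.trans (fr_fst B).le).trans n1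
  have a4 : fr (fun z => A ((π2 ^ m) z) ∨ A ((π2 ^ m * sg ha) z) ∨ B ((π2 ^ m) z).1) ≤
      4 * L * (η1 + η2) + 2 * M * η1 :=
    ((fr_or fun z hz => hz).trans (add_le_add a1 ((fr_or fun z hz => hz).trans
      (add_le_add a2 a3)))).trans (le_of_eq (by ring))
  rw [sum_fr]
  refine (av_mono (g := fun z => δ * L + L * ind (A ((π2 ^ m) z) ∨ A ((π2 ^ m * sg ha) z) ∨
    B ((π2 ^ m) z).1)) fun z => ?_).trans ?_
  · by_cases hz : A ((π2 ^ m) z) ∨ A ((π2 ^ m * sg ha) z) ∨ B ((π2 ^ m) z).1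
    · rw [ind_pos hz]
      have := cnt_le L fun j => κ (p ((π2 ^ (m + j + c2 z)) z).1) ≠ κ (p ((π2 ^ (m + j)) z).1)
      have : 0 ≤ δ * L := by positivity
      linarith
    rw [ind_neg hz, mul_zero, add_zero]
    simp only [A, B, NS, not_or, not_exists, not_and, not_not] at hz
    obtain ⟨z1, z2, z3⟩ := hz
    have e1 : ∀ j < L, p ((π2 ^ (m + j)) z).1 = (π ^ (j : ℤ)) (p ((π2 ^ m) z).1) := fun j hj => by
      rw [← z1 j (by simp; omega), ← Perm.mul_apply, ← zpow_add, add_comm]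
    have e2 : ∀ j < L, p ((π2 ^ (m + j + c2 z)) z).1 =
        (π ^ (j : ℤ)) (p ((π2 ^ (m + c2 z)) z).1) := fun j hj => by
      have := z2 j (by simp; omega)
      rw [Perm.mul_apply, sg_apply, ← Perm.mul_apply (π2 ^ m), ← zpow_add, ← Perm.mul_apply,
        ← zpow_add] at this
      rw [← this]; congr 4; ring
    rcases h5 z m with h | ⟨x, h⟩
    · refine le_trans (cnt_mono (Q := fun _ => False) fun j hj hq => hq ?_) ?_
      · rw [e1 j hj, e2 j hj, h]
      · simp only [cnt, ind_neg not_false, sum_const_zero]; positivity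
    · refine le_trans (cnt_mono fun j hj hq => ?_) (rig x (p ((π2 ^ m) z).1))
      rwa [e1 j hj, e2 j hj, h, z3 _ (hM x), ← Perm.mul_apply, ← zpow_add] at hq
  · rw [av_add, av_const, av_mul]
    have : (0 : ℝ) ≤ L := Nat.cast_nonneg _
    have := mul_le_mul_of_nonneg_left a4 this
    simp only [fr] at this
    linarith

end Pool.Agent.H49.WH
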