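import Pool.Agent.H49.WH2

/-! The combinatorial step. -/

set_option autoImplicit false

namespace Pool.Agent.H49.WH

open Finset Equiv
open scoped Classical

lemma exists_bound {Y : Type} [Fintype Y] (c : Y → ℤ) : ∃ M : ℕ, ∀ x, |c x| ≤ M :=
  ⟨∑ x, (c x).natAbs, fun x => by
    rw [← Int.natCast_natAbs]
    exact_mod_cast single_le_sum (f := fun x => (c x).natAbs) (fun _ _ => Nat.zero_le _)
      (mem_univ x)⟩

def skew {Y Z : Type} (π : Perm Y) (s : Perm Z) (φ : Z → ℤ) (m : ℤ) (z : Y × Z) : Y × Z :=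
  ((π ^ (m + φ ((s ^ m) z.2) - φ z.2)) z.1, (s ^ m) z.2)

lemma skew_add {Y Z : Type} (π : Perm Y) (s : Perm Z) (φ : Z → ℤ) (a b : ℤ) (z : Y × Z) :
    skew π s φ a (skew π s φ b z) = skew π s φ (a + b) z := by
  simp only [skew, ← Perm.mul_apply, ← zpow_add]
  congr 3; ring

lemma skew_zero {Y Z : Type} (π : Perm Y) (s : Perm Z) (φ : Z → ℤ) (z : Y × Z) :
    skew π s φ 0 z = z := by simp [skew]

def skewP {Y Z : Type} (π : Perm Y) (s : Perm Z) (φ : Z → ℤ) : Perm (Y × Z) :=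
  ⟨skew π s φ 1, skew π s φ (-1), fun z => by rw [skew_add]; exact skew_zero _ _ _ _,
    fun z => by rw [skew_add]; exact skew_zero _ _ _ _⟩

lemma skewP_zpow {Y Z : Type} (π : Perm Y) (s : Perm Z) (φ : Z → ℤ) (m : ℤ) (z : Y × Z) :
    (skewP π s φ ^ m) z = skew π s φ m z := by
  induction m using Int.induction_on generalizing z with
  | zero => rw [skew_zero]; rfl
  | succ n ih => rw [zpow_add_one, Perm.mul_apply, ih, ← skew_add]; rfl
  | pred n ih => rw [zpow_sub_one, Perm.mul_apply, ih, sub_eq_add_neg, ← skew_add]; rfl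

theorem build {Y : Type} [Fintype Y] [Nonempty Y] (π : Perm Y) {c : Y → ℤ} (ha : Anti π c) (B : ℕ)
    {η γ δ : ℝ} (hη : 0 < η) (hγ : 0 < γ) (hδ : 0 < δ) :
    ∃ (Z : Type) (_ : Fintype Z) (_ : Nonempty Z) (π2 : Perm (Y × Z)) (c2 : Y × Z → ℤ) (L : ℕ),
      B ≤ L ∧ Anti π2 c2 ∧ fr (fun z => (π2 z).1 ≠ π z.1) ≤ η ∧
      fr (fun z => ((π2 ^ c2 z) z).1 ≠ (π ^ c z.1) z.1) ≤ γ ∧ Rig π2 c2 Prod.fst L δ ∧
      ∀ z (m : ℤ), ((π2 ^ (m + c2 z)) z).1 = ((π2 ^ m) z).1 ∨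
        ((π2 ^ (m + c2 z)) z).1 = (π ^ c z.1) ((π2 ^ m) z).1 := by
  obtain ⟨M, hM⟩ := exists_bound c
  obtain ⟨Z, _, _, s, φ, u, L, g0, g1, g2, g3, g4, g5, g6⟩ :=
    gadget M (orderOf π) B (orderOf_pos π) hη hγ hδ
  have pw : ∀ {a b : ℤ}, (orderOf π : ℤ) ∣ a - b → π ^ a = π ^ b := fun h =>
    zpow_eq_zpow_iff_modEq.2 (Int.modEq_iff_dvd.2 h).symm
  have mv : ∀ z : Y × Z, u (c z.1) z.2 ≠ 0 → (skewP π s φ ^ u (c z.1) z.2) z =
      ((π ^ c z.1) z.1, (s ^ u (c z.1) z.2) z.2) := fun z hz => by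
    rw [skewP_zpow, skew, pw (b := c z.1)]
    have := (g1 (c z.1) z.2).add (g2 _ _ hz).1
    rwa [← add_sub_assoc, ← add_sub_assoc] at this
  refine ⟨Z, inferInstance, inferInstance, skewP π s φ, fun z => u (c z.1) z.2, L, g0, fun z => ?_,
    ?_, fr_slice fun x => ?_, fun z w => ?_, fun z m => ?_⟩
  · by_cases hz : u (c z.1) z.2 = 0
    · simp [hz]
    · simp only [mv z hz, ha z.1]
      exact (g2 _ _ hz).2
  · refine fr_slice fun x => le_trans (fr_mono fun y hy => ?_) g6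
    refine fun e => hy ?_
    change (π ^ (1 + φ ((s ^ (1 : ℤ)) y) - φ y)) x = π x
    rw [zpow_one, e]; simp
  · by_cases hx : c x = 0
    · refine (fr_false fun y hy => hy ?_).le.trans hγ.le
      by_cases hz : u (c x) y = 0
      · simp only [hz]; simp [hx]
      · rw [mv (x, y) hz]
    · exact le_trans (fr_mono fun y hy => by_contra fun hz => hy (by rw [mv (x, y) hz]))
        (g3 _ (hM x) hx)
  · refine le_trans (cnt_mono fun j _ hj => ?_) (g5 (c z.1) z.2 w.2)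
    refine fun e => hj ?_
    simp only [skewP_zpow, skew]
    rw [e, pw]
    have := g1 (c z.1) z.2
    rwa [show ∀ a b c d : ℤ, a + b + c - d - (a + c - d) = b from fun _ _ _ _ => by ring]
  · simp only [skewP_zpow, skew]
    have e : (s ^ (m + u (c z.1) z.2)) z.2 = (s ^ u (c z.1) z.2) ((s ^ m) z.2) := by
      rw [← Perm.mul_apply, ← zpow_add, add_comm]
    rw [e, ← Perm.mul_apply (π ^ c z.1), ← zpow_add]
    refine (g4 (c z.1) z.2 ((s ^ m) z.2)).imp (fun h => ?_) fun h => ?_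
    · rw [pw]
      have := (g1 (c z.1) z.2).add h
      rwa [show ∀ a b c d e : ℤ, a + b + c - d - (a + e - d) = b + (c - e) from
        fun _ _ _ _ _ => by ring]
    · rw [pw]
      have := (g1 (c z.1) z.2).add h
      rwa [show ∀ a b c d e f : ℤ, a + b + c - d - (f + (a + e - d)) = b + (c - e - f) from
        fun _ _ _ _ _ _ => by ring]

lemma congr_zpow {V W : Type} (E : V ≃ W) (π : Perm V) (m : ℤ) (v : V) :
    ((E.permCongr π : Perm W) ^ m) (E v) = E ((π ^ m) v) := by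
  have := map_zpow E.permCongrHom π m
  change E.permCongr (π ^ m) = E.permCongr π ^ m at this
  rw [← this]; simp

theorem step {X Y K : Type} [Fintype Y] [Nonempty Y] {π : Perm X} {c : X → ℤ} (ha : Anti π c)
    {κ : X → K} {L : ℕ} {δ : ℝ} (hδ : 0 ≤ δ) (rig : Rig π c κ L δ) {M : ℕ} (hM : ∀ x, |c x| ≤ M)
    (p : Y → X) (π1 : Perm Y) {η1 : ℝ} (h1 : fr (fun z => p (π1 z) ≠ π (p z)) ≤ η1) (B : ℕ)
    {η2 γ δ' : ℝ} (hη : 0 < η2) (hγ : 0 < γ) (hδ' : 0 < δ') :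
    ∃ q : ℕ, 0 < q ∧ ∀ (W : Type) [Fintype W] (E : Y × Fin q ≃ W) (P : W → Y),
      (∀ z, P (E z) = z.1) → ∃ (π2 : Perm W) (c2 : W → ℤ) (L' : ℕ),
      B ≤ L' ∧ Anti π2 c2 ∧ fr (fun z => P (π2 z) ≠ π1 (P z)) ≤ η2 ∧
      fr (fun z => p (P ((π2 ^ c2 z) z)) ≠ (π ^ c (p (P z))) (p (P z))) ≤ γ + 2 * M * η1 ∧
      Rig π2 c2 P L' δ' ∧ ∀ m : ℤ, ∑ j ∈ range L,
        fr (fun z => κ (p (P ((π2 ^ (m + j + c2 z)) z))) ≠ κ (p (P ((π2 ^ (m + j)) z)))) ≤
          L * (δ + 4 * L * (η1 + η2) + 2 * M * η1) := by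
  obtain ⟨c1, a1, a2, a3⟩ := lift_c p π1 ha hM h1
  obtain ⟨Z, _, _, π2, c2, L', b0, b1, b2, b3, b4, b5⟩ := build π1 a1 B hη hγ hδ'
  refine ⟨Fintype.card Z, Fintype.card_pos, fun W _ E0 P hP0 => ?_⟩
  let E : Y × Z ≃ W := (Equiv.prodCongr (Equiv.refl Y) (Fintype.equivFin Z)).trans E0
  have hP : ∀ z, P (E z) = z.1 := fun z => hP0 _
  have z1 : ∀ v, (E.permCongr π2) (E v) = E (π2 v) := fun v => by simp
  refine ⟨E.permCongr π2, fun w => c2 (E.symm w), L', b0, fun w => ?_, ?_, ?_, fun w w' => ?_,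
    fun m => ?_⟩
  · obtain ⟨v, rfl⟩ := E.surjective w
    simp only [congr_zpow, symm_apply_apply, b1 v]
  · rw [← fr_equiv E]
    simpa only [z1, hP] using b2
  · rw [← fr_equiv E]
    simp only [congr_zpow, symm_apply_apply, hP]
    refine (fr_or (Q := fun z => ((π2 ^ c2 z) z).1 ≠ (π1 ^ c1 z.1) z.1)
      (R := fun z => p ((π1 ^ c1 z.1) z.1) ≠ (π ^ c (p z.1)) (p z.1)) fun z hz => ?_).trans
      (add_le_add b3 ((fr_fst fun y => p ((π1 ^ c1 y) y) ≠ (π ^ c (p y)) (p y)).le.trans a3))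
    by_contra hc
    push Not at hc
    exact hz (by rw [hc.1, hc.2])
  · obtain ⟨v, rfl⟩ := E.surjective w'
    simpa only [congr_zpow, hP] using b4 (E.symm w) v
  · refine le_trans (le_of_eq (sum_congr rfl fun j _ => ?_))
      (block hδ rig hM p π1 h1 π2 b2 b1 (fun z m => ?_) m)
    · rw [← fr_equiv E]
      simp only [congr_zpow, symm_apply_apply, hP]
    · rcases b5 z m with h | h
      · exact .inl h
      rcases a2 z.1 with h' | ⟨x, h'⟩
      · left; rw [h, h']; rfl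
      · exact .inr ⟨x, by rw [h, h']⟩

end Pool.Agent.H49.WH
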