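import Pool.Agent.H49.WH1

/-! Levels on the unit interval and limits of interval permutations. -/

set_option autoImplicit false

namespace Pool.Agent.H49.WH

open MeasureTheory Filter Topology Set Equiv
open scoped Classical

noncomputable abbrev μ : Measure ℝ := volume.restrict (Icc (0 : ℝ) 1)

instance : IsProbabilityMeasure μ := ⟨by simp [μ]⟩

abbrev G : Type := {T : ℝ ≃ᵐ ℝ // MeasurePreserving (T : ℝ → ℝ) μ μ}

lemma mkIso (f g : ℝ → ℝ) (hf : MeasurePreserving f μ μ) (hg' : MeasurePreserving g μ μ)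
    (h : ∀ᵐ x ∂μ, g (f x) = x) : ∃ e : G, (e.1 : ℝ → ℝ) =ᵐ[μ] f := by
  have mf := hf.measurable
  have hg := hg'.measurable
  have m1 : MeasurableSet {x | g (f x) = x} := measurableSet_eq_fun (by fun_prop) (by fun_prop)
  have m2 : MeasurableSet {x | f (g x) = x} := measurableSet_eq_fun (by fun_prop) (by fun_prop)
  have h2 : ∀ᵐ x ∂μ, f (g x) = x := by
    rw [← hf.map_eq, ae_map_iff mf.aemeasurable m2]
    filter_upwards [h] with x hx using by rw [hx]
  set N := {x | g (f x) = x} ∩ {x | f (g x) = x} with hN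
  set X := ⋂ n : ℕ, (f^[n] ⁻¹' N ∩ g^[n] ⁻¹' N) with hX
  have mX : MeasurableSet X := MeasurableSet.iInter fun n =>
    ((mf.iterate n) (m1.inter m2)).inter ((hg.iterate n) (m1.inter m2))
  have aX : ∀ᵐ x ∂μ, x ∈ X := by
    simp only [hX, mem_iInter]
    exact ae_all_iff.mpr fun n => ((hf.iterate n).quasiMeasurePreserving.ae (h.and h2)).and
      ((hg'.iterate n).quasiMeasurePreserving.ae (h.and h2))
  have x0 : ∀ x ∈ X, g (f x) = x ∧ f (g x) = x := fun x hx => (mem_iInter.mp hx 0).1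
  have fX : ∀ x ∈ X, f x ∈ X := fun x hx => mem_iInter.mpr fun n =>
    ⟨(mem_iInter.mp hx (n + 1)).1, by
      cases n with
      | zero => exact (mem_iInter.mp hx 1).1
      | succ n =>
        show g^[n] (g (f x)) ∈ N
        rw [(x0 x hx).1]; exact (mem_iInter.mp hx n).2⟩
  have gX : ∀ x ∈ X, g x ∈ X := fun x hx => mem_iInter.mpr fun n =>
    ⟨by
      cases n with
      | zero => exact (mem_iInter.mp hx 1).2
      | succ n =>
        show f^[n] (f (g x)) ∈ N
        rw [(x0 x hx).2]; exact (mem_iInter.mp hx n).1, (mem_iInter.mp hx (n + 1)).2⟩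
  let e : ℝ ≃ᵐ ℝ :=
    { toFun := X.piecewise f id
      invFun := X.piecewise g id
      left_inv := fun x => by
        by_cases hx : x ∈ X
        · simp [hx, fX x hx, (x0 x hx).1]
        · simp [hx]
      right_inv := fun x => by
        by_cases hx : x ∈ X
        · simp [hx, gX x hx, (x0 x hx).2]
        · simp [hx]
      measurable_toFun := mf.piecewise mX measurable_id
      measurable_invFun := hg.piecewise mX measurable_id }
  have e1 : (e : ℝ → ℝ) =ᵐ[μ] f := aX.mono fun x hx => piecewise_eq_of_mem _ _ _ hx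
  exact ⟨⟨e, hf.congr e.measurable e1.symm⟩, e1⟩

noncomputable def ms (P : ℝ → Prop) : ℝ := μ.real {t | P t}

lemma ae_Ico : ∀ᵐ t ∂μ, t ∈ Ico (0 : ℝ) 1 := by
  rw [μ, ← Measure.restrict_congr_set Ico_ae_eq_Icc]
  exact ae_restrict_mem measurableSet_Ico

lemma ms_nonneg (P : ℝ → Prop) : 0 ≤ ms P := measureReal_nonneg

lemma ms_ae {P Q : ℝ → Prop} (h : ∀ᵐ t ∂μ, P t → Q t) : ms P ≤ ms Q :=
  ENNReal.toReal_mono (measure_ne_top _ _) (measure_mono_ae h)

lemma ms_mono {P Q : ℝ → Prop} (h : ∀ t ∈ Ico (0 : ℝ) 1, P t → Q t) : ms P ≤ ms Q :=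
  ms_ae (ae_Ico.mono h)

lemma ms_or {P Q R : ℝ → Prop} (h : ∀ᵐ t ∂μ, P t → Q t ∨ R t) : ms P ≤ ms Q + ms R :=
  (ms_ae h).trans (measureReal_union_le {t | Q t} {t | R t})

lemma ms_or' {P Q R : ℝ → Prop} (h : ∀ t ∈ Ico (0 : ℝ) 1, P t → Q t ∨ R t) : ms P ≤ ms Q + ms R :=
  ms_or (ae_Ico.mono h)

lemma ms_exists {ι : Type} (s : Finset ι) {P : ℝ → Prop} (Q : ι → ℝ → Prop)
    (h : ∀ t, P t → ∃ i ∈ s, Q i t) : ms P ≤ ∑ i ∈ s, ms (Q i) :=
  (measureReal_mono (fun t ht => by simpa using h t ht) (measure_ne_top _ _)).trans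
    (measureReal_biUnion_finset_le s fun i => {t | Q i t})

lemma ms_comp {f : ℝ → ℝ} (hf : MeasurePreserving f μ μ) {P : ℝ → Prop}
    (hP : MeasurableSet {t | P t}) : ms (fun t => P (f t)) = ms P :=
  congrArg ENNReal.toReal (hf.measure_preimage hP.nullMeasurableSet)

lemma ms_equiv {f : ℝ ≃ᵐ ℝ} (hf : MeasurePreserving f μ μ) (P : ℝ → Prop) :
    ms (fun t => P (f t)) = ms P :=
  congrArg ENNReal.toReal (hf.measure_preimage_equiv {t | P t})

lemma ms_iter {f : ℝ ≃ᵐ ℝ} (hf : MeasurePreserving f μ μ) (n : ℕ) (P : ℝ → Prop) :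
    ms (fun t => P (f^[n] t)) = ms P := by
  induction n with
  | zero => rfl
  | succ n ih => exact (ms_equiv hf fun t => P (f^[n] t)).trans ih

lemma ae_freq {B : ℕ → ℝ → Prop} {e : ℕ → ℝ} (he : Tendsto e atTop (𝓝 0))
    (h : ∀ k, ms (B k) ≤ e k) : ∀ᵐ t ∂μ, ∃ᶠ k in atTop, ¬B k t := by
  have : ∀ K, ∀ᵐ t ∂μ, ¬∀ k ≥ K, B k t := fun K => by
    rw [ae_iff, ← measureReal_eq_zero_iff]
    refine le_antisymm (ge_of_tendsto he (eventually_atTop.2 ⟨K, fun k hk => ?_⟩))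
      measureReal_nonneg
    exact (ms_mono (P := fun t => ¬¬∀ k ≥ K, B k t) fun t _ ht => not_not.1 ht k hk).trans (h k)
  filter_upwards [ae_all_iff.2 this] with t ht
  rw [frequently_atTop]
  intro K
  have := ht K
  push Not at this
  exact this

noncomputable def lv (n : ℕ+) (t : ℝ) : Fin n := ⟨⌊((n : ℕ) : ℝ) * t⌋₊ % n, Nat.mod_lt _ n.pos⟩

noncomputable def pos {n : ℕ+} (a : Fin n) : ℝ := (a.val : ℝ) / (n : ℕ)

noncomputable def pr (n : ℕ+) {n' : ℕ+} (a : Fin n') : Fin n := lv n (pos a)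

lemma np (n : ℕ+) : (0 : ℝ) < (n : ℕ) := Nat.cast_pos.2 n.pos

lemma lv_val (n : ℕ+) {t : ℝ} (ht : t ∈ Ico (0 : ℝ) 1) : (lv n t).val = ⌊((n : ℕ) : ℝ) * t⌋₊ :=
  Nat.mod_eq_of_lt ((Nat.floor_lt (mul_nonneg (np n).le ht.1)).2
    (mul_lt_of_lt_one_right (np n) ht.2))

lemma lv_iff (n : ℕ+) {t : ℝ} (ht : t ∈ Ico (0 : ℝ) 1) (a : Fin n) :
    lv n t = a ↔ pos a ≤ t ∧ t < pos a + 1 / (n : ℕ) := by
  rw [Fin.ext_iff, lv_val n ht, Nat.floor_eq_iff (mul_nonneg (np n).le ht.1), pos, ← add_div,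
    div_le_iff₀' (np n), lt_div_iff₀' (np n)]

lemma pos_le {n : ℕ+} (a : Fin n) : 0 ≤ pos a ∧ pos a + 1 / (n : ℕ) ≤ 1 := by
  refine ⟨div_nonneg (Nat.cast_nonneg _) (np n).le, ?_⟩
  rw [pos, ← add_div, div_le_one (np n)]
  exact_mod_cast a.2

lemma pos_mem {n : ℕ+} (a : Fin n) : pos a ∈ Ico (0 : ℝ) 1 :=
  ⟨(pos_le a).1, by have := (pos_le a).2; have := one_div_pos.2 (np n); linarith⟩

lemma pr_self {n : ℕ+} (a : Fin n) : pr n a = a :=
  (lv_iff n (pos_mem a) a).2 ⟨le_rfl, by have := one_div_pos.2 (np n); linarith⟩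

lemma pr_val {n n' : ℕ+} {q : ℕ} (h : (n' : ℕ) = n * q) (a : Fin n') :
    (pr n a).val = a.val / q := by
  have := np n
  rw [pr, lv_val n (pos_mem a), pos, ← Nat.floor_div_eq_div (K := ℝ)]
  congr 1
  rw [show ((n' : ℕ) : ℝ) = (n : ℕ) * q by exact_mod_cast h]; field_simp

lemma pr_lv {n n' : ℕ+} (h : (n : ℕ) ∣ n') {t : ℝ} (ht : t ∈ Ico (0 : ℝ) 1) :
    pr n (lv n' t) = lv n t := by
  obtain ⟨q, h⟩ := h
  have hq : (q : ℝ) ≠ 0 := by
    rintro e
    have := np n'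
    rw [h, Nat.cast_mul, e, mul_zero] at this
    exact this.false
  rw [Fin.ext_iff, pr_val h, lv_val _ ht, lv_val _ ht, ← Nat.floor_div_natCast]
  congr 1
  rw [h]; push_cast; field_simp

lemma pr_pr {n n' n'' : ℕ+} (h : (n : ℕ) ∣ n') (a : Fin n'') : pr n (pr n' a) = pr n a :=
  pr_lv h (pos_mem a)

lemma meas_lv (n : ℕ+) : Measurable (lv n) :=
  (measurable_from_top (f := fun k : ℕ => (⟨k % n, Nat.mod_lt _ n.pos⟩ : Fin n))).comp
    (Nat.measurable_floor.comp (measurable_id.const_mul _))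

lemma ms_Ico {a b : ℝ} (ha : 0 ≤ a) (hab : a ≤ b) (hb : b ≤ 1) :
    ms (fun t => a ≤ t ∧ t < b) = b - a := by
  change μ.real (Ico a b) = _
  rw [measureReal_restrict_apply measurableSet_Ico,
    inter_eq_left.2 ((Ico_subset_Icc_self).trans (Icc_subset_Icc ha hb)), Real.volume_real_Ico_of_le hab]

lemma ms_lv (n : ℕ+) (P : Fin n → Prop) : ms (fun t => P (lv n t)) = fr P := by
  have h1 : ∀ a, μ.real (lv n ⁻¹' {a}) = 1 / (n : ℕ) := fun a => by
    have := one_div_pos.2 (np n)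
    have e := ms_Ico (pos_le a).1 (by linarith) (pos_le a).2
    rw [add_sub_cancel_left] at e
    rw [← e]
    exact le_antisymm (ms_mono fun t ht => (lv_iff n ht a).1) (ms_mono fun t ht => (lv_iff n ht a).2)
  have h2 := sum_measureReal_preimage_singleton (μ := μ) (Finset.univ.filter P) (f := lv n)
    (fun a _ => meas_lv n (measurableSet_singleton a))
  simp only [h1, Finset.sum_const, nsmul_eq_mul, mul_one_div] at h2
  rw [fr_eq, Fintype.card_fin, h2, ms]
  congr 1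
  ext t; simp

lemma fr_pr {n n' : ℕ+} (h : (n : ℕ) ∣ n') (P : Fin n → Prop) :
    fr (fun a : Fin n' => P (pr n a)) = fr P := by
  rw [← ms_lv, ← ms_lv]
  exact le_antisymm (ms_mono fun t ht h' => by rwa [pr_lv h ht] at h')
    (ms_mono fun t ht h' => by rwa [pr_lv h ht])

lemma ms_le_add (x : ℝ) {r : ℝ} (hr : 0 ≤ r) : ms (fun t => t ≤ x + r) ≤ ms (fun t => t ≤ x) + r := by
  refine (ms_or' (Q := fun t => t ≤ x) (R := fun t => x < t ∧ t ≤ x + r)
    fun t _ ht => (le_or_gt t x).imp_right fun h => ⟨h, ht⟩).trans (add_le_add le_rfl ?_)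
  change μ.real (Ioc x (x + r)) ≤ _
  rw [measureReal_restrict_apply measurableSet_Ioc]
  refine (measureReal_mono inter_subset_left (by simp)).trans ?_
  rw [Real.volume_real_Ioc_of_le (by linarith)]; linarith

lemma dvd_of_le {n : ℕ → ℕ+} (hn : ∀ k, (n k : ℕ) ∣ n (k + 1)) {j k : ℕ} (h : j ≤ k) :
    (n j : ℕ) ∣ n k := by
  induction h with
  | refl => rfl
  | step _ ih => exact ih.trans (hn _)

lemma inv_tendsto {n : ℕ → ℕ+} (hk : ∀ k, k ≤ n k) :
    Tendsto (fun k => 1 / ((n k : ℕ) : ℝ)) atTop (𝓝 0) :=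
  tendsto_one_div_atTop_nhds_zero_nat.comp (tendsto_atTop_mono hk tendsto_id)

theorem lim0 {n : ℕ → ℕ+} (hn : ∀ k, (n k : ℕ) ∣ n (k + 1)) (hk : ∀ k, k ≤ n k)
    (τ : ∀ k, Perm (Fin (n k))) {e : ℕ → ℝ} (he : Tendsto e atTop (𝓝 0))
    (hd : ∀ k, fr (fun z => pr (n k) (τ (k + 1) z) ≠ τ k (pr (n k) z)) + e (k + 1) ≤ e k) :
    ∃ f, MeasurePreserving f μ μ ∧
      ∀ k, ms (fun t => lv (n k) (f t) ≠ τ k (lv (n k) t)) ≤ e k := by
  let a : ∀ k, ℝ → Fin (n k) := fun k t => τ k (lv (n k) t)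
  let f : ℝ → ℝ := fun t => limsup (fun k => pos (a k t)) atTop
  have mf : Measurable f := Measurable.limsup fun k =>
    (measurable_from_top (f := fun z => pos (τ k z))).comp (meas_lv (n k))
  have e0 : ∀ k, 0 ≤ e k := (antitone_nat_of_succ_le fun k => by
    have := hd k
    have := fr_nonneg fun z => pr (n k) (τ (k + 1) z) ≠ τ k (pr (n k) z)
    linarith).le_of_tendsto he
  let B : ℕ → ℝ → Prop := fun k t => ∃ j ≥ k, pr (n j) (a (j + 1) t) ≠ a j t
  have b1 : ∀ k N, ms (fun t => ∃ j ≥ k, j < k + N ∧ pr (n j) (a (j + 1) t) ≠ a j t) + e (k + N) ≤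
      e k := fun k N => by
    induction N with
    | zero =>
      have : ms (fun t => ∃ j ≥ k, j < k + 0 ∧ pr (n j) (a (j + 1) t) ≠ a j t) ≤ 0 :=
        (ms_mono (Q := fun _ => False) fun t _ ⟨j, h1, h2, _⟩ => by omega).trans (by simp [ms])
      simpa using this
    | succ N ih =>
      have h1 := hd (k + N)
      rw [← ms_lv] at h1
      have h2 := ms_or' (P := fun t => ∃ j ≥ k, j < k + (N + 1) ∧ pr (n j) (a (j + 1) t) ≠ a j t)
        (Q := fun t => ∃ j ≥ k, j < k + N ∧ pr (n j) (a (j + 1) t) ≠ a j t)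
        (R := fun t => pr (n (k + N)) (τ (k + N + 1) (lv _ t)) ≠
          τ (k + N) (pr (n (k + N)) (lv (n (k + N + 1)) t))) fun t ht ⟨j, h1, h2, h3⟩ => by
        by_cases hj : j < k + N
        · exact .inl ⟨j, h1, hj, h3⟩
        · obtain rfl : j = k + N := by omega
          right
          rwa [pr_lv (hn _) ht]
      rw [← add_assoc] at *
      linarith
  have b2 : ∀ k, ms (B k) ≤ e k := fun k => by
    have h1 := tendsto_measure_iUnion_atTop (μ := μ)
      (s := fun N => {t | ∃ j ≥ k, j < k + N ∧ pr (n j) (a (j + 1) t) ≠ a j t})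
      fun N N' h t ⟨j, h1, h2, h3⟩ => ⟨j, h1, by omega, h3⟩
    have h2 := le_of_tendsto' ((ENNReal.tendsto_toReal (measure_ne_top _ _)).comp h1)
      (b := e k) fun N => by
        have := b1 k N
        have := e0 (k + N)
        change ms _ ≤ _
        linarith
    refine le_trans (measureReal_mono (fun t ht => ?_) (measure_ne_top _ _)) h2
    obtain ⟨j, h1, h3⟩ := ht
    exact mem_iUnion.2 ⟨j + 1, j, h1, by omega, h3⟩
  have c1 : ∀ k t, ¬B k t → ∀ i ≥ k, pr (n k) (a i t) = a k t := fun k t ht i hi => by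
    induction hi with
    | refl => exact pr_self _
    | step hi ih =>
      rw [← pr_pr (dvd_of_le hn hi), not_not.1 fun h => ht ⟨_, hi, h⟩, ih]
  have c2 : ∀ k t, ¬B k t → pos (a k t) ≤ f t ∧ f t ≤ pos (a k t) + 1 / (n k : ℕ) := fun k t ht => by
    have h1 : ∀ᶠ i in atTop, pos (a k t) ≤ pos (a i t) ∧ pos (a i t) < pos (a k t) + 1 / (n k : ℕ) :=
      eventually_atTop.2 ⟨k, fun i hi => (lv_iff _ (pos_mem _) _).1 (c1 k t ht i hi)⟩
    refine ⟨le_limsup_of_frequently_le (h1.mono fun i h => h.1).frequently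
      (isBoundedUnder_of ⟨1, fun i => (pos_mem _).2.le⟩), limsup_le_of_le ?_ (h1.mono fun i h => h.2.le)⟩
    exact isCoboundedUnder_le_of_le _ fun i => (pos_mem _).1
  have d1 : ∀ k (P : ℝ → Prop), ms (fun t => P (pos (a k t))) = ms fun t => P (pos (lv (n k) t)) :=
    fun k P => by
      rw [ms_lv (n k) fun z => P (pos (τ k z)), ms_lv (n k) fun z => P (pos z)]
      exact fr_equiv (τ k) fun z => P (pos z)
  have lim : Tendsto (fun k => e k + 1 / ((n k : ℕ) : ℝ)) atTop (𝓝 0) := by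
    simpa using he.add (inv_tendsto hk)
  have mp : MeasurePreserving f μ μ := by
    have := Measure.isProbabilityMeasure_map (μ := μ) mf.aemeasurable
    refine ⟨mf, Measure.ext_of_Iic _ _ fun x => ?_⟩
    rw [Measure.map_apply mf measurableSet_Iic,
      ← ENNReal.toReal_eq_toReal_iff' (measure_ne_top _ _) (measure_ne_top _ _)]
    change ms (fun t => f t ≤ x) = ms fun t => t ≤ x
    refine le_antisymm (sub_nonpos.1 (ge_of_tendsto' lim fun k => ?_))
      (sub_nonpos.1 (ge_of_tendsto' lim fun k => ?_))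
    · have h1 := ms_or' (P := fun t => f t ≤ x) (Q := B k) (R := fun t => pos (a k t) ≤ x)
        fun t _ ht => (em _).imp_right fun h => (c2 k t h).1.trans ht
      have h2 := ms_mono (P := fun t => pos (lv (n k) t) ≤ x) (Q := fun t => t ≤ x + 1 / (n k : ℕ))
        fun t ht h => by have := ((lv_iff (n k) ht _).1 rfl).2; linarith
      have h3 := ms_le_add x (one_div_pos.2 (np (n k))).le
      have h4 := d1 k fun s => s ≤ x
      have := b2 k
      linarith
    · have h1 := ms_or' (P := fun t => pos (a k t) ≤ x - 1 / (n k : ℕ)) (Q := B k)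
        (R := fun t => f t ≤ x)
        fun t _ ht => (em _).imp_right fun h => by have := (c2 k t h).2; linarith
      have h2 := ms_mono (P := fun t => t ≤ x - 1 / (n k : ℕ))
        (Q := fun t => pos (lv (n k) t) ≤ x - 1 / (n k : ℕ))
        fun t ht h => ((lv_iff _ ht _).1 rfl).1.trans h
      have h3 := ms_le_add (x - 1 / (n k : ℕ)) (one_div_pos.2 (np (n k))).le
      have h4 := d1 k fun s => s ≤ x - 1 / (n k : ℕ)
      have := b2 k
      rw [sub_add_cancel] at h3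
      linarith
  refine ⟨f, mp, fun k => le_trans (ms_ae ?_) (b2 k)⟩
  have : ∀ᵐ s ∂μ, ∀ z : Fin (n k), s ≠ pos z + 1 / (n k : ℕ) :=
    ae_all_iff.2 fun z => compl_mem_ae_iff.2 (measure_singleton _)
  filter_upwards [mp.quasiMeasurePreserving.ae this] with t ht h
  by_contra hB
  have h1 := c2 k t hB
  have h2 := h1.2.lt_of_ne (ht _)
  have h3 := pos_le (a k t)
  exact h ((lv_iff _ ⟨h3.1.trans h1.1, h2.trans_le h3.2⟩ _).2 ⟨h1.1, h2⟩)

lemma fr_inv {X Y : Type} [Fintype Y] (p : Y → X) (π' : Perm Y) (π : Perm X) :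
    fr (fun z => p (π'⁻¹ z) ≠ π⁻¹ (p z)) = fr fun z => p (π' z) ≠ π (p z) := by
  rw [← fr_equiv π']
  exact fr_congr fun z => by
    rw [Perm.coe_inv, symm_apply_apply, Ne, Ne, Perm.eq_inv_iff_eq, eq_comm]

theorem lim {n : ℕ → ℕ+} (hn : ∀ k, (n k : ℕ) ∣ n (k + 1)) (hk : ∀ k, k ≤ n k)
    (τ : ∀ k, Perm (Fin (n k))) {e : ℕ → ℝ} (he : Tendsto e atTop (𝓝 0))
    (hd : ∀ k, fr (fun z => pr (n k) (τ (k + 1) z) ≠ τ k (pr (n k) z)) + e (k + 1) ≤ e k) :
    ∃ T : G, ∀ k, ms (fun t => lv (n k) (T.1 t) ≠ τ k (lv (n k) t)) ≤ e k := by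
  obtain ⟨f, hf, h1⟩ := lim0 hn hk τ he hd
  obtain ⟨g, hg, h2⟩ := lim0 hn hk (fun k => (τ k)⁻¹) he fun k => by rw [fr_inv]; exact hd k
  have h3 : ∀ k, ms (fun t => lv (n k) (g (f t)) ≠ lv (n k) t) ≤ e k + e k := fun k => by
    refine (ms_or' (Q := fun t => lv (n k) (f t) ≠ τ k (lv (n k) t))
      (R := fun t => lv (n k) (g (f t)) ≠ (τ k)⁻¹ (lv (n k) (f t))) fun t _ ht => ?_).trans
      (add_le_add (h1 k) (le_trans (ms_comp hf
        (P := fun s => lv (n k) (g s) ≠ (τ k)⁻¹ (lv (n k) s)) ?_).le (h2 k)))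
    · by_contra hc
      push Not at hc
      exact ht (by rw [hc.2, hc.1]; simp)
    · exact (measurableSet_eq_fun ((meas_lv _).comp hg.measurable)
        (measurable_from_top.comp (meas_lv _))).compl
  obtain ⟨T, hT⟩ := mkIso f g hf hg (by
    filter_upwards [ae_freq (by simpa using he.add he) h3, ae_Ico,
      (hg.comp hf).quasiMeasurePreserving.ae ae_Ico] with t a b c
    by_contra hc
    have h4 := (inv_tendsto hk).eventually (gt_mem_nhds (abs_pos.2 (sub_ne_zero.2 hc)))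
    obtain ⟨k, k1, k2⟩ := (a.and_eventually h4).exists
    have h5 := (lv_iff _ c _).1 (not_not.1 k1)
    have h6 := (lv_iff (n k) b _).1 rfl
    simp only [Function.comp] at h5
    exact k2.not_gt (abs_lt.2 ⟨by linarith [h5.1, h6.2], by linarith [h5.2, h6.1]⟩))
  exact ⟨T, fun k => le_trans (ms_ae (hT.mono fun t ht h => by rwa [← ht])) (h1 k)⟩

end Pool.Agent.H49.WH
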