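import Mathlib

set_option autoImplicit false

namespace Pool.Agent.H49.WM

open Finset Filter Topology MeasureTheory

lemma exl {X : Type} (U : Ultrafilter X) (g : X → ℝ) (C : ℝ) (h : ∀ x, |g x| ≤ C) :
    ∃ r, Tendsto g U (𝓝 r) := by
  obtain ⟨r, _, h2⟩ := (isCompact_Icc (a := -C) (b := C)).ultrafilter_le_nhds (U.map g)
    (by simp only [Ultrafilter.coe_map, le_principal_iff, Filter.mem_map]
        exact Eventually.of_forall fun x => abs_le.1 (h x))
  exact ⟨r, h2⟩

/-- Cesaro average -/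
noncomputable def ces (u : ℕ → ℝ) (N : ℕ) : ℝ := (N : ℝ)⁻¹ * ∑ n ∈ range N, u n

lemma ces_le {u v : ℕ → ℝ} (h : ∀ n, u n ≤ v n) (N : ℕ) : ces u N ≤ ces v N :=
  mul_le_mul_of_nonneg_left (sum_le_sum fun n _ => h n) (by positivity)

lemma ces_const {c : ℝ} (hc : 0 ≤ c) (N : ℕ) : ces (fun _ => c) N ≤ c := by
  rcases N.eq_zero_or_pos with rfl | h
  · simpa [ces]
  · have : (N : ℝ) ≠ 0 := by positivity
    simp [ces, this]

lemma ces_add (u v : ℕ → ℝ) (N : ℕ) : ces (fun n => u n + v n) N = ces u N + ces v N := by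
  simp [ces, sum_add_distrib, mul_add]

lemma ces_mul (c : ℝ) (u : ℕ → ℝ) (N : ℕ) : ces (fun n => c * u n) N = c * ces u N := by
  simp only [ces, ← mul_sum]; ring

lemma ces_nonneg {u : ℕ → ℝ} (h : ∀ n, 0 ≤ u n) (N : ℕ) : 0 ≤ ces u N :=
  mul_nonneg (by positivity) (sum_nonneg fun n _ => h n)

lemma ces_abs {u : ℕ → ℝ} {c : ℝ} (h : ∀ n, |u n| ≤ c) (N : ℕ) : |ces u N| ≤ c := by
  refine le_trans ?_ ((ces_le h N).trans (ces_const ((abs_nonneg _).trans (h 0)) N))
  unfold ces
  rw [abs_mul, abs_of_nonneg (by positivity)]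
  exact mul_le_mul_of_nonneg_left (abs_sum_le_sum_abs _ _) (by positivity)

lemma ces_small {l : Filter ℕ} {u : ℕ → ℝ} (h0 : ∀ n, 0 ≤ u n)
    (h : ∀ ε : ℝ, 0 < ε → ∃ v : ℕ → ℝ, Tendsto (ces v) l (𝓝 0) ∧ ∀ n, u n ≤ ε + v n) :
    Tendsto (ces u) l (𝓝 0) := by
  refine tendsto_order.2 ⟨fun a ha => Eventually.of_forall fun N => ha.trans_le (ces_nonneg h0 N),
    fun a ha => ?_⟩
  obtain ⟨v, h1, h2⟩ := h (a / 2) (by linarith)
  filter_upwards [h1.eventually (gt_mem_nhds (show 0 < a / 2 by linarith))] with N hN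
  have := ces_le h2 N
  rw [ces_add] at this
  linarith [ces_const (show 0 ≤ a / 2 by linarith) N]

variable {V : Type} [AddCommGroup V] [Module ℝ V]

lemma cs {I : LinearMap.BilinForm ℝ V} (hs : ∀ a b, I a b = I b a) (hp : ∀ v, 0 ≤ I v v) (a b : V) :
    I a b ^ 2 ≤ I a a * I b b := by
  have := LinearMap.BilinForm.apply_mul_apply_le_of_forall_zero_le I hp a b
  rwa [hs b a, ← sq] at this

lemma tr {I : LinearMap.BilinForm ℝ V} (hs : ∀ a b, I a b = I b a) (hp : ∀ v, 0 ≤ I v v)
    (s : Finset ℕ) (g : ℕ → V) {C η : ℝ} (hC : 0 ≤ C) (hη : 0 ≤ η) (h1 : ∀ i, I (g i) (g i) ≤ C)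
    (h2 : ∀ i ∈ s, ∀ j ∈ s, i ≠ j → |I (g i) (g j)| ≤ η) {v : V} (hv : I v v ≤ 1) :
    ∑ i ∈ s, I v (g i) * I v (g i) ≤ C + η * s.card := by
  set t : ℕ → ℝ := fun i => I v (g i) with ht
  set σ := ∑ i ∈ s, t i * t i with hσ
  have s0 : 0 ≤ σ := sum_nonneg fun i _ => mul_self_nonneg _
  have e1 : I v (∑ i ∈ s, t i • g i) = σ := by simp [hσ, ht]
  have e2 : I (∑ i ∈ s, t i • g i) (∑ i ∈ s, t i • g i) ≤ (C + η * s.card) * σ := by
    have : I (∑ i ∈ s, t i • g i) (∑ i ∈ s, t i • g i) =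
        ∑ i ∈ s, ∑ j ∈ s, t i * t j * I (g j) (g i) := by
      simp [mul_sum, mul_assoc]
    rw [this]
    have b : ∀ i ∈ s, ∀ j ∈ s, t i * t j * I (g j) (g i) ≤
        (if j = i then C * (t i * t i) else 0) + (η / 2 * (t i * t i) + η / 2 * (t j * t j)) := by
      intro i hi j hj
      split_ifs with h
      · subst h
        nlinarith [mul_self_nonneg (t j), h1 j, mul_nonneg hη (mul_self_nonneg (t j))]
      · have := abs_le.1 (h2 j hj i hi h)
        nlinarith [mul_nonneg (sub_nonneg.2 this.2) (mul_self_nonneg (t i + t j)),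
          mul_nonneg (sub_nonneg.2 this.1) (mul_self_nonneg (t i - t j))]
    refine (sum_le_sum fun i hi => sum_le_sum fun j hj => b i hi j hj).trans (le_of_eq ?_)
    simp only [sum_add_distrib, sum_ite_eq', sum_const, nsmul_eq_mul, ← mul_sum]
    rw [sum_congr rfl fun i hi => if_pos hi, ← mul_sum, ← hσ]
    ring
  have e3 := cs hs hp v (∑ i ∈ s, t i • g i)
  rw [e1] at e3
  have e4 : σ ^ 2 ≤ (C + η * s.card) * σ :=
    e3.trans ((mul_le_of_le_one_left (hp _) hv).trans e2)
  by_contra hc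
  have : 0 ≤ C + η * s.card := by positivity
  nlinarith

theorem wm {I : LinearMap.BilinForm ℝ V} (hs : ∀ a b, I a b = I b a) (hp : ∀ v, 0 ≤ I v v)
    (x y : ℤ → V) (hx : ∀ n, I (x n) (x n) ≤ 1) (hy : ∀ n, I (y n) (y n) ≤ 1)
    (hxy : ∀ n m, I (x (n + 1)) (y (m + 1)) = I (x n) (y m)) {β : ℝ} (b0 : 0 < β) (b1 : 2 * β < 1)
    (k : ℕ → ℤ) (h1 : ∀ m, Tendsto (fun i => I (y (k i)) (y m)) atTop
      (𝓝 (β * I (y (-1)) (y m) + (1 - 2 * β) * I (y 0) (y m) + β * I (y 1) (y m))))
    (h2 : ∀ ε : ℝ, 0 < ε → ∃ N : ℕ, 0 < N ∧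
      I ((N : ℝ)⁻¹ • ∑ n ∈ range N, y n) ((N : ℝ)⁻¹ • ∑ n ∈ range N, y n) ≤ ε) :
    Tendsto (ces fun n => |I (x n) (y 0)|) atTop (𝓝 0) := by
  classical
  rw [tendsto_iff_ultrafilter]
  intro U hU
  have sq : ∀ n g, I (x n) g * I (x n) g ≤ I g g := fun n g => by
    have := cs hs hp (x n) g
    nlinarith [hx n, hp g]
  have bd : ∀ n g h, |I (x n) g * I (x n) h| ≤ I g g + I h h := fun n g h => by
    have := sq n g
    have := sq n h
    rw [abs_le]
    constructor <;> nlinarith [mul_self_nonneg (I (x n) g + I (x n) h),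
      mul_self_nonneg (I (x n) g - I (x n) h), hp g, hp h]
  choose B0 hB using fun g h => exl U (ces fun n => I (x n) g * I (x n) h) _
    (ces_abs fun n => bd n g h)
  have Bs0 : ∀ g h, B0 g h = B0 h g := fun g h =>
    tendsto_nhds_unique (hB g h) (by simpa only [mul_comm] using hB h g)
  have Ba : ∀ g g' h, B0 (g + g') h = B0 g h + B0 g' h := fun g g' h =>
    tendsto_nhds_unique (hB _ _) (((hB g h).add (hB g' h)).congr fun N => by
      simp only [← ces_add, map_add, add_mul])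
  have Bm : ∀ (c : ℝ) g h, B0 (c • g) h = c • B0 g h := fun c g h =>
    tendsto_nhds_unique (hB _ _) (((hB g h).const_mul c).congr fun N => by
      simp only [← ces_mul, map_smul, smul_eq_mul, mul_assoc])
  set B : LinearMap.BilinForm ℝ V := LinearMap.mk₂ ℝ B0 Ba Bm
    (fun h g g' => by rw [Bs0, Ba, Bs0 g, Bs0 g']) (fun c h g => by rw [Bs0, Bm, Bs0 g]) with hBd
  replace hB : ∀ g h, Tendsto (ces fun n => I (x n) g * I (x n) h) U (𝓝 (B g h)) := hB
  have Bs : ∀ g h, B g h = B h g := Bs0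
  clear_value B
  have Bp : ∀ g, 0 ≤ B g g := fun g =>
    ge_of_tendsto' (hB g g) fun N => ces_nonneg (fun n => mul_self_nonneg _) N
  have Bl : ∀ g, B g g ≤ I g g := fun g =>
    le_of_tendsto' (hB g g) fun N => (ces_le (fun n => sq n g) N).trans (ces_const (hp g) N)
  have Bi : ∀ a b, B (y (a + 1)) (y (b + 1)) = B (y a) (y b) := by
    intro a b
    have t0 : Tendsto (fun N : ℕ => (4 : ℝ) / N) atTop (𝓝 0) := tendsto_const_div_atTop_nhds_zero_nat 4
    rw [← sub_eq_zero]
    refine tendsto_nhds_unique ((hB _ _).sub (hB _ _)) (squeeze_zero_norm (fun N => ?_) (t0.mono_left hU))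
    set u : ℕ → ℝ := fun n => I (x n) (y (a + 1)) * I (x n) (y (b + 1)) with hu
    have := sum_range_sub u N
    have e : ∀ n : ℕ, I (x n) (y a) * I (x n) (y b) = u (n + 1) := fun n => by
      simp only [hu]; push_cast; rw [hxy, hxy]
    have ub : ∀ n, |u n| ≤ 2 := fun n => (bd _ _ _).trans (by linarith [hy (a + 1), hy (b + 1)])
    simp only [ces, e]
    rw [sum_sub_distrib] at this
    rw [← mul_sub, ← neg_sub, this, Real.norm_eq_abs, abs_mul, abs_neg, abs_of_nonneg (by positivity),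
      div_eq_inv_mul]
    exact mul_le_mul_of_nonneg_left ((abs_sub _ _).trans (by linarith [ub N, ub 0])) (by positivity)
  have Bk : ∀ c a : ℤ, B (y (a + c)) (y a) = B (y c) (y 0) := by
    intro c a
    induction a using Int.induction_on with
    | zero => simp
    | succ k ih => rw [← ih, ← Bi (k + c), add_right_comm]
    | pred k ih => rw [← ih, ← Bi, add_right_comm, sub_add_cancel]
  set P := β • y (-1) + (1 - 2 * β) • y 0 + β • y 1 with hP
  set g : ℕ → V := fun i => y (k i) - P with hg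
  have w1 : ∀ m, Tendsto (fun j => I (g j) (y m)) atTop (𝓝 0) := fun m => by
    simpa [hg, hP] using tendsto_sub_nhds_zero_iff.2 (h1 m)
  have w2 : ∀ i, Tendsto (fun j => I (g j) (g i)) atTop (𝓝 0) := fun i => by
    simpa [hP, show g i = y (k i) - P from rfl] using (w1 (k i)).sub ((((w1 (-1)).const_mul β).add
      ((w1 0).const_mul (1 - 2 * β))).add ((w1 1).const_mul β))
  have gb : ∀ i, I (g i) (g i) ≤ 2 + 2 * I P P := fun i => by
    have := hp (y (k i) + P)
    simp only [hg, map_sub, map_add, LinearMap.sub_apply, LinearMap.add_apply] at this ⊢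
    linarith [hy (k i)]
  have w3 : Tendsto (fun i => B (g i) (g i)) atTop (𝓝 0) := by
    refine tendsto_order.2 ⟨fun a ha => Eventually.of_forall fun i => ha.trans_le (Bp _),
      fun δ hδ => ?_⟩
    by_contra hc
    rw [not_eventually] at hc
    have ex : ∀ η : ℝ, 0 < η → ∀ K : ℕ, ∃ s : Finset ℕ, s.card = K ∧ (∀ i ∈ s, δ ≤ B (g i) (g i)) ∧
        ∀ i ∈ s, ∀ j ∈ s, i ≠ j → |I (g i) (g j)| ≤ η := by
      intro η hη K
      induction K with
      | zero => exact ⟨∅, by simp⟩
      | succ K ih =>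
        obtain ⟨s, c1, c2, c3⟩ := ih
        have e1 : ∀ᶠ j in atTop, ∀ i ∈ s, |I (g j) (g i)| ≤ η := (eventually_all_finset s).2
          fun i _ => (w2 i).abs.eventually (ge_mem_nhds (by simpa using hη))
        have e2 : ∀ᶠ j in atTop, j ∉ s := by
          rw [← Nat.cofinite_eq_atTop]; exact s.eventually_cofinite_notMem
        obtain ⟨j, j1, j2, j3⟩ := (hc.and_eventually (e1.and e2)).exists
        refine ⟨insert j s, by rw [card_insert_of_notMem j3, c1], ?_, ?_⟩
        · simpa using ⟨not_lt.1 j1, c2⟩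
        · intro a ha b hb hab
          rcases mem_insert.1 ha with rfl | ha' <;> rcases mem_insert.1 hb with rfl | hb'
          · exact absurd rfl hab
          · exact j2 _ hb'
          · rw [hs]; exact j2 _ ha'
          · exact c3 _ ha' _ hb' hab
    obtain ⟨K, hK⟩ := exists_nat_gt ((2 + 2 * I P P) / (δ / 2))
    obtain ⟨s, c1, c2, c3⟩ := ex (δ / 2) (by linarith) K
    have t1 : ∑ i ∈ s, B (g i) (g i) ≤ 2 + 2 * I P P + δ / 2 * s.card := by
      refine le_of_tendsto' (tendsto_finsetSum s fun i _ => hB (g i) (g i)) fun N => ?_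
      have hC : 0 ≤ 2 + 2 * I P P := by linarith [hp P]
      refine le_trans (le_of_eq ?_) ((ces_le (fun n => tr hs hp s g hC (by linarith) gb c3 (hx n))
        N).trans (ces_const (by positivity) N))
      simp only [ces, ← mul_sum]
      rw [sum_comm]
    have t2 := sum_le_sum c2
    rw [sum_const, nsmul_eq_mul] at t2
    rw [div_lt_iff₀ (by linarith)] at hK
    rw [c1] at t1 t2
    nlinarith
  have w4 : Tendsto (fun i => B (g i) P) atTop (𝓝 0) := by
    have := (w3.mul_const (B P P)).sqrt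
    rw [zero_mul, Real.sqrt_zero] at this
    exact squeeze_zero_norm (fun i => Real.abs_le_sqrt (cs Bs Bp _ _)) this
  have B0' : ∀ a, B (y a) (y a) = B (y 0) (y 0) := fun a => by simpa using Bk 0 a
  have e1 : B (y 0) (y 0) = B P P := by
    refine tendsto_nhds_unique (l := atTop) (f := fun i => B (g i) (g i) + 2 * B (g i) P + B P P)
      (tendsto_const_nhds.congr fun i => ?_) (by simpa using (w3.add (w4.const_mul 2)).add_const (B P P))
    rw [← B0' (k i)]
    simp only [hg, map_sub, LinearMap.sub_apply, Bs P (y (k i))]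
    ring
  have e2 : B (y 0) (y 0) ≤ B (y 1) (y 0) := by
    have a1 := Bp (y 1 - y (-1))
    have a2 : B (y 0) (y (-1)) = B (y 1) (y 0) := by simpa using Bk 1 (-1)
    simp only [hP, map_add, map_sub, map_smul, LinearMap.add_apply, LinearMap.sub_apply,
      LinearMap.smul_apply, smul_eq_mul, B0' 1, B0' (-1), Bs (y (-1)) (y 1), Bs (y (-1)) (y 0),
      Bs (y 0) (y 1), a2] at e1 a1
    by_contra hc
    nlinarith [mul_pos (mul_pos b0 (sub_pos.2 b1)) (sub_pos.2 (not_le.1 hc)),
      mul_nonneg (mul_pos b0 b0).le a1]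
  have e3 : ∀ n : ℕ, B (y n) (y 0) = B (y 0) (y 0) := by
    intro n
    induction n with
    | zero => simp
    | succ n ih =>
      have a1 := cs Bs Bp (y (n + 1) - y n) (y 0)
      have a2 : B (y (n + 1) - y n) (y (n + 1) - y n) ≤ 0 := by
        simp only [map_sub, LinearMap.sub_apply, B0' (n + 1), B0' n, Bs (y n) (y (n + 1)), Bk 1 n]
        linarith
      have a3 := pow_eq_zero_iff (two_ne_zero) |>.1
        (le_antisymm (a1.trans (mul_nonpos_of_nonpos_of_nonneg a2 (Bp _))) (sq_nonneg _))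
      push_cast
      simp only [map_sub, LinearMap.sub_apply] at a3
      linarith
  have e4 : B (y 0) (y 0) = 0 := by
    by_contra hc
    have hc' := lt_of_le_of_ne (Bp _) (Ne.symm hc)
    obtain ⟨N, hN, a1⟩ := h2 _ (half_pos hc')
    have a2 := cs Bs Bp ((N : ℝ)⁻¹ • ∑ n ∈ range N, y n) (y 0)
    have a3 : B ((N : ℝ)⁻¹ • ∑ n ∈ range N, y n) (y 0) = B (y 0) (y 0) := by
      have : (N : ℝ) ≠ 0 := by positivity
      simp [e3, this]
    rw [a3] at a2
    nlinarith [Bl ((N : ℝ)⁻¹ • ∑ n ∈ range N, y n)]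
  refine ces_small (fun n => abs_nonneg _) fun ε hε => ⟨fun n => ε⁻¹ * (I (x n) (y 0) * I (x n) (y 0)),
    ?_, fun n => ?_⟩
  · have := (hB (y 0) (y 0)).const_mul ε⁻¹
    rw [e4, mul_zero] at this
    exact this.congr fun N => (ces_mul _ _ _).symm
  · simp only
    rw [← abs_mul_abs_self, ← div_eq_inv_mul, ← sub_le_iff_le_add', le_div_iff₀ hε]
    nlinarith [sq_nonneg (|I (x n) (y 0)| - ε), abs_nonneg (I (x n) (y 0))]

variable {X : Type} [m : MeasurableSpace X]

lemma dyn (μ : Measure X) [IsProbabilityMeasure μ] (ν : ℕ → Measure X) (hν : ∀ n, ν n ≤ μ) {c : ℝ}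
    (c0 : 0 ≤ c) (c1 : c ≤ 1) (hc : ∀ n, (ν n).real Set.univ = c) {𝒞 : Set (Set X)}
    (hg : m = MeasurableSpace.generateFrom 𝒞) (hπ : IsPiSystem 𝒞)
    (h : ∀ A ∈ 𝒞, Tendsto (ces fun n => |(ν n).real A - μ.real A * c|) atTop (𝓝 0)) (A : Set X)
    (hA : MeasurableSet A) : Tendsto (ces fun n => |(ν n).real A - μ.real A * c|) atTop (𝓝 0) := by
  have fin : ∀ n, IsFiniteMeasure (ν n) := fun n => isFiniteMeasure_of_le μ (hν n)
  induction A, hA using MeasurableSpace.induction_on_inter hg hπ with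
  | empty => exact tendsto_const_nhds.congr fun N => by simp [ces]
  | basic A hA => exact h A hA
  | compl A hA ih =>
    refine ih.congr fun N => ?_
    congr 1
    funext n
    rw [measureReal_compl hA, measureReal_compl hA, hc, probReal_univ, abs_sub_comm]
    congr 1; ring
  | iUnion f hd hm ih =>
    refine ces_small (fun n => abs_nonneg _) fun ε hε => ?_
    have s1 : ∀ (ρ : Measure X) [IsFiniteMeasure ρ], HasSum (fun k => ρ.real (f k)) (ρ.real (⋃ k, f k)) :=
      fun ρ _ => by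
        unfold Measure.real
        rw [measure_iUnion hd hm]
        have : ∑' k, ρ (f k) ≠ ⊤ := by rw [← measure_iUnion hd hm]; exact measure_ne_top _ _
        rw [ENNReal.tsum_toReal_eq fun k => measure_ne_top _ _]
        exact ENNReal.hasSum_toReal this
    obtain ⟨K, hK⟩ := ((s1 μ).tendsto_sum_nat.eventually
      (lt_mem_nhds (show μ.real (⋃ k, f k) - ε < _ by linarith))).exists
    refine ⟨fun n => ∑ k ∈ range K, |(ν n).real (f k) - μ.real (f k) * c|, ?_, fun n => ?_⟩
    · have := tendsto_finsetSum (range K) fun k _ => ih k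
      rw [sum_const_zero] at this
      refine this.congr fun N => ?_
      simp only [ces, ← mul_sum]
      rw [sum_comm]
    · have a1 := sum_le_hasSum (f := fun k => μ.real (f k) - (ν n).real (f k)) (range K)
        (fun k _ => sub_nonneg.2 (ENNReal.toReal_mono (measure_ne_top μ (f k)) (hν n (f k))))
        ((s1 μ).sub (s1 (ν n)))
      have a2 := sum_le_hasSum (range K) (fun k _ => measureReal_nonneg) (s1 (ν n))
      have a3 := sum_le_hasSum (range K) (fun k _ => measureReal_nonneg) (s1 μ)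
      have a4 := abs_le.1 (abs_sum_le_sum_abs (fun k => (ν n).real (f k) - μ.real (f k) * c) (range K))
      simp only [sum_sub_distrib, ← sum_mul] at a1 a4
      simp only
      rw [abs_le]
      constructor <;> nlinarith [a4.1, a4.2, mul_nonneg (sub_nonneg.2 a3) c0,
        mul_nonneg (sub_nonneg.2 a3) (sub_nonneg.2 c1)]

theorem ext_wm (μ : Measure X) [IsProbabilityMeasure μ] {T : X → X} (hT : MeasurePreserving T μ μ)
    {𝒞 : Set (Set X)} (hg : m = MeasurableSpace.generateFrom 𝒞) (hπ : IsPiSystem 𝒞)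
    (h : ∀ A ∈ 𝒞, ∀ B ∈ 𝒞,
      Tendsto (ces fun n => |μ.real (T^[n] ⁻¹' A ∩ B) - μ.real A * μ.real B|) atTop (𝓝 0))
    (A B : Set X) (hA : MeasurableSet A) (hB : MeasurableSet B) :
    Tendsto (ces fun n => |μ.real (T^[n] ⁻¹' A ∩ B) - μ.real A * μ.real B|) atTop (𝓝 0) := by
  have mc : ∀ B ∈ 𝒞, MeasurableSet B := fun B hB => hg ▸ MeasurableSpace.measurableSet_generateFrom hB
  have s1 : ∀ B ∈ 𝒞,
      Tendsto (ces fun n => |μ.real (T^[n] ⁻¹' A ∩ B) - μ.real A * μ.real B|) atTop (𝓝 0) := by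
    intro B hB
    have e : ∀ n A, MeasurableSet A → ((μ.restrict B).map T^[n]).real A = μ.real (T^[n] ⁻¹' A ∩ B) :=
      fun n A hA => by
        rw [map_measureReal_apply (hT.iterate n).measurable hA,
          measureReal_restrict_apply ((hT.iterate n).measurable hA)]
    simpa only [e _ _ hA] using dyn μ (fun n => (μ.restrict B).map T^[n]) (c := μ.real B)
      (fun n => (Measure.map_mono Measure.restrict_le_self (hT.iterate n).measurable).trans
        (hT.iterate n).map_eq.le) measureReal_nonneg measureReal_le_one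
      (fun n => by simp [e _ _ MeasurableSet.univ]) hg hπ
      (fun A hA => by simpa only [e _ _ (mc A hA)] using h A hA B hB) A hA
  have e : ∀ n B, MeasurableSet B → (μ.restrict (T^[n] ⁻¹' A)).real B = μ.real (T^[n] ⁻¹' A ∩ B) :=
    fun n B hB => by rw [measureReal_restrict_apply hB, Set.inter_comm]
  simpa only [e _ _ hB, mul_comm] using dyn μ (fun n => μ.restrict (T^[n] ⁻¹' A)) (c := μ.real A)
    (fun n => Measure.restrict_le_self) measureReal_nonneg measureReal_le_one
    (fun n => by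
      rw [e _ _ MeasurableSet.univ, Set.inter_univ]
      exact (hT.iterate n).measureReal_preimage hA.nullMeasurableSet) hg hπ
    (fun B hB => by simpa only [e _ _ (mc B hB), mul_comm] using s1 B hB) B hB

end Pool.Agent.H49.WM
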