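import Pool.Agent.H49.WM1

set_option autoImplicit false

namespace Pool.Agent.H49.WM

open Finset Filter Topology MeasureTheory

/-- periods -/
def T (κ : ℕ) : ℕ → ℕ
  | 0 => 1
  | i + 1 => κ * (κ * T κ i ^ 4)

/-- block lengths -/
def S (κ i : ℕ) : ℕ := κ * T κ i ^ 4

/-- slips -/
def τ (κ i : ℕ) (u : ℤ) : ℤ := if u % (κ * S κ i) < 10 * S κ i then 1 else 0

/-- periodic models -/
def a (κ : ℕ) : ℕ → ℤ → Bool
  | 0, u => decide (u % 10 = 0)
  | i + 1, u => a κ i (u + τ κ i u) && decide ((T κ i : ℤ) ^ 3 ≤ u % S κ i)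

variable {κ : ℕ} (hκ : 128 ≤ κ)

lemma T_succ (i : ℕ) : T κ (i + 1) = κ * S κ i := rfl

include hκ in
lemma T_pos (i : ℕ) : 0 < T κ i := by
  induction i with
  | zero => exact one_pos
  | succ i ih => have : 0 < κ := by omega
                 rw [T]; positivity

include hκ in
lemma S_pos (i : ℕ) : 0 < S κ i := by
  have : 0 < κ := by omega
  have := T_pos hκ i
  unfold S; positivity

lemma T_dvd (i : ℕ) : (T κ i : ℤ) ∣ T κ (i + 1) :=
  ⟨κ * κ * T κ i ^ 3, by rw [T]; push_cast; ring⟩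

include hκ in
lemma T_two (i : ℕ) : 2 * T κ i ≤ T κ (i + 1) := by
  have h := T_pos hκ i
  have : T κ i ≤ T κ i ^ 4 := Nat.le_self_pow (by norm_num) _
  rw [T]
  exact Nat.mul_le_mul (by omega) (this.trans (Nat.le_mul_of_pos_left _ (by omega)))

include hκ in
lemma T_mono : StrictMono (T κ) := strictMono_nat_of_lt_succ fun i => by
  have := T_two hκ i
  have := T_pos hκ i
  omega

lemma τ_per (i : ℕ) (u : ℤ) {r : ℤ} (h : (T κ (i + 1) : ℤ) ∣ r) : τ κ i (u + r) = τ κ i u := by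
  obtain ⟨k, rfl⟩ := h
  simp [τ, T_succ]

lemma S_per (i : ℕ) (u : ℤ) {r : ℤ} (h : (T κ (i + 1) : ℤ) ∣ r) : (u + r) % S κ i = u % S κ i := by
  obtain ⟨k, rfl⟩ := h
  rw [T_succ]; push_cast
  rw [mul_comm (κ : ℤ), mul_assoc, Int.add_mul_emod_self_left]

lemma sub_mod {u r Q : ℤ} (hQ : 0 < Q) (h0 : 0 ≤ r) (h : r ≤ u % Q) : (u - r) % Q = u % Q - r := by
  have := Int.emod_lt_of_pos u hQ
  rw [Int.sub_emod, Int.emod_eq_of_lt h0 (by omega), Int.emod_eq_of_lt (by omega) (by omega)]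

include hκ in
lemma blk (i : ℕ) {u r : ℤ} (h0 : 0 ≤ r) (h : r ≤ u % S κ i) : τ κ i (u - r) = τ κ i u := by
  have hS : (0 : ℤ) < S κ i := by exact_mod_cast S_pos hκ i
  have hQ : (0 : ℤ) < κ * S κ i := mul_pos (by omega) hS
  have e : u % (κ * S κ i) % S κ i = u % S κ i := Int.emod_emod_of_dvd _ (Dvd.intro_left _ rfl)
  have w0 := Int.emod_nonneg u hQ.ne'
  set w := u % (κ * S κ i) with hw
  have d := Int.mul_ediv_add_emod w (S κ i)
  have d0 : 0 ≤ w / S κ i := Int.ediv_nonneg w0 hS.le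
  have d1 := Int.emod_lt_of_pos w hS
  unfold τ
  rw [sub_mod hQ h0 (by nlinarith), ← hw]
  refine if_congr ⟨fun h' => ?_, fun h' => by omega⟩ rfl rfl
  have : w / S κ i < 10 := by nlinarith
  nlinarith

lemma τ01 (i : ℕ) (u : ℤ) : τ κ i u = 0 ∨ τ κ i u = 1 := by
  unfold τ; split_ifs <;> simp

lemma a_per (i : ℕ) : ∀ (u : ℤ) {r : ℤ}, (10 * T κ i : ℤ) ∣ r → a κ i (u + r) = a κ i u := by
  induction i with
  | zero => intro u r h; simp only [a, T] at h ⊢; congr 2; omega
  | succ i ih =>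
    intro u r h
    have h' := (Dvd.intro_left _ rfl).trans h
    simp only [a, τ_per i u h', S_per i u h']
    rw [add_right_comm, ih _ ((mul_dvd_mul_left _ (T_dvd i)).trans h)]

include hκ in
lemma down1 (l : ℕ) {r d : ℤ} (hd : |d| ≤ 1) : (T κ l : ℤ) ∣ r → ∀ u, a κ l u → a κ l (u + r + d) →
    (r + d) % 10 = 0 := by
  induction l with
  | zero => intro _ u h1 h2; simp only [a, decide_eq_true_eq] at h1 h2; omega
  | succ l ih =>
    intro h u h1 h2
    have t1 : (1 : ℤ) ≤ (T κ l : ℤ) ^ 3 := one_le_pow₀ (by exact_mod_cast T_pos hκ l)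
    simp only [a, Bool.and_eq_true, decide_eq_true_eq, add_right_comm u r d, τ_per l _ h,
      S_per l _ h] at h1 h2
    have : τ κ l (u + d) = τ κ l u := by
      rcases (by rw [abs_le] at hd; omega : d = 0 ∨ d = 1 ∨ d = -1) with rfl | rfl | rfl
      · simp
      · rw [← blk hκ l (u := u + 1) zero_le_one (by omega)]; simp
      · exact blk hκ l zero_le_one (by omega)
    refine ih ((T_dvd l).trans h) _ h1.1 ?_
    rw [this] at h2
    convert h2.1 using 2; ring

include hκ in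
lemma down2 {j : ℕ} {r : ℤ} (h1 : (T κ j : ℤ) ∣ r) (h0 : 0 ≤ r) (h2 : r ≤ (T κ (j + 1) : ℤ) ^ 3)
    (h3 : 2 ≤ r % 10) (h4 : r % 10 ≤ 8) (i : ℕ) (hi : j + 1 ≤ i) :
    ∀ u, a κ i u → a κ i (u + r) → False := by
  induction i, hi using Nat.le_induction with
  | base =>
    intro u b1 b2
    simp only [a, Bool.and_eq_true] at b1 b2
    have := down1 hκ j (d := τ κ j (u + r) - τ κ j u) (by
      rcases τ01 (κ := κ) j u with h | h <;> rcases τ01 (κ := κ) j (u + r) with h' | h' <;>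
        simp [h, h']) h1 _ b1.1 (by convert b2.1 using 2; ring)
    rcases τ01 (κ := κ) j u with h | h <;> rcases τ01 (κ := κ) j (u + r) with h' | h' <;> omega
  | succ i hi ih =>
    intro u b1 b2
    simp only [a, Bool.and_eq_true, decide_eq_true_eq] at b1 b2
    have : (T κ (j + 1) : ℤ) ^ 3 ≤ (T κ i : ℤ) ^ 3 := by
      have := (T_mono hκ).monotone hi
      gcongr
    have e := blk hκ i (u := u + r) h0 (by omega)
    rw [add_sub_cancel_right] at e
    exact ih _ b1.1 (by rw [e]; convert b2.1 using 2; ring)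

lemma sum_blocks (f : ℤ → ℝ) (P k : ℕ) :
    ∑ u ∈ range (k * P), f u = ∑ j ∈ range k, ∑ v ∈ range P, f (j * P + v) := by
  induction k with
  | zero => simp
  | succ k ih => rw [Nat.succ_mul, sum_range_add, sum_range_succ, ih]; push_cast; rfl

lemma sum_shift {h : ℤ → ℝ} {P : ℕ} (hP : ∀ u, h (u + P) = h u) (c : ℤ) :
    ∑ u ∈ range P, h (c + u) = ∑ u ∈ range P, h u := by
  have st : ∀ c : ℤ, ∑ u ∈ range P, h (c + 1 + u) = ∑ u ∈ range P, h (c + u) := fun c => by
    have h1 := sum_range_succ (fun u : ℕ => h (c + u)) P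
    have h2 := sum_range_succ' (fun u : ℕ => h (c + u)) P
    push_cast at h2
    simp only [hP, add_zero, add_comm _ (1 : ℤ), ← add_assoc] at h1 h2 ⊢
    simp only [add_comm (1 : ℤ) c] at h2 ⊢
    linarith
  induction c using Int.induction_on with
  | zero => simp
  | succ k ih => rw [st, ih]
  | pred k ih => rw [← st, sub_add_cancel, ih]

lemma sum_per {h : ℤ → ℝ} {P : ℕ} (hP : ∀ u, h (u + P) = h u) (c : ℤ) (k : ℕ) :
    ∑ u ∈ range (k * P), h (c + u) = k * ∑ u ∈ range P, h u := by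
  rw [sum_blocks (fun u => h (c + u))]
  simp only [← add_assoc, sum_shift hP, sum_const, card_range, nsmul_eq_mul]

/-- average over a period -/
noncomputable def avg (κ i : ℕ) (h : ℤ → ℝ) : ℝ := (∑ u ∈ range (10 * T κ i), h u) / (10 * T κ i)

/-- periodicity -/
def Per (κ i : ℕ) (h : ℤ → ℝ) : Prop := ∀ u r, (10 * T κ i : ℤ) ∣ r → h (u + r) = h u

lemma Per.p {i : ℕ} {h : ℤ → ℝ} (hp : Per κ i h) (u : ℤ) : h (u + (10 * T κ i : ℕ)) = h u :=
  hp u _ (by simp)

lemma Per.sh {i : ℕ} {h : ℤ → ℝ} (hp : Per κ i h) (c : ℤ) : Per κ i fun u => h (u + c) :=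
  fun u r hr => by simp only [add_right_comm u r, hp _ r hr]

lemma Per.mul {i : ℕ} {h g : ℤ → ℝ} (hp : Per κ i h) (hg : Per κ i g) :
    Per κ i fun u => h u * g u := fun u r hr => by simp only [hp _ r hr, hg _ r hr]

lemma Per.sub {i : ℕ} {h g : ℤ → ℝ} (hp : Per κ i h) (hg : Per κ i g) :
    Per κ i fun u => h u - g u := fun u r hr => by simp only [hp _ r hr, hg _ r hr]

lemma avg_sh {i : ℕ} {h : ℤ → ℝ} (hp : Per κ i h) (c : ℤ) :
    avg κ i (fun u => h (u + c)) = avg κ i h := by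
  simp only [avg, add_comm _ c, sum_shift hp.p]

lemma avg_add (i : ℕ) (h g : ℤ → ℝ) : avg κ i (fun u => h u + g u) = avg κ i h + avg κ i g := by
  simp only [avg, sum_add_distrib, add_div]

lemma avg_sub (i : ℕ) (h g : ℤ → ℝ) : avg κ i (fun u => h u - g u) = avg κ i h - avg κ i g := by
  simp only [avg, sum_sub_distrib, sub_div]

lemma avg_mul (i : ℕ) (c : ℝ) (g : ℤ → ℝ) : avg κ i (fun u => c * g u) = c * avg κ i g := by
  simp only [avg, ← mul_sum, mul_div_assoc]

lemma avg_cmp (i : ℕ) {h g b : ℤ → ℝ} (hb : ∀ u, |h u - g u| ≤ b u) :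
    |avg κ i h - avg κ i g| ≤ avg κ i b := by
  rw [← avg_sub]
  unfold avg
  rw [abs_div, abs_of_nonneg (a := (10 * T κ i : ℝ)) (by positivity)]
  gcongr
  exact (abs_sum_le_sum_abs _ _).trans (sum_le_sum fun u _ => hb u)

include hκ in
lemma avg_succ {i : ℕ} {h : ℤ → ℝ} (hp : Per κ i h) : avg κ (i + 1) h = avg κ i h := by
  have := sum_per hp.p 0 (κ * κ * T κ i ^ 3)
  have e : 10 * T κ (i + 1) = κ * κ * T κ i ^ 3 * (10 * T κ i) := by rw [T]; ring
  have h1 : (0 : ℝ) < T κ i := by exact_mod_cast T_pos hκ i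
  have h2 : (0 : ℝ) < κ := by exact_mod_cast (by omega : 0 < κ)
  simp only [zero_add] at this
  unfold avg
  rw [e, this, T]
  push_cast
  field_simp

include hκ in
lemma avg_tau {i : ℕ} {h : ℤ → ℝ} (hp : Per κ i h) (c : ℤ) :
    avg κ (i + 1) (fun u => τ κ i (u + c) * h u) = 10 / κ * avg κ i h := by
  have h1 : (0 : ℝ) < T κ i := by exact_mod_cast T_pos hκ i
  have h2 : (0 : ℝ) < κ := by exact_mod_cast (by omega : 0 < κ)
  have hS : (0 : ℤ) < S κ i := by exact_mod_cast S_pos hκ i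
  have p1 : Per κ (i + 1) fun u => τ κ i (u + c) * h u := fun u r hr => by
    simp only [add_right_comm u r c, τ_per i _ ((Dvd.intro_left _ rfl).trans hr),
      hp u r ((mul_dvd_mul_left _ (T_dvd i)).trans hr)]
  rw [← avg_sh p1 (-c)]
  unfold avg
  rw [sum_blocks fun u => τ κ i (u + -c + c) * h (u + -c)]
  have e : ∀ j : ℕ, ∑ v ∈ range (T κ (i + 1)), (τ κ i (j * T κ (i + 1) + v + -c + c) : ℝ) *
      h (j * T κ (i + 1) + v + -c) = (κ * T κ i ^ 3 : ℕ) * ∑ u ∈ range (10 * T κ i), h u := by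
    intro j
    rw [← sum_per hp.p (j * T κ (i + 1) - c), show κ * T κ i ^ 3 * (10 * T κ i) = 10 * S κ i by
      unfold S; ring]
    have le : 10 * S κ i ≤ T κ (i + 1) := Nat.mul_le_mul_right _ (by omega)
    rw [← sum_range_add_sum_Ico _ le]
    have t : ∀ v : ℕ, v < T κ (i + 1) → τ κ i (j * T κ (i + 1) + v + -c + c) =
        if v < 10 * S κ i then 1 else 0 := fun v hv => by
      rw [neg_add_cancel_right, add_comm, τ_per i _ (Dvd.intro_left _ rfl), τ,
        Int.emod_eq_of_lt (by omega) (by rw [T_succ] at hv; exact_mod_cast hv)]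
      exact if_congr (by omega) rfl rfl
    rw [sum_eq_zero (s := Ico _ _) fun v hv => by
      rw [t v (mem_Ico.1 hv).2, if_neg (not_lt.2 (mem_Ico.1 hv).1)]; simp, add_zero]
    refine sum_congr rfl fun v hv => ?_
    rw [t v ((mem_range.1 hv).trans_le le), if_pos (mem_range.1 hv)]
    simp only [Int.cast_one, one_mul]
    congr 1; ring
  simp only [e, sum_const, card_range, nsmul_eq_mul]
  rw [T]
  push_cast
  field_simp

include hκ in
lemma avg_bad (i K : ℕ) (c : ℤ) :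
    avg κ (i + 1) (fun u => if (u + c) % S κ i < K then 1 else 0) ≤ K / S κ i := by
  have hS : (0 : ℝ) < S κ i := by exact_mod_cast S_pos hκ i
  have h2 : (0 : ℝ) < κ := by exact_mod_cast (by omega : 0 < κ)
  have := sum_per (h := fun u => if u % S κ i < K then (1 : ℝ) else 0) (P := S κ i)
    (fun u => by simp) c (10 * κ)
  unfold avg
  simp only [add_comm _ c]
  rw [T_succ, ← mul_assoc, this]
  have b : ∑ u ∈ range (S κ i), (if (u : ℤ) % S κ i < K then (1 : ℝ) else 0) ≤ K := by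
    rw [sum_boole]
    refine Nat.cast_le.2 ((card_le_card (t := range K) fun u hu => ?_).trans (by simp))
    have := mem_filter.1 hu
    have h3 := mem_range.1 this.1
    have h4 := this.2
    rw [Int.emod_eq_of_lt (by omega) (by omega)] at h4
    exact mem_range.2 (by omega)
  push_cast
  rw [div_le_div_iff₀ (by positivity) hS]
  nlinarith [mul_le_mul_of_nonneg_left b (show 0 ≤ 10 * (κ : ℝ) * S κ i by positivity)]

/-- orbit points -/
def orb (κ i : ℕ) (u : ℤ) : ℤ → Bool := fun n => a κ i (u + n)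

/-- local functions -/
def Loc (W : ℕ) (F : (ℤ → Bool) → ℝ) : Prop :=
  ∀ ω ω' : ℤ → Bool, (∀ n : ℤ, |n| ≤ W → ω n = ω' n) → F ω = F ω'

lemma orb_per (i : ℕ) (F : (ℤ → Bool) → ℝ) : Per κ i fun u => F (orb κ i u) := fun u r hr => by
  refine congrArg F (funext fun n => ?_)
  simp only [orb, add_right_comm u r, a_per i _ hr]

include hκ in
lemma good {W : ℕ} {F : (ℤ → Bool) → ℝ} (hF : Loc W F) (i : ℕ) (u : ℤ)
    (h : ¬ (u + W) % S κ i < (T κ i ^ 3 + 2 * W : ℕ)) :
    F (orb κ (i + 1) u) = F (orb κ i (u + τ κ i u)) := by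
  refine hF _ _ fun n hn => ?_
  have hS : (0 : ℤ) < S κ i := by exact_mod_cast S_pos hκ i
  rw [abs_le] at hn
  push_cast at h
  have t0 : (0 : ℤ) ≤ (T κ i : ℤ) ^ 3 := by positivity
  have e1 := blk hκ i (u := u + W) (r := W - n) (by omega) (by omega)
  have e2 := blk hκ i (u := u + W) (r := W) (by omega) (by omega)
  have e3 := sub_mod (u := u + W) (r := W - n) hS (by omega) (by omega)
  rw [show u + W - (W - n) = u + n by ring] at e1 e3
  rw [add_sub_cancel_right] at e2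
  simp only [orb, a, e1, e2, e3]
  rw [decide_eq_true (by omega), Bool.and_true, add_right_comm]

lemma two {x y : ℝ} (hx : |x| ≤ 1) (hy : |y| ≤ 1) : |x - y| ≤ 2 := (abs_sub _ _).trans (by linarith)

include hκ in
lemma step {W : ℕ} {F : (ℤ → Bool) → ℝ} (hF : Loc W F) (hb : ∀ ω, |F ω| ≤ 1) (i : ℕ) :
    |avg κ (i + 1) (fun u => F (orb κ (i + 1) u)) - avg κ i (fun u => F (orb κ i u))| ≤
      2 * ((T κ i ^ 3 + 2 * W : ℕ) / S κ i) := by
  have p := orb_per (κ := κ) i F
  have e : avg κ (i + 1) (fun u => F (orb κ i u) + τ κ i (u + 0) * (F (orb κ i (u + 1)) -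
      F (orb κ i u))) = avg κ i (fun u => F (orb κ i u)) := by
    rw [avg_add, avg_succ hκ p, avg_tau hκ ((p.sh 1).sub p), avg_sub, avg_sh p]; simp
  rw [← e]
  refine (avg_cmp (b := fun u => 2 * if (u + W) % S κ i < (T κ i ^ 3 + 2 * W : ℕ) then 1 else 0) _
    fun u => ?_).trans (by rw [avg_mul]; gcongr; exact avg_bad hκ _ _ _)
  have : F (orb κ i u) + τ κ i (u + 0) * (F (orb κ i (u + 1)) - F (orb κ i u)) =
      F (orb κ i (u + τ κ i u)) := by
    rcases τ01 (κ := κ) i u with h | h <;> simp [h]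
  rw [this]
  split_ifs with h
  · simpa using two (hb _) (hb _)
  · simp [good hκ hF i u h]

include hκ in
lemma mixstep {W : ℕ} {F G : (ℤ → Bool) → ℝ} (hF : Loc W F) (hb : ∀ ω, |F ω| ≤ 1)
    (hG : Loc W G) (hc : ∀ ω, |G ω| ≤ 1) (i : ℕ) :
    |avg κ (i + 1) (fun u => G (orb κ (i + 1) (u + 10 * S κ i)) * F (orb κ (i + 1) u)) -
      (10 / κ * avg κ i (fun u => G (orb κ i (u + -1)) * F (orb κ i u)) +
        (1 - 2 * (10 / κ)) * avg κ i (fun u => G (orb κ i (u + 0)) * F (orb κ i u)) +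
        10 / κ * avg κ i (fun u => G (orb κ i (u + 1)) * F (orb κ i u)))| ≤
      4 * ((T κ i ^ 3 + 2 * W : ℕ) / S κ i) := by
  have p := orb_per (κ := κ) i F
  have q := orb_per (κ := κ) i G
  have hS : (0 : ℤ) < S κ i := by exact_mod_cast S_pos hκ i
  set f : ℤ → ℝ := fun u => F (orb κ i u) with hf
  set g : ℤ → ℝ := fun u => G (orb κ i u) with hg
  have e : avg κ (i + 1) (fun u => g u * f u + τ κ i (u + 0) * (g u * f (u + 1) - g u * f u) +
      τ κ i (u + 10 * S κ i) * (g (u + 1) * f u - g u * f u)) =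
      10 / κ * avg κ i (fun u => g (u + -1) * f u) + (1 - 2 * (10 / κ)) *
        avg κ i (fun u => g (u + 0) * f u) + 10 / κ * avg κ i (fun u => g (u + 1) * f u) := by
    rw [avg_add, avg_add, avg_succ hκ (q.mul p), avg_tau hκ ((q.mul (p.sh 1)).sub (q.mul p)),
      avg_tau hκ (((q.sh 1).mul p).sub (q.mul p)), avg_sub, avg_sub,
      ← avg_sh ((q.sh (-1)).mul p) 1]
    simp only [add_neg_cancel_right, add_zero]
    ring
  refine le_trans (le_of_eq (by rw [← e])) ((avg_cmp (b := fun u =>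
    2 * (if (u + W) % S κ i < (T κ i ^ 3 + 2 * W : ℕ) then 1 else 0) +
    2 * (if (u + (10 * S κ i + W)) % S κ i < (T κ i ^ 3 + 2 * W : ℕ) then 1 else 0)) _
    fun u => ?_).trans ?_)
  · have : g u * f u + τ κ i (u + 0) * (g u * f (u + 1) - g u * f u) +
        τ κ i (u + 10 * S κ i) * (g (u + 1) * f u - g u * f u) =
        g (u + τ κ i (u + 10 * S κ i)) * f (u + τ κ i u) := by
      rcases τ01 (κ := κ) i u with h | h <;> rcases τ01 (κ := κ) i (u + 10 * S κ i) with h' | h' <;>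
        simp [h, h']
      exfalso
      have hQ : (0 : ℤ) < κ * S κ i := mul_pos (by omega) hS
      have w0 := Int.emod_nonneg u hQ.ne'
      have w1 : 20 * (S κ i : ℤ) ≤ κ * S κ i := by gcongr; omega
      simp only [τ, ite_eq_left_iff, zero_ne_one, imp_false, not_not] at h h'
      rw [Int.add_emod, Int.emod_eq_of_lt (a := 10 * S κ i) (by omega) (by omega),
        Int.emod_eq_of_lt (by omega) (by omega)] at h'
      omega
    rw [this]
    have bb := two (x := G (orb κ (i + 1) (u + 10 * S κ i)) * F (orb κ (i + 1) u))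
      (y := g (u + τ κ i (u + 10 * S κ i)) * f (u + τ κ i u))
      (by rw [abs_mul]; exact mul_le_one₀ (hc _) (abs_nonneg _) (hb _))
      (by rw [abs_mul]; exact mul_le_one₀ (hc _) (abs_nonneg _) (hb _))
    split_ifs with h h' h'
    · linarith
    · linarith
    · linarith
    · rw [← add_assoc] at h'
      have := q (u + τ κ i (u + 10 * S κ i)) (10 * S κ i) ⟨κ * T κ i ^ 3, by
        unfold S; push_cast; ring⟩
      rw [good hκ hF i u h, good hκ hG i _ h', add_right_comm]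
      simp only [hg, hf] at this ⊢
      simp [this]
  · rw [avg_add, avg_mul, avg_mul]
    linarith [avg_bad hκ i (T κ i ^ 3 + 2 * W) W, avg_bad hκ i (T κ i ^ 3 + 2 * W) (10 * S κ i + W)]

include hκ in
lemma rat {W i : ℕ} (h : 2 * W ≤ T κ i ^ 3) :
    ((T κ i ^ 3 + 2 * W : ℕ) : ℝ) / S κ i ≤ (1 / 64) / T κ i := by
  have h1 : (0 : ℝ) < T κ i := by exact_mod_cast T_pos hκ i
  have h2 : (128 : ℝ) ≤ κ := by exact_mod_cast hκ
  have h3 : (2 * W : ℝ) ≤ T κ i ^ 3 := by exact_mod_cast h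
  unfold S
  push_cast
  rw [div_le_div_iff₀ (by positivity) h1]
  nlinarith [mul_le_mul_of_nonneg_right h2 (show (0 : ℝ) ≤ T κ i ^ 4 by positivity),
    mul_le_mul_of_nonneg_right h3 h1.le]

include hκ in
lemma tail {W : ℕ} {F : (ℤ → Bool) → ℝ} (hF : Loc W F) (hb : ∀ ω, |F ω| ≤ 1) {i : ℕ}
    (h : 2 * W ≤ T κ i ^ 3) (l : ℕ) (hl : i ≤ l) :
    |avg κ l (fun u => F (orb κ l u)) - avg κ i (fun u => F (orb κ i u))| ≤
      (1 / 16) / T κ i - (1 / 16) / T κ l := by
  induction l, hl using Nat.le_induction with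
  | base => simp
  | succ l hl ih =>
    have h1 := step hκ hF hb l
    have h2 := rat hκ (h.trans (Nat.pow_le_pow_left ((T_mono hκ).monotone hl) 3))
    have h3 : (0 : ℝ) < T κ l := by exact_mod_cast T_pos hκ l
    have h4 : (2 * T κ l : ℝ) ≤ T κ (l + 1) := by exact_mod_cast T_two hκ l
    have h5 : (1 / 16 : ℝ) / T κ (l + 1) ≤ (1 / 32) / T κ l := by
      rw [div_le_div_iff₀ (by linarith) h3]; linarith
    have := abs_sub_le (avg κ (l + 1) (fun u => F (orb κ (l + 1) u)))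
      (avg κ l (fun u => F (orb κ l u))) (avg κ i (fun u => F (orb κ i u)))
    simp only [div_eq_mul_inv] at *
    linarith

end Pool.Agent.H49.WM
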