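import Pool.Agent.H49.WM2

set_option autoImplicit false

namespace Pool.Agent.H49.WM

open Finset Filter Topology MeasureTheory

/-- shifts -/
def σ (k : ℤ) : C(ℤ → Bool, ℤ → Bool) :=
  ⟨fun ω n => ω (k + n), continuous_pi fun _ => continuous_apply _⟩

variable {κ : ℕ} (hκ : 128 ≤ κ)

lemma σ_orb (k : ℤ) (i : ℕ) (u : ℤ) : σ k (orb κ i u) = orb κ i (u + k) := by
  funext n; simp [σ, orb, add_assoc]

lemma σ_σ (k l : ℤ) (ω : ℤ → Bool) : σ k (σ l ω) = σ (k + l) ω := by
  funext n; simp only [σ, ContinuousMap.coe_mk]; congr 1; ring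

lemma σ_zero (ω : ℤ → Bool) : σ 0 ω = ω := by funext n; simp [σ]

lemma Loc.cont {W : ℕ} {F : (ℤ → Bool) → ℝ} (h : Loc W F) : Continuous F := by
  refine IsLocallyConstant.continuous ((IsLocallyConstant.iff_eventually_eq _).2 fun ω => ?_)
  have : ∀ᶠ ω' in 𝓝 ω, ∀ n ∈ Icc (-W : ℤ) W, ω' n = ω n := (eventually_all_finset _).2 fun n _ =>
    ((continuous_apply n).tendsto ω).eventually (p := fun b => b = ω n) (by simp)
  exact this.mono fun ω' h' => h _ _ fun n hn => h' n (mem_Icc.2 (abs_le.1 hn))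

lemma Loc.mono {W W' : ℕ} {F : (ℤ → Bool) → ℝ} (h : Loc W F) (hW : W ≤ W') : Loc W' F :=
  fun _ _ h' => h _ _ fun n hn => h' n (hn.trans (by exact_mod_cast hW))

lemma Loc.sh {W K : ℕ} {F : (ℤ → Bool) → ℝ} (h : Loc W F) {k : ℤ} (hk : |k| ≤ K) :
    Loc (W + K) fun ω => F (σ k ω) :=
  fun _ _ h' => h _ _ fun n hn => h' _ ((abs_add_le _ _).trans (by push_cast; linarith))

lemma Loc.mul {W : ℕ} {F G : (ℤ → Bool) → ℝ} (h : Loc W F) (h2 : Loc W G) :
    Loc W fun ω => F ω * G ω := fun _ _ h' => by simp only [h _ _ h', h2 _ _ h']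

lemma bmul {x y : ℝ} (hx : |x| ≤ 1) (hy : |y| ≤ 1) : |x * y| ≤ 1 := by
  rw [abs_mul]; exact mul_le_one₀ hx (abs_nonneg _) hy

/-- limit measures -/
def Lim (κ : ℕ) (μ : Measure (ℤ → Bool)) : Prop := ∃ U : Ultrafilter ℕ, (U : Filter ℕ) ≤ atTop ∧
  ∀ F : (ℤ → Bool) → ℝ, Continuous F →
    Tendsto (fun l => avg κ l fun u => F (orb κ l u)) U (𝓝 (∫ ω, F ω ∂μ))

include hκ in
lemma ex_mu : ∃ μ : Measure (ℤ → Bool), IsProbabilityMeasure μ ∧ Lim κ μ := by
  set ν : ℕ → ProbabilityMeasure (ℤ → Bool) := fun l => ⟨((10 * T κ l : ℕ) : ENNReal)⁻¹ •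
    ∑ u ∈ range (10 * T κ l), Measure.dirac (orb κ l u), ⟨by
      have := T_pos hκ l
      simp only [Measure.smul_apply, Measure.coe_finsetSum, Finset.sum_apply, measure_univ, sum_const,
        card_range, nsmul_eq_mul, mul_one, smul_eq_mul]
      exact ENNReal.inv_mul_cancel (Nat.cast_ne_zero.2 (by omega)) (ENNReal.natCast_ne_top _)⟩⟩ with hν
  obtain ⟨μ, -, h⟩ := isCompact_univ.ultrafilter_le_nhds ((hyperfilter ℕ).map ν) (by simp)
  refine ⟨μ, inferInstance, hyperfilter ℕ, by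
    rw [← Nat.cofinite_eq_atTop]; exact hyperfilter_le_cofinite, fun F hF => ?_⟩
  refine (ProbabilityMeasure.tendsto_iff_forall_integral_tendsto.1 h
    (BoundedContinuousFunction.mkOfCompact ⟨F, hF⟩)).congr fun l => ?_
  simp only [hν, ProbabilityMeasure.coe_mk, integral_smul_measure]
  rw [integral_finsetSum_measure fun u _ => integrable_dirac (by simp)]
  simp [avg, div_eq_inv_mul]

variable {μ : Measure (ℤ → Bool)} (hμ : Lim κ μ)

include hμ in
lemma inv {F : (ℤ → Bool) → ℝ} (hF : Continuous F) (k : ℤ) : ∫ ω, F (σ k ω) ∂μ = ∫ ω, F ω ∂μ := by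
  obtain ⟨U, -, h⟩ := hμ
  refine tendsto_nhds_unique (h _ (hF.comp (σ k).continuous)) ((h F hF).congr fun l => ?_)
  simp only [σ_orb]
  exact (avg_sh (orb_per l F) k).symm

include hκ hμ in
lemma unif {W : ℕ} {F : (ℤ → Bool) → ℝ} (hF : Loc W F) (hb : ∀ ω, |F ω| ≤ 1) {i : ℕ}
    (h : 2 * W ≤ T κ i ^ 3) :
    |∫ ω, F ω ∂μ - avg κ i (fun u => F (orb κ i u))| ≤ (1 / 16) / T κ i := by
  obtain ⟨U, hU, h'⟩ := hμ
  refine le_of_tendsto ((h' F hF.cont).sub_const _).abs (hU ?_)
  filter_upwards [eventually_ge_atTop i] with l hl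
  exact (tail hκ hF hb h l hl).trans (sub_le_self _ (by positivity))

include hκ in
lemma ev (W : ℕ) : ∀ᶠ i in atTop, 2 * (W + 10 * T κ i) ≤ T κ i ^ 3 := by
  filter_upwards [(T_mono hκ).tendsto_atTop.eventually (eventually_ge_atTop (W + 5))] with i hi
  nlinarith [Nat.mul_le_mul (Nat.mul_le_mul (show 5 ≤ T κ i by omega) (show 5 ≤ T κ i by omega))
    (le_refl (T κ i))]

include hκ in
lemma t0 : Tendsto (fun i => (1 / 16 : ℝ) / T κ i) atTop (𝓝 0) :=
  (tendsto_const_div_atTop_nhds_zero_nat _).comp (T_mono hκ).tendsto_atTop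

include hκ hμ in
lemma conv {W : ℕ} {F : (ℤ → Bool) → ℝ} (hF : Loc W F) (hb : ∀ ω, |F ω| ≤ 1) :
    Tendsto (fun i => avg κ i fun u => F (orb κ i u)) atTop (𝓝 (∫ ω, F ω ∂μ)) := by
  rw [← tendsto_sub_nhds_zero_iff]
  refine squeeze_zero_norm' ?_ (t0 hκ)
  filter_upwards [ev hκ W] with i hi
  rw [Real.norm_eq_abs, abs_sub_comm]
  exact unif hκ hμ hF hb (by omega)

include hκ hμ in
theorem corr [IsProbabilityMeasure μ] {W : ℕ} {F G : (ℤ → Bool) → ℝ} (hF : Loc W F)
    (hb : ∀ ω, |F ω| ≤ 1) (hG : Loc W G) (hc : ∀ ω, |G ω| ≤ 1) (h0 : ∫ ω, G ω ∂μ = 0) :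
    Tendsto (ces fun n => |∫ ω, F (σ n ω) * G ω ∂μ|) atTop (𝓝 0) := by
  have ig : ∀ f g : C(ℤ → Bool, ℝ), Integrable (fun ω => f ω * g ω) μ := fun f g =>
    (BoundedContinuousFunction.mkOfCompact (f * g)).integrable μ
  set I : LinearMap.BilinForm ℝ C(ℤ → Bool, ℝ) := LinearMap.mk₂ ℝ (fun f g => ∫ ω, f ω * g ω ∂μ)
    (fun f g h => by simp [add_mul, integral_add (ig _ _) (ig _ _)])
    (fun c f g => by simp [mul_assoc, integral_const_mul])
    (fun f g h => by simp [mul_add, integral_add (ig _ _) (ig _ _)])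
    (fun c f g => by simp [mul_left_comm _ c, integral_const_mul]) with hI
  have hI' : ∀ f g, I f g = ∫ ω, f ω * g ω ∂μ := fun _ _ => rfl
  clear_value I
  have le1 : ∀ f : C(ℤ → Bool, ℝ), (∀ ω, |f ω| ≤ 1) → I f f ≤ 1 := fun f hf => by
    rw [hI']
    exact (integral_mono (ig f f) (integrable_const 1) fun ω => abs_le_one_iff_mul_self_le_one.1
      (hf ω)).trans (by simp)
  have k1 : (128 : ℝ) ≤ κ := by exact_mod_cast hκ
  set y : ℤ → C(ℤ → Bool, ℝ) := fun n => ContinuousMap.comp ⟨G, hG.cont⟩ (σ n) with hy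
  have hy' : ∀ n ω, y n ω = G (σ n ω) := fun _ _ => rfl
  have := wm (I := I) (fun f g => by simp only [hI', mul_comm])
    (fun f => by rw [hI']; exact integral_nonneg fun ω => mul_self_nonneg _)
    (fun n => ContinuousMap.comp ⟨F, hF.cont⟩ (σ n)) y (fun n => le1 _ fun ω => hb _)
    (fun n => le1 _ fun ω => hc _) (fun n m => by
      simp only [hI', hy', ContinuousMap.comp_apply, ContinuousMap.coe_mk, ← σ_σ]
      exact inv hμ ((hF.cont.comp (σ n).continuous).mul (hG.cont.comp (σ m).continuous)) 1)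
    (β := 10 / κ) (by positivity) (by rw [← mul_div_assoc, div_lt_one (by positivity)]; linarith)
    (fun i => 10 * S κ i) (fun m => ?_) (fun ε hε => ?_)
  · simpa [hI', hy', σ_zero] using this
  · simp only [hI', hy']
    have l1 : Loc (W + m.natAbs) fun ω => G (σ m ω) := hG.sh (by simp)
    have l2 : Loc (W + m.natAbs) G := hG.mono (by omega)
    have c : ∀ k : ℤ, |k| ≤ (1 : ℕ) → Tendsto (fun i => avg κ i fun u => G (orb κ i (u + k)) *
        G (σ m (orb κ i u))) atTop (𝓝 (∫ ω, G (σ k ω) * G (σ m ω) ∂μ)) := fun k hk => by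
      simpa only [← σ_orb] using conv hκ hμ ((l2.sh hk).mul (l1.mono (Nat.le_add_right _ 1)))
        fun ω => bmul (hc _) (hc _)
    refine ((((c (-1) (by simp)).const_mul (10 / κ : ℝ)).add ((c 0 (by simp)).const_mul
      (1 - 2 * (10 / κ : ℝ)))).add ((c 1 (by simp)).const_mul (10 / κ : ℝ))).congr_dist ?_
    have t1 := ((t0 hκ).comp (tendsto_add_atTop_nat 1)).add (t0 hκ)
    rw [add_zero] at t1
    refine squeeze_zero_norm' ?_ t1
    filter_upwards [ev hκ (W + m.natAbs), (tendsto_add_atTop_nat 1).eventually (ev hκ (W + m.natAbs))]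
      with i h1 h2
    have s1 : S κ i ≤ T κ (i + 1) := Nat.le_mul_of_pos_left _ (by omega)
    have a1 := unif hκ hμ ((l2.sh (K := 10 * S κ i) (k := 10 * S κ i) (by
      rw [abs_of_nonneg (by positivity)]; simp)).mul (l1.mono (Nat.le_add_right _ _)))
      (fun ω => bmul (hc _) (hc _)) (i := i + 1) (by omega)
    have a2 := mixstep hκ l1 (fun _ => hc _) l2 hc i
    have a3 := rat hκ (W := W + m.natAbs) (i := i) (by omega)
    simp only [σ_orb] at a1 a2 ⊢
    rw [Real.norm_eq_abs, abs_dist, dist_comm, Real.dist_eq]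
    refine (abs_sub_le _ _ _).trans (add_le_add a1 (a2.trans ?_))
    simp only [div_eq_mul_inv] at a3 ⊢
    linarith
  · obtain ⟨i, h1, h2⟩ := ((ev hκ W).and ((t0 hκ).eventually
      (ge_mem_nhds (show 0 < min (ε / 2) 1 by positivity)))).exists
    have tp := T_pos hκ i
    refine ⟨10 * T κ i, by omega, ?_⟩
    set Φ : (ℤ → Bool) → ℝ := fun ω => ((10 * T κ i : ℕ) : ℝ)⁻¹ * ∑ n ∈ range (10 * T κ i), G (σ n ω)
      with hΦ
    have l1 : Loc (W + 10 * T κ i) Φ := fun ω ω' h => by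
      simp only [hΦ]
      exact congrArg _ (sum_congr rfl fun n hn => hG.sh (K := 10 * T κ i) (k := n) (by
        have := mem_range.1 hn
        rw [abs_of_nonneg (by positivity)]; omega) ω ω' h)
    have b1 : ∀ ω, |Φ ω| ≤ 1 := fun ω => ces_abs (fun n => hc (σ n ω)) _
    have a1 := unif hκ hμ (l1.mul l1) (fun ω => bmul (b1 _) (b1 _)) h1
    have a2 := unif hκ hμ hG hc (i := i) (by omega)
    have e : ∀ u, Φ (orb κ i u) = avg κ i fun u => G (orb κ i u) := fun u => by
      simp only [hΦ, σ_orb, avg, div_eq_inv_mul]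
      rw [sum_shift (h := fun u => G (orb κ i u)) (orb_per (κ := κ) i G).p u]
      push_cast; rfl
    have e2 : ∀ c : ℝ, avg κ i (fun _ => c) = c := fun c => by
      have : (0 : ℝ) < T κ i := by exact_mod_cast tp
      simp only [avg, sum_const, card_range, nsmul_eq_mul]
      push_cast; field_simp
    simp only [e, e2] at a1
    rw [h0, zero_sub, abs_neg] at a2
    have e3 : ∀ ω, (((10 * T κ i : ℕ) : ℝ)⁻¹ • ∑ n ∈ range (10 * T κ i), y n) ω = Φ ω := fun ω => by
      simp [hΦ, hy']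
    simp only [hI', e3]
    have a3 := abs_mul_abs_self (avg κ i fun u => G (orb κ i u))
    have a4 := le_min_iff.1 (a2.trans h2)
    nlinarith [(abs_le.1 a1).2, (le_min_iff.1 h2).1, abs_nonneg (avg κ i fun u => G (orb κ i u))]

/-- sets determined by finitely many coordinates -/
def Cyl : Set (Set (ℤ → Bool)) := {A | ∃ W, Loc W (A.indicator 1)}

lemma Cyl.pi : IsPiSystem Cyl := by
  rintro A ⟨W, hA⟩ B ⟨W', hB⟩ -
  refine ⟨W + W', ?_⟩
  rw [Set.inter_indicator_one]
  exact (hA.mono (by omega)).mul (hB.mono (by omega))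

lemma Cyl.meas {A : Set (ℤ → Bool)} (h : A ∈ Cyl) : MeasurableSet A := by
  obtain ⟨W, h⟩ := h
  exact (measurable_indicator_const_iff (1 : ℝ)).1 h.cont.measurable

lemma Cyl.ev (n : ℤ) (s : Set Bool) : (fun ω : ℤ → Bool => ω n) ⁻¹' s ∈ Cyl :=
  ⟨n.natAbs, fun ω ω' h => by
    have : ω n = ω' n := h n (by simp)
    by_cases h1 : ω n ∈ s
    · rw [Set.indicator_of_mem (by exact h1), Set.indicator_of_mem (by rw [this] at h1; exact h1)]; rfl
    · rw [Set.indicator_of_notMem (by exact h1),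
        Set.indicator_of_notMem (by rw [this] at h1; exact h1)]⟩

lemma Cyl.gen : (inferInstance : MeasurableSpace (ℤ → Bool)) = MeasurableSpace.generateFrom Cyl := by
  refine le_antisymm (iSup_le fun n => ?_) (MeasurableSpace.generateFrom_le fun A h => Cyl.meas h)
  rintro _ ⟨s, -, rfl⟩
  exact MeasurableSpace.measurableSet_generateFrom (Cyl.ev n s)

lemma ind_bd (A : Set (ℤ → Bool)) (ω : ℤ → Bool) :
    0 ≤ A.indicator (1 : (ℤ → Bool) → ℝ) ω ∧ A.indicator (1 : (ℤ → Bool) → ℝ) ω ≤ 1 := by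
  by_cases h : ω ∈ A <;> simp [h]

lemma σ_iter (n : ℕ) : (σ 1)^[n] = σ n := by
  induction n with
  | zero => funext ω; simp [σ_zero]
  | succ n ih => funext ω; rw [Function.iterate_succ_apply, ih, σ_σ]; simp

include hκ in
theorem sys : ∃ μ : Measure (ℤ → Bool), IsProbabilityMeasure μ ∧ MeasurePreserving (σ 1) μ μ ∧
    (∀ A ∈ Cyl, ∀ B ∈ Cyl, Tendsto (ces fun n => |μ.real (σ n ⁻¹' A ∩ B) - μ.real A * μ.real B|)
      atTop (𝓝 0)) ∧ 0 < μ {ω | ω 0} ∧ ∀ j r : ℕ, T κ j ∣ r → r ≤ T κ (j + 1) ^ 3 → 2 ≤ r % 10 →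
        r % 10 ≤ 8 → μ ({ω | ω 0} ∩ σ r ⁻¹' {ω | ω 0}) = 0 := by
  obtain ⟨μ, hp, hμ⟩ := ex_mu hκ
  have ab : ∀ (A : Set (ℤ → Bool)) ω, |A.indicator (1 : (ℤ → Bool) → ℝ) ω| ≤ 1 := fun A ω => by
    rw [abs_of_nonneg (ind_bd A ω).1]; exact (ind_bd A ω).2
  have l0 : Loc 0 (Set.indicator {ω | ω 0} 1) := fun ω ω' h => by simp [Set.indicator, h 0 (by simp)]
  have m0 : MeasurableSet {ω : ℤ → Bool | ω 0} := Cyl.meas ⟨0, l0⟩
  refine ⟨μ, hp, ⟨(σ 1).continuous.measurable, ext_of_forall_integral_eq_of_IsFiniteMeasure fun f => ?_⟩,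
    ?_, ?_, fun j r h1 h2 h3 h4 => ?_⟩
  · rw [integral_map (σ 1).continuous.aemeasurable f.continuous.aestronglyMeasurable]
    exact inv hμ f.continuous 1
  · rintro A ⟨W, hA⟩ B ⟨W', hB⟩
    have mA := Cyl.meas ⟨W, hA⟩
    have mB := Cyl.meas ⟨W', hB⟩
    have := corr hκ hμ (hA.mono (Nat.le_add_right W W')) (ab A)
      (G := fun ω => B.indicator 1 ω - μ.real B)
      (fun ω ω' h => by simp only [hB.mono (Nat.le_add_left W' W) ω ω' h])
      (fun ω => by
        have := ind_bd B ω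
        rw [abs_le]
        constructor <;> linarith [measureReal_nonneg (μ := μ) (s := B),
          measureReal_le_one (μ := μ) (s := B)])
      (by rw [integral_sub ((integrable_const 1).indicator mB) (integrable_const _),
        integral_indicator_one mB]; simp)
    refine this.congr fun N => ?_
    congr 1
    funext n
    have mS := (σ n).continuous.measurable mA
    have e : ∀ ω, A.indicator (1 : (ℤ → Bool) → ℝ) (σ n ω) * (B.indicator 1 ω - μ.real B) =
        (σ n ⁻¹' A ∩ B).indicator 1 ω - (σ n ⁻¹' A).indicator 1 ω * μ.real B := fun ω => by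
      by_cases h : σ n ω ∈ A <;> by_cases h' : ω ∈ B <;> simp [h, h']
    have e2 := inv hμ hA.cont n
    simp only [e]
    rw [integral_sub ((integrable_const 1).indicator (mS.inter mB))
      (((integrable_const 1).indicator mS).mul_const _), integral_mul_const,
      integral_indicator_one (mS.inter mB), ← integral_indicator_one mA, ← e2]
    rfl
  · have := unif hκ hμ l0 (ab _) (i := 0) (by simp)
    rw [integral_indicator_one m0] at this
    have e : avg κ 0 (fun u => Set.indicator {ω : ℤ → Bool | ω 0} 1 (orb κ 0 u)) = 1 / 10 := by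
      simp only [avg, T, mul_one, sum_range_succ]
      simp [orb, a, Set.indicator]
    rw [e, abs_le] at this
    refine pos_iff_ne_zero.2 fun h => ?_
    simp only [Measure.real, h, T] at this
    norm_num at this
  · have mS := (σ r).continuous.measurable m0
    obtain ⟨U, hU, h⟩ := hμ
    have := h _ (l0.cont.mul (l0.cont.comp (σ r).continuous))
    have e : ∀ ω, (Set.indicator {ω : ℤ → Bool | ω 0} (1 : (ℤ → Bool) → ℝ) *
        Set.indicator {ω : ℤ → Bool | ω 0} (1 : (ℤ → Bool) → ℝ) ∘ σ r) ω =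
        ({ω : ℤ → Bool | ω 0} ∩ σ r ⁻¹' {ω | ω 0}).indicator 1 ω := fun ω => by
      rw [Set.inter_indicator_one]; rfl
    simp only [e] at this
    rw [integral_indicator_one (m0.inter mS)] at this
    rw [← measureReal_eq_zero_iff]
    refine tendsto_nhds_unique this (tendsto_const_nhds.congr' (hU ?_))
    filter_upwards [eventually_ge_atTop (j + 1)] with i hi
    unfold avg
    rw [sum_eq_zero fun u _ => Set.indicator_of_notMem (fun h => ?_) _, zero_div]
    refine down2 hκ (r := r) (by exact_mod_cast h1) (by omega) (by exact_mod_cast h2) (by omega)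
      (by omega) i hi u (by simpa [orb] using h.1) (by simpa [orb, σ] using h.2)

end Pool.Agent.H49.WM
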