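import Mathlib
import Pool.Agent.H49.FD2

/-! Upper and lower bounds for quadratic exponential sums. -/

set_option autoImplicit false

namespace Pool.Agent.H49.WS

open Finset Filter Topology Complex Pool.Agent.H49.MD Pool.Agent.H49.FD

/-- Quadratic exponential sums. -/
noncomputable def S (t : ℝ) (N : ℕ) : ℂ := ∑ n ∈ range N, e (t * (n + 1) ^ 2)

lemma lay {V x : ℝ} (J : ℕ) (h1 : V ≤ 2 ^ J) (h2 : V * x ≤ 1 / 2) (h3 : x < 1) :
    V ≤ ∑ j ∈ range (J + 1), if x < 1 / 2 ^ j then (2 : ℝ) ^ j else 0 := by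
  have p : ∀ j : ℕ, (0 : ℝ) ≤ if x < 1 / 2 ^ j then (2 : ℝ) ^ j else 0 := fun j => by
    split_ifs <;> positivity
  induction J with
  | zero => simpa [h3] using h1
  | succ J ih =>
    rw [sum_range_succ]
    rcases le_or_gt V (2 ^ J) with a | a
    · exact (ih a).trans (le_add_of_nonneg_right (p _))
    · rw [if_pos]
      · exact h1.trans (le_add_of_nonneg_left (sum_nonneg fun j _ => p j))
      · by_contra b
        have c := mul_lt_mul_of_lt_of_le_of_pos_of_nonneg a (not_lt.1 b) (by positivity)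
          (le_of_lt ((by positivity : (0 : ℝ) < 2 ^ J).trans a))
        rw [pow_succ, mul_one_div, div_mul_eq_div_div, div_self (by positivity)] at c
        linarith

lemma wb {t : ℝ} {p q : ℤ} (q0 : 0 < q) (hc : IsCoprime p q) (h : |t - p / q| ≤ 1 / (q : ℝ) ^ 2)
    {z N : ℕ} (hz : z ≤ N) (N0 : 0 < N) :
    ‖S t z‖ ^ 2 ≤ 16 * (4 * N / q + 1) * (q * (Real.log N + 1) + N) := by
  have q1 : (0 : ℝ) < q := by exact_mod_cast q0
  have hd : (((p / q : ℚ).den : ℤ) : ℝ) = q :=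
    congrArg _ (Rat.den_div_eq_of_coprime q0 (Int.isCoprime_iff_gcd_eq_one.1 hc))
  rw [Int.cast_natCast] at hd
  set J := Nat.log 2 N + 1 with hJ
  have J1 : (N : ℝ) ≤ 2 ^ J := by exact_mod_cast (Nat.lt_pow_succ_log_self one_lt_two N).le
  have J2 : (2 : ℝ) ^ Nat.log 2 N ≤ N := by exact_mod_cast Nat.pow_log_le_self 2 N0.ne'
  have J3 : (Nat.log 2 N : ℝ) ≤ 2 * Real.log N := by
    have := Real.log_le_log (by positivity) J2
    rw [Real.log_pow] at this
    nlinarith [Real.log_two_gt_d9, (Nat.cast_nonneg (Nat.log 2 N) : (0 : ℝ) ≤ _)]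
  set F : ℕ → ℝ := fun k => ∑ j ∈ range (J + 1),
    if |k * t - round (k * t)| < 1 / 2 ^ j then (2 : ℝ) ^ j else 0 with hF
  have F0 : ∀ k, 0 ≤ F k := fun k => sum_nonneg fun j _ => by split_ifs <;> positivity
  have a : ∀ k ∈ range z, ‖∑ n ∈ range (z - k), e (t * ((n + k : ℕ) + 1) ^ 2) *
      (starRingEnd ℂ) (e (t * (n + 1) ^ 2))‖ ≤ F (2 * k) := fun k _ => by
    have b : ∀ n : ℕ, e (t * ((n + k : ℕ) + 1) ^ 2) * (starRingEnd ℂ) (e (t * (n + 1) ^ 2)) =
        e (t * (k ^ 2 + 2 * k)) * e (n * ((2 * k : ℕ) * t)) := fun n => by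
      rw [e_conj, ← e_add, ← e_add]; congr 1; push_cast; ring
    simp only [b]
    rw [← mul_sum, norm_mul, e_norm, one_mul]
    refine lay J ((norm_sum_le_of_le _ fun n _ => (e_norm _).le).trans ?_) ?_
      ((abs_sub_round _).trans_lt (by norm_num))
    · rw [sum_const, card_range, nsmul_eq_mul, mul_one]
      exact le_trans (by exact_mod_cast (Nat.sub_le _ _).trans hz) J1
    · have c := geo 0 (z - k) ((2 * k : ℕ) * t)
      rw [← range_eq_Ico] at c
      have d := mul_le_mul_of_nonneg_left (e_low ((2 * k : ℕ) * t))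
        (norm_nonneg (∑ m ∈ range (z - k), e (m * ((2 * k : ℕ) * t))))
      linarith
  have b : ∑ k ∈ range z, F (2 * k) ≤ ∑ k ∈ range (2 * N + 1), F k := by
    rw [← sum_image (s := range z) (g := fun k => 2 * k) (f := F) fun _ _ _ _ h => by
      simpa using h]
    refine sum_le_sum_of_subset_of_nonneg (fun k hk => ?_) fun _ _ _ => F0 _
    obtain ⟨j, hj, rfl⟩ := mem_image.1 hk
    have := mem_range.1 hj
    exact mem_range.2 (by omega)
  have c : ∑ k ∈ range (2 * N + 1), F k ≤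
      ∑ j ∈ range (J + 1), (4 * N / q + 1) * (4 * q + 2 * (2 : ℝ) ^ j) := by
    rw [hF, sum_comm]
    refine sum_le_sum fun j _ => ?_
    have d := cnt t (p / q) (by rw [hd]; exact_mod_cast h) (2 * N) (1 / 2 ^ j) (by positivity)
    rw [hd] at d
    rw [← sum_filter, sum_const, nsmul_eq_mul]
    refine (mul_le_mul_of_nonneg_right d (by positivity)).trans_eq ?_
    push_cast; field_simp; ring
  rw [← mul_sum, sum_add_distrib, ← mul_sum _ _ 2, geom_sum_eq (by norm_num : (2 : ℝ) ≠ 1), sum_const, card_range,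
    nsmul_eq_mul, hJ, pow_succ, pow_succ] at c
  refine (vdc _ z).trans ((mul_le_mul_of_nonneg_left (((sum_le_sum a).trans b).trans c)
    (by norm_num : (0 : ℝ) ≤ 2)).trans ?_)
  rw [mul_left_comm, mul_comm 16, mul_assoc (_ + 1)]
  refine mul_le_mul_of_nonneg_left ?_ (by positivity)
  push_cast
  nlinarith [mul_le_mul_of_nonneg_left J3 q1.le]

lemma nr_div' {k : ℤ} {q : ℕ} (q0 : 0 < q) (h : |(k / q : ℝ) - round (k / q : ℝ)| < 1 / q) :
    (q : ℤ) ∣ k := by
  have q1 : (0 : ℝ) < q := by exact_mod_cast q0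
  rw [lt_div_iff₀ q1, ← abs_of_pos q1, ← abs_mul, abs_of_pos q1, sub_mul,
    div_mul_cancel₀ _ q1.ne'] at h
  exact ⟨round ((k : ℝ) / q), by
    have := Int.abs_lt_one_iff.1 (by exact_mod_cast h : |k - round ((k : ℝ) / q) * q| < 1)
    linarith⟩

lemma shift {u : ℕ → ℂ} {Q : ℕ} (h : ∀ n, u (n + Q) = u n) (k : ℕ) :
    ∑ n ∈ range Q, u (n + k) = ∑ n ∈ range Q, u n := by
  induction k with
  | zero => rfl
  | succ k ih =>
    have a := sum_range_succ' (fun n => u (n + k)) Q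
    rw [sum_range_succ, ih, add_comm Q k, h, zero_add] at a
    simp only [add_right_comm _ 1 k] at a
    exact (add_right_cancel a).symm

variable {p : ℤ} {Q : ℕ} (Q0 : 0 < Q)
include Q0

lemma per (n : ℕ) : e (p / Q * ((n + Q : ℕ) + 1) ^ 2) = e (p / Q * (n + 1) ^ 2) := by
  have : (Q : ℝ) ≠ 0 := by positivity
  rw [← mul_one (e (_ * ((n : ℝ) + 1) ^ 2)), ← e_int (p * (2 * (n + 1) + Q)), ← e_add]
  congr 1; push_cast; field_simp; ring

lemma mulS (m : ℕ) : S (p / Q) (m * Q) = m * S (p / Q) Q := by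
  induction m with
  | zero => simp [S]
  | succ m ih =>
    rw [S, add_mul, one_mul, sum_range_add, ← S, ih]
    have := shift (u := fun n => e (p / Q * (n + 1) ^ 2)) (per Q0) (m * Q)
    simp only [add_comm (m * Q)]
    rw [this, ← S]; push_cast; ring

lemma gauss (hc : IsCoprime (2 * p) Q) : ‖S (p / Q) Q‖ ^ 2 = Q := by
  have q1 : (0 : ℝ) < Q := by positivity
  have a : S (p / Q) Q * (starRingEnd ℂ) (S (p / Q) Q) = ∑ k ∈ range Q,
      e (p / Q * (k ^ 2 + 2 * k)) * ∑ n ∈ range Q, e (n * ((2 * p * k : ℤ) / Q)) := by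
    conv_lhs => rw [S, map_sum, mul_sum]
    simp only [mul_sum]
    rw [sum_comm]
    refine sum_congr rfl fun n _ => ?_
    rw [← shift (u := fun n => e (p / Q * (n + 1) ^ 2)) (per Q0) n, sum_mul]
    refine sum_congr rfl fun k _ => ?_
    rw [e_conj, ← e_add, ← e_add]; congr 1; push_cast; ring
  rw [sum_eq_single_of_mem 0 (mem_range.2 Q0) fun k hk k0 => ?_, mul_conj, normSq_eq_norm_sq] at a
  · simp only [Nat.cast_zero, mul_zero, Int.cast_zero, zero_div, e_zero, sum_const, card_range,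
      add_zero, ne_eq, OfNat.ofNat_ne_zero, not_false_eq_true, zero_pow, one_mul, nsmul_eq_mul,
      mul_one] at a
    exact_mod_cast a
  · set β : ℝ := (2 * p * k : ℤ) / Q
    have b : ∀ b : ℕ, (∑ n ∈ range b, e (n * β)) * (e β - 1) = e (b * β) - 1 := fun b => by
      induction b with
      | zero => simp [e_zero]
      | succ b ih =>
        rw [sum_range_succ, add_mul, ih, Nat.cast_succ, add_mul, one_mul, e_add]; ring
    have c := b Q
    rw [mul_div_cancel₀ _ q1.ne', e_int, sub_self] at c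
    refine mul_eq_zero_of_right _ ((mul_eq_zero.1 c).resolve_right fun d => ?_)
    have f := e_low β
    rw [d, norm_zero] at f
    have g := hc.symm.dvd_of_dvd_mul_left (nr_div' Q0 (k := 2 * p * k) (by linarith [one_div_pos.2 q1]))
    exact absurd (Nat.le_of_dvd (Nat.pos_of_ne_zero k0) (by exact_mod_cast g))
      (not_le.2 (mem_range.1 hk))

lemma low (hc : IsCoprime (2 * p) Q) {t : ℝ} {m : ℕ} (m0 : 0 < m)
    (h1 : Real.log (m * Q : ℕ) + 1 ≤ m) (h2 : |t - p / Q| * (m * Q : ℕ) ^ 2 ≤ 1 / 400) :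
    m * √Q / 2 ≤ ‖S t (m * Q)‖ := by
  have q1 : (0 : ℝ) < Q := by positivity
  have m1 : (1 : ℝ) ≤ m := by exact_mod_cast m0
  have N0 : 0 < m * Q := by positivity
  have a : ∀ z, z ≤ m * Q → ‖S (p / Q) z‖ ≤ 13 * (m * √Q) := fun z hz => by
    refine (pow_le_pow_iff_left₀ (norm_nonneg _) (by positivity) two_ne_zero).1 ((wb (q := Q) (by exact_mod_cast Q0)
      hc.of_mul_left_right (by simp) hz N0).trans ?_)
    rw [mul_pow, mul_pow, Real.sq_sqrt q1.le, Int.cast_natCast, Nat.cast_mul m Q, ← mul_assoc,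
      mul_div_cancel_right₀ _ q1.ne']
    rw [Nat.cast_mul] at h1
    calc _ ≤ 16 * (5 * m) * (Q * m + m * Q : ℝ) := mul_le_mul (by linarith)
          (add_le_add (mul_le_mul_of_nonneg_left h1 q1.le) le_rfl) (by
            have := Real.log_nonneg (one_le_mul_of_one_le_of_one_le m1 (Nat.one_le_cast.2 Q0))
            positivity) (by positivity)
      _ ≤ _ := by nlinarith [show (0 : ℝ) ≤ m ^ 2 * Q by positivity]
  have b : ‖S (p / Q) (m * Q)‖ = m * √Q := by
    rw [mulS Q0, norm_mul, Complex.norm_natCast, ← Real.sqrt_sq (norm_nonneg (S _ Q)), gauss Q0 hc]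
  set θ := t - p / Q
  have c := abel (fun n => e (θ * (n + 1) ^ 2) - 1) (fun n => e (p / Q * (n + 1) ^ 2)) _ _ a
  have d : ∑ n ∈ range (m * Q), (e (θ * (n + 1) ^ 2) - 1) * e (p / Q * (n + 1) ^ 2) =
      S t (m * Q) - S (p / Q) (m * Q) := by
    rw [S, S, ← sum_sub_distrib]
    refine sum_congr rfl fun n _ => ?_
    rw [sub_mul, one_mul, ← e_add]; congr 2; simp only [θ]; ring
  have f : ∀ y : ℕ, ∑ n ∈ range y, ‖e (θ * ((n + 1 : ℕ) + 1) ^ 2) - 1 - (e (θ * (n + 1) ^ 2) - 1)‖ ≤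
      7 * (|θ| * (y + 1) ^ 2) := fun y => by
    induction y with
    | zero => rw [sum_range_zero]; positivity
    | succ y ih =>
      have : e (θ * ((y + 1 : ℕ) + 1) ^ 2) - 1 - (e (θ * (y + 1) ^ 2) - 1) =
          e (θ * (y + 1) ^ 2) * (e (θ * (2 * y + 3)) - 1) := by
        rw [mul_sub_one, ← e_add, sub_sub_sub_cancel_right]; congr 2; push_cast; ring
      rw [sum_range_succ, this, norm_mul, e_norm, one_mul]
      refine (add_le_add ih (e_up _)).trans_eq ?_
      rw [abs_mul, abs_of_nonneg (by positivity : (0 : ℝ) ≤ 2 * y + 3)]; push_cast; ring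
  have g := e_up (θ * ((m * Q - 1 : ℕ) + 1) ^ 2)
  have i := f (m * Q - 1)
  rw [abs_mul, abs_sq] at g
  rw [d] at c
  have j : ((m * Q - 1 : ℕ) : ℝ) + 1 = (m * Q : ℕ) := by exact_mod_cast Nat.sub_add_cancel N0
  have k := c.trans (mul_le_mul_of_nonneg_left (add_le_add g i) (by positivity))
  rw [j] at k
  have l := norm_sub_norm_le (S (p / Q) (m * Q)) (S t (m * Q))
  rw [norm_sub_rev, b] at l
  nlinarith [mul_le_mul_of_nonneg_left h2 (show (0 : ℝ) ≤ m * √Q by positivity),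
    show (0 : ℝ) ≤ m * √Q by positivity]

end Pool.Agent.H49.WS
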