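import Mathlib
import Pool.Agent.H49.WS1

/-! A binary tree of continued fractions with prescribed approximation exponent. -/

set_option autoImplicit false

namespace Pool.Agent.H49.WS

open Set Filter Topology
open scoped ENNReal NNReal

lemma dim_pos {E : Type*} [MetricSpace E] (Ψ : (ℕ → Fin 2) → E) (b : ℕ) (b0 : b ≠ 0)
    (h : ∀ ω ω' n, (∀ k < n, ω k = ω' k) → ω n ≠ ω' n →
      ((1 / 2) ^ (n + 2)) ^ b ≤ dist (Ψ ω) (Ψ ω')) : 0 < dimH (range Ψ) := by
  classical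
  have fd : ∀ ω ω' : ℕ → Fin 2, ω ≠ ω' → ∃ n, (∀ k < n, ω k = ω' k) ∧ ω n ≠ ω' n :=
    fun ω ω' hne => ⟨Nat.find (Function.ne_iff.1 hne), fun k hk => not_not.1
      (Nat.find_min (Function.ne_iff.1 hne) hk), Nat.find_spec (Function.ne_iff.1 hne)⟩
  have inj : Function.Injective Ψ := fun ω ω' e => by
    by_contra hne
    obtain ⟨n, a, b⟩ := fd _ _ hne
    have := h _ _ n a b
    rw [e, dist_self] at this
    exact absurd this (not_le.2 (by positivity))
  have hol : HolderOnWith 4 (b : ℝ≥0)⁻¹ (fun p => Real.ofDigits (Function.invFun Ψ p))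
      (range Ψ) := by
    rintro _ ⟨ω, rfl⟩ _ ⟨ω', rfl⟩
    simp only [Function.leftInverse_invFun inj ω, Function.leftInverse_invFun inj ω']
    by_cases hne : ω = ω'
    · simp [hne]
    obtain ⟨n, a, c⟩ := fd _ _ hne
    have c1 := Real.abs_ofDigits_sub_ofDigits_le a
    have c2 := Real.rpow_le_rpow (by positivity) (h _ _ n a c)
      (show (0 : ℝ) ≤ (b : ℝ)⁻¹ by positivity)
    rw [Real.pow_rpow_inv_natCast (by positivity) b0] at c2
    rw [edist_dist, edist_dist, ENNReal.ofReal_rpow_of_nonneg dist_nonneg (by positivity),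
      show ((4 : ℝ≥0) : ℝ≥0∞) = ENNReal.ofReal 4 by simp, ← ENNReal.ofReal_mul (by norm_num),
      NNReal.coe_inv, NNReal.coe_natCast]
    refine ENNReal.ofReal_le_ofReal (c1.trans ?_)
    rw [pow_add, one_div, inv_pow] at c2
    norm_num at c2 ⊢
    linarith
  have h1 := hol.dimH_image_le (by positivity)
  have h2 : Icc (0 : ℝ) 1 ⊆ (fun p => Real.ofDigits (Function.invFun Ψ p)) '' range Ψ :=
    fun y hy => by
      obtain ⟨ω, _, rfl⟩ := Real.ofDigits_SurjOn (show 1 < 2 by norm_num) hy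
      exact ⟨_, ⟨ω, rfl⟩, by simp only [Function.leftInverse_invFun inj ω]⟩
  have h3 := (dimH_mono h2).trans h1
  rw [Real.dimH_of_nonempty_interior (by simp)] at h3
  refine pos_iff_ne_zero.2 fun h0 => ?_
  simp [h0] at h3

lemma sup {r δ : ℕ → ℝ} (h1 : ∀ n, r (n + 1) = r n + δ n) (h2 : ∀ n, 0 ≤ δ n)
    (h3 : ∀ n, 2 * δ (n + 1) ≤ δ n) (n : ℕ) : r n + δ n ≤ ⨆ k, r k ∧ ⨆ k, r k ≤ r n + 2 * δ n := by
  have a : Monotone r := monotone_nat_of_le_succ fun n => by linarith [h1 n, h2 n]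
  have b : Antitone fun n => r n + 2 * δ n :=
    antitone_nat_of_succ_le fun n => by linarith [h1 n, h3 n]
  have c : ∀ n k, r k ≤ r n + 2 * δ n := fun n k => by
    linarith [a (le_max_left k n), b (le_max_right k n), h2 (max k n)]
  exact ⟨h1 n ▸ le_ciSup ⟨_, forall_mem_range.2 (c 0)⟩ _, ciSup_le (c n)⟩

variable (s D : ℝ) (ω : ℕ → Fin 2)

/-- The base quotient. -/
noncomputable def A (n : ℕ) (y : ℤ) : ℤ :=
  4 * if 40 * (y : ℝ) ^ (1 + s) ≤ D ^ (n + 2) then ⌈(y : ℝ) ^ s⌉ else 1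

/-- Denominators. -/
noncomputable def q : ℕ → ℤ
  | 0 => 1
  | 1 => 3
  | n + 2 => (1 + 4 * (ω n : ℕ)) * A s D n (q (n + 1)) * q (n + 1) - q n

/-- Numerators. -/
noncomputable def p : ℕ → ℤ
  | 0 => 0
  | 1 => 1
  | n + 2 => (1 + 4 * (ω n : ℕ)) * A s D n (q s D ω (n + 1)) * p (n + 1) - p n

/-- The limit point. -/
noncomputable def T : ℝ := ⨆ k, (p s D ω k : ℝ) / q s D ω k

lemma det (n : ℕ) : p s D ω (n + 1) * q s D ω n - p s D ω n * q s D ω (n + 1) = 1 := by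
  induction n with
  | zero => simp [p, q]
  | succ n ih => rw [p, q]; linear_combination ih

lemma odd (n : ℕ) : Odd (q s D ω n) := by
  induction n using Nat.twoStepInduction with
  | zero => simp [q]
  | one => rw [q]; decide
  | more n h _ =>
    rw [q, A]
    exact Even.sub_odd (((even_iff_two_dvd.2 (Dvd.dvd.mul_right (by norm_num) _)).mul_left
      _).mul_right _) h

lemma cop (n : ℕ) : IsCoprime (2 * p s D ω n) (q s D ω n) := by
  obtain ⟨k, hk⟩ := odd s D ω n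
  exact IsCoprime.mul_left ⟨-k, 1, by linarith⟩ ⟨-q s D ω (n + 1), p s D ω (n + 1), by
    linarith [det s D ω n]⟩

variable {ω} in
lemma agree {ω' : ℕ → Fin 2} (n : ℕ) (h : ∀ k < n, ω k = ω' k) :
    (q s D ω n = q s D ω' n ∧ q s D ω (n + 1) = q s D ω' (n + 1)) ∧
      p s D ω n = p s D ω' n ∧ p s D ω (n + 1) = p s D ω' (n + 1) := by
  induction n with
  | zero => simp [p, q]
  | succ n ih =>
    obtain ⟨⟨a, b⟩, c, d⟩ := ih fun k hk => h k (by omega)
    refine ⟨⟨b, ?_⟩, d, ?_⟩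
    · rw [q, q, a, b, h n (by omega)]
    · rw [p, p, b, c, d, h n (by omega)]

variable {s} (s0 : 0 < s)
include s0

lemma Ab (n : ℕ) {y : ℤ} (hy : 1 ≤ y) : 4 ≤ A s D n y ∧ (A s D n y : ℝ) ≤ 8 * (y : ℝ) ^ s := by
  have a := Real.one_le_rpow (show (1 : ℝ) ≤ y by exact_mod_cast hy) s0.le
  have b := Int.ceil_lt_add_one ((y : ℝ) ^ s)
  have c : 1 ≤ ⌈(y : ℝ) ^ s⌉ := Int.one_le_ceil_iff.2 (by linarith)
  unfold A; split_ifs <;> constructor <;> push_cast <;> linarith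

lemma grow (n : ℕ) : 1 ≤ q s D ω n ∧ 2 * q s D ω n ≤ q s D ω (n + 1) := by
  induction n with
  | zero => simp [q]
  | succ n ih =>
    have a : 1 ≤ q s D ω (n + 1) := by linarith [ih.1, ih.2]
    have b := (Ab D s0 n a).1
    refine ⟨a, ?_⟩
    rw [q]
    have c : 1 * 4 ≤ (1 + 4 * (ω n : ℕ)) * A s D n (q s D ω (n + 1)) :=
      mul_le_mul (by omega) b (by norm_num) (by positivity)
    nlinarith [ih.1, ih.2]

lemma q1 (n : ℕ) : (1 : ℝ) ≤ q s D ω n := by exact_mod_cast (grow D ω s0 n).1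

lemma q2 (n : ℕ) : 2 * (q s D ω n : ℝ) ≤ q s D ω (n + 1) := by exact_mod_cast (grow D ω s0 n).2

lemma qn (n : ℕ) : (n : ℝ) ≤ q s D ω n := by
  induction n with
  | zero => simp [q]
  | succ n ih => push_cast; linarith [q1 D ω s0 n, q2 D ω s0 n]

lemma qA (n : ℕ) : (q s D ω (n + 2) : ℝ) ≤ 5 * A s D n (q s D ω (n + 1)) * q s D ω (n + 1) ∧
    3 / 4 * (A s D n (q s D ω (n + 1)) * q s D ω (n + 1) : ℝ) ≤ q s D ω (n + 2) := by
  have a : (4 : ℝ) ≤ A s D n (q s D ω (n + 1)) := by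
    exact_mod_cast (Ab D s0 n (grow D ω s0 _).1).1
  have b := q1 D ω s0 n
  have c := q2 D ω s0 n
  have d : ((ω n : ℕ) : ℝ) ≤ 1 := by exact_mod_cast Nat.lt_succ_iff.1 (ω n).2
  have f := mul_le_mul_of_nonneg_right a (show (0 : ℝ) ≤ q s D ω (n + 1) by linarith)
  rw [q]; push_cast
  constructor <;> nlinarith [(Nat.cast_nonneg (ω n : ℕ) : (0 : ℝ) ≤ _)]

lemma up (n : ℕ) : (q s D ω (n + 1) : ℝ) ≤ 40 * (q s D ω n : ℝ) ^ (1 + s) := by
  cases n with
  | zero => simp [q]; norm_num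
  | succ n =>
    have a := q1 D ω s0 (n + 1)
    rw [Real.rpow_add (by linarith), Real.rpow_one]
    nlinarith [(qA D ω s0 n).1, (Ab D s0 n (grow D ω s0 (n + 1)).1).2]

lemma nsp {n : ℕ} (h : ¬40 * (q s D ω (n + 1) : ℝ) ^ (1 + s) ≤ D ^ (n + 2)) :
    (q s D ω (n + 2) : ℝ) ≤ 20 * q s D ω (n + 1) := by
  have := (qA D ω s0 n).1
  rw [A, if_neg h] at this
  push_cast at this; linarith

lemma sp {n : ℕ} (h : 40 * (q s D ω (n + 1) : ℝ) ^ (1 + s) ≤ D ^ (n + 2)) :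
    3 * (q s D ω (n + 1) : ℝ) ^ (1 + s) ≤ q s D ω (n + 2) := by
  have a := (qA D ω s0 n).2
  have b := q1 D ω s0 (n + 1)
  rw [A, if_pos h] at a
  rw [Real.rpow_add (by linarith), Real.rpow_one]
  push_cast at a
  nlinarith [Int.le_ceil ((q s D ω (n + 1) : ℝ) ^ s)]

lemma tb (n : ℕ) : (p s D ω n : ℝ) / q s D ω n + 1 / (q s D ω n * q s D ω (n + 1)) ≤ T s D ω ∧
    T s D ω ≤ p s D ω n / q s D ω n + 2 * (1 / (q s D ω n * q s D ω (n + 1))) := by
  have a := fun n => zero_lt_one.trans_le (q1 D ω s0 n)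
  refine sup (r := fun n => (p s D ω n : ℝ) / q s D ω n)
    (δ := fun n => 1 / (q s D ω n * q s D ω (n + 1) : ℝ)) (fun n => ?_)
    (fun n => (one_div_pos.2 (mul_pos (a _) (a _))).le) (fun n => ?_) n
  · have b : (p s D ω (n + 1) * q s D ω n - p s D ω n * q s D ω (n + 1) : ℝ) = 1 := by
      exact_mod_cast det s D ω n
    have := (a n).ne'
    have := (a (n + 1)).ne'
    field_simp; linarith
  · rw [mul_one_div, div_le_div_iff₀ (mul_pos (a _) (a _)) (mul_pos (a _) (a _))]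
    nlinarith [q2 D ω s0 n, q2 D ω s0 (n + 1), a n, a (n + 1)]

lemma tabs (n : ℕ) : |T s D ω - p s D ω n / q s D ω n| ≤ 2 / (q s D ω n * q s D ω (n + 1)) := by
  have a := tb D ω s0 n
  have b := one_div_pos.2 (mul_pos (zero_lt_one.trans_le (q1 D ω s0 n))
    (zero_lt_one.trans_le (q1 D ω s0 (n + 1))))
  rw [div_eq_mul_one_div 2, abs_le]; constructor <;> linarith [a.1, a.2]

variable {D} (hD : (20 : ℝ) ^ (1 + s) < D)
include hD

lemma D20 : 20 ≤ D := (Real.self_le_rpow_of_one_le (by norm_num) (by linarith)).trans hD.le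

lemma qD (n : ℕ) : (q s D ω n : ℝ) ≤ D ^ n := by
  have a := D20 s0 hD
  induction n using Nat.twoStepInduction with
  | zero => simp [q]
  | one => simp [q]; linarith
  | more n _ h =>
    by_cases b : 40 * (q s D ω (n + 1) : ℝ) ^ (1 + s) ≤ D ^ (n + 2)
    · exact (up D ω s0 _).trans b
    · rw [pow_succ, mul_comm]
      exact (nsp D ω s0 b).trans (mul_le_mul a h (by linarith [q1 D ω s0 (n + 1)]) (by linarith))

lemma inf (n : ℕ) : ∃ k ≥ n, 3 * (q s D ω k : ℝ) ^ (1 + s) ≤ q s D ω (k + 1) := by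
  by_contra h
  have a : ∀ k, ¬40 * (q s D ω (n + k + 1) : ℝ) ^ (1 + s) ≤ D ^ (n + k + 2) := fun k b =>
    h ⟨_, by omega, sp D ω s0 b⟩
  have b : ∀ k, (q s D ω (n + k + 1) : ℝ) ≤ 20 ^ k * q s D ω (n + 1) := fun k => by
    induction k with
    | zero => simp
    | succ k ih => rw [pow_succ]; linarith [nsp D ω s0 (a k), show
        (q s D ω (n + (k + 1) + 1) : ℝ) = q s D ω (n + k + 2) from rfl]
  have c : (0 : ℝ) < 20 ^ (1 + s) := by positivity
  obtain ⟨k, hk⟩ := pow_unbounded_of_one_lt (40 * (q s D ω (n + 1) : ℝ) ^ (1 + s))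
    ((one_lt_div c).2 hD)
  have d := Real.rpow_le_rpow (by linarith [q1 D ω s0 (n + k + 1)]) (b k) (by linarith : 0 ≤ 1 + s)
  rw [Real.mul_rpow (by positivity) (by linarith [q1 D ω s0 (n + 1)]), ← Real.rpow_pow_comm
    (by norm_num)] at d
  rw [div_pow, lt_div_iff₀ (by positivity)] at hk
  have f := pow_le_pow_right₀ (show 1 ≤ D by linarith [D20 s0 hD]) (show k ≤ n + k + 2 by omega)
  linarith [not_le.1 (a k)]

variable {ω} in
lemma sep {ω' : ℕ → Fin 2} {n : ℕ} (h : ∀ k < n, ω k = ω' k) (h0 : ω n = 0) (h1 : ω' n = 1) :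
    1 / (D ^ (n + 2)) ^ 2 ≤ T s D ω - T s D ω' := by
  obtain ⟨⟨a, b⟩, -, c⟩ := agree s D n h
  have d := (tb D ω s0 (n + 1)).1
  have f := (tb D ω' s0 (n + 1)).2
  rw [← b, ← c] at f
  have y := q1 D ω s0 (n + 1)
  have z := q2 D ω s0 (n + 1)
  have g : 4 * (q s D ω (n + 1 + 1) : ℝ) ≤ q s D ω' (n + 1 + 1) := by
    have k : (4 : ℝ) ≤ A s D n (q s D ω (n + 1)) := by
      exact_mod_cast (Ab D s0 n (grow D ω s0 _).1).1
    rw [q, q, ← a, ← b, h0, h1, Fin.val_zero, Fin.val_one]; push_cast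
    nlinarith [q1 D ω s0 n, q2 D ω s0 n]
  have w : (0 : ℝ) < q s D ω (n + 1) * q s D ω (n + 1 + 1) := by nlinarith
  have i : 1 / (q s D ω (n + 1) * q s D ω' (n + 1 + 1) : ℝ) ≤
      1 / (q s D ω (n + 1) * q s D ω (n + 1 + 1)) / 4 := by
    rw [div_div]; exact one_div_le_one_div_of_le (by positivity) (by nlinarith)
  have j : 1 / (D ^ (n + 1 + 1)) ^ 2 ≤ 1 / (q s D ω (n + 1) * q s D ω (n + 1 + 1) : ℝ) / 2 := by
    rw [div_div]
    exact one_div_le_one_div_of_le (by positivity) (by nlinarith [qD ω s0 hD (n + 1 + 1)])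
  linarith

end Pool.Agent.H49.WS
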