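import Mathlib
import Pool.Agent.H49.WS2

/-! Exact growth exponent of quadratic exponential sums on the tree. -/

set_option autoImplicit false

namespace Pool.Agent.H49.WS

open Set Filter Topology

lemma big {ε : ℝ} (e0 : 0 < ε) (c : ℝ) : ∀ᶠ x : ℝ in atTop, c * (Real.log x + 1) ≤ x ^ ε := by
  have c0 : 0 < 2 * (|c| + 1) := by positivity
  filter_upwards [(isLittleO_log_rpow_atTop e0).bound (inv_pos.2 c0), eventually_ge_atTop 1,
    Real.tendsto_log_atTop.eventually_ge_atTop 1] with x h x1 l1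
  rw [Real.norm_of_nonneg (by linarith), Real.norm_of_nonneg (by positivity),
    le_inv_mul_iff₀ c0] at h
  nlinarith [le_abs_self c, abs_nonneg c]

variable {α s D : ℝ} (ω : ℕ → Fin 2) (a1 : α < 1) (s0 : 0 < s) (hs : (1 - α) * (1 + s) = α)
include a1 s0 hs

lemma upp {N : ℕ} (N0 : 0 < N) :
    ‖S (T s D ω) N‖ ^ 2 ≤ 2656 * (Real.log N + 1) * (N : ℝ) ^ (2 * α) := by
  have N1 : (1 : ℝ) ≤ N := by exact_mod_cast N0
  have a0 : 1 ≤ 2 * α := by nlinarith
  set M := (N : ℝ) ^ (2 * α) with hM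
  have M1 : (N : ℝ) ≤ M := Real.self_le_rpow_of_one_le N1 a0
  have ex : ∃ n, M < q s D ω (n + 1) := by
    obtain ⟨n, hn⟩ := exists_nat_gt M
    exact ⟨n, by linarith [qn D ω s0 n, q1 D ω s0 n, q2 D ω s0 n]⟩
  obtain ⟨n, h1, h2⟩ : ∃ n, M < q s D ω (n + 1) ∧ q s D ω n ≤ M := by
    refine ⟨Nat.find ex, Nat.find_spec ex, ?_⟩
    rcases h : Nat.find ex with _ | k
    · simp [q]; linarith
    · exact not_lt.1 (Nat.find_min ex (by omega))
  have y := q1 D ω s0 n
  have z := q2 D ω s0 n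
  have b := wb (t := T s D ω) (zero_lt_one.trans_le (grow D ω s0 n).1)
    (cop s D ω n).of_mul_left_right ((tabs D ω s0 n).trans (by
      rw [div_le_div_iff₀ (by nlinarith) (by positivity)]; nlinarith)) le_rfl N0
  have c : (N : ℝ) ^ (2 - 2 * α) ≤ 40 * q s D ω n := by
    rw [← Real.rpow_le_rpow_iff (z := 1 + s) (by positivity) (by positivity) (by linarith),
      ← Real.rpow_mul (by positivity), Real.mul_rpow (by norm_num) (by positivity),
      show (2 - 2 * α) * (1 + s) = 2 * α by linarith]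
    exact (h1.le.trans (up D ω s0 n)).trans (mul_le_mul_of_nonneg_right
      (Real.self_le_rpow_of_one_le (by norm_num) (by linarith)) (by positivity))
  have d : (N : ℝ) * N ≤ 40 * M * q s D ω n := by
    have : (N : ℝ) ^ (2 - 2 * α) * M = N * N := by
      rw [hM, ← Real.rpow_add (by linarith), sub_add_cancel, Real.rpow_two, sq]
    nlinarith
  have f : 4 * N / q s D ω n * N ≤ 160 * M := by
    rw [div_mul_eq_mul_div, div_le_iff₀ (by linarith)]; linarith
  have g : (4 * N / q s D ω n * q s D ω n : ℝ) = 4 * N := div_mul_cancel₀ _ (by linarith)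
  have l := Real.log_nonneg N1
  refine b.trans ?_
  rw [mul_assoc 16, add_mul, mul_add (4 * N / _ : ℝ), ← mul_assoc (4 * N / _ : ℝ), g]
  nlinarith [mul_le_mul_of_nonneg_right M1 l, mul_le_mul_of_nonneg_right h2 l,
    mul_nonneg (show 0 ≤ M by linarith) l]

lemma upp' {ε : ℝ} (e0 : 0 < ε) : ∀ᶠ N : ℕ in atTop, ‖S (T s D ω) N‖ ≤ (N : ℝ) ^ (α + ε) := by
  filter_upwards [tendsto_natCast_atTop_atTop.eventually (big (show 0 < 2 * ε by linarith) 2656),
    eventually_gt_atTop 0] with N h N0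
  refine (pow_le_pow_iff_left₀ (norm_nonneg _) (by positivity) two_ne_zero).1
    ((upp ω a1 s0 hs N0).trans ((mul_le_mul_of_nonneg_right h (by positivity)).trans_eq ?_))
  rw [← Real.rpow_add (by positivity), ← Real.rpow_mul_natCast (by positivity)]
  congr 1; push_cast; ring

lemma lowr (hD : (20 : ℝ) ^ (1 + s) < D) :
    ∃ᶠ N : ℕ in atTop, (N : ℝ) ^ α / 80 ≤ ‖S (T s D ω) N‖ := by
  obtain ⟨X, hX⟩ := eventually_atTop.1 ((big (show 0 < s / 2 by linarith) (40 * (1 + s / 2))).and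
    (eventually_ge_atTop 1))
  refine frequently_atTop.2 fun N0 => ?_
  obtain ⟨n, hn⟩ := exists_nat_ge X
  obtain ⟨k, k1, k2⟩ := inf ω s0 hD (max n N0)
  obtain ⟨Q, hQ⟩ := Int.eq_ofNat_of_zero_le (zero_le_one.trans (grow D ω s0 k).1)
  have k3 := qn D ω s0 k
  have t := tabs D ω s0 k
  have cp := cop s D ω k
  rw [hQ] at k2 k3 t cp
  rw [Int.cast_natCast] at k2 k3 t
  obtain ⟨b1, b2⟩ := hX Q (hn.trans ((Nat.cast_le.2 (le_of_max_le_left k1)).trans k3))
  have Q0 : 0 < Q := by exact_mod_cast zero_lt_one.trans_le b2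
  have l := Real.log_nonneg b2
  set u := (Q : ℝ) ^ (s / 2) with hu
  have u1 : 40 ≤ u := by nlinarith
  set m := ⌊u / 20⌋₊
  have m1 : (m : ℝ) ≤ u / 20 := Nat.floor_le (by linarith)
  have m2 : u / 40 ≤ m := by linarith [Nat.lt_floor_add_one (u / 20)]
  have m0 : 0 < m := by exact_mod_cast (show (0 : ℝ) < m by linarith)
  have n1 : ((m * Q : ℕ) : ℝ) ≤ u / 20 * Q := by push_cast; gcongr
  have n2 : u * Q = (Q : ℝ) ^ (1 + s / 2) := by
    rw [Real.rpow_add (by linarith), Real.rpow_one, mul_comm]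
  have n3 : ((m * Q : ℕ) : ℝ) ≤ (Q : ℝ) ^ (1 + s / 2) := by nlinarith
  refine ⟨m * Q, ?_, le_trans ?_ (low Q0 cp m0 ?_ ?_)⟩
  · exact ((le_of_max_le_right k1).trans (by exact_mod_cast k3)).trans (Nat.le_mul_of_pos_left _ m0)
  · have c := Real.rpow_le_rpow (by positivity) n3 (show 0 ≤ α by nlinarith)
    rw [← Real.rpow_mul (by positivity), show (1 + s / 2) * α = s / 2 + 1 / 2 by linarith,
      Real.rpow_add (by linarith), ← Real.sqrt_eq_rpow] at c
    nlinarith [Real.sqrt_nonneg (Q : ℝ)]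
  · have c := Real.log_le_log (by positivity) n3
    rw [Real.log_rpow (by linarith)] at c
    nlinarith
  · have c : (Q : ℝ) ^ (1 + s) = u ^ 2 * Q := by
      rw [hu, ← Real.rpow_mul_natCast (by positivity), Real.rpow_add (by linarith), Real.rpow_one,
        mul_comm]; congr 2; push_cast; ring
    rw [c] at k2
    have w : (0 : ℝ) < u ^ 2 * Q := by positivity
    refine (mul_le_mul t (pow_le_pow_left₀ (by positivity) n1 2) (by positivity) (by
      have := q1 D ω s0 (k + 1); positivity)).trans ?_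
    rw [div_mul_eq_mul_div, div_le_div_iff₀ (by nlinarith) (by norm_num)]
    nlinarith [mul_le_mul_of_nonneg_left k2 (zero_le_one.trans b2)]

lemma lowr' (hD : (20 : ℝ) ^ (1 + s) < D) {ε : ℝ} (e0 : 0 < ε) :
    ∃ᶠ N : ℕ in atTop, (N : ℝ) ^ (α - ε) ≤ ‖S (T s D ω) N‖ := by
  refine ((lowr ω a1 s0 hs hD).and_eventually ((((tendsto_rpow_atTop e0).comp
    tendsto_natCast_atTop_atTop).eventually_ge_atTop 80).and (eventually_gt_atTop 0))).mono
    fun N ⟨h, h1, h2⟩ => le_trans ?_ h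
  rw [Real.rpow_sub (by positivity)]
  exact div_le_div_of_nonneg_left (by positivity) (by norm_num) h1

end Pool.Agent.H49.WS
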