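import Mathlib
import Pool.Agent.H54.PrimeSieve

set_option autoImplicit false

namespace Pool.Agent.H49.WV

open Finset Pool.Agent.H61.Sieve Pool.Agent.H54.PrimeSieve

noncomputable def rs (P : Finset ℕ) : ℝ := ∑ r ∈ P, (1 : ℝ) / r

noncomputable def lam (n : ℕ) : ℝ := rs n.primeFactors

lemma rs_nonneg (P : Finset ℕ) : 0 ≤ rs P := sum_nonneg fun _ _ => by positivity

lemma rs_mono {P P' : Finset ℕ} (h : P ⊆ P') : rs P ≤ rs P' :=
  sum_le_sum_of_subset_of_nonneg h fun _ _ _ => by positivity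

lemma rs_union (P P' : Finset ℕ) : rs (P ∪ P') ≤ rs P + rs P' := by
  have := sum_union_inter (s₁ := P) (s₂ := P') (f := fun r : ℕ => (1 : ℝ) / r)
  have h := rs_nonneg (P ∩ P')
  unfold rs at *
  linarith

lemma lam_nonneg (n : ℕ) : 0 ≤ lam n := rs_nonneg _

lemma lam_mul (a b : ℕ) : lam (a * b) ≤ lam a + lam b := by
  rcases eq_or_ne a 0 with rfl | ha
  · simpa [lam, rs] using lam_nonneg b
  rcases eq_or_ne b 0 with rfl | hb
  · simpa [lam, rs] using lam_nonneg a
  unfold lam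
  rw [Nat.primeFactors_mul ha hb]
  exact rs_union _ _

lemma lam_prime {p : ℕ} (hp : p.Prime) : lam p ≤ 1 := by
  unfold lam rs
  rw [hp.primeFactors, sum_singleton, div_le_one (by exact_mod_cast hp.pos)]
  exact_mod_cast hp.pos

lemma prod_one_add_le (P : Finset ℕ) (f : ℕ → ℝ) (hf : ∀ r ∈ P, 0 ≤ f r) :
    ∏ r ∈ P, (1 + f r) ≤ Real.exp (∑ r ∈ P, f r) := by
  rw [Real.exp_sum]
  exact prod_le_prod (fun r hr => by linarith [hf r hr]) fun r _ => by
    linarith [Real.add_one_le_exp (f r)]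

lemma smooth_sum (c : ℝ) (hc : 0 ≤ c) (P : Finset ℕ) (hP : ∀ r ∈ P, r.Prime) (T : Finset ℕ)
    (hT : ∀ d ∈ T, 0 < d ∧ d.primeFactors ⊆ P) :
    ∑ d ∈ T, Real.exp (c * lam d) / d ≤ Real.exp (2 * Real.exp c * rs P) := by
  classical
  have hmaps : ∀ d ∈ T, d.primeFactors ∈ P.powerset := fun d hd => mem_powerset.2 (hT d hd).2
  rw [← sum_fiberwise_of_maps_to hmaps]
  have h1 : ∀ E ∈ P.powerset, ∑ d ∈ T.filter (fun d => d.primeFactors = E),
      Real.exp (c * lam d) / d ≤ ∏ r ∈ E, (2 * Real.exp c * (1 / r)) := by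
    intro E hE
    have hEP := mem_powerset.1 hE
    have h2 : ∀ d ∈ T.filter (fun d => d.primeFactors = E), Real.exp (c * lam d) / d ≤
        (∏ _r ∈ E, Real.exp c) * cm (fun p => (1 : ℝ) / p) d := by
      intro d hd
      obtain ⟨hd1, hd2⟩ := mem_filter.1 hd
      have h3 : cm (fun p => (1 : ℝ) / p) d = 1 / d := by
        have := cm_div (fun _ => (1 : ℝ)) (hT d hd1).1.ne'
        rw [this]; simp [cm_eq]
      rw [h3, mul_one_div]
      refine div_le_div_of_nonneg_right ?_ (Nat.cast_nonneg _)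
      unfold lam rs
      rw [hd2, mul_sum, Real.exp_sum]
      refine prod_le_prod (fun _ _ => (Real.exp_pos _).le) fun r hr => Real.exp_le_exp.2 ?_
      have : (1 : ℝ) ≤ r := by exact_mod_cast (hP r (hEP hr)).pos
      have h4 : (1 : ℝ) / r ≤ 1 := by rw [div_le_one (by linarith)]; exact this
      nlinarith
    refine (sum_le_sum h2).trans ?_
    rw [← mul_sum]
    have h5 := fiber_le (fun p => (1 : ℝ) / p) (fun p => by positivity) (T.sup id) E
      (T.filter (fun d => d.primeFactors = E)) (fun m hm =>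
        ⟨(hT m (mem_filter.1 hm).1).1, le_sup (f := id) (mem_filter.1 hm).1, (mem_filter.1 hm).2⟩)
    refine (mul_le_mul_of_nonneg_left h5 (prod_nonneg fun _ _ => (Real.exp_pos _).le)).trans ?_
    rw [← prod_mul_distrib]
    refine prod_le_prod (fun r _ => mul_nonneg (Real.exp_pos _).le
      (sum_nonneg fun _ _ => by positivity)) fun r hr => ?_
    have h6 : (2 : ℝ) ≤ r := by exact_mod_cast (hP r (hEP hr)).two_le
    have h7 : (1 : ℝ) / r ≤ 1 / 2 := one_div_le_one_div_of_le (by norm_num) h6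
    have h0 : (0 : ℝ) ≤ 1 / r := by positivity
    have h8 := geom_le ((1 : ℝ) / r) h0 (by linarith) (T.sup id)
    have h9 : (1 : ℝ) / r / (1 - 1 / r) ≤ 2 * (1 / r) := by
      rw [div_le_iff₀ (by linarith)]; nlinarith
    have := Real.exp_pos c
    nlinarith
  refine (sum_le_sum h1).trans ?_
  rw [← prod_one_add]
  refine (prod_one_add_le P _ fun r _ => by positivity).trans (le_of_eq ?_)
  rw [← mul_sum]; rfl

lemma wt_le (n : ℕ) : wt n ≤ Real.exp (2 * lam n) := by
  have := smooth_sum 0 le_rfl n.primeFactors (fun r hr => Nat.prime_of_mem_primeFactors hr)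
    n.divisors (fun d hd => ⟨Nat.pos_of_mem_divisors hd,
      Nat.primeFactors_mono (Nat.dvd_of_mem_divisors hd) (Nat.mem_divisors.1 hd).2⟩)
  simpa [wt, lam] using this

lemma harm_hi (n : ℕ) : ∑ k ∈ Icc 1 n, (1 / k : ℝ) ≤ 1 + Real.log n := by
  have := harmonic_le_one_add_log n
  rw [harmonic_eq_sum_Icc] at this
  simpa [one_div] using this

lemma wt_le_log (n : ℕ) : wt n ≤ 1 + Real.log n := by
  refine le_trans ?_ (harm_hi n)
  refine sum_le_sum_of_subset_of_nonneg (fun d hd => mem_Icc.2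
    ⟨Nat.pos_of_mem_divisors hd, Nat.divisor_le hd⟩) fun _ _ _ => by positivity

lemma exp_div_le (c : ℝ) (r : ℝ) (hr : 1 ≤ r) :
    Real.exp (c * (1 / r)) ≤ 1 + Real.exp c * (1 / r) := by
  have h0 : 0 ≤ 1 / r := by positivity
  have h1 : 1 / r ≤ 1 := by rw [div_le_one (by linarith)]; exact hr
  have h := convexOn_exp.2 (Set.mem_univ c) (Set.mem_univ 0) h0 (sub_nonneg.2 h1) (by ring)
  simp only [smul_eq_mul, mul_zero, add_zero, Real.exp_zero, mul_one] at h
  rw [mul_comm]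
  nlinarith

/-- moment lemma -/
lemma moment {ι : Type} (Ω : Finset ι) (w : ι → ℝ) (hw : ∀ a ∈ Ω, 0 ≤ w a) (P : Finset ℕ)
    (hP : ∀ r ∈ P, 0 < r) (B : ι → Finset ℕ) (hB : ∀ a ∈ Ω, B a ⊆ P) (β u c : ℝ) (hβ : 0 ≤ β)
    (hu : 0 ≤ u) (hc : 0 ≤ c)
    (h : ∀ E ⊆ P, ∑ a ∈ Ω.filter (fun a => E ⊆ B a), w a ≤ β * ∏ r ∈ E, (u * (1 / r))) :
    ∑ a ∈ Ω, w a * Real.exp (c * rs (B a)) ≤ β * Real.exp (2 * u * Real.exp c) := by
  classical
  have h1 : ∀ a ∈ Ω, w a * Real.exp (c * rs (B a)) ≤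
      ∑ E ∈ P.powerset, if E ⊆ B a then w a * ∏ r ∈ E, (Real.exp c * (1 / r)) else 0 := by
    intro a ha
    rw [← sum_filter, ← mul_sum]
    refine mul_le_mul_of_nonneg_left ?_ (hw a ha)
    have e : P.powerset.filter (fun E => E ⊆ B a) = (B a).powerset := by
      ext E
      simp only [mem_filter, mem_powerset]
      exact ⟨fun h => h.2, fun h => ⟨h.trans (hB a ha), h⟩⟩
    rw [e, ← prod_one_add]
    unfold rs
    rw [mul_sum, Real.exp_sum]
    refine prod_le_prod (fun _ _ => (Real.exp_pos _).le) fun r hr => exp_div_le c r ?_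
    exact_mod_cast hP r (hB a ha hr)
  refine (sum_le_sum h1).trans ?_
  rw [sum_comm]
  have h2 : ∀ E ∈ P.powerset, (∑ a ∈ Ω, if E ⊆ B a then w a * ∏ r ∈ E, (Real.exp c * (1 / r))
      else 0) ≤ β * ∏ r ∈ E, (u * Real.exp c * (1 / (r : ℝ) ^ 2)) := by
    intro E hE
    rw [← sum_filter, ← sum_mul]
    refine (mul_le_mul_of_nonneg_right (h E (mem_powerset.1 hE))
      (prod_nonneg fun _ _ => by positivity)).trans (le_of_eq ?_)
    rw [mul_assoc, ← prod_mul_distrib]
    congr 1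
    exact prod_congr rfl fun r _ => by ring
  refine (sum_le_sum h2).trans ?_
  rw [← mul_sum, ← prod_one_add]
  refine mul_le_mul_of_nonneg_left ((prod_one_add_le P _ fun r _ => by positivity).trans
    (Real.exp_le_exp.2 ?_)) hβ
  rw [← mul_sum]
  have h3 : ∑ r ∈ P, (1 : ℝ) / (r : ℝ) ^ 2 ≤ 2 := by
    refine le_trans ?_ (inv_sq_le (P.sup id))
    exact sum_le_sum_of_subset_of_nonneg (fun r hr => mem_Icc.2 ⟨hP r hr, le_sup (f := id) hr⟩)
      fun _ _ _ => by positivity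
  have h4 : 0 ≤ u * Real.exp c := by positivity
  nlinarith

open Polynomial in
lemma roots_le (r : ℕ) (hr : r.Prime) (α β γ : ℤ)
    (h : ¬ ((r : ℤ) ∣ α ∧ (r : ℤ) ∣ β ∧ (r : ℤ) ∣ γ)) :
    ((range r).filter (fun u : ℕ => (r : ℤ) ∣ α * u ^ 2 + β * u + γ)).card ≤ 2 := by
  classical
  have : Fact r.Prime := ⟨hr⟩
  set f : (ZMod r)[X] := C (α : ZMod r) * X ^ 2 + C (β : ZMod r) * X + C (γ : ZMod r) with hf
  have hf0 : f ≠ 0 := by
    intro h0
    apply h
    have h2 := congrArg (fun g => coeff g 2) h0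
    have h1 := congrArg (fun g => coeff g 1) h0
    have h3 := congrArg (fun g => coeff g 0) h0
    simp only [hf, coeff_add, coeff_C_mul, coeff_X_pow, coeff_X, coeff_C, coeff_zero] at h1 h2 h3
    simp at h1 h2 h3
    exact ⟨(ZMod.intCast_zmod_eq_zero_iff_dvd _ _).1 h2,
      (ZMod.intCast_zmod_eq_zero_iff_dvd _ _).1 h1, (ZMod.intCast_zmod_eq_zero_iff_dvd _ _).1 h3⟩
  have hdeg : f.natDegree ≤ 2 := natDegree_quadratic_le
  refine le_trans (card_le_card_of_injOn (fun u : ℕ => (u : ZMod r)) (t := f.roots.toFinset)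
    ?_ ?_) (((Multiset.toFinset_card_le _).trans (card_roots' f)).trans hdeg)
  · intro u hu
    have hu' := (mem_filter.1 hu).2
    rw [← ZMod.intCast_zmod_eq_zero_iff_dvd] at hu'
    rw [mem_coe, Multiset.mem_toFinset, mem_roots hf0]
    simp only [IsRoot.def, hf, eval_add, eval_mul, eval_C, eval_pow, eval_X]
    push_cast at hu'
    exact hu'
  · intro u hu v hv huv
    have h1 := mem_range.1 (mem_filter.1 hu).1
    have h2 := mem_range.1 (mem_filter.1 hv).1
    have := (ZMod.natCast_eq_natCast_iff' u v r).1 huv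
    rwa [Nat.mod_eq_of_lt h1, Nat.mod_eq_of_lt h2] at this

end Pool.Agent.H49.WV
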