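import Pool.Agent.H49.WV1

set_option autoImplicit false

namespace Pool.Agent.H49.WV

open Finset Pool.Agent.H61.Sieve Pool.Agent.H54.PrimeSieve

lemma lin_sol (p a b : ℕ) (hp : p.Prime) (ha : ¬ p ∣ a) :
    ∃ s, (range p).filter (fun s => p ∣ b + a * s) = {s} := by
  have : Fact p.Prime := ⟨hp⟩
  have ha' : (a : ZMod p) ≠ 0 := fun h => ha ((ZMod.natCast_eq_zero_iff _ _).1 h)
  refine ⟨((-(b : ZMod p)) * (a : ZMod p)⁻¹).val, ?_⟩
  ext s
  simp only [mem_filter, mem_range, mem_singleton]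
  rw [← ZMod.natCast_eq_zero_iff]
  push_cast
  constructor
  · rintro ⟨h1, h2⟩
    have : (-(b : ZMod p)) * (a : ZMod p)⁻¹ = s := by
      field_simp
      linear_combination -h2
    rw [this, ZMod.val_natCast, Nat.mod_eq_of_lt h1]
  · rintro rfl
    refine ⟨ZMod.val_lt _, ?_⟩
    rw [ZMod.natCast_zmod_val]
    field_simp
    ring

lemma T_ok (N y z : ℕ) (hyz : y ≤ z) : ∀ m ∈ (Icc 1 y).filter (fun v => v.Coprime N),
    0 < m ∧ m ≤ z ∧ m.primeFactors ⊆ (Icc 1 z).filter (fun p => p.Prime ∧ ¬ p ∣ N) := by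
  intro m hm
  obtain ⟨h0, h3⟩ := mem_filter.mp hm
  obtain ⟨h1, h2⟩ := mem_Icc.mp h0
  refine ⟨h1, h2.trans hyz, fun p hp => mem_filter.mpr ⟨mem_Icc.mpr ⟨?_, ?_⟩, ?_, ?_⟩⟩
  · exact (Nat.prime_of_mem_primeFactors hp).pos
  · exact ((Nat.le_of_mem_primeFactors hp).trans h2).trans hyz
  · exact Nat.prime_of_mem_primeFactors hp
  · intro h
    have := Nat.dvd_gcd (Nat.dvd_of_mem_primeFactors hp) h
    rw [h3] at this
    exact (Nat.prime_of_mem_primeFactors hp).one_lt.ne' (Nat.dvd_one.1 this)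

lemma log_pos' (y : ℕ) (hy : 1 ≤ y) : 0 < Real.log ((y : ℝ) + 1) := by
  have : (1 : ℝ) ≤ y := by exact_mod_cast hy
  exact Real.log_pos (by linarith)

lemma bt_block (S : Finset ℕ) (M a N y : ℕ) (hM : 0 < M) (hy : 1 ≤ y)
    (hS : ∀ q ∈ S, q.Prime ∧ y < q ∧ a ≤ q ∧ q < a + N)
    (hc : ∀ q ∈ S, ∀ q' ∈ S, q ≡ q' [MOD M]) :
    (S.card : ℝ) ≤ 2 * wt M * ((N : ℝ) / M + 1) / Real.log (y + 1) + 2 * (y : ℝ) ^ 4 := by
  have hw := one_le_wt M hM.ne'
  have hl := log_pos' y hy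
  rcases S.eq_empty_or_nonempty with rfl | hne
  · simp only [card_empty, Nat.cast_zero]; positivity
  set q0 := S.min' hne with hq0
  have hq0S : q0 ∈ S := min'_mem S hne
  have hrep : ∀ q ∈ S, q = q0 + M * ((q - q0) / M) := by
    intro q hq
    have h1 : q0 ≤ q := min'_le S q hq
    have h2 : M ∣ q - q0 := (Nat.modEq_iff_dvd' h1).1 (hc q0 hq0S q hq)
    rw [Nat.mul_div_cancel' h2]; omega
  have hcard : (S.image (fun q => (q - q0) / M)).card = S.card := by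
    apply card_image_of_injOn
    intro q hq q' hq' h
    simp only at h
    rw [hrep q hq, hrep q' hq', h]
  have hrho : ∀ p ∈ (Icc 1 y).filter (fun p => p.Prime ∧ ¬ p ∣ M),
      rho (fun p s => p ∣ q0 + M * s) p = 1 := by
    intro p hp
    obtain ⟨s, hs⟩ := lin_sol p M q0 (mem_filter.1 hp).2.1 (mem_filter.1 hp).2.2
    unfold rho
    rw [hs, card_singleton]
  have h := selberg' (fun p s => p ∣ q0 + M * s) ((Icc 1 y).filter (fun p => p.Prime ∧ ¬ p ∣ M))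
    (fun p hp => (mem_filter.mp hp).2.1)
    (fun p _ s => by
      rw [mul_add, ← add_assoc]; exact Nat.dvd_add_iff_left (dvd_mul_left p M) |>.symm)
    (fun _ => 1) (fun _ => zero_le_one) (fun p hp => by rw [hrho p hp]; simp)
    (fun p hp => by rw [hrho p hp]; exact one_pos)
    (fun p hp => by rw [hrho p hp]; exact (mem_filter.mp hp).2.1.one_lt)
    y hy _ (T_ok M y y le_rfl) (Real.log (y + 1) / (2 * wt M)) (by positivity) ?_ 0 (N / M + 1)
    (S.image (fun q => (q - q0) / M)) ?_ ?_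
  · rw [hcard] at h
    refine h.trans (add_le_add_left ?_ _)
    have h1 : ((N / M + 1 : ℕ) : ℝ) ≤ (N : ℝ) / M + 1 := by
      push_cast; linarith [@Nat.cast_div_le ℝ _ _ _ N M]
    rw [div_div_eq_mul_div, mul_comm]
    gcongr
  · have h1 : ∀ m, cm (fun _ => 1) m = 1 := fun m => by simp [cm_eq]
    simp only [h1]
    rw [div_le_iff₀ (by positivity), mul_comm]
    exact coprime_sum M y hM.ne'
  · intro s hs
    obtain ⟨q, hq, rfl⟩ := mem_image.1 hs
    have h1 := hS q hq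
    have h2 := hS q0 hq0S
    have h3 : (q - q0) / M ≤ N / M := Nat.div_le_div_right (by omega)
    exact mem_Ico.2 ⟨Nat.zero_le _, by rw [zero_add]; exact Nat.lt_succ_of_le h3⟩
  · intro s hs p hp hps
    obtain ⟨q, hq, rfl⟩ := mem_image.1 hs
    rw [← hrep q hq] at hps
    obtain ⟨h3, h4⟩ := mem_filter.mp hp
    have := (Nat.prime_dvd_prime_iff_eq h4.1 (hS q hq).1).mp hps
    have := (mem_Icc.mp h3).2
    have := (hS q hq).2.1
    omega

/-- primes in `(4^K, 16^K]` -/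
def PR (K : ℕ) : Finset ℕ := (Ioc (4 ^ K) (16 ^ K)).filter Nat.Prime

lemma mem_PR {K q : ℕ} : q ∈ PR K ↔ q.Prime ∧ 4 ^ K < q ∧ q ≤ 16 ^ K := by
  simp only [PR, mem_filter, mem_Ioc]; tauto

lemma K_le (K : ℕ) : K * 2 ^ (K / 2) ≤ 3 * 2 ^ K := by
  have h1 : K ≤ 3 * 2 ^ (K / 2) := by
    have := Nat.lt_two_pow_self (n := K / 2)
    omega
  have h2 : 2 ^ (K / 2) * 2 ^ (K / 2) ≤ 2 ^ K := by
    rw [← pow_add]; exact Nat.pow_le_pow_right (by norm_num) (by omega)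
  nlinarith [Nat.mul_le_mul_right (2 ^ (K / 2)) h1]

/-- Brun-Titchmarsh with weights -/
lemma BT (K : ℕ) (hK : 1 ≤ K) (S : Finset ℕ) (hS : S ⊆ PR K) (M : ℕ) (hM : 0 < M)
    (hMK : M ≤ 2 ^ K) (hc : ∀ q ∈ S, ∀ q' ∈ S, q ≡ q' [MOD M]) :
    ∑ q ∈ S, (1 : ℝ) / q ≤ 300 * wt M / M := by
  have hw := one_le_wt M hM.ne'
  have hM' : (0 : ℝ) < M := by exact_mod_cast hM
  have hK' : (1 : ℝ) ≤ K := by exact_mod_cast hK
  have e4 : 4 ^ K = 2 ^ (2 * K) := by rw [pow_mul]; norm_num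
  have e16 : 16 ^ K = 2 ^ (4 * K) := by rw [pow_mul]; norm_num
  have hmaps : ∀ q ∈ S, Nat.log 2 q ∈ Ico (2 * K) (4 * K) := by
    intro q hq
    obtain ⟨h1, h2, h3⟩ := mem_PR.1 (hS hq)
    rw [e4] at h2
    rw [e16] at h3
    refine mem_Ico.2 ⟨Nat.le_log_of_pow_le (by norm_num) h2.le,
      Nat.log_lt_of_lt_pow h1.ne_zero (lt_of_le_of_ne h3 ?_)⟩
    rintro rfl
    have := (Nat.prime_dvd_prime_iff_eq Nat.prime_two h1).1 (dvd_pow_self 2 (by omega))
    have h4 : 2 ^ 2 ≤ 2 ^ (4 * K) := Nat.pow_le_pow_right (by norm_num) (by omega)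
    omega
  rw [← sum_fiberwise_of_maps_to hmaps]
  have hb : ∀ i ∈ Ico (2 * K) (4 * K), ∑ q ∈ S.filter (fun q => Nat.log 2 q = i), (1 : ℝ) / q ≤
      (134 * wt M / M) / K := by
    intro i hi
    obtain ⟨hi1, hi2⟩ := mem_Ico.1 hi
    have hq : ∀ q ∈ S.filter (fun q => Nat.log 2 q = i), q.Prime ∧ 2 ^ (K / 8) < q ∧ 2 ^ i ≤ q ∧
        q < 2 ^ i + 2 ^ i := by
      intro q hq
      obtain ⟨hq1, hq2⟩ := mem_filter.1 hq
      obtain ⟨h1, h2, h3⟩ := mem_PR.1 (hS hq1)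
      have h4 : 2 ^ (K / 8) ≤ 2 ^ (2 * K) := Nat.pow_le_pow_right (by norm_num) (by omega)
      have h5 := Nat.lt_pow_succ_log_self (b := 2) (by norm_num) q
      have h6 := Nat.pow_log_le_self 2 h1.ne_zero
      rw [hq2] at h5 h6
      rw [Nat.succ_eq_add_one, pow_succ] at h5
      exact ⟨h1, by omega, h6, by omega⟩
    have h := bt_block _ M (2 ^ i) (2 ^ i) (2 ^ (K / 8)) hM Nat.one_le_two_pow hq
      (fun q hq q' hq' => hc q (mem_filter.1 hq).1 q' (mem_filter.1 hq').1)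
    have hl := log_y K
    have hi0 : (0 : ℝ) < 2 ^ i := by positivity
    have h1 : ∑ q ∈ S.filter (fun q => Nat.log 2 q = i), (1 : ℝ) / q ≤
        ((S.filter (fun q => Nat.log 2 q = i)).card : ℝ) * (1 / 2 ^ i) := by
      rw [← nsmul_eq_mul]
      refine sum_le_card_nsmul _ _ _ fun q hq' => one_div_le_one_div_of_le hi0 ?_
      exact_mod_cast (hq q hq').2.2.1
    have h2 : M * 2 ^ K ≤ 2 ^ i := by
      calc M * 2 ^ K ≤ 2 ^ K * 2 ^ K := Nat.mul_le_mul_right _ hMK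
        _ = 2 ^ (2 * K) := by rw [← pow_add, two_mul]
        _ ≤ 2 ^ i := Nat.pow_le_pow_right (by norm_num) hi1
    have h2' : (M : ℝ) * 2 ^ K ≤ 2 ^ i := by exact_mod_cast h2
    have h1K : (1 : ℝ) ≤ 2 ^ K := one_le_pow₀ (by norm_num)
    have h3 : (1 : ℝ) ≤ 2 ^ i / M := by rw [le_div_iff₀ hM']; nlinarith
    have h4 : 2 * wt M * (((2 ^ i : ℕ) : ℝ) / M + 1) / Real.log (((2 ^ (K / 8) : ℕ) : ℝ) + 1)
        ≤ 128 * wt M * (2 ^ i / M) / K := by
      rw [div_le_div_iff₀ (by linarith [show (0 : ℝ) < K / 32 by positivity]) (by linarith)]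
      push_cast at hl ⊢
      have h5 : 0 ≤ wt M * (2 ^ i / M) := by positivity
      have h6 : 0 ≤ wt M * K := by positivity
      nlinarith [mul_le_mul_of_nonneg_left hl h5, mul_le_mul_of_nonneg_left h3 h6]
    have h5 : K * K * (2 ^ (K / 8)) ^ 4 ≤ K * (3 * 2 ^ K) := by
      have h6 : (2 ^ (K / 8)) ^ 4 ≤ 2 ^ (K / 2) := by
        rw [← pow_mul]; exact Nat.pow_le_pow_right (by norm_num) (by omega)
      rw [mul_assoc]
      exact Nat.mul_le_mul_left _ ((Nat.mul_le_mul_left _ h6).trans (K_le K))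
    have h6 : K * (2 ^ (K / 8)) ^ 4 ≤ 3 * 2 ^ K := by
      rw [mul_assoc] at h5; exact Nat.le_of_mul_le_mul_left h5 hK
    have h6' : (K : ℝ) * (((2 ^ (K / 8) : ℕ) : ℝ)) ^ 4 ≤ 3 * 2 ^ K := by exact_mod_cast h6
    have h7 : 2 * (((2 ^ (K / 8) : ℕ) : ℝ)) ^ 4 ≤ 6 * wt M * (2 ^ i / M) / K := by
      rw [le_div_iff₀ (by linarith)]
      have h8 : (2 : ℝ) ^ K ≤ 2 ^ i / M := by rw [le_div_iff₀ hM']; linarith
      nlinarith
    refine h1.trans ?_
    calc _ ≤ (134 * wt M * (2 ^ i / M) / K) * (1 / 2 ^ i) := by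
          refine mul_le_mul_of_nonneg_right (h.trans ?_) (by positivity)
          have : 134 * wt M * (2 ^ i / M) / K =
            128 * wt M * (2 ^ i / M) / K + 6 * wt M * (2 ^ i / M) / K := by ring
          linarith
      _ = _ := by field_simp
  refine (sum_le_card_nsmul _ _ _ hb).trans ?_
  rw [Nat.card_Ico, nsmul_eq_mul, show 4 * K - 2 * K = 2 * K by omega]
  push_cast
  have : 2 * (K : ℝ) * (134 * wt M / M / K) = 268 * wt M / M := by field_simp; ring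
  rw [this]
  gcongr
  norm_num

end Pool.Agent.H49.WV
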