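import Pool.Agent.H49.WV2

set_option autoImplicit false

namespace Pool.Agent.H49.WV

open Finset Pool.Agent.H61.Sieve Pool.Agent.H54.PrimeSieve

lemma card_pf_le (n B : ℕ) (hn : n ≠ 0) (h : n ≤ 2 ^ B) : n.primeFactors.card ≤ B := by
  have h1 : 2 ^ n.primeFactors.card ≤ ∏ p ∈ n.primeFactors, p := by
    rw [← prod_const]
    exact prod_le_prod (fun _ _ => Nat.zero_le _) fun p hp =>
      (Nat.prime_of_mem_primeFactors hp).two_le
  have h2 := Nat.le_of_dvd (Nat.pos_of_ne_zero hn) (Nat.prod_primeFactors_dvd n)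
  exact (Nat.pow_le_pow_iff_right (by norm_num : 1 < 2)).1 ((h1.trans h2).trans h)

lemma modEq_prod (d : ℕ) (E : Finset ℕ) (hE : ∀ r ∈ E, r.Prime ∧ ¬ r ∣ d) (q q' : ℕ)
    (h1 : q ≡ q' [MOD d]) (h2 : ∀ r ∈ E, q ≡ q' [MOD r]) : q ≡ q' [MOD d * ∏ r ∈ E, r] := by
  have hco : Nat.Coprime d (∏ r ∈ E, r) :=
    Nat.Coprime.prod_right fun r hr => (((hE r hr).1.coprime_iff_not_dvd).2 (hE r hr).2).symm
  refine (Nat.modEq_and_modEq_iff_modEq_mul hco).1 ⟨h1, ?_⟩
  rw [Nat.modEq_iff_dvd]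
  push_cast
  refine prod_dvd_of_coprime (fun a ha b hb hab => ?_) fun r hr => (Nat.modEq_iff_dvd).1 (h2 r hr)
  exact Nat.isCoprime_iff_coprime.2 ((Nat.coprime_primes (hE a ha).1 (hE b hb).1).2 hab)

lemma cls (K K' : ℕ) (hK' : 1 ≤ K') (S : Finset ℕ) (hS : S ⊆ PR K') (d : ℕ) (hd : 0 < d)
    (hdK : d * 2 ^ K ≤ 2 ^ K') (hc : ∀ q ∈ S, ∀ q' ∈ S, q ≡ q' [MOD d]) (E : Finset ℕ)
    (hE : ∀ r ∈ E, r.Prime ∧ r ≤ K / 2 ∧ ¬ r ∣ d) (T : ℕ → Finset ℕ) (hT : ∀ r ∈ E, (T r).card ≤ 2)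
    (hST : ∀ q ∈ S, ∀ r ∈ E, q % r ∈ T r) :
    ∑ q ∈ S, (1 : ℝ) / q ≤ (300 * Real.exp (2 * lam d) / d) * ∏ r ∈ E, (6 * ((1 : ℝ) / r)) := by
  classical
  set e := ∏ r ∈ E, r with he
  have he0 : 0 < e := prod_pos fun r hr => (hE r hr).1.pos
  have he1 : e ≤ 2 ^ K := by
    have h1 : e ≤ primorial (K / 2) := by
      unfold primorial
      refine prod_le_prod_of_subset_of_one_le' (fun r hr => mem_filter.2
        ⟨mem_range.2 (Nat.lt_succ_of_le (hE r hr).2.1), (hE r hr).1⟩) fun r hr _ => ?_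
      exact (mem_filter.1 hr).2.pos
    refine h1.trans ((primorial_le_four_pow _).trans ?_)
    rw [show 4 = 2 ^ 2 by norm_num, ← pow_mul]
    exact Nat.pow_le_pow_right (by norm_num) (by omega)
  let φ : ℕ → (∀ r ∈ E, ℕ) := fun q r _ => q % r
  have hmaps : ∀ q ∈ S, φ q ∈ E.pi T := fun q hq => mem_pi.2 fun r hr => hST q hq r hr
  rw [← sum_fiberwise_of_maps_to hmaps]
  have hd' : (0 : ℝ) < d := by exact_mod_cast hd
  have hb : ∀ ψ ∈ E.pi T, ∑ q ∈ S.filter (fun q => φ q = ψ), (1 : ℝ) / q ≤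
      (300 * Real.exp (2 * lam d) / d) * ∏ r ∈ E, (3 * ((1 : ℝ) / r)) := by
    intro ψ _
    refine (BT K' hK' _ ((filter_subset _ _).trans hS) (d * e) (Nat.mul_pos hd he0)
      ((Nat.mul_le_mul_left _ he1).trans hdK) ?_).trans ?_
    · intro q hq q' hq'
      obtain ⟨h1, h2⟩ := mem_filter.1 hq
      obtain ⟨h3, h4⟩ := mem_filter.1 hq'
      refine modEq_prod d E (fun r hr => ⟨(hE r hr).1, (hE r hr).2.2⟩) q q' (hc q h1 q' h3)
        fun r hr => ?_
      exact congrFun (congrFun (h2.trans h4.symm) r) hr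
    · have h1 : lam e = rs E := by
        unfold lam; rw [he, Nat.primeFactors_prod fun r hr => (hE r hr).1]
      have h2 : Real.exp (2 * rs E) ≤ ∏ _r ∈ E, (3 : ℝ) := by
        unfold rs
        rw [mul_sum, Real.exp_sum]
        refine prod_le_prod (fun _ _ => (Real.exp_pos _).le) fun r hr => ?_
        have h6 : (2 : ℝ) ≤ r := by exact_mod_cast (hE r hr).1.two_le
        have h7 : (1 : ℝ) / r ≤ 1 / 2 := one_div_le_one_div_of_le (by norm_num) h6
        refine (Real.exp_le_exp.2 (show 2 * ((1 : ℝ) / r) ≤ 1 by linarith)).trans ?_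
        linarith [Real.exp_one_lt_d9]
      have h3 : wt (d * e) ≤ Real.exp (2 * lam d) * ∏ _r ∈ E, (3 : ℝ) := by
        refine (wt_le _).trans (le_trans ?_ (mul_le_mul_of_nonneg_left h2 (Real.exp_pos _).le))
        rw [← Real.exp_add, ← h1]
        exact Real.exp_le_exp.2 (by linarith [lam_mul d e])
      have h4 : ∏ r ∈ E, ((1 : ℝ) / r) = 1 / e := by
        rw [he, prod_div_distrib, prod_const_one, Nat.cast_prod]
      have he' : (0 : ℝ) < e := by exact_mod_cast he0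
      rw [prod_mul_distrib, h4]
      push_cast
      calc 300 * wt (d * e) / (d * e)
          ≤ 300 * (Real.exp (2 * lam d) * ∏ _r ∈ E, (3 : ℝ)) / (d * e) := by gcongr
        _ = _ := by field_simp
  refine (sum_le_card_nsmul _ _ _ hb).trans ?_
  rw [nsmul_eq_mul, card_pi]
  have h5 : ((∏ r ∈ E, (T r).card : ℕ) : ℝ) ≤ ∏ _r ∈ E, (2 : ℝ) := by
    push_cast
    exact prod_le_prod (fun _ _ => Nat.cast_nonneg _) fun r hr => by exact_mod_cast hT r hr
  refine (mul_le_mul_of_nonneg_right h5 (mul_nonneg (by positivity)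
    (prod_nonneg fun _ _ => by positivity))).trans (le_of_eq ?_)
  rw [mul_left_comm, ← prod_mul_distrib]
  congr 1
  exact prod_congr rfl fun r _ => by ring

/-- primes dividing the value which are not fixed divisors -/
noncomputable def mov (d : ℕ) (α β γ : ℤ) (q : ℕ) : ℝ :=
  rs ((α * q ^ 2 + β * q + γ).natAbs.primeFactors.filter
    (fun r => ¬ r ∣ d ∧ ¬ ((r : ℤ) ∣ α ∧ (r : ℤ) ∣ β ∧ (r : ℤ) ∣ γ)))

/-- the constant -/
noncomputable def CG (c : ℝ) : ℝ := 300 * Real.exp (12 * Real.exp c) * Real.exp (c * 500)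

lemma CG_pos (c : ℝ) : 0 < CG c := by unfold CG; positivity

lemma G (c : ℝ) (hc0 : 0 ≤ c) (K K' : ℕ) (hK : 1 ≤ K) (hK' : 1 ≤ K') (S : Finset ℕ)
    (hS : S ⊆ PR K') (d : ℕ) (hd : 0 < d) (hdK : d * 2 ^ K ≤ 2 ^ K')
    (hc : ∀ q ∈ S, ∀ q' ∈ S, q ≡ q' [MOD d]) (α β γ : ℤ)
    (hf : ∀ q ∈ S, α * q ^ 2 + β * q + γ ≠ 0 ∧ (α * q ^ 2 + β * q + γ).natAbs ≤ 2 ^ (250 * K)) :
    ∑ q ∈ S, (1 : ℝ) / q * Real.exp (c * mov d α β γ q) ≤ CG c * Real.exp (2 * lam d) / d := by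
  classical
  set P := (range (K / 2 + 1)).filter
    (fun r => r.Prime ∧ ¬ r ∣ d ∧ ¬ ((r : ℤ) ∣ α ∧ (r : ℤ) ∣ β ∧ (r : ℤ) ∣ γ)) with hP
  set B : ℕ → Finset ℕ := fun q => P.filter (fun r => (r : ℤ) ∣ α * q ^ 2 + β * q + γ) with hB
  have hK0 : (0 : ℝ) < K := by exact_mod_cast hK
  have h1 : ∀ q ∈ S, mov d α β γ q ≤ rs (B q) + 500 := by
    intro q hq
    set n := (α * q ^ 2 + β * q + γ).natAbs with hn
    have hn0 : n ≠ 0 := Int.natAbs_ne_zero.2 (hf q hq).1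
    have h2 : rs (n.primeFactors.filter (fun r => K / 2 < r)) ≤ 500 := by
      have h3 : ∀ r ∈ n.primeFactors.filter (fun r => K / 2 < r), (1 : ℝ) / r ≤ 2 / K := by
        intro r hr
        have h4 : K ≤ 2 * r := by have := (mem_filter.1 hr).2; omega
        have h5 : (K : ℝ) ≤ 2 * r := by exact_mod_cast h4
        rw [div_le_div_iff₀ (by linarith) hK0]; linarith
      refine (sum_le_card_nsmul _ _ _ h3).trans ?_
      have h6 : ((n.primeFactors.filter (fun r => K / 2 < r)).card : ℝ) ≤ 250 * K := by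
        exact_mod_cast (card_filter_le _ _).trans (card_pf_le n _ hn0 (hf q hq).2)
      rw [nsmul_eq_mul]
      calc _ ≤ (250 * K : ℝ) * (2 / K) := by gcongr
        _ = 500 := by field_simp; norm_num
    refine le_trans (rs_mono (P' := B q ∪ n.primeFactors.filter (fun r => K / 2 < r)) ?_)
      ((rs_union _ _).trans (by linarith))
    intro r hr
    obtain ⟨h3, h4⟩ := mem_filter.1 hr
    rw [mem_union]
    by_cases h5 : K / 2 < r
    · exact Or.inr (mem_filter.2 ⟨h3, h5⟩)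
    · refine Or.inl (mem_filter.2 ⟨mem_filter.2 ⟨mem_range.2 (by omega),
        Nat.prime_of_mem_primeFactors h3, h4⟩, ?_⟩)
      exact Int.natCast_dvd.2 (Nat.dvd_of_mem_primeFactors h3)
  have h2 := moment S (fun q => (1 : ℝ) / q) (fun _ _ => by positivity) P
    (fun r hr => (mem_filter.1 hr).2.1.pos) B (fun _ _ => filter_subset _ _)
    (300 * Real.exp (2 * lam d) / d) 6 c (by positivity) (by norm_num) hc0 ?_
  · have h3 : ∀ q ∈ S, (1 : ℝ) / q * Real.exp (c * mov d α β γ q) ≤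
        ((1 : ℝ) / q * Real.exp (c * rs (B q))) * Real.exp (c * 500) := by
      intro q hq
      rw [mul_assoc, ← Real.exp_add, ← mul_add]
      exact mul_le_mul_of_nonneg_left (Real.exp_le_exp.2
        (mul_le_mul_of_nonneg_left (h1 q hq) hc0)) (by positivity)
    refine (sum_le_sum h3).trans ?_
    rw [← sum_mul]
    refine (mul_le_mul_of_nonneg_right h2 (Real.exp_pos _).le).trans (le_of_eq ?_)
    unfold CG
    rw [show (2 : ℝ) * 6 * Real.exp c = 12 * Real.exp c by ring]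
    ring
  · intro E hE
    refine cls K K' hK' _ ((filter_subset _ _).trans hS) d hd hdK
      (fun q hq q' hq' => hc q (mem_filter.1 hq).1 q' (mem_filter.1 hq').1) E
      (fun r hr => ?_) (fun r => (range r).filter (fun u : ℕ => (r : ℤ) ∣ α * u ^ 2 + β * u + γ))
      (fun r hr => ?_) (fun q hq r hr => ?_)
    · obtain ⟨h3, h4⟩ := mem_filter.1 (hE hr)
      exact ⟨h4.1, Nat.le_of_lt_succ (mem_range.1 h3), h4.2.1⟩
    · obtain ⟨h3, h4⟩ := mem_filter.1 (hE hr)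
      exact roots_le r h4.1 α β γ h4.2.2
    · have h3 := (mem_filter.1 ((mem_filter.1 hq).2 hr)).2
      have h4 := (mem_filter.1 (hE hr)).2.1
      refine mem_filter.2 ⟨mem_range.2 (Nat.mod_lt _ h4.pos), ?_⟩
      have h5 : ((q % r : ℕ) : ℤ) = q - r * ((q / r : ℕ) : ℤ) := by
        have := Nat.mod_add_div q r
        have h6 : ((q % r : ℕ) : ℤ) + r * ((q / r : ℕ) : ℤ) = q := by exact_mod_cast this
        linarith
      rw [h5]
      obtain ⟨t, ht⟩ := h3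
      exact ⟨t - α * (2 * q * ((q / r : ℕ) : ℤ) - r * ((q / r : ℕ) : ℤ) ^ 2) - β * ((q / r : ℕ) : ℤ),
        by linear_combination ht⟩

end Pool.Agent.H49.WV
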