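import Pool.Agent.H49.WV3

set_option autoImplicit false

namespace Pool.Agent.H49.WV

open Finset Pool.Agent.H61.Sieve Pool.Agent.H54.PrimeSieve

def W (n : ℕ) : ℕ := ∑ p ∈ n.primeFactors, n / p ^ (n.factorization p)

lemma W_mul (n p : ℕ) (hn : n ≠ 0) (hp : p.Prime) (h : ¬ p ∣ n) : W (n * p) = n + p * W n := by
  unfold W
  have h1 : p ∉ n.primeFactors := fun h' => h (Nat.dvd_of_mem_primeFactors h')
  rw [Nat.primeFactors_mul hn hp.ne_zero, hp.primeFactors, union_comm, ← insert_eq, sum_insert h1,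
    mul_sum, Nat.factorization_mul hn hp.ne_zero, hp.factorization]
  congr 1
  · simp [Nat.factorization_eq_zero_of_not_dvd h, hp.pos]
  · refine sum_congr rfl fun r hr => ?_
    have h2 : p ≠ r := by rintro rfl; exact h1 hr
    simp only [Finsupp.coe_add, Pi.add_apply, Finsupp.single_apply, if_neg h2, add_zero]
    rw [mul_comm n p, Nat.mul_div_assoc _ (Nat.ordProj_dvd n r)]

lemma W_cop (n r : ℕ) (hn : n ≠ 0) (hr : r.Prime) (h : r ∣ n) : ¬ r ∣ W n := by
  unfold W
  have h1 : r ∈ n.primeFactors := Nat.mem_primeFactors.2 ⟨hr, h, hn⟩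
  rw [← add_sum_erase _ _ h1]
  intro h2
  have h3 : r ∣ ∑ p ∈ n.primeFactors.erase r, n / p ^ (n.factorization p) := by
    refine dvd_sum fun p hp => ?_
    obtain ⟨h4, h5⟩ := mem_erase.1 hp
    have h6 : r ∣ p ^ (n.factorization p) * (n / p ^ (n.factorization p)) := by
      rw [Nat.ordProj_mul_ordCompl_eq_self]; exact h
    refine (Nat.Coprime.dvd_mul_left ?_).1 h6
    exact Nat.Coprime.pow_right _
      ((Nat.coprime_primes hr (Nat.prime_of_mem_primeFactors h5)).2 h4.symm)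
  exact Nat.not_dvd_ordCompl hr hn ((Nat.dvd_add_left h3).1 h2)

lemma W_coprime (n : ℕ) (hn : n ≠ 0) : Nat.Coprime (W n) n := by
  refine Nat.coprime_of_dvd fun r hr h1 h2 => W_cop n r hn hr h2 h1

lemma W_le (n : ℕ) : W n ≤ n * n := by
  unfold W
  refine (sum_le_card_nsmul _ _ n fun p _ => Nat.div_le_self _ _).trans ?_
  rw [smul_eq_mul]
  refine Nat.mul_le_mul_right _ ?_
  exact (card_le_card (fun p hp => Nat.mem_divisors.2
    ⟨Nat.dvd_of_mem_primeFactors hp, (Nat.mem_primeFactors.1 hp).2.2⟩)).trans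
    (Nat.card_divisors_le_self n)

lemma W_ge (n : ℕ) (h : n % 4 = 2) : n ≤ 2 * W n := by
  have hn : n ≠ 0 := by omega
  have h1 : 2 ∈ n.primeFactors := Nat.mem_primeFactors.2 ⟨Nat.prime_two, by omega, hn⟩
  have h2 : n.factorization 2 ≤ 1 := by
    by_contra h3
    have : 2 ^ 2 ∣ n := (Nat.prime_two.pow_dvd_iff_le_factorization hn).2 (by omega)
    omega
  have h3 := single_le_sum (f := fun p => n / p ^ (n.factorization p))
    (fun _ _ => Nat.zero_le _) h1
  have h4 : n / 2 ^ 1 ≤ n / 2 ^ (n.factorization 2) :=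
    Nat.div_le_div_left (Nat.pow_le_pow_right (by norm_num) h2) (by positivity)
  unfold W
  omega

lemma L_two (N y : ℕ) (hN : N ≠ 0) :
    Real.log (y + 1) ^ 2 / (4 * wt N ^ 2) ≤
      ∑ m ∈ (Icc 1 (y * y)).filter (fun m => m.Coprime N),
        cm (fun p => if p ∣ 1 then 1 else 2) m / m := by
  have h2 := coprime_sum N y hN
  have hw := one_le_wt N hN
  have hl : 0 ≤ Real.log (y + 1) := Real.log_nonneg (by linarith [Nat.cast_nonneg (α := ℝ) y])
  set V := (Icc 1 y).filter (fun v => v.Coprime N) with hV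
  have h4 : (∑ u ∈ V, (1 : ℝ) / u) * (∑ v ∈ V, (1 : ℝ) / v) ≤
      ∑ m ∈ (Icc 1 (y * y)).filter (fun m => m.Coprime N),
        cm (fun p => if p ∣ 1 then 1 else 2) m / m := by
    rw [sum_mul_sum, ← sum_product']
    have hmaps : ∀ x ∈ V ×ˢ V, x.1 * x.2 ∈ (Icc 1 (y * y)).filter (fun m => m.Coprime N) := by
      intro x hx
      simp only [hV, mem_product, mem_filter, mem_Icc] at hx ⊢
      exact ⟨⟨Nat.mul_pos hx.1.1.1 hx.2.1.1, Nat.mul_le_mul hx.1.1.2 hx.2.1.2⟩,
        Nat.Coprime.mul_left hx.1.2 hx.2.2⟩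
    rw [← sum_fiberwise_of_maps_to hmaps]
    refine sum_le_sum (fun m hm => ?_)
    have hm0 : 0 < m := (mem_Icc.mp (mem_filter.mp hm).1).1
    have e : ∀ x ∈ (V ×ˢ V).filter (fun x => x.1 * x.2 = m),
        (1 : ℝ) / x.1 * (1 / x.2) = 1 / m := by
      intro x hx
      rw [← (mem_filter.mp hx).2]
      push_cast
      rw [one_div_mul_one_div]
    rw [sum_congr rfl e, sum_const, nsmul_eq_mul, mul_one_div]
    refine div_le_div_of_nonneg_right (le_trans ?_ (div_count 1 m hm0.ne')) (Nat.cast_nonneg _)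
    rw [Nat.cast_le]
    apply card_le_card_of_injOn (fun x => x.2)
    · intro x hx
      simp only [hV, coe_filter, mem_product, mem_filter, mem_Icc, Set.mem_ofPred_eq,
        Nat.mem_divisors] at hx ⊢
      exact ⟨⟨Dvd.intro_left _ hx.2, hm0.ne'⟩, Nat.coprime_one_right _⟩
    · intro x hx x' hx' hxx
      simp only [hV, coe_filter, mem_product, mem_filter, mem_Icc, Set.mem_ofPred_eq] at hx hx'
      simp only at hxx
      refine Prod.ext ?_ hxx
      have : x.1 * x.2 = x'.1 * x.2 := by rw [hx.2, hxx, hx'.2]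
      exact Nat.eq_of_mul_eq_mul_right hx.1.2.1.1 this
  refine le_trans ?_ h4
  rw [div_le_iff₀ (by positivity), sq]
  refine (mul_le_mul h2 h2 hl (hl.trans h2)).trans (le_of_eq ?_)
  ring

/-- distance -/
def dd (m m' : ℕ) : ℕ := ((m : ℤ) - m').natAbs

lemma dvd_dd {g m m' : ℕ} : g ∣ dd m m' ↔ (g : ℤ) ∣ (m : ℤ) - m' := Int.natCast_dvd.symm

lemma dd_ne {m m' : ℕ} (h : m ≠ m') : dd m m' ≠ 0 := by
  unfold dd; omega

lemma two_forms (m m' w w' X y : ℕ) (hw : 0 < w) (hw' : 0 < w') (hm : m ≠ m') (hy : 1 ≤ y)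
    (Z : Finset (ℕ × ℕ)) (hZ : ∀ z ∈ Z, z.1.Prime ∧ z.2.Prime ∧ y * y < z.1 ∧ y * y < z.2 ∧
      z.1 ≤ X ∧ m + z.1 * w = m' + z.2 * w') :
    (Z.card : ℝ) ≤ if Nat.gcd w w' ∣ dd m m' then
      4 * wt (2 * w * w' * dd m m') ^ 2 * ((X : ℝ) * Nat.gcd w w' / w' + 1) / Real.log (y + 1) ^ 2
        + 2 * ((y * y : ℕ) : ℝ) ^ 4 else 0 := by
  classical
  set N := 2 * w * w' * dd m m' with hN
  have hN0 : N ≠ 0 := by have := dd_ne hm; positivity
  have hwt := one_le_wt N hN0
  have hl := log_pos' y hy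
  rcases Z.eq_empty_or_nonempty with rfl | hne
  · simp only [card_empty, Nat.cast_zero]; split_ifs <;> positivity
  obtain ⟨z0, hz0, hmin⟩ := exists_min_image Z Prod.fst hne
  set g := Nat.gcd w w' with hg
  have hg0 : 0 < g := Nat.gcd_pos_of_pos_left _ hw
  obtain ⟨A', hA'⟩ : g ∣ w := Nat.gcd_dvd_left _ _
  obtain ⟨A, hA⟩ : g ∣ w' := Nat.gcd_dvd_right _ _
  have hA0 : 0 < A := Nat.pos_of_mul_pos_left (hA ▸ hw')
  have hA0' : 0 < A' := Nat.pos_of_mul_pos_left (hA' ▸ hw)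
  have hco : Nat.Coprime A' A := by
    have := Nat.coprime_div_gcd_div_gcd hg0
    rwa [← hg, show w / g = A' by rw [hA', Nat.mul_div_cancel_left _ hg0],
      show w' / g = A by rw [hA, Nat.mul_div_cancel_left _ hg0]] at this
  have e0 : (m : ℤ) + z0.1 * (g * A') = m' + z0.2 * (g * A) := by
    have := (hZ z0 hz0).2.2.2.2.2
    rw [hA', hA] at this
    exact_mod_cast this
  rw [if_pos (dvd_dd.2 ⟨z0.2 * A - z0.1 * A', by linear_combination e0⟩)]
  have hrep : ∀ z ∈ Z, z.1 = z0.1 + A * ((z.1 - z0.1) / A) ∧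
      z.2 = z0.2 + A' * ((z.1 - z0.1) / A) := by
    intro z hz
    have h1 := hmin z hz
    have e1 : (m : ℤ) + z.1 * (g * A') = m' + z.2 * (g * A) := by
      have := (hZ z hz).2.2.2.2.2
      rw [hA', hA] at this
      exact_mod_cast this
    have e2 : ((z.1 : ℤ) - z0.1) * A' = (z.2 - z0.2) * A := by
      have hg' : (g : ℤ) ≠ 0 := by exact_mod_cast hg0.ne'
      apply mul_left_cancel₀ hg'
      linear_combination e1 - e0
    have h2 : A ∣ z.1 - z0.1 := by
      apply hco.symm.dvd_of_dvd_mul_right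
      rw [← Int.natCast_dvd_natCast]
      push_cast [h1]
      exact ⟨z.2 - z0.2, by linear_combination e2⟩
    obtain ⟨t, ht⟩ := h2
    rw [ht, Nat.mul_div_cancel_left _ hA0]
    refine ⟨by omega, ?_⟩
    have ht' : (z.1 : ℤ) - z0.1 = A * t := by
      have : ((z.1 - z0.1 : ℕ) : ℤ) = A * t := by exact_mod_cast ht
      rwa [Nat.cast_sub h1] at this
    have hA'' : (A : ℤ) ≠ 0 := by exact_mod_cast hA0.ne'
    have : (z.2 : ℤ) = z0.2 + A' * t := by
      apply mul_left_cancel₀ hA''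
      rw [ht'] at e2
      linear_combination -e2
    exact_mod_cast this
  have hcard : (Z.image (fun z => (z.1 - z0.1) / A)).card = Z.card := by
    apply card_image_of_injOn
    intro z hz z' hz' h
    simp only at h
    exact Prod.ext (by rw [(hrep z hz).1, (hrep z' hz').1, h])
      (by rw [(hrep z hz).2, (hrep z' hz').2, h])
  have hrho : ∀ p ∈ (Icc 1 (y * y)).filter (fun p => p.Prime ∧ ¬ p ∣ N),
      rho (fun p s => p ∣ z0.1 + A * s ∨ p ∣ z0.2 + A' * s) p = 2 ∧ 2 < p := by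
    intro p hp
    obtain ⟨hp1, hp2⟩ := (mem_filter.1 hp).2
    have h1 : ¬ p ∣ A := fun h => hp2 (by
      rw [hN, hA]; exact ((h.mul_left _).mul_left _).mul_right _)
    have h2 : ¬ p ∣ A' := fun h => hp2 (by
      rw [hN, hA']; exact (((h.mul_left _).mul_left _).mul_right _).mul_right _)
    have h3 : ¬ p ∣ dd m m' := fun h => hp2 (h.mul_left _)
    have h4 : p ≠ 2 := by
      rintro rfl
      exact hp2 (((dvd_mul_right 2 w).mul_right _).mul_right _)
    refine ⟨?_, lt_of_le_of_ne hp1.two_le h4.symm⟩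
    obtain ⟨s, hs⟩ := lin_sol p A z0.1 hp1 h1
    obtain ⟨s', hs'⟩ := lin_sol p A' z0.2 hp1 h2
    unfold rho
    rw [filter_or, hs, hs', ← insert_eq, card_pair]
    rintro rfl
    have h5 := (mem_filter.1 (hs ▸ mem_singleton_self s)).2
    have h6 := (mem_filter.1 (hs' ▸ mem_singleton_self s)).2
    apply h3
    rw [dvd_dd]
    obtain ⟨a, ha⟩ := h5
    obtain ⟨b, hb⟩ := h6
    have ha' : (z0.1 : ℤ) + A * s = p * a := by exact_mod_cast ha
    have hb' : (z0.2 : ℤ) + A' * s = p * b := by exact_mod_cast hb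
    exact ⟨g * (b * A - a * A'), by linear_combination e0 + g * A * hb' - g * A' * ha'⟩
  have h := selberg' (fun p s => p ∣ z0.1 + A * s ∨ p ∣ z0.2 + A' * s)
    ((Icc 1 (y * y)).filter (fun p => p.Prime ∧ ¬ p ∣ N))
    (fun p hp => (mem_filter.mp hp).2.1)
    (fun p _ s => by
      rw [mul_add, ← add_assoc, mul_add, ← add_assoc,
        ← Nat.dvd_add_iff_left (dvd_mul_left p A), ← Nat.dvd_add_iff_left (dvd_mul_left p A')])
    (fun p => if p ∣ 1 then 1 else 2) (fun _ => by split_ifs <;> norm_num)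
    (fun p hp => by rw [(hrho p hp).1]; split_ifs <;> norm_num)
    (fun p hp => by rw [(hrho p hp).1]; norm_num)
    (fun p hp => by rw [(hrho p hp).1]; exact (hrho p hp).2)
    (y * y) (Nat.mul_pos hy hy) _ (T_ok N (y * y) (y * y) le_rfl) _ (by positivity)
    (L_two N y hN0) 0 (X / A + 1) (Z.image (fun z => (z.1 - z0.1) / A)) ?_ ?_
  · rw [hcard] at h
    refine h.trans (add_le_add_left ?_ _)
    have h1 : ((X / A + 1 : ℕ) : ℝ) ≤ (X : ℝ) * g / w' + 1 := by
      have hg' : (0 : ℝ) < g := by exact_mod_cast hg0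
      have hA'' : (0 : ℝ) < A := by exact_mod_cast hA0
      have : (X : ℝ) * g / w' = X / A := by rw [hA]; push_cast; field_simp
      rw [this]
      push_cast; linarith [@Nat.cast_div_le ℝ _ _ _ X A]
    rw [div_div_eq_mul_div, mul_comm]
    gcongr
  · intro s hs
    obtain ⟨z, hz, rfl⟩ := mem_image.1 hs
    have h1 := (hZ z hz).2.2.2.2.1
    have h3 : (z.1 - z0.1) / A ≤ X / A := Nat.div_le_div_right (by omega)
    exact mem_Ico.2 ⟨Nat.zero_le _, by rw [zero_add]; exact Nat.lt_succ_of_le h3⟩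
  · intro s hs p hp hps
    obtain ⟨z, hz, rfl⟩ := mem_image.1 hs
    rw [← (hrep z hz).1, ← (hrep z hz).2] at hps
    obtain ⟨h3, h4⟩ := mem_filter.mp hp
    have h5 := (mem_Icc.mp h3).2
    obtain ⟨h6, h7, h8, h9, -⟩ := hZ z hz
    rcases hps with hps | hps
    · have := (Nat.prime_dvd_prime_iff_eq h4.1 h6).mp hps
      omega
    · have := (Nat.prime_dvd_prime_iff_eq h4.1 h7).mp hps
      omega

end Pool.Agent.H49.WV
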