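import Pool.Agent.H49.WV4

set_option autoImplicit false

namespace Pool.Agent.H49.WV

open Finset Pool.Agent.H61.Sieve Pool.Agent.H54.PrimeSieve

noncomputable def Ps (m m' : ℕ) : ℝ :=
  if Nat.gcd (W m) (W m') ∣ dd m m' then
    Nat.gcd (W m) (W m') * wt (2 * W m * W m' * dd m m') ^ 2 else 0

def De (k k' : ℕ) : ℤ := (k' : ℤ) ^ 2 * W k - (k : ℤ) ^ 2 * W k'

noncomputable def lamS (k k' : ℕ) : ℝ :=
  rs ((De k k').natAbs.primeFactors.filter (fun r => ¬ r ∣ k * k'))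

lemma De_ne {k k' : ℕ} (hk : k ≠ 0) (hk' : k' ≠ 0) (h : k ≠ k') : De k k' ≠ 0 := by
  intro h0
  have h1 : k' ^ 2 * W k = k ^ 2 * W k' := by
    have : (k' : ℤ) ^ 2 * W k = (k : ℤ) ^ 2 * W k' := sub_eq_zero.1 h0
    exact_mod_cast this
  have h2 : k ^ 2 ∣ k' ^ 2 :=
    ((W_coprime k hk).symm.pow_left 2).dvd_of_dvd_mul_right (h1 ▸ dvd_mul_right _ _)
  have h3 : k' ^ 2 ∣ k ^ 2 :=
    ((W_coprime k' hk').symm.pow_left 2).dvd_of_dvd_mul_right (h1 ▸ dvd_mul_right _ _)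
  exact h (Nat.pow_left_injective (by norm_num : 2 ≠ 0) (Nat.dvd_antisymm h2 h3))

lemma De_le {k k' K : ℕ} (hk : k ≤ 2 ^ (6 * K)) (hk' : k' ≤ 2 ^ (6 * K)) :
    (De k k').natAbs ≤ 2 ^ (24 * K) := by
  have e : 2 ^ (24 * K) = (2 ^ (6 * K)) ^ 2 * (2 ^ (6 * K) * 2 ^ (6 * K)) := by
    rw [← pow_mul, ← pow_add, ← pow_add]; congr 1; omega
  have h1 : k' ^ 2 * W k ≤ 2 ^ (24 * K) := by
    rw [e]; exact Nat.mul_le_mul (Nat.pow_le_pow_left hk' 2) ((W_le k).trans (Nat.mul_le_mul hk hk))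
  have h2 : k ^ 2 * W k' ≤ 2 ^ (24 * K) := by
    rw [e]
    exact Nat.mul_le_mul (Nat.pow_le_pow_left hk 2) ((W_le k').trans (Nat.mul_le_mul hk' hk'))
  have h3 : De k k' = ((k' ^ 2 * W k : ℕ) : ℤ) - ((k ^ 2 * W k' : ℕ) : ℤ) := by
    unfold De; push_cast; ring
  rw [h3]
  omega

lemma lam_le_mov (d J : ℕ) (hd : d ≠ 0) (hJ : J ≠ 0) (α β γ : ℤ) (q : ℕ)
    (h : ∀ r : ℕ, r.Prime → (r : ℤ) ∣ α ∧ (r : ℤ) ∣ β ∧ (r : ℤ) ∣ γ → r ∣ J) :
    lam (α * q ^ 2 + β * q + γ).natAbs ≤ lam d + lam J + mov d α β γ q := by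
  classical
  unfold lam mov
  refine le_trans (rs_mono ?_) ((rs_union _ _).trans (add_le_add_left (rs_union _ _) _))
  intro r hr
  have hp := Nat.prime_of_mem_primeFactors hr
  simp only [mem_union, mem_filter]
  by_cases h1 : r ∣ d
  · exact Or.inl (Or.inl (Nat.mem_primeFactors.2 ⟨hp, h1, hd⟩))
  by_cases h2 : (r : ℤ) ∣ α ∧ (r : ℤ) ∣ β ∧ (r : ℤ) ∣ γ
  · exact Or.inl (Or.inr (Nat.mem_primeFactors.2 ⟨hp, h r hp h2, hJ⟩))
  · exact Or.inr ⟨hr, h1, h2⟩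

lemma big_q {K k q : ℕ} (hk : k ≤ 2 ^ (6 * K)) (hq : q ∈ PR (25 * K)) :
    q.Prime ∧ k < q ∧ q ≤ 2 ^ (100 * K) := by
  obtain ⟨h1, h2, h3⟩ := mem_PR.1 hq
  have e1 : 4 ^ (25 * K) = 2 ^ (50 * K) := by
    rw [show 4 = 2 ^ 2 by norm_num, ← pow_mul]; congr 1; omega
  have e2 : 16 ^ (25 * K) = 2 ^ (100 * K) := by
    rw [show 16 = 2 ^ 4 by norm_num, ← pow_mul]; congr 1; omega
  have h4 : 2 ^ (6 * K) ≤ 2 ^ (50 * K) := Nat.pow_le_pow_right (by norm_num) (by omega)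
  exact ⟨h1, by omega, by omega⟩

lemma W_kq {K k q : ℕ} (hk0 : k ≠ 0) (hk : k ≤ 2 ^ (6 * K)) (hq : q ∈ PR (25 * K)) :
    W (k * q) = k + q * W k :=
  W_mul k q hk0 (big_q hk hq).1 fun h =>
    absurd (Nat.le_of_dvd (Nat.pos_of_ne_zero hk0) h) (not_le.2 (big_q hk hq).2.1)

lemma kq_le {K k q : ℕ} (hk : k ≤ 2 ^ (6 * K)) (hq : q ∈ PR (25 * K)) :
    k * q ≤ 2 ^ (106 * K) := by
  rw [show 106 * K = 6 * K + 100 * K by omega, pow_add]
  exact Nat.mul_le_mul hk (big_q hk hq).2.2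

lemma Wkq_le {K k q : ℕ} (hk : k ≤ 2 ^ (6 * K)) (hq : q ∈ PR (25 * K)) :
    W (k * q) ≤ 2 ^ (212 * K) := by
  rw [show 212 * K = 106 * K + 106 * K by omega, pow_add]
  exact (W_le _).trans (Nat.mul_le_mul (kq_le hk hq) (kq_le hk hq))

lemma kq_ne {K k k' q q' : ℕ} (hk0 : k ≠ 0) (hk : k ≤ 2 ^ (6 * K)) (hk' : k' ≤ 2 ^ (6 * K))
    (hq : q ∈ PR (25 * K)) (hq' : q' ∈ PR (25 * K)) (h : k * q = k' * q') : k = k' ∧ q = q' := by
  have h1 := big_q hk hq'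
  have h2 := big_q hk hq
  have h3 : q' ∣ k * q := h ▸ dvd_mul_left _ _
  rcases (h1.1.dvd_mul).1 h3 with h4 | h4
  · exact absurd (Nat.le_of_dvd (Nat.pos_of_ne_zero hk0) h4) (not_le.2 h1.2.1)
  · have h5 := (Nat.prime_dvd_prime_iff_eq h1.1 h2.1).1 h4
    subst h5
    exact ⟨Nat.eq_of_mul_eq_mul_right h1.1.pos h, rfl⟩

/-- the primes `q` with `d ∣ W (k q)` -/
def SD (K k d : ℕ) : Finset ℕ := (PR (25 * K)).filter (fun q => d ∣ W (k * q))

lemma SD_cong {K k d : ℕ} (hk0 : k ≠ 0) (hk : k ≤ 2 ^ (6 * K)) :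
    ∀ q ∈ SD K k d, ∀ q' ∈ SD K k d, q ≡ q' [MOD d] := by
  intro q hq q' hq'
  obtain ⟨h1, h2⟩ := mem_filter.1 hq
  obtain ⟨h3, h4⟩ := mem_filter.1 hq'
  rw [W_kq hk0 hk h1] at h2
  rw [W_kq hk0 hk h3] at h4
  have h5 : Nat.Coprime d (W k) := Nat.coprime_of_dvd fun r hr h6 h7 =>
    W_cop k r hk0 hr ((Nat.dvd_add_left (h7.mul_left q)).1 (h6.trans h2)) h7
  have h6 : k + q * W k ≡ k + q' * W k [MOD d] :=
    ((Nat.modEq_zero_iff_dvd).2 h2).trans ((Nat.modEq_zero_iff_dvd).2 h4).symm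
  exact Nat.ModEq.cancel_right_of_coprime h5 (Nat.ModEq.add_left_cancel' k h6)

lemma d_ok {K d : ℕ} (h : d ≤ 2 ^ (24 * K)) : d * 2 ^ K ≤ 2 ^ (25 * K) := by
  rw [show 25 * K = 24 * K + K by omega, pow_add]
  exact Nat.mul_le_mul_right _ h

lemma T1 {K k d : ℕ} (hK : 1 ≤ K) (hk0 : k ≠ 0) (hk : k ≤ 2 ^ (6 * K)) (hd0 : 0 < d)
    (hd : d ≤ 2 ^ (24 * K)) :
    ∑ q ∈ SD K k d, (1 : ℝ) / q ≤ 300 * Real.exp (2 * lam d) / d := by
  refine (BT (25 * K) (by omega) _ (filter_subset _ _) d hd0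
    (hd.trans (Nat.pow_le_pow_right (by norm_num) (by omega))) (SD_cong hk0 hk)).trans ?_
  gcongr
  exact wt_le d

lemma T23 {K k d J : ℕ} (hK : 1 ≤ K) (hk0 : k ≠ 0) (hk : k ≤ 2 ^ (6 * K)) (hd0 : 0 < d)
    (hd : d ≤ 2 ^ (24 * K)) (hJ : J ≠ 0) (β γ : ℤ) (F : ℕ → ℕ)
    (hF : ∀ q ∈ PR (25 * K), F q = ((0 : ℤ) * q ^ 2 + β * q + γ).natAbs ∧ F q ≠ 0 ∧
      F q ≤ 2 ^ (250 * K))
    (h : ∀ r : ℕ, r.Prime → (r : ℤ) ∣ β → (r : ℤ) ∣ γ → r ∣ J) :
    ∑ q ∈ SD K k d, (1 : ℝ) / q * Real.exp (12 * lam (F q)) ≤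
      CG 12 * Real.exp (12 * lam J) * Real.exp (14 * lam d) / d := by
  have h1 := G 12 (by norm_num) K (25 * K) hK (by omega) (SD K k d) (filter_subset _ _) d hd0
    (d_ok hd) (SD_cong hk0 hk) 0 β γ (fun q hq => by
      obtain ⟨h2, h3, h4⟩ := hF q (mem_filter.1 hq).1
      rw [h2] at h3 h4
      exact ⟨Int.natAbs_ne_zero.1 h3, h4⟩)
  have h2 : ∀ q ∈ SD K k d, (1 : ℝ) / q * Real.exp (12 * lam (F q)) ≤
      ((1 : ℝ) / q * Real.exp (12 * mov d 0 β γ q)) * Real.exp (12 * (lam d + lam J)) := by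
    intro q hq
    rw [mul_assoc, ← Real.exp_add, (hF q (mem_filter.1 hq).1).1]
    have := lam_le_mov d J hd0.ne' hJ 0 β γ q fun r hr h3 => h r hr h3.2.1 h3.2.2
    exact mul_le_mul_of_nonneg_left (Real.exp_le_exp.2 (by linarith)) (by positivity)
  refine (sum_le_sum h2).trans ?_
  rw [← sum_mul]
  refine (mul_le_mul_of_nonneg_right h1 (Real.exp_pos _).le).trans (le_of_eq ?_)
  rw [show 14 * lam d = 2 * lam d + 12 * lam d by ring, mul_add, Real.exp_add, Real.exp_add]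
  ring

lemma T2 {K k d : ℕ} (hK : 1 ≤ K) (hk0 : k ≠ 0) (hk : k ≤ 2 ^ (6 * K)) (hd0 : 0 < d)
    (hd : d ≤ 2 ^ (24 * K)) :
    ∑ q ∈ SD K k d, (1 : ℝ) / q * Real.exp (12 * lam (W (k * q))) ≤
      CG 12 * Real.exp (14 * lam d) / d := by
  have := T23 hK hk0 hk hd0 hd one_ne_zero (W k) k (fun q => W (k * q)) (fun q hq => ?_)
    (fun r hr h1 h2 => ?_)
  · simpa [lam, rs] using this
  · refine ⟨?_, ?_, (Wkq_le hk hq).trans (Nat.pow_le_pow_right (by norm_num) (by omega))⟩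
    · rw [W_kq hk0 hk hq]
      have : (0 : ℤ) * q ^ 2 + (W k : ℤ) * q + k = ((k + q * W k : ℕ) : ℤ) := by push_cast; ring
      rw [this, Int.natAbs_natCast]
    · rw [W_kq hk0 hk hq]; omega
  · exact absurd (Int.natCast_dvd_natCast.1 h1) (W_cop k r hk0 hr (Int.natCast_dvd_natCast.1 h2))

lemma dd_le {m m' B : ℕ} (h : m ≤ B) (h' : m' ≤ B) : dd m m' ≤ B := by
  unfold dd; omega

lemma T3 {K k k' q d : ℕ} (hK : 1 ≤ K) (hk0 : k ≠ 0) (hk : k ≤ 2 ^ (6 * K)) (hk0' : k' ≠ 0)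
    (hk' : k' ≤ 2 ^ (6 * K)) (hne : k ≠ k') (hq : q ∈ PR (25 * K)) (hd0 : 0 < d)
    (hd : d ≤ 2 ^ (24 * K)) :
    ∑ q' ∈ SD K k' d, (1 : ℝ) / q' * Real.exp (12 * lam (dd (k * q) (k' * q'))) ≤
      CG 12 * Real.exp (12 * lam k') * Real.exp (14 * lam d) / d := by
  refine T23 hK hk0' hk' hd0 hd hk0' (-(k' : ℤ)) (k * q) (fun q' => dd (k * q) (k' * q'))
    (fun q' hq' => ⟨?_, dd_ne fun h => hne (kq_ne hk0 hk hk' hq hq' h).1, ?_⟩) fun r _ h1 _ => ?_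
  · unfold dd; congr 1; push_cast; ring
  · exact (dd_le (kq_le hk hq) (kq_le hk' hq')).trans
      (Nat.pow_le_pow_right (by norm_num) (by omega))
  · exact Int.natCast_dvd_natCast.1 ((dvd_neg).1 h1)

lemma exp3 (a b c : ℝ) : Real.exp (4 * (a + b + c)) ≤
    Real.exp (12 * a) + Real.exp (12 * b) + Real.exp (12 * c) := by
  have h1 := Real.exp_pos (12 * a)
  have h2 := Real.exp_pos (12 * b)
  have h3 := Real.exp_pos (12 * c)
  by_cases ha : 4 * (a + b + c) ≤ 12 * a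
  · linarith [Real.exp_le_exp.2 ha]
  by_cases hb : 4 * (a + b + c) ≤ 12 * b
  · linarith [Real.exp_le_exp.2 hb]
  · linarith [Real.exp_le_exp.2 (show 4 * (a + b + c) ≤ 12 * c by linarith)]

lemma wt_sq_le (a b c : ℕ) : wt (2 * a * b * c) ^ 2 ≤ Real.exp 4 *
    (Real.exp (12 * lam a) + Real.exp (12 * lam b) + Real.exp (12 * lam c)) := by
  have h0 : 0 ≤ wt (2 * a * b * c) := sum_nonneg fun _ _ => by positivity
  refine (pow_le_pow_left₀ h0 (wt_le _) 2).trans (le_trans ?_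
    (mul_le_mul_of_nonneg_left (exp3 _ _ _) (Real.exp_pos _).le))
  rw [← Real.exp_add, sq, ← Real.exp_add]
  refine Real.exp_le_exp.2 ?_
  linarith [lam_mul (2 * a * b) c, lam_mul (2 * a) b, lam_mul 2 a, lam_prime Nat.prime_two]

noncomputable def CA : ℝ := Real.exp 4 * 900 * CG 12

lemma pairA {K k k' : ℕ} (hK : 1 ≤ K) (hk0 : k ≠ 0) (hk : k ≤ 2 ^ (6 * K)) (hk0' : k' ≠ 0)
    (hk' : k' ≤ 2 ^ (6 * K)) (hne : k ≠ k') :
    ∑ q ∈ PR (25 * K), ∑ q' ∈ PR (25 * K), (1 : ℝ) / q * (1 / q') * Ps (k * q) (k' * q') ≤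
      CA * Real.exp (12 * lam k') * Real.exp (2 * Real.exp 16 * lamS k k') := by
  classical
  set Dv := (De k k').natAbs.divisors.filter (fun d => d.Coprime (k * k')) with hDv
  have hD0 : (De k k').natAbs ≠ 0 := Int.natAbs_ne_zero.2 (De_ne hk0 hk0' hne)
  set Fn : ℕ → ℕ → ℝ := fun q q' => (1 : ℝ) / q * (1 / q') *
    (Real.exp (12 * lam (W (k * q))) + Real.exp (12 * lam (W (k' * q'))) +
      Real.exp (12 * lam (dd (k * q) (k' * q')))) with hFn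
  have hFn0 : ∀ q q', 0 ≤ Fn q q' := fun q q' => by rw [hFn]; positivity
  have h1 : ∀ q ∈ PR (25 * K), ∀ q' ∈ PR (25 * K),
      (1 : ℝ) / q * (1 / q') * Ps (k * q) (k' * q') ≤ ∑ d ∈ Dv,
        if d ∣ W (k * q) then (if d ∣ W (k' * q') then Real.exp 4 * d * Fn q q' else 0) else 0 := by
    intro q hq q' hq'
    have hnn : ∀ d ∈ Dv, 0 ≤ (if d ∣ W (k * q) then
        (if d ∣ W (k' * q') then Real.exp 4 * d * Fn q q' else 0) else 0 : ℝ) := by
      intro d _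
      have := hFn0 q q'
      split_ifs <;> positivity
    unfold Ps
    split_ifs with h
    · set g := Nat.gcd (W (k * q)) (W (k' * q')) with hg
      have g1 : g ∣ W (k * q) := Nat.gcd_dvd_left _ _
      have g2 : g ∣ W (k' * q') := Nat.gcd_dvd_right _ _
      have hgD : g ∈ Dv := by
        refine mem_filter.2 ⟨Nat.mem_divisors.2 ⟨?_, hD0⟩, Nat.Coprime.mul_right ?_ ?_⟩
        · rw [← Int.natCast_dvd]
          rw [W_kq hk0 hk hq] at g1
          rw [W_kq hk0' hk' hq'] at g2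
          obtain ⟨a, ha⟩ := Int.natCast_dvd_natCast.2 g1
          obtain ⟨b, hb⟩ := Int.natCast_dvd_natCast.2 g2
          obtain ⟨c, hc⟩ := dvd_dd.1 h
          push_cast at ha hb hc
          exact ⟨W k * W k' * c - k * W k' * a + k' * W k * b, by
            unfold De; linear_combination (W k * W k') * hc - (k * W k') * ha + (k' * W k) * hb⟩
        · exact ((W_coprime _ (mul_ne_zero hk0 (big_q hk hq).1.ne_zero)).coprime_dvd_left
            g1).coprime_mul_right_right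
        · exact ((W_coprime _ (mul_ne_zero hk0' (big_q hk' hq').1.ne_zero)).coprime_dvd_left
            g2).coprime_mul_right_right
      refine le_trans ?_ (single_le_sum hnn hgD)
      rw [if_pos g1, if_pos g2, hFn]
      have := wt_sq_le (W (k * q)) (W (k' * q')) (dd (k * q) (k' * q'))
      calc _ ≤ (1 : ℝ) / q * (1 / q') * (g * (Real.exp 4 * (Real.exp (12 * lam (W (k * q))) +
          Real.exp (12 * lam (W (k' * q'))) + Real.exp (12 * lam (dd (k * q) (k' * q')))))) := by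
            gcongr
        _ = _ := by ring
    · rw [mul_zero]; exact sum_nonneg hnn
  refine (sum_le_sum fun q hq => sum_le_sum fun q' hq' => h1 q hq q' hq').trans ?_
  simp_rw [sum_comm (t := Dv)]
  have h2 : ∀ d ∈ Dv, (∑ q ∈ PR (25 * K), ∑ q' ∈ PR (25 * K), if d ∣ W (k * q) then
      (if d ∣ W (k' * q') then Real.exp 4 * d * Fn q q' else 0) else 0 : ℝ) ≤
      CA * Real.exp (12 * lam k') * (Real.exp (16 * lam d) / d) := by
    intro d hd
    have hdv := (mem_filter.1 hd).1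
    have hd0 := Nat.pos_of_mem_divisors hdv
    have hd1 : d ≤ 2 ^ (24 * K) := (Nat.divisor_le hdv).trans (De_le hk hk')
    have e1 : (∑ q ∈ PR (25 * K), ∑ q' ∈ PR (25 * K), if d ∣ W (k * q) then
        (if d ∣ W (k' * q') then Real.exp 4 * d * Fn q q' else 0) else 0 : ℝ) =
        Real.exp 4 * d * ∑ q ∈ SD K k d, ∑ q' ∈ SD K k' d, Fn q q' := by
      unfold SD
      rw [mul_sum, sum_filter]
      refine sum_congr rfl fun q _ => ?_
      split_ifs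
      · rw [mul_sum, sum_filter]
      · simp
    have a1 := T1 hK hk0 hk hd0 hd1
    have a2 := T1 hK hk0' hk' hd0 hd1
    have b1 := T2 hK hk0 hk hd0 hd1
    have b2 := T2 hK hk0' hk' hd0 hd1
    have hC := CG_pos 12
    have hE : 1 ≤ Real.exp (12 * lam k') := Real.one_le_exp (by linarith [lam_nonneg k'])
    have e2 : ∑ q ∈ SD K k d, ∑ q' ∈ SD K k' d, Fn q q' =
        (∑ q ∈ SD K k d, (1 : ℝ) / q * Real.exp (12 * lam (W (k * q)))) *
          (∑ q' ∈ SD K k' d, (1 : ℝ) / q') +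
        (∑ q ∈ SD K k d, (1 : ℝ) / q) *
          (∑ q' ∈ SD K k' d, (1 : ℝ) / q' * Real.exp (12 * lam (W (k' * q')))) +
        ∑ q ∈ SD K k d, (1 : ℝ) / q *
          ∑ q' ∈ SD K k' d, (1 : ℝ) / q' * Real.exp (12 * lam (dd (k * q) (k' * q'))) := by
      rw [sum_mul_sum, sum_mul_sum, ← sum_add_distrib, ← sum_add_distrib]
      refine sum_congr rfl fun q _ => ?_
      rw [mul_sum, ← sum_add_distrib, ← sum_add_distrib]
      exact sum_congr rfl fun q' _ => by rw [hFn]; ring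
    have c1 : ∑ q ∈ SD K k d, (1 : ℝ) / q *
          ∑ q' ∈ SD K k' d, (1 : ℝ) / q' * Real.exp (12 * lam (dd (k * q) (k' * q'))) ≤
        (300 * Real.exp (2 * lam d) / d) *
          (CG 12 * Real.exp (12 * lam k') * Real.exp (14 * lam d) / d) := by
      refine (sum_le_sum fun q hq => mul_le_mul_of_nonneg_left
        (T3 hK hk0 hk hk0' hk' hne (mem_filter.1 hq).1 hd0 hd1) (by positivity)).trans ?_
      rw [← sum_mul]
      exact mul_le_mul_of_nonneg_right a1 (by positivity)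
    have b0 : CG 12 * Real.exp (14 * lam d) / d ≤
        CG 12 * Real.exp (12 * lam k') * Real.exp (14 * lam d) / d := by
      gcongr
      exact le_mul_of_one_le_right hC.le hE
    have c2 := mul_le_mul (b1.trans b0) a2 (sum_nonneg fun _ _ => by positivity) (by positivity)
    have c3 := mul_le_mul a1 (b2.trans b0) (sum_nonneg fun _ _ => by positivity) (by positivity)
    rw [e1, e2]
    refine (mul_le_mul_of_nonneg_left (add_le_add (add_le_add c2 c3) c1)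
      (by positivity)).trans (le_of_eq ?_)
    have hd' : (0 : ℝ) < d := by exact_mod_cast hd0
    rw [show 16 * lam d = 2 * lam d + 14 * lam d by ring, Real.exp_add]
    unfold CA
    field_simp
    ring
  refine (sum_le_sum h2).trans ?_
  rw [← mul_sum]
  refine mul_le_mul_of_nonneg_left (smooth_sum 16 (by norm_num) _
    (fun r hr => Nat.prime_of_mem_primeFactors (mem_filter.1 hr).1) Dv fun d hd => ?_)
    (by unfold CA; have := CG_pos 12; positivity)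
  obtain ⟨h3, h4⟩ := mem_filter.1 hd
  refine ⟨Nat.pos_of_mem_divisors h3, fun r hr => mem_filter.2
    ⟨Nat.primeFactors_mono (Nat.dvd_of_mem_divisors h3) hD0 hr, fun h5 => ?_⟩⟩
  have := Nat.dvd_gcd (Nat.dvd_of_mem_primeFactors hr) h5
  rw [h4] at this
  exact (Nat.prime_of_mem_primeFactors hr).one_lt.ne' (Nat.dvd_one.1 this)

end Pool.Agent.H49.WV
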