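import Pool.Agent.H49.WV5
import Pool.Agent.H53.DivBound

set_option autoImplicit false

namespace Pool.Agent.H49.WV

open Finset Pool.Agent.H61.Sieve Pool.Agent.H54.PrimeSieve

def LL (K : ℕ) : Finset ℕ := (Icc 1 (4 ^ K)).filter (fun l => l % 4 = 2)

def KK (K : ℕ) : Finset ℕ := (LL K ×ˢ PR K).image (fun x => x.1 * x.2)

lemma mem_LL {K l : ℕ} : l ∈ LL K ↔ l ≤ 4 ^ K ∧ l % 4 = 2 := by
  simp only [LL, mem_filter, mem_Icc]; omega

lemma mod_mul_prime {a p : ℕ} (ha : a % 4 = 2) (hp : p.Prime) (h : a < p) : (a * p) % 4 = 2 := by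
  have h1 : p % 2 = 1 := hp.eq_two_or_odd.resolve_left (by omega)
  have h2 : p % 4 = 1 ∨ p % 4 = 3 := by omega
  rw [Nat.mul_mod, ha]
  rcases h2 with h2 | h2 <;> rw [h2]

lemma mem_KK {K k : ℕ} (h : k ∈ KK K) : k % 4 = 2 ∧ 4 ^ K < k ∧ k ≤ 2 ^ (6 * K) := by
  obtain ⟨⟨l, s⟩, hx, rfl⟩ := mem_image.1 h
  obtain ⟨h1, h2⟩ := mem_product.1 hx
  obtain ⟨h3, h4⟩ := mem_LL.1 h1
  obtain ⟨h5, h6, h7⟩ := mem_PR.1 h2
  simp only at *
  refine ⟨mod_mul_prime h4 h5 (by omega), h6.trans_le (Nat.le_mul_of_pos_left _ (by omega)), ?_⟩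
  rw [pow_mul, show 2 ^ 6 = 4 * 16 by norm_num, mul_pow]
  exact Nat.mul_le_mul h3 h7

lemma sum_KK (K : ℕ) (f : ℕ → ℝ) : ∑ k ∈ KK K, f k = ∑ l ∈ LL K, ∑ s ∈ PR K, f (l * s) := by
  unfold KK
  rw [sum_image, sum_product]
  rintro ⟨l, s⟩ hx ⟨l', s'⟩ hx' h
  obtain ⟨h1, h2⟩ := mem_product.1 hx
  obtain ⟨h1', h2'⟩ := mem_product.1 hx'
  obtain ⟨h3, h4⟩ := mem_LL.1 h1
  obtain ⟨h5, h6, h7⟩ := mem_PR.1 h2
  obtain ⟨h5', h6', h7'⟩ := mem_PR.1 h2'
  simp only at *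
  have h8 : s' ∣ l * s := h ▸ dvd_mul_left _ _
  rcases (h5'.dvd_mul).1 h8 with h9 | h9
  · have := Nat.le_of_dvd (by omega) h9
    omega
  · have h10 := (Nat.prime_dvd_prime_iff_eq h5' h5).1 h9
    subst h10
    rw [Nat.eq_of_mul_eq_mul_right h5.pos h]

lemma mult_sum (e N : ℕ) (he : 0 < e) (T : Finset ℕ) (hT : ∀ j ∈ T, 1 ≤ j ∧ j ≤ N ∧ e ∣ j) :
    ∑ j ∈ T, (1 : ℝ) / j ≤ (1 + Real.log N) * (1 / e) := by
  refine (sum_le_of_cover (Icc 1 N) (fun i => e * i) T (fun n => (1 : ℝ) / n)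
    (fun n => by positivity) fun j hj => ?_).trans ?_
  · obtain ⟨h1, h2, i, rfl⟩ := hT j hj
    refine ⟨i, mem_Icc.2 ⟨Nat.pos_of_mul_pos_left h1, ?_⟩, rfl⟩
    exact (Nat.le_mul_of_pos_left _ he).trans h2
  · refine le_trans (le_of_eq ?_) (mul_le_mul_of_nonneg_right (harm_hi N) (by positivity))
    rw [sum_mul]
    refine sum_congr rfl fun i _ => ?_
    push_cast
    rw [one_div_mul_one_div, mul_comm]

lemma sum_lam (c : ℝ) (hc : 0 ≤ c) (N : ℕ) (T : Finset ℕ) (hT : T ⊆ Icc 1 N) :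
    ∑ l ∈ T, (1 : ℝ) / l * Real.exp (c * lam l) ≤ (1 + Real.log N) * Real.exp (2 * Real.exp c) := by
  classical
  have hl : 0 ≤ Real.log N := Real.log_natCast_nonneg N
  have := moment T (fun l => (1 : ℝ) / l) (fun _ _ => by positivity) ((Icc 1 N).filter Nat.Prime)
    (fun r hr => (mem_filter.1 hr).2.pos) (fun l => l.primeFactors) (fun l hl r hr => ?_)
    (1 + Real.log N) 1 c (by linarith) zero_le_one hc (fun E hE => ?_)
  · simpa [lam] using this
  · have h1 := mem_Icc.1 (hT hl)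
    have h2 := Nat.prime_of_mem_primeFactors hr
    exact mem_filter.2 ⟨mem_Icc.2 ⟨h2.pos, (Nat.le_of_mem_primeFactors hr).trans h1.2⟩, h2⟩
  · refine (mult_sum (∏ r ∈ E, r) N (prod_pos fun r hr => (mem_filter.1 (hE hr)).2.pos) _
      fun j hj => ?_).trans (le_of_eq ?_)
    · obtain ⟨h1, h2⟩ := mem_filter.1 hj
      have h3 := mem_Icc.1 (hT h1)
      exact ⟨h3.1, h3.2, (prod_dvd_prod_of_subset _ _ _ h2).trans (Nat.prod_primeFactors_dvd j)⟩
    · simp only [one_mul]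
      rw [prod_div_distrib, prod_const_one, Nat.cast_prod]

lemma log_two_pow (a : ℕ) : Real.log ((2 ^ a : ℕ) : ℝ) ≤ a := by
  rw [Nat.cast_pow, Real.log_pow]
  have : Real.log ((2 : ℕ) : ℝ) ≤ 1 := by push_cast; linarith [Real.log_two_lt_d9]
  have h0 : (0 : ℝ) ≤ a := Nat.cast_nonneg a
  nlinarith

lemma log_le_of {n a : ℕ} (h : n ≤ 2 ^ a) : Real.log n ≤ a := by
  rcases Nat.eq_zero_or_pos n with rfl | h0
  · simp
  · exact (Real.log_le_log (by exact_mod_cast h0) (by exact_mod_cast h)).trans (log_two_pow a)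

lemma sum_PR (K : ℕ) (hK : 1 ≤ K) : ∑ s ∈ PR K, (1 : ℝ) / s ≤ 300 := by
  have := BT K hK (PR K) subset_rfl 1 one_pos Nat.one_le_two_pow fun _ _ _ _ => Nat.modEq_one
  simpa [wt] using this

lemma sum_LL (c : ℝ) (hc : 0 ≤ c) (K : ℕ) (hK : 1 ≤ K) :
    ∑ l ∈ LL K, (1 : ℝ) / l * Real.exp (c * lam l) ≤ 3 * K * Real.exp (2 * Real.exp c) := by
  refine (sum_lam c hc (4 ^ K) _ (filter_subset _ _)).trans ?_
  have h1 : Real.log ((4 ^ K : ℕ) : ℝ) ≤ ((2 * K : ℕ) : ℝ) :=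
    log_le_of (by rw [pow_mul]; norm_num)
  have h2 : (1 : ℝ) ≤ K := by exact_mod_cast hK
  push_cast at h1 ⊢
  gcongr
  linarith

noncomputable def CK (c : ℝ) : ℝ := 900 * Real.exp c * Real.exp (2 * Real.exp c)

lemma CK_pos (c : ℝ) : 0 < CK c := by unfold CK; positivity

lemma sumK (c : ℝ) (hc : 0 ≤ c) (K : ℕ) (hK : 1 ≤ K) :
    ∑ k ∈ KK K, (1 : ℝ) / k * Real.exp (c * lam k) ≤ CK c * K := by
  rw [sum_KK]
  have h1 : ∀ l ∈ LL K, ∑ s ∈ PR K, (1 : ℝ) / ((l * s : ℕ) : ℝ) * Real.exp (c * lam (l * s)) ≤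
      (1 : ℝ) / l * Real.exp (c * lam l) * (Real.exp c * 300) := by
    intro l _
    have h2 : ∀ s ∈ PR K, (1 : ℝ) / ((l * s : ℕ) : ℝ) * Real.exp (c * lam (l * s)) ≤
        (1 : ℝ) / l * Real.exp (c * lam l) * (Real.exp c * (1 / s)) := by
      intro s hs
      have h3 : Real.exp (c * lam (l * s)) ≤ Real.exp (c * lam l) * Real.exp c := by
        rw [← Real.exp_add]
        have := lam_mul l s
        have := lam_prime (mem_PR.1 hs).1
        exact Real.exp_le_exp.2 (by nlinarith)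
      push_cast
      rw [← one_div_mul_one_div]
      calc _ ≤ 1 / (l : ℝ) * (1 / s) * (Real.exp (c * lam l) * Real.exp c) := by gcongr
        _ = _ := by ring
    refine (sum_le_sum h2).trans ?_
    rw [← mul_sum, ← mul_sum]
    gcongr
    exact sum_PR K hK
  refine (sum_le_sum h1).trans ?_
  rw [← sum_mul]
  refine (mul_le_mul_of_nonneg_right (sum_LL c hc K hK) (by positivity)).trans (le_of_eq ?_)
  unfold CK; ring

lemma sumK0 (K : ℕ) (hK : 1 ≤ K) : ∑ k ∈ KK K, (1 : ℝ) / k ≤ CK 0 * K := by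
  simpa using sumK 0 le_rfl K hK

lemma lemS (c : ℝ) (hc : 0 ≤ c) (K : ℕ) (hK : 1 ≤ K) (l k' : ℕ) (hl : l ∈ LL K) (hk' : k' ∈ KK K) :
    ∑ s ∈ (PR K).filter (fun s => l * s ≠ k'), (1 : ℝ) / s * Real.exp (c * lamS (l * s) k') ≤
      CG c := by
  classical
  obtain ⟨h1, h2⟩ := mem_LL.1 hl
  have hk := mem_KK hk'
  have hD : ∀ s ∈ PR K, -((l : ℤ) ^ 2 * W k') * s ^ 2 + (k' : ℤ) ^ 2 * W l * s + (k' : ℤ) ^ 2 * l
      = De (l * s) k' := by
    intro s hs
    obtain ⟨h3, h4, h5⟩ := mem_PR.1 hs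
    unfold De
    rw [W_mul l s (by omega) h3 fun h => by have := Nat.le_of_dvd (by omega) h; omega]
    push_cast; ring
  have h := G c hc K K hK hK ((PR K).filter (fun s => l * s ≠ k')) (filter_subset _ _) 1 one_pos
    (by simp) (fun _ _ _ _ => Nat.modEq_one) (-((l : ℤ) ^ 2 * W k')) ((k' : ℤ) ^ 2 * W l)
    ((k' : ℤ) ^ 2 * l) (fun s hs => ?_)
  · refine le_trans (sum_le_sum fun s hs => ?_) (h.trans (by simp [lam, rs]))
    refine mul_le_mul_of_nonneg_left (Real.exp_le_exp.2 (mul_le_mul_of_nonneg_left ?_ hc))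
      (by positivity)
    unfold lamS mov
    rw [hD s (mem_filter.1 hs).1]
    refine rs_mono fun r hr => ?_
    obtain ⟨h3, h4⟩ := mem_filter.1 hr
    have hp := Nat.prime_of_mem_primeFactors h3
    refine mem_filter.2 ⟨h3, fun h5 => hp.one_lt.ne' (Nat.dvd_one.1 h5), fun h5 => h4 ?_⟩
    have h6 : r ∣ k' ^ 2 * l := by exact_mod_cast h5.2.2
    rcases hp.dvd_mul.1 h6 with h7 | h7
    · exact (hp.dvd_of_dvd_pow h7).mul_left _
    · exact (h7.mul_right _).mul_right _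
  · obtain ⟨h3, h4⟩ := mem_filter.1 hs
    have h5 := mem_KK (K := K) (k := l * s) (mem_image.2 ⟨(l, s), mem_product.2 ⟨hl, h3⟩, rfl⟩)
    rw [hD s h3]
    exact ⟨De_ne (by omega) (by omega) h4,
      (De_le h5.2.2 hk.2.2).trans (Nat.pow_le_pow_right (by norm_num) (by omega))⟩

noncomputable def FF (k q k' q' : ℕ) : ℝ :=
  (1 : ℝ) / k * (1 / k') * ((1 : ℝ) / q * (1 / q') * Ps (k * q) (k' * q'))

lemma Ps_nonneg (m m' : ℕ) : 0 ≤ Ps m m' := by unfold Ps; split_ifs <;> positivity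

lemma FF_nonneg (k q k' q' : ℕ) : 0 ≤ FF k q k' q' := by
  have := Ps_nonneg (k * q) (k' * q')
  unfold FF; positivity

lemma partA : ∃ C : ℝ, 0 < C ∧ ∀ K : ℕ, 1 ≤ K → ∑ k' ∈ KK K, ∑ k ∈ KK K,
    (if k ≠ k' then ∑ q ∈ PR (25 * K), ∑ q' ∈ PR (25 * K), FF k q k' q' else 0) ≤ C * K ^ 2 := by
  have hA : 0 < CA := by unfold CA; have := CG_pos 12; positivity
  have hG := CG_pos (2 * Real.exp 16)
  have hC := CK_pos 12
  refine ⟨CA * CG (2 * Real.exp 16) * (3 * Real.exp (2 * Real.exp 0)) * CK 12, by positivity,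
    fun K hK => ?_⟩
  have h1 : ∀ k' ∈ KK K, ∑ k ∈ KK K,
      (if k ≠ k' then ∑ q ∈ PR (25 * K), ∑ q' ∈ PR (25 * K), FF k q k' q' else 0) ≤
      (1 : ℝ) / k' * Real.exp (12 * lam k') *
        (CA * CG (2 * Real.exp 16) * (3 * K * Real.exp (2 * Real.exp 0))) := by
    intro k' hk'
    have hk := mem_KK hk'
    have h2 : ∀ k ∈ KK K,
        (if k ≠ k' then ∑ q ∈ PR (25 * K), ∑ q' ∈ PR (25 * K), FF k q k' q' else 0) ≤
        (1 : ℝ) / k' * Real.exp (12 * lam k') * (CA * if k ≠ k' then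
          1 / k * Real.exp (2 * Real.exp 16 * lamS k k') else 0) := by
      intro k hk1
      have hk2 := mem_KK hk1
      split_ifs with h
      · unfold FF
        have := pairA hK (k := k) (k' := k') (by omega) hk2.2.2 (by omega) hk.2.2 h
        simp_rw [← mul_sum (a := (1 : ℝ) / k * (1 / k'))]
        refine (mul_le_mul_of_nonneg_left this (by positivity)).trans (le_of_eq ?_)
        ring
      · simp
    refine (sum_le_sum h2).trans ?_
    rw [← mul_sum, ← mul_sum, mul_assoc CA]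
    refine mul_le_mul_of_nonneg_left (mul_le_mul_of_nonneg_left ?_ hA.le) (by positivity)
    rw [sum_KK]
    have h3 : ∀ l ∈ LL K, (∑ s ∈ PR K, if l * s ≠ k' then
        1 / ((l * s : ℕ) : ℝ) * Real.exp (2 * Real.exp 16 * lamS (l * s) k') else 0) ≤
        CG (2 * Real.exp 16) * (1 / l * Real.exp (0 * lam l)) := by
      intro l hl
      rw [← sum_filter]
      have := lemS (2 * Real.exp 16) (by positivity) K hK l k' hl hk'
      refine le_trans (le_of_eq ?_) ((mul_le_mul_of_nonneg_right this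
        (show (0 : ℝ) ≤ 1 / l by positivity)).trans (by simp))
      rw [sum_mul]
      refine sum_congr rfl fun s _ => ?_
      push_cast
      rw [← one_div_mul_one_div]; ring
    refine (sum_le_sum h3).trans ?_
    rw [← mul_sum]
    exact mul_le_mul_of_nonneg_left (sum_LL 0 le_rfl K hK) hG.le
  refine (sum_le_sum h1).trans ?_
  rw [← sum_mul]
  refine (mul_le_mul_of_nonneg_right (sumK 12 (by norm_num) K hK) (by positivity)).trans
    (le_of_eq ?_)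
  ring

end Pool.Agent.H49.WV
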