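import Pool.Agent.H49.WV6

set_option autoImplicit false

namespace Pool.Agent.H49.WV

open Finset Pool.Agent.H61.Sieve Pool.Agent.H54.PrimeSieve

lemma gcd_sum (n B : ℕ) (hn : n ≠ 0) :
    ∑ j ∈ Icc 1 B, (Nat.gcd n j : ℝ) * (1 / j) ≤ n.divisors.card * (1 + Real.log B) := by
  have hmaps : ∀ j ∈ Icc 1 B, Nat.gcd n j ∈ n.divisors := fun j _ =>
    Nat.mem_divisors.2 ⟨Nat.gcd_dvd_left _ _, hn⟩
  rw [← sum_fiberwise_of_maps_to hmaps, ← nsmul_eq_mul]
  refine sum_le_card_nsmul _ _ _ fun d hd => ?_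
  have hd0 := Nat.pos_of_mem_divisors hd
  have h1 := mult_sum d B hd0 ((Icc 1 B).filter (fun j => Nat.gcd n j = d)) fun j hj => by
    obtain ⟨h1, h2⟩ := mem_filter.1 hj
    exact ⟨(mem_Icc.1 h1).1, (mem_Icc.1 h1).2, h2 ▸ Nat.gcd_dvd_right _ _⟩
  rw [sum_congr rfl fun j hj => by rw [(mem_filter.1 hj).2], ← mul_sum]
  have hd' : (0 : ℝ) < d := by exact_mod_cast hd0
  refine (mul_le_mul_of_nonneg_left h1 hd'.le).trans (le_of_eq ?_)
  field_simp

lemma tau_le : ∃ C : ℝ, 0 < C ∧ ∀ K n : ℕ, n ≠ 0 → n ≤ 2 ^ (212 * K) →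
    (n.divisors.card : ℝ) ≤ C * 2 ^ K := by
  obtain ⟨C, hC, h⟩ := Pool.Agent.H53.DivBound.card_divisors_le (1 / 212) (by norm_num)
  refine ⟨C, hC, fun K n hn h1 => (h n hn).trans (mul_le_mul_of_nonneg_left ?_ hC.le)⟩
  have h2 : (n : ℝ) ≤ ((2 : ℝ) ^ K) ^ (212 : ℕ) := by
    rw [← pow_mul, mul_comm]; exact_mod_cast h1
  refine (Real.rpow_le_rpow (Nat.cast_nonneg n) h2 (by norm_num)).trans (le_of_eq ?_)
  rw [one_div]
  have := Real.pow_rpow_inv_natCast (x := (2 : ℝ) ^ K) (by positivity) (n := 212) (by norm_num)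
  rwa [Nat.cast_ofNat] at this

lemma wt_crude {K m m' : ℕ} (hK : 1 ≤ K) (h : m ≤ 2 ^ (106 * K)) (h' : m' ≤ 2 ^ (106 * K)) :
    wt (2 * W m * W m' * dd m m') ^ 2 ≤ (532 * K) ^ 2 := by
  have h0 : 0 ≤ wt (2 * W m * W m' * dd m m') := sum_nonneg fun _ _ => by positivity
  refine pow_le_pow_left₀ h0 ((wt_le_log _).trans ?_) 2
  have h1 : 2 * W m * W m' * dd m m' ≤ 2 ^ (1 + 530 * K) := by
    rw [show 1 + 530 * K = 1 + (106 * K + 106 * K) + (106 * K + 106 * K) + 106 * K by omega]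
    simp only [pow_add, pow_one]
    exact Nat.mul_le_mul (Nat.mul_le_mul (Nat.mul_le_mul_left _ ((W_le m).trans
      (Nat.mul_le_mul h h))) ((W_le m').trans (Nat.mul_le_mul h' h'))) (dd_le h h')
  have h2 := log_le_of h1
  have h3 : (1 : ℝ) ≤ K := by exact_mod_cast hK
  push_cast at h2 ⊢
  linarith

lemma Ps_diag {K k a b : ℕ} (hK : 1 ≤ K) (hk0 : k ≠ 0) (hk : k ≤ 2 ^ (6 * K))
    (ha : a ∈ PR (25 * K)) (hb : b ∈ PR (25 * K)) (hab : a < b) :
    Ps (k * a) (k * b) ≤ Nat.gcd (W (k * a)) (b - a) * (532 * K) ^ 2 ∧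
    Ps (k * b) (k * a) ≤ Nat.gcd (W (k * a)) (b - a) * (532 * K) ^ 2 := by
  have key : ∀ g : ℕ, g ∣ W (k * a) → (g : ℤ) ∣ k * ((b : ℤ) - a) →
      (g : ℝ) ≤ Nat.gcd (W (k * a)) (b - a) := by
    intro g h1 h2
    have h3 : Nat.Coprime g k := ((W_coprime _ (mul_ne_zero hk0
      (big_q hk ha).1.ne_zero)).coprime_dvd_left h1).coprime_mul_right_right
    have h4 : g ∣ k * (b - a) := by
      rw [← Int.natCast_dvd_natCast]; push_cast [hab.le]; exact h2
    exact_mod_cast Nat.le_of_dvd (Nat.gcd_pos_of_pos_right _ (by omega))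
      (Nat.dvd_gcd h1 (h3.dvd_of_dvd_mul_left h4))
  constructor
  · unfold Ps
    split_ifs with h
    · refine mul_le_mul (key _ (Nat.gcd_dvd_left _ _) ?_) (wt_crude hK (kq_le hk ha) (kq_le hk hb))
        (by positivity) (by positivity)
      have := (dvd_neg).2 (dvd_dd.1 h)
      rwa [show -(((k * a : ℕ) : ℤ) - ((k * b : ℕ) : ℤ)) = k * ((b : ℤ) - a) by
        push_cast; ring] at this
    · positivity
  · unfold Ps
    split_ifs with h
    · refine mul_le_mul (key _ (Nat.gcd_dvd_right _ _) ?_) (wt_crude hK (kq_le hk hb) (kq_le hk ha))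
        (by positivity) (by positivity)
      have := dvd_dd.1 h
      convert this using 1
      push_cast; ring
    · positivity

lemma partB : ∃ C : ℝ, 0 < C ∧ ∀ K : ℕ, 1 ≤ K → ∑ k ∈ KK K, ∑ q ∈ PR (25 * K), ∑ q' ∈ PR (25 * K),
    (if q ≠ q' then FF k q k q' else 0) ≤ C * K ^ 2 := by
  obtain ⟨C, hC, htau⟩ := tau_le
  have hC0 := CK_pos 0
  refine ⟨2 * (2 * (300 * (C * 101) * 532 ^ 2)) * CK 0, by positivity, fun K hK => ?_⟩
  have hK' : (1 : ℝ) ≤ K := by exact_mod_cast hK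
  set H : ℕ → ℕ → ℕ → ℝ := fun k a b => if a < b then
    (1 : ℝ) / a * ((Nat.gcd (W (k * a)) (b - a) : ℝ) * (1 / ((b - a : ℕ) : ℝ))) else 0 with hH
  have hH0 : ∀ k a b, 0 ≤ H k a b := fun k a b => by rw [hH]; simp only; split_ifs <;> positivity
  have h1 : ∀ k ∈ KK K, ∑ a ∈ PR (25 * K), ∑ b ∈ PR (25 * K), H k a b ≤
      300 * (C * 2 ^ K * (101 * K)) := by
    intro k hk
    have hk1 := mem_KK hk
    have h2 : ∀ a ∈ PR (25 * K), ∑ b ∈ PR (25 * K), H k a b ≤
        (1 : ℝ) / a * (C * 2 ^ K * (101 * K)) := by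
      intro a ha
      have hn : W (k * a) ≠ 0 := by rw [W_kq (by omega) hk1.2.2 ha]; omega
      rw [hH]
      simp only
      rw [← sum_filter, ← mul_sum]
      refine mul_le_mul_of_nonneg_left ?_ (by positivity)
      have h3 := gcd_sum (W (k * a)) (2 ^ (100 * K)) hn
      have h4 := htau K _ hn (Wkq_le hk1.2.2 ha)
      have h5 := log_two_pow (100 * K)
      have h6 : 0 ≤ Real.log ((2 ^ (100 * K) : ℕ) : ℝ) := Real.log_natCast_nonneg _
      refine le_trans ?_ (h3.trans (mul_le_mul h4 (by push_cast at h5 ⊢; linarith) (by linarith)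
        (by positivity)))
      rw [← sum_image (s := (PR (25 * K)).filter (fun b => a < b)) (g := fun b => b - a)
        (f := fun j => (Nat.gcd (W (k * a)) j : ℝ) * (1 / j))]
      · refine sum_le_sum_of_subset_of_nonneg (fun j hj => ?_) fun _ _ _ => by positivity
        obtain ⟨b, hb, rfl⟩ := mem_image.1 hj
        obtain ⟨h7, h8⟩ := mem_filter.1 hb
        have := (big_q hk1.2.2 h7).2.2
        exact mem_Icc.2 ⟨by omega, by omega⟩
      · intro b hb b' hb' h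
        have := (mem_filter.1 hb).2
        have := (mem_filter.1 hb').2
        simp only at h
        omega
    refine (sum_le_sum h2).trans ?_
    rw [← sum_mul]
    exact mul_le_mul_of_nonneg_right (sum_PR _ (by omega)) (by positivity)
  have h2 : ∀ k ∈ KK K, ∑ q ∈ PR (25 * K), ∑ q' ∈ PR (25 * K),
      (if q ≠ q' then FF k q k q' else 0) ≤
      (1 : ℝ) / k * (2 * (2 * (300 * (C * 101) * 532 ^ 2)) * K) := by
    intro k hk
    have hk1 := mem_KK hk
    have h3 : ∀ q ∈ PR (25 * K), ∀ q' ∈ PR (25 * K), (if q ≠ q' then FF k q k q' else 0) ≤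
        (1 : ℝ) / k * (1 / k) * (532 * K) ^ 2 * (H k q q' + H k q' q) := by
      have key : ∀ a ∈ PR (25 * K), ∀ b ∈ PR (25 * K), a < b → ∀ P : ℝ,
          P ≤ Nat.gcd (W (k * a)) (b - a) * (532 * K) ^ 2 →
          (1 : ℝ) / a * (1 / b) * P ≤ (532 * K) ^ 2 * H k a b := by
        intro a ha b hb hab P hP
        rw [hH]
        simp only [if_pos hab]
        have h4 : (1 : ℝ) / b ≤ 1 / ((b - a : ℕ) : ℝ) :=
          one_div_le_one_div_of_le (by exact_mod_cast Nat.sub_pos_of_lt hab)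
            (by exact_mod_cast Nat.sub_le b a)
        calc _ ≤ (1 : ℝ) / a * (1 / b) * (Nat.gcd (W (k * a)) (b - a) * (532 * K) ^ 2) := by gcongr
          _ ≤ (1 : ℝ) / a * (1 / ((b - a : ℕ) : ℝ)) *
            (Nat.gcd (W (k * a)) (b - a) * (532 * K) ^ 2) := by gcongr
          _ = _ := by ring
      intro q hq q' hq'
      have a1 := hH0 k q q'
      have a2 := hH0 k q' q
      split_ifs with h
      · unfold FF
        rw [mul_assoc _ ((532 * (K : ℝ)) ^ 2)]
        refine mul_le_mul_of_nonneg_left ?_ (by positivity)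
        rcases lt_or_gt_of_ne h with h4 | h4
        · refine (key q hq q' hq' h4 _ (Ps_diag hK (by omega) hk1.2.2 hq hq' h4).1).trans ?_
          gcongr; linarith
        · rw [mul_comm ((1 : ℝ) / q)]
          refine (key q' hq' q hq h4 _ (Ps_diag hK (by omega) hk1.2.2 hq' hq h4).2).trans ?_
          gcongr; linarith
      · positivity
    refine (sum_le_sum fun q hq => sum_le_sum fun q' hq' => h3 q hq q' hq').trans ?_
    simp_rw [← mul_sum, sum_add_distrib]
    rw [sum_comm (f := fun q q' => H k q' q)]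
    have h4 := h1 k hk
    have h5 : (1 : ℝ) / k ≤ 1 / (2 ^ K * 2 ^ K) := by
      refine one_div_le_one_div_of_le (by positivity) ?_
      rw [← mul_pow]
      exact_mod_cast hk1.2.1.le
    have h6 : (K : ℝ) ^ 2 ≤ 2 * 2 ^ K := by exact_mod_cast sq_le K
    rw [mul_assoc, mul_assoc]
    refine mul_le_mul_of_nonneg_left ?_ (by positivity)
    calc _ ≤ 1 / (2 ^ K * 2 ^ K) * ((532 * (K : ℝ)) ^ 2 * (2 * (300 * (C * 2 ^ K * (101 * K))))) := by
          gcongr; linarith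
      _ = (K : ℝ) ^ 2 / 2 ^ K * (2 * (300 * (C * 101) * 532 ^ 2) * K) := by field_simp
      _ ≤ 2 * (2 * (300 * (C * 101) * 532 ^ 2) * K) := by
          gcongr
          rw [div_le_iff₀ (by positivity)]; exact h6
      _ = _ := by ring
  refine (sum_le_sum h2).trans ?_
  rw [← sum_mul]
  refine (mul_le_mul_of_nonneg_right (sumK0 K hK) (by positivity)).trans (le_of_eq ?_)
  ring

/-- index set -/
def MM (K : ℕ) : Finset (ℕ × ℕ) := KK K ×ˢ PR (25 * K)

lemma total : ∃ C : ℝ, 0 < C ∧ ∀ K : ℕ, 1 ≤ K → ∑ a ∈ MM K, ∑ b ∈ MM K,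
    (if a ≠ b then FF a.1 a.2 b.1 b.2 else 0) ≤ C * K ^ 2 := by
  obtain ⟨A, hA, h1⟩ := partA
  obtain ⟨B, hB, h2⟩ := partB
  refine ⟨A + B, by positivity, fun K hK => ?_⟩
  have h3 : ∀ a ∈ MM K, ∀ b ∈ MM K, (if a ≠ b then FF a.1 a.2 b.1 b.2 else 0) ≤
      (if a.1 ≠ b.1 then FF a.1 a.2 b.1 b.2 else 0) +
      (if b.1 = a.1 then (if a.2 ≠ b.2 then FF a.1 a.2 a.1 b.2 else 0) else 0) := by
    rintro ⟨k, q⟩ _ ⟨k', q'⟩ _
    have := FF_nonneg k q k' q'
    by_cases h4 : k = k'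
    · subst h4
      by_cases h5 : q = q' <;> simp [h5]
    · simp [h4, Ne.symm h4]
  refine (sum_le_sum fun a ha => sum_le_sum fun b hb => h3 a ha b hb).trans ?_
  simp_rw [sum_add_distrib]
  rw [add_mul]
  refine add_le_add (le_trans (le_of_eq ?_) (h1 K hK)) (le_trans (le_of_eq ?_) (h2 K hK))
  · unfold MM
    simp_rw [sum_product]
    rw [sum_comm (s := KK K) (t := KK K)]
    refine sum_congr rfl fun k _ => ?_
    rw [sum_comm]
    refine sum_congr rfl fun k' _ => ?_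
    split_ifs <;> simp
  · unfold MM
    simp_rw [sum_product]
    refine sum_congr rfl fun k hk => sum_congr rfl fun q _ => ?_
    rw [sum_comm]
    refine sum_congr rfl fun q' _ => ?_
    rw [sum_ite_eq' (KK K) k, if_pos hk]

end Pool.Agent.H49.WV
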