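import Pool.Agent.H49.WV7

set_option autoImplicit false

namespace Pool.Agent.H49.WV

open Finset Pool.Agent.H61.Sieve Pool.Agent.H54.PrimeSieve

lemma pow_big (i : ℕ) (hi : 7 ≤ i) : 8 * (i + 1) + 1 ≤ 2 ^ i ∧ 2 * (i + 2) ≤ 2 ^ i := by
  induction i, hi using Nat.le_induction with
  | base => norm_num
  | succ i _ ih => rw [pow_succ]; omega

lemma block_log (i : ℕ) (hi : 7 ≤ i) : (4 : ℝ) ^ i * Real.log 2 ≤
    ∑ p ∈ Ioc (4 ^ i : ℕ) (4 ^ (i + 1)), if p.Prime then Real.log p else 0 := by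
  have h1 := Chebyshev.theta_ge (4 ^ (i + 1))
  have h2 := Chebyshev.theta_le_log4_mul_x (x := ((4 ^ i : ℕ) : ℝ)) (by positivity)
  unfold Chebyshev.theta at h1 h2
  rw [Nat.floor_natCast, sum_filter] at h1 h2
  have h3 := sum_Ioc_consecutive (fun p : ℕ => if p.Prime then Real.log p else 0)
    (Nat.zero_le (4 ^ i)) (Nat.pow_le_pow_right (by norm_num : 0 < 4) (Nat.le_succ i))
  have hl4 : Real.log 4 = 2 * Real.log 2 := by
    rw [show (4 : ℝ) = 2 ^ 2 by norm_num, Real.log_pow]; norm_num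
  have h4 : √((4 ^ (i + 1) : ℕ) : ℝ) = 2 * 2 ^ i := by
    rw [show ((4 ^ (i + 1) : ℕ) : ℝ) = (2 * 2 ^ i) ^ 2 by
      push_cast; rw [mul_pow, ← pow_mul, mul_comm i 2, pow_mul, pow_succ]; norm_num; ring]
    exact Real.sqrt_sq (by positivity)
  have h5 : Real.log ((4 ^ (i + 1) : ℕ) : ℝ) = (i + 1) * (2 * Real.log 2) := by
    push_cast; rw [Real.log_pow, hl4]; push_cast; ring
  have h6 : Real.log (((4 ^ (i + 1) : ℕ) : ℝ) + 1) ≤ (i + 2) * (2 * Real.log 2) := by
    have h7 : ((4 ^ (i + 1) : ℕ) : ℝ) + 1 ≤ 4 ^ (i + 2) := by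
      have : (1 : ℝ) ≤ 4 ^ (i + 1) := one_le_pow₀ (by norm_num)
      push_cast; rw [pow_succ 4 (i + 1)]; linarith
    refine (Real.log_le_log (by positivity) h7).trans (le_of_eq ?_)
    rw [Real.log_pow, hl4]; push_cast; ring
  rw [h4, h5] at h1
  rw [hl4] at h2
  obtain ⟨a1, a2⟩ := pow_big i hi
  have a1' : 8 * ((i : ℝ) + 1) + 1 ≤ 2 ^ i := by exact_mod_cast a1
  have a2' : 2 * ((i : ℝ) + 2) ≤ 2 ^ i := by exact_mod_cast a2
  have e4 : (4 : ℝ) ^ i = 2 ^ i * 2 ^ i := by rw [← mul_pow]; norm_num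
  have hl : 0 < Real.log 2 := Real.log_pos (by norm_num)
  have h0 : (0 : ℝ) < 2 ^ i := by positivity
  have a3 : 2 * ((i : ℝ) + 2) + 8 * (i + 1) * 2 ^ i ≤ 4 ^ i := by rw [e4]; nlinarith
  have a4 := mul_le_mul_of_nonneg_right a3 hl.le
  simp only [Nat.succ_eq_add_one] at h3
  push_cast at h1 h2 h3 h6 ⊢
  rw [pow_succ] at h1 h6
  nlinarith

lemma PR_lower (K : ℕ) (hK : 7 ≤ K) : (1 : ℝ) / 16 ≤ ∑ q ∈ PR K, (1 : ℝ) / q := by
  have hK' : (7 : ℝ) ≤ K := by exact_mod_cast hK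
  have hl : 0 < Real.log 2 := Real.log_pos (by norm_num)
  have key : ∀ j ≤ K, (j : ℝ) / (16 * K) ≤
      ∑ p ∈ Ioc (4 ^ K : ℕ) (4 ^ (K + j)), if p.Prime then (1 : ℝ) / p else 0 := by
    intro j
    induction j with
    | zero => simp
    | succ j ih =>
      intro hj
      have h1 := ih (by omega)
      have h3 := sum_Ioc_consecutive (fun p : ℕ => if p.Prime then (1 : ℝ) / p else 0)
        (Nat.pow_le_pow_right (by norm_num : 0 < 4) (Nat.le_add_right K j))
        (Nat.pow_le_pow_right (by norm_num : 0 < 4) (Nat.le_succ (K + j)))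
      have h2 := block_log (K + j) (by omega)
      have h4 : ∀ p ∈ Ioc (4 ^ (K + j) : ℕ) (4 ^ (K + j + 1)),
          (if p.Prime then Real.log p else 0) * (1 / (4 * K * Real.log 2 * 4 ^ (K + j + 1))) ≤
          if p.Prime then (1 : ℝ) / p else 0 := by
        intro p hp
        obtain ⟨h5, h6⟩ := mem_Ioc.1 hp
        split_ifs with h
        · have h7 : (0 : ℝ) < p := by exact_mod_cast h.pos
          have h8 : (p : ℝ) ≤ 4 ^ (K + j + 1) := by exact_mod_cast h6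
          have h9 : Real.log p ≤ 4 * K * Real.log 2 := by
            have : (p : ℝ) ≤ 2 ^ (4 * K) := by
              have : p ≤ 2 ^ (4 * K) := by
                refine h6.trans ?_
                rw [show 4 = 2 ^ 2 by norm_num, ← pow_mul]
                exact Nat.pow_le_pow_right (by norm_num) (by omega)
              exact_mod_cast this
            refine (Real.log_le_log h7 this).trans (le_of_eq ?_)
            rw [Real.log_pow]; push_cast; ring
          rw [mul_one_div, div_le_div_iff₀ (by positivity) h7, one_mul]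
          exact mul_le_mul h9 h8 h7.le (by positivity)
        · simp
      have h5 := sum_le_sum h4
      rw [← sum_mul] at h5
      have h6 := mul_le_mul_of_nonneg_right h2
        (show (0 : ℝ) ≤ 1 / (4 * K * Real.log 2 * 4 ^ (K + j + 1)) by positivity)
      have h7 : (4 : ℝ) ^ (K + j) * Real.log 2 * (1 / (4 * K * Real.log 2 * 4 ^ (K + j + 1))) =
          1 / (16 * K) := by rw [pow_succ]; field_simp; norm_num
      have h8 : ((j + 1 : ℕ) : ℝ) / (16 * K) = j / (16 * K) + 1 / (16 * K) := by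
        push_cast; ring
      simp only [Nat.succ_eq_add_one] at h3
      rw [← add_assoc, ← h3, h8]
      linarith
  have h := key K le_rfl
  rw [← sum_filter, show 4 ^ (K + K) = 16 ^ K by rw [pow_add, ← mul_pow]; norm_num] at h
  refine le_trans (le_of_eq ?_) h
  field_simp

lemma LL_lower (K : ℕ) (hK : 7 ≤ K) : (K : ℝ) / 8 ≤ ∑ l ∈ LL K, (1 : ℝ) / l := by
  obtain ⟨J, rfl⟩ : ∃ J, K = J + 1 := ⟨K - 1, by omega⟩
  have h1 := harm_lo (4 ^ J)
  have h2 : ∑ u ∈ Icc 1 (4 ^ J), (1 : ℝ) / ((4 * u - 2 : ℕ) : ℝ) ≤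
      ∑ l ∈ LL (J + 1), (1 : ℝ) / l := by
    rw [← sum_image (s := Icc 1 (4 ^ J : ℕ)) (g := fun u : ℕ => 4 * u - 2)
      (f := fun l : ℕ => (1 : ℝ) / l)]
    · refine sum_le_sum_of_subset_of_nonneg (fun l hl => ?_) fun _ _ _ => by positivity
      obtain ⟨u, hu, rfl⟩ := mem_image.1 hl
      have := mem_Icc.1 hu
      rw [mem_LL, pow_succ]; omega
    · intro u hu v hv h
      have := mem_Icc.1 hu
      have := mem_Icc.1 hv
      simp only at h
      omega
  have h3 : ∑ u ∈ Icc 1 (4 ^ J : ℕ), (1 / u : ℝ) * (1 / 4) ≤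
      ∑ u ∈ Icc 1 (4 ^ J), (1 : ℝ) / ((4 * u - 2 : ℕ) : ℝ) := by
    refine sum_le_sum fun u hu => ?_
    have := mem_Icc.1 hu
    rw [one_div_mul_one_div]
    refine one_div_le_one_div_of_le (by exact_mod_cast (show 0 < 4 * u - 2 by omega)) ?_
    exact_mod_cast (show 4 * u - 2 ≤ u * 4 by omega)
  rw [← sum_mul] at h3
  have h4 : (J : ℝ) ≤ Real.log (((4 ^ J : ℕ) : ℝ) + 1) := by
    refine le_trans ?_ (Real.log_le_log (x := 4 ^ J) (by positivity) (by push_cast; linarith))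
    rw [Real.log_pow, show (4 : ℝ) = 2 ^ 2 by norm_num, Real.log_pow]
    have := Real.log_two_gt_d9
    have h0 : (0 : ℝ) ≤ J := Nat.cast_nonneg J
    push_cast; nlinarith
  have h5 : (6 : ℝ) ≤ J := by exact_mod_cast (show 6 ≤ J by omega)
  push_cast at h1 h4 ⊢
  linarith

lemma MM_lower (K : ℕ) (hK : 7 ≤ K) :
    (K : ℝ) / 2048 ≤ ∑ a ∈ MM K, (1 : ℝ) / ((a.1 * a.2 : ℕ) : ℝ) := by
  have h1 := LL_lower K hK
  have h2 := PR_lower K hK
  have h3 := PR_lower (25 * K) (by omega)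
  have e : ∑ a ∈ MM K, (1 : ℝ) / ((a.1 * a.2 : ℕ) : ℝ) = (∑ l ∈ LL K, (1 : ℝ) / l) *
      (∑ q ∈ PR K, (1 : ℝ) / q) * (∑ q ∈ PR (25 * K), (1 : ℝ) / q) := by
    unfold MM
    rw [sum_product, sum_mul_sum (LL K)]
    have := sum_KK K (fun k => (1 : ℝ) / k)
    simp only [Nat.cast_mul, ← one_div_mul_one_div] at this ⊢
    rw [← this, sum_mul_sum]
  rw [e]
  calc (K : ℝ) / 2048 = K / 8 * (1 / 16) * (1 / 16) := by ring
    _ ≤ _ := by gcongr

lemma mem_MM {K : ℕ} {a : ℕ × ℕ} (h : a ∈ MM K) :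
    (a.1 * a.2) % 4 = 2 ∧ a.1 * a.2 ≤ 2 ^ (106 * K) := by
  obtain ⟨h1, h2⟩ := mem_product.1 h
  have h3 := mem_KK h1
  have h4 := big_q h3.2.2 h2
  exact ⟨mod_mul_prime h3.1 h4.1 h4.2.1, kq_le h3.2.2 h2⟩

lemma MM_card (K : ℕ) : (MM K).card ≤ 2 ^ (106 * K) := by
  unfold MM
  rw [card_product, show 106 * K = 6 * K + 100 * K by omega, pow_add]
  refine Nat.mul_le_mul ?_ ?_
  · refine (card_le_card (t := Icc 1 (2 ^ (6 * K))) fun k hk => ?_).trans (by simp)
    have := mem_KK hk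
    exact mem_Icc.2 ⟨by omega, this.2.2⟩
  · refine (card_le_card (t := Icc 1 (2 ^ (100 * K))) fun q hq => ?_).trans (by simp)
    have := big_q (k := 1) Nat.one_le_two_pow hq
    exact mem_Icc.2 ⟨by omega, this.2.2⟩

/-- the large primes -/
def PP (K m : ℕ) : Finset ℕ := (Ioc (2 ^ (106 * K)) (2 ^ (240 * K) / m)).filter Nat.Prime

lemma PP_lower (K m : ℕ) (hK : 1 ≤ K) (hm0 : 0 < m) (hm : m ≤ 2 ^ (106 * K)) :
    (2 : ℝ) ^ (240 * K) / (1920 * K) * (1 / m) ≤ (PP K m).card := by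
  set n := 2 ^ (240 * K) / m with hn
  have hK' : (1 : ℝ) ≤ K := by exact_mod_cast hK
  have n1 : 2 ^ (134 * K) ≤ n := by
    rw [hn, Nat.le_div_iff_mul_le hm0, show 240 * K = 134 * K + 106 * K by omega, pow_add]
    exact Nat.mul_le_mul_left _ hm
  have n2 : n ≤ 2 ^ (240 * K) := Nat.div_le_self _ _
  have n0 : 2 ≤ n := le_trans (Nat.pow_le_pow_right (by norm_num) (by omega) : 2 ^ 1 ≤ _) n1
  have n3 : 2 ^ (240 * K) ≤ 2 * n * m := by
    have := Nat.lt_div_mul_add (a := 2 ^ (240 * K)) hm0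
    rw [← hn] at this
    nlinarith
  have n3' : (2 : ℝ) ^ (240 * K) ≤ 2 * n * m := by exact_mod_cast n3
  have h1 := Chebyshev.pi_ge n
  have h2 : Nat.primeCounting n ≤ (PP K m).card + (2 ^ (106 * K) + 1) := by
    rw [← Nat.primesLE_card_eq_primeCounting]
    refine (card_le_card (t := PP K m ∪ range (2 ^ (106 * K) + 1)) fun p hp => ?_).trans
      ((card_union_le _ _).trans (by simp))
    have h3 : p ∈ (range (n + 1)).filter Nat.Prime := hp
    obtain ⟨h4, h5⟩ := mem_filter.1 h3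
    have := mem_range.1 h4
    rw [mem_union]
    by_cases h6 : 2 ^ (106 * K) < p
    · exact Or.inl (mem_filter.2 ⟨mem_Ioc.2 ⟨h6, by omega⟩, h5⟩)
    · exact Or.inr (mem_range.2 (by omega))
  have h2' : (Nat.primeCounting n : ℝ) ≤ (PP K m).card + (2 ^ (106 * K) + 1) := by
    exact_mod_cast h2
  have l1 : Real.log n ≤ 240 * K := by exact_mod_cast log_le_of n2
  have l0 : 0 < Real.log n := Real.log_pos (by exact_mod_cast n0)
  have l2 : Real.log (n + 1) ≤ 241 * K := by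
    have : n + 1 ≤ 2 ^ (241 * K) := by
      have h3 : 2 ^ (240 * K + 1) ≤ 2 ^ (241 * K) := Nat.pow_le_pow_right (by norm_num) (by omega)
      rw [pow_succ] at h3
      omega
    exact_mod_cast log_le_of this
  have n4 : 960 * K * (2 ^ (106 * K) + 3) ≤ n := by
    have a1 : K ≤ 2 ^ K := Nat.lt_two_pow_self.le
    have a2 : 2 ^ 12 ≤ 2 ^ (27 * K) := Nat.pow_le_pow_right (by norm_num) (by omega)
    have a3 : 1 ≤ 2 ^ (106 * K) := Nat.one_le_two_pow
    have a4 : 2 ^ (134 * K) = 2 ^ (27 * K) * 2 ^ K * 2 ^ (106 * K) := by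
      rw [← pow_add, ← pow_add]; congr 1; omega
    calc 960 * K * (2 ^ (106 * K) + 3) ≤ 960 * K * (4 * 2 ^ (106 * K)) :=
          Nat.mul_le_mul_left _ (by omega)
      _ = 3840 * K * 2 ^ (106 * K) := by ring
      _ ≤ 2 ^ (27 * K) * 2 ^ K * 2 ^ (106 * K) :=
          Nat.mul_le_mul_right _ (Nat.mul_le_mul (by omega) a1)
      _ ≤ n := a4 ▸ n1
  have n4' : 960 * (K : ℝ) * (2 ^ (106 * K) + 3) ≤ n := by exact_mod_cast n4
  have hl := Real.log_two_gt_d9
  have p0 : (0 : ℝ) < 2 ^ (106 * K) := by positivity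
  have nn : (0 : ℝ) ≤ n := Nat.cast_nonneg n
  have h3 : (n / 2 - 241 * K) / (240 * K) ≤ (n * Real.log 2 - Real.log (n + 1)) / Real.log n := by
    refine div_le_div₀ (by nlinarith) (by nlinarith) l0 l1
  have h4 : (n : ℝ) / (960 * K) + (2 ^ (106 * K) + 1) ≤ (n / 2 - 241 * K) / (240 * K) := by
    rw [le_div_iff₀ (by positivity)]
    have : ((n : ℝ) / (960 * K) + (2 ^ (106 * K) + 1)) * (240 * K) =
      n / 4 + 240 * K * (2 ^ (106 * K) + 1) := by field_simp; ring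
    rw [this]
    nlinarith
  have hm' : (0 : ℝ) < m := by exact_mod_cast hm0
  have h5 : (2 : ℝ) ^ (240 * K) / (1920 * K) * (1 / m) ≤ n / (960 * K) := by
    rw [div_mul_div_comm, mul_one, div_le_div_iff₀ (by positivity) (by positivity)]
    nlinarith
  linarith

end Pool.Agent.H49.WV
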