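import Pool.Agent.H49.WV8

set_option autoImplicit false

namespace Pool.Agent.H49.WV

open Finset Pool.Agent.H61.Sieve Pool.Agent.H54.PrimeSieve

lemma cs {ι : Type} (Ω : Finset ι) (V : Finset ℕ) (f : ι → ℕ) (hf : ∀ a ∈ Ω, f a ∈ V) :
    (Ω.card : ℝ) ^ 2 ≤ V.card * ∑ a ∈ Ω, ∑ b ∈ Ω, if f a = f b then (1 : ℝ) else 0 := by
  have h1 : (Ω.card : ℝ) = ∑ v ∈ V, ((Ω.filter (fun a => f a = v)).card : ℝ) := by
    exact_mod_cast card_eq_sum_card_fiberwise hf
  rw [h1]
  refine sq_sum_le_card_mul_sum_sq.trans (le_of_eq ?_)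
  congr 1
  rw [← sum_fiberwise_of_maps_to hf]
  refine sum_congr rfl fun v _ => ?_
  rw [sq, ← nsmul_eq_mul, ← sum_const]
  refine sum_congr rfl fun a ha => ?_
  rw [(mem_filter.1 ha).2, sum_boole]
  congr 2
  ext b
  simp only [mem_filter, eq_comm]

lemma mem_PP {K m p : ℕ} (h : p ∈ PP K m) :
    p.Prime ∧ 2 ^ (106 * K) < p ∧ p ≤ 2 ^ (240 * K) / m := by
  obtain ⟨h1, h2⟩ := mem_filter.1 h
  exact ⟨h2, mem_Ioc.1 h1⟩

lemma W_mp {K m p : ℕ} (h0 : m % 4 = 2) (hm : m ≤ 2 ^ (106 * K)) (h : p ∈ PP K m) :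
    W (m * p) = m + p * W m :=
  W_mul m p (by omega) (mem_PP h).1 fun h1 => by
    have := Nat.le_of_dvd (by omega) h1
    have := (mem_PP h).2.1
    omega

lemma coll_diag {K m : ℕ} (h0 : m % 4 = 2) (hm : m ≤ 2 ^ (106 * K)) :
    (∑ p ∈ PP K m, ∑ p' ∈ PP K m, if W (m * p) = W (m * p') then (1 : ℝ) else 0) =
      (PP K m).card := by
  rw [card_eq_sum_ones, Nat.cast_sum]
  refine sum_congr rfl fun p hp => ?_
  have h1 : ∀ p' ∈ PP K m, (if W (m * p) = W (m * p') then (1 : ℝ) else 0) =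
      if p = p' then 1 else 0 := by
    intro p' hp'
    rw [W_mp h0 hm hp, W_mp h0 hm hp']
    have := W_ge m h0
    refine if_congr ⟨fun h => ?_, fun h => by rw [h]⟩ rfl rfl
    exact Nat.eq_of_mul_eq_mul_right (by omega) (Nat.add_left_cancel h)
  rw [sum_congr rfl h1, sum_ite_eq, if_pos hp]
  simp

lemma coll_off {K m m' : ℕ} (hK : 1 ≤ K) (h0 : m % 4 = 2) (hm : m ≤ 2 ^ (106 * K))
    (h0' : m' % 4 = 2) (hm' : m' ≤ 2 ^ (106 * K)) (hne : m ≠ m') :
    (∑ p ∈ PP K m, ∑ p' ∈ PP K m', if W (m * p) = W (m' * p') then (1 : ℝ) else 0) ≤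
      8 * 2 ^ (240 * K) / K ^ 2 * (1 / m * (1 / m') * Ps m m') + 2000000 * 2 ^ (16 * K) := by
  have hK' : (1 : ℝ) ≤ K := by exact_mod_cast hK
  have w1 := W_ge m h0
  have w2 := W_ge m' h0'
  have hyy : 2 ^ (2 * K) * 2 ^ (2 * K) ≤ 2 ^ (106 * K) := by
    rw [← pow_add]; exact Nat.pow_le_pow_right (by norm_num) (by omega)
  have h := two_forms m m' (W m) (W m') (2 ^ (240 * K) / m) (2 ^ (2 * K)) (by omega) (by omega) hne
    Nat.one_le_two_pow ((PP K m ×ˢ PP K m').filter (fun z => W (m * z.1) = W (m' * z.2)))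
    (fun z hz => by
      obtain ⟨h1, h2⟩ := mem_filter.1 hz
      obtain ⟨h3, h4⟩ := mem_product.1 h1
      rw [W_mp h0 hm h3, W_mp h0' hm' h4] at h2
      have a := mem_PP h3
      have b := mem_PP h4
      exact ⟨a.1, b.1, by omega, by omega, a.2.2, h2⟩)
  rw [← sum_product' (f := fun p p' => if W (m * p) = W (m' * p') then (1 : ℝ) else 0), sum_boole]
  refine h.trans ?_
  unfold Ps
  split_ifs with hd
  · have hl : (K : ℝ) ≤ Real.log (((2 ^ (2 * K) : ℕ) : ℝ) + 1) := by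
      refine le_trans ?_ (Real.log_le_log (x := 2 ^ (2 * K)) (by positivity)
        (by push_cast; linarith))
      rw [Real.log_pow]
      have := Real.log_two_gt_d9
      push_cast; nlinarith
    have hw := wt_crude hK hm hm'
    set w := wt (2 * W m * W m' * dd m m') ^ 2 with hw0
    have w0 : 0 ≤ w := by rw [hw0]; positivity
    set g : ℝ := ((Nat.gcd (W m) (W m') : ℕ) : ℝ) with hg
    have g0 : 0 ≤ g := Nat.cast_nonneg _
    have m0 : (0 : ℝ) < m := by exact_mod_cast (show 0 < m by omega)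
    have m0' : (0 : ℝ) < m' := by exact_mod_cast (show 0 < m' by omega)
    have w2' : (m' : ℝ) ≤ 2 * W m' := by exact_mod_cast w2
    have hX : ((2 ^ (240 * K) / m : ℕ) : ℝ) ≤ 2 ^ (240 * K) / m := by
      have := @Nat.cast_div_le ℝ _ _ _ (2 ^ (240 * K)) m
      push_cast at this; exact this
    have h1 : ((2 ^ (240 * K) / m : ℕ) : ℝ) * g / W m' ≤ 2 ^ (240 * K) / m * g / (m' / 2) := by
      gcongr; linarith
    have h2 : (((2 ^ (2 * K) * 2 ^ (2 * K) : ℕ) : ℝ)) ^ 4 = 2 ^ (16 * K) := by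
      push_cast; rw [← pow_add, ← pow_mul]; congr 1; omega
    have h3 : (1 : ℝ) ≤ 2 ^ (16 * K) := one_le_pow₀ (by norm_num)
    have h4 : 4 * w / K ^ 2 ≤ 4 * 532 ^ 2 := by
      rw [div_le_iff₀ (by positivity)]; nlinarith
    rw [h2]
    calc _ ≤ 4 * w * (2 ^ (240 * K) / m * g / (m' / 2) + 1) / K ^ 2 + 2 * 2 ^ (16 * K) := by
          gcongr
      _ = 8 * 2 ^ (240 * K) / K ^ 2 * (1 / m * (1 / m') * (g * w)) +
          (4 * w / K ^ 2 + 2 * 2 ^ (16 * K)) := by field_simp; ring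
      _ ≤ _ := by linarith
  · positivity

theorem lower : ∃ c : ℝ, 0 < c ∧ ∀ K : ℕ, 7 ≤ K →
    c * 2 ^ (240 * K) ≤ (((Icc 1 (2 ^ (240 * K))).image W).card : ℝ) := by
  classical
  obtain ⟨C, hC, htot⟩ := total
  set D : ℝ := 8 * C + 2000000 with hD
  set c0 : ℝ := 1 / (1920 * 2048) with hc0
  have c00 : 0 < c0 := by rw [hc0]; positivity
  have D0 : 0 < D := by positivity
  refine ⟨c0 ^ 2 / (c0 + D), by positivity, fun K hK => ?_⟩
  have hK' : (7 : ℝ) ≤ K := by exact_mod_cast hK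
  set x : ℝ := 2 ^ (240 * K) with hx
  have x0 : 0 < x := by positivity
  set V := (Icc 1 (2 ^ (240 * K))).image W with hV
  set Ω := (MM K).sigma (fun a => PP K (a.1 * a.2)) with hΩ
  have h1 := cs Ω V (fun z => W (z.1.1 * z.1.2 * z.2)) (fun z hz => by
    obtain ⟨h2, h3⟩ := mem_sigma.1 hz
    have h4 := mem_MM h2
    have h5 := mem_PP h3
    refine mem_image.2 ⟨_, mem_Icc.2 ⟨Nat.mul_pos (by omega) h5.1.pos, ?_⟩, rfl⟩
    rw [mul_comm]
    exact (Nat.le_div_iff_mul_le (by omega)).1 h5.2.2)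
  have hS : (Ω.card : ℝ) = ∑ a ∈ MM K, ((PP K (a.1 * a.2)).card : ℝ) := by
    rw [hΩ, card_sigma, Nat.cast_sum]
  have h2 : c0 * x ≤ Ω.card := by
    rw [hS]
    refine le_trans ?_ (sum_le_sum fun a ha => PP_lower K _ (by omega)
      (by have := mem_MM ha; omega) (mem_MM ha).2)
    rw [← mul_sum]
    refine le_trans (le_of_eq ?_) (mul_le_mul_of_nonneg_left (MM_lower K hK) (by positivity))
    rw [hc0, hx]; field_simp
  have h3 : (∑ a ∈ Ω, ∑ b ∈ Ω, if W (a.1.1 * a.1.2 * a.2) = W (b.1.1 * b.1.2 * b.2) then (1 : ℝ)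
      else 0) ≤ Ω.card + D * x := by
    rw [hS, hΩ]
    simp_rw [sum_sigma]
    have h4 : ∀ a ∈ MM K, (∑ p ∈ PP K (a.1 * a.2), ∑ b ∈ MM K, ∑ p' ∈ PP K (b.1 * b.2),
        if W (a.1 * a.2 * p) = W (b.1 * b.2 * p') then (1 : ℝ) else 0) ≤
        (PP K (a.1 * a.2)).card + ∑ b ∈ MM K, (8 * x / K ^ 2 *
          (if a ≠ b then FF a.1 a.2 b.1 b.2 else 0) + 2000000 * 2 ^ (16 * K)) := by
      intro a ha
      rw [sum_comm]
      have h5 : ∀ b ∈ MM K, (∑ p ∈ PP K (a.1 * a.2), ∑ p' ∈ PP K (b.1 * b.2),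
          if W (a.1 * a.2 * p) = W (b.1 * b.2 * p') then (1 : ℝ) else 0) ≤
          (if a = b then ((PP K (a.1 * a.2)).card : ℝ) else 0) + (8 * x / K ^ 2 *
          (if a ≠ b then FF a.1 a.2 b.1 b.2 else 0) + 2000000 * 2 ^ (16 * K)) := by
        intro b hb
        by_cases h : a = b
        · subst h
          rw [coll_diag (mem_MM ha).1 (mem_MM ha).2]
          simp
        · rw [if_neg h, if_pos h, zero_add]
          obtain ⟨a1, a2⟩ := mem_product.1 ha
          obtain ⟨b1, b2⟩ := mem_product.1 hb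
          have a3 := mem_KK a1
          have b3 := mem_KK b1
          refine (coll_off (by omega) (mem_MM ha).1 (mem_MM ha).2 (mem_MM hb).1 (mem_MM hb).2
            fun h6 => h ?_).trans (le_of_eq ?_)
          · have := kq_ne (by omega) a3.2.2 b3.2.2 a2 b2 h6
            exact Prod.ext this.1 this.2
          · unfold FF
            push_cast
            rw [← one_div_mul_one_div, ← one_div_mul_one_div]
            ring
      refine (sum_le_sum h5).trans (le_of_eq ?_)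
      rw [sum_add_distrib, sum_ite_eq, if_pos ha]
    refine (sum_le_sum h4).trans ?_
    rw [sum_add_distrib]
    refine add_le_add_right ?_ _
    simp_rw [sum_add_distrib, ← mul_sum]
    have h5 := htot K (by omega)
    have h6 : ((MM K).card : ℝ) ≤ 2 ^ (106 * K) := by exact_mod_cast MM_card K
    have h7 : 8 * x / K ^ 2 * (C * K ^ 2) = 8 * C * x := by field_simp
    have h8 := mul_le_mul_of_nonneg_left h5 (show 0 ≤ 8 * x / K ^ 2 by positivity)
    have h9 : (2 : ℝ) ^ (106 * K) * (2 ^ (106 * K) * 2 ^ (16 * K)) ≤ x := by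
      rw [← pow_add, ← pow_add]
      exact pow_le_pow_right₀ (by norm_num) (by omega)
    have h10 : ((MM K).card : ℝ) * ((MM K).card * 2 ^ (16 * K)) ≤
        2 ^ (106 * K) * (2 ^ (106 * K) * 2 ^ (16 * K)) := by gcongr
    simp only [sum_const, nsmul_eq_mul]
    rw [hD]
    nlinarith
  have V0 : (0 : ℝ) ≤ V.card := Nat.cast_nonneg _
  have h4 := h1.trans (mul_le_mul_of_nonneg_left h3 V0)
  generalize (Ω.card : ℝ) = S at h2 h4
  have S0 : 0 < S := lt_of_lt_of_le (by positivity) h2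
  have h5 : c0 * S ^ 2 ≤ V.card * (S * (c0 + D)) := by
    have : c0 * (S + D * x) ≤ S * (c0 + D) := by nlinarith
    nlinarith
  have h6 : c0 * S ≤ V.card * (c0 + D) := by
    apply le_of_mul_le_mul_left _ S0
    nlinarith
  rw [div_mul_eq_mul_div, div_le_iff₀ (by positivity)]
  nlinarith

theorem not_tendsto : ¬ Filter.Tendsto
    (fun x : ℕ => (((Icc 1 x).image W).card : ℝ) / (x : ℝ)) Filter.atTop (nhds 0) := by
  intro h
  obtain ⟨c, hc, hl⟩ := lower
  obtain ⟨N, hN⟩ := Filter.eventually_atTop.1 (h.eventually (gt_mem_nhds hc))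
  obtain ⟨K, hK⟩ : ∃ K, N + 7 ≤ K := ⟨_, le_rfl⟩
  have h1 := hl K (by omega)
  have h2 := hN (2 ^ (240 * K)) (le_trans (by omega) Nat.lt_two_pow_self.le)
  rw [div_lt_iff₀ (by positivity)] at h2
  push_cast at h2
  linarith

end Pool.Agent.H49.WV
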