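import Pool.Agent.H49.WinDefs

namespace Pool.Agent.H49.Win

open NumberField

lemma wn_formula {K : Type} [Field K] [NumberField K] {p : Ideal (𝓞 K)} (hp : p.IsPrime) (hp0 : p ≠ ⊥)
    (c : ℝ) {r : 𝓞 K} (hr : r ≠ 0) :
    wn p c r = (Ideal.absNorm (Ideal.span {r}) : ℝ) *
      (c / Ideal.absNorm p) ^ multiplicity p (Ideal.span {r}) := by
  classical
  have hI : Ideal.span {r} ≠ ⊥ := by simpa using hr
  have hN : (Ideal.absNorm p : ℝ) ≠ 0 := by exact_mod_cast (Ideal.absNorm_eq_zero_iff.not.mpr hp0)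
  have key : ∀ s : Multiset (Ideal (𝓞 K)), (s.map fun q => if q = p then c else (Ideal.absNorm q : ℝ)).prod
      = (Ideal.absNorm s.prod : ℝ) * (c / Ideal.absNorm p) ^ s.count p := by
    intro s
    induction s using Multiset.induction_on with
    | empty => simp
    | cons a s ih =>
      rw [Multiset.map_cons, Multiset.prod_cons, ih, Multiset.prod_cons, map_mul, Multiset.count_cons]
      by_cases h : a = p
      · subst h; simp only [if_true]; push_cast; rw [pow_succ]; field_simp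
      · rw [if_neg h, if_neg (Ne.symm h)]; push_cast; ring
  have hirr : Irreducible p := (Ideal.prime_of_isPrime hp0 hp).irreducible
  unfold wn phi
  rw [if_neg hr, UniqueFactorizationMonoid.multiplicity_eq_count_normalizedFactors hirr hI, normalize_eq]
  have := key (UniqueFactorizationMonoid.normalizedFactors (Ideal.span {r}))
  rw [Ideal.prod_normalizedFactors_eq_self hI] at this
  convert this

abbrev R := QuadraticAlgebra ℤ 2 0

noncomputable def s2 : ℝ := Real.sqrt 2
noncomputable def eu (a : R) : ℝ := a.re + a.im * s2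
noncomputable def ew (a : R) : ℝ := a.re - a.im * s2
def om : R := ⟨0, 1⟩
def ep : R := ⟨3, 2⟩
def ei : R := ⟨3, -2⟩

lemma s_sq : s2 * s2 = 2 := Real.mul_self_sqrt (by norm_num)
lemma s_pos : 0 < s2 := Real.sqrt_pos.mpr (by norm_num)
lemma s_bd : 1.414 ≤ s2 ∧ s2 ≤ 1.415 := by
  have := s_sq; have := s_pos
  constructor <;> nlinarith

lemma eu_mul (a b : R) : eu (a * b) = eu a * eu b := by
  simp only [eu, QuadraticAlgebra.re_mul, QuadraticAlgebra.im_mul]; push_cast
  linear_combination (-(a.im : ℝ) * b.im) * s_sq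
lemma ew_mul (a b : R) : ew (a * b) = ew a * ew b := by
  simp only [ew, QuadraticAlgebra.re_mul, QuadraticAlgebra.im_mul]; push_cast
  linear_combination (-(a.im : ℝ) * b.im) * s_sq
lemma eu_sub (a b : R) : eu (a - b) = eu a - eu b := by
  simp only [eu, QuadraticAlgebra.re_sub, QuadraticAlgebra.im_sub]; push_cast; ring
lemma ew_sub (a b : R) : ew (a - b) = ew a - ew b := by
  simp only [ew, QuadraticAlgebra.re_sub, QuadraticAlgebra.im_sub]; push_cast; ring
lemma eu_add (a b : R) : eu (a + b) = eu a + eu b := by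
  simp only [eu, QuadraticAlgebra.re_add, QuadraticAlgebra.im_add]; push_cast; ring
lemma ew_add (a b : R) : ew (a + b) = ew a + ew b := by
  simp only [ew, QuadraticAlgebra.re_add, QuadraticAlgebra.im_add]; push_cast; ring
lemma eu_one : eu 1 = 1 := by simp [eu, QuadraticAlgebra.re_one, QuadraticAlgebra.im_one]
lemma ew_one : ew 1 = 1 := by simp [ew, QuadraticAlgebra.re_one, QuadraticAlgebra.im_one]
lemma eu_om : eu om = s2 := by simp [eu, om]
lemma ew_om : ew om = -s2 := by simp [ew, om]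
lemma eu_pow (a : R) (n : ℕ) : eu (a ^ n) = eu a ^ n := by
  induction n with
  | zero => simp [eu_one]
  | succ n ih => rw [pow_succ, eu_mul, ih, pow_succ]
lemma norm_eq (a : R) : a.norm = a.re * a.re - 2 * (a.im * a.im) := by
  rw [QuadraticAlgebra.norm_def]; ring
lemma norm_uw (a : R) : (a.norm : ℝ) = eu a * ew a := by
  rw [norm_eq]; simp only [eu, ew]; push_cast
  linear_combination ((a.im : ℝ) * a.im) * s_sq

lemma norm_eq_zero' {a : R} (h : a.norm = 0) : a = 0 := by
  rw [norm_eq] at h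
  have h2 : ∀ n : ℤ, (2:ℤ) ≠ n * n := by
    intro n hn
    have h1 : n ≤ 1 := by nlinarith
    have h2 : -1 ≤ n := by nlinarith
    interval_cases n <;> omega
  have h3 : (⟨a.re, a.im⟩ : ℤ√2) = 0 :=
    (Zsqrtd.norm_eq_zero h2 _).mp (by rw [Zsqrtd.norm_def]; simp only; linarith)
  ext
  · simpa using congrArg Zsqrtd.re h3
  · simpa using congrArg Zsqrtd.im h3

instance : NoZeroDivisors R where
  eq_zero_or_eq_zero_of_mul_eq_zero := by
    intro a b h
    have : (a * b).norm = 0 := by rw [h]; simp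
    rw [map_mul] at this
    rcases mul_eq_zero.mp this with h | h
    · exact Or.inl (norm_eq_zero' h)
    · exact Or.inr (norm_eq_zero' h)

instance : IsDomain R := NoZeroDivisors.to_isDomain R

lemma euw_ne {a : R} (ha : a ≠ 0) : eu a ≠ 0 ∧ ew a ≠ 0 := by
  have h : (a.norm : ℝ) ≠ 0 := by exact_mod_cast fun h => ha (norm_eq_zero' h)
  rw [norm_uw] at h
  exact mul_ne_zero_iff.mp h

lemma euclid (a b : R) (hb : b ≠ 0) : ∃ q : R, (a - b * q).norm.natAbs < b.norm.natAbs := by
  obtain ⟨n1, n2⟩ := euw_ne hb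
  have sp := s_pos
  obtain ⟨X, hX⟩ : ∃ X, X = (eu a / eu b + ew a / ew b) / 2 := ⟨_, rfl⟩
  obtain ⟨Y, hY⟩ : ∃ Y, Y = (eu a / eu b - ew a / ew b) / (2 * s2) := ⟨_, rfl⟩
  have hu : eu a = eu b * (X + Y * s2) := by rw [hX, hY]; field_simp; ring
  have hw : ew a = ew b * (X - Y * s2) := by rw [hX, hY]; field_simp; ring
  refine ⟨⟨round X, round Y⟩, ?_⟩
  have r1 := abs_sub_round X
  have r2 := abs_sub_round Y
  have e : ((a - b * ⟨round X, round Y⟩).norm : ℝ) =
      b.norm * ((X - round X) ^ 2 - 2 * (Y - round Y) ^ 2) := by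
    rw [norm_uw, norm_uw, eu_sub, ew_sub, eu_mul, ew_mul, hu, hw]
    have e1 : eu ⟨round X, round Y⟩ = round X + round Y * s2 := rfl
    have e2 : ew ⟨round X, round Y⟩ = round X - round Y * s2 := rfl
    rw [e1, e2]
    linear_combination (-(eu b * ew b) * (Y - round Y) ^ 2) * s_sq
  have q1 : (X - round X) ^ 2 ≤ 1 / 4 := by rw [← sq_abs]; nlinarith [abs_nonneg (X - round X)]
  have q2 : (Y - round Y) ^ 2 ≤ 1 / 4 := by rw [← sq_abs]; nlinarith [abs_nonneg (Y - round Y)]
  have q3 : |(X - round X) ^ 2 - 2 * (Y - round Y) ^ 2| ≤ 1 / 2 := by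
    rw [abs_le]; constructor <;> nlinarith [sq_nonneg (X - round X), sq_nonneg (Y - round Y)]
  have hN : 0 < |(b.norm : ℝ)| := by rw [norm_uw]; exact abs_pos.mpr (mul_ne_zero n1 n2)
  have : |((a - b * ⟨round X, round Y⟩).norm : ℝ)| < |(b.norm : ℝ)| := by
    rw [e, abs_mul]; nlinarith
  have h2 : |(a - b * ⟨round X, round Y⟩).norm| < |b.norm| := by exact_mod_cast this
  rw [Int.abs_eq_natAbs, Int.abs_eq_natAbs] at h2
  exact_mod_cast h2

instance : IsPrincipalIdealRing R where
  principal := by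
    intro I
    by_cases h : ∃ n, ∃ b ∈ I, b ≠ 0 ∧ b.norm.natAbs = n
    · classical
      obtain ⟨b, hb, hb0, hn⟩ := Nat.find_spec h
      refine ⟨b, le_antisymm ?_ ((Ideal.span_singleton_le_iff_mem I).mpr hb)⟩
      intro a ha
      obtain ⟨q, hq⟩ := euclid a b hb0
      have : a - b * q = 0 := by
        by_contra hne
        exact Nat.find_min h (hn ▸ hq) ⟨_, I.sub_mem ha (I.mul_mem_right q hb), hne, rfl⟩
      exact Ideal.mem_span_singleton.mpr ⟨q, sub_eq_zero.mp this⟩
    · refine ⟨0, ?_⟩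
      rw [Submodule.span_singleton_eq_bot.mpr rfl, eq_bot_iff]
      intro a ha
      by_contra hne
      exact h ⟨_, a, ha, hne, rfl⟩

lemma om_dvd (a : R) : om ∣ a ↔ 2 ∣ a.re := by
  constructor
  · rintro ⟨y, rfl⟩
    simp [om]
  · rintro ⟨t, ht⟩
    refine ⟨⟨a.im, t⟩, ?_⟩
    ext
    · simp [om, ht]
    · simp [om]

lemma one_le_norm {k : R} (hk : ¬ om ∣ k) : 1 ≤ |eu k| * |ew k| := by
  have h0 : k.norm ≠ 0 := fun h => hk (by rw [norm_eq_zero' h]; exact dvd_zero _)
  rw [← abs_mul, ← norm_uw]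
  exact_mod_cast Int.one_le_abs h0

lemma ep_ei : ep * ei = 1 := by decide

lemma odd_mul {a b : R} (ha : ¬ om ∣ a) (hb : ¬ om ∣ b) : ¬ om ∣ a * b := by
  rw [om_dvd] at *
  simp only [QuadraticAlgebra.re_mul]
  intro h
  have h1 : (2:ℤ) ∣ a.re * b.re := by
    have : (2:ℤ) ∣ 2 * a.im * b.im := ⟨a.im * b.im, by ring⟩
    exact (dvd_add_left this).mp h
  rcases Int.prime_two.dvd_or_dvd h1 with h | h
  · exact ha h
  · exact hb h

lemma om_pow_dvd (i : ℕ) : om ^ (i + 1) ∣ ep ^ 2 ^ i - 1 := by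
  induction i with
  | zero => rw [pow_one, om_dvd]; decide
  | succ i ih =>
    have h1 : ep ^ 2 ^ (i + 1) - 1 = (ep ^ 2 ^ i - 1) * ((ep ^ 2 ^ i - 1) + 2) := by
      rw [pow_succ 2, pow_mul]; ring
    rw [h1, pow_succ]
    refine mul_dvd_mul ih (dvd_add ((dvd_pow_self om (by omega)).trans ih) ?_)
    rw [om_dvd]; decide

/-- the key lower bound -/
lemma far {E E' : R} (hE : E * E' = 1) (hN : eu E * ew E = 1) (hbig : 101 ≤ eu E) (k : R) (hk : ¬ om ∣ k)
    (hne : (E - 1) * k + om ≠ 0) :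
    |eu (E - 1)| * |ew (E - 1)| ≤ 14 * (|eu ((E - 1) * k + om)| * |ew ((E - 1) * k + om)|) := by
  have sb := s_bd
  have sp := s_pos
  obtain ⟨T, hT⟩ : ∃ T, T = eu E := ⟨_, rfl⟩
  have T1 : 101 ≤ T := hT ▸ hbig
  have hw : ew E = 1 / T := by
    rw [← hT] at hN; rw [eq_div_iff (by linarith)]; linarith
  have hu' : eu E' = 1 / T := by
    have := eu_mul E E'; rw [hE, eu_one, ← hT] at this; field_simp; linarith
  have hw' : ew E' = T := by
    have := ew_mul E E'; rw [hE, ew_one, hw] at this; field_simp at this; linarith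
  obtain ⟨A, hA⟩ : ∃ A, A = 1 / (T - 1) := ⟨_, rfl⟩
  have T2 : T - 1 ≠ 0 := by linarith
  have T0 : T ≠ 0 := by linarith
  have A0 : 0 < A := by rw [hA]; apply div_pos <;> linarith
  have A1 : A ≤ 1 / 100 := by rw [hA]; apply one_div_le_one_div_of_le <;> linarith
  have AT : A * T = 1 + A := by rw [hA]; field_simp; ring
  have hEo : ¬ om ∣ E := by
    intro h
    have : om ∣ 1 := hE ▸ h.mul_right E'
    rw [om_dvd] at this; revert this; decide
  have hEo' : ¬ om ∣ E' := by
    intro h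
    have : om ∣ 1 := hE ▸ h.mul_left E
    rw [om_dvd] at this; revert this; decide
  let P : ℝ → ℝ → Prop := fun u w => ∃ k : R, ¬ om ∣ k ∧ u = eu k + s2 * A ∧ w = ew k + s2 * (1 + A)
  have P1 : ∀ u w, P u w → P (T * u) (w / T) := by
    rintro u w ⟨k, hk, rfl, rfl⟩
    refine ⟨E * k + om, fun h => odd_mul hEo hk ((dvd_add_left dvd_rfl).mp h), ?_, ?_⟩
    · rw [eu_add, eu_mul, eu_om, ← hT]; linear_combination s2 * AT
    · rw [ew_add, ew_mul, ew_om, hw]; field_simp; linear_combination (-s2) * AT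
  have P2 : ∀ u w, P u w → P (u / T) (T * w) := by
    rintro u w ⟨k, hk, rfl, rfl⟩
    refine ⟨E' * (k - om), odd_mul hEo' (fun h => hk (by simpa using dvd_add h (dvd_refl om))), ?_, ?_⟩
    · rw [eu_mul, eu_sub, eu_om, hu']; field_simp; linear_combination (-s2) * AT
    · rw [ew_mul, ew_sub, ew_om, hw']; linear_combination s2 * AT
  have P3 : ∀ (j : ℤ) u w, P u w → P (T ^ j * u) (w / T ^ j) := by
    intro j
    induction j using Int.induction_on with
    | zero => intro u w h; simpa using h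
    | succ j ih =>
      intro u w h
      have := P1 _ _ (ih u w h)
      rw [zpow_add_one₀ T0]
      convert this using 1
      · ring
      · field_simp
    | pred j ih =>
      intro u w h
      have := P2 _ _ (ih u w h)
      rw [zpow_sub_one₀ T0]
      convert this using 1
      · field_simp
      · field_simp
  have P4 : ∀ u w, P u w → s2 * A ≤ |u| → |u| ≤ s2 * (1 + A) → 1 ≤ 14 * (|u| * |w|) := by
    rintro u w ⟨k, hk, hu, hw⟩ h1 h2
    have k1 := one_le_norm hk
    have k2 := one_le_norm (k := k - om) (fun h => hk (by simpa using dvd_add h (dvd_refl om)))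
    rw [eu_sub, ew_sub, eu_om, ew_om] at k2
    have sA : s2 * A ≤ 0.015 := by nlinarith
    have sA0 : 0 ≤ s2 * A := by positivity
    have b1 : |eu k - s2| ≤ 3 := by
      rw [abs_le] at h2 ⊢; constructor <;> nlinarith
    have b2 : |ew k - -s2| ≤ |w| + 0.015 := by
      rw [abs_le]; constructor <;> nlinarith [le_abs_self w, neg_abs_le w]
    have w1 : 1 / 4 ≤ |w| := by
      by_contra hh
      nlinarith [abs_nonneg (eu k - s2), abs_nonneg (ew k - -s2)]
    have b3 : |eu k| ≤ 2 * |u| := by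
      rw [abs_le]; constructor <;> nlinarith [le_abs_self u, neg_abs_le u]
    have b4 : |ew k| ≤ 7 * |w| := by
      rw [abs_le]; constructor <;> nlinarith [le_abs_self w, neg_abs_le w]
    have := mul_le_mul b3 b4 (abs_nonneg _) (by positivity)
    linarith
  have e1 : eu (E - 1) = T - 1 := by rw [eu_sub, eu_one, hT]
  have e2 : ew (E - 1) = 1 / T - 1 := by rw [ew_sub, ew_one, hw]
  have e3 : 1 / T - 1 ≠ 0 := by
    have : 1 / T < 1 := by rw [div_lt_one (by linarith)]; linarith
    linarith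
  have u1 : eu ((E - 1) * k + om) = eu (E - 1) * (eu k + s2 * A) := by
    rw [eu_add, eu_mul, eu_om, e1]; linear_combination (-s2) * AT
  have u2 : ew ((E - 1) * k + om) = ew (E - 1) * (ew k + s2 * (1 + A)) := by
    rw [ew_add, ew_mul, ew_om, e2]; field_simp; linear_combination s2 * AT
  have u0 : eu k + s2 * A ≠ 0 := by
    intro h; exact (euw_ne hne).1 (by rw [u1, h, mul_zero])
  have up : 0 < |eu k + s2 * A| := abs_pos.mpr u0
  obtain ⟨j, j1, j2⟩ := exists_mem_Ioc_zpow (x := s2 * A / |eu k + s2 * A|) (y := T) (by positivity)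
    (by linarith)
  have Tj : 0 < T ^ (j + 1) := zpow_pos (by linarith) _
  have := P4 _ _ (P3 (j + 1) _ _ ⟨k, hk, rfl, rfl⟩)
    (by rw [abs_mul, abs_of_pos Tj]; rwa [div_le_iff₀ up] at j2)
    (by
      rw [abs_mul, abs_of_pos Tj, zpow_add_one₀ T0]
      rw [lt_div_iff₀ up] at j1
      have := mul_le_mul_of_nonneg_right j1.le (by linarith : (0:ℝ) ≤ T)
      nlinarith)
  rw [abs_mul, abs_div, abs_of_pos Tj] at this
  have e4 : T ^ (j + 1) * |eu k + s2 * A| * (|ew k + s2 * (1 + A)| / T ^ (j + 1)) =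
      |eu k + s2 * A| * |ew k + s2 * (1 + A)| := by field_simp
  rw [e4] at this
  rw [u1, u2, abs_mul, abs_mul]
  have := mul_le_mul_of_nonneg_left this (by positivity : 0 ≤ |eu (E - 1)| * |ew (E - 1)|)
  linarith

end Pool.Agent.H49.Win
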