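import Pool.Agent.H49.WinA

namespace Pool.Agent.H49.Win

open NumberField

section
variable {K : Type} [Field K] [NumberField K] (e : 𝓞 K ≃+* R)

lemma absNorm_eq (r : 𝓞 K) : Ideal.absNorm (Ideal.span {r}) = (e r).norm.natAbs := by
  rw [Ideal.absNorm_span_singleton, ← Algebra.norm_eq_of_algEquiv e.toIntAlgEquiv r,
    ← QuadraticAlgebra.det_toLinearMap_eq_norm, Algebra.norm_apply]
  congr 2

lemma pow_dvd_iff (k : ℕ) (r : 𝓞 K) :
    Ideal.span {e.symm om} ^ k ∣ Ideal.span {r} ↔ om ^ k ∣ e r := by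
  rw [Ideal.span_singleton_pow, Ideal.dvd_span_singleton, Ideal.mem_span_singleton, ← map_dvd_iff e]
  simp

lemma p_ne : Ideal.span {e.symm om} ≠ ⊥ := by
  have : om ≠ 0 := by decide
  simpa using this

lemma p_prime : (Ideal.span {e.symm om}).IsPrime := by
  have h0 : om ≠ 0 := by decide
  have h1 : Prime om := by
    refine ⟨h0, ?_, ?_⟩
    · intro h
      have := isUnit_iff_dvd_one.mp h
      rw [om_dvd] at this; revert this; decide
    · intro a b h
      by_contra hh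
      push Not at hh
      exact odd_mul hh.1 hh.2 h
  rw [Ideal.span_singleton_prime (by simpa using h0)]
  exact (MulEquiv.prime_iff e.symm).mpr h1

lemma p_norm : Ideal.absNorm (Ideal.span {e.symm om}) = 2 := by
  rw [absNorm_eq e]; simp [norm_eq, om]

lemma wn_eq (c : ℝ) {r : 𝓞 K} (hr : r ≠ 0) : wn (Ideal.span {e.symm om}) c r =
    ((e r).norm.natAbs : ℝ) * (c / 2) ^ multiplicity (Ideal.span {e.symm om}) (Ideal.span {r}) := by
  rw [wn_formula (p_prime e) (p_ne e) c hr, p_norm e, absNorm_eq e]; norm_num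

lemma wn_two (r : 𝓞 K) : wn (Ideal.span {e.symm om}) 2 r = ((e r).norm.natAbs : ℝ) := by
  by_cases hr : r = 0
  · simp [wn, hr]
  · rw [wn_eq e 2 hr]; simp

lemma two_mem : (2:ℝ) ∈ window (Ideal.span {e.symm om}) := by
  refine ⟨by norm_num, fun r => by rw [wn_two]; positivity, ?_, ?_, ?_⟩
  · intro t _
    obtain ⟨n, hn⟩ := exists_nat_ge t
    refine Set.Finite.subset (Set.Finite.image (fun m : ℕ => (m : ℝ)) (Set.finite_Iic n)) ?_
    rintro x ⟨⟨r, rfl⟩, -, h1⟩
    rw [wn_two] at h1 ⊢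
    exact ⟨_, by exact_mod_cast h1.trans hn, rfl⟩
  · intro r
    rw [wn_two]
    constructor
    · intro h
      have h1 : (e r).norm = 0 := by exact_mod_cast Int.natAbs_eq_zero.mp (by exact_mod_cast h)
      simpa using norm_eq_zero' h1
    · rintro rfl; simp
  · intro a b hb
    obtain ⟨q, hq⟩ := euclid (e a) (e b) (by simpa using hb)
    refine ⟨e.symm q, ?_⟩
    rw [wn_two, wn_two]
    simp only [map_sub, map_mul, RingEquiv.apply_symm_apply]
    exact_mod_cast hq

lemma natAbs_uw (a : R) : (a.norm.natAbs : ℝ) = |eu a| * |ew a| := by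
  rw [← abs_mul, ← norm_uw, Nat.cast_natAbs]; push_cast; rfl

lemma not_mem {c : ℝ} (hc : c < 2) : c ∉ window (Ideal.span {e.symm om}) := by
  rintro ⟨hc0, -, -, -, h⟩
  obtain ⟨j, hj⟩ := exists_pow_lt_of_lt_one (by norm_num : (0:ℝ) < 1 / 28) (by linarith : c / 2 < 1)
  obtain ⟨E, hE⟩ : ∃ E, E = ep ^ 2 ^ (j + 2) := ⟨_, rfl⟩
  have hd : om ^ (j + 3) ∣ E - 1 := hE ▸ om_pow_dvd (j + 2)
  have sb := s_bd
  have hbig : 101 ≤ eu E := by
    rw [hE, eu_pow]
    have h1 : (5:ℝ) ≤ eu ep := by simp only [eu, ep]; push_cast; linarith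
    have h2 : 4 ≤ 2 ^ (j + 2) := by rw [pow_add]; nlinarith [Nat.one_le_two_pow (n := j)]
    calc (101:ℝ) ≤ 5 ^ 4 := by norm_num
      _ ≤ eu ep ^ 4 := pow_le_pow_left₀ (by norm_num) h1 4
      _ ≤ _ := pow_le_pow_right₀ (by linarith) h2
  have hE1 : E - 1 ≠ 0 := by
    intro h0
    have := eu_sub E 1
    rw [h0, eu_one] at this
    simp [eu] at this hbig
    linarith
  have h0 : om ≠ 0 := by decide
  have hb : e.symm (om * (E - 1)) ≠ 0 := (map_ne_zero_iff _ e.symm.injective).mpr (mul_ne_zero h0 hE1)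
  obtain ⟨q, hq⟩ := h (e.symm (E - 1 + om)) _ hb
  have ea : e (e.symm (E - 1 + om) - e.symm (om * (E - 1)) * q) = (E - 1) * (1 - om * e q) + om := by
    simp only [map_sub e, map_mul e, RingEquiv.apply_symm_apply]; ring
  have hk : ¬ om ∣ 1 - om * e q := by
    intro h
    have : om ∣ 1 := by simpa using dvd_add h (dvd_mul_right om (e q))
    rw [om_dvd] at this; revert this; decide
  have h2 : ¬ om ^ 2 ∣ (E - 1) * (1 - om * e q) + om := by
    intro h
    have h1 : om ^ 2 ∣ (E - 1) * (1 - om * e q) := ((pow_dvd_pow om (by omega)).trans hd).mul_right _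
    have h3 : om * om ∣ om * 1 := by rw [← sq, mul_one]; exact (dvd_add_right h1).mp h
    have := (mul_dvd_mul_iff_left h0).mp h3
    rw [om_dvd] at this; revert this; decide
  have hne : (E - 1) * (1 - om * e q) + om ≠ 0 := fun h => h2 (h ▸ dvd_zero _)
  have ha : e.symm (E - 1 + om) - e.symm (om * (E - 1)) * q ≠ 0 := by
    intro h; rw [h, map_zero] at ea; exact hne ea.symm
  have hf := far (E := E) (E' := ei ^ 2 ^ (j + 2)) (by rw [hE, ← mul_pow, ep_ei, one_pow])
    (by rw [← norm_uw, hE, map_pow]; norm_num [norm_eq, ep]) hbig _ hk hne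
  rw [wn_eq e c ha, wn_eq e c hb, ea, RingEquiv.apply_symm_apply, natAbs_uw, natAbs_uw] at hq
  have m1 : multiplicity (Ideal.span {e.symm om})
      (Ideal.span {e.symm (E - 1 + om) - e.symm (om * (E - 1)) * q}) ≤ 1 := by
    by_contra hh
    apply h2
    rw [← ea, ← pow_dvd_iff e]
    exact (pow_dvd_pow _ (by omega)).trans (pow_multiplicity_dvd _ _)
  have m2 : j + 1 ≤ multiplicity (Ideal.span {e.symm om}) (Ideal.span {e.symm (om * (E - 1))}) := by
    refine (FiniteMultiplicity.of_prime_left (Ideal.prime_of_isPrime (p_ne e) (p_prime e))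
      (fun h => hb (Ideal.span_singleton_eq_bot.mp h))).le_multiplicity_of_pow_dvd ?_
    rw [pow_dvd_iff e, RingEquiv.apply_symm_apply]
    exact ((pow_dvd_pow om (by omega)).trans hd).mul_left _
  have g1 := pow_le_pow_of_le_one (by linarith : 0 ≤ c / 2) (by linarith) m1
  have g2 := pow_le_pow_of_le_one (by linarith : 0 ≤ c / 2) (by linarith) m2
  have g3 : |eu (om * (E - 1))| * |ew (om * (E - 1))| = 2 * (|eu (E - 1)| * |ew (E - 1)|) := by
    rw [eu_mul, ew_mul, eu_om, ew_om, abs_mul, abs_mul, abs_neg, abs_of_pos s_pos]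
    linear_combination (|eu (E - 1)| * |ew (E - 1)|) * s_sq
  rw [g3] at hq
  obtain ⟨X, hX⟩ : ∃ X, X = |eu ((E - 1) * (1 - om * e q) + om)| * |ew ((E - 1) * (1 - om * e q) + om)| :=
    ⟨_, rfl⟩
  obtain ⟨Y, hY⟩ : ∃ Y, Y = |eu (E - 1)| * |ew (E - 1)| := ⟨_, rfl⟩
  have X0 : 0 ≤ X := by rw [hX]; positivity
  have Y0 : 0 ≤ Y := by rw [hY]; positivity
  rw [← hX, ← hY] at hq hf
  have t1 := mul_le_mul_of_nonneg_left g1 X0
  have t2 := mul_le_mul_of_nonneg_left g2 (by positivity : 0 ≤ 2 * Y)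
  rw [pow_succ] at t2
  have t3 : 2 * Y * ((c / 2) ^ j * (c / 2)) ≤ 2 * Y * (1 / 28 * (c / 2)) := by gcongr
  nlinarith

include e in
lemma rank_pos : 1 ≤ Units.rank K := by
  by_contra h
  have h0 : Units.rank K = 0 := by omega
  let u : (𝓞 K)ˣ := ⟨e.symm ep, e.symm ei, by rw [← map_mul, ep_ei, map_one],
    by rw [← map_mul, mul_comm, ep_ei, map_one]⟩
  obtain ⟨⟨z, f⟩, hz, -⟩ := Units.exist_unique_eq_mul_prod K u
  have : IsEmpty (Fin (Units.rank K)) := by rw [h0]; infer_instance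
  simp only [Finset.univ_eq_empty, Finset.prod_empty, mul_one] at hz
  have h1 : IsOfFinOrder u := hz ▸ z.2
  obtain ⟨n, hn, h2⟩ := isOfFinOrder_iff_pow_eq_one.mp h1
  have h3 : ep ^ n = 1 := by
    have := congrArg (fun x : (𝓞 K)ˣ => e (x : 𝓞 K)) h2
    simpa [u] using this
  have h4 := eu_pow ep n
  rw [h3, eu_one] at h4
  have h5 : (1:ℝ) < eu ep := by simp only [eu, ep]; push_cast; linarith [s_pos]
  have := one_lt_pow₀ h5 hn.ne'
  linarith

end

theorem main : ∃ (K : Type) (_ : Field K) (_ : NumberField K), 1 ≤ Units.rank K ∧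
    ∃ p : Ideal (𝓞 K), p.IsPrime ∧ p ≠ ⊥ ∧ Ideal.absNorm p = 2 ∧ (2:ℝ) ∈ window p ∧
      (∀ c : ℝ, c < 2 → c ∉ window p) := by
  let K := FractionRing R
  let _ : Algebra ℤ K := Ring.toIntAlgebra K
  have : NumberField K := { to_finiteDimensional := Module.Finite.of_isLocalization ℤ R (nonZeroDivisors ℤ) }
  have : IsIntegralClosure R ℤ K := IsIntegralClosure.of_isIntegrallyClosed _ _ _
  let e := RingOfIntegers.equiv (K := K) R
  exact ⟨K, inferInstance, inferInstance, rank_pos e, _, p_prime e, p_ne e, p_norm e, two_mem e,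
    fun c hc => not_mem e hc⟩

end Pool.Agent.H49.Win
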