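import Mathlib

namespace Pool.Agent.H49.Win

open NumberField

variable {K : Type} [Field K] [NumberField K]

open Classical in
/-- the multiplicative function on nonzero ideals with value c at p and N q at every other prime q -/
noncomputable def phi (p : Ideal (𝓞 K)) (c : ℝ) (I : Ideal (𝓞 K)) : ℝ :=
  ((UniqueFactorizationMonoid.normalizedFactors I).map
    fun q => if q = p then c else (Ideal.absNorm q : ℝ)).prod

open Classical in
/-- the weighted norm on the ring of integers -/
noncomputable def wn (p : Ideal (𝓞 K)) (c : ℝ) (r : 𝓞 K) : ℝ :=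
  if r = 0 then 0 else phi p c (Ideal.span {r})

/-- Euclidean function on the ring of integers -/
def IsEuc (f : 𝓞 K → ℝ) : Prop :=
  (∀ r, 0 ≤ f r) ∧
  (∀ t : ℝ, 0 ≤ t → (Set.range f ∩ Set.Icc 0 t).Finite) ∧
  (∀ r, f r = 0 ↔ r = 0) ∧
  ∀ a b, b ≠ 0 → ∃ q, f (a - b * q) < f b

/-- the Euclidean window of p -/
def window (p : Ideal (𝓞 K)) : Set ℝ := {c | 0 < c ∧ IsEuc (wn p c)}

end Pool.Agent.H49.Win
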